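import Pool.Agent.M3.FP

/-!
# M3.FPMart: filtrations on finite probability spaces

`Filt X` = `X (t+1)` refines `X t`.  Martingale transforms, Doob's maximal inequality (sub- and supermartingales with
inputs `s t`), the up and down flips of a hysteresis flag (`flag`), `L2` sums.
-/

set_option autoImplicit false
set_option linter.unusedSectionVars false

namespace Pool.Agent.M3

open Finset Pool.Agent.PWZ

variable {Om : Type*} [Fintype Om]

/-- a filtration -/
def Filt {Om : Type*} {κ : ℕ → Type*} (X : ∀ t, Om → κ t) : Prop := ∀ t, Fac (X (t + 1)) (X t)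

theorem Filt.le {Om : Type*} {κ : ℕ → Type*} {X : ∀ t, Om → κ t} (h : Filt X) {s t : ℕ} (hst : s ≤ t) :
    Fac (X t) (X s) := by
  induction t, hst using Nat.le_induction with
  | base => exact Fac.refl _
  | succ t _ ih => exact (h t).trans ih

namespace FP

variable (P : FP Om) {κ : ℕ → Type*} {X : ∀ t, Om → κ t}

/-- one step of a transform -/
theorem step_eq {ι : Type*} {Y : Om → ι} {h : Om → ℝ} (hh : Fac Y h) (z z' : Om → ℝ) :
    P.E (fun w => h w * (z' w - z w)) = P.E (fun w => h w * (P.ce Y z' w - z w)) := by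
  have h1 := P.E_mul_ce hh z'
  have e1 : P.E (fun w => h w * (z' w - z w)) = P.E (fun w => h w * z' w) - P.E (fun w => h w * z w) := by
    rw [← E_sub]; exact P.E_congr (fun w _ => by ring)
  have e2 : P.E (fun w => h w * (P.ce Y z' w - z w)) =
      P.E (fun w => h w * P.ce Y z' w) - P.E (fun w => h w * z w) := by
    rw [← E_sub]; exact P.E_congr (fun w _ => by ring)
  rw [e1, e2, h1]

/-- martingale transform -/
theorem transform_eq {H Z : ℕ → Om → ℝ} (hH : ∀ t, Fac (X t) (H t)) (n : ℕ) :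
    P.E (fun w => ∑ t ∈ range n, H t w * (Z (t + 1) w - Z t w)) =
      P.E (fun w => ∑ t ∈ range n, H t w * (P.ce (X t) (Z (t + 1)) w - Z t w)) := by
  rw [E_sum, E_sum]
  exact Finset.sum_congr rfl (fun t _ => P.step_eq (hH t) _ _)

/-- for a supermartingale with inputs, on an event of the filtration the mean does not increase by more than the
inputs -/
theorem super_event {Z : ℕ → Om → ℝ} {s : ℕ → Om → ℝ}
    (hs : ∀ t w, P.p w ≠ 0 → P.ce (X t) (Z (t + 1)) w ≤ Z t w + s t w)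
    {t : ℕ} {h : Om → ℝ} (hh : Fac (X t) h) (hh0 : ∀ w, P.p w ≠ 0 → 0 ≤ h w) :
    P.E (fun w => h w * Z (t + 1) w) ≤ P.E (fun w => h w * Z t w) + P.E (fun w => h w * s t w) := by
  rw [← P.E_mul_ce hh, ← E_add]
  refine P.E_mono (fun w hw => ?_)
  have := mul_le_mul_of_nonneg_left (hs t w hw) (hh0 w hw)
  linarith [this]

/-- Doob's maximal inequality, nonnegative supermartingale with inputs -/
theorem doob_super (hX : Filt X) {Z : ℕ → Om → ℝ} {s : ℕ → Om → ℝ} (hZ : ∀ t, Fac (X t) (Z t))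
    (h0 : ∀ t w, P.p w ≠ 0 → 0 ≤ Z t w) (hs0 : ∀ t w, P.p w ≠ 0 → 0 ≤ s t w)
    (hs : ∀ t w, P.p w ≠ 0 → P.ce (X t) (Z (t + 1)) w ≤ Z t w + s t w) (n : ℕ) {c : ℝ} (hc : 0 ≤ c) :
    c * P.Pr (fun w => ∃ t ≤ n, c ≤ Z t w) ≤ P.E (Z 0) + ∑ t ∈ range n, P.E (s t) := by
  -- value `c` once the level has been reached, `Z` before
  set V : ℕ → Om → ℝ := fun t w => c * ind (∃ u ≤ t, c ≤ Z u w) + ind (¬ ∃ u ≤ t, c ≤ Z u w) * Z t w with hV
  have hstep : ∀ t, P.E (V (t + 1)) ≤ P.E (V t) + P.E (s t) := by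
    intro t
    have hfac : Fac (X t) (fun w => ind (¬ ∃ u ≤ t, c ≤ Z u w)) := by
      refine Fac.ind (fun v w hvw => not_congr ?_)
      constructor
      · rintro ⟨u, hu, h⟩
        exact ⟨u, hu, by rw [← hZ u v w (hX.le hu v w hvw)]; exact h⟩
      · rintro ⟨u, hu, h⟩
        exact ⟨u, hu, by rw [hZ u v w (hX.le hu v w hvw)]; exact h⟩
    have h1 := P.super_event hs hfac (fun w _ => ind_nonneg _)
    have h2 : P.E (V (t + 1)) ≤ P.E (fun w => c * ind (∃ u ≤ t, c ≤ Z u w) +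
        ind (¬ ∃ u ≤ t, c ≤ Z u w) * Z (t + 1) w) := by
      refine P.E_mono (fun w hw => ?_)
      simp only [hV]
      by_cases ha : ∃ u ≤ t, c ≤ Z u w
      · have hb : ∃ u ≤ t + 1, c ≤ Z u w := by
          obtain ⟨u, hu, h⟩ := ha; exact ⟨u, by omega, h⟩
        rw [ind_of ha, ind_of hb, ind_not (not_not.mpr ha), ind_not (not_not.mpr hb), zero_mul]
      · by_cases hb : ∃ u ≤ t + 1, c ≤ Z u w
        · have hz : c ≤ Z (t + 1) w := by
            obtain ⟨u, hu, h⟩ := hb
            rcases Nat.lt_or_ge u (t + 1) with h3 | h3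
            · exact absurd ⟨u, by omega, h⟩ ha
            · have : u = t + 1 := by omega
              rw [← this]; exact h
          rw [ind_not ha, ind_of ha, ind_of hb, ind_not (not_not.mpr hb)]
          linarith
        · rw [ind_not ha, ind_of ha, ind_not hb, ind_of hb]
    have h3 : P.E (fun w => ind (¬ ∃ u ≤ t, c ≤ Z u w) * s t w) ≤ P.E (s t) := by
      refine P.E_mono (fun w hw => ?_)
      have := mul_le_mul_of_nonneg_right (ind_le_one (¬ ∃ u ≤ t, c ≤ Z u w)) (hs0 t w hw)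
      linarith
    have h5 : P.E (fun w => c * ind (∃ u ≤ t, c ≤ Z u w) +
        ind (¬ ∃ u ≤ t, c ≤ Z u w) * Z (t + 1) w) = P.E (fun w => c * ind (∃ u ≤ t, c ≤ Z u w)) +
        P.E (fun w => ind (¬ ∃ u ≤ t, c ≤ Z u w) * Z (t + 1) w) := P.E_add _ _
    have h4 : P.E (V t) = P.E (fun w => c * ind (∃ u ≤ t, c ≤ Z u w)) +
        P.E (fun w => ind (¬ ∃ u ≤ t, c ≤ Z u w) * Z t w) := P.E_add _ _
    linarith
  have hsum : ∀ k, P.E (V k) ≤ P.E (V 0) + ∑ t ∈ range k, P.E (s t) := by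
    intro k
    induction k with
    | zero => simp
    | succ k ih => rw [Finset.sum_range_succ]; linarith [hstep k]
  have hV0 : P.E (V 0) ≤ P.E (Z 0) := by
    refine P.E_mono (fun w hw => ?_)
    simp only [hV]
    by_cases ha : ∃ u ≤ 0, c ≤ Z u w
    · obtain ⟨u, hu, h⟩ := ha
      have hu0 : u = 0 := by omega
      subst hu0
      have ha : ∃ u ≤ 0, c ≤ Z u w := ⟨0, le_refl _, h⟩
      rw [ind_of ha, ind_not (not_not.mpr ha)]
      linarith
    · rw [ind_not ha, ind_of ha]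
      linarith
  have hVn : c * P.Pr (fun w => ∃ t ≤ n, c ≤ Z t w) ≤ P.E (V n) := by
    unfold Pr
    rw [← E_smul]
    refine P.E_mono (fun w hw => ?_)
    simp only [hV]
    have := mul_nonneg (ind_nonneg (¬ ∃ u ≤ n, c ≤ Z u w)) (h0 n w hw)
    linarith
  linarith [hsum n]

/-- a submartingale increases on events of the filtration -/
theorem sub_event (hX : Filt X) {Z : ℕ → Om → ℝ}
    (hs : ∀ t w, P.p w ≠ 0 → Z t w ≤ P.ce (X t) (Z (t + 1)) w)
    {t n : ℕ} (htn : t ≤ n) {h : Om → ℝ} (hh : Fac (X t) h) (hh0 : ∀ w, P.p w ≠ 0 → 0 ≤ h w) :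
    P.E (fun w => h w * Z t w) ≤ P.E (fun w => h w * Z n w) := by
  induction n, htn using Nat.le_induction with
  | base => exact le_refl _
  | succ n hn ih =>
    refine ih.trans ?_
    have hh' : Fac (X n) h := (hX.le hn).trans hh
    rw [← P.E_mul_ce hh' (Z (n + 1))]
    exact P.E_mono (fun w hw => mul_le_mul_of_nonneg_left (hs n w hw) (hh0 w hw))

/-- Doob's maximal inequality, submartingale -/
theorem doob_sub (hX : Filt X) {Z : ℕ → Om → ℝ} (hZ : ∀ t, Fac (X t) (Z t))
    (h0 : ∀ t w, P.p w ≠ 0 → 0 ≤ Z t w)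
    (hs : ∀ t w, P.p w ≠ 0 → Z t w ≤ P.ce (X t) (Z (t + 1)) w) (n : ℕ) (c : ℝ) :
    c * P.Pr (fun w => ∃ t ≤ n, c ≤ Z t w) ≤ P.E (Z n) := by
  set A : ℕ → Om → Prop := fun t w => c ≤ Z t w ∧ ∀ u < t, ¬ c ≤ Z u w with hA
  have hfac : ∀ t, Fac (X t) (fun w => ind (A t w)) := by
    intro t
    refine Fac.ind (fun v w hvw => ?_)
    simp only [hA]
    rw [hZ t v w hvw]
    refine and_congr Iff.rfl ?_
    refine forall_congr' (fun u => forall_congr' (fun hu => ?_))
    rw [hZ u v w (hX.le hu.le v w hvw)]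
  have hfirst : ∀ w, ind (∃ t ≤ n, c ≤ Z t w) = ∑ t ∈ range (n + 1), ind (A t w) := by
    intro w
    by_cases ha : ∃ t ≤ n, c ≤ Z t w
    · classical
      have hex : ∃ t, c ≤ Z t w := ⟨ha.choose, ha.choose_spec.2⟩
      have hf := Nat.find_spec hex
      have hle : Nat.find hex ≤ n := (Nat.find_min' hex ha.choose_spec.2).trans ha.choose_spec.1
      rw [ind_of ha, Finset.sum_eq_single (Nat.find hex)]
      · rw [ind_of]
        exact ⟨hf, fun u hu => Nat.find_min hex hu⟩
      · intro t _ ht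
        rw [ind_not]
        rintro ⟨h1, h2⟩
        rcases Nat.lt_trichotomy t (Nat.find hex) with h | h | h
        · exact Nat.find_min hex h h1
        · exact ht h
        · exact h2 _ h hf
      · intro h; exact absurd (Finset.mem_range.mpr (by omega)) h
    · rw [ind_not ha]
      refine (Finset.sum_eq_zero (fun t ht => ?_)).symm
      rw [ind_not]
      rintro ⟨h1, _⟩
      exact ha ⟨t, by have := Finset.mem_range.mp ht; omega, h1⟩
  have hkey : ∀ t ∈ range (n + 1), c * P.E (fun w => ind (A t w)) ≤ P.E (fun w => ind (A t w) * Z n w) := by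
    intro t ht
    have htn : t ≤ n := by have := Finset.mem_range.mp ht; omega
    refine le_trans ?_ (P.sub_event hX hs htn (hfac t) (fun w _ => ind_nonneg _))
    rw [← E_smul]
    refine P.E_mono (fun w _ => ?_)
    by_cases h : A t w
    · rw [ind_of h]; simp only [hA] at h; linarith [h.1]
    · rw [ind_not h]; simp
  unfold Pr
  simp only [hfirst]
  rw [E_sum, Finset.mul_sum]
  refine (Finset.sum_le_sum hkey).trans ?_
  rw [← E_sum]
  refine P.E_mono (fun w hw => ?_)
  rw [← Finset.sum_mul, ← hfirst w]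
  have := mul_le_mul_of_nonneg_right (ind_le_one (∃ t ≤ n, c ≤ Z t w)) (h0 n w hw)
  linarith

/-! ## flags -/

/-- hysteresis flag: raised when `p ≥ ρ`, kept until `p < ρ/2` -/
def flag (ρ : ℝ) (p : ℕ → Om → ℝ) : ℕ → Om → Prop
  | 0, w => ρ ≤ p 0 w
  | t + 1, w => ρ ≤ p (t + 1) w ∨ (flag ρ p t w ∧ ρ / 2 ≤ p (t + 1) w)

theorem flag_fac (hX : Filt X) {ρ : ℝ} {q : ℕ → Om → ℝ} (hq : ∀ t, Fac (X t) (q t)) (t : ℕ) :
    ∀ v w, X t v = X t w → (flag ρ q t v ↔ flag ρ q t w) := by
  induction t with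
  | zero => intro v w h; simp only [flag]; rw [hq 0 v w h]
  | succ t ih =>
    intro v w h
    simp only [flag]
    rw [hq (t + 1) v w h, ih v w (hX t v w h)]

theorem flag_half {ρ : ℝ} (hρ : 0 ≤ ρ) {q : ℕ → Om → ℝ} {t : ℕ} {w : Om} (h : flag ρ q t w) : ρ / 2 ≤ q t w := by
  cases t with
  | zero => simp only [flag] at h; linarith
  | succ t =>
    simp only [flag] at h
    rcases h with h | h
    · linarith
    · exact h.2

theorem not_flag_lt {ρ : ℝ} {q : ℕ → Om → ℝ} {t : ℕ} {w : Om} (h : ¬ flag ρ q t w) : q t w < ρ := by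
  cases t with
  | zero => simp only [flag] at h; linarith
  | succ t =>
    simp only [flag] at h
    push Not at h
    exact h.1

theorem ind_tel (a b : Prop) (x y : ℝ) :
    ind (¬ a) * (y - x) = ind (¬ a ∧ b) * y - ind (a ∧ ¬ b) * y + ind (¬ b) * y - ind (¬ a) * x := by
  by_cases ha : a <;> by_cases hb : b <;> simp [ind, ha, hb]

theorem ind_cnt (a b : Prop) : ind (a ∧ ¬ b) = ind (¬ a ∧ b) + ind a - ind b := by
  by_cases ha : a <;> by_cases hb : b <;> simp [ind, ha, hb]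

/-- upward flips at times `1..n` -/
def ups (ρ : ℝ) (q : ℕ → Om → ℝ) (t : ℕ) (w : Om) : Prop := ¬ flag ρ q t w ∧ flag ρ q (t + 1) w

/-- downward flips at times `1..n` -/
def downs (ρ : ℝ) (q : ℕ → Om → ℝ) (t : ℕ) (w : Om) : Prop := flag ρ q t w ∧ ¬ flag ρ q (t + 1) w

theorem flag_telescope (ρ : ℝ) (q : ℕ → Om → ℝ) (n : ℕ) (w : Om) :
    ∑ t ∈ range n, ind (¬ flag ρ q t w) * (q (t + 1) w - q t w) =
      ∑ t ∈ range n, ind (ups ρ q t w) * q (t + 1) w - ∑ t ∈ range n, ind (downs ρ q t w) * q (t + 1) w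
        + ind (¬ flag ρ q n w) * q n w - ind (¬ flag ρ q 0 w) * q 0 w := by
  induction n with
  | zero => simp
  | succ n ih =>
    rw [Finset.sum_range_succ, Finset.sum_range_succ, Finset.sum_range_succ, ih]
    have h := ind_tel (flag ρ q n w) (flag ρ q (n + 1) w) (q n w) (q (n + 1) w)
    unfold ups downs
    linarith

theorem downs_count (ρ : ℝ) (q : ℕ → Om → ℝ) (n : ℕ) (w : Om) :
    ∑ t ∈ range n, ind (downs ρ q t w) =
      ∑ t ∈ range n, ind (ups ρ q t w) + ind (flag ρ q 0 w) - ind (flag ρ q n w) := by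
  induction n with
  | zero => simp
  | succ n ih =>
    rw [Finset.sum_range_succ, Finset.sum_range_succ, ih]
    have h := ind_cnt (flag ρ q n w) (flag ρ q (n + 1) w)
    unfold ups downs
    linarith

/-- flips of a hysteresis flag of a nonnegative supermartingale with inputs: their number, and the mass of `q` seen
at the flips -/
theorem flag_count (hX : Filt X) {q s : ℕ → Om → ℝ} (hq : ∀ t, Fac (X t) (q t))
    (h0 : ∀ t w, P.p w ≠ 0 → 0 ≤ q t w) (hs0 : ∀ t w, P.p w ≠ 0 → 0 ≤ s t w)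
    (hs : ∀ t w, P.p w ≠ 0 → P.ce (X t) (q (t + 1)) w ≤ q t w + s t w) (n : ℕ) {ρ : ℝ} (hρ : 0 < ρ) :
    ρ / 2 * P.E (fun w => ∑ t ∈ range n, ind (ups ρ q t w)) ≤ P.E (q 0) + ∑ t ∈ range n, P.E (s t) ∧
    P.E (fun w => ∑ t ∈ range n, ind (ups ρ q t w) * q (t + 1) w) ≤
      2 * (P.E (q 0) + ∑ t ∈ range n, P.E (s t)) ∧
    P.E (fun w => ∑ t ∈ range n, ind (downs ρ q t w) * q (t + 1) w) ≤
      P.E (q 0) + ρ / 2 * P.E (fun w => ∑ t ∈ range n, ind (ups ρ q t w)) := by
  have hfac : ∀ t, Fac (X t) (fun w => ind (¬ flag ρ q t w)) := fun t =>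
    Fac.ind (fun v w h => not_congr (flag_fac hX hq t v w h))
  -- mean gain while the flag is down
  have hgain : P.E (fun w => ∑ t ∈ range n, ind (¬ flag ρ q t w) * (q (t + 1) w - q t w)) ≤
      ∑ t ∈ range n, P.E (s t) := by
    rw [P.transform_eq hfac, E_sum]
    refine Finset.sum_le_sum (fun t _ => P.E_mono (fun w hw => ?_))
    have h1 : P.ce (X t) (q (t + 1)) w - q t w ≤ s t w := by linarith [hs t w hw]
    have h2 := mul_le_mul_of_nonneg_left h1 (ind_nonneg (¬ flag ρ q t w))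
    have h3 := mul_le_mul_of_nonneg_right (ind_le_one (¬ flag ρ q t w)) (hs0 t w hw)
    linarith
  set U := P.E (fun w => ∑ t ∈ range n, ind (ups ρ q t w)) with hU
  set UQ := P.E (fun w => ∑ t ∈ range n, ind (ups ρ q t w) * q (t + 1) w) with hUQ
  set DQ := P.E (fun w => ∑ t ∈ range n, ind (downs ρ q t w) * q (t + 1) w) with hDQ
  set S := ∑ t ∈ range n, P.E (s t) with hS
  -- telescoping
  have htel : P.E (fun w => ∑ t ∈ range n, ind (¬ flag ρ q t w) * (q (t + 1) w - q t w)) =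
      UQ - DQ + P.E (fun w => ind (¬ flag ρ q n w) * q n w) - P.E (fun w => ind (¬ flag ρ q 0 w) * q 0 w) := by
    rw [hUQ, hDQ, ← E_sub, ← E_add, ← E_sub]
    exact P.E_congr (fun w _ => flag_telescope ρ q n w)
  have hpos : 0 ≤ P.E (fun w => ind (¬ flag ρ q n w) * q n w) :=
    P.E_nonneg (fun w hw => mul_nonneg (ind_nonneg _) (h0 n w hw))
  -- the down flips are cheap
  have hD : DQ ≤ ρ / 2 * U + ρ / 2 * P.E (fun w => ind (flag ρ q 0 w)) := by
    rw [hU, ← E_smul, ← E_smul, ← E_add, hDQ]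
    refine P.E_mono (fun w hw => ?_)
    have h1 : ∑ t ∈ range n, ind (downs ρ q t w) * q (t + 1) w ≤
        ∑ t ∈ range n, ind (downs ρ q t w) * (ρ / 2) := by
      refine Finset.sum_le_sum (fun t _ => ?_)
      by_cases h : downs ρ q t w
      · rw [ind_of h, one_mul, one_mul]
        have h2 := h.2
        simp only [flag] at h2
        push Not at h2
        exact (h2.2 h.1).le
      · rw [ind_not h]; simp
    rw [← Finset.sum_mul, downs_count] at h1
    have h2 := mul_nonneg (ind_nonneg (flag ρ q n w)) (half_pos hρ).le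
    nlinarith [h1, h2]
  have hfl0 : ρ * P.E (fun w => ind (flag ρ q 0 w)) + P.E (fun w => ind (¬ flag ρ q 0 w) * q 0 w) ≤ P.E (q 0) := by
    rw [← E_smul, ← E_add]
    refine P.E_mono (fun w hw => ?_)
    by_cases h : flag ρ q 0 w
    · rw [ind_of h, ind_not (not_not.mpr h)]
      simp only [flag] at h
      linarith
    · rw [ind_not h, ind_of h]; linarith
  have hUle : ρ * U ≤ UQ := by
    rw [hU, ← E_smul, hUQ]
    refine P.E_mono (fun w hw => ?_)
    rw [Finset.mul_sum]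
    refine Finset.sum_le_sum (fun t _ => ?_)
    by_cases h : ups ρ q t w
    · rw [ind_of h, mul_one, one_mul]
      have h2 := h.2
      simp only [flag] at h2
      rcases h2 with h2 | h2
      · exact h2
      · exact absurd h2.1 h.1
    · rw [ind_not h]; simp
  have hfp : 0 ≤ P.E (fun w => ind (flag ρ q 0 w)) := P.E_nonneg (fun _ _ => ind_nonneg _)
  have hnp : 0 ≤ P.E (fun w => ind (¬ flag ρ q 0 w) * q 0 w) :=
    P.E_nonneg (fun w hw => mul_nonneg (ind_nonneg _) (h0 0 w hw))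
  have hρf : ρ / 2 * P.E (fun w => ind (flag ρ q 0 w)) ≤ ρ * P.E (fun w => ind (flag ρ q 0 w)) :=
    mul_le_mul_of_nonneg_right (by linarith) hfp
  have h1 : UQ ≤ P.E (q 0) + S + ρ / 2 * U := by
    rw [htel] at hgain
    linarith
  refine ⟨by linarith, by linarith, by linarith⟩

/-! ## L2 sums -/

/-- orthogonality of the increments of a martingale -/
theorem mart_sq (X : ∀ t, Om → κ t) {Z : ℕ → Om → ℝ}
    (hm : ∀ t w, P.p w ≠ 0 → P.ce (X t) (Z (t + 1)) w = Z t w) (n : ℕ) :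
    P.E (fun w => Z n w ^ 2) = P.E (fun w => Z 0 w ^ 2) +
      ∑ t ∈ range n, P.E (fun w => (Z (t + 1) w - Z t w) ^ 2) := by
  induction n with
  | zero => simp
  | succ n ih =>
    rw [Finset.sum_range_succ, ← add_assoc, ← ih]
    have h1 := P.E_sq_eq (X n) (Z (n + 1))
    have h2 : P.E (fun w => P.ce (X n) (Z (n + 1)) w ^ 2) = P.E (fun w => Z n w ^ 2) :=
      P.E_congr (fun w hw => by rw [hm n w hw])
    have h3 : P.E (fun w => (Z (n + 1) w - P.ce (X n) (Z (n + 1)) w) ^ 2) =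
        P.E (fun w => (Z (n + 1) w - Z n w) ^ 2) :=
      P.E_congr (fun w hw => by rw [hm n w hw])
    rw [h1, h2, h3]

/-- a convex function of an adapted process with drift: lower bound for the mean increment -/
theorem convex_step {ι : Type*} {Y : Om → ι} {h z z' d : Om → ℝ} {φ φ' : ℝ → ℝ}
    (hh : Fac Y h) (hh0 : ∀ w, P.p w ≠ 0 → 0 ≤ h w) (hz : Fac Y z)
    (hφ : ∀ x y, φ x + φ' x * (y - x) ≤ φ y) (hd : ∀ w, P.p w ≠ 0 → P.ce Y z' w - z w = d w) :
    P.E (fun w => h w * φ (z w)) + P.E (fun w => h w * (φ' (z w) * d w)) ≤ P.E (fun w => h w * φ (z' w)) := by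
  have h1 : P.E (fun w => h w * (φ' (z w) * d w)) = P.E (fun w => (h w * φ' (z w)) * (z' w - z w)) := by
    rw [P.step_eq (hh.mul (hz.comp φ')) z z']
    exact P.E_congr (fun w hw => by rw [hd w hw]; ring)
  rw [h1, ← E_add]
  refine P.E_mono (fun w hw => ?_)
  have := mul_le_mul_of_nonneg_left (hφ (z w) (z' w)) (hh0 w hw)
  linarith

end FP

end Pool.Agent.M3
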