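import Pool.Agent.M3.FPInfo

/-!
# M3.KL: conditional laws and relative entropy of a map

`P.cond S` = law `P` conditioned on the event `S` (`= P` if `P.Pr S = 0`), `P.Ac Q` absolute continuity,
`P.kl Q X` = relative entropy of the law of `X` under `P` with respect to the law of `X` under `Q`.
Main facts: `dv` (Donsker-Varadhan), `kl_nonneg`, `kl_mono` (data processing), `kl_cond_le` (`<= log 1/Pr S`),
`I_eq_E_kl` (conditional information = mean of relative entropies).
-/

set_option autoImplicit false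
set_option linter.unusedSectionVars false

namespace Pool.Agent.M3

open Finset Pool.Agent.PWZ

variable {Om : Type*} [Fintype Om]

noncomputable section

/-- absolute continuity -/
def FP.Ac (P Q : FP Om) : Prop := ∀ w, P.p w ≠ 0 → Q.p w ≠ 0

/-- relative entropy of the law of the map `X` -/
def FP.kl (P Q : FP Om) {κ : Type*} (X : Om → κ) : ℝ := P.E (fun w => Real.log (P.m X w / Q.m X w))

open Classical in
/-- conditional law -/
def FP.cond (P : FP Om) (S : Om → Prop) : FP Om :=
  if h : P.Pr S = 0 then P else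
    { p := fun w => ind (S w) * P.p w / P.Pr S
      nn := fun w => div_nonneg (mul_nonneg (ind_nonneg _) (P.nn w)) (P.Pr_nonneg S)
      tot := by
        rw [← Finset.sum_div, div_eq_one_iff_eq h]
        unfold FP.Pr FP.E
        exact Finset.sum_congr rfl (fun w _ => mul_comm _ _) }

end

namespace FP

variable (P Q : FP Om) {κ ι ι' ι'' : Type*}

/-! ## conditional laws -/

theorem cond_p {P : FP Om} {S : Om → Prop} (h : P.Pr S ≠ 0) (w : Om) :
    (P.cond S).p w = ind (S w) * P.p w / P.Pr S := by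
  unfold cond
  rw [dif_neg h]

theorem cond_E {P : FP Om} {S : Om → Prop} (h : P.Pr S ≠ 0) (f : Om → ℝ) :
    (P.cond S).E f = P.E (fun w => ind (S w) * f w) / P.Pr S := by
  unfold E
  rw [Finset.sum_div]
  refine Finset.sum_congr rfl (fun w _ => ?_)
  rw [cond_p h]
  ring

theorem cond_p_ne {P : FP Om} {S : Om → Prop} (h : P.Pr S ≠ 0) {w : Om} :
    (P.cond S).p w ≠ 0 ↔ S w ∧ P.p w ≠ 0 := by
  rw [cond_p h]
  by_cases hs : S w
  · rw [ind_of hs, one_mul]
    constructor
    · intro h1; refine ⟨hs, fun h2 => h1 (by rw [h2, zero_div])⟩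
    · rintro ⟨_, h2⟩; exact div_ne_zero h2 h
  · rw [ind_not hs]
    constructor
    · intro h1; exact absurd (by ring) h1
    · rintro ⟨h1, _⟩; exact absurd h1 hs

theorem Ac.refl (P : FP Om) : P.Ac P := fun _ h => h

theorem Ac.trans {P Q R : FP Om} (h : P.Ac Q) (h' : Q.Ac R) : P.Ac R := fun w hw => h' w (h w hw)

theorem cond_ac (P : FP Om) (S : Om → Prop) : (P.cond S).Ac P := by
  intro w hw
  by_cases h : P.Pr S = 0
  · have : P.cond S = P := by unfold cond; rw [dif_pos h]
    rwa [this] at hw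
  · exact ((cond_p_ne h).1 hw).2

theorem cond_m {P : FP Om} {S : Om → Prop} (h : P.Pr S ≠ 0) (X : Om → κ) (w : Om) :
    (P.cond S).m X w = P.E (fun v => ind (S v) * ind (X v = X w)) / P.Pr S := cond_E h _

theorem Pr_pos_of {P : FP Om} {S : Om → Prop} {w : Om} (hw : P.p w ≠ 0) (hS : S w) : 0 < P.Pr S := by
  have h1 : P.p w * ind (S w) ≤ P.Pr S := by
    unfold Pr E
    exact Finset.single_le_sum (f := fun v => P.p v * ind (S v))
      (fun v _ => mul_nonneg (P.nn v) (ind_nonneg _)) (Finset.mem_univ w)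
  rw [ind_of hS, mul_one] at h1
  exact lt_of_lt_of_le (lt_of_le_of_ne (P.nn w) (Ne.symm hw)) h1

theorem Pr_fibre (X : Om → κ) (w : Om) : P.Pr (fun v => X v = X w) = P.m X w := rfl

/-- conditional expectation as expectation under the conditional law -/
theorem ce_eq_cond (X : Om → κ) (f : Om → ℝ) {w : Om} (hw : P.p w ≠ 0) :
    P.ce X f w = (P.cond (fun v => X v = X w)).E f := by
  rw [cond_E (P.m_pos X hw).ne']
  rfl

/-- mass of a fibre under the conditional law given a map -/
theorem cond_m_fibre (X : Om → κ) (Y : Om → ι) {w v : Om} (hw : P.p w ≠ 0) (hv : Y v = Y w) :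
    (P.cond (fun u => Y u = Y w)).m X v = P.m (fun u => (X u, Y u)) v / P.m Y w := by
  rw [cond_m (P.m_pos Y hw).ne']
  change P.E _ / P.m Y w = _
  congr 1
  unfold m
  refine P.E_congr (fun u _ => ?_)
  rw [← ind_and, Prod.mk.injEq, hv]
  congr 1
  exact propext and_comm

/-! ## relative entropy -/

/-- change of law -/
theorem E_ratio_le {X : Om → κ} {h : Om → ℝ} (hh : Fac X h) (h0 : ∀ w, Q.p w ≠ 0 → 0 ≤ h w) :
    P.E (fun w => Q.m X w / P.m X w * h w) ≤ Q.E h := by
  have h1 : P.E (fun w => Q.m X w / P.m X w * h w) =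
      P.E (fun w => Q.E (fun v => ind (X v = X w) * (h w / P.m X w))) := by
    refine P.E_congr (fun w _ => ?_)
    rw [E_mul_const]
    change Q.m X w / P.m X w * h w = Q.m X w * (h w / P.m X w)
    ring
  rw [h1, E_swap]
  refine Q.E_mono (fun v hv => ?_)
  have h2 : P.E (fun w => ind (X v = X w) * (h w / P.m X w)) =
      P.E (fun w => ind (X w = X v) / P.m X w) * h v := by
    rw [← E_mul_const]
    refine P.E_congr (fun w _ => ?_)
    by_cases hx : X w = X v
    · rw [ind_of hx, ind_of hx.symm, hh w v hx]; ring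
    · rw [ind_not hx, ind_not (fun h => hx h.symm)]; ring
  rw [h2]
  have h3 := mul_le_mul_of_nonneg_right (P.E_ind_div_m_le X (X v)) (h0 v hv)
  linarith

variable {P Q}

theorem kl_nonneg (hac : P.Ac Q) (X : Om → κ) : 0 ≤ P.kl Q X := by
  refine P.E_log_nonneg (fun w hw => div_pos (P.m_pos X hw) (Q.m_pos X (hac w hw))) ?_
  have h := P.E_ratio_le Q (X := X) (h := fun _ => 1) (Fac.const X 1) (fun _ _ => zero_le_one)
  rw [E_const] at h
  refine le_trans (le_of_eq (P.E_congr (fun w _ => ?_))) h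
  rw [one_div_div, mul_one]

/-- Donsker-Varadhan -/
theorem dv (hac : P.Ac Q) {X : Om → κ} {ψ : Om → ℝ} (hψ : Fac X ψ) :
    P.E ψ ≤ P.kl Q X + Real.log (Q.E (fun w => Real.exp (ψ w))) := by
  set Z : ℝ := Q.E (fun w => Real.exp (ψ w)) with hZ
  have hZ0 : 0 < Z := by
    obtain ⟨w, hw⟩ := Q.exists_p_ne
    have h1 : Q.p w * Real.exp (ψ w) ≤ Z :=
      Finset.single_le_sum (f := fun v => Q.p v * Real.exp (ψ v))
        (fun v _ => mul_nonneg (Q.nn v) (Real.exp_pos _).le) (Finset.mem_univ w)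
    exact lt_of_lt_of_le (mul_pos (lt_of_le_of_ne (Q.nn w) (Ne.symm hw)) (Real.exp_pos _)) h1
  have key := P.E_log_nonneg (R := fun w => P.m X w / Q.m X w * (Z / Real.exp (ψ w)))
    (fun w hw => mul_pos (div_pos (P.m_pos X hw) (Q.m_pos X (hac w hw)))
      (div_pos hZ0 (Real.exp_pos _))) ?_
  · have h1 : P.E (fun w => Real.log (P.m X w / Q.m X w * (Z / Real.exp (ψ w)))) =
        P.kl Q X + Real.log Z - P.E ψ := by
      unfold kl
      rw [← P.E_const (Real.log Z), ← E_add, ← E_sub]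
      refine P.E_congr (fun w hw => ?_)
      rw [Real.log_mul (div_pos (P.m_pos X hw) (Q.m_pos X (hac w hw))).ne'
        (div_pos hZ0 (Real.exp_pos _)).ne', Real.log_div hZ0.ne' (Real.exp_pos _).ne', Real.log_exp]
      ring
    rw [h1] at key
    linarith
  · have h2 := P.E_ratio_le Q (X := X) (h := fun w => Real.exp (ψ w) / Z)
      (hψ.comp (fun x => Real.exp x / Z)) (fun w _ => (div_pos (Real.exp_pos _) hZ0).le)
    rw [E_div_const, ← hZ, div_self hZ0.ne'] at h2
    refine le_trans (le_of_eq (P.E_congr (fun w _ => ?_))) h2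
    rw [one_div, mul_inv, inv_div, inv_div]

/-- Donsker-Varadhan with `log x <= x - 1` -/
theorem dv' (hac : P.Ac Q) {X : Om → κ} {ψ : Om → ℝ} (hψ : Fac X ψ) :
    P.E ψ ≤ P.kl Q X + (Q.E (fun w => Real.exp (ψ w) - 1)) := by
  refine (dv hac hψ).trans ?_
  have hZ0 : 0 < Q.E (fun w => Real.exp (ψ w)) := by
    obtain ⟨w, hw⟩ := Q.exists_p_ne
    have h1 : Q.p w * Real.exp (ψ w) ≤ Q.E (fun w => Real.exp (ψ w)) :=
      Finset.single_le_sum (f := fun v => Q.p v * Real.exp (ψ v))
        (fun v _ => mul_nonneg (Q.nn v) (Real.exp_pos _).le) (Finset.mem_univ w)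
    exact lt_of_lt_of_le (mul_pos (lt_of_le_of_ne (Q.nn w) (Ne.symm hw)) (Real.exp_pos _)) h1
  have h2 := Real.log_le_sub_one_of_pos hZ0
  rw [E_sub, E_const]
  linarith

/-- data processing -/
theorem kl_mono (hac : P.Ac Q) {X : Om → κ} {Y : Om → ι} (h : Fac X Y) : P.kl Q Y ≤ P.kl Q X := by
  have key := P.E_log_nonneg (R := fun w => P.m X w / Q.m X w / (P.m Y w / Q.m Y w))
    (fun w hw => div_pos (div_pos (P.m_pos X hw) (Q.m_pos X (hac w hw)))
      (div_pos (P.m_pos Y hw) (Q.m_pos Y (hac w hw)))) ?_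
  · have h1 : P.E (fun w => Real.log (P.m X w / Q.m X w / (P.m Y w / Q.m Y w))) =
        P.kl Q X - P.kl Q Y := by
      unfold kl
      rw [← E_sub]
      refine P.E_congr (fun w hw => ?_)
      rw [Real.log_div (div_pos (P.m_pos X hw) (Q.m_pos X (hac w hw))).ne'
        (div_pos (P.m_pos Y hw) (Q.m_pos Y (hac w hw))).ne']
    rw [h1] at key
    linarith
  · have h2 := P.E_ratio_le Q (X := X) (h := fun w => P.m Y w / Q.m Y w)
      (h.trans ((P.Fac_m Y).comp₂ (Q.Fac_m Y) (fun x y => x / y)))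
      (fun w _ => div_nonneg (P.m_nonneg Y w) (Q.m_nonneg Y w))
    have h3 := Q.E_ratio_le P (X := Y) (h := fun _ => 1) (Fac.const Y 1) (fun _ _ => zero_le_one)
    rw [E_const] at h3
    simp only [mul_one] at h3
    refine le_trans (le_of_eq (P.E_congr (fun w _ => ?_))) (h2.trans h3)
    rw [one_div, inv_div, div_eq_mul_inv, inv_div, mul_comm]

theorem kl_congr (hac : P.Ac Q) {X : Om → κ} {Y : Om → ι} (h : Fac X Y) (h' : Fac Y X) :
    P.kl Q X = P.kl Q Y := le_antisymm (kl_mono hac h') (kl_mono hac h)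

theorem kl_self (P : FP Om) (X : Om → κ) : P.kl P X = 0 := by
  unfold kl
  rw [← P.E_const 0]
  refine P.E_congr (fun w hw => ?_)
  rw [div_self (P.m_pos X hw).ne', Real.log_one]

/-- conditioning on an event of mass `μ` costs at most `log 1/μ` -/
theorem kl_cond_le (P : FP Om) (S : Om → Prop) (X : Om → κ) : (P.cond S).kl P X ≤ - Real.log (P.Pr S) := by
  by_cases h : P.Pr S = 0
  · have : P.cond S = P := by unfold cond; rw [dif_pos h]
    rw [this, kl_self, h, Real.log_zero, neg_zero]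
  · have hS : 0 < P.Pr S := lt_of_le_of_ne (P.Pr_nonneg S) (Ne.symm h)
    refine (P.cond S).E_le_const (fun w hw => ?_)
    have hp := ((cond_p_ne h).1 hw).2
    have hm := P.m_pos X hp
    rw [← Real.log_inv]
    refine Real.log_le_log (div_pos ((P.cond S).m_pos X hw) hm) ?_
    rw [div_le_iff₀ hm, cond_m h, div_eq_mul_inv, mul_comm]
    refine mul_le_mul_of_nonneg_left ?_ (inv_nonneg.2 hS.le)
    refine P.E_mono (fun v _ => ?_)
    have h1 := mul_le_mul_of_nonneg_right (ind_le_one (S v)) (ind_nonneg (X v = X w))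
    linarith

/-- conditional information = mean of the relative entropies of the conditional laws -/
theorem I_eq_E_kl (P : FP Om) (X : Om → κ) (Y : Om → ι) (Z : Om → ι') :
    P.I X Y Z = P.E (fun w => (P.cond (fun v => (Y v, Z v) = (Y w, Z w))).kl (P.cond (fun v => Z v = Z w)) X) := by
  have h1 : P.I X Y Z = P.E (fun w => Real.log (P.m (fun v => (X v, Y v, Z v)) w * P.m Z w /
      (P.m (fun v => (X v, Z v)) w * P.m (fun v => (Y v, Z v)) w))) := by
    unfold I H
    rw [← E_add, ← E_sub, ← E_sub]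
    refine P.E_congr (fun w hw => ?_)
    have a := (P.m_pos (fun v => (X v, Y v, Z v)) hw).ne'
    have b := (P.m_pos Z hw).ne'
    have c := (P.m_pos (fun v => (X v, Z v)) hw).ne'
    have d := (P.m_pos (fun v => (Y v, Z v)) hw).ne'
    rw [Real.log_div (mul_ne_zero a b) (mul_ne_zero c d), Real.log_mul a b, Real.log_mul c d]
    ring
  rw [h1, ← P.E_ce (fun w => (Y w, Z w))]
  refine P.E_congr (fun w hw => ?_)
  rw [P.ce_eq_cond (fun w => (Y w, Z w)) _ hw]
  unfold kl
  refine FP.E_congr _ (fun v hv => ?_)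
  obtain ⟨hyz, hpv⟩ := (cond_p_ne (P.m_pos (fun w => (Y w, Z w)) hw).ne').1 hv
  have hz : Z v = Z w := (Prod.mk.injEq _ _ _ _ ▸ hyz : _ ∧ _).2
  have a := (P.m_pos (fun v => (X v, Y v, Z v)) hpv)
  have b := (P.m_pos Z hpv)
  have c := (P.m_pos (fun v => (X v, Z v)) hpv)
  have d := (P.m_pos (fun v => (Y v, Z v)) hpv)
  rw [P.cond_m_fibre X (fun w => (Y w, Z w)) hw hyz, P.cond_m_fibre X Z hw hz,
    ← P.Fac_m (fun w => (Y w, Z w)) v w hyz, ← P.Fac_m Z v w hz]
  congr 1
  field_simp

end FP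

end Pool.Agent.M3
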