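import Pool.Agent.M3.FPInfo
import Pool.Agent.M3.FPMart
import Pool.Agent.M3.KL

/-!
# M3.Sat: saturated refinement of the public label, bits, balance (section 3; helper96)

`A` = hidden vertex and node (finer than everything public), `Z` = node, `F` = label of the hidden vertex with the owner
`B`, `G` = label with the owner `C`.  One node:

* `rep X` : a map `Om -> Om` with the same partition as `X`;
* `Sat P n A Z F B G C u` : `n (I(F;w|B,Z,u) + I(G;w|C,Z,u)) <= H(w|Z,u)` for every function `w` of `A`;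
* `exists_sat` : every public `u0` has a saturated refinement `u`, whose cost is at most `n` times its gain;
* `Sat.any`, `Sat.pair` (with independence: `I((F,B);w|Z,u)`), `Sat.event` : for every event `E` inside one class `U` of
  `(Z,u)`: `n (kl_E(F,B) + kl_E(G,C)) <= 1 + log (P(U)/P(E))` (relative entropies with respect to the law of the class).

Along the path: `exists_pub` (recursive choice, labels may depend on the earlier public labels), `bits` (total cost),
`I_inter` (interaction identity), `balance` (synergies are paid by the final information and the redundancies).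
-/

set_option autoImplicit false
set_option linter.unusedSectionVars false

namespace Pool.Agent.M3

open Finset Pool.Agent.PWZ

variable {Om : Type*} [Fintype Om]

noncomputable section

open Classical in
/-- a map `Om -> Om` with the same partition as `X` -/
def rep {κ : Type*} (X : Om → κ) (w : Om) : Om := Classical.choose (⟨w, rfl⟩ : ∃ v, X v = X w)

theorem X_rep {κ : Type*} (X : Om → κ) (w : Om) : X (rep X w) = X w :=
  Classical.choose_spec (⟨w, rfl⟩ : ∃ v, X v = X w)

theorem fac_rep {κ : Type*} (X : Om → κ) : Fac X (rep X) := by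
  intro v w h
  have key : ∀ (k k' : κ) (hk : ∃ v, X v = k) (hk' : ∃ v, X v = k'), k = k' →
      Classical.choose hk = Classical.choose hk' := by
    intro k k' hk hk' e
    subst e
    rfl
  exact key _ _ _ _ h

theorem rep_fac {κ : Type*} (X : Om → κ) : Fac (rep X) X := by
  intro v w h
  rw [← X_rep X v, ← X_rep X w, h]

/-- saturation of the public label `u` at the node `Z` -/
def Sat (P : FP Om) (n : ℝ) {κ ι φ β ψ γ υ : Type*} (A : Om → κ) (Z : Om → ι) (F : Om → φ) (B : Om → β)
    (G : Om → ψ) (C : Om → γ) (u : Om → υ) : Prop :=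
  ∀ w : Om → Om, Fac A w →
    n * (P.I F w (fun o => (B o, Z o, u o)) + P.I G w (fun o => (C o, Z o, u o))) ≤ P.Hc w (fun o => (Z o, u o))

end

section one

variable {κ ι φ β ψ γ υ : Type*} {P : FP Om} {n : ℝ} {A : Om → κ} {Z : Om → ι} {F : Om → φ} {B : Om → β}
  {G : Om → ψ} {C : Om → γ}

theorem FP.I_congr_snd (P : FP Om) {α δ ω ω' : Type*} (X : Om → α) (Y : Om → δ) {w : Om → ω} {w' : Om → ω'}
    (h : Fac w w') (h' : Fac w' w) : P.I X w Y = P.I X w' Y := by
  apply le_antisymm
  · rw [P.I_comm X w, P.I_comm X w']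
    exact P.I_mono _ ((Fac.fst w' Y).trans h')
  · rw [P.I_comm X w, P.I_comm X w']
    exact P.I_mono _ ((Fac.fst w Y).trans h)

theorem FP.Hc_congr_fst (P : FP Om) {δ ω ω' : Type*} (Y : Om → δ) {w : Om → ω} {w' : Om → ω'}
    (h : Fac w w') (h' : Fac w' w) : P.Hc w Y = P.Hc w' Y :=
  P.Hc_congr ((Fac.fst _ _).trans h) (Fac.refl _) ((Fac.fst _ _).trans h') (Fac.refl _)

theorem FP.Hc_congr_snd (P : FP Om) {δ ω ω' : Type*} (Y : Om → δ) {w : Om → ω} {w' : Om → ω'}
    (h : Fac w w') (h' : Fac w' w) : P.Hc Y w = P.Hc Y w' :=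
  P.Hc_congr (Fac.fst _ _) h (Fac.fst _ _) h'

theorem Sat.any {u : Om → υ} (h : Sat P n A Z F B G C u) {ω : Type*} (w : Om → ω) (hw : Fac A w) :
    n * (P.I F w (fun o => (B o, Z o, u o)) + P.I G w (fun o => (C o, Z o, u o))) ≤ P.Hc w (fun o => (Z o, u o)) := by
  have h1 := h (rep w) (hw.trans (fac_rep w))
  rw [P.I_congr_snd F (fun o => (B o, Z o, u o)) (rep_fac w) (fac_rep w),
    P.I_congr_snd G (fun o => (C o, Z o, u o)) (rep_fac w) (fac_rep w),
    P.Hc_congr_fst (fun o => (Z o, u o)) (rep_fac w) (fac_rep w)] at h1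
  exact h1

theorem Fac.in3 {α δ ω ω' : Type*} (X : Om → α) (Y : Om → δ) {v : Om → ω} {u : Om → ω'} (h : Fac v u) :
    Fac (fun o => (X o, Y o, v o)) (fun o => (X o, Y o, u o)) := by
  intro x y e
  simp only [Prod.mk.injEq] at e ⊢
  exact ⟨e.1, e.2.1, h x y e.2.2⟩

/-- refining the public label by `w` lowers the entropy of the label by the information -/
theorem Hc_refine (P : FP Om) {α δ ω ω' : Type*} (T : Om → α) (X : Om → δ) (Z : Om → ι) (u : Om → ω) (w : Om → ω')
    {σ : Type*} {v : Om → σ} (h1 : Fac (fun o => (u o, w o)) v) (h2 : Fac v (fun o => (u o, w o))) :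
    P.Hc T (fun o => (X o, Z o, v o)) = P.Hc T (fun o => (X o, Z o, u o)) - P.I T w (fun o => (X o, Z o, u o)) := by
  rw [P.I_eq_Hc]
  have : P.Hc T (fun o => (X o, Z o, v o)) = P.Hc T (fun o => (w o, X o, Z o, u o)) := by
    apply P.Hc_congr_snd
    · intro x y e
      simp only [Prod.mk.injEq] at e
      have e4 := h2 x y e.2.2
      simp only [Prod.mk.injEq] at e4 ⊢
      exact ⟨e4.2, e.1, e.2.1, e4.1⟩
    · intro x y e
      simp only [Prod.mk.injEq] at e
      have e4 := h1 x y (by simp only [Prod.mk.injEq]; exact ⟨e.2.2.2, e.1⟩)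
      simp only [Prod.mk.injEq]
      exact ⟨e.2.1, e.2.2.1, e4⟩
  rw [this]
  ring

/-- existence of a saturated refinement; its cost is at most `n` times its gain -/
theorem exists_sat (P : FP Om) (n : ℝ) (A : Om → κ) (Z : Om → ι) (F : Om → φ) (B : Om → β) (G : Om → ψ)
    (C : Om → γ) (u0 : Om → υ) (h0 : Fac A u0) :
    ∃ u : Om → Om, Fac A u ∧ Fac u u0 ∧ Sat P n A Z F B G C u ∧
      P.Hc u (fun o => (Z o, u0 o)) ≤ n * ((P.Hc F (fun o => (B o, Z o, u0 o)) - P.Hc F (fun o => (B o, Z o, u o)))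
        + (P.Hc G (fun o => (C o, Z o, u0 o)) - P.Hc G (fun o => (C o, Z o, u o)))) := by
  classical
  set Φ : (Om → Om) → ℝ := fun u => P.Hc u Z + n * (P.Hc F (fun o => (B o, Z o, u o))
    + P.Hc G (fun o => (C o, Z o, u o))) with hΦ
  set S : Set (Om → Om) := {u | Fac A u ∧ Fac u u0} with hS
  have hne : S.Nonempty := ⟨rep u0, h0.trans (fac_rep u0), rep_fac u0⟩
  obtain ⟨u, ⟨huA, hu0⟩, hmin⟩ := Set.exists_min_image S Φ (Set.toFinite S) hne
  refine ⟨u, huA, hu0, ?_, ?_⟩
  · intro w hw
    set v : Om → Om := rep (fun o => (u o, w o)) with hv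
    have hv1 : Fac (fun o => (u o, w o)) v := fac_rep _
    have hv2 : Fac v (fun o => (u o, w o)) := rep_fac _
    have hvu : Fac v u := hv2.trans (Fac.fst _ _)
    have hvS : v ∈ S := ⟨(huA.prod hw).trans hv1, hvu.trans hu0⟩
    have h1 := hmin v hvS
    have e1 : P.Hc v Z = P.Hc u Z + P.Hc w (fun o => (Z o, u o)) := by
      have a1 : P.Hc v Z = P.Hc (fun o => (w o, u o)) Z :=
        P.Hc_congr_fst Z (hv2.trans ((Fac.snd _ _).prod (Fac.fst _ _))) (((Fac.snd w u).prod (Fac.fst w u)).trans hv1)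
      rw [a1, P.Hc_chain]
      congr 1
      exact P.Hc_congr_snd w ((Fac.snd u Z).prod (Fac.fst u Z)) ((Fac.snd Z u).prod (Fac.fst Z u))
    simp only [hΦ] at h1
    rw [e1, Hc_refine P F B Z u w hv1 hv2, Hc_refine P G C Z u w hv1 hv2] at h1
    linarith
  · have hrS : rep u0 ∈ S := ⟨h0.trans (fac_rep u0), rep_fac u0⟩
    have h1 := hmin (rep u0) hrS
    simp only [hΦ] at h1
    have f1 : P.Hc (rep u0) Z = P.Hc u0 Z := P.Hc_congr_fst Z (rep_fac u0) (fac_rep u0)
    have f2 : P.Hc F (fun o => (B o, Z o, rep u0 o)) = P.Hc F (fun o => (B o, Z o, u0 o)) :=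
      P.Hc_congr_snd F (Fac.in3 B Z (rep_fac u0)) (Fac.in3 B Z (fac_rep u0))
    have f3 : P.Hc G (fun o => (C o, Z o, rep u0 o)) = P.Hc G (fun o => (C o, Z o, u0 o)) :=
      P.Hc_congr_snd G (Fac.in3 C Z (rep_fac u0)) (Fac.in3 C Z (fac_rep u0))
    have f4 : P.Hc u Z = P.Hc u0 Z + P.Hc u (fun o => (Z o, u0 o)) := by
      have a1 : P.Hc u Z = P.Hc (fun o => (u o, u0 o)) Z :=
        P.Hc_congr_fst Z ((Fac.refl u).prod hu0) (Fac.fst u u0)
      rw [a1, P.Hc_chain]
      congr 1
      exact P.Hc_congr_snd u ((Fac.snd u0 Z).prod (Fac.fst u0 Z)) ((Fac.snd Z u0).prod (Fac.fst Z u0))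
    rw [f1, f2, f3, f4] at h1
    linarith

/-! ## independence, events -/

/-- independence of the owner passes to public refinements -/
theorem indep_of (P : FP Om) {A : Om → κ} {B : Om → β} {Z : Om → ι} (h : P.I A B Z = 0) {ω : Type*} {w : Om → ω}
    {u : Om → υ} (hw : Fac A w) (hu : Fac A u) : P.I B w (fun o => (Z o, u o)) = 0 := by
  apply le_antisymm _ (P.I_nonneg _ _ _)
  have h1 := P.I_chain w u B Z
  have h2 : P.I (fun o => (w o, u o)) B Z ≤ P.I A B Z :=
    P.I_mono B ((Fac.fst A Z).trans (hw.prod hu))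
  have h3 := P.I_nonneg u B Z
  have h4 : P.I w B (fun o => (u o, Z o)) = P.I B w (fun o => (Z o, u o)) := by
    rw [P.I_comm w B]
    exact P.I_congr_cond ((Fac.snd u Z).prod (Fac.fst u Z)) ((Fac.snd Z u).prod (Fac.fst Z u))
  rw [h4] at h1
  linarith

/-- with independence the information of the pair (label, owner) is the information of the label given the owner -/
theorem I_pair_of_indep (P : FP Om) {A : Om → κ} {B : Om → β} {Z : Om → ι} (F : Om → φ) (h : P.I A B Z = 0)
    {ω : Type*} {w : Om → ω} {u : Om → υ} (hw : Fac A w) (hu : Fac A u) :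
    P.I (fun o => (F o, B o)) w (fun o => (Z o, u o)) = P.I F w (fun o => (B o, Z o, u o)) := by
  rw [P.I_chain F B w (fun o => (Z o, u o)), indep_of P h hw hu, zero_add]

theorem Sat.pair {u : Om → υ} (h : Sat P n A Z F B G C u) (hu : Fac A u) (hB : P.I A B Z = 0) (hC : P.I A C Z = 0)
    {ω : Type*} (w : Om → ω) (hw : Fac A w) :
    n * (P.I (fun o => (F o, B o)) w (fun o => (Z o, u o)) + P.I (fun o => (G o, C o)) w (fun o => (Z o, u o))) ≤
      P.Hc w (fun o => (Z o, u o)) := by
  rw [I_pair_of_indep P F hB hw hu, I_pair_of_indep P G hC hw hu]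
  exact h.any w hw

theorem cond_ac_cond (P : FP Om) {S T : Om → Prop} (h : ∀ w, S w → T w) (hS : P.Pr S ≠ 0) :
    (P.cond S).Ac (P.cond T) := by
  intro w hw
  obtain ⟨h1, h2⟩ := (FP.cond_p_ne hS).1 hw
  exact (FP.cond_p_ne (P.Pr_pos_of h2 (h w h1)).ne').2 ⟨h w h1, h2⟩

/-- information of an event inside one class -/
theorem I_event_ge (P : FP Om) {σ τ : Type*} (X : Om → σ) (V : Om → τ) (S : Om → Prop) (w0 : Om)
    (hS : ∀ w, S w → V w = V w0) :
    P.Pr S * (P.cond S).kl (P.cond (fun v => V v = V w0)) X ≤ P.I X S V := by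
  rw [P.I_eq_E_kl]
  have e1 : P.Pr S * (P.cond S).kl (P.cond (fun v => V v = V w0)) X =
      P.E (fun w => ind (S w) * (P.cond S).kl (P.cond (fun v => V v = V w0)) X) := by
    unfold FP.Pr FP.E
    rw [Finset.sum_mul]
    exact Finset.sum_congr rfl (fun w _ => by ring)
  rw [e1]
  refine P.E_mono (fun w hw => ?_)
  by_cases hs : S w
  · rw [ind_of hs, one_mul]
    have a1 : (fun v => (S v, V v) = (S w, V w)) = S := by
      funext v
      apply propext
      simp only [Prod.mk.injEq]
      constructor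
      · rintro ⟨e, _⟩
        rw [e]; exact hs
      · intro hv
        exact ⟨propext ⟨fun _ => hs, fun _ => hv⟩, (hS v hv).trans (hS w hs).symm⟩
    have a2 : (fun v => V v = V w) = (fun v => V v = V w0) := by rw [hS w hs]
    rw [a1, a2]
  · rw [ind_not hs, zero_mul]
    have b1 : ((P.cond (fun v => (S v, V v) = (S w, V w))).Ac (P.cond (fun v => V v = V w))) :=
      cond_ac_cond P (fun v hv => (Prod.mk.injEq _ _ _ _ ▸ hv : _ ∧ _).2) (P.m_pos (fun v => (S v, V v)) hw).ne'
    exact FP.kl_nonneg b1 X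

/-- entropy of an event inside one class -/
theorem Hc_event_le (P : FP Om) {τ : Type*} (V : Om → τ) (S : Om → Prop) (w0 : Om)
    (hS : ∀ w, S w → V w = V w0) :
    P.Hc S V ≤ P.Pr S * (1 + Real.log (P.Pr (fun v => V v = V w0) / P.Pr S)) := by
  set U := P.Pr (fun v => V v = V w0) with hU
  set e := P.Pr S with he
  set x := P.Pr (fun v => ¬ S v ∧ V v = V w0) with hx
  have he0 : 0 ≤ e := P.Pr_nonneg S
  have hx0 : 0 ≤ x := P.Pr_nonneg _
  have hUx : U = e + x := by
    rw [hU, he, hx]
    unfold FP.Pr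
    rw [← P.E_add]
    refine P.E_congr (fun w _ => ?_)
    by_cases hs : S w
    · rw [ind_of hs, ind_of (hS w hs), ind_not (fun h => h.1 hs)]; ring
    · by_cases hv : V w = V w0
      · rw [ind_not hs, ind_of hv, ind_of ⟨hs, hv⟩]; ring
      · rw [ind_not hs, ind_not hv, ind_not (fun h => hv h.2)]; ring
  have h1 : P.Hc S V = P.E (fun w => - Real.log (P.m (fun v => (S v, V v)) w) + Real.log (P.m V w)) := by
    unfold FP.Hc FP.H
    rw [← P.E_sub]
    refine P.E_congr (fun w _ => by ring)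
  have h2 : P.E (fun w => - Real.log (P.m (fun v => (S v, V v)) w) + Real.log (P.m V w)) ≤
      P.E (fun w => ind (S w) * Real.log (U / e) + ind (¬ S w ∧ V w = V w0) * (e / x)) := by
    refine P.E_mono (fun w hw => ?_)
    have p1 := P.m_pos (fun v => (S v, V v)) hw
    have p2 := P.m_pos V hw
    by_cases hs : S w
    · rw [ind_of hs, ind_not (fun h => h.1 hs)]
      have a1 : P.m (fun v => (S v, V v)) w = e := by
        rw [he]
        unfold FP.m FP.Pr
        refine P.E_congr (fun v _ => ?_)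
        congr 1
        apply propext
        simp only [Prod.mk.injEq]
        constructor
        · rintro ⟨q, _⟩; rw [q]; exact hs
        · intro hv; exact ⟨propext ⟨fun _ => hs, fun _ => hv⟩, (hS v hv).trans (hS w hs).symm⟩
      have a2 : P.m V w = U := by
        rw [hU]
        unfold FP.m FP.Pr
        rw [hS w hs]
      rw [a1] at p1 ⊢
      rw [a2] at p2 ⊢
      rw [Real.log_div p2.ne' p1.ne']
      linarith
    · by_cases hv : V w = V w0
      · rw [ind_not hs, ind_of (⟨hs, hv⟩ : ¬ S w ∧ V w = V w0)]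
        have a1 : P.m (fun v => (S v, V v)) w = x := by
          rw [hx]
          unfold FP.m FP.Pr
          refine P.E_congr (fun v _ => ?_)
          congr 1
          apply propext
          simp only [Prod.mk.injEq]
          constructor
          · rintro ⟨q, q'⟩
            exact ⟨fun h => hs (by rw [← q]; exact h), q'.trans hv⟩
          · rintro ⟨q, q'⟩
            exact ⟨propext ⟨fun h => absurd h q, fun h => absurd h hs⟩, q'.trans hv.symm⟩
        have a2 : P.m V w = U := by
          rw [hU]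
          unfold FP.m FP.Pr
          rw [hv]
        rw [a1] at p1 ⊢
        rw [a2] at p2 ⊢
        have b1 := Real.log_le_sub_one_of_pos (div_pos p2 p1)
        rw [Real.log_div p2.ne' p1.ne'] at b1
        have b2 : U / x - 1 = e / x := by
          rw [hUx]; field_simp; ring
        rw [b2] at b1
        linarith
      · rw [ind_not hs, ind_not (fun h => hv h.2)]
        have a1 : P.m (fun v => (S v, V v)) w = P.m V w := by
          unfold FP.m
          refine P.E_congr (fun v _ => ?_)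
          congr 1
          apply propext
          simp only [Prod.mk.injEq]
          constructor
          · rintro ⟨_, q'⟩; exact q'
          · intro q'
            refine ⟨propext ⟨fun h => absurd ?_ hv, fun h => absurd h hs⟩, q'⟩
            rw [← q']; exact hS v h
        rw [a1]
        linarith
  rw [h1]
  refine h2.trans ?_
  rw [P.E_add, P.E_mul_const, P.E_mul_const]
  change e * Real.log (U / e) + x * (e / x) ≤ _
  have c1 : x * (e / x) ≤ e := by
    by_cases hx1 : x = 0
    · rw [hx1, zero_mul]; exact he0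
    · rw [mul_div_cancel₀ e hx1]
  nlinarith [c1]

theorem Sat.event {u : Om → υ} (h : Sat P n A Z F B G C u) (hn : 0 ≤ n) (hu : Fac A u) (hB : P.I A B Z = 0)
    (hC : P.I A C Z = 0) (S : Om → Prop) (hSA : Fac A S) (w0 : Om)
    (hS : ∀ w, S w → (Z w, u w) = (Z w0, u w0)) (hp : 0 < P.Pr S) :
    n * ((P.cond S).kl (P.cond (fun v => (Z v, u v) = (Z w0, u w0))) (fun o => (F o, B o)) +
      (P.cond S).kl (P.cond (fun v => (Z v, u v) = (Z w0, u w0))) (fun o => (G o, C o))) ≤
      1 + Real.log (P.Pr (fun v => (Z v, u v) = (Z w0, u w0)) / P.Pr S) := by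
  have h1 := h.pair hu hB hC S hSA
  have h2 := I_event_ge P (fun o => (F o, B o)) (fun o => (Z o, u o)) S w0 hS
  have h3 := I_event_ge P (fun o => (G o, C o)) (fun o => (Z o, u o)) S w0 hS
  have h4 := Hc_event_le P (fun o => (Z o, u o)) S w0 hS
  have h5 := mul_le_mul_of_nonneg_left (add_le_add h2 h3) hn
  have h6 := (h5.trans h1).trans h4
  refine le_of_mul_le_mul_left ?_ hp
  refine le_trans (le_of_eq ?_) h6
  ring

end one

/-! ## along the path -/

section path

variable {P : FP Om} {n : ℝ} {β γ : Type*} {κ ι φ ψ υ : ℕ → Type*}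

open Classical in
/-- the public label before the saturation at the time `t`: previous label and external label -/
noncomputable def preU (ue : ∀ t, Om → υ t) (h : ℕ → Om → Om) : ℕ → Om → Om
  | 0 => rep (ue 0)
  | t + 1 => rep (fun o => (h t o, ue (t + 1) o))

/-- one saturated choice (only its existence matters) -/
theorem exists_pub (P : FP Om) (n : ℝ) (A : ∀ t, Om → κ t) (Q : ∀ t, Om → ι t) (B : Om → β) (C : Om → γ)
    (F : ∀ t, (ℕ → Om → Om) → Om → φ t) (G : ∀ t, (ℕ → Om → Om) → Om → ψ t)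
    (ue : ∀ t, (ℕ → Om → Om) → Om → υ t) (hA : Filt A)
    (hF : ∀ t h h', (∀ s, s < t → h s = h' s) → F t h = F t h')
    (hG : ∀ t h h', (∀ s, s < t → h s = h' s) → G t h = G t h')
    (hue : ∀ t h h', (∀ s, s < t → h s = h' s) → ue t h = ue t h')
    (hAe : ∀ t h, (∀ s, s < t → Fac (A s) (h s)) → Fac (A t) (ue t h)) :
    ∃ u : ℕ → Om → Om, (∀ t, Fac (A t) (u t)) ∧ (∀ t, Fac (u t) (ue t u)) ∧ (∀ t, Fac (u (t + 1)) (u t)) ∧
      (∀ t, Sat P n (A t) (Q t) (F t u) B (G t u) C (u t)) ∧
      ∀ t, P.Hc (u t) (fun o => (Q t o, preU (fun s => ue s u) u t o)) ≤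
        n * ((P.Hc (F t u) (fun o => (B o, Q t o, preU (fun s => ue s u) u t o)) -
          P.Hc (F t u) (fun o => (B o, Q t o, u t o))) +
        (P.Hc (G t u) (fun o => (C o, Q t o, preU (fun s => ue s u) u t o)) -
          P.Hc (G t u) (fun o => (C o, Q t o, u t o)))) := by
  classical
  -- total version of the step
  have step : ∀ (t : ℕ) (h : ℕ → Om → Om), ∃ v : Om → Om,
      Fac (A t) (preU (fun s => ue s h) h t) → (Fac (A t) v ∧ Fac v (preU (fun s => ue s h) h t) ∧
        Sat P n (A t) (Q t) (F t h) B (G t h) C v ∧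
        P.Hc v (fun o => (Q t o, preU (fun s => ue s h) h t o)) ≤
        n * ((P.Hc (F t h) (fun o => (B o, Q t o, preU (fun s => ue s h) h t o)) -
          P.Hc (F t h) (fun o => (B o, Q t o, v o))) +
        (P.Hc (G t h) (fun o => (C o, Q t o, preU (fun s => ue s h) h t o)) -
          P.Hc (G t h) (fun o => (C o, Q t o, v o))))) := by
    intro t h
    by_cases hp : Fac (A t) (preU (fun s => ue s h) h t)
    · obtain ⟨v, h1⟩ := exists_sat P n (A t) (Q t) (F t h) B (G t h) C (preU (fun s => ue s h) h t) hp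
      exact ⟨v, fun _ => h1⟩
    · exact ⟨id, fun h' => absurd h' hp⟩
  choose st hst using step
  let H : ℕ → (ℕ → Om → Om) := fun t => Nat.rec (fun _ => id) (fun t h => Function.update h t (st t h)) t
  have H0 : H 0 = fun _ => id := rfl
  have HS : ∀ t, H (t + 1) = Function.update (H t) t (st t (H t)) := fun t => rfl
  set u : ℕ → Om → Om := fun t => st t (H t) with hu
  have agree : ∀ t s, s < t → H t s = u s := by
    intro t
    induction t with
    | zero => intro s hs; exact absurd hs (Nat.not_lt_zero s)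
    | succ t ih =>
      intro s hs
      rw [HS]
      rcases Nat.lt_succ_iff_lt_or_eq.1 hs with h | h
      · rw [Function.update_of_ne h.ne]; exact ih s h
      · subst h; rw [Function.update_self]
  have eF : ∀ t, F t (H t) = F t u := fun t => hF t _ _ (agree t)
  have eG : ∀ t, G t (H t) = G t u := fun t => hG t _ _ (agree t)
  have ep : ∀ t, preU (fun s => ue s (H t)) (H t) t = preU (fun s => ue s u) u t := by
    intro t
    cases t with
    | zero =>
      change rep (ue 0 (H 0)) = rep (ue 0 u)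
      rw [hue 0 (H 0) u (agree 0)]
    | succ t =>
      change rep (fun o => (H (t + 1) t o, ue (t + 1) (H (t + 1)) o)) = rep (fun o => (u t o, ue (t + 1) u o))
      rw [hue (t + 1) (H (t + 1)) u (agree (t + 1)), agree (t + 1) t (Nat.lt_succ_self t)]
  have key : ∀ t, Fac (A t) (preU (fun s => ue s u) u t) → (Fac (A t) (u t) ∧ Fac (u t) (preU (fun s => ue s u) u t) ∧
        Sat P n (A t) (Q t) (F t u) B (G t u) C (u t) ∧
        P.Hc (u t) (fun o => (Q t o, preU (fun s => ue s u) u t o)) ≤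
        n * ((P.Hc (F t u) (fun o => (B o, Q t o, preU (fun s => ue s u) u t o)) -
          P.Hc (F t u) (fun o => (B o, Q t o, u t o))) +
        (P.Hc (G t u) (fun o => (C o, Q t o, preU (fun s => ue s u) u t o)) -
          P.Hc (G t u) (fun o => (C o, Q t o, u t o))))) := by
    intro t ht
    have h1 := hst t (H t)
    rw [ep t, eF t, eG t] at h1
    exact h1 ht
  have fac : ∀ t, Fac (A t) (preU (fun s => ue s u) u t) ∧ Fac (A t) (u t) := by
    intro t
    induction t using Nat.strong_induction_on with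
    | _ t ih =>
      have h1 : Fac (A t) (preU (fun s => ue s u) u t) := by
        have h2 : Fac (A t) (ue t u) := hAe t u (fun s hs => (ih s hs).2)
        cases t with
        | zero => exact h2.trans (fac_rep _)
        | succ t => exact ((((hA t).trans (ih t (Nat.lt_succ_self t)).2).prod h2)).trans (fac_rep _)
      exact ⟨h1, (key t h1).1⟩
  refine ⟨u, fun t => (fac t).2, ?_, ?_, fun t => (key t (fac t).1).2.2.1, fun t => (key t (fac t).1).2.2.2⟩
  · intro t
    have h1 := (key t (fac t).1).2.1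
    cases t with
    | zero => exact h1.trans (rep_fac _)
    | succ t => exact (h1.trans (rep_fac _)).trans (Fac.snd _ _)
  · intro t
    exact ((key (t + 1) (fac (t + 1)).1).2.1.trans (rep_fac _)).trans (Fac.fst _ _)

/-- one step of the telescope -/
theorem bits_tele (P : FP Om) {δ : Type*} {χ : ℕ → Type*} {Q : ∀ t, Om → ι t} {ue : ∀ t, Om → υ t}
    {u : ℕ → Om → Om} (hQ : Filt Q) (D : Om → δ) (L : ∀ t, Om → χ t) (t : ℕ) :
    P.Hc (L (t + 1)) (fun o => (D o, Q (t + 1) o, preU ue u (t + 1) o)) ≤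
      P.Hc (L t) (fun o => (D o, Q t o, u t o)) + P.Hc (L (t + 1)) (fun o => (L t o, D o, Q (t + 1) o)) := by
  have h1 : P.Hc (L (t + 1)) (fun o => (D o, Q (t + 1) o, preU ue u (t + 1) o)) ≤
      P.Hc (L (t + 1)) (fun o => (D o, Q (t + 1) o, u t o)) :=
    P.Hc_anti _ (Fac.in3 D (Q (t + 1)) ((rep_fac _).trans (Fac.fst _ _)))
  have h2 : P.Hc (L (t + 1)) (fun o => (D o, Q (t + 1) o, u t o)) ≤
      P.Hc (fun o => (L (t + 1) o, L t o)) (fun o => (D o, Q (t + 1) o, u t o)) :=
    P.Hc_mono _ ((Fac.fst _ _).trans (Fac.fst _ _))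
  have h3 := P.Hc_chain (L (t + 1)) (L t) (fun o => (D o, Q (t + 1) o, u t o))
  have h4 : P.Hc (L t) (fun o => (D o, Q (t + 1) o, u t o)) ≤ P.Hc (L t) (fun o => (D o, Q t o, u t o)) := by
    refine P.Hc_anti _ ?_
    intro x y e
    simp only [Prod.mk.injEq] at e ⊢
    exact ⟨e.1, hQ t x y e.2.1, e.2.2⟩
  have h5 : P.Hc (L (t + 1)) (fun o => (L t o, D o, Q (t + 1) o, u t o)) ≤
      P.Hc (L (t + 1)) (fun o => (L t o, D o, Q (t + 1) o)) := by
    refine P.Hc_anti _ ?_
    intro x y e
    simp only [Prod.mk.injEq] at e ⊢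
    exact ⟨e.1, e.2.1, e.2.2.1⟩
  linarith

theorem bits_init (P : FP Om) {δ : Type*} {χ : ℕ → Type*} {Q : ∀ t, Om → ι t} {ue : ∀ t, Om → υ t}
    {u : ℕ → Om → Om} (D : Om → δ) (L : ∀ t, Om → χ t) :
    P.Hc (L 0) (fun o => (D o, Q 0 o, preU ue u 0 o)) ≤ P.Hc (L 0) (fun o => (D o, Q 0 o)) := by
  refine P.Hc_anti _ ?_
  intro x y e
  simp only [Prod.mk.injEq] at e ⊢
  exact ⟨e.1, e.2.1⟩

/-- total cost of the public labels -/
theorem bits {Q : ∀ t, Om → ι t} {B : Om → β} {C : Om → γ} {F : ∀ t, Om → φ t} {G : ∀ t, Om → ψ t}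
    {ue : ∀ t, Om → υ t} {u : ℕ → Om → Om} (hn : 0 ≤ n) (hQ : Filt Q)
    (hc : ∀ t, P.Hc (u t) (fun o => (Q t o, preU ue u t o)) ≤
        n * ((P.Hc (F t) (fun o => (B o, Q t o, preU ue u t o)) - P.Hc (F t) (fun o => (B o, Q t o, u t o))) +
        (P.Hc (G t) (fun o => (C o, Q t o, preU ue u t o)) - P.Hc (G t) (fun o => (C o, Q t o, u t o))))) (T : ℕ) :
    P.Hc (u 0) (Q 0) + ∑ t ∈ range T, P.Hc (u (t + 1)) (fun o => (Q (t + 1) o, u t o)) ≤
      n * ((P.Hc (F 0) (fun o => (B o, Q 0 o)) +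
          ∑ t ∈ range T, P.Hc (F (t + 1)) (fun o => (F t o, B o, Q (t + 1) o))) +
        (P.Hc (G 0) (fun o => (C o, Q 0 o)) +
          ∑ t ∈ range T, P.Hc (G (t + 1)) (fun o => (G t o, C o, Q (t + 1) o)))) +
      (P.Hc (ue 0) (Q 0) + ∑ t ∈ range T, P.Hc (ue (t + 1)) (fun o => (Q (t + 1) o, u t o))) := by
  have chain : ∀ t, P.Hc (u (t + 1)) (fun o => (Q (t + 1) o, u t o)) ≤
      P.Hc (ue (t + 1)) (fun o => (Q (t + 1) o, u t o)) + P.Hc (u (t + 1)) (fun o => (Q (t + 1) o, preU ue u (t + 1) o)) := by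
    intro t
    have h1 : P.Hc (u (t + 1)) (fun o => (Q (t + 1) o, u t o)) ≤
        P.Hc (fun o => (u (t + 1) o, ue (t + 1) o)) (fun o => (Q (t + 1) o, u t o)) :=
      P.Hc_mono _ ((Fac.fst _ _).trans (Fac.fst _ _))
    have h2 := P.Hc_chain (u (t + 1)) (ue (t + 1)) (fun o => (Q (t + 1) o, u t o))
    have h3 : P.Hc (u (t + 1)) (fun o => (ue (t + 1) o, Q (t + 1) o, u t o)) =
        P.Hc (u (t + 1)) (fun o => (Q (t + 1) o, preU ue u (t + 1) o)) := by
      apply P.Hc_congr_snd
      · intro x y e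
        simp only [Prod.mk.injEq] at e ⊢
        refine ⟨e.2.1, fac_rep (fun o => (u t o, ue (t + 1) o)) x y ?_⟩
        simp only [Prod.mk.injEq]
        exact ⟨e.2.2, e.1⟩
      · intro x y e
        simp only [Prod.mk.injEq] at e ⊢
        have e2 := rep_fac (fun o => (u t o, ue (t + 1) o)) x y e.2
        simp only [Prod.mk.injEq] at e2
        exact ⟨e2.2, e.1, e2.1⟩
    linarith
  have base : P.Hc (u 0) (Q 0) ≤ P.Hc (ue 0) (Q 0) + P.Hc (u 0) (fun o => (Q 0 o, preU ue u 0 o)) := by
    have h1 : P.Hc (u 0) (Q 0) ≤ P.Hc (fun o => (u 0 o, ue 0 o)) (Q 0) :=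
      P.Hc_mono _ ((Fac.fst _ _).trans (Fac.fst _ _))
    have h2 := P.Hc_chain (u 0) (ue 0) (Q 0)
    have h3 : P.Hc (u 0) (fun o => (ue 0 o, Q 0 o)) = P.Hc (u 0) (fun o => (Q 0 o, preU ue u 0 o)) := by
      apply P.Hc_congr_snd
      · intro x y e
        simp only [Prod.mk.injEq] at e ⊢
        exact ⟨e.2, fac_rep (ue 0) x y e.1⟩
      · intro x y e
        simp only [Prod.mk.injEq] at e ⊢
        exact ⟨rep_fac (ue 0) x y e.2, e.1⟩
    linarith
  -- induction with the remaining entropies kept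
  have main : ∀ T, P.Hc (u 0) (Q 0) + ∑ t ∈ range T, P.Hc (u (t + 1)) (fun o => (Q (t + 1) o, u t o)) ≤
      n * ((P.Hc (F 0) (fun o => (B o, Q 0 o)) +
          ∑ t ∈ range T, P.Hc (F (t + 1)) (fun o => (F t o, B o, Q (t + 1) o))
          - P.Hc (F T) (fun o => (B o, Q T o, u T o))) +
        (P.Hc (G 0) (fun o => (C o, Q 0 o)) +
          ∑ t ∈ range T, P.Hc (G (t + 1)) (fun o => (G t o, C o, Q (t + 1) o))
          - P.Hc (G T) (fun o => (C o, Q T o, u T o)))) +
      (P.Hc (ue 0) (Q 0) + ∑ t ∈ range T, P.Hc (ue (t + 1)) (fun o => (Q (t + 1) o, u t o))) := by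
    intro T
    induction T with
    | zero =>
      simp only [Finset.range_zero, Finset.sum_empty, add_zero]
      have h1 := hc 0
      have h2 := mul_le_mul_of_nonneg_left (add_le_add (bits_init P (Q := Q) (ue := ue) (u := u) B F) (bits_init P (Q := Q) (ue := ue) (u := u) C G)) hn
      linarith
    | succ T ih =>
      simp only [Finset.sum_range_succ]
      have h1 := hc (T + 1)
      have h2 := mul_le_mul_of_nonneg_left (add_le_add (bits_tele P (ue := ue) (u := u) hQ B F T) (bits_tele P (ue := ue) (u := u) hQ C G T)) hn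
      have h3 := chain T
      nlinarith [h1, h2, h3, ih]
  refine (main T).trans ?_
  have h1 := mul_nonneg hn (P.Hc_nonneg (F T) (fun o => (B o, Q T o, u T o)))
  have h2 := mul_nonneg hn (P.Hc_nonneg (G T) (fun o => (C o, Q T o, u T o)))
  linarith

/-- interaction identity: the information destroyed by revealing `V` -/
theorem I_inter (P : FP Om) {α δ ω ζ : Type*} (X : Om → α) (Y : Om → δ) (V : Om → ω) (Z : Om → ζ) :
    P.I X Y Z - P.I X Y (fun o => (V o, Z o)) =
      P.I X V Z + P.I Y V Z - P.I (fun o => (X o, Y o)) V Z := by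
  have h1 := P.I_chain X Y V Z
  have h2 : P.I X V (fun o => (Y o, Z o)) = P.I X V Z + P.I X Y (fun o => (V o, Z o)) - P.I X Y Z := by
    have a := P.I_chain V Y X Z
    have b := P.I_chain Y V X Z
    have c : P.I (fun o => (V o, Y o)) X Z = P.I (fun o => (Y o, V o)) X Z := by
      apply le_antisymm
      · exact P.I_mono X ((Fac.fst _ Z).trans ((Fac.snd Y V).prod (Fac.fst Y V)))
      · exact P.I_mono X ((Fac.fst _ Z).trans ((Fac.snd V Y).prod (Fac.fst V Y)))
    rw [P.I_comm X V, P.I_comm X V, P.I_comm X Y, P.I_comm X Y]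
    linarith
  rw [P.I_comm Y V] at *
  linarith

/-- THE BALANCE: `M t = I(F t; G t | B, C, Q t, u t)`; the synergies are paid by the final information and by the
redundancies of the additions to the public label (old labels) -/
theorem balance {Q : ∀ t, Om → ι t} {B : Om → β} {C : Om → γ} {F : ∀ t, Om → φ t} {G : ∀ t, Om → ψ t}
    {u : ℕ → Om → Om} {D : ℕ → Om → ℝ}
    (hF : ∀ t, Fac (fun o => (F (t + 1) o, (B o, C o, Q (t + 1) o, u (t + 1) o))) (F t))
    (hG : ∀ t, Fac (fun o => (G (t + 1) o, (B o, C o, Q (t + 1) o, u (t + 1) o))) (G t))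
    (hQ : Filt Q) (hD : ∀ t, Fac (fun o => (B o, C o, D t o, Q t o)) (Q (t + 1))) (hD' : ∀ t, Fac (Q (t + 1)) (D t))
    (T : ℕ) :
    P.I (F 0) (G 0) (fun o => (B o, C o, Q 0 o, u 0 o)) +
      ∑ t ∈ range T, (P.I (F t) (G t) (fun o => (D t o, (B o, C o, Q t o, u t o))) -
        P.I (F t) (G t) (fun o => (B o, C o, Q t o, u t o))) ≤
      P.I (F T) (G T) (fun o => (B o, C o, Q T o, u T o)) +
      ∑ t ∈ range T, (P.I (F t) (G t) (fun o => (B o, C o, Q (t + 1) o, u t o)) -
        P.I (F t) (G t) (fun o => (B o, C o, Q (t + 1) o, u (t + 1) o))) := by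
  induction T with
  | zero => simp
  | succ T ih =>
    simp only [Finset.sum_range_succ]
    have h1 : P.I (F T) (G T) (fun o => (D T o, (B o, C o, Q T o, u T o))) =
        P.I (F T) (G T) (fun o => (B o, C o, Q (T + 1) o, u T o)) := by
      apply P.I_congr_cond
      · intro x y e
        simp only [Prod.mk.injEq] at e ⊢
        exact ⟨e.2.1, e.2.2.1, hD T x y (by simp only [Prod.mk.injEq]; exact ⟨e.2.1, e.2.2.1, e.1, e.2.2.2.1⟩),
          e.2.2.2.2⟩
      · intro x y e
        simp only [Prod.mk.injEq] at e ⊢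
        exact ⟨hD' T x y e.2.2.1, e.1, e.2.1, hQ T x y e.2.2.1, e.2.2.2⟩
    have h2 : P.I (F T) (G T) (fun o => (B o, C o, Q (T + 1) o, u (T + 1) o)) ≤
        P.I (F (T + 1)) (G T) (fun o => (B o, C o, Q (T + 1) o, u (T + 1) o)) := P.I_mono _ (hF T)
    have h3 : P.I (F (T + 1)) (G T) (fun o => (B o, C o, Q (T + 1) o, u (T + 1) o)) ≤
        P.I (F (T + 1)) (G (T + 1)) (fun o => (B o, C o, Q (T + 1) o, u (T + 1) o)) := by
      rw [P.I_comm (F (T + 1)), P.I_comm (F (T + 1))]
      exact P.I_mono _ (hG T)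
    linarith

end path

end Pool.Agent.M3
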