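import Pool.Agent.M3.NVP

/-!
# M3.NVN: the law of the noise of the letters, mass of the errors (helper7)

* `eval_E` : evaluation of a uniform function at a point; `Pm_nuFG` : joint law of (point without coins, noise of the
  letters): the noises are uniform and independent;
* `stk_le` : a strike has probability at most `J/(Rz+1)`; `bad_le` : mass of `bad N`; `dd_le` : mass of the errors.
-/

set_option autoImplicit false
set_option linter.unusedSectionVars false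

namespace Pool.Agent.M3

open Finset Pool.Agent.PWZ

/-- evaluation of a uniform function at a point -/
theorem eval_E {ι σ : Type*} [Fintype ι] [DecidableEq ι] [Fintype σ] [Nonempty σ] (a : ι) (g : σ → ℝ) :
    (FP.unif (ι → σ)).E (fun c => g (c a)) = (FP.unif σ).E g :=
  (pulC_unif (Equiv.funSplitAt a σ)).pul.E g

namespace Mod

open Pool.Agent.M3.Bin

variable {k N : ℕ} {Θ Ξ : Type} [Fintype Θ] [Nonempty Θ] [Fintype Ξ] [Nonempty Ξ] {Rz : ℕ} {φ : Type} [Fintype φ]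

theorem eval_CF (b : Ξ × V k) (g : (Fin (N + 1) → Nz.Ns Rz φ) → ℝ) :
    (FP.unif (CF k N Ξ Rz φ)).E (fun c => g (c b)) = (FP.unif (Fin (N + 1) → Nz.Ns Rz φ)).E g := by
  classical
  let e : CF k N Ξ Rz φ ≃ (Fin (N + 1) → Nz.Ns Rz φ) × ({b' : Ξ × V k // b' ≠ b} → (Fin (N + 1) → Nz.Ns Rz φ)) :=
    Equiv.funSplitAt b (Fin (N + 1) → Nz.Ns Rz φ)
  exact (pulC_unif e).pul.E g

theorem eval_Co (b c : Ξ × V k) (g : (Fin (N + 1) → Nz.Ns Rz φ) → (Fin (N + 1) → Nz.Ns Rz φ) → ℝ) :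
    (FP.unif (Co k N Ξ Rz φ)).E (fun q => g (q.1 b) (q.2 c)) =
      (FP.unif (Fin (N + 1) → Nz.Ns Rz φ)).E (fun x => (FP.unif (Fin (N + 1) → Nz.Ns Rz φ)).E (fun y => g x y)) := by
  let e : Co k N Ξ Rz φ ≃ CF k N Ξ Rz φ × CF k N Ξ Rz φ := Equiv.refl _
  have h1 := (pulC_unif e).E (fun x y => g (x b) (y c))
  have h2 : (FP.unif (Co k N Ξ Rz φ)).E (fun q => g (q.1 b) (q.2 c)) =
      (FP.unif (CF k N Ξ Rz φ)).E (fun x => (FP.unif (CF k N Ξ Rz φ)).E (fun y => g (x b) (y c))) := h1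
  rw [h2]
  have h3 : ∀ x : CF k N Ξ Rz φ, (FP.unif (CF k N Ξ Rz φ)).E (fun y => g (x b) (y c)) =
      (FP.unif (Fin (N + 1) → Nz.Ns Rz φ)).E (fun y => g (x b) y) := fun x => eval_CF c (g (x b))
  simp only [h3]
  exact eval_CF b (fun x => (FP.unif (Fin (N + 1) → Nz.Ns Rz φ)).E (fun y => g x y))

/-- JOINT LAW of the point without coins and of the noises of the letters -/
theorem Pm_nuFG (i j l : Fin 3)
    (Ψ : Sp k N 3 Θ Ξ → (Fin (N + 1) → Nz.Ns Rz φ) → (Fin (N + 1) → Nz.Ns Rz φ) → ℝ) :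
    Pm.E (fun w : Sp k N 3 Θ (Ξ × Co k N Ξ Rz φ) => Ψ (pic w) (nuF i j w) (nuG i l w)) =
      Pm.E (fun v => (FP.unif (Fin (N + 1) → Nz.Ns Rz φ)).E (fun x =>
        (FP.unif (Fin (N + 1) → Nz.Ns Rz φ)).E (fun y => Ψ v x y))) := by
  have h1 := (pulC_pic (k := k) (N := N) (m := 3) (Θ := Θ) (Ξ := Ξ) (Ci := Co k N Ξ Rz φ)).E
    (fun v c => Ψ v ((c i).1 (vx j v)) ((c i).2 (vx l v)))
  refine Eq.trans h1 ?_
  refine Pm.E_congr fun v _ => ?_
  have h2 := eval_E (σ := Co k N Ξ Rz φ) i (fun q => Ψ v (q.1 (vx j v)) (q.2 (vx l v)))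
  refine Eq.trans h2 ?_
  exact eval_Co (vx j v) (vx l v) (fun x y => Ψ v x y)

theorem Pm_nuF (i j : Fin 3) (Ψ : Sp k N 3 Θ Ξ → (Fin (N + 1) → Nz.Ns Rz φ) → ℝ) :
    Pm.E (fun w : Sp k N 3 Θ (Ξ × Co k N Ξ Rz φ) => Ψ (pic w) (nuF i j w)) =
      Pm.E (fun v => (FP.unif (Fin (N + 1) → Nz.Ns Rz φ)).E (Ψ v)) := by
  rw [Pm_nuFG i j i (fun v x _ => Ψ v x)]
  refine Pm.E_congr fun v _ => ?_
  refine FP.E_congr _ fun x _ => ?_
  exact FP.E_const _ _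

theorem Pm_nuG (i l : Fin 3) (Ψ : Sp k N 3 Θ Ξ → (Fin (N + 1) → Nz.Ns Rz φ) → ℝ) :
    Pm.E (fun w : Sp k N 3 Θ (Ξ × Co k N Ξ Rz φ) => Ψ (pic w) (nuG i l w)) =
      Pm.E (fun v => (FP.unif (Fin (N + 1) → Nz.Ns Rz φ)).E (Ψ v)) := by
  rw [Pm_nuFG i i l (fun v _ y => Ψ v y)]
  refine Pm.E_congr fun v _ => ?_
  exact FP.E_const _ _

end Mod

theorem cn_eq_sum (p : ℕ → Prop) (n : ℕ) : (Nz.cn p n : ℝ) = ∑ s ∈ range n, ind (p s) := by
  induction n with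
  | zero => rw [Nz.cn_zero]; simp
  | succ n ih =>
    rw [Finset.sum_range_succ, ← ih]
    by_cases h : p n
    · rw [ind_of h, Nz.cn_succ_of h]; push_cast; rfl
    · rw [ind_not h, Nz.cn_succ_not h, add_zero]

/-- Markov for a count -/
theorem FP.cn_markov {Om : Type*} [Fintype Om] (P : FP Om) (p : ℕ → Om → Prop) (n J : ℕ) :
    (J : ℝ) * P.Pr (fun w => J < Nz.cn (fun s => p s w) n) ≤ ∑ s ∈ range n, P.Pr (p s) := by
  have h1 := P.markov (f := fun w => (Nz.cn (fun s => p s w) n : ℝ)) (fun w _ => Nat.cast_nonneg _) J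
  have h2 : P.Pr (fun w => J < Nz.cn (fun s => p s w) n) ≤
      P.Pr (fun w => (J : ℝ) ≤ (Nz.cn (fun s => p s w) n : ℝ)) :=
    P.Pr_mono fun w _ hw => by exact_mod_cast hw.le
  have h3 : P.E (fun w => (Nz.cn (fun s => p s w) n : ℝ)) = ∑ s ∈ range n, P.Pr (p s) := by
    unfold FP.Pr
    rw [← P.E_sum]
    exact P.E_congr fun w _ => cn_eq_sum _ n
  rw [h3] at h1
  exact (mul_le_mul_of_nonneg_left h2 (Nat.cast_nonneg J)).trans h1

namespace L1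

open Pool.Agent.M3.Mod Pool.Agent.M3.Bin

variable {k N : ℕ} {Θ Ξ : Type} [Fintype Θ] [Nonempty Θ] [Fintype Ξ] [Nonempty Ξ] {Rz : ℕ} {L : Type} [Fintype L]

/-- the noise of a pair: uniform given the point -/
def NuLaw (ν : Sp k N 3 Θ (Ξ × Co k N Ξ Rz (Bool → L)) → Fin (N + 1) → Nz.Ns Rz (Bool → L)) : Prop :=
  ∀ Ψ : Sp k N 3 Θ Ξ → (Fin (N + 1) → Nz.Ns Rz (Bool → L)) → ℝ,
    Pm.E (fun w : Sp k N 3 Θ (Ξ × Co k N Ξ Rz (Bool → L)) => Ψ (pic w) (ν w)) =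
      Pm.E (fun v => (FP.unif (Fin (N + 1) → Nz.Ns Rz (Bool → L))).E (Ψ v))

variable {ν : Sp k N 3 Θ (Ξ × Co k N Ξ Rz (Bool → L)) → Fin (N + 1) → Nz.Ns Rz (Bool → L)}
  {D : L1 (Sp k N 3 Θ Ξ) L} {J n0 : ℕ}

theorem stk_le (hν : NuLaw ν) (t : ℕ) :
    Pm.Pr (fun w => (D.pull pic).stk Rz J ν t w) ≤ (J : ℝ) / (Rz + 1) := by
  have h1 : Pm.Pr (fun w => (D.pull pic).stk Rz J ν t w) ≤
      Pm.E (fun w => ind (∃ s : Fin (N + 1), (D.oc s.val (pic w) ∧ Nz.cn (fun r => D.oc r (pic w)) s.val < J) ∧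
        (ν w s).1 = 0)) := by
    refine Pm.Pr_mono fun w _ hw => ?_
    obtain ⟨s, _, ⟨h2, h3⟩, h4⟩ := hw
    refine ⟨s, ⟨(D.oc_pull pic s.val w).1 h2, ?_⟩, h4⟩
    have h5 : (fun r => (D.pull pic).oc r w) = fun r => D.oc r (pic w) :=
      funext fun r => propext (D.oc_pull pic r w)
    rw [h5] at h3
    exact h3
  refine h1.trans ?_
  rw [hν (fun v x => ind (∃ s : Fin (N + 1), (D.oc s.val v ∧ Nz.cn (fun r => D.oc r v) s.val < J) ∧ (x s).1 = 0))]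
  exact Pm.E_le_const fun v _ => Nz.strike_le (R := Rz) (J := J) (φ := Bool → L) (N := N) (fun s => D.oc s v)

/-- MASS OF `bad N` -/
theorem bad_le (hν : NuLaw ν) (hJ : 0 < J) (hn : 0 < n0) {oo cc : ℝ}
    (ho : ∑ t ∈ range N, Pm.Pr (fun v => D.cl t v) ≤ oo)
    (hc : ∑ t ∈ range N, Pm.Pr (fun v => D.cl t v ∧ D.bb t v) ≤ cc) :
    Pm.Pr (fun w => (D.pull pic).bad Rz J n0 ν N w) ≤ (J : ℝ) / (Rz + 1) + (1 + oo) / J + (1 + cc) / n0 := by
  have hP := pul_pic (k := k) (N := N) (m := 3) (Θ := Θ) (Ξ := Ξ) (Ci := Co k N Ξ Rz (Bool → L))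
  have hJ' : (0 : ℝ) < J := Nat.cast_pos.mpr hJ
  have hn' : (0 : ℝ) < n0 := Nat.cast_pos.mpr hn
  have h1 : Pm.Pr (fun w => (D.pull pic).bad Rz J n0 ν N w) ≤
      Pm.Pr (fun w => (D.pull pic).stk Rz J ν N w ∨ ((J < Nz.cn (fun s => D.oc s (pic w)) (N + 1)) ∨
        n0 < Nz.cn (fun s => D.tc s (pic w) ≠ none) (N + 1))) := by
    refine Pm.Pr_mono fun w _ hw => ?_
    have h5 : (fun r => (D.pull pic).oc r w) = fun r => D.oc r (pic w) :=
      funext fun r => propext (D.oc_pull pic r w)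
    have h6 : (fun r => (D.pull pic).tc r w ≠ none) = fun r => D.tc r (pic w) ≠ none :=
      funext fun r => by rw [D.tc_pull pic r w]
    rcases hw with hw | hw | hw | hw
    · exact absurd hw (lt_irrefl _)
    · exact Or.inl hw
    · rw [h5] at hw; exact Or.inr (Or.inl hw)
    · rw [h6] at hw; exact Or.inr (Or.inr hw)
  have h2 := Pm.Pr_or_le (fun w => (D.pull pic).stk Rz J ν N w)
    (fun w : Sp k N 3 Θ (Ξ × Co k N Ξ Rz (Bool → L)) => (J < Nz.cn (fun s => D.oc s (pic w)) (N + 1)) ∨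
        n0 < Nz.cn (fun s => D.tc s (pic w) ≠ none) (N + 1))
  have h3 := Pm.Pr_or_le (fun w : Sp k N 3 Θ (Ξ × Co k N Ξ Rz (Bool → L)) =>
      J < Nz.cn (fun s => D.oc s (pic w)) (N + 1))
    (fun w => n0 < Nz.cn (fun s => D.tc s (pic w) ≠ none) (N + 1))
  have h4 := stk_le (D := D) (J := J) hν N
  have e1 := hP.Pr (fun v => J < Nz.cn (fun s => D.oc s v) (N + 1))
  have e2 := hP.Pr (fun v => n0 < Nz.cn (fun s => D.tc s v ≠ none) (N + 1))
  have m1 := (Pm (k := k) (N := N) (m := 3) (Θ := Θ) (P := Ξ)).cn_markov (fun s v => D.oc s v) (N + 1) J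
  have m2 := (Pm (k := k) (N := N) (m := 3) (Θ := Θ) (P := Ξ)).cn_markov (fun s v => D.tc s v ≠ none) (N + 1) n0
  have s1 : ∑ s ∈ range (N + 1), Pm.Pr (fun v => D.oc s v) ≤ 1 + oo := by
    rw [Finset.sum_range_succ']
    have a1 : Pm.Pr (fun v => D.oc 0 v) ≤ 1 := Pm.Pr_le_one _
    have a2 : ∑ s ∈ range N, Pm.Pr (fun v => D.oc (s + 1) v) = ∑ t ∈ range N, Pm.Pr (fun v => D.cl t v) := rfl
    rw [a2]
    linarith
  have s2 : ∑ s ∈ range (N + 1), Pm.Pr (fun v => D.tc s v ≠ none) ≤ 1 + cc := by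
    rw [Finset.sum_range_succ']
    have a1 : Pm.Pr (fun v => D.tc 0 v ≠ none) ≤ 1 := Pm.Pr_le_one _
    have a2 : ∑ s ∈ range N, Pm.Pr (fun v => D.tc (s + 1) v ≠ none) ≤
        ∑ t ∈ range N, Pm.Pr (fun v => D.cl t v ∧ D.bb t v) := by
      refine Finset.sum_le_sum fun t _ => Pm.Pr_mono fun v _ hv => ?_
      rw [tc_succ] at hv
      by_contra hn
      rw [if_neg hn] at hv
      exact hv rfl
    linarith
  have q1 : Pm.Pr (fun v => J < Nz.cn (fun s => D.oc s v) (N + 1)) ≤ (1 + oo) / J := by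
    rw [le_div_iff₀ hJ', mul_comm]
    exact m1.trans s1
  have q2 : Pm.Pr (fun v => n0 < Nz.cn (fun s => D.tc s v ≠ none) (N + 1)) ≤ (1 + cc) / n0 := by
    rw [le_div_iff₀ hn', mul_comm]
    exact m2.trans s2
  rw [← e1] at q1
  rw [← e2] at q2
  linarith

end L1

end Pool.Agent.M3
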