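import Pool.Agent.M3.FP

/-!
# M3.Indep: independent maps on a finite probability space

`P.Indep X Y`: functions of `X` and functions of `Y` are uncorrelated.  `ce_indep`: for `f` a function of
`(X, φ)` with `φ`, `ψ` functions of `Y`, `ψ` finer than `φ`, the conditional expectation given `(ζ, ψ)` (`ζ` a function
of `X`) freezes `φ` and averages `X` over the class of `ζ`; hence it does not change if `ψ` is replaced by `φ`
(`ce_indep_eq`), and it increases at most by the ratio of the masses if `ζ` is refined (`ce_indep_le`, the form of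
`hZ` in `prop1`).  `FP.unif` (uniform law), `FP.pr` (product law), `indep_fst_snd`, `unif_indep`.
-/

set_option autoImplicit false
set_option linter.unusedSectionVars false

namespace Pool.Agent.M3

open Finset Pool.Agent.PWZ

variable {Om : Type*} [Fintype Om]

/-- independence -/
def FP.Indep (P : FP Om) {κ ι : Type*} (X : Om → κ) (Y : Om → ι) : Prop :=
  ∀ f g : Om → ℝ, Fac X f → Fac Y g → P.E (fun w => f w * g w) = P.E f * P.E g

/-- a function of the pair `(X, φ)` as a real function of two variables -/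
theorem exists_two {κ ι : Type*} {X : Om → κ} {φ : Om → ι} {f : Om → ℝ} (hf : Fac (fun w => (X w, φ w)) f)
    (hf0 : ∀ w, 0 ≤ f w) : ∃ F : κ → ι → ℝ, (∀ w, f w = F (X w) (φ w)) ∧ ∀ x y, 0 ≤ F x y := by
  classical
  refine ⟨fun x y => if h : ∃ v, X v = x ∧ φ v = y then f h.choose else 0, fun w => ?_, fun x y => ?_⟩
  · have h : ∃ v, X v = X w ∧ φ v = φ w := ⟨w, rfl, rfl⟩
    simp only [dif_pos h]
    refine (hf _ _ ?_).symm
    simp only [Prod.mk.injEq]
    exact h.choose_spec
  · by_cases h : ∃ v, X v = x ∧ φ v = y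
    · simp only [dif_pos h]; exact hf0 _
    · simp only [dif_neg h]; exact le_rfl

namespace FP

variable (P : FP Om) {κ ι κ' ι' ι'' : Type*} {X : Om → κ} {Y : Om → ι}

theorem Indep.symm {P : FP Om} (h : P.Indep X Y) : P.Indep Y X := fun f g hf hg => by
  rw [mul_comm (P.E f), ← h g f hg hf]
  exact P.E_congr (fun w _ => mul_comm _ _)

theorem Indep.mono {P : FP Om} (h : P.Indep X Y) {X' : Om → κ'} {Y' : Om → ι'} (hX : Fac X X') (hY : Fac Y Y') :
    P.Indep X' Y' := fun f g hf hg => h f g (hX.trans hf) (hY.trans hg)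

/-- a function of `Z` as a mean over the points -/
theorem eq_E_fibre {ω : Type*} {Z : Om → ω} {q : Om → ℝ} (hq : Fac Z q) {u : Om} (hu : P.p u ≠ 0) :
    q u = P.E (fun w => q w * ind (Z u = Z w) / P.m Z w) := by
  have h1 : P.E (fun w => q w * ind (Z u = Z w) / P.m Z w) = P.E (fun w => q u / P.m Z u * ind (Z w = Z u)) := by
    refine P.E_congr (fun w _ => ?_)
    by_cases hz : Z w = Z u
    · rw [ind_of hz, ind_of hz.symm, hq w u hz, P.Fac_m Z w u hz]; ring
    · rw [ind_not hz, ind_not (fun h => hz h.symm)]; ring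
  rw [h1, E_smul]
  change q u = q u / P.m Z u * P.m Z u
  field_simp [(P.m_pos Z hu).ne']

/-- independence from the masses of the fibres on the support -/
theorem indep_of_m (h : ∀ w v, P.p w ≠ 0 → P.p v ≠ 0 →
    P.E (fun u => ind (X u = X w) * ind (Y u = Y v)) = P.m X w * P.m Y v) : P.Indep X Y := by
  classical
  intro f g hf hg
  -- write `E f = sum over the points` of `f w * p w`, grouped by the fibres
  have h2 : P.E (fun u => f u * g u) = P.E (fun u => P.E (fun w => P.E (fun v =>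
      f w * g v / (P.m X w * P.m Y v) * (ind (X u = X w) * ind (Y u = Y v))))) := by
    refine P.E_congr (fun u hu => ?_)
    conv_lhs => rw [P.eq_E_fibre hf hu, P.eq_E_fibre hg hu]
    rw [← E_mul_const]
    refine P.E_congr (fun w _ => ?_)
    rw [← E_smul]
    refine P.E_congr (fun v _ => ?_)
    ring
  have h3 : P.E (fun u => P.E (fun w => P.E (fun v =>
      f w * g v / (P.m X w * P.m Y v) * (ind (X u = X w) * ind (Y u = Y v))))) =
      P.E (fun w => P.E (fun v => f w * g v)) := by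
    rw [E_swap]
    refine P.E_congr (fun w hw => ?_)
    rw [E_swap]
    refine P.E_congr (fun v hv => ?_)
    rw [E_smul, h w v hw hv]
    have := (P.m_pos X hw).ne'
    have := (P.m_pos Y hv).ne'
    field_simp
  rw [h2, h3]
  have h4 : P.E (fun w => P.E (fun v => f w * g v)) = P.E (fun w => f w * P.E g) :=
    P.E_congr (fun w _ => P.E_smul _ _)
  rw [h4, E_mul_const]

/-- FREEZING -/
theorem ce_indep (h : P.Indep X Y) {ζ : Om → κ'} {φ : Om → ι'} {ψ : Om → ι''} (hζ : Fac X ζ) (hψ : Fac Y ψ)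
    (hφ : Fac ψ φ) (F : κ → ι' → ℝ) {w : Om} (hw : P.p w ≠ 0) :
    P.ce (fun v => (ζ v, ψ v)) (fun v => F (X v) (φ v)) w =
      P.E (fun v => ind (ζ v = ζ w) * F (X v) (φ w)) / P.m ζ w := by
  have hmψ := (P.m_pos ψ hw).ne'
  have hmζ := (P.m_pos ζ hw).ne'
  have h1 : ∀ G : Om → ℝ, Fac X G →
      P.E (fun v => ind ((ζ v, ψ v) = (ζ w, ψ w)) * G v) = P.E (fun v => ind (ζ v = ζ w) * G v) * P.m ψ w := by
    intro G hG
    have h2 := h (fun v => ind (ζ v = ζ w) * G v) (fun v => ind (ψ v = ψ w))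
      (Fac.mul (Fac.ind (fun v v' hv => by rw [hζ v v' hv])) hG)
      (Fac.ind (fun v v' hv => by rw [hψ v v' hv]))
    unfold m
    rw [← h2]
    refine P.E_congr (fun v _ => ?_)
    rw [Prod.mk.injEq, ind_and]
    ring
  unfold ce
  have h3 : P.E (fun v => ind ((ζ v, ψ v) = (ζ w, ψ w)) * F (X v) (φ v)) =
      P.E (fun v => ind (ζ v = ζ w) * F (X v) (φ w)) * P.m ψ w := by
    rw [← h1 (fun v => F (X v) (φ w)) (fun v v' hv => congrArg (fun x => F x (φ w)) hv)]
    refine P.E_congr (fun v _ => ?_)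
    by_cases he : (ζ v, ψ v) = (ζ w, ψ w)
    · rw [hφ v w (Prod.mk.injEq _ _ _ _ ▸ he : _ ∧ _).2]
    · rw [ind_not he]; ring
  have h4 : P.m (fun v => (ζ v, ψ v)) w = P.m ζ w * P.m ψ w := by
    have := h1 (fun _ => 1) (fun _ _ _ => rfl)
    simp only [mul_one] at this
    exact this
  rw [h3, h4]
  field_simp

/-- the part of `Y` which `f` does not see can be forgotten -/
theorem ce_indep_eq (h : P.Indep X Y) {ζ : Om → κ'} {φ : Om → ι'} {ψ : Om → ι''} (hζ : Fac X ζ) (hψ : Fac Y ψ)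
    (hφ : Fac ψ φ) {f : Om → ℝ} (hf : Fac (fun w => (X w, φ w)) f) {w : Om} (hw : P.p w ≠ 0) :
    P.ce (fun v => (ζ v, ψ v)) f w = P.ce (fun v => (ζ v, φ v)) f w := by
  have h0 : Fac (fun w => (X w, φ w)) (fun w => |f w|) := hf.comp _
  -- positive and negative part
  have key : ∀ q : Om → ℝ, Fac (fun w => (X w, φ w)) q → (∀ v, 0 ≤ q v) →
      P.ce (fun v => (ζ v, ψ v)) q w = P.ce (fun v => (ζ v, φ v)) q w := by
    intro q hq hq0
    obtain ⟨F, hF, -⟩ := exists_two hq hq0
    have e : q = fun v => F (X v) (φ v) := funext hF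
    rw [e, P.ce_indep h hζ hψ hφ F hw, P.ce_indep h hζ (hψ.trans hφ) (Fac.refl φ) F hw]
  have h1 := key (fun w => |f w| + f w) (h0.add hf) (fun v => by linarith [neg_abs_le (f v)])
  have h2 := key (fun w => |f w|) h0 (fun v => abs_nonneg _)
  rw [P.ce_add, P.ce_add] at h1
  linarith

/-- refining the class of `X` costs the ratio of the masses -/
theorem ce_indep_le (h : P.Indep X Y) {ζ : Om → κ'} {κ₀ : Type*} {ζ0 : Om → κ₀} {φ : Om → ι'} {ψ : Om → ι''}
    (hζ : Fac X ζ) (hζ0 : Fac ζ ζ0) (hψ : Fac Y ψ) (hφ : Fac ψ φ) {f : Om → ℝ}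
    (hf : Fac (fun w => (X w, φ w)) f) (hf0 : ∀ w, 0 ≤ f w) {C : ℝ} {w : Om} (hw : P.p w ≠ 0)
    (hC : P.m ζ0 w ≤ C * P.m ζ w) :
    P.ce (fun v => (ζ v, ψ v)) f w ≤ C * P.ce (fun v => (ζ0 v, φ v)) f w := by
  obtain ⟨F, hF, hF0⟩ := exists_two hf hf0
  have e : f = fun v => F (X v) (φ v) := funext hF
  rw [e, P.ce_indep h hζ hψ hφ F hw, P.ce_indep h (hζ.trans hζ0) (hψ.trans hφ) (Fac.refl φ) F hw]
  have hm := P.m_pos ζ hw
  have hm0 := P.m_pos ζ0 hw
  have h1 : P.E (fun v => ind (ζ v = ζ w) * F (X v) (φ w)) ≤ P.E (fun v => ind (ζ0 v = ζ0 w) * F (X v) (φ w)) :=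
    P.E_mono (fun v _ => mul_le_mul_of_nonneg_right (ind_mono (hζ0 v w)) (hF0 _ _))
  have h2 : 0 ≤ P.E (fun v => ind (ζ0 v = ζ0 w) * F (X v) (φ w)) :=
    P.E_nonneg (fun v _ => mul_nonneg (ind_nonneg _) (hF0 _ _))
  rw [div_le_iff₀ hm]
  calc P.E (fun v => ind (ζ v = ζ w) * F (X v) (φ w))
      ≤ P.E (fun v => ind (ζ0 v = ζ0 w) * F (X v) (φ w)) := h1
    _ = P.E (fun v => ind (ζ0 v = ζ0 w) * F (X v) (φ w)) / P.m ζ0 w * P.m ζ0 w := by field_simp
    _ ≤ P.E (fun v => ind (ζ0 v = ζ0 w) * F (X v) (φ w)) / P.m ζ0 w * (C * P.m ζ w) :=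
        mul_le_mul_of_nonneg_left hC (div_nonneg h2 hm0.le)
    _ = _ := by ring

/-! ## uniform law and products -/

/-- uniform law -/
noncomputable def unif (Om : Type*) [Fintype Om] [Nonempty Om] : FP Om where
  p := fun _ => (Fintype.card Om : ℝ)⁻¹
  nn := fun _ => inv_nonneg.mpr (Nat.cast_nonneg _)
  tot := by
    rw [Finset.sum_const, Finset.card_univ, nsmul_eq_mul]
    exact mul_inv_cancel₀ (Nat.cast_ne_zero.mpr Fintype.card_ne_zero)

theorem unif_E (Om : Type*) [Fintype Om] [Nonempty Om] (f : Om → ℝ) :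
    (unif Om).E f = (∑ w, f w) / Fintype.card Om := by
  unfold E unif
  simp only
  rw [← Finset.mul_sum, div_eq_inv_mul]

theorem unif_ne (Om : Type*) [Fintype Om] [Nonempty Om] (w : Om) : (unif Om).p w ≠ 0 :=
  inv_ne_zero (Nat.cast_ne_zero.mpr Fintype.card_ne_zero)

/-- product law -/
def pr {O1 O2 : Type*} [Fintype O1] [Fintype O2] (P1 : FP O1) (P2 : FP O2) : FP (O1 × O2) where
  p := fun w => P1.p w.1 * P2.p w.2
  nn := fun w => mul_nonneg (P1.nn _) (P2.nn _)
  tot := by
    rw [Fintype.sum_prod_type]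
    simp only [← Finset.mul_sum, P2.tot, mul_one, P1.tot]

theorem pr_E {O1 O2 : Type*} [Fintype O1] [Fintype O2] (P1 : FP O1) (P2 : FP O2) (f : O1 × O2 → ℝ) :
    (pr P1 P2).E f = P1.E (fun x => P2.E (fun y => f (x, y))) := by
  unfold E pr
  simp only
  rw [Fintype.sum_prod_type]
  refine Finset.sum_congr rfl (fun x _ => ?_)
  rw [Finset.mul_sum]
  exact Finset.sum_congr rfl (fun y _ => by ring)

theorem indep_fst_snd {O1 O2 : Type*} [Fintype O1] [Fintype O2] (P1 : FP O1) (P2 : FP O2) :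
    (pr P1 P2).Indep (fun w => w.1) (fun w => w.2) := by
  intro f g hf hg
  have e1 : ∀ x y y', f (x, y) = f (x, y') := fun x y y' => hf _ _ rfl
  have e2 : ∀ x x' y, g (x, y) = g (x', y) := fun x x' y => hg _ _ rfl
  obtain ⟨x0, -⟩ : ∃ x, P1.p x ≠ 0 := by
    by_contra hcon
    push Not at hcon
    have := P1.tot
    simp [hcon] at this
  obtain ⟨y0, -⟩ : ∃ y, P2.p y ≠ 0 := by
    by_contra hcon
    push Not at hcon
    have := P2.tot
    simp [hcon] at this
  rw [pr_E, pr_E, pr_E]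
  have h1 : P1.E (fun x => P2.E (fun y => f (x, y) * g (x, y))) =
      P1.E (fun x => f (x, y0) * P2.E (fun y => g (x0, y))) := by
    refine P1.E_congr (fun x _ => ?_)
    rw [← P2.E_smul]
    refine P2.E_congr (fun y _ => ?_)
    rw [e1 x y y0, e2 x x0 y]
  have h2 : P1.E (fun x => P2.E (fun y => f (x, y))) = P1.E (fun x => f (x, y0)) := by
    refine P1.E_congr (fun x _ => ?_)
    rw [← P2.E_const (f (x, y0))]
    exact P2.E_congr (fun y _ => e1 x y y0)
  have h3 : P1.E (fun x => P2.E (fun y => g (x, y))) = P2.E (fun y => g (x0, y)) := by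
    rw [← P1.E_const (P2.E (fun y => g (x0, y)))]
    exact P1.E_congr (fun x _ => P2.E_congr (fun y _ => e2 x x0 y))
  rw [h1, h2, h3, P1.E_mul_const]

/-- for the uniform law, two maps which together are a bijection onto a product are independent -/
theorem unif_indep [Nonempty Om] {O1 O2 : Type*} [Fintype O1] [Fintype O2] (e : Om ≃ O1 × O2) :
    (unif Om).Indep (fun w => (e w).1) (fun w => (e w).2) := by
  have : Nonempty (O1 × O2) := ⟨e (Classical.arbitrary Om)⟩
  have : Nonempty O1 := ⟨(Classical.arbitrary (O1 × O2)).1⟩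
  have : Nonempty O2 := ⟨(Classical.arbitrary (O1 × O2)).2⟩
  have hE : ∀ q : Om → ℝ, (unif Om).E q = (pr (unif O1) (unif O2)).E (fun z => q (e.symm z)) := by
    intro q
    rw [pr_E, unif_E]
    simp only [unif_E]
    rw [← Finset.sum_div, div_div, ← Fintype.sum_prod_type (f := fun z : O1 × O2 => q (e.symm z))]
    congr 1
    · exact (Equiv.sum_comp e.symm q).symm
    · rw [Fintype.card_congr e, Fintype.card_prod]
      push_cast
      ring
  intro f g hf hg
  rw [hE, hE, hE]
  exact indep_fst_snd _ _ (fun z => f (e.symm z)) (fun z => g (e.symm z))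
    (fun z z' hz => hf _ _ (by simpa using hz)) (fun z z' hz => hg _ _ (by simpa using hz))

end FP

end Pool.Agent.M3
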