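import Pool.Agent.M3.FP

/-!
# M3.FPInfo: entropy on finite probability spaces

`P.H X = E(-log P(X = X(w)))`, `P.Hc X Y = H(X|Y)`, `P.I X Y Z = I(X;Y|Z)`.  Pairs are `fun w => (X w, Y w)`.
-/

set_option autoImplicit false
set_option linter.unusedSectionVars false

namespace Pool.Agent.M3

open Finset Pool.Agent.PWZ

variable {Om : Type*} [Fintype Om]

noncomputable section

/-- entropy -/
def FP.H (P : FP Om) {κ : Type*} (X : Om → κ) : ℝ := P.E (fun w => - Real.log (P.m X w))

/-- conditional entropy `H(X|Y)` -/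
def FP.Hc (P : FP Om) {κ ι : Type*} (X : Om → κ) (Y : Om → ι) : ℝ := P.H (fun w => (X w, Y w)) - P.H Y

/-- conditional mutual information `I(X;Y|Z)` -/
def FP.I (P : FP Om) {κ ι ι' : Type*} (X : Om → κ) (Y : Om → ι) (Z : Om → ι') : ℝ :=
  P.H (fun w => (X w, Z w)) + P.H (fun w => (Y w, Z w)) - P.H (fun w => (X w, Y w, Z w)) - P.H Z

end

namespace FP

variable (P : FP Om) {κ ι ι' ι'' : Type*}

theorem H_nonneg (X : Om → κ) : 0 ≤ P.H X :=
  P.E_nonneg (fun w hw => by
    have := Real.log_nonpos (P.m_nonneg X w) (P.m_le_one X w)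
    linarith)

theorem H_mono {X : Om → κ} {Y : Om → ι} (h : Fac X Y) : P.H Y ≤ P.H X :=
  P.E_mono (fun w hw => by
    have := Real.log_le_log (P.m_pos X hw) (P.m_anti h w)
    linarith)

theorem H_congr {X : Om → κ} {Y : Om → ι} (h : Fac X Y) (h' : Fac Y X) : P.H X = P.H Y :=
  le_antisymm (P.H_mono h') (P.H_mono h)

theorem H_const (c : κ) : P.H (fun _ => c) = 0 := by
  unfold H m
  simp only [ind_of, E_const, Real.log_one, neg_zero]

theorem Hc_nonneg (X : Om → κ) (Y : Om → ι) : 0 ≤ P.Hc X Y := by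
  unfold Hc
  have := P.H_mono (Fac.snd X Y)
  linarith

/-- Gibbs -/
theorem E_log_nonneg {R : Om → ℝ} (hR : ∀ w, P.p w ≠ 0 → 0 < R w) (h : P.E (fun w => 1 / R w) ≤ 1) :
    0 ≤ P.E (fun w => Real.log (R w)) := by
  have h1 : P.E (fun w => 1 - 1 / R w) ≤ P.E (fun w => Real.log (R w)) := by
    refine P.E_mono (fun w hw => ?_)
    have h2 := Real.log_le_sub_one_of_pos (x := 1 / R w) (by have := hR w hw; positivity)
    rw [one_div, Real.log_inv] at h2
    rw [one_div]
    linarith
  rw [E_sub, E_const] at h1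
  linarith

/-- the mass of one fibre, divided by itself, is at most one -/
theorem E_ind_div_m_le (X : Om → κ) (k : κ) : P.E (fun w => ind (X w = k) / P.m X w) ≤ 1 := by
  by_cases h : ∃ v, P.p v ≠ 0 ∧ X v = k
  · obtain ⟨v, hv, rfl⟩ := h
    have hm := P.m_pos X hv
    have h1 : P.E (fun w => ind (X w = X v) / P.m X w) = P.E (fun w => ind (X w = X v) / P.m X v) := by
      refine P.E_congr (fun w _ => ?_)
      by_cases hx : X w = X v
      · rw [P.Fac_m X w v hx]
      · rw [ind_not hx, zero_div, zero_div]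
    rw [h1, E_div_const]
    exact (div_self hm.ne').le
  · push Not at h
    have : P.E (fun w => ind (X w = k) / P.m X w) = P.E (fun _ => 0) :=
      P.E_congr (fun w hw => by rw [ind_not (h w hw), zero_div])
    rw [this, E_const]; norm_num

theorem E_inv_m_le_card [Fintype κ] (X : Om → κ) : P.E (fun w => 1 / P.m X w) ≤ Fintype.card κ := by
  classical
  have h1 : ∀ w, (1 : ℝ) / P.m X w = ∑ k, ind (X w = k) / P.m X w := by
    intro w
    rw [← Finset.sum_div]
    congr 1
    rw [Finset.sum_eq_single (X w) (fun k _ hk => ind_not (fun h => hk h.symm))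
      (fun h => absurd (Finset.mem_univ _) h), ind_of rfl]
  simp only [h1]
  rw [E_sum]
  calc _ ≤ ∑ _k : κ, (1 : ℝ) := Finset.sum_le_sum (fun k _ => P.E_ind_div_m_le X k)
    _ = _ := by simp

/-- Jensen for the logarithm -/
theorem E_log_le {R : Om → ℝ} (hR : ∀ w, P.p w ≠ 0 → 0 < R w) :
    P.E (fun w => Real.log (R w)) ≤ Real.log (P.E R) := by
  have h := P.jensenE (φ := fun x => - Real.log x) (s := Set.Ioi 0)
    (strictConcaveOn_log_Ioi.concaveOn.neg) (fun w hw => hR w hw)
  rw [E_neg] at h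
  linarith

theorem exists_p_ne : ∃ w, P.p w ≠ 0 := by
  by_contra hcon
  push Not at hcon
  have := P.tot
  simp [hcon] at this

theorem H_le_log_card [Fintype κ] (X : Om → κ) : P.H X ≤ Real.log (Fintype.card κ) := by
  have h1 : P.H X = P.E (fun w => Real.log (1 / P.m X w)) :=
    P.E_congr (fun w _ => by rw [one_div, Real.log_inv])
  rw [h1]
  refine (P.E_log_le (fun w hw => one_div_pos.mpr (P.m_pos X hw))).trans ?_
  refine Real.log_le_log ?_ (P.E_inv_m_le_card X)
  obtain ⟨w, hw⟩ := P.exists_p_ne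
  have h2 : (1 : ℝ) ≤ P.E (fun w => 1 / P.m X w) :=
    P.le_E_const (fun w hw => by
      rw [le_div_iff₀ (P.m_pos X hw)]; linarith [P.m_le_one X w])
  linarith

/-- entropy of a map whose values on the support lie in a finite set -/
theorem H_le_log_image (X : Om → κ) (S : Finset κ) (hS : ∀ w, P.p w ≠ 0 → X w ∈ S) :
    P.H X ≤ Real.log S.card := by
  classical
  have h1 : P.H X = P.E (fun w => Real.log (1 / P.m X w)) :=
    P.E_congr (fun w _ => by rw [one_div, Real.log_inv])
  rw [h1]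
  refine (P.E_log_le (fun w hw => one_div_pos.mpr (P.m_pos X hw))).trans ?_
  refine Real.log_le_log ?_ ?_
  · have h2 : (1 : ℝ) ≤ P.E (fun w => 1 / P.m X w) :=
      P.le_E_const (fun w hw => by
        rw [le_div_iff₀ (P.m_pos X hw)]; linarith [P.m_le_one X w])
    linarith
  · have h3 : P.E (fun w => 1 / P.m X w) = P.E (fun w => ∑ k ∈ S, ind (X w = k) / P.m X w) := by
      refine P.E_congr (fun w hw => ?_)
      rw [← Finset.sum_div]
      congr 1
      rw [Finset.sum_eq_single (X w) (fun k _ hk => ind_not (fun h => hk h.symm))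
        (fun h => absurd (hS w hw) h), ind_of rfl]
    rw [h3, E_sum]
    calc _ ≤ ∑ _k ∈ S, (1 : ℝ) := Finset.sum_le_sum (fun k _ => P.E_ind_div_m_le X k)
      _ = _ := by simp

/-- product of two conditional laws is a subprobability -/
theorem E_prod_le (X : Om → κ) (Y : Om → ι) (Z : Om → ι') :
    P.E (fun w => P.m (fun v => (X v, Z v)) w * P.m (fun v => (Y v, Z v)) w /
      (P.m (fun v => (X v, Y v, Z v)) w * P.m Z w)) ≤ 1 := by
  -- expand the two masses in the numerator
  have h1 : P.E (fun w => P.m (fun v => (X v, Z v)) w * P.m (fun v => (Y v, Z v)) w /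
      (P.m (fun v => (X v, Y v, Z v)) w * P.m Z w)) =
      P.E (fun w => P.E (fun u => P.E (fun v =>
        ind ((X u, Z u) = (X w, Z w)) * ind ((Y v, Z v) = (Y w, Z w)) /
          (P.m (fun v => (X v, Y v, Z v)) w * P.m Z w)))) := by
    refine P.E_congr (fun w _ => ?_)
    simp only [E_div_const, E_smul]
    rw [E_mul_const]
    rfl
  rw [h1, E_swap]
  have h2 : ∀ u, P.E (fun w => P.E (fun v =>
        ind ((X u, Z u) = (X w, Z w)) * ind ((Y v, Z v) = (Y w, Z w)) /
          (P.m (fun v => (X v, Y v, Z v)) w * P.m Z w))) =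
      P.E (fun v => P.E (fun w =>
        ind ((X u, Z u) = (X w, Z w)) * ind ((Y v, Z v) = (Y w, Z w)) /
          (P.m (fun v => (X v, Y v, Z v)) w * P.m Z w))) := fun u => P.E_swap P _
  simp only [h2]
  have h3 : ∀ u v, P.E (fun w =>
        ind ((X u, Z u) = (X w, Z w)) * ind ((Y v, Z v) = (Y w, Z w)) /
          (P.m (fun v => (X v, Y v, Z v)) w * P.m Z w)) ≤ ind (Z v = Z u) / P.m Z u := by
    intro u v
    by_cases huv : Z v = Z u
    · rw [ind_of huv]
      have h4 : P.E (fun w =>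
          ind ((X u, Z u) = (X w, Z w)) * ind ((Y v, Z v) = (Y w, Z w)) /
            (P.m (fun v => (X v, Y v, Z v)) w * P.m Z w)) ≤
          P.E (fun w => ind ((X w, Y w, Z w) = (X u, Y v, Z u)) / P.m (fun v => (X v, Y v, Z v)) w *
            (1 / P.m Z u)) := by
        refine P.E_mono (fun w _ => ?_)
        by_cases ha : (X u, Z u) = (X w, Z w) ∧ (Y v, Z v) = (Y w, Z w)
        · obtain ⟨ha1, ha2⟩ := ha
          have e1 : X u = X w := congrArg Prod.fst ha1
          have e2 : Z u = Z w := congrArg Prod.snd ha1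
          have e3 : Y v = Y w := congrArg Prod.fst ha2
          have hb : (X w, Y w, Z w) = (X u, Y v, Z u) := by rw [e1, e2, e3]
          have hm : P.m Z w = P.m Z u := P.Fac_m Z w u e2.symm
          rw [ind_of ha1, ind_of ha2, ind_of hb, hm]
          apply le_of_eq
          rw [mul_one, div_mul_div_comm, mul_one]
        · have h5 : ind ((X u, Z u) = (X w, Z w)) * ind ((Y v, Z v) = (Y w, Z w)) = 0 := by
            rw [← ind_and, ind_not ha]
          rw [h5, zero_div]
          exact mul_nonneg (div_nonneg (ind_nonneg _) (P.m_nonneg _ w))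
            (one_div_nonneg.mpr (P.m_nonneg Z u))
      refine h4.trans ?_
      rw [E_mul_const]
      have h6 := mul_le_mul_of_nonneg_right
        (P.E_ind_div_m_le (fun v => (X v, Y v, Z v)) (X u, Y v, Z u)) (one_div_nonneg.mpr (P.m_nonneg Z u))
      linarith
    · rw [ind_not huv, zero_div]
      refine le_of_eq ?_
      have : P.E (fun w =>
          ind ((X u, Z u) = (X w, Z w)) * ind ((Y v, Z v) = (Y w, Z w)) /
            (P.m (fun v => (X v, Y v, Z v)) w * P.m Z w)) = P.E (fun _ => 0) := by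
        refine P.E_congr (fun w _ => ?_)
        have h5 : ind ((X u, Z u) = (X w, Z w)) * ind ((Y v, Z v) = (Y w, Z w)) = 0 := by
          rw [← ind_and, ind_not]
          rintro ⟨ha1, ha2⟩
          have e2 : Z u = Z w := congrArg Prod.snd ha1
          have e4 : Z v = Z w := congrArg Prod.snd ha2
          exact huv (e4.trans e2.symm)
        rw [h5, zero_div]
      rw [this, E_const]
  have h7 : P.E (fun u => P.E (fun v => P.E (fun w =>
        ind ((X u, Z u) = (X w, Z w)) * ind ((Y v, Z v) = (Y w, Z w)) /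
          (P.m (fun v => (X v, Y v, Z v)) w * P.m Z w)))) ≤
      P.E (fun u => P.E (fun v => ind (Z v = Z u) / P.m Z u)) :=
    P.E_mono (fun u _ => P.E_mono (fun v _ => h3 u v))
  refine h7.trans (P.E_le_const (fun u hu => ?_))
  rw [E_div_const]
  exact (div_self (P.m_pos Z hu).ne').le

/-- conditional mutual information is nonnegative -/
theorem I_nonneg (X : Om → κ) (Y : Om → ι) (Z : Om → ι') : 0 ≤ P.I X Y Z := by
  have h := P.E_log_nonneg (R := fun w => P.m (fun v => (X v, Y v, Z v)) w * P.m Z w /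
      (P.m (fun v => (X v, Z v)) w * P.m (fun v => (Y v, Z v)) w))
    (fun w hw => div_pos (mul_pos (P.m_pos _ hw) (P.m_pos _ hw)) (mul_pos (P.m_pos _ hw) (P.m_pos _ hw)))
    (by simpa only [one_div_div] using P.E_prod_le X Y Z)
  have h2 : P.E (fun w => Real.log (P.m (fun v => (X v, Y v, Z v)) w * P.m Z w /
      (P.m (fun v => (X v, Z v)) w * P.m (fun v => (Y v, Z v)) w))) = P.I X Y Z := by
    unfold I H
    rw [← E_add, ← E_sub, ← E_sub]
    refine P.E_congr (fun w hw => ?_)
    have a := (P.m_pos (fun v => (X v, Y v, Z v)) hw).ne'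
    have b := (P.m_pos Z hw).ne'
    have c := (P.m_pos (fun v => (X v, Z v)) hw).ne'
    have d := (P.m_pos (fun v => (Y v, Z v)) hw).ne'
    rw [Real.log_div (mul_ne_zero a b) (mul_ne_zero c d), Real.log_mul a b, Real.log_mul c d]
    ring
  rw [← h2]; exact h

/-! ## rearrangements -/

theorem H_swap (X : Om → κ) (Y : Om → ι) : P.H (fun w => (X w, Y w)) = P.H (fun w => (Y w, X w)) :=
  P.H_congr ((Fac.snd X Y).prod (Fac.fst X Y)) ((Fac.snd Y X).prod (Fac.fst Y X))

/-- conditional entropy depends on the partitions only -/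
theorem Hc_congr {X : Om → κ} {Y : Om → ι} {X' : Om → ι'} {Y' : Om → ι''}
    (h1 : Fac (fun w => (X w, Y w)) X') (h2 : Fac Y Y') (h3 : Fac (fun w => (X' w, Y' w)) X) (h4 : Fac Y' Y) :
    P.Hc X Y = P.Hc X' Y' := by
  unfold Hc
  rw [P.H_congr h2 h4, P.H_congr (h1.prod ((Fac.snd X Y).trans h2)) (h3.prod ((Fac.snd X' Y').trans h4))]

theorem I_eq_Hc (X : Om → κ) (Y : Om → ι) (Z : Om → ι') :
    P.I X Y Z = P.Hc X Z - P.Hc X (fun w => (Y w, Z w)) := by
  unfold I Hc; ring

theorem I_comm (X : Om → κ) (Y : Om → ι) (Z : Om → ι') : P.I X Y Z = P.I Y X Z := by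
  unfold I
  rw [P.H_congr (X := fun w => (X w, Y w, Z w)) (Y := fun w => (Y w, X w, Z w))]
  · ring
  · intro v w h; simp only [Prod.mk.injEq] at h ⊢; tauto
  · intro v w h; simp only [Prod.mk.injEq] at h ⊢; tauto

theorem I_eq_Hc' (X : Om → κ) (Y : Om → ι) (Z : Om → ι') :
    P.I X Y Z = P.Hc Y Z - P.Hc Y (fun w => (X w, Z w)) := by
  rw [I_comm, I_eq_Hc]

/-- conditioning reduces entropy -/
theorem Hc_le (X : Om → κ) (Y : Om → ι) (Z : Om → ι') : P.Hc X (fun w => (Y w, Z w)) ≤ P.Hc X Z := by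
  have := P.I_nonneg X Y Z
  rw [I_eq_Hc] at this; linarith

/-- conditioning on a finer map reduces entropy -/
theorem Hc_anti (X : Om → κ) {Y : Om → ι} {Z : Om → ι'} (h : Fac Y Z) : P.Hc X Y ≤ P.Hc X Z := by
  have h1 : P.Hc X (fun w => (Y w, Z w)) = P.Hc X Y := by
    refine P.Hc_congr (Fac.fst _ _) (Fac.fst _ _) (Fac.fst _ _) ((Fac.refl Y).prod h)
  rw [← h1]; exact P.Hc_le X Y Z

theorem Hc_mono {X : Om → κ} {X' : Om → ι} (Z : Om → ι') (h : Fac (fun w => (X w, Z w)) X') :
    P.Hc X' Z ≤ P.Hc X Z := by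
  unfold Hc
  have := P.H_mono (h.prod (Fac.snd X Z))
  linarith

/-- chain rule -/
theorem Hc_chain (X : Om → κ) (Y : Om → ι) (Z : Om → ι') :
    P.Hc (fun w => (X w, Y w)) Z = P.Hc Y Z + P.Hc X (fun w => (Y w, Z w)) := by
  unfold Hc
  rw [P.H_congr (X := fun w => ((X w, Y w), Z w)) (Y := fun w => (X w, Y w, Z w))]
  · ring
  · intro v w h; simp only [Prod.mk.injEq] at h ⊢; tauto
  · intro v w h; simp only [Prod.mk.injEq] at h ⊢; tauto

theorem H_chain (X : Om → κ) (Y : Om → ι) : P.H (fun w => (X w, Y w)) = P.H Y + P.Hc X Y := by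
  unfold Hc; ring

theorem Hc_le_H (X : Om → κ) (Z : Om → ι') : P.Hc X Z ≤ P.H X := by
  have h := P.Hc_anti X (Y := Z) (Z := fun _ => ()) (Fac.const Z ())
  have h2 : P.Hc X (fun _ => ()) = P.H X := by
    unfold Hc
    rw [H_const, sub_zero]
    exact P.H_congr (Fac.fst _ _) ((Fac.refl X).prod (Fac.const X ()))
  rw [h2] at h; exact h

theorem H_pair_le (X : Om → κ) (Y : Om → ι) : P.H (fun w => (X w, Y w)) ≤ P.H X + P.H Y := by
  rw [H_chain]; linarith [P.Hc_le_H X Y]

/-- chain rule for the information -/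
theorem I_chain (X : Om → κ) (X' : Om → ι) (Y : Om → ι') (Z : Om → ι'') :
    P.I (fun w => (X w, X' w)) Y Z = P.I X' Y Z + P.I X Y (fun w => (X' w, Z w)) := by
  unfold I
  rw [P.H_congr (X := fun w => ((X w, X' w), Z w)) (Y := fun w => (X w, X' w, Z w)),
    P.H_congr (X := fun w => ((X w, X' w), Y w, Z w)) (Y := fun w => (X w, Y w, X' w, Z w)),
    P.H_congr (X := fun w => (Y w, X' w, Z w)) (Y := fun w => (X' w, Y w, Z w))]
  · ring
  all_goals intro v w h; simp only [Prod.mk.injEq] at h ⊢; tauto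

theorem I_le_Hc (X : Om → κ) (Y : Om → ι) (Z : Om → ι') : P.I X Y Z ≤ P.Hc X Z := by
  rw [I_eq_Hc]; linarith [P.Hc_nonneg X (fun w => (Y w, Z w))]

/-- data processing -/
theorem I_mono {X : Om → κ} {X' : Om → ι} (Y : Om → ι') {Z : Om → ι''} (h : Fac (fun w => (X w, Z w)) X') :
    P.I X' Y Z ≤ P.I X Y Z := by
  have h1 := P.I_chain X X' Y Z
  have h2 := P.I_nonneg X Y (fun w => (X' w, Z w))
  have h3 : P.I (fun w => (X w, X' w)) Y Z = P.I X Y Z := by
    unfold I
    rw [P.H_congr (X := fun w => ((X w, X' w), Z w)) (Y := fun w => (X w, Z w)),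
      P.H_congr (X := fun w => ((X w, X' w), Y w, Z w)) (Y := fun w => (X w, Y w, Z w))]
    · intro v w hv; simp only [Prod.mk.injEq] at hv ⊢; tauto
    · intro v w hv
      simp only [Prod.mk.injEq] at hv ⊢
      exact ⟨⟨hv.1, h v w (by simp only [Prod.mk.injEq]; exact ⟨hv.1, hv.2.2⟩)⟩, hv.2⟩
    · intro v w hv; simp only [Prod.mk.injEq] at hv ⊢; tauto
    · intro v w hv
      simp only [Prod.mk.injEq] at hv ⊢
      exact ⟨⟨hv.1, h v w (by simp only [Prod.mk.injEq]; exact ⟨hv.1, hv.2⟩)⟩, hv.2⟩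
  linarith

theorem I_congr_cond {X : Om → κ} {Y : Om → ι} {Z : Om → ι'} {Z' : Om → ι''} (h : Fac Z Z') (h' : Fac Z' Z) :
    P.I X Y Z = P.I X Y Z' := by
  unfold I
  rw [P.H_congr h h',
    P.H_congr (X := fun w => (X w, Z w)) (Y := fun w => (X w, Z' w))
      ((Fac.fst X Z).prod ((Fac.snd X Z).trans h)) ((Fac.fst X Z').prod ((Fac.snd X Z').trans h')),
    P.H_congr (X := fun w => (Y w, Z w)) (Y := fun w => (Y w, Z' w))
      ((Fac.fst Y Z).prod ((Fac.snd Y Z).trans h)) ((Fac.fst Y Z').prod ((Fac.snd Y Z').trans h')),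
    P.H_congr (X := fun w => (X w, Y w, Z w)) (Y := fun w => (X w, Y w, Z' w))
      (fun v w hv => by simp only [Prod.mk.injEq] at hv ⊢; exact ⟨hv.1, hv.2.1, h v w hv.2.2⟩)
      (fun v w hv => by simp only [Prod.mk.injEq] at hv ⊢; exact ⟨hv.1, hv.2.1, h' v w hv.2.2⟩)]

/-! ## digits -/

/-- binary Pinsker inequality -/
theorem bin_pinsker {b c : ℝ} (hb : |b| ≤ 1) (hc : |c| < 1) :
    (b - c) ^ 2 / 2 ≤ (1 + b) / 2 * Real.log ((1 + b) / (1 + c)) + (1 - b) / 2 * Real.log ((1 - b) / (1 - c)) := by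
  obtain ⟨hc1, hc2⟩ := abs_lt.mp hc
  obtain ⟨hb1, hb2⟩ := abs_le.mp hb
  set h : ℝ → ℝ := fun x => (1 + x) / 2 * Real.log (1 + x) + (1 - x) / 2 * Real.log (1 - x) - x ^ 2 / 2 with hh
  have hcont : ContinuousOn h (Set.Icc (-1) 1) := by
    have e : h = fun x => - (Real.negMulLog (1 + x)) / 2 - (Real.negMulLog (1 - x)) / 2 - x ^ 2 / 2 := by
      funext x; simp only [hh, Real.negMulLog]; ring
    rw [e]
    have h1 := Real.continuous_negMulLog
    fun_prop
  have hd1 : ∀ x ∈ Set.Ioo (-1 : ℝ) 1, HasDerivAt h (1 / 2 * (Real.log (1 + x) - Real.log (1 - x)) - x) x := by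
    intro x hx
    have p1 : (1 + x) ≠ 0 := by have := hx.1; intro h; linarith
    have p2 : (1 - x) ≠ 0 := by have := hx.2; intro h; linarith
    have a1 : HasDerivAt (fun x : ℝ => 1 + x) 1 x := by simpa using (hasDerivAt_id x).const_add 1
    have a2 : HasDerivAt (fun x : ℝ => 1 - x) (-1) x := by simpa using (hasDerivAt_id x).const_sub 1
    have l1 := a1.log p1
    have l2 := a2.log p2
    have q1 := (a1.div_const 2).mul l1
    have q2 := (a2.div_const 2).mul l2
    have q3 : HasDerivAt (fun x : ℝ => x ^ 2 / 2) x x := by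
      have := (hasDerivAt_pow 2 x).div_const 2
      refine this.congr_deriv ?_
      norm_num
    refine HasDerivAt.congr_deriv (f := h) ((q1.add q2).sub q3) ?_
    field_simp
    ring
  have hconv : ConvexOn ℝ (Set.Icc (-1) 1) h := by
    refine convexOn_of_hasDerivWithinAt2_nonneg (convex_Icc _ _) hcont
      (f' := fun x => 1 / 2 * (Real.log (1 + x) - Real.log (1 - x)) - x)
      (f'' := fun x => 1 / 2 * (1 / (1 + x) + 1 / (1 - x)) - 1) ?_ ?_ ?_
    · intro x hx
      rw [interior_Icc] at hx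
      exact (hd1 x hx).hasDerivWithinAt
    · intro x hx
      rw [interior_Icc] at hx
      have p1 : (1 + x) ≠ 0 := by have := hx.1; intro h; linarith
      have p2 : (1 - x) ≠ 0 := by have := hx.2; intro h; linarith
      have a1 : HasDerivAt (fun x : ℝ => 1 + x) 1 x := by simpa using (hasDerivAt_id x).const_add 1
      have a2 : HasDerivAt (fun x : ℝ => 1 - x) (-1) x := by simpa using (hasDerivAt_id x).const_sub 1
      refine HasDerivAt.hasDerivWithinAt ?_
      refine HasDerivAt.congr_deriv (f := fun x => 1 / 2 * (Real.log (1 + x) - Real.log (1 - x)) - x)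
        ((((a1.log p1).sub (a2.log p2)).const_mul (1 / 2)).sub (hasDerivAt_id x)) ?_
      field_simp
      ring
    · intro x hx
      rw [interior_Icc] at hx
      have p1 : 0 < (1 + x) := by have := hx.1; linarith
      have p2 : 0 < (1 - x) := by have := hx.2; linarith
      have e : 1 / 2 * (1 / (1 + x) + 1 / (1 - x)) - 1 = x ^ 2 / ((1 + x) * (1 - x)) := by
        field_simp; ring
      show 0 ≤ 1 / 2 * (1 / (1 + x) + 1 / (1 - x)) - 1
      rw [e]; positivity
  have hcm : c ∈ Set.Icc (-1 : ℝ) 1 := ⟨hc1.le, hc2.le⟩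
  have hbm : b ∈ Set.Icc (-1 : ℝ) 1 := ⟨hb1, hb2⟩
  have hdc := hd1 c ⟨hc1, hc2⟩
  have key : h c + (1 / 2 * (Real.log (1 + c) - Real.log (1 - c)) - c) * (b - c) ≤ h b := by
    rcases lt_trichotomy c b with hlt | heq | hgt
    · have := hconv.le_slope_of_hasDerivAt hcm hbm hlt hdc
      rw [slope_def_field, le_div_iff₀ (by linarith)] at this
      linarith
    · subst heq; simp
    · have := hconv.slope_le_of_hasDerivAt hbm hcm hgt hdc
      rw [slope_def_field, div_le_iff₀ (by linarith)] at this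
      linarith
  have e1 : (1 + b) / 2 * Real.log ((1 + b) / (1 + c)) =
      (1 + b) / 2 * Real.log (1 + b) - (1 + b) / 2 * Real.log (1 + c) := by
    by_cases h0 : 1 + b = 0
    · rw [h0]; simp
    · rw [Real.log_div h0 (by linarith)]; ring
  have e2 : (1 - b) / 2 * Real.log ((1 - b) / (1 - c)) =
      (1 - b) / 2 * Real.log (1 - b) - (1 - b) / 2 * Real.log (1 - c) := by
    by_cases h0 : 1 - b = 0
    · rw [h0]; simp
    · rw [Real.log_div h0 (by linarith)]; ring
  rw [e1, e2]
  simp only [hh] at key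
  nlinarith [key]

theorem m_digit {D : Om → ℝ} (hD : ∀ w, P.p w ≠ 0 → D w = 1 ∨ D w = -1) (Y : Om → κ) {w : Om}
    (hw : P.p w ≠ 0) : P.m (fun v => (D v, Y v)) w = P.m Y w * ((1 + D w * P.ce Y D w) / 2) := by
  have hm := (P.m_pos Y hw).ne'
  have h1 : P.m (fun v => (D v, Y v)) w =
      P.E (fun v => (ind (Y v = Y w) + D w * (ind (Y v = Y w) * D v)) / 2) := by
    unfold m
    refine P.E_congr (fun v hv => ?_)
    by_cases hy : Y v = Y w
    · rw [ind_of hy]
      by_cases hd : D v = D w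
      · rw [ind_of (by show (D v, Y v) = (D w, Y w); rw [hd, hy]), hd]
        rcases hD w hw with h | h <;> rw [h] <;> norm_num
      · rw [ind_not (by intro h; exact hd (congrArg Prod.fst h))]
        rcases hD w hw with h | h <;> rcases hD v hv with h' | h' <;> rw [h, h'] at hd <;>
          first | exact absurd rfl hd | (rw [h, h']; norm_num)
    · rw [ind_not hy, ind_not (by intro h; exact hy (congrArg Prod.snd h))]; ring
  rw [h1, E_div_const, E_add, E_smul]
  unfold ce
  change (P.m Y w + _) / 2 = _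
  field_simp

theorem abs_ce_le_one {D : Om → ℝ} (hD : ∀ w, P.p w ≠ 0 → |D w| ≤ 1) (Y : Om → κ) (w : Om) :
    |P.ce Y D w| ≤ 1 := by
  refine (P.abs_ce_le Y D w).trans ?_
  unfold ce
  by_cases hm : P.m Y w = 0
  · rw [hm, div_zero]; norm_num
  rw [div_le_one (lt_of_le_of_ne (P.m_nonneg Y w) (Ne.symm hm))]
  refine P.E_mono (fun v hv => ?_)
  have := mul_le_mul_of_nonneg_left (hD v hv) (ind_nonneg (Y v = Y w))
  linarith

/-- if the conditional mean of `f ≥ 0` vanishes, `f` vanishes on the class -/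
theorem eq_zero_of_ce {f : Om → ℝ} (hf : ∀ w, P.p w ≠ 0 → 0 ≤ f w) {Y : Om → κ} {w : Om} (hw : P.p w ≠ 0)
    (h : P.ce Y f w = 0) {v : Om} (hv : P.p v ≠ 0) (hy : Y v = Y w) : f v = 0 := by
  unfold ce at h
  rw [div_eq_zero_iff] at h
  rcases h with h | h
  · unfold E at h
    rw [Finset.sum_eq_zero_iff_of_nonneg] at h
    · have h1 : P.p v * (ind (Y v = Y w) * f v) = 0 := h v (Finset.mem_univ v)
      rw [ind_of hy, one_mul] at h1
      rcases mul_eq_zero.mp h1 with h2 | h2
      · exact absurd h2 hv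
      · exact h2
    · intro u _
      by_cases hu : P.p u = 0
      · rw [hu, zero_mul]
      · exact mul_nonneg (P.nn u) (mul_nonneg (ind_nonneg _) (hf u hu))
  · exact absurd h (P.m_pos Y hw).ne'

/-- information about a digit `D` with values `1, -1` -/
theorem I_digit_ge {D : Om → ℝ} (hD : ∀ w, P.p w ≠ 0 → D w = 1 ∨ D w = -1) (X : Om → κ) (Z : Om → ι) :
    P.E (fun w => (P.ce (fun v => (X v, Z v)) D w - P.ce Z D w) ^ 2) ≤ 2 * P.I D X Z := by
  have hD1 : ∀ w, P.p w ≠ 0 → |D w| ≤ 1 := fun w hw => by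
    rcases hD w hw with h | h <;> rw [h] <;> norm_num
  set b : Om → ℝ := P.ce (fun v => (X v, Z v)) D with hb
  set c : Om → ℝ := P.ce Z D with hc
  have hbF : Fac (fun v => (X v, Z v)) b := P.ce_fac _ _
  have hcF : Fac (fun v => (X v, Z v)) c := (Fac.snd X Z).trans (P.ce_fac _ _)
  have hI : P.I D X Z = P.E (fun w => Real.log ((1 + D w * b w) / (1 + D w * c w))) := by
    unfold I H
    rw [← E_add, ← E_sub, ← E_sub]
    refine P.E_congr (fun w hw => ?_)
    have e1 := P.m_digit hD (fun v => (X v, Z v)) hw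
    have e2 := P.m_digit hD Z hw
    have p1 := P.m_pos (fun v => (D v, X v, Z v)) hw
    have p2 := P.m_pos (fun v => (D v, Z v)) hw
    have p3 := P.m_pos (fun v => (X v, Z v)) hw
    have p4 := P.m_pos Z hw
    have q1 : 0 < (1 + D w * b w) / 2 := by
      have : 0 < P.m (fun v => (X v, Z v)) w * ((1 + D w * b w) / 2) := by rw [← e1]; exact p1
      exact (mul_pos_iff_of_pos_left p3).mp this
    have q2 : 0 < (1 + D w * c w) / 2 := by
      have : 0 < P.m Z w * ((1 + D w * c w) / 2) := by rw [← e2]; exact p2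
      exact (mul_pos_iff_of_pos_left p4).mp this
    have e3 : (1 + D w * b w) / (1 + D w * c w) = ((1 + D w * b w) / 2) / ((1 + D w * c w) / 2) := by
      field_simp
    rw [e1, e2, e3, Real.log_div q1.ne' q2.ne', Real.log_mul p3.ne' q1.ne', Real.log_mul p4.ne' q2.ne']
    ring
  -- average over the digit
  have hsplit : P.E (fun w => Real.log ((1 + D w * b w) / (1 + D w * c w))) =
      P.E (fun w => (1 + b w) / 2 * Real.log ((1 + b w) / (1 + c w)) +
        (1 - b w) / 2 * Real.log ((1 - b w) / (1 - c w))) := by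
    have f1 : Fac (fun v => (X v, Z v)) (fun w => Real.log ((1 + b w) / (1 + c w)) / 2) :=
      hbF.comp₂ hcF (fun x y => Real.log ((1 + x) / (1 + y)) / 2)
    have f2 : Fac (fun v => (X v, Z v)) (fun w => Real.log ((1 - b w) / (1 - c w)) / 2) :=
      hbF.comp₂ hcF (fun x y => Real.log ((1 - x) / (1 - y)) / 2)
    have g1 := P.E_mul_ce f1 D
    have g2 := P.E_mul_ce f2 D
    have l : P.E (fun w => Real.log ((1 + D w * b w) / (1 + D w * c w))) =
        P.E (fun w => Real.log ((1 + b w) / (1 + c w)) / 2 + Real.log ((1 - b w) / (1 - c w)) / 2) +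
        (P.E (fun w => Real.log ((1 + b w) / (1 + c w)) / 2 * D w) -
          P.E (fun w => Real.log ((1 - b w) / (1 - c w)) / 2 * D w)) := by
      rw [← E_sub, ← E_add]
      refine P.E_congr (fun w hw => ?_)
      rcases hD w hw with h | h <;> rw [h]
      · ring_nf
      · have e1 : (1 : ℝ) + -1 * b w = 1 - b w := by ring
        have e2 : (1 : ℝ) + -1 * c w = 1 - c w := by ring
        rw [e1, e2]; ring
    rw [l, ← g1, ← g2, ← E_sub, ← E_add]
    exact P.E_congr (fun w _ => by ring)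
  rw [hI, hsplit, ← E_smul]
  refine P.E_mono (fun w hw => ?_)
  have hb1 : |b w| ≤ 1 := P.abs_ce_le_one hD1 _ w
  have hc1 : |c w| ≤ 1 := P.abs_ce_le_one hD1 _ w
  rcases lt_or_eq_of_le hc1 with hlt | heq
  · have := bin_pinsker hb1 hlt
    linarith
  · -- degenerate class: `D` is constant on it
    have hbc : b w = c w := by
      rcases (abs_eq (by norm_num : (0:ℝ) ≤ 1)).mp heq with h | h
      · have h1 : P.ce Z (fun v => 1 - D v) w = 0 := by
          rw [P.ce_sub, P.ce_const Z 1 hw]; show 1 - c w = 0; rw [h]; ring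
        have h2 : ∀ v, P.p v ≠ 0 → Z v = Z w → D v = 1 := fun v hv hz => by
          have := P.eq_zero_of_ce (fun u hu => by have := (abs_le.mp (hD1 u hu)).2; linarith) hw h1 hv hz
          linarith
        have h3 : b w = 1 := by
          rw [← P.ce_const (fun v => (X v, Z v)) (1 : ℝ) hw, hb]
          unfold ce
          congr 1
          refine P.E_congr (fun v hv => ?_)
          by_cases hx : (X v, Z v) = (X w, Z w)
          · rw [h2 v hv (congrArg Prod.snd hx)]
          · rw [ind_not hx]; ring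
        rw [h3, h]
      · have h1 : P.ce Z (fun v => 1 + D v) w = 0 := by
          rw [P.ce_add, P.ce_const Z 1 hw]; show 1 + c w = 0; rw [h]; ring
        have h2 : ∀ v, P.p v ≠ 0 → Z v = Z w → D v = -1 := fun v hv hz => by
          have := P.eq_zero_of_ce (fun u hu => by have := (abs_le.mp (hD1 u hu)).1; linarith) hw h1 hv hz
          linarith
        have h3 : b w = -1 := by
          rw [← P.ce_const (fun v => (X v, Z v)) (-1 : ℝ) hw, hb]
          unfold ce
          congr 1
          refine P.E_congr (fun v hv => ?_)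
          by_cases hx : (X v, Z v) = (X w, Z w)
          · rw [h2 v hv (congrArg Prod.snd hx)]
          · rw [ind_not hx]; ring
        rw [h3, h]
    rw [hbc, sub_self]
    rcases (abs_eq (by norm_num : (0:ℝ) ≤ 1)).mp heq with h | h <;> rw [h] <;> norm_num

end FP

end Pool.Agent.M3
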