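import Pool.Agent.M3.Maj

/-!
# M3.Hot: hot pairs never occur (note 3382, Proposition 1 (i), (ii), (iv), (v) and Proposition 2, abstract form)

`Y t` = what is known of the pair and the path, `A t` = finer filtration (also the labels of the hidden vertex),
`V t >= 0` = the potential of the named process with `V t <= E [V (t+1) + l t | A t]`, `l t >= 0` = loss.
`P.pi Y V t` = mean of `V t` given `Y t`.  A pair is hot when `pi > rho`.

* `hot_stop`: `rho * Pr (some t <= n, pi t >= 2 rho) <= E [V n] + sum_t E [1_{pi t > rho} l t]`;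
* `hot_sparse`: given one vertex of the pair few partners are hot;
* `hot_prop1`: the losses which are functions of one face, or of the hidden vertex, are multiplied by this rarity;
* `hot_T`: from the named process to `T`;
* `hot_sum`: finitely many terms (Proposition 2).
-/

set_option autoImplicit false
set_option linter.unusedSectionVars false

namespace Pool.Agent.M3

open Finset Pool.Agent.PWZ

variable {Om : Type*} [Fintype Om]

noncomputable section

/-- mean of the potential given the pair and the path -/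
def FP.pi (P : FP Om) {κ : ℕ → Type*} (Y : ∀ t, Om → κ t) (V : ℕ → Om → ℝ) (t : ℕ) (w : Om) : ℝ :=
  P.ce (Y t) (V t) w

end

namespace FP

variable (P : FP Om) {κ ι : ℕ → Type*} {Y : ∀ t, Om → κ t} {A : ∀ t, Om → ι t} {V l : ℕ → Om → ℝ}

theorem pi_fac (t : ℕ) : Fac (Y t) (P.pi Y V t) := P.ce_fac (Y t) (V t)

theorem pi_nonneg (hV : ∀ t w, P.p w ≠ 0 → 0 ≤ V t w) (t : ℕ) (w : Om) : 0 ≤ P.pi Y V t w :=
  P.ce_nonneg (hV t) w

theorem E_pi (t : ℕ) : P.E (P.pi Y V t) = P.E (V t) := P.E_ce (Y t) (V t)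

/-- one step for the means -/
theorem pi_step (hY : Filt Y) (hYA : ∀ t, Fac (A t) (Y t))
    (hs : ∀ t w, P.p w ≠ 0 → V t w ≤ P.ce (A t) (fun v => V (t + 1) v + l t v) w) (t : ℕ) (w : Om) :
    P.pi Y V t w ≤ P.ce (Y t) (P.pi Y V (t + 1)) w + P.ce (Y t) (l t) w := by
  unfold pi
  rw [P.ce_tower (hY t), ← P.ce_add, ← P.ce_tower (hYA t) (fun v => V (t + 1) v + l t v)]
  exact P.ce_mono (hs t) w

/-- the positive part: the loss counts only where the pair is hot -/
theorem pos_step (hY : Filt Y) (hYA : ∀ t, Fac (A t) (Y t))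
    (hs : ∀ t w, P.p w ≠ 0 → V t w ≤ P.ce (A t) (fun v => V (t + 1) v + l t v) w) (ρ : ℝ) (t : ℕ) (w : Om)
    (hw : P.p w ≠ 0) :
    max (P.pi Y V t w - ρ) 0 ≤ P.ce (Y t) (fun v => max (P.pi Y V (t + 1) v - ρ) 0) w +
      P.ce (Y t) (fun v => ind (ρ < P.pi Y V t v) * l t v) w := by
  have hfac : Fac (Y t) (fun v => ind (ρ < P.pi Y V t v)) :=
    Fac.ind (fun v v' h => by rw [P.pi_fac t v v' h])
  rw [P.ce_mul hfac]
  by_cases h : ρ < P.pi Y V t w
  · rw [ind_of h, one_mul, max_eq_left (by linarith)]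
    have h1 := P.pi_step hY hYA hs t w
    have h2 : P.ce (Y t) (P.pi Y V (t + 1)) w - ρ ≤ P.ce (Y t) (fun v => max (P.pi Y V (t + 1) v - ρ) 0) w := by
      have e : P.ce (Y t) (fun v => P.pi Y V (t + 1) v - ρ) w = P.ce (Y t) (P.pi Y V (t + 1)) w - ρ := by
        rw [P.ce_sub, P.ce_const _ _ hw]
      rw [← e]
      exact P.ce_mono (fun v _ => le_max_left _ _) w
    linarith
  · rw [ind_not h, zero_mul, add_zero, max_eq_right (by linarith)]
    exact P.ce_nonneg (fun v _ => le_max_right _ _) w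

/-- HOT PAIRS, the submartingale argument (3382 (i)): stopping at the first time with `pi >= 2 rho` -/
theorem hot_stop (hY : Filt Y) (hYA : ∀ t, Fac (A t) (Y t))
    (hV : ∀ t w, P.p w ≠ 0 → 0 ≤ V t w) (hl : ∀ t w, P.p w ≠ 0 → 0 ≤ l t w)
    (hs : ∀ t w, P.p w ≠ 0 → V t w ≤ P.ce (A t) (fun v => V (t + 1) v + l t v) w) {ρ : ℝ} (hρ : 0 ≤ ρ) (n : ℕ) :
    ρ * P.Pr (fun w => ∃ t ≤ n, 2 * ρ ≤ P.pi Y V t w) ≤
      P.E (V n) + ∑ t ∈ range n, P.E (fun w => ind (ρ < P.pi Y V t w) * l t w) := by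
  -- the stopped event
  set S : ℕ → Om → Prop := fun t w => ∃ u ≤ t, 2 * ρ ≤ P.pi Y V u w with hS
  set M : ℕ → Om → ℝ := fun t w => max (P.pi Y V t w - ρ) 0 with hM
  have hSfac : ∀ t, Fac (Y t) (fun w => ind (S t w)) := by
    intro t
    refine Fac.ind (fun v w hvw => ?_)
    constructor
    · rintro ⟨u, hu, h⟩
      exact ⟨u, hu, by rw [← P.pi_fac u v w (hY.le hu v w hvw)]; exact h⟩
    · rintro ⟨u, hu, h⟩
      exact ⟨u, hu, by rw [P.pi_fac u v w (hY.le hu v w hvw)]; exact h⟩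
  have hM0 : ∀ t w, 0 ≤ M t w := fun t w => le_max_right _ _
  have key : ∀ m, ρ * P.Pr (S m) ≤ P.E (fun w => ind (S m w) * M m w) +
      ∑ t ∈ range m, P.E (fun w => ind (ρ < P.pi Y V t w) * l t w) := by
    intro m
    induction m with
    | zero =>
      simp only [Finset.range_zero, Finset.sum_empty, add_zero]
      unfold Pr
      rw [← E_smul]
      refine P.E_mono (fun w hw => ?_)
      by_cases h : S 0 w
      · rw [ind_of h, mul_one, one_mul]
        obtain ⟨u, hu, h1⟩ := h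
        have : u = 0 := by omega
        subst this
        exact le_max_of_le_left (by linarith)
      · rw [ind_not h]; simp
    | succ m ih =>
      rw [Finset.sum_range_succ]
      -- old part
      have h1 : P.E (fun w => ind (S m w) * M m w) ≤ P.E (fun w => ind (S m w) * M (m + 1) w) +
          P.E (fun w => ind (ρ < P.pi Y V m w) * l m w) := by
        have h2 : P.E (fun w => ind (S m w) * M m w) ≤
            P.E (fun w => ind (S m w) * P.ce (Y m) (fun v => M (m + 1) v) w) +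
            P.E (fun w => ind (S m w) * P.ce (Y m) (fun v => ind (ρ < P.pi Y V m v) * l m v) w) := by
          rw [← E_add]
          refine P.E_mono (fun w hw => ?_)
          have := mul_le_mul_of_nonneg_left (P.pos_step hY hYA hs ρ m w hw) (ind_nonneg (S m w))
          rw [mul_add] at this
          exact this
        rw [P.E_mul_ce (hSfac m), P.E_mul_ce (hSfac m)] at h2
        refine h2.trans (add_le_add le_rfl (P.E_mono (fun w hw => ?_)))
        exact mul_le_of_le_one_left (mul_nonneg (ind_nonneg _) (hl m w hw)) (ind_le_one _)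
      -- new part
      have h3 : ρ * P.Pr (S (m + 1)) + P.E (fun w => ind (S m w) * M (m + 1) w) ≤
          ρ * P.Pr (S m) + P.E (fun w => ind (S (m + 1) w) * M (m + 1) w) := by
        unfold Pr
        rw [← E_smul, ← E_smul, ← E_add, ← E_add]
        refine P.E_mono (fun w hw => ?_)
        by_cases ha : S m w
        · have hb : S (m + 1) w := by
            obtain ⟨u, hu, h⟩ := ha; exact ⟨u, by omega, h⟩
          rw [ind_of ha, ind_of hb]
        · by_cases hb : S (m + 1) w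
          · have hz : 2 * ρ ≤ P.pi Y V (m + 1) w := by
              obtain ⟨u, hu, h⟩ := hb
              rcases Nat.lt_or_ge u (m + 1) with h4 | h4
              · exact absurd ⟨u, by omega, h⟩ ha
              · have : u = m + 1 := by omega
                rw [← this]; exact h
            have : ρ ≤ M (m + 1) w := le_max_of_le_left (by linarith)
            rw [ind_not ha, ind_of hb]
            linarith
          · rw [ind_not ha, ind_not hb]
      linarith
  refine (key n).trans (add_le_add ?_ le_rfl)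
  rw [← P.E_pi (Y := Y) n]
  refine P.E_mono (fun w hw => ?_)
  have h1 : M n w ≤ P.pi Y V n w := by
    have := P.pi_nonneg (Y := Y) hV n w
    exact max_le (by linarith) this
  exact (mul_le_of_le_one_left (hM0 n w) (ind_le_one _)).trans h1

/-- SPARSITY (3382 (ii)): `Y0` = what is known of one vertex of the pair -/
theorem hot_sparse {ι0 : Type*} {Y0 : Om → ι0} {t : ℕ} (hY0 : Fac (Y t) Y0)
    (hV : ∀ t w, P.p w ≠ 0 → 0 ≤ V t w) {ρ ε : ℝ} {w : Om} (h : P.ce Y0 (V t) w ≤ ε) :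
    ρ * P.ce Y0 (fun v => ind (ρ < P.pi Y V t v)) w ≤ ε := by
  refine le_trans ?_ h
  rw [← P.ce_smul, ← P.ce_tower hY0 (V t)]
  refine P.ce_mono (fun v hv => ?_) w
  by_cases h : ρ < P.pi Y V t v
  · rw [ind_of h, mul_one]; exact h.le
  · rw [ind_not h, mul_zero]; exact P.pi_nonneg hV t v

/-- a weight `u` and a function `f` of `Z`: if the mean of `u` given `Z` is at most `δ` -/
theorem E_mul_le_of_ce {ζ : Type*} {Z : Om → ζ} {u f : Om → ℝ} (hf : Fac Z f)
    (hf0 : ∀ w, P.p w ≠ 0 → 0 ≤ f w) {δ : ℝ} (hu : ∀ w, P.p w ≠ 0 → P.ce Z u w ≤ δ) :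
    P.E (fun w => u w * f w) ≤ δ * P.E f := by
  rw [← P.E_ce_mul hf, ← E_smul]
  refine P.E_mono (fun w hw => ?_)
  exact mul_le_mul_of_nonneg_right (hu w hw) (hf0 w hw)

/-- PROPOSITION 1, abstract: losses `l t <= f0 t + sum_i f i t`, `f i t` a function of `Z i t` (one face, or the hidden
vertex, at the old or at the new node), `f0` arbitrary; given `Z i t` the pair is hot with probability `<= δ` -/
theorem hot_prop1 (hY : Filt Y) (hYA : ∀ t, Fac (A t) (Y t))
    (hV : ∀ t w, P.p w ≠ 0 → 0 ≤ V t w) (hl : ∀ t w, P.p w ≠ 0 → 0 ≤ l t w)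
    (hs : ∀ t w, P.p w ≠ 0 → V t w ≤ P.ce (A t) (fun v => V (t + 1) v + l t v) w) {ρ : ℝ} (hρ : 0 ≤ ρ) (n : ℕ)
    {α : Type*} (I : Finset α) {ζ : α → ℕ → Type*} (Z : ∀ i t, Om → ζ i t) (f : α → ℕ → Om → ℝ) (f0 : ℕ → Om → ℝ)
    (hf : ∀ i ∈ I, ∀ t, Fac (Z i t) (f i t)) (hf0 : ∀ i ∈ I, ∀ t w, P.p w ≠ 0 → 0 ≤ f i t w)
    (hf00 : ∀ t w, P.p w ≠ 0 → 0 ≤ f0 t w)
    (hlf : ∀ t w, P.p w ≠ 0 → l t w ≤ f0 t w + ∑ i ∈ I, f i t w) {δ : ℝ}
    (hδ : ∀ i ∈ I, ∀ t < n, ∀ w, P.p w ≠ 0 → P.ce (Z i t) (fun v => ind (ρ < P.pi Y V t v)) w ≤ δ) :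
    ρ * P.Pr (fun w => ∃ t ≤ n, 2 * ρ ≤ P.pi Y V t w) ≤
      P.E (V n) + ∑ t ∈ range n, P.E (f0 t) + δ * ∑ i ∈ I, ∑ t ∈ range n, P.E (f i t) := by
  refine (P.hot_stop hY hYA hV hl hs hρ n).trans ?_
  rw [add_assoc]
  refine add_le_add le_rfl ?_
  have h1 : ∀ t ∈ range n, P.E (fun w => ind (ρ < P.pi Y V t w) * l t w) ≤
      P.E (f0 t) + ∑ i ∈ I, δ * P.E (f i t) := by
    intro t ht
    have h2 : P.E (fun w => ind (ρ < P.pi Y V t w) * l t w) ≤
        P.E (fun w => f0 t w + ∑ i ∈ I, ind (ρ < P.pi Y V t w) * f i t w) := by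
      refine P.E_mono (fun w hw => ?_)
      have h3 := mul_le_mul_of_nonneg_left (hlf t w hw) (ind_nonneg (ρ < P.pi Y V t w))
      have h4 := mul_le_of_le_one_left (hf00 t w hw) (ind_le_one (ρ < P.pi Y V t w))
      rw [mul_add, Finset.mul_sum] at h3
      linarith
    rw [P.E_add, P.E_sum] at h2
    refine h2.trans (add_le_add le_rfl (Finset.sum_le_sum (fun i hi => ?_)))
    exact P.E_mul_le_of_ce (hf i hi t) (hf0 i hi t) (hδ i hi t (Finset.mem_range.mp ht))
  refine (Finset.sum_le_sum h1).trans (le_of_eq ?_)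
  rw [Finset.sum_add_distrib, Finset.sum_comm, Finset.mul_sum]
  congr 1
  refine Finset.sum_congr rfl (fun i _ => ?_)
  rw [Finset.mul_sum]

/-- from the named process to `T`: `D t` increasing events; off `D t` the event `S t` (say `|T| >= r`) implies
`V t >= s`; hot = the conditional probability of `S t` given the pair and the path is `>= 2 rho / s + rho'` -/
theorem hot_T (hV : ∀ t w, P.p w ≠ 0 → 0 ≤ V t w) {D S : ℕ → Om → Prop} {s : ℝ} (hs : 0 < s)
    (hSV : ∀ t w, P.p w ≠ 0 → S t w → ¬ D t w → s ≤ V t w) (n : ℕ) {ρ ρ' : ℝ} :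
    P.Pr (fun w => ∃ t ≤ n, 2 * ρ / s + ρ' ≤ P.ce (Y t) (fun v => ind (S t v)) w) ≤
      P.Pr (fun w => ∃ t ≤ n, 2 * ρ ≤ P.pi Y V t w) +
        P.Pr (fun w => ∃ t ≤ n, ρ' ≤ P.ce (Y t) (fun v => ind (D t v)) w) := by
  refine le_trans (P.Pr_mono (fun w hw => ?_)) (P.Pr_or_le _ _)
  rintro ⟨t, ht, h⟩
  have h1 : P.ce (Y t) (fun v => ind (S t v)) w ≤
      P.pi Y V t w / s + P.ce (Y t) (fun v => ind (D t v)) w := by
    unfold pi
    rw [div_eq_inv_mul, ← P.ce_smul, ← P.ce_add]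
    refine P.ce_mono (fun v hv => ?_) w
    by_cases hd : D t v
    · rw [ind_of hd]
      have h2 := mul_nonneg (inv_nonneg.mpr hs.le) (hV t v hv)
      linarith [ind_le_one (S t v)]
    · rw [ind_not hd, add_zero]
      by_cases hS : S t v
      · rw [ind_of hS, ← div_eq_inv_mul, one_le_div hs]
        exact hSV t v hv hS hd
      · rw [ind_not hS]
        exact mul_nonneg (inv_nonneg.mpr hs.le) (hV t v hv)
  by_cases h3 : ρ' ≤ P.ce (Y t) (fun v => ind (D t v)) w
  · exact Or.inr ⟨t, ht, h3⟩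
  · refine Or.inl ⟨t, ht, ?_⟩
    have h4 : 2 * ρ / s ≤ P.pi Y V t w / s := by linarith
    exact (div_le_div_iff_of_pos_right hs).mp h4

/-- the same with Doob for the dead points -/
theorem hot_T' (hY : Filt Y) (hV : ∀ t w, P.p w ≠ 0 → 0 ≤ V t w) {D S : ℕ → Om → Prop}
    (hD : ∀ t w, P.p w ≠ 0 → D t w → D (t + 1) w) {s : ℝ} (hs : 0 < s)
    (hSV : ∀ t w, P.p w ≠ 0 → S t w → ¬ D t w → s ≤ V t w) (n : ℕ) {ρ ρ' : ℝ} (hρ' : 0 < ρ') :
    P.Pr (fun w => ∃ t ≤ n, 2 * ρ / s + ρ' ≤ P.ce (Y t) (fun v => ind (S t v)) w) ≤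
      P.Pr (fun w => ∃ t ≤ n, 2 * ρ ≤ P.pi Y V t w) + P.Pr (D n) / ρ' := by
  refine (P.hot_T hV hs hSV n).trans (add_le_add le_rfl ?_)
  rw [le_div_iff₀ hρ', mul_comm]
  exact P.doob_inc hY hD n ρ'

/-- PROPOSITION 2, abstract: if `S t` implies that some `S' j t` holds, hotness adds up -/
theorem hot_sum {α : Type*} (J : Finset α) {S : ℕ → Om → Prop} {S' : α → ℕ → Om → Prop}
    (hS : ∀ t w, P.p w ≠ 0 → S t w → ∃ j ∈ J, S' j t w) (r : α → ℝ) (n : ℕ) {ρ : ℝ} (hρ : ∑ j ∈ J, r j ≤ ρ)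
    (hJ : J.Nonempty) :
    P.Pr (fun w => ∃ t ≤ n, ρ ≤ P.ce (Y t) (fun v => ind (S t v)) w) ≤
      ∑ j ∈ J, P.Pr (fun w => ∃ t ≤ n, r j ≤ P.ce (Y t) (fun v => ind (S' j t v)) w) := by
  refine le_trans (P.Pr_mono (fun w hw => ?_)) (P.Pr_ex_le J _)
  rintro ⟨t, ht, h⟩
  by_contra hcon
  have hcon' : ∀ j ∈ J, P.ce (Y t) (fun v => ind (S' j t v)) w < r j := by
    intro j hj
    by_contra h1
    exact hcon ⟨j, hj, t, ht, not_lt.mp h1⟩
  have h1 : P.ce (Y t) (fun v => ind (S t v)) w ≤ ∑ j ∈ J, P.ce (Y t) (fun v => ind (S' j t v)) w := by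
    rw [← P.ce_sum]
    refine P.ce_mono (fun v hv => ?_) w
    exact (ind_mono (hS t v hv)).trans (ind_ex_le J _)
  have h2 := Finset.sum_lt_sum_of_nonempty hJ hcon'
  linarith

end FP

end Pool.Agent.M3
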