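import Pool.Agent.M3.FPMart

/-!
# M3.Maj: majority stopping (note 3370)

`X` = filtration, `D t` = increasing events which need not be events of the filtration (dead points: errors of the
names, waiting points, triples stopped for any reason).  `P.Al X D c t w` (alive): at no time `s <= t` the share of dead
points in the `X s`-class of `w` was `>= c`.

* `doob_inc`: `c * Pr (some class has a share >= c of dead points) <= Pr (D n)`;
* `maj_E`: for an event `S` and a weight `m >= 0` of the filtration with `S -> S'` on points which are not dead,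
  `(1-c) E [S, alive] m <= E [S', not dead] m`;
* `maj_ce`: the same for conditional probabilities given a coarser map; `maj_cold`: with a bound `rho` for the
  conditional probability of `S'` given `Y` and a weight which is a function of `Y`;
* `alive_loss`: the total mass of the killed points is paid once.
-/

set_option autoImplicit false
set_option linter.unusedSectionVars false

namespace Pool.Agent.M3

open Finset Pool.Agent.PWZ

variable {Om : Type*} [Fintype Om]

noncomputable section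

/-- alive: at no time `s <= t` the share of dead points in the class of `w` was `>= c` -/
def FP.Al (P : FP Om) {κ : ℕ → Type*} (X : ∀ t, Om → κ t) (D : ℕ → Om → Prop) (c : ℝ) (t : ℕ) (w : Om) : Prop :=
  ∀ s ≤ t, P.ce (X s) (fun v => ind (D s v)) w < c

end

namespace FP

variable (P : FP Om) {κ : ℕ → Type*} {X : ∀ t, Om → κ t} {D : ℕ → Om → Prop} {c : ℝ}

/-- an increasing family of events: monotone in time on the support -/
theorem inc_le (hD : ∀ t w, P.p w ≠ 0 → D t w → D (t + 1) w) {s t : ℕ} (hst : s ≤ t) {w : Om}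
    (hw : P.p w ≠ 0) (h : D s w) : D t w := by
  induction t, hst using Nat.le_induction with
  | base => exact h
  | succ t _ ih => exact hD t w hw ih

/-- the conditional probability of an increasing family of events is a submartingale -/
theorem inc_sub (hX : Filt X) (hD : ∀ t w, P.p w ≠ 0 → D t w → D (t + 1) w) (t : ℕ) (w : Om)
    (_hw : P.p w ≠ 0) :
    P.ce (X t) (fun v => ind (D t v)) w ≤
      P.ce (X t) (P.ce (X (t + 1)) (fun v => ind (D (t + 1) v))) w := by
  rw [P.ce_tower (hX t)]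
  refine P.ce_mono (fun v hv => ?_) w
  by_cases h : D t v
  · rw [ind_of h, ind_of (hD t v hv h)]
  · rw [ind_not h]; exact ind_nonneg _

/-- Doob for an increasing family of events -/
theorem doob_inc (hX : Filt X) (hD : ∀ t w, P.p w ≠ 0 → D t w → D (t + 1) w) (n : ℕ) (c : ℝ) :
    c * P.Pr (fun w => ∃ t ≤ n, c ≤ P.ce (X t) (fun v => ind (D t v)) w) ≤ P.Pr (D n) := by
  have h := P.doob_sub hX (Z := fun t => P.ce (X t) (fun v => ind (D t v)))
    (fun t => P.ce_fac (X t) _) (fun t w _ => P.ce_nonneg (fun _ _ => ind_nonneg _) w)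
    (fun t w hw => P.inc_sub hX hD t w hw) n c
  refine h.trans (le_of_eq ?_)
  rw [P.E_ce]; rfl

theorem al_anti {s t : ℕ} (hst : s ≤ t) {w : Om} (h : P.Al X D c t w) : P.Al X D c s w :=
  fun u hu => h u (hu.trans hst)

theorem al_iff (hX : Filt X) {t : ℕ} {v w : Om} (h : X t v = X t w) : P.Al X D c t v ↔ P.Al X D c t w := by
  unfold Al
  refine forall_congr' (fun s => forall_congr' (fun hs => ?_))
  rw [P.ce_fac (X s) _ v w (hX.le hs v w h)]

theorem al_fac (hX : Filt X) (t : ℕ) : Fac (X t) (fun w => ind (P.Al X D c t w)) :=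
  Fac.ind (fun _ _ h => P.al_iff hX h)

/-- total mass of the killed points -/
theorem al_death (hX : Filt X) (hD : ∀ t w, P.p w ≠ 0 → D t w → D (t + 1) w) (n : ℕ) (c : ℝ) :
    c * P.Pr (fun w => ¬ P.Al X D c n w) ≤ P.Pr (D n) := by
  refine le_trans (le_of_eq ?_) (P.doob_inc hX hD n c)
  congr 1
  refine P.Pr_congr (fun w _ => ?_)
  unfold Al
  push Not
  exact Iff.rfl

/-- killed or dead -/
theorem al_dead_or (hX : Filt X) (hD : ∀ t w, P.p w ≠ 0 → D t w → D (t + 1) w) (n : ℕ) {c : ℝ}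
    (hc : 0 < c) : P.Pr (fun w => D n w ∨ ¬ P.Al X D c n w) ≤ (1 + 1 / c) * P.Pr (D n) := by
  have h1 := P.Pr_or_le (D n) (fun w => ¬ P.Al X D c n w)
  have h2 : P.Pr (fun w => ¬ P.Al X D c n w) ≤ 1 / c * P.Pr (D n) := by
    rw [one_div, inv_mul_eq_div, le_div_iff₀ hc, mul_comm]
    exact P.al_death hX hD n c
  linarith [h1, h2]

/-- killed or dead is an increasing family -/
theorem al_dead_inc (hD : ∀ t w, P.p w ≠ 0 → D t w → D (t + 1) w) (t : ℕ) (w : Om) (hw : P.p w ≠ 0)
    (h : D t w ∨ ¬ P.Al X D c t w) : D (t + 1) w ∨ ¬ P.Al X D c (t + 1) w := by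
  rcases h with h | h
  · exact Or.inl (hD t w hw h)
  · exact Or.inr (fun h' => h (P.al_anti (Nat.le_succ t) h'))

/-- alive: the share of the points of the class which are not dead is at least `1 - c` -/
theorem al_share {t : ℕ} {w : Om} (hw : P.p w ≠ 0) (h : P.Al X D c t w) :
    1 - c ≤ P.ce (X t) (fun v => ind (¬ D t v)) w := by
  have h1 := h t le_rfl
  have h2 : P.ce (X t) (fun v => ind (¬ D t v)) w =
      P.ce (X t) (fun _ => (1 : ℝ)) w - P.ce (X t) (fun v => ind (D t v)) w := by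
    rw [← P.ce_sub]
    exact P.ce_congr (fun v _ => ind_not_eq _) w
  rw [h2, P.ce_const _ _ hw]
  linarith

/-- MAJORITY, in mean with a weight of the filtration -/
theorem maj_E (hX : Filt X) {t : ℕ} {S S' : Om → Prop} (hS : ∀ v w, X t v = X t w → (S v ↔ S w))
    (hSS : ∀ w, P.p w ≠ 0 → S w → ¬ D t w → S' w) {m : Om → ℝ} (hm : Fac (X t) m)
    (hm0 : ∀ w, P.p w ≠ 0 → 0 ≤ m w) :
    (1 - c) * P.E (fun w => ind (S w ∧ P.Al X D c t w) * m w) ≤
      P.E (fun w => ind (S' w ∧ ¬ D t w) * m w) := by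
  have hfac : Fac (X t) (fun w => ind (S w ∧ P.Al X D c t w) * m w) := by
    refine Fac.mul (Fac.ind (fun v w h => ?_)) hm
    rw [hS v w h, P.al_iff hX h]
  rw [← E_smul]
  have h1 : P.E (fun w => (1 - c) * (ind (S w ∧ P.Al X D c t w) * m w)) ≤
      P.E (fun w => (ind (S w ∧ P.Al X D c t w) * m w) * P.ce (X t) (fun v => ind (¬ D t v)) w) := by
    refine P.E_mono (fun w hw => ?_)
    by_cases h : S w ∧ P.Al X D c t w
    · rw [ind_of h, one_mul, mul_comm]
      exact mul_le_mul_of_nonneg_left (P.al_share hw h.2) (hm0 w hw)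
    · rw [ind_not h]; simp
  refine h1.trans ?_
  rw [P.E_mul_ce hfac]
  refine P.E_mono (fun w hw => ?_)
  by_cases h : S w ∧ P.Al X D c t w
  · by_cases hd : D t w
    · have hnd : ¬ ¬ D t w := not_not.mpr hd
      have hn : ¬ (S' w ∧ ¬ D t w) := fun h' => h'.2 hd
      rw [ind_not hnd, ind_not hn]
      simp
    · rw [ind_of h, ind_of hd, ind_of ⟨hSS w hw h.1 hd, hd⟩]
      simp
  · rw [ind_not h]
    have := mul_nonneg (ind_nonneg (S' w ∧ ¬ D t w)) (hm0 w hw)
    simpa using this

/-- MAJORITY, conditional probabilities given a coarser map -/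
theorem maj_ce (hX : Filt X) {t : ℕ} {ι : Type*} {Y : Om → ι} (hY : Fac (X t) Y) {S S' : Om → Prop}
    (hS : ∀ v w, X t v = X t w → (S v ↔ S w))
    (hSS : ∀ w, P.p w ≠ 0 → S w → ¬ D t w → S' w) (w : Om) :
    (1 - c) * P.ce Y (fun v => ind (S v ∧ P.Al X D c t v)) w ≤ P.ce Y (fun v => ind (S' v ∧ ¬ D t v)) w := by
  have h := P.maj_E (c := c) hX hS hSS (m := fun v => ind (Y v = Y w))
    (Fac.ind (fun v v' hv => by rw [hY v v' hv])) (fun _ _ => ind_nonneg _)
  unfold ce
  rw [← mul_div_assoc]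
  refine div_le_div_of_nonneg_right ?_ (P.m_nonneg _ _)
  refine le_trans (le_of_eq ?_) (h.trans (le_of_eq ?_))
  · congr 1
    exact P.E_congr (fun v _ => by ring)
  · exact P.E_congr (fun v _ => by ring)

/-- COLD CLASSES: if given `Y` the event `S'` (not dead) has conditional probability at most `rho` wherever the weight
`m` (a function of `Y`) is not zero, then the weight seen on `S` (alive) is at most `rho / (1-c)` of it -/
theorem maj_cold (hX : Filt X) {t : ℕ} {ι : Type*} {Y : Om → ι} (hY : Fac (X t) Y) {S S' : Om → Prop}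
    (hS : ∀ v w, X t v = X t w → (S v ↔ S w))
    (hSS : ∀ w, P.p w ≠ 0 → S w → ¬ D t w → S' w) {m : Om → ℝ} (hm : Fac Y m)
    (hm0 : ∀ w, P.p w ≠ 0 → 0 ≤ m w) {ρ : ℝ}
    (hρ : ∀ w, P.p w ≠ 0 → m w ≠ 0 → P.ce Y (fun v => ind (S' v ∧ ¬ D t v)) w ≤ ρ) :
    (1 - c) * P.E (fun w => ind (S w ∧ P.Al X D c t w) * m w) ≤ ρ * P.E m := by
  refine (P.maj_E (c := c) hX hS hSS (hY.trans hm) hm0).trans ?_
  have h1 : P.E (fun w => ind (S' w ∧ ¬ D t w) * m w) =
      P.E (fun w => m w * P.ce Y (fun v => ind (S' v ∧ ¬ D t v)) w) := by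
    rw [P.E_mul_ce hm]
    exact P.E_congr (fun w _ => by ring)
  rw [h1, ← E_smul]
  refine P.E_mono (fun w hw => ?_)
  by_cases h : m w = 0
  · rw [h]; simp
  · rw [mul_comm]
    exact mul_le_mul_of_nonneg_right (hρ w hw h) (hm0 w hw)

/-- the same for functions `f` of the filtration with `0 <= f <= B` on `S` and `f = 0` outside `S` -/
theorem maj_f (hX : Filt X) {t : ℕ} {f : Om → ℝ} {B : ℝ} {S' : Om → Prop} (hf : Fac (X t) f)
    (hfB : ∀ w, P.p w ≠ 0 → f w ≤ B) (hB : 0 ≤ B)
    (hfS : ∀ w, P.p w ≠ 0 → 0 < f w → ¬ D t w → S' w) {m : Om → ℝ} (hm : Fac (X t) m)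
    (hm0 : ∀ w, P.p w ≠ 0 → 0 ≤ m w) (hc : c ≤ 1) :
    (1 - c) * P.E (fun w => f w * ind (P.Al X D c t w) * m w) ≤
      B * P.E (fun w => ind (S' w ∧ ¬ D t w) * m w) := by
  have h := P.maj_E (c := c) hX (S := fun w => 0 < f w) (fun v w h => by rw [hf v w h]) hfS hm hm0
  have h1 : P.E (fun w => f w * ind (P.Al X D c t w) * m w) ≤
      B * P.E (fun w => ind (0 < f w ∧ P.Al X D c t w) * m w) := by
    rw [← E_smul]
    refine P.E_mono (fun w hw => ?_)
    have hm' := hm0 w hw
    by_cases ha : P.Al X D c t w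
    · by_cases hp : 0 < f w
      · rw [ind_of ha, ind_of ⟨hp, ha⟩, mul_one, one_mul]
        exact mul_le_mul_of_nonneg_right (hfB w hw) hm'
      · have hn : ¬ (0 < f w ∧ P.Al X D c t w) := fun h' => hp h'.1
        rw [ind_of ha, ind_not hn, mul_one, zero_mul, mul_zero]
        exact mul_nonpos_of_nonpos_of_nonneg (not_lt.mp hp) hm'
    · have hn : ¬ (0 < f w ∧ P.Al X D c t w) := fun h' => ha h'.2
      rw [ind_not ha, ind_not hn]; simp
  have h2 := mul_le_mul_of_nonneg_left h1 (sub_nonneg.mpr hc)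
  have h3 := mul_le_mul_of_nonneg_left h hB
  calc (1 - c) * P.E (fun w => f w * ind (P.Al X D c t w) * m w)
      ≤ (1 - c) * (B * P.E (fun w => ind (0 < f w ∧ P.Al X D c t w) * m w)) := h2
    _ = B * ((1 - c) * P.E (fun w => ind (0 < f w ∧ P.Al X D c t w) * m w)) := by ring
    _ ≤ _ := h3

/-- the killed mass is paid once: `0 <= f t <= B` -/
theorem alive_loss {f : ℕ → Om → ℝ} {B : ℝ} (hB : 0 ≤ B) (hfB : ∀ t w, P.p w ≠ 0 → f t w ≤ B) (n : ℕ) :
    P.E (fun w => ∑ t ∈ range n, (ind (P.Al X D c t w) - ind (P.Al X D c (t + 1) w)) * f t w) ≤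
      B * P.Pr (fun w => ¬ P.Al X D c n w) := by
  unfold Pr
  rw [← E_smul]
  refine P.E_mono (fun w hw => ?_)
  have h1 : ∀ t ∈ range n, (ind (P.Al X D c t w) - ind (P.Al X D c (t + 1) w)) * f t w ≤
      B * (ind (P.Al X D c t w) - ind (P.Al X D c (t + 1) w)) := by
    intro t _
    have h2 : 0 ≤ ind (P.Al X D c t w) - ind (P.Al X D c (t + 1) w) := by
      by_cases h : P.Al X D c (t + 1) w
      · rw [ind_of h, ind_of (P.al_anti (Nat.le_succ t) h)]; simp
      · rw [ind_not h, sub_zero]; exact ind_nonneg _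
    rw [mul_comm]
    exact mul_le_mul_of_nonneg_right (hfB t w hw) h2
  refine (Finset.sum_le_sum h1).trans ?_
  rw [← Finset.mul_sum, Finset.sum_range_sub']
  refine mul_le_mul_of_nonneg_left ?_ hB
  rw [ind_not_eq]
  have := ind_le_one (P.Al X D c 0 w)
  linarith

end FP

end Pool.Agent.M3
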