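import Pool.Agent.M3.FPMart

/-!
# M3.RdUp: canonical upcrossings of a bounded submartingale

`uarm a b Y t` = armed: `Y` has been below `a` and not above `b` since; `upc a b Y t` = a canonical upcrossing is completed
at the time `t+1`.
* `upc_count`: `(b - a) * sum_(t<n) Pr (upc t) <= Lam`;
* `upc_weight`: with an event of conditional probability `<= c` given `X (t+1)`;
* `exists_upc`: from `Y s0 < a`, `b <= Y s`.
-/

set_option autoImplicit false
set_option linter.unusedSectionVars false

namespace Pool.Agent.M3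

open Finset Pool.Agent.PWZ

variable {Om : Type*} [Fintype Om]

/-- armed -/
def uarm (a b : ℝ) (Y : ℕ → Om → ℝ) : ℕ → Om → Prop
  | 0, w => Y 0 w < a
  | t + 1, w => Y (t + 1) w < a ∨ (uarm a b Y t w ∧ Y (t + 1) w < b)

/-- a canonical upcrossing is completed at the time `t+1` -/
def upc (a b : ℝ) (Y : ℕ → Om → ℝ) (t : ℕ) (w : Om) : Prop := uarm a b Y t w ∧ b ≤ Y (t + 1) w

theorem uarm_lt {a b : ℝ} (hab : a ≤ b) {Y : ℕ → Om → ℝ} {t : ℕ} {w : Om} (h : uarm a b Y t w) : Y t w < b := by
  cases t with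
  | zero => exact lt_of_lt_of_le h hab
  | succ t =>
    rcases h with h | h
    · exact lt_of_lt_of_le h hab
    · exact h.2

theorem uarm_of_lt {a b : ℝ} {Y : ℕ → Om → ℝ} {t : ℕ} {w : Om} (h : Y t w < a) : uarm a b Y t w := by
  cases t with
  | zero => exact h
  | succ t => exact Or.inl h

theorem uarm_iff {κ : ℕ → Type*} {X : ∀ t, Om → κ t} (hX : Filt X) {a b : ℝ} {Y : ℕ → Om → ℝ}
    (hY : ∀ t, Fac (X t) (Y t)) (t : ℕ) : ∀ {v w : Om}, X t v = X t w → (uarm a b Y t v ↔ uarm a b Y t w) := by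
  induction t with
  | zero => intro v w h; simp only [uarm]; rw [hY 0 v w h]
  | succ t ih => intro v w h; simp only [uarm]; rw [hY (t + 1) v w h, ih (hX t v w h)]

theorem upc_iff {κ : ℕ → Type*} {X : ∀ t, Om → κ t} (hX : Filt X) {a b : ℝ} {Y : ℕ → Om → ℝ}
    (hY : ∀ t, Fac (X t) (Y t)) {t : ℕ} {v w : Om} (h : X (t + 1) v = X (t + 1) w) :
    upc a b Y t v ↔ upc a b Y t w := by
  unfold upc
  rw [hY (t + 1) v w h, uarm_iff hX hY t (hX t v w h)]

/-- from below `a` to above `b` there is a canonical upcrossing -/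
theorem exists_upc {a b : ℝ} (hab : a ≤ b) {Y : ℕ → Om → ℝ} {w : Om} {s0 s : ℕ} (hs : s0 ≤ s) (h0 : Y s0 w < a)
    (h1 : b ≤ Y s w) : ∃ l, s0 ≤ l ∧ l < s ∧ upc a b Y l w := by
  have key : ∀ k, s0 ≤ k → uarm a b Y k w ∨ ∃ l, s0 ≤ l ∧ l < k ∧ upc a b Y l w := by
    intro k hk
    induction k, hk using Nat.le_induction with
    | base => exact Or.inl (uarm_of_lt h0)
    | succ k hk ih =>
      rcases ih with ih | ⟨l, h2, h3, h4⟩
      · by_cases hb : b ≤ Y (k + 1) w
        · exact Or.inr ⟨k, hk, Nat.lt_succ_self k, ih, hb⟩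
        · exact Or.inl (Or.inr ⟨ih, not_le.mp hb⟩)
      · exact Or.inr ⟨l, h2, by omega, h4⟩
  rcases key s hs with h | h
  · exact absurd (uarm_lt hab h) (not_lt.mpr h1)
  · exact h

namespace FP

variable (P : FP Om) {κ : ℕ → Type*} {X : ∀ t, Om → κ t}

/-- number of canonical upcrossings -/
theorem upc_count (hX : Filt X) {Y : ℕ → Om → ℝ} (hY : ∀ t, Fac (X t) (Y t))
    (hs : ∀ t w, P.p w ≠ 0 → Y t w ≤ P.ce (X t) (Y (t + 1)) w) {a b Lam : ℝ} (ha : 0 ≤ a)
    (hLam : 0 ≤ Lam) (n : ℕ) (hL : ∀ w, P.p w ≠ 0 → Y n w ≤ Lam) :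
    (b - a) * ∑ t ∈ range n, P.Pr (upc a b Y t) ≤ Lam := by
  -- `Y' = max Y a` is a submartingale
  have hs' : ∀ t w, P.p w ≠ 0 → max (Y t w) a ≤ P.ce (X t) (fun v => max (Y (t + 1) v) a) w := by
    intro t w hw
    refine max_le ((hs t w hw).trans (P.ce_mono (fun v _ => le_max_left _ _) w)) ?_
    calc a = P.ce (X t) (fun _ => a) w := (P.ce_const (X t) a hw).symm
      _ ≤ _ := P.ce_mono (fun v _ => le_max_right _ _) w
  have hone : ∀ t w, (b - a) * ind (upc a b Y t w) + ind (uarm a b Y (t + 1) w) * (max (Y (t + 1) w) a - a) ≤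
      ind (uarm a b Y t w) * (max (Y (t + 1) w) a - max (Y t w) a) +
        ind (uarm a b Y t w) * (max (Y t w) a - a) := by
    intro t w
    by_cases h : uarm a b Y t w
    · by_cases hb : b ≤ Y (t + 1) w
      · have hu : upc a b Y t w := ⟨h, hb⟩
        rw [ind_of h, ind_of hu, one_mul, one_mul, mul_one]
        by_cases h2 : uarm a b Y (t + 1) w
        · rw [ind_of h2, one_mul]
          simp only [uarm] at h2
          rcases h2 with h2 | h2
          · have : max (Y (t + 1) w) a = a := max_eq_right h2.le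
            rw [this]
            have := lt_of_le_of_lt hb h2
            linarith
          · exact absurd h2.2 (not_lt.mpr hb)
        · rw [ind_not h2, zero_mul]
          have := le_max_left (Y (t + 1) w) a
          linarith
      · have hu : ¬ upc a b Y t w := fun hu => hb hu.2
        rw [ind_of h, ind_not hu, one_mul, one_mul, mul_zero]
        have h3 := mul_le_mul_of_nonneg_right (ind_le_one (uarm a b Y (t + 1) w))
          (sub_nonneg.mpr (le_max_right (Y (t + 1) w) a))
        linarith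
    · have hu : ¬ upc a b Y t w := fun hu => h hu.1
      rw [ind_not h, ind_not hu, zero_mul, zero_mul, mul_zero]
      by_cases h2 : uarm a b Y (t + 1) w
      · simp only [uarm] at h2
        rcases h2 with h2 | h2
        · rw [max_eq_right h2.le, sub_self]; simp
        · exact absurd h2.1 h
      · rw [ind_not h2]; simp
  have hpath : ∀ k w, ∑ t ∈ range k, (b - a) * ind (upc a b Y t w) +
      ind (uarm a b Y k w) * (max (Y k w) a - a) ≤
      ∑ t ∈ range k, ind (uarm a b Y t w) * (max (Y (t + 1) w) a - max (Y t w) a) := by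
    intro k w
    induction k with
    | zero =>
      rw [Finset.sum_range_zero, Finset.sum_range_zero, zero_add]
      by_cases h : uarm a b Y 0 w
      · have h' : Y 0 w < a := h
        rw [ind_of h, max_eq_right h'.le]; simp
      · rw [ind_not h]; simp
    | succ k ih =>
      rw [Finset.sum_range_succ, Finset.sum_range_succ]
      have := hone k w
      linarith
  have hfac : ∀ t, Fac (X t) (fun w => ind (¬ uarm a b Y t w)) := fun t =>
    Fac.ind (fun v w h => not_congr (uarm_iff hX hY t h))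
  -- the increments at the unarmed times have mean `≥ 0`
  have hun : ∀ t, 0 ≤ P.E (fun w => ind (¬ uarm a b Y t w) * (max (Y (t + 1) w) a - max (Y t w) a)) := by
    intro t
    rw [P.step_eq (hfac t) (fun w => max (Y t w) a) (fun w => max (Y (t + 1) w) a)]
    refine P.E_nonneg fun w hw => mul_nonneg (ind_nonneg _) ?_
    have := hs' t w hw
    linarith
  have htel : ∀ w, ∑ t ∈ range n, ind (uarm a b Y t w) * (max (Y (t + 1) w) a - max (Y t w) a) =
      (max (Y n w) a - max (Y 0 w) a) -
        ∑ t ∈ range n, ind (¬ uarm a b Y t w) * (max (Y (t + 1) w) a - max (Y t w) a) := by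
    intro w
    rw [← Finset.sum_range_sub (fun t => max (Y t w) a), ← Finset.sum_sub_distrib]
    refine Finset.sum_congr rfl fun t _ => ?_
    rw [ind_not_eq]; ring
  have h1 : P.E (fun w => ∑ t ∈ range n, (b - a) * ind (upc a b Y t w)) ≤
      P.E (fun w => (max (Y n w) a - max (Y 0 w) a) -
        ∑ t ∈ range n, ind (¬ uarm a b Y t w) * (max (Y (t + 1) w) a - max (Y t w) a)) := by
    refine P.E_mono fun w _ => ?_
    have h2 := hpath n w
    rw [htel] at h2
    have h3 := mul_nonneg (ind_nonneg (uarm a b Y n w)) (sub_nonneg.mpr (le_max_right (Y n w) a))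
    linarith
  rw [E_sum, E_sub, E_sum] at h1
  have h2 : 0 ≤ ∑ t ∈ range n, P.E (fun w => ind (¬ uarm a b Y t w) * (max (Y (t + 1) w) a - max (Y t w) a)) :=
    Finset.sum_nonneg fun t _ => hun t
  have h3 : P.E (fun w => max (Y n w) a - max (Y 0 w) a) ≤ Lam := by
    refine P.E_le_const fun w hw => ?_
    have h4 := hL w hw
    have h5 := le_max_right (Y 0 w) a
    have h6 : max (Y n w) a ≤ Lam + a := max_le (by linarith) (by linarith)
    linarith
  have h4 : ∑ t ∈ range n, P.E (fun w => (b - a) * ind (upc a b Y t w)) =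
      (b - a) * ∑ t ∈ range n, P.Pr (upc a b Y t) := by
    rw [Finset.mul_sum]
    exact Finset.sum_congr rfl fun t _ => P.E_smul _ _
  rw [h4] at h1
  linarith

/-- upcrossings completed on events which are rare given the new node -/
theorem upc_weight (hX : Filt X) {Y : ℕ → Om → ℝ} (hY : ∀ t, Fac (X t) (Y t)) {a b c : ℝ} {S : ℕ → Om → Prop}
    (hS : ∀ t w, P.p w ≠ 0 → P.ce (X (t + 1)) (fun v => ind (S t v)) w ≤ c) (n : ℕ) :
    ∑ t ∈ range n, P.Pr (fun w => upc a b Y t w ∧ S t w) ≤ c * ∑ t ∈ range n, P.Pr (upc a b Y t) := by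
  rw [Finset.mul_sum]
  refine Finset.sum_le_sum fun t _ => ?_
  have hf : Fac (X (t + 1)) (fun w => ind (upc a b Y t w)) := Fac.ind (fun v w h => upc_iff hX hY h)
  have h1 : P.Pr (fun w => upc a b Y t w ∧ S t w) = P.E (fun w => ind (upc a b Y t w) * ind (S t w)) := by
    unfold Pr
    exact P.E_congr fun w _ => ind_and _ _
  rw [h1, ← P.E_mul_ce hf]
  unfold Pr
  rw [← E_smul]
  refine P.E_mono fun w hw => ?_
  have := mul_le_mul_of_nonneg_left (hS t w hw) (ind_nonneg (upc a b Y t w))
  linarith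

end FP

end Pool.Agent.M3
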