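import Pool.Agent.M3.RdR
import Pool.Agent.M3.RdUp
import Pool.Agent.M3.Maj

/-!
# M3.RdD: Lemma D and Lemma D' of section 2B (helper7; plain labels: helper52)

`RT` = one view with the process: known label `e t` (of `(B,C)`); `f, g, u` = EXTENDED labels (functions of `(A,B,Q t)`,
`(A,C,Q t)`, `(A,Q t)`, e.g. the labels at the two options), `fp, gp, up` = PLAIN labels (at the true node; functions of the
extended label and of `Z t`; they change only if the extended label changes: `cf, cg, cu`); functions `K v t` for every PLAIN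
value `v = (e, fp, gp, up)` (`|K v|` a submartingale for the node `Z t` bounded by `Lam`; put `K v t = 0` before `v` has a
meaning), `T t`, errors `D0`. Young, closings and records are those of the extended labels (`Rd`, `RdR`); `rfp, rgp, rup` =
recorded plain labels (same closings), functions of the recorded extended label and `Z t` (`rfp_fac .. vr_fac`).
`vt`, `vr` true and recorded plain value, `Xt t = K (vt t) t`, `X t = K (vr t) t`.
* `young_upc`, `young_upc_T`: in a young period the process of the recorded (true) value completes a canonical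
  upcrossing at a level at which the triple is not up to date; `young_mass`;
* `Dead r t`, `dead_le`, `dead_D1`, `dead_D2`: Lemma D;
* `Dead' t`, `dead'_le`, `dead'_X`: Lemma D'.
-/

set_option autoImplicit false
set_option linter.unusedSectionVars false

namespace Pool.Agent.M3

open Finset Pool.Agent.PWZ

/-- one view with the process; `fp, gp, up` = the labels at the TRUE node (PLAIN labels), `f, g, u` = extended labels
(the labels at the two options) -/
structure RT (Om : Type*) [Fintype Om] (κ : ℕ → Type*) (α β γ F G U E F' G' U' : Type*) extends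
    RD Om κ α β γ F G U where
  e : ℕ → Om → E
  fp : ℕ → Om → F'
  gp : ℕ → Om → G'
  up : ℕ → Om → U'
  K : E × F' × G' × U' → ℕ → Om → ℝ
  T : ℕ → Om → ℝ
  D0 : ℕ → Om → Prop
  Lam : ℝ
  eta : ℝ

variable {Om : Type*} [Fintype Om] {κ : ℕ → Type*} {α β γ F G U E F' G' U' : Type*}

namespace RD

variable {R : RD Om κ α β γ F G U}

theorem utd_of_pp {t : ℕ} {w : Om} (h : R.pp t w) : R.utd (t + 1) w :=
  ⟨fun hy => hy.2.1 h, fun hy => hy.2.1 h, fun hy => hy.2 h⟩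

theorem young_start {s : ℕ} {w : Om} (h : ¬ R.utd s w) :
    ∃ s0, s0 < s ∧ R.utd s0 w ∧ ∀ t, s0 < t → t ≤ s → ¬ R.utd t w := by
  induction s with
  | zero => exact absurd (R.utd_zero w) h
  | succ s ih =>
    by_cases hs : R.utd s w
    · refine ⟨s, Nat.lt_succ_self s, hs, fun t h1 h2 => ?_⟩
      have : t = s + 1 := by omega
      rw [this]; exact h
    · obtain ⟨s0, h1, h2, h3⟩ := ih hs
      refine ⟨s0, by omega, h2, fun t h4 h5 => ?_⟩
      rcases Nat.lt_or_ge s t with h6 | h6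
      · have : t = s + 1 := by omega
        rw [this]; exact h
      · exact h3 t h4 h6

end RD

namespace RT

noncomputable section

variable (S : RT Om κ α β γ F G U E F' G' U')

open Classical in
/-- recorded plain label of the pair `(a,b)` -/
def rfp : ℕ → Om → F'
  | 0, w => S.fp 0 w
  | t + 1, w => if S.toRD.pp t w ∨ S.toRD.pf t w then S.fp (t + 1) w else rfp t w

open Classical in
/-- recorded plain label of the pair `(a,c)` -/
def rgp : ℕ → Om → G'
  | 0, w => S.gp 0 w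
  | t + 1, w => if S.toRD.pp t w ∨ S.toRD.pg t w then S.gp (t + 1) w else rgp t w

open Classical in
/-- recorded plain label of `a` -/
def rup : ℕ → Om → U'
  | 0, w => S.up 0 w
  | t + 1, w => if S.toRD.pp t w then S.up (t + 1) w else rup t w

/-- true value -/
def vt (t : ℕ) (w : Om) : E × F' × G' × U' := (S.e t w, S.fp t w, S.gp t w, S.up t w)

/-- recorded value -/
def vr (t : ℕ) (w : Om) : E × F' × G' × U' := (S.e t w, S.rfp t w, S.rgp t w, S.rup t w)

/-- the true process -/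
def Xt (t : ℕ) (w : Om) : ℝ := S.K (S.vt t w) t w

/-- the recorded process -/
def X (t : ℕ) (w : Om) : ℝ := S.K (S.vr t w) t w

/-- hypotheses -/
structure HypT : Prop where
  hyp : S.toRD.Hyp
  fe : ∀ t, Fac (S.toRD.Z t) (S.e t)
  /-- the plain labels are the components of the extended labels with a number known from the node -/
  fpf : ∀ t, Fac (fun w => (S.f t w, S.toRD.Z t w)) (S.fp t)
  gpf : ∀ t, Fac (fun w => (S.g t w, S.toRD.Z t w)) (S.gp t)
  upf : ∀ t, Fac (fun w => (S.u t w, S.toRD.Z t w)) (S.up t)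
  /-- a plain label changes only if the extended label changes -/
  cf : ∀ t w, S.P.p w ≠ 0 → ¬ S.D0 (t + 1) w → S.f (t + 1) w = S.f t w → S.fp (t + 1) w = S.fp t w
  cg : ∀ t w, S.P.p w ≠ 0 → ¬ S.D0 (t + 1) w → S.g (t + 1) w = S.g t w → S.gp (t + 1) w = S.gp t w
  cu : ∀ t w, S.P.p w ≠ 0 → ¬ S.D0 (t + 1) w → S.u (t + 1) w = S.u t w → S.up (t + 1) w = S.up t w
  Kf : ∀ v t, Fac (S.toRD.Z t) (S.K v t)
  Ks : ∀ v t w, S.P.p w ≠ 0 → |S.K v t w| ≤ S.P.ce (S.toRD.Z t) (fun z => |S.K v (t + 1) z|) w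
  Kb : ∀ v t w, S.P.p w ≠ 0 → |S.K v t w| ≤ S.Lam
  D0i : ∀ t w, S.P.p w ≠ 0 → S.D0 t w → S.D0 (t + 1) w
  TX : ∀ t w, S.P.p w ≠ 0 → ¬ S.D0 t w → |S.T t w - S.Xt t w| ≤ S.eta
  Lam0 : 0 ≤ S.Lam
  eta0 : 0 ≤ S.eta

/-- `(i)` a label changes and the process is large (`e`: only before the change) -/
def d1 (r : ℝ) (t : ℕ) (w : Om) : Prop :=
  (S.e (t + 1) w ≠ S.e t w ∧ r ≤ |S.T t w|) ∨
    ((S.f (t + 1) w ≠ S.f t w ∨ S.g (t + 1) w ≠ S.g t w ∨ S.u (t + 1) w ≠ S.u t w) ∧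
      (r ≤ |S.T t w| ∨ r ≤ |S.T (t + 1) w|))

/-- `(ii)` -/
def d2 (t : ℕ) (w : Om) : Prop := S.e (t + 1) w ≠ S.e t w ∧ ¬ S.toRD.utd (t + 1) w

/-- `(iii)` -/
def d3 (t : ℕ) (w : Om) : Prop := (S.toRD.pf t w ∨ S.toRD.pg t w) ∧ ¬ S.toRD.utd (t + 1) w

/-- `(iv)` -/
def d4 (r : ℝ) (t : ℕ) (w : Om) : Prop :=
  ¬ S.toRD.utd (t + 1) w ∧ (2 * r ≤ |S.X (t + 1) w| ∨ 2 * r ≤ |S.T (t + 1) w|)

/-- `(iv')` -/
def d5 (r : ℝ) (t : ℕ) (w : Om) : Prop := ¬ S.toRD.utd t w ∧ 2 * r ≤ |S.K (S.vr t w) (t + 1) w|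

/-- the dead points of Lemma D -/
def Dead (r : ℝ) (t : ℕ) (w : Om) : Prop :=
  S.D0 t w ∨ ∃ s < t, S.d1 r s w ∨ S.d2 s w ∨ S.d3 s w ∨ S.d4 r s w ∨ S.d5 r s w

/-- `(v)` -/
def d6 (q : ℝ) (t : ℕ) (w : Om) : Prop :=
  (¬ S.toRD.utd (t + 1) w ∧ q ≤ |S.X (t + 1) w|) ∨ (¬ S.toRD.utd t w ∧ q ≤ |S.K (S.vr t w) (t + 1) w|)

/-- the dead points of Lemma D' -/
def Dead' (q : ℝ) (t : ℕ) (w : Om) : Prop :=
  S.D0 t w ∨ ∃ s < t, S.d2 s w ∨ S.d3 s w ∨ S.d6 q s w

variable {S}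

theorem dead_inc (h : S.HypT) (r : ℝ) (t : ℕ) (w : Om) (hw : S.P.p w ≠ 0) (hd : S.Dead r t w) :
    S.Dead r (t + 1) w := by
  rcases hd with hd | ⟨s, hs, hd⟩
  · exact Or.inl (h.D0i t w hw hd)
  · exact Or.inr ⟨s, by omega, hd⟩

theorem dead'_inc (h : S.HypT) (q : ℝ) (t : ℕ) (w : Om) (hw : S.P.p w ≠ 0) (hd : S.Dead' q t w) :
    S.Dead' q (t + 1) w := by
  rcases hd with hd | ⟨s, hs, hd⟩
  · exact Or.inl (h.D0i t w hw hd)
  · exact Or.inr ⟨s, by omega, hd⟩

/-! ### the recorded plain labels -/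

theorem rfp_utd (H : S.HypT) {t : ℕ} {w : Om} (hw : S.P.p w ≠ 0) (hd : ¬ S.D0 t w) (h : ¬ S.toRD.yf t w) : S.rfp t w = S.fp t w := by
  induction t with
  | zero => rfl
  | succ t ih =>
    rw [RD.yf_succ] at h
    unfold rfp
    by_cases hc : S.toRD.pp t w ∨ S.toRD.pf t w
    · rw [if_pos hc]
    · rw [if_neg hc]
      push Not at hc
      have hb : ¬ S.toRD.bf t w := fun hb => h ⟨hb, hc.1, hc.2⟩
      unfold RD.bf at hb
      push Not at hb
      rw [ih (fun h' => hd (H.D0i t w hw h')) hb.1, H.cf t w hw hd hb.2]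

theorem rgp_utd (H : S.HypT) {t : ℕ} {w : Om} (hw : S.P.p w ≠ 0) (hd : ¬ S.D0 t w) (h : ¬ S.toRD.yg t w) : S.rgp t w = S.gp t w := by
  induction t with
  | zero => rfl
  | succ t ih =>
    rw [RD.yg_succ] at h
    unfold rgp
    by_cases hc : S.toRD.pp t w ∨ S.toRD.pg t w
    · rw [if_pos hc]
    · rw [if_neg hc]
      push Not at hc
      have hb : ¬ S.toRD.bg t w := fun hb => h ⟨hb, hc.1, hc.2⟩
      unfold RD.bg at hb
      push Not at hb
      rw [ih (fun h' => hd (H.D0i t w hw h')) hb.1, H.cg t w hw hd hb.2]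

theorem rup_utd (H : S.HypT) {t : ℕ} {w : Om} (hw : S.P.p w ≠ 0) (hd : ¬ S.D0 t w) (h : ¬ S.toRD.yu t w) : S.rup t w = S.up t w := by
  induction t with
  | zero => rfl
  | succ t ih =>
    rw [RD.yu_succ] at h
    unfold rup
    by_cases hc : S.toRD.pp t w
    · rw [if_pos hc]
    · rw [if_neg hc]
      have hb : ¬ S.toRD.bu t w := fun hb => h ⟨hb, hc⟩
      unfold RD.bu at hb
      push Not at hb
      rw [ih (fun h' => hd (H.D0i t w hw h')) hb.1, H.cu t w hw hd hb.2]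

theorem rfp_succ_of_not {t : ℕ} {w : Om} (h : ¬ S.toRD.pp t w) (h' : ¬ S.toRD.pf t w) :
    S.rfp (t + 1) w = S.rfp t w := by
  rw [rfp, if_neg (by push Not; exact ⟨h, h'⟩)]

theorem rgp_succ_of_not {t : ℕ} {w : Om} (h : ¬ S.toRD.pp t w) (h' : ¬ S.toRD.pg t w) :
    S.rgp (t + 1) w = S.rgp t w := by
  rw [rgp, if_neg (by push Not; exact ⟨h, h'⟩)]

theorem rup_succ_of_not {t : ℕ} {w : Om} (h : ¬ S.toRD.pp t w) : S.rup (t + 1) w = S.rup t w := by
  rw [rup, if_neg h]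

/-- a recorded plain label changes only at a closing at which the extended label is young -/
theorem rfp_ne (H : S.HypT) {t : ℕ} {w : Om} (hw : S.P.p w ≠ 0) (hd : ¬ S.D0 (t + 1) w)
    (h : S.rfp (t + 1) w ≠ S.rfp t w) :
    (S.toRD.pp t w ∨ S.toRD.pf t w) ∧ S.toRD.bf t w := by
  by_cases hc : S.toRD.pp t w ∨ S.toRD.pf t w
  · refine ⟨hc, ?_⟩
    by_contra hb
    unfold RD.bf at hb
    push Not at hb
    apply h
    rw [rfp, if_pos hc, rfp_utd H hw (fun h' => hd (H.D0i t w hw h')) hb.1, H.cf t w hw hd hb.2]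
  · push Not at hc
    exact absurd (rfp_succ_of_not hc.1 hc.2) h

theorem rgp_ne (H : S.HypT) {t : ℕ} {w : Om} (hw : S.P.p w ≠ 0) (hd : ¬ S.D0 (t + 1) w)
    (h : S.rgp (t + 1) w ≠ S.rgp t w) :
    (S.toRD.pp t w ∨ S.toRD.pg t w) ∧ S.toRD.bg t w := by
  by_cases hc : S.toRD.pp t w ∨ S.toRD.pg t w
  · refine ⟨hc, ?_⟩
    by_contra hb
    unfold RD.bg at hb
    push Not at hb
    apply h
    rw [rgp, if_pos hc, rgp_utd H hw (fun h' => hd (H.D0i t w hw h')) hb.1, H.cg t w hw hd hb.2]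
  · push Not at hc
    exact absurd (rgp_succ_of_not hc.1 hc.2) h

theorem rup_ne (H : S.HypT) {t : ℕ} {w : Om} (hw : S.P.p w ≠ 0) (hd : ¬ S.D0 (t + 1) w)
    (h : S.rup (t + 1) w ≠ S.rup t w) : S.toRD.pp t w ∧ S.toRD.bu t w := by
  by_cases hc : S.toRD.pp t w
  · refine ⟨hc, ?_⟩
    by_contra hb
    unfold RD.bu at hb
    push Not at hb
    apply h
    rw [rup, if_pos hc, rup_utd H hw (fun h' => hd (H.D0i t w hw h')) hb.1, H.cu t w hw hd hb.2]
  · exact absurd (rup_succ_of_not hc) h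

/-- the recorded plain label is a function of the recorded extended label and of the node -/
theorem rfp_fac (H : S.HypT) (t : ℕ) : Fac (fun w => (S.toRD.rf t w, S.toRD.Z t w)) (S.rfp t) := by
  induction t with
  | zero => exact H.fpf 0
  | succ t ih =>
    intro v w hv
    have hv' := hv
    simp only [Prod.mk.injEq] at hv'
    obtain ⟨h1, h2⟩ := hv'
    have hQ : S.Q (t + 1) v = S.Q (t + 1) w := RD.Z_fac_Q (t + 1) v w h2
    have hp : S.toRD.pp t v ↔ S.toRD.pp t w := RD.pp_iff hQ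
    have hf : S.toRD.pf t v ↔ S.toRD.pf t w := RD.pf_iff (RD.Z_fac_ZB (t + 1) v w h2)
    unfold rfp
    unfold RD.rf at h1
    by_cases hc : S.toRD.pp t w ∨ S.toRD.pf t w
    · rw [if_pos hc, if_pos (by rw [hp, hf]; exact hc)] at h1 ⊢
      exact H.fpf (t + 1) v w (by simp only [h1, h2])
    · rw [if_neg hc, if_neg (by rw [hp, hf]; exact hc)] at h1 ⊢
      exact ih v w (by simp only [h1, RD.Z_filt H.hyp t v w h2])

theorem rgp_fac (H : S.HypT) (t : ℕ) : Fac (fun w => (S.toRD.rg t w, S.toRD.Z t w)) (S.rgp t) := by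
  induction t with
  | zero => exact H.gpf 0
  | succ t ih =>
    intro v w hv
    have hv' := hv
    simp only [Prod.mk.injEq] at hv'
    obtain ⟨h1, h2⟩ := hv'
    have hQ : S.Q (t + 1) v = S.Q (t + 1) w := RD.Z_fac_Q (t + 1) v w h2
    have hp : S.toRD.pp t v ↔ S.toRD.pp t w := RD.pp_iff hQ
    have hg : S.toRD.pg t v ↔ S.toRD.pg t w := RD.pg_iff (RD.Z_fac_ZC (t + 1) v w h2)
    unfold rgp
    unfold RD.rg at h1
    by_cases hc : S.toRD.pp t w ∨ S.toRD.pg t w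
    · rw [if_pos hc, if_pos (by rw [hp, hg]; exact hc)] at h1 ⊢
      exact H.gpf (t + 1) v w (by simp only [h1, h2])
    · rw [if_neg hc, if_neg (by rw [hp, hg]; exact hc)] at h1 ⊢
      exact ih v w (by simp only [h1, RD.Z_filt H.hyp t v w h2])

theorem rup_fac (H : S.HypT) (t : ℕ) : Fac (fun w => (S.toRD.ru t w, S.toRD.Z t w)) (S.rup t) := by
  induction t with
  | zero => exact H.upf 0
  | succ t ih =>
    intro v w hv
    have hv' := hv
    simp only [Prod.mk.injEq] at hv'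
    obtain ⟨h1, h2⟩ := hv'
    have hQ : S.Q (t + 1) v = S.Q (t + 1) w := RD.Z_fac_Q (t + 1) v w h2
    have hp : S.toRD.pp t v ↔ S.toRD.pp t w := RD.pp_iff hQ
    unfold rup
    unfold RD.ru at h1
    by_cases hc : S.toRD.pp t w
    · rw [if_pos hc, if_pos (hp.2 hc)] at h1 ⊢
      exact H.upf (t + 1) v w (by simp only [h1, h2])
    · rw [if_neg hc, if_neg (fun h' => hc (hp.1 h'))] at h1 ⊢
      exact ih v w (by simp only [h1, RD.Z_filt H.hyp t v w h2])

/-- the recorded value is a function of the recorded extended labels and of the node -/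
theorem vr_fac (H : S.HypT) (t : ℕ) :
    Fac (fun w => (S.toRD.Z t w, S.toRD.rf t w, S.toRD.rg t w, S.toRD.ru t w)) (S.vr t) := by
  intro v w hv
  simp only [Prod.mk.injEq] at hv
  obtain ⟨h1, h2, h3, h4⟩ := hv
  unfold vr
  rw [H.fe t v w h1, rfp_fac H t v w (by simp only [h1, h2]), rgp_fac H t v w (by simp only [h1, h3]),
    rup_fac H t v w (by simp only [h1, h4])]

theorem X_eq (H : S.HypT) {t : ℕ} {w : Om} (hw : S.P.p w ≠ 0) (hd : ¬ S.D0 t w) (h : S.toRD.utd t w) :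
    S.vr t w = S.vt t w := by
  unfold vr vt
  rw [rfp_utd H hw hd h.1, rgp_utd H hw hd h.2.1, rup_utd H hw hd h.2.2]

/-- off the errors and up to date: `|T - X| <= eta` -/
theorem TX' (h : S.HypT) {t : ℕ} {w : Om} (hw : S.P.p w ≠ 0) (hd : ¬ S.D0 t w) (hu : S.toRD.utd t w) :
    |S.T t w - S.X t w| ≤ S.eta := by
  have h1 := h.TX t w hw hd
  unfold Xt at h1
  unfold X
  rwa [X_eq h hw hd hu]

/-- the recorded value changes at no level of a young period -/
theorem vr_const {w : Om} {s0 s : ℕ} (hy : ∀ t, s0 < t → t ≤ s → ¬ S.toRD.utd t w)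
    (h2 : ∀ t < s, ¬ S.d2 t w) (h3 : ∀ t < s, ¬ S.d3 t w) :
    ∀ t, s0 ≤ t → t ≤ s → S.vr t w = S.vr s0 w := by
  intro t ht
  induction t, ht using Nat.le_induction with
  | base => intro _; rfl
  | succ t ht ih =>
    intro hts
    rw [← ih (by omega)]
    have hu := hy (t + 1) (by omega) hts
    have hpp : ¬ S.toRD.pp t w := fun hp => hu (RD.utd_of_pp hp)
    have h3' := h3 t (by omega)
    have h2' := h2 t (by omega)
    unfold d3 at h3'
    unfold d2 at h2'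
    have hpf : ¬ S.toRD.pf t w := fun hp => h3' ⟨Or.inl hp, hu⟩
    have hpg : ¬ S.toRD.pg t w := fun hp => h3' ⟨Or.inr hp, hu⟩
    have he : S.e (t + 1) w = S.e t w := by
      by_contra hne
      exact h2' ⟨hne, hu⟩
    unfold vr
    rw [he, rfp_succ_of_not hpp hpf, rgp_succ_of_not hpp hpg, rup_succ_of_not hpp]

/-- start of the young period: the recorded process is small there -/
theorem young_s0 {w : Om} {s : ℕ} {a : ℝ} (hu : ¬ S.toRD.utd s w)
    (h2 : ∀ t < s, ¬ S.d2 t w) (h3 : ∀ t < s, ¬ S.d3 t w)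
    (ha : ∀ t < s, S.toRD.utd t w → ¬ S.toRD.utd (t + 1) w → |S.X t w| < a) :
    ∃ s0, s0 < s ∧ S.toRD.utd s0 w ∧ (∀ t, s0 < t → t ≤ s → ¬ S.toRD.utd t w) ∧
      |S.K (S.vr s w) s0 w| < a := by
  obtain ⟨s0, h4, h5, h6⟩ := RD.young_start hu
  refine ⟨s0, h4, h5, h6, ?_⟩
  have hc := vr_const h6 h2 h3
  have := ha s0 h4 h5 (h6 (s0 + 1) (by omega) (by omega))
  unfold X at this
  rwa [hc s h4.le le_rfl]

theorem young_upc1 {w : Om} {s : ℕ} {a b : ℝ} (hab : a ≤ b) (hu : ¬ S.toRD.utd s w)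
    (h2 : ∀ t < s, ¬ S.d2 t w) (h3 : ∀ t < s, ¬ S.d3 t w)
    (ha : ∀ t < s, S.toRD.utd t w → ¬ S.toRD.utd (t + 1) w → |S.X t w| < a)
    (hb : b ≤ |S.X s w|) :
    ∃ v l, l < s ∧ upc a b (fun t w => |S.K v t w|) l w ∧ ¬ S.toRD.utd (l + 1) w := by
  obtain ⟨s0, h4, _, h6, h7⟩ := young_s0 hu h2 h3 ha
  unfold X at hb
  obtain ⟨l, hl1, hl2, hl3⟩ := exists_upc (Y := fun t w' => |S.K (S.vr s w) t w'|) (s0 := s0) (s := s)
    (w := w) hab h4.le h7 hb
  exact ⟨S.vr s w, l, hl2, hl3, h6 (l + 1) (by omega) (by omega)⟩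

theorem young_upc2 {w : Om} {s : ℕ} {a b : ℝ} (hab : a ≤ b) (hu : ¬ S.toRD.utd s w)
    (h2 : ∀ t < s, ¬ S.d2 t w) (h3 : ∀ t < s, ¬ S.d3 t w)
    (ha : ∀ t < s, S.toRD.utd t w → ¬ S.toRD.utd (t + 1) w → |S.X t w| < a)
    (hb : b ≤ |S.K (S.vr s w) (s + 1) w|) :
    ∃ v l, l ≤ s ∧ upc a b (fun t w => |S.K v t w|) l w ∧
      (¬ S.toRD.utd (l + 1) w ∨ ¬ S.toRD.utd l w) := by
  obtain ⟨s0, h4, _, h6, h7⟩ := young_s0 hu h2 h3 ha
  obtain ⟨l, hl1, hl2, hl3⟩ := exists_upc (Y := fun t w' => |S.K (S.vr s w) t w'|) (s0 := s0) (s := s + 1)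
    (w := w) hab (by omega) h7 hb
  rcases Nat.lt_or_ge l s with h | h
  · exact ⟨S.vr s w, l, h.le, hl3, Or.inl (h6 (l + 1) (by omega) (by omega))⟩
  · have : l = s := by omega
    exact ⟨S.vr s w, l, by omega, hl3, Or.inr (by rw [this]; exact hu)⟩

/-- young period, true value: with `(i)`, `(ii)` excluded -/
theorem young_upcT (h : S.HypT) {w : Om} (hw : S.P.p w ≠ 0) {s : ℕ} {r : ℝ} (hr : 0 < r) (her : 2 * S.eta ≤ r)
    (hu : ¬ S.toRD.utd s w)
    (h0 : ¬ S.D0 s w) (h1 : ∀ t < s, ¬ S.d1 r t w) (h2 : ∀ t < s, ¬ S.d2 t w)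
    (hb : 2 * r ≤ |S.T s w|) :
    ∃ v l, l < s ∧ upc (r + S.eta) (2 * r - S.eta) (fun t w => |S.K v t w|) l w ∧
      ¬ S.toRD.utd (l + 1) w := by
  obtain ⟨s0, h4, h5, h6⟩ := RD.young_start hu
  have hD0 : ∀ t ≤ s, ¬ S.D0 t w := fun t ht hd => h0 (S.P.inc_le h.D0i ht hw hd)
  -- the last change of the true value
  have key : ∀ k, s0 < k → k ≤ s → ∃ s1, s0 < s1 ∧ s1 ≤ k ∧ |S.T s1 w| < r ∧
      ∀ t, s1 ≤ t → t ≤ k → S.vt t w = S.vt s1 w := by
    have hchange : ∀ t, s0 ≤ t → t < s → S.vt (t + 1) w ≠ S.vt t w → |S.T (t + 1) w| < r := by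
      intro t ht1 ht2 hne
      have hu' := h6 (t + 1) (by omega) (by omega)
      have he : S.e (t + 1) w = S.e t w := by
        by_contra hne'
        exact h2 t ht2 ⟨hne', hu'⟩
      by_contra hT
      apply h1 t ht2
      refine Or.inr ⟨?_, Or.inr (not_lt.mp hT)⟩
      by_contra hn
      push Not at hn
      apply hne
      unfold vt
      rw [he, h.cf t w hw (hD0 (t + 1) (by omega)) hn.1, h.cg t w hw (hD0 (t + 1) (by omega)) hn.2.1,
        h.cu t w hw (hD0 (t + 1) (by omega)) hn.2.2]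
    intro k hk
    induction k, hk using Nat.le_induction with
    | base =>
      intro _
      refine ⟨s0 + 1, by omega, le_rfl, ?_, fun t ht1 ht2 => ?_⟩
      · have hu' := h6 (s0 + 1) (by omega) (by omega)
        have hch : S.f (s0 + 1) w ≠ S.f s0 w ∨ S.g (s0 + 1) w ≠ S.g s0 w ∨ S.u (s0 + 1) w ≠ S.u s0 w := by
          by_contra hn
          push Not at hn
          apply hu'
          refine ⟨fun hy => ?_, fun hy => ?_, fun hy => ?_⟩
          · rcases hy.1 with hy | hy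
            · exact h5.1 hy
            · exact hy hn.1
          · rcases hy.1 with hy | hy
            · exact h5.2.1 hy
            · exact hy hn.2.1
          · rcases hy.1 with hy | hy
            · exact h5.2.2 hy
            · exact hy hn.2.2
        by_contra hT
        exact h1 s0 h4 (Or.inr ⟨hch, Or.inr (not_lt.mp hT)⟩)
      · have : t = s0 + 1 := by omega
        rw [this]
    | succ k hk ih =>
      intro hks
      obtain ⟨s1, g1, g2, g3, g4⟩ := ih (by omega)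
      by_cases hne : S.vt (k + 1) w = S.vt k w
      · refine ⟨s1, g1, by omega, g3, fun t ht1 ht2 => ?_⟩
        rcases Nat.lt_or_ge k t with h7 | h7
        · have : t = k + 1 := by omega
          rw [this, hne]
          exact g4 k g2 le_rfl
        · exact g4 t ht1 h7
      · refine ⟨k + 1, by omega, le_rfl, hchange k (by omega) (by omega) hne, fun t ht1 ht2 => ?_⟩
        have : t = k + 1 := by omega
        rw [this]
  obtain ⟨s1, g1, g2, g3, g4⟩ := key s h4 le_rfl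
  have hs1 : s1 < s := by
    rcases Nat.lt_or_ge s1 s with h7 | h7
    · exact h7
    · have : s1 = s := by omega
      rw [this] at g3
      linarith
  have h7 : |S.K (S.vt s w) s1 w| < r + S.eta := by
    have h8 := h.TX s1 w hw (hD0 s1 g2)
    unfold Xt at h8
    rw [← g4 s g2 le_rfl] at h8
    have h9 := abs_sub_abs_le_abs_sub (S.K (S.vt s w) s1 w) (S.T s1 w)
    rw [abs_sub_comm] at h9
    linarith
  have h8 : 2 * r - S.eta ≤ |S.K (S.vt s w) s w| := by
    have h9 := h.TX s w hw h0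
    unfold Xt at h9
    have h10 := abs_sub_abs_le_abs_sub (S.T s w) (S.K (S.vt s w) s w)
    linarith
  obtain ⟨l, hl1, hl2, hl3⟩ := exists_upc (Y := fun t w' => |S.K (S.vt s w) t w'|) (s0 := s1) (s := s)
    (w := w) (by linarith) hs1.le h7 h8
  exact ⟨S.vt s w, l, hl2, hl3, h6 (l + 1) (by omega) (by omega)⟩

/-! ## masses -/

/-- upcrossings completed while the triple is not up to date -/
theorem young_mass [Fintype E] [Fintype F'] [Fintype G'] [Fintype U'] (h : S.HypT) {a b : ℝ} (ha : 0 ≤ a)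
    (hab : a < b) (n : ℕ) :
    S.P.Pr (fun w => ∃ v ∈ (univ : Finset (E × F' × G' × U')), ∃ l ∈ range n,
      upc a b (fun t w => |S.K v t w|) l w ∧ (¬ S.toRD.utd (l + 1) w ∨ ¬ S.toRD.utd l w)) ≤
    9 * S.be * ((Fintype.card (E × F' × G' × U') : ℝ) * (S.Lam / (b - a))) := by
  have hZ := RD.Z_filt h.hyp
  have hab' : 0 < b - a := by linarith
  have hone : ∀ v, S.P.Pr (fun w => ∃ l ∈ range n,
      upc a b (fun t w => |S.K v t w|) l w ∧ (¬ S.toRD.utd (l + 1) w ∨ ¬ S.toRD.utd l w)) ≤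
      9 * S.be * (S.Lam / (b - a)) := by
    intro v
    have hY : ∀ t, Fac (S.toRD.Z t) (fun w => |S.K v t w|) := fun t => (h.Kf v t).comp _
    have h1 := S.P.upc_count (b := b) hZ hY (h.Ks v) ha h.Lam0 n (fun w hw => h.Kb v n w hw)
    have h2 := S.P.upc_weight (a := a) (b := b) (c := 3 * S.be) hZ hY
      (S := fun t w => ¬ S.toRD.utd (t + 1) w)
      (fun t w hw => RD.utd_Z h.hyp (t + 1) hw) n
    have h3 := S.P.upc_weight (a := a) (b := b) (c := 6 * S.be) hZ hY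
      (S := fun t w => ¬ S.toRD.utd t w)
      (fun t w hw => RD.utd_Z_succ h.hyp t hw) n
    have h4 : S.P.Pr (fun w => ∃ l ∈ range n,
        upc a b (fun t w => |S.K v t w|) l w ∧ (¬ S.toRD.utd (l + 1) w ∨ ¬ S.toRD.utd l w)) ≤
        ∑ l ∈ range n, (S.P.Pr (fun w => upc a b (fun t w => |S.K v t w|) l w ∧ ¬ S.toRD.utd (l + 1) w) +
          S.P.Pr (fun w => upc a b (fun t w => |S.K v t w|) l w ∧ ¬ S.toRD.utd l w)) := by
      refine (S.P.Pr_ex_le (range n) _).trans (Finset.sum_le_sum fun l _ => ?_)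
      refine le_trans (S.P.Pr_mono fun w _ => ?_) (S.P.Pr_or_le _ _)
      rintro ⟨h5, h6 | h6⟩
      · exact Or.inl ⟨h5, h6⟩
      · exact Or.inr ⟨h5, h6⟩
    rw [Finset.sum_add_distrib] at h4
    have hbe := h.hyp.be0
    have h5 : ∑ t ∈ range n, S.P.Pr (upc a b (fun t w => |S.K v t w|) t) ≤ S.Lam / (b - a) := by
      rw [le_div_iff₀ hab', mul_comm]; exact h1
    have h6 : 9 * S.be * ∑ t ∈ range n, S.P.Pr (upc a b (fun t w => |S.K v t w|) t) ≤
        9 * S.be * (S.Lam / (b - a)) := mul_le_mul_of_nonneg_left h5 (by positivity)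
    linarith
  refine (S.P.Pr_ex_le univ _).trans ?_
  refine (Finset.sum_le_sum fun v _ => hone v).trans ?_
  rw [Finset.sum_const, nsmul_eq_mul, Finset.card_univ]
  linarith

theorem d2_mass (h : S.HypT) (n : ℕ) {ne : ℝ}
    (he : ∑ t ∈ range n, S.P.Pr (fun w => S.e (t + 1) w ≠ S.e t w) ≤ ne) :
    ∑ t ∈ range n, S.P.Pr (S.d2 t) ≤ 3 * S.be * ne := by
  have hbe := h.hyp.be0
  refine le_trans ?_ (mul_le_mul_of_nonneg_left he (by positivity))
  rw [Finset.mul_sum]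
  refine Finset.sum_le_sum fun t _ => ?_
  have hf : Fac (S.toRD.Z (t + 1)) (fun w => ind (S.e (t + 1) w ≠ S.e t w)) :=
    Fac.ind fun v w hv => by
      rw [h.fe (t + 1) v w hv, h.fe t v w (RD.Z_filt h.hyp t v w hv)]
  have h1 : S.P.Pr (S.d2 t) = S.P.E (fun w => ind (S.e (t + 1) w ≠ S.e t w) * ind (¬ S.toRD.utd (t + 1) w)) := by
    unfold FP.Pr d2
    exact S.P.E_congr fun w _ => ind_and _ _
  rw [h1, ← S.P.E_mul_ce hf]
  unfold FP.Pr
  rw [← FP.E_smul]
  refine S.P.E_mono fun w hw => ?_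
  have := mul_le_mul_of_nonneg_left (RD.utd_Z h.hyp (t + 1) hw) (ind_nonneg (S.e (t + 1) w ≠ S.e t w))
  linarith

theorem d3_mass (h : S.HypT) (n : ℕ) {nf ng : ℝ}
    (hf : ∑ t ∈ range n, S.P.Pr (fun w => S.f (t + 1) w ≠ S.f t w) ≤ nf)
    (hg : ∑ t ∈ range n, S.P.Pr (fun w => S.g (t + 1) w ≠ S.g t w) ≤ ng) :
    ∑ t ∈ range n, S.P.Pr (S.d3 t) ≤ 2 * S.be * (nf + ng) := by
  have hbe := h.hyp.be0
  have hal := h.hyp.al0
  have hab := h.hyp.ab
  -- one level
  have hpf : ∀ t, S.P.Pr (fun w => S.toRD.pf t w ∧ ¬ S.toRD.utd (t + 1) w) ≤ 2 * S.al * S.P.Pr (S.toRD.pf t) := by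
    intro t
    have hfac : Fac (S.toRD.ZB (t + 1)) (fun w => ind (S.toRD.pf t w ∧ ¬ S.toRD.pp t w)) :=
      Fac.ind fun v w hv => by
        rw [RD.pf_iff hv, RD.pp_iff (RD.ZB_fac_Q (t + 1) v w hv)]
    have h1 : S.P.Pr (fun w => S.toRD.pf t w ∧ ¬ S.toRD.utd (t + 1) w) ≤
        S.P.E (fun w => ind (S.toRD.pf t w ∧ ¬ S.toRD.pp t w) *
          (ind (S.toRD.bg t w) + ind (S.toRD.bu t w))) := by
      unfold FP.Pr
      refine S.P.E_mono fun w _ => ?_
      by_cases hc : S.toRD.pf t w ∧ ¬ S.toRD.utd (t + 1) w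
      · have hpp : ¬ S.toRD.pp t w := fun hp => hc.2 (RD.utd_of_pp hp)
        rw [ind_of hc, ind_of ⟨hc.1, hpp⟩, one_mul]
        by_cases hbg : S.toRD.bg t w
        · rw [ind_of hbg]; linarith [ind_nonneg (S.toRD.bu t w)]
        · by_cases hbu : S.toRD.bu t w
          · rw [ind_of hbu]; linarith [ind_nonneg (S.toRD.bg t w)]
          · exact absurd ⟨fun hy => hy.2.2 hc.1, fun hy => hbg hy.1, fun hy => hbu hy.1⟩ hc.2
      · rw [ind_not hc]
        exact mul_nonneg (ind_nonneg _) (add_nonneg (ind_nonneg _) (ind_nonneg _))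
    refine h1.trans ?_
    rw [← S.P.E_mul_ce hfac]
    unfold FP.Pr
    rw [← FP.E_smul]
    refine S.P.E_mono fun w hw => ?_
    rw [FP.ce_add]
    by_cases hc : S.toRD.pf t w ∧ ¬ S.toRD.pp t w
    · rw [ind_of hc, ind_of hc.1, one_mul, mul_one]
      have e1 := h.hyp.iB (t + 1) (fun v => ind (S.toRD.bg t v))
        (Fac.ind fun v w hv => by
          simp only [Prod.mk.injEq] at hv
          exact RD.bg_iff h.hyp hv.1 hv.2.1 hv.2.2) w hw
      have e2 := h.hyp.iB (t + 1) (fun v => ind (S.toRD.bu t v))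
        (Fac.ind fun v w hv => by
          simp only [Prod.mk.injEq] at hv
          exact RD.bu_iff h.hyp hv.1 hv.2.2) w hw
      rw [e1, e2]
      have := RD.bg_Q h.hyp hw hc.2
      have := RD.bu_Q h.hyp hw hc.2
      linarith
    · rw [ind_not hc, zero_mul]
      exact mul_nonneg (by positivity) (ind_nonneg _)
  have hpg : ∀ t, S.P.Pr (fun w => S.toRD.pg t w ∧ ¬ S.toRD.utd (t + 1) w) ≤ 2 * S.al * S.P.Pr (S.toRD.pg t) := by
    intro t
    have hfac : Fac (S.toRD.ZC (t + 1)) (fun w => ind (S.toRD.pg t w ∧ ¬ S.toRD.pp t w)) :=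
      Fac.ind fun v w hv => by
        rw [RD.pg_iff hv, RD.pp_iff (RD.ZC_fac_Q (t + 1) v w hv)]
    have h1 : S.P.Pr (fun w => S.toRD.pg t w ∧ ¬ S.toRD.utd (t + 1) w) ≤
        S.P.E (fun w => ind (S.toRD.pg t w ∧ ¬ S.toRD.pp t w) *
          (ind (S.toRD.bf t w) + ind (S.toRD.bu t w))) := by
      unfold FP.Pr
      refine S.P.E_mono fun w _ => ?_
      by_cases hc : S.toRD.pg t w ∧ ¬ S.toRD.utd (t + 1) w
      · have hpp : ¬ S.toRD.pp t w := fun hp => hc.2 (RD.utd_of_pp hp)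
        rw [ind_of hc, ind_of ⟨hc.1, hpp⟩, one_mul]
        by_cases hbf : S.toRD.bf t w
        · rw [ind_of hbf]; linarith [ind_nonneg (S.toRD.bu t w)]
        · by_cases hbu : S.toRD.bu t w
          · rw [ind_of hbu]; linarith [ind_nonneg (S.toRD.bf t w)]
          · exact absurd ⟨fun hy => hbf hy.1, fun hy => hy.2.2 hc.1, fun hy => hbu hy.1⟩ hc.2
      · rw [ind_not hc]
        exact mul_nonneg (ind_nonneg _) (add_nonneg (ind_nonneg _) (ind_nonneg _))
    refine h1.trans ?_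
    rw [← S.P.E_mul_ce hfac]
    unfold FP.Pr
    rw [← FP.E_smul]
    refine S.P.E_mono fun w hw => ?_
    rw [FP.ce_add]
    by_cases hc : S.toRD.pg t w ∧ ¬ S.toRD.pp t w
    · rw [ind_of hc, ind_of hc.1, one_mul, mul_one]
      have e1 := h.hyp.iC (t + 1) (fun v => ind (S.toRD.bf t v))
        (Fac.ind fun v w hv => by
          simp only [Prod.mk.injEq] at hv
          exact RD.bf_iff h.hyp hv.1 hv.2.1 hv.2.2) w hw
      have e2 := h.hyp.iC (t + 1) (fun v => ind (S.toRD.bu t v))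
        (Fac.ind fun v w hv => by
          simp only [Prod.mk.injEq] at hv
          exact RD.bu_iff h.hyp hv.1 hv.2.2) w hw
      rw [e1, e2]
      have := RD.bf_Q h.hyp hw hc.2
      have := RD.bu_Q h.hyp hw hc.2
      linarith
    · rw [ind_not hc, zero_mul]
      exact mul_nonneg (by positivity) (ind_nonneg _)
  have hlev : ∀ t ∈ range n, S.P.Pr (S.d3 t) ≤ 2 * S.al * S.P.Pr (S.toRD.pf t) + 2 * S.al * S.P.Pr (S.toRD.pg t) := by
    intro t _
    refine le_trans ?_ (add_le_add (hpf t) (hpg t))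
    refine le_trans (S.P.Pr_mono fun w _ => ?_) (S.P.Pr_or_le _ _)
    rintro ⟨h1 | h1, h2⟩
    · exact Or.inl ⟨h1, h2⟩
    · exact Or.inr ⟨h1, h2⟩
  refine (Finset.sum_le_sum hlev).trans ?_
  rw [Finset.sum_add_distrib, ← Finset.mul_sum, ← Finset.mul_sum]
  have h1 := RD.pf_count h.hyp n
  have h2 := RD.pg_count h.hyp n
  set x := ∑ t ∈ range n, S.P.Pr (S.toRD.pf t) with hx
  set y := ∑ t ∈ range n, S.P.Pr (S.toRD.pg t) with hy
  have hx0 : 0 ≤ x := Finset.sum_nonneg fun t _ => S.P.Pr_nonneg _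
  have hy0 : 0 ≤ y := Finset.sum_nonneg fun t _ => S.P.Pr_nonneg _
  have h3 : S.al * (x + y) ≤ S.be ^ 2 * (x + y) := mul_le_mul_of_nonneg_right hab (by linarith)
  have h4 : S.be * (S.be * (x + y)) ≤ S.be * (nf + ng) := by
    refine mul_le_mul_of_nonneg_left ?_ hbe.le
    have h5 : S.be * x ≤ nf := le_trans h1 hf
    have h6 : S.be * y ≤ ng := le_trans h2 hg
    linarith
  nlinarith [h3, h4]

/-! ## Lemma D -/

/-- a young period begins with a true change of `f`, `g` or `u` -/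
theorem change_of_start {t : ℕ} {w : Om} (h : S.toRD.utd t w) (h' : ¬ S.toRD.utd (t + 1) w) :
    S.f (t + 1) w ≠ S.f t w ∨ S.g (t + 1) w ≠ S.g t w ∨ S.u (t + 1) w ≠ S.u t w := by
  by_contra hn
  push Not at hn
  apply h'
  refine ⟨fun hy => ?_, fun hy => ?_, fun hy => ?_⟩
  · rcases hy.1 with hy | hy
    · exact h.1 hy
    · exact hy hn.1
  · rcases hy.1 with hy | hy
    · exact h.2.1 hy
    · exact hy hn.2.1
  · rcases hy.1 with hy | hy
    · exact h.2.2 hy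
    · exact hy hn.2.2

theorem dead_le [Fintype E] [Fintype F'] [Fintype G'] [Fintype U'] (h : S.HypT) {r : ℝ} (hr : 2 * S.eta < r) (n : ℕ)
    {m1 ne nf ng : ℝ} (h1 : ∑ t ∈ range n, S.P.Pr (fun w => S.d1 r t w ∧ ¬ S.D0 (t + 1) w) ≤ m1)
    (he : ∑ t ∈ range n, S.P.Pr (fun w => S.e (t + 1) w ≠ S.e t w) ≤ ne)
    (hf : ∑ t ∈ range n, S.P.Pr (fun w => S.f (t + 1) w ≠ S.f t w) ≤ nf)
    (hg : ∑ t ∈ range n, S.P.Pr (fun w => S.g (t + 1) w ≠ S.g t w) ≤ ng) :
    S.P.Pr (S.Dead r n) ≤ S.P.Pr (S.D0 n) + m1 +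
      S.be * (3 * ne + 2 * (nf + ng) +
        9 * ((Fintype.card (E × F' × G' × U') : ℝ) * (S.Lam / (r - 2 * S.eta)))) := by
  have heta := h.eta0
  have hpath : ∀ w, S.P.p w ≠ 0 → S.Dead r n w →
      (((S.D0 n w ∨ ∃ t ∈ range n, (S.d1 r t w ∧ ¬ S.D0 (t + 1) w)) ∨ ∃ t ∈ range n, S.d2 t w) ∨
        ∃ t ∈ range n, S.d3 t w) ∨
      ∃ v ∈ (univ : Finset (E × F' × G' × U')), ∃ l ∈ range n,
        upc (r + S.eta) (2 * r - S.eta) (fun t w => |S.K v t w|) l w ∧
          (¬ S.toRD.utd (l + 1) w ∨ ¬ S.toRD.utd l w) := by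
    intro w hw hd
    by_cases h0 : S.D0 n w
    · exact Or.inl (Or.inl (Or.inl (Or.inl h0)))
    by_cases g1 : ∃ t ∈ range n, (S.d1 r t w ∧ ¬ S.D0 (t + 1) w)
    · exact Or.inl (Or.inl (Or.inl (Or.inr g1)))
    by_cases g2 : ∃ t ∈ range n, S.d2 t w
    · exact Or.inl (Or.inl (Or.inr g2))
    by_cases g3 : ∃ t ∈ range n, S.d3 t w
    · exact Or.inl (Or.inr g3)
    right
    have g1' : ∀ t < n, ¬ S.d1 r t w := fun t ht hd => g1 ⟨t, Finset.mem_range.mpr ht, hd,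
      fun hd0 => h0 (S.P.inc_le h.D0i ht hw hd0)⟩
    have g2' : ∀ t < n, ¬ S.d2 t w := fun t ht hd => g2 ⟨t, Finset.mem_range.mpr ht, hd⟩
    have g3' : ∀ t < n, ¬ S.d3 t w := fun t ht hd => g3 ⟨t, Finset.mem_range.mpr ht, hd⟩
    have hD0 : ∀ t ≤ n, ¬ S.D0 t w := fun t ht hd => h0 (S.P.inc_le h.D0i ht hw hd)
    have hsmall : ∀ t < n, S.toRD.utd t w → ¬ S.toRD.utd (t + 1) w → |S.X t w| < r + S.eta := by
      intro t ht hu hu'
      have h5 := change_of_start hu hu'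
      have h6 : ¬ r ≤ |S.T t w| := fun h7 => g1' t ht (Or.inr ⟨h5, Or.inl h7⟩)
      have h7 := TX' h hw (hD0 t ht.le) hu
      have h8 := abs_sub_abs_le_abs_sub (S.X t w) (S.T t w)
      rw [abs_sub_comm] at h8
      linarith [not_le.mp h6]
    rcases hd with hd | ⟨s, hs, hd⟩
    · exact absurd hd h0
    rcases hd with hd | hd | hd | hd | hd
    · exact absurd hd (g1' s hs)
    · exact absurd hd (g2' s hs)
    · exact absurd hd (g3' s hs)
    · obtain ⟨hu, hx⟩ := hd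
      rcases hx with hx | hx
      · obtain ⟨v, l, hl, hl1, hl2⟩ := young_upc1 (S := S) (w := w) (s := s + 1) (a := r + S.eta)
          (b := 2 * r - S.eta) (by linarith) hu (fun t ht => g2' t (by omega)) (fun t ht => g3' t (by omega))
          (fun t ht => hsmall t (by omega)) (by linarith)
        exact ⟨v, mem_univ _, l, Finset.mem_range.mpr (by omega), hl1, Or.inl hl2⟩
      · obtain ⟨v, l, hl, hl1, hl2⟩ := young_upcT (S := S) h hw (s := s + 1) (r := r) (by linarith) (by linarith)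
          hu (hD0 (s + 1) (by omega)) (fun t ht => g1' t (by omega)) (fun t ht => g2' t (by omega)) hx
        exact ⟨v, mem_univ _, l, Finset.mem_range.mpr (by omega), hl1, Or.inl hl2⟩
    · obtain ⟨hu, hx⟩ := hd
      obtain ⟨v, l, hl, hl1, hl2⟩ := young_upc2 (S := S) (w := w) (s := s) (a := r + S.eta)
        (b := 2 * r - S.eta) (by linarith) hu (fun t ht => g2' t (by omega)) (fun t ht => g3' t (by omega))
        (fun t ht => hsmall t (by omega)) (by linarith)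
      exact ⟨v, mem_univ _, l, Finset.mem_range.mpr (by omega), hl1, hl2⟩
  have hm := young_mass (S := S) h (a := r + S.eta) (b := 2 * r - S.eta) (by linarith) (by linarith) n
  have e1 : 2 * r - S.eta - (r + S.eta) = r - 2 * S.eta := by ring
  rw [e1] at hm
  have hA := S.P.Pr_mono (t := fun w =>
      (((S.D0 n w ∨ ∃ t ∈ range n, (S.d1 r t w ∧ ¬ S.D0 (t + 1) w)) ∨ ∃ t ∈ range n, S.d2 t w) ∨
        ∃ t ∈ range n, S.d3 t w) ∨
      ∃ v ∈ (univ : Finset (E × F' × G' × U')), ∃ l ∈ range n,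
        upc (r + S.eta) (2 * r - S.eta) (fun t w => |S.K v t w|) l w ∧
          (¬ S.toRD.utd (l + 1) w ∨ ¬ S.toRD.utd l w)) hpath
  have hB := S.P.Pr_or_le (fun w => ((S.D0 n w ∨ ∃ t ∈ range n, (S.d1 r t w ∧ ¬ S.D0 (t + 1) w)) ∨
      ∃ t ∈ range n, S.d2 t w) ∨
      ∃ t ∈ range n, S.d3 t w) (fun w => ∃ v ∈ (univ : Finset (E × F' × G' × U')), ∃ l ∈ range n,
        upc (r + S.eta) (2 * r - S.eta) (fun t w => |S.K v t w|) l w ∧
          (¬ S.toRD.utd (l + 1) w ∨ ¬ S.toRD.utd l w))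
  have hC := S.P.Pr_or_le (fun w => (S.D0 n w ∨ ∃ t ∈ range n, (S.d1 r t w ∧ ¬ S.D0 (t + 1) w)) ∨
      ∃ t ∈ range n, S.d2 t w)
    (fun w => ∃ t ∈ range n, S.d3 t w)
  have hD := S.P.Pr_or_le (fun w => S.D0 n w ∨ ∃ t ∈ range n, (S.d1 r t w ∧ ¬ S.D0 (t + 1) w))
    (fun w => ∃ t ∈ range n, S.d2 t w)
  have hE := S.P.Pr_or_le (S.D0 n) (fun w => ∃ t ∈ range n, (S.d1 r t w ∧ ¬ S.D0 (t + 1) w))
  have k1 := (S.P.Pr_ex_le (range n) (fun t w => S.d1 r t w ∧ ¬ S.D0 (t + 1) w)).trans h1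
  have k2 := (S.P.Pr_ex_le (range n) S.d2).trans (d2_mass h n he)
  have k3 := (S.P.Pr_ex_le (range n) S.d3).trans (d3_mass h n hf hg)
  linarith

/-- (D1) -/
theorem dead_D1 (h : S.HypT) {r : ℝ} {t : ℕ} {w : Om} (hw : S.P.p w ≠ 0) (hd : ¬ S.Dead r t w)
    (hx : 2 * r ≤ |S.X t w| ∨ 2 * r ≤ |S.T t w|) : S.toRD.utd t w ∧ |S.T t w - S.X t w| ≤ S.eta := by
  have hu : S.toRD.utd t w := by
    cases t with
    | zero => exact S.toRD.utd_zero w
    | succ t =>
      by_contra hu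
      exact hd (Or.inr ⟨t, Nat.lt_succ_self t, Or.inr (Or.inr (Or.inr (Or.inl ⟨hu, hx⟩)))⟩)
  exact ⟨hu, TX' h hw (fun h0 => hd (Or.inl h0)) hu⟩

/-- (D2) -/
theorem dead_D2 (h : S.HypT) {r : ℝ} (hr : S.eta ≤ r) {t : ℕ} {w : Om} (hw : S.P.p w ≠ 0)
    (hd : ¬ S.Dead r (t + 1) w) (hx : 2 * r ≤ |S.X t w|) : S.vr (t + 1) w = S.vr t w := by
  have hd' : ¬ S.Dead r t w := fun hd' => hd (dead_inc h r t w hw hd')
  obtain ⟨hu, hT⟩ := dead_D1 h hw hd' (Or.inl hx)
  have h1 := abs_sub_abs_le_abs_sub (S.X t w) (S.T t w)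
  rw [abs_sub_comm] at h1
  have hTr : r ≤ |S.T t w| := by linarith
  have hd1 : ¬ S.d1 r t w := fun h2 => hd (Or.inr ⟨t, Nat.lt_succ_self t, Or.inl h2⟩)
  have he : S.e (t + 1) w = S.e t w := by
    by_contra hne
    exact hd1 (Or.inl ⟨hne, hTr⟩)
  have hn : ¬ (S.f (t + 1) w ≠ S.f t w ∨ S.g (t + 1) w ≠ S.g t w ∨ S.u (t + 1) w ≠ S.u t w) :=
    fun h2 => hd1 (Or.inr ⟨h2, Or.inl hTr⟩)
  push Not at hn
  have hf : S.rfp (t + 1) w = S.rfp t w := by
    by_contra hne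
    rcases (rfp_ne h hw (fun h0 => hd (Or.inl h0)) hne).2 with hb | hb
    · exact hu.1 hb
    · exact hb hn.1
  have hg : S.rgp (t + 1) w = S.rgp t w := by
    by_contra hne
    rcases (rgp_ne h hw (fun h0 => hd (Or.inl h0)) hne).2 with hb | hb
    · exact hu.2.1 hb
    · exact hb hn.2.1
  have hu' : S.rup (t + 1) w = S.rup t w := by
    by_contra hne
    rcases (rup_ne h hw (fun h0 => hd (Or.inl h0)) hne).2 with hb | hb
    · exact hu.2.2 hb
    · exact hb hn.2.2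
  unfold vr
  rw [he, hf, hg, hu']

/-! ## Lemma D' -/

theorem dead'_le [Fintype E] [Fintype F'] [Fintype G'] [Fintype U'] (h : S.HypT) {p q : ℝ} (hp : 0 ≤ p) (hpq : p < q)
    (n : ℕ) (hT : ∀ t w, S.P.p w ≠ 0 → |S.T t w| + S.eta < p) {ne nf ng : ℝ}
    (he : ∑ t ∈ range n, S.P.Pr (fun w => S.e (t + 1) w ≠ S.e t w) ≤ ne)
    (hf : ∑ t ∈ range n, S.P.Pr (fun w => S.f (t + 1) w ≠ S.f t w) ≤ nf)
    (hg : ∑ t ∈ range n, S.P.Pr (fun w => S.g (t + 1) w ≠ S.g t w) ≤ ng) :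
    S.P.Pr (S.Dead' q n) ≤ S.P.Pr (S.D0 n) +
      S.be * (3 * ne + 2 * (nf + ng) + 9 * ((Fintype.card (E × F' × G' × U') : ℝ) * (S.Lam / (q - p)))) := by
  have hpath : ∀ w, S.P.p w ≠ 0 → S.Dead' q n w →
      ((S.D0 n w ∨ ∃ t ∈ range n, S.d2 t w) ∨ ∃ t ∈ range n, S.d3 t w) ∨
      ∃ v ∈ (univ : Finset (E × F' × G' × U')), ∃ l ∈ range n,
        upc p q (fun t w => |S.K v t w|) l w ∧ (¬ S.toRD.utd (l + 1) w ∨ ¬ S.toRD.utd l w) := by
    intro w hw hd
    by_cases h0 : S.D0 n w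
    · exact Or.inl (Or.inl (Or.inl h0))
    by_cases g2 : ∃ t ∈ range n, S.d2 t w
    · exact Or.inl (Or.inl (Or.inr g2))
    by_cases g3 : ∃ t ∈ range n, S.d3 t w
    · exact Or.inl (Or.inr g3)
    right
    have g2' : ∀ t < n, ¬ S.d2 t w := fun t ht hd => g2 ⟨t, Finset.mem_range.mpr ht, hd⟩
    have g3' : ∀ t < n, ¬ S.d3 t w := fun t ht hd => g3 ⟨t, Finset.mem_range.mpr ht, hd⟩
    have hD0 : ∀ t ≤ n, ¬ S.D0 t w := fun t ht hd => h0 (S.P.inc_le h.D0i ht hw hd)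
    have hsmall : ∀ t < n, S.toRD.utd t w → ¬ S.toRD.utd (t + 1) w → |S.X t w| < p := by
      intro t ht hu _
      have h7 := TX' h hw (hD0 t ht.le) hu
      have h8 := abs_sub_abs_le_abs_sub (S.X t w) (S.T t w)
      rw [abs_sub_comm] at h8
      linarith [hT t w hw]
    rcases hd with hd | ⟨s, hs, hd⟩
    · exact absurd hd h0
    rcases hd with hd | hd | ⟨hu, hx⟩ | ⟨hu, hx⟩
    · exact absurd hd (g2' s hs)
    · exact absurd hd (g3' s hs)
    · obtain ⟨v, l, hl, hl1, hl2⟩ := young_upc1 (S := S) (w := w) (s := s + 1) (a := p)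
          (b := q) hpq.le hu (fun t ht => g2' t (by omega)) (fun t ht => g3' t (by omega))
          (fun t ht => hsmall t (by omega)) hx
      exact ⟨v, mem_univ _, l, Finset.mem_range.mpr (by omega), hl1, Or.inl hl2⟩
    · obtain ⟨v, l, hl, hl1, hl2⟩ := young_upc2 (S := S) (w := w) (s := s) (a := p)
        (b := q) hpq.le hu (fun t ht => g2' t (by omega)) (fun t ht => g3' t (by omega))
        (fun t ht => hsmall t (by omega)) hx
      exact ⟨v, mem_univ _, l, Finset.mem_range.mpr (by omega), hl1, hl2⟩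
  have hm := young_mass (S := S) h (a := p) (b := q) hp hpq n
  have hA := S.P.Pr_mono (t := fun w =>
      ((S.D0 n w ∨ ∃ t ∈ range n, S.d2 t w) ∨ ∃ t ∈ range n, S.d3 t w) ∨
      ∃ v ∈ (univ : Finset (E × F' × G' × U')), ∃ l ∈ range n,
        upc p q (fun t w => |S.K v t w|) l w ∧ (¬ S.toRD.utd (l + 1) w ∨ ¬ S.toRD.utd l w)) hpath
  have hB := S.P.Pr_or_le (fun w => (S.D0 n w ∨ ∃ t ∈ range n, S.d2 t w) ∨ ∃ t ∈ range n, S.d3 t w)
    (fun w => ∃ v ∈ (univ : Finset (E × F' × G' × U')), ∃ l ∈ range n,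
        upc p q (fun t w => |S.K v t w|) l w ∧ (¬ S.toRD.utd (l + 1) w ∨ ¬ S.toRD.utd l w))
  have hC := S.P.Pr_or_le (fun w => S.D0 n w ∨ ∃ t ∈ range n, S.d2 t w) (fun w => ∃ t ∈ range n, S.d3 t w)
  have hD := S.P.Pr_or_le (S.D0 n) (fun w => ∃ t ∈ range n, S.d2 t w)
  have k2 := (S.P.Pr_ex_le (range n) S.d2).trans (d2_mass h n he)
  have k3 := (S.P.Pr_ex_le (range n) S.d3).trans (d3_mass h n hf hg)
  linarith

/-- off `Dead'`: `|X| < q` -/
theorem dead'_X (h : S.HypT) {p q : ℝ} (hpq : p ≤ q)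
    (hT : ∀ t w, S.P.p w ≠ 0 → |S.T t w| + S.eta < p) {t : ℕ} {w : Om} (hw : S.P.p w ≠ 0)
    (hd : ¬ S.Dead' q t w) : |S.X t w| < q := by
  by_cases hu : S.toRD.utd t w
  · have h7 := TX' h hw (fun h0 => hd (Or.inl h0)) hu
    have h8 := abs_sub_abs_le_abs_sub (S.X t w) (S.T t w)
    rw [abs_sub_comm] at h8
    linarith [hT t w hw]
  · cases t with
    | zero => exact absurd (S.toRD.utd_zero w) hu
    | succ t =>
      by_contra hx
      exact hd (Or.inr ⟨t, Nat.lt_succ_self t, Or.inr (Or.inr (Or.inl ⟨hu, not_lt.mp hx⟩))⟩)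

/-- off `Dead'` the process is close to `T` or the triple is not up to date -/
theorem dead'_T (h : S.HypT) {q : ℝ} {t : ℕ} {w : Om} (hw : S.P.p w ≠ 0)
    (hd : ¬ S.Dead' q t w) : ¬ S.toRD.utd t w ∨ |S.T t w - S.X t w| ≤ S.eta := by
  by_cases hu : S.toRD.utd t w
  · exact Or.inr (TX' h hw (fun h0 => hd (Or.inl h0)) hu)
  · exact Or.inl hu

/-- the recorded value changes only at a change of `e` or at a closing with a young label -/
theorem vr_ne (H : S.HypT) {t : ℕ} {w : Om} (hw : S.P.p w ≠ 0) (hd : ¬ S.D0 (t + 1) w)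
    (h : S.vr (t + 1) w ≠ S.vr t w) :
    S.e (t + 1) w ≠ S.e t w ∨ ((S.toRD.pp t w ∨ S.toRD.pf t w) ∧ S.toRD.bf t w) ∨
      ((S.toRD.pp t w ∨ S.toRD.pg t w) ∧ S.toRD.bg t w) ∨ (S.toRD.pp t w ∧ S.toRD.bu t w) := by
  by_contra hn
  push Not at hn
  obtain ⟨h1, h2, h3, h4⟩ := hn
  apply h
  have hf : S.rfp (t + 1) w = S.rfp t w := by
    by_contra hne
    have := rfp_ne H hw hd hne
    exact h2 this.1 this.2
  have hg : S.rgp (t + 1) w = S.rgp t w := by
    by_contra hne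
    have := rgp_ne H hw hd hne
    exact h3 this.1 this.2
  have hu : S.rup (t + 1) w = S.rup t w := by
    by_contra hne
    have := rup_ne H hw hd hne
    exact h4 this.1 this.2
  unfold vr
  rw [h1, hf, hg, hu]

end

end RT

end Pool.Agent.M3
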