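import Pool.Agent.M3.RdHyp
import Pool.Agent.M3.RdD

/-!
# M3.RdPull: pulling back section 2B along a map of probability spaces (helper96)

* `Pul P P' pi` : the map `pi : Om → Om'` pushes `P` to `P'`; `Pul.ce`, `Pul.m`, `Pul.ne`, `exists_pull`;
* `PulC P P' pi PC c` : moreover `c` has the law `PC` and is independent of `pi`; `PulC.ce` : the coins can be forgotten;
* `RD.pull`, `RD.pull_hyp`; `RT.pull`, `RT.pull_hyp`;
* instance: `pic : Sp k N m Θ (Ξ × Ci) → Sp k N m Θ Ξ` (forget the private coins), `coin`; `pulC_pic`, `ce_Kn_pic`,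
  `ce_Yk_pic`.
-/

set_option autoImplicit false
set_option linter.unusedSectionVars false

namespace Pool.Agent.M3

open Finset Pool.Agent.PWZ

variable {Om Om' C : Type*} [Fintype Om] [Fintype Om'] [Fintype C]

/-- `pi` pushes `P` to `P'` -/
structure Pul (P : FP Om) (P' : FP Om') (pi : Om → Om') : Prop where
  E : ∀ h : Om' → ℝ, P.E (fun w => h (pi w)) = P'.E h

/-- `pi` pushes `P` to `P'`, `c` has the law `PC` and is independent of `pi` -/
structure PulC (P : FP Om) (P' : FP Om') (pi : Om → Om') (PC : FP C) (c : Om → C) : Prop where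
  E : ∀ F : Om' → C → ℝ, P.E (fun w => F (pi w) (c w)) = P'.E (fun v => PC.E (F v))

/-- functions of the pull back are pulled back -/
theorem exists_pull {κ : Type*} {X : Om' → κ} {pi : Om → Om'} {h : Om → ℝ} (hh : Fac (fun w => X (pi w)) h) :
    ∃ h' : Om' → ℝ, Fac X h' ∧ ∀ w, h w = h' (pi w) := by
  classical
  refine ⟨fun v => if H : ∃ w, X (pi w) = X v then h H.choose else 0, ?_, ?_⟩
  · intro v v' hv
    show (if H : ∃ w, X (pi w) = X v then h H.choose else 0) = (if H : ∃ w, X (pi w) = X v' then h H.choose else 0)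
    rw [hv]
  · intro w
    have H : ∃ w', X (pi w') = X (pi w) := ⟨w, rfl⟩
    simp only [dif_pos H]
    exact (hh _ _ H.choose_spec).symm

theorem exists_pull_nn {κ : Type*} {X : Om' → κ} {pi : Om → Om'} {h : Om → ℝ} (hh : Fac (fun w => X (pi w)) h)
    (h0 : ∀ w, 0 ≤ h w) :
    ∃ h' : Om' → ℝ, Fac X h' ∧ (∀ w, h w = h' (pi w)) ∧ ∀ v, 0 ≤ h' v := by
  obtain ⟨h', h1, h2⟩ := exists_pull hh
  refine ⟨fun v => |h' v|, h1.comp _, fun w => ?_, fun v => abs_nonneg _⟩
  show h w = |h' (pi w)|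
  rw [← h2 w, abs_of_nonneg (h0 w)]

namespace Pul

variable {P : FP Om} {P' : FP Om'} {pi : Om → Om'} (H : Pul P P' pi)

include H

theorem m {κ : Type*} (X : Om' → κ) (w : Om) : P.m (fun v => X (pi v)) w = P'.m X (pi w) :=
  H.E (fun v => ind (X v = X (pi w)))

theorem Pr (s : Om' → Prop) : P.Pr (fun w => s (pi w)) = P'.Pr s := H.E (fun v => ind (s v))

theorem ce {κ : Type*} (X : Om' → κ) (h : Om' → ℝ) (w : Om) :
    P.ce (fun v => X (pi v)) (fun v => h (pi v)) w = P'.ce X h (pi w) := by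
  unfold FP.ce
  rw [H.m X w]
  congr 1
  exact H.E (fun v => ind (X v = X (pi w)) * h v)

theorem ne {w : Om} (hw : P.p w ≠ 0) : P'.p (pi w) ≠ 0 := by
  intro h0
  have h1 : P'.m (fun v : Om' => v) (pi w) = 0 := by
    unfold FP.m FP.E
    refine Finset.sum_eq_zero fun v _ => ?_
    show P'.p v * ind (v = pi w) = 0
    by_cases hv : v = pi w
    · rw [hv, h0, zero_mul]
    · rw [ind_not hv, mul_zero]
  have h2 := P.m_pos (fun v => pi v) hw
  rw [H.m (fun v : Om' => v) w, h1] at h2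
  exact lt_irrefl _ h2

/-- the mean of any function given the pull back -/
theorem ce_any {h : Om → ℝ} (h0 : ∀ w, 0 ≤ h w) :
    ∃ h' : Om' → ℝ, (∀ v, 0 ≤ h' v) ∧ (∀ {κ' : Type _} (Y : Om' → κ') (w : Om),
      P.ce (fun v => Y (pi v)) h w = P'.ce Y h' (pi w)) := by
  obtain ⟨h', h2, h3, h4⟩ := exists_pull_nn (X := fun v : Om' => v) (pi := pi) (P.ce_fac pi h)
    (fun w => P.ce_nonneg (fun v _ => h0 v) w)
  refine ⟨h', h4, fun {κ'} Y w => ?_⟩
  have h5 : Fac pi (fun v => Y (pi v)) := fun v w hv => by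
    show Y (pi v) = Y (pi w)
    rw [hv]
  rw [← P.ce_tower h5, ← H.ce Y h' w]
  exact P.ce_congr (fun v _ => h3 v) w

end Pul

namespace PulC

variable {P : FP Om} {P' : FP Om'} {pi : Om → Om'} {PC : FP C} {c : Om → C} (H : PulC P P' pi PC c)

include H

theorem pul : Pul P P' pi where
  E := fun h => by
    rw [H.E (fun v _ => h v)]
    exact P'.E_congr (fun v _ => PC.E_const (h v))

/-- the coins can be forgotten -/
theorem ce {κ ι : Type*} (X : Om' → κ) (Y : C → ι) (h : Om' → ℝ) {w : Om} (hw : P.p w ≠ 0) :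
    P.ce (fun v => (X (pi v), Y (c v))) (fun v => h (pi v)) w = P'.ce X h (pi w) := by
  have key : ∀ g : Om' → ℝ, P.E (fun v => ind ((X (pi v), Y (c v)) = (X (pi w), Y (c w))) * g (pi v)) =
      P'.E (fun v => ind (X v = X (pi w)) * g v) * PC.m Y (c w) := by
    intro g
    rw [H.E (fun v a => ind ((X v, Y a) = (X (pi w), Y (c w))) * g v), ← FP.E_mul_const]
    refine P'.E_congr fun v _ => ?_
    have : ∀ a, ind ((X v, Y a) = (X (pi w), Y (c w))) * g v = (ind (X v = X (pi w)) * g v) * ind (Y a = Y (c w)) := by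
      intro a
      rw [Prod.mk.injEq, ind_and]; ring
    rw [show (fun a => ind ((X v, Y a) = (X (pi w), Y (c w))) * g v) =
      fun a => (ind (X v = X (pi w)) * g v) * ind (Y a = Y (c w)) from funext this, FP.E_smul]
    rfl
  have h1 := key (fun _ => 1)
  have hm := P.m_pos (fun v => (X (pi v), Y (c v))) hw
  have h2 : P.m (fun v => (X (pi v), Y (c v))) w = P'.m X (pi w) * PC.m Y (c w) := by
    unfold FP.m at h1 ⊢
    simpa only [mul_one] using h1
  unfold FP.ce
  rw [key h, h2]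
  rw [h2] at hm
  have h3 : PC.m Y (c w) ≠ 0 := fun h => by rw [h, mul_zero] at hm; exact lt_irrefl _ hm
  have h4 : P'.m X (pi w) ≠ 0 := fun h => by rw [h, zero_mul] at hm; exact lt_irrefl _ hm
  field_simp

end PulC

variable {κ : ℕ → Type*} {α β γ F G U E F' G' U' : Type*}

namespace RD

noncomputable section

/-- the pull back -/
def pull (R : RD Om' κ α β γ F G U) (P : FP Om) (pi : Om → Om') : RD Om κ α β γ F G U where
  P := P
  Q := fun t w => R.Q t (pi w)
  A := fun w => R.A (pi w)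
  B := fun w => R.B (pi w)
  C := fun w => R.C (pi w)
  f := fun t w => R.f t (pi w)
  g := fun t w => R.g t (pi w)
  u := fun t w => R.u t (pi w)
  al := R.al
  be := R.be

end

variable {R : RD Om' κ α β γ F G U} {P : FP Om} {pi : Om → Om'} (H : Pul P R.P pi)

include H

theorem pull_ppo (t : ℕ) (x y z : Om' → Prop) (w : Om) :
    (R.pull P pi).ppo t (fun v => x (pi v)) (fun v => y (pi v)) (fun v => z (pi v)) w ↔ R.ppo t x y z (pi w) := by
  unfold ppo
  have h : ∀ x : Om' → Prop, (R.pull P pi).P.ce ((R.pull P pi).Q t) (fun v => ind (x (pi v))) w =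
      R.P.ce (R.Q t) (fun v => ind (x v)) (pi w) := fun x => H.ce (R.Q t) (fun v => ind (x v)) w
  rw [h, h, h]
  exact Iff.rfl

theorem pull_y (t : ℕ) : (R.pull P pi).y t =
    (fun w => (R.y t).1 (pi w), fun w => (R.y t).2.1 (pi w), fun w => (R.y t).2.2 (pi w)) := by
  induction t with
  | zero => rfl
  | succ t ih =>
    have hb1 : bb (R.pull P pi).f ((R.pull P pi).y t).1 t = fun v => bb R.f (R.y t).1 t (pi v) := by
      rw [ih]; rfl
    have hb2 : bb (R.pull P pi).g ((R.pull P pi).y t).2.1 t = fun v => bb R.g (R.y t).2.1 t (pi v) := by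
      rw [ih]; rfl
    have hb3 : bb (R.pull P pi).u ((R.pull P pi).y t).2.2 t = fun v => bb R.u (R.y t).2.2 t (pi v) := by
      rw [ih]; rfl
    have hB : ∀ (x : Om' → Prop) (w : Om), (R.pull P pi).P.ce ((R.pull P pi).ZB (t + 1)) (fun v => ind (x (pi v))) w =
        R.P.ce (R.ZB (t + 1)) (fun v => ind (x v)) (pi w) := fun x w => H.ce (R.ZB (t + 1)) (fun v => ind (x v)) w
    have hC : ∀ (x : Om' → Prop) (w : Om), (R.pull P pi).P.ce ((R.pull P pi).ZC (t + 1)) (fun v => ind (x (pi v))) w =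
        R.P.ce (R.ZC (t + 1)) (fun v => ind (x v)) (pi w) := fun x w => H.ce (R.ZC (t + 1)) (fun v => ind (x v)) w
    have hbe : (R.pull P pi).be = R.be := rfl
    unfold y
    rw [hb1, hb2, hb3]
    refine Prod.ext (funext fun w => ?_) (Prod.ext (funext fun w => ?_) (funext fun w => ?_))
    · show (_ ∧ _ ∧ _) = (_ ∧ _ ∧ _)
      rw [hbe, hB (fun v => bb R.f (R.y t).1 t v) w, propext (pull_ppo H (t + 1) _ _ _ w)]
    · show (_ ∧ _ ∧ _) = (_ ∧ _ ∧ _)
      rw [hbe, hC (fun v => bb R.g (R.y t).2.1 t v) w, propext (pull_ppo H (t + 1) _ _ _ w)]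
    · show (_ ∧ _) = (_ ∧ _)
      rw [propext (pull_ppo H (t + 1) _ _ _ w)]

theorem pull_yf (t : ℕ) (w : Om) : (R.pull P pi).yf t w ↔ R.yf t (pi w) := by
  unfold yf; rw [pull_y H]

theorem pull_yg (t : ℕ) (w : Om) : (R.pull P pi).yg t w ↔ R.yg t (pi w) := by
  unfold yg; rw [pull_y H]

theorem pull_yu (t : ℕ) (w : Om) : (R.pull P pi).yu t w ↔ R.yu t (pi w) := by
  unfold yu; rw [pull_y H]

theorem pull_bf (t : ℕ) (w : Om) : (R.pull P pi).bf t w ↔ R.bf t (pi w) := by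
  unfold bf; rw [pull_yf H]; exact Iff.rfl

theorem pull_bg (t : ℕ) (w : Om) : (R.pull P pi).bg t w ↔ R.bg t (pi w) := by
  unfold bg; rw [pull_yg H]; exact Iff.rfl

theorem pull_bu (t : ℕ) (w : Om) : (R.pull P pi).bu t w ↔ R.bu t (pi w) := by
  unfold bu; rw [pull_yu H]; exact Iff.rfl

theorem pull_pp (t : ℕ) (w : Om) : (R.pull P pi).pp t w ↔ R.pp t (pi w) := by
  unfold pp
  rw [show (R.pull P pi).bf t = fun v => R.bf t (pi v) from funext fun v => propext (pull_bf H t v),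
    show (R.pull P pi).bg t = fun v => R.bg t (pi v) from funext fun v => propext (pull_bg H t v),
    show (R.pull P pi).bu t = fun v => R.bu t (pi v) from funext fun v => propext (pull_bu H t v)]
  exact pull_ppo H (t + 1) _ _ _ w

theorem pull_pf (t : ℕ) (w : Om) : (R.pull P pi).pf t w ↔ R.pf t (pi w) := by
  unfold pf
  rw [show (fun v => ind ((R.pull P pi).bf t v)) = fun v => ind (R.bf t (pi v)) from
    funext fun v => by rw [propext (pull_bf H t v)]]
  rw [show (R.pull P pi).P.ce ((R.pull P pi).ZB (t + 1)) (fun v => ind (R.bf t (pi v))) w =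
    R.P.ce (R.ZB (t + 1)) (fun v => ind (R.bf t v)) (pi w) from H.ce (R.ZB (t + 1)) (fun v => ind (R.bf t v)) w]
  exact Iff.rfl

theorem pull_pg (t : ℕ) (w : Om) : (R.pull P pi).pg t w ↔ R.pg t (pi w) := by
  unfold pg
  rw [show (fun v => ind ((R.pull P pi).bg t v)) = fun v => ind (R.bg t (pi v)) from
    funext fun v => by rw [propext (pull_bg H t v)]]
  rw [show (R.pull P pi).P.ce ((R.pull P pi).ZC (t + 1)) (fun v => ind (R.bg t (pi v))) w =
    R.P.ce (R.ZC (t + 1)) (fun v => ind (R.bg t v)) (pi w) from H.ce (R.ZC (t + 1)) (fun v => ind (R.bg t v)) w]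
  exact Iff.rfl

theorem pull_utd (t : ℕ) (w : Om) : (R.pull P pi).utd t w ↔ R.utd t (pi w) := by
  unfold utd; rw [pull_yf H, pull_yg H, pull_yu H]

theorem pull_rf (t : ℕ) (w : Om) : (R.pull P pi).rf t w = R.rf t (pi w) := by
  induction t with
  | zero => rfl
  | succ t ih =>
    unfold rf
    by_cases h : R.pp t (pi w) ∨ R.pf t (pi w)
    · rw [if_pos h, if_pos (by rw [pull_pp H, pull_pf H]; exact h)]; rfl
    · rw [if_neg h, if_neg (by rw [pull_pp H, pull_pf H]; exact h), ih]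

theorem pull_rg (t : ℕ) (w : Om) : (R.pull P pi).rg t w = R.rg t (pi w) := by
  induction t with
  | zero => rfl
  | succ t ih =>
    unfold rg
    by_cases h : R.pp t (pi w) ∨ R.pg t (pi w)
    · rw [if_pos h, if_pos (by rw [pull_pp H, pull_pg H]; exact h)]; rfl
    · rw [if_neg h, if_neg (by rw [pull_pp H, pull_pg H]; exact h), ih]

theorem pull_ru (t : ℕ) (w : Om) : (R.pull P pi).ru t w = R.ru t (pi w) := by
  induction t with
  | zero => rfl
  | succ t ih =>
    unfold ru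
    by_cases h : R.pp t (pi w)
    · rw [if_pos h, if_pos (by rw [pull_pp H]; exact h)]; rfl
    · rw [if_neg h, if_neg (by rw [pull_pp H]; exact h), ih]

omit H in
theorem pull_Z (t : ℕ) (w : Om) : (R.pull P pi).Z t w = R.Z t (pi w) := rfl

omit H in
theorem pull_ZB (t : ℕ) (w : Om) : (R.pull P pi).ZB t w = R.ZB t (pi w) := rfl

omit H in
theorem pull_ZC (t : ℕ) (w : Om) : (R.pull P pi).ZC t w = R.ZC t (pi w) := rfl

theorem pull_Vw (t : ℕ) (w : Om) : (R.pull P pi).Vw t w = R.Vw t (pi w) := by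
  unfold Vw Nf Ng Nu
  simp only [pull_rf H, pull_rg H, pull_ru H]
  rfl

/-- THE HYPOTHESES ARE PULLED BACK -/
theorem pull_hyp (h : R.Hyp) : (R.pull P pi).Hyp where
  filt := fun t v w hv => h.filt t (pi v) (pi w) hv
  ff := fun t v w hv => h.ff t (pi v) (pi w) hv
  fg := fun t v w hv => h.fg t (pi v) (pi w) hv
  fu := fun t v w hv => h.fu t (pi v) (pi w) hv
  iB := fun t q hq w hw => by
    obtain ⟨q', h1, h2⟩ := exists_pull (X := fun w => (R.A w, R.C w, R.Q t w)) (pi := pi) hq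
    rw [show q = fun v => q' (pi v) from funext h2]
    exact (H.ce (R.ZB t) q' w).trans ((h.iB t q' h1 (pi w) (H.ne hw)).trans (H.ce (R.Q t) q' w).symm)
  iC := fun t q hq w hw => by
    obtain ⟨q', h1, h2⟩ := exists_pull (X := fun w => (R.A w, R.B w, R.Q t w)) (pi := pi) hq
    rw [show q = fun v => q' (pi v) from funext h2]
    exact (H.ce (R.ZC t) q' w).trans ((h.iC t q' h1 (pi w) (H.ne hw)).trans (H.ce (R.Q t) q' w).symm)
  iBC := fun t q hq w hw => by
    obtain ⟨q', h1, h2⟩ := exists_pull (X := fun w => (R.A w, R.B w, R.Q t w)) (pi := pi) hq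
    rw [show q = fun v => q' (pi v) from funext h2]
    exact (H.ce (R.Z t) q' w).trans ((h.iBC t q' h1 (pi w) (H.ne hw)).trans (H.ce (R.ZB t) q' w).symm)
  iCB := fun t q hq w hw => by
    obtain ⟨q', h1, h2⟩ := exists_pull (X := fun w => (R.A w, R.C w, R.Q t w)) (pi := pi) hq
    rw [show q = fun v => q' (pi v) from funext h2]
    exact (H.ce (R.Z t) q' w).trans ((h.iCB t q' h1 (pi w) (H.ne hw)).trans (H.ce (R.ZC t) q' w).symm)
  dbl := fun t q hq w hw => by
    obtain ⟨q', h1, h2⟩ := H.ce_any hq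
    have e1 : (R.pull P pi).P.ce ((R.pull P pi).Z (t + 1)) q w = R.P.ce (R.Z (t + 1)) q' (pi w) :=
      h2 (R.Z (t + 1)) w
    have e2 : (R.pull P pi).P.ce ((R.pull P pi).Z t) q w = R.P.ce (R.Z t) q' (pi w) := h2 (R.Z t) w
    rw [e1, e2]
    exact h.dbl t q' h1 (pi w) (H.ne hw)
  al0 := h.al0
  be0 := h.be0
  ab := h.ab
  be1 := h.be1

end RD

namespace RT

noncomputable section

/-- the pull back, with more dead points -/
def pull (S : RT Om' κ α β γ F G U E F' G' U') (P : FP Om) (pi : Om → Om') (D0' : ℕ → Om → Prop) :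
    RT Om κ α β γ F G U E F' G' U' where
  toRD := S.toRD.pull P pi
  e := fun t w => S.e t (pi w)
  fp := fun t w => S.fp t (pi w)
  gp := fun t w => S.gp t (pi w)
  up := fun t w => S.up t (pi w)
  K := fun v t w => S.K v t (pi w)
  T := fun t w => S.T t (pi w)
  D0 := D0'
  Lam := S.Lam
  eta := S.eta

end

variable {S : RT Om' κ α β γ F G U E F' G' U'} {P : FP Om} {pi : Om → Om'} (H : Pul P S.P pi)
  (D0' : ℕ → Om → Prop)

include H

theorem pull_rfp (t : ℕ) (w : Om) : (S.pull P pi D0').rfp t w = S.rfp t (pi w) := by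
  induction t with
  | zero => rfl
  | succ t ih =>
    unfold rfp
    by_cases h : S.toRD.pp t (pi w) ∨ S.toRD.pf t (pi w)
    · rw [if_pos h, if_pos (show (S.pull P pi D0').toRD.pp t w ∨ (S.pull P pi D0').toRD.pf t w from by
        rw [show (S.pull P pi D0').toRD = S.toRD.pull P pi from rfl, RD.pull_pp H, RD.pull_pf H]; exact h)]; rfl
    · rw [if_neg h, if_neg (show ¬ ((S.pull P pi D0').toRD.pp t w ∨ (S.pull P pi D0').toRD.pf t w) from by
        rw [show (S.pull P pi D0').toRD = S.toRD.pull P pi from rfl, RD.pull_pp H, RD.pull_pf H]; exact h), ih]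

theorem pull_rgp (t : ℕ) (w : Om) : (S.pull P pi D0').rgp t w = S.rgp t (pi w) := by
  induction t with
  | zero => rfl
  | succ t ih =>
    unfold rgp
    by_cases h : S.toRD.pp t (pi w) ∨ S.toRD.pg t (pi w)
    · rw [if_pos h, if_pos (show (S.pull P pi D0').toRD.pp t w ∨ (S.pull P pi D0').toRD.pg t w from by
        rw [show (S.pull P pi D0').toRD = S.toRD.pull P pi from rfl, RD.pull_pp H, RD.pull_pg H]; exact h)]; rfl
    · rw [if_neg h, if_neg (show ¬ ((S.pull P pi D0').toRD.pp t w ∨ (S.pull P pi D0').toRD.pg t w) from by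
        rw [show (S.pull P pi D0').toRD = S.toRD.pull P pi from rfl, RD.pull_pp H, RD.pull_pg H]; exact h), ih]

theorem pull_rup (t : ℕ) (w : Om) : (S.pull P pi D0').rup t w = S.rup t (pi w) := by
  induction t with
  | zero => rfl
  | succ t ih =>
    unfold rup
    by_cases h : S.toRD.pp t (pi w)
    · rw [if_pos h, if_pos (show (S.pull P pi D0').toRD.pp t w from by
        rw [show (S.pull P pi D0').toRD = S.toRD.pull P pi from rfl, RD.pull_pp H]; exact h)]; rfl
    · rw [if_neg h, if_neg (show ¬ (S.pull P pi D0').toRD.pp t w from by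
        rw [show (S.pull P pi D0').toRD = S.toRD.pull P pi from rfl, RD.pull_pp H]; exact h), ih]

omit H in
theorem pull_vt (t : ℕ) (w : Om) : (S.pull P pi D0').vt t w = S.vt t (pi w) := rfl

theorem pull_vr (t : ℕ) (w : Om) : (S.pull P pi D0').vr t w = S.vr t (pi w) := by
  unfold vr; rw [pull_rfp H, pull_rgp H, pull_rup H]; rfl

omit H in
theorem pull_Xt (t : ℕ) (w : Om) : (S.pull P pi D0').Xt t w = S.Xt t (pi w) := rfl

theorem pull_X (t : ℕ) (w : Om) : (S.pull P pi D0').X t w = S.X t (pi w) := by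
  unfold X; rw [pull_vr H]; rfl

/-- THE HYPOTHESES ARE PULLED BACK -/
theorem pull_hypT (h : S.HypT) (hi : ∀ t w, P.p w ≠ 0 → D0' t w → D0' (t + 1) w)
    (hD : ∀ t w, P.p w ≠ 0 → S.D0 t (pi w) → D0' t w) : (S.pull P pi D0').HypT where
  hyp := RD.pull_hyp H h.hyp
  fe := fun t v w hv => h.fe t (pi v) (pi w) hv
  fpf := fun t v w hv => h.fpf t (pi v) (pi w) hv
  gpf := fun t v w hv => h.gpf t (pi v) (pi w) hv
  upf := fun t v w hv => h.upf t (pi v) (pi w) hv
  cf := fun t w hw hd he => h.cf t (pi w) (H.ne hw) (fun hd' => hd (hD (t + 1) w hw hd')) he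
  cg := fun t w hw hd he => h.cg t (pi w) (H.ne hw) (fun hd' => hd (hD (t + 1) w hw hd')) he
  cu := fun t w hw hd he => h.cu t (pi w) (H.ne hw) (fun hd' => hd (hD (t + 1) w hw hd')) he
  Kf := fun v t x y hv => h.Kf v t (pi x) (pi y) hv
  Ks := fun v t w hw => by
    have h1 := h.Ks v t (pi w) (H.ne hw)
    rw [← H.ce (S.toRD.Z t) (fun z => |S.K v (t + 1) z|) w] at h1
    exact h1
  Kb := fun v t w hw => h.Kb v t (pi w) (H.ne hw)
  D0i := hi
  TX := fun t w hw hd => h.TX t (pi w) (H.ne hw) (fun hd' => hd (hD t w hw hd'))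
  Lam0 := h.Lam0
  eta0 := h.eta0

end RT

/-! ## the model: private coins -/

/-- uniform law of a product -/
theorem pulC_unif {O1 O2 O : Type*} [Fintype O] [Nonempty O] [Fintype O1] [Nonempty O1] [Fintype O2] [Nonempty O2]
    (e : O ≃ O1 × O2) : PulC (FP.unif O) (FP.unif O1) (fun w => (e w).1) (FP.unif O2) (fun w => (e w).2) where
  E := fun F => by
    rw [FP.unif_E, FP.unif_E]
    have h1 : ∀ v, (FP.unif O2).E (F v) = (∑ a, F v a) / (Fintype.card O2 : ℝ) := fun v => FP.unif_E _ _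
    have h2 : ∑ w, F (e w).1 (e w).2 = ∑ v, ∑ a, F v a := by
      rw [← Fintype.sum_prod_type' (f := F)]
      exact Fintype.sum_equiv e _ _ (fun w => rfl)
    rw [Finset.sum_congr rfl (fun v _ => h1 v), ← Finset.sum_div, h2, div_div, Fintype.card_congr e,
      Fintype.card_prod]
    congr 1
    push_cast
    ring

namespace Mod

open Pool.Agent.M3.Bin

variable {k N m : ℕ} {Θ Ξ Ci : Type}

/-- forget the private coins -/
def pic (ω : Sp k N m Θ (Ξ × Ci)) : Sp k N m Θ Ξ := (ω.1, (fun i => ((ω.2.1 i).1.1, (ω.2.1 i).2)), ω.2.2)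

/-- the private coins -/
def coin (ω : Sp k N m Θ (Ξ × Ci)) : Fin m → Ci := fun i => (ω.2.1 i).1.2

/-- both -/
def coinEquiv : Sp k N m Θ (Ξ × Ci) ≃ Sp k N m Θ Ξ × (Fin m → Ci) where
  toFun ω := (pic ω, coin ω)
  invFun q := (q.1.1, (fun i => (((q.1.2.1 i).1, q.2 i), (q.1.2.1 i).2)), q.1.2.2)
  left_inv _ := rfl
  right_inv _ := rfl

theorem vx_pic (i : Fin m) (ω : Sp k N m Θ (Ξ × Ci)) : vx i (pic ω) = ((vx i ω).1.1, (vx i ω).2) := rfl
theorem th_pic (ω : Sp k N m Θ (Ξ × Ci)) : th (pic ω) = th ω := rfl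
theorem nz_pic (ω : Sp k N m Θ (Ξ × Ci)) : nz (pic ω) = nz ω := rfl
theorem ctr_pic (ω : Sp k N m Θ (Ξ × Ci)) : ctr (pic ω) = ctr ω := rfl
theorem Zn_pic (i : Fin m) (e : ℕ) (ω : Sp k N m Θ (Ξ × Ci)) : Zn i e (pic ω) = Zn i e ω := rfl
theorem Yn_pic (e : ℕ) (ω : Sp k N m Θ (Ξ × Ci)) : Yn e (pic ω) = Yn e ω := rfl
theorem Gm_pic (h e : ℕ) (ω : Sp k N m Θ (Ξ × Ci)) : Gm h e (pic ω) = Gm h e ω := rfl
theorem Qn_pic (i : Fin m) (h e : ℕ) (ω : Sp k N m Θ (Ξ × Ci)) : Qn i h e (pic ω) = Qn i h e ω := rfl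
theorem Dg_pic (e : ℕ) (ω : Sp k N m Θ (Ξ × Ci)) : Dg e (pic ω) = Dg e ω := rfl

/-- `Kn` with coins = `Kn` without coins and the coins of the others -/
theorem Kn_to_pic (i : Fin m) (e : ℕ) : Fac (Kn (k := k) (N := N) (Θ := Θ) (P := Ξ × Ci) i e)
    (fun ω => (Kn i e (pic ω), (fun j : {j : Fin m // j ≠ i} => coin ω j.1))) := by
  intro v w hv
  unfold Kn at hv
  simp only [Prod.mk.injEq] at hv
  obtain ⟨h1, h2, h3⟩ := hv
  have h4 : ∀ j : {j : Fin m // j ≠ i}, vx j.1 v = vx j.1 w := fun j => congrFun h3 j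
  refine Prod.ext (Prod.ext h1 (Prod.ext h2 (funext fun j => ?_))) (funext fun j => ?_)
  · show vx j.1 (pic v) = vx j.1 (pic w)
    rw [vx_pic, vx_pic, h4 j]
  · show (vx j.1 v).1.2 = (vx j.1 w).1.2
    rw [h4 j]

theorem Kn_of_pic (i : Fin m) (e : ℕ) : Fac
    (fun ω : Sp k N m Θ (Ξ × Ci) => (Kn i e (pic ω), (fun j : {j : Fin m // j ≠ i} => coin ω j.1))) (Kn i e) := by
  intro v w hv
  simp only [Prod.mk.injEq] at hv
  obtain ⟨h0, h5⟩ := hv
  unfold Kn at h0
  simp only [Prod.mk.injEq] at h0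
  obtain ⟨h1, h2, h3⟩ := h0
  refine Prod.ext h1 (Prod.ext h2 (funext fun j => ?_))
  show vx j.1 v = vx j.1 w
  have h4 : vx j.1 (pic v) = vx j.1 (pic w) := congrFun h3 j
  rw [vx_pic, vx_pic, Prod.mk.injEq] at h4
  have h6 : (vx j.1 v).1.2 = (vx j.1 w).1.2 := congrFun h5 j
  exact Prod.ext (Prod.ext h4.1 h6) h4.2

theorem Yk_to_pic (i : Fin m) (V : Finset (Fin m)) (e s : ℕ) :
    Fac (Yk (k := k) (N := N) (Θ := Θ) (P := Ξ × Ci) i V e s)
      (fun ω => (Yk i V e s (pic ω), (fun j : {j : Fin m // j ∈ V.erase i} => coin ω j.1))) := by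
  intro v w hv
  unfold Yk at hv
  simp only [Prod.mk.injEq] at hv
  obtain ⟨h1, h2, h3, h5⟩ := hv
  have h4 : ∀ j : {j : Fin m // j ∈ V.erase i}, vx j.1 v = vx j.1 w := fun j => congrFun h3 j
  refine Prod.ext (Prod.ext h1 (Prod.ext h2 (Prod.ext (funext fun j => ?_) h5))) (funext fun j => ?_)
  · show vx j.1 (pic v) = vx j.1 (pic w)
    rw [vx_pic, vx_pic, h4 j]
  · show (vx j.1 v).1.2 = (vx j.1 w).1.2
    rw [h4 j]

theorem Yk_of_pic (i : Fin m) (V : Finset (Fin m)) (e s : ℕ) : Fac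
    (fun ω : Sp k N m Θ (Ξ × Ci) => (Yk i V e s (pic ω), (fun j : {j : Fin m // j ∈ V.erase i} => coin ω j.1)))
      (Yk i V e s) := by
  intro v w hv
  simp only [Prod.mk.injEq] at hv
  obtain ⟨h0, h5⟩ := hv
  unfold Yk at h0
  simp only [Prod.mk.injEq] at h0
  obtain ⟨h1, h2, h3, h6⟩ := h0
  refine Prod.ext h1 (Prod.ext h2 (Prod.ext (funext fun j => ?_) h6))
  show vx j.1 v = vx j.1 w
  have h4 : vx j.1 (pic v) = vx j.1 (pic w) := congrFun h3 j
  rw [vx_pic, vx_pic, Prod.mk.injEq] at h4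
  have h7 : (vx j.1 v).1.2 = (vx j.1 w).1.2 := congrFun h5 j
  exact Prod.ext (Prod.ext h4.1 h7) h4.2

variable [Fintype Θ] [Nonempty Θ] [Fintype Ξ] [Nonempty Ξ] [Fintype Ci] [Nonempty Ci]

theorem pulC_pic : PulC (Pm (k := k) (N := N) (m := m) (Θ := Θ) (P := Ξ × Ci)) (Pm (P := Ξ)) pic
    (FP.unif (Fin m → Ci)) coin :=
  pulC_unif (coinEquiv (k := k) (N := N) (m := m) (Θ := Θ) (Ξ := Ξ) (Ci := Ci))

theorem pul_pic : Pul (Pm (k := k) (N := N) (m := m) (Θ := Θ) (P := Ξ × Ci)) (Pm (P := Ξ)) pic := pulC_pic.pul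

/-- the coins of the known vertices do not matter -/
theorem ce_Kn_pic (i : Fin m) (e : ℕ) (q : Sp k N m Θ Ξ → ℝ) (ω : Sp k N m Θ (Ξ × Ci)) :
    Pm.ce (Kn i e) (fun v => q (pic v)) ω = Pm.ce (Kn i e) q (pic ω) := by
  rw [Pm.ce_congr_map (Kn_to_pic i e) (Kn_of_pic i e)]
  exact pulC_pic.ce (Kn i e) (fun a => fun j : {j : Fin m // j ≠ i} => a j.1) q (Pm_ne ω)

theorem ce_Yk_pic (i : Fin m) (V : Finset (Fin m)) (e s : ℕ) (q : Sp k N m Θ Ξ → ℝ) (ω : Sp k N m Θ (Ξ × Ci)) :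
    Pm.ce (Yk i V e s) (fun v => q (pic v)) ω = Pm.ce (Yk i V e s) q (pic ω) := by
  rw [Pm.ce_congr_map (Yk_to_pic i V e s) (Yk_of_pic i V e s)]
  exact pulC_pic.ce (Yk i V e s) (fun a => fun j : {j : Fin m // j ∈ V.erase i} => a j.1) q (Pm_ne ω)

end Mod

end Pool.Agent.M3
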