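import Pool.Agent.M3.FPMart

/-!
# M3.S1Tail: exponential tails of a counter from a bound on the mean of the future (helper27)

`Z n` adapted, increasing, jumps at most `j` (also `Z 0 <= j`); conditionally on every event of the time `n` the mean of
`Z Nm - Z n` is at most `K`.  Then `P(Z Nm >= k (j + 2K)) <= 2^(-k)`.
-/

set_option autoImplicit false
set_option linter.unusedSectionVars false

namespace Pool.Agent.M3

open Finset Pool.Agent.PWZ

noncomputable section

namespace FP

variable {Om : Type*} [Fintype Om] (P : FP Om) {κ : ℕ → Type*} {X : ∀ t, Om → κ t}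

/-- first time at which the counter is at least `c` -/
def fst (Z : ℕ → Om → ℝ) (c : ℝ) (n : ℕ) (w : Om) : Prop := c ≤ Z n w ∧ ∀ m < n, Z m w < c

theorem fst_fac (hX : Filt X) {Z : ℕ → Om → ℝ} (hZ : ∀ t, Fac (X t) (Z t)) (c : ℝ) (n : ℕ) :
    Fac (X n) (fun w => ind (fst Z c n w)) := by
  refine Fac.ind (fun v w hvw => ?_)
  have h : ∀ m ≤ n, Z m v = Z m w := fun m hm => hZ m v w (hX.le hm v w hvw)
  unfold fst
  constructor
  · rintro ⟨h1, h2⟩
    exact ⟨by rw [← h n le_rfl]; exact h1, fun m hm => by rw [← h m hm.le]; exact h2 m hm⟩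
  · rintro ⟨h1, h2⟩
    exact ⟨by rw [h n le_rfl]; exact h1, fun m hm => by rw [h m hm.le]; exact h2 m hm⟩

/-- the event that the level is reached is the disjoint union of the first times -/
theorem ind_fst_sum {Z : ℕ → Om → ℝ} (hmono : ∀ n w, Z n w ≤ Z (n + 1) w) (c : ℝ) (Nm : ℕ) (w : Om) :
    ∑ n ∈ range (Nm + 1), ind (fst Z c n w) = ind (c ≤ Z Nm w) := by
  have hle : ∀ m n, m ≤ n → Z m w ≤ Z n w := by
    intro m n hmn
    induction n, hmn using Nat.le_induction with
    | base => exact le_rfl
    | succ n _ ih => exact ih.trans (hmono n w)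
  induction Nm with
  | zero =>
    rw [zero_add, Finset.sum_range_one]
    refine le_antisymm (ind_mono (fun h => h.1)) (ind_mono (fun h => ⟨h, fun m hm => absurd hm (Nat.not_lt_zero m)⟩))
  | succ k ih =>
    rw [Finset.sum_range_succ, ih]
    by_cases h1 : c ≤ Z k w
    · rw [ind_of h1, ind_of (h1.trans (hmono k w)), ind_not (fun h => ?_), add_zero]
      exact absurd h1 (not_le.2 (h.2 k (Nat.lt_succ_self k)))
    · rw [ind_not h1, zero_add]
      have h2 : ∀ m < k + 1, Z m w < c := fun m hm =>
        lt_of_le_of_lt (hle m k (Nat.lt_succ_iff.1 hm)) (not_le.1 h1)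
      exact le_antisymm (ind_mono (fun h => h.1)) (ind_mono (fun h => ⟨h, h2⟩))

theorem tail_of_future (hX : Filt X) {Z : ℕ → Om → ℝ} (hZ : ∀ t, Fac (X t) (Z t))
    (hmono : ∀ n w, Z n w ≤ Z (n + 1) w) {j K : ℝ} (h0 : ∀ w, Z 0 w ≤ j)
    (hj : ∀ n w, Z (n + 1) w - Z n w ≤ j) (hK : 0 < K) (Nm : ℕ)
    (hfut : ∀ n ≤ Nm, ∀ f : Om → ℝ, Fac (X n) f → (∀ w, 0 ≤ f w) →
      P.E (fun w => f w * (Z Nm w - Z n w)) ≤ K * P.E f) (k : ℕ) :
    P.Pr (fun w => (k : ℝ) * (j + 2 * K) ≤ Z Nm w) ≤ (1 / 2) ^ k := by
  have hmono' : ∀ m n w, m ≤ n → Z m w ≤ Z n w := by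
    intro m n w hmn
    induction n, hmn using Nat.le_induction with
    | base => exact le_rfl
    | succ n _ ih => exact ih.trans (hmono n w)
  induction k with
  | zero => rw [pow_zero]; exact P.Pr_le_one _
  | succ k ih =>
    set c : ℝ := (k : ℝ) * (j + 2 * K) with hc
    have hc' : ((k + 1 : ℕ) : ℝ) * (j + 2 * K) = c + (j + 2 * K) := by push_cast; ring
    rw [hc']
    -- pointwise: at the first time the overshoot is at most `j`
    have hpt : ∀ w, 2 * K * ind (c + (j + 2 * K) ≤ Z Nm w) ≤
        ∑ n ∈ range (Nm + 1), ind (fst Z c n w) * (Z Nm w - Z n w) := by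
      intro w
      by_cases h : c + (j + 2 * K) ≤ Z Nm w
      · rw [ind_of h, mul_one]
        by_cases hreach : c ≤ Z Nm w
        · -- the first time
          have hex : ∃ n, c ≤ Z n w := ⟨Nm, hreach⟩
          classical
          set n0 := Nat.find hex with hn0
          have h1 : c ≤ Z n0 w := Nat.find_spec hex
          have h2 : ∀ m < n0, Z m w < c := fun m hm => not_le.1 (Nat.find_min hex hm)
          have h3 : n0 ≤ Nm := Nat.find_min' hex hreach
          have hf : fst Z c n0 w := ⟨h1, h2⟩
          have h4 : Z n0 w ≤ c + j := by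
            rcases Nat.eq_zero_or_pos n0 with hz | hz
            · rw [hz] at h1 ⊢
              have h5 := h0 w
              -- `c >= 0` or the bound is trivial
              have hj0 : 0 ≤ j := by
                have h6 := hj Nm w
                have h7 := hmono Nm w
                linarith
              have : 0 ≤ c := by
                rw [hc]
                exact mul_nonneg (Nat.cast_nonneg k) (by linarith)
              linarith
            · have h5 := h2 (n0 - 1) (by omega)
              have h6 := hj (n0 - 1) w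
              have h7 : n0 - 1 + 1 = n0 := by omega
              rw [h7] at h6
              linarith
          have h8 : ind (fst Z c n0 w) * (Z Nm w - Z n0 w) ≤
              ∑ n ∈ range (Nm + 1), ind (fst Z c n w) * (Z Nm w - Z n w) := by
            refine Finset.single_le_sum (f := fun n => ind (fst Z c n w) * (Z Nm w - Z n w)) (fun n hn => ?_)
              (Finset.mem_range.2 (by omega))
            refine mul_nonneg (ind_nonneg _) ?_
            have := hmono' n Nm w (by have := Finset.mem_range.1 hn; omega)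
            linarith
          rw [ind_of hf, one_mul] at h8
          linarith
        · exfalso
          have hj0 : 0 ≤ j := by
            have h6 := hj Nm w
            have h7 := hmono Nm w
            linarith
          linarith [not_le.1 hreach]
      · rw [ind_not h, mul_zero]
        refine Finset.sum_nonneg (fun n hn => mul_nonneg (ind_nonneg _) ?_)
        have := hmono' n Nm w (by have := Finset.mem_range.1 hn; omega)
        linarith
    have h1 : 2 * K * P.Pr (fun w => c + (j + 2 * K) ≤ Z Nm w) ≤
        ∑ n ∈ range (Nm + 1), P.E (fun w => ind (fst Z c n w) * (Z Nm w - Z n w)) := by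
      unfold Pr
      rw [← P.E_smul, ← P.E_sum]
      exact P.E_mono (fun w _ => hpt w)
    have h2 : ∑ n ∈ range (Nm + 1), P.E (fun w => ind (fst Z c n w) * (Z Nm w - Z n w)) ≤
        ∑ n ∈ range (Nm + 1), K * P.E (fun w => ind (fst Z c n w)) :=
      Finset.sum_le_sum (fun n hn => hfut n (by have := Finset.mem_range.1 hn; omega) _
        (fst_fac hX hZ c n) (fun w => ind_nonneg _))
    have h3 : ∑ n ∈ range (Nm + 1), K * P.E (fun w => ind (fst Z c n w)) =
        K * P.Pr (fun w => c ≤ Z Nm w) := by
      rw [← Finset.mul_sum, ← P.E_sum]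
      congr 1
      unfold Pr
      exact P.E_congr (fun w _ => ind_fst_sum hmono c Nm w)
    have h4 : 2 * K * P.Pr (fun w => c + (j + 2 * K) ≤ Z Nm w) ≤ K * P.Pr (fun w => c ≤ Z Nm w) := by
      linarith
    have h5 : 2 * P.Pr (fun w => c + (j + 2 * K) ≤ Z Nm w) ≤ P.Pr (fun w => c ≤ Z Nm w) := by
      have : K * (2 * P.Pr (fun w => c + (j + 2 * K) ≤ Z Nm w)) ≤ K * P.Pr (fun w => c ≤ Z Nm w) := by linarith
      exact le_of_mul_le_mul_left this hK
    rw [pow_succ]
    linarith

end FP

end

end Pool.Agent.M3
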