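import Pool.Agent.M3.Step
import Pool.Agent.M3.FPInfo

/-!
# M3.View: single view inequalities for `Phi s x = ((|x| - s)_+)^2` (forms A1, A3, A4, A5 of helper94, note 3382)

* `phi_step1` (A1): `(1+b)/2 Phi (x+g) + (1-b)/2 Phi (x-g) >= (1 - b^2) Phi x`, any `g`;
* `step_loss` (A3): one level with digit `D`, events `e` (births, updates), alive before `a` and after `a'`;
* `step_weight`: the same integrated against a weight `0 <= h <= 1` of the filtration;
* `energy` (A4): first passage;  `cond_energy` (A5): the conditional potential `(E[Phi | K] - rho)_+`.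
All losses carry the factor `s < |x|` at the OLD node.
-/

set_option autoImplicit false
set_option linter.unusedSectionVars false

namespace Pool.Agent.M3

open Finset Pool.Agent.PWZ

/-- (A1) one digit, any increment `g`, any bias `b` -/
theorem phi_step1 {s x g b : ℝ} (hb : |b| ≤ 1) :
    (1 - b ^ 2) * Phi s x ≤ (1 + b) / 2 * Phi s (x + g) + (1 - b) / 2 * Phi s (x - g) := by
  have key : ∀ x g b : ℝ, |b| ≤ 1 → 0 ≤ x → 0 ≤ g →
      (1 - b ^ 2) * Phi s x ≤ (1 + b) / 2 * Phi s (x + g) + (1 - b) / 2 * Phi s (x - g) := by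
    intro x g b hb hx hg0
    have hb' := abs_le.mp hb
    have h1 : 0 ≤ (1 + b) / 2 := by linarith [hb'.1]
    have h2 : 0 ≤ (1 - b) / 2 := by linarith [hb'.2]
    have hp := mul_nonneg h1 (Phi_nonneg s (x + g))
    have hm := mul_nonneg h2 (Phi_nonneg s (x - g))
    by_cases hxr : x ≤ s
    · rw [Phi_eq_zero (x := x) (by rw [abs_of_nonneg hx]; exact hxr)]
      linarith
    · have hxr' : s < x := not_le.mp hxr
      have hy : 0 < x - s := by linarith
      have hPx : Phi s x = (x - s) ^ 2 := by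
        rw [Phi_eq (by rw [abs_of_nonneg hx]; exact hxr'.le), abs_of_nonneg hx]
      rw [hPx]
      rcases lt_or_ge (x - s) g with hg | hg
      · have h6 : (2 * (x - s)) ^ 2 ≤ Phi s (x + g) := by
          refine sq_le_Phi (by linarith) ?_
          have := le_abs_self (x + g)
          linarith
        have h7 := mul_le_mul_of_nonneg_left h6 h1
        have h8 : 0 ≤ (1 + b) * (1 + b) * (x - s) ^ 2 := mul_nonneg (mul_self_nonneg _) (sq_nonneg _)
        have h9 : (1 - b ^ 2) * (x - s) ^ 2 + (1 + b) * (1 + b) * (x - s) ^ 2 =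
          (1 + b) / 2 * (2 * (x - s)) ^ 2 := by ring
        linarith
      · have h6 : (x - s + g) ^ 2 ≤ Phi s (x + g) := by
          refine sq_le_Phi (by linarith) ?_
          have := le_abs_self (x + g)
          linarith
        have h7 : (x - s - g) ^ 2 ≤ Phi s (x - g) := by
          refine sq_le_Phi (by linarith) ?_
          have := le_abs_self (x - g)
          linarith
        have h8 := mul_le_mul_of_nonneg_left h6 h1
        have h9 := mul_le_mul_of_nonneg_left h7 h2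
        have h10 : (1 + b) / 2 * (x - s + g) ^ 2 + (1 - b) / 2 * (x - s - g) ^ 2 =
          (1 - b ^ 2) * (x - s) ^ 2 + (g + b * (x - s)) ^ 2 := by ring
        linarith [sq_nonneg (g + b * (x - s))]
  have key2 : ∀ x g b : ℝ, |b| ≤ 1 → 0 ≤ x →
      (1 - b ^ 2) * Phi s x ≤ (1 + b) / 2 * Phi s (x + g) + (1 - b) / 2 * Phi s (x - g) := by
    intro x g b hb hx
    rcases le_total 0 g with hg | hg
    · exact key x g b hb hx hg
    · have h := key x (-g) (-b) (by rw [abs_neg]; exact hb) hx (by linarith)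
      rw [show x + -g = x - g by ring, show x - -g = x + g by ring] at h
      have e1 : (1 - (-b) ^ 2) = 1 - b ^ 2 := by ring
      rw [e1] at h
      linarith [h]
  rcases le_total 0 x with hx | hx
  · exact key2 x g b hb hx
  · have h := key2 (-x) (-g) b hb (by linarith)
    rw [Phi_neg, show -x + -g = -(x + g) by ring, show -x - -g = -(x - g) by ring, Phi_neg, Phi_neg] at h
    exact h

theorem le_Phi2 {s s2 x : ℝ} (hs : s ≤ s2) (h : s2 ≤ |x|) : (s2 - s) ^ 2 ≤ Phi s x := by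
  rw [Phi_eq (by linarith)]
  exact pow_le_pow_left₀ (by linarith) (by linarith) 2

variable {Om : Type*} [Fintype Om]

namespace FP

variable (P : FP Om)

/-- one digit `D` with conditional mean `ce Y D` -/
theorem ce_phi_step1 {κ : Type*} {Y : Om → κ} {x g D : Om → ℝ} (hx : Fac Y x) (hg : Fac Y g)
    (hD : ∀ w, P.p w ≠ 0 → D w = 1 ∨ D w = -1) (s : ℝ) {w : Om} (hw : P.p w ≠ 0) :
    (1 - P.ce Y D w ^ 2) * Phi s (x w) ≤ P.ce Y (fun v => Phi s (x v + D v * g v)) w := by
  refine (phi_step1 (g := g w) (P.abs_ce_digit Y hD hw)).trans (le_of_eq ?_)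
  have h1 : P.ce Y (fun v => Phi s (x v + D v * g v)) w =
      P.ce Y (fun v => (Phi s (x v + g v) / 2 * (1 + D v) + Phi s (x v - g v) / 2 * (1 - D v))) w := by
    refine P.ce_congr (fun v hv => ?_) w
    rcases hD v hv with h | h
    · rw [h]; simp only [one_mul]; ring
    · rw [h, show x v + -1 * g v = x v - g v by ring]; ring
  have hf1 : Fac Y (fun v => Phi s (x v + g v) / 2) := hx.comp₂ hg (fun a b => Phi s (a + b) / 2)
  have hf2 : Fac Y (fun v => Phi s (x v - g v) / 2) := hx.comp₂ hg (fun a b => Phi s (a - b) / 2)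
  rw [h1, P.ce_add, P.ce_mul hf1, P.ce_mul hf2, P.ce_add, P.ce_sub, P.ce_const _ _ hw]
  ring

/-- pointwise lower bound of the new value -/
private theorem view_pt {s N x y z : ℝ} {a a' e : Prop} (haa : a' → a) (he : ¬ e → z = y)
    (hN : Phi s y ≤ N) :
    ind (a ∧ s < |x|) * Phi s y - N * ind (s < |x| ∧ e ∧ a') - N * ind (a ∧ ¬ a') ≤ ind a' * Phi s z := by
  have hN0 : 0 ≤ N := (Phi_nonneg s y).trans hN
  by_cases hat' : a'
  · have hat : a := haa hat'
    rw [ind_of hat', ind_not (fun h : a ∧ ¬ a' => h.2 hat')]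
    by_cases hx : s < |x|
    · rw [ind_of ⟨hat, hx⟩]
      by_cases hee : e
      · rw [ind_of ⟨hx, hee, hat'⟩]
        linarith [Phi_nonneg s z]
      · rw [ind_not (fun h : s < |x| ∧ e ∧ a' => hee h.2.1), he hee]
        linarith
    · rw [ind_not (fun h : a ∧ s < |x| => hx h.2), ind_not (fun h : s < |x| ∧ e ∧ a' => hx h.1)]
      linarith [Phi_nonneg s z]
  · rw [ind_not hat', ind_not (fun h : s < |x| ∧ e ∧ a' => hat' h.2.2)]
    by_cases hat : a
    · rw [ind_of (⟨hat, hat'⟩ : a ∧ ¬ a')]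
      have h1 := mul_le_mul (ind_le_one (a ∧ s < |x|)) hN (Phi_nonneg s y) zero_le_one
      linarith
    · rw [ind_not (fun h : a ∧ s < |x| => hat h.1), ind_not (fun h : a ∧ ¬ a' => hat h.1)]
      linarith

/-- (A3) ONE LEVEL.  `A` the map of the old node, `x` old value, `g` increment, `D` digit, `x'` new value, `e` the
events after which `x' ≠ x + D g`, `a` alive before, `a'` alive after. -/
theorem step_loss {κ : Type*} {A : Om → κ} {x g D x' : Om → ℝ} {a a' e : Om → Prop} (hx : Fac A x)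
    (hg : Fac A g) (ha : ∀ v w, A v = A w → (a v ↔ a w)) (haa : ∀ w, P.p w ≠ 0 → a' w → a w)
    (hD : ∀ w, P.p w ≠ 0 → D w = 1 ∨ D w = -1) (he : ∀ w, P.p w ≠ 0 → ¬ e w → x' w = x w + D w * g w)
    {s N : ℝ} (hN : ∀ w, P.p w ≠ 0 → Phi s (x w) ≤ N)
    (hN' : ∀ w, P.p w ≠ 0 → Phi s (x w + D w * g w) ≤ N) {w : Om} (hw : P.p w ≠ 0) :
    ind (a w) * Phi s (x w) - N * (ind (a w ∧ s < |x w|) * P.ce A D w ^ 2) -
        N * P.ce A (fun v => ind (s < |x v| ∧ e v ∧ a' v)) w - N * P.ce A (fun v => ind (a v ∧ ¬ a' v)) w ≤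
      P.ce A (fun v => ind (a' v) * Phi s (x' v)) w := by
  have hq : Fac A (fun v => ind (a v ∧ s < |x v|)) := Fac.ind (fun v w h => by rw [ha v w h, hx v w h])
  have h1 : P.ce A (fun v => ind (a v ∧ s < |x v|) * Phi s (x v + D v * g v) -
      N * ind (s < |x v| ∧ e v ∧ a' v) - N * ind (a v ∧ ¬ a' v)) w ≤
      P.ce A (fun v => ind (a' v) * Phi s (x' v)) w :=
    P.ce_mono (fun v hv => view_pt (haa v hv) (he v hv) (hN' v hv)) w
  refine le_trans ?_ h1
  rw [P.ce_sub, P.ce_sub, P.ce_smul, P.ce_smul, P.ce_mul hq]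
  have h2 := P.ce_phi_step1 hx hg hD s hw
  have h3 := mul_le_mul_of_nonneg_left h2 (ind_nonneg (a w ∧ s < |x w|))
  have h4 : ind (a w) * Phi s (x w) - N * (ind (a w ∧ s < |x w|) * P.ce A D w ^ 2) ≤
      ind (a w ∧ s < |x w|) * ((1 - P.ce A D w ^ 2) * Phi s (x w)) := by
    by_cases hat : a w
    · by_cases hsx : s < |x w|
      · rw [ind_of hat, ind_of ⟨hat, hsx⟩]
        have := mul_le_mul_of_nonneg_left (hN w hw) (sq_nonneg (P.ce A D w))
        linarith
      · rw [ind_not (fun h : a w ∧ s < |x w| => hsx h.2), Phi_eq_zero (not_lt.mp hsx)]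
        simp
    · rw [ind_not (fun h : a w ∧ s < |x w| => hat h.1), ind_not hat]
      simp
  linarith

/-- (A3) integrated against a weight of the filtration, `0 <= h <= 1` -/
theorem step_weight {κ : Type*} {A : Om → κ} {x g D x' : Om → ℝ} {a a' e : Om → Prop} (hx : Fac A x)
    (hg : Fac A g) (ha : ∀ v w, A v = A w → (a v ↔ a w)) (haa : ∀ w, P.p w ≠ 0 → a' w → a w)
    (hD : ∀ w, P.p w ≠ 0 → D w = 1 ∨ D w = -1) (he : ∀ w, P.p w ≠ 0 → ¬ e w → x' w = x w + D w * g w)
    {s N : ℝ} (hN : ∀ w, P.p w ≠ 0 → Phi s (x w) ≤ N)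
    (hN' : ∀ w, P.p w ≠ 0 → Phi s (x w + D w * g w) ≤ N) {h : Om → ℝ} (hh : Fac A h)
    (hh0 : ∀ w, P.p w ≠ 0 → 0 ≤ h w) (hh1 : ∀ w, P.p w ≠ 0 → h w ≤ 1) :
    P.E (fun w => h w * (ind (a w) * Phi s (x w))) -
        N * P.E (fun w => h w * (ind (a w ∧ s < |x w|) * P.ce A D w ^ 2)) -
        N * P.E (fun w => h w * ind (s < |x w| ∧ e w ∧ a' w)) - N * P.Pr (fun w => a w ∧ ¬ a' w) ≤
      P.E (fun w => h w * (ind (a' w) * Phi s (x' w))) := by
  rw [← P.E_mul_ce hh (fun v => ind (a' v) * Phi s (x' v)), ← P.E_mul_ce hh (fun w => ind (s < |x w| ∧ e w ∧ a' w))]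
  have h0 : P.Pr (fun w => a w ∧ ¬ a' w) = P.E (P.ce A (fun v => ind (a v ∧ ¬ a' v))) := by
    rw [P.E_ce]; rfl
  rw [h0, ← E_smul, ← E_smul, ← E_smul, ← E_sub, ← E_sub, ← E_sub]
  refine P.E_mono (fun w hw => ?_)
  have h1 := P.step_loss hx hg ha haa hD he hN hN' hw
  have h2 := mul_le_mul_of_nonneg_left h1 (hh0 w hw)
  have h3 : 0 ≤ P.ce A (fun v => ind (a v ∧ ¬ a' v)) w := P.ce_nonneg (fun _ _ => ind_nonneg _) w
  have hN0 : 0 ≤ N := (Phi_nonneg _ _).trans (hN w hw)
  have h4 : 0 ≤ (1 - h w) * (N * P.ce A (fun v => ind (a v ∧ ¬ a' v)) w) :=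
    mul_nonneg (sub_nonneg.mpr (hh1 w hw)) (mul_nonneg hN0 h3)
  linarith

/-- hypotheses of a single view: filtration `A`, values `X`, increments `g`, digits `D`, events `e`, alive `a` -/
structure ViewHyp {κ : ℕ → Type*} (A : ∀ t, Om → κ t) (X g D : ℕ → Om → ℝ) (e a : ℕ → Om → Prop)
    (s N : ℝ) : Prop where
  filt : Filt A
  X_fac : ∀ t, Fac (A t) (X t)
  g_fac : ∀ t, Fac (A t) (g t)
  a_fac : ∀ t v w, A t v = A t w → (a t v ↔ a t w)
  a_anti : ∀ t w, P.p w ≠ 0 → a (t + 1) w → a t w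
  digit : ∀ t w, P.p w ≠ 0 → D t w = 1 ∨ D t w = -1
  step : ∀ t w, P.p w ≠ 0 → ¬ e (t + 1) w → X (t + 1) w = X t w + D t w * g t w
  bd : ∀ t w, P.p w ≠ 0 → Phi s (X t w) ≤ N
  bd' : ∀ t w, P.p w ≠ 0 → Phi s (X t w + D t w * g t w) ≤ N

variable {κ : ℕ → Type*} {A : ∀ t, Om → κ t} {X g D : ℕ → Om → ℝ} {e a : ℕ → Om → Prop} {s N : ℝ}

/-- total mass of the killed points, telescoped -/
theorem sum_killed (haa : ∀ t w, P.p w ≠ 0 → a (t + 1) w → a t w) (n : ℕ) :
    ∑ t ∈ range n, P.Pr (fun w => a t w ∧ ¬ a (t + 1) w) ≤ P.Pr (fun w => ¬ a n w) := by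
  unfold Pr
  rw [← E_sum]
  refine P.E_mono (fun w hw => ?_)
  have h1 : ∀ t ∈ range n, ind (a t w ∧ ¬ a (t + 1) w) = ind (a t w) - ind (a (t + 1) w) := by
    intro t _
    by_cases h : a (t + 1) w
    · rw [ind_of h, ind_of (haa t w hw h), ind_not (fun h' : a t w ∧ ¬ a (t + 1) w => h'.2 h)]; ring
    · by_cases h' : a t w
      · rw [ind_of h', ind_not h, ind_of ⟨h', h⟩]; ring
      · rw [ind_not h', ind_not h, ind_not (fun h'' : a t w ∧ ¬ a (t + 1) w => h' h''.1)]; ring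
  rw [Finset.sum_congr rfl h1, Finset.sum_range_sub', ind_not_eq]
  have := ind_le_one (a 0 w)
  linarith

/-- (A4) ENERGY, first passage -/
theorem energy (H : P.ViewHyp A X g D e a s N) {s2 : ℝ} (hs : s ≤ s2) (n : ℕ) :
    (s2 - s) ^ 2 * P.Pr (fun w => ∃ t ≤ n, a t w ∧ s2 ≤ |X t w|) ≤
      P.E (fun w => ind (a n w) * Phi s (X n w)) +
      N * ∑ t ∈ range n, (P.E (fun w => ind (a t w ∧ s < |X t w|) * P.ce (A t) (D t) w ^ 2) +
        P.Pr (fun w => s < |X t w| ∧ e (t + 1) w ∧ a (t + 1) w)) +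
      N * P.Pr (fun w => ¬ a n w) := by
  set V : ℕ → Om → ℝ := fun t w => ind (a t w) * Phi s (X t w) with hVdef
  set T : ℕ → Om → Prop := fun t w => a t w ∧ s2 ≤ |X t w| with hTdef
  have hN0 : 0 ≤ N := by
    obtain ⟨w, hw⟩ := P.exists_p_ne
    exact (Phi_nonneg _ _).trans (H.bd 0 w hw)
  have hVT : ∀ w, ∀ t ≤ n, T t w → (s2 - s) ^ 2 ≤ V t w := by
    intro w t _ h
    simp only [hTdef] at h
    simp only [hVdef]
    rw [ind_of h.1, one_mul]
    exact le_Phi2 hs h.2
  have hS : ∀ t, Fac (A t) (fun w => ind (∃ u ≤ t, T u w)) := by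
    intro t
    refine Fac.ind (fun v w h => exists_congr (fun u => and_congr_right (fun hu => ?_)))
    simp only [hTdef]
    rw [H.a_fac u v w (H.filt.le hu v w h), H.X_fac u v w (H.filt.le hu v w h)]
  have h1 : (s2 - s) ^ 2 * P.Pr (fun w => ∃ t ≤ n, T t w) +
      P.E (fun w => ∑ t ∈ range n, ind (∃ u ≤ t, T u w) * (V (t + 1) w - V t w)) ≤ P.E (V n) := by
    unfold Pr
    rw [← E_smul, ← E_add]
    refine P.E_mono (fun w hw => ?_)
    refine (stop_tel (hVT w)).trans ?_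
    have h0 : 0 ≤ V n w := mul_nonneg (ind_nonneg _) (Phi_nonneg _ _)
    have := mul_le_mul_of_nonneg_right (ind_le_one (∃ t ≤ n, T t w)) h0
    linarith
  have h2 : ∀ t ∈ range n, - (N * (P.E (fun w => ind (a t w ∧ s < |X t w|) * P.ce (A t) (D t) w ^ 2) +
        P.Pr (fun w => s < |X t w| ∧ e (t + 1) w ∧ a (t + 1) w)) +
        N * P.Pr (fun w => a t w ∧ ¬ a (t + 1) w)) ≤
      P.E (fun w => ind (∃ u ≤ t, T u w) * (V (t + 1) w - V t w)) := by
    intro t _
    have h3 := P.step_weight (H.X_fac t) (H.g_fac t) (H.a_fac t) (H.a_anti t) (H.digit t) (H.step t)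
      (H.bd t) (H.bd' t) (hS t) (fun w _ => ind_nonneg _) (fun w _ => ind_le_one _)
    have h9 : P.E (fun w => ind (∃ u ≤ t, T u w) * (V (t + 1) w - V t w)) =
        P.E (fun w => ind (∃ u ≤ t, T u w) * V (t + 1) w) - P.E (fun w => ind (∃ u ≤ t, T u w) * V t w) := by
      rw [← E_sub]; exact P.E_congr (fun w _ => by ring)
    have h4 : P.E (fun w => ind (∃ u ≤ t, T u w) * (ind (a t w ∧ s < |X t w|) * P.ce (A t) (D t) w ^ 2)) ≤
        P.E (fun w => ind (a t w ∧ s < |X t w|) * P.ce (A t) (D t) w ^ 2) := by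
      refine P.E_mono (fun w _ => ?_)
      have := mul_le_mul_of_nonneg_right (ind_le_one (∃ u ≤ t, T u w))
        (mul_nonneg (ind_nonneg (a t w ∧ s < |X t w|)) (sq_nonneg (P.ce (A t) (D t) w)))
      linarith
    have h5 : P.E (fun w => ind (∃ u ≤ t, T u w) * ind (s < |X t w| ∧ e (t + 1) w ∧ a (t + 1) w)) ≤
        P.Pr (fun w => s < |X t w| ∧ e (t + 1) w ∧ a (t + 1) w) := by
      unfold Pr
      refine P.E_mono (fun w _ => ?_)
      have := mul_le_mul_of_nonneg_right (ind_le_one (∃ u ≤ t, T u w))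
        (ind_nonneg (s < |X t w| ∧ e (t + 1) w ∧ a (t + 1) w))
      linarith
    have h6 := mul_le_mul_of_nonneg_left h4 hN0
    have h7 := mul_le_mul_of_nonneg_left h5 hN0
    rw [h9]
    simp only [hVdef]
    linarith
  have h10 := Finset.sum_le_sum h2
  rw [← E_sum] at h10
  rw [Finset.sum_neg_distrib, Finset.sum_add_distrib, ← Finset.mul_sum, ← Finset.mul_sum] at h10
  have h11 := mul_le_mul_of_nonneg_left (P.sum_killed H.a_anti n) hN0
  linarith

/-- (A5) CONDITIONAL ENERGY.  `K` a coarser filtration, `pi t = E[alive Phi (X t) | K t]`: the probability that `pi`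
ever reaches `2 rho`. Only the losses at levels with `pi t > rho` are paid. -/
theorem cond_energy (H : P.ViewHyp A X g D e a s N) {ι : ℕ → Type*} {K : ∀ t, Om → ι t} (hK : Filt K)
    (hKA : ∀ t, Fac (A t) (K t)) {ρ : ℝ} (hρ : 0 ≤ ρ) (n : ℕ) :
    ρ * P.Pr (fun w => ∃ t ≤ n, 2 * ρ ≤ P.ce (K t) (fun v => ind (a t v) * Phi s (X t v)) w) ≤
      P.E (fun w => ind (a n w) * Phi s (X n w)) +
      N * ∑ t ∈ range n,
        (P.E (fun w => ind (ρ < P.ce (K t) (fun v => ind (a t v) * Phi s (X t v)) w) *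
          (ind (a t w ∧ s < |X t w|) * P.ce (A t) (D t) w ^ 2)) +
        P.E (fun w => ind (ρ < P.ce (K t) (fun v => ind (a t v) * Phi s (X t v)) w) *
          ind (s < |X t w| ∧ e (t + 1) w ∧ a (t + 1) w))) +
      N * P.Pr (fun w => ¬ a n w) := by
  set V : ℕ → Om → ℝ := fun t w => ind (a t w) * Phi s (X t w) with hVdef
  set π : ℕ → Om → ℝ := fun t => P.ce (K t) (V t) with hπdef
  set U : ℕ → Om → ℝ := fun t w => max (π t w - ρ) 0 with hUdef
  set T : ℕ → Om → Prop := fun t w => 2 * ρ ≤ π t w with hTdef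
  have hN0 : 0 ≤ N := by
    obtain ⟨w, hw⟩ := P.exists_p_ne
    exact (Phi_nonneg _ _).trans (H.bd 0 w hw)
  have hV0 : ∀ t w, 0 ≤ V t w := fun t w => mul_nonneg (ind_nonneg _) (Phi_nonneg _ _)
  have hπ0 : ∀ t w, 0 ≤ π t w := fun t w => P.ce_nonneg (fun v _ => hV0 t v) w
  have hπF : ∀ t, Fac (K t) (π t) := fun t => P.ce_fac _ _
  have hUT : ∀ w, ∀ t ≤ n, T t w → ρ ≤ U t w := by
    intro w t _ h
    simp only [hTdef] at h
    simp only [hUdef]
    exact le_trans (by linarith) (le_max_left _ _)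
  have hS : ∀ t, Fac (K t) (fun w => ind (∃ u ≤ t, T u w)) := by
    intro t
    refine Fac.ind (fun v w h => exists_congr (fun u => and_congr_right (fun hu => ?_)))
    simp only [hTdef]
    rw [hπF u v w (hK.le hu v w h)]
  have hW : ∀ t, Fac (K t) (fun w => ind (ρ < π t w)) := fun t =>
    Fac.ind (fun v w h => by rw [hπF t v w h])
  have h1 : ρ * P.Pr (fun w => ∃ t ≤ n, T t w) +
      P.E (fun w => ∑ t ∈ range n, ind (∃ u ≤ t, T u w) * (U (t + 1) w - U t w)) ≤ P.E (V n) := by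
    have h0 : P.E (V n) = P.E (π n) := (P.E_ce _ _).symm
    rw [h0]
    unfold Pr
    rw [← E_smul, ← E_add]
    refine P.E_mono (fun w hw => ?_)
    refine (stop_tel (hUT w)).trans ?_
    have h3 : 0 ≤ U n w := le_max_right _ _
    have h4 : U n w ≤ π n w := max_le (by linarith) (hπ0 n w)
    have := mul_le_mul_of_nonneg_right (ind_le_one (∃ t ≤ n, T t w)) h3
    linarith
  have h2 : ∀ t ∈ range n, - (N * (P.E (fun w => ind (ρ < π t w) *
          (ind (a t w ∧ s < |X t w|) * P.ce (A t) (D t) w ^ 2)) +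
        P.E (fun w => ind (ρ < π t w) * ind (s < |X t w| ∧ e (t + 1) w ∧ a (t + 1) w))) +
        N * P.Pr (fun w => a t w ∧ ¬ a (t + 1) w)) ≤
      P.E (fun w => ind (∃ u ≤ t, T u w) * (U (t + 1) w - U t w)) := by
    intro t _
    set h : Om → ℝ := fun w => ind (∃ u ≤ t, T u w) * ind (ρ < π t w) with hhdef
    have hhK : Fac (K t) h := Fac.mul (hS t) (hW t)
    have hhA : Fac (A t) h := (hKA t).trans hhK
    have hh0 : ∀ w, P.p w ≠ 0 → 0 ≤ h w := fun w _ => mul_nonneg (ind_nonneg _) (ind_nonneg _)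
    have hhw : ∀ w, h w ≤ ind (ρ < π t w) := by
      intro w
      have := mul_le_mul_of_nonneg_right (ind_le_one (∃ u ≤ t, T u w)) (ind_nonneg (ρ < π t w))
      linarith
    have h3 := P.step_weight (H.X_fac t) (H.g_fac t) (H.a_fac t) (H.a_anti t) (H.digit t) (H.step t)
      (H.bd t) (H.bd' t) hhA hh0 (fun w _ => (hhw w).trans (ind_le_one _))
    -- the subgradient
    have h4 : P.E (fun w => h w * (π (t + 1) w - π t w)) ≤
        P.E (fun w => ind (∃ u ≤ t, T u w) * (U (t + 1) w - U t w)) := by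
      refine P.E_mono (fun w _ => ?_)
      simp only [hhdef, hUdef]
      rw [mul_assoc]
      refine mul_le_mul_of_nonneg_left ?_ (ind_nonneg _)
      by_cases hp : ρ < π t w
      · rw [ind_of hp, one_mul, max_eq_left (by linarith : 0 ≤ π t w - ρ)]
        have := le_max_left (π (t + 1) w - ρ) 0
        linarith
      · rw [ind_not hp, zero_mul, max_eq_right (by linarith [not_lt.mp hp] : π t w - ρ ≤ 0), sub_zero]
        exact le_max_right _ _
    have h5 : P.E (fun w => h w * (π (t + 1) w - π t w)) =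
        P.E (fun w => h w * V (t + 1) w) - P.E (fun w => h w * V t w) := by
      have e1 : P.E (fun w => h w * (π (t + 1) w - π t w)) =
          P.E (fun w => h w * π (t + 1) w) - P.E (fun w => h w * π t w) := by
        rw [← E_sub]; exact P.E_congr (fun w _ => by ring)
      rw [e1, P.E_mul_ce ((hK t).trans hhK) (V (t + 1)), P.E_mul_ce hhK (V t)]
    have h6 : P.E (fun w => h w * (ind (a t w ∧ s < |X t w|) * P.ce (A t) (D t) w ^ 2)) ≤
        P.E (fun w => ind (ρ < π t w) * (ind (a t w ∧ s < |X t w|) * P.ce (A t) (D t) w ^ 2)) :=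
      P.E_mono (fun w _ => mul_le_mul_of_nonneg_right (hhw w)
        (mul_nonneg (ind_nonneg _) (sq_nonneg _)))
    have h7 : P.E (fun w => h w * ind (s < |X t w| ∧ e (t + 1) w ∧ a (t + 1) w)) ≤
        P.E (fun w => ind (ρ < π t w) * ind (s < |X t w| ∧ e (t + 1) w ∧ a (t + 1) w)) :=
      P.E_mono (fun w _ => mul_le_mul_of_nonneg_right (hhw w) (ind_nonneg _))
    have h8 := mul_le_mul_of_nonneg_left h6 hN0
    have h9 := mul_le_mul_of_nonneg_left h7 hN0
    have h12 : P.E (fun w => h w * (ind (a t w) * Phi s (X t w))) = P.E (fun w => h w * V t w) := rfl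
    have h13 : P.E (fun w => h w * (ind (a (t + 1) w) * Phi s (X (t + 1) w))) =
      P.E (fun w => h w * V (t + 1) w) := rfl
    rw [h12, h13] at h3
    linarith
  have h10 := Finset.sum_le_sum h2
  rw [← E_sum] at h10
  rw [Finset.sum_neg_distrib, Finset.sum_add_distrib, ← Finset.mul_sum, ← Finset.mul_sum] at h10
  have h11 := mul_le_mul_of_nonneg_left (P.sum_killed H.a_anti n) hN0
  linarith

end FP

end Pool.Agent.M3
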