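import Pool.Agent.M3.Hot
import Pool.Agent.M3.View

/-!
# M3.Prop1: Proposition 1 of note 3382 in one statement (one view, pair known)

`K t` = the pair and the path (filtration), `A t` finer (also the labels of the hidden vertex), named process
`ViewHyp A X g D e a s N` with `a t` = alive in the sense of majority stopping (`Al`, share 1/2 of the dead points `Dd`),
`s < |X t|` and not dead implies `S t` (say `|T t| >= r`).  Faces `i ∈ I` through the hidden vertex (or the hidden vertex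
alone): `Y0 i t` what is known of the vertex of the pair (coarser than `K t`), with the test `P(S t | Y0 i t) <= θ`;
`Z i t` what the losses of the face `i` may depend on, with `E[f | Z i t] <= C E[f | Y0 i t]` for functions `f >= 0` of
the pair.  Biases: `(E[D t | A t])^2 <= b0 t + sum_i b i t`, events: `1_(e (t+1)) <= sum_i c i t` (both only where
`s < |X t|` and alive).
-/

set_option autoImplicit false
set_option linter.unusedSectionVars false

namespace Pool.Agent.M3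

open Finset Pool.Agent.PWZ

variable {Om : Type*} [Fintype Om]

namespace FP

variable (P : FP Om) {κ ι : ℕ → Type*} {K : ∀ t, Om → κ t} {A : ∀ t, Om → ι t}
  {X g D : ℕ → Om → ℝ} {e Dd : ℕ → Om → Prop} {s N : ℝ}

/-- alive semi points, given a coarser map: at most twice the test -/
theorem semi_ce (H : P.ViewHyp A X g D e (P.Al A Dd (1 / 2)) s N) {S : ℕ → Om → Prop}
    (hXS : ∀ t w, P.p w ≠ 0 → s < |X t w| → ¬ Dd t w → S t w) {t : ℕ} {υ : Type*} {Y : Om → υ}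
    (hY : Fac (A t) Y) {θ : ℝ} {w : Om} (hθ : P.ce Y (fun v => ind (S t v)) w ≤ θ) :
    P.ce Y (fun v => ind (P.Al A Dd (1 / 2) t v) * Phi s (X t v)) w ≤ 2 * N * θ := by
  have hN0 : 0 ≤ N := by
    obtain ⟨w, hw⟩ := P.exists_p_ne
    exact (Phi_nonneg _ _).trans (H.bd 0 w hw)
  have h1 : P.ce Y (fun v => ind (P.Al A Dd (1 / 2) t v) * Phi s (X t v)) w ≤
      N * P.ce Y (fun v => ind (s < |X t v| ∧ P.Al A Dd (1 / 2) t v)) w := by
    rw [← P.ce_smul]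
    refine P.ce_mono (fun v hv => ?_) w
    by_cases ha : P.Al A Dd (1 / 2) t v
    · by_cases hx : s < |X t v|
      · rw [ind_of ha, ind_of (⟨hx, ha⟩ : s < |X t v| ∧ P.Al A Dd (1 / 2) t v), one_mul, mul_one]
        exact H.bd t v hv
      · rw [Phi_eq_zero (not_lt.mp hx), mul_zero]
        exact mul_nonneg hN0 (ind_nonneg _)
    · rw [ind_not ha, zero_mul]
      exact mul_nonneg hN0 (ind_nonneg _)
  have h2 := P.maj_ce (c := 1 / 2) H.filt hY (S := fun v => s < |X t v|) (S' := S t)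
    (fun v w h => by rw [H.X_fac t v w h]) (fun v hv h h' => hXS t v hv h h') w
  have h3 : P.ce Y (fun v => ind (S t v ∧ ¬ Dd t v)) w ≤ θ :=
    (P.ce_mono (fun v _ => ind_mono (fun h => h.1)) w).trans hθ
  have h4 : P.ce Y (fun v => ind (s < |X t v| ∧ P.Al A Dd (1 / 2) t v)) w ≤ 2 * θ := by linarith
  calc _ ≤ N * P.ce Y (fun v => ind (s < |X t v| ∧ P.Al A Dd (1 / 2) t v)) w := h1
    _ ≤ N * (2 * θ) := mul_le_mul_of_nonneg_left h4 hN0
    _ = 2 * N * θ := by ring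

/-- the same for the mean -/
theorem semi_E (H : P.ViewHyp A X g D e (P.Al A Dd (1 / 2)) s N) {S : ℕ → Om → Prop}
    (hXS : ∀ t w, P.p w ≠ 0 → s < |X t w| → ¬ Dd t w → S t w) {t : ℕ} {θ : ℝ} (hθ : P.Pr (S t) ≤ θ) :
    P.E (fun v => ind (P.Al A Dd (1 / 2) t v) * Phi s (X t v)) ≤ 2 * N * θ := by
  obtain ⟨w, hw⟩ := P.exists_p_ne
  have e : ∀ f : Om → ℝ, P.ce (fun _ : Om => ()) f w = P.E f := by
    intro f
    unfold ce m
    simp only [ind_of, one_mul, E_const, div_one]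
  have h := P.semi_ce H hXS (t := t) (Y := fun _ : Om => ()) (fun _ _ _ => rfl) (θ := θ) (w := w)
    (by rw [e]; exact hθ)
  rwa [e] at h

/-- a function of `A t` on alive points: at most twice its mean on points which are not dead -/
theorem alive_E (hA : Filt A) {t : ℕ} {f : Om → ℝ} (hf : Fac (A t) f) (hf0 : ∀ w, P.p w ≠ 0 → 0 ≤ f w) :
    P.E (fun w => ind (P.Al A Dd (1 / 2) t w) * f w) ≤ 2 * P.E (fun w => ind (¬ Dd t w) * f w) := by
  have h := P.maj_E (c := 1 / 2) hA (t := t) (D := Dd) (S := fun _ => True) (S' := fun _ => True)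
    (fun _ _ _ => Iff.rfl) (fun _ _ _ _ => trivial) hf hf0
  simp only [true_and] at h
  linarith

/-- PROPOSITION 1 -/
theorem prop1 (H : P.ViewHyp A X g D e (P.Al A Dd (1 / 2)) s N) (hK : Filt K) (hKA : ∀ t, Fac (A t) (K t))
    (hDd : ∀ t w, P.p w ≠ 0 → Dd t w → Dd (t + 1) w) {S : ℕ → Om → Prop}
    (hXS : ∀ t w, P.p w ≠ 0 → s < |X t w| → ¬ Dd t w → S t w) (n : ℕ) {θ : ℝ} (hθn : P.Pr (S n) ≤ θ)
    {α : Type*} (I : Finset α) {υ ζ : α → ℕ → Type*} (Y0 : ∀ i t, Om → υ i t) (Z : ∀ i t, Om → ζ i t)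
    (hY0 : ∀ i ∈ I, ∀ t < n, Fac (K t) (Y0 i t))
    (hθ : ∀ i ∈ I, ∀ t < n, ∀ w, P.p w ≠ 0 → P.ce (Y0 i t) (fun v => ind (S t v)) w ≤ θ) {C : ℝ} (hC : 0 ≤ C)
    (hZ : ∀ i ∈ I, ∀ t < n, ∀ f : Om → ℝ, (∀ w, 0 ≤ f w) → Fac (K t) f →
      ∀ w, P.p w ≠ 0 → P.ce (Z i t) f w ≤ C * P.ce (Y0 i t) f w)
    {b c : α → ℕ → Om → ℝ} {b0 : ℕ → Om → ℝ} (hb : ∀ i ∈ I, ∀ t < n, Fac (Z i t) (b i t))
    (hc : ∀ i ∈ I, ∀ t < n, Fac (Z i t) (c i t)) (hb0 : ∀ t < n, Fac (A t) (b0 t))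
    (hbn : ∀ i ∈ I, ∀ t < n, ∀ w, P.p w ≠ 0 → 0 ≤ b i t w) (hcn : ∀ i ∈ I, ∀ t < n, ∀ w, P.p w ≠ 0 → 0 ≤ c i t w)
    (hb0n : ∀ t < n, ∀ w, P.p w ≠ 0 → 0 ≤ b0 t w)
    (hβ : ∀ t < n, ∀ w, P.p w ≠ 0 → s < |X t w| → P.Al A Dd (1 / 2) t w →
      P.ce (A t) (D t) w ^ 2 ≤ b0 t w + ∑ i ∈ I, b i t w)
    (he : ∀ t < n, ∀ w, P.p w ≠ 0 → s < |X t w| → P.Al A Dd (1 / 2) (t + 1) w →
      ind (e (t + 1) w) ≤ ∑ i ∈ I, c i t w) {ρ : ℝ} (hρ : 0 < ρ) :
    ρ * P.Pr (fun w => ∃ t ≤ n,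
        2 * ρ ≤ P.ce (K t) (fun v => ind (P.Al A Dd (1 / 2) t v) * Phi s (X t v)) w) ≤
      2 * N * θ + 2 * N * ∑ t ∈ range n, P.E (fun w => ind (¬ Dd t w) * b0 t w) +
      2 * C * N ^ 2 * θ / ρ * ∑ i ∈ I, ∑ t ∈ range n, (P.E (b i t) + P.E (c i t)) + 2 * N * P.Pr (Dd n) := by
  have hN0 : 0 ≤ N := by
    obtain ⟨w, hw⟩ := P.exists_p_ne
    exact (Phi_nonneg _ _).trans (H.bd 0 w hw)
  have h0 := P.cond_energy H hK hKA hρ.le n
  set V : ℕ → Om → ℝ := fun t w => ind (P.Al A Dd (1 / 2) t w) * Phi s (X t w) with hV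
  have hV0 : ∀ t w, P.p w ≠ 0 → 0 ≤ V t w := fun t w _ => mul_nonneg (ind_nonneg _) (Phi_nonneg _ _)
  set W : ℕ → Om → ℝ := fun t w => ind (ρ < P.ce (K t) (V t) w) with hW
  have hW0 : ∀ t w, 0 ≤ W t w := fun t w => ind_nonneg _
  have hW1 : ∀ t w, W t w ≤ 1 := fun t w => ind_le_one _
  have hWK : ∀ t, Fac (K t) (W t) := fun t => Fac.ind (fun v w h => by rw [P.ce_fac (K t) (V t) v w h])
  -- sparsity
  have hsp : ∀ i ∈ I, ∀ t < n, ∀ w, P.p w ≠ 0 → P.ce (Z i t) (W t) w ≤ C * (2 * N * θ / ρ) := by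
    intro i hi t ht w hw
    refine (hZ i hi t ht (W t) (hW0 t) (hWK t) w hw).trans (mul_le_mul_of_nonneg_left ?_ hC)
    have h1 := P.semi_ce H hXS (t := t) ((hKA t).trans (hY0 i hi t ht)) (hθ i hi t ht w hw)
    have h2 := P.hot_sparse (Y := K) (V := V) (t := t) (ρ := ρ) (hY0 i hi t ht) hV0 h1
    rw [le_div_iff₀ hρ, mul_comm]
    exact h2
  have hend : P.E (V n) ≤ 2 * N * θ := P.semi_E H hXS hθn
  have hkill : P.Pr (fun w => ¬ P.Al A Dd (1 / 2) n w) ≤ 2 * P.Pr (Dd n) := by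
    have := P.al_death H.filt hDd n (1 / 2)
    linarith
  -- one level
  have hlev : ∀ t ∈ range n,
      P.E (fun w => W t w * (ind (P.Al A Dd (1 / 2) t w ∧ s < |X t w|) * P.ce (A t) (D t) w ^ 2)) +
        P.E (fun w => W t w * ind (s < |X t w| ∧ e (t + 1) w ∧ P.Al A Dd (1 / 2) (t + 1) w)) ≤
      2 * P.E (fun w => ind (¬ Dd t w) * b0 t w) +
        ∑ i ∈ I, C * (2 * N * θ / ρ) * (P.E (b i t) + P.E (c i t)) := by
    intro t htr
    have ht : t < n := Finset.mem_range.mp htr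
    have h1 : P.E (fun w => W t w * (ind (P.Al A Dd (1 / 2) t w ∧ s < |X t w|) * P.ce (A t) (D t) w ^ 2)) ≤
        P.E (fun w => ind (P.Al A Dd (1 / 2) t w) * b0 t w + ∑ i ∈ I, W t w * b i t w) := by
      refine P.E_mono (fun w hw => ?_)
      have h3 : 0 ≤ ∑ i ∈ I, b i t w := Finset.sum_nonneg (fun i hi => hbn i hi t ht w hw)
      have h4 := hb0n t ht w hw
      rw [← Finset.mul_sum]
      by_cases ha : P.Al A Dd (1 / 2) t w
      · rw [ind_of ha, one_mul]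
        have h5 : ind (P.Al A Dd (1 / 2) t w ∧ s < |X t w|) * P.ce (A t) (D t) w ^ 2 ≤
            b0 t w + ∑ i ∈ I, b i t w := by
          by_cases hx : s < |X t w|
          · exact (mul_le_of_le_one_left (sq_nonneg _) (ind_le_one _)).trans (hβ t ht w hw hx ha)
          · rw [ind_not (fun h : P.Al A Dd (1 / 2) t w ∧ s < |X t w| => hx h.2), zero_mul]
            exact add_nonneg h4 h3
        have h6 := mul_le_mul_of_nonneg_left h5 (hW0 t w)
        have h7 := mul_le_of_le_one_left h4 (hW1 t w)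
        rw [mul_add] at h6
        linarith
      · rw [ind_not (fun h : P.Al A Dd (1 / 2) t w ∧ s < |X t w| => ha h.1), ind_not ha, zero_mul, zero_mul,
          mul_zero, zero_add]
        exact mul_nonneg (hW0 t w) h3
    have h2 : P.E (fun w => W t w * ind (s < |X t w| ∧ e (t + 1) w ∧ P.Al A Dd (1 / 2) (t + 1) w)) ≤
        P.E (fun w => ∑ i ∈ I, W t w * c i t w) := by
      refine P.E_mono (fun w hw => ?_)
      rw [← Finset.mul_sum]
      refine mul_le_mul_of_nonneg_left ?_ (hW0 t w)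
      by_cases hq : s < |X t w| ∧ e (t + 1) w ∧ P.Al A Dd (1 / 2) (t + 1) w
      · exact (ind_mono (fun h => h.2.1)).trans (he t ht w hw hq.1 hq.2.2)
      · rw [ind_not hq]
        exact Finset.sum_nonneg (fun i hi => hcn i hi t ht w hw)
    rw [P.E_add, P.E_sum] at h1
    rw [P.E_sum] at h2
    have h3 := P.alive_E (Dd := Dd) H.filt (hb0 t ht) (hb0n t ht)
    have h4 : ∑ i ∈ I, P.E (fun w => W t w * b i t w) ≤ ∑ i ∈ I, C * (2 * N * θ / ρ) * P.E (b i t) :=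
      Finset.sum_le_sum (fun i hi => P.E_mul_le_of_ce (hb i hi t ht) (hbn i hi t ht) (hsp i hi t ht))
    have h5 : ∑ i ∈ I, P.E (fun w => W t w * c i t w) ≤ ∑ i ∈ I, C * (2 * N * θ / ρ) * P.E (c i t) :=
      Finset.sum_le_sum (fun i hi => P.E_mul_le_of_ce (hc i hi t ht) (hcn i hi t ht) (hsp i hi t ht))
    have h6 : ∑ i ∈ I, C * (2 * N * θ / ρ) * (P.E (b i t) + P.E (c i t)) =
        ∑ i ∈ I, C * (2 * N * θ / ρ) * P.E (b i t) + ∑ i ∈ I, C * (2 * N * θ / ρ) * P.E (c i t) := by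
      rw [← Finset.sum_add_distrib]
      exact Finset.sum_congr rfl (fun i _ => by ring)
    rw [h6]
    linarith
  have hsum := Finset.sum_le_sum hlev
  have h7 := mul_le_mul_of_nonneg_left hsum hN0
  have h8 := mul_le_mul_of_nonneg_left hkill hN0
  have h9 : N * ∑ t ∈ range n, (2 * P.E (fun w => ind (¬ Dd t w) * b0 t w) +
        ∑ i ∈ I, C * (2 * N * θ / ρ) * (P.E (b i t) + P.E (c i t))) =
      2 * N * ∑ t ∈ range n, P.E (fun w => ind (¬ Dd t w) * b0 t w) +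
      2 * C * N ^ 2 * θ / ρ * ∑ i ∈ I, ∑ t ∈ range n, (P.E (b i t) + P.E (c i t)) := by
    rw [Finset.sum_add_distrib, Finset.sum_comm, ← Finset.mul_sum]
    simp only [← Finset.mul_sum]
    ring
  rw [h9] at h7
  linarith

/-- PROPOSITION 1 for `T`: `S' t` (say `|T t| >= r'`) and not dead implies `s2 <= |X t|` -/
theorem prop1_T (H : P.ViewHyp A X g D e (P.Al A Dd (1 / 2)) s N)
    (hK : Filt K) (hDd : ∀ t w, P.p w ≠ 0 → Dd t w → Dd (t + 1) w) {S' : ℕ → Om → Prop} {s2 : ℝ} (hs2 : s < s2)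
    (hSX : ∀ t w, P.p w ≠ 0 → S' t w → ¬ Dd t w → s2 ≤ |X t w|) (n : ℕ) {ρ ρ' : ℝ} (hρ' : 0 < ρ') :
    P.Pr (fun w => ∃ t ≤ n, 2 * ρ / (s2 - s) ^ 2 + ρ' ≤ P.ce (K t) (fun v => ind (S' t v)) w) ≤
      P.Pr (fun w => ∃ t ≤ n,
        2 * ρ ≤ P.ce (K t) (fun v => ind (P.Al A Dd (1 / 2) t v) * Phi s (X t v)) w) +
      3 * P.Pr (Dd n) / ρ' := by
  have h1 := P.hot_T' (Y := K) (V := fun t w => ind (P.Al A Dd (1 / 2) t w) * Phi s (X t w)) hK
    (fun t w _ => mul_nonneg (ind_nonneg _) (Phi_nonneg _ _))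
    (D := fun t w => Dd t w ∨ ¬ P.Al A Dd (1 / 2) t w) (S := S')
    (fun t w hw h => P.al_dead_inc hDd t w hw h) (s := (s2 - s) ^ 2) (pow_pos (sub_pos.mpr hs2) 2)
    (fun t w hw hS hn => ?_) n (ρ := ρ) hρ'
  · refine h1.trans (add_le_add le_rfl ?_)
    have h2 := P.al_dead_or (c := 1 / 2) H.filt hDd n (by norm_num)
    have h3 : (1 + 1 / (1 / 2 : ℝ)) = 3 := by norm_num
    rw [h3] at h2
    exact div_le_div_of_nonneg_right h2 hρ'.le
  · push Not at hn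
    rw [ind_of hn.2, one_mul]
    exact le_Phi2 hs2.le (hSX t w hw hS hn.1)

end FP

end Pool.Agent.M3
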