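import Pool.Agent.M3.Prop1

/-!
# M3.OneView: the one view theorem (note 3382, section 5), abstract form

Named process `ViewHyp A X g D e a s N` in ONE view, `a t` = alive (majority stopping, share 1/2 of the dead points
`Dd`).  `Dd` also contains the points whose pairs were hot once: it need not be an event of the view.
`s < |X t|` and not dead implies `S t` (say `|T t| >= r`).  Biases: `(E[D t | A t])^2 <= b0 t + sum_i b i t` where
`s < |X t|`, events: `1_(e (t+1)) <= sum_j c j t`.  `b i t` is a function of the view (labels) and of `Z i t` (a pair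
and the path, exactly), `c j t` a function of the view at time `t+1` and of `Z' j t` (a pair and the path down to
`t+1`); COLD: given `Z i t`, `S t` and not dead has conditional probability `<= ρ i`.

* `loss_bias`, `loss_event`: one term;
* `one_view_cold`: `(s2-s)^2 Pr (alive and |X| >= s2 once) <= 2 N (θ + sum E 1_(not dead) b0 + sum ρ i E b i + sum σ j E c j +
  Pr (Dd n))`;
* `one_view_T`: the same for `T`;
* `cold_of_hot`, `cold_of_hot_le`, `dead_or_le`: `Dd` = dead labels or some pair hot once.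
-/

set_option autoImplicit false
set_option linter.unusedSectionVars false

namespace Pool.Agent.M3

open Finset Pool.Agent.PWZ

variable {Om : Type*} [Fintype Om]

namespace FP

variable (P : FP Om) {ι : ℕ → Type*} {A : ∀ t, Om → ι t}
  {X g D : ℕ → Om → ℝ} {e Dd : ℕ → Om → Prop} {s N : ℝ}

/-- a loss at the old node: function of the view and of a cold class -/
theorem loss_bias (hA : Filt A) (hX : ∀ t, Fac (A t) (X t)) {S : ℕ → Om → Prop}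
    (hXS : ∀ t w, P.p w ≠ 0 → s < |X t w| → ¬ Dd t w → S t w) {t : ℕ} {b : Om → ℝ} (hbA : Fac (A t) b)
    (hb : ∀ w, P.p w ≠ 0 → 0 ≤ b w) {ζ : Type*} {Z : Om → ζ} (hbZ : Fac Z b) {ρ : ℝ}
    (hρ : ∀ w, P.p w ≠ 0 → b w ≠ 0 → P.ce Z (fun v => ind (S t v ∧ ¬ Dd t v)) w ≤ ρ) :
    P.E (fun w => ind (P.Al A Dd (1 / 2) t w ∧ s < |X t w|) * b w) ≤ 2 * ρ * P.E b := by
  have h := P.maj_E (c := 1 / 2) hA (t := t) (D := Dd) (S := fun w => s < |X t w|) (S' := S t)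
    (fun v w h => by rw [hX t v w h]) (fun v hv h h' => hXS t v hv h h') hbA hb
  have h1 : P.E (fun w => ind (S t w ∧ ¬ Dd t w) * b w) ≤ ρ * P.E b := by
    have e1 : P.E (fun w => ind (S t w ∧ ¬ Dd t w) * b w) =
        P.E (fun w => b w * P.ce Z (fun v => ind (S t v ∧ ¬ Dd t v)) w) := by
      rw [P.E_mul_ce hbZ]
      exact P.E_congr (fun w _ => by ring)
    rw [e1, ← E_smul]
    refine P.E_mono (fun w hw => ?_)
    by_cases h0 : b w = 0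
    · rw [h0]; simp
    · rw [mul_comm]
      exact mul_le_mul_of_nonneg_right (hρ w hw h0) (hb w hw)
  have h2 : P.E (fun w => ind (P.Al A Dd (1 / 2) t w ∧ s < |X t w|) * b w) =
      P.E (fun w => ind (s < |X t w| ∧ P.Al A Dd (1 / 2) t w) * b w) :=
    P.E_congr (fun w _ => by rw [and_comm])
  rw [h2]
  linarith

/-- a loss at the new node: function of the view at the time `t+1` and of a cold class -/
theorem loss_event (hA : Filt A) (hX : ∀ t, Fac (A t) (X t))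
    (hDd : ∀ t w, P.p w ≠ 0 → Dd t w → Dd (t + 1) w) {S : ℕ → Om → Prop}
    (hXS : ∀ t w, P.p w ≠ 0 → s < |X t w| → ¬ Dd t w → S t w) {t : ℕ} {c : Om → ℝ} (hcA : Fac (A (t + 1)) c)
    (hc : ∀ w, P.p w ≠ 0 → 0 ≤ c w) {ζ : Type*} {Z : Om → ζ} (hcZ : Fac Z c) {ρ : ℝ}
    (hρ : ∀ w, P.p w ≠ 0 → c w ≠ 0 → P.ce Z (fun v => ind (S t v ∧ ¬ Dd t v)) w ≤ ρ) :
    P.E (fun w => ind (s < |X t w| ∧ P.Al A Dd (1 / 2) (t + 1) w) * c w) ≤ 2 * ρ * P.E c := by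
  have h := P.maj_E (c := 1 / 2) hA (t := t + 1) (D := Dd) (S := fun w => s < |X t w|)
    (S' := fun w => S t w ∧ ¬ Dd t w)
    (fun v w h => by rw [hX t v w (hA t v w h)])
    (fun v hv h h' => ⟨hXS t v hv h (fun hd => h' (hDd t v hv hd)), fun hd => h' (hDd t v hv hd)⟩) hcA hc
  have h1 : P.E (fun w => ind ((S t w ∧ ¬ Dd t w) ∧ ¬ Dd (t + 1) w) * c w) ≤ ρ * P.E c := by
    have e0 : P.E (fun w => ind ((S t w ∧ ¬ Dd t w) ∧ ¬ Dd (t + 1) w) * c w) ≤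
        P.E (fun w => ind (S t w ∧ ¬ Dd t w) * c w) :=
      P.E_mono (fun w hw => mul_le_mul_of_nonneg_right (ind_mono (fun h => h.1)) (hc w hw))
    have e1 : P.E (fun w => ind (S t w ∧ ¬ Dd t w) * c w) =
        P.E (fun w => c w * P.ce Z (fun v => ind (S t v ∧ ¬ Dd t v)) w) := by
      rw [P.E_mul_ce hcZ]
      exact P.E_congr (fun w _ => by ring)
    refine e0.trans ?_
    rw [e1, ← E_smul]
    refine P.E_mono (fun w hw => ?_)
    by_cases h0 : c w = 0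
    · rw [h0]; simp
    · rw [mul_comm]
      exact mul_le_mul_of_nonneg_right (hρ w hw h0) (hc w hw)
  linarith

/-- THE ONE VIEW THEOREM, abstract -/
theorem one_view_cold (H : P.ViewHyp A X g D e (P.Al A Dd (1 / 2)) s N)
    (hDd : ∀ t w, P.p w ≠ 0 → Dd t w → Dd (t + 1) w) {S : ℕ → Om → Prop}
    (hXS : ∀ t w, P.p w ≠ 0 → s < |X t w| → ¬ Dd t w → S t w) (n : ℕ) {θ : ℝ} (hθn : P.Pr (S n) ≤ θ)
    {α : Type*} (I : Finset α) {ζ : α → ℕ → Type*} (Z : ∀ i t, Om → ζ i t) {ρ : α → ℝ}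
    {β : Type*} (J : Finset β) {ζ' : β → ℕ → Type*} (Z' : ∀ j t, Om → ζ' j t) {σ : β → ℝ}
    {b : α → ℕ → Om → ℝ} {c : β → ℕ → Om → ℝ} {b0 : ℕ → Om → ℝ}
    (hbA : ∀ i ∈ I, ∀ t < n, Fac (A t) (b i t)) (hbZ : ∀ i ∈ I, ∀ t < n, Fac (Z i t) (b i t))
    (hbn : ∀ i ∈ I, ∀ t < n, ∀ w, P.p w ≠ 0 → 0 ≤ b i t w)
    (hcA : ∀ j ∈ J, ∀ t < n, Fac (A (t + 1)) (c j t)) (hcZ : ∀ j ∈ J, ∀ t < n, Fac (Z' j t) (c j t))
    (hcn : ∀ j ∈ J, ∀ t < n, ∀ w, P.p w ≠ 0 → 0 ≤ c j t w)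
    (hb0 : ∀ t < n, Fac (A t) (b0 t)) (hb0n : ∀ t < n, ∀ w, P.p w ≠ 0 → 0 ≤ b0 t w)
    (hβ : ∀ t < n, ∀ w, P.p w ≠ 0 → s < |X t w| → P.ce (A t) (D t) w ^ 2 ≤ b0 t w + ∑ i ∈ I, b i t w)
    (he : ∀ t < n, ∀ w, P.p w ≠ 0 → ind (e (t + 1) w) ≤ ∑ j ∈ J, c j t w)
    (hρ : ∀ i ∈ I, ∀ t < n, ∀ w, P.p w ≠ 0 → b i t w ≠ 0 →
      P.ce (Z i t) (fun v => ind (S t v ∧ ¬ Dd t v)) w ≤ ρ i)
    (hσ : ∀ j ∈ J, ∀ t < n, ∀ w, P.p w ≠ 0 → c j t w ≠ 0 →
      P.ce (Z' j t) (fun v => ind (S t v ∧ ¬ Dd t v)) w ≤ σ j) {s2 : ℝ} (hs : s ≤ s2) :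
    (s2 - s) ^ 2 * P.Pr (fun w => ∃ t ≤ n, P.Al A Dd (1 / 2) t w ∧ s2 ≤ |X t w|) ≤
      2 * N * (θ + ∑ t ∈ range n, P.E (fun w => ind (¬ Dd t w) * b0 t w) +
        ∑ i ∈ I, ρ i * ∑ t ∈ range n, P.E (b i t) + ∑ j ∈ J, σ j * ∑ t ∈ range n, P.E (c j t) +
        P.Pr (Dd n)) := by
  have hN0 : 0 ≤ N := by
    obtain ⟨w, hw⟩ := P.exists_p_ne
    exact (Phi_nonneg _ _).trans (H.bd 0 w hw)
  have h0 := P.energy H hs n
  have hend : P.E (fun w => ind (P.Al A Dd (1 / 2) n w) * Phi s (X n w)) ≤ 2 * N * θ := P.semi_E H hXS hθn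
  have hkill : P.Pr (fun w => ¬ P.Al A Dd (1 / 2) n w) ≤ 2 * P.Pr (Dd n) := by
    have := P.al_death H.filt hDd n (1 / 2)
    linarith
  have hlev : ∀ t ∈ range n,
      P.E (fun w => ind (P.Al A Dd (1 / 2) t w ∧ s < |X t w|) * P.ce (A t) (D t) w ^ 2) +
        P.Pr (fun w => s < |X t w| ∧ e (t + 1) w ∧ P.Al A Dd (1 / 2) (t + 1) w) ≤
      2 * P.E (fun w => ind (¬ Dd t w) * b0 t w) + ∑ i ∈ I, 2 * ρ i * P.E (b i t) +
        ∑ j ∈ J, 2 * σ j * P.E (c j t) := by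
    intro t htr
    have ht : t < n := Finset.mem_range.mp htr
    have h1 : P.E (fun w => ind (P.Al A Dd (1 / 2) t w ∧ s < |X t w|) * P.ce (A t) (D t) w ^ 2) ≤
        P.E (fun w => ind (P.Al A Dd (1 / 2) t w) * b0 t w +
          ∑ i ∈ I, ind (P.Al A Dd (1 / 2) t w ∧ s < |X t w|) * b i t w) := by
      refine P.E_mono (fun w hw => ?_)
      rw [← Finset.mul_sum]
      have h4 := hb0n t ht w hw
      by_cases ha : P.Al A Dd (1 / 2) t w
      · by_cases hx : s < |X t w|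
        · rw [ind_of ⟨ha, hx⟩, ind_of ha, one_mul, one_mul, one_mul]
          exact hβ t ht w hw hx
        · rw [ind_not (fun h : P.Al A Dd (1 / 2) t w ∧ s < |X t w| => hx h.2), ind_of ha, zero_mul, zero_mul,
            one_mul, add_zero]
          exact h4
      · rw [ind_not (fun h : P.Al A Dd (1 / 2) t w ∧ s < |X t w| => ha h.1), ind_not ha]
        simp
    have h2 : P.Pr (fun w => s < |X t w| ∧ e (t + 1) w ∧ P.Al A Dd (1 / 2) (t + 1) w) ≤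
        P.E (fun w => ∑ j ∈ J, ind (s < |X t w| ∧ P.Al A Dd (1 / 2) (t + 1) w) * c j t w) := by
      unfold Pr
      refine P.E_mono (fun w hw => ?_)
      rw [← Finset.mul_sum]
      have h3 := he t ht w hw
      by_cases hq : s < |X t w| ∧ P.Al A Dd (1 / 2) (t + 1) w
      · rw [ind_of hq, one_mul]
        exact (ind_mono (fun h => h.2.1)).trans h3
      · rw [ind_not hq, ind_not (fun h : s < |X t w| ∧ e (t + 1) w ∧ P.Al A Dd (1 / 2) (t + 1) w =>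
          hq ⟨h.1, h.2.2⟩), zero_mul]
    rw [P.E_add, P.E_sum] at h1
    rw [P.E_sum] at h2
    have h3 := P.alive_E (Dd := Dd) H.filt (hb0 t ht) (hb0n t ht)
    have h4 : ∑ i ∈ I, P.E (fun w => ind (P.Al A Dd (1 / 2) t w ∧ s < |X t w|) * b i t w) ≤
        ∑ i ∈ I, 2 * ρ i * P.E (b i t) :=
      Finset.sum_le_sum (fun i hi => P.loss_bias H.filt H.X_fac hXS (hbA i hi t ht) (hbn i hi t ht)
        (hbZ i hi t ht) (hρ i hi t ht))
    have h5 : ∑ j ∈ J, P.E (fun w => ind (s < |X t w| ∧ P.Al A Dd (1 / 2) (t + 1) w) * c j t w) ≤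
        ∑ j ∈ J, 2 * σ j * P.E (c j t) :=
      Finset.sum_le_sum (fun j hj => P.loss_event H.filt H.X_fac hDd hXS (hcA j hj t ht) (hcn j hj t ht)
        (hcZ j hj t ht) (hσ j hj t ht))
    linarith
  have hsum := Finset.sum_le_sum hlev
  have h7 := mul_le_mul_of_nonneg_left hsum hN0
  have h8 := mul_le_mul_of_nonneg_left hkill hN0
  have h9 : N * ∑ t ∈ range n, (2 * P.E (fun w => ind (¬ Dd t w) * b0 t w) +
        ∑ i ∈ I, 2 * ρ i * P.E (b i t) + ∑ j ∈ J, 2 * σ j * P.E (c j t)) =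
      2 * N * (∑ t ∈ range n, P.E (fun w => ind (¬ Dd t w) * b0 t w) +
        ∑ i ∈ I, ρ i * ∑ t ∈ range n, P.E (b i t) + ∑ j ∈ J, σ j * ∑ t ∈ range n, P.E (c j t)) := by
    have e1 : ∑ t ∈ range n, ∑ i ∈ I, 2 * ρ i * P.E (b i t) =
        2 * ∑ i ∈ I, ρ i * ∑ t ∈ range n, P.E (b i t) := by
      rw [Finset.sum_comm, Finset.mul_sum]
      refine Finset.sum_congr rfl (fun i _ => ?_)
      rw [← Finset.mul_sum]; ring
    have e2 : ∑ t ∈ range n, ∑ j ∈ J, 2 * σ j * P.E (c j t) =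
        2 * ∑ j ∈ J, σ j * ∑ t ∈ range n, P.E (c j t) := by
      rw [Finset.sum_comm, Finset.mul_sum]
      refine Finset.sum_congr rfl (fun j _ => ?_)
      rw [← Finset.mul_sum]; ring
    rw [Finset.sum_add_distrib, Finset.sum_add_distrib, e1, e2, ← Finset.mul_sum]
    ring
  rw [h9] at h7
  linarith

/-- from `X` to `T`: `S' t` (say `|T t| >= r'`) and not dead implies `s2 <= |X t|` -/
theorem one_view_T (H : P.ViewHyp A X g D e (P.Al A Dd (1 / 2)) s N)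
    (hDd : ∀ t w, P.p w ≠ 0 → Dd t w → Dd (t + 1) w) {S' : ℕ → Om → Prop} {s2 : ℝ}
    (hSX : ∀ t w, P.p w ≠ 0 → S' t w → ¬ Dd t w → s2 ≤ |X t w|) (n : ℕ) :
    P.Pr (fun w => ∃ t ≤ n, S' t w) ≤
      P.Pr (fun w => ∃ t ≤ n, P.Al A Dd (1 / 2) t w ∧ s2 ≤ |X t w|) + 3 * P.Pr (Dd n) := by
  have h1 : P.Pr (fun w => ∃ t ≤ n, S' t w) ≤
      P.Pr (fun w => (∃ t ≤ n, P.Al A Dd (1 / 2) t w ∧ s2 ≤ |X t w|) ∨
        (Dd n w ∨ ¬ P.Al A Dd (1 / 2) n w)) := by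
    refine P.Pr_mono (fun w hw => ?_)
    rintro ⟨t, ht, hS⟩
    by_cases hd : Dd t w
    · exact Or.inr (Or.inl (P.inc_le hDd ht hw hd))
    · by_cases ha : P.Al A Dd (1 / 2) t w
      · exact Or.inl ⟨t, ht, ha, hSX t w hw hS hd⟩
      · exact Or.inr (Or.inr (fun h => ha (P.al_anti ht h)))
  have h2 := P.Pr_or_le (fun w => ∃ t ≤ n, P.Al A Dd (1 / 2) t w ∧ s2 ≤ |X t w|)
    (fun w => Dd n w ∨ ¬ P.Al A Dd (1 / 2) n w)
  have h3 := P.al_dead_or (c := 1 / 2) H.filt hDd n (by norm_num)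
  have h4 : (1 + 1 / (1 / 2 : ℝ)) = 3 := by norm_num
  rw [h4] at h3
  linarith

/-- COLD from the flag `hot`: `K` a class (pair and path), `Hh` = hot (a function of `K`), contained in `Dd` -/
theorem cold_of_hot {κ : Type*} {K : Om → κ} {S Hh Dead : Om → Prop} {ρ : ℝ} (hρ : 0 ≤ ρ)
    (hH : ∀ v w, K v = K w → (Hh v ↔ Hh w)) (hHS : ∀ w, P.p w ≠ 0 → ¬ Hh w → P.ce K (fun v => ind (S v)) w ≤ ρ)
    (hHD : ∀ w, P.p w ≠ 0 → Hh w → Dead w) {w : Om} (hw : P.p w ≠ 0) :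
    P.ce K (fun v => ind (S v ∧ ¬ Dead v)) w ≤ ρ := by
  have hfac : Fac K (fun v => ind (¬ Hh v)) := Fac.ind (fun v w h => not_congr (hH v w h))
  have h1 : P.ce K (fun v => ind (S v ∧ ¬ Dead v)) w ≤ P.ce K (fun v => ind (¬ Hh v) * ind (S v)) w := by
    refine P.ce_mono (fun v hv => ?_) w
    by_cases h : Hh v
    · rw [ind_not (fun h' : S v ∧ ¬ Dead v => h'.2 (hHD v hv h))]
      exact mul_nonneg (ind_nonneg _) (ind_nonneg _)
    · rw [ind_of h, one_mul]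
      exact ind_mono (fun h' => h'.1)
  refine h1.trans ?_
  rw [P.ce_mul hfac]
  by_cases h : Hh w
  · rw [ind_not (not_not.mpr h), zero_mul]; exact hρ
  · rw [ind_of h, one_mul]; exact hHS w hw h

/-- the same when the loss depends on a finer class `Z` (new node) with `E[f | Z] <= C E[f | K]` for the one function
`1_(S and not dead)` -/
theorem cold_of_hot_le {κ ζ : Type*} {K : Om → κ} {Z : Om → ζ} {S Hh Dead : Om → Prop} {ρ C : ℝ} (hρ : 0 ≤ ρ)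
    (hC : 0 ≤ C) (hH : ∀ v w, K v = K w → (Hh v ↔ Hh w))
    (hHS : ∀ w, P.p w ≠ 0 → ¬ Hh w → P.ce K (fun v => ind (S v)) w ≤ ρ)
    (hHD : ∀ w, P.p w ≠ 0 → Hh w → Dead w)
    (hZ : ∀ w, P.p w ≠ 0 → P.ce Z (fun v => ind (S v ∧ ¬ Dead v)) w ≤
      C * P.ce K (fun v => ind (S v ∧ ¬ Dead v)) w) {w : Om} (hw : P.p w ≠ 0) :
    P.ce Z (fun v => ind (S v ∧ ¬ Dead v)) w ≤ C * ρ :=
  (hZ w hw).trans (mul_le_mul_of_nonneg_left (P.cold_of_hot hρ hH hHS hHD hw) hC)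

/-- total mass of the dead points: dead labels, or one of finitely many objects hot once -/
theorem dead_or_le {γ : Type*} (G : Finset γ) {D0 : Om → Prop} {Q : γ → Om → Prop} :
    P.Pr (fun w => D0 w ∨ ∃ i ∈ G, Q i w) ≤ P.Pr D0 + ∑ i ∈ G, P.Pr (Q i) :=
  (P.Pr_or_le _ _).trans (add_le_add le_rfl (P.Pr_ex_le G Q))

/-- the dead points with hot flags are an increasing family -/
theorem dead_inc {γ : Type*} {G : Finset γ} {D0 : ℕ → Om → Prop} {Q : γ → ℕ → Om → Prop}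
    (hD0 : ∀ t w, P.p w ≠ 0 → D0 t w → D0 (t + 1) w) (t : ℕ) (w : Om) (hw : P.p w ≠ 0)
    (h : D0 t w ∨ ∃ i ∈ G, ∃ u ≤ t, Q i u w) : D0 (t + 1) w ∨ ∃ i ∈ G, ∃ u ≤ t + 1, Q i u w := by
  rcases h with h | ⟨i, hi, u, hu, h⟩
  · exact Or.inl (hD0 t w hw h)
  · exact Or.inr ⟨i, hi, u, by omega, h⟩

end FP

end Pool.Agent.M3
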