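import Pool.Agent.M3.FPInfo
import Pool.Agent.M3.FPMart

/-!
# M3.Rec: the entropy of a record pays for the information on the digits (abstract record bound)

`Z t` = public information (a filtration which contains the past digits `D s`, `s < t`), `N t` = record (cumulative).
No independence, no hidden variable is needed:
`sum_(t<n) I(D t; N t | Z t) <= H(N 0 | Z 0) + sum_(t<n) H(N (t+1) | N t, Z (t+1))`,
because `H(N t | Z (t+1)) <= H(N t | D t, Z t) = H(N t | Z t) - I(D t; N t | Z t)`.
The entropy of a family of births (events) is bounded by Jensen, without pointwise densities: if `s` implies a public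
event `C` then `H(1_s | Q) <= P(s) (1 + log (P(C) / P(s)))`; labels: `H(label | Q) <= P(s)(1 + log(P(C)/P(s))) + P(s) h`.
-/

set_option autoImplicit false
set_option linter.unusedSectionVars false

namespace Pool.Agent.M3

open Finset Pool.Agent.PWZ

variable {Om : Type*} [Fintype Om]

namespace FP

variable (P : FP Om) {κ ι ι' ι'' : Type*}

/-! ## the record bound -/

/-- one step -/
theorem rec_step {δ : Type*} {Z : Om → κ} {Z' : Om → ι} (D : Om → δ) (N : Om → ι')
    (hZ : Fac Z' Z) (hD : Fac Z' D) : P.Hc N Z' + P.I D N Z ≤ P.Hc N Z := by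
  have h1 : P.Hc N Z' ≤ P.Hc N (fun w => (D w, Z w)) := P.Hc_anti N (hD.prod hZ)
  have h2 := P.I_eq_Hc' D N Z
  linarith

/-- the record bound for informations -/
theorem rec_sum {κ ν : ℕ → Type*} {δ : Type*} (Z : ∀ t, Om → κ t) (N : ∀ t, Om → ν t) (D : ℕ → Om → δ)
    (hZ : Filt Z) (hD : ∀ t, Fac (Z (t + 1)) (D t)) (n : ℕ) :
    ∑ t ∈ range n, P.I (D t) (N t) (Z t) + P.Hc (N n) (Z n) ≤
      P.Hc (N 0) (Z 0) + ∑ t ∈ range n, P.Hc (N (t + 1)) (fun w => (N t w, Z (t + 1) w)) := by
  induction n with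
  | zero => simp
  | succ n ih =>
    rw [Finset.sum_range_succ, Finset.sum_range_succ]
    have h1 := P.rec_step (D n) (N n) (hZ n) (hD n)
    have h2 : P.Hc (N (n + 1)) (Z (n + 1)) ≤
        P.Hc (N n) (Z (n + 1)) + P.Hc (N (n + 1)) (fun w => (N n w, Z (n + 1) w)) := by
      rw [← P.Hc_chain]
      exact P.Hc_mono _ (Fac.fst _ _ |>.trans (Fac.fst _ _))
    linarith

/-- the record bound for the biases of the digits -/
theorem rec_bias {κ ν : ℕ → Type*} (Z : ∀ t, Om → κ t) (N : ∀ t, Om → ν t) (D : ℕ → Om → ℝ)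
    (hZ : Filt Z) (hD : ∀ t, Fac (Z (t + 1)) (D t))
    (hd : ∀ t w, P.p w ≠ 0 → D t w = 1 ∨ D t w = -1) (n : ℕ) :
    ∑ t ∈ range n, P.E (fun w => (P.ce (fun v => (N t v, Z t v)) (D t) w - P.ce (Z t) (D t) w) ^ 2) ≤
      2 * (P.Hc (N 0) (Z 0) + ∑ t ∈ range n, P.Hc (N (t + 1)) (fun w => (N t w, Z (t + 1) w))) := by
  have h1 := P.rec_sum Z N D hZ hD n
  have h2 := P.Hc_nonneg (N n) (Z n)
  have h3 : ∑ t ∈ range n, P.E (fun w => (P.ce (fun v => (N t v, Z t v)) (D t) w - P.ce (Z t) (D t) w) ^ 2) ≤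
      ∑ t ∈ range n, 2 * P.I (D t) (N t) (Z t) :=
    Finset.sum_le_sum fun t _ => P.I_digit_ge (hd t) (N t) (Z t)
  rw [← Finset.mul_sum] at h3
  linarith

/-! ## entropy of events -/

/-- a finite family -/
theorem Hc_fam_le {α : Type*} (s : Finset α) {ν : α → Type*} (X : ∀ i, Om → ν i) (Z : Om → ι) :
    P.Hc (fun w => fun i : s => X i w) Z ≤ ∑ i ∈ s, P.Hc (X i) Z := by
  classical
  induction s using Finset.induction_on with
  | empty =>
    rw [Finset.sum_empty]
    unfold Hc
    have : P.H (fun w => ((fun i : (∅ : Finset α) => X i w), Z w)) ≤ P.H Z := by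
      refine P.H_mono fun v w h => ?_
      rw [Prod.mk.injEq]
      exact ⟨funext fun i => absurd i.2 (Finset.notMem_empty _), h⟩
    linarith
  | insert a s ha ih =>
    rw [Finset.sum_insert ha]
    have h1 : P.Hc (fun w => fun i : (insert a s : Finset α) => X i w) Z ≤
        P.Hc (fun w => (X a w, fun i : s => X i w)) Z := by
      refine P.Hc_mono Z fun v w h => ?_
      simp only [Prod.mk.injEq] at h
      obtain ⟨⟨h2, h3⟩, -⟩ := h
      funext i
      obtain ⟨i, hi⟩ := i
      rcases Finset.mem_insert.1 hi with rfl | hi'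
      · exact h2
      · exact congrFun h3 ⟨i, hi'⟩
    rw [P.Hc_chain] at h1
    have h2 : P.Hc (X a) (fun w => ((fun i : s => X i w), Z w)) ≤ P.Hc (X a) Z := P.Hc_le _ _ _
    linarith

/-- conditional entropy as an expectation -/
theorem Hc_eq_E (X : Om → κ) (Z : Om → ι) :
    P.Hc X Z = P.E (fun w => Real.log (P.m Z w / P.m (fun v => (X v, Z v)) w)) := by
  unfold Hc H
  rw [← E_sub]
  refine P.E_congr fun w hw => ?_
  rw [Real.log_div (P.m_pos Z hw).ne' (P.m_pos _ hw).ne']
  ring

/-- Jensen on an event: `E 1_s log R <= P(s) log (E 1_s R / P(s))` -/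
theorem E_ind_log_le {s : Om → Prop} {R : Om → ℝ} (hR : ∀ w, P.p w ≠ 0 → s w → 0 < R w) (hs : P.Pr s ≠ 0) :
    P.E (fun w => ind (s w) * Real.log (R w)) ≤
      P.Pr s * Real.log (P.E (fun w => ind (s w) * R w) / P.Pr s) := by
  have hs0 : 0 < P.Pr s := lt_of_le_of_ne (P.Pr_nonneg s) (Ne.symm hs)
  set S := P.E (fun w => ind (s w) * R w) with hS
  have hSpos : 0 < S := by
    have h1 : 0 ≤ S := P.E_nonneg fun w hw => by
      by_cases h : s w
      · rw [ind_of h, one_mul]; exact (hR w hw h).le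
      · rw [ind_not h, zero_mul]
    refine lt_of_le_of_ne h1 fun h0 => hs ?_
    have h2 : ∀ w, P.p w * ind (s w) = 0 := by
      intro w
      by_cases hw : P.p w = 0
      · rw [hw, zero_mul]
      by_cases h : s w
      · exfalso
        have h3 : P.p w * (ind (s w) * R w) ≤ S := by
          rw [hS]; unfold E
          refine Finset.single_le_sum (f := fun v => P.p v * (ind (s v) * R v)) (fun v _ => ?_) (Finset.mem_univ w)
          by_cases hv : P.p v = 0
          · rw [hv, zero_mul]
          · refine mul_nonneg (P.nn v) ?_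
            by_cases h' : s v
            · rw [ind_of h', one_mul]; exact (hR v hv h').le
            · rw [ind_not h', zero_mul]
        rw [← h0, ind_of h, one_mul] at h3
        have h4 : 0 < P.p w * R w := mul_pos (lt_of_le_of_ne (P.nn w) (Ne.symm hw)) (hR w hw h)
        linarith
      · rw [ind_not h, mul_zero]
    unfold Pr E
    exact Finset.sum_eq_zero fun w _ => h2 w
  set c := S / P.Pr s with hc
  have hcpos : 0 < c := div_pos hSpos hs0
  have h1 : P.E (fun w => ind (s w) * Real.log (R w)) ≤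
      P.E (fun w => ind (s w) * (Real.log c + (R w / c - 1))) := by
    refine P.E_mono fun w hw => ?_
    by_cases h : s w
    · rw [ind_of h, one_mul, one_mul]
      have h2 := Real.log_le_sub_one_of_pos (div_pos (hR w hw h) hcpos)
      rw [Real.log_div (hR w hw h).ne' hcpos.ne'] at h2
      linarith
    · rw [ind_not h, zero_mul, zero_mul]
  have h2 : P.E (fun w => ind (s w) * (Real.log c + (R w / c - 1))) =
      P.Pr s * (Real.log c - 1) + S / c := by
    have e : (fun w => ind (s w) * (Real.log c + (R w / c - 1))) =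
        fun w => ind (s w) * (Real.log c - 1) + (ind (s w) * R w) / c := by
      funext w; ring
    rw [e, E_add, E_mul_const, E_div_const]
    rfl
  have h3 : S / c = P.Pr s := by
    rw [hc]; field_simp
  rw [h3] at h2
  rw [h2] at h1
  linarith

/-- the entropy of an event which implies a public event -/
theorem Hc_event_le {s C : Om → Prop} {Q : Om → ι} (hC : ∀ v w, Q v = Q w → (C v ↔ C w))
    (hsC : ∀ w, P.p w ≠ 0 → s w → C w) (hs : P.Pr s ≠ 0) :
    P.Hc (fun w => s w) Q ≤ P.Pr s * (1 + Real.log (P.Pr C / P.Pr s)) := by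
  rw [P.Hc_eq_E]
  set R : Om → ℝ := fun w => P.m Q w / P.m (fun v => (s v, Q v)) w with hR
  have hRpos : ∀ w, P.p w ≠ 0 → 0 < R w := fun w hw => div_pos (P.m_pos Q hw) (P.m_pos _ hw)
  have hsplit : P.E (fun w => Real.log (R w)) =
      P.E (fun w => ind (s w) * Real.log (R w)) + P.E (fun w => ind (¬ s w) * Real.log (R w)) := by
    rw [← E_add]
    refine P.E_congr fun w _ => ?_
    rw [ind_not_eq]; ring
  -- masses of the two parts of a fibre
  have hm : ∀ w, P.m Q w = P.E (fun v => ind (Q v = Q w) * ind (s v)) + P.E (fun v => ind (Q v = Q w) * ind (¬ s v)) := by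
    intro w
    rw [← E_add]
    unfold m
    refine P.E_congr fun v _ => ?_
    rw [ind_not_eq]; ring
  have hms : ∀ w, s w → P.m (fun v => (s v, Q v)) w = P.E (fun v => ind (Q v = Q w) * ind (s v)) := by
    intro w h
    unfold m
    refine P.E_congr fun v _ => ?_
    by_cases h1 : Q v = Q w
    · by_cases h2 : s v
      · rw [ind_of h1, ind_of h2, ind_of (by rw [Prod.mk.injEq]; exact ⟨propext ⟨fun _ => h, fun _ => h2⟩, h1⟩)]; ring
      · rw [ind_of h1, ind_not h2, ind_not (by
          rw [Prod.mk.injEq]; rintro ⟨h3, -⟩; exact h2 (h3 ▸ h))]; ring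
    · rw [ind_not h1, ind_not (by rw [Prod.mk.injEq]; rintro ⟨-, h3⟩; exact h1 h3)]; ring
  have hmn : ∀ w, ¬ s w → P.m (fun v => (s v, Q v)) w = P.E (fun v => ind (Q v = Q w) * ind (¬ s v)) := by
    intro w h
    unfold m
    refine P.E_congr fun v _ => ?_
    by_cases h1 : Q v = Q w
    · by_cases h2 : s v
      · rw [ind_of h1, ind_not (not_not_intro h2), ind_not (by
          rw [Prod.mk.injEq]; rintro ⟨h3, -⟩; exact h (h3 ▸ h2))]; ring
      · rw [ind_of h1, ind_of h2, ind_of (by
          rw [Prod.mk.injEq]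
          exact ⟨propext ⟨fun h3 => absurd h3 h2, fun h3 => absurd h3 h⟩, h1⟩)]; ring
    · rw [ind_not h1, ind_not (by rw [Prod.mk.injEq]; rintro ⟨-, h3⟩; exact h1 h3)]; ring
  -- the part outside the event
  have hout : P.E (fun w => ind (¬ s w) * Real.log (R w)) ≤ P.Pr s := by
    have h1 : P.E (fun w => ind (¬ s w) * Real.log (R w)) ≤
        P.E (fun w => ind (¬ s w) * (P.E (fun v => ind (Q v = Q w) * ind (s v)) /
          P.E (fun v => ind (Q v = Q w) * ind (¬ s v)))) := by
      refine P.E_mono fun w hw => ?_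
      by_cases h : s w
      · rw [ind_not (not_not_intro h), zero_mul, zero_mul]
      · rw [ind_of h, one_mul, one_mul]
        have h2 := Real.log_le_sub_one_of_pos (hRpos w hw)
        have h3 := P.m_pos (fun v => (s v, Q v)) hw
        rw [hmn w h] at h3
        have h4 : R w - 1 = P.E (fun v => ind (Q v = Q w) * ind (s v)) /
            P.E (fun v => ind (Q v = Q w) * ind (¬ s v)) := by
          rw [hR]
          simp only
          rw [hmn w h, hm w, eq_div_iff h3.ne']
          field_simp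
          ring
        linarith
    have h2 : P.E (fun w => ind (¬ s w) * (P.E (fun v => ind (Q v = Q w) * ind (s v)) /
          P.E (fun v => ind (Q v = Q w) * ind (¬ s v)))) ≤ P.E (fun v => ind (s v)) := by
      have e1 : P.E (fun w => ind (¬ s w) * (P.E (fun v => ind (Q v = Q w) * ind (s v)) /
          P.E (fun v => ind (Q v = Q w) * ind (¬ s v)))) =
          P.E (fun v => ind (s v) * P.E (fun w => ind (Q w = Q v) * ind (¬ s w) /
            P.E (fun u => ind (Q u = Q w) * ind (¬ s u)))) := by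
        have e2 : ∀ w, ind (¬ s w) * (P.E (fun v => ind (Q v = Q w) * ind (s v)) /
          P.E (fun v => ind (Q v = Q w) * ind (¬ s v))) =
            P.E (fun v => ind (¬ s w) * (ind (Q v = Q w) * ind (s v)) /
              P.E (fun u => ind (Q u = Q w) * ind (¬ s u))) := by
          intro w
          rw [E_div_const, E_smul, mul_div_assoc]
        simp only [e2]
        rw [E_swap]
        refine P.E_congr fun v _ => ?_
        rw [← E_smul]
        refine P.E_congr fun w _ => ?_
        have e3 : ind (Q v = Q w) = ind (Q w = Q v) := by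
          by_cases h : Q v = Q w
          · rw [ind_of h, ind_of h.symm]
          · rw [ind_not h, ind_not fun h' => h h'.symm]
        rw [e3]; ring
      rw [e1]
      refine P.E_mono fun v _ => ?_
      have h3 : P.E (fun w => ind (Q w = Q v) * ind (¬ s w) / P.E (fun u => ind (Q u = Q w) * ind (¬ s u))) ≤ 1 := by
        have e4 : ∀ w, ind (Q w = Q v) * ind (¬ s w) / P.E (fun u => ind (Q u = Q w) * ind (¬ s u)) =
            ind (Q w = Q v) * ind (¬ s w) / P.E (fun u => ind (Q u = Q v) * ind (¬ s u)) := by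
          intro w
          by_cases h : Q w = Q v
          · rw [h]
          · rw [ind_not h, zero_mul, zero_div, zero_div]
        simp only [e4]
        rw [E_div_const]
        exact div_self_le_one _
      have h4 := ind_nonneg (s v)
      nlinarith
    exact h1.trans h2
  -- the part on the event
  have hin : P.E (fun w => ind (s w) * Real.log (R w)) ≤ P.Pr s * Real.log (P.Pr C / P.Pr s) := by
    have h1 := P.E_ind_log_le (s := s) (R := R) (fun w hw _ => hRpos w hw) hs
    have hs0 : 0 < P.Pr s := lt_of_le_of_ne (P.Pr_nonneg s) (Ne.symm hs)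
    have h2 : P.E (fun w => ind (s w) * R w) ≤ P.Pr C := by
      have e1 : P.E (fun w => ind (s w) * R w) =
          P.E (fun w => P.E (fun v => ind (s w) * (ind (Q v = Q w) * ind (C v)) /
            P.E (fun u => ind (Q u = Q w) * ind (s u)))) := by
        refine P.E_congr fun w hw => ?_
        rw [E_div_const, E_smul]
        by_cases h : s w
        · rw [hR]
          simp only
          rw [hms w h, mul_div_assoc]
          congr 2
          unfold m
          refine P.E_congr fun v _ => ?_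
          by_cases h1 : Q v = Q w
          · rw [ind_of h1, ind_of ((hC v w h1).2 (hsC w hw h)), mul_one]
          · rw [ind_not h1, zero_mul]
        · rw [ind_not h, zero_mul, zero_mul, zero_div]
      rw [e1, E_swap]
      refine P.E_mono fun v _ => ?_
      have h3 : P.E (fun w => ind (s w) * (ind (Q v = Q w) * ind (C v)) /
            P.E (fun u => ind (Q u = Q w) * ind (s u))) =
          ind (C v) * P.E (fun w => ind (Q w = Q v) * ind (s w) / P.E (fun u => ind (Q u = Q v) * ind (s u))) := by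
        rw [← E_smul]
        refine P.E_congr fun w _ => ?_
        by_cases h : Q w = Q v
        · rw [h, ind_of rfl]; ring
        · rw [ind_not h, ind_not (show ¬ (Q v = Q w) from fun h' => h h'.symm)]; ring
      rw [h3, E_div_const]
      have h4 := ind_nonneg (C v)
      have h5 := div_self_le_one (P.E fun w => ind (Q w = Q v) * ind (s w))
      nlinarith
    refine h1.trans (mul_le_mul_of_nonneg_left (Real.log_le_log ?_ ?_) hs0.le)
    · refine div_pos ?_ hs0
      have h3 : P.Pr s ≤ P.E (fun w => ind (s w) * R w) := by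
        refine P.E_mono fun w hw => ?_
        by_cases h : s w
        · rw [ind_of h, one_mul, hR]
          simp only
          rw [le_div_iff₀ (P.m_pos _ hw), one_mul]
          exact P.m_anti (Fac.snd _ _) w
        · rw [ind_not h, zero_mul]
      linarith
    · exact div_le_div_of_nonneg_right h2 hs0.le
  rw [hsplit]
  linarith

/-- the entropy of an event which implies a public event `C`: rates with a lower bound of the density -/
theorem Hc_event_le' {s C : Om → Prop} {Q : Om → ι} (hC : ∀ v w, Q v = Q w → (C v ↔ C w))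
    (hsC : ∀ w, P.p w ≠ 0 → s w → C w) {h : ℝ} (hh : P.Pr C ≤ Real.exp h * P.Pr s) :
    P.Hc (fun w => s w) Q ≤ P.Pr s * (1 + h) := by
  by_cases hs : P.Pr s = 0
  · rw [hs, zero_mul]
    have h1 : P.Hc (fun w => s w) Q = P.Hc (fun _ => False) Q := by
      unfold Hc H
      congr 1
      refine P.E_congr fun w hw => ?_
      congr 2
      unfold m
      refine P.E_congr fun v hv => ?_
      have h2 : ∀ u, P.p u ≠ 0 → ¬ s u := by
        intro u hu h3
        have h4 : P.p u * ind (s u) ≤ P.Pr s :=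
          Finset.single_le_sum (f := fun v => P.p v * ind (s v))
            (fun v _ => mul_nonneg (P.nn v) (ind_nonneg _)) (Finset.mem_univ u)
        rw [ind_of h3, mul_one, hs] at h4
        exact hu (le_antisymm h4 (P.nn u))
      by_cases hq : Q v = Q w
      · rw [ind_of (by rw [Prod.mk.injEq]; exact ⟨propext ⟨fun h5 => absurd h5 (h2 v hv), fun h5 => absurd h5 (h2 w hw)⟩, hq⟩),
          ind_of (by rw [Prod.mk.injEq]; exact ⟨rfl, hq⟩)]
      · rw [ind_not (by rw [Prod.mk.injEq]; rintro ⟨-, h3⟩; exact hq h3),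
          ind_not (by rw [Prod.mk.injEq]; rintro ⟨-, h3⟩; exact hq h3)]
    rw [h1]
    unfold Hc
    rw [P.H_congr (X := fun w => (False, Q w)) (Y := Q) (Fac.snd _ _) ((Fac.const Q False).prod (Fac.refl Q)), sub_self]
  · have hs0 : 0 < P.Pr s := lt_of_le_of_ne (P.Pr_nonneg s) (Ne.symm hs)
    refine (P.Hc_event_le hC hsC hs).trans (mul_le_mul_of_nonneg_left ?_ hs0.le)
    have h1 : 0 < P.Pr C := lt_of_lt_of_le hs0 (P.Pr_mono hsC)
    have h2 : P.Pr C / P.Pr s ≤ Real.exp h := by rw [div_le_iff₀ hs0]; exact hh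
    have h3 := Real.log_le_log (div_pos h1 hs0) h2
    rw [Real.log_exp] at h3
    linarith

/-- the entropy of an event, additive form: no lower bound of the density is needed -/
theorem Hc_event_q {s C : Om → Prop} {Q : Om → ι} (hC : ∀ v w, Q v = Q w → (C v ↔ C w))
    (hsC : ∀ w, P.p w ≠ 0 → s w → C w) {q : ℝ} (hq : 0 < q) :
    P.Hc (fun w => s w) Q ≤ P.Pr s * (1 + Real.log (1 / q)) + q * P.Pr C := by
  by_cases hs : P.Pr s = 0
  · have h1 := P.Hc_event_le' (h := 0) (C := fun _ => False) (Q := Q) (s := s) (fun _ _ _ => Iff.rfl) ?_ ?_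
    · rw [hs] at h1 ⊢
      have := mul_nonneg hq.le (P.Pr_nonneg C)
      linarith
    · intro w hw h3
      have h4 : P.p w * ind (s w) ≤ P.Pr s :=
        Finset.single_le_sum (f := fun v => P.p v * ind (s v))
          (fun v _ => mul_nonneg (P.nn v) (ind_nonneg _)) (Finset.mem_univ w)
      rw [ind_of h3, mul_one, hs] at h4
      exact hw (le_antisymm h4 (P.nn w))
    · rw [hs, mul_zero]
      unfold Pr
      simp [ind_not not_false, E_const]
  · have hs0 : 0 < P.Pr s := lt_of_le_of_ne (P.Pr_nonneg s) (Ne.symm hs)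
    have h1 := P.Hc_event_le hC hsC hs
    have hC0 : 0 < P.Pr C := lt_of_lt_of_le hs0 (P.Pr_mono hsC)
    have h2 : Real.log (P.Pr C / P.Pr s) ≤ Real.log (1 / q) + q * P.Pr C / P.Pr s := by
      have h3 : P.Pr C / P.Pr s = (1 / q) * (q * P.Pr C / P.Pr s) := by field_simp
      have h4 : 0 < q * P.Pr C / P.Pr s := by positivity
      have h5 := Real.log_le_sub_one_of_pos h4
      rw [h3, Real.log_mul (by positivity) h4.ne']
      linarith
    have h3 : P.Pr s * (1 + Real.log (P.Pr C / P.Pr s)) ≤ P.Pr s * (1 + (Real.log (1 / q) + q * P.Pr C / P.Pr s)) :=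
      mul_le_mul_of_nonneg_left (by linarith) hs0.le
    have h4 : P.Pr s * (1 + (Real.log (1 / q) + q * P.Pr C / P.Pr s)) =
        P.Pr s * (1 + Real.log (1 / q)) + q * P.Pr C := by field_simp; ring
    linarith

/-- a family of births: the new part of the record is a function of finitely many events -/
theorem Hc_births_le {α : Type*} (I : Finset α) {s C : α → Om → Prop} {Q : Om → ι} {Q' : Om → ι'} {N : Om → κ}
    {h : ℝ} (hQ : Fac Q' Q) (hN : Fac (fun w => ((fun i : I => s i w), Q' w)) N)
    (hC : ∀ i ∈ I, ∀ v w, Q v = Q w → (C i v ↔ C i w)) (hsC : ∀ i ∈ I, ∀ w, P.p w ≠ 0 → s i w → C i w)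
    (hh : ∀ i ∈ I, P.Pr (C i) ≤ Real.exp h * P.Pr (s i)) :
    P.Hc N Q' ≤ (1 + h) * ∑ i ∈ I, P.Pr (s i) := by
  have h1 := P.Hc_mono Q' hN
  have h2 : P.Hc (fun w => fun i : I => s i w) Q' ≤ P.Hc (fun w => fun i : I => s i w) Q := P.Hc_anti _ hQ
  have h3 := P.Hc_fam_le I (X := fun i w => s i w) Q
  have h4 : ∑ i ∈ I, P.Hc (fun w => s i w) Q ≤ ∑ i ∈ I, P.Pr (s i) * (1 + h) :=
    Finset.sum_le_sum fun i hi => P.Hc_event_le' (hC i hi) (hsC i hi) (hh i hi)
  rw [← Finset.sum_mul] at h4
  linarith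

/-- **the record bound**: records made of births.  `s t i` = the `i`-th birth of level `t` (an event), `C t i` a public
event which contains it, `Q t` the part of the public information `Z t` which decides `C t i`, `F t` = all information
used (the digit has the same bias given `F t` and given `(N t, Z t)`), the digit is fair given `Z t`. -/
theorem rec_bound {κ ν μ φ : ℕ → Type*} {α : Type*} {Z : ∀ t, Om → κ t} {N : ∀ t, Om → ν t} {Q : ∀ t, Om → μ t}
    {F : ∀ t, Om → φ t} {D : ℕ → Om → ℝ} {I : ℕ → Finset α} {s C : ℕ → α → Om → Prop} {h : ℝ}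
    (hZ : Filt Z) (hD : ∀ t, Fac (Z (t + 1)) (D t)) (hd : ∀ t w, P.p w ≠ 0 → D t w = 1 ∨ D t w = -1)
    (hQ : ∀ t, Fac (Z t) (Q t))
    (hN0 : Fac (fun w => ((fun i : I 0 => s 0 i w), Z 0 w)) (N 0))
    (hN : ∀ t, Fac (fun w => ((fun i : I (t + 1) => s (t + 1) i w), N t w, Z (t + 1) w)) (N (t + 1)))
    (hC : ∀ t, ∀ i ∈ I t, ∀ v w, Q t v = Q t w → (C t i v ↔ C t i w))
    (hsC : ∀ t, ∀ i ∈ I t, ∀ w, P.p w ≠ 0 → s t i w → C t i w)
    (hh : ∀ t, ∀ i ∈ I t, P.Pr (C t i) ≤ Real.exp h * P.Pr (s t i))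
    (hfair : ∀ t w, P.p w ≠ 0 → P.ce (Z t) (D t) w = 0)
    (hF : ∀ t w, P.p w ≠ 0 → P.ce (F t) (D t) w = P.ce (fun v => (N t v, Z t v)) (D t) w) (n : ℕ) :
    ∑ t ∈ range n, P.E (fun w => P.ce (F t) (D t) w ^ 2) ≤
      2 * (1 + h) * ∑ t ∈ range (n + 1), ∑ i ∈ I t, P.Pr (s t i) := by
  have h1 := P.rec_bias Z N D hZ hD hd n
  have h2 : ∀ t, P.E (fun w => (P.ce (fun v => (N t v, Z t v)) (D t) w - P.ce (Z t) (D t) w) ^ 2) =
      P.E (fun w => P.ce (F t) (D t) w ^ 2) := fun t =>
    P.E_congr fun w hw => by rw [hF t w hw, hfair t w hw, sub_zero]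
  simp only [h2] at h1
  have h3 : P.Hc (N 0) (Z 0) ≤ (1 + h) * ∑ i ∈ I 0, P.Pr (s 0 i) :=
    P.Hc_births_le (I 0) (s := s 0) (C := C 0) (hQ 0) hN0 (hC 0) (hsC 0) (hh 0)
  have h4 : ∀ t, P.Hc (N (t + 1)) (fun w => (N t w, Z (t + 1) w)) ≤
      (1 + h) * ∑ i ∈ I (t + 1), P.Pr (s (t + 1) i) := fun t =>
    P.Hc_births_le (I (t + 1)) (s := s (t + 1)) (C := C (t + 1)) ((Fac.snd _ _).trans (hQ (t + 1)))
      (hN t) (hC (t + 1)) (hsC (t + 1)) (hh (t + 1))
  have h5 := Finset.sum_le_sum fun t (_ : t ∈ range n) => h4 t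
  rw [← Finset.mul_sum] at h5
  rw [Finset.sum_range_succ' (fun t => ∑ i ∈ I t, P.Pr (s t i)) n]
  refine h1.trans ?_
  have h6 : 2 * (1 + h) * (∑ t ∈ range n, ∑ i ∈ I (t + 1), P.Pr (s (t + 1) i) + ∑ i ∈ I 0, P.Pr (s 0 i)) =
      2 * ((1 + h) * ∑ i ∈ I 0, P.Pr (s 0 i) + (1 + h) * ∑ t ∈ range n, ∑ i ∈ I (t + 1), P.Pr (s (t + 1) i)) := by
    ring
  rw [h6]
  linarith

/-! ## labels -/

/-- a label which is trivial outside the event `s` and takes its values in `V` on `s`, given `s` -/
theorem Hc_on_event_le {s : Om → Prop} {X : Om → κ} (x0 : κ) (V : Finset κ) (h0 : ∀ w, P.p w ≠ 0 → ¬ s w → X w = x0)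
    (hV : ∀ w, P.p w ≠ 0 → s w → X w ∈ V) {L : ℝ} (hL : 0 ≤ L) (hc : (V.card : ℝ) ≤ Real.exp L) :
    P.Hc X (fun w => s w) ≤ P.Pr s * L := by
  classical
  rw [P.Hc_eq_E]
  set R : Om → ℝ := fun w => P.m (fun v => s v) w / P.m (fun v => (X v, s v)) w with hR
  have hRpos : ∀ w, P.p w ≠ 0 → 0 < R w := fun w hw => div_pos (P.m_pos _ hw) (P.m_pos _ hw)
  have e1 : P.E (fun w => Real.log (R w)) = P.E (fun w => ind (s w) * Real.log (R w)) := by
    refine P.E_congr fun w hw => ?_
    by_cases h : s w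
    · rw [ind_of h, one_mul]
    · have e2 : P.m (fun v => (X v, s v)) w = P.m (fun v => s v) w := by
        unfold m
        refine P.E_congr fun v hv => ?_
        by_cases h1 : s v = s w
        · rw [ind_of h1, ind_of (by
            rw [Prod.mk.injEq]
            exact ⟨(h0 v hv (h1 ▸ h)).trans (h0 w hw h).symm, h1⟩)]
        · rw [ind_not h1, ind_not (by rw [Prod.mk.injEq]; rintro ⟨-, h3⟩; exact h1 h3)]
      rw [ind_not h, zero_mul, hR]
      simp only
      rw [e2, div_self (P.m_pos _ hw).ne', Real.log_one]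
  rw [e1]
  by_cases hs : P.Pr s = 0
  · have h1 : P.E (fun w => ind (s w) * Real.log (R w)) = P.E (fun _ => 0) := by
      refine P.E_congr fun w hw => ?_
      have h2 : ¬ s w := by
        intro h3
        have h4 : P.p w * ind (s w) ≤ P.Pr s :=
          Finset.single_le_sum (f := fun v => P.p v * ind (s v))
            (fun v _ => mul_nonneg (P.nn v) (ind_nonneg _)) (Finset.mem_univ w)
        rw [ind_of h3, mul_one, hs] at h4
        exact hw (le_antisymm h4 (P.nn w))
      rw [ind_not h2, zero_mul]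
    rw [h1, E_const, hs, zero_mul]
  · have hs0 : 0 < P.Pr s := lt_of_le_of_ne (P.Pr_nonneg s) (Ne.symm hs)
    refine (P.E_ind_log_le (fun w hw _ => hRpos w hw) hs).trans (mul_le_mul_of_nonneg_left ?_ hs0.le)
    have h1 : P.E (fun w => ind (s w) * R w) ≤ P.Pr s * V.card := by
      have h2 : ∀ w, P.p w ≠ 0 → ind (s w) * R w ≤ P.Pr s * ∑ k ∈ V, ind ((X w, s w) = (k, True)) / P.m (fun v => (X v, s v)) w := by
        intro w hw
        have hnn : ∀ k ∈ V, 0 ≤ ind ((X w, s w) = (k, True)) / P.m (fun v => (X v, s v)) w :=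
          fun k _ => div_nonneg (ind_nonneg _) (P.m_nonneg _ _)
        by_cases h : s w
        · have hT : s w = True := propext ⟨fun _ => trivial, fun _ => h⟩
          rw [ind_of h, one_mul, hR]
          simp only
          have h3 : P.m (fun v => s v) w = P.Pr s := by
            unfold m Pr
            refine P.E_congr fun v _ => ?_
            by_cases h4 : s v
            · rw [ind_of h4, ind_of (propext ⟨fun _ => h, fun _ => h4⟩)]
            · rw [ind_not h4, ind_not (fun h5 : s v = s w => h4 (h5.symm ▸ h))]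
          rw [h3, div_eq_mul_inv]
          refine mul_le_mul_of_nonneg_left ?_ hs0.le
          refine le_trans (le_of_eq ?_) (Finset.single_le_sum hnn (hV w hw h))
          rw [ind_of (by rw [Prod.mk.injEq]; exact ⟨rfl, hT⟩), one_div]
        · rw [ind_not h, zero_mul]
          exact mul_nonneg hs0.le (Finset.sum_nonneg hnn)
      refine (P.E_mono h2).trans ?_
      rw [E_smul, E_sum]
      refine mul_le_mul_of_nonneg_left ?_ hs0.le
      calc _ ≤ ∑ _k ∈ V, (1 : ℝ) := Finset.sum_le_sum fun k _ => P.E_ind_div_m_le (fun v => (X v, s v)) (k, True)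
        _ = _ := by simp
    have h2 : P.E (fun w => ind (s w) * R w) / P.Pr s ≤ Real.exp L := by
      rw [div_le_iff₀ hs0]
      refine h1.trans ?_
      rw [mul_comm]
      exact mul_le_mul_of_nonneg_right hc hs0.le
    by_cases h3 : P.E (fun w => ind (s w) * R w) / P.Pr s ≤ 0
    · have h5 : 0 ≤ P.E (fun w => ind (s w) * R w) / P.Pr s :=
        div_nonneg (P.E_nonneg fun w hw => mul_nonneg (ind_nonneg _) (hRpos w hw).le) hs0.le
      rw [le_antisymm h3 h5, Real.log_zero]
      exact hL
    · have h4 := Real.log_le_log (not_le.1 h3) h2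
      rwa [Real.log_exp] at h4

/-- the entropy of a label which is trivial outside an event `s` -/
theorem Hc_label_le {s C : Om → Prop} {Q : Om → ι} {X : Om → κ} (x0 : κ) (V : Finset κ)
    (h0 : ∀ w, P.p w ≠ 0 → ¬ s w → X w = x0) (hV : ∀ w, P.p w ≠ 0 → s w → X w ∈ V) {L : ℝ} (hL : 0 ≤ L)
    (hc : (V.card : ℝ) ≤ Real.exp L) (hC : ∀ v w, Q v = Q w → (C v ↔ C w)) (hsC : ∀ w, P.p w ≠ 0 → s w → C w)
    {h : ℝ} (hh : P.Pr C ≤ Real.exp h * P.Pr s) :
    P.Hc X Q ≤ P.Pr s * (1 + h + L) := by
  have h1 : P.Hc X Q ≤ P.Hc (fun w => (X w, s w)) Q := P.Hc_mono Q ((Fac.fst _ _).trans (Fac.fst _ _))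
  rw [P.Hc_chain] at h1
  have h2 := P.Hc_event_le' hC hsC hh
  have h3 : P.Hc X (fun w => (s w, Q w)) ≤ P.Hc X (fun w => s w) := P.Hc_anti X (Fac.fst _ _)
  have h4 := P.Hc_on_event_le x0 V h0 hV hL hc
  linarith

end FP

end Pool.Agent.M3
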