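import Pool.Agent.M3.FPInfo

/-!
# M3.FPPoE: product of experts

`D` = digit with values `1, -1`; `m = E[D|Z]`, `mx = E[D|X,Z]`, `my = E[D|Y,Z]`, `mxy = E[D|X,Y,Z]`.
`poe` = mean of the product of experts `P(D|X,Z) P(D|Y,Z) / P(D|Z)`, `zf` = its normalisation.
Main statement `poe_bound`:
`E (mxy - poe)^2 ≤ 2 (I(X;Y|D,Z) - I(X;Y|Z) + E log zf)`, and `log zf ≤ (mx-m)(my-m)/(1-m^2)`.
-/

set_option autoImplicit false
set_option linter.unusedSectionVars false

namespace Pool.Agent.M3

open Finset Pool.Agent.PWZ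

variable {Om : Type*} [Fintype Om]

noncomputable section

/-- normalisation of the product of experts -/
def zf (m x y : ℝ) : ℝ := 1 + (x - m) * (y - m) / (1 - m ^ 2)

/-- mean of the product of experts -/
def poe (m x y : ℝ) : ℝ :=
  m + (x - m) + (y - m) - (x - m) * (y - m) * (2 * m + (x - m) + (y - m)) / ((1 - m ^ 2) + (x - m) * (y - m))

end

theorem zf_pos {m x y : ℝ} (hm : |m| < 1) (hx : |x| ≤ 1) (hy : |y| ≤ 1)
    (h : (0 < 1 + x ∧ 0 < 1 + y) ∨ (0 < 1 - x ∧ 0 < 1 - y)) : 0 < zf m x y := by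
  obtain ⟨m1, m2⟩ := abs_lt.mp hm
  obtain ⟨x1, x2⟩ := abs_le.mp hx
  obtain ⟨y1, y2⟩ := abs_le.mp hy
  have hden : 0 < 1 - m ^ 2 := by nlinarith
  have e : zf m x y = ((1 + x) * (1 + y) * (1 - m) + (1 - x) * (1 - y) * (1 + m)) / (2 * (1 - m ^ 2)) := by
    unfold zf; field_simp; ring
  rw [e]
  refine div_pos ?_ (by linarith)
  have p1 : 0 ≤ (1 + x) * (1 + y) * (1 - m) := by
    have : 0 ≤ (1 + x) * (1 + y) := mul_nonneg (by linarith) (by linarith)
    exact mul_nonneg this (by linarith)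
  have p2 : 0 ≤ (1 - x) * (1 - y) * (1 + m) := by
    have : 0 ≤ (1 - x) * (1 - y) := mul_nonneg (by linarith) (by linarith)
    exact mul_nonneg this (by linarith)
  rcases h with ⟨a, b⟩ | ⟨a, b⟩
  · have : 0 < (1 + x) * (1 + y) * (1 - m) := mul_pos (mul_pos a b) (by linarith)
    linarith
  · have : 0 < (1 - x) * (1 - y) * (1 + m) := mul_pos (mul_pos a b) (by linarith)
    linarith

theorem poe_mul_add {m x y : ℝ} (ht : (1 - m ^ 2) + (x - m) * (y - m) ≠ 0) :
    (1 + poe m x y) * ((1 - m ^ 2) + (x - m) * (y - m)) = (1 + x) * (1 + y) * (1 - m) := by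
  unfold poe
  set t := (1 - m ^ 2) + (x - m) * (y - m) with htd
  have h : (1 + (m + (x - m) + (y - m) - (x - m) * (y - m) * (2 * m + (x - m) + (y - m)) / t)) * t =
      (1 + (m + (x - m) + (y - m))) * t - (x - m) * (y - m) * (2 * m + (x - m) + (y - m)) := by
    field_simp
    ring
  rw [h, htd]
  ring

theorem poe_mul_sub {m x y : ℝ} (ht : (1 - m ^ 2) + (x - m) * (y - m) ≠ 0) :
    (1 - poe m x y) * ((1 - m ^ 2) + (x - m) * (y - m)) = (1 - x) * (1 - y) * (1 + m) := by
  unfold poe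
  set t := (1 - m ^ 2) + (x - m) * (y - m) with htd
  have h : (1 - (m + (x - m) + (y - m) - (x - m) * (y - m) * (2 * m + (x - m) + (y - m)) / t)) * t =
      (1 - (m + (x - m) + (y - m))) * t + (x - m) * (y - m) * (2 * m + (x - m) + (y - m)) := by
    field_simp
    ring
  rw [h, htd]
  ring

theorem zf_mul {m x y : ℝ} (hm : |m| < 1) :
    (1 - m ^ 2) * zf m x y = (1 - m ^ 2) + (x - m) * (y - m) := by
  obtain ⟨m1, m2⟩ := abs_lt.mp hm
  have hden : (1 - m ^ 2) ≠ 0 := by nlinarith
  unfold zf; field_simp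

theorem one_add_poe {m x y : ℝ} (hm : |m| < 1) (hz : 0 < zf m x y) :
    1 + poe m x y = (1 + x) * (1 + y) / ((1 + m) * zf m x y) := by
  obtain ⟨m1, m2⟩ := abs_lt.mp hm
  have hden : 0 < 1 - m ^ 2 := by nlinarith
  have h1 := zf_mul (x := x) (y := y) hm
  have h2 : 0 < (1 - m ^ 2) + (x - m) * (y - m) := by rw [← h1]; exact mul_pos hden hz
  have h3 := poe_mul_add h2.ne'
  have h4 : 0 < 1 + m := by linarith
  have h5 : 0 < 1 - m := by linarith
  rw [eq_div_iff (mul_pos h4 hz).ne']
  have h6 : (1 + poe m x y) * ((1 + m) * zf m x y) * (1 - m) = (1 + x) * (1 + y) * (1 - m) := by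
    rw [← h3, ← h1]; ring
  exact mul_right_cancel₀ h5.ne' h6

theorem one_sub_poe {m x y : ℝ} (hm : |m| < 1) (hz : 0 < zf m x y) :
    1 - poe m x y = (1 - x) * (1 - y) / ((1 - m) * zf m x y) := by
  obtain ⟨m1, m2⟩ := abs_lt.mp hm
  have hden : 0 < 1 - m ^ 2 := by nlinarith
  have h1 := zf_mul (x := x) (y := y) hm
  have h2 : 0 < (1 - m ^ 2) + (x - m) * (y - m) := by rw [← h1]; exact mul_pos hden hz
  have h3 := poe_mul_sub h2.ne'
  have h4 : 0 < 1 + m := by linarith
  have h5 : 0 < 1 - m := by linarith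
  rw [eq_div_iff (mul_pos h5 hz).ne']
  have h6 : (1 - poe m x y) * ((1 - m) * zf m x y) * (1 + m) = (1 - x) * (1 - y) * (1 + m) := by
    rw [← h3, ← h1]; ring
  exact mul_right_cancel₀ h4.ne' h6

/-- the product of experts is the sum of the experts up to the product of the deviations -/
theorem poe_approx {m x y : ℝ} (hm : |m| ≤ 1 / 2) (hx : |x| ≤ 1) (hy : |y| ≤ 1)
    (hz : 0 < zf m x y) :
    |poe m x y - (m + (x - m) + (y - m))| ≤ 16 * (|x - m| * |y - m|) := by
  obtain ⟨m1, m2⟩ := abs_le.mp hm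
  obtain ⟨x1, x2⟩ := abs_le.mp hx
  obtain ⟨y1, y2⟩ := abs_le.mp hy
  have hm' : |m| < 1 := lt_of_le_of_lt hm (by norm_num)
  have hden : 3 / 4 ≤ 1 - m ^ 2 := by nlinarith
  have hden0 : 0 < 1 - m ^ 2 := by linarith
  have h1 : (1 - m ^ 2) * zf m x y = (1 - m ^ 2) + (x - m) * (y - m) := by
    unfold zf; field_simp
  have h2 : 0 < (1 - m ^ 2) + (x - m) * (y - m) := by rw [← h1]; exact mul_pos hden0 hz
  rw [← abs_mul]
  by_cases hc : 1 / 2 ≤ (1 - m ^ 2) + (x - m) * (y - m)
  · have e : poe m x y - (m + (x - m) + (y - m)) =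
        -((x - m) * (y - m) * (x + y) / ((1 - m ^ 2) + (x - m) * (y - m))) := by
      unfold poe; ring
    rw [e, abs_neg, abs_div, abs_mul, abs_of_pos h2, div_le_iff₀ h2]
    have h3 : |x + y| ≤ 2 := by rw [abs_le]; constructor <;> linarith
    have h4 : 0 ≤ |(x - m) * (y - m)| := abs_nonneg _
    nlinarith [mul_le_mul_of_nonneg_left h3 h4, mul_le_mul_of_nonneg_left hc h4]
  · push Not at hc
    have h5 : 1 / 4 ≤ |(x - m) * (y - m)| := by
      have : (x - m) * (y - m) < -(1 / 4) := by linarith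
      rw [abs_of_neg (by linarith)]; linarith
    have e1 := one_add_poe hm' hz
    have e2 := one_sub_poe hm' hz
    have p1 : 0 ≤ 1 + poe m x y := by
      rw [e1]
      exact div_nonneg (mul_nonneg (by linarith) (by linarith)) (mul_nonneg (by linarith) hz.le)
    have p2 : 0 ≤ 1 - poe m x y := by
      rw [e2]
      exact div_nonneg (mul_nonneg (by linarith) (by linarith)) (mul_nonneg (by linarith) hz.le)
    have h6 : |poe m x y - (m + (x - m) + (y - m))| ≤ 4 := by
      rw [abs_le]; constructor <;> linarith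
    linarith

theorem log_zf_le {m x y : ℝ} (hz : 0 < zf m x y) :
    Real.log (zf m x y) ≤ (x - m) * (y - m) / (1 - m ^ 2) := by
  have := Real.log_le_sub_one_of_pos hz
  unfold zf at this ⊢
  linarith

namespace FP

variable (P : FP Om) {κ ι ι' : Type*}

/-- positivity of the conditional probability of the digit -/
theorem digit_pos {D : Om → ℝ} (hD : ∀ w, P.p w ≠ 0 → D w = 1 ∨ D w = -1) (Y : Om → κ) {w : Om}
    (hw : P.p w ≠ 0) : 0 < 1 + D w * P.ce Y D w := by
  have e1 := P.m_digit hD Y hw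
  have p1 := P.m_pos (fun v => (D v, Y v)) hw
  have p3 := P.m_pos Y hw
  rw [e1] at p1
  have := (mul_pos_iff_of_pos_left p3).mp p1
  linarith

/-- exact formula for the information about a digit -/
theorem I_digit_eq {D : Om → ℝ} (hD : ∀ w, P.p w ≠ 0 → D w = 1 ∨ D w = -1) (X : Om → κ) (Z : Om → ι) :
    P.I D X Z = P.E (fun w => Real.log (1 + D w * P.ce (fun v => (X v, Z v)) D w) -
      Real.log (1 + D w * P.ce Z D w)) := by
  unfold I H
  rw [← E_add, ← E_sub, ← E_sub]
  refine P.E_congr (fun w hw => ?_)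
  have e1 := P.m_digit hD (fun v => (X v, Z v)) hw
  have e2 := P.m_digit hD Z hw
  have q1 := P.digit_pos hD (fun v => (X v, Z v)) hw
  have q2 := P.digit_pos hD Z hw
  have p3 := P.m_pos (fun v => (X v, Z v)) hw
  have p4 := P.m_pos Z hw
  rw [e1, e2, Real.log_mul p3.ne' (by linarith), Real.log_mul p4.ne' (by linarith),
    Real.log_div q1.ne' (by norm_num), Real.log_div q2.ne' (by norm_num)]
  ring

/-- relative entropy of the law of a digit given `W` with respect to a predicted mean `q` -/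
theorem digit_kl_ge {D : Om → ℝ} (hD : ∀ w, P.p w ≠ 0 → D w = 1 ∨ D w = -1) {W : Om → κ} {q : Om → ℝ}
    (hq : Fac W q) (hq1 : ∀ w, P.p w ≠ 0 → |q w| ≤ 1) (hqp : ∀ w, P.p w ≠ 0 → 0 < 1 + D w * q w) :
    P.E (fun w => (P.ce W D w - q w) ^ 2) ≤
      2 * P.E (fun w => Real.log (1 + D w * P.ce W D w) - Real.log (1 + D w * q w)) := by
  have hD1 : ∀ w, P.p w ≠ 0 → |D w| ≤ 1 := fun w hw => by
    rcases hD w hw with h | h <;> rw [h] <;> norm_num
  set b : Om → ℝ := P.ce W D with hb
  have hbF : Fac W b := P.ce_fac _ _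
  have hsplit : P.E (fun w => Real.log (1 + D w * b w) - Real.log (1 + D w * q w)) =
      P.E (fun w => (1 + b w) / 2 * (Real.log (1 + b w) - Real.log (1 + q w)) +
        (1 - b w) / 2 * (Real.log (1 - b w) - Real.log (1 - q w))) := by
    have f1 : Fac W (fun w => (Real.log (1 + b w) - Real.log (1 + q w)) / 2) :=
      hbF.comp₂ hq (fun x y => (Real.log (1 + x) - Real.log (1 + y)) / 2)
    have f2 : Fac W (fun w => (Real.log (1 - b w) - Real.log (1 - q w)) / 2) :=
      hbF.comp₂ hq (fun x y => (Real.log (1 - x) - Real.log (1 - y)) / 2)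
    have g1 := P.E_mul_ce f1 D
    have g2 := P.E_mul_ce f2 D
    have l : P.E (fun w => Real.log (1 + D w * b w) - Real.log (1 + D w * q w)) =
        P.E (fun w => (Real.log (1 + b w) - Real.log (1 + q w)) / 2 +
          (Real.log (1 - b w) - Real.log (1 - q w)) / 2) +
        (P.E (fun w => (Real.log (1 + b w) - Real.log (1 + q w)) / 2 * D w) -
          P.E (fun w => (Real.log (1 - b w) - Real.log (1 - q w)) / 2 * D w)) := by
      rw [← E_sub, ← E_add]
      refine P.E_congr (fun w hw => ?_)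
      rcases hD w hw with h | h <;> rw [h]
      · ring_nf
      · have e1 : (1 : ℝ) + -1 * b w = 1 - b w := by ring
        have e2 : (1 : ℝ) + -1 * q w = 1 - q w := by ring
        rw [e1, e2]; ring
    rw [l, ← g1, ← g2, ← E_sub, ← E_add]
    exact P.E_congr (fun w _ => by ring)
  rw [hsplit, ← E_smul]
  refine P.E_mono (fun w hw => ?_)
  have hb1 : |b w| ≤ 1 := P.abs_ce_le_one hD1 _ w
  rcases lt_or_eq_of_le (hq1 w hw) with hlt | heq
  · have h := bin_pinsker hb1 hlt
    obtain ⟨q1, q2⟩ := abs_lt.mp hlt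
    have e1 : (1 + b w) / 2 * Real.log ((1 + b w) / (1 + q w)) =
        (1 + b w) / 2 * (Real.log (1 + b w) - Real.log (1 + q w)) := by
      by_cases h0 : 1 + b w = 0
      · rw [h0]; simp
      · rw [Real.log_div h0 (by linarith)]
    have e2 : (1 - b w) / 2 * Real.log ((1 - b w) / (1 - q w)) =
        (1 - b w) / 2 * (Real.log (1 - b w) - Real.log (1 - q w)) := by
      by_cases h0 : 1 - b w = 0
      · rw [h0]; simp
      · rw [Real.log_div h0 (by linarith)]
    rw [e1, e2] at h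
    linarith
  · have hbq : b w = q w := by
      have hall : ∀ v, P.p v ≠ 0 → W v = W w → D v = q w := by
        intro v hv hx
        have h1 := hqp v hv
        rw [hq v w hx] at h1
        rcases (abs_eq (by norm_num : (0:ℝ) ≤ 1)).mp heq with h | h <;> rcases hD v hv with h' | h' <;>
          rw [h, h'] at h1 <;> first | (exfalso; norm_num at h1; done) | (rw [h, h'])
      rw [← P.ce_const W (q w) hw, hb]
      unfold ce
      congr 1
      refine P.E_congr (fun v hv => ?_)
      by_cases hx : W v = W w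
      · rw [hall v hv hx]
      · rw [ind_not hx]; ring
    rw [hbq, sub_self, sub_self]
    rcases (abs_eq (by norm_num : (0:ℝ) ≤ 1)).mp heq with h | h <;> rw [h] <;> norm_num

/-- degenerate classes -/
theorem digit_degenerate {D : Om → ℝ} (hD : ∀ w, P.p w ≠ 0 → D w = 1 ∨ D w = -1) {X : Om → κ} {Z : Om → ι}
    (h : Fac X Z) {w : Om} (hw : P.p w ≠ 0) (hm : |P.ce Z D w| = 1) : P.ce X D w = P.ce Z D w := by
  have hall : ∀ v, P.p v ≠ 0 → Z v = Z w → D v = P.ce Z D w := by
    intro v hv hz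
    have h1 := P.digit_pos hD Z hv
    rw [P.ce_fac Z D v w hz] at h1
    rcases (abs_eq (by norm_num : (0:ℝ) ≤ 1)).mp hm with h' | h' <;> rcases hD v hv with h'' | h'' <;>
      rw [h', h''] at h1 <;> first | (exfalso; norm_num at h1; done) | (rw [h', h''])
  rw [← P.ce_const X (P.ce Z D w) hw]
  unfold ce
  congr 1
  refine P.E_congr (fun v hv => ?_)
  by_cases hx : X v = X w
  · rw [hall v hv (h v w hx)]; rfl
  · rw [ind_not hx]; ring

/-- the synergy identity -/
theorem I_synergy {D : Om → ℝ} (X : Om → κ) (Y : Om → ι) (Z : Om → ι') :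
    P.I D (fun w => (X w, Y w)) Z - P.I D X Z - P.I D Y Z =
      P.I X Y (fun w => (D w, Z w)) - P.I X Y Z := by
  unfold I
  rw [P.H_congr (X := fun w => ((X w, Y w), Z w)) (Y := fun w => (X w, Y w, Z w)),
    P.H_congr (X := fun w => (D w, (X w, Y w), Z w)) (Y := fun w => (X w, Y w, D w, Z w)),
    P.H_congr (X := fun w => (D w, X w, Z w)) (Y := fun w => (X w, D w, Z w)),
    P.H_congr (X := fun w => (D w, Y w, Z w)) (Y := fun w => (Y w, D w, Z w))]
  · ring
  all_goals intro v w h; simp only [Prod.mk.injEq] at h ⊢; tauto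

/-- **product of experts** -/
theorem poe_bound {D : Om → ℝ} (hD : ∀ w, P.p w ≠ 0 → D w = 1 ∨ D w = -1) (X : Om → κ) (Y : Om → ι)
    (Z : Om → ι') :
    P.E (fun w => (P.ce (fun v => (X v, Y v, Z v)) D w -
      poe (P.ce Z D w) (P.ce (fun v => (X v, Z v)) D w) (P.ce (fun v => (Y v, Z v)) D w)) ^ 2) ≤
      2 * (P.I X Y (fun w => (D w, Z w)) - P.I X Y Z +
        P.E (fun w => Real.log (zf (P.ce Z D w) (P.ce (fun v => (X v, Z v)) D w)
          (P.ce (fun v => (Y v, Z v)) D w)))) := by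
  have hD1 : ∀ w, P.p w ≠ 0 → |D w| ≤ 1 := fun w hw => by
    rcases hD w hw with h | h <;> rw [h] <;> norm_num
  set W : Om → κ × ι × ι' := fun v => (X v, Y v, Z v) with hW
  set m : Om → ℝ := P.ce Z D with hm
  set x : Om → ℝ := P.ce (fun v => (X v, Z v)) D with hx
  set y : Om → ℝ := P.ce (fun v => (Y v, Z v)) D with hy
  have fZ : Fac W Z := fun v w h => by simp only [hW, Prod.mk.injEq] at h; exact h.2.2
  have fXZ : Fac W (fun v => (X v, Z v)) := fun v w h => by
    simp only [hW, Prod.mk.injEq] at h ⊢; exact ⟨h.1, h.2.2⟩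
  have fYZ : Fac W (fun v => (Y v, Z v)) := fun v w h => by
    simp only [hW, Prod.mk.injEq] at h ⊢; exact ⟨h.2.1, h.2.2⟩
  have hmW : Fac W m := fZ.trans (P.ce_fac _ _)
  have hxW : Fac W x := fXZ.trans (P.ce_fac _ _)
  have hyW : Fac W y := fYZ.trans (P.ce_fac _ _)
  have hqW : Fac W (fun w => poe (m w) (x w) (y w)) := fun v w h => by
    show poe (m v) (x v) (y v) = poe (m w) (x w) (y w)
    rw [hmW v w h, hxW v w h, hyW v w h]
  -- pointwise facts
  have key : ∀ w, P.p w ≠ 0 → |poe (m w) (x w) (y w)| ≤ 1 ∧ 0 < 1 + D w * poe (m w) (x w) (y w) ∧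
      Real.log (1 + D w * poe (m w) (x w) (y w)) = Real.log (1 + D w * x w) + Real.log (1 + D w * y w) -
        Real.log (1 + D w * m w) - Real.log (zf (m w) (x w) (y w)) := by
    intro w hw
    have am : |m w| ≤ 1 := P.abs_ce_le_one hD1 _ w
    have ax : |x w| ≤ 1 := P.abs_ce_le_one hD1 _ w
    have ay : |y w| ≤ 1 := P.abs_ce_le_one hD1 _ w
    have pm : 0 < 1 + D w * m w := P.digit_pos hD _ hw
    have px : 0 < 1 + D w * x w := P.digit_pos hD _ hw
    have py : 0 < 1 + D w * y w := P.digit_pos hD _ hw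
    rcases lt_or_eq_of_le am with hlt | heq
    · have hz : 0 < zf (m w) (x w) (y w) := by
        refine zf_pos hlt ax ay ?_
        rcases hD w hw with h | h
        · left; rw [h] at px py; constructor <;> linarith
        · right; rw [h] at px py; constructor <;> linarith
      have e1 := one_add_poe hlt hz
      have e2 := one_sub_poe hlt hz
      obtain ⟨m1, m2⟩ := abs_lt.mp hlt
      obtain ⟨x1, x2⟩ := abs_le.mp ax
      obtain ⟨y1, y2⟩ := abs_le.mp ay
      have p1 : 0 ≤ 1 + poe (m w) (x w) (y w) := by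
        rw [e1]
        exact div_nonneg (mul_nonneg (by linarith) (by linarith)) (mul_nonneg (by linarith) hz.le)
      have p2 : 0 ≤ 1 - poe (m w) (x w) (y w) := by
        rw [e2]
        exact div_nonneg (mul_nonneg (by linarith) (by linarith)) (mul_nonneg (by linarith) hz.le)
      refine ⟨abs_le.mpr ⟨by linarith, by linarith⟩, ?_⟩
      rcases hD w hw with h | h
      · rw [h] at px py pm ⊢
        rw [one_mul] at px py pm ⊢
        rw [one_mul, one_mul, one_mul, e1]
        refine ⟨div_pos (mul_pos px py) (mul_pos pm hz), ?_⟩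
        rw [Real.log_div (mul_pos px py).ne' (mul_pos pm hz).ne', Real.log_mul px.ne' py.ne',
          Real.log_mul pm.ne' hz.ne']
        ring
      · rw [h] at px py pm ⊢
        have c : ∀ t : ℝ, 1 + -1 * t = 1 - t := fun t => by ring
        rw [c] at px py pm
        rw [c, c, c, c, e2]
        refine ⟨div_pos (mul_pos px py) (mul_pos pm hz), ?_⟩
        rw [Real.log_div (mul_pos px py).ne' (mul_pos pm hz).ne', Real.log_mul px.ne' py.ne',
          Real.log_mul pm.ne' hz.ne']
        ring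
    · have hx' : x w = m w := P.digit_degenerate hD (Fac.snd X Z) hw heq
      have hy' : y w = m w := P.digit_degenerate hD (Fac.snd Y Z) hw heq
      have hp : poe (m w) (x w) (y w) = m w := by rw [hx', hy']; unfold poe; ring
      have hz : zf (m w) (x w) (y w) = 1 := by rw [hx', hy']; unfold zf; simp
      rw [hp, hz, hx', hy', Real.log_one]
      exact ⟨am, pm, by ring⟩
  refine (P.digit_kl_ge hD hqW (fun w hw => (key w hw).1) (fun w hw => (key w hw).2.1)).trans ?_
  have hI := P.I_synergy (D := D) X Y Z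
  have i1 : P.I D (fun w => (X w, Y w)) Z = P.E (fun w => Real.log (1 + D w * P.ce W D w) -
      Real.log (1 + D w * m w)) := by
    rw [P.I_digit_eq hD]
    refine P.E_congr (fun w _ => ?_)
    rw [P.ce_congr_map (X := fun v => ((X v, Y v), Z v)) (Y := W)]
    · intro v w h; simp only [hW, Prod.mk.injEq] at h ⊢; tauto
    · intro v w h; simp only [hW, Prod.mk.injEq] at h ⊢; tauto
  have i2 := P.I_digit_eq hD X Z
  have i3 := P.I_digit_eq hD Y Z
  rw [← hI, i1, i2, i3, ← E_sub, ← E_sub, ← E_add]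
  refine mul_le_mul_of_nonneg_left (le_of_eq ?_) (by norm_num)
  refine P.E_congr (fun w hw => ?_)
  rw [(key w hw).2.2]
  ring

/-- the mean of the digit given both labels, as a sum -/
theorem digit_decomp {D : Om → ℝ} (hD : ∀ w, P.p w ≠ 0 → D w = 1 ∨ D w = -1) (X : Om → κ) (Y : Om → ι)
    (Z : Om → ι') : ∃ r : Om → ℝ,
    Fac (fun v => (X v, Y v, Z v)) r ∧
    P.E (fun w => r w ^ 2) ≤ 2 * (P.I X Y (fun w => (D w, Z w)) - P.I X Y Z +
        P.E (fun w => Real.log (zf (P.ce Z D w) (P.ce (fun v => (X v, Z v)) D w)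
          (P.ce (fun v => (Y v, Z v)) D w)))) ∧
    ∀ w, P.p w ≠ 0 → |P.ce Z D w| ≤ 1 / 2 →
      |P.ce (fun v => (X v, Y v, Z v)) D w| ≤ |P.ce Z D w| +
        |P.ce (fun v => (X v, Z v)) D w - P.ce Z D w| + |P.ce (fun v => (Y v, Z v)) D w - P.ce Z D w| +
        16 * (|P.ce (fun v => (X v, Z v)) D w - P.ce Z D w| *
          |P.ce (fun v => (Y v, Z v)) D w - P.ce Z D w|) + |r w| := by
  have hD1 : ∀ w, P.p w ≠ 0 → |D w| ≤ 1 := fun w hw => by
    rcases hD w hw with h | h <;> rw [h] <;> norm_num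
  set W : Om → κ × ι × ι' := fun v => (X v, Y v, Z v) with hW
  refine ⟨fun w => P.ce W D w -
      poe (P.ce Z D w) (P.ce (fun v => (X v, Z v)) D w) (P.ce (fun v => (Y v, Z v)) D w), ?_,
    P.poe_bound hD X Y Z, ?_⟩
  · have fZ : Fac W Z := fun v w h => by simp only [hW, Prod.mk.injEq] at h; exact h.2.2
    have fXZ : Fac W (fun v => (X v, Z v)) := fun v w h => by
      simp only [hW, Prod.mk.injEq] at h ⊢; exact ⟨h.1, h.2.2⟩
    have fYZ : Fac W (fun v => (Y v, Z v)) := fun v w h => by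
      simp only [hW, Prod.mk.injEq] at h ⊢; exact ⟨h.2.1, h.2.2⟩
    intro v w h
    show P.ce W D v - poe (P.ce Z D v) (P.ce (fun v => (X v, Z v)) D v) (P.ce (fun v => (Y v, Z v)) D v) =
      P.ce W D w - poe (P.ce Z D w) (P.ce (fun v => (X v, Z v)) D w) (P.ce (fun v => (Y v, Z v)) D w)
    rw [P.ce_fac W D v w h, (fZ.trans (P.ce_fac _ _)) v w h, (fXZ.trans (P.ce_fac _ _)) v w h,
      (fYZ.trans (P.ce_fac _ _)) v w h]
  · intro w hw hm
    have ax : |P.ce (fun v => (X v, Z v)) D w| ≤ 1 := P.abs_ce_le_one hD1 _ w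
    have ay : |P.ce (fun v => (Y v, Z v)) D w| ≤ 1 := P.abs_ce_le_one hD1 _ w
    have px : 0 < 1 + D w * P.ce (fun v => (X v, Z v)) D w := P.digit_pos hD _ hw
    have py : 0 < 1 + D w * P.ce (fun v => (Y v, Z v)) D w := P.digit_pos hD _ hw
    have hz : 0 < zf (P.ce Z D w) (P.ce (fun v => (X v, Z v)) D w) (P.ce (fun v => (Y v, Z v)) D w) := by
      refine zf_pos (lt_of_le_of_lt hm (by norm_num)) ax ay ?_
      rcases hD w hw with h | h
      · left; rw [h] at px py; constructor <;> linarith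
      · right; rw [h] at px py; constructor <;> linarith
    have h1 := poe_approx hm ax ay hz
    set mm := P.ce Z D w
    set xx := P.ce (fun v => (X v, Z v)) D w
    set yy := P.ce (fun v => (Y v, Z v)) D w
    set pp := poe mm xx yy
    set ww := P.ce W D w
    have h2 : |ww| ≤ |ww - pp| + |pp - (mm + (xx - mm) + (yy - mm))| + |mm + (xx - mm) + (yy - mm)| := by
      calc |ww| = |(ww - pp) + (pp - (mm + (xx - mm) + (yy - mm))) + (mm + (xx - mm) + (yy - mm))| := by
            congr 1; ring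
        _ ≤ _ := (abs_add_le _ _).trans (by linarith [abs_add_le (ww - pp) (pp - (mm + (xx - mm) + (yy - mm)))])
    have h3 : |mm + (xx - mm) + (yy - mm)| ≤ |mm| + |xx - mm| + |yy - mm| :=
      (abs_add_le _ _).trans (by linarith [abs_add_le mm (xx - mm)])
    linarith

end FP

end Pool.Agent.M3
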