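import Pool.Agent.M3.PubK
import Pool.Agent.M3.RdPull
import Pool.Agent.M3.FPPoE

/-!
# M3.NVD: format between section 2B and section 3 (helper7)

Model `Sp k N 3 Θ (Ξ × Co ..)`, `Co = CF × CF`: every vertex has private coins; the coins of the hidden vertex `i` are
the noise of the letters, `CF = (Ξ × V k) → Fin (N+1) → Nz.Ns Rz φ` = one sequence for every known point.
* `L1.pull` : a labelled pair, pulled back;
* `nuF`, `nuG` : noise of the letters of the pairs `(i,j)`, `(i,l)`; `letF`, `letG` : the letters up to the time `t`;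
* `LabH i j h D` : hypotheses on a raw pair `D : L1 (Sp k N 3 Θ Ξ) L`: closings are functions of the known vertex and the
  public node `Qn i h`, values and young are functions of both vertices and the public node;
* `mB`, `xB`, `zB` : the means of the digit given the public state, given one letter, given both letters;
* `B3` : THE OUTPUT OF SECTION 3 in the model.
-/

set_option autoImplicit false
set_option linter.unusedSectionVars false

namespace Pool.Agent.M3

open Finset Pool.Agent.PWZ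

namespace L1

variable {Om Om' L : Type*}

/-- the pull back of a labelled pair -/
def pull (D : L1 Om' L) (pi : Om → Om') : L1 Om L where
  x := fun t w => D.x t (pi w)
  xp := fun t w => D.xp t (pi w)
  ix := fun t w => D.ix t (pi w)
  cl := fun t w => D.cl t (pi w)
  bb := fun t w => D.bb t (pi w)

theorem oc_pull (D : L1 Om' L) (pi : Om → Om') (t : ℕ) (w : Om) : (D.pull pi).oc t w ↔ D.oc t (pi w) := by
  cases t <;> exact Iff.rfl

theorem tc_pull (D : L1 Om' L) (pi : Om → Om') (t : ℕ) (w : Om) : (D.pull pi).tc t w = D.tc t (pi w) := by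
  cases t <;> rfl

theorem rp_pull (D : L1 Om' L) (pi : Om → Om') (t : ℕ) (w : Om) : (D.pull pi).rp t w = D.rp t (pi w) := by
  induction t with
  | zero => rfl
  | succ t ih =>
    unfold rp
    by_cases h : D.cl t (pi w)
    · rw [if_pos h, if_pos (show (D.pull pi).cl t w from h)]; rfl
    · rw [if_neg h, if_neg (show ¬ (D.pull pi).cl t w from h), ih]

end L1

namespace Mod

open Pool.Agent.M3.Bin

/-- noise of the letters of one hidden point: one sequence for every known point -/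
def CF (k N : ℕ) (Ξ : Type) (Rz : ℕ) (φ : Type) : Type := Ξ × V k → Fin (N + 1) → Nz.Ns Rz φ

/-- the private coins of a vertex -/
def Co (k N : ℕ) (Ξ : Type) (Rz : ℕ) (φ : Type) : Type := CF k N Ξ Rz φ × CF k N Ξ Rz φ

noncomputable instance {k N : ℕ} {Ξ : Type} {Rz : ℕ} {φ : Type} [Fintype Ξ] [Fintype φ] : Fintype (CF k N Ξ Rz φ) := by
  classical
  unfold CF
  infer_instance

instance {k N : ℕ} {Ξ : Type} {Rz : ℕ} {φ : Type} : Nonempty (CF k N Ξ Rz φ) := ⟨fun _ _ => (0, none)⟩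

noncomputable instance {k N : ℕ} {Ξ : Type} {Rz : ℕ} {φ : Type} [Fintype Ξ] [Fintype φ] : Fintype (Co k N Ξ Rz φ) := by
  unfold Co
  infer_instance

instance {k N : ℕ} {Ξ : Type} {Rz : ℕ} {φ : Type} : Nonempty (Co k N Ξ Rz φ) := by
  unfold Co
  infer_instance

variable {k N : ℕ} {Θ Ξ : Type} {Rz : ℕ} {φ L : Type}

/-- noise of the letters of the pair `(i,j)` -/
def nuF (i j : Fin 3) (w : Sp k N 3 Θ (Ξ × Co k N Ξ Rz φ)) : Fin (N + 1) → Nz.Ns Rz φ :=
  (vx i w).1.2.1 (vx j (pic w))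

/-- noise of the letters of the pair `(i,l)` -/
def nuG (i l : Fin 3) (w : Sp k N 3 Θ (Ξ × Co k N Ξ Rz φ)) : Fin (N + 1) → Nz.Ns Rz φ :=
  (vx i w).1.2.2 (vx l (pic w))

/-- the letters of the pair `(i,j)` up to the time `t` -/
noncomputable def letF (Rz J n0 : ℕ) (i j : Fin 3) (D : L1 (Sp k N 3 Θ Ξ) L) (t : ℕ)
    (w : Sp k N 3 Θ (Ξ × Co k N Ξ Rz (Bool → L))) : Fin (N + 1) → Option (Bool → L) :=
  (D.pull pic).LF Rz J n0 (nuF i j) t w

/-- the letters of the pair `(i,l)` up to the time `t` -/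
noncomputable def letG (Rz J n0 : ℕ) (i l : Fin 3) (D : L1 (Sp k N 3 Θ Ξ) L) (t : ℕ)
    (w : Sp k N 3 Θ (Ξ × Co k N Ξ Rz (Bool → L))) : Fin (N + 1) → Option (Bool → L) :=
  (D.pull pic).LF Rz J n0 (nuG i l) t w

/-- the letters in terms of the raw pair -/
theorem letF_eq (J n0 : ℕ) (i j : Fin 3) (D : L1 (Sp k N 3 Θ Ξ) L) (t : ℕ)
    (w : Sp k N 3 Θ (Ξ × Co k N Ξ Rz (Bool → L))) :
    letF Rz J n0 i j D t w =
      Nz.lab Rz J n0 (fun s => D.oc s (pic w)) (fun s => D.tc s (pic w)) t (nuF i j w) := by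
  unfold letF L1.LF
  have h1 : (fun s => (D.pull pic).oc s w) = fun s => D.oc s (pic w) :=
    funext fun s => propext (D.oc_pull pic s w)
  have h2 : (fun s => (D.pull pic).tc s w) = fun s => D.tc s (pic w) := funext fun s => D.tc_pull pic s w
  rw [h1, h2]

theorem letG_eq (J n0 : ℕ) (i l : Fin 3) (D : L1 (Sp k N 3 Θ Ξ) L) (t : ℕ)
    (w : Sp k N 3 Θ (Ξ × Co k N Ξ Rz (Bool → L))) :
    letG Rz J n0 i l D t w =
      Nz.lab Rz J n0 (fun s => D.oc s (pic w)) (fun s => D.tc s (pic w)) t (nuG i l w) := by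
  unfold letG L1.LF
  have h1 : (fun s => (D.pull pic).oc s w) = fun s => D.oc s (pic w) :=
    funext fun s => propext (D.oc_pull pic s w)
  have h2 : (fun s => (D.pull pic).tc s w) = fun s => D.tc s (pic w) := funext fun s => D.tc_pull pic s w
  rw [h1, h2]

/-- hypotheses on a raw pair (hidden vertex `i`, known vertex `j`) -/
structure LabH (i j : Fin 3) (h : ℕ) (D : L1 (Sp k N 3 Θ Ξ) L) : Prop where
  cl : ∀ t v w, vx j v = vx j w → Qn i h (ex N (t + 1)) v = Qn i h (ex N (t + 1)) w → (D.cl t v ↔ D.cl t w)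
  x : ∀ t, Fac (fun w => (vx i w, vx j w, Qn i h (ex N t) w)) (D.x t)
  bb : ∀ t v w, vx i v = vx i w → vx j v = vx j w → Qn i h (ex N (t + 1)) v = Qn i h (ex N (t + 1)) w →
    (D.bb t v ↔ D.bb t w)

/-! ## the output of section 3 -/

section means

variable {Ci Λ υ : Type} [Fintype Θ] [Nonempty Θ] [Fintype Ξ] [Nonempty Ξ] [Fintype Ci] [Nonempty Ci]

/-- mean of the digit at the public state (public node, class) -/
noncomputable def mB (i : Fin 3) (h : ℕ) (Uc : ℕ → Sp k N 3 Θ (Ξ × Ci) → υ) (t : ℕ) (w : Sp k N 3 Θ (Ξ × Ci)) : ℝ :=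
  Pm.ce (fun v => (Qn i h (ex N t) v, Uc t v)) (Dg (ex N (t + 1))) w

/-- mean of the digit given the known vertex `a`, its letter and the public state -/
noncomputable def xB (i : Fin 3) (h : ℕ) (Uc : ℕ → Sp k N 3 Θ (Ξ × Ci) → υ) (a : Fin 3)
    (LF : ℕ → Sp k N 3 Θ (Ξ × Ci) → Λ) (t : ℕ) (w : Sp k N 3 Θ (Ξ × Ci)) : ℝ :=
  Pm.ce (fun v => (vx a (pic v), LF t v, Qn i h (ex N t) v, Uc t v)) (Dg (ex N (t + 1))) w

/-- mean of the digit given both known vertices, both letters and the public state -/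
noncomputable def zB (i j l : Fin 3) (h : ℕ) (Uc : ℕ → Sp k N 3 Θ (Ξ × Ci) → υ)
    (LF LG : ℕ → Sp k N 3 Θ (Ξ × Ci) → Λ) (t : ℕ) (w : Sp k N 3 Θ (Ξ × Ci)) : ℝ :=
  Pm.ce (fun v => (vx j (pic v), vx l (pic v), LF t v, LG t v, Qn i h (ex N t) v, Uc t v)) (Dg (ex N (t + 1))) w

/-- THE OUTPUT OF SECTION 3: classes `Uc t` of the hidden vertex (functions of the vertex `i` without coins and of the
public node, refining), bounds for the biases -/
structure B3 (i j l : Fin 3) (h : ℕ) (LF LG : ℕ → Sp k N 3 Θ (Ξ × Ci) → Λ) (Uc : ℕ → Sp k N 3 Θ (Ξ × Ci) → υ)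
    (hm hx e3 : ℝ) : Prop where
  Uf : ∀ t, Fac (fun w => (vx i (pic w), Qn i h (ex N t) w)) (Uc t)
  Us : ∀ t, Fac (fun w => (Qn i h (ex N (t + 1)) w, Uc (t + 1) w)) (Uc t)
  m2 : ∑ t ∈ range N, Pm.E (fun w => mB i h Uc t w ^ 2) ≤ hm
  x2 : ∑ t ∈ range N, Pm.E (fun w => (xB i h Uc j LF t w - mB i h Uc t w) ^ 2) ≤ hx
  y2 : ∑ t ∈ range N, Pm.E (fun w => (xB i h Uc l LG t w - mB i h Uc t w) ^ 2) ≤ hx
  syn : ∑ t ∈ range N, Pm.E (fun w => ind (|mB i h Uc t w| ≤ 1 / 2) *
    (zB i j l h Uc LF LG t w - poe (mB i h Uc t w) (xB i h Uc j LF t w) (xB i h Uc l LG t w)) ^ 2) ≤ e3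

end means

end Mod

end Pool.Agent.M3
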