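import Pool.Agent.M3.NVN

/-!
# M3.NVB: the biases of the named view (helper7)

* `PulC.ce_drop` : independent randomness in the map can be dropped; `pulC_oth` : coins of the known vertices;
* `ce_AA` : the mean of the digit in the view is `zB`; `bias_real`, `bias_AA` : THE BIAS INEQUALITY;
* `Zk_Qn`, `Zk_vx`, `letF_fac`, `letG_fac` : measurability;
* `b0v`, `bv`, `cv`, `chv` : the fields `b0`, `b`, `c`, `ch` of `NV`.
-/

set_option autoImplicit false
set_option linter.unusedSectionVars false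

namespace Pool.Agent.M3

open Finset Pool.Agent.PWZ

/-- independent randomness in the map can be dropped -/
theorem PulC.ce_drop {Om Om' C κ ι : Type*} [Fintype Om] [Fintype Om'] [Fintype C] {P : FP Om} {P' : FP Om'}
    {pi : Om → Om'} {PC : FP C} {c : Om → C} (H : PulC P P' pi PC c) {X : Om → κ} {h : Om → ℝ} (hX : Fac pi X)
    (hh : Fac pi h) (Y : C → ι) {w : Om} (hw : P.p w ≠ 0) :
    P.ce (fun v => (X v, Y (c v))) h w = P.ce X h w := by
  classical
  let X' : Om' → Option κ := fun v => if hv : ∃ u, pi u = v then some (X hv.choose) else none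
  let h' : Om' → ℝ := fun v => if hv : ∃ u, pi u = v then h hv.choose else 0
  have e1 : ∀ v, X' (pi v) = some (X v) := by
    intro v
    have hv : ∃ u, pi u = pi v := ⟨v, rfl⟩
    show (if hv : ∃ u, pi u = pi v then some (X hv.choose) else none) = some (X v)
    rw [dif_pos hv, hX _ _ hv.choose_spec]
  have e2 : ∀ v, h' (pi v) = h v := by
    intro v
    have hv : ∃ u, pi u = pi v := ⟨v, rfl⟩
    show (if hv : ∃ u, pi u = pi v then h hv.choose else 0) = h v
    rw [dif_pos hv, hh _ _ hv.choose_spec]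
  have e3 : h = fun v => h' (pi v) := funext fun v => (e2 v).symm
  have a1 : P.ce (fun v => (X v, Y (c v))) h w = P.ce (fun v => (X' (pi v), Y (c v))) h w := by
    refine P.ce_congr_map ?_ ?_ h w
    · intro v u hv
      simp only [Prod.mk.injEq] at hv ⊢
      exact ⟨by rw [e1, e1, hv.1], hv.2⟩
    · intro v u hv
      simp only [Prod.mk.injEq] at hv ⊢
      rw [e1, e1] at hv
      exact ⟨Option.some.inj hv.1, hv.2⟩
  have a2 : P.ce X h w = P.ce (fun v => X' (pi v)) h w := by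
    refine P.ce_congr_map ?_ ?_ h w
    · intro v u hv
      show X' (pi v) = X' (pi u)
      rw [e1, e1, hv]
    · intro v u hv
      have hv' : X' (pi v) = X' (pi u) := hv
      rw [e1, e1] at hv'
      exact Option.some.inj hv'
  rw [a1, a2, e3, H.ce X' Y h' hw, H.pul.ce X' h' w]

/-- the pointwise inequality -/
theorem bias_real {d m x y z : ℝ} (hd : d = 1 ∨ d = -1) (hx : |x| ≤ 1) (hy : |y| ≤ 1) (hz : |z| ≤ 1)
    (px : 0 < 1 + d * x) (py : 0 < 1 + d * y) :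
    z ^ 2 ≤ 4 * (ind (|m| ≤ 1 / 2) * (z - poe m x y) ^ 2) + (4 * m ^ 2 + 2500 * (x - m) ^ 2 + 2500 * (y - m) ^ 2) := by
  by_cases hm : |m| ≤ 1 / 2
  · rw [ind_of hm, one_mul]
    have hzf : 0 < zf m x y := by
      refine zf_pos (lt_of_le_of_lt hm (by norm_num)) hx hy ?_
      rcases hd with h | h
      · left; rw [h] at px py; exact ⟨by linarith, by linarith⟩
      · right; rw [h] at px py; exact ⟨by linarith, by linarith⟩
    have h1 := poe_approx hm hx hy hzf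
    have hxm : |x - m| ≤ 3 / 2 := by
      have := abs_sub x m
      linarith
    have h2 : 16 * (|x - m| * |y - m|) ≤ 24 * |y - m| := by
      have := mul_le_mul_of_nonneg_right hxm (abs_nonneg (y - m))
      linarith
    have h3 : |z| ≤ |z - poe m x y| + (|m| + |x - m| + 25 * |y - m|) := by
      have a1 : z = (z - poe m x y) + ((poe m x y - (m + (x - m) + (y - m))) + (m + (x - m) + (y - m))) := by ring
      have a2 := abs_add_le (z - poe m x y) ((poe m x y - (m + (x - m) + (y - m))) + (m + (x - m) + (y - m)))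
      have a3 := abs_add_le (poe m x y - (m + (x - m) + (y - m))) (m + (x - m) + (y - m))
      have a4 := abs_add_le (m + (x - m)) (y - m)
      have a5 := abs_add_le m (x - m)
      rw [← a1] at a2
      linarith
    have h4 : z ^ 2 ≤ (|z - poe m x y| + (|m| + |x - m| + 25 * |y - m|)) ^ 2 := by
      rw [← sq_abs z]
      exact pow_le_pow_left₀ (abs_nonneg _) h3 2
    refine h4.trans ?_
    have b1 : |z - poe m x y| ^ 2 = (z - poe m x y) ^ 2 := sq_abs _
    have b2 : |m| ^ 2 = m ^ 2 := sq_abs _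
    have b3 : |x - m| ^ 2 = (x - m) ^ 2 := sq_abs _
    have b4 : |y - m| ^ 2 = (y - m) ^ 2 := sq_abs _
    rw [← b1, ← b2, ← b3, ← b4]
    nlinarith [sq_nonneg (|z - poe m x y| - |m|), sq_nonneg (|z - poe m x y| - |x - m|),
      sq_nonneg (|z - poe m x y| - 25 * |y - m|), sq_nonneg (|m| - |x - m|), sq_nonneg (|m| - 25 * |y - m|),
      sq_nonneg (|x - m| - 25 * |y - m|), sq_nonneg (|x - m|)]
  · rw [ind_not hm, zero_mul, mul_zero]
    have h1 : (1 : ℝ) / 2 ≤ |m| := (not_le.mp hm).le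
    have h2 : (1 / 2 : ℝ) ^ 2 ≤ |m| ^ 2 := pow_le_pow_left₀ (by norm_num) h1 2
    have h3 : |z| ^ 2 ≤ 1 ^ 2 := pow_le_pow_left₀ (abs_nonneg _) hz 2
    rw [sq_abs] at h2 h3
    nlinarith [sq_nonneg (x - m), sq_nonneg (y - m)]

namespace Mod

open Pool.Agent.M3.Bin

variable {k N : ℕ} {Θ Ξ : Type} [Fintype Θ] [Nonempty Θ] [Fintype Ξ] [Nonempty Ξ]

/-- the coins of the other vertices -/
def cEq {Ci : Type} (i : Fin 3) :
    Sp k N 3 Θ (Ξ × Ci) ≃ (Sp k N 3 Θ Ξ × Ci) × ({a : Fin 3 // a ≠ i} → Ci) :=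
  coinEquiv.trans (((Equiv.refl _).prodCongr (Equiv.funSplitAt i Ci)).trans (Equiv.prodAssoc _ _ _).symm)

theorem pulC_oth {Ci : Type} [Fintype Ci] [Nonempty Ci] (i : Fin 3) :
    PulC (Pm (k := k) (N := N) (m := 3) (Θ := Θ) (P := Ξ × Ci)) (FP.unif (Sp k N 3 Θ Ξ × Ci))
      (fun w => (pic w, coin w i)) (FP.unif ({a : Fin 3 // a ≠ i} → Ci)) (fun w => fun a => coin w a.1) :=
  pulC_unif (cEq (k := k) (N := N) (Θ := Θ) (Ξ := Ξ) i)

section view

variable {i : Fin 3} {M : ℕ} {Uu Up υ : Type} {Rz : ℕ}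
variable {j l : Fin 3} {h J n0 : ℕ} {S : RTm k N Θ Ξ i M Uu Up} {ix : ℕ → Sp k N 3 Θ Ξ → Bool}
    {Uc : ℕ → OmC k N Θ Ξ Rz M → υ}

theorem letF_pic {D : L1 (Sp k N 3 Θ Ξ) (Fin (M + 1))} (t : ℕ) :
    Fac (fun w : OmC k N Θ Ξ Rz M => (pic w, coin w i)) (letF Rz J n0 i j D t) := by
  intro v w hv
  simp only [Prod.mk.injEq] at hv
  rw [letF_eq, letF_eq]
  have h1 : nuF i j v = nuF i j w := by
    show (coin v i).1 (vx j (pic v)) = (coin w i).1 (vx j (pic w))
    rw [hv.1, hv.2]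
  rw [hv.1, h1]

theorem letG_pic {D : L1 (Sp k N 3 Θ Ξ) (Fin (M + 1))} (t : ℕ) :
    Fac (fun w : OmC k N Θ Ξ Rz M => (pic w, coin w i)) (letG Rz J n0 i l D t) := by
  intro v w hv
  simp only [Prod.mk.injEq] at hv
  rw [letG_eq, letG_eq]
  have h1 : nuG i l v = nuG i l w := by
    show (coin v i).2 (vx l (pic v)) = (coin w i).2 (vx l (pic w))
    rw [hv.1, hv.2]
  rw [hv.1, h1]

/-- the mean of the digit in the view: the coins of the known vertices do not matter -/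
theorem ce_AA (hij : j ≠ i) (hli : l ≠ i) (hlj : l ≠ j)
    (hUf : ∀ t, Fac (fun w => (vx i (pic w), Qn i h (ex N t) w)) (Uc t)) (t : ℕ) (w : OmC k N Θ Ξ Rz M) :
    Pm.ce (AA J n0 i j l S ix Uc t) (Dg (ex N (t + 1))) w =
      zB i j l h Uc (letF Rz J n0 i j (fL S ix)) (letG Rz J n0 i l (gL S ix)) t w := by
  let X : OmC k N Θ Ξ Rz M → _ := fun v => (vx j (pic v), vx l (pic v), letF Rz J n0 i j (fL S ix) t v,
    letG Rz J n0 i l (gL S ix) t v, Qn i h (ex N t) v, Uc t v)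
  have hX : Fac (fun w : OmC k N Θ Ξ Rz M => (pic w, coin w i)) X := by
    intro v u hv
    have e1 := letF_pic (J := J) (n0 := n0) (j := j) (D := fL S ix) t v u hv
    have e2 := letG_pic (J := J) (n0 := n0) (l := l) (D := gL S ix) t v u hv
    simp only [Prod.mk.injEq] at hv
    have e3 : Qn i h (ex N t) v = Qn i h (ex N t) u := by rw [← Qn_pic, ← Qn_pic, hv.1]
    have e4 : Uc t v = Uc t u := hUf t v u (by simp only [Prod.mk.injEq]; exact ⟨by rw [hv.1], e3⟩)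
    show (_, _, _, _, _, _) = (_, _, _, _, _, _)
    rw [hv.1, e1, e2, e3, e4]
  have hd : Fac (fun w : OmC k N Θ Ξ Rz M => (pic w, coin w i)) (Dg (ex N (t + 1))) := by
    intro v u hv
    simp only [Prod.mk.injEq] at hv
    rw [← Dg_pic, ← Dg_pic, hv.1]
  have h1 := (pulC_oth (k := k) (N := N) (Θ := Θ) (Ξ := Ξ) (Ci := Co k N Ξ Rz (Bool → Fin (M + 1))) i).ce_drop
    hX hd (fun c => c) (w := w) (Pm_ne w)
  refine Eq.trans ?_ h1
  refine Pm.ce_congr_map ?_ ?_ _ w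
  · intro v u hv
    have hK : Kn i (ex N t) v = Kn i (ex N t) u := congrArg Prod.fst hv
    obtain ⟨h2, h3, h4⟩ := AA_known hij hli h t hv
    unfold AA at hv
    simp only [Prod.mk.injEq] at hv
    show ((_, _, _, _, _, _), _) = ((_, _, _, _, _, _), _)
    rw [h2, h3, h4, hv.2.1, hv.2.2.1, hv.2.2.2]
    simp only [Prod.mk.injEq, true_and]
    funext a
    unfold Kn at hK
    simp only [Prod.mk.injEq] at hK
    have h5 : vx a.1 v = vx a.1 u := congrFun hK.2.2 a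
    show (vx a.1 v).1.2 = (vx a.1 u).1.2
    rw [h5]
  · intro v u hv
    simp only [Prod.mk.injEq, X] at hv
    obtain ⟨⟨h1, h2, h3, h4, h5, h6⟩, h7⟩ := hv
    have hK : Kn i (ex N t) v = Kn i (ex N t) u := by
      refine Z_Kn hij hli hlj h (ex N t) v u ?_
      simp only [Prod.mk.injEq]
      refine ⟨?_, ?_, h5⟩
      · have c1 : coin v j = coin u j := congrFun h7 ⟨j, hij⟩
        rw [vx_pic, vx_pic] at h1
        simp only [Prod.mk.injEq] at h1
        exact Prod.ext (Prod.ext h1.1 c1) h1.2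
      · have c1 : coin v l = coin u l := congrFun h7 ⟨l, hli⟩
        rw [vx_pic, vx_pic] at h2
        simp only [Prod.mk.injEq] at h2
        exact Prod.ext (Prod.ext h2.1 c1) h2.2
    unfold AA
    rw [hK, h3, h4, h6]

/-- THE BIAS INEQUALITY -/
theorem bias_AA (hij : j ≠ i) (hli : l ≠ i) (hlj : l ≠ j)
    (hUf : ∀ t, Fac (fun w => (vx i (pic w), Qn i h (ex N t) w)) (Uc t)) (t : ℕ) (w : OmC k N Θ Ξ Rz M) :
    Pm.ce (AA J n0 i j l S ix Uc t) (Dg (ex N (t + 1))) w ^ 2 ≤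
      4 * (ind (|mB i h Uc t w| ≤ 1 / 2) *
        (zB i j l h Uc (letF Rz J n0 i j (fL S ix)) (letG Rz J n0 i l (gL S ix)) t w -
          poe (mB i h Uc t w) (xB i h Uc j (letF Rz J n0 i j (fL S ix)) t w)
            (xB i h Uc l (letG Rz J n0 i l (gL S ix)) t w)) ^ 2) +
      (4 * mB i h Uc t w ^ 2 +
        2500 * (xB i h Uc j (letF Rz J n0 i j (fL S ix)) t w - mB i h Uc t w) ^ 2 +
        2500 * (xB i h Uc l (letG Rz J n0 i l (gL S ix)) t w - mB i h Uc t w) ^ 2) := by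
  rw [ce_AA hij hli hlj hUf]
  have hD : ∀ v : OmC k N Θ Ξ Rz M, Pm.p v ≠ 0 → Dg (ex N (t + 1)) v = 1 ∨ Dg (ex N (t + 1)) v = -1 :=
    fun v _ => Dg_val _ v
  have h1 : ∀ {κ : Type} (Y : OmC k N Θ Ξ Rz M → κ), |Pm.ce Y (Dg (ex N (t + 1))) w| ≤ 1 := by
    intro κ Y
    refine (Pm.abs_ce_le Y _ w).trans (Pm.ce_le_const (fun v hv => ?_) (Pm_ne w))
    rcases hD v hv with h | h <;> rw [h] <;> norm_num
  exact bias_real (hD w (Pm_ne w)) (h1 _) (h1 _) (h1 _) (Pm.digit_pos hD _ (Pm_ne w)) (Pm.digit_pos hD _ (Pm_ne w))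

end view

/-! ## measurability -/

theorem Zk_vx {P : Type} {U : Finset (Fin 3)} {a : Fin 3} (ha : a ∈ U) (s : ℕ) :
    Fac (Zk (k := k) (N := N) (Θ := Θ) (P := P) U s) (vx a) := by
  intro v w hv
  unfold Zk at hv
  simp only [Prod.mk.injEq] at hv
  exact congrFun hv.2.1 ⟨a, ha⟩

theorem Zk_Qn {P : Type} {U : Finset (Fin 3)} {i : Fin 3} (hi : i ∈ U) {h e s : ℕ} (hs : s ≤ e - (h + 3)) :
    Fac (Zk (k := k) (N := N) (Θ := Θ) (P := P) U s) (Qn i h e) := by
  intro v w hv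
  have h1 := Zk_vx hi s v w hv
  unfold Zk at hv
  simp only [Prod.mk.injEq] at hv
  unfold Qn
  simp only [Prod.mk.injEq]
  refine ⟨hv.1, ?_, ?_⟩
  · unfold Zn
    rw [h1, hv.2.2.1]
  · funext a
    unfold sc
    by_cases ha : a.1 ∈ U
    · have h2 : vx a.1 v = vx a.1 w := congrFun hv.2.1 ⟨a.1, ha⟩
      rw [h2]
    · have h2 := congrFun hv.2.2.2 ⟨a.1, ha⟩
      unfold cl at h2
      exact flr_mono_eq hs h2

section letters

variable {i j l : Fin 3} {M : ℕ} {Rz h J n0 : ℕ}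

theorem Qn_le {P : Type} (i : Fin 3) (h : ℕ) {s t : ℕ} (hs : s ≤ t) {v w : Sp k N 3 Θ P}
    (hv : Qn i h (ex N t) v = Qn i h (ex N t) w) : Qn i h (ex N s) v = Qn i h (ex N s) w :=
  (filt_Qn (k := k) (N := N) (Θ := Θ) (P := P) i h).le hs v w hv

theorem tc_fac {D : L1 (Sp k N 3 Θ Ξ) (Fin (M + 1))} (hD : LabH i j h D) (t : ℕ) {v w : Sp k N 3 Θ Ξ}
    (hi : vx i v = vx i w) (hj : vx j v = vx j w) (hQ : Qn i h (ex N t) v = Qn i h (ex N t) w) :
    ∀ s ≤ t, (D.oc s v ↔ D.oc s w) ∧ D.tc s v = D.tc s w := by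
  classical
  intro s hs
  have hQs := Qn_le i h hs hQ
  cases s with
  | zero =>
    refine ⟨Iff.rfl, ?_⟩
    show some (D.x 0 v) = some (D.x 0 w)
    rw [hD.x 0 v w (by simp only [Prod.mk.injEq]; exact ⟨hi, hj, hQs⟩)]
  | succ s =>
    have h1 := hD.cl s v w hj hQs
    have h2 := hD.bb s v w hi hj hQs
    have h3 := hD.x (s + 1) v w (by simp only [Prod.mk.injEq]; exact ⟨hi, hj, hQs⟩)
    refine ⟨h1, ?_⟩
    rw [L1.tc_succ, L1.tc_succ]
    by_cases h4 : D.cl s w ∧ D.bb s w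
    · rw [if_pos h4, if_pos ⟨h1.2 h4.1, h2.2 h4.2⟩, h3]
    · rw [if_neg h4, if_neg (fun h5 => h4 ⟨h1.1 h5.1, h2.1 h5.2⟩)]

theorem letF_fac {D : L1 (Sp k N 3 Θ Ξ) (Fin (M + 1))} (hD : LabH i j h D) (t : ℕ) :
    Fac (fun w : OmC k N Θ Ξ Rz M => (vx i w, vx j w, Qn i h (ex N t) w)) (letF Rz J n0 i j D t) := by
  intro v w hv
  simp only [Prod.mk.injEq] at hv
  obtain ⟨h1, h2, h3⟩ := hv
  rw [letF_eq, letF_eq]
  have e1 : nuF i j v = nuF i j w := by
    show (vx i v).1.2.1 (vx j (pic v)) = (vx i w).1.2.1 (vx j (pic w))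
    rw [vx_pic, vx_pic, h1, h2]
  rw [e1]
  have k1 : vx i (pic v) = vx i (pic w) := by rw [vx_pic, vx_pic, h1]
  have k2 : vx j (pic v) = vx j (pic w) := by rw [vx_pic, vx_pic, h2]
  have key := tc_fac hD t k1 k2 h3
  exact Nz.lab_congr (fun s hs => (key s hs).1) (fun s hs => (key s hs).2) _

theorem letG_fac {D : L1 (Sp k N 3 Θ Ξ) (Fin (M + 1))} (hD : LabH i l h D) (t : ℕ) :
    Fac (fun w : OmC k N Θ Ξ Rz M => (vx i w, vx l w, Qn i h (ex N t) w)) (letG Rz J n0 i l D t) := by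
  intro v w hv
  simp only [Prod.mk.injEq] at hv
  obtain ⟨h1, h2, h3⟩ := hv
  rw [letG_eq, letG_eq]
  have e1 : nuG i l v = nuG i l w := by
    show (vx i v).1.2.2 (vx l (pic v)) = (vx i w).1.2.2 (vx l (pic w))
    rw [vx_pic, vx_pic, h1, h2]
  rw [e1]
  have k1 : vx i (pic v) = vx i (pic w) := by rw [vx_pic, vx_pic, h1]
  have k2 : vx l (pic v) = vx l (pic w) := by rw [vx_pic, vx_pic, h2]
  have key := tc_fac hD t k1 k2 h3
  exact Nz.lab_congr (fun s hs => (key s hs).1) (fun s hs => (key s hs).2) _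

end letters

end Mod

end Pool.Agent.M3
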