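import Pool.Agent.M3.Rd
import Pool.Agent.M3.Rec

/-!
# M3.RdR: Lemma R of section 2B (sizes), helper96 (statements: helper7)

* (R1) after the rules the young masses are small: `<= be` given `(b, Q t)`, `(c, Q t)`, `< al` given `Q t`; all of them given
  `(b, c, Q t)` by independence; one level later a factor 2 (`dbl`);
* (R2) `al * number of (P) <= number of changes`, `be * number of (p) <= number of changes of f`: every change is
  recorded at most once (pathwise potential: changes - recorded - [young] `>= 0`);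
* (R3) entropy of the records: new record = label on the event `s = closing and young`, `C = closing` is public:
  `Hc_event_q` with `q = al / 4`, `Hc_on_event_le` for the label.
-/

set_option autoImplicit false
set_option linter.unusedSectionVars false

namespace Pool.Agent.M3

open Finset Pool.Agent.PWZ

/-! ## tools -/

namespace FP

variable {Om : Type*} [Fintype Om] (P : FP Om) {κ ι ν ν' : Type*}

/-- monotonicity of the conditional mean, on the fibre only -/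
theorem ce_mono_on {X : Om → κ} {f g : Om → ℝ} {w : Om} (h : ∀ v, P.p v ≠ 0 → X v = X w → f v ≤ g v) :
    P.ce X f w ≤ P.ce X g w := by
  have hf : Fac X (fun v => ind (X v = X w)) := Fac.ind (fun a b e => by rw [e])
  have h1 := P.ce_mul hf f w
  have h2 := P.ce_mul hf g w
  rw [ind_of rfl, one_mul] at h1 h2
  rw [← h1, ← h2]
  refine P.ce_mono (fun v hv => ?_) w
  by_cases hx : X v = X w
  · rw [ind_of hx, one_mul, one_mul]; exact h v hv hx
  · rw [ind_not hx, zero_mul, zero_mul]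

theorem ce_zero_on {X : Om → κ} {f : Om → ℝ} {w : Om} (hw : P.p w ≠ 0) (h : ∀ v, P.p v ≠ 0 → X v = X w → f v = 0) :
    P.ce X f w = 0 := by
  have h1 : P.ce X f w ≤ P.ce X (fun _ => 0) w := P.ce_mono_on (fun v hv hx => (h v hv hx).le)
  have h2 : P.ce X (fun _ => 0) w ≤ P.ce X f w := P.ce_mono_on (fun v hv hx => (h v hv hx).ge)
  rw [P.ce_const X 0 hw] at h1 h2
  exact le_antisymm h1 h2

/-- entropy of one new record: label `x` on the event `s`, inside the public event `C` -/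
theorem Hc_record_le {F : Type*} [Fintype F] (N : Om → ν) (N' : Om → ν') (Z : Om → κ) (x : Om → F) {s C : Om → Prop}
    (hC : ∀ v w, Z v = Z w → (C v ↔ C w)) (hsC : ∀ w, s w → C w)
    (hN : ∀ v w, N v = N w → (s v ↔ s w) → (s v → x v = x w) → N' v = N' w) {q L : ℝ} (hq : 0 < q) (hL : 0 ≤ L)
    (hF : (Fintype.card F : ℝ) ≤ Real.exp L) :
    P.Hc N' (fun w => (N w, Z w)) ≤ P.Pr s * (1 + Real.log (1 / q) + L) + q * P.Pr C := by
  classical
  set X : Om → Option F := fun w => if s w then some (x w) else none with hX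
  have h1 : P.Hc N' (fun w => (N w, Z w)) ≤ P.Hc X (fun w => (N w, Z w)) := by
    refine P.Hc_mono _ ?_
    intro v w e
    simp only [Prod.mk.injEq] at e
    refine hN v w e.2.1 ?_ ?_
    · have e1 := e.1
      simp only [hX] at e1
      by_cases a : s v
      · by_cases b : s w
        · exact ⟨fun _ => b, fun _ => a⟩
        · rw [if_pos a, if_neg b] at e1; exact absurd e1 (by simp)
      · by_cases b : s w
        · rw [if_neg a, if_pos b] at e1; exact absurd e1 (by simp)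
        · exact ⟨fun h => absurd h a, fun h => absurd h b⟩
    · intro a
      have e1 := e.1
      simp only [hX] at e1
      rw [if_pos a] at e1
      by_cases b : s w
      · rw [if_pos b] at e1; exact Option.some.inj e1
      · rw [if_neg b] at e1; exact absurd e1 (by simp)
  have h2 : P.Hc X (fun w => (N w, Z w)) ≤ P.Hc X Z := P.Hc_anti _ (Fac.snd _ _)
  have h3 : P.Hc X Z ≤ P.Hc (fun w => (X w, s w)) Z := P.Hc_mono Z ((Fac.fst _ _).trans (Fac.fst _ _))
  rw [P.Hc_chain] at h3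
  have h4 : P.Hc X (fun w => (s w, Z w)) ≤ P.Hc X (fun w => s w) := P.Hc_anti X (Fac.fst _ _)
  have h5 : P.Hc X (fun w => s w) ≤ P.Pr s * L := by
    refine P.Hc_on_event_le none (Finset.univ.image some) (fun w _ hs => if_neg hs) (fun w _ hs => ?_) hL ?_
    · rw [if_pos hs]
      exact Finset.mem_image_of_mem _ (Finset.mem_univ _)
    · refine le_trans ?_ hF
      exact_mod_cast Finset.card_image_le.trans (le_of_eq Finset.card_univ)
  have h6 := P.Hc_event_q (s := s) (C := C) (Q := Z) hC (fun w _ hs => hsC w hs) hq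
  nlinarith [h1, h2, h3, h4, h5, h6]

end FP

namespace RD

variable {Om : Type*} [Fintype Om] {κ : ℕ → Type*} {α β γ F G U : Type*} {R : RD Om κ α β γ F G U}

/-! ## (R1) -/

theorem yf_ZB (h : R.Hyp) (t : ℕ) {w : Om} (hw : R.P.p w ≠ 0) :
    R.P.ce (R.ZB t) (fun v => ind (R.yf t v)) w ≤ R.be := by
  cases t with
  | zero =>
    rw [R.P.ce_zero_on hw (fun v _ _ => ind_not (R.yf_zero v))]
    exact h.be0.le
  | succ t =>
    by_cases hp : R.pf t w
    · rw [R.P.ce_zero_on hw (fun v _ hv => ind_not (fun hy => ?_))]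
      · exact h.be0.le
      · exact ((R.yf_succ t v).1 hy).2.2 ((pf_iff hv).2 hp)
    · refine le_trans (R.P.ce_mono_on (fun v _ _ => ind_mono (fun hy => ((R.yf_succ t v).1 hy).1))) ?_
      exact (not_le.1 hp).le

theorem yg_ZC (h : R.Hyp) (t : ℕ) {w : Om} (hw : R.P.p w ≠ 0) :
    R.P.ce (R.ZC t) (fun v => ind (R.yg t v)) w ≤ R.be := by
  cases t with
  | zero =>
    rw [R.P.ce_zero_on hw (fun v _ _ => ind_not (R.yg_zero v))]
    exact h.be0.le
  | succ t =>
    by_cases hp : R.pg t w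
    · rw [R.P.ce_zero_on hw (fun v _ hv => ind_not (fun hy => ?_))]
      · exact h.be0.le
      · exact ((R.yg_succ t v).1 hy).2.2 ((pg_iff hv).2 hp)
    · refine le_trans (R.P.ce_mono_on (fun v _ _ => ind_mono (fun hy => ((R.yg_succ t v).1 hy).1))) ?_
      exact (not_le.1 hp).le

theorem yu_Q (h : R.Hyp) (t : ℕ) {w : Om} (hw : R.P.p w ≠ 0) :
    R.P.ce (R.Q t) (fun v => ind (R.yu t v)) w ≤ R.al := by
  cases t with
  | zero =>
    rw [R.P.ce_zero_on hw (fun v _ _ => ind_not (R.yu_zero v))]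
    exact h.al0.le
  | succ t =>
    by_cases hp : R.pp t w
    · rw [R.P.ce_zero_on hw (fun v _ hv => ind_not (fun hy => ?_))]
      · exact h.al0.le
      · exact ((R.yu_succ t v).1 hy).2 ((pp_iff hv).2 hp)
    · refine le_trans (R.P.ce_mono_on (fun v _ _ => ind_mono (fun hy => ((R.yu_succ t v).1 hy).1))) ?_
      unfold pp ppo at hp
      push Not at hp
      exact hp.2.2.le

/-- before the private closings: no public closing -/
theorem bf_Q (_h : R.Hyp) {t : ℕ} {w : Om} (_hw : R.P.p w ≠ 0) (hp : ¬ R.pp t w) :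
    R.P.ce (R.Q (t + 1)) (fun v => ind (R.bf t v)) w ≤ R.al := by
  unfold pp ppo at hp
  push Not at hp
  exact hp.1.le

theorem bg_Q (_h : R.Hyp) {t : ℕ} {w : Om} (_hw : R.P.p w ≠ 0) (hp : ¬ R.pp t w) :
    R.P.ce (R.Q (t + 1)) (fun v => ind (R.bg t v)) w ≤ R.al := by
  unfold pp ppo at hp
  push Not at hp
  exact hp.2.1.le

theorem bu_Q (_h : R.Hyp) {t : ℕ} {w : Om} (_hw : R.P.p w ≠ 0) (hp : ¬ R.pp t w) :
    R.P.ce (R.Q (t + 1)) (fun v => ind (R.bu t v)) w ≤ R.al := by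
  unfold pp ppo at hp
  push Not at hp
  exact hp.2.2.le

theorem yf_fac (h : R.Hyp) (t : ℕ) : Fac (fun w => (R.A w, R.B w, R.Q t w)) (fun w => ind (R.yf t w)) :=
  Fac.ind (fun v w e => by
    simp only [Prod.mk.injEq] at e
    exact yf_iff h t e.1 e.2.1 e.2.2)

theorem yg_fac (h : R.Hyp) (t : ℕ) : Fac (fun w => (R.A w, R.C w, R.Q t w)) (fun w => ind (R.yg t w)) :=
  Fac.ind (fun v w e => by
    simp only [Prod.mk.injEq] at e
    exact yg_iff h t e.1 e.2.1 e.2.2)

theorem yu_facB (h : R.Hyp) (t : ℕ) : Fac (fun w => (R.A w, R.B w, R.Q t w)) (fun w => ind (R.yu t w)) :=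
  Fac.ind (fun v w e => by
    simp only [Prod.mk.injEq] at e
    exact yu_iff h t e.1 e.2.2)

theorem yu_facC (h : R.Hyp) (t : ℕ) : Fac (fun w => (R.A w, R.C w, R.Q t w)) (fun w => ind (R.yu t w)) :=
  Fac.ind (fun v w e => by
    simp only [Prod.mk.injEq] at e
    exact yu_iff h t e.1 e.2.2)

theorem al_le_be (h : R.Hyp) : R.al ≤ R.be := by
  have h1 := h.ab
  have h2 := h.be0
  have h3 := h.be1
  nlinarith

theorem ind_nutd (t : ℕ) (v : Om) : ind (¬ R.utd t v) ≤ ind (R.yf t v) + ind (R.yg t v) + ind (R.yu t v) := by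
  by_cases h1 : R.yf t v
  · rw [ind_of h1]
    linarith [ind_le_one (¬ R.utd t v), ind_nonneg (R.yg t v), ind_nonneg (R.yu t v)]
  · by_cases h2 : R.yg t v
    · rw [ind_of h2]
      linarith [ind_le_one (¬ R.utd t v), ind_nonneg (R.yf t v), ind_nonneg (R.yu t v)]
    · by_cases h3 : R.yu t v
      · rw [ind_of h3]
        linarith [ind_le_one (¬ R.utd t v), ind_nonneg (R.yf t v), ind_nonneg (R.yg t v)]
      · rw [ind_not (fun hn => hn (⟨h1, h2, h3⟩ : R.utd t v))]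
        linarith [ind_nonneg (R.yf t v), ind_nonneg (R.yg t v), ind_nonneg (R.yu t v)]

theorem utd_le (t : ℕ) {ι : Type*} (X : Om → ι) (w : Om) :
    R.P.ce X (fun v => ind (¬ R.utd t v)) w ≤ R.P.ce X (fun v => ind (R.yf t v)) w +
      R.P.ce X (fun v => ind (R.yg t v)) w + R.P.ce X (fun v => ind (R.yu t v)) w := by
  rw [← R.P.ce_add, ← R.P.ce_add]
  exact R.P.ce_mono (fun v _ => ind_nutd t v) w

theorem yu_ZB (h : R.Hyp) (t : ℕ) {w : Om} (hw : R.P.p w ≠ 0) :
    R.P.ce (R.ZB t) (fun v => ind (R.yu t v)) w ≤ R.al := by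
  rw [h.iB t _ (yu_facC h t) w hw]; exact yu_Q h t hw

theorem yu_ZC (h : R.Hyp) (t : ℕ) {w : Om} (hw : R.P.p w ≠ 0) :
    R.P.ce (R.ZC t) (fun v => ind (R.yu t v)) w ≤ R.al := by
  rw [h.iC t _ (yu_facB h t) w hw]; exact yu_Q h t hw

theorem yu_Z (h : R.Hyp) (t : ℕ) {w : Om} (hw : R.P.p w ≠ 0) :
    R.P.ce (R.Z t) (fun v => ind (R.yu t v)) w ≤ R.al := by
  rw [h.iBC t _ (yu_facB h t) w hw]; exact yu_ZB h t hw

theorem yf_Z (h : R.Hyp) (t : ℕ) {w : Om} (hw : R.P.p w ≠ 0) :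
    R.P.ce (R.Z t) (fun v => ind (R.yf t v)) w ≤ R.be := by
  rw [h.iBC t _ (yf_fac h t) w hw]; exact yf_ZB h t hw

theorem yg_Z (h : R.Hyp) (t : ℕ) {w : Om} (hw : R.P.p w ≠ 0) :
    R.P.ce (R.Z t) (fun v => ind (R.yg t v)) w ≤ R.be := by
  rw [h.iCB t _ (yg_fac h t) w hw]; exact yg_ZC h t hw

theorem yf_Q (h : R.Hyp) (t : ℕ) {w : Om} (hw : R.P.p w ≠ 0) :
    R.P.ce (R.Q t) (fun v => ind (R.yf t v)) w ≤ R.be := by
  rw [← R.P.ce_tower (ZB_fac_Q t)]
  exact R.P.ce_le_const (fun v hv => yf_ZB h t hv) hw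

theorem yg_Q (h : R.Hyp) (t : ℕ) {w : Om} (hw : R.P.p w ≠ 0) :
    R.P.ce (R.Q t) (fun v => ind (R.yg t v)) w ≤ R.be := by
  rw [← R.P.ce_tower (ZC_fac_Q t)]
  exact R.P.ce_le_const (fun v hv => yg_ZC h t hv) hw

theorem yg_ZB (h : R.Hyp) (t : ℕ) {w : Om} (hw : R.P.p w ≠ 0) :
    R.P.ce (R.ZB t) (fun v => ind (R.yg t v)) w ≤ R.be := by
  rw [h.iB t _ (yg_fac h t) w hw]; exact yg_Q h t hw

theorem yf_ZC (h : R.Hyp) (t : ℕ) {w : Om} (hw : R.P.p w ≠ 0) :
    R.P.ce (R.ZC t) (fun v => ind (R.yf t v)) w ≤ R.be := by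
  rw [h.iC t _ (yf_fac h t) w hw]; exact yf_Q h t hw

theorem utd_Z (h : R.Hyp) (t : ℕ) {w : Om} (hw : R.P.p w ≠ 0) :
    R.P.ce (R.Z t) (fun v => ind (¬ R.utd t v)) w ≤ 3 * R.be := by
  have h1 := utd_le (R := R) t (R.Z t) w
  linarith [yf_Z h t hw, yg_Z h t hw, yu_Z h t hw, al_le_be h]

theorem utd_Z_succ (h : R.Hyp) (t : ℕ) {w : Om} (hw : R.P.p w ≠ 0) :
    R.P.ce (R.Z (t + 1)) (fun v => ind (¬ R.utd t v)) w ≤ 6 * R.be := by
  have h1 := h.dbl t (fun v => ind (¬ R.utd t v)) (fun v => ind_nonneg _) w hw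
  linarith [utd_Z h t hw]

theorem utd_ZB (h : R.Hyp) (t : ℕ) {w : Om} (hw : R.P.p w ≠ 0) :
    R.P.ce (R.ZB t) (fun v => ind (¬ R.utd t v)) w ≤ 3 * R.be := by
  have h1 := utd_le (R := R) t (R.ZB t) w
  linarith [yf_ZB h t hw, yg_ZB h t hw, yu_ZB h t hw, al_le_be h]

theorem utd_ZC (h : R.Hyp) (t : ℕ) {w : Om} (hw : R.P.p w ≠ 0) :
    R.P.ce (R.ZC t) (fun v => ind (¬ R.utd t v)) w ≤ 3 * R.be := by
  have h1 := utd_le (R := R) t (R.ZC t) w
  linarith [yf_ZC h t hw, yg_ZC h t hw, yu_ZC h t hw, al_le_be h]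

/-! ## (R2) -/

/-- every change of `f` is recorded at most once -/
theorem rec_f (n : ℕ) (w : Om) :
    ∑ t ∈ range n, ind ((R.pp t w ∨ R.pf t w) ∧ R.bf t w) + ind (R.yf n w) ≤
      ∑ t ∈ range n, ind (R.f (t + 1) w ≠ R.f t w) := by
  induction n with
  | zero => simp only [Finset.range_zero, Finset.sum_empty, zero_add]; rw [ind_not (R.yf_zero w)]
  | succ n ih =>
    rw [Finset.sum_range_succ, Finset.sum_range_succ]
    have h1 : ind ((R.pp n w ∨ R.pf n w) ∧ R.bf n w) + ind (R.yf (n + 1) w) = ind (R.bf n w) := by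
      by_cases hb : R.bf n w
      · by_cases hc : R.pp n w ∨ R.pf n w
        · rw [ind_of ⟨hc, hb⟩, ind_of hb, ind_not (fun hy => ?_), add_zero]
          have := (R.yf_succ n w).1 hy
          rcases hc with hc | hc
          · exact this.2.1 hc
          · exact this.2.2 hc
        · rw [ind_not (fun hh => hc hh.1), ind_of hb, ind_of ((R.yf_succ n w).2 ⟨hb, ?_, ?_⟩), zero_add]
          · exact fun hh => hc (Or.inl hh)
          · exact fun hh => hc (Or.inr hh)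
      · rw [ind_not (fun hh => hb hh.2), ind_not hb, ind_not (fun hy => hb ((R.yf_succ n w).1 hy).1), add_zero]
    have h2 : ind (R.bf n w) ≤ ind (R.yf n w) + ind (R.f (n + 1) w ≠ R.f n w) := ind_or_le _ _
    linarith

theorem rec_g (n : ℕ) (w : Om) :
    ∑ t ∈ range n, ind ((R.pp t w ∨ R.pg t w) ∧ R.bg t w) + ind (R.yg n w) ≤
      ∑ t ∈ range n, ind (R.g (t + 1) w ≠ R.g t w) := by
  induction n with
  | zero => simp only [Finset.range_zero, Finset.sum_empty, zero_add]; rw [ind_not (R.yg_zero w)]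
  | succ n ih =>
    rw [Finset.sum_range_succ, Finset.sum_range_succ]
    have h1 : ind ((R.pp n w ∨ R.pg n w) ∧ R.bg n w) + ind (R.yg (n + 1) w) = ind (R.bg n w) := by
      by_cases hb : R.bg n w
      · by_cases hc : R.pp n w ∨ R.pg n w
        · rw [ind_of ⟨hc, hb⟩, ind_of hb, ind_not (fun hy => ?_), add_zero]
          have := (R.yg_succ n w).1 hy
          rcases hc with hc | hc
          · exact this.2.1 hc
          · exact this.2.2 hc
        · rw [ind_not (fun hh => hc hh.1), ind_of hb, ind_of ((R.yg_succ n w).2 ⟨hb, ?_, ?_⟩), zero_add]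
          · exact fun hh => hc (Or.inl hh)
          · exact fun hh => hc (Or.inr hh)
      · rw [ind_not (fun hh => hb hh.2), ind_not hb, ind_not (fun hy => hb ((R.yg_succ n w).1 hy).1), add_zero]
    have h2 : ind (R.bg n w) ≤ ind (R.yg n w) + ind (R.g (n + 1) w ≠ R.g n w) := ind_or_le _ _
    linarith

theorem rec_u (n : ℕ) (w : Om) :
    ∑ t ∈ range n, ind (R.pp t w ∧ R.bu t w) + ind (R.yu n w) ≤
      ∑ t ∈ range n, ind (R.u (t + 1) w ≠ R.u t w) := by
  induction n with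
  | zero => simp only [Finset.range_zero, Finset.sum_empty, zero_add]; rw [ind_not (R.yu_zero w)]
  | succ n ih =>
    rw [Finset.sum_range_succ, Finset.sum_range_succ]
    have h1 : ind (R.pp n w ∧ R.bu n w) + ind (R.yu (n + 1) w) = ind (R.bu n w) := by
      by_cases hb : R.bu n w
      · by_cases hc : R.pp n w
        · rw [ind_of ⟨hc, hb⟩, ind_of hb, ind_not (fun hy => ((R.yu_succ n w).1 hy).2 hc), add_zero]
        · rw [ind_not (fun hh => hc hh.1), ind_of hb, ind_of ((R.yu_succ n w).2 ⟨hb, hc⟩), zero_add]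
      · rw [ind_not (fun hh => hb hh.2), ind_not hb, ind_not (fun hy => hb ((R.yu_succ n w).1 hy).1), add_zero]
    have h2 : ind (R.bu n w) ≤ ind (R.yu n w) + ind (R.u (n + 1) w ≠ R.u n w) := ind_or_le _ _
    linarith

/-- sum of probabilities = expectation of the sum -/
theorem sum_Pr (P : FP Om) (n : ℕ) (s : ℕ → Om → Prop) :
    ∑ t ∈ range n, P.Pr (s t) = P.E (fun w => ∑ t ∈ range n, ind (s t w)) := by
  rw [P.E_sum]; rfl

theorem sum_rec_f (n : ℕ) :
    ∑ t ∈ range n, R.P.Pr (fun w => (R.pp t w ∨ R.pf t w) ∧ R.bf t w) ≤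
      ∑ t ∈ range n, R.P.Pr (fun w => R.f (t + 1) w ≠ R.f t w) := by
  rw [sum_Pr, sum_Pr]
  refine R.P.E_mono (fun w _ => ?_)
  linarith [rec_f (R := R) n w, ind_nonneg (R.yf n w)]

theorem sum_rec_g (n : ℕ) :
    ∑ t ∈ range n, R.P.Pr (fun w => (R.pp t w ∨ R.pg t w) ∧ R.bg t w) ≤
      ∑ t ∈ range n, R.P.Pr (fun w => R.g (t + 1) w ≠ R.g t w) := by
  rw [sum_Pr, sum_Pr]
  refine R.P.E_mono (fun w _ => ?_)
  linarith [rec_g (R := R) n w, ind_nonneg (R.yg n w)]

theorem sum_rec_u (n : ℕ) :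
    ∑ t ∈ range n, R.P.Pr (fun w => R.pp t w ∧ R.bu t w) ≤
      ∑ t ∈ range n, R.P.Pr (fun w => R.u (t + 1) w ≠ R.u t w) := by
  rw [sum_Pr, sum_Pr]
  refine R.P.E_mono (fun w _ => ?_)
  linarith [rec_u (R := R) n w, ind_nonneg (R.yu n w)]

/-- a public event pays its conditional mass -/
theorem pub_pay (P : FP Om) {ι : Type*} {X : Om → ι} {C s : Om → Prop} (hC : ∀ v w, X v = X w → (C v ↔ C w)) :
    P.E (fun w => ind (C w) * P.ce X (fun v => ind (s v)) w) = P.Pr (fun w => C w ∧ s w) := by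
  rw [P.E_mul_ce (Fac.ind hC)]
  unfold FP.Pr
  exact P.E_congr (fun w _ => by rw [ind_and])

theorem pp_count (_h : R.Hyp) (n : ℕ) :
    R.al * ∑ t ∈ range n, R.P.Pr (R.pp t) ≤
      ∑ t ∈ range n, (R.P.Pr (fun w => R.f (t + 1) w ≠ R.f t w) + R.P.Pr (fun w => R.g (t + 1) w ≠ R.g t w) +
        R.P.Pr (fun w => R.u (t + 1) w ≠ R.u t w)) := by
  have h1 : ∀ t, R.al * R.P.Pr (R.pp t) ≤ R.P.Pr (fun w => R.pp t w ∧ R.bf t w) +
      R.P.Pr (fun w => R.pp t w ∧ R.bg t w) + R.P.Pr (fun w => R.pp t w ∧ R.bu t w) := by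
    intro t
    have hC : ∀ v w, R.Q (t + 1) v = R.Q (t + 1) w → (R.pp t v ↔ R.pp t w) := fun v w e => pp_iff e
    rw [← pub_pay R.P hC, ← pub_pay R.P hC, ← pub_pay R.P hC]
    unfold FP.Pr
    rw [← R.P.E_smul, ← R.P.E_add, ← R.P.E_add]
    refine R.P.E_mono (fun w _ => ?_)
    have a1 := R.P.ce_nonneg (X := R.Q (t + 1)) (f := fun v => ind (R.bf t v)) (fun v _ => ind_nonneg _) w
    have a2 := R.P.ce_nonneg (X := R.Q (t + 1)) (f := fun v => ind (R.bg t v)) (fun v _ => ind_nonneg _) w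
    have a3 := R.P.ce_nonneg (X := R.Q (t + 1)) (f := fun v => ind (R.bu t v)) (fun v _ => ind_nonneg _) w
    by_cases hp : R.pp t w
    · rw [ind_of hp]
      unfold pp ppo at hp
      rcases hp with hp | hp | hp <;> linarith
    · rw [ind_not hp]
      linarith
  rw [Finset.mul_sum]
  have h2 : ∑ t ∈ range n, R.P.Pr (fun w => R.pp t w ∧ R.bf t w) ≤ ∑ t ∈ range n, R.P.Pr (fun w => R.f (t + 1) w ≠ R.f t w) :=
    le_trans (Finset.sum_le_sum (fun t _ => R.P.Pr_mono (fun w _ hh => ⟨Or.inl hh.1, hh.2⟩))) (sum_rec_f n)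
  have h3 : ∑ t ∈ range n, R.P.Pr (fun w => R.pp t w ∧ R.bg t w) ≤ ∑ t ∈ range n, R.P.Pr (fun w => R.g (t + 1) w ≠ R.g t w) :=
    le_trans (Finset.sum_le_sum (fun t _ => R.P.Pr_mono (fun w _ hh => ⟨Or.inl hh.1, hh.2⟩))) (sum_rec_g n)
  have h4 := sum_rec_u (R := R) n
  have h5 := Finset.sum_le_sum (fun t (_ : t ∈ range n) => h1 t)
  rw [Finset.sum_add_distrib, Finset.sum_add_distrib] at h5 ⊢
  linarith

theorem pf_count (_h : R.Hyp) (n : ℕ) :
    R.be * ∑ t ∈ range n, R.P.Pr (R.pf t) ≤ ∑ t ∈ range n, R.P.Pr (fun w => R.f (t + 1) w ≠ R.f t w) := by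
  have h1 : ∀ t, R.be * R.P.Pr (R.pf t) ≤ R.P.Pr (fun w => R.pf t w ∧ R.bf t w) := by
    intro t
    have hC : ∀ v w, R.ZB (t + 1) v = R.ZB (t + 1) w → (R.pf t v ↔ R.pf t w) := fun v w e => pf_iff e
    rw [← pub_pay R.P hC]
    unfold FP.Pr
    rw [← R.P.E_smul]
    refine R.P.E_mono (fun w _ => ?_)
    by_cases hp : R.pf t w
    · rw [ind_of hp]
      unfold pf at hp
      linarith
    · rw [ind_not hp]
      linarith
  rw [Finset.mul_sum]
  refine le_trans (Finset.sum_le_sum (fun t _ => h1 t)) ?_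
  exact le_trans (Finset.sum_le_sum (fun t _ => R.P.Pr_mono (fun w _ hh => ⟨Or.inr hh.1, hh.2⟩))) (sum_rec_f n)

theorem pg_count (_h : R.Hyp) (n : ℕ) :
    R.be * ∑ t ∈ range n, R.P.Pr (R.pg t) ≤ ∑ t ∈ range n, R.P.Pr (fun w => R.g (t + 1) w ≠ R.g t w) := by
  have h1 : ∀ t, R.be * R.P.Pr (R.pg t) ≤ R.P.Pr (fun w => R.pg t w ∧ R.bg t w) := by
    intro t
    have hC : ∀ v w, R.ZC (t + 1) v = R.ZC (t + 1) w → (R.pg t v ↔ R.pg t w) := fun v w e => pg_iff e
    rw [← pub_pay R.P hC]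
    unfold FP.Pr
    rw [← R.P.E_smul]
    refine R.P.E_mono (fun w _ => ?_)
    by_cases hp : R.pg t w
    · rw [ind_of hp]
      unfold pg at hp
      linarith
    · rw [ind_not hp]
      linarith
  rw [Finset.mul_sum]
  refine le_trans (Finset.sum_le_sum (fun t _ => h1 t)) ?_
  exact le_trans (Finset.sum_le_sum (fun t _ => R.P.Pr_mono (fun w _ hh => ⟨Or.inr hh.1, hh.2⟩))) (sum_rec_g n)

/-! ## (R3) -/

theorem log_al (h : R.Hyp) : 0 ≤ Real.log (1 / (R.al / 4)) := by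
  apply Real.log_nonneg
  rw [one_div_div, le_div_iff₀ h.al0]
  have h1 := h.ab
  have h2 := h.be0
  have h3 := h.be1
  nlinarith

theorem one_div_al : (1 : ℝ) / (R.al / 4) = 4 / R.al := one_div_div _ _

/-- entropy of the records of `f`, given the path and `b` -/
theorem rf_entropy [Fintype F] (h : R.Hyp) (n : ℕ) {L nf ng nu : ℝ} (hL : 0 ≤ L)
    (hF : (Fintype.card F : ℝ) ≤ Real.exp L)
    (hf : ∑ t ∈ range n, R.P.Pr (fun w => R.f (t + 1) w ≠ R.f t w) ≤ nf)
    (hg : ∑ t ∈ range n, R.P.Pr (fun w => R.g (t + 1) w ≠ R.g t w) ≤ ng)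
    (hu : ∑ t ∈ range n, R.P.Pr (fun w => R.u (t + 1) w ≠ R.u t w) ≤ nu) :
    ∑ t ∈ range n, R.P.Hc (R.Nf (t + 1)) (fun w => (R.Nf t w, R.ZB (t + 1) w)) ≤
      nf * (1 + Real.log (4 / R.al) + L) + (2 * nf + ng + nu) / 4 := by
  have hal := h.al0
  have hbe := h.be0
  have hlog := log_al h
  have h1 : ∀ t, R.P.Hc (R.Nf (t + 1)) (fun w => (R.Nf t w, R.ZB (t + 1) w)) ≤
      R.P.Pr (fun w => (R.pp t w ∨ R.pf t w) ∧ R.bf t w) * (1 + Real.log (1 / (R.al / 4)) + L) +
        R.al / 4 * R.P.Pr (fun w => R.pp t w ∨ R.pf t w) := by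
    intro t
    refine R.P.Hc_record_le (R.Nf t) (R.Nf (t + 1)) (R.ZB (t + 1)) (R.f (t + 1)) ?_ (fun w hs => hs.1) ?_
      (by positivity) hL hF
    · intro v w e
      rw [pp_iff (ZB_fac_Q (t + 1) v w e), pf_iff e]
    · intro v w e1 e2 e3
      funext s
      unfold Nf
      rcases Nat.lt_succ_iff_lt_or_eq.1 s.isLt with hs | hs
      · exact congrFun e1 ⟨s.val, hs⟩
      · rw [hs]
        by_cases hv : (R.pp t v ∨ R.pf t v) ∧ R.bf t v
        · have hw := e2.1 hv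
          rw [rf, rf, if_pos hv.1, if_pos hw.1]
          exact e3 hv
        · have hw := fun hh => hv (e2.2 hh)
          have a1 : R.rf (t + 1) v = R.rf t v := by
            by_contra hne; exact hv (rf_ne hne)
          have a2 : R.rf (t + 1) w = R.rf t w := by
            by_contra hne; exact hw (rf_ne hne)
          rw [a1, a2]
          exact congrFun e1 ⟨t, Nat.lt_succ_self t⟩
  refine le_trans (Finset.sum_le_sum (fun t _ => h1 t)) ?_
  rw [Finset.sum_add_distrib, ← Finset.sum_mul, ← Finset.mul_sum]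
  have h2 := (sum_rec_f (R := R) n).trans hf
  have h3 : ∑ t ∈ range n, R.P.Pr (fun w => R.pp t w ∨ R.pf t w) ≤
      ∑ t ∈ range n, R.P.Pr (R.pp t) + ∑ t ∈ range n, R.P.Pr (R.pf t) := by
    rw [← Finset.sum_add_distrib]
    exact Finset.sum_le_sum (fun t _ => R.P.Pr_or_le _ _)
  have h4 : R.al * ∑ t ∈ range n, R.P.Pr (R.pp t) ≤ nf + ng + nu := by
    have := pp_count h n
    rw [Finset.sum_add_distrib, Finset.sum_add_distrib] at this
    linarith
  have h5 : R.al * ∑ t ∈ range n, R.P.Pr (R.pf t) ≤ nf := by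
    have a1 := (pf_count h n).trans hf
    have a2 : 0 ≤ ∑ t ∈ range n, R.P.Pr (R.pf t) := Finset.sum_nonneg (fun t _ => R.P.Pr_nonneg _)
    have a3 := mul_le_mul_of_nonneg_right (al_le_be h) a2
    linarith
  have h6 : (∑ t ∈ range n, R.P.Pr (fun w => (R.pp t w ∨ R.pf t w) ∧ R.bf t w)) *
      (1 + Real.log (1 / (R.al / 4)) + L) ≤ nf * (1 + Real.log (1 / (R.al / 4)) + L) :=
    mul_le_mul_of_nonneg_right h2 (by linarith)
  rw [one_div_al] at h6
  have h7 := mul_le_mul_of_nonneg_left h3 (by positivity : (0 : ℝ) ≤ R.al / 4)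
  rw [one_div_al]
  linarith

theorem rg_entropy [Fintype G] (h : R.Hyp) (n : ℕ) {L nf ng nu : ℝ} (hL : 0 ≤ L)
    (hG : (Fintype.card G : ℝ) ≤ Real.exp L)
    (hf : ∑ t ∈ range n, R.P.Pr (fun w => R.f (t + 1) w ≠ R.f t w) ≤ nf)
    (hg : ∑ t ∈ range n, R.P.Pr (fun w => R.g (t + 1) w ≠ R.g t w) ≤ ng)
    (hu : ∑ t ∈ range n, R.P.Pr (fun w => R.u (t + 1) w ≠ R.u t w) ≤ nu) :
    ∑ t ∈ range n, R.P.Hc (R.Ng (t + 1)) (fun w => (R.Ng t w, R.ZC (t + 1) w)) ≤
      ng * (1 + Real.log (4 / R.al) + L) + (nf + 2 * ng + nu) / 4 := by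
  have hal := h.al0
  have hbe := h.be0
  have hlog := log_al h
  have h1 : ∀ t, R.P.Hc (R.Ng (t + 1)) (fun w => (R.Ng t w, R.ZC (t + 1) w)) ≤
      R.P.Pr (fun w => (R.pp t w ∨ R.pg t w) ∧ R.bg t w) * (1 + Real.log (1 / (R.al / 4)) + L) +
        R.al / 4 * R.P.Pr (fun w => R.pp t w ∨ R.pg t w) := by
    intro t
    refine R.P.Hc_record_le (R.Ng t) (R.Ng (t + 1)) (R.ZC (t + 1)) (R.g (t + 1)) ?_ (fun w hs => hs.1) ?_
      (by positivity) hL hG
    · intro v w e
      rw [pp_iff (ZC_fac_Q (t + 1) v w e), pg_iff e]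
    · intro v w e1 e2 e3
      funext s
      unfold Ng
      rcases Nat.lt_succ_iff_lt_or_eq.1 s.isLt with hs | hs
      · exact congrFun e1 ⟨s.val, hs⟩
      · rw [hs]
        by_cases hv : (R.pp t v ∨ R.pg t v) ∧ R.bg t v
        · have hw := e2.1 hv
          rw [rg, rg, if_pos hv.1, if_pos hw.1]
          exact e3 hv
        · have hw := fun hh => hv (e2.2 hh)
          have a1 : R.rg (t + 1) v = R.rg t v := by
            by_contra hne; exact hv (rg_ne hne)
          have a2 : R.rg (t + 1) w = R.rg t w := by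
            by_contra hne; exact hw (rg_ne hne)
          rw [a1, a2]
          exact congrFun e1 ⟨t, Nat.lt_succ_self t⟩
  refine le_trans (Finset.sum_le_sum (fun t _ => h1 t)) ?_
  rw [Finset.sum_add_distrib, ← Finset.sum_mul, ← Finset.mul_sum]
  have h2 := (sum_rec_g (R := R) n).trans hg
  have h3 : ∑ t ∈ range n, R.P.Pr (fun w => R.pp t w ∨ R.pg t w) ≤
      ∑ t ∈ range n, R.P.Pr (R.pp t) + ∑ t ∈ range n, R.P.Pr (R.pg t) := by
    rw [← Finset.sum_add_distrib]
    exact Finset.sum_le_sum (fun t _ => R.P.Pr_or_le _ _)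
  have h4 : R.al * ∑ t ∈ range n, R.P.Pr (R.pp t) ≤ nf + ng + nu := by
    have := pp_count h n
    rw [Finset.sum_add_distrib, Finset.sum_add_distrib] at this
    linarith
  have h5 : R.al * ∑ t ∈ range n, R.P.Pr (R.pg t) ≤ ng := by
    have a1 := (pg_count h n).trans hg
    have a2 : 0 ≤ ∑ t ∈ range n, R.P.Pr (R.pg t) := Finset.sum_nonneg (fun t _ => R.P.Pr_nonneg _)
    have a3 := mul_le_mul_of_nonneg_right (al_le_be h) a2
    linarith
  have h6 : (∑ t ∈ range n, R.P.Pr (fun w => (R.pp t w ∨ R.pg t w) ∧ R.bg t w)) *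
      (1 + Real.log (1 / (R.al / 4)) + L) ≤ ng * (1 + Real.log (1 / (R.al / 4)) + L) :=
    mul_le_mul_of_nonneg_right h2 (by linarith)
  rw [one_div_al] at h6
  have h7 := mul_le_mul_of_nonneg_left h3 (by positivity : (0 : ℝ) ≤ R.al / 4)
  rw [one_div_al]
  linarith

theorem ru_entropy [Fintype U] (h : R.Hyp) (n : ℕ) {L nf ng nu : ℝ} (hL : 0 ≤ L)
    (hU : (Fintype.card U : ℝ) ≤ Real.exp L)
    (hf : ∑ t ∈ range n, R.P.Pr (fun w => R.f (t + 1) w ≠ R.f t w) ≤ nf)
    (hg : ∑ t ∈ range n, R.P.Pr (fun w => R.g (t + 1) w ≠ R.g t w) ≤ ng)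
    (hu : ∑ t ∈ range n, R.P.Pr (fun w => R.u (t + 1) w ≠ R.u t w) ≤ nu) :
    ∑ t ∈ range n, R.P.Hc (R.Nu (t + 1)) (fun w => (R.Nu t w, R.Q (t + 1) w)) ≤
      nu * (1 + Real.log (4 / R.al) + L) + (nf + ng + nu) / 4 := by
  have hal := h.al0
  have hlog := log_al h
  have h1 : ∀ t, R.P.Hc (R.Nu (t + 1)) (fun w => (R.Nu t w, R.Q (t + 1) w)) ≤
      R.P.Pr (fun w => R.pp t w ∧ R.bu t w) * (1 + Real.log (1 / (R.al / 4)) + L) +
        R.al / 4 * R.P.Pr (R.pp t) := by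
    intro t
    refine R.P.Hc_record_le (R.Nu t) (R.Nu (t + 1)) (R.Q (t + 1)) (R.u (t + 1)) ?_ (fun w hs => hs.1) ?_
      (by positivity) hL hU
    · intro v w e
      exact pp_iff e
    · intro v w e1 e2 e3
      funext s
      unfold Nu
      rcases Nat.lt_succ_iff_lt_or_eq.1 s.isLt with hs | hs
      · exact congrFun e1 ⟨s.val, hs⟩
      · rw [hs]
        by_cases hv : R.pp t v ∧ R.bu t v
        · have hw := e2.1 hv
          rw [ru, ru, if_pos hv.1, if_pos hw.1]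
          exact e3 hv
        · have hw := fun hh => hv (e2.2 hh)
          have a1 : R.ru (t + 1) v = R.ru t v := by
            by_contra hne; exact hv (ru_ne hne)
          have a2 : R.ru (t + 1) w = R.ru t w := by
            by_contra hne; exact hw (ru_ne hne)
          rw [a1, a2]
          exact congrFun e1 ⟨t, Nat.lt_succ_self t⟩
  refine le_trans (Finset.sum_le_sum (fun t _ => h1 t)) ?_
  rw [Finset.sum_add_distrib, ← Finset.sum_mul, ← Finset.mul_sum]
  have h2 := (sum_rec_u (R := R) n).trans hu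
  have h4 : R.al * ∑ t ∈ range n, R.P.Pr (R.pp t) ≤ nf + ng + nu := by
    have := pp_count h n
    rw [Finset.sum_add_distrib, Finset.sum_add_distrib] at this
    linarith
  have h6 : (∑ t ∈ range n, R.P.Pr (fun w => R.pp t w ∧ R.bu t w)) *
      (1 + Real.log (1 / (R.al / 4)) + L) ≤ nu * (1 + Real.log (1 / (R.al / 4)) + L) :=
    mul_le_mul_of_nonneg_right h2 (by linarith)
  rw [one_div_al] at h6
  rw [one_div_al]
  linarith

end RD

end Pool.Agent.M3
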