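import Pool.Agent.M3.NV
import Pool.Agent.M3.RdR

/-!
# M3.RdHyp: the hypotheses `RD.Hyp` of section 2B for the model of section 0 (helper96)

* `mdl i j l h f g u al be` : the data `RD` with `P = Pm`, `Q t = Qn i h (ex N t)`, `A = vx i`, `B = vx j`, `C = vx l`
  (`i, j, l` distinct); `mdl_hyp` : `RD.Hyp`;
* `m_Kn_succ` : the mass of a class `Kn i e` is half of the mass of the class `Kn i (e+1)`; `ce_Kn_dbl`;
* `ce_known` : the value of a known vertex can be forgotten (only its cell matters) for functions which do not see it;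
* `Kn_Z`, `Z_Kn`, `Yk_Q`, `Yk_ZB`, .. : the classes `Yk i U e (e-(h+3))` for `U = {i}, {i,j}, {i,l}` and `Kn i e` are
  the classes of `Q`, `(B, Q)`, `(C, Q)`, `(B, C, Q)`;
* `mdl_utdY`, `mdl_utdK` : the fields `utdY`, `utdK` of `NV` with `a6 = 3 be` (every class coarser than `Kn`);
* `ce_Dg_Kn` : the digit is fair given every class coarser than `Kn i (e+1)`.
-/

set_option autoImplicit false
set_option linter.unusedSectionVars false

namespace Pool.Agent.M3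

open Finset Pool.Agent.PWZ

section general

variable {Om : Type*} [Fintype Om]

/-- a finer class of mass at least `1/c` of the coarser class -/
theorem FP.ce_fine_le (P : FP Om) {κ ι : Type*} {X : Om → κ} {Y : Om → ι} (hXY : Fac X Y) {h : Om → ℝ}
    (h0 : ∀ w, 0 ≤ h w) {w : Om} (hw : P.p w ≠ 0) {c : ℝ} (hm : P.m Y w ≤ c * P.m X w) :
    P.ce X h w ≤ c * P.ce Y h w := by
  have hX := P.m_pos X hw
  have hY := P.m_pos Y hw
  unfold FP.ce
  have h1 : P.E (fun v => ind (X v = X w) * h v) ≤ P.E (fun v => ind (Y v = Y w) * h v) :=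
    P.E_mono (fun v _ => mul_le_mul_of_nonneg_right (ind_mono (hXY v w)) (h0 v))
  have h2 : 0 ≤ P.E (fun v => ind (Y v = Y w) * h v) :=
    P.E_nonneg (fun v _ => mul_nonneg (ind_nonneg _) (h0 v))
  rw [div_le_iff₀ hX]
  calc P.E (fun v => ind (X v = X w) * h v) ≤ P.E (fun v => ind (Y v = Y w) * h v) := h1
    _ = P.E (fun v => ind (Y v = Y w) * h v) / P.m Y w * P.m Y w := by field_simp
    _ ≤ P.E (fun v => ind (Y v = Y w) * h v) / P.m Y w * (c * P.m X w) :=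
        mul_le_mul_of_nonneg_left hm (div_nonneg h2 hY.le)
    _ = _ := by ring

variable {κ : ℕ → Type*} {α β γ F G U : Type*} {R : RD Om κ α β γ F G U}

/-- points which are not up to date, given any class coarser than `(B, C, Q t)` -/
theorem RD.utd_coarse (h : R.Hyp) (t : ℕ) {ι : Type*} {Y : Om → ι} (hY : Fac (R.Z t) Y) {w : Om} (hw : R.P.p w ≠ 0) :
    R.P.ce Y (fun v => ind (¬ R.utd t v)) w ≤ 3 * R.be := by
  rw [← R.P.ce_tower hY]
  exact R.P.ce_le_const (fun v hv => RD.utd_Z h t hv) hw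

end general

namespace Mod

open Pool.Agent.M3.Bin

variable {k N m : ℕ} {Θ P : Type}

/-! ## the digit and the path -/

/-- the next node from the node and the digit -/
theorem nd_of_dg {e : ℕ} {z z' : V k} {w w' : ℕ} (h : nd (e + 1) z w = nd (e + 1) z' w') (hd : dg e w = dg e w') :
    nd e z w = nd e z' w' := by
  unfold nd at h ⊢
  simp only [Prod.mk.injEq] at h ⊢
  obtain ⟨h1, h2⟩ := h
  have hb : Bin.bit e w = Bin.bit e w' := by
    unfold dg at hd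
    have hw : Bin.bit e w < 2 := Nat.mod_lt _ (by norm_num)
    have hw' : Bin.bit e w' < 2 := Nat.mod_lt _ (by norm_num)
    by_cases h0 : Bin.bit e w = 0
    · by_cases h0' : Bin.bit e w' = 0
      · rw [h0, h0']
      · rw [if_pos h0, if_neg h0'] at hd; norm_num at hd
    · by_cases h0' : Bin.bit e w' = 0
      · rw [if_neg h0, if_pos h0'] at hd; norm_num at hd
      · omega
  have hdiv : w / 2 ^ e = w' / 2 ^ e := by
    have e1 : w / 2 ^ e / 2 = w' / 2 ^ e / 2 := by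
      rw [Nat.div_div_eq_div_mul, Nat.div_div_eq_div_mul, ← pow_succ]; exact h2
    unfold Bin.bit at hb
    omega
  refine ⟨?_, hdiv⟩
  have hmod : ∀ x : ℕ, x % 2 ^ (e + 1) = x % 2 ^ e + Bin.bit e x * 2 ^ e := by
    intro x
    unfold Bin.bit
    rw [pow_succ, Nat.mod_mul]
    ring
  unfold Bin.pos at h1 ⊢
  rw [hmod w, hmod w', hb] at h1
  push_cast at h1 ⊢
  have h3 := add_right_cancel (b := ((Bin.bit e w' : ℕ) : V k) * ((2 : V k) ^ e))
    (a := z + ((w % 2 ^ e : ℕ) : V k)) (c := z' + ((w' % 2 ^ e : ℕ) : V k))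
    (by rw [add_assoc, add_assoc]; exact h1)
  exact h3

theorem Kn_succ_fac (i : Fin m) (e : ℕ) :
    Fac (Kn (k := k) (N := N) (Θ := Θ) (P := P) i e) (Kn i (e + 1)) := by
  intro v w hv
  unfold Kn at hv ⊢
  simp only [Prod.mk.injEq] at hv ⊢
  exact ⟨hv.1, fac_Zn_succ i e v w hv.2.1, hv.2.2⟩

theorem Kn_of_Dg (i : Fin m) (e : ℕ) :
    Fac (fun ω : Sp k N m Θ P => (Kn i (e + 1) ω, Dg e ω)) (Kn i e) := by
  intro v w hv
  unfold Kn Dg at hv
  unfold Kn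
  simp only [Prod.mk.injEq] at hv ⊢
  exact ⟨hv.1.1, nd_of_dg hv.1.2.1 hv.2, hv.1.2.2⟩

theorem Dg_of_Kn (i : Fin m) (e : ℕ) :
    Fac (Kn (k := k) (N := N) (Θ := Θ) (P := P) i e) (Dg e) := by
  intro v w hv
  unfold Kn at hv
  simp only [Prod.mk.injEq] at hv
  exact fac_Dg_Zn i e v w hv.2.1

section law

variable [Fintype Θ] [Nonempty Θ] [Fintype P] [Nonempty P]

/-- the digit is fair given every class coarser than `Kn i (e+1)` -/
theorem ce_Dg_Kn (i : Fin m) {e : ℕ} (he : e < N) {κ : Type*} {X : Sp k N m Θ P → κ} (hX : Fac (Kn i (e + 1)) X)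
    (ω : Sp k N m Θ P) : Pm.ce X (Dg e) ω = 0 := by
  refine ce_Dg_view i he ?_ ω
  intro v w h
  refine hX v w ?_
  simp only [Prod.mk.injEq] at h
  unfold Kn
  simp only [Prod.mk.injEq]
  exact ⟨h.1, h.2.2.1, h.2.2.2⟩

/-- the mass of a class is halved by the digit -/
theorem m_Kn_succ (i : Fin m) {e : ℕ} (he : e < N) (ω : Sp k N m Θ P) :
    Pm.m (Kn i (e + 1)) ω = 2 * Pm.m (Kn i e) ω := by
  have h0 := ce_Dg_Kn (k := k) (N := N) (Θ := Θ) (P := P) i he (Fac.refl (Kn i (e + 1))) ω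
  have hm := (Pm (k := k) (N := N) (m := m) (Θ := Θ) (P := P)).m_pos (Kn i (e + 1)) (Pm_ne ω)
  have h1 : Pm.E (fun v : Sp k N m Θ P => ind (Kn i (e + 1) v = Kn i (e + 1) ω) * Dg e v) = 0 := by
    unfold FP.ce at h0
    rcases div_eq_zero_iff.1 h0 with h | h
    · exact h
    · exact absurd h hm.ne'
  have h2 : Pm.m (Kn i e) ω = Pm.E (fun v : Sp k N m Θ P => (1 / 2) * ind (Kn i (e + 1) v = Kn i (e + 1) ω) +
      (Dg e ω / 2) * (ind (Kn i (e + 1) v = Kn i (e + 1) ω) * Dg e v)) := by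
    unfold FP.m
    refine Pm.E_congr fun v _ => ?_
    by_cases hK : Kn i (e + 1) v = Kn i (e + 1) ω
    · rw [ind_of hK]
      by_cases hd : Dg e v = Dg e ω
      · rw [ind_of (Kn_of_Dg i e v ω (Prod.ext hK hd)), hd]
        rcases Dg_val e ω with h | h <;> rw [h] <;> norm_num
      · rw [ind_not (fun h => hd (Dg_of_Kn i e v ω h))]
        rcases Dg_val e v with h | h <;> rcases Dg_val e ω with h' | h' <;> rw [h, h'] at hd ⊢ <;>
          first | exact absurd rfl hd | norm_num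
    · rw [ind_not hK, ind_not (fun h => hK (Kn_succ_fac i e v ω h))]; ring
  rw [h2, FP.E_add, FP.E_smul, FP.E_smul, h1]
  unfold FP.m
  ring

/-- doubling -/
theorem ce_Kn_dbl (i : Fin m) (t : ℕ) {f : Sp k N m Θ P → ℝ} (h0 : ∀ w, 0 ≤ f w) (ω : Sp k N m Θ P) :
    Pm.ce (Kn i (ex N (t + 1))) f ω ≤ 2 * Pm.ce (Kn i (ex N t)) f ω := by
  rcases lt_or_ge t N with ht | ht
  · rw [ex_succ ht]
    refine Pm.ce_fine_le (Kn_succ_fac i _) h0 (Pm_ne ω) ?_
    rw [m_Kn_succ i (by unfold ex; omega)]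
  · rw [ex_top ht, ex_top (by omega : N ≤ t + 1)]
    have := (Pm (k := k) (N := N) (m := m) (Θ := Θ) (P := P)).ce_nonneg (X := Kn i 0) (fun w _ => h0 w) ω
    linarith

/-- THE VALUE OF A KNOWN VERTEX CAN BE FORGOTTEN: `X` = (`ζ`, the vertex `a`), `Y` = (`ζ`, its cell), `ζ` and `f` do not see
the vertex `a` but for its cell -/
theorem ce_known (a : Fin m) (s : ℕ) {κ' κ₁ κ₂ : Type*} {ζ : Sp k N m Θ P → κ'} {X : Sp k N m Θ P → κ₁}
    {Y : Sp k N m Θ P → κ₂} (hζ : Fac (fun ω => (th ω, ot a ω, nz ω)) ζ)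
    (hX : Fac X (fun ω => (ζ ω, vx a ω))) (hX' : Fac (fun ω => (ζ ω, vx a ω)) X)
    (hY : Fac Y (fun ω => (ζ ω, flr s (vx a ω).2))) (hY' : Fac (fun ω => (ζ ω, flr s (vx a ω).2)) Y)
    {f : Sp k N m Θ P → ℝ} (hf : Fac (fun ω => ((th ω, ot a ω, nz ω), flr s (vx a ω).2)) f) (ω : Sp k N m Θ P) :
    Pm.ce X f ω = Pm.ce Y f ω := by
  rw [Pm.ce_congr_map hX hX' f ω, Pm.ce_congr_map hY hY' f ω]
  refine FP.ce_indep_eq _ (indep_vx a).symm hζ (Fac.refl _) ?_ hf (Pm_ne ω)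
  intro v w hv
  have hv' : vx a v = vx a w := hv
  show flr s (vx a v).2 = flr s (vx a w).2
  rw [hv']

end law

/-! ## three vertices -/

variable {i j l : Fin 3}

/-- the classes of section 2B -/
theorem Kn_Z (hij : j ≠ i) (hli : l ≠ i) (h e : ℕ) :
    Fac (Kn (k := k) (N := N) (Θ := Θ) (P := P) i e) (fun ω => (vx j ω, vx l ω, Qn i h e ω)) := by
  intro v w hv
  unfold Kn at hv
  simp only [Prod.mk.injEq] at hv
  obtain ⟨h1, h2, h3⟩ := hv
  have hj : vx j v = vx j w := congrFun h3 ⟨j, hij⟩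
  have hl : vx l v = vx l w := congrFun h3 ⟨l, hli⟩
  unfold Qn
  simp only [Prod.mk.injEq]
  refine ⟨hj, hl, h1, h2, ?_⟩
  funext a
  have ha : vx a.1 v = vx a.1 w := congrFun h3 a
  unfold sc
  rw [ha]

theorem Z_Kn (hij : j ≠ i) (hli : l ≠ i) (hlj : l ≠ j) (h e : ℕ) :
    Fac (fun ω : Sp k N 3 Θ P => (vx j ω, vx l ω, Qn i h e ω)) (Kn i e) := by
  intro v w hv
  unfold Qn at hv
  simp only [Prod.mk.injEq] at hv
  obtain ⟨h1, h2, h3, h4, h5⟩ := hv
  unfold Kn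
  simp only [Prod.mk.injEq]
  refine ⟨h3, h4, ?_⟩
  funext a
  rcases fin3_cover3 hij hli hlj a.1 with ha | ha | ha
  · exact absurd ha a.2
  · show vx a.1 v = vx a.1 w
    rw [ha]; exact h1
  · show vx a.1 v = vx a.1 w
    rw [ha]; exact h2

/-- a function of `(A, C, Q)` sees of the vertex `j` only the cell -/
theorem fac_forget (hij : j ≠ i) (hlj : l ≠ j) (h e : ℕ) :
    Fac (fun ω : Sp k N 3 Θ P => ((th ω, ot j ω, nz ω), flr (e - (h + 3)) (vx j ω).2))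
      (fun ω => (vx i ω, vx l ω, Qn i h e ω)) := by
  intro v w hv
  simp only [Prod.mk.injEq] at hv
  obtain ⟨⟨h1, h2, h3⟩, h4⟩ := hv
  have hi : vx i v = vx i w := congrFun h2 ⟨i, hij.symm⟩
  have hl : vx l v = vx l w := congrFun h2 ⟨l, hlj⟩
  unfold Qn Zn
  simp only [Prod.mk.injEq]
  refine ⟨hi, hl, h1, by rw [hi, h3], ?_⟩
  funext a
  show sc h e a.1 v = sc h e a.1 w
  unfold sc
  by_cases ha : a.1 = j
  · rw [ha]; exact h4
  · have : vx a.1 v = vx a.1 w := congrFun h2 ⟨a.1, ha⟩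
    rw [this]

section law3

variable [Fintype Θ] [Nonempty Θ] [Fintype P] [Nonempty P]

/-- (B) given `(B, Q)` a function of `(A, C, Q)` has the same mean as given `Q` -/
theorem ce_ZB_eq (hij : j ≠ i) (hli : l ≠ i) (hlj : l ≠ j) (h e : ℕ) {f : Sp k N 3 Θ P → ℝ}
    (hf : Fac (fun ω => (vx i ω, vx l ω, Qn i h e ω)) f) (ω : Sp k N 3 Θ P) :
    Pm.ce (fun ω => (vx j ω, Qn i h e ω)) f ω = Pm.ce (Qn i h e) f ω := by
  refine ce_known j (e - (h + 3)) (ζ := fun ω => (th ω, Zn i e ω, sc h e l ω)) ?_ ?_ ?_ ?_ ?_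
    ((fac_forget hij hlj h e).trans hf) ω
  · intro v w hv
    simp only [Prod.mk.injEq] at hv
    obtain ⟨h1, h2, h3⟩ := hv
    have hi : vx i v = vx i w := congrFun h2 ⟨i, hij.symm⟩
    have hl : vx l v = vx l w := congrFun h2 ⟨l, hlj⟩
    unfold Zn sc
    simp only [Prod.mk.injEq]
    exact ⟨h1, by rw [hi, h3], by rw [hl]⟩
  · intro v w hv
    unfold Qn at hv
    simp only [Prod.mk.injEq] at hv ⊢
    exact ⟨⟨hv.2.1, hv.2.2.1, congrFun hv.2.2.2 ⟨l, hli⟩⟩, hv.1⟩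
  · intro v w hv
    simp only [Prod.mk.injEq] at hv
    obtain ⟨⟨h1, h2, h3⟩, h4⟩ := hv
    unfold Qn
    simp only [Prod.mk.injEq]
    refine ⟨h4, h1, h2, ?_⟩
    funext a
    show sc h e a.1 v = sc h e a.1 w
    rcases fin3_cover3 hij hli hlj a.1 with ha | ha | ha
    · exact absurd ha a.2
    · rw [ha]; unfold sc; rw [h4]
    · rw [ha]; exact h3
  · intro v w hv
    unfold Qn at hv
    simp only [Prod.mk.injEq] at hv ⊢
    exact ⟨⟨hv.1, hv.2.1, congrFun hv.2.2 ⟨l, hli⟩⟩, congrFun hv.2.2 ⟨j, hij⟩⟩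
  · intro v w hv
    simp only [Prod.mk.injEq] at hv
    obtain ⟨⟨h1, h2, h3⟩, h4⟩ := hv
    unfold Qn
    simp only [Prod.mk.injEq]
    refine ⟨h1, h2, ?_⟩
    funext a
    show sc h e a.1 v = sc h e a.1 w
    rcases fin3_cover3 hij hli hlj a.1 with ha | ha | ha
    · exact absurd ha a.2
    · rw [ha]; exact h4
    · rw [ha]; exact h3

/-- (BC) given `(B, C, Q)` a function of `(A, B, Q)` has the same mean as given `(B, Q)` -/
theorem ce_Z_eq (hij : j ≠ i) (hli : l ≠ i) (hlj : l ≠ j) (h e : ℕ) {f : Sp k N 3 Θ P → ℝ}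
    (hf : Fac (fun ω => (vx i ω, vx j ω, Qn i h e ω)) f) (ω : Sp k N 3 Θ P) :
    Pm.ce (fun ω => (vx j ω, vx l ω, Qn i h e ω)) f ω = Pm.ce (fun ω => (vx j ω, Qn i h e ω)) f ω := by
  refine ce_known l (e - (h + 3)) (ζ := fun ω => (vx j ω, th ω, Zn i e ω)) ?_ ?_ ?_ ?_ ?_
    ((fac_forget hli hlj.symm h e).trans hf) ω
  · intro v w hv
    simp only [Prod.mk.injEq] at hv
    obtain ⟨h1, h2, h3⟩ := hv
    have hi : vx i v = vx i w := congrFun h2 ⟨i, hli.symm⟩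
    have hj : vx j v = vx j w := congrFun h2 ⟨j, hlj.symm⟩
    unfold Zn
    simp only [Prod.mk.injEq]
    exact ⟨hj, h1, by rw [hi, h3]⟩
  · intro v w hv
    unfold Qn at hv
    simp only [Prod.mk.injEq] at hv ⊢
    exact ⟨⟨hv.1, hv.2.2.1, hv.2.2.2.1⟩, hv.2.1⟩
  · intro v w hv
    simp only [Prod.mk.injEq] at hv
    obtain ⟨⟨h1, h2, h3⟩, h4⟩ := hv
    unfold Qn
    simp only [Prod.mk.injEq]
    refine ⟨h1, h4, h2, h3, ?_⟩
    funext a
    show sc h e a.1 v = sc h e a.1 w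
    rcases fin3_cover3 hij hli hlj a.1 with ha | ha | ha
    · exact absurd ha a.2
    · rw [ha]; unfold sc; rw [h1]
    · rw [ha]; unfold sc; rw [h4]
  · intro v w hv
    unfold Qn at hv
    simp only [Prod.mk.injEq] at hv ⊢
    exact ⟨⟨hv.1, hv.2.1, hv.2.2.1⟩, congrFun hv.2.2.2 ⟨l, hli⟩⟩
  · intro v w hv
    simp only [Prod.mk.injEq] at hv
    obtain ⟨⟨h1, h2, h3⟩, h4⟩ := hv
    unfold Qn
    simp only [Prod.mk.injEq]
    refine ⟨h1, h2, h3, ?_⟩
    funext a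
    show sc h e a.1 v = sc h e a.1 w
    rcases fin3_cover3 hij hli hlj a.1 with ha | ha | ha
    · exact absurd ha a.2
    · rw [ha]; unfold sc; rw [h1]
    · rw [ha]; exact h4

variable {F G U : Type*}

/-- THE DATA OF SECTION 2B IN THE MODEL: hidden vertex `i`, known vertices `j`, `l` -/
noncomputable def mdl (i j l : Fin 3) (h : ℕ) (f : ℕ → Sp k N 3 Θ P → F) (g : ℕ → Sp k N 3 Θ P → G)
    (u : ℕ → Sp k N 3 Θ P → U) (al be : ℝ) :
    RD (Sp k N 3 Θ P) (fun _ => Θ × (V k × ℕ) × ({a : Fin 3 // a ≠ i} → V k)) (P × V k) (P × V k) (P × V k) F G U where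
  P := Pm
  Q := fun t => Qn i h (ex N t)
  A := vx i
  B := vx j
  C := vx l
  f := f
  g := g
  u := u
  al := al
  be := be

/-- THE HYPOTHESES OF SECTION 2B -/
theorem mdl_hyp (hij : j ≠ i) (hli : l ≠ i) (hlj : l ≠ j) {h : ℕ} {f : ℕ → Sp k N 3 Θ P → F}
    {g : ℕ → Sp k N 3 Θ P → G} {u : ℕ → Sp k N 3 Θ P → U} {al be : ℝ}
    (hf : ∀ t, Fac (fun w => (vx i w, vx j w, Qn i h (ex N t) w)) (f t))
    (hg : ∀ t, Fac (fun w => (vx i w, vx l w, Qn i h (ex N t) w)) (g t))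
    (hu : ∀ t, Fac (fun w => (vx i w, Qn i h (ex N t) w)) (u t))
    (al0 : 0 < al) (be0 : 0 < be) (ab : al ≤ be ^ 2) (be1 : be ≤ 1) : (mdl i j l h f g u al be).Hyp where
  filt := filt_Qn i h
  ff := hf
  fg := hg
  fu := hu
  iB := fun t q hq w _ => ce_ZB_eq hij hli hlj h (ex N t) hq w
  iC := fun t q hq w _ => ce_ZB_eq hli hij hlj.symm h (ex N t) hq w
  iBC := fun t q hq w _ => ce_Z_eq hij hli hlj h (ex N t) hq w
  iCB := fun t q hq w _ => by
    have h1 : Pm.ce (fun ω => (vx j ω, vx l ω, Qn i h (ex N t) ω)) q w =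
        Pm.ce (fun ω => (vx l ω, vx j ω, Qn i h (ex N t) ω)) q w := by
      refine Pm.ce_congr_map ?_ ?_ q w
      · intro v v' hv
        simp only [Prod.mk.injEq] at hv ⊢
        exact ⟨hv.2.1, hv.1, hv.2.2⟩
      · intro v v' hv
        simp only [Prod.mk.injEq] at hv ⊢
        exact ⟨hv.2.1, hv.1, hv.2.2⟩
    exact h1.trans (ce_Z_eq hli hij hlj.symm h (ex N t) hq w)
  dbl := fun t q hq w _ => by
    have h1 : ∀ e, Pm.ce (fun ω => (vx j ω, vx l ω, Qn i h e ω)) q w = Pm.ce (Kn i e) q w := fun e =>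
      Pm.ce_congr_map (Z_Kn hij hli hlj h e) (Kn_Z hij hli h e) q w
    have h2 := ce_Kn_dbl (k := k) (N := N) (Θ := Θ) (P := P) i t hq w
    show Pm.ce (fun ω => (vx j ω, vx l ω, Qn i h (ex N (t + 1)) ω)) q w ≤
      2 * Pm.ce (fun ω => (vx j ω, vx l ω, Qn i h (ex N t) ω)) q w
    rw [h1, h1]
    exact h2
  al0 := al0
  be0 := be0
  ab := ab
  be1 := be1

/-- the fields `utdY`, `utdK`: every class coarser than `Kn` -/
theorem mdl_utd (hij : j ≠ i) (hli : l ≠ i) (hlj : l ≠ j) {h : ℕ} {f : ℕ → Sp k N 3 Θ P → F}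
    {g : ℕ → Sp k N 3 Θ P → G} {u : ℕ → Sp k N 3 Θ P → U} {al be : ℝ} (H : (mdl i j l h f g u al be).Hyp)
    (t : ℕ) {ι : Type*} {Y : Sp k N 3 Θ P → ι} (hY : Fac (Kn i (ex N t)) Y) (w : Sp k N 3 Θ P) :
    Pm.ce Y (fun v => ind (¬ (mdl i j l h f g u al be).utd t v)) w ≤ 3 * be :=
  RD.utd_coarse H t ((Z_Kn hij hli hlj h (ex N t)).trans hY) (Pm_ne w)

theorem mem_of_UU {U : Finset (Fin 3)} (hU : U ∈ UU i) : i ∈ U := by
  unfold UU at hU
  simp only [Finset.mem_insert, Finset.mem_singleton] at hU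
  rcases hU with rfl | rfl | rfl <;> simp

theorem mdl_utdY (hij : j ≠ i) (hli : l ≠ i) (hlj : l ≠ j) {h : ℕ} {f : ℕ → Sp k N 3 Θ P → F}
    {g : ℕ → Sp k N 3 Θ P → G} {u : ℕ → Sp k N 3 Θ P → U} {al be : ℝ} (H : (mdl i j l h f g u al be).Hyp)
    (V : Finset (Fin 3)) (hV : V ∈ UU i) (t s : ℕ) (w : Sp k N 3 Θ P) :
    Pm.ce (Yk i V (ex N t) s) (fun v => ind (¬ (mdl i j l h f g u al be).utd t v)) w ≤ 3 * be :=
  mdl_utd hij hli hlj H t (Kn_fac_Yk i V (mem_of_UU hV) (ex N t) s) w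

theorem mdl_utdK (hij : j ≠ i) (hli : l ≠ i) (hlj : l ≠ j) {h : ℕ} {f : ℕ → Sp k N 3 Θ P → F}
    {g : ℕ → Sp k N 3 Θ P → G} {u : ℕ → Sp k N 3 Θ P → U} {al be : ℝ} (H : (mdl i j l h f g u al be).Hyp)
    (t : ℕ) (w : Sp k N 3 Θ P) :
    Pm.ce (Kn i (ex N t)) (fun v => ind (¬ (mdl i j l h f g u al be).utd t v)) w ≤ 3 * be :=
  mdl_utd hij hli hlj H t (Fac.refl _) w

end law3

end Mod

end Pool.Agent.M3
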