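import Pool.Agent.M3.S1Mod

/-!
# M3.S1Births (section 1): the sets of the births of the nodes, the lists have no repetition (helper27)

`nbs` = the births of the RULE at one node (at most `nHit`), `pbs` = the births at the node of `p` (abstract nodes),
`Bf` = the births at the node of a pair in the model: `mem_Lf`, `mem_Lf_top` (every element of a list is born at a node
of the path), `Lf_nodup`, `card_Bf` (`<= Pf`), `Bf_congr` (depends on the small cells only).
-/

set_option autoImplicit false
set_option linter.unusedSectionVars false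

namespace Pool.Agent.M3

open Finset Pool.Agent.PWZ

noncomputable section

section node

variable {P V T : Type*} [Fintype V] [Nonempty T] {ep thr : ℝ} {val : T → P → V → ℝ} {F : P → V → ℝ} {Q : FP V}
  {C : Finset P}

open Classical in
/-- the births of a node -/
def nbs (ep thr : ℝ) (val : T → P → V → ℝ) (F : P → V → ℝ) (Q : FP V) (C : Finset P) (t : ℕ)
    (L : P → List (Birth T)) (K : ℕ) : Finset (Birth T) :=
  ((range K).filter (fun j => HitR ep thr val F Q C (node ep thr val F Q C t L j))).image
    (fun j => ⟨t, j, born ep thr val F Q C (node ep thr val F Q C t L j)⟩)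

theorem card_nbs (t : ℕ) (L : P → List (Birth T)) (K : ℕ) :
    (nbs ep thr val F Q C t L K).card ≤ nHit ep thr val F Q C t L K := by
  classical
  unfold nbs nHit
  exact Finset.card_image_le

theorem nbs_mono (t : ℕ) (L : P → List (Birth T)) (K : ℕ) :
    nbs ep thr val F Q C t L K ⊆ nbs ep thr val F Q C t L (K + 1) := by
  classical
  unfold nbs
  refine Finset.image_subset_image (Finset.filter_subset_filter _ ?_)
  intro j hj
  rw [Finset.mem_range] at hj ⊢
  omega

/-- every element of a list after the node was there before or is a birth of the node -/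
theorem mem_node (t : ℕ) (L : P → List (Birth T)) (p : P) (b : Birth T) (K : ℕ) :
    b ∈ node ep thr val F Q C t L K p → b ∈ L p ∨ b ∈ nbs ep thr val F Q C t L K := by
  classical
  induction K with
  | zero => exact fun hb => Or.inl hb
  | succ K ih =>
    intro hb
    have hb' : b ∈ step ep thr val F Q C t K (node ep thr val F Q C t L K) p := hb
    by_cases h : HitR ep thr val F Q C (node ep thr val F Q C t L K) ∧
        p ∈ mem ep val F Q C (node ep thr val F Q C t L K) (born ep thr val F Q C (node ep thr val F Q C t L K))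
    · rw [step_mem h.1 h.2] at hb'
      rcases List.mem_cons.1 hb' with h1 | h1
      · right
        unfold nbs
        rw [Finset.mem_image]
        refine ⟨K, ?_, h1.symm⟩
        rw [Finset.mem_filter, Finset.mem_range]
        exact ⟨Nat.lt_succ_self K, h.1⟩
      · rcases ih h1 with h2 | h2
        · exact Or.inl h2
        · exact Or.inr (nbs_mono t L K h2)
    · rw [step_not_mem h] at hb'
      rcases ih hb' with h2 | h2
      · exact Or.inl h2
      · exact Or.inr (nbs_mono t L K h2)

/-- the lists have no repetition -/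
theorem node_nodup (t : ℕ) (L : P → List (Birth T)) (p : P) (h1 : (L p).Nodup) (h2 : ∀ b ∈ L p, b.t < t) (K : ℕ) :
    (node ep thr val F Q C t L K p).Nodup ∧
      ∀ b ∈ node ep thr val F Q C t L K p, b.t ≤ t ∧ (b.t = t → b.k < K) := by
  classical
  induction K with
  | zero => exact ⟨h1, fun b hb => ⟨(h2 b hb).le, fun ht => absurd ht (h2 b hb).ne⟩⟩
  | succ K ih =>
    show (step ep thr val F Q C t K (node ep thr val F Q C t L K) p).Nodup ∧
      ∀ b ∈ step ep thr val F Q C t K (node ep thr val F Q C t L K) p, b.t ≤ t ∧ (b.t = t → b.k < K + 1)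
    obtain ⟨h3, h4⟩ := ih
    by_cases h : HitR ep thr val F Q C (node ep thr val F Q C t L K) ∧
        p ∈ mem ep val F Q C (node ep thr val F Q C t L K) (born ep thr val F Q C (node ep thr val F Q C t L K))
    · rw [step_mem h.1 h.2]
      refine ⟨?_, ?_⟩
      · rw [List.nodup_cons]
        refine ⟨fun hcon => ?_, h3⟩
        exact absurd ((h4 _ hcon).2 rfl) (lt_irrefl _)
      · intro b hb
        rcases List.mem_cons.1 hb with h5 | h5
        · rw [h5]
          exact ⟨le_rfl, fun _ => Nat.lt_succ_self K⟩
        · exact ⟨(h4 b h5).1, fun ht => ((h4 b h5).2 ht).trans (Nat.lt_succ_self K)⟩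
    · rw [step_not_mem h]
      exact ⟨h3, fun b hb => ⟨(h4 b hb).1, fun ht => ((h4 b hb).2 ht).trans (Nat.lt_succ_self K)⟩⟩

end node

section run

variable {ι P V : Type*} {Gam : ℕ → Type*} [Fintype V]

/-- the births at the node of `p` -/
def pbs (D : Nodes P V Gam) (S : Tests ι P V) (ep thr : ℝ) (N : ℕ) (F : P → V → ℝ) (n : ℕ) (γ : Gam n) (p : P) :
    Finset (Birth (ι → Bool)) :=
  nbs ep thr S.val F (D.J n γ) (D.cell n p) n (pre D S ep thr N F n γ) N

variable (D : Nodes P V Gam) (S : Tests ι P V) {ep thr : ℝ} {N : ℕ} {F : P → V → ℝ}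

theorem card_pbs (n : ℕ) (γ : Gam n) (p : P) :
    (pbs D S ep thr N F n γ p).card ≤ pubs D S ep thr N F n γ p := card_nbs _ _ _

theorem mem_lst (n : ℕ) (γ : Gam n) (p : P) {b : Birth (ι → Bool)} (hb : b ∈ lst D S ep thr N F n γ p) :
    b ∈ pre D S ep thr N F n γ p ∨ b ∈ pbs D S ep thr N F n γ p := by
  rw [lst_eq] at hb
  exact mem_node _ _ _ _ _ hb

theorem lst_nodup (n : ℕ) : ∀ (γ : Gam n) (p : P), (lst D S ep thr N F n γ p).Nodup ∧
    ∀ b ∈ lst D S ep thr N F n γ p, b.t ≤ n := by
  induction n with
  | zero =>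
    intro γ p
    rw [lst_eq]
    have h1 := node_nodup (ep := ep) (thr := thr) (val := S.val) (F := F) (Q := D.J 0 γ) (C := D.cell 0 p) 0
      (pre D S ep thr N F 0 γ) p (List.nodup_nil) (fun b hb => absurd hb (List.not_mem_nil)) N
    exact ⟨h1.1, fun b hb => (h1.2 b hb).1⟩
  | succ n ih =>
    intro γ p
    rw [lst_eq]
    obtain ⟨h2, h3⟩ := ih (D.prev n γ) p
    have h1 := node_nodup (ep := ep) (thr := thr) (val := S.val) (F := F) (Q := D.J (n + 1) γ)
      (C := D.cell (n + 1) p) (n + 1) (pre D S ep thr N F (n + 1) γ) p h2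
      (fun b hb => Nat.lt_succ_of_le (h3 b hb)) N
    exact ⟨h1.1, fun b hb => (h1.2 b hb).1⟩

end run

/-- the Walsh form of a list of births without repetition, by the subsets of the set of births -/
theorem psi_toFinset {T : Type} [DecidableEq T] (ep : ℝ) (l : List T) (hl : l.Nodup) (v : T → ℝ)
    (hv : ∀ τ, v τ = 1 ∨ v τ = -1) : psi ep (l.map v) =
      ∑ I ∈ l.toFinset.powerset, psiC ep l.length (univ.filter fun j => l.get j ∈ I) * ∏ τ ∈ I, v τ := by
  classical
  have h0 : psi ep (l.map v) = ∑ J : Finset (Fin l.length), psiC ep l.length J * ∏ j ∈ J, v (l.get j) := by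
    have h1 := psi_eq_walsh ep l.length (fun j => v (l.get j)) (fun j => hv _)
    have h2 : List.ofFn (fun j => v (l.get j)) = l.map v := by
      have h3 : l.map v = (List.ofFn l.get).map v := by rw [List.ofFn_get]
      rw [h3, List.map_ofFn]
      rfl
    rw [h2] at h1
    exact h1
  rw [h0]
  have hinj : Function.Injective l.get := List.nodup_iff_injective_get.1 hl
  refine Finset.sum_nbij' (fun J => J.image l.get) (fun I => univ.filter fun j => l.get j ∈ I) ?_ ?_ ?_ ?_ ?_
  · intro J _
    rw [Finset.mem_powerset]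
    intro τ hτ
    obtain ⟨j, _, rfl⟩ := Finset.mem_image.1 hτ
    rw [List.mem_toFinset]
    exact List.get_mem l j
  · intro I _
    exact Finset.mem_univ _
  · intro J _
    ext j
    rw [Finset.mem_filter, Finset.mem_image]
    constructor
    · rintro ⟨_, j', hj', h⟩
      rw [← hinj h]
      exact hj'
    · intro hj
      exact ⟨Finset.mem_univ _, j, hj, rfl⟩
  · intro I hI
    rw [Finset.mem_powerset] at hI
    ext τ
    rw [Finset.mem_image]
    constructor
    · rintro ⟨j, hj, rfl⟩
      exact (Finset.mem_filter.1 hj).2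
    · intro hτ
      obtain ⟨j, hj⟩ := List.get_of_mem (List.mem_toFinset.1 (hI hτ))
      refine ⟨j, ?_, hj⟩
      rw [Finset.mem_filter, hj]
      exact ⟨Finset.mem_univ _, hτ⟩
  · intro J _
    have h1 : (univ.filter fun j => l.get j ∈ J.image l.get) = J := by
      ext j
      rw [Finset.mem_filter, Finset.mem_image]
      constructor
      · rintro ⟨_, j', hj', h⟩
        rw [← hinj h]
        exact hj'
      · intro hj
        exact ⟨Finset.mem_univ _, j, hj, rfl⟩
    rw [h1, Finset.prod_image (fun a _ b _ h => hinj h)]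

end

end Pool.Agent.M3

namespace Pool.Agent.M3.Mod

open Finset Pool.Agent.PWZ Pool.Agent.M3.Bin

noncomputable section

variable {k N : ℕ} {P : Type} [Fintype P] [Nonempty P]

/-- the births at the node of a pair -/
def Bf (h N : ℕ) (ep th : ℝ) (F : P × V k → P × V k → V k → ℝ) (e : ℕ) (g : V k × ℕ) (b c : P × V k) :
    Finset (Birth (TI k P → Bool)) :=
  pbs (faceNodes (pairC k P) k h N) (pairTests (P × V k) (P × V k) (V k)) ep (thrs ep th) (nst ep (thrs ep th))
    (fun q => F q.1 q.2) (N - e) g (b, c)

variable {h : ℕ} {ep th : ℝ} {F : P × V k → P × V k → V k → ℝ}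

theorem card_Bf (e : ℕ) (g : V k × ℕ) (b c : P × V k) : (Bf h N ep th F e g b c).card ≤ Pf h N ep th F e g b c :=
  card_pbs _ _ _ _ _

theorem Lf_nodup (e : ℕ) (g : V k × ℕ) (b c : P × V k) : (Lf h N ep th F e g b c).Nodup :=
  (lst_nodup (faceNodes (pairC k P) k h N) (pairTests (P × V k) (P × V k) (V k)) (N - e) g (b, c)).1

/-- an element of a list at the top is born at the top -/
theorem mem_Lf_top {g : V k × ℕ} {b c : P × V k} {s : Birth (TI k P → Bool)} (hs : s ∈ Lf h N ep th F N g b c) :
    s ∈ Bf h N ep th F N g b c := by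
  unfold Lf LB at hs
  have h1 := mem_lst (faceNodes (pairC k P) k h N) (pairTests (P × V k) (P × V k) (V k)) (N - N) g (b, c) hs
  rcases h1 with h1 | h1
  · exfalso
    have h2 : ∀ (n : ℕ) (hn : n = 0) (g : V k × ℕ), pre (faceNodes (pairC k P) k h N)
        (pairTests (P × V k) (P × V k) (V k)) ep (thrs ep th) (nst ep (thrs ep th)) (fun q => F q.1 q.2) n g (b, c) =
          [] := by
      intro n hn g
      subst hn
      rfl
    rw [h2 (N - N) (Nat.sub_self N) g] at h1
    exact absurd h1 List.not_mem_nil
  · exact h1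

/-- an element of a list was there at the parent or is born at the node -/
theorem mem_Lf {e : ℕ} (he : e < N) {g : V k × ℕ} {b c : P × V k} {s : Birth (TI k P → Bool)}
    (hs : s ∈ Lf h N ep th F e g b c) :
    s ∈ Lf h N ep th F (e + 1) (par h e g) b c ∨ s ∈ Bf h N ep th F e g b c := by
  unfold Lf LB at hs
  have h1 := mem_lst (faceNodes (pairC k P) k h N) (pairTests (P × V k) (P × V k) (V k)) (N - e) g (b, c) hs
  rcases h1 with h1 | h1
  · left
    obtain ⟨n, hn, hn1⟩ : ∃ n, N - e = n + 1 ∧ N - (e + 1) = n := ⟨N - (e + 1), by omega, rfl⟩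
    unfold Lf LB
    rw [hn] at h1
    rw [hn1]
    have h2 : pre (faceNodes (pairC k P) k h N) (pairTests (P × V k) (P × V k) (V k)) ep (thrs ep th)
        (nst ep (thrs ep th)) (fun q => F q.1 q.2) (n + 1) g =
        lst (faceNodes (pairC k P) k h N) (pairTests (P × V k) (P × V k) (V k)) ep (thrs ep th)
        (nst ep (thrs ep th)) (fun q => F q.1 q.2) n (par h e g) := by
      show lst (faceNodes (pairC k P) k h N) (pairTests (P × V k) (P × V k) (V k)) ep (thrs ep th)
        (nst ep (thrs ep th)) (fun q => F q.1 q.2) n (if n < N then par h (N - (n + 1)) g else g) = _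
      rw [if_pos (by omega), show N - (n + 1) = e by omega]
    rw [h2] at h1
    exact h1
  · exact Or.inr h1

/-- the births at the node of a pair depend on the small cells only -/
theorem Bf_congr {e : ℕ} (he : e ≤ N) (g : V k × ℕ) {b c b' c' : P × V k}
    (hb : flr (e - (h + 3)) b.2 = flr (e - (h + 3)) b'.2) (hc : flr (e - (h + 3)) c.2 = flr (e - (h + 3)) c'.2) :
    Bf h N ep th F e g b c = Bf h N ep th F e g b' c' := by
  have h1 : (faceNodes (pairC k P) k h N).cell (N - e) (b, c) =
      (faceNodes (pairC k P) k h N).cell (N - e) (b', c') := by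
    have h2 : N - (N - e) = e := by omega
    show cel (P := P) (N - (N - e) - (h + 3)) b.2 ×ˢ cel (P := P) (N - (N - e) - (h + 3)) c.2 =
      cel (P := P) (N - (N - e) - (h + 3)) b'.2 ×ˢ cel (P := P) (N - (N - e) - (h + 3)) c'.2
    rw [h2]
    unfold cel
    rw [hb, hc]
  unfold Bf pbs
  rw [h1]

end

end Pool.Agent.M3.Mod
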