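import Pool.Agent.M3.Model2

/-!
# M3/Model3: three vertices, explicit averages over two vertices, rarity in every view (0.6)

View `i` (hidden vertex `i`); `rar_hidden`: the vertex `i` (and all the noise) is known, the face `i` is product tested;
`rar_known`: a vertex `j ≠ i` is known, the vertex `i` runs in `A_e`, the third vertex `l` in its small cell, the face `j`
is product tested.
-/

set_option autoImplicit false
set_option linter.unusedSectionVars false

namespace Pool.Agent.M3.Mod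

open Finset Pool.Agent.PWZ Pool.Agent.M3.Bin

variable {k N : ℕ} {Θ P : Type} [Fintype Θ] [Nonempty Θ] [Fintype P] [Nonempty P]

/-- the three indices -/
theorem fin3_cover (i l : Fin 3) : l = i ∨ l = i + 1 ∨ l = i + 2 := by
  revert i l; decide

theorem fin3_ne1 (i : Fin 3) : i + 1 ≠ i := by revert i; decide

theorem fin3_ne2 (i : Fin 3) : i + 2 ≠ i := by revert i; decide

theorem fin3_ne3 (i : Fin 3) : i + 1 ≠ i + 2 := by revert i; decide

theorem fin3_cover3 {i j l : Fin 3} (hij : j ≠ i) (hli : l ≠ i) (hlj : l ≠ j) (a : Fin 3) : a = i ∨ a = j ∨ a = l := by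
  revert i j l a; decide

theorem fin3_case {i j l : Fin 3} (hij : j ≠ i) (hli : l ≠ i) (hlj : l ≠ j) :
    (j + 1 = i ∧ j + 2 = l) ∨ (j + 1 = l ∧ j + 2 = i) := by
  revert i j l; decide

theorem vx_upd_same (j : Fin 3) (x : P × V k) (ω : Sp k N 3 Θ P) : vx j (upd j x ω) = x := by
  unfold vx upd; simp

theorem vx_upd_ne {j l : Fin 3} (h : l ≠ j) (x : P × V k) (ω : Sp k N 3 Θ P) : vx l (upd j x ω) = vx l ω := by
  unfold vx upd; simp [h]

/-- two sample points with the same coordinates -/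
theorem Sp_ext {v w : Sp k N 3 Θ P} (i j l : Fin 3) (hc : ∀ a : Fin 3, a = i ∨ a = j ∨ a = l) (h1 : th v = th w)
    (h2 : nz v = nz w) (hi : vx i v = vx i w) (hj : vx j v = vx j w) (hl : vx l v = vx l w) : v = w := by
  refine Prod.ext h1 (Prod.ext ?_ (Fin.ext h2))
  funext a
  rcases hc a with rfl | rfl | rfl
  · exact hi
  · exact hj
  · exact hl

/-- two vertices in their cells, the third vertex and the noise known -/
theorem ce_cells2 (i : Fin 3) (s s' : ℕ) (f : Sp k N 3 Θ P → ℝ) (ω : Sp k N 3 Θ P) :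
    Pm.ce (fun ω => (th ω, vx i ω, nz ω, flr s (vx (i + 1) ω).2, flr s' (vx (i + 2) ω).2)) f ω =
      ((CL (P := P) s (vx (i + 1) ω).2).card * (CL (P := P) s' (vx (i + 2) ω).2).card : ℝ)⁻¹ *
        ∑ x ∈ CL (P := P) s (vx (i + 1) ω).2, ∑ y ∈ CL (P := P) s' (vx (i + 2) ω).2,
          f (upd (i + 1) x (upd (i + 2) y ω)) := by
  have key : Pm.ce (fun ω => (th ω, vx i ω, nz ω, flr s (vx (i + 1) ω).2, flr s' (vx (i + 2) ω).2)) f ω =
      ((CL (P := P) s (vx (i + 1) ω).2 ×ˢ CL (P := P) s' (vx (i + 2) ω).2).card : ℝ)⁻¹ *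
        ∑ q ∈ CL (P := P) s (vx (i + 1) ω).2 ×ˢ CL (P := P) s' (vx (i + 2) ω).2,
          f (upd (i + 1) q.1 (upd (i + 2) q.2 ω)) := by
    unfold Pm
    have e1 : ∀ q : (P × V k) × (P × V k), vx (i + 1) (upd (i + 1) q.1 (upd (i + 2) q.2 ω)) = q.1 := fun q =>
      vx_upd_same _ _ _
    have e2 : ∀ q : (P × V k) × (P × V k), vx (i + 2) (upd (i + 1) q.1 (upd (i + 2) q.2 ω)) = q.2 := fun q => by
      rw [vx_upd_ne (fin3_ne3 i).symm, vx_upd_same]
    have e3 : ∀ q : (P × V k) × (P × V k), vx i (upd (i + 1) q.1 (upd (i + 2) q.2 ω)) = vx i ω := fun q => by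
      rw [vx_upd_ne (fin3_ne1 i).symm, vx_upd_ne (fin3_ne2 i).symm]
    refine ce_unif_image (φ := fun q : (P × V k) × (P × V k) => upd (i + 1) q.1 (upd (i + 2) q.2 ω)) ?_ ?_ f
    · intro q _ q' _ hq
      refine Prod.ext ?_ ?_
      · have := congrArg (fun v => vx (i + 1) v) hq
        simpa only [e1] using this
      · have := congrArg (fun v => vx (i + 2) v) hq
        simpa only [e2] using this
    · intro v
      constructor
      · intro hv
        simp only [Prod.mk.injEq] at hv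
        obtain ⟨h1, h2, h3, h4, h5⟩ := hv
        refine ⟨(vx (i + 1) v, vx (i + 2) v), ?_, ?_⟩
        · unfold CL
          rw [Finset.mem_product, Finset.mem_filter, Finset.mem_filter]
          exact ⟨⟨Finset.mem_univ _, h4⟩, ⟨Finset.mem_univ _, h5⟩⟩
        · exact Sp_ext i (i + 1) (i + 2) (fin3_cover i) h1.symm h3.symm ((e3 _).trans h2.symm) (e1 _) (e2 _)
      · rintro ⟨q, hq, rfl⟩
        unfold CL at hq
        rw [Finset.mem_product, Finset.mem_filter, Finset.mem_filter] at hq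
        refine Prod.ext rfl (Prod.ext (e3 q) (Prod.ext rfl (Prod.ext ?_ ?_)))
        · change flr s (vx (i + 1) (upd (i + 1) q.1 (upd (i + 2) q.2 ω))).2 = _
          rw [e1]; exact hq.1.2
        · change flr s' (vx (i + 2) (upd (i + 1) q.1 (upd (i + 2) q.2 ω))).2 = _
          rw [e2]; exact hq.2.2
  rw [key, Finset.card_product, Finset.sum_product]
  push_cast
  rfl

/-- the hidden vertex `i` in `A_e`, the vertex `l` in its cell, the vertex `j` and the exact path known -/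
theorem ce_hidden_cell {i j l : Fin 3} (hij : j ≠ i) (hli : l ≠ i) (hlj : l ≠ j) {e : ℕ} (he : e ≤ N) (s : ℕ)
    (f : Sp k N 3 Θ P → ℝ) (ω : Sp k N 3 Θ P) :
    Pm.ce (fun ω => (th ω, vx j ω, Zn i e ω, flr s (vx l ω).2)) f ω =
      ((Fintype.card P : ℝ) * 2 ^ e * (CL (P := P) s (vx l ω).2).card)⁻¹ *
        ∑ y ∈ CL (P := P) s (vx l ω).2, ∑ p : P, ∑ n ∈ range (2 ^ e), f (updh i e he p n (upd l y ω)) := by
  have hZ : ∀ y : P × V k, Zn i e (upd l y ω) = Zn i e ω := by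
    intro y
    unfold Zn
    rw [vx_upd_ne hli.symm]
    rfl
  have hnz : ∀ (y : P × V k) (p : P) (n : ℕ), nz (updh i e he p n (upd l y ω)) = nz ω / 2 ^ e * 2 ^ e + n % 2 ^ e :=
    fun y p n => rfl
  have hmod : ∀ (y : P × V k) (p : P) (n : ℕ), nz (updh i e he p n (upd l y ω)) % 2 ^ e = n % 2 ^ e := by
    intro y p n
    rw [hnz, Nat.mul_comm, Nat.mul_add_mod, Nat.mod_mod]
  have hdiv : ∀ (y : P × V k) (p : P) (n : ℕ), nz (updh i e he p n (upd l y ω)) / 2 ^ e = nz ω / 2 ^ e := by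
    intro y p n
    rw [hnz, Nat.mul_comm, Nat.mul_add_div (by positivity), Nat.div_eq_of_lt (Nat.mod_lt _ (by positivity)),
      Nat.add_zero]
  have hvi : ∀ (y : P × V k) (p : P) (n : ℕ), vx i (updh i e he p n (upd l y ω)) = (p, (Zn i e ω).1 - (n : V k)) := by
    intro y p n
    rw [← hZ y]
    unfold vx updh
    simp
  have hva : ∀ (y : P × V k) (p : P) (n : ℕ) (a : Fin 3), a ≠ i →
      vx a (updh i e he p n (upd l y ω)) = vx a (upd l y ω) := by
    intro y p n a ha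
    unfold updh vx
    simp only [ne_eq, ha, not_false_eq_true, Function.update_of_ne]
  have hvl : ∀ (y : P × V k) (p : P) (n : ℕ), vx l (updh i e he p n (upd l y ω)) = y := by
    intro y p n
    rw [hva y p n l hli, vx_upd_same]
  have hvj : ∀ (y : P × V k) (p : P) (n : ℕ), vx j (updh i e he p n (upd l y ω)) = vx j ω := by
    intro y p n
    rw [hva y p n j hij, vx_upd_ne hlj.symm]
  have key : Pm.ce (fun ω => (th ω, vx j ω, Zn i e ω, flr s (vx l ω).2)) f ω =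
      ((CL (P := P) s (vx l ω).2 ×ˢ (univ : Finset P) ×ˢ range (2 ^ e)).card : ℝ)⁻¹ *
        ∑ q ∈ CL (P := P) s (vx l ω).2 ×ˢ (univ : Finset P) ×ˢ range (2 ^ e),
          f (updh i e he q.2.1 q.2.2 (upd l q.1 ω)) := by
    unfold Pm
    refine ce_unif_image (φ := fun q : (P × V k) × P × ℕ => updh i e he q.2.1 q.2.2 (upd l q.1 ω)) ?_ ?_ f
    · rintro ⟨y, p, n⟩ hn ⟨y', p', n'⟩ hn' hq
      rw [Finset.mem_product, Finset.mem_product, Finset.mem_range] at hn hn'
      simp only at hq hn hn'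
      have h1 := congrArg (fun v => vx i v) hq
      have h2 := congrArg (fun v => nz v % 2 ^ e) hq
      have h3 := congrArg (fun v => vx l v) hq
      rw [hvi, hvi, Prod.mk.injEq] at h1
      rw [hmod, hmod, Nat.mod_eq_of_lt hn.2.2, Nat.mod_eq_of_lt hn'.2.2] at h2
      rw [hvl, hvl] at h3
      exact Prod.ext h3 (Prod.ext h1.1 h2)
    · intro v
      constructor
      · intro hv
        simp only [Prod.mk.injEq] at hv
        obtain ⟨h1, h2, h3, h4⟩ := hv
        have h3a : Bin.pos e (vx i v).2 (nz v) = (Zn i e ω).1 := congrArg Prod.fst h3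
        have h3b : nz v / 2 ^ e = nz ω / 2 ^ e := congrArg Prod.snd h3
        have hlt : nz v % 2 ^ e < 2 ^ e := Nat.mod_lt _ (by positivity)
        refine ⟨(vx l v, (vx i v).1, nz v % 2 ^ e), ?_, ?_⟩
        · rw [Finset.mem_product, Finset.mem_product, Finset.mem_range]
          refine ⟨?_, Finset.mem_univ _, hlt⟩
          unfold CL
          rw [Finset.mem_filter]
          exact ⟨Finset.mem_univ _, h4⟩
        · refine Sp_ext i j l (fin3_cover3 hij hli hlj) h1.symm ?_ ?_ ?_ ?_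
          · refine (hnz _ _ _).trans ?_
            simp only
            rw [← h3b, Nat.mod_mod]
            exact Nat.div_add_mod' _ _
          · refine (hvi _ _ _).trans ?_
            unfold Bin.pos at h3a
            rw [← h3a]
            exact Prod.ext rfl (by simp only [add_sub_cancel_right])
          · exact (hvj _ _ _).trans h2.symm
          · exact hvl _ _ _
      · rintro ⟨⟨y, p, n⟩, hn, rfl⟩
        rw [Finset.mem_product, Finset.mem_product, Finset.mem_range] at hn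
        unfold CL at hn
        rw [Finset.mem_filter] at hn
        refine Prod.ext rfl (Prod.ext (hvj y p n) (Prod.ext (Prod.ext ?_ (hdiv y p n)) ?_))
        · change Bin.pos e (vx i (updh i e he p n (upd l y ω))).2 (nz (updh i e he p n (upd l y ω))) = (Zn i e ω).1
          unfold Bin.pos
          rw [hvi, hmod, Nat.mod_eq_of_lt hn.2.2]
          simp
        · change flr s (vx l (updh i e he p n (upd l y ω))).2 = _
          rw [hvl]; exact hn.1.2
  rw [key, Finset.card_product, Finset.card_product, Finset.card_univ, Finset.card_range, Finset.sum_product]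
  have h5 : ∀ y ∈ CL (P := P) s (vx l ω).2, ∑ q ∈ (univ : Finset P) ×ˢ range (2 ^ e),
      f (updh i e he q.1 q.2 (upd l y ω)) = ∑ p : P, ∑ n ∈ range (2 ^ e), f (updh i e he p n (upd l y ω)) :=
    fun y _ => Finset.sum_product _ _ _
  rw [Finset.sum_congr rfl h5]
  congr 1
  push_cast
  ring

/-- one step to the right of less than a cell -/
theorem flr_add_lt {s r : ℕ} (hs : s ≤ k) (v : V k) (hr : r < 2 ^ s) :
    flr s (v + (r : V k)) = flr s v ∨ flr s (v + (r : V k)) = flr s v + ((2 ^ s : ℕ) : V k) := by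
  obtain ⟨o, ho, hv⟩ := flr_add_rem s v
  rcases lt_or_ge (o + r) (2 ^ s) with hro | hro
  · left
    have h1 : v + (r : V k) = flr s v + ((o + r : ℕ) : V k) := by
      rw [Nat.cast_add]
      conv_lhs => rw [hv]
      ring
    rw [h1]
    exact flr_aligned_add hs _ (flr_flr le_rfl v) _ hro
  · right
    have h1 : v + (r : V k) = (flr s v + ((2 ^ s : ℕ) : V k)) + ((o + r - 2 ^ s : ℕ) : V k) := by
      rw [Nat.cast_sub hro, Nat.cast_add]
      conv_lhs => rw [hv]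
      ring
    have h2 : flr s (flr s v + ((2 ^ s : ℕ) : V k)) = flr s v + ((2 ^ s : ℕ) : V k) := by
      have := flr_add_mul (j := s) (i := s) le_rfl (flr s v) 1
      rw [one_mul] at this
      rw [this, flr_flr le_rfl]
    rw [h1, flr_aligned_add hs _ h2 _ (by omega)]

/-- a rounded position of a sum: an interval of length `2 · 2^s` meets at most two cells of length `8 · 2^s` (or `s = 0`
and everything is exact) -/
theorem two_options (h e : ℕ) (he : e ≤ k) (z b c : V k) :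
    ∃ g1 g2 : V k, ∀ b' c' : V k, flr (e - (h + 3)) b' = flr (e - (h + 3)) b →
      flr (e - (h + 3)) c' = flr (e - (h + 3)) c →
      flr (e - h) (z + b' + c') = g1 ∨ flr (e - h) (z + b' + c') = g2 := by
  refine ⟨flr (e - h) (z + flr (e - (h + 3)) b + flr (e - (h + 3)) c),
    flr (e - h) (z + flr (e - (h + 3)) b + flr (e - (h + 3)) c) + ((2 ^ (e - h) : ℕ) : V k), ?_⟩
  intro b' c' hb hc
  obtain ⟨o, ho, hv⟩ := flr_add_rem (e - (h + 3)) b'
  obtain ⟨o', ho', hv'⟩ := flr_add_rem (e - (h + 3)) c'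
  rw [hb] at hv
  rw [hc] at hv'
  have hr : o + o' < 2 ^ (e - h) := by
    rcases Nat.eq_zero_or_pos (e - (h + 3)) with h0 | h0
    · rw [h0] at ho ho'
      have h1 : 0 < 2 ^ (e - h) := Nat.two_pow_pos _
      omega
    · have h1 : e - h = (e - (h + 3)) + 3 := by omega
      rw [h1, pow_add]
      omega
  have h2 : z + b' + c' = (z + flr (e - (h + 3)) b + flr (e - (h + 3)) c) + ((o + o' : ℕ) : V k) := by
    conv_lhs => rw [hv, hv']
    rw [Nat.cast_add]
    ring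
  rw [h2]
  exact flr_add_lt (by omega) _ hr

/-- covering: a sum over an injective image inside a union -/
theorem sum_cover_le {α β ι : Type*} (S : Finset α) (φ : α → β) (hφ : ∀ x ∈ S, ∀ y ∈ S, φ x = φ y → x = y)
    (T : Finset ι) (C : ι → Finset β) (hC : ∀ q ∈ S, ∃ t ∈ T, φ q ∈ C t) (F : β → ℝ) (hF : ∀ x, 0 ≤ F x) :
    ∑ q ∈ S, F (φ q) ≤ ∑ t ∈ T, ∑ x ∈ C t, F x := by
  classical
  rw [← Finset.sum_image hφ]
  have h1 : S.image φ ⊆ T.biUnion C := by
    intro x hx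
    obtain ⟨q, hq, rfl⟩ := Finset.mem_image.mp hx
    obtain ⟨t, ht, hqt⟩ := hC q hq
    exact Finset.mem_biUnion.mpr ⟨t, ht, hqt⟩
  refine (Finset.sum_le_sum_of_subset_of_nonneg h1 fun x _ _ => hF x).trans ?_
  have h2 : ∀ T : Finset ι, ∑ x ∈ T.biUnion C, F x ≤ ∑ t ∈ T, ∑ x ∈ C t, F x := by
    intro T
    induction T using Finset.induction_on with
    | empty => simp
    | insert a T ha ih =>
      rw [Finset.biUnion_insert, Finset.sum_insert ha]
      have h3 := Finset.sum_union_inter (s₁ := C a) (s₂ := T.biUnion C) (f := F)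
      have h4 : 0 ≤ ∑ x ∈ C a ∩ T.biUnion C, F x := Finset.sum_nonneg fun x _ => hF x
      linarith
  exact h2 T

/-- one step to the left of less than a cell -/
theorem flr_sub_lt {s r : ℕ} (hs : s ≤ k) (v : V k) (hr : r < 2 ^ s) :
    flr s (v - (r : V k)) = flr s v ∨ flr s (v - (r : V k)) = flr s (v - ((2 ^ s : ℕ) : V k)) := by
  obtain ⟨o, ho, hv⟩ := flr_add_rem s v
  rcases le_or_gt r o with hro | hro
  · left
    have h1 : v - (r : V k) = flr s v + ((o - r : ℕ) : V k) := by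
      rw [Nat.cast_sub hro]
      conv_lhs => rw [hv]
      ring
    rw [h1]
    exact flr_aligned_add hs _ (flr_flr le_rfl v) _ (by omega)
  · right
    have h0 : ∀ v : V k, flr s (v - ((2 ^ s : ℕ) : V k)) = flr s v - ((2 ^ s : ℕ) : V k) := by
      intro v
      have := flr_add_mul (j := s) (i := s) le_rfl (v - ((2 ^ s : ℕ) : V k)) 1
      rw [one_mul, sub_add_cancel] at this
      rw [this]
      ring
    have h1 : v - (r : V k) = (flr s v - ((2 ^ s : ℕ) : V k)) + ((2 ^ s + o - r : ℕ) : V k) := by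
      rw [Nat.cast_sub (by omega), Nat.cast_add]
      conv_lhs => rw [hv]
      ring
    have h2 : flr s (flr s v - ((2 ^ s : ℕ) : V k)) = flr s v - ((2 ^ s : ℕ) : V k) := by
      rw [h0, flr_flr le_rfl]
    rw [h1, flr_aligned_add hs _ h2 _ (by omega), h0]

/-- a window of length `2^e` is covered by `2^(e-s) + 1` cells of scale `s ≤ e` (`2^e` cells if `s = 0`) -/
theorem win_cover {s e : ℕ} (hs : s ≤ e) (he : e ≤ k) (z : V k) (n : ℕ) (hn : n < 2 ^ e) :
    ∃ t ∈ range (2 ^ (e - s) + (if s = 0 then 0 else 1)),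
      flr s (z - (n : V k)) = flr s (z - ((t * 2 ^ s : ℕ) : V k)) := by
  have hpos : 0 < 2 ^ s := Nat.two_pow_pos s
  have hq : n / 2 ^ s < 2 ^ (e - s) := by
    rw [Nat.div_lt_iff_lt_mul hpos, ← pow_add, Nat.sub_add_cancel hs]; exact hn
  have h1 : z - (n : V k) = (z - ((n / 2 ^ s * 2 ^ s : ℕ) : V k)) - ((n % 2 ^ s : ℕ) : V k) := by
    have h2 := Nat.div_add_mod' n (2 ^ s)
    have h3 : (n : V k) = ((n / 2 ^ s * 2 ^ s : ℕ) : V k) + ((n % 2 ^ s : ℕ) : V k) := by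
      rw [← Nat.cast_add, h2]
    rw [h3]
    ring
  by_cases h0 : s = 0
  · subst h0
    refine ⟨n, ?_, ?_⟩
    · rw [if_pos rfl, Finset.mem_range]
      simpa using hn
    · simp
  · rw [if_neg h0]
    rcases flr_sub_lt (hs.trans he) (z - ((n / 2 ^ s * 2 ^ s : ℕ) : V k)) (Nat.mod_lt n hpos) with h4 | h4
    · exact ⟨n / 2 ^ s, Finset.mem_range.mpr (by omega), by rw [h1]; exact h4⟩
    · refine ⟨n / 2 ^ s + 1, Finset.mem_range.mpr (by omega), ?_⟩
      rw [h1, h4]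
      congr 1
      rw [add_mul, one_mul]
      push_cast
      ring

theorem card_SC {h e : ℕ} (he : e ≤ k) (v : V k) :
    ((SC (P := P) h e v).card : ℝ) = (Fintype.card P : ℝ) * 2 ^ (e - (h + 3)) := by
  have h1 : SC (P := P) h e v = (univ : Finset P) ×ˢ (univ.filter fun v' : V k => flr (e - (h + 3)) v' = flr (e - (h + 3)) v) := by
    ext x
    simp [SC]
  rw [h1, Finset.card_product, card_cell (by omega), Finset.card_univ]
  push_cast
  rfl

/-- THE HIDDEN VERTEX in its window, the vertex `l` in its cell: pairs which are rare in all pairs of cells are rare -/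
theorem rar_known_core {i j l : Fin 3} (hij : j ≠ i) (hli : l ≠ i) (hlj : l ≠ j) {h e : ℕ} (he : e ≤ N) (hN : N ≤ k)
    {F : P × V k → P × V k → ℝ} (hF0 : ∀ x y, 0 ≤ F x y) {θ : ℝ} (hθ : 0 ≤ θ)
    (hF : ∀ b0 c0, ∑ x ∈ SC (P := P) h e b0, ∑ y ∈ SC (P := P) h e c0, F x y ≤
      θ * ((SC (P := P) h e b0).card * (SC (P := P) h e c0).card : ℝ)) (ω : Sp k N 3 Θ P) :
    Pm.ce (fun ω => (th ω, vx j ω, Zn i e ω, sc h e l ω)) (fun ω' => F (vx i ω') (vx l ω')) ω ≤ 9 / 8 * θ := by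
  set s := e - (h + 3) with hs
  have hse : s ≤ e := Nat.sub_le _ _
  have hek : e ≤ k := he.trans hN
  have hfib := ce_hidden_cell hij hli hlj he s (fun ω' : Sp k N 3 Θ P => F (vx i ω') (vx l ω')) ω
  have hsc : (fun ω : Sp k N 3 Θ P => (th ω, vx j ω, Zn i e ω, sc h e l ω)) =
      fun ω => (th ω, vx j ω, Zn i e ω, flr s (vx l ω).2) := rfl
  rw [hsc, hfib]
  have hvi : ∀ (y : P × V k) (p : P) (n : ℕ), vx i (updh i e he p n (upd l y ω)) = (p, (Zn i e ω).1 - (n : V k)) := by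
    intro y p n
    have hZ : Zn i e (upd l y ω) = Zn i e ω := by
      unfold Zn
      rw [vx_upd_ne hli.symm]
      rfl
    rw [← hZ]
    unfold vx updh
    simp
  have hvl : ∀ (y : P × V k) (p : P) (n : ℕ), vx l (updh i e he p n (upd l y ω)) = y := by
    intro y p n
    have : vx l (updh i e he p n (upd l y ω)) = vx l (upd l y ω) := by
      unfold updh vx
      simp only [ne_eq, hli, not_false_eq_true, Function.update_of_ne]
    rw [this, vx_upd_same]
  simp only [hvi, hvl]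
  set z := (Zn i e ω).1 with hz
  set T := 2 ^ (e - s) + (if s = 0 then 0 else 1) with hT
  -- the sum over the hidden vertex
  have h1 : ∀ y : P × V k, ∑ p : P, ∑ n ∈ range (2 ^ e), F (p, z - (n : V k)) y ≤
      ∑ t ∈ range T, ∑ x ∈ SC (P := P) h e (z - ((t * 2 ^ s : ℕ) : V k)), F x y := by
    intro y
    have h2 := sum_cover_le ((univ : Finset P) ×ˢ range (2 ^ e)) (fun q : P × ℕ => ((q.1, z - (q.2 : V k)) : P × V k))
      (by
        rintro ⟨p, n⟩ hn ⟨p', n'⟩ hn' hq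
        rw [Finset.mem_product, Finset.mem_range] at hn hn'
        simp only [Prod.mk.injEq, sub_right_inj] at hq hn hn' ⊢
        refine ⟨hq.1, ?_⟩
        have h3 : (2 : ℕ) ^ e ≤ 2 ^ k := Nat.pow_le_pow_right (by norm_num) hek
        have h4 := congrArg ZMod.val hq.2
        rwa [ZMod.val_natCast_of_lt (by omega), ZMod.val_natCast_of_lt (by omega)] at h4)
      (range T) (fun t => SC (P := P) h e (z - ((t * 2 ^ s : ℕ) : V k)))
      (by
        rintro ⟨p, n⟩ hn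
        rw [Finset.mem_product, Finset.mem_range] at hn
        obtain ⟨t, ht, h3⟩ := win_cover hse hek z n hn.2
        refine ⟨t, ht, ?_⟩
        unfold SC
        rw [Finset.mem_filter]
        exact ⟨Finset.mem_univ _, h3⟩)
      (fun x => F x y) (fun x => hF0 x y)
    rw [Finset.sum_product] at h2
    exact h2
  have hCL : CL (P := P) s (vx l ω).2 = SC (P := P) h e (vx l ω).2 := rfl
  rw [hCL]
  have h2 : ∑ y ∈ SC (P := P) h e (vx l ω).2, ∑ p : P, ∑ n ∈ range (2 ^ e), F (p, z - (n : V k)) y ≤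
      T * (θ * ((Fintype.card P : ℝ) * 2 ^ s * (SC (P := P) h e (vx l ω).2).card)) := by
    calc _ ≤ ∑ y ∈ SC (P := P) h e (vx l ω).2, ∑ t ∈ range T,
          ∑ x ∈ SC (P := P) h e (z - ((t * 2 ^ s : ℕ) : V k)), F x y := Finset.sum_le_sum fun y _ => h1 y
      _ = ∑ t ∈ range T, ∑ x ∈ SC (P := P) h e (z - ((t * 2 ^ s : ℕ) : V k)),
          ∑ y ∈ SC (P := P) h e (vx l ω).2, F x y := by
        rw [Finset.sum_comm]
        exact Finset.sum_congr rfl fun t _ => Finset.sum_comm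
      _ ≤ ∑ _t ∈ range T, θ * ((Fintype.card P : ℝ) * 2 ^ s * (SC (P := P) h e (vx l ω).2).card) := by
        refine Finset.sum_le_sum fun t _ => ?_
        have h3 := hF (z - ((t * 2 ^ s : ℕ) : V k)) (vx l ω).2
        rw [card_SC hek (z - ((t * 2 ^ s : ℕ) : V k))] at h3
        exact h3
      _ = _ := by rw [Finset.sum_const, card_range, nsmul_eq_mul]
  have hP : (0 : ℝ) < (Fintype.card P : ℝ) := Nat.cast_pos.mpr Fintype.card_pos
  have hC : (0 : ℝ) < ((SC (P := P) h e (vx l ω).2).card : ℝ) := by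
    rw [card_SC hek]; positivity
  rw [inv_mul_le_iff₀ (by positivity)]
  refine h2.trans ?_
  have hT2 : (T : ℝ) * 2 ^ s ≤ 9 / 8 * 2 ^ e := by
    have h3 : (2 : ℝ) ^ (e - s) * 2 ^ s = 2 ^ e := by rw [← pow_add, Nat.sub_add_cancel hse]
    rw [hT]
    push_cast
    by_cases h0 : s = 0
    · rw [if_pos h0, add_zero, h3]
      have : (0 : ℝ) < 2 ^ e := by positivity
      linarith
    · rw [if_neg h0, add_mul, h3, one_mul]
      have h4 : e - s = h + 3 := by omega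
      have h5 : (8 : ℝ) ≤ 2 ^ (e - s) := by
        rw [h4]
        calc (8 : ℝ) = 2 ^ 3 := by norm_num
          _ ≤ 2 ^ (h + 3) := pow_le_pow_right₀ (by norm_num) (by omega)
      have h6 : (0 : ℝ) < 2 ^ s := by positivity
      have h7 : 8 * (2 : ℝ) ^ s ≤ 2 ^ e := by rw [← h3]; exact mul_le_mul_of_nonneg_right h5 h6.le
      linarith
  calc (T : ℝ) * (θ * ((Fintype.card P : ℝ) * 2 ^ s * (SC (P := P) h e (vx l ω).2).card)) =
      (T * 2 ^ s) * (θ * ((Fintype.card P : ℝ) * (SC (P := P) h e (vx l ω).2).card)) := by ring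
    _ ≤ (9 / 8 * 2 ^ e) * (θ * ((Fintype.card P : ℝ) * (SC (P := P) h e (vx l ω).2).card)) :=
        mul_le_mul_of_nonneg_right hT2 (by positivity)
    _ = _ := by ring

theorem co_eq {i j l : Fin 3} (hij : j ≠ i) (hli : l ≠ i) (hlj : l ≠ j) (ω : Sp k N 3 Θ P) :
    co i ω = (vx j ω).2 + (vx l ω).2 := by
  have h : (univ : Finset (Fin 3)).erase i = {j, l} := by
    revert i j l; decide
  unfold co
  rw [h, Finset.sum_pair hlj.symm]

theorem Gm_eq (h e : ℕ) (ω : Sp k N 3 Θ P) : Gm h e ω = (flr (e - h) (Yn e ω).1, (Yn e ω).2) := rfl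

theorem Gm_aligned (h e : ℕ) (ω : Sp k N 3 Θ P) : flr (e - h) (Gm h e ω).1 = (Gm h e ω).1 := flr_flr le_rfl _

/-- monotone on the fibre -/
theorem ce_mono_fib {Om κ : Type*} [Fintype Om] (Q : FP Om) {X : Om → κ} {f g : Om → ℝ} (w : Om)
    (h : ∀ v, X v = X w → f v ≤ g v) : Q.ce X f w ≤ Q.ce X g w := by
  unfold FP.ce
  refine div_le_div_of_nonneg_right (Q.E_mono fun v _ => ?_) (Q.m_nonneg X w)
  by_cases hv : X v = X w
  · exact mul_le_mul_of_nonneg_left (h v hv) (ind_nonneg _)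
  · rw [ind_not hv, zero_mul, zero_mul]

/-- a function of a part of the information, as a function of one vertex -/
theorem exists_vertex {κ : Type*} {ι : Type*} {Y : Sp k N 3 Θ P → κ} {x : Sp k N 3 Θ P → ι} {v : Sp k N 3 Θ P → V k → ℝ}
    {H : ℝ} (hH : 0 ≤ H) (hv : Fac (fun ω => (Y ω, x ω)) v) (hvH : ∀ ω d, |v ω d| ≤ H) (ω : Sp k N 3 Θ P) :
    ∃ V0 : ι → V k → ℝ, (∀ a d, |V0 a d| ≤ H) ∧ ∀ ω', Y ω' = Y ω → v ω' = V0 (x ω') := by
  classical
  refine ⟨fun a => if h : ∃ ω', Y ω' = Y ω ∧ x ω' = a then v h.choose else fun _ => 0, ?_, ?_⟩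
  · intro a d
    by_cases h : ∃ ω', Y ω' = Y ω ∧ x ω' = a
    · simp only [dif_pos h]; exact hvH _ _
    · simp only [dif_neg h, abs_zero]; exact hH
  · intro ω' hω'
    have h : ∃ ω'', Y ω'' = Y ω ∧ x ω'' = x ω' := ⟨ω', hω', rfl⟩
    simp only [dif_pos h]
    exact hv _ _ (Prod.ext (hω'.trans h.choose_spec.1.symm) h.choose_spec.2.symm)

/-- product tests as a double sum -/
theorem PT_sum {h : ℕ} {R : Fam2 k P} {θ r H : ℝ} (hPT : PT h N R θ r H) {e : ℕ} (he : e ≤ N) {g : V k × ℕ}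
    (hg : flr (e - h) g.1 = g.1) {v u : P × V k → V k → ℝ} (hv : ∀ x d, |v x d| ≤ H) (hu : ∀ x d, |u x d| ≤ H)
    (b0 c0 : V k) :
    ∑ x ∈ SC (P := P) h e b0, ∑ y ∈ SC (P := P) h e c0,
      ind (r ≤ |av e g.1 (fun d => R e g x y d * v x d * u y d)|) ≤
      θ * ((SC (P := P) h e b0).card * (SC (P := P) h e c0).card : ℝ) := by
  classical
  have h1 := hPT e he g hg b0 c0 v u hv hu
  rw [← Finset.sum_product' (f := fun x y => ind (r ≤ |av e g.1 (fun d => R e g x y d * v x d * u y d)|))]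
  refine le_trans (le_of_eq ?_) h1
  rw [Finset.card_filter]
  push_cast
  refine Finset.sum_congr rfl fun q _ => ?_
  by_cases hq : r ≤ |av e g.1 (fun d => R e g q.1 q.2 d * v q.1 d * u q.2 d)|
  · rw [ind_of hq, if_pos hq]
  · rw [ind_not hq, if_neg hq]

/-- from the exact window to the rounded one -/
theorem round_event {h e : ℕ} (y : V k) {r H : ℝ} (hr : 2 * H ^ 3 * ((2 : ℝ) ^ h)⁻¹ ≤ r) {a b c : V k → ℝ}
    (ha : ∀ d, |a d| ≤ H) (hb : ∀ d, |b d| ≤ H) (hc : ∀ d, |c d| ≤ H)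
    (hy : 2 * r ≤ |av e y (fun d => a d * b d * c d)|) :
    r ≤ |av e (flr (e - h) y) (fun d => a d * b d * c d)| := by
  have hH : 0 ≤ H := (abs_nonneg _).trans (ha 0)
  have h1 := av_round h e y (f := fun d => a d * b d * c d) (B := H ^ 3) (fun d => by
    rw [abs_mul, abs_mul]
    calc |a d| * |b d| * |c d| ≤ H * H * H := by
          have := mul_le_mul (ha d) (hb d) (abs_nonneg _) hH
          exact mul_le_mul this (hc d) (abs_nonneg _) (mul_nonneg hH hH)
      _ = H ^ 3 := by ring)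
  have h2 := abs_sub_abs_le_abs_sub (av e y (fun d => a d * b d * c d))
    (av e (flr (e - h) y) (fun d => a d * b d * c d))
  linarith

/-- RARITY, the hidden vertex known -/
theorem rar_hidden (i : Fin 3) {h e : ℕ} (he : e ≤ N) (hN : N ≤ k) {R : Fam2 k P} {θ r H : ℝ} (hθ : 0 ≤ θ)
    (hPT : PT h N R θ r H) (hr : 2 * H ^ 3 * ((2 : ℝ) ^ h)⁻¹ ≤ r) (hR : ∀ e g x y d, |R e g x y d| ≤ H)
    {v u : V k × ℕ → Sp k N 3 Θ P → V k → ℝ}
    (hv : ∀ g, Fac (fun ω => (th ω, vx i ω, vx (i + 1) ω, nz ω)) (v g))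
    (hu : ∀ g, Fac (fun ω => (th ω, vx i ω, vx (i + 2) ω, nz ω)) (u g))
    (hvH : ∀ g ω d, |v g ω d| ≤ H) (huH : ∀ g ω d, |u g ω d| ≤ H) (ω : Sp k N 3 Θ P) :
    Pm.ce (fun ω => (th ω, vx i ω, nz ω, sc h e (i + 1) ω, sc h e (i + 2) ω))
      (fun ω => ind (2 * r ≤ |av e (Yn e ω).1 (fun d => R e (Gm h e ω) (vx (i + 1) ω) (vx (i + 2) ω) d *
        v (Gm h e ω) ω d * u (Gm h e ω) ω d)|)) ω ≤ 2 * θ := by
  have hH : 0 ≤ H := (abs_nonneg _).trans (hvH (0, 0) ω 0)
  have key : ∀ g : V k × ℕ, flr (e - h) g.1 = g.1 →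
      Pm.ce (fun ω => (th ω, vx i ω, nz ω, sc h e (i + 1) ω, sc h e (i + 2) ω))
        (fun ω => ind (r ≤ |av e g.1 (fun d => R e g (vx (i + 1) ω) (vx (i + 2) ω) d * v g ω d * u g ω d)|)) ω ≤
          θ := by
    intro g hg
    obtain ⟨V0, hV0, hV1⟩ := exists_vertex (Y := fun ω : Sp k N 3 Θ P => (th ω, vx i ω, nz ω))
      (x := fun ω => vx (i + 1) ω) hH (v := v g) (Fac.trans (fun a b hab => by
        simp only [Prod.mk.injEq] at hab ⊢
        exact ⟨hab.1.1, hab.1.2.1, hab.2, hab.1.2.2⟩) (hv g)) (hvH g) ω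
    obtain ⟨U0, hU0, hU1⟩ := exists_vertex (Y := fun ω : Sp k N 3 Θ P => (th ω, vx i ω, nz ω))
      (x := fun ω => vx (i + 2) ω) hH (v := u g) (Fac.trans (fun a b hab => by
        simp only [Prod.mk.injEq] at hab ⊢
        exact ⟨hab.1.1, hab.1.2.1, hab.2, hab.1.2.2⟩) (hu g)) (huH g) ω
    have h1 : Pm.ce (fun ω => (th ω, vx i ω, nz ω, sc h e (i + 1) ω, sc h e (i + 2) ω))
        (fun ω => ind (r ≤ |av e g.1 (fun d => R e g (vx (i + 1) ω) (vx (i + 2) ω) d * v g ω d * u g ω d)|)) ω ≤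
        Pm.ce (fun ω => (th ω, vx i ω, nz ω, sc h e (i + 1) ω, sc h e (i + 2) ω))
        (fun ω => ind (r ≤ |av e g.1 (fun d => R e g (vx (i + 1) ω) (vx (i + 2) ω) d * V0 (vx (i + 1) ω) d *
          U0 (vx (i + 2) ω) d)|)) ω := by
      refine ce_mono_fib _ ω fun ω' hω' => ?_
      simp only [Prod.mk.injEq] at hω'
      rw [hV1 ω' (Prod.ext hω'.1 (Prod.ext hω'.2.1 hω'.2.2.1)), hU1 ω' (Prod.ext hω'.1 (Prod.ext hω'.2.1 hω'.2.2.1))]
    refine h1.trans ?_
    have h2 := ce_cells2 i (e - (h + 3)) (e - (h + 3)) (fun ω : Sp k N 3 Θ P =>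
      ind (r ≤ |av e g.1 (fun d => R e g (vx (i + 1) ω) (vx (i + 2) ω) d * V0 (vx (i + 1) ω) d *
          U0 (vx (i + 2) ω) d)|)) ω
    have e1 : ∀ x y : P × V k, vx (i + 1) (upd (i + 1) x (upd (i + 2) y ω)) = x := fun x y => vx_upd_same _ _ _
    have e2 : ∀ x y : P × V k, vx (i + 2) (upd (i + 1) x (upd (i + 2) y ω)) = y := fun x y => by
      rw [vx_upd_ne (fin3_ne3 i).symm, vx_upd_same]
    simp only [e1, e2] at h2
    have h3 := PT_sum hPT he hg hV0 hU0 (vx (i + 1) ω).2 (vx (i + 2) ω).2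
    have hP : (0 : ℝ) < (Fintype.card P : ℝ) := Nat.cast_pos.mpr Fintype.card_pos
    have hC : ∀ v : V k, (0 : ℝ) < ((SC (P := P) h e v).card : ℝ) := fun v => by
      rw [card_SC (he.trans hN)]; positivity
    have hsc : (fun ω : Sp k N 3 Θ P => (th ω, vx i ω, nz ω, sc h e (i + 1) ω, sc h e (i + 2) ω)) =
      fun ω => (th ω, vx i ω, nz ω, flr (e - (h + 3)) (vx (i + 1) ω).2, flr (e - (h + 3)) (vx (i + 2) ω).2) := rfl
    rw [hsc, h2]
    have hCL : ∀ v : V k, CL (P := P) (e - (h + 3)) v = SC (P := P) h e v := fun v => rfl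
    rw [hCL, hCL, inv_mul_le_iff₀ (mul_pos (hC _) (hC _)), mul_comm _ θ]
    exact h3
  obtain ⟨g1, g2, hg⟩ := two_options h e (he.trans hN) (Zn i e ω).1 (vx (i + 1) ω).2 (vx (i + 2) ω).2
  -- both options
  have hopt : ∀ g0 : V k, Pm.ce (fun ω => (th ω, vx i ω, nz ω, sc h e (i + 1) ω, sc h e (i + 2) ω))
      (fun ω' => ind (flr (e - h) g0 = g0 ∧ r ≤ |av e g0 (fun d => R e (g0, (Zn i e ω).2) (vx (i + 1) ω')
        (vx (i + 2) ω') d * v (g0, (Zn i e ω).2) ω' d * u (g0, (Zn i e ω).2) ω' d)|)) ω ≤ θ := by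
    intro g0
    by_cases hg0 : flr (e - h) g0 = g0
    · refine le_trans (FP.ce_mono _ (fun ω' _ => ind_mono fun hq => hq.2) ω) (key (g0, (Zn i e ω).2) hg0)
    · have : (fun ω' : Sp k N 3 Θ P => ind (flr (e - h) g0 = g0 ∧ r ≤ |av e g0 (fun d => R e (g0, (Zn i e ω).2)
          (vx (i + 1) ω') (vx (i + 2) ω') d * v (g0, (Zn i e ω).2) ω' d * u (g0, (Zn i e ω).2) ω' d)|)) =
          fun _ => 0 := funext fun ω' => ind_not fun hq => hg0 hq.1
      rw [this, FP.ce_const _ _ _ (Pm_ne ω)]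
      exact hθ
  have h2 := ce_mono_fib (Pm (k := k) (N := N) (m := 3) (Θ := Θ) (P := P))
    (X := fun ω => (th ω, vx i ω, nz ω, sc h e (i + 1) ω, sc h e (i + 2) ω))
    (f := fun ω => ind (2 * r ≤ |av e (Yn e ω).1 (fun d => R e (Gm h e ω) (vx (i + 1) ω) (vx (i + 2) ω) d *
        v (Gm h e ω) ω d * u (Gm h e ω) ω d)|))
    (g := fun ω' => ind (flr (e - h) g1 = g1 ∧ r ≤ |av e g1 (fun d => R e (g1, (Zn i e ω).2) (vx (i + 1) ω')
        (vx (i + 2) ω') d * v (g1, (Zn i e ω).2) ω' d * u (g1, (Zn i e ω).2) ω' d)|) +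
      ind (flr (e - h) g2 = g2 ∧ r ≤ |av e g2 (fun d => R e (g2, (Zn i e ω).2) (vx (i + 1) ω')
        (vx (i + 2) ω') d * v (g2, (Zn i e ω).2) ω' d * u (g2, (Zn i e ω).2) ω' d)|)) ω (by
    intro ω' hω'
    simp only [Prod.mk.injEq] at hω'
    obtain ⟨-, h3, h4, h5, h5'⟩ := hω'
    have h4' : Zn i e ω' = Zn i e ω := by unfold Zn; rw [h3, h4]
    have h6 : Yn e ω' = ((Zn i e ω).1 + (vx (i + 1) ω').2 + (vx (i + 2) ω').2, (Zn i e ω).2) := by
      rw [Yn_eq i, co_eq (fin3_ne1 i) (fin3_ne2 i) (fin3_ne3 i).symm, h4', add_assoc]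
    have h7 := hg (vx (i + 1) ω').2 (vx (i + 2) ω').2 h5 h5'
    have h8 := Gm_aligned h e ω'
    by_cases hq : 2 * r ≤ |av e (Yn e ω').1 (fun d => R e (Gm h e ω') (vx (i + 1) ω') (vx (i + 2) ω') d *
        v (Gm h e ω') ω' d * u (Gm h e ω') ω' d)|
    · have h9 := round_event (h := h) (Yn e ω').1 hr (fun d => hR _ _ _ _ d) (fun d => hvH _ _ d)
        (fun d => huH _ _ d) hq
      rw [ind_of hq]
      have h10 : Gm h e ω' = (flr (e - h) ((Zn i e ω).1 + (vx (i + 1) ω').2 + (vx (i + 2) ω').2), (Zn i e ω).2) := by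
        rw [Gm_eq, h6]
      rw [h6] at h9
      simp only at h9
      rcases h7 with h7 | h7
      · rw [h7] at h9 h10
        rw [h10] at h8 h9
        rw [ind_of (show flr (e - h) g1 = g1 ∧ r ≤ |av e g1 (fun d => R e (g1, (Zn i e ω).2) (vx (i + 1) ω')
          (vx (i + 2) ω') d * v (g1, (Zn i e ω).2) ω' d * u (g1, (Zn i e ω).2) ω' d)| from ⟨h8, h9⟩)]
        linarith [ind_nonneg (flr (e - h) g2 = g2 ∧ r ≤ |av e g2 (fun d => R e (g2, (Zn i e ω).2) (vx (i + 1) ω')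
          (vx (i + 2) ω') d * v (g2, (Zn i e ω).2) ω' d * u (g2, (Zn i e ω).2) ω' d)|)]
      · rw [h7] at h9 h10
        rw [h10] at h8 h9
        rw [ind_of (show flr (e - h) g2 = g2 ∧ r ≤ |av e g2 (fun d => R e (g2, (Zn i e ω).2) (vx (i + 1) ω')
          (vx (i + 2) ω') d * v (g2, (Zn i e ω).2) ω' d * u (g2, (Zn i e ω).2) ω' d)| from ⟨h8, h9⟩)]
        linarith [ind_nonneg (flr (e - h) g1 = g1 ∧ r ≤ |av e g1 (fun d => R e (g1, (Zn i e ω).2) (vx (i + 1) ω')
          (vx (i + 2) ω') d * v (g1, (Zn i e ω).2) ω' d * u (g1, (Zn i e ω).2) ω' d)|)]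
    · rw [ind_not hq]
      exact add_nonneg (ind_nonneg _) (ind_nonneg _))
  refine h2.trans ?_
  rw [FP.ce_add]
  linarith [hopt g1, hopt g2]

/-- RARITY, the vertex `j ≠ i` known (test of the face `j`, functions of `x (j+1)`, `x (j+2)`) -/
theorem rar_known {i j l : Fin 3} (hij : j ≠ i) (hli : l ≠ i) (hlj : l ≠ j) {h e : ℕ} (he : e ≤ N) (hN : N ≤ k)
    {R : Fam2 k P} {θ r H : ℝ} (hθ : 0 ≤ θ)
    (hPT : PT h N R θ r H) (hr : 2 * H ^ 3 * ((2 : ℝ) ^ h)⁻¹ ≤ r) (hR : ∀ e g x y d, |R e g x y d| ≤ H)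
    {v u : V k × ℕ → Sp k N 3 Θ P → V k → ℝ}
    (hv : ∀ g, Fac (fun ω => (th ω, vx j ω, vx (j + 1) ω, Zn i e ω)) (v g))
    (hu : ∀ g, Fac (fun ω => (th ω, vx j ω, vx (j + 2) ω, Zn i e ω)) (u g))
    (hvH : ∀ g ω d, |v g ω d| ≤ H) (huH : ∀ g ω d, |u g ω d| ≤ H) (ω : Sp k N 3 Θ P) :
    Pm.ce (fun ω => (th ω, vx j ω, Zn i e ω, sc h e l ω))
      (fun ω => ind (2 * r ≤ |av e (Yn e ω).1 (fun d => R e (Gm h e ω) (vx (j + 1) ω) (vx (j + 2) ω) d *
        v (Gm h e ω) ω d * u (Gm h e ω) ω d)|)) ω ≤ 3 * θ := by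
  have hH : 0 ≤ H := (abs_nonneg _).trans (hvH (0, 0) ω 0)
  -- one aligned node
  have key : ∀ g : V k × ℕ, flr (e - h) g.1 = g.1 →
      Pm.ce (fun ω => (th ω, vx j ω, Zn i e ω, sc h e l ω))
        (fun ω => ind (r ≤ |av e g.1 (fun d => R e g (vx (j + 1) ω) (vx (j + 2) ω) d * v g ω d * u g ω d)|)) ω ≤
          9 / 8 * θ := by
    intro g hg
    obtain ⟨V0, hV0, hV1⟩ := exists_vertex (Y := fun ω : Sp k N 3 Θ P => (th ω, vx j ω, Zn i e ω))
      (x := fun ω => vx (j + 1) ω) hH (v := v g) (Fac.trans (fun a b hab => by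
        simp only [Prod.mk.injEq] at hab ⊢
        exact ⟨hab.1.1, hab.1.2.1, hab.2, hab.1.2.2⟩) (hv g)) (hvH g) ω
    obtain ⟨U0, hU0, hU1⟩ := exists_vertex (Y := fun ω : Sp k N 3 Θ P => (th ω, vx j ω, Zn i e ω))
      (x := fun ω => vx (j + 2) ω) hH (v := u g) (Fac.trans (fun a b hab => by
        simp only [Prod.mk.injEq] at hab ⊢
        exact ⟨hab.1.1, hab.1.2.1, hab.2, hab.1.2.2⟩) (hu g)) (huH g) ω
    have h1 : Pm.ce (fun ω => (th ω, vx j ω, Zn i e ω, sc h e l ω))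
        (fun ω => ind (r ≤ |av e g.1 (fun d => R e g (vx (j + 1) ω) (vx (j + 2) ω) d * v g ω d * u g ω d)|)) ω ≤
        Pm.ce (fun ω => (th ω, vx j ω, Zn i e ω, sc h e l ω))
        (fun ω => ind (r ≤ |av e g.1 (fun d => R e g (vx (j + 1) ω) (vx (j + 2) ω) d * V0 (vx (j + 1) ω) d *
          U0 (vx (j + 2) ω) d)|)) ω := by
      refine ce_mono_fib _ ω fun ω' hω' => ?_
      simp only [Prod.mk.injEq] at hω'
      rw [hV1 ω' (Prod.ext hω'.1 (Prod.ext hω'.2.1 hω'.2.2.1)), hU1 ω' (Prod.ext hω'.1 (Prod.ext hω'.2.1 hω'.2.2.1))]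
    refine h1.trans ?_
    rcases fin3_case hij hli hlj with ⟨rfl, rfl⟩ | ⟨rfl, rfl⟩
    · exact rar_known_core hij hli hlj he hN
        (F := fun x y => ind (r ≤ |av e g.1 (fun d => R e g x y d * V0 x d * U0 y d)|))
        (fun _ _ => ind_nonneg _) hθ (fun b0 c0 => PT_sum hPT he hg hV0 hU0 b0 c0) ω
    · refine rar_known_core hij hli hlj he hN
        (F := fun y x => ind (r ≤ |av e g.1 (fun d => R e g x y d * V0 x d * U0 y d)|))
        (fun _ _ => ind_nonneg _) hθ (fun c0 b0 => ?_) ω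
      rw [Finset.sum_comm, mul_comm ((SC (P := P) h e c0).card : ℝ)]
      exact PT_sum hPT he hg hV0 hU0 b0 c0
  obtain ⟨g1, g2, hg⟩ := two_options h e (he.trans hN) (Zn i e ω).1 (vx j ω).2 (vx l ω).2
  -- both options
  have hopt : ∀ g0 : V k, Pm.ce (fun ω => (th ω, vx j ω, Zn i e ω, sc h e l ω))
      (fun ω' => ind (flr (e - h) g0 = g0 ∧ r ≤ |av e g0 (fun d => R e (g0, (Zn i e ω).2) (vx (j + 1) ω')
        (vx (j + 2) ω') d * v (g0, (Zn i e ω).2) ω' d * u (g0, (Zn i e ω).2) ω' d)|)) ω ≤ 9 / 8 * θ := by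
    intro g0
    by_cases hg0 : flr (e - h) g0 = g0
    · refine le_trans (FP.ce_mono _ (fun ω' _ => ind_mono fun hq => hq.2) ω) (key (g0, (Zn i e ω).2) hg0)
    · have : (fun ω' : Sp k N 3 Θ P => ind (flr (e - h) g0 = g0 ∧ r ≤ |av e g0 (fun d => R e (g0, (Zn i e ω).2)
          (vx (j + 1) ω') (vx (j + 2) ω') d * v (g0, (Zn i e ω).2) ω' d * u (g0, (Zn i e ω).2) ω' d)|)) =
          fun _ => 0 := funext fun ω' => ind_not fun hq => hg0 hq.1
      rw [this, FP.ce_const _ _ _ (Pm_ne ω)]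
      positivity
  have h2 := ce_mono_fib (Pm (k := k) (N := N) (m := 3) (Θ := Θ) (P := P))
    (X := fun ω => (th ω, vx j ω, Zn i e ω, sc h e l ω))
    (f := fun ω => ind (2 * r ≤ |av e (Yn e ω).1 (fun d => R e (Gm h e ω) (vx (j + 1) ω) (vx (j + 2) ω) d *
        v (Gm h e ω) ω d * u (Gm h e ω) ω d)|))
    (g := fun ω' => ind (flr (e - h) g1 = g1 ∧ r ≤ |av e g1 (fun d => R e (g1, (Zn i e ω).2) (vx (j + 1) ω')
        (vx (j + 2) ω') d * v (g1, (Zn i e ω).2) ω' d * u (g1, (Zn i e ω).2) ω' d)|) +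
      ind (flr (e - h) g2 = g2 ∧ r ≤ |av e g2 (fun d => R e (g2, (Zn i e ω).2) (vx (j + 1) ω')
        (vx (j + 2) ω') d * v (g2, (Zn i e ω).2) ω' d * u (g2, (Zn i e ω).2) ω' d)|)) ω (by
    intro ω' hω'
    simp only [Prod.mk.injEq] at hω'
    obtain ⟨-, h3, h4, h5⟩ := hω'
    have h6 : Yn e ω' = ((Zn i e ω).1 + (vx j ω).2 + (vx l ω').2, (Zn i e ω).2) := by
      rw [Yn_eq i, co_eq hij hli hlj, h4, h3, add_assoc]
    have h7 := hg (vx j ω).2 (vx l ω').2 rfl h5
    have h8 := Gm_aligned h e ω'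
    by_cases hq : 2 * r ≤ |av e (Yn e ω').1 (fun d => R e (Gm h e ω') (vx (j + 1) ω') (vx (j + 2) ω') d *
        v (Gm h e ω') ω' d * u (Gm h e ω') ω' d)|
    · have h9 := round_event (h := h) (Yn e ω').1 hr (fun d => hR _ _ _ _ d) (fun d => hvH _ _ d)
        (fun d => huH _ _ d) hq
      rw [ind_of hq]
      have h10 : Gm h e ω' = (flr (e - h) ((Zn i e ω).1 + (vx j ω).2 + (vx l ω').2), (Zn i e ω).2) := by
        rw [Gm_eq, h6]
      rw [h6] at h9
      simp only at h9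
      rcases h7 with h7 | h7
      · rw [h7] at h9 h10
        rw [h10] at h8 h9
        rw [ind_of (show flr (e - h) g1 = g1 ∧ r ≤ |av e g1 (fun d => R e (g1, (Zn i e ω).2) (vx (j + 1) ω')
          (vx (j + 2) ω') d * v (g1, (Zn i e ω).2) ω' d * u (g1, (Zn i e ω).2) ω' d)| from ⟨h8, h9⟩)]
        linarith [ind_nonneg (flr (e - h) g2 = g2 ∧ r ≤ |av e g2 (fun d => R e (g2, (Zn i e ω).2) (vx (j + 1) ω')
          (vx (j + 2) ω') d * v (g2, (Zn i e ω).2) ω' d * u (g2, (Zn i e ω).2) ω' d)|)]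
      · rw [h7] at h9 h10
        rw [h10] at h8 h9
        rw [ind_of (show flr (e - h) g2 = g2 ∧ r ≤ |av e g2 (fun d => R e (g2, (Zn i e ω).2) (vx (j + 1) ω')
          (vx (j + 2) ω') d * v (g2, (Zn i e ω).2) ω' d * u (g2, (Zn i e ω).2) ω' d)| from ⟨h8, h9⟩)]
        linarith [ind_nonneg (flr (e - h) g1 = g1 ∧ r ≤ |av e g1 (fun d => R e (g1, (Zn i e ω).2) (vx (j + 1) ω')
          (vx (j + 2) ω') d * v (g1, (Zn i e ω).2) ω' d * u (g1, (Zn i e ω).2) ω' d)|)]
    · rw [ind_not hq]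
      exact add_nonneg (ind_nonneg _) (ind_nonneg _))
  refine h2.trans ?_
  rw [FP.ce_add]
  linarith [hopt g1, hopt g2]

/-- coarser information -/
theorem ce_le_of_fine {κ ι : Type*} {X : Sp k N 3 Θ P → κ} {Y : Sp k N 3 Θ P → ι} (hXY : Fac X Y)
    {f : Sp k N 3 Θ P → ℝ} {c : ℝ} (h : ∀ ω, Pm.ce X f ω ≤ c) (ω : Sp k N 3 Θ P) : Pm.ce Y f ω ≤ c := by
  rw [← FP.ce_tower _ hXY f]
  have h1 := (Pm (k := k) (N := N) (m := 3) (Θ := Θ) (P := P)).ce_mono (X := Y) (f := Pm.ce X f) (g := fun _ => c)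
    (fun v _ => h v) ω
  rwa [FP.ce_const _ _ _ (Pm_ne ω)] at h1

end Pool.Agent.M3.Mod
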