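import Mathlib

/-!
# M3.Par: parameters of the layers (helper96)

`th k l = exp (-(1+k)^l)` rarity of layer `l`, `LL C l = exp (l^C)` slack (bits, births, keys, 1/accuracy).
All comparisons are stated as eventual in `l`.
-/

set_option autoImplicit false

namespace Pool.Agent.M3.Par

open Filter Finset

noncomputable section

/-- rarity of layer `l` -/
def th (κ : ℝ) (l : ℕ) : ℝ := Real.exp (-(1 + κ) ^ l)

/-- slack of layer `l` -/
def LL (C : ℕ) (l : ℕ) : ℝ := Real.exp ((l : ℝ) ^ C)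

end

theorem th_pos (κ : ℝ) (l : ℕ) : 0 < th κ l := Real.exp_pos _

theorem LL_pos (C l : ℕ) : 0 < LL C l := Real.exp_pos _

theorem th_le_one {κ : ℝ} (hκ : 0 ≤ κ) (l : ℕ) : th κ l ≤ 1 := by
  unfold th
  rw [Real.exp_le_one_iff]
  have : 0 ≤ (1 + κ) ^ l := by positivity
  linarith

theorem one_le_LL (C l : ℕ) : 1 ≤ LL C l := Real.one_le_exp (by positivity)

theorem th_rpow (κ : ℝ) (l : ℕ) (k : ℝ) : (th κ l) ^ k = Real.exp (-k * (1 + κ) ^ l) := by
  unfold th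
  rw [← Real.exp_mul]
  congr 1
  ring

theorem th_pow (κ : ℝ) (l n : ℕ) : (th κ l) ^ n = Real.exp (-n * (1 + κ) ^ l) := by
  unfold th
  rw [← Real.exp_nat_mul]
  congr 1
  ring

theorem LL_pow (C l n : ℕ) : (LL C l) ^ n = Real.exp (n * (l : ℝ) ^ C) := by
  unfold LL
  rw [← Real.exp_nat_mul]

/-- polynomials against exponentials -/
theorem ev_pow_le {κ : ℝ} (hκ : 0 < κ) (C : ℕ) (M : ℝ) {k : ℝ} (hk : 0 < k) :
    ∀ᶠ l : ℕ in atTop, M * (l : ℝ) ^ C ≤ k * (1 + κ) ^ l := by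
  have h1 : Tendsto (fun n : ℕ => (n : ℝ) ^ C / (1 + κ) ^ n) atTop (nhds 0) :=
    tendsto_pow_const_div_const_pow_of_one_lt C (by linarith)
  have hpos : 0 < k / (|M| + 1) := div_pos hk (by positivity)
  filter_upwards [h1.eventually (gt_mem_nhds hpos)] with l hl
  have hp : (0 : ℝ) < (1 + κ) ^ l := by positivity
  have h2 : (l : ℝ) ^ C ≤ k / (|M| + 1) * (1 + κ) ^ l := by
    have := (div_lt_iff₀ hp).mp hl
    exact this.le
  have h3 : M * (l : ℝ) ^ C ≤ (|M| + 1) * (l : ℝ) ^ C := by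
    have : M ≤ |M| + 1 := by linarith [le_abs_self M]
    exact mul_le_mul_of_nonneg_right this (by positivity)
  calc M * (l : ℝ) ^ C ≤ (|M| + 1) * (l : ℝ) ^ C := h3
    _ ≤ (|M| + 1) * (k / (|M| + 1) * (1 + κ) ^ l) := mul_le_mul_of_nonneg_left h2 (by positivity)
    _ = k * (1 + κ) ^ l := by field_simp

/-- constants against `l ^ C` -/
theorem ev_const_le {C : ℕ} (hC : 1 ≤ C) (M : ℝ) {k : ℝ} (hk : 0 < k) :
    ∀ᶠ l : ℕ in atTop, M ≤ k * (l : ℝ) ^ C := by
  have h1 : Tendsto (fun n : ℕ => k * (n : ℝ)) atTop atTop :=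
    (tendsto_natCast_atTop_atTop).const_mul_atTop hk
  filter_upwards [h1.eventually_ge_atTop M, eventually_ge_atTop 1] with l hl h2
  have h3 : (1 : ℝ) ≤ (l : ℝ) := by exact_mod_cast h2
  have h4 : (l : ℝ) ≤ (l : ℝ) ^ C := by
    calc (l : ℝ) = (l : ℝ) ^ 1 := (pow_one _).symm
      _ ≤ (l : ℝ) ^ C := pow_le_pow_right₀ h3 hC
  exact hl.trans (mul_le_mul_of_nonneg_left h4 hk.le)

/-- lower powers against higher powers -/
theorem ev_pow_pow_le {C D : ℕ} (hCD : C < D) (M : ℝ) {k : ℝ} (hk : 0 < k) :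
    ∀ᶠ l : ℕ in atTop, M * (l : ℝ) ^ C ≤ k * (l : ℝ) ^ D := by
  filter_upwards [ev_const_le (C := D - C) (by omega) M hk] with l hl
  have h1 : (l : ℝ) ^ D = (l : ℝ) ^ (D - C) * (l : ℝ) ^ C := by
    rw [← pow_add]
    congr 1
    omega
  rw [h1, ← mul_assoc]
  exact mul_le_mul_of_nonneg_right hl (by positivity)

/-- monomials times constants are absorbed by the slack -/
theorem ev_mono_le_LL {C : ℕ} (hC : 1 ≤ C) (a : ℕ) (M : ℝ) {k : ℝ} (hk : 0 < k) :
    ∀ᶠ l : ℕ in atTop, M * (l : ℝ) ^ a ≤ Real.exp (k * (l : ℝ) ^ C) := by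
  have h1 : Tendsto (fun x : ℝ => x ^ a / Real.exp x) atTop (nhds 0) :=
    Real.tendsto_pow_mul_exp_neg_atTop_nhds_zero a |>.congr (fun x => by
      rw [Real.exp_neg, div_eq_mul_inv])
  have h2 : Tendsto (fun n : ℕ => k * (n : ℝ)) atTop atTop :=
    (tendsto_natCast_atTop_atTop).const_mul_atTop hk
  have hpos : 0 < k ^ a / (|M| + 1) := div_pos (by positivity) (by positivity)
  filter_upwards [(h1.comp h2).eventually (gt_mem_nhds hpos), eventually_ge_atTop 1] with l hl hl1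
  have h3 : (1 : ℝ) ≤ (l : ℝ) := by exact_mod_cast hl1
  have h4 : (l : ℝ) ≤ (l : ℝ) ^ C := by
    calc (l : ℝ) = (l : ℝ) ^ 1 := (pow_one _).symm
      _ ≤ (l : ℝ) ^ C := pow_le_pow_right₀ h3 hC
  simp only [Function.comp] at hl
  have he : 0 < Real.exp (k * (l : ℝ)) := Real.exp_pos _
  have h5 : (k * (l : ℝ)) ^ a < k ^ a / (|M| + 1) * Real.exp (k * (l : ℝ)) := (div_lt_iff₀ he).mp hl
  have h6 : (|M| + 1) * (l : ℝ) ^ a ≤ Real.exp (k * (l : ℝ)) := by
    rw [mul_pow] at h5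
    have hk' : 0 < k ^ a := by positivity
    have h7 : k ^ a * ((|M| + 1) * (l : ℝ) ^ a) ≤ k ^ a * Real.exp (k * (l : ℝ)) := by
      have := mul_le_mul_of_nonneg_left h5.le (show (0 : ℝ) ≤ |M| + 1 by positivity)
      calc k ^ a * ((|M| + 1) * (l : ℝ) ^ a) = (|M| + 1) * (k ^ a * (l : ℝ) ^ a) := by ring
        _ ≤ (|M| + 1) * (k ^ a / (|M| + 1) * Real.exp (k * (l : ℝ))) := this
        _ = k ^ a * Real.exp (k * (l : ℝ)) := by field_simp
    exact le_of_mul_le_mul_left h7 hk'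
  calc M * (l : ℝ) ^ a ≤ (|M| + 1) * (l : ℝ) ^ a :=
        mul_le_mul_of_nonneg_right (by linarith [le_abs_self M]) (by positivity)
    _ ≤ Real.exp (k * (l : ℝ)) := h6
    _ ≤ Real.exp (k * (l : ℝ) ^ C) := Real.exp_le_exp.mpr (mul_le_mul_of_nonneg_left h4 hk.le)

/-- slack to any power, times polynomials, against `th ^ (-k)` -/
theorem ev_LL_le_th {κ : ℝ} (hκ : 0 < κ) (C n a : ℕ) (M : ℝ) {k : ℝ} (hk : 0 < k) :
    ∀ᶠ l : ℕ in atTop, M * (l : ℝ) ^ a * (LL C l) ^ n * (th κ l) ^ k ≤ 1 := by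
  filter_upwards [ev_mono_le_LL (C := C + 1) (by omega) a M one_pos,
    ev_pow_le hκ (C + 1) ((n : ℝ) + 1) hk, eventually_ge_atTop 1] with l h1 h2 hl1
  have h3 : (1 : ℝ) ≤ (l : ℝ) := by exact_mod_cast hl1
  rw [LL_pow, th_rpow]
  have h4 : (l : ℝ) ^ C ≤ (l : ℝ) ^ (C + 1) := pow_le_pow_right₀ h3 (by omega)
  have h5 : M * (l : ℝ) ^ a * Real.exp (n * (l : ℝ) ^ C) * Real.exp (-k * (1 + κ) ^ l)
      ≤ Real.exp (1 * (l : ℝ) ^ (C + 1)) * Real.exp (n * (l : ℝ) ^ (C + 1)) * Real.exp (-k * (1 + κ) ^ l) := by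
    apply mul_le_mul_of_nonneg_right _ (Real.exp_pos _).le
    have h6 : Real.exp (n * (l : ℝ) ^ C) ≤ Real.exp (n * (l : ℝ) ^ (C + 1)) :=
      Real.exp_le_exp.mpr (mul_le_mul_of_nonneg_left h4 (by positivity))
    exact (mul_le_mul_of_nonneg_right h1 (Real.exp_pos _).le).trans
      (mul_le_mul_of_nonneg_left h6 (Real.exp_pos _).le)
  refine h5.trans ?_
  rw [← Real.exp_add, ← Real.exp_add, Real.exp_le_one_iff]
  nlinarith [h2]

/-! ## sums over layers -/

theorem pow_add_sub_le {C l j : ℕ} (hC : 1 ≤ C) (h : l ≤ j) :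
    (l : ℝ) ^ C + ((j - l : ℕ) : ℝ) ≤ (j : ℝ) ^ C := by
  obtain ⟨d, rfl⟩ := Nat.exists_eq_add_of_le h
  have h1 : l ^ C + d ≤ (l + d) ^ C := by
    induction C, hC using Nat.le_induction with
    | base => simp
    | succ n hn ih =>
      rcases Nat.eq_zero_or_pos (l + d) with h0 | h0
      · have h3 : l = 0 := by omega
        have h4 : d = 0 := by omega
        subst h3
        subst h4
        simp
      · calc l ^ (n + 1) + d = l * l ^ n + d := by ring
          _ ≤ (l + d) * (l ^ n + d) := by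
              rcases Nat.eq_zero_or_pos d with hd | hd
              · subst hd
                simp
              · have : l * l ^ n ≤ (l + d) * l ^ n := Nat.mul_le_mul_right _ (by omega)
                have h5 : d ≤ (l + d) * d := Nat.le_mul_of_pos_left d h0
                calc l * l ^ n + d ≤ (l + d) * l ^ n + (l + d) * d := Nat.add_le_add this h5
                  _ = (l + d) * (l ^ n + d) := by ring
          _ ≤ (l + d) * (l + d) ^ n := Nat.mul_le_mul_left _ ih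
          _ = (l + d) ^ (n + 1) := by ring
  have h2 : l + d - l = d := by omega
  rw [h2]
  exact_mod_cast h1

/-- geometric sums -/
theorem geo_le {x : ℝ} (hx : 0 < x) (l n : ℕ) :
    ∑ j ∈ Ico l n, Real.exp (-x * ((j - l : ℕ) : ℝ)) ≤ 1 / (1 - Real.exp (-x)) := by
  have h0 : 0 < Real.exp (-x) := Real.exp_pos _
  have h1 : Real.exp (-x) < 1 := by
    rw [Real.exp_lt_one_iff]
    linarith
  rw [Finset.sum_Ico_eq_sum_range]
  have h2 : ∀ i ∈ range (n - l), Real.exp (-x * ((l + i - l : ℕ) : ℝ)) = Real.exp (-x) ^ i := by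
    intro i _
    have : l + i - l = i := by omega
    rw [this, ← Real.exp_nat_mul]
    congr 1
    ring
  rw [Finset.sum_congr rfl h2]
  have h3 := (summable_geometric_of_lt_one h0.le h1).sum_le_tsum (range (n - l)) (fun i _ => by positivity)
  rw [tsum_geometric_of_lt_one h0.le h1] at h3
  rw [one_div]
  exact h3

/-- tails of the series of all errors -/
theorem ev_tail {C : ℕ} (hC : 1 ≤ C) (a : ℕ) (M : ℝ) {c c' : ℝ} (hc' : 0 < c') (hc : c' < c) :
    ∀ᶠ l : ℕ in atTop, ∀ n : ℕ,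
      ∑ j ∈ Ico l n, M * (j : ℝ) ^ a * Real.exp (-c * (j : ℝ) ^ C) ≤ Real.exp (-c' * (l : ℝ) ^ C) := by
  set k : ℝ := (c - c') / 2 with hk
  have hk0 : 0 < k := by rw [hk]; linarith
  have hck : 0 < c - k := by rw [hk]; linarith
  set G : ℝ := 1 / (1 - Real.exp (-(c - k))) with hG
  have h1 : Real.exp (-(c - k)) < 1 := by
    rw [Real.exp_lt_one_iff]
    linarith
  obtain ⟨l0, hl0⟩ := eventually_atTop.mp (ev_mono_le_LL hC a M hk0)
  filter_upwards [eventually_ge_atTop l0, ev_mono_le_LL hC 0 G hk0] with l hl hGl n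
  have h2 : ∀ j ∈ Ico l n, M * (j : ℝ) ^ a * Real.exp (-c * (j : ℝ) ^ C)
      ≤ Real.exp (-(c - k) * (l : ℝ) ^ C) * Real.exp (-(c - k) * ((j - l : ℕ) : ℝ)) := by
    intro j hj
    rw [Finset.mem_Ico] at hj
    have h3 := hl0 j (hl.trans hj.1)
    have h4 := pow_add_sub_le hC hj.1
    calc M * (j : ℝ) ^ a * Real.exp (-c * (j : ℝ) ^ C)
        ≤ Real.exp (k * (j : ℝ) ^ C) * Real.exp (-c * (j : ℝ) ^ C) :=
          mul_le_mul_of_nonneg_right h3 (Real.exp_pos _).le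
      _ = Real.exp (-(c - k) * (j : ℝ) ^ C) := by
          rw [← Real.exp_add]
          congr 1
          ring
      _ ≤ Real.exp (-(c - k) * ((l : ℝ) ^ C + ((j - l : ℕ) : ℝ))) := by
          apply Real.exp_le_exp.mpr
          nlinarith
      _ = _ := by
          rw [← Real.exp_add]
          congr 1
          ring
  refine (Finset.sum_le_sum h2).trans ?_
  rw [← Finset.mul_sum]
  have h5 := geo_le hck l n
  rw [pow_zero, mul_one] at hGl
  calc Real.exp (-(c - k) * (l : ℝ) ^ C) * ∑ j ∈ Ico l n, Real.exp (-(c - k) * ((j - l : ℕ) : ℝ))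
      ≤ Real.exp (-(c - k) * (l : ℝ) ^ C) * Real.exp (k * (l : ℝ) ^ C) :=
        mul_le_mul_of_nonneg_left (h5.trans hGl) (Real.exp_pos _).le
    _ = Real.exp (-c' * (l : ℝ) ^ C) := by
        rw [← Real.exp_add]
        congr 1
        rw [hk]
        ring

/-- the total of all errors is small -/
theorem ev_total {C : ℕ} (hC : 1 ≤ C) (a : ℕ) (M : ℝ) {c : ℝ} (hc : 0 < c) {η : ℝ} (hη : 0 < η) :
    ∀ᶠ l : ℕ in atTop, ∀ n : ℕ,
      ∑ j ∈ Ico l n, M * (j : ℝ) ^ a * Real.exp (-c * (j : ℝ) ^ C) ≤ η := by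
  have h1 : Tendsto (fun n : ℕ => (c / 2) * (n : ℝ)) atTop atTop :=
    (tendsto_natCast_atTop_atTop).const_mul_atTop (by linarith)
  have h2 : Tendsto (fun n : ℕ => Real.exp (-((c / 2) * (n : ℝ)))) atTop (nhds 0) :=
    Real.tendsto_exp_neg_atTop_nhds_zero.comp h1
  filter_upwards [ev_tail hC a M (show 0 < c / 2 by linarith) (show c / 2 < c by linarith),
    h2.eventually (gt_mem_nhds hη), eventually_ge_atTop 1] with l hl h3 hl1 n
  refine (hl n).trans (le_trans ?_ h3.le)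
  apply Real.exp_le_exp.mpr
  have h4 : (1 : ℝ) ≤ (l : ℝ) := by exact_mod_cast hl1
  have h5 : (l : ℝ) ≤ (l : ℝ) ^ C := by
    calc (l : ℝ) = (l : ℝ) ^ 1 := (pow_one _).symm
      _ ≤ (l : ℝ) ^ C := pow_le_pow_right₀ h4 hC
  nlinarith

/-! ## thresholds -/

noncomputable section

/-- oscillation allowed to layer `l` -/
def rr (c : ℝ) (l : ℕ) : ℝ := c / (l : ℝ) ^ 2

/-- threshold of the term `j` of layer `l` in Proposition 2 -/
def rj (c : ℝ) (l j : ℕ) : ℝ := rr c l / (8 * (((j - l : ℕ) : ℝ) + 1) ^ 2)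

end

theorem rr_pos {c : ℝ} (hc : 0 < c) {l : ℕ} (hl : 1 ≤ l) : 0 < rr c l := by
  have : (0 : ℝ) < (l : ℝ) := by exact_mod_cast hl
  unfold rr
  positivity

theorem rj_pos {c : ℝ} (hc : 0 < c) {l : ℕ} (hl : 1 ≤ l) (j : ℕ) : 0 < rj c l j := by
  have := rr_pos hc hl
  unfold rj
  positivity

theorem rj_le {c : ℝ} (hc : 0 < c) {l : ℕ} (hl : 1 ≤ l) (j : ℕ) : rj c l j ≤ rr c l / 8 := by
  have h := rr_pos hc hl
  unfold rj
  apply div_le_div_of_nonneg_left h.le (by norm_num)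
  have : (0 : ℝ) ≤ ((j - l : ℕ) : ℝ) := Nat.cast_nonneg _
  nlinarith

/-- the thresholds are at least `c / (8 j^4)` -/
theorem rj_ge {c : ℝ} (hc : 0 < c) {l j : ℕ} (hl : 1 ≤ l) (hj : l ≤ j) :
    c / (8 * (j : ℝ) ^ 4) ≤ rj c l j := by
  have hl0 : (0 : ℝ) < (l : ℝ) := by exact_mod_cast hl
  have hj0 : (0 : ℝ) < (j : ℝ) := by exact_mod_cast (hl.trans hj)
  have h1 : (l : ℝ) ≤ (j : ℝ) := by exact_mod_cast hj
  have h2 : (((j - l : ℕ) : ℝ) + 1) ≤ (j : ℝ) := by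
    have : j - l + 1 ≤ j := by omega
    exact_mod_cast this
  have h3 : (0 : ℝ) < ((j - l : ℕ) : ℝ) + 1 := by positivity
  unfold rj rr
  rw [div_div]
  apply div_le_div_of_nonneg_left hc.le (by positivity)
  have h4 : (l : ℝ) * (((j - l : ℕ) : ℝ) + 1) ≤ (j : ℝ) * (j : ℝ) :=
    mul_le_mul h1 h2 h3.le hj0.le
  have h5 : ((l : ℝ) * (((j - l : ℕ) : ℝ) + 1)) ^ 2 ≤ ((j : ℝ) * (j : ℝ)) ^ 2 :=
    pow_le_pow_left₀ (by positivity) h4 2
  nlinarith

/-- the tests of layer `j` are finer than all thresholds, `l <= j` -/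
theorem eps_le_rj {c c' : ℝ} (hc : 0 < c) {A : ℝ} (hA : 8 * A * c' ≤ c) {l j : ℕ} (hl : 1 ≤ l) (hj : l ≤ j) :
    A * (c' / (j : ℝ) ^ 4) ≤ rj c l j := by
  refine le_trans ?_ (rj_ge hc hl hj)
  have hj0 : (0 : ℝ) < (j : ℝ) := by exact_mod_cast (hl.trans hj)
  rw [mul_div_assoc', div_le_div_iff₀ (by positivity) (by positivity)]
  have h4 : (0 : ℝ) < (j : ℝ) ^ 4 := by positivity
  nlinarith

theorem sum_inv_sq_le' (n : ℕ) : ∑ i ∈ range (n + 1), 1 / ((i : ℝ) + 1) ^ 2 ≤ 2 - 1 / ((n : ℝ) + 1) := by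
  induction n with
  | zero => norm_num
  | succ n ih =>
    rw [Finset.sum_range_succ]
    have h0 : (0 : ℝ) < (n : ℝ) + 1 := by positivity
    have h1 : 1 / (((n + 1 : ℕ) : ℝ) + 1) ^ 2 ≤ 1 / ((n : ℝ) + 1) - 1 / (((n + 1 : ℕ) : ℝ) + 1) := by
      push_cast
      rw [div_sub_div _ _ (by positivity) (by positivity), div_le_div_iff₀ (by positivity) (by positivity)]
      nlinarith
    linarith

theorem sum_inv_sq_le (n : ℕ) : ∑ i ∈ range n, 1 / ((i : ℝ) + 1) ^ 2 ≤ 2 := by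
  rcases n with _ | n
  · norm_num
  · have h := sum_inv_sq_le' n
    have : (0 : ℝ) ≤ 1 / ((n : ℝ) + 1) := by positivity
    linarith

theorem sum_rj_le {c : ℝ} (hc : 0 < c) {l : ℕ} (hl : 1 ≤ l) (n : ℕ) :
    ∑ j ∈ Ico l n, rj c l j ≤ rr c l / 4 := by
  have h := rr_pos hc hl
  rw [Finset.sum_Ico_eq_sum_range]
  have h1 : ∀ i ∈ range (n - l), rj c l (l + i) = rr c l / 8 * (1 / ((i : ℝ) + 1) ^ 2) := by
    intro i _
    have : l + i - l = i := by omega
    unfold rj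
    rw [this]
    field_simp
  rw [Finset.sum_congr rfl h1, ← Finset.mul_sum]
  have h2 := sum_inv_sq_le (n - l)
  nlinarith

theorem sum_rr_le {c : ℝ} (hc : 0 < c) {l : ℕ} (hl : 1 ≤ l) (n : ℕ) :
    ∑ j ∈ Ico l n, rr c j ≤ 2 * c / l := by
  have hl0 : (0 : ℝ) < (l : ℝ) := by exact_mod_cast hl
  have key : ∀ n : ℕ, l ≤ n → ∑ j ∈ Ico l n, rr c j ≤ 2 * c / l - 2 * c / n := by
    intro n hn
    induction n, hn using Nat.le_induction with
    | base => simp
    | succ n hn ih =>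
      rw [Finset.sum_Ico_succ_top hn]
      have h1 : (1 : ℝ) ≤ (n : ℝ) := by exact_mod_cast (hl.trans hn)
      have hn0 : (0 : ℝ) < (n : ℝ) := by linarith
      have h2 : rr c n ≤ 2 * c / n - 2 * c / ((n + 1 : ℕ) : ℝ) := by
        unfold rr
        push_cast
        rw [div_sub_div _ _ (by positivity) (by positivity), div_le_div_iff₀ (by positivity) (by positivity)]
        have h3 : 0 < c * (n : ℝ) := by positivity
        nlinarith [mul_le_mul_of_nonneg_left h1 h3.le]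
      linarith
  rcases Nat.lt_or_ge n l with h | h
  · rw [Finset.Ico_eq_empty (by omega), Finset.sum_empty]
    positivity
  · refine (key n h).trans ?_
    have hn0 : (0 : ℝ) < (n : ℝ) := by exact_mod_cast (Nat.lt_of_lt_of_le hl h)
    have : (0 : ℝ) ≤ 2 * c / (n : ℝ) := by positivity
    linarith

/-- for `l0` large the oscillations of all layers are at most `η` -/
theorem ev_sum_rr {c : ℝ} (hc : 0 < c) {η : ℝ} (hη : 0 < η) :
    ∀ᶠ l : ℕ in atTop, ∀ n : ℕ, ∑ j ∈ Ico l n, rr c j ≤ η := by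
  obtain ⟨N, hN⟩ := exists_nat_gt (2 * c / η)
  filter_upwards [eventually_ge_atTop (N + 1)] with l hl n
  have h1 : 1 ≤ l := by omega
  have hl0 : (0 : ℝ) < (l : ℝ) := by exact_mod_cast h1
  refine (sum_rr_le hc h1 n).trans ?_
  have h2 : (N : ℝ) ≤ (l : ℝ) := by exact_mod_cast (by omega : N ≤ l)
  rw [div_le_iff₀ hl0]
  rw [div_lt_iff₀ hη] at hN
  nlinarith

/-- choice of the last layer -/
theorem ev_last {κ : ℝ} (hκ : 0 < κ) (K : ℝ) {η : ℝ} (hη : 0 < η) :
    ∀ᶠ L : ℕ in atTop, K * th κ L ≤ η := by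
  have h1 : Tendsto (fun n : ℕ => (1 + κ) ^ n) atTop atTop :=
    tendsto_pow_atTop_atTop_of_one_lt (by linarith)
  have h2 : Tendsto (fun n : ℕ => th κ n) atTop (nhds 0) :=
    Real.tendsto_exp_neg_atTop_nhds_zero.comp h1
  have h3 : Tendsto (fun n : ℕ => K * th κ n) atTop (nhds (K * 0)) := h2.const_mul K
  rw [mul_zero] at h3
  exact (h3.eventually (gt_mem_nhds hη)).mono fun _ h => h.le

/-- one step of the layers: `th (l+1) = th l ^ (1+κ)` -/
theorem th_succ (κ : ℝ) (l : ℕ) : th κ (l + 1) = (th κ l) ^ (1 + κ) := by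
  rw [th_rpow]
  unfold th
  congr 1
  ring

theorem th_anti {κ : ℝ} (hκ : 0 ≤ κ) {l j : ℕ} (h : l ≤ j) : th κ j ≤ th κ l := by
  unfold th
  apply Real.exp_le_exp.mpr
  have := pow_le_pow_right₀ (show (1 : ℝ) ≤ 1 + κ by linarith) h
  linarith

theorem LL_mono (C : ℕ) {l j : ℕ} (h : l ≤ j) : LL C l ≤ LL C j := by
  unfold LL
  apply Real.exp_le_exp.mpr
  exact pow_le_pow_left₀ (Nat.cast_nonneg _) (by exact_mod_cast h) C

/-- a power of the slack with a smaller exponent is smaller -/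
theorem ev_LL_le_LL {C D : ℕ} (hCD : C < D) (n a : ℕ) (M : ℝ) {k : ℝ} (hk : 0 < k) :
    ∀ᶠ l : ℕ in atTop, M * (l : ℝ) ^ a * (LL C l) ^ n ≤ Real.exp (k * (l : ℝ) ^ D) := by
  filter_upwards [ev_mono_le_LL (C := D) (by omega) a M (show 0 < k / 2 by linarith),
    ev_pow_pow_le hCD (n : ℝ) (show 0 < k / 2 by linarith)] with l h1 h2
  rw [LL_pow]
  calc M * (l : ℝ) ^ a * Real.exp (n * (l : ℝ) ^ C)
      ≤ Real.exp (k / 2 * (l : ℝ) ^ D) * Real.exp (k / 2 * (l : ℝ) ^ D) := by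
        refine (mul_le_mul_of_nonneg_right h1 (Real.exp_pos _).le).trans ?_
        exact mul_le_mul_of_nonneg_left (Real.exp_le_exp.mpr h2) (Real.exp_pos _).le
    _ = Real.exp (k * (l : ℝ) ^ D) := by
        rw [← Real.exp_add]
        congr 1
        ring

end Pool.Agent.M3.Par
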