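import Pool.Agent.M3.S3Vec
import Pool.Agent.M3.FPPoE

/-!
# M3.S3Rob: one step of section 3 (digit and additions = one partition `V`), robust predictor

`Z` = public node (with `b`, `c`), `X`, `Y` = the two labels, `V` = refinement (digit and additions), `D` = digit, a
function of `(V,Z)`.  `P.pv W V w v = P(V = v | W)` at `w`.
* `rob_step`: `(E[D|XYZ])^2 ≤ 3 (E[D|Z])^2 + 1536 (hel X + hel Y) + 3 kap^2` and for every weight `om ≥ 0`, function of
  `(X,Y,Z)`: `E om kap^2 ≤ 2 (E om (iota X Y (V,Z) - iota X Y Z) + E om ss + E om ww)`.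
* `E_hel_le`: `E hel X ≤ I(V;X|Z)`.
* `E_iota`: `E iota X Y Z = I(X;Y|Z)`.
* `iota_births`: `E om (iota X' Y' Z - iota X Y Z) ≥ 0` if `X'`, `Y'` refine `X`, `Y`.
-/

set_option autoImplicit false
set_option linter.unusedSectionVars false

namespace Pool.Agent.M3

open Finset Pool.Agent.PWZ

variable {Om : Type*} [Fintype Om]

noncomputable section

/-- the values of a map -/
def vals {κ : Type*} (V : Om → κ) : Finset κ := by
  classical
  exact Finset.univ.image V

/-- conditional probability of `V = v` given `W`, at `w` -/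
def FP.pv (P : FP Om) {κ ι : Type*} (W : Om → ι) (V : Om → κ) (w : Om) (v : κ) : ℝ :=
  P.ce W (fun u => ind (V u = v)) w

/-- density of the mutual information -/
def FP.iota (P : FP Om) {κ ι ι' : Type*} (X : Om → κ) (Y : Om → ι) (Z : Om → ι') (w : Om) : ℝ :=
  Real.log (P.m (fun v => (X v, Y v, Z v)) w * P.m Z w /
    (P.m (fun v => (X v, Z v)) w * P.m (fun v => (Y v, Z v)) w))

/-- density ratio `P(V = v | X, Z) / P(V = v | Z)` -/
def FP.rt (P : FP Om) {κ ι ι' : Type*} (X : Om → κ) (Z : Om → ι') (V : Om → ι) (w : Om) (v : ι) : ℝ :=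
  P.pv (fun u => (X u, Z u)) V w v / P.pv Z V w v

/-- weak overlap of the two labels -/
def FP.ww (P : FP Om) {κ ι ι' ι'' : Type*} (X : Om → κ) (Y : Om → ι) (Z : Om → ι') (V : Om → ι'') (w : Om) : ℝ :=
  ∑ v ∈ vals V, P.pv Z V w v * lw (P.rt X Z V w v) (P.rt Y Z V w v)

/-- strong overlap of the two labels -/
def FP.ss (P : FP Om) {κ ι ι' ι'' : Type*} (X : Om → κ) (Y : Om → ι) (Z : Om → ι') (V : Om → ι'') (w : Om) : ℝ :=
  ls (P.rt X Z V w (V w)) (P.rt Y Z V w (V w))

/-- Hellinger distance of the laws of `V` given `(X,Z)` and given `Z` -/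
def FP.hel (P : FP Om) {κ ι' ι'' : Type*} (X : Om → κ) (Z : Om → ι') (V : Om → ι'') (w : Om) : ℝ :=
  ∑ v ∈ vals V, P.pv Z V w v * (Real.sqrt (P.rt X Z V w v) - 1) ^ 2

end

namespace FP

variable (P : FP Om) {κ ι ι' ι'' : Type*}

theorem mem_vals (V : Om → κ) (w : Om) : V w ∈ vals V := by
  classical
  unfold vals
  exact Finset.mem_image_of_mem V (Finset.mem_univ w)

theorem sum_vals (V : Om → κ) (F : κ → ℝ) (u : Om) : ∑ v ∈ vals V, ind (V u = v) * F v = F (V u) := by
  rw [Finset.sum_eq_single (V u)]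
  · rw [ind_of rfl, one_mul]
  · intro b _ hb
    rw [ind_not (fun h => hb h.symm), zero_mul]
  · intro h
    exact absurd (mem_vals V u) h

theorem pv_nonneg (W : Om → ι) (V : Om → κ) (w : Om) (v : κ) : 0 ≤ P.pv W V w v :=
  P.ce_nonneg (fun _ _ => ind_nonneg _) w

theorem pv_fac (W : Om → ι) (V : Om → κ) (v : κ) : Fac W (fun w => P.pv W V w v) := P.ce_fac W _

/-- sums against the conditional law -/
theorem sum_pv {W : Om → ι} (V : Om → κ) {F : Om → κ → ℝ} (hF : ∀ v, Fac W (fun w => F w v)) (w : Om) :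
    ∑ v ∈ vals V, P.pv W V w v * F w v = P.ce W (fun u => F u (V u)) w := by
  have h1 : ∀ v ∈ vals V, P.pv W V w v * F w v = P.ce W (fun u => ind (V u = v) * F u v) w := by
    intro v _
    unfold pv
    rw [P.ce_mul' (hF v)]
  rw [Finset.sum_congr rfl h1, ← P.ce_sum]
  congr 1
  funext u
  exact sum_vals V (F u) u

theorem pv_sum (W : Om → ι) (V : Om → κ) {w : Om} (hw : P.p w ≠ 0) : ∑ v ∈ vals V, P.pv W V w v = 1 := by
  have h := P.sum_pv (W := W) V (F := fun _ _ => 1) (fun _ _ _ _ => rfl) w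
  simp only [mul_one] at h
  rw [h, P.ce_const W 1 hw]

theorem pv_self (W : Om → ι) (V : Om → κ) (w : Om) :
    P.pv W V w (V w) = P.m (fun u => (V u, W u)) w / P.m W w := by
  unfold pv ce
  congr 1
  unfold m
  refine P.E_congr (fun v _ => ?_)
  show ind (W v = W w) * ind (V v = V w) = ind ((V v, W v) = (V w, W w))
  by_cases h1 : W v = W w
  · by_cases h2 : V v = V w
    · rw [ind_of h1, ind_of h2, ind_of (by rw [h1, h2])]; ring
    · rw [ind_not h2, ind_not (fun h => h2 (congrArg Prod.fst h))]; ring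
  · rw [ind_not h1, ind_not (fun h => h1 (congrArg Prod.snd h))]; ring

theorem pv_self_pos (W : Om → ι) (V : Om → κ) {w : Om} (hw : P.p w ≠ 0) : 0 < P.pv W V w (V w) := by
  rw [pv_self]
  exact div_pos (P.m_pos _ hw) (P.m_pos _ hw)

/-- absolute continuity -/
theorem pv_ac {W : Om → ι} {Z : Om → ι'} (hWZ : Fac W Z) (V : Om → κ) {w : Om} {v : κ}
    (h : P.pv Z V w v = 0) : P.pv W V w v = 0 := by
  have h1 : ∀ u, P.p u ≠ 0 → Z u = Z w → ind (V u = v) = 0 := by
    intro u hu hz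
    by_contra hne
    have hv : V u = v := by
      by_contra hv
      exact hne (ind_not hv)
    have h2 := P.pv_self_pos Z V hu
    have h3 : P.pv Z V u v = P.pv Z V w v := P.pv_fac Z V v u w hz
    rw [hv, h3, h] at h2
    exact lt_irrefl _ h2
  unfold pv ce
  have h4 : P.E (fun u => ind (W u = W w) * ind (V u = v)) = 0 := by
    rw [← P.E_const 0]
    refine P.E_congr (fun u hu => ?_)
    by_cases hW : W u = W w
    · rw [h1 u hu (hWZ u w hW)]; ring
    · rw [ind_not hW]; ring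
  rw [h4, zero_div]

theorem iota_eq (X : Om → κ) (Y : Om → ι) (Z : Om → ι') {w : Om} (hw : P.p w ≠ 0) :
    P.iota X Y Z w = Real.log (P.m (fun v => (X v, Y v, Z v)) w) + Real.log (P.m Z w) -
      Real.log (P.m (fun v => (X v, Z v)) w) - Real.log (P.m (fun v => (Y v, Z v)) w) := by
  have a := (P.m_pos (fun v => (X v, Y v, Z v)) hw).ne'
  have b := (P.m_pos Z hw).ne'
  have c := (P.m_pos (fun v => (X v, Z v)) hw).ne'
  have d := (P.m_pos (fun v => (Y v, Z v)) hw).ne'
  unfold iota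
  rw [Real.log_div (mul_ne_zero a b) (mul_ne_zero c d), Real.log_mul a b, Real.log_mul c d]
  ring

theorem E_iota (X : Om → κ) (Y : Om → ι) (Z : Om → ι') : P.E (P.iota X Y Z) = P.I X Y Z := by
  unfold I H
  rw [← E_add, ← E_sub, ← E_sub]
  refine P.E_congr (fun w hw => ?_)
  rw [P.iota_eq X Y Z hw]
  ring

theorem rt_fac (X : Om → κ) (Z : Om → ι') (V : Om → ι) (v : ι) :
    Fac (fun u => (X u, Z u)) (fun w => P.rt X Z V w v) :=
  (P.pv_fac (fun u => (X u, Z u)) V v).comp₂ ((Fac.snd X Z).trans (P.pv_fac Z V v)) (fun a b => a / b)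

theorem rt_nonneg (X : Om → κ) (Z : Om → ι') (V : Om → ι) (w : Om) (v : ι) : 0 ≤ P.rt X Z V w v :=
  div_nonneg (P.pv_nonneg _ _ _ _) (P.pv_nonneg _ _ _ _)

theorem hel_nonneg (X : Om → κ) (Z : Om → ι') (V : Om → ι'') (w : Om) : 0 ≤ P.hel X Z V w :=
  Finset.sum_nonneg (fun _ _ => mul_nonneg (P.pv_nonneg _ _ _ _) (sq_nonneg _))

theorem hel_fac (X : Om → κ) (Z : Om → ι') (V : Om → ι'') : Fac (fun u => (X u, Z u)) (P.hel X Z V) :=
  Fac.finsum _ (fun v _ => ((Fac.snd X Z).trans (P.pv_fac Z V v)).comp₂ (P.rt_fac X Z V v)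
    (fun a b => a * (Real.sqrt b - 1) ^ 2))

/-- the Hellinger terms are paid by information -/
theorem E_hel_le (X : Om → κ) (Z : Om → ι') (V : Om → ι'') : P.E (P.hel X Z V) ≤ P.I V X Z := by
  set W : Om → κ × ι' := fun u => (X u, Z u) with hW
  set G : Om → ℝ := fun u => Real.log (P.pv W V u (V u) / P.pv Z V u (V u)) with hG
  have hF : ∀ v, Fac W (fun w => Real.log (P.pv W V w v / P.pv Z V w v)) := fun v =>
    (P.pv_fac W V v).comp₂ ((Fac.snd X Z).trans (P.pv_fac Z V v)) (fun a b => Real.log (a / b))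
  have h1 : P.E (P.hel X Z V) ≤ P.E (P.ce W G) := by
    refine P.E_mono (fun w hw => ?_)
    have h2 := hel_le_kl (S := vals V) (pz := P.pv Z V w) (px := P.pv W V w)
      (fun v _ => P.pv_nonneg _ _ _ _) (fun v _ => P.pv_nonneg _ _ _ _) (P.pv_sum Z V hw) (P.pv_sum W V hw)
      (fun v _ h => P.pv_ac (Fac.snd X Z) V h)
    rw [P.sum_pv V hF w] at h2
    exact h2
  rw [P.E_ce] at h1
  refine h1.trans (le_of_eq ?_)
  rw [I_comm, ← P.E_iota X V Z]
  refine P.E_congr (fun w hw => ?_)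
  rw [P.iota_eq X V Z hw, hG]
  simp only [pv_self]
  have a1 := (P.m_pos (fun u => (V u, W u)) hw).ne'
  have a2 := (P.m_pos W hw).ne'
  have a3 := (P.m_pos (fun u => (V u, Z u)) hw).ne'
  have a4 := (P.m_pos Z hw).ne'
  rw [Real.log_div (div_ne_zero a1 a2) (div_ne_zero a3 a4), Real.log_div a1 a2, Real.log_div a3 a4]
  have e1 : P.m (fun u => (V u, W u)) w = P.m (fun v => (X v, V v, Z v)) w :=
    P.m_congr (fun v w h => by
      simp only [hW, Prod.mk.injEq] at h ⊢
      exact ⟨h.2.1, h.1, h.2.2⟩) (fun v w h => by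
      simp only [hW, Prod.mk.injEq] at h ⊢
      exact ⟨h.2.1, h.1, h.2.2⟩) w
  rw [e1]
  ring

/-- one label refined: the weighted density of `I(X';Y|X,Z)` is nonnegative -/
theorem iota_birth {X : Om → κ} (Y : Om → ι) (Z : Om → ι') {X' : Om → ι''}
    (hX : Fac (fun w => (X' w, Z w)) X) {om : Om → ℝ}
    (ho : ∀ w, P.p w ≠ 0 → 0 ≤ om w) (hom : Fac (fun w => (X w, Y w, Z w)) om) :
    P.E (fun w => om w * P.iota X Y Z w) ≤ P.E (fun w => om w * P.iota X' Y Z w) := by
  set W1 : Om → κ × ι' := fun w => (X w, Z w) with hW1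
  set W2 : Om → κ × ι × ι' := fun w => (X w, Y w, Z w) with hW2
  have h21 : Fac W2 W1 := fun v w h => by
    simp only [hW1, hW2, Prod.mk.injEq] at h ⊢
    exact ⟨h.1, h.2.2⟩
  set F : Om → ι'' → ℝ := fun w v => P.pv W1 X' w v / P.pv W2 X' w v with hF
  have hFf : ∀ v, Fac W2 (fun w => F w v) := fun v =>
    (h21.trans (P.pv_fac W1 X' v)).comp₂ (P.pv_fac W2 X' v) (fun a b => a / b)
  have hF1 : ∀ w, P.p w ≠ 0 → P.ce W2 (fun u => F u (X' u)) w ≤ 1 := by
    intro w hw
    rw [← P.sum_pv X' hFf w, ← P.pv_sum W1 X' hw]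
    refine Finset.sum_le_sum (fun v _ => ?_)
    by_cases h0 : P.pv W2 X' w v = 0
    · rw [h0, zero_mul]; exact P.pv_nonneg _ _ _ _
    · refine le_of_eq ?_
      show P.pv W2 X' w v * (P.pv W1 X' w v / P.pv W2 X' w v) = _
      field_simp
  have hFp : ∀ w, P.p w ≠ 0 → 0 < F w (X' w) := fun w hw => div_pos (P.pv_self_pos W1 X' hw) (P.pv_self_pos W2 X' hw)
  have hlog : ∀ w, P.p w ≠ 0 → P.iota X' Y Z w - P.iota X Y Z w = - Real.log (F w (X' w)) := by
    intro w hw
    rw [P.iota_eq X' Y Z hw, P.iota_eq X Y Z hw]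
    simp only [hF, pv_self]
    have a1 := (P.m_pos (fun u => (X' u, W1 u)) hw).ne'
    have a2 := (P.m_pos W1 hw).ne'
    have a3 := (P.m_pos (fun u => (X' u, W2 u)) hw).ne'
    have a4 := (P.m_pos W2 hw).ne'
    rw [Real.log_div (div_ne_zero a1 a2) (div_ne_zero a3 a4), Real.log_div a1 a2, Real.log_div a3 a4]
    have e1 : P.m (fun u => (X' u, W1 u)) w = P.m (fun v => (X' v, Z v)) w := by
      refine P.m_congr (fun v w h => ?_) (fun v w h => ?_) w
      · simp only [hW1, Prod.mk.injEq] at h ⊢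
        exact ⟨h.1, h.2.2⟩
      · have h2 := hX v w h
        simp only [hW1, Prod.mk.injEq] at h ⊢
        exact ⟨h.1, h2, h.2⟩
    have e2 : P.m (fun u => (X' u, W2 u)) w = P.m (fun v => (X' v, Y v, Z v)) w := by
      refine P.m_congr (fun v w h => ?_) (fun v w h => ?_) w
      · simp only [hW2, Prod.mk.injEq] at h ⊢
        exact ⟨h.1, h.2.2.1, h.2.2.2⟩
      · simp only [Prod.mk.injEq] at h
        have h2 := hX v w (by simp only [Prod.mk.injEq]; exact ⟨h.1, h.2.2⟩)
        simp only [hW2, Prod.mk.injEq]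
        exact ⟨h.1, h2, h.2.1, h.2.2⟩
    rw [e1, e2]
    ring
  have h3 : 0 ≤ P.E (fun w => om w * (P.iota X' Y Z w - P.iota X Y Z w)) := by
    have h4 : P.E (fun w => om w * (1 - F w (X' w))) ≤ P.E (fun w => om w * (P.iota X' Y Z w - P.iota X Y Z w)) := by
      refine P.E_mono (fun w hw => mul_le_mul_of_nonneg_left ?_ (ho w hw))
      rw [hlog w hw]
      have := Real.log_le_sub_one_of_pos (hFp w hw)
      linarith
    refine le_trans ?_ h4
    have h5 : P.E (fun w => om w * (1 - F w (X' w))) =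
        P.E (fun w => om w * P.ce W2 (fun u => 1 - F u (X' u)) w) := (P.E_mul_ce hom _).symm
    rw [h5]
    refine P.E_nonneg (fun w hw => mul_nonneg (ho w hw) ?_)
    rw [P.ce_sub, P.ce_const W2 1 hw]
    have := hF1 w hw
    linarith
  have h6 : P.E (fun w => om w * (P.iota X' Y Z w - P.iota X Y Z w)) =
      P.E (fun w => om w * P.iota X' Y Z w) - P.E (fun w => om w * P.iota X Y Z w) := by
    rw [← E_sub]
    exact P.E_congr (fun w _ => by ring)
  linarith

theorem iota_comm (X : Om → κ) (Y : Om → ι) (Z : Om → ι') {w : Om} (hw : P.p w ≠ 0) :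
    P.iota X Y Z w = P.iota Y X Z w := by
  rw [P.iota_eq X Y Z hw, P.iota_eq Y X Z hw]
  have e : P.m (fun v => (X v, Y v, Z v)) w = P.m (fun v => (Y v, X v, Z v)) w := by
    refine P.m_congr (fun v w h => ?_) (fun v w h => ?_) w <;>
      · simp only [Prod.mk.injEq] at h ⊢
        exact ⟨h.2.1, h.1, h.2.2⟩
  rw [e]; ring

/-- births increase `iota`, with any weight which is a function of the old labels -/
theorem iota_births {X : Om → κ} {Y : Om → ι} (Z : Om → ι') {X' : Om → ι''} {κ' : Type*} {Y' : Om → κ'}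
    (hX : Fac (fun w => (X' w, Z w)) X) (hY : Fac (fun w => (Y' w, Z w)) Y) {om : Om → ℝ}
    (ho : ∀ w, P.p w ≠ 0 → 0 ≤ om w) (hom : Fac (fun w => (X w, Y w, Z w)) om) :
    P.E (fun w => om w * P.iota X Y Z w) ≤ P.E (fun w => om w * P.iota X' Y' Z w) := by
  have h1 := P.iota_birth Y Z hX ho hom
  have hom2 : Fac (fun w => (Y w, X' w, Z w)) om := by
    refine Fac.trans (Y := fun w => (X w, Y w, Z w)) ?_ hom
    intro v w h
    simp only [Prod.mk.injEq] at h ⊢
    exact ⟨hX v w (by simp only [Prod.mk.injEq]; exact ⟨h.2.1, h.2.2⟩), h.1, h.2.2⟩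
  have h2 := P.iota_birth X' Z hY ho hom2
  have e1 : P.E (fun w => om w * P.iota Y X' Z w) = P.E (fun w => om w * P.iota X' Y Z w) :=
    P.E_congr (fun w hw => by rw [P.iota_comm Y X' Z hw])
  have e2 : P.E (fun w => om w * P.iota Y' X' Z w) = P.E (fun w => om w * P.iota X' Y' Z w) :=
    P.E_congr (fun w hw => by rw [P.iota_comm Y' X' Z hw])
  rw [e1, e2] at h2
  exact h1.trans h2

/-- the conditional mean of a digit as a sum over the values of `V` -/
theorem exists_digit {Z : Om → ι'} {V : Om → ι} {D : Om → ℝ} (hD : ∀ w, P.p w ≠ 0 → D w = 1 ∨ D w = -1)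
    (hDV : Fac (fun w => (V w, Z w)) D) :
    ∃ d : Om → ι → ℝ, (∀ w v, d w v = 1 ∨ d w v = -1) ∧ (∀ v, Fac Z (fun w => d w v)) ∧
      ∀ w u, P.p u ≠ 0 → Z u = Z w → d w (V u) = D u := by
  classical
  refine ⟨fun w v => if h : ∃ u, P.p u ≠ 0 ∧ Z u = Z w ∧ V u = v then D h.choose else 1, ?_, ?_, ?_⟩
  · intro w v
    by_cases h : ∃ u, P.p u ≠ 0 ∧ Z u = Z w ∧ V u = v
    · simp only [dif_pos h]
      exact hD _ h.choose_spec.1
    · simp only [dif_neg h]
      exact Or.inl trivial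
  · intro v w w' hw
    simp only [hw]
  · intro w u hu hz
    have h : ∃ u', P.p u' ≠ 0 ∧ Z u' = Z w ∧ V u' = V u := ⟨u, hu, hz, rfl⟩
    simp only [dif_pos h]
    refine hDV _ _ ?_
    have := h.choose_spec
    simp only [Prod.mk.injEq]
    exact ⟨this.2.2, this.2.1.trans hz.symm⟩

/-- THE ROBUST STEP -/
theorem rob_step (X : Om → κ) (Y : Om → ι) (Z : Om → ι') (V : Om → ι'') {D : Om → ℝ}
    (hD : ∀ w, P.p w ≠ 0 → D w = 1 ∨ D w = -1) (hDV : Fac (fun w => (V w, Z w)) D) :
    ∃ kap : Om → ℝ, Fac (fun w => (X w, Y w, Z w)) kap ∧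
      (∀ w, P.p w ≠ 0 → (P.ce (fun v => (X v, Y v, Z v)) D w) ^ 2 ≤
        3 * (P.ce Z D w) ^ 2 + 1536 * (P.hel X Z V w + P.hel Y Z V w) + 3 * (kap w) ^ 2) ∧
      ∀ om : Om → ℝ, (∀ w, P.p w ≠ 0 → 0 ≤ om w) → Fac (fun w => (X w, Y w, Z w)) om →
        P.E (fun w => om w * (kap w) ^ 2) ≤
          2 * (P.E (fun w => om w * (P.iota X Y (fun v => (V v, Z v)) w - P.iota X Y Z w)) +
            P.E (fun w => om w * P.ss X Y Z V w) + P.E (fun w => om w * P.ww X Y Z V w)) := by
  obtain ⟨d, hd1, hdZ, hdD⟩ := P.exists_digit hD hDV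
  set WX : Om → κ × ι' := fun w => (X w, Z w) with hWX
  set WY : Om → ι × ι' := fun w => (Y w, Z w) with hWY
  set W : Om → κ × ι × ι' := fun w => (X w, Y w, Z w) with hW
  have fX : Fac W WX := fun v w h => by
    simp only [hW, hWX, Prod.mk.injEq] at h ⊢
    exact ⟨h.1, h.2.2⟩
  have fY : Fac W WY := fun v w h => by
    simp only [hW, hWY, Prod.mk.injEq] at h ⊢
    exact h.2
  have fZ : Fac W Z := fun v w h => by
    simp only [hW, Prod.mk.injEq] at h
    exact h.2.2
  set S := vals V with hS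
  set q : Om → ι'' → ℝ := fun w => rq S (P.pv Z V w) (P.pv WX V w) (P.pv WY V w) with hq
  have hqf : ∀ v, Fac W (fun w => q w v) := by
    intro v w w' hw
    have e1 : P.pv Z V w = P.pv Z V w' := funext (fun v => P.pv_fac Z V v w w' (fZ w w' hw))
    have e2 : P.pv WX V w = P.pv WX V w' := funext (fun v => P.pv_fac WX V v w w' (fX w w' hw))
    have e3 : P.pv WY V w = P.pv WY V w' := funext (fun v => P.pv_fac WY V v w w' (fY w w' hw))
    simp only [hq, e1, e2, e3]
  have hzp : ∀ w, P.p w ≠ 0 → 0 < rz S (P.pv Z V w) (P.pv WX V w) (P.pv WY V w) := fun w hw =>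
    rz_pos (fun v _ => P.pv_nonneg _ _ _ _) (fun v _ => P.pv_nonneg _ _ _ _) (fun v _ => P.pv_nonneg _ _ _ _)
      (mem_vals V w) (P.pv_self_pos Z V hw).ne' (P.pv_self_pos WX V hw).ne' (P.pv_self_pos WY V hw).ne'
  refine ⟨fun w => P.ce W D w - ∑ v ∈ S, q w v * d w v, ?_, ?_, ?_⟩
  · exact (P.ce_fac W D).sub (Fac.finsum S (fun v _ => (hqf v).mul (fZ.trans (hdZ v))))
  · intro w hw
    have h1 := rq_hel (S := S) (pz := P.pv Z V w) (px := P.pv WX V w) (py := P.pv WY V w) (d := d w)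
      (fun v _ => P.pv_nonneg _ _ _ _) (fun v _ => P.pv_nonneg _ _ _ _) (fun v _ => P.pv_nonneg _ _ _ _)
      (P.pv_sum Z V hw) (hzp w hw) (fun v _ => by rcases hd1 w v with h | h <;> rw [h] <;> norm_num)
    have h2 : ∑ v ∈ S, P.pv Z V w v * d w v = P.ce Z D w := by
      rw [P.sum_pv V hdZ w]
      unfold ce
      congr 1
      refine P.E_congr (fun u hu => ?_)
      show ind (Z u = Z w) * d u (V u) = ind (Z u = Z w) * D u
      rw [hdD u u hu rfl]
    rw [h2] at h1
    have h3 : (∑ v ∈ S, q w v * d w v - P.ce Z D w) ^ 2 ≤ 512 * (P.hel X Z V w + P.hel Y Z V w) := h1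
    have e : P.ce W D w = P.ce Z D w + (∑ v ∈ S, q w v * d w v - P.ce Z D w) +
        (P.ce W D w - ∑ v ∈ S, q w v * d w v) := by ring
    have h4 : ∀ a b c : ℝ, (a + b + c) ^ 2 ≤ 3 * a ^ 2 + 3 * b ^ 2 + 3 * c ^ 2 := by
      intro a b c
      nlinarith [sq_nonneg (a - b), sq_nonneg (b - c), sq_nonneg (a - c)]
    have h5 := h4 (P.ce Z D w) (∑ v ∈ S, q w v * d w v - P.ce Z D w) (P.ce W D w - ∑ v ∈ S, q w v * d w v)
    rw [← e] at h5
    show P.ce W D w ^ 2 ≤ 3 * P.ce Z D w ^ 2 + 1536 * (P.hel X Z V w + P.hel Y Z V w) +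
      3 * (P.ce W D w - ∑ v ∈ S, q w v * d w v) ^ 2
    linarith
  · intro om ho hom
    set G : Om → ι'' → ℝ := fun w v => Real.log (P.pv W V w v / q w v) with hG
    have hGf : ∀ v, Fac W (fun w => G w v) := fun v =>
      (P.pv_fac W V v).comp₂ (hqf v) (fun a b => Real.log (a / b))
    -- pointwise Pinsker
    have h1 : P.E (fun w => om w * (P.ce W D w - ∑ v ∈ S, q w v * d w v) ^ 2) ≤
        P.E (fun w => om w * (2 * P.ce W (fun u => G u (V u)) w)) := by
      refine P.E_mono (fun w hw => mul_le_mul_of_nonneg_left ?_ (ho w hw))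
      have hp := pinsker_vec S (p := P.pv W V w) (q := q w) (d := d w) (fun v _ => P.pv_nonneg _ _ _ _)
        (fun v hv => rq_nonneg (fun v _ => P.pv_nonneg _ _ _ _) (fun v _ => P.pv_nonneg _ _ _ _)
          (fun v _ => P.pv_nonneg _ _ _ _) hv) (P.pv_sum W V hw) (rq_sum (hzp w hw).ne') ?_
        (fun v _ => hd1 w v)
      · have h2 : ∑ v ∈ S, P.pv W V w v * d w v = P.ce W D w := by
          rw [P.sum_pv V (fun v => fZ.trans (hdZ v)) w]
          unfold ce
          congr 1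
          refine P.E_congr (fun u hu => ?_)
          show ind (W u = W w) * d u (V u) = ind (W u = W w) * D u
          rw [hdD u u hu rfl]
        rw [h2] at hp
        have h3 := P.sum_pv V hGf w
        rw [← h3]
        exact hp
      · intro v hv h0
        by_contra hne
        have n1 : P.pv Z V w v ≠ 0 := fun h => hne (P.pv_ac fZ V h)
        have n2 : P.pv WX V w v ≠ 0 := fun h => hne (P.pv_ac fX V h)
        have n3 : P.pv WY V w v ≠ 0 := fun h => hne (P.pv_ac fY V h)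
        exact (rq_pos (S := S) (pz := P.pv Z V w) (px := P.pv WX V w) (py := P.pv WY V w)
          (fun v _ => P.pv_nonneg _ _ _ _) (fun v _ => P.pv_nonneg _ _ _ _)
          (fun v _ => P.pv_nonneg _ _ _ _) hv n1 n2 n3).ne' h0
    refine h1.trans ?_
    have h2 : P.E (fun w => om w * (2 * P.ce W (fun u => G u (V u)) w)) =
        2 * P.E (fun w => om w * G w (V w)) := by
      rw [← P.E_mul_ce hom (fun u => G u (V u)), ← E_smul]
      exact P.E_congr (fun w _ => by ring)
    rw [h2]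
    refine mul_le_mul_of_nonneg_left ?_ (by norm_num)
    rw [← E_add, ← E_add]
    refine P.E_mono (fun w hw => ?_)
    have hl := log_rq (S := S) (pz := P.pv Z V w) (px := P.pv WX V w) (py := P.pv WY V w) (pw := P.pv W V w)
      (fun v _ => P.pv_nonneg _ _ _ _) (fun v _ => P.pv_nonneg _ _ _ _) (fun v _ => P.pv_nonneg _ _ _ _)
      (mem_vals V w) (P.pv_self_pos W V hw) (P.pv_self_pos Z V hw).ne' (P.pv_self_pos WX V hw).ne'
      (P.pv_self_pos WY V hw).ne'
    have hlz : Real.log (rz S (P.pv Z V w) (P.pv WX V w) (P.pv WY V w)) ≤ P.ww X Y Z V w := by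
      have h3 := Real.log_le_sub_one_of_pos (hzp w hw)
      have h4 := rz_le (S := S) (pz := P.pv Z V w) (px := P.pv WX V w) (py := P.pv WY V w)
        (fun v _ => P.pv_nonneg _ _ _ _) (P.pv_sum Z V hw) (P.pv_sum WX V hw) (P.pv_sum WY V hw)
        (fun v _ h => P.pv_ac (Fac.snd X Z) V h) (fun v _ h => P.pv_ac (Fac.snd Y Z) V h)
      have h5 : ∑ v ∈ S, P.pv Z V w v * lw (P.pv WX V w v / P.pv Z V w v) (P.pv WY V w v / P.pv Z V w v) =
          P.ww X Y Z V w := rfl
      rw [h5] at h4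
      linarith
    have hi : Real.log (P.pv W V w (V w) * P.pv Z V w (V w) / (P.pv WX V w (V w) * P.pv WY V w (V w))) =
        P.iota X Y (fun v => (V v, Z v)) w - P.iota X Y Z w := by
      rw [P.iota_eq X Y (fun v => (V v, Z v)) hw, P.iota_eq X Y Z hw]
      simp only [pv_self]
      have a1 := (P.m_pos (fun u => (V u, W u)) hw).ne'
      have a2 := (P.m_pos W hw).ne'
      have a3 := (P.m_pos (fun u => (V u, Z u)) hw).ne'
      have a4 := (P.m_pos Z hw).ne'
      have a5 := (P.m_pos (fun u => (V u, WX u)) hw).ne'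
      have a6 := (P.m_pos WX hw).ne'
      have a7 := (P.m_pos (fun u => (V u, WY u)) hw).ne'
      have a8 := (P.m_pos WY hw).ne'
      rw [Real.log_div (mul_ne_zero (div_ne_zero a1 a2) (div_ne_zero a3 a4))
        (mul_ne_zero (div_ne_zero a5 a6) (div_ne_zero a7 a8)),
        Real.log_mul (div_ne_zero a1 a2) (div_ne_zero a3 a4), Real.log_mul (div_ne_zero a5 a6) (div_ne_zero a7 a8),
        Real.log_div a1 a2, Real.log_div a3 a4, Real.log_div a5 a6, Real.log_div a7 a8]
      have e1 : P.m (fun u => (V u, W u)) w = P.m (fun v => (X v, Y v, V v, Z v)) w := by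
        refine P.m_congr (fun v w h => ?_) (fun v w h => ?_) w <;>
          · simp only [hW, Prod.mk.injEq] at h ⊢
            tauto
      have e2 : P.m (fun u => (V u, WX u)) w = P.m (fun v => (X v, V v, Z v)) w := by
        refine P.m_congr (fun v w h => ?_) (fun v w h => ?_) w <;>
          · simp only [hWX, Prod.mk.injEq] at h ⊢
            tauto
      have e3 : P.m (fun u => (V u, WY u)) w = P.m (fun v => (Y v, V v, Z v)) w := by
        refine P.m_congr (fun v w h => ?_) (fun v w h => ?_) w <;>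
          · simp only [hWY, Prod.mk.injEq] at h ⊢
            tauto
      rw [e1, e2, e3]
      ring
    have hss : ls (P.pv WX V w (V w) / P.pv Z V w (V w)) (P.pv WY V w (V w) / P.pv Z V w (V w)) =
        P.ss X Y Z V w := rfl
    rw [hi, hss] at hl
    show om w * Real.log (P.pv W V w (V w) / q w (V w)) ≤ _
    rw [hq]
    simp only
    rw [hl]
    have h6 : P.iota X Y (fun v => (V v, Z v)) w - P.iota X Y Z w + P.ss X Y Z V w +
        Real.log (rz S (P.pv Z V w) (P.pv WX V w) (P.pv WY V w)) ≤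
        (P.iota X Y (fun v => (V v, Z v)) w - P.iota X Y Z w) + P.ss X Y Z V w + P.ww X Y Z V w := by
      linarith
    refine (mul_le_mul_of_nonneg_left h6 (ho w hw)).trans (le_of_eq ?_)
    ring

end FP

end Pool.Agent.M3
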