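import Pool.Agent.M3.Rarity
import Pool.Agent.M3.S3Rob

/-!
# M3.S3Hel: closeness and the both-strong term of section 3 (3.1 and 3.4 of the table)

`P : FP Om`; `a` hidden map, `X`, `Y` the two letters (with their owners), `N` = state (node and class).

* `FP.Rul P a Y sig` = the rule (SAT) of the state `P`; `FP.Cmp P a X A` = the probabilities of the letters of `X`
  given `a` are comparable up to the factor `A` (thickness); `FP.Sta P a X Y A sig` = both, for both letters, and
  conditional independence.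
* `FP.Chl` = the child event `V = S ∧ B ∧ C` (digit of `a`, half of the owners of `X`, half of the owners of `Y`),
  `Sta.child`: the child state satisfies `Sta` with `8 (2 + log A) (1 + log (1/mu)) sig`.
* `Sta.hel_le`: `P.hel X N Y w ≤ sig (log A + 1)` if the state of `w` satisfies `Sta` (and the same for `Y`, `X`).
* `Sta.iota_le`: `P.iota X Y N w ≤ log A`.
* `both_strong`: the term of KEY with both ratios strong.
-/

set_option autoImplicit false
set_option linter.unusedSectionVars false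

namespace Pool.Agent.M3

open Finset Pool.Agent.PWZ

variable {Om : Type*} [Fintype Om]

/-! ## definitions -/

/-- the rule (SAT) for the letter `Y` -/
def FP.Rul (P : FP Om) {α ι : Type*} (a : Om → α) (Y : Om → ι) (sig : ℝ) : Prop :=
  ∀ (S : Om → Prop) (hS : 0 < P.Pr S), Ev a S →
    Pool.Agent.M3.kl (P.cnd S hS) P Y ≤ sig * (Real.log (1 / P.Pr S) + 1)

/-- comparable letters -/
def FP.Cmp (P : FP Om) {α κ : Type*} (a : Om → α) (X : Om → κ) (A : ℝ) : Prop :=
  ∀ w' w w'', P.p w' ≠ 0 → P.p w ≠ 0 → P.p w'' ≠ 0 →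
    P.ce a (fun v => ind (X v = X w')) w ≤ A * P.ce a (fun v => ind (X v = X w')) w''

/-- a good state -/
structure FP.Sta (P : FP Om) {α κ ι : Type*} (a : Om → α) (X : Om → κ) (Y : Om → ι) (A sig : ℝ) : Prop where
  ci : P.CI a X Y
  cX : P.Cmp a X A
  cY : P.Cmp a Y A
  rX : P.Rul a X sig
  rY : P.Rul a Y sig

theorem FP.Sta.symm {P : FP Om} {α κ ι : Type*} {a : Om → α} {X : Om → κ} {Y : Om → ι} {A sig : ℝ}
    (h : P.Sta a X Y A sig) : P.Sta a Y X A sig := ⟨h.ci.symm, h.cY, h.cX, h.rY, h.rX⟩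

/-- the child event -/
structure FP.Chl (P : FP Om) {α κ ι : Type*} (a : Om → α) (X : Om → κ) (Y : Om → ι) (V S B C : Om → Prop)
    (be ga : ℝ) : Prop where
  evS : Ev a S
  evB : Ev X B
  evC : Ev Y C
  iff : ∀ w, P.p w ≠ 0 → (V w ↔ S w ∧ B w ∧ C w)
  pB : ∀ w, P.p w ≠ 0 → P.ce a (fun v => ind (B v)) w = be
  pC : ∀ w, P.p w ≠ 0 → P.ce a (fun v => ind (C v)) w = ga

theorem FP.Chl.symm {P : FP Om} {α κ ι : Type*} {a : Om → α} {X : Om → κ} {Y : Om → ι} {V S B C : Om → Prop}
    {be ga : ℝ} (h : P.Chl a X Y V S B C be ga) : P.Chl a Y X V S C B ga be :=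
  ⟨h.evS, h.evC, h.evB, fun w hw => by rw [h.iff w hw]; tauto, h.pC, h.pB⟩

/-! ## real inequalities -/

theorem sqrt_sq_le_hphi {x : ℝ} (hx : 0 ≤ x) : (Real.sqrt x - 1) ^ 2 ≤ hphi x := by
  rcases hx.eq_or_lt with h | h
  · rw [← h]; unfold hphi; simp
  · set t := Real.sqrt x with ht
    have ht0 : 0 < t := Real.sqrt_pos.2 h
    have hx2 : x = t ^ 2 := (Real.sq_sqrt hx).symm
    have hl : Real.log x = 2 * Real.log t := by rw [hx2, Real.log_pow]; norm_num
    have h1 := Real.log_le_sub_one_of_pos (x := t⁻¹) (by positivity)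
    rw [Real.log_inv] at h1
    have h2 : t * t⁻¹ = 1 := mul_inv_cancel₀ ht0.ne'
    have h3 : t ^ 2 - t ≤ t ^ 2 * Real.log t := by
      have h5 := mul_le_mul_of_nonneg_left h1 (sq_nonneg t)
      have h4 : t ^ 2 * t⁻¹ = t := by rw [sq, mul_assoc, h2, mul_one]
      have h6 : t ^ 2 * (t⁻¹ - 1) = t - t ^ 2 := by rw [mul_sub, h4, mul_one]
      rw [h6] at h5
      linarith
    have e : hphi x = 2 * (t ^ 2 * Real.log t) - t ^ 2 + 1 := by
      unfold hphi
      rw [hl, hx2]; ring
    rw [e]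
    nlinarith

theorem hphi_le_sqrt {A x : ℝ} (hx : 0 ≤ x) (hA : 1 ≤ A) (hxA : x ≤ A) :
    hphi x ≤ (2 + Real.log A) * (Real.sqrt x - 1) ^ 2 := by
  have hlA : 0 ≤ Real.log A := Real.log_nonneg hA
  set t := Real.sqrt x with ht
  have ht0 : 0 ≤ t := Real.sqrt_nonneg x
  have hx2 : x = t ^ 2 := (Real.sq_sqrt hx).symm
  have hsq : 0 ≤ (t - 1) ^ 2 := sq_nonneg _
  rcases le_total x 1 with h1 | h1
  · have hmain : hphi x ≤ 2 * (t - 1) ^ 2 := by
      rcases ht0.eq_or_lt with h0 | h0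
      · have hx0 : x = 0 := by rw [hx2, ← h0]; norm_num
        rw [hx0, ← h0]; unfold hphi; norm_num
      · have ht1 : t ≤ 1 := by
          by_contra hc
          have := not_le.1 hc
          nlinarith
        have hp := log_ge_pade (x := t⁻¹) ((one_le_inv₀ h0).2 ht1)
        rw [Real.log_inv] at hp
        have h2 : t * t⁻¹ = 1 := mul_inv_cancel₀ h0.ne'
        have hp2 : (1 + t) * Real.log t ≤ -(2 * (1 - t)) := by
          have h3 := mul_le_mul_of_nonneg_left hp h0.le
          have e1 : t * (2 * (t⁻¹ - 1)) = 2 * (1 - t) := by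
            have : t * (2 * (t⁻¹ - 1)) = 2 * (t * t⁻¹ - t) := by ring
            rw [this, h2]
          have e2 : t * ((t⁻¹ + 1) * -Real.log t) = -((1 + t) * Real.log t) := by
            have : t * ((t⁻¹ + 1) * -Real.log t) = -((t * t⁻¹ + t) * Real.log t) := by ring
            rw [this, h2]
          rw [e1, e2] at h3
          linarith
        have e : hphi x = 2 * (t ^ 2 * Real.log t) - t ^ 2 + 1 := by
          have hl : Real.log x = 2 * Real.log t := by rw [hx2, Real.log_pow]; norm_num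
          unfold hphi
          rw [hl, hx2]; ring
        rw [e]
        have hpos : 0 < 1 + t := by linarith
        refine le_of_mul_le_mul_left ?_ hpos
        have h4 : 2 * t ^ 2 * ((1 + t) * Real.log t) ≤ 2 * t ^ 2 * (-(2 * (1 - t))) :=
          mul_le_mul_of_nonneg_left hp2 (by positivity)
        have h5 : 0 ≤ (1 - t) ^ 3 := pow_nonneg (by linarith) 3
        nlinarith
    have : 0 ≤ Real.log A * (t - 1) ^ 2 := mul_nonneg hlA hsq
    linarith
  · have ht1 : 1 ≤ t := by
      by_contra hc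
      have := not_le.1 hc
      nlinarith
    have h0 : 0 < t := by linarith
    have h2 : t * t⁻¹ = 1 := mul_inv_cancel₀ h0.ne'
    have hlt : 0 ≤ Real.log t := Real.log_nonneg ht1
    have h3 := Real.self_le_sinh_iff.2 hlt
    rw [Real.sinh_log h0] at h3
    have hl : Real.log x = 2 * Real.log t := by rw [hx2, Real.log_pow]; norm_num
    have e : hphi x = 2 * (t ^ 2 * Real.log t) - t ^ 2 + 1 := by
      unfold hphi
      rw [hl, hx2]; ring
    have hxl : Real.log x ≤ Real.log A := Real.log_le_log (by linarith) hxA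
    have hmain : hphi x ≤ (2 + 2 * Real.log t) * (t - 1) ^ 2 := by
      rw [e]
      have h4 : (2 * t - 1) * (2 * Real.log t) ≤ (2 * t - 1) * (t - t⁻¹) :=
        mul_le_mul_of_nonneg_left (by linarith) (by linarith)
      have h5 : 0 ≤ (t - 1) ^ 3 * t⁻¹ := mul_nonneg (pow_nonneg (by linarith) 3) (by positivity)
      have e5 : (t - 1) ^ 3 * t⁻¹ = t ^ 2 * (t * t⁻¹) - 3 * t * (t * t⁻¹) + 3 * (t * t⁻¹) - t⁻¹ := by ring
      have e6 : (2 * t - 1) * (t - t⁻¹) = 2 * t ^ 2 - t - 2 * (t * t⁻¹) + t⁻¹ := by ring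
      rw [e5, h2] at h5
      rw [e6, h2] at h4
      nlinarith
    refine hmain.trans (mul_le_mul_of_nonneg_right ?_ hsq)
    linarith

/-! ## relative entropy through a third law -/

section tri

variable {P R1 R2 : FP Om} {ι : Type*}

theorem E_sqrt_dn_le (h1 : R1.AC P) (Y : Om → ι) :
    P.E (fun w => (Real.sqrt (dn R1 P Y w) - 1) ^ 2) ≤ kl R1 P Y := by
  rw [kl_eq_hphi h1 Y]
  exact P.E_mono (fun w _ => sqrt_sq_le_hphi (dn_nonneg R1 P Y w))

theorem kl_triangle (h1 : R1.AC P) (h2 : R2.AC P) (h12 : R1.AC R2) (Y : Om → ι) {A : ℝ} (hA : 1 ≤ A)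
    (hd : ∀ w, R2.p w ≠ 0 → dn R1 R2 Y w ≤ A) :
    kl R1 R2 Y ≤ 2 * (2 + Real.log A) * (kl R1 P Y + kl R2 P Y) := by
  have hlA : 0 ≤ Real.log A := Real.log_nonneg hA
  rw [kl_eq_hphi h12 Y]
  have s1 : R2.E (fun w => hphi (dn R1 R2 Y w)) ≤
      R2.E (fun w => (2 + Real.log A) * (Real.sqrt (dn R1 R2 Y w) - 1) ^ 2) :=
    R2.E_mono (fun w hw => hphi_le_sqrt (dn_nonneg R1 R2 Y w) hA (hd w hw))
  rw [FP.E_smul] at s1
  have hF : Fac Y (fun w => (Real.sqrt (dn R1 R2 Y w) - 1) ^ 2) :=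
    (dn_fac R1 R2 Y).comp (fun x => (Real.sqrt x - 1) ^ 2)
  have s2 : R2.E (fun w => (Real.sqrt (dn R1 R2 Y w) - 1) ^ 2) ≤
      P.E (fun w => 2 * (Real.sqrt (dn R1 P Y w) - 1) ^ 2 + 2 * (Real.sqrt (dn R2 P Y w) - 1) ^ 2) := by
    rw [← E_dn h2 hF]
    refine P.E_mono (fun w _ => ?_)
    have hn2 := dn_nonneg R2 P Y w
    rcases hn2.eq_or_lt with h0 | h0
    · rw [← h0, mul_zero]; positivity
    · have hm2 : 0 < R2.m Y w := by
        rcases (R2.m_nonneg Y w).eq_or_lt with h | h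
        · exfalso
          unfold dn at h0
          rw [← h, zero_div] at h0
          exact lt_irrefl _ h0
        · exact h
      have hdd : dn R1 P Y w = dn R1 R2 Y w * dn R2 P Y w := by
        unfold dn
        field_simp
      have hs : Real.sqrt (dn R1 P Y w) = Real.sqrt (dn R1 R2 Y w) * Real.sqrt (dn R2 P Y w) := by
        rw [hdd, Real.sqrt_mul (dn_nonneg R1 R2 Y w)]
      have hsq : Real.sqrt (dn R2 P Y w) ^ 2 = dn R2 P Y w := Real.sq_sqrt hn2
      have e : (Real.sqrt (dn R1 R2 Y w) - 1) ^ 2 * dn R2 P Y w =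
          (Real.sqrt (dn R1 P Y w) - Real.sqrt (dn R2 P Y w)) ^ 2 := by
        calc _ = (Real.sqrt (dn R1 R2 Y w) - 1) ^ 2 * Real.sqrt (dn R2 P Y w) ^ 2 := by rw [hsq]
          _ = _ := by rw [hs]; ring
      rw [e]
      nlinarith [sq_nonneg (Real.sqrt (dn R1 P Y w) + Real.sqrt (dn R2 P Y w) - 2)]
  rw [FP.E_add, FP.E_smul, FP.E_smul] at s2
  have s3 := E_sqrt_dn_le h1 Y
  have s4 := E_sqrt_dn_le h2 Y
  have s5 : R2.E (fun w => (Real.sqrt (dn R1 R2 Y w) - 1) ^ 2) ≤ 2 * (kl R1 P Y + kl R2 P Y) := by linarith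
  have s6 := mul_le_mul_of_nonneg_left s5 (by linarith : 0 ≤ 2 + Real.log A)
  linarith

end tri

/-! ## the child state -/

section child

variable {P : FP Om} {α κ ι : Type*} {a : Om → α} {X : Om → κ} {Y : Om → ι} {V S B C : Om → Prop} {be ga : ℝ}

theorem FP.Chl.E_V (h : P.Chl a X Y V S B C be ga) (hci : P.CI a X Y) {h0 f g : Om → ℝ} (hh : Fac a h0)
    (hf : Fac X f) (hg : Fac Y g) :
    P.E (fun w => ind (V w) * (h0 w * (f w * g w))) =
      P.E (fun w => (ind (S w) * h0 w) *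
        (P.ce a (fun v => ind (B v) * f v) w * P.ce a (fun v => ind (C v) * g v) w)) := by
  have h1 := hci.E3 (h := fun w => ind (S w) * h0 w) (f := fun v => ind (B v) * f v)
    (g := fun v => ind (C v) * g v) ((Fac.ind h.evS).mul hh) ((Fac.ind h.evB).mul hf)
    ((Fac.ind h.evC).mul hg)
  rw [← h1]
  refine P.E_congr (fun w hw => ?_)
  have e : ind (V w) = ind (S w) * (ind (B w) * ind (C w)) := by
    rw [show V w = (S w ∧ B w ∧ C w) from propext (h.iff w hw), ind_and, ind_and]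
  rw [e]; ring

theorem FP.Chl.E_Y (h : P.Chl a X Y V S B C be ga) (hci : P.CI a X Y) {h0 g : Om → ℝ} (hh : Fac a h0)
    (hg : Fac Y g) :
    P.E (fun w => ind (V w) * (h0 w * g w)) = be * P.E (fun w => (ind (S w) * h0 w) * (ind (C w) * g w)) := by
  have h1 := h.E_V hci hh (f := fun _ => (1 : ℝ)) (Fac.const X 1) hg
  simp only [one_mul, mul_one] at h1
  rw [h1]
  have e : P.E (fun w => (ind (S w) * h0 w) * (ind (C w) * g w)) =
      P.E (fun w => (ind (S w) * h0 w) * P.ce a (fun v => ind (C v) * g v) w) :=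
    (P.E_mul_ce ((Fac.ind h.evS).mul hh) _).symm
  rw [e, ← FP.E_smul]
  refine P.E_congr (fun w hw => ?_)
  rw [h.pB w hw]; ring

theorem FP.Chl.E_a (h : P.Chl a X Y V S B C be ga) (hci : P.CI a X Y) {h0 : Om → ℝ} (hh : Fac a h0) :
    P.E (fun w => ind (V w) * h0 w) = be * ga * P.E (fun w => ind (S w) * h0 w) := by
  have h1 := h.E_V hci hh (f := fun _ => (1 : ℝ)) (g := fun _ => (1 : ℝ)) (Fac.const X 1) (Fac.const Y 1)
  simp only [mul_one] at h1
  rw [h1, ← FP.E_smul]
  refine P.E_congr (fun w hw => ?_)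
  rw [h.pB w hw, h.pC w hw]; ring

theorem FP.Chl.Pr_V (h : P.Chl a X Y V S B C be ga) (hci : P.CI a X Y) : P.Pr V = be * ga * P.Pr S := by
  have h1 := h.E_a hci (h0 := fun _ => (1 : ℝ)) (Fac.const a 1)
  simp only [mul_one] at h1
  exact h1

theorem FP.Chl.be_nonneg (h : P.Chl a X Y V S B C be ga) : 0 ≤ be := by
  obtain ⟨w, hw⟩ := P.exists_p_ne
  rw [← h.pB w hw]
  exact P.ce_nonneg (fun _ _ => ind_nonneg _) w

theorem chl_pos (h : P.Chl a X Y V S B C be ga) (hci : P.CI a X Y) (hV : 0 < P.Pr V) :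
    0 < be ∧ 0 < ga ∧ 0 < P.Pr S := by
  have h1 := h.Pr_V hci
  have h2 := h.be_nonneg
  have h3 := h.symm.be_nonneg
  have h4 := P.Pr_nonneg S
  rw [h1] at hV
  refine ⟨h2.lt_of_ne ?_, h3.lt_of_ne ?_, h4.lt_of_ne ?_⟩
  · intro hc; rw [← hc] at hV; simp at hV
  · intro hc; rw [← hc] at hV; simp at hV
  · intro hc; rw [← hc] at hV; simp at hV

/-- a conditional law has larger support than the conditional law on a smaller event -/
theorem cnd_mono_ac {U W : Om → Prop} (hU : 0 < P.Pr U) (hW : 0 < P.Pr W) (h : ∀ w, U w → W w) :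
    (P.cnd U hU).AC (P.cnd W hW) := by
  intro w hw
  have h1 := cnd_ac P U hU w hw
  have h2 := h w (cnd_supp P hw)
  show P.p w * ind (W w) / P.Pr W ≠ 0
  rw [ind_of h2, mul_one]
  exact div_ne_zero h1 hW.ne'

theorem cnd_p_ne {U : Om → Prop} (hU : 0 < P.Pr U) {w : Om} (hw : P.p w ≠ 0) (h : U w) :
    (P.cnd U hU).p w ≠ 0 := by
  show P.p w * ind (U w) / P.Pr U ≠ 0
  rw [ind_of h, mul_one]
  exact div_ne_zero hw hU.ne'

/-- the mass of a letter under a conditional law on an event of `a` -/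
theorem Pr_mul_cnd_m {U : Om → Prop} (hU : 0 < P.Pr U) (Y : Om → ι) (w : Om) :
    P.Pr U * (P.cnd U hU).m Y w = P.E (fun v => ind (U v) * ind (Y v = Y w)) :=
  Pr_mul_cnd_E P U hU _

theorem dn_cnd_le_of_cmp {A : ℝ} (hc : P.Cmp a Y A) {U W : Om → Prop} (hUa : Ev a U) (hWa : Ev a W)
    (hU : 0 < P.Pr U) (hW : 0 < P.Pr W) {w : Om} (hw : (P.cnd W hW).p w ≠ 0) :
    dn (P.cnd U hU) (P.cnd W hW) Y w ≤ A := by
  have hpw := cnd_ac P W hW w hw
  have hm := (P.cnd W hW).m_pos Y hw
  unfold dn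
  rw [div_le_iff₀ hm]
  refine le_of_mul_le_mul_left ?_ hU
  rw [Pr_mul_cnd_m hU Y w]
  have h1 : P.E (fun v => ind (U v) * ind (Y v = Y w)) =
      P.E (fun v => ind (U v) * P.ce a (fun u => ind (Y u = Y w)) v) := (P.E_mul_ce (Fac.ind hUa) _).symm
  rw [h1]
  have h2 : P.Pr U * (A * (P.cnd W hW).m Y w) = P.E (fun v => ind (U v) * (A * (P.cnd W hW).m Y w)) := by
    rw [FP.E_mul_const]; rfl
  rw [h2]
  refine P.E_mono (fun v hv => mul_le_mul_of_nonneg_left ?_ (ind_nonneg _))
  exact thick_cnd (fun v v' hv hv' => hc w v v' hpw hv hv') hWa hW hv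

/-- **the rule for the child** -/
theorem chl_rule (h : P.Chl a X Y V S B C be ga) (hci : P.CI a X Y) (hV : 0 < P.Pr V) {A sig mu : ℝ}
    (hA : 1 ≤ A) (hc : P.Cmp a Y A) (hsig : 0 ≤ sig) (hr : P.Rul a Y sig) (hga : 1 / 2 ≤ ga) (hmu : 0 < mu)
    (hS : mu ≤ P.Pr S) :
    (P.cnd V hV).Rul a Y (8 * (2 + Real.log A) * (1 + Real.log (1 / mu)) * sig) := by
  set Q := P.cnd V hV with hQd
  intro U hU hUa
  obtain ⟨hbe, hga0, hS0⟩ := chl_pos h hci hV
  have hPV := h.Pr_V hci
  -- the two events of the parent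
  set W : Om → Prop := fun w => S w ∧ U w with hWd
  have hWa : Ev a W := fun v w hvw => by
    show (S v ∧ U v) ↔ (S w ∧ U w)
    rw [h.evS v w hvw, hUa v w hvw]
  have hindW : ∀ w, ind (W w) = ind (S w) * ind (U w) := fun w => ind_and _ _
  have hQU : P.Pr V * Q.Pr U = be * ga * P.Pr W := by
    have e1 : P.Pr V * Q.Pr U = P.E (fun w => ind (V w) * ind (U w)) := Pr_mul_cnd_E P V hV _
    rw [e1, h.E_a hci (Fac.ind hUa)]
    congr 1
    exact P.E_congr (fun w _ => (hindW w).symm)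
  have hW0 : 0 < P.Pr W := by
    have h1 : 0 < be * ga * P.Pr W := by rw [← hQU]; positivity
    rcases (P.Pr_nonneg W).eq_or_lt with h2 | h2
    · rw [← h2, mul_zero] at h1
      exact absurd h1 (lt_irrefl _)
    · exact h2
  have hQU2 : Q.Pr U * P.Pr S = P.Pr W := by
    have h2 : 0 < be * ga := by positivity
    have h1 : be * ga * (Q.Pr U * P.Pr S) = be * ga * P.Pr W := by
      rw [← hQU, hPV]; ring
    exact mul_left_cancel₀ h2.ne' h1
  set R1 := P.cnd W hW0 with hR1
  set R2 := P.cnd S hS0 with hR2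
  have hR12 : R1.AC R2 := cnd_mono_ac hW0 hS0 (fun w hw => hw.1)
  have hR1P : R1.AC P := cnd_ac P W hW0
  have hR2P : R2.AC P := cnd_ac P S hS0
  -- the densities agree
  have hdn : ∀ w, Q.p w ≠ 0 → dn (Q.cnd U hU) Q Y w = dn R1 R2 Y w := by
    intro w hw
    have hpw := cnd_ac P V hV w hw
    have hVw := cnd_supp P hw
    obtain ⟨hSw, hBw, hCw⟩ := (h.iff w hpw).1 hVw
    have hYF : Fac Y (fun v => ind (Y v = Y w)) := Fac.ind (fun v v' hv => by rw [hv])
    have hCY : ∀ v, ind (C v) * ind (Y v = Y w) = ind (Y v = Y w) := by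
      intro v
      by_cases hy : Y v = Y w
      · rw [ind_of ((h.evC v w hy).2 hCw), one_mul]
      · rw [ind_not hy, mul_zero]
    have e1 : P.Pr V * (Q.Pr U * (Q.cnd U hU).m Y w) = be * (P.Pr W * R1.m Y w) := by
      have e2 : Q.Pr U * (Q.cnd U hU).m Y w = Q.E (fun v => ind (U v) * ind (Y v = Y w)) := Pr_mul_cnd_m hU Y w
      have e3 : P.Pr V * Q.E (fun v => ind (U v) * ind (Y v = Y w)) =
          P.E (fun v => ind (V v) * (ind (U v) * ind (Y v = Y w))) := Pr_mul_cnd_E P V hV _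
      rw [e2, e3, h.E_Y hci (Fac.ind hUa) hYF, Pr_mul_cnd_m hW0 Y w]
      congr 1
      exact P.E_congr (fun v _ => by rw [hCY, hindW])
    have e4 : P.Pr V * Q.m Y w = be * (P.Pr S * R2.m Y w) := by
      have e5 : P.Pr V * Q.m Y w = P.E (fun v => ind (V v) * ind (Y v = Y w)) := Pr_mul_cnd_E P V hV _
      have e6 := h.E_Y hci (h0 := fun _ => (1 : ℝ)) (Fac.const a 1) hYF
      simp only [one_mul, mul_one] at e6
      rw [e5, e6, Pr_mul_cnd_m hS0 Y w]
      congr 1
      exact P.E_congr (fun v _ => by rw [hCY])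
    have m1 : 0 < Q.m Y w := Q.m_pos Y hw
    have m2 : 0 < R2.m Y w := R2.m_pos Y (cnd_p_ne hS0 hpw hSw)
    show (Q.cnd U hU).m Y w / Q.m Y w = R1.m Y w / R2.m Y w
    rw [div_eq_div_iff m1.ne' m2.ne']
    have k1 : be * P.Pr S * (Q.Pr U) * ((Q.cnd U hU).m Y w * R2.m Y w) =
        be * P.Pr S * (Q.Pr U) * (R1.m Y w * Q.m Y w) := by
      calc be * P.Pr S * (Q.Pr U) * ((Q.cnd U hU).m Y w * R2.m Y w)
          = (be * (P.Pr S * R2.m Y w)) * (Q.Pr U * (Q.cnd U hU).m Y w) := by ring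
        _ = (P.Pr V * Q.m Y w) * (Q.Pr U * (Q.cnd U hU).m Y w) := by rw [e4]
        _ = (P.Pr V * (Q.Pr U * (Q.cnd U hU).m Y w)) * Q.m Y w := by ring
        _ = be * (P.Pr W * R1.m Y w) * Q.m Y w := by rw [e1]
        _ = be * ((Q.Pr U * P.Pr S) * R1.m Y w) * Q.m Y w := by rw [hQU2]
        _ = _ := by ring
    exact mul_left_cancel₀ (by positivity) k1
  -- relative entropy of the child
  set ψ : Om → ℝ := fun w => hphi (dn R1 R2 Y w) with hψ
  have hψF : Fac Y ψ := (dn_fac R1 R2 Y).comp hphi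
  have hψ0 : ∀ w, 0 ≤ ψ w := fun w => hphi_nonneg (dn_nonneg R1 R2 Y w)
  have hk1 : kl (Q.cnd U hU) Q Y = Q.E ψ := by
    rw [kl_eq_hphi (cnd_ac Q U hU) Y]
    exact Q.E_congr (fun w hw => by rw [hdn w hw])
  have hk2 : P.Pr V * Q.E ψ ≤ be * (P.Pr S * R2.E ψ) := by
    have e1 : P.Pr V * Q.E ψ = P.E (fun v => ind (V v) * ψ v) := Pr_mul_cnd_E P V hV _
    have e2 := h.E_Y hci (h0 := fun _ => (1 : ℝ)) (Fac.const a 1) hψF
    simp only [one_mul, mul_one] at e2
    rw [e1, e2]
    refine mul_le_mul_of_nonneg_left ?_ hbe.le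
    rw [Pr_mul_cnd_E P S hS0 ψ]
    refine P.E_mono (fun w _ => mul_le_mul_of_nonneg_left ?_ (ind_nonneg _))
    exact mul_le_of_le_one_left (hψ0 w) (ind_le_one _)
  have hk3 : R2.E ψ = kl R1 R2 Y := (kl_eq_hphi hR12 Y).symm
  have hk4 : ga * kl (Q.cnd U hU) Q Y ≤ kl R1 R2 Y := by
    rw [hk1, ← hk3]
    have : be * P.Pr S * (ga * Q.E ψ) ≤ be * P.Pr S * R2.E ψ := by
      calc be * P.Pr S * (ga * Q.E ψ) = (be * ga * P.Pr S) * Q.E ψ := by ring
        _ = P.Pr V * Q.E ψ := by rw [hPV]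
        _ ≤ be * (P.Pr S * R2.E ψ) := hk2
        _ = _ := by ring
    exact le_of_mul_le_mul_left this (by positivity)
  have hlA : 0 ≤ Real.log A := Real.log_nonneg hA
  have hk5 := kl_triangle hR1P hR2P hR12 Y hA (fun w hw => dn_cnd_le_of_cmp hc hWa h.evS hW0 hS0 hw)
  have hk6 := hr W hW0 hWa
  have hk7 := hr S hS0 h.evS
  set x : ℝ := Real.log (1 / Q.Pr U) with hx
  set y : ℝ := Real.log (1 / P.Pr S) with hy
  set z : ℝ := Real.log (1 / mu) with hz
  have hx0 : 0 ≤ x := Real.log_nonneg (by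
    rw [le_div_iff₀ hU, one_mul]; exact Q.Pr_le_one U)
  have hy0 : 0 ≤ y := Real.log_nonneg (by
    rw [le_div_iff₀ hS0, one_mul]; exact P.Pr_le_one S)
  have hyz : y ≤ z := Real.log_le_log (by positivity) (one_div_le_one_div_of_le hmu hS)
  have hWl : Real.log (1 / P.Pr W) = x + y := by
    rw [← hQU2, hx, hy, ← Real.log_mul (by positivity) (by positivity)]
    congr 1
    field_simp
  rw [hWl] at hk6
  have hkn : 0 ≤ kl (Q.cnd U hU) Q Y := kl_nonneg (cnd_ac Q U hU) Y
  have h8 : kl (Q.cnd U hU) Q Y ≤ 2 * kl R1 R2 Y := by nlinarith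
  have h9 : kl R1 P Y + kl R2 P Y ≤ sig * (2 * ((1 + z) * (x + 1))) := by
    have : sig * (x + y + 1) + sig * (y + 1) ≤ sig * (2 * ((1 + z) * (x + 1))) := by
      rw [← mul_add]
      refine mul_le_mul_of_nonneg_left ?_ hsig
      nlinarith [mul_nonneg (hy0.trans hyz) hx0]
    linarith
  have h10 := mul_le_mul_of_nonneg_left h9 (by linarith : 0 ≤ 2 * (2 + Real.log A))
  calc kl (Q.cnd U hU) Q Y ≤ 2 * kl R1 R2 Y := h8
    _ ≤ 2 * (2 * (2 + Real.log A) * (sig * (2 * ((1 + z) * (x + 1))))) := by linarith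
    _ = _ := by ring


/-- conditional expectations of products in the child -/
theorem chl_ce (h : P.Chl a X Y V S B C be ga) (hci : P.CI a X Y) (hV : 0 < P.Pr V) {f g : Om → ℝ} (hf : Fac X f)
    (hg : Fac Y g) {w : Om} (hw : (P.cnd V hV).p w ≠ 0) :
    (P.cnd V hV).ce a (fun v => f v * g v) w =
      P.ce a (fun v => ind (B v) * f v) w / be * (P.ce a (fun v => ind (C v) * g v) w / ga) := by
  set Q := P.cnd V hV with hQd
  obtain ⟨hbe, hga0, hS0⟩ := chl_pos h hci hV
  have hpw := cnd_ac P V hV w hw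
  have hSw := ((h.iff w hpw).1 (cnd_supp P hw)).1
  have haF : Fac a (fun v => ind (a v = a w)) := Fac.ind (fun v v' hv => by rw [hv])
  have key : ∀ c : Om → ℝ, Fac a c → P.E (fun v => ind (S v) * ind (a v = a w) * c v) = P.m a w * c w := by
    intro c hc
    have : P.E (fun v => ind (S v) * ind (a v = a w) * c v) = P.E (fun v => ind (a v = a w) * c w) := by
      refine P.E_congr (fun v _ => ?_)
      by_cases hv : a v = a w
      · rw [hc v w hv, ind_of ((h.evS v w hv).2 hSw), one_mul]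
      · rw [ind_not hv, mul_zero, zero_mul, zero_mul]
    rw [this, FP.E_mul_const]
    rfl
  have hnum : P.Pr V * Q.E (fun v => ind (a v = a w) * (f v * g v)) =
      P.m a w * (P.ce a (fun v => ind (B v) * f v) w * P.ce a (fun v => ind (C v) * g v) w) := by
    have e1 : P.Pr V * Q.E (fun v => ind (a v = a w) * (f v * g v)) =
        P.E (fun v => ind (V v) * (ind (a v = a w) * (f v * g v))) := Pr_mul_cnd_E P V hV _
    rw [e1, h.E_V hci haF hf hg]
    exact key _ ((P.ce_fac a _).mul (P.ce_fac a _))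
  have hden : P.Pr V * Q.m a w = P.m a w * (be * ga) := by
    have e1 : P.Pr V * Q.m a w = P.E (fun v => ind (V v) * ind (a v = a w)) := Pr_mul_cnd_E P V hV _
    rw [e1, h.E_a hci haF]
    have e2 := key (fun _ => 1) (Fac.const a 1)
    simp only [mul_one] at e2
    rw [e2]; ring
  have hm := Q.m_pos a hw
  have hmP := P.m_pos a hpw
  show Q.E (fun v => ind (a v = a w) * (f v * g v)) / Q.m a w = _
  rw [div_eq_iff hm.ne', div_mul_div_comm, div_mul_eq_mul_div, eq_div_iff (by positivity)]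
  have h3 : P.m a w * P.Pr V * (Q.E (fun v => ind (a v = a w) * (f v * g v)) * (be * ga)) =
      P.m a w * P.Pr V * (P.ce a (fun v => ind (B v) * f v) w * P.ce a (fun v => ind (C v) * g v) w * Q.m a w) := by
    calc _ = (P.Pr V * Q.E (fun v => ind (a v = a w) * (f v * g v))) * (P.m a w * (be * ga)) := by ring
      _ = (P.m a w * (P.ce a (fun v => ind (B v) * f v) w * P.ce a (fun v => ind (C v) * g v) w)) *
          (P.Pr V * Q.m a w) := by rw [hnum, hden]
      _ = _ := by ring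
  exact mul_left_cancel₀ (mul_pos hmP hV).ne' h3

theorem chl_ce_X (h : P.Chl a X Y V S B C be ga) (hci : P.CI a X Y) (hV : 0 < P.Pr V) {f : Om → ℝ} (hf : Fac X f)
    {w : Om} (hw : (P.cnd V hV).p w ≠ 0) :
    (P.cnd V hV).ce a f w = P.ce a (fun v => ind (B v) * f v) w / be := by
  obtain ⟨hbe, hga0, hS0⟩ := chl_pos h hci hV
  have h1 := chl_ce h hci hV hf (g := fun _ => (1 : ℝ)) (Fac.const Y 1) hw
  simp only [mul_one] at h1
  rw [h1, h.pC w (cnd_ac P V hV w hw), div_self hga0.ne', mul_one]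

theorem chl_ce_Y (h : P.Chl a X Y V S B C be ga) (hci : P.CI a X Y) (hV : 0 < P.Pr V) {g : Om → ℝ} (hg : Fac Y g)
    {w : Om} (hw : (P.cnd V hV).p w ≠ 0) :
    (P.cnd V hV).ce a g w = P.ce a (fun v => ind (C v) * g v) w / ga :=
  chl_ce_X h.symm hci.symm hV hg hw

/-- conditional independence in the child -/
theorem chl_ci (h : P.Chl a X Y V S B C be ga) (hci : P.CI a X Y) (hV : 0 < P.Pr V) : (P.cnd V hV).CI a X Y := by
  intro f g hf hg w hw
  rw [chl_ce h hci hV hf hg hw, chl_ce_X h hci hV hf hw, chl_ce_Y h hci hV hg hw]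

theorem chl_cmp (h : P.Chl a X Y V S B C be ga) (hci : P.CI a X Y) (hV : 0 < P.Pr V) {A : ℝ}
    (hc : P.Cmp a X A) : (P.cnd V hV).Cmp a X A := by
  obtain ⟨hbe, hga0, hS0⟩ := chl_pos h hci hV
  intro w' w w'' hw' hw hw''
  have hpw' := cnd_ac P V hV w' hw'
  have hB := ((h.iff w' hpw').1 (cnd_supp P hw')).2.1
  have hXF : Fac X (fun v => ind (X v = X w')) := Fac.ind (fun v v' hv => by rw [hv])
  have hBX : ∀ v, P.p v ≠ 0 → ind (B v) * ind (X v = X w') = ind (X v = X w') := by
    intro v _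
    by_cases hy : X v = X w'
    · rw [ind_of ((h.evB v w' hy).2 hB), one_mul]
    · rw [ind_not hy, mul_zero]
  rw [chl_ce_X h hci hV hXF hw, chl_ce_X h hci hV hXF hw'', P.ce_congr hBX, P.ce_congr hBX, ← mul_div_assoc]
  exact div_le_div_of_nonneg_right (hc w' w w'' hpw' (cnd_ac P V hV w hw) (cnd_ac P V hV w'' hw'')) hbe.le

/-- **the child state** -/
theorem FP.Sta.child {A sig mu : ℝ} (hst : P.Sta a X Y A sig) (h : P.Chl a X Y V S B C be ga) (hV : 0 < P.Pr V)
    (hA : 1 ≤ A) (hsig : 0 ≤ sig) (hbe : 1 / 2 ≤ be) (hga : 1 / 2 ≤ ga) (hmu : 0 < mu) (hS : mu ≤ P.Pr S) :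
    (P.cnd V hV).Sta a X Y A (8 * (2 + Real.log A) * (1 + Real.log (1 / mu)) * sig) where
  ci := chl_ci h hst.ci hV
  cX := chl_cmp h hst.ci hV hst.cX
  cY := chl_cmp h.symm hst.ci.symm hV hst.cY
  rX := chl_rule h.symm hst.ci.symm hV hA hst.cX hsig hst.rX hbe hmu hS
  rY := chl_rule h hst.ci hV hA hst.cY hsig hst.rY hga hmu hS

end child

/-! ## closeness -/

section close

variable {P : FP Om} {α κ ι ν : Type*} {a : Om → α} {X : Om → κ} {Y : Om → ι} {N : Om → ν}

theorem Pr_fib_pos (N : Om → ν) {w : Om} (hw : P.p w ≠ 0) : 0 < P.Pr (fun v => N v = N w) := P.m_pos N hw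

theorem ce_eq_cnd (N : Om → ν) (f : Om → ℝ) {w : Om} (h : 0 < P.Pr (fun v => N v = N w)) :
    P.ce N f w = (P.cnd (fun v => N v = N w) h).E f := (cnd_E P _ h f).symm

/-- the Hellinger distance as a mean in the state -/
theorem hel_eq_rho {w : Om} (h : 0 < P.Pr (fun v => N v = N w)) :
    P.hel X N Y w = (P.cnd (fun v => N v = N w) h).E
      (fun u => (Real.sqrt (rho (P.cnd (fun v => N v = N w) h) X Y w u) - 1) ^ 2) := by
  set Q := P.cnd (fun v => N v = N w) h with hQ
  have h1 := P.sum_pv (W := N) Y (F := fun _ v => (Real.sqrt (P.rt X N Y w v) - 1) ^ 2)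
    (fun v => Fac.const N _) w
  unfold FP.hel
  rw [h1, ce_eq_cnd N _ h]
  refine Q.E_congr (fun u hu => ?_)
  have hpu := cnd_ac P _ h u hu
  have hNu : N u = N w := cnd_supp P hu
  congr 2
  congr 1
  have hmN : 0 < P.m N w := h
  have e1 : P.rt X N Y w (Y u) = P.E (fun v => ind (N v = N w) * (ind (X v = X w) * ind (Y v = Y u))) /
      P.E (fun v => ind (N v = N w) * ind (X v = X w)) /
      (P.E (fun v => ind (N v = N w) * ind (Y v = Y u)) / P.m N w) := by
    show P.E (fun v => ind ((X v, N v) = (X w, N w)) * ind (Y v = Y u)) / P.m (fun v => (X v, N v)) w /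
      (P.E (fun v => ind (N v = N w) * ind (Y v = Y u)) / P.m N w) = _
    have e2 : ∀ v, ind ((X v, N v) = (X w, N w)) = ind (N v = N w) * ind (X v = X w) := by
      intro v
      rw [← ind_and]
      refine congrArg ind (propext ?_)
      rw [Prod.mk.injEq]
      exact and_comm
    have e3 : P.m (fun v => (X v, N v)) w = P.E (fun v => ind (N v = N w) * ind (X v = X w)) := by
      unfold FP.m
      exact P.E_congr (fun v _ => e2 v)
    have e4 : P.E (fun v => ind ((X v, N v) = (X w, N w)) * ind (Y v = Y u)) =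
        P.E (fun v => ind (N v = N w) * (ind (X v = X w) * ind (Y v = Y u))) :=
      P.E_congr (fun v _ => by rw [e2 v]; ring)
    rw [e3, e4]
  have e5 : rho Q X Y w u = P.E (fun v => ind (N v = N w) * (ind (X v = X w) * ind (Y v = Y u))) / P.m N w /
      (P.E (fun v => ind (N v = N w) * ind (Y v = Y u)) / P.m N w) /
      (P.E (fun v => ind (N v = N w) * ind (X v = X w)) / P.m N w) := by
    show Q.E (fun v => ind (Y v = Y u) * ind (X v = X w)) / Q.m Y u / Q.m X w = _
    have f1 : Q.E (fun v => ind (Y v = Y u) * ind (X v = X w)) =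
        P.E (fun v => ind (N v = N w) * (ind (X v = X w) * ind (Y v = Y u))) / P.m N w := by
      rw [hQ, cnd_E]
      show P.E _ / P.m N w = _
      congr 1
      exact P.E_congr (fun v _ => by ring)
    have f2 : Q.m Y u = P.E (fun v => ind (N v = N w) * ind (Y v = Y u)) / P.m N w := cnd_E P _ h _
    have f3 : Q.m X w = P.E (fun v => ind (N v = N w) * ind (X v = X w)) / P.m N w := cnd_E P _ h _
    rw [f1, f2, f3]
  rw [e1, e5]
  field_simp

theorem Cmp_thick {A : ℝ} (hc : P.Cmp a X A) (w w' : Om) (hw : P.p w ≠ 0) (hw' : P.p w' ≠ 0) :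
    P.ce a (fun v => ind (X v = X w')) w ≤ A * P.m X w' := by
  have h2 : P.m X w' = P.E (fun v => P.ce a (fun u => ind (X u = X w')) v) :=
    (P.E_ce a (fun u => ind (X u = X w'))).symm
  rw [h2, ← FP.E_smul]
  exact P.le_E_const (fun v hv => hc w' w v hw' hw hv)

/-- **closeness** of a good state -/
theorem hel_le_of_sta {A sig : ℝ} {w : Om} (hw : P.p w ≠ 0) (h : 0 < P.Pr (fun v => N v = N w))
    (hst : (P.cnd (fun v => N v = N w) h).Sta a X Y A sig) (hA : 1 ≤ A) (hsig : 0 ≤ sig) :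
    P.hel X N Y w ≤ sig * (Real.log A + 1) := by
  set Q := P.cnd (fun v => N v = N w) h with hQ
  have hQw : Q.p w ≠ 0 := cnd_p_ne h hw rfl
  rw [hel_eq_rho h]
  have h1 := kl_pt hst.ci hsig hst.rY (by linarith : 0 < A) hQw (fun v hv => Cmp_thick hst.cX v w hv hQw)
  refine le_trans (Q.E_mono (fun v _ => sqrt_sq_le_hphi (rho_nonneg w v))) h1

theorem hel_le_of_sta' {A sig : ℝ} {w : Om} (hw : P.p w ≠ 0) (h : 0 < P.Pr (fun v => N v = N w))
    (hst : (P.cnd (fun v => N v = N w) h).Sta a X Y A sig) (hA : 1 ≤ A) (hsig : 0 ≤ sig) :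
    P.hel Y N X w ≤ sig * (Real.log A + 1) :=
  hel_le_of_sta hw h hst.symm hA hsig

/-- a smaller state inside a state -/
theorem cnd_cnd {U W : Om → Prop} (hU : 0 < P.Pr U) (hW : 0 < (P.cnd U hU).Pr W) (hW' : 0 < P.Pr W)
    (hsub : ∀ v, P.p v ≠ 0 → W v → U v) : (P.cnd U hU).cnd W hW = P.cnd W hW' := by
  have e1 : P.Pr U * (P.cnd U hU).Pr W = P.Pr W := by
    have : P.Pr U * (P.cnd U hU).Pr W = P.E (fun v => ind (U v) * ind (W v)) := Pr_mul_cnd_E P U hU _
    rw [this]
    refine P.E_congr (fun v hv => ?_)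
    by_cases hv2 : W v
    · rw [ind_of (hsub v hv hv2), one_mul]
    · rw [ind_not hv2, mul_zero]
  have e2 : ((P.cnd U hU).cnd W hW).p = (P.cnd W hW').p := by
    funext v
    show P.p v * ind (U v) / P.Pr U * ind (W v) / (P.cnd U hU).Pr W = P.p v * ind (W v) / P.Pr W
    rw [← e1]
    by_cases hv0 : P.p v = 0
    · rw [hv0]; simp
    · by_cases hv2 : W v
      · rw [ind_of (hsub v hv0 hv2), ind_of hv2]
        field_simp
      · rw [ind_not hv2, mul_zero, zero_div, mul_zero, zero_div]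
  have ext : ∀ A B : FP Om, A.p = B.p → A = B := by
    intro A B hAB
    cases A; cases B
    simp only at hAB
    subst hAB
    rfl
  exact ext _ _ e2

/-- the density of the pair of letters is bounded in a good state -/
theorem iota_le_of_sta {A : ℝ} {w : Om} (hw : P.p w ≠ 0) (h : 0 < P.Pr (fun v => N v = N w))
    (hci : (P.cnd (fun v => N v = N w) h).CI a X Y) (hc : (P.cnd (fun v => N v = N w) h).Cmp a X A) :
    P.iota X Y N w ≤ Real.log A := by
  set Q := P.cnd (fun v => N v = N w) h with hQ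
  have hQw : Q.p w ≠ 0 := cnd_p_ne h hw rfl
  have hmN : 0 < P.m N w := h
  have e1 : P.m (fun v => (X v, Y v, N v)) w = P.m N w * Q.E (fun v => ind (X v = X w) * ind (Y v = Y w)) := by
    have : P.m N w * Q.E (fun v => ind (X v = X w) * ind (Y v = Y w)) =
        P.E (fun v => ind (N v = N w) * (ind (X v = X w) * ind (Y v = Y w))) := Pr_mul_cnd_E P _ h _
    rw [this]
    unfold FP.m
    refine P.E_congr (fun v _ => ?_)
    rw [← ind_and, ← ind_and]
    refine congrArg ind (propext ?_)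
    simp only [Prod.mk.injEq]
    tauto
  have e2 : P.m (fun v => (X v, N v)) w = P.m N w * Q.m X w := by
    have : P.m N w * Q.m X w = P.E (fun v => ind (N v = N w) * ind (X v = X w)) := Pr_mul_cnd_E P _ h _
    rw [this]
    unfold FP.m
    refine P.E_congr (fun v _ => ?_)
    rw [← ind_and]
    refine congrArg ind (propext ?_)
    simp only [Prod.mk.injEq]
    tauto
  have e3 : P.m (fun v => (Y v, N v)) w = P.m N w * Q.m Y w := by
    have : P.m N w * Q.m Y w = P.E (fun v => ind (N v = N w) * ind (Y v = Y w)) := Pr_mul_cnd_E P _ h _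
    rw [this]
    unfold FP.m
    refine P.E_congr (fun v _ => ?_)
    rw [← ind_and]
    refine congrArg ind (propext ?_)
    simp only [Prod.mk.injEq]
    tauto
  have m1 := Q.m_pos X hQw
  have m2 := Q.m_pos Y hQw
  have hXF : Fac X (fun v => ind (X v = X w)) := Fac.ind (fun v v' hv => by rw [hv])
  have hYF : Fac Y (fun v => ind (Y v = Y w)) := Fac.ind (fun v v' hv => by rw [hv])
  have h1 : Q.E (fun v => ind (X v = X w) * ind (Y v = Y w)) ≤ A * Q.m X w * Q.m Y w := by
    rw [hci.E_left hXF hYF]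
    have : A * Q.m X w * Q.m Y w = Q.E (fun v => A * Q.m X w * ind (Y v = Y w)) := by
      rw [FP.E_smul]; rfl
    rw [this]
    exact Q.E_mono (fun v hv => mul_le_mul_of_nonneg_right (Cmp_thick hc v w hv hQw) (ind_nonneg _))
  have h2 : 0 < Q.E (fun v => ind (X v = X w) * ind (Y v = Y w)) := by
    have h3 : 0 < P.m (fun v => (X v, Y v, N v)) w := P.m_pos _ hw
    rw [e1] at h3
    exact (pos_iff_pos_of_mul_pos h3).1 hmN
  unfold FP.iota
  rw [e1, e2, e3]
  refine Real.log_le_log (by positivity) ?_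
  rw [div_le_iff₀ (by positivity)]
  have h4 := mul_le_mul_of_nonneg_left h1 (by positivity : 0 ≤ P.m N w * P.m N w)
  nlinarith

end close

/-! ## both letters strong (3.4) -/

section strong

variable {P : FP Om} {α κ ι ζ ν : Type*} {a : Om → α} {X : Om → κ} {Y : Om → ι}

/-- `P(x, z) / P(x) P(z)` -/
noncomputable def qr (P : FP Om) (X : Om → κ) (Z : Om → ζ) (w : Om) : ℝ :=
  P.m (fun u => (X u, Z u)) w / (P.m X w * P.m Z w)

theorem qr_eq_dn (X : Om → κ) (Z : Om → ζ) {w v : Om} (h : 0 < P.Pr (fun u => Z u = Z w)) (hv : Z v = Z w) :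
    qr P X Z v = dn (P.cnd (fun u => Z u = Z w) h) P X v := by
  have e1 : P.m (fun u => (X u, Z u)) v = P.m Z w * (P.cnd (fun u => Z u = Z w) h).m X v := by
    have e2 : P.m Z w * (P.cnd (fun u => Z u = Z w) h).m X v =
        P.E (fun u => ind (Z u = Z w) * ind (X u = X v)) := Pr_mul_cnd_E P _ h _
    rw [e2]
    unfold FP.m
    refine P.E_congr (fun u _ => ?_)
    rw [← ind_and, ← hv]
    refine congrArg ind (propext ?_)
    rw [Prod.mk.injEq]
    exact and_comm
  have hm : 0 < P.m Z w := h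
  show P.m (fun u => (X u, Z u)) v / (P.m X v * P.m Z v) = (P.cnd _ h).m X v / P.m X v
  rw [e1, P.Fac_m Z v w hv]
  rcases eq_or_ne (P.m X v) 0 with h0 | h0
  · rw [h0, zero_mul, div_zero, div_zero]
  · field_simp

/-- one cell: both ratios strong -/
theorem ss_cell {V : Om → Prop} (hVa : Ev a V) (hV : 0 < P.Pr V) (hci : P.CI a X Y) {B eta e : ℝ}
    (hB : Real.exp 2 ≤ B) (h0 : 0 ≤ eta)
    (he : P.Pr (fun w => eta < P.ce a (fun v => ind (B < dn (P.cnd V hV) P Y v)) w) ≤ e) :
    (P.cnd V hV).E (fun w => ind (B < dn (P.cnd V hV) P X w) * ind (B < dn (P.cnd V hV) P Y w)) ≤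
      eta * (2 / Real.log B * kl (P.cnd V hV) P X) + e / P.Pr V := by
  set Q := P.cnd V hV with hQd
  have hQ : Q.AC P := cnd_ac P V hV
  set u : Om → ℝ := fun w => ind (B < dn Q P X w) with hu
  set g : Om → ℝ := fun w => ind (B < dn Q P Y w) with hg
  have huF : Fac X u := (dn_fac Q P X).comp (fun x => ind (B < x))
  have hgF : Fac Y g := (dn_fac Q P Y).comp (fun x => ind (B < x))
  have hB1 : 1 < B := by
    have := Real.add_one_le_exp 2
    linarith
  have hlB : 0 < Real.log B := Real.log_pos hB1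
  have h2 : P.Pr V * Q.E (fun w => u w * g w) = P.E (fun w => ind (V w) * (P.ce a u w * P.ce a g w)) := by
    rw [hQd, Pr_mul_cnd_E, hci.E3 (Fac.ind hVa) huF hgF]
  have hce0 : ∀ w, 0 ≤ P.ce a u w := fun w => P.ce_nonneg (fun v _ => ind_nonneg _) w
  have h3 : P.E (fun w => ind (V w) * (P.ce a u w * P.ce a g w)) ≤
      P.E (fun w => eta * (ind (V w) * P.ce a u w) + ind (eta < P.ce a g w)) := by
    refine P.E_mono (fun w hw => ?_)
    have hi0 := ind_nonneg (V w)
    have hi1 := ind_le_one (V w)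
    have hu1 : P.ce a u w ≤ 1 := P.ce_le_const (fun v _ => ind_le_one _) hw
    by_cases h : eta < P.ce a g w
    · rw [ind_of h]
      have h4 : P.ce a g w ≤ 1 := P.ce_le_const (fun v _ => ind_le_one _) hw
      have h5 : 0 ≤ P.ce a g w := P.ce_nonneg (fun v _ => ind_nonneg _) w
      have h6 : P.ce a u w * P.ce a g w ≤ 1 * 1 := mul_le_mul hu1 h4 h5 zero_le_one
      have h7 : 0 ≤ P.ce a u w * P.ce a g w := mul_nonneg (hce0 w) h5
      have h8 : ind (V w) * (P.ce a u w * P.ce a g w) ≤ 1 * (1 * 1) := mul_le_mul hi1 h6 h7 zero_le_one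
      have h9 := mul_nonneg h0 (mul_nonneg hi0 (hce0 w))
      linarith
    · rw [ind_not h, add_zero]
      have h6 : P.ce a u w * P.ce a g w ≤ P.ce a u w * eta :=
        mul_le_mul_of_nonneg_left (not_lt.1 h) (hce0 w)
      calc ind (V w) * (P.ce a u w * P.ce a g w) ≤ ind (V w) * (P.ce a u w * eta) :=
            mul_le_mul_of_nonneg_left h6 hi0
        _ = _ := by ring
  rw [FP.E_add, FP.E_smul] at h3
  have h4 : P.E (fun w => ind (V w) * P.ce a u w) = P.Pr V * Q.E u := by
    rw [hQd, Pr_mul_cnd_E]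
    exact P.E_mul_ce (Fac.ind hVa) u
  rw [h4] at h3
  have h5 := E_strong_log_le hQ X hB
  have h6 : Real.log B * Q.E u ≤ 2 * kl Q P X := by
    refine le_trans ?_ h5
    rw [← FP.E_smul]
    refine Q.E_mono (fun w _ => ?_)
    show Real.log B * ind (B < dn Q P X w) ≤ ind (B < dn Q P X w) * Real.log (dn Q P X w)
    by_cases h : B < dn Q P X w
    · rw [ind_of h, one_mul, mul_one]
      exact Real.log_le_log (by linarith) h.le
    · rw [ind_not h, mul_zero, zero_mul]
  have h7 : Q.E u ≤ 2 / Real.log B * kl Q P X := by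
    rw [div_mul_eq_mul_div, le_div_iff₀ hlB]
    linarith
  have h8 : P.Pr V * Q.E (fun w => u w * g w) ≤ P.Pr V * (eta * (2 / Real.log B * kl Q P X) + e / P.Pr V) := by
    rw [h2]
    refine h3.trans ?_
    have h9 := mul_le_mul_of_nonneg_left h7 (mul_nonneg h0 hV.le)
    have h10 : P.Pr V * (e / P.Pr V) = e := by field_simp
    have h11 : P.E (fun w => ind (eta < P.ce a g w)) ≤ e := he
    rw [mul_add, h10]
    linarith
  exact le_of_mul_le_mul_left h8 hV

/-- one state: both ratios strong, cells not big -/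
theorem ss_state {Z : Om → ζ} (hZ : Fac a Z) {T : Om → Prop} (hT : Ev Z T) (hci : P.CI a X Y)
    {B eta sig L0 : ℝ} (hB : Real.exp 2 ≤ B) (h0 : 0 < eta) (hBe : 2 * Real.exp 1 ≤ B * eta) (hsig : 0 < sig)
    (hr : P.Rul a Y sig) (hTm : ∀ w, P.p w ≠ 0 → ¬ T w → Real.exp (-L0) ≤ P.m Z w) :
    P.E (fun w => ind (¬ T w) * (ind (B < qr P X Z w) * ind (B < qr P Y Z w))) ≤
      eta * (2 / Real.log B) * P.E (fun w => Real.log (qr P X Z w)) +
        Real.exp (L0 + 1 - eta / (2 * sig)) * P.Pr (fun w => P.m Z w ≤ 1 / 2) := by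
  have hB1 : 2 < B := by
    have := Real.add_one_le_exp 2
    linarith
  have hlB : 0 < Real.log B := Real.log_pos (by linarith)
  set F : Om → ℝ := fun w => ind (¬ T w) * (ind (B < qr P X Z w) * ind (B < qr P Y Z w)) with hF
  have key : ∀ w, P.p w ≠ 0 → P.ce Z F w ≤
      eta * (2 / Real.log B) * P.ce Z (fun v => Real.log (qr P X Z v)) w +
        Real.exp (L0 + 1 - eta / (2 * sig)) * ind (P.m Z w ≤ 1 / 2) := by
    intro w hw
    have hV : 0 < P.Pr (fun v => Z v = Z w) := P.m_pos Z hw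
    set Q := P.cnd (fun v => Z v = Z w) hV with hQ
    have hQac : Q.AC P := cnd_ac P _ hV
    rw [ce_eq_cnd Z _ hV, ce_eq_cnd Z _ hV]
    have hq : ∀ v, Q.p v ≠ 0 → qr P X Z v = dn Q P X v := fun v hv => qr_eq_dn X Z hV (cnd_supp P hv)
    have hq' : ∀ v, Q.p v ≠ 0 → qr P Y Z v = dn Q P Y v := fun v hv => qr_eq_dn Y Z hV (cnd_supp P hv)
    have e1 : Q.E (fun v => Real.log (qr P X Z v)) = kl Q P X := by
      unfold kl
      exact Q.E_congr (fun v hv => by rw [hq v hv])
    rw [e1]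
    have hk0 := kl_nonneg hQac X
    have hE0 : 0 ≤ Real.exp (L0 + 1 - eta / (2 * sig)) * ind (P.m Z w ≤ 1 / 2) :=
      mul_nonneg (Real.exp_pos _).le (ind_nonneg _)
    have hE1 : 0 ≤ eta * (2 / Real.log B) * kl Q P X := by positivity
    by_cases hTw : T w
    · have : Q.E F = Q.E (fun _ => (0 : ℝ)) := by
        refine Q.E_congr (fun v hv => ?_)
        have hTv : T v := (hT v w (cnd_supp P hv)).2 hTw
        show ind (¬ T v) * _ = 0
        rw [ind_not (fun h => h hTv), zero_mul]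
      rw [this, FP.E_const]
      linarith
    · by_cases hm : P.m Z w ≤ 1 / 2
      · rw [ind_of hm, mul_one]
        have hexc := exc_strong hQac (a := a) (Y := Y) (by linarith : 0 < B) h0 hBe hsig hr
        have hcell := ss_cell (X := X) (fun v v' hv => by
          show Z v = Z w ↔ Z v' = Z w
          rw [hZ v v' hv]) hV hci hB h0.le hexc
        have h1 : Q.E F ≤ Q.E (fun v => ind (B < dn Q P X v) * ind (B < dn Q P Y v)) := by
          refine Q.E_mono (fun v hv => ?_)
          show ind (¬ T v) * (ind (B < qr P X Z v) * ind (B < qr P Y Z v)) ≤ _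
          rw [hq v hv, hq' v hv]
          exact mul_le_of_le_one_left (mul_nonneg (ind_nonneg _) (ind_nonneg _)) (ind_le_one _)
        have h2 : Real.exp (1 - eta / (2 * sig)) / P.Pr (fun v => Z v = Z w) ≤
            Real.exp (L0 + 1 - eta / (2 * sig)) := by
          rw [div_le_iff₀ hV]
          have h3 := hTm w hw hTw
          have h4 : Real.exp (1 - eta / (2 * sig)) =
              Real.exp (L0 + 1 - eta / (2 * sig)) * Real.exp (-L0) := by
            rw [← Real.exp_add]; congr 1; ring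
          rw [h4]
          exact mul_le_mul_of_nonneg_left h3 (Real.exp_pos _).le
        have h5 : eta * (2 / Real.log B * kl Q P X) = eta * (2 / Real.log B) * kl Q P X := by ring
        rw [h5] at hcell
        linarith
      · have hm2 : 1 / 2 < P.m Z w := not_le.1 hm
        have : Q.E F = Q.E (fun _ => (0 : ℝ)) := by
          refine Q.E_congr (fun v hv => ?_)
          have h3 : dn Q P X v ≤ 1 / P.Pr (fun u => Z u = Z w) := dn_cnd_le P _ hV X (hQac v hv)
          have h4 : 1 / P.Pr (fun u => Z u = Z w) < 2 := by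
            rw [div_lt_iff₀ hV]
            have : P.Pr (fun u => Z u = Z w) = P.m Z w := rfl
            rw [this]; linarith
          show ind (¬ T v) * (ind (B < qr P X Z v) * ind (B < qr P Y Z v)) = 0
          rw [hq v hv, ind_not (by linarith : ¬ B < dn Q P X v), zero_mul, mul_zero]
        rw [this, FP.E_const]
        linarith
  have h1 := P.E_mono key
  rw [FP.E_add, FP.E_smul, FP.E_smul, P.E_ce, P.E_ce] at h1
  exact h1

/-- the same with hypotheses on the support only -/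
theorem ss_state' {Z : Om → ζ} (hZ : ∀ v w, P.p v ≠ 0 → P.p w ≠ 0 → a v = a w → Z v = Z w) {T : Om → Prop}
    (hT : ∀ v w, P.p v ≠ 0 → P.p w ≠ 0 → Z v = Z w → (T v ↔ T w)) (hci : P.CI a X Y)
    {B eta sig L0 : ℝ} (hB : Real.exp 2 ≤ B) (h0 : 0 < eta) (hBe : 2 * Real.exp 1 ≤ B * eta) (hsig : 0 < sig)
    (hr : P.Rul a Y sig) (hTm : ∀ w, P.p w ≠ 0 → ¬ T w → Real.exp (-L0) ≤ P.m Z w) :
    P.E (fun w => ind (¬ T w) * (ind (B < qr P X Z w) * ind (B < qr P Y Z w))) ≤
      eta * (2 / Real.log B) * P.E (fun w => Real.log (qr P X Z w)) +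
        Real.exp (L0 + 1 - eta / (2 * sig)) * P.Pr (fun w => P.m Z w ≤ 1 / 2) := by
  classical
  set Z' : Om → Option ζ := fun v => if h : ∃ u, P.p u ≠ 0 ∧ a u = a v then some (Z h.choose) else none with hZ'
  have hZF : Fac a Z' := fun v w hv => by
    show (if h : ∃ u, P.p u ≠ 0 ∧ a u = a v then some (Z h.choose) else none) =
      if h : ∃ u, P.p u ≠ 0 ∧ a u = a w then some (Z h.choose) else none
    simp only [hv]
  have hZs : ∀ v, P.p v ≠ 0 → Z' v = some (Z v) := by
    intro v hv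
    have h : ∃ u, P.p u ≠ 0 ∧ a u = a v := ⟨v, hv, rfl⟩
    show (if h : ∃ u, P.p u ≠ 0 ∧ a u = a v then some (Z h.choose) else none) = _
    rw [dif_pos h]
    exact congrArg some (hZ _ _ h.choose_spec.1 hv h.choose_spec.2)
  set T' : Om → Prop := fun v => ∃ u, P.p u ≠ 0 ∧ Z' u = Z' v ∧ T u with hT'
  have hTE : Ev Z' T' := fun v w hv => by
    show (∃ u, P.p u ≠ 0 ∧ Z' u = Z' v ∧ T u) ↔ ∃ u, P.p u ≠ 0 ∧ Z' u = Z' w ∧ T u
    rw [hv]
  have hZZ : ∀ u v, P.p u ≠ 0 → P.p v ≠ 0 → (Z' u = Z' v ↔ Z u = Z v) := by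
    intro u v hu hv
    rw [hZs u hu, hZs v hv]
    exact Option.some_inj
  have hTs : ∀ v, P.p v ≠ 0 → (T' v ↔ T v) := by
    intro v hv
    constructor
    · rintro ⟨u, hu, h1, h2⟩
      exact (hT u v hu hv ((hZZ u v hu hv).1 h1)).1 h2
    · intro h
      exact ⟨v, hv, rfl, h⟩
  have hm1 : ∀ v, P.p v ≠ 0 → P.m Z' v = P.m Z v := by
    intro v hv
    unfold FP.m
    exact P.E_congr (fun u hu => congrArg ind (propext (hZZ u v hu hv)))
  have hmX : ∀ v, P.p v ≠ 0 → P.m (fun u => (X u, Z' u)) v = P.m (fun u => (X u, Z u)) v := by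
    intro v hv
    unfold FP.m
    refine P.E_congr (fun u hu => congrArg ind (propext ?_))
    simp only [Prod.mk.injEq]
    rw [hZZ u v hu hv]
  have hmY : ∀ v, P.p v ≠ 0 → P.m (fun u => (Y u, Z' u)) v = P.m (fun u => (Y u, Z u)) v := by
    intro v hv
    unfold FP.m
    refine P.E_congr (fun u hu => congrArg ind (propext ?_))
    simp only [Prod.mk.injEq]
    rw [hZZ u v hu hv]
  have hqX : ∀ v, P.p v ≠ 0 → qr P X Z' v = qr P X Z v := fun v hv => by
    unfold qr; rw [hmX v hv, hm1 v hv]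
  have hqY : ∀ v, P.p v ≠ 0 → qr P Y Z' v = qr P Y Z v := fun v hv => by
    unfold qr; rw [hmY v hv, hm1 v hv]
  have h := ss_state (X := X) hZF hTE hci hB h0 hBe hsig hr (L0 := L0)
    (fun w hw hTw => by rw [hm1 w hw]; exact hTm w hw (fun h => hTw ((hTs w hw).2 h)))
  have e1 : P.E (fun w => ind (¬ T' w) * (ind (B < qr P X Z' w) * ind (B < qr P Y Z' w))) =
      P.E (fun w => ind (¬ T w) * (ind (B < qr P X Z w) * ind (B < qr P Y Z w))) :=
    P.E_congr (fun w hw => by
      rw [hqX w hw, hqY w hw, show (¬ T' w) = ¬ T w from congrArg Not (propext (hTs w hw))])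
  have e2 : P.E (fun w => Real.log (qr P X Z' w)) = P.E (fun w => Real.log (qr P X Z w)) :=
    P.E_congr (fun w hw => by rw [hqX w hw])
  have e3 : P.Pr (fun w => P.m Z' w ≤ 1 / 2) = P.Pr (fun w => P.m Z w ≤ 1 / 2) :=
    P.Pr_congr (fun w hw => by rw [hm1 w hw])
  rw [e1, e2, e3] at h
  exact h

/-- **both ratios strong** (3.4), in the shape of the term of KEY with a weight `th` -/
theorem both_strong {N : Om → ν} {Z : Om → ζ} {A B eta sig L0 : ℝ} {T Tn : Om → Prop} {th : Om → ℝ}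
    (hth : Fac N th) (hth0 : ∀ w, P.p w ≠ 0 → 0 ≤ th w)
    (hZ : Fac (fun w => (a w, N w)) Z) (hT : ∀ u v, (Z u, N u) = (Z v, N v) → (T u ↔ T v))
    (hTn : ∀ u v, N u = N v → (Tn u ↔ Tn v)) (hsub : ∀ w, Tn w → T w)
    (hst : ∀ w (h : 0 < P.Pr (fun v => N v = N w)), P.p w ≠ 0 → th w ≠ 0 → ¬ Tn w →
      (P.cnd (fun v => N v = N w) h).Sta a X Y A sig)
    (hA : 1 ≤ A) (hB : Real.exp 2 ≤ B) (h0 : 0 < eta) (hBe : 2 * Real.exp 1 ≤ B * eta) (hsig : 0 < sig)
    (hTm : ∀ w, P.p w ≠ 0 → ¬ T w → Real.exp (-L0) ≤ P.pv N Z w (Z w)) :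
    P.E (fun w => th w * (ind (T w ∨ (B < P.rt X N Z w (Z w) ∧ B < P.rt Y N Z w (Z w))) * P.iota X Y N w)) ≤
      P.E (fun w => th w * (ind (T w) * P.iota X Y N w)) +
      Real.log A * (eta * (2 / Real.log B) * P.E (fun w => th w * P.iota X Z N w) +
        Real.exp (L0 + 1 - eta / (2 * sig)) * P.E (fun w => th w * ind (P.pv N Z w (Z w) ≤ 1 / 2))) := by
  have hlA : 0 ≤ Real.log A := Real.log_nonneg hA
  have hB1 : 2 < B := by
    have := Real.add_one_le_exp 2
    linarith
  have hlB : 0 < Real.log B := Real.log_pos (by linarith)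
  set F : Om → ℝ := fun w => ind (¬ T w) * (ind (B < P.rt X N Z w (Z w)) * ind (B < P.rt Y N Z w (Z w))) with hF
  -- pointwise in the state
  have key : ∀ w, P.p w ≠ 0 → th w * P.ce N F w ≤ th w * (eta * (2 / Real.log B) * P.ce N (P.iota X Z N) w +
        Real.exp (L0 + 1 - eta / (2 * sig)) * P.ce N (fun v => ind (P.pv N Z v (Z v) ≤ 1 / 2)) w) := by
    intro w hw
    by_cases hthw : th w = 0
    · rw [hthw, zero_mul, zero_mul]
    refine mul_le_mul_of_nonneg_left ?_ (hth0 w hw)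
    have hm : 0 < P.Pr (fun v => N v = N w) := P.m_pos N hw
    set Q := P.cnd (fun v => N v = N w) hm with hQ
    have hmN : 0 < P.m N w := hm
    have hQac : Q.AC P := cnd_ac P _ hm
    rw [ce_eq_cnd N _ hm, ce_eq_cnd N _ hm, ce_eq_cnd N _ hm]
    -- masses
    have hmZ : ∀ v, N v = N w → P.m (fun u => (Z u, N u)) v = P.m N w * Q.m Z v := by
      intro v hv
      have e1 : P.m N w * Q.m Z v = P.E (fun u => ind (N u = N w) * ind (Z u = Z v)) := Pr_mul_cnd_E P _ hm _
      rw [e1]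
      unfold FP.m
      refine P.E_congr (fun u _ => ?_)
      rw [← ind_and, ← hv]
      refine congrArg ind (propext ?_)
      rw [Prod.mk.injEq]
      exact and_comm
    have hmX : ∀ v, N v = N w → P.m (fun u => (X u, N u)) v = P.m N w * Q.m X v := by
      intro v hv
      have e1 : P.m N w * Q.m X v = P.E (fun u => ind (N u = N w) * ind (X u = X v)) := Pr_mul_cnd_E P _ hm _
      rw [e1]
      unfold FP.m
      refine P.E_congr (fun u _ => ?_)
      rw [← ind_and, ← hv]
      refine congrArg ind (propext ?_)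
      rw [Prod.mk.injEq]
      exact and_comm
    have hmY : ∀ v, N v = N w → P.m (fun u => (Y u, N u)) v = P.m N w * Q.m Y v := by
      intro v hv
      have e1 : P.m N w * Q.m Y v = P.E (fun u => ind (N u = N w) * ind (Y u = Y v)) := Pr_mul_cnd_E P _ hm _
      rw [e1]
      unfold FP.m
      refine P.E_congr (fun u _ => ?_)
      rw [← ind_and, ← hv]
      refine congrArg ind (propext ?_)
      rw [Prod.mk.injEq]
      exact and_comm
    have hmXZ : ∀ v, N v = N w → P.m (fun u => (Z u, (X u, N u))) v = P.m N w * Q.m (fun u => (X u, Z u)) v := by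
      intro v hv
      have e1 : P.m N w * Q.m (fun u => (X u, Z u)) v =
        P.E (fun u => ind (N u = N w) * ind ((X u, Z u) = (X v, Z v))) := Pr_mul_cnd_E P _ hm _
      rw [e1]
      unfold FP.m
      refine P.E_congr (fun u _ => ?_)
      rw [← ind_and, ← hv]
      refine congrArg ind (propext ?_)
      simp only [Prod.mk.injEq]
      tauto
    have hmYZ : ∀ v, N v = N w → P.m (fun u => (Z u, (Y u, N u))) v = P.m N w * Q.m (fun u => (Y u, Z u)) v := by
      intro v hv
      have e1 : P.m N w * Q.m (fun u => (Y u, Z u)) v =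
        P.E (fun u => ind (N u = N w) * ind ((Y u, Z u) = (Y v, Z v))) := Pr_mul_cnd_E P _ hm _
      rw [e1]
      unfold FP.m
      refine P.E_congr (fun u _ => ?_)
      rw [← ind_and, ← hv]
      refine congrArg ind (propext ?_)
      simp only [Prod.mk.injEq]
      tauto
    have hpv : ∀ v, N v = N w → P.pv N Z v (Z v) = Q.m Z v := by
      intro v hv
      rw [FP.pv_self, hmZ v hv, P.Fac_m N v w hv]
      field_simp
    have hrX : ∀ v, Q.p v ≠ 0 → P.rt X N Z v (Z v) = qr Q X Z v := by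
      intro v hv
      have hN : N v = N w := cnd_supp P hv
      have m1 := Q.m_pos X hv
      have m2 := Q.m_pos Z hv
      unfold FP.rt
      rw [hpv v hN, FP.pv_self]
      show P.m (fun u => (Z u, (X u, N u))) v / P.m (fun u => (X u, N u)) v / Q.m Z v = _
      rw [hmXZ v hN, hmX v hN]
      unfold qr
      field_simp
    have hrY : ∀ v, Q.p v ≠ 0 → P.rt Y N Z v (Z v) = qr Q Y Z v := by
      intro v hv
      have hN : N v = N w := cnd_supp P hv
      have m1 := Q.m_pos Y hv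
      have m2 := Q.m_pos Z hv
      unfold FP.rt
      rw [hpv v hN, FP.pv_self]
      show P.m (fun u => (Z u, (Y u, N u))) v / P.m (fun u => (Y u, N u)) v / Q.m Z v = _
      rw [hmYZ v hN, hmY v hN]
      unfold qr
      field_simp
    have hio : ∀ v, Q.p v ≠ 0 → P.iota X Z N v = Real.log (qr Q X Z v) := by
      intro v hv
      have hN : N v = N w := cnd_supp P hv
      have m1 := Q.m_pos X hv
      have m2 := Q.m_pos Z hv
      have e1 : P.m (fun u => (X u, Z u, N u)) v = P.m (fun u => (Z u, (X u, N u))) v :=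
        P.m_congr (fun s t h => by simp only [Prod.mk.injEq] at h ⊢; tauto)
          (fun s t h => by simp only [Prod.mk.injEq] at h ⊢; tauto) v
      unfold FP.iota
      rw [e1, hmXZ v hN, hmX v hN, hmZ v hN, P.Fac_m N v w hN]
      unfold qr
      congr 1
      field_simp
    by_cases hTnw : Tn w
    · have e0 : Q.E F = Q.E (fun _ => (0 : ℝ)) := by
        refine Q.E_congr (fun v hv => ?_)
        have hTv : T v := hsub v ((hTn v w (cnd_supp P hv)).2 hTnw)
        show ind (¬ T v) * _ = 0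
        rw [ind_not (fun h => h hTv), zero_mul]
      have e1 : Q.E (P.iota X Z N) = Q.E (fun v => Real.log (qr Q X Z v)) := Q.E_congr hio
      have e2 : 0 ≤ Q.E (fun v => Real.log (qr Q X Z v)) := by
        rw [← Q.E_ce Z]
        refine Q.E_nonneg (fun v hv => ?_)
        have hV : 0 < Q.Pr (fun u => Z u = Z v) := Q.m_pos Z hv
        rw [ce_eq_cnd Z _ hV]
        have e3 : (Q.cnd (fun u => Z u = Z v) hV).E (fun v => Real.log (qr Q X Z v)) =
            kl (Q.cnd (fun u => Z u = Z v) hV) Q X := by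
          unfold kl
          exact FP.E_congr _ (fun u hu => by rw [qr_eq_dn X Z hV (cnd_supp Q hu)])
        rw [e3]
        exact kl_nonneg (cnd_ac Q _ hV) X
      have e4 : 0 ≤ Q.E (fun v => ind (P.pv N Z v (Z v) ≤ 1 / 2)) := Q.E_nonneg (fun _ _ => ind_nonneg _)
      rw [e0, FP.E_const, e1]
      have := Real.exp_pos (L0 + 1 - eta / (2 * sig))
      positivity
    · have hs := hst w hm hw hthw hTnw
      have h := ss_state' (P := Q) (a := a) (X := X) (Y := Y) (Z := Z)
        (fun u v hu hv huv => hZ u v (by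
          show (a u, N u) = (a v, N v)
          rw [huv, (cnd_supp P hu : N u = N w), (cnd_supp P hv : N v = N w)]))
        (T := T) (fun u v hu hv huv => hT u v (by
          rw [huv, (cnd_supp P hu : N u = N w), (cnd_supp P hv : N v = N w)]))
        hs.ci hB h0 hBe hsig hs.rY (L0 := L0)
        (fun v hv hTv => by rw [← hpv v (cnd_supp P hv)]; exact hTm v (hQac v hv) hTv)
      have e1 : Q.E F = Q.E (fun w => ind (¬ T w) * (ind (B < qr Q X Z w) * ind (B < qr Q Y Z w))) :=
        Q.E_congr (fun v hv => by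
          show ind (¬ T v) * (ind (B < P.rt X N Z v (Z v)) * ind (B < P.rt Y N Z v (Z v))) = _
          rw [hrX v hv, hrY v hv])
      have e2 : Q.E (P.iota X Z N) = Q.E (fun v => Real.log (qr Q X Z v)) := Q.E_congr hio
      have e3 : Q.E (fun v => ind (P.pv N Z v (Z v) ≤ 1 / 2)) = Q.Pr (fun v => Q.m Z v ≤ 1 / 2) :=
        Q.E_congr (fun v hv => by rw [hpv v (cnd_supp P hv)])
      rw [e1, e2, e3]
      exact h
  have h1 := P.E_mono key
  have e1 : P.E (fun w => th w * P.ce N F w) = P.E (fun w => th w * F w) := P.E_mul_ce hth F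
  have e2 : P.E (fun w => th w * (eta * (2 / Real.log B) * P.ce N (P.iota X Z N) w +
        Real.exp (L0 + 1 - eta / (2 * sig)) * P.ce N (fun v => ind (P.pv N Z v (Z v) ≤ 1 / 2)) w)) =
      eta * (2 / Real.log B) * P.E (fun w => th w * P.iota X Z N w) +
        Real.exp (L0 + 1 - eta / (2 * sig)) * P.E (fun w => th w * ind (P.pv N Z w (Z w) ≤ 1 / 2)) := by
    rw [← P.E_mul_ce hth (P.iota X Z N), ← P.E_mul_ce hth (fun v => ind (P.pv N Z v (Z v) ≤ 1 / 2)),
      ← FP.E_smul, ← FP.E_smul, ← FP.E_add]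
    exact P.E_congr (fun w _ => by ring)
  rw [e1, e2] at h1
  have h2 : P.E (fun w => th w * (ind (T w ∨ (B < P.rt X N Z w (Z w) ∧ B < P.rt Y N Z w (Z w))) *
      P.iota X Y N w)) ≤ P.E (fun w => th w * (ind (T w) * P.iota X Y N w) + Real.log A * (th w * F w)) := by
    refine P.E_mono (fun w hw => ?_)
    by_cases hthw : th w = 0
    · rw [hthw]; simp
    by_cases hTw : T w
    · have hF0 : F w = 0 := by
        show ind (¬ T w) * _ = 0
        rw [ind_not (fun h => h hTw), zero_mul]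
      rw [hF0, ind_of (Or.inl hTw), ind_of hTw]
      linarith
    · have hTnw : ¬ Tn w := fun h => hTw (hsub w h)
      have hm : 0 < P.Pr (fun v => N v = N w) := P.m_pos N hw
      have hs := hst w hm hw hthw hTnw
      have hi := iota_le_of_sta hw hm hs.ci hs.cX
      have hFe : F w = ind (B < P.rt X N Z w (Z w)) * ind (B < P.rt Y N Z w (Z w)) := by
        show ind (¬ T w) * _ = _
        rw [ind_of hTw, one_mul]
      rw [hFe, ind_not hTw, zero_mul, mul_zero, zero_add]
      by_cases hb : B < P.rt X N Z w (Z w) ∧ B < P.rt Y N Z w (Z w)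
      · rw [ind_of (Or.inr hb), ind_of hb.1, ind_of hb.2]
        have := mul_le_mul_of_nonneg_left hi (hth0 w hw)
        linarith
      · rw [ind_not (fun h => h.elim hTw hb), zero_mul, mul_zero]
        have := mul_nonneg hlA (mul_nonneg (hth0 w hw)
          (mul_nonneg (ind_nonneg (B < P.rt X N Z w (Z w))) (ind_nonneg (B < P.rt Y N Z w (Z w)))))
        exact this
  rw [FP.E_add, FP.E_smul] at h2
  have h3 := mul_le_mul_of_nonneg_left h1 hlA
  linarith

end strong

end Pool.Agent.M3
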