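import Pool.Agent.M3.S3Key

/-!
# M3.S3KeyF: KEY of section 3 on a finite probability space

`P : FP Om`; `X`, `Y` = the two letters with their owners, `N` = the state (node and class), `Z` = a partition,
`D` = a digit.  CLOSE at `w`: `P.hel X N Y u ≤ d` and `P.hel Y N X u ≤ d` for all `u` in the state of `w`.
* `close_cov`: `|E[l k | N] - E[l | N] E[k | N]| ≤ kd d (E[l^2|N] E[k^2|N])^(1/2)`, `l` function of `(X,N)`, `k` of `(Y,N)`;
* `key_state`: KEY, pointwise in the state;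
* `key_w`: the same with a weight `θ ≥ 0` (a function of `N`); `key_exc`: with exceptional states; `key_I`;
* `digit_w`: the digit inequality with a weight carried by the states with `|m| ≤ 1/2`.
-/

set_option autoImplicit false
set_option linter.unusedSectionVars false

namespace Pool.Agent.M3

open Finset Pool.Agent.PWZ

variable {Om : Type*} [Fintype Om]

namespace FP

variable (P : FP Om) {κ ι ζ ν : Type*}

/-! ## sums over the values of maps -/

theorem pv_marg {α β γ : Type*} (N : Om → ν) {A : Om → α} {B : Om → β} {C : Om → γ} (a : α) (c : β → γ)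
    (h : ∀ u b, C u = c b ↔ (A u = a ∧ B u = b)) (w : Om) :
    ∑ b ∈ vals B, P.pv N C w (c b) = P.pv N A w a := by
  unfold pv
  rw [← P.ce_sum]
  congr 1
  funext u
  have h1 : ∀ b ∈ vals B, ind (C u = c b) = ind (B u = b) * ind (A u = a) := by
    intro b _
    by_cases hA : A u = a
    · by_cases hB : B u = b
      · rw [ind_of ((h u b).2 ⟨hA, hB⟩), ind_of hA, ind_of hB, one_mul]
      · rw [ind_not (fun hc => hB ((h u b).1 hc).2), ind_not hB, zero_mul]
    · rw [ind_not (fun hc => hA ((h u b).1 hc).1), ind_not hA, mul_zero]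
  rw [Finset.sum_congr rfl h1]
  exact sum_vals B (fun _ => ind (A u = a)) u

theorem sum2 {N : Om → ν} (X : Om → κ) (Y : Om → ι) {F : Om → κ → ι → ℝ}
    (hF : ∀ x y, Fac N (fun w => F w x y)) (w : Om) :
    ∑ x ∈ vals X, ∑ y ∈ vals Y, P.pv N (fun u => (X u, Y u)) w (x, y) * F w x y =
      P.ce N (fun u => F u (X u) (Y u)) w := by
  have h1 : ∀ x ∈ vals X, ∑ y ∈ vals Y, P.pv N (fun u => (X u, Y u)) w (x, y) * F w x y =
      P.ce N (fun u => ind (X u = x) * F u x (Y u)) w := by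
    intro x _
    have h2 : ∀ y ∈ vals Y, P.pv N (fun u => (X u, Y u)) w (x, y) * F w x y =
        P.ce N (fun u => ind (Y u = y) * (ind (X u = x) * F u x y)) w := by
      intro y _
      unfold pv
      rw [← P.ce_mul' (hF x y)]
      congr 1
      funext u
      show ind ((X u, Y u) = (x, y)) * F u x y = _
      by_cases hx : X u = x
      · by_cases hy : Y u = y
        · rw [ind_of (show (X u, Y u) = (x, y) by rw [hx, hy]), ind_of hx, ind_of hy]; ring
        · rw [ind_not (fun h => hy (congrArg Prod.snd h)), ind_not hy]; ring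
      · rw [ind_not (fun h => hx (congrArg Prod.fst h)), ind_not hx]; ring
    rw [Finset.sum_congr rfl h2, ← P.ce_sum]
    congr 1
    funext u
    exact sum_vals Y (fun y => ind (X u = x) * F u x y) u
  rw [Finset.sum_congr rfl h1, ← P.ce_sum]
  congr 1
  funext u
  exact sum_vals X (fun x => F u x (Y u)) u

theorem sum3 {N : Om → ν} (X : Om → κ) (Y : Om → ι) (Z : Om → ζ) {F : Om → κ → ι → ζ → ℝ}
    (hF : ∀ x y z, Fac N (fun w => F w x y z)) (w : Om) :
    ∑ x ∈ vals X, ∑ y ∈ vals Y, ∑ z ∈ vals Z, P.pv N (fun u => (X u, Y u, Z u)) w (x, y, z) * F w x y z =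
      P.ce N (fun u => F u (X u) (Y u) (Z u)) w := by
  have h1 : ∀ x ∈ vals X, ∑ y ∈ vals Y, ∑ z ∈ vals Z,
      P.pv N (fun u => (X u, Y u, Z u)) w (x, y, z) * F w x y z =
      P.ce N (fun u => ind (X u = x) * F u x (Y u) (Z u)) w := by
    intro x _
    have h2 : ∀ y ∈ vals Y, ∑ z ∈ vals Z, P.pv N (fun u => (X u, Y u, Z u)) w (x, y, z) * F w x y z =
        P.ce N (fun u => ind (Y u = y) * (ind (X u = x) * F u x y (Z u))) w := by
      intro y _
      have h3 : ∀ z ∈ vals Z, P.pv N (fun u => (X u, Y u, Z u)) w (x, y, z) * F w x y z =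
          P.ce N (fun u => ind (Z u = z) * (ind (Y u = y) * (ind (X u = x) * F u x y z))) w := by
        intro z _
        unfold pv
        rw [← P.ce_mul' (hF x y z)]
        congr 1
        funext u
        show ind ((X u, Y u, Z u) = (x, y, z)) * F u x y z = _
        by_cases hx : X u = x
        · by_cases hy : Y u = y
          · by_cases hz : Z u = z
            · rw [ind_of (show (X u, Y u, Z u) = (x, y, z) by rw [hx, hy, hz]), ind_of hx, ind_of hy,
                ind_of hz]; ring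
            · rw [ind_not (fun h => hz (congrArg (fun q => q.2.2) h)), ind_not hz]; ring
          · rw [ind_not (fun h => hy (congrArg (fun q => q.2.1) h)), ind_not hy]; ring
        · rw [ind_not (fun h => hx (congrArg Prod.fst h)), ind_not hx]; ring
      rw [Finset.sum_congr rfl h3, ← P.ce_sum]
      congr 1
      funext u
      exact sum_vals Z (fun z => ind (Y u = y) * (ind (X u = x) * F u x y z)) u
    rw [Finset.sum_congr rfl h2, ← P.ce_sum]
    congr 1
    funext u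
    exact sum_vals Y (fun y => ind (X u = x) * F u x y (Z u)) u
  rw [Finset.sum_congr rfl h1, ← P.ce_sum]
  congr 1
  funext u
  exact sum_vals X (fun x => F u x (Y u) (Z u)) u

/-! ## the table of a state -/

/-- the table of the state of `w` -/
noncomputable def tab (X : Om → κ) (Y : Om → ι) (Z : Om → ζ) (N : Om → ν) {w : Om} (hw : P.p w ≠ 0) :
    Tab (vals X) (vals Y) (vals Z) where
  j := fun x y z => P.pv N (fun u => (X u, Y u, Z u)) w (x, y, z)
  u := fun x z => P.pv N (fun u => (X u, Z u)) w (x, z)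
  v := fun y z => P.pv N (fun u => (Y u, Z u)) w (y, z)
  p := fun z => P.pv N Z w z
  J := fun x y => P.pv N (fun u => (X u, Y u)) w (x, y)
  U := fun x => P.pv N X w x
  V := fun y => P.pv N Y w y
  nn := fun _ _ _ => P.pv_nonneg _ _ _ _
  ju := fun x _ z _ => P.pv_marg N (x, z) (fun y => (x, y, z)) (fun u b => by
    simp only [Prod.mk.injEq]; tauto) w
  jv := fun y _ z _ => P.pv_marg N (y, z) (fun x => (x, y, z)) (fun u b => by
    simp only [Prod.mk.injEq]; tauto) w
  up := fun z _ => P.pv_marg N z (fun x => (x, z)) (fun u b => by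
    simp only [Prod.mk.injEq]; tauto) w
  vp := fun z _ => P.pv_marg N z (fun y => (y, z)) (fun u b => by
    simp only [Prod.mk.injEq]; tauto) w
  jJ := fun x _ y _ => P.pv_marg N (x, y) (fun z => (x, y, z)) (fun u b => by
    simp only [Prod.mk.injEq]; tauto) w
  uU := fun x _ => P.pv_marg N x (fun z => (x, z)) (fun u b => by
    simp only [Prod.mk.injEq]) w
  vV := fun y _ => P.pv_marg N y (fun z => (y, z)) (fun u b => by
    simp only [Prod.mk.injEq]) w
  p1 := P.pv_sum N Z hw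

/-- values of the conditional laws at the true point -/
theorem pv_pair_self (X : Om → κ) (Y : Om → ι) (N : Om → ν) (u : Om) :
    P.pv N (fun v => (X v, Y v)) u (X u, Y u) = P.m (fun v => (X v, Y v, N v)) u / P.m N u := by
  rw [P.pv_self N (fun v => (X v, Y v)) u]
  congr 1
  exact P.m_congr (fun v w h => by simp only [Prod.mk.injEq] at h ⊢; tauto)
    (fun v w h => by simp only [Prod.mk.injEq] at h ⊢; tauto) u

theorem pv_triple_self (X : Om → κ) (Y : Om → ι) (Z : Om → ζ) (N : Om → ν) (u : Om) :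
    P.pv N (fun v => (X v, Y v, Z v)) u (X u, Y u, Z u) = P.m (fun v => (X v, Y v, Z v, N v)) u / P.m N u := by
  rw [P.pv_self N (fun v => (X v, Y v, Z v)) u]
  congr 1
  exact P.m_congr (fun v w h => by simp only [Prod.mk.injEq] at h ⊢; tauto)
    (fun v w h => by simp only [Prod.mk.injEq] at h ⊢; tauto) u

theorem log_J_eq (X : Om → κ) (Y : Om → ι) (N : Om → ν) {u : Om} (hu : P.p u ≠ 0) :
    Real.log (P.pv N (fun v => (X v, Y v)) u (X u, Y u) / (P.pv N X u (X u) * P.pv N Y u (Y u))) =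
      P.iota X Y N u := by
  rw [P.pv_pair_self X Y N u, P.pv_self N X u, P.pv_self N Y u]
  unfold iota
  have a := (P.m_pos N hu).ne'
  have b := (P.m_pos (fun v => (X v, N v)) hu).ne'
  have c := (P.m_pos (fun v => (Y v, N v)) hu).ne'
  congr 1
  field_simp

theorem log_j_eq (X : Om → κ) (Y : Om → ι) (Z : Om → ζ) (N : Om → ν) {u : Om} (hu : P.p u ≠ 0) :
    Real.log (P.pv N (fun v => (X v, Y v, Z v)) u (X u, Y u, Z u) /
      (P.pv N (fun v => (X v, Z v)) u (X u, Z u) * P.pv N (fun v => (Y v, Z v)) u (Y u, Z u) /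
        P.pv N Z u (Z u))) = P.iota X Y (fun v => (Z v, N v)) u := by
  rw [P.pv_triple_self X Y Z N u, P.pv_pair_self X Z N u, P.pv_pair_self Y Z N u, P.pv_self N Z u]
  unfold iota
  have a := (P.m_pos N hu).ne'
  have b := (P.m_pos (fun v => (X v, Z v, N v)) hu).ne'
  have c := (P.m_pos (fun v => (Y v, Z v, N v)) hu).ne'
  have d := (P.m_pos (fun v => (Z v, N v)) hu).ne'
  congr 1
  field_simp

theorem log_u_eq (X : Om → κ) (Z : Om → ζ) (N : Om → ν) {u : Om} (hu : P.p u ≠ 0) :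
    Real.log (P.pv N (fun v => (X v, Z v)) u (X u, Z u) / (P.pv N Z u (Z u) * P.pv N X u (X u))) =
      P.iota X Z N u := by
  rw [mul_comm]; exact P.log_J_eq X Z N hu

theorem ratio_eq (X : Om → κ) (Z : Om → ζ) (N : Om → ν) {u : Om} (hu : P.p u ≠ 0) :
    P.pv N (fun v => (X v, Z v)) u (X u, Z u) / (P.pv N Z u (Z u) * P.pv N X u (X u)) =
      P.rt X N Z u (Z u) := by
  unfold rt
  rw [P.pv_pair_self X Z N u, P.pv_self N X u, P.pv_self N Z u, P.pv_self (fun v => (X v, N v)) Z u]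
  have a := (P.m_pos N hu).ne'
  have b := (P.m_pos (fun v => (X v, N v)) hu).ne'
  have d := (P.m_pos (fun v => (Z v, N v)) hu).ne'
  have e : P.m (fun v => (Z v, X v, N v)) u = P.m (fun v => (X v, Z v, N v)) u :=
    P.m_congr (fun v w h => by simp only [Prod.mk.injEq] at h ⊢; tauto)
      (fun v w h => by simp only [Prod.mk.injEq] at h ⊢; tauto) u
  rw [e]
  field_simp

/-! ## closeness -/

theorem hel_row {X : Om → κ} {Y : Om → ι} {N : Om → ν} {w : Om} {d : ℝ}
    (h : ∀ u, P.p u ≠ 0 → N u = N w → P.hel X N Y u ≤ d) (x : κ) :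
    ∑ y ∈ vals Y, (Real.sqrt (P.pv N (fun u => (X u, Y u)) w (x, y)) -
      Real.sqrt (P.pv N X w x * P.pv N Y w y)) ^ 2 ≤ d * P.pv N X w x := by
  by_cases hx0 : P.pv N X w x = 0
  · have h1 : ∀ y ∈ vals Y, (Real.sqrt (P.pv N (fun u => (X u, Y u)) w (x, y)) -
        Real.sqrt (P.pv N X w x * P.pv N Y w y)) ^ 2 = 0 := by
      intro y hy
      have h2 : P.pv N (fun u => (X u, Y u)) w (x, y) ≤ P.pv N X w x := by
        rw [← P.pv_marg N (A := X) (B := Y) (C := fun u => (X u, Y u)) x (fun y => (x, y)) (fun u b => by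
          simp only [Prod.mk.injEq]) w]
        exact Finset.single_le_sum (f := fun y => P.pv N (fun u => (X u, Y u)) w (x, y))
          (fun _ _ => P.pv_nonneg _ _ _ _) hy
      have h3 : P.pv N (fun u => (X u, Y u)) w (x, y) = 0 := le_antisymm (hx0 ▸ h2) (P.pv_nonneg _ _ _ _)
      rw [h3, hx0]; simp
    rw [Finset.sum_congr rfl h1, hx0]; simp
  · -- a point with `X u = x` in the state of `w`
    have hex : ∃ u, P.p u ≠ 0 ∧ N u = N w ∧ X u = x := by
      by_contra hne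
      apply hx0
      unfold pv ce
      have : P.E (fun v => ind (N v = N w) * ind (X v = x)) = 0 := by
        rw [← P.E_const 0]
        refine P.E_congr (fun v hv => ?_)
        by_cases h1 : N v = N w
        · by_cases h2 : X v = x
          · exact absurd ⟨v, hv, h1, h2⟩ hne
          · rw [ind_not h2, mul_zero]
        · rw [ind_not h1, zero_mul]
      rw [this, zero_div]
    obtain ⟨u, hu, hNu, hXu⟩ := hex
    have hUpos : 0 < P.pv N X w x := lt_of_le_of_ne (P.pv_nonneg _ _ _ _) (Ne.symm hx0)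
    have e0 : P.pv N X w x = P.m (fun v => (X v, N v)) u / P.m N u := by
      rw [← P.pv_self N X u, hXu]
      exact (P.pv_fac N X x w u hNu.symm)
    have e1 : ∀ y, P.pv (fun v => (X v, N v)) Y u y * P.pv N X w x =
        P.pv N (fun v => (X v, Y v)) w (x, y) := by
      intro y
      have e9 : P.pv N (fun v => (X v, Y v)) w (x, y) = P.pv N (fun v => (X v, Y v)) u (x, y) :=
        P.pv_fac N (fun v => (X v, Y v)) (x, y) w u hNu.symm
      rw [e9, e0]
      unfold pv ce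
      have a := (P.m_pos N hu).ne'
      have b := (P.m_pos (fun v => (X v, N v)) hu).ne'
      have e2 : P.E (fun v => ind ((X v, N v) = (X u, N u)) * ind (Y v = y)) =
          P.E (fun v => ind (N v = N u) * ind ((X v, Y v) = (x, y))) := by
        refine P.E_congr (fun v _ => ?_)
        show ind ((X v, N v) = (X u, N u)) * ind (Y v = y) = ind (N v = N u) * ind ((X v, Y v) = (x, y))
        by_cases h1 : X v = x
        · by_cases h2 : N v = N u
          · by_cases h3 : Y v = y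
            · rw [ind_of (show (X v, N v) = (X u, N u) by rw [h1, h2, hXu]), ind_of h3, ind_of h2,
                ind_of (show (X v, Y v) = (x, y) by rw [h1, h3])]
            · have i1 : ind ((X v, Y v) = (x, y)) = 0 := ind_not (fun h => h3 (congrArg Prod.snd h))
              rw [ind_not h3, i1]; ring
          · have i1 : ind ((X v, N v) = (X u, N u)) = 0 := ind_not (fun h => h2 (congrArg Prod.snd h))
            rw [ind_not h2, i1]; ring
        · have i1 : ind ((X v, N v) = (X u, N u)) = 0 :=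
            ind_not (fun h => h1 ((congrArg Prod.fst h).trans hXu))
          have i2 : ind ((X v, Y v) = (x, y)) = 0 := ind_not (fun h => h1 (congrArg Prod.fst h))
          rw [i1, i2]; ring
      rw [e2]
      field_simp
    have hcell : ∀ y ∈ vals Y, (Real.sqrt (P.pv N (fun u => (X u, Y u)) w (x, y)) -
        Real.sqrt (P.pv N X w x * P.pv N Y w y)) ^ 2 =
        P.pv N X w x * (P.pv N Y u y * (Real.sqrt (P.rt X N Y u y) - 1) ^ 2) := by
      intro y _
      have hV : P.pv N Y w y = P.pv N Y u y := P.pv_fac N Y y w u hNu.symm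
      rw [← e1 y, hV]
      set U := P.pv N X w x
      set V := P.pv N Y u y with hVd
      set c := P.pv (fun v => (X v, N v)) Y u y with hc
      have hV0 : 0 ≤ V := P.pv_nonneg _ _ _ _
      have hc0 : 0 ≤ c := P.pv_nonneg _ _ _ _
      unfold rt
      rw [← hVd, ← hc]
      by_cases hVz : V = 0
      · have hcz : c = 0 := P.pv_ac (Fac.snd X N) Y hVz
        rw [hVz, hcz]; simp
      · have hVp : 0 < V := lt_of_le_of_ne hV0 (Ne.symm hVz)
        rw [Real.sqrt_mul hc0, Real.sqrt_mul hUpos.le, Real.sqrt_div hc0]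
        have s1 : Real.sqrt U ^ 2 = U := Real.sq_sqrt hUpos.le
        have s2 : Real.sqrt V ^ 2 = V := Real.sq_sqrt hV0
        have s3 : Real.sqrt V ≠ 0 := (Real.sqrt_pos.2 hVp).ne'
        have e3 : V * (Real.sqrt c / Real.sqrt V - 1) ^ 2 = (Real.sqrt c - Real.sqrt V) ^ 2 := by
          have : Real.sqrt c / Real.sqrt V - 1 = (Real.sqrt c - Real.sqrt V) / Real.sqrt V := by
            field_simp
          rw [this, div_pow, s2]
          field_simp
        rw [e3]
        calc (Real.sqrt c * Real.sqrt U - Real.sqrt U * Real.sqrt V) ^ 2 =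
            Real.sqrt U ^ 2 * (Real.sqrt c - Real.sqrt V) ^ 2 := by ring
          _ = _ := by rw [s1]
    rw [Finset.sum_congr rfl hcell, ← Finset.mul_sum, mul_comm d]
    exact mul_le_mul_of_nonneg_left (h u hu hNu) hUpos.le

/-- a function of `(X,N)` as a function of the value of `X`, in one state -/
theorem exists_lift {X : Om → κ} {N : Om → ν} {l : Om → ℝ} (hl : Fac (fun u => (X u, N u)) l) (w : Om) :
    ∃ l' : κ → ℝ, ∀ u, N u = N w → l u = l' (X u) := by
  classical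
  refine ⟨fun x => if h : ∃ u, X u = x ∧ N u = N w then l h.choose else 0, fun u hu => ?_⟩
  have hex : ∃ v, X v = X u ∧ N v = N w := ⟨u, rfl, hu⟩
  simp only [hex, dif_pos]
  have h1 := hex.choose_spec
  exact (hl _ _ (by simp only [Prod.mk.injEq]; exact ⟨h1.1, h1.2.trans hu.symm⟩)).symm

/-- conditional expectations only see the state -/
theorem ce_congr_state {N : Om → ν} {f g : Om → ℝ} {w : Om} (h : ∀ u, P.p u ≠ 0 → N u = N w → f u = g u) :
    P.ce N f w = P.ce N g w := by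
  unfold ce
  congr 1
  refine P.E_congr (fun u hu => ?_)
  by_cases hN : N u = N w
  · rw [h u hu hN]
  · rw [ind_not hN]; ring

theorem ce_mono_state {N : Om → ν} {f g : Om → ℝ} {w : Om} (h : ∀ u, P.p u ≠ 0 → N u = N w → f u ≤ g u) :
    P.ce N f w ≤ P.ce N g w := by
  unfold ce
  refine div_le_div_of_nonneg_right (P.E_mono (fun u hu => ?_)) (P.m_nonneg N w)
  by_cases hN : N u = N w
  · rw [ind_of hN, one_mul, one_mul]; exact h u hu hN
  · rw [ind_not hN, zero_mul, zero_mul]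

/-- COVARIANCE LEMMA -/
theorem close_cov {X : Om → κ} {Y : Om → ι} {N : Om → ν} {w : Om} (hw : P.p w ≠ 0) {d : ℝ} (hd : 0 ≤ d)
    (hXY : ∀ u, P.p u ≠ 0 → N u = N w → P.hel X N Y u ≤ d)
    (hYX : ∀ u, P.p u ≠ 0 → N u = N w → P.hel Y N X u ≤ d)
    {l k : Om → ℝ} (hl : Fac (fun u => (X u, N u)) l) (hk : Fac (fun u => (Y u, N u)) k) :
    |P.ce N (fun u => l u * k u) w - P.ce N l w * P.ce N k w| ≤
      kd d * (Real.sqrt (P.ce N (fun u => l u ^ 2) w) * Real.sqrt (P.ce N (fun u => k u ^ 2) w)) := by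
  obtain ⟨l', hl'⟩ := exists_lift hl w
  obtain ⟨k', hk'⟩ := exists_lift hk w
  set t := P.tab X Y N N hw with ht
  have hJV : ∀ x y, P.pv N (fun u => (Y u, X u)) w (y, x) = P.pv N (fun u => (X u, Y u)) w (x, y) := by
    intro x y
    unfold pv
    refine P.ce_congr_state (fun u _ _ => ?_)
    show ind ((Y u, X u) = (y, x)) = ind ((X u, Y u) = (x, y))
    by_cases h : X u = x ∧ Y u = y
    · rw [ind_of (show (Y u, X u) = (y, x) by rw [h.1, h.2]), ind_of (show (X u, Y u) = (x, y) by rw [h.1, h.2])]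
    · rw [ind_not (fun h' => h ⟨congrArg Prod.snd h', congrArg Prod.fst h'⟩),
        ind_not (fun h' => h ⟨congrArg Prod.fst h', congrArg Prod.snd h'⟩)]
  have c := cov_abs (SX := vals X) (SY := vals Y) (J := t.J) (U := t.U) (V := t.V)
    (fun x hx y hy => t.J_nn hx hy) (fun x hx => t.U_nn hx) (fun y hy => t.V_nn hy) t.U1 hd
    (fun x _ => P.hel_row hXY x)
    (fun y _ => by
      have h := P.hel_row hYX y
      refine le_trans (le_of_eq (Finset.sum_congr rfl (fun x _ => ?_))) h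
      show (Real.sqrt (P.pv N (fun u => (X u, Y u)) w (x, y)) - Real.sqrt (P.pv N X w x * P.pv N Y w y)) ^ 2 = _
      rw [hJV x y, mul_comm (P.pv N Y w y)]) l' k'
  -- second moments
  have e1 : ∑ x ∈ vals X, t.U x * l' x ^ 2 = P.ce N (fun u => l u ^ 2) w := by
    have h := P.sum_pv (W := N) X (F := fun _ x => l' x ^ 2) (fun _ => Fac.const _ _) w
    exact h.trans (P.ce_congr_state (fun u _ hN => by rw [hl' u hN]))
  have e2 : ∑ y ∈ vals Y, t.V y * k' y ^ 2 = P.ce N (fun u => k u ^ 2) w := by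
    have h := P.sum_pv (W := N) Y (F := fun _ y => k' y ^ 2) (fun _ => Fac.const _ _) w
    exact h.trans (P.ce_congr_state (fun u _ hN => by rw [hk' u hN]))
  have e3 : ∑ x ∈ vals X, t.U x * l' x = P.ce N l w := by
    have h := P.sum_pv (W := N) X (F := fun _ x => l' x) (fun _ => Fac.const _ _) w
    exact h.trans (P.ce_congr_state (fun u _ hN => (hl' u hN).symm))
  have e4 : ∑ y ∈ vals Y, t.V y * k' y = P.ce N k w := by
    have h := P.sum_pv (W := N) Y (F := fun _ y => k' y) (fun _ => Fac.const _ _) w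
    exact h.trans (P.ce_congr_state (fun u _ hN => (hk' u hN).symm))
  have e5 : ∑ x ∈ vals X, ∑ y ∈ vals Y, t.J x y * (l' x * k' y) = P.ce N (fun u => l u * k u) w := by
    have h := P.sum2 (N := N) X Y (F := fun _ x y => l' x * k' y) (fun _ _ => Fac.const _ _) w
    have h' : ∑ x ∈ vals X, ∑ y ∈ vals Y, t.J x y * (l' x * k' y) =
        P.ce N (fun u => l' (X u) * k' (Y u)) w := h
    rw [h']
    exact (P.ce_congr_state (fun u _ hN => by rw [hl' u hN, hk' u hN])).symm
  rw [e1, e2] at c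
  refine le_trans ?_ c
  rw [← e3, ← e4, ← e5, Finset.sum_mul_sum, ← Finset.sum_sub_distrib]
  refine (Finset.abs_sum_le_sum_abs _ _).trans (Finset.sum_le_sum (fun x _ => ?_))
  rw [← Finset.sum_sub_distrib]
  refine (Finset.abs_sum_le_sum_abs _ _).trans (Finset.sum_le_sum (fun y _ => le_of_eq ?_))
  rw [← abs_mul, ← abs_mul]
  congr 1
  ring

theorem pv_swap (X : Om → κ) (Y : Om → ι) (N : Om → ν) (w : Om) (x : κ) (y : ι) :
    P.pv N (fun u => (Y u, X u)) w (y, x) = P.pv N (fun u => (X u, Y u)) w (x, y) := by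
  unfold pv
  refine P.ce_congr_state (fun u _ _ => ?_)
  show ind ((Y u, X u) = (y, x)) = ind ((X u, Y u) = (x, y))
  by_cases h : X u = x ∧ Y u = y
  · rw [ind_of (show (Y u, X u) = (y, x) by rw [h.1, h.2]), ind_of (show (X u, Y u) = (x, y) by rw [h.1, h.2])]
  · rw [ind_not (fun h' => h ⟨congrArg Prod.snd h', congrArg Prod.fst h'⟩),
      ind_not (fun h' => h ⟨congrArg Prod.fst h', congrArg Prod.snd h'⟩)]

theorem sum_kk_J (X : Om → κ) (Y : Om → ι) (Z : Om → ζ) (N : Om → ν) {w : Om} (hw : P.p w ≠ 0) :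
    ∑ x ∈ vals X, ∑ y ∈ vals Y, kk ((P.tab X Y Z N hw).J x y) ((P.tab X Y Z N hw).U x * (P.tab X Y Z N hw).V y) =
      P.ce N (P.iota X Y N) w := by
  set t := P.tab X Y Z N hw with ht
  have e1 : ∑ x ∈ vals X, ∑ y ∈ vals Y, kk (t.J x y) (t.U x * t.V y) =
      ∑ x ∈ vals X, ∑ y ∈ vals Y, t.J x y * Real.log (t.J x y / (t.U x * t.V y)) -
        ∑ x ∈ vals X, ∑ y ∈ vals Y, t.J x y + ∑ x ∈ vals X, ∑ y ∈ vals Y, t.U x * t.V y := by
    rw [← Finset.sum_sub_distrib, ← Finset.sum_add_distrib]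
    refine Finset.sum_congr rfl (fun x _ => ?_)
    rw [← Finset.sum_sub_distrib, ← Finset.sum_add_distrib]
    rfl
  have e2 : ∑ x ∈ vals X, ∑ y ∈ vals Y, t.J x y = 1 := by
    rw [Finset.sum_congr rfl (fun x hx => t.J_U hx), t.U1]
  have e3 : ∑ x ∈ vals X, ∑ y ∈ vals Y, t.U x * t.V y = 1 := by
    rw [← Finset.sum_mul_sum, t.U1, t.V1, one_mul]
  rw [e1, e2, e3, sub_add_cancel]
  have hF : ∀ x y, Fac N (fun u => Real.log (P.pv N (fun v => (X v, Y v)) u (x, y) /
      (P.pv N X u x * P.pv N Y u y))) := fun x y =>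
    (P.pv_fac N (fun v => (X v, Y v)) (x, y)).comp₂ ((P.pv_fac N X x).mul (P.pv_fac N Y y))
      (fun a b => Real.log (a / b))
  refine (P.sum2 (N := N) X Y hF w).trans (P.ce_congr_state (fun u hu _ => ?_))
  exact P.log_J_eq X Y N hu

theorem sum_kk_j (X : Om → κ) (Y : Om → ι) (Z : Om → ζ) (N : Om → ν) {w : Om} (hw : P.p w ≠ 0) :
    ∑ x ∈ vals X, ∑ y ∈ vals Y, ∑ z ∈ vals Z, kk ((P.tab X Y Z N hw).j x y z)
      ((P.tab X Y Z N hw).u x z * (P.tab X Y Z N hw).v y z / (P.tab X Y Z N hw).p z) =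
      P.ce N (P.iota X Y (fun u => (Z u, N u))) w := by
  set t := P.tab X Y Z N hw with ht
  have e1 : ∑ x ∈ vals X, ∑ y ∈ vals Y, ∑ z ∈ vals Z, kk (t.j x y z) (t.u x z * t.v y z / t.p z) =
      ∑ x ∈ vals X, ∑ y ∈ vals Y, ∑ z ∈ vals Z, t.j x y z * Real.log (t.j x y z / (t.u x z * t.v y z / t.p z)) -
        ∑ x ∈ vals X, ∑ y ∈ vals Y, ∑ z ∈ vals Z, t.j x y z +
        ∑ x ∈ vals X, ∑ y ∈ vals Y, ∑ z ∈ vals Z, t.u x z * t.v y z / t.p z := by
    rw [← Finset.sum_sub_distrib, ← Finset.sum_add_distrib]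
    refine Finset.sum_congr rfl (fun x _ => ?_)
    rw [← Finset.sum_sub_distrib, ← Finset.sum_add_distrib]
    refine Finset.sum_congr rfl (fun y _ => ?_)
    rw [← Finset.sum_sub_distrib, ← Finset.sum_add_distrib]
    rfl
  have e2 : ∑ x ∈ vals X, ∑ y ∈ vals Y, ∑ z ∈ vals Z, t.j x y z = 1 := by
    rw [Finset.sum_congr rfl (fun x hx => Finset.sum_congr rfl (fun y hy => t.jJ x hx y hy)),
      Finset.sum_congr rfl (fun x hx => t.J_U hx), t.U1]
  have e3 : ∑ x ∈ vals X, ∑ y ∈ vals Y, ∑ z ∈ vals Z, t.u x z * t.v y z / t.p z = 1 := by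
    have h1 : ∀ x ∈ vals X, ∑ y ∈ vals Y, ∑ z ∈ vals Z, t.u x z * t.v y z / t.p z =
        ∑ z ∈ vals Z, ∑ y ∈ vals Y, t.u x z * t.v y z / t.p z := fun x _ => Finset.sum_comm
    rw [Finset.sum_congr rfl h1, Finset.sum_comm, ← t.p1]
    refine Finset.sum_congr rfl (fun z hz => ?_)
    have h2 : ∑ x ∈ vals X, ∑ y ∈ vals Y, t.u x z * t.v y z / t.p z =
        (∑ x ∈ vals X, t.u x z) * (∑ y ∈ vals Y, t.v y z) / t.p z := by
      rw [Finset.sum_mul_sum, Finset.sum_div]
      exact Finset.sum_congr rfl (fun x _ => by rw [Finset.sum_div])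
    rw [h2, t.up z hz, t.vp z hz]
    by_cases hp : t.p z = 0
    · rw [hp]; simp
    · field_simp
  rw [e1, e2, e3, sub_add_cancel]
  have hF : ∀ x y z, Fac N (fun u => Real.log (P.pv N (fun v => (X v, Y v, Z v)) u (x, y, z) /
      (P.pv N (fun v => (X v, Z v)) u (x, z) * P.pv N (fun v => (Y v, Z v)) u (y, z) / P.pv N Z u z))) :=
    fun x y z =>
    (P.pv_fac N (fun v => (X v, Y v, Z v)) (x, y, z)).comp₂
      (((P.pv_fac N (fun v => (X v, Z v)) (x, z)).mul (P.pv_fac N (fun v => (Y v, Z v)) (y, z))).comp₂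
        (P.pv_fac N Z z) (fun a b => a / b))
      (fun a b => Real.log (a / b))
  refine (P.sum3 (N := N) X Y Z hF w).trans (P.ce_congr_state (fun u hu _ => ?_))
  exact P.log_j_eq X Y Z N hu

theorem sum_kk_u (X : Om → κ) (Z : Om → ζ) (N : Om → ν) {w : Om} (hw : P.p w ≠ 0) :
    ∑ z ∈ vals Z, ∑ x ∈ vals X, kk (P.pv N (fun u => (X u, Z u)) w (x, z)) (P.pv N Z w z * P.pv N X w x) =
      P.ce N (P.iota X Z N) w := by
  have h := P.sum_kk_J X Z N N hw
  rw [← h, Finset.sum_comm]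
  refine Finset.sum_congr rfl (fun x _ => Finset.sum_congr rfl (fun z _ => ?_))
  rw [mul_comm]
  rfl

/-- KEY (3.3), pointwise in the state -/
theorem key_state (X : Om → κ) (Y : Om → ι) (Z : Om → ζ) (N : Om → ν) {w : Om} (hw : P.p w ≠ 0) {B d : ℝ}
    (hB : Real.exp 2 ≤ B) (hd : 0 ≤ d)
    (hXY : ∀ u, P.p u ≠ 0 → N u = N w → P.hel X N Y u ≤ d)
    (hYX : ∀ u, P.p u ≠ 0 → N u = N w → P.hel Y N X u ≤ d)
    {T : Om → Prop} (hT : ∀ u v, (Z u, N u) = (Z v, N v) → (T u ↔ T v)) :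
    P.ce N (P.iota X Y N) w - P.ce N (P.iota X Y (fun u => (Z u, N u))) w ≤
      2 * kd d * B * (P.ce N (P.iota X Z N) w + P.ce N (P.iota Y Z N) w) +
      P.ce N (fun u => ind (T u ∨ (B < P.rt X N Z u (Z u) ∧ B < P.rt Y N Z u (Z u))) * P.iota X Y N u) w := by
  set t := P.tab X Y Z N hw with ht
  set T' : ζ → Prop := fun z => ∃ u, N u = N w ∧ Z u = z ∧ T u with hT'
  have hTT : ∀ u, N u = N w → (T' (Z u) ↔ T u) := by
    intro u hu
    constructor
    · rintro ⟨v, hv1, hv2, hv3⟩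
      exact (hT v u (by rw [hv2, hv1, hu])).1 hv3
    · intro h
      exact ⟨u, hu, rfl, h⟩
  have hk := t.key hB hd (fun x _ => P.hel_row hXY x)
    (fun y _ => by
      have h := P.hel_row hYX y
      refine le_trans (le_of_eq (Finset.sum_congr rfl (fun x _ => ?_))) h
      show (Real.sqrt (P.pv N (fun u => (X u, Y u)) w (x, y)) - Real.sqrt (P.pv N X w x * P.pv N Y w y)) ^ 2 = _
      rw [P.pv_swap X Y N w x y, mul_comm (P.pv N Y w y)]) T'
  have e1 := P.sum_kk_J X Y Z N hw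
  have e2 := P.sum_kk_j X Y Z N hw
  have e3 : ∑ z ∈ vals Z, ∑ x ∈ vals X, kk (t.u x z) (t.p z * t.U x) = P.ce N (P.iota X Z N) w :=
    P.sum_kk_u X Z N hw
  have e4 : ∑ z ∈ vals Z, ∑ y ∈ vals Y, kk (t.v y z) (t.p z * t.V y) = P.ce N (P.iota Y Z N) w :=
    P.sum_kk_u Y Z N hw
  have e5 : ∑ x ∈ vals X, ∑ y ∈ vals Y, ∑ z ∈ vals Z,
        ind (¬ (¬ T' z ∧ ¬ (B < t.u x z / (t.p z * t.U x) ∧ B < t.v y z / (t.p z * t.V y)))) *
          (t.j x y z * Real.log (t.J x y / (t.U x * t.V y))) =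
      P.ce N (fun u => ind (T u ∨ (B < P.rt X N Z u (Z u) ∧ B < P.rt Y N Z u (Z u))) * P.iota X Y N u) w := by
    have hF : ∀ x y z, Fac N (fun u => ind (¬ (¬ T' z ∧ ¬ (B < P.pv N (fun v => (X v, Z v)) u (x, z) /
        (P.pv N Z u z * P.pv N X u x) ∧ B < P.pv N (fun v => (Y v, Z v)) u (y, z) /
        (P.pv N Z u z * P.pv N Y u y)))) * Real.log (P.pv N (fun v => (X v, Y v)) u (x, y) /
          (P.pv N X u x * P.pv N Y u y))) := by
      intro x y z a b hab
      have a1 : P.pv N (fun v => (X v, Z v)) a (x, z) = P.pv N (fun v => (X v, Z v)) b (x, z) :=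
        P.pv_fac N (fun v => (X v, Z v)) (x, z) a b hab
      have a2 : P.pv N (fun v => (Y v, Z v)) a (y, z) = P.pv N (fun v => (Y v, Z v)) b (y, z) :=
        P.pv_fac N (fun v => (Y v, Z v)) (y, z) a b hab
      have a3 : P.pv N Z a z = P.pv N Z b z := P.pv_fac N Z z a b hab
      have a4 : P.pv N X a x = P.pv N X b x := P.pv_fac N X x a b hab
      have a5 : P.pv N Y a y = P.pv N Y b y := P.pv_fac N Y y a b hab
      have a6 : P.pv N (fun v => (X v, Y v)) a (x, y) = P.pv N (fun v => (X v, Y v)) b (x, y) :=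
        P.pv_fac N (fun v => (X v, Y v)) (x, y) a b hab
      show ind _ * _ = ind _ * _
      rw [a1, a2, a3, a4, a5, a6]
    have h := P.sum3 (N := N) X Y Z hF w
    have h' : ∑ x ∈ vals X, ∑ y ∈ vals Y, ∑ z ∈ vals Z,
        ind (¬ (¬ T' z ∧ ¬ (B < t.u x z / (t.p z * t.U x) ∧ B < t.v y z / (t.p z * t.V y)))) *
          (t.j x y z * Real.log (t.J x y / (t.U x * t.V y))) =
        ∑ x ∈ vals X, ∑ y ∈ vals Y, ∑ z ∈ vals Z, P.pv N (fun u => (X u, Y u, Z u)) w (x, y, z) *
        (ind (¬ (¬ T' z ∧ ¬ (B < P.pv N (fun v => (X v, Z v)) w (x, z) /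
        (P.pv N Z w z * P.pv N X w x) ∧ B < P.pv N (fun v => (Y v, Z v)) w (y, z) /
        (P.pv N Z w z * P.pv N Y w y)))) * Real.log (P.pv N (fun v => (X v, Y v)) w (x, y) /
          (P.pv N X w x * P.pv N Y w y))) := by
      refine Finset.sum_congr rfl (fun x _ => Finset.sum_congr rfl (fun y _ => Finset.sum_congr rfl
        (fun z _ => ?_)))
      show ind _ * (P.pv N (fun u => (X u, Y u, Z u)) w (x, y, z) * _) = _
      exact mul_left_comm _ _ _
    rw [h', h]
    refine P.ce_congr_state (fun u hu hN => ?_)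
    rw [P.log_J_eq X Y N hu, P.ratio_eq X Z N hu, P.ratio_eq Y Z N hu]
    congr 2
    apply propext
    rw [hTT u hN]
    tauto
  rw [e1, e2, e3, e4, e5] at hk
  exact hk

/-- KEY with a weight `θ` (a function of the state): only the states with `θ ≠ 0` must be close -/
theorem key_w (X : Om → κ) (Y : Om → ι) (Z : Om → ζ) (N : Om → ν) {θ : Om → ℝ} (hθ : Fac N θ)
    (hθ0 : ∀ w, P.p w ≠ 0 → 0 ≤ θ w) {B d : ℝ} (hB : Real.exp 2 ≤ B) (hd : 0 ≤ d)
    (hXY : ∀ u, P.p u ≠ 0 → θ u ≠ 0 → P.hel X N Y u ≤ d)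
    (hYX : ∀ u, P.p u ≠ 0 → θ u ≠ 0 → P.hel Y N X u ≤ d)
    {T : Om → Prop} (hT : ∀ u v, (Z u, N u) = (Z v, N v) → (T u ↔ T v)) :
    P.E (fun w => θ w * P.iota X Y N w) - P.E (fun w => θ w * P.iota X Y (fun u => (Z u, N u)) w) ≤
      2 * kd d * B * (P.E (fun w => θ w * P.iota X Z N w) + P.E (fun w => θ w * P.iota Y Z N w)) +
      P.E (fun w => θ w * (ind (T w ∨ (B < P.rt X N Z w (Z w) ∧ B < P.rt Y N Z w (Z w))) * P.iota X Y N w)) := by
  rw [← P.E_mul_ce hθ (P.iota X Y N), ← P.E_mul_ce hθ (P.iota X Y (fun u => (Z u, N u))),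
    ← P.E_mul_ce hθ (P.iota X Z N), ← P.E_mul_ce hθ (P.iota Y Z N),
    ← P.E_mul_ce hθ (fun w => ind (T w ∨ (B < P.rt X N Z w (Z w) ∧ B < P.rt Y N Z w (Z w))) * P.iota X Y N w)]
  rw [← P.E_sub, ← P.E_add, ← P.E_smul, ← P.E_add]
  refine P.E_mono (fun w hw => ?_)
  by_cases h0 : θ w = 0
  · rw [h0]; simp
  · have h := P.key_state X Y Z N hw hB hd
      (fun u hu hN => hXY u hu (by rw [hθ u w hN]; exact h0))
      (fun u hu hN => hYX u hu (by rw [hθ u w hN]; exact h0)) hT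
    have h1 := mul_le_mul_of_nonneg_left h (hθ0 w hw)
    calc _ = θ w * (P.ce N (P.iota X Y N) w - P.ce N (P.iota X Y (fun u => (Z u, N u))) w) := by ring
      _ ≤ _ := h1
      _ = _ := by ring

theorem ce_iota_nonneg (X : Om → κ) (Y : Om → ι) (N : Om → ν) {w : Om} (hw : P.p w ≠ 0) :
    0 ≤ P.ce N (P.iota X Y N) w := by
  rw [← P.sum_kk_J X Y N N hw]
  exact Finset.sum_nonneg (fun x hx => Finset.sum_nonneg (fun y hy =>
    kk_nonneg ((P.tab X Y N N hw).J_nn hx hy)
      (mul_nonneg ((P.tab X Y N N hw).U_nn hx) ((P.tab X Y N N hw).V_nn hy))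
      ((P.tab X Y N N hw).J_zero hx hy)))

theorem ce_iota_nonneg' (X : Om → κ) (Y : Om → ι) (Z : Om → ζ) (N : Om → ν) {w : Om} (hw : P.p w ≠ 0) :
    0 ≤ P.ce N (P.iota X Y (fun u => (Z u, N u))) w := by
  rw [← P.sum_kk_j X Y Z N hw]
  exact Finset.sum_nonneg (fun x hx => Finset.sum_nonneg (fun y hy => Finset.sum_nonneg (fun z hz =>
    kk_nonneg ((P.tab X Y Z N hw).nn x y z) ((P.tab X Y Z N hw).uvp_nn hx hy hz)
      ((P.tab X Y Z N hw).j_zero hx hy hz))))

/-- KEY with a weight and with exceptional states `Tn` (nothing is known there; they are part of the big event `T`) -/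
theorem key_exc (X : Om → κ) (Y : Om → ι) (Z : Om → ζ) (N : Om → ν) {θ : Om → ℝ} (hθ : Fac N θ)
    (hθ0 : ∀ w, P.p w ≠ 0 → 0 ≤ θ w) {B d : ℝ} (hB : Real.exp 2 ≤ B) (hd : 0 ≤ d)
    {Tn T : Om → Prop} (hTn : ∀ u v, N u = N v → (Tn u ↔ Tn v)) (hsub : ∀ u, Tn u → T u)
    (hXY : ∀ u, P.p u ≠ 0 → θ u ≠ 0 → ¬ Tn u → P.hel X N Y u ≤ d)
    (hYX : ∀ u, P.p u ≠ 0 → θ u ≠ 0 → ¬ Tn u → P.hel Y N X u ≤ d)
    (hT : ∀ u v, (Z u, N u) = (Z v, N v) → (T u ↔ T v)) :
    P.E (fun w => θ w * P.iota X Y N w) - P.E (fun w => θ w * P.iota X Y (fun u => (Z u, N u)) w) ≤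
      2 * kd d * B * (P.E (fun w => θ w * P.iota X Z N w) + P.E (fun w => θ w * P.iota Y Z N w)) +
      P.E (fun w => θ w * (ind (T w ∨ (B < P.rt X N Z w (Z w) ∧ B < P.rt Y N Z w (Z w))) * P.iota X Y N w)) := by
  have hB0 : 0 ≤ B := by
    have := Real.add_one_le_exp 2
    linarith
  have hkd := kd_nonneg hd
  rw [← P.E_mul_ce hθ (P.iota X Y N), ← P.E_mul_ce hθ (P.iota X Y (fun u => (Z u, N u))),
    ← P.E_mul_ce hθ (P.iota X Z N), ← P.E_mul_ce hθ (P.iota Y Z N),
    ← P.E_mul_ce hθ (fun w => ind (T w ∨ (B < P.rt X N Z w (Z w) ∧ B < P.rt Y N Z w (Z w))) * P.iota X Y N w)]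
  rw [← P.E_sub, ← P.E_add, ← P.E_smul, ← P.E_add]
  refine P.E_mono (fun w hw => ?_)
  by_cases h0 : θ w = 0
  · rw [h0]; simp
  · have h : P.ce N (P.iota X Y N) w - P.ce N (P.iota X Y (fun u => (Z u, N u))) w ≤
        2 * kd d * B * (P.ce N (P.iota X Z N) w + P.ce N (P.iota Y Z N) w) +
        P.ce N (fun u => ind (T u ∨ (B < P.rt X N Z u (Z u) ∧ B < P.rt Y N Z u (Z u))) * P.iota X Y N u) w := by
      by_cases hw2 : Tn w
      · have e1 : P.ce N (fun u => ind (T u ∨ (B < P.rt X N Z u (Z u) ∧ B < P.rt Y N Z u (Z u))) *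
            P.iota X Y N u) w = P.ce N (P.iota X Y N) w := by
          refine P.ce_congr_state (fun u _ hN => ?_)
          rw [ind_of (Or.inl (hsub u ((hTn u w hN).2 hw2))), one_mul]
        rw [e1]
        have h1 := P.ce_iota_nonneg' X Y Z N hw
        have h2 := P.ce_iota_nonneg X Z N hw
        have h3 := P.ce_iota_nonneg Y Z N hw
        have h4 : 0 ≤ 2 * kd d * B * (P.ce N (P.iota X Z N) w + P.ce N (P.iota Y Z N) w) := by positivity
        linarith
      · exact P.key_state X Y Z N hw hB hd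
          (fun u hu hN => hXY u hu (by rw [hθ u w hN]; exact h0) (fun h => hw2 ((hTn u w hN).1 h)))
          (fun u hu hN => hYX u hu (by rw [hθ u w hN]; exact h0) (fun h => hw2 ((hTn u w hN).1 h))) hT
    have h1 := mul_le_mul_of_nonneg_left h (hθ0 w hw)
    calc _ = θ w * (P.ce N (P.iota X Y N) w - P.ce N (P.iota X Y (fun u => (Z u, N u))) w) := by ring
      _ ≤ _ := h1
      _ = _ := by ring

/-- the same without weight, with mutual informations -/
theorem key_I (X : Om → κ) (Y : Om → ι) (Z : Om → ζ) (N : Om → ν) {B d : ℝ} (hB : Real.exp 2 ≤ B) (hd : 0 ≤ d)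
    {Tn T : Om → Prop} (hTn : ∀ u v, N u = N v → (Tn u ↔ Tn v)) (hsub : ∀ u, Tn u → T u)
    (hXY : ∀ u, P.p u ≠ 0 → ¬ Tn u → P.hel X N Y u ≤ d)
    (hYX : ∀ u, P.p u ≠ 0 → ¬ Tn u → P.hel Y N X u ≤ d)
    (hT : ∀ u v, (Z u, N u) = (Z v, N v) → (T u ↔ T v)) :
    P.I X Y N - P.I X Y (fun u => (Z u, N u)) ≤ 2 * kd d * B * (P.I X Z N + P.I Y Z N) +
      P.E (fun w => ind (T w ∨ (B < P.rt X N Z w (Z w) ∧ B < P.rt Y N Z w (Z w))) * P.iota X Y N w) := by
  have h := P.key_exc X Y Z N (θ := fun _ => 1) (Fac.const _ _) (fun _ _ => zero_le_one) hB hd hTn hsub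
    (fun u hu _ => hXY u hu) (fun u hu _ => hYX u hu) hT
  simp only [one_mul] at h
  have e1 : P.E (fun w => P.iota X Y N w) = P.I X Y N := P.E_iota X Y N
  have e2 : P.E (fun w => P.iota X Y (fun u => (Z u, N u)) w) = P.I X Y (fun u => (Z u, N u)) := P.E_iota _ _ _
  have e3 : P.E (fun w => P.iota X Z N w) = P.I X Z N := P.E_iota _ _ _
  have e4 : P.E (fun w => P.iota Y Z N w) = P.I Y Z N := P.E_iota _ _ _
  rw [e1, e2, e3, e4] at h
  exact h

/-! ## weights: tilting by a function of the state -/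

/-- the law with density `θ / E θ` -/
noncomputable def tilt {θ : Om → ℝ} (hθ0 : ∀ w, 0 ≤ θ w) (hE : 0 < P.E θ) : FP Om where
  p := fun w => P.p w * θ w / P.E θ
  nn := fun w => div_nonneg (mul_nonneg (P.nn w) (hθ0 w)) hE.le
  tot := by
    rw [← Finset.sum_div]
    exact div_self hE.ne'

section tilt

variable {θ : Om → ℝ} (hθ0 : ∀ w, 0 ≤ θ w) (hE : 0 < P.E θ)

theorem tilt_E (f : Om → ℝ) : (P.tilt hθ0 hE).E f = P.E (fun w => θ w * f w) / P.E θ := by
  unfold E
  rw [Finset.sum_div]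
  refine Finset.sum_congr rfl (fun w _ => ?_)
  show P.p w * θ w / P.E θ * f w = P.p w * (θ w * f w) / P.E θ
  ring

theorem tilt_ne {w : Om} (hw : (P.tilt hθ0 hE).p w ≠ 0) : P.p w ≠ 0 ∧ θ w ≠ 0 := by
  constructor
  · intro h
    apply hw
    show P.p w * θ w / P.E θ = 0
    rw [h]; simp
  · intro h
    apply hw
    show P.p w * θ w / P.E θ = 0
    rw [h]; simp

theorem tilt_Ef {α : Type*} {K : Om → α} (hK : Fac K θ) (f : Om → ℝ) (w : Om) :
    (P.tilt hθ0 hE).E (fun v => ind (K v = K w) * f v) = θ w * P.E (fun v => ind (K v = K w) * f v) / P.E θ := by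
  rw [tilt_E, ← E_smul]
  congr 1
  refine P.E_congr (fun v _ => ?_)
  show θ v * (ind (K v = K w) * f v) = θ w * (ind (K v = K w) * f v)
  by_cases h : K v = K w
  · rw [hK v w h]
  · rw [ind_not h]; ring

theorem tilt_m {α : Type*} {K : Om → α} (hK : Fac K θ) (w : Om) :
    (P.tilt hθ0 hE).m K w = θ w * P.m K w / P.E θ := by
  have h := P.tilt_Ef hθ0 hE hK (fun _ => 1) w
  simp only [mul_one] at h
  exact h

theorem tilt_ce {α : Type*} {K : Om → α} (hK : Fac K θ) (f : Om → ℝ) {w : Om} (hw : θ w ≠ 0) :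
    (P.tilt hθ0 hE).ce K f w = P.ce K f w := by
  unfold ce
  rw [P.tilt_Ef hθ0 hE hK f w, P.tilt_m hθ0 hE hK w]
  have := hE.ne'
  by_cases hm : P.m K w = 0
  · rw [hm]; simp
  · field_simp

theorem tilt_iota {N : Om → ν} (hN : Fac N θ) (X : Om → κ) (Y : Om → ι) {w : Om} (hw : θ w ≠ 0) :
    (P.tilt hθ0 hE).iota X Y N w = P.iota X Y N w := by
  unfold iota
  rw [P.tilt_m hθ0 hE hN w, P.tilt_m hθ0 hE (Fac.trans (Fac.snd X N) hN) w,
    P.tilt_m hθ0 hE (Fac.trans (Fac.snd Y N) hN) w,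
    P.tilt_m hθ0 hE (K := fun v => (X v, Y v, N v)) (fun a b h => hN a b (congrArg (fun q => q.2.2) h)) w]
  congr 1
  have := hE.ne'
  rw [show θ w * P.m (fun v => (X v, Y v, N v)) w / P.E θ * (θ w * P.m N w / P.E θ) =
    (θ w / P.E θ) ^ 2 * (P.m (fun v => (X v, Y v, N v)) w * P.m N w) by ring,
    show θ w * P.m (fun w => (X w, N w)) w / P.E θ * (θ w * P.m (fun w => (Y w, N w)) w / P.E θ) =
    (θ w / P.E θ) ^ 2 * (P.m (fun w => (X w, N w)) w * P.m (fun w => (Y w, N w)) w) by ring]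
  exact mul_div_mul_left _ _ (pow_ne_zero 2 (div_ne_zero hw this))

theorem tilt_I {N : Om → ν} (hN : Fac N θ) (X : Om → κ) (Y : Om → ι) :
    (P.tilt hθ0 hE).I X Y N = P.E (fun w => θ w * P.iota X Y N w) / P.E θ := by
  rw [← E_iota]
  rw [(P.tilt hθ0 hE).E_congr (g := P.iota X Y N)
    (fun w hw => P.tilt_iota hθ0 hE hN X Y (P.tilt_ne hθ0 hE hw).2)]
  exact P.tilt_E hθ0 hE _

end tilt

/-- the residual of the product of experts -/
noncomputable def pres (D : Om → ℝ) (X : Om → κ) (Y : Om → ι) (N : Om → ν) (w : Om) : ℝ :=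
  P.ce (fun v => (X v, Y v, N v)) D w -
    poe (P.ce N D w) (P.ce (fun v => (X v, N v)) D w) (P.ce (fun v => (Y v, N v)) D w)

theorem pres_fac (D : Om → ℝ) (X : Om → κ) (Y : Om → ι) (N : Om → ν) :
    Fac (fun v => (X v, Y v, N v)) (P.pres D X Y N) := by
  intro v w h
  simp only [Prod.mk.injEq] at h
  unfold pres
  rw [P.ce_fac (fun v => (X v, Y v, N v)) D v w (by simp only [Prod.mk.injEq]; exact h),
    P.ce_fac N D v w h.2.2, P.ce_fac (fun v => (X v, N v)) D v w (by simp only [Prod.mk.injEq]; exact ⟨h.1, h.2.2⟩),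
    P.ce_fac (fun v => (Y v, N v)) D v w (by simp only [Prod.mk.injEq]; exact ⟨h.2.1, h.2.2⟩)]

/-- `poe_bound` with a weight -/
theorem poe_bound_w {D : Om → ℝ} (hD : ∀ w, P.p w ≠ 0 → D w = 1 ∨ D w = -1) (X : Om → κ) (Y : Om → ι)
    (N : Om → ν) {θ : Om → ℝ} (hθ : Fac N θ) (hθ0 : ∀ w, 0 ≤ θ w) :
    P.E (fun w => θ w * P.pres D X Y N w ^ 2) ≤
      2 * (P.E (fun w => θ w * P.iota X Y (fun u => (D u, N u)) w) - P.E (fun w => θ w * P.iota X Y N w) +
        P.E (fun w => θ w * Real.log (zf (P.ce N D w) (P.ce (fun v => (X v, N v)) D w)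
          (P.ce (fun v => (Y v, N v)) D w)))) := by
  rcases (P.E_nonneg (fun w _ => hθ0 w)).eq_or_lt with hE | hE
  · -- zero weight
    have hz : ∀ w, P.p w ≠ 0 → θ w = 0 := by
      intro w hw
      by_contra hne
      have h1 : 0 < P.p w * θ w := mul_pos (lt_of_le_of_ne (P.nn w) (Ne.symm hw))
        (lt_of_le_of_ne (hθ0 w) (Ne.symm hne))
      have h2 : P.p w * θ w ≤ P.E θ := Finset.single_le_sum (f := fun w => P.p w * θ w)
        (fun v _ => mul_nonneg (P.nn v) (hθ0 v)) (Finset.mem_univ w)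
      linarith
    have hzero : ∀ f : Om → ℝ, P.E (fun w => θ w * f w) = 0 := by
      intro f
      rw [← P.E_const 0]
      exact P.E_congr (fun w hw => by rw [hz w hw, zero_mul])
    rw [hzero, hzero, hzero, hzero]
    norm_num
  · have h := (P.tilt hθ0 hE).poe_bound (D := D) (fun w hw => hD w (P.tilt_ne hθ0 hE hw).1) X Y N
    have hDN : Fac (fun u => (D u, N u)) θ := Fac.trans (Fac.snd D N) hθ
    rw [P.tilt_I hθ0 hE hDN, P.tilt_I hθ0 hE hθ] at h
    have e1 : (P.tilt hθ0 hE).E (fun w => ((P.tilt hθ0 hE).ce (fun v => (X v, Y v, N v)) D w -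
        poe ((P.tilt hθ0 hE).ce N D w) ((P.tilt hθ0 hE).ce (fun v => (X v, N v)) D w)
          ((P.tilt hθ0 hE).ce (fun v => (Y v, N v)) D w)) ^ 2) =
        P.E (fun w => θ w * P.pres D X Y N w ^ 2) / P.E θ := by
      rw [← P.tilt_E hθ0 hE]
      refine (P.tilt hθ0 hE).E_congr (fun w hw => ?_)
      have hw2 := (P.tilt_ne hθ0 hE hw).2
      rw [P.tilt_ce hθ0 hE hθ D hw2, P.tilt_ce hθ0 hE (Fac.trans (Fac.snd X N) hθ) D hw2,
        P.tilt_ce hθ0 hE (Fac.trans (Fac.snd Y N) hθ) D hw2,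
        P.tilt_ce hθ0 hE (K := fun v => (X v, Y v, N v))
          (fun a b h => hθ a b (congrArg (fun q => q.2.2) h)) D hw2]
      rfl
    have e2 : (P.tilt hθ0 hE).E (fun w => Real.log (zf ((P.tilt hθ0 hE).ce N D w)
        ((P.tilt hθ0 hE).ce (fun v => (X v, N v)) D w) ((P.tilt hθ0 hE).ce (fun v => (Y v, N v)) D w))) =
        P.E (fun w => θ w * Real.log (zf (P.ce N D w) (P.ce (fun v => (X v, N v)) D w)
          (P.ce (fun v => (Y v, N v)) D w))) / P.E θ := by
      rw [← P.tilt_E hθ0 hE]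
      refine (P.tilt hθ0 hE).E_congr (fun w hw => ?_)
      have hw2 := (P.tilt_ne hθ0 hE hw).2
      rw [P.tilt_ce hθ0 hE hθ D hw2, P.tilt_ce hθ0 hE (Fac.trans (Fac.snd X N) hθ) D hw2,
        P.tilt_ce hθ0 hE (Fac.trans (Fac.snd Y N) hθ) D hw2]
    rw [e1, e2, ← sub_div, ← add_div, ← mul_div_assoc] at h
    exact (div_le_div_iff_of_pos_right hE).1 h

/-- `I_digit_ge` with a weight -/
theorem I_digit_ge_w {D : Om → ℝ} (hD : ∀ w, P.p w ≠ 0 → D w = 1 ∨ D w = -1) (X : Om → κ)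
    (N : Om → ν) {θ : Om → ℝ} (hθ : Fac N θ) (hθ0 : ∀ w, 0 ≤ θ w) :
    P.E (fun w => θ w * (P.ce (fun v => (X v, N v)) D w - P.ce N D w) ^ 2) ≤
      2 * P.E (fun w => θ w * P.iota D X N w) := by
  rcases (P.E_nonneg (fun w _ => hθ0 w)).eq_or_lt with hE | hE
  · have hz : ∀ w, P.p w ≠ 0 → θ w = 0 := by
      intro w hw
      by_contra hne
      have h1 : 0 < P.p w * θ w := mul_pos (lt_of_le_of_ne (P.nn w) (Ne.symm hw))
        (lt_of_le_of_ne (hθ0 w) (Ne.symm hne))
      have h2 : P.p w * θ w ≤ P.E θ := Finset.single_le_sum (f := fun w => P.p w * θ w)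
        (fun v _ => mul_nonneg (P.nn v) (hθ0 v)) (Finset.mem_univ w)
      linarith
    have hzero : ∀ f : Om → ℝ, P.E (fun w => θ w * f w) = 0 := by
      intro f
      rw [← P.E_const 0]
      exact P.E_congr (fun w hw => by rw [hz w hw, zero_mul])
    rw [hzero, hzero]
    norm_num
  · have h := (P.tilt hθ0 hE).I_digit_ge (D := D) (fun w hw => hD w (P.tilt_ne hθ0 hE hw).1) X N
    rw [P.tilt_I hθ0 hE hθ] at h
    have e1 : (P.tilt hθ0 hE).E (fun w => ((P.tilt hθ0 hE).ce (fun v => (X v, N v)) D w -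
        (P.tilt hθ0 hE).ce N D w) ^ 2) =
        P.E (fun w => θ w * (P.ce (fun v => (X v, N v)) D w - P.ce N D w) ^ 2) / P.E θ := by
      rw [← P.tilt_E hθ0 hE]
      refine (P.tilt hθ0 hE).E_congr (fun w hw => ?_)
      have hw2 := (P.tilt_ne hθ0 hE hw).2
      rw [P.tilt_ce hθ0 hE hθ D hw2, P.tilt_ce hθ0 hE (Fac.trans (Fac.snd X N) hθ) D hw2]
    rw [e1, ← mul_div_assoc] at h
    exact (div_le_div_iff_of_pos_right hE).1 h

/-- the sum over the digit of the product of the two biases is second order (3.3 (a)) -/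
theorem log_zf_w {D : Om → ℝ} (hD : ∀ w, P.p w ≠ 0 → D w = 1 ∨ D w = -1) (X : Om → κ) (Y : Om → ι)
    (N : Om → ν) {θ : Om → ℝ} (hθ : Fac N θ) (hθ0 : ∀ w, 0 ≤ θ w) {d : ℝ} (hd : 0 ≤ d)
    (hm : ∀ w, P.p w ≠ 0 → θ w ≠ 0 → |P.ce N D w| ≤ 1 / 2)
    (hXY : ∀ u, P.p u ≠ 0 → θ u ≠ 0 → P.hel X N Y u ≤ d)
    (hYX : ∀ u, P.p u ≠ 0 → θ u ≠ 0 → P.hel Y N X u ≤ d) :
    P.E (fun w => θ w * Real.log (zf (P.ce N D w) (P.ce (fun v => (X v, N v)) D w)
      (P.ce (fun v => (Y v, N v)) D w))) ≤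
      4 / 3 * kd d * (P.E (fun w => θ w * P.iota D X N w) + P.E (fun w => θ w * P.iota D Y N w)) := by
  have hkd := kd_nonneg hd
  have hD1 : ∀ w, P.p w ≠ 0 → |D w| ≤ 1 := fun w hw => by
    rcases hD w hw with h | h <;> rw [h] <;> norm_num
  set m : Om → ℝ := P.ce N D with hmd
  set x : Om → ℝ := P.ce (fun v => (X v, N v)) D with hx
  set y : Om → ℝ := P.ce (fun v => (Y v, N v)) D with hy
  have hmF : Fac N m := P.ce_fac _ _
  set l : Om → ℝ := fun w => x w - m w with hl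
  set k : Om → ℝ := fun w => y w - m w with hk
  have hlF : Fac (fun u => (X u, N u)) l := (P.ce_fac _ _).sub ((Fac.snd X N).trans hmF)
  have hkF : Fac (fun u => (Y u, N u)) k := (P.ce_fac _ _).sub ((Fac.snd Y N).trans hmF)
  have hl0 : ∀ w, P.p w ≠ 0 → P.ce N l w = 0 := by
    intro w hw
    show P.ce N (fun w => x w - m w) w = 0
    rw [P.ce_sub, hx, P.ce_tower (Fac.snd X N), P.ce_of_fac hmF hw]
    exact sub_self _
  set g : Om → ℝ := fun w => θ w / (1 - m w ^ 2) with hg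
  have hgF : Fac N g := hθ.comp₂ hmF (fun a b => a / (1 - b ^ 2))
  -- step 1: log zf <= l k / (1 - m^2)
  have h1 : P.E (fun w => θ w * Real.log (zf (m w) (x w) (y w))) ≤ P.E (fun w => g w * (l w * k w)) := by
    refine P.E_mono (fun w hw => ?_)
    by_cases h0 : θ w = 0
    · simp only [hg, h0]; simp
    · have hmw := hm w hw h0
      have ax : |x w| ≤ 1 := P.abs_ce_le_one hD1 _ w
      have ay : |y w| ≤ 1 := P.abs_ce_le_one hD1 _ w
      have px : 0 < 1 + D w * x w := P.digit_pos hD _ hw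
      have py : 0 < 1 + D w * y w := P.digit_pos hD _ hw
      have hz : 0 < zf (m w) (x w) (y w) := by
        refine zf_pos (lt_of_le_of_lt hmw (by norm_num)) ax ay ?_
        rcases hD w hw with h | h
        · left; rw [h] at px py; constructor <;> linarith
        · right; rw [h] at px py; constructor <;> linarith
      have h2 := mul_le_mul_of_nonneg_left (log_zf_le hz) (hθ0 w)
      refine h2.trans (le_of_eq ?_)
      simp only [hg, hl, hk]
      ring
  -- step 2: condition on the state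
  have h2 : P.E (fun w => g w * (l w * k w)) ≤
      P.E (fun w => 2 / 3 * kd d * (θ w * l w ^ 2 + θ w * k w ^ 2)) := by
    rw [← P.E_mul_ce hgF (fun w => l w * k w)]
    have e1 : P.E (fun w => 2 / 3 * kd d * (θ w * l w ^ 2 + θ w * k w ^ 2)) =
        P.E (fun w => 2 / 3 * kd d * (θ w * P.ce N (fun u => l u ^ 2) w + θ w * P.ce N (fun u => k u ^ 2) w)) := by
      rw [P.E_smul, P.E_smul, P.E_add, P.E_add, P.E_mul_ce hθ, P.E_mul_ce hθ]
    rw [e1]
    refine P.E_mono (fun w hw => ?_)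
    by_cases h0 : θ w = 0
    · simp only [hg, h0]; simp
    · have hc := P.close_cov hw hd (fun u hu hN => hXY u hu (by rw [hθ u w hN]; exact h0))
        (fun u hu hN => hYX u hu (by rw [hθ u w hN]; exact h0)) hlF hkF
      rw [hl0 w hw, zero_mul, sub_zero] at hc
      have hmw := hm w hw h0
      have hm2 : m w ^ 2 ≤ 1 / 4 := by
        have := sq_abs (m w)
        nlinarith [abs_nonneg (m w)]
      set A := P.ce N (fun u => l u ^ 2) w with hA
      set B := P.ce N (fun u => k u ^ 2) w with hB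
      have hA0 : 0 ≤ A := P.ce_nonneg (fun _ _ => sq_nonneg _) w
      have hB0 : 0 ≤ B := P.ce_nonneg (fun _ _ => sq_nonneg _) w
      have hs : Real.sqrt A * Real.sqrt B ≤ (A + B) / 2 := by
        have a1 := Real.sq_sqrt hA0
        have a2 := Real.sq_sqrt hB0
        nlinarith [sq_nonneg (Real.sqrt A - Real.sqrt B)]
      have hc1 : P.ce N (fun w => l w * k w) w ≤ kd d * ((A + B) / 2) :=
        ((le_abs_self _).trans hc).trans (mul_le_mul_of_nonneg_left hs hkd)
      have hc2 : -(kd d * ((A + B) / 2)) ≤ P.ce N (fun w => l w * k w) w := by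
        have := neg_abs_le (P.ce N (fun w => l w * k w) w)
        linarith [mul_le_mul_of_nonneg_left hs hkd]
      have hg0 : 0 ≤ g w := div_nonneg (hθ0 w) (by linarith)
      have hg1 : g w ≤ 4 / 3 * θ w := by
        show θ w / (1 - m w ^ 2) ≤ 4 / 3 * θ w
        rw [div_le_iff₀ (by linarith)]
        nlinarith [hθ0 w]
      have hK : 0 ≤ kd d * ((A + B) / 2) := by positivity
      calc g w * P.ce N (fun w => l w * k w) w ≤ g w * (kd d * ((A + B) / 2)) :=
            mul_le_mul_of_nonneg_left hc1 hg0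
        _ ≤ 4 / 3 * θ w * (kd d * ((A + B) / 2)) := mul_le_mul_of_nonneg_right hg1 hK
        _ = _ := by ring
  have h3 : P.E (fun w => 2 / 3 * kd d * (θ w * l w ^ 2 + θ w * k w ^ 2)) ≤
      4 / 3 * kd d * (P.E (fun w => θ w * P.iota D X N w) + P.E (fun w => θ w * P.iota D Y N w)) := by
    rw [P.E_smul, P.E_add]
    have a1 := P.I_digit_ge_w hD X N hθ hθ0
    have a2 := P.I_digit_ge_w hD Y N hθ hθ0
    have a3 : P.E (fun w => θ w * l w ^ 2) + P.E (fun w => θ w * k w ^ 2) ≤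
        2 * (P.E (fun w => θ w * P.iota D X N w) + P.E (fun w => θ w * P.iota D Y N w)) := by
      have b1 : P.E (fun w => θ w * l w ^ 2) ≤ 2 * P.E (fun w => θ w * P.iota D X N w) := a1
      have b2 : P.E (fun w => θ w * k w ^ 2) ≤ 2 * P.E (fun w => θ w * P.iota D Y N w) := a2
      linarith
    have a4 := mul_le_mul_of_nonneg_left a3 (by positivity : 0 ≤ 2 / 3 * kd d)
    linarith
  exact (h1.trans h2).trans h3

/-- THE DIGIT (3.3 (a)): the residual `pres` of the product of experts, with a weight carried by good close states -/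
theorem digit_w {D : Om → ℝ} (hD : ∀ w, P.p w ≠ 0 → D w = 1 ∨ D w = -1) (X : Om → κ) (Y : Om → ι)
    (N : Om → ν) {θ : Om → ℝ} (hθ : Fac N θ) (hθ0 : ∀ w, 0 ≤ θ w) {d : ℝ} (hd : 0 ≤ d)
    (hm : ∀ w, P.p w ≠ 0 → θ w ≠ 0 → |P.ce N D w| ≤ 1 / 2)
    (hXY : ∀ u, P.p u ≠ 0 → θ u ≠ 0 → P.hel X N Y u ≤ d)
    (hYX : ∀ u, P.p u ≠ 0 → θ u ≠ 0 → P.hel Y N X u ≤ d) :
    P.E (fun w => θ w * P.pres D X Y N w ^ 2) ≤
      2 * (P.E (fun w => θ w * P.iota X Y (fun u => (D u, N u)) w) - P.E (fun w => θ w * P.iota X Y N w)) +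
      8 / 3 * kd d * (P.E (fun w => θ w * P.iota D X N w) + P.E (fun w => θ w * P.iota D Y N w)) := by
  have h1 := P.poe_bound_w hD X Y N hθ hθ0
  have h2 := P.log_zf_w hD X Y N hθ hθ0 hd hm hXY hYX
  linarith

/-- the mean of the digit given both labels, as a sum (pointwise, good states) -/
theorem digit_abs_le {D : Om → ℝ} (hD : ∀ w, P.p w ≠ 0 → D w = 1 ∨ D w = -1) (X : Om → κ) (Y : Om → ι)
    (N : Om → ν) {w : Om} (hw : P.p w ≠ 0) (hm : |P.ce N D w| ≤ 1 / 2) :
    |P.ce (fun v => (X v, Y v, N v)) D w| ≤ |P.ce N D w| +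
        |P.ce (fun v => (X v, N v)) D w - P.ce N D w| + |P.ce (fun v => (Y v, N v)) D w - P.ce N D w| +
        16 * (|P.ce (fun v => (X v, N v)) D w - P.ce N D w| *
          |P.ce (fun v => (Y v, N v)) D w - P.ce N D w|) + |P.pres D X Y N w| := by
  have hD1 : ∀ w, P.p w ≠ 0 → |D w| ≤ 1 := fun w hw => by
    rcases hD w hw with h | h <;> rw [h] <;> norm_num
  have ax : |P.ce (fun v => (X v, N v)) D w| ≤ 1 := P.abs_ce_le_one hD1 _ w
  have ay : |P.ce (fun v => (Y v, N v)) D w| ≤ 1 := P.abs_ce_le_one hD1 _ w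
  have px : 0 < 1 + D w * P.ce (fun v => (X v, N v)) D w := P.digit_pos hD _ hw
  have py : 0 < 1 + D w * P.ce (fun v => (Y v, N v)) D w := P.digit_pos hD _ hw
  have hz : 0 < zf (P.ce N D w) (P.ce (fun v => (X v, N v)) D w) (P.ce (fun v => (Y v, N v)) D w) := by
    refine zf_pos (lt_of_le_of_lt hm (by norm_num)) ax ay ?_
    rcases hD w hw with h | h
    · left; rw [h] at px py; constructor <;> linarith
    · right; rw [h] at px py; constructor <;> linarith
  have h1 := poe_approx hm ax ay hz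
  unfold pres
  set mm := P.ce N D w
  set xx := P.ce (fun v => (X v, N v)) D w
  set yy := P.ce (fun v => (Y v, N v)) D w
  set pp := poe mm xx yy
  set ww := P.ce (fun v => (X v, Y v, N v)) D w
  have h2 : |ww| ≤ |ww - pp| + |pp - (mm + (xx - mm) + (yy - mm))| + |mm + (xx - mm) + (yy - mm)| := by
    calc |ww| = |(ww - pp) + (pp - (mm + (xx - mm) + (yy - mm))) + (mm + (xx - mm) + (yy - mm))| := by
          congr 1; ring
      _ ≤ _ := (abs_add_le _ _).trans (by linarith [abs_add_le (ww - pp) (pp - (mm + (xx - mm) + (yy - mm)))])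
  have h3 : |mm + (xx - mm) + (yy - mm)| ≤ |mm| + |xx - mm| + |yy - mm| :=
    (abs_add_le _ _).trans (by linarith [abs_add_le mm (xx - mm)])
  linarith

end FP

end Pool.Agent.M3
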