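import Pool.Agent.M3.Main0
import Pool.Agent.M3.S3.EndA

/-!
# M3.Main: the finite theorem in the binary model for three objects

`binTh3` : the theorem of `m3`, rows 0-6, with Theorem 3 in the form `S3.thm3A` (exponent `1/40`; the file
`S3B/EndB.lean` has a second proof, `S3B.thm3B`, exponent `1/4`); `finalM3` : three commuting maps.
-/

set_option autoImplicit false

/-- **THE FINITE THEOREM** in the binary model, three objects -/
theorem Pool.M3.binTh3 : Pool.PWM.BinTh 3 :=
  Pool.Agent.M3.Mod.binTh3_of_Thm3 (by norm_num : (0 : ℝ) < 1 / 40) Pool.Agent.M3.S3.thm3A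

/-- **three commuting maps** -/
theorem Pool.M3.finalM3 : Pool.PWM.FinalM 3 := Pool.PWM.finalM_of_bin 3 Pool.M3.binTh3
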