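import Pool.Agent.M3.S1Lay
import Pool.Agent.PWM.TrBinEnd

/-!
# M3.S6End (section 6, (6.4) and (6.5)): the final assembly (helper66)

`Lay0 L l0` = layer 0 in the model (the difference of the process and of the residual process of the layer `l0` has
marks), `H5 L lstar r p` = the theorem of section 5 (no piece of a layer `l >= lstar` is large at any exponent, except
with probability `p l`).  THEOREM `bin3`: `BinTh 3` (the finite theorem in the binary model).
-/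

set_option autoImplicit false

namespace Pool.Agent.M3.Mod

open Finset Pool.Agent.PWZ Pool.Agent.M3.Bin

noncomputable section

/-- LAYER 0 in the model -/
def Lay0 (L : Lay) (l0 : ℕ) : Prop :=
  ∀ c0 : ℝ, 0 < c0 → ∀ η : ℝ, 0 < η → ∃ K : ℝ, 0 ≤ K ∧ ∀ k N : ℕ, N ≤ k →
    ∀ F : Fin 3 → Unit × V k → Unit × V k → V k → ℝ, (∀ i b c d, |F i b c d| ≤ 1) →
    ∃ (mark : Sp k N 3 Unit Unit → ℕ → Prop) (exc : Sp k N 3 Unit Unit → Prop),
      (Pm : FP (Sp k N 3 Unit Unit)).E (fun ω => ∑ j ∈ range N, ind (mark ω j)) ≤ K ∧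
      (Pm : FP (Sp k N 3 Unit Unit)).Pr exc ≤ η ∧
      ∀ ω, ¬ exc ω → ∀ l' l, l' ≤ l → l < N → (∀ j, l' ≤ j → j < l → ¬ mark ω j) →
        |(XX3 N F (l + 1) ω - TR L F l0 (l + 1) ω) - (XX3 N F (l' + 1) ω - TR L F l0 (l' + 1) ω)| ≤ c0

/-- THE THEOREM OF SECTION 5, as a hypothesis (exponents `e < N`: the time `0` is not used) -/
def H5 (L : Lay) (lstar : ℕ) (r p : ℕ → ℝ) : Prop :=
  ∀ l, lstar ≤ l → ∀ k N : ℕ, N ≤ k →
    ∀ F : Fin 3 → Unit × V k → Unit × V k → V k → ℝ, (∀ i b c d, |F i b c d| ≤ 1) → ∀ q : Fin 3,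
      (Pm : FP (Sp k N 3 Unit Unit)).Pr
        (fun ω => ∃ e < N, r l ≤ |TT3 (L.lh (l + 1)) (Pc N L F l q) e ω|) ≤ p l

/-! ### the last layer -/

theorem TR_eq_TT3 {k N : ℕ} {Θ P : Type} [Fintype Θ] [Nonempty Θ] [Fintype P] [Nonempty P] (L : Lay)
    (F : Fin 3 → P × V k → P × V k → V k → ℝ) (l e : ℕ) (ω : Sp k N 3 Θ P) :
    TR L F l e ω = TT3 (L.lh l) (Rl N L F l) e ω := by
  unfold TR T3 TT3
  congr 1
  funext d
  rw [Fin.prod_univ_three]
  rfl

theorem TR_small {k N : ℕ} {Θ P : Type} [Fintype Θ] [Nonempty Θ] [Fintype P] [Nonempty P] (L : Lay)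
    {F : Fin 3 → P × V k → P × V k → V k → ℝ} (hN : N ≤ k) (hF : ∀ i b c d, |F i b c d| ≤ 1) (l : ℕ) :
    (Pm : FP (Sp k N 3 Θ P)).Pr (fun ω => ∃ e ≤ N, 32 * L.lep l ≤ |TR L F l e ω|) ≤
      (N + 1) * (2 * L.lth l) := by
  have h1 : ∀ e ≤ N, (Pm : FP (Sp k N 3 Θ P)).Pr (fun ω => 32 * L.lep l ≤ |TR L F l e ω|) ≤ 2 * L.lth l := by
    intro e he
    have hPT : PT (L.lh l) N (Rl N L F l 0) (L.lth l) (16 * L.lep l) 2 := by
      refine PT.mono (PT.scale (Rl_PT L hF l 0) (by norm_num : (0 : ℝ) < 2)) le_rfl ?_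
      linarith
    have hr : 2 * (2 : ℝ) ^ 3 * ((2 : ℝ) ^ L.lh l)⁻¹ ≤ 16 * L.lep l := by
      have h1 := L.rd1 l
      have h3 : 0 < ((2 : ℝ) ^ L.lh l)⁻¹ := by positivity
      have h4 := L.lep_pos l
      linarith
    have h2 := TT3_hidden (Θ := Θ) (P := P) 0 he hN (L.lth_pos l).le hPT hr
      (fun i e g x y d => abs_Rl L hF l i e g x y d)
    have h3 : 2 * (16 * L.lep l) = 32 * L.lep l := by ring
    rw [h3] at h2
    unfold FP.Pr
    rw [← FP.E_ce Pm (fun ω => (th ω, vx 0 ω, nz ω, sc (L.lh l) e (0 + 1) ω, sc (L.lh l) e (0 + 2) ω))]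
    refine FP.E_le_const _ fun ω _ => ?_
    refine le_trans (le_of_eq ?_) (h2 ω)
    congr 1
    funext v
    simp only [TR_eq_TT3]
  have h4 : (Pm : FP (Sp k N 3 Θ P)).Pr (fun ω => ∃ e ≤ N, 32 * L.lep l ≤ |TR L F l e ω|) ≤
      (Pm : FP (Sp k N 3 Θ P)).Pr (fun ω => ∃ e ∈ range (N + 1), 32 * L.lep l ≤ |TR L F l e ω|) := by
    refine FP.Pr_mono _ fun ω _ hω => ?_
    obtain ⟨e, he, h5⟩ := hω
    exact ⟨e, Finset.mem_range.2 (by omega), h5⟩
  refine h4.trans ((FP.Pr_ex_le _ _ _).trans ?_)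
  calc ∑ e ∈ range (N + 1), (Pm : FP (Sp k N 3 Θ P)).Pr (fun ω => 32 * L.lep l ≤ |TR L F l e ω|)
      ≤ ∑ _e ∈ range (N + 1), 2 * L.lth l := by
        refine Finset.sum_le_sum fun e he => h1 e ?_
        rw [Finset.mem_range] at he
        omega
    _ = (N + 1) * (2 * L.lth l) := by
        rw [Finset.sum_const, Finset.card_range, nsmul_eq_mul]
        push_cast
        ring

open Filter Topology in
theorem lep_tendsto (L : Lay) : Tendsto L.lep atTop (𝓝 0) := by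
  unfold Lay.lep
  have h1 : Tendsto (fun l : ℕ => ((l : ℝ) + 1) ^ 4) atTop atTop := by
    refine Tendsto.comp (tendsto_pow_atTop (by norm_num)) ?_
    exact tendsto_atTop_add_const_right _ _ tendsto_natCast_atTop_atTop
  exact h1.const_div_atTop L.c

open Filter Topology in
theorem lth_tendsto (L : Lay) : Tendsto L.lth atTop (𝓝 0) := by
  unfold Lay.lth
  refine Real.tendsto_exp_neg_atTop_nhds_zero.comp ?_
  exact tendsto_pow_atTop_atTop_of_one_lt (by linarith [L.kap_pos])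

/-- a good last layer -/
theorem exists_last (L : Lay) (l0 N : ℕ) {a b : ℝ} (ha : 0 < a) (hb : 0 < b) :
    ∃ n, 32 * L.lep (l0 + n) ≤ a ∧ (N + 1) * (2 * L.lth (l0 + n)) ≤ b := by
  have h1 : ∀ᶠ l in Filter.atTop, L.lep l < a / 32 := (lep_tendsto L).eventually_lt_const (by positivity)
  have h2 : ∀ᶠ l in Filter.atTop, L.lth l < b / (2 * (N + 1)) := (lth_tendsto L).eventually_lt_const (by positivity)
  obtain ⟨m, hm⟩ := Filter.eventually_atTop.1 (h1.and h2)
  refine ⟨m, ?_, ?_⟩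
  · have := (hm (l0 + m) (by omega)).1
    rw [lt_div_iff₀ (by norm_num)] at this
    linarith
  · have := (hm (l0 + m) (by omega)).2
    rw [lt_div_iff₀ (by positivity)] at this
    linarith

/-! ### the pieces -/

theorem TR_tele {k N : ℕ} {Θ P : Type} [Fintype Θ] [Nonempty Θ] [Fintype P] [Nonempty P] (L : Lay)
    (F : Fin 3 → P × V k → P × V k → V k → ℝ) (l0 n e : ℕ) (ω : Sp k N 3 Θ P) :
    TR L F l0 e ω = (∑ l ∈ range n, ∑ q : Fin 3, TT3 (L.lh (l0 + l + 1)) (Pc N L F (l0 + l) q) e ω) +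
      TR L F (l0 + n) e ω := by
  induction n with
  | zero => simp
  | succ n ih =>
    rw [ih, Finset.sum_range_succ, tele_step L (l0 + n) e ω]
    have : l0 + (n + 1) = l0 + n + 1 := by omega
    rw [this]
    ring

/-- summable sequences have small tails -/
theorem small_tail {r : ℕ → ℝ} (hr : Summable r) (hr0 : ∀ l, 0 ≤ r l) {a : ℝ} (ha : 0 < a) :
    ∃ m, ∀ l0, m ≤ l0 → ∀ n, ∑ l ∈ range n, r (l0 + l) ≤ a := by
  have h1 := tendsto_sum_nat_add r
  have h2 : ∀ᶠ i in Filter.atTop, ∑' k, r (k + i) < a := h1.eventually_lt_const ha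
  obtain ⟨m, hm⟩ := Filter.eventually_atTop.1 h2
  refine ⟨m, fun l0 hl0 n => ?_⟩
  refine le_trans ?_ (hm l0 hl0).le
  have h3 : Summable (fun k => r (k + l0)) := (summable_nat_add_iff l0).2 hr
  have h4 := h3.sum_le_tsum (range n) (fun l _ => hr0 _)
  refine le_trans (le_of_eq ?_) h4
  exact Finset.sum_congr rfl fun l _ => by rw [add_comm]

/-! ### from sample points to the binary model of the transfer -/

section conv

variable {k N : ℕ}

/-- sample point of `(x, w)` -/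
def mkS (N : ℕ) (x : Fin 3 → V k) (w : ℕ) : Sp k N 3 Unit Unit :=
  ((), fun j => ((), x j), ⟨w % 2 ^ N, Nat.mod_lt _ (by positivity)⟩)

theorem vx_mkS (x : Fin 3 → V k) (w : ℕ) (j : Fin 3) : vx j (mkS N x w) = ((), x j) := rfl

theorem ctr_mkS (x : Fin 3 → V k) (w : ℕ) : ctr (mkS N x w) = ∑ j, x j := rfl

theorem nz_mkS (x : Fin 3 → V k) {w : ℕ} (hw : w < 2 ^ N) : nz (mkS N x w) = w := by
  show w % 2 ^ N = w
  exact Nat.mod_eq_of_lt hw

theorem E_mkS (f : Sp k N 3 Unit Unit → ℝ) :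
    (Pm : FP (Sp k N 3 Unit Unit)).E f = (((2 : ℝ) ^ k) ^ 3 * 2 ^ N)⁻¹ *
      ∑ x : Fin 3 → V k, ∑ w ∈ range (2 ^ N), f (mkS N x w) := by
  rw [E_eq]
  have h1 : ((Fintype.card Unit : ℝ) * ((Fintype.card Unit : ℝ) * 2 ^ k) ^ 3 * 2 ^ N) =
      ((2 : ℝ) ^ k) ^ 3 * 2 ^ N := by simp
  rw [h1]
  congr 1
  rw [Fintype.sum_unique]
  refine Fintype.sum_equiv (Equiv.arrowCongr (Equiv.refl (Fin 3)) (Equiv.punitProd (V k))) _ _ fun x => ?_
  rw [← Finset.sum_attach (range (2 ^ N)) (fun w => f (mkS N _ w))]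
  refine Finset.sum_congr rfl fun w _ => ?_
  congr 1
  have hw := Finset.mem_range.1 w.2
  refine Prod.ext rfl (Prod.ext ?_ ?_)
  · funext j
    rfl
  · refine Fin.ext ?_
    show w.1 = w.1 % 2 ^ N
    rw [Nat.mod_eq_of_lt hw]

theorem sum_of_E {f : Sp k N 3 Unit Unit → ℝ} {B : ℝ} (h : (Pm : FP (Sp k N 3 Unit Unit)).E f ≤ B) :
    ∑ x : Fin 3 → V k, ∑ w ∈ range (2 ^ N), f (mkS N x w) ≤ B * (((2 : ℝ) ^ k) ^ 3 * 2 ^ N) := by
  rw [E_mkS, inv_mul_le_iff₀ (by positivity)] at h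
  linarith

/-- the functions of a face as functions of its two vertices -/
def Fu (F : Fin 3 → (Fin 3 → V k) → V k → ℝ) (i : Fin 3) (b c : Unit × V k) (d : V k) : ℝ :=
  F i (fun j => if j = i + 1 then b.2 else if j = i + 2 then c.2 else 0) d

theorem Fu_eq {F : Fin 3 → (Fin 3 → V k) → V k → ℝ} (hF : Pool.PWM.Face F) (i : Fin 3) (x : Fin 3 → V k)
    (d : V k) : Fu F i ((), x (i + 1)) ((), x (i + 2)) d = F i x d := by
  unfold Fu
  refine hF i _ _ d fun j hj => ?_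
  rcases fin3_cover i j with rfl | rfl | rfl
  · exact absurd rfl hj
  · simp
  · show (if i + 2 = i + 1 then x (i + 1) else if i + 2 = i + 2 then x (i + 2) else 0) = x (i + 2)
    rw [if_neg (Ne.symm (fin3_ne3 i)), if_pos rfl]

/-- the process of the transfer is the process `XX3` -/
theorem bav_eq {F : Fin 3 → (Fin 3 → V k) → V k → ℝ} (hF : Pool.PWM.Face F) (x : Fin 3 → V k) {w : ℕ}
    (hw : w < 2 ^ N) (l : ℕ) : Pool.PWM.bav F x l w = XX3 N (Fu F) (l + 1) (mkS N x w) := by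
  unfold XX3 T3 av Pool.PWM.bav
  congr 1
  refine Finset.sum_congr rfl fun n _ => ?_
  have h1 : (Yn (l + 1) (mkS N x w)).1 = ∑ j, x j + ((w % 2 ^ (l + 1) : ℕ) : V k) := by
    show ctr (mkS N x w) + ((nz (mkS N x w) % 2 ^ (l + 1) : ℕ) : V k) = _
    rw [nz_mkS x hw, ctr_mkS]
  rw [h1, Fin.prod_univ_three]
  unfold Fv
  simp only [vx_mkS]
  rw [Fu_eq hF 0, Fu_eq hF 1, Fu_eq hF 2]

end conv

/-! ### the final theorem -/

/-- THE FINITE THEOREM FOR THREE VERTICES from layer 0 and section 5 (`N = L + 2`, the top digit of the noise is `0`) -/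
theorem bin3 (L : Lay) (lstar : ℕ) (r p : ℕ → ℝ) (hr : Summable r) (hr0 : ∀ l, 0 ≤ r l) (hp : Summable p)
    (hp0 : ∀ l, 0 ≤ p l) (h5 : H5 L lstar r p) (h0 : ∀ l0, Lay0 L l0) : Pool.PWM.BinTh 3 := by
  classical
  intro c hc η hη
  obtain ⟨m1, hm1⟩ := small_tail hr hr0 (show 0 < c / 24 by positivity)
  obtain ⟨m2, hm2⟩ := small_tail hp hp0 (show 0 < η / 24 by positivity)
  set l0 : ℕ := max lstar (max m1 m2) with hl0
  obtain ⟨K, hK0, hK⟩ := h0 l0 (c / 4) (by positivity) (η / 4) (by positivity)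
  refine ⟨2 * K, by positivity, fun Lv M0 => ?_⟩
  set N : ℕ := Lv + 2 with hN
  set k : ℕ := max N M0 with hk
  have hNk : N ≤ k := le_max_left _ _
  refine ⟨2 ^ k, ?_, inferInstance, ?_⟩
  · exact (le_max_right N M0).trans (Nat.lt_two_pow_self).le
  intro F hFace hF
  obtain ⟨mark, exc, hmark, hexc, hclose⟩ := hK k N hNk (Fu F) (fun i b c d => hF i _ d)
  obtain ⟨n, hn1, hn2⟩ := exists_last L l0 N (show 0 < c / 16 by positivity) (show 0 < η / 8 by positivity)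
  set G := Fu F with hG
  have hGb : ∀ i b c d, |G i b c d| ≤ 1 := fun i b c d => hF i _ d
  set bad : Sp k N 3 Unit Unit → Prop := fun ω => exc ω ∨
    (∃ z ∈ (range n) ×ˢ (univ : Finset (Fin 3)), ∃ e < N,
      r (l0 + z.1) ≤ |TT3 (L.lh (l0 + z.1 + 1)) (Pc N L G (l0 + z.1) z.2) e ω|) ∨
    (∃ e ≤ N, 32 * L.lep (l0 + n) ≤ |TR L G (l0 + n) e ω|) with hbad
  have hPr : (Pm : FP (Sp k N 3 Unit Unit)).Pr bad ≤ η / 2 := by
    rw [hbad]
    refine (FP.Pr_or_le _ _ _).trans ?_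
    have h1 := FP.Pr_or_le (Pm : FP (Sp k N 3 Unit Unit))
      (fun ω => ∃ z ∈ (range n) ×ˢ (univ : Finset (Fin 3)), ∃ e < N,
        r (l0 + z.1) ≤ |TT3 (L.lh (l0 + z.1 + 1)) (Pc N L G (l0 + z.1) z.2) e ω|)
      (fun ω => ∃ e ≤ N, 32 * L.lep (l0 + n) ≤ |TR L G (l0 + n) e ω|)
    have h2 := TR_small (Θ := Unit) (P := Unit) L hNk hGb (l0 + n)
    have h3 : (Pm : FP (Sp k N 3 Unit Unit)).Pr
        (fun ω => ∃ z ∈ (range n) ×ˢ (univ : Finset (Fin 3)), ∃ e < N,
        r (l0 + z.1) ≤ |TT3 (L.lh (l0 + z.1 + 1)) (Pc N L G (l0 + z.1) z.2) e ω|) ≤ η / 8 := by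
      refine (FP.Pr_ex_le _ _ _).trans ?_
      calc ∑ z ∈ (range n) ×ˢ (univ : Finset (Fin 3)), (Pm : FP (Sp k N 3 Unit Unit)).Pr (fun ω => ∃ e < N,
            r (l0 + z.1) ≤ |TT3 (L.lh (l0 + z.1 + 1)) (Pc N L G (l0 + z.1) z.2) e ω|)
          ≤ ∑ z ∈ (range n) ×ˢ (univ : Finset (Fin 3)), p (l0 + z.1) := by
            refine Finset.sum_le_sum fun z _ => ?_
            have := h5 (l0 + z.1) (by omega) k N hNk G hGb z.2
            exact this
        _ = ∑ l ∈ range n, ∑ _q : Fin 3, p (l0 + l) := by rw [Finset.sum_product]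
        _ = 3 * ∑ l ∈ range n, p (l0 + l) := by
            rw [Finset.mul_sum]
            refine Finset.sum_congr rfl fun l _ => ?_
            rw [Finset.sum_const, Finset.card_univ, Fintype.card_fin, nsmul_eq_mul]
            norm_num
        _ ≤ 3 * (η / 24) := by
            have := hm2 l0 (by omega) n
            linarith
        _ = η / 8 := by ring
    linarith
  have hsub : ∀ f : (Fin 3 → V k) → ℕ → ℝ, (∀ x w, 0 ≤ f x w) →
      ∑ x : Fin 3 → V k, ∑ w ∈ range (2 ^ (Lv + 1)), f x w ≤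
      ∑ x : Fin 3 → V k, ∑ w ∈ range (2 ^ N), f x w := by
    intro f hf
    refine Finset.sum_le_sum fun x _ => Finset.sum_le_sum_of_subset_of_nonneg ?_ fun w _ _ => hf x w
    refine Finset.range_subset_range.2 (Nat.pow_le_pow_right (by norm_num) (by omega))
  have h2N : (2 : ℝ) ^ N = 2 * 2 ^ (Lv + 1) := by
    rw [hN]
    ring
  refine ⟨fun x w j => mark (mkS N x w) j, fun x w => bad (mkS N x w), ?_, ?_, ?_⟩
  · have h1 := sum_of_E hmark
    have h2 : ∑ x : Fin 3 → V k, ∑ w ∈ range (2 ^ (Lv + 1)), ∑ j ∈ range (Lv + 1), ind (mark (mkS N x w) j) ≤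
        ∑ x : Fin 3 → V k, ∑ w ∈ range (2 ^ (Lv + 1)), ∑ j ∈ range N, ind (mark (mkS N x w) j) := by
      refine Finset.sum_le_sum fun x _ => Finset.sum_le_sum fun w _ => ?_
      exact Finset.sum_le_sum_of_subset_of_nonneg (Finset.range_subset_range.2 (by omega)) fun j _ _ => ind_nonneg _
    have h3 := hsub (fun x w => ∑ j ∈ range N, ind (mark (mkS N x w) j))
      (fun x w => Finset.sum_nonneg fun j _ => ind_nonneg _)
    rw [h2N] at h1
    push_cast
    refine (h2.trans (h3.trans h1)).trans (le_of_eq ?_)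
    ring
  · have h1 : (Pm : FP (Sp k N 3 Unit Unit)).E (fun ω => ind (bad ω)) ≤ η / 2 := hPr
    have h2 := sum_of_E h1
    have h3 := hsub (fun x w => ind (bad (mkS N x w))) (fun x w => ind_nonneg _)
    rw [h2N] at h2
    push_cast
    refine (h3.trans h2).trans (le_of_eq ?_)
    ring
  · intro x w hw hnb l' l hl hlL hno
    have hw2 : w < 2 ^ N := hw.trans_le (Nat.pow_le_pow_right (by norm_num) (by omega))
    rw [bav_eq hFace x hw2 l, bav_eq hFace x hw2 l']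
    set ω := mkS N x w with hω
    have hnb' : ¬ exc ω ∧ ¬ (∃ z ∈ (range n) ×ˢ (univ : Finset (Fin 3)), ∃ e < N,
      r (l0 + z.1) ≤ |TT3 (L.lh (l0 + z.1 + 1)) (Pc N L G (l0 + z.1) z.2) e ω|) ∧
      ¬ (∃ e ≤ N, 32 * L.lep (l0 + n) ≤ |TR L G (l0 + n) e ω|) := by
      refine ⟨fun h => hnb (Or.inl h), fun h => hnb (Or.inr (Or.inl h)), fun h => hnb (Or.inr (Or.inr h))⟩
    obtain ⟨g1, g2, g3⟩ := hnb'
    have h1 := hclose ω g1 l' l hl (by omega) hno
    have h2 : ∀ e < N, |TR L G l0 e ω| ≤ 3 * (c / 24) + c / 16 := by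
      intro e he
      rw [TR_tele L G l0 n e ω]
      refine (abs_add_le _ _).trans (add_le_add ?_ ?_)
      · refine (Finset.abs_sum_le_sum_abs _ _).trans ?_
        calc ∑ l ∈ range n, |∑ q : Fin 3, TT3 (L.lh (l0 + l + 1)) (Pc N L G (l0 + l) q) e ω|
            ≤ ∑ l ∈ range n, 3 * r (l0 + l) := by
              refine Finset.sum_le_sum fun i hi => ?_
              refine (Finset.abs_sum_le_sum_abs _ _).trans ?_
              calc ∑ q : Fin 3, |TT3 (L.lh (l0 + i + 1)) (Pc N L G (l0 + i) q) e ω|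
                  ≤ ∑ _q : Fin 3, r (l0 + i) := by
                    refine Finset.sum_le_sum fun q _ => ?_
                    by_contra hcon
                    push Not at hcon
                    exact g2 ⟨(i, q), Finset.mem_product.2 ⟨hi, Finset.mem_univ _⟩, e, he, hcon.le⟩
                _ = 3 * r (l0 + i) := by
                    rw [Finset.sum_const, Finset.card_univ, Fintype.card_fin, nsmul_eq_mul]
                    norm_num
          _ = 3 * ∑ l ∈ range n, r (l0 + l) := by rw [Finset.mul_sum]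
          _ ≤ 3 * (c / 24) := by
              have := hm1 l0 (by omega) n
              linarith
      · by_contra hcon
        push Not at hcon
        exact g3 ⟨e, he.le, hn1.trans hcon.le⟩
    have h3 := h2 (l + 1) (by omega)
    have h4 := h2 (l' + 1) (by omega)
    rw [abs_le] at h1 h3 h4
    rw [abs_lt]
    constructor <;> linarith [h1.1, h1.2, h3.1, h3.2, h4.1, h4.2]

/-- the theorem on actions of groups, from layer 0 and section 5 -/
theorem final3 (L : Lay) (lstar : ℕ) (r p : ℕ → ℝ) (hr : Summable r) (hr0 : ∀ l, 0 ≤ r l) (hp : Summable p)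
    (hp0 : ∀ l, 0 ≤ p l) (h5 : H5 L lstar r p) (h0 : ∀ l0, Lay0 L l0) : Pool.PWM.FinalM 3 :=
  Pool.PWM.finalM_of_bin 3 (bin3 L lstar r p hr hr0 hp hp0 h5 h0)

end

end Pool.Agent.M3.Mod
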