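import Pool.Agent.M3.FPMart

/-!
# M3.Key: threshold keys (section 2, 2.5, Lemma K), abstract form (helper19)

`xi w s` = threshold of the reference `s` (uniform in `Fin m` given everything else `W s`), `K s t` = what the run of
`(a~, c)` with `s` added knows at time `t` (not the threshold of `s`), `mem s` = the reference belongs to the list of the
true pair, `D s t` = running maximum of its density (only `P(mem s | K s t) <= D s t` at the first use is needed),
`Rec` = recorded: `xi + 1 <= m R D`, `L s t` = first use of `s` in the run `+s`, at time `t`.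

* `key_lost` : `Pr (some mem s is used for the first time in the run +s when it is not recorded) <= (E #used + |S|/m)/R`;
* `rec_le` : `E #recorded <= R sum_s E D s n`; `E_le_dyadic` : from weak type to `E max <= 2^-k P + 2 k C`;
* `Cons` : consistency (K0) of the runs of helper93; `key_agree` = Lemma K for runs: outside this event the actual run
  agrees with the run `+s` for ever, for every reference `s` of the true pair.
-/

set_option autoImplicit false
set_option linter.unusedSectionVars false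

namespace Pool.Agent.M3

open Finset Pool.Agent.PWZ

noncomputable section

/-- the law of a uniform threshold on `{1/m, .., 1}` -/
def thr (m : ℕ) (x : ℝ) : ℝ := (∑ j : Fin m, ind (((j : ℕ) : ℝ) + 1 ≤ m * x)) / m

theorem thr_nonneg (m : ℕ) (x : ℝ) : 0 ≤ thr m x :=
  div_nonneg (Finset.sum_nonneg fun _ _ => ind_nonneg _) (Nat.cast_nonneg m)

theorem thr_le_one (m : ℕ) (x : ℝ) : thr m x ≤ 1 := by
  unfold thr
  rcases Nat.eq_zero_or_pos m with h | h
  · subst h; simp
  · have hm : (0 : ℝ) < m := by exact_mod_cast h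
    rw [div_le_one hm]
    calc ∑ j : Fin m, ind (((j : ℕ) : ℝ) + 1 ≤ m * x) ≤ ∑ j : Fin m, (1 : ℝ) :=
          Finset.sum_le_sum fun _ _ => ind_le_one _
      _ = m := by simp

private theorem thr_card (m : ℕ) (y : ℝ) :
    ∑ j : Fin m, ind (((j : ℕ) : ℝ) + 1 ≤ y) =
      (((univ : Finset (Fin m)).filter (fun j : Fin m => ((j : ℕ) : ℝ) + 1 ≤ y)).card : ℝ) := by
  classical
  rw [Finset.card_filter]
  push_cast
  refine Finset.sum_congr rfl fun j _ => ?_
  by_cases h : ((j : ℕ) : ℝ) + 1 ≤ y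
  · rw [ind_of h, if_pos h]
  · rw [ind_not h, if_neg h]

theorem thr_le {m : ℕ} {x : ℝ} (hx : 0 ≤ x) : thr m x ≤ x := by
  classical
  unfold thr
  rcases Nat.eq_zero_or_pos m with h | h
  · subst h; simpa using hx
  have hm : (0 : ℝ) < m := by exact_mod_cast h
  rw [div_le_iff₀ hm, thr_card]
  have hsub : ((univ : Finset (Fin m)).filter (fun j : Fin m => ((j : ℕ) : ℝ) + 1 ≤ m * x)).card ≤
      ⌊(m : ℝ) * x⌋₊ := by
    have hinj : Set.InjOn (fun j : Fin m => (j : ℕ))
        ((univ : Finset (Fin m)).filter (fun j : Fin m => ((j : ℕ) : ℝ) + 1 ≤ m * x)) := by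
      intro a _ b _ hab
      exact Fin.ext hab
    have h1 := Finset.card_le_card_of_injOn (t := range ⌊(m : ℝ) * x⌋₊)
      (fun j : Fin m => (j : ℕ)) (fun j hj => ?_) hinj
    · rwa [card_range] at h1
    · rw [Finset.mem_coe, Finset.mem_filter] at hj
      rw [Finset.mem_coe, Finset.mem_range]
      have h2 : ((((j : ℕ) + 1 : ℕ)) : ℝ) ≤ m * x := by push_cast; exact hj.2
      have h3 := Nat.le_floor h2
      show (j : ℕ) < ⌊(m : ℝ) * x⌋₊
      omega
  calc ((((univ : Finset (Fin m)).filter (fun j : Fin m => ((j : ℕ) : ℝ) + 1 ≤ m * x)).card : ℕ) : ℝ)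
      ≤ (⌊(m : ℝ) * x⌋₊ : ℝ) := by exact_mod_cast hsub
    _ ≤ m * x := Nat.floor_le (by positivity)
    _ = x * m := by ring

theorem thr_key {m : ℕ} (hm : 0 < m) {x : ℝ} (hx : 0 ≤ x) :
    x * (1 - thr m x) ≤ thr m x + 1 / m := by
  classical
  have hm' : (0 : ℝ) < m := by exact_mod_cast hm
  rcases lt_or_ge x 1 with h | h
  · -- floor
    have h1 : x - 1 / m ≤ thr m x := by
      unfold thr
      rw [le_div_iff₀ hm', thr_card]
      have h2 : (x - 1 / m) * m = m * x - 1 := by field_simp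
      rw [h2]
      have hfl : ⌊(m : ℝ) * x⌋₊ ≤ m := by
        have : ((⌊(m : ℝ) * x⌋₊ : ℕ) : ℝ) ≤ m := (Nat.floor_le (by positivity)).trans (by nlinarith)
        exact_mod_cast this
      have hsub : ⌊(m : ℝ) * x⌋₊ ≤
          ((univ : Finset (Fin m)).filter (fun j : Fin m => ((j : ℕ) : ℝ) + 1 ≤ m * x)).card := by
        have hinj : Set.InjOn (fun j : Fin ⌊(m : ℝ) * x⌋₊ => (⟨(j : ℕ), by omega⟩ : Fin m))
            ((univ : Finset (Fin ⌊(m : ℝ) * x⌋₊)) : Set _) := by
          intro a _ b _ hab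
          have := congrArg (fun z : Fin m => (z : ℕ)) hab
          exact Fin.ext this
        have h3 := Finset.card_le_card_of_injOn (s := (univ : Finset (Fin ⌊(m : ℝ) * x⌋₊)))
          (t := (univ : Finset (Fin m)).filter (fun j : Fin m => ((j : ℕ) : ℝ) + 1 ≤ m * x))
          (fun j => (⟨(j : ℕ), by omega⟩ : Fin m)) (fun j _ => ?_) hinj
        · simpa using h3
        · rw [Finset.mem_coe, Finset.mem_filter]
          refine ⟨Finset.mem_univ _, ?_⟩
          have h4 : (j : ℕ) + 1 ≤ ⌊(m : ℝ) * x⌋₊ := j.2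
          have h5 : ((((j : ℕ) + 1 : ℕ)) : ℝ) ≤ (⌊(m : ℝ) * x⌋₊ : ℝ) := by exact_mod_cast h4
          have h6 : (⌊(m : ℝ) * x⌋₊ : ℝ) ≤ m * x := Nat.floor_le (by positivity)
          push_cast at h5
          exact h5.trans h6
      have h7 : (m : ℝ) * x < ⌊(m : ℝ) * x⌋₊ + 1 := Nat.lt_floor_add_one _
      have h8 : ((⌊(m : ℝ) * x⌋₊ : ℕ) : ℝ) ≤
          (((univ : Finset (Fin m)).filter (fun j : Fin m => ((j : ℕ) : ℝ) + 1 ≤ m * x)).card : ℝ) := by
        exact_mod_cast hsub
      linarith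
    have h9 : x * (1 - thr m x) ≤ x := by
      have := mul_nonneg hx (thr_nonneg m x)
      nlinarith
    linarith
  · have h1 : thr m x = 1 := by
      unfold thr
      rw [div_eq_one_iff_eq hm'.ne']
      have : ∀ j : Fin m, ind (((j : ℕ) : ℝ) + 1 ≤ m * x) = 1 := by
        intro j
        refine ind_of ?_
        have h2 : ((((j : ℕ) + 1 : ℕ)) : ℝ) ≤ m := by exact_mod_cast j.2
        push_cast at h2
        nlinarith
      simp [this]
    rw [h1]
    have : 0 < 1 / (m : ℝ) := by positivity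
    linarith

variable {Om : Type*} [Fintype Om] (P : FP Om)

namespace FP

/-- the law of the event recorded -/
theorem ce_rec {S κ : Type*} {m : ℕ} (xi : Om → S → Fin m) (s : S) (W : Om → κ)
    (hxi : ∀ j w, P.p w ≠ 0 → P.ce W (fun v => ind (xi v s = j)) w = 1 / m)
    (x : Om → ℝ) (hx : Fac W x) {w : Om} (hw : P.p w ≠ 0) :
    P.ce W (fun v => ind ((((xi v s : Fin m) : ℕ) : ℝ) + 1 ≤ m * x v)) w = thr m (x w) := by
  classical
  have h1 : P.ce W (fun v => ind ((((xi v s : Fin m) : ℕ) : ℝ) + 1 ≤ m * x v)) w =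
      P.ce W (fun v => ∑ j : Fin m, ind (((j : ℕ) : ℝ) + 1 ≤ m * x v) * ind (xi v s = j)) w := by
    refine P.ce_congr (fun v _ => ?_) w
    rw [Finset.sum_eq_single (xi v s)]
    · rw [ind_of (rfl : xi v s = xi v s), mul_one]
    · intro j _ hj
      have h0 : ind (xi v s = j) = 0 := ind_not (fun h => hj h.symm)
      rw [h0, mul_zero]
    · intro h; exact absurd (Finset.mem_univ _) h
  rw [h1, P.ce_sum]
  unfold thr
  rw [Finset.sum_div]
  refine Finset.sum_congr rfl fun j _ => ?_
  have hf : Fac W (fun v => ind (((j : ℕ) : ℝ) + 1 ≤ m * x v)) := by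
    intro a b hab
    show ind _ = ind _
    rw [hx a b hab]
  rw [P.ce_mul hf, hxi j w hw]
  ring

/-- **Lemma K**, abstract form -/
theorem key_lost {S κW κK : Type*} [Fintype S] {m : ℕ} (hm : 0 < m) (xi : Om → S → Fin m)
    (W : S → Om → κW)
    (hxi : ∀ s j w, P.p w ≠ 0 → P.ce (W s) (fun v => ind (xi v s = j)) w = 1 / m)
    (K : S → ℕ → Om → κK) (hWK : ∀ s t, Fac (W s) (K s t))
    (mem : S → Om → Prop) (hWm : ∀ s, Fac (W s) (fun w => ind (mem s w)))
    {R : ℝ} (hR : 0 < R) (D : S → ℕ → Om → ℝ) (hD : ∀ s t, Fac (K s t) (D s t))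
    (L : S → ℕ → Om → Prop) (hL : ∀ s t, Fac (K s t) (fun w => ind (L s t w)))
    (hdis : ∀ s t t' w, L s t w → L s t' w → t = t')
    (hden : ∀ s t w, P.p w ≠ 0 → L s t w → P.ce (K s t) (fun v => ind (mem s v)) w ≤ D s t w)
    (used : S → Om → Prop) (n : ℕ)
    (hused : ∀ s t w, P.p w ≠ 0 → t ≤ n → L s t w →
      (((xi w s : Fin m) : ℕ) : ℝ) + 1 ≤ m * (R * D s t w) → used s w) :
    P.Pr (fun w => ∃ s, mem s w ∧ ∃ t ≤ n, L s t w ∧
        ¬ ((((xi w s : Fin m) : ℕ) : ℝ) + 1 ≤ m * (R * D s t w))) ≤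
      (P.E (fun w => ∑ s, ind (used s w)) + Fintype.card S / m) / R := by
  classical
  have hm' : (0 : ℝ) < m := by exact_mod_cast hm
  set Rec : S → ℕ → Om → Prop := fun s t w =>
    (((xi w s : Fin m) : ℕ) : ℝ) + 1 ≤ m * (R * D s t w) with hRec
  -- one reference, one time
  have hone : ∀ s t, t ≤ n → P.E (fun w => ind (mem s w) * (ind (L s t w) * ind (¬ Rec s t w))) ≤
      (P.E (fun w => ind (L s t w) * ind (Rec s t w)) + P.Pr (L s t) / m) / R := by
    intro s t _
    have hWL : Fac (W s) (fun w => ind (L s t w)) := (hWK s t).trans (hL s t)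
    have hWD : Fac (W s) (fun w => R * D s t w) := ((hWK s t).trans (hD s t)).comp (fun z => R * z)
    have hrec : ∀ w, P.p w ≠ 0 → P.ce (W s) (fun v => ind (Rec s t v)) w = thr m (R * D s t w) :=
      fun w hw => P.ce_rec xi s (W s) (hxi s) _ hWD hw
    have e1 : P.E (fun w => ind (mem s w) * (ind (L s t w) * ind (¬ Rec s t w))) =
        P.E (fun w => ind (mem s w) * (ind (L s t w) * (1 - thr m (R * D s t w)))) := by
      have hh : Fac (W s) (fun w => ind (mem s w) * ind (L s t w)) := (hWm s).mul hWL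
      have h1 := P.E_mul_ce hh (fun v => ind (¬ Rec s t v))
      have h2 : P.E (fun w => ind (mem s w) * ind (L s t w) * P.ce (W s)
          (fun v => ind (¬ Rec s t v)) w) =
          P.E (fun w => ind (mem s w) * (ind (L s t w) * (1 - thr m (R * D s t w)))) := by
        refine P.E_congr fun w hw => ?_
        have h3 : P.ce (W s) (fun v => ind (¬ Rec s t v)) w = 1 - thr m (R * D s t w) := by
          rw [← hrec w hw, ← P.ce_const (W s) 1 hw, ← P.ce_sub]
          refine P.ce_congr (fun v _ => ?_) w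
          exact ind_not_eq _
        rw [h3]; ring
      rw [← h2, h1]
      exact P.E_congr fun w _ => by ring
    have hKt : Fac (K s t) (fun w => ind (L s t w) * (1 - thr m (R * D s t w))) := by
      refine (hL s t).mul ?_
      exact (hD s t).comp (fun z => 1 - thr m (R * z))
    have e2 : P.E (fun w => ind (mem s w) * (ind (L s t w) * (1 - thr m (R * D s t w)))) =
        P.E (fun w => P.ce (K s t) (fun v => ind (mem s v)) w *
          (ind (L s t w) * (1 - thr m (R * D s t w)))) := (P.E_ce_mul hKt _).symm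
    have e3 : P.E (fun w => P.ce (K s t) (fun v => ind (mem s v)) w *
          (ind (L s t w) * (1 - thr m (R * D s t w)))) ≤
        P.E (fun w => ind (L s t w) * ((thr m (R * D s t w) + 1 / m) / R)) := by
      refine P.E_mono fun w hw => ?_
      by_cases hl : L s t w
      · rw [ind_of hl, one_mul, one_mul]
        have h0 : 0 ≤ P.ce (K s t) (fun v => ind (mem s v)) w :=
          P.ce_nonneg (fun v _ => ind_nonneg _) w
        have h1 := hden s t w hw hl
        have hD0 : 0 ≤ D s t w := h0.trans h1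
        have h2 := thr_key hm (mul_nonneg hR.le hD0)
        have h3 : 0 ≤ 1 - thr m (R * D s t w) := by linarith [thr_le_one m (R * D s t w)]
        rw [le_div_iff₀ hR]
        nlinarith [mul_le_mul_of_nonneg_right h1 h3]
      · rw [ind_not hl]; simp
    have e4 : P.E (fun w => ind (L s t w) * ((thr m (R * D s t w) + 1 / m) / R)) =
        (P.E (fun w => ind (L s t w) * ind (Rec s t w)) + P.Pr (L s t) / m) / R := by
      have h1 := P.E_mul_ce hWL (fun v => ind (Rec s t v))
      have h2 : P.E (fun w => ind (L s t w) * P.ce (W s) (fun v => ind (Rec s t v)) w) =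
          P.E (fun w => ind (L s t w) * thr m (R * D s t w)) :=
        P.E_congr fun w hw => by rw [hrec w hw]
      rw [← h1, h2]
      unfold Pr
      rw [← E_div_const, ← E_add, ← E_div_const]
      exact P.E_congr fun w _ => by ring
    rw [e1, e2]
    exact e3.trans (le_of_eq e4)
  -- union
  have hun : P.Pr (fun w => ∃ s, mem s w ∧ ∃ t ≤ n, L s t w ∧ ¬ Rec s t w) ≤
      ∑ s, ∑ t ∈ range (n + 1), P.E (fun w => ind (mem s w) * (ind (L s t w) * ind (¬ Rec s t w))) := by
    have h1 : P.Pr (fun w => ∃ s, mem s w ∧ ∃ t ≤ n, L s t w ∧ ¬ Rec s t w) ≤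
        P.E (fun w => ∑ s, ∑ t ∈ range (n + 1), ind (mem s w) * (ind (L s t w) * ind (¬ Rec s t w))) := by
      refine P.E_mono fun w _ => ?_
      by_cases hex : ∃ s, mem s w ∧ ∃ t ≤ n, L s t w ∧ ¬ Rec s t w
      · obtain ⟨s, hs, t, ht, hl, hr⟩ := hex
        rw [ind_of ⟨s, hs, t, ht, hl, hr⟩]
        have h2 : (1 : ℝ) = ind (mem s w) * (ind (L s t w) * ind (¬ Rec s t w)) := by
          rw [ind_of hs, ind_of hl, ind_of hr]; norm_num
        rw [h2]
        have h3 : ind (mem s w) * (ind (L s t w) * ind (¬ Rec s t w)) ≤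
            ∑ t ∈ range (n + 1), ind (mem s w) * (ind (L s t w) * ind (¬ Rec s t w)) :=
          Finset.single_le_sum (f := fun t => ind (mem s w) * (ind (L s t w) * ind (¬ Rec s t w)))
            (fun _ _ => mul_nonneg (ind_nonneg _) (mul_nonneg (ind_nonneg _) (ind_nonneg _)))
            (Finset.mem_range.2 (by omega))
        refine h3.trans ?_
        exact Finset.single_le_sum (f := fun s => ∑ t ∈ range (n + 1),
            ind (mem s w) * (ind (L s t w) * ind (¬ Rec s t w)))
          (fun _ _ => Finset.sum_nonneg fun _ _ =>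
            mul_nonneg (ind_nonneg _) (mul_nonneg (ind_nonneg _) (ind_nonneg _)))
          (Finset.mem_univ s)
      · rw [ind_not hex]
        exact Finset.sum_nonneg fun _ _ => Finset.sum_nonneg fun _ _ =>
            mul_nonneg (ind_nonneg _) (mul_nonneg (ind_nonneg _) (ind_nonneg _))
    refine h1.trans (le_of_eq ?_)
    rw [E_sum]
    exact Finset.sum_congr rfl fun s _ => P.E_sum _ _
  -- disjointness in time
  have hsumL : ∀ s w, ∑ t ∈ range (n + 1), ind (L s t w) ≤ 1 := by
    intro s w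
    by_cases hex : ∃ t ∈ range (n + 1), L s t w
    · obtain ⟨t, ht, hl⟩ := hex
      rw [Finset.sum_eq_single t]
      · exact ind_le_one _
      · intro t' _ hne
        exact ind_not fun hl' => hne (hdis s t' t w hl' hl)
      · intro h; exact absurd ht h
    · rw [Finset.sum_eq_zero]
      · norm_num
      · intro t ht
        exact ind_not fun hl => hex ⟨t, ht, hl⟩
  have hper : ∀ s, ∑ t ∈ range (n + 1),
      (P.E (fun w => ind (L s t w) * ind (Rec s t w)) + P.Pr (L s t) / m) ≤
      P.E (fun w => ind (used s w)) + 1 / m := by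
    intro s
    rw [Finset.sum_add_distrib]
    refine add_le_add ?_ ?_
    · rw [← E_sum]
      refine P.E_mono fun w hw => ?_
      by_cases hu : used s w
      · rw [ind_of hu]
        refine le_trans (Finset.sum_le_sum fun t _ => ?_) (hsumL s w)
        exact mul_le_of_le_one_right (ind_nonneg _) (ind_le_one _)
      · rw [ind_not hu, Finset.sum_eq_zero]
        intro t ht
        by_cases hl : L s t w
        · by_cases hr : Rec s t w
          · exact absurd (hused s t w hw (by have := Finset.mem_range.1 ht; omega) hl hr) hu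
          · rw [ind_not hr, mul_zero]
        · rw [ind_not hl, zero_mul]
    · rw [← Finset.sum_div]
      refine div_le_div_of_nonneg_right ?_ hm'.le
      unfold Pr
      rw [← E_sum]
      exact P.E_le_const fun w _ => hsumL s w
  refine hun.trans ?_
  calc ∑ s, ∑ t ∈ range (n + 1), P.E (fun w => ind (mem s w) * (ind (L s t w) * ind (¬ Rec s t w)))
      ≤ ∑ s, ∑ t ∈ range (n + 1),
        (P.E (fun w => ind (L s t w) * ind (Rec s t w)) + P.Pr (L s t) / m) / R := by
        refine Finset.sum_le_sum fun s _ => Finset.sum_le_sum fun t ht => ?_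
        exact hone s t (by have := Finset.mem_range.1 ht; omega)
    _ = (∑ s, ∑ t ∈ range (n + 1),
        (P.E (fun w => ind (L s t w) * ind (Rec s t w)) + P.Pr (L s t) / m)) / R := by
        rw [Finset.sum_div]
        exact Finset.sum_congr rfl fun s _ => by rw [Finset.sum_div]
    _ ≤ (∑ s, (P.E (fun w => ind (used s w)) + 1 / m)) / R :=
        div_le_div_of_nonneg_right (Finset.sum_le_sum fun s _ => hper s) hR.le
    _ = (P.E (fun w => ∑ s, ind (used s w)) + Fintype.card S / m) / R := by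
        rw [Finset.sum_add_distrib, E_sum]
        simp [div_eq_mul_inv]

/-- number of recorded references -/
theorem rec_le {S κW : Type*} [Fintype S] {m : ℕ} (xi : Om → S → Fin m) (W : S → Om → κW)
    (hxi : ∀ s j w, P.p w ≠ 0 → P.ce (W s) (fun v => ind (xi v s = j)) w = 1 / m)
    {R : ℝ} (hR : 0 ≤ R) (D : S → Om → ℝ) (hD : ∀ s, Fac (W s) (D s))
    (hD0 : ∀ s w, P.p w ≠ 0 → 0 ≤ D s w) :
    P.E (fun w => ∑ s, ind ((((xi w s : Fin m) : ℕ) : ℝ) + 1 ≤ m * (R * D s w))) ≤
      R * ∑ s, P.E (D s) := by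
  rw [E_sum, Finset.mul_sum]
  refine Finset.sum_le_sum fun s _ => ?_
  rw [← P.E_ce (W s), ← E_smul]
  refine P.E_mono fun w hw => ?_
  rw [P.ce_rec xi s (W s) (hxi s) (fun v => R * D s v) ((hD s).comp (fun z => R * z)) hw]
  exact thr_le (mul_nonneg hR (hD0 s w hw))

/-- from a weak type bound to the mean of the maximum -/
theorem E_le_dyadic (M : Om → ℝ) (h0 : ∀ w, P.p w ≠ 0 → 0 ≤ M w) (h1 : ∀ w, P.p w ≠ 0 → M w ≤ 1)
    {C : ℝ} (hw : ∀ y, 0 < y → y ≤ 1 → y * P.Pr (fun w => y ≤ M w) ≤ C) (k : ℕ) :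
    P.E M ≤ (1 / 2) ^ k * P.Pr (fun w => 0 < M w) + 2 * k * C := by
  have hpt : ∀ w, P.p w ≠ 0 → M w ≤ (1 / 2) ^ k * ind (0 < M w) +
      ∑ i ∈ range k, (1 / 2 : ℝ) ^ i * ind ((1 / 2) ^ (i + 1) ≤ M w) := by
    intro w hpw
    have hs0 : 0 ≤ ∑ i ∈ range k, (1 / 2 : ℝ) ^ i * ind ((1 / 2) ^ (i + 1) ≤ M w) :=
      Finset.sum_nonneg fun i _ => mul_nonneg (by positivity) (ind_nonneg _)
    have hk0 : (0 : ℝ) ≤ (1 / 2) ^ k * ind (0 < M w) := mul_nonneg (by positivity) (ind_nonneg _)
    rcases (h0 w hpw).eq_or_lt with he | hpos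
    · rw [← he] at hs0 hk0 ⊢
      linarith
    · by_cases hk : M w ≤ (1 / 2) ^ k
      · rw [ind_of hpos, mul_one]; linarith
      · rw [not_le] at hk
        -- the smallest i with (1/2)^(i+1) ≤ M
        have hex : ∃ i, (1 / 2 : ℝ) ^ (i + 1) ≤ M w := by
          obtain ⟨i, hi⟩ := exists_pow_lt_of_lt_one hpos (by norm_num : (1 / 2 : ℝ) < 1)
          refine ⟨i, le_trans ?_ hi.le⟩
          exact pow_le_pow_of_le_one (by norm_num) (by norm_num) (by omega)
        classical
        set i := Nat.find hex with hi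
        have hi1 : (1 / 2 : ℝ) ^ (i + 1) ≤ M w := Nat.find_spec hex
        have hik : i < k := by
          by_contra hcon
          rw [not_lt] at hcon
          rcases Nat.eq_zero_or_pos k with hk0' | hk0'
          · subst hk0'
            rw [pow_zero] at hk
            linarith [h1 w hpw]
          · have h2 : (1 / 2 : ℝ) ^ ((k - 1) + 1) ≤ M w := by
              rw [Nat.sub_add_cancel hk0']; exact hk.le
            have h3 := Nat.find_min' hex h2
            omega
        have hi2 : M w ≤ (1 / 2 : ℝ) ^ i := by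
          rcases Nat.eq_zero_or_pos i with h4 | h4
          · rw [h4, pow_zero]; exact h1 w hpw
          · have h5 := Nat.find_min hex (m := i - 1) (by omega)
            rw [not_le, Nat.sub_add_cancel h4] at h5
            exact h5.le
        have h6 : (1 / 2 : ℝ) ^ i * ind ((1 / 2 : ℝ) ^ (i + 1) ≤ M w) ≤
            ∑ i ∈ range k, (1 / 2 : ℝ) ^ i * ind ((1 / 2) ^ (i + 1) ≤ M w) :=
          Finset.single_le_sum (f := fun i => (1 / 2 : ℝ) ^ i * ind ((1 / 2 : ℝ) ^ (i + 1) ≤ M w))
            (fun i _ => mul_nonneg (by positivity) (ind_nonneg _)) (Finset.mem_range.2 hik)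
        rw [ind_of hi1, mul_one] at h6
        linarith
  refine (P.E_mono hpt).trans ?_
  rw [E_add, E_smul, E_sum]
  refine add_le_add le_rfl ?_
  calc ∑ i ∈ range k, P.E (fun w => (1 / 2 : ℝ) ^ i * ind ((1 / 2) ^ (i + 1) ≤ M w))
      ≤ ∑ i ∈ range k, 2 * C := by
        refine Finset.sum_le_sum fun i _ => ?_
        rw [E_smul]
        have h2 := hw ((1 / 2) ^ (i + 1)) (by positivity)
          (pow_le_one₀ (by norm_num) (by norm_num))
        unfold Pr at h2
        rw [pow_succ] at h2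
        have h3 : (1 / 2 : ℝ) ^ i * P.E (fun w => ind ((1 / 2 : ℝ) ^ (i + 1) ≤ M w)) =
            2 * ((1 / 2 : ℝ) ^ i * (1 / 2) * P.E (fun w => ind ((1 / 2 : ℝ) ^ i * (1 / 2) ≤ M w))) := by
          rw [pow_succ]; ring
        rw [h3]
        linarith
    _ = 2 * k * C := by rw [Finset.sum_const, card_range, nsmul_eq_mul]; ring

/-- running maximum -/
def rmax (Z : ℕ → Om → ℝ) (n : ℕ) (w : Om) : ℝ :=
  (range (n + 1)).sup' ⟨0, Finset.mem_range.2 (Nat.succ_pos n)⟩ (fun t => Z t w)

theorem le_rmax_iff (Z : ℕ → Om → ℝ) (n : ℕ) (w : Om) (c : ℝ) :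
    c ≤ rmax Z n w ↔ ∃ t ≤ n, c ≤ Z t w := by
  unfold rmax
  rw [Finset.le_sup'_iff]
  constructor
  · rintro ⟨t, ht, h⟩
    exact ⟨t, by have := Finset.mem_range.1 ht; omega, h⟩
  · rintro ⟨t, ht, h⟩
    exact ⟨t, Finset.mem_range.2 (by omega), h⟩

theorem lt_rmax_iff (Z : ℕ → Om → ℝ) (n : ℕ) (w : Om) (c : ℝ) :
    c < rmax Z n w ↔ ∃ t ≤ n, c < Z t w := by
  unfold rmax
  rw [Finset.lt_sup'_iff]
  constructor
  · rintro ⟨t, ht, h⟩
    exact ⟨t, by have := Finset.mem_range.1 ht; omega, h⟩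
  · rintro ⟨t, ht, h⟩
    exact ⟨t, Finset.mem_range.2 (by omega), h⟩

theorem le_rmax (Z : ℕ → Om → ℝ) {t n : ℕ} (h : t ≤ n) (w : Om) : Z t w ≤ rmax Z n w :=
  (le_rmax_iff Z n w _).2 ⟨t, h, le_rfl⟩

theorem rmax_le (Z : ℕ → Om → ℝ) {n : ℕ} {w : Om} {c : ℝ} (h : ∀ t ≤ n, Z t w ≤ c) :
    rmax Z n w ≤ c := by
  unfold rmax
  exact Finset.sup'_le _ _ fun t ht => h t (by have := Finset.mem_range.1 ht; omega)

theorem rmax_mono (Z : ℕ → Om → ℝ) {m n : ℕ} (h : m ≤ n) (w : Om) : rmax Z m w ≤ rmax Z n w :=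
  rmax_le Z fun _ ht => le_rmax Z (ht.trans h) w

/-- mean of the running maximum of a nonnegative supermartingale bounded by one, with inputs (births) -/
theorem E_rmax_le {κ : ℕ → Type*} {X : ∀ t, Om → κ t} (hX : Filt X) {Z : ℕ → Om → ℝ}
    {s : ℕ → Om → ℝ} (hZ : ∀ t, Fac (X t) (Z t))
    (h0 : ∀ t w, P.p w ≠ 0 → 0 ≤ Z t w) (h1 : ∀ t w, P.p w ≠ 0 → Z t w ≤ 1)
    (hs0 : ∀ t w, P.p w ≠ 0 → 0 ≤ s t w)
    (hs : ∀ t w, P.p w ≠ 0 → P.ce (X t) (Z (t + 1)) w ≤ Z t w + s t w) (n k : ℕ) :
    P.E (rmax Z n) ≤ (1 / 2) ^ k * P.Pr (fun w => ∃ t ≤ n, 0 < Z t w) +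
      2 * k * (P.E (Z 0) + ∑ t ∈ range n, P.E (s t)) := by
  have h2 := P.E_le_dyadic (rmax Z n) (fun w hw => (h0 0 w hw).trans (le_rmax Z (Nat.zero_le n) w))
    (fun w hw => rmax_le Z fun t _ => h1 t w hw)
    (C := P.E (Z 0) + ∑ t ∈ range n, P.E (s t)) (fun y hy _ => ?_) k
  · simpa only [lt_rmax_iff] using h2
  · have h3 := P.doob_super hX hZ h0 hs0 hs n hy.le
    simpa only [le_rmax_iff] using h3

end FP

/-! ## consistency of the runs -/

/-- (K0): a smaller record which contains everything used gives the same run -/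
structure Cons {S H : Type*} (hist : (ℕ → S → Prop) → ℕ → H) (use : (ℕ → S → Prop) → ℕ → S → Prop) :
    Prop where
  sub : ∀ nu t s, use nu t s → nu t s
  k0 : ∀ (nu nu' : ℕ → S → Prop) (T : ℕ), (∀ t ≤ T, ∀ s, nu' t s → nu t s) →
    (∀ t ≤ T, ∀ s, use nu t s → nu' t s) →
      ∀ t ≤ T, hist nu' t = hist nu t ∧ ∀ s, (use nu' t s ↔ use nu t s)

/-- record with `s` added from its birth on (`b t s` : `s` is born by time `t`) -/
def plus {S : Type*} (b : ℕ → S → Prop) (N : ℕ → S → Prop) (s : S) : ℕ → S → Prop :=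
  fun t r => N t r ∨ (r = s ∧ b t s)

/-- first use of `s` in the run with the record `nu` -/
def firstUse {S : Type*} (use : (ℕ → S → Prop) → ℕ → S → Prop) (nu : ℕ → S → Prop) (s : S)
    (t : ℕ) : Prop := use nu t s ∧ ∀ u < t, ¬ use nu u s

theorem firstUse_unique {S : Type*} {use : (ℕ → S → Prop) → ℕ → S → Prop} {nu : ℕ → S → Prop}
    {s : S} {t t' : ℕ} (h : firstUse use nu s t) (h' : firstUse use nu s t') : t = t' := by
  rcases lt_trichotomy t t' with h1 | h1 | h1
  · exact absurd h.1 (h'.2 t h1)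
  · exact h1
  · exact absurd h'.1 (h.2 t' h1)

/-- the run `+s` does not depend on whether `s` is recorded -/
theorem plus_congr {S : Type*} {b N N' : ℕ → S → Prop} {s : S} (hb : ∀ t, N t s → b t s)
    (hb' : ∀ t, N' t s → b t s) (h : ∀ t r, r ≠ s → (N t r ↔ N' t r)) :
    plus b N s = plus b N' s := by
  funext t r
  unfold plus
  by_cases hr : r = s
  · subst hr
    refine propext ⟨fun h1 => ?_, fun h1 => ?_⟩
    · rcases h1 with h1 | h1
      · exact Or.inr ⟨rfl, hb t h1⟩
      · exact Or.inr h1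
    · rcases h1 with h1 | h1
      · exact Or.inr ⟨rfl, hb' t h1⟩
      · exact Or.inr h1
  · refine propext ⟨fun h1 => ?_, fun h1 => ?_⟩
    · rcases h1 with h1 | h1
      · exact Or.inl ((h t r hr).1 h1)
      · exact absurd h1.1 hr
    · rcases h1 with h1 | h1
      · exact Or.inl ((h t r hr).2 h1)
      · exact absurd h1.1 hr

namespace Cons

variable {S H : Type*} {hist : (ℕ → S → Prop) → ℕ → H} {use : (ℕ → S → Prop) → ℕ → S → Prop}

private theorem core (C : Cons hist use) {b N : ℕ → S → Prop} {s : S} {T : ℕ}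
    (h : ∀ t ≤ T, use (plus b N s) t s → N t s) :
    ∀ t ≤ T, hist N t = hist (plus b N s) t ∧ ∀ r, (use N t r ↔ use (plus b N s) t r) := by
  refine C.k0 (plus b N s) N T (fun t _ r hr => Or.inl hr) (fun t ht r hr => ?_)
  rcases C.sub _ t r hr with h1 | ⟨h1, _⟩
  · exact h1
  · subst h1; exact h t ht hr

/-- before the first use both runs agree -/
theorem agree_before (C : Cons hist use) {b N : ℕ → S → Prop} {s : S} {T : ℕ}
    (h : ∀ t ≤ T, ¬ use (plus b N s) t s) : ∀ t ≤ T, hist N t = hist (plus b N s) t :=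
  fun t ht => (C.core (fun u hu hu' => absurd hu' (h u hu)) t ht).1

/-- recorded at its first use in the run `+s`: used at this time in the actual run -/
theorem used_of_rec (C : Cons hist use) {b N : ℕ → S → Prop} {s : S} {T : ℕ}
    (h : firstUse use (plus b N s) s T) (hN : N T s) : use N T s := by
  refine ((C.core (T := T) (fun t ht hu => ?_) T le_rfl).2 s).2 h.1
  rcases ht.eq_or_lt with h1 | h1
  · rw [h1]; exact hN
  · exact absurd hu (h.2 t h1)

/-- recorded at its first use in the run `+s`, or never used there: both runs agree for ever -/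
theorem agree (C : Cons hist use) {b N : ℕ → S → Prop} {s : S} (n : ℕ)
    (hmono : ∀ t u, t ≤ u → N t s → N u s)
    (h : ∀ t ≤ n, firstUse use (plus b N s) s t → N t s) :
    ∀ t ≤ n, hist N t = hist (plus b N s) t := by
  classical
  intro t ht
  refine (C.core (T := n) (fun u hu huse => ?_) t ht).1
  -- the first use is at some time `v ≤ u`
  have hex : ∃ v, use (plus b N s) v s := ⟨u, huse⟩
  have hv : firstUse use (plus b N s) s (Nat.find hex) :=
    ⟨Nat.find_spec hex, fun w hw => Nat.find_min hex hw⟩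
  have hvu : Nat.find hex ≤ u := Nat.find_min' hex huse
  exact hmono _ u hvu (h _ (hvu.trans hu) hv)

end Cons

/-- **Lemma K** for runs: outside an event of probability `(E #used + |S|/m)/R` the actual run agrees with the run `+s`
for ever, for all references `s` of the true pair -/
theorem FP.key_agree {S κW κK H : Type*} [Fintype S] {m : ℕ} (hm : 0 < m) (xi : Om → S → Fin m)
    (W : S → Om → κW)
    (hxi : ∀ s j w, P.p w ≠ 0 → P.ce (W s) (fun v => ind (xi v s = j)) w = 1 / m)
    (K : S → ℕ → Om → κK) (hWK : ∀ s t, Fac (W s) (K s t))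
    (mem : S → Om → Prop) (hWm : ∀ s, Fac (W s) (fun w => ind (mem s w)))
    {R : ℝ} (hR : 0 < R) (D : S → ℕ → Om → ℝ) (hD : ∀ s t, Fac (K s t) (D s t))
    (hDm : ∀ s t u w, t ≤ u → D s t w ≤ D s u w)
    (b : Om → ℕ → S → Prop) (N : Om → ℕ → S → Prop)
    (hN : ∀ w t s, N w t s ↔ (((xi w s : Fin m) : ℕ) : ℝ) + 1 ≤ m * (R * D s t w))
    (hist : Om → (ℕ → S → Prop) → ℕ → H) (use : Om → (ℕ → S → Prop) → ℕ → S → Prop)
    (hC : ∀ w, P.p w ≠ 0 → Cons (hist w) (use w))
    (hL : ∀ s t, Fac (K s t) (fun w => ind (firstUse (use w) (plus (b w) (N w) s) s t)))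
    (hden : ∀ s t w, P.p w ≠ 0 → firstUse (use w) (plus (b w) (N w) s) s t →
      P.ce (K s t) (fun v => ind (mem s v)) w ≤ D s t w) (n : ℕ) :
    P.Pr (fun w => ∃ s, mem s w ∧ ∃ t ≤ n, hist w (N w) t ≠ hist w (plus (b w) (N w) s) t) ≤
      (P.E (fun w => ∑ s, ind (∃ t ≤ n, use w (N w) t s)) + Fintype.card S / m) / R := by
  refine le_trans (P.Pr_mono fun w hw hex => ?_)
    (P.key_lost hm xi W hxi K hWK mem hWm hR D hD
      (fun s t w => firstUse (use w) (plus (b w) (N w) s) s t) hL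
      (fun s t t' w h h' => firstUse_unique h h') hden
      (fun s w => ∃ t ≤ n, use w (N w) t s) n
      (fun s t w hw ht hl hr => ⟨t, ht, (hC w hw).used_of_rec hl ((hN w t s).2 hr)⟩))
  obtain ⟨s, hs, t, ht, hne⟩ := hex
  refine ⟨s, hs, ?_⟩
  by_contra hcon
  refine hne ((hC w hw).agree n (fun t u htu h1 => ?_) (fun u hu hf => ?_) t ht)
  · rw [hN] at h1 ⊢
    refine h1.trans ?_
    have hm' : (0 : ℝ) ≤ m := Nat.cast_nonneg m
    exact mul_le_mul_of_nonneg_left (mul_le_mul_of_nonneg_left (hDm s t u w htu) hR.le) hm'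
  · by_contra hnr
    refine hcon ⟨u, hu, hf, fun h2 => hnr ((hN w u s).2 h2)⟩

end

end Pool.Agent.M3
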