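import Pool.Agent.M3.Nz
import Pool.Agent.M3.Rec
import Pool.Agent.M3.S3.Law

/-!
# M3.NzEnt: entropy of the published labels, hypotheses (H2), (H3) of section 3 (helper96)

* `Hc_lab_le` : entropy of one more component: `Pr (component ≠ none) (1 + log J + log |φ|) + (1/J) Pr oc`;
* `Nz.sum_ne_le` : mean number of published components `≤ 2 n0`; `Nz.act_count` : at most `J` active occasions;
* `Nz.sum_Hc` : sum over the times of the entropies `≤ 2 n0 (1 + log J + log |φ|) + 1`, for laws given by the kernels `kr`;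
* `sum_Hc_f`, `sum_Hc_g` : the same for the laws `KP.P` of section 3.
-/

set_option autoImplicit false
set_option linter.unusedSectionVars false

namespace Pool.Agent.M3

open Finset Pool.Agent.PWZ

variable {Om : Type*} [Fintype Om] {ι κ κ' : Type*}

/-- the entropy sees the support only -/
theorem FP.H_congr_sp (P : FP Om) {X X' : Om → κ} (h : ∀ w, P.p w ≠ 0 → X w = X' w) : P.H X = P.H X' := by
  unfold FP.H
  refine P.E_congr fun w hw => ?_
  congr 2
  unfold FP.m
  exact P.E_congr fun v hv => by rw [h v hv, h w hw]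

theorem FP.Hc_congr_sp (P : FP Om) {X X' : Om → κ} {Y Y' : Om → κ'} (h : ∀ w, P.p w ≠ 0 → X w = X' w)
    (h' : ∀ w, P.p w ≠ 0 → Y w = Y' w) : P.Hc X Y = P.Hc X' Y' := by
  unfold FP.Hc
  rw [P.H_congr_sp (X := fun w => (X w, Y w)) (X' := fun w => (X' w, Y' w))
    (fun w hw => by rw [h w hw, h' w hw]), P.H_congr_sp h']

/-- restriction of a label to the times `≤ t` -/
def rst {φ : Type*} {N : ℕ} (t : ℕ) (F : Fin (N + 1) → Option φ) : Fin (N + 1) → Option φ :=
  fun s => if s.val ≤ t then F s else none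

/-- ENTROPY OF ONE MORE COMPONENT -/
theorem FP.Hc_lab_le (P : FP Om) {φ : Type*} [Fintype φ] [Nonempty φ] {N : ℕ} {Lb : Om → Fin (N + 1) → Option φ}
    {t : ℕ} (s1 : Fin (N + 1)) (hs1 : s1.val = t + 1)
    (hL : ∀ w, P.p w ≠ 0 → ∀ s : Fin (N + 1), t + 1 < s.val → Lb w s = none) {Y : Om → ι} {oc : Om → Prop}
    (hoc : ∀ v w, Y v = Y w → (oc v ↔ oc w)) (ho : ∀ w, P.p w ≠ 0 → Lb w s1 ≠ none → oc w) {J : ℝ} (hJ : 0 < J) :
    P.Hc Lb (fun w => (rst t (Lb w), Y w)) ≤ P.Pr (fun w => Lb w s1 ≠ none) *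
      (1 + Real.log J + Real.log (Fintype.card φ)) + 1 / J * P.Pr oc := by
  classical
  set Z : Om → (Fin (N + 1) → Option φ) × ι := fun w => (rst t (Lb w), Y w) with hZ
  set X : Om → Option φ := fun w => Lb w s1 with hX
  set sp : Om → Prop := fun w => Lb w s1 ≠ none with hsp
  -- the label is the new component and the restriction
  have h1 : P.Hc Lb Z = P.Hc (rst (t + 1) ∘ Lb) Z := by
    refine P.Hc_congr_sp (fun w hw => ?_) (fun _ _ => rfl)
    funext s
    show Lb w s = rst (t + 1) (Lb w) s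
    unfold rst
    by_cases hs : s.val ≤ t + 1
    · rw [if_pos hs]
    · rw [if_neg hs]; exact hL w hw s (by omega)
  have h2 : P.Hc (rst (t + 1) ∘ Lb) Z ≤ P.Hc X Z := by
    refine P.Hc_mono Z ?_
    intro v w hv
    simp only [hX, hZ, Prod.mk.injEq] at hv
    obtain ⟨e1, e2, -⟩ := hv
    funext s
    show rst (t + 1) (Lb v) s = rst (t + 1) (Lb w) s
    have e3 : rst t (Lb v) s = rst t (Lb w) s := congrFun e2 s
    unfold rst at e3 ⊢
    by_cases hs : s.val ≤ t
    · rw [if_pos hs, if_pos hs] at e3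
      rw [if_pos (by omega), if_pos (by omega), e3]
    · by_cases hs' : s.val ≤ t + 1
      · have : s = s1 := Fin.ext (by omega)
        rw [if_pos hs', if_pos hs', this]; exact e1
      · rw [if_neg hs', if_neg hs']
  have h3 : P.Hc X Z ≤ P.Hc (fun w => (X w, sp w)) Z := P.Hc_mono Z ((Fac.fst _ _).trans (Fac.fst _ _))
  rw [P.Hc_chain] at h3
  have h4 : P.Hc (fun w => sp w) Z ≤ P.Hc (fun w => sp w) Y := P.Hc_anti _ (fun v w hv => by
    simp only [hZ, Prod.mk.injEq] at hv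
    exact hv.2)
  have h5 := P.Hc_event_q (s := sp) (C := oc) (Q := Y) hoc (fun w hw h => ho w hw h) (q := 1 / J) (by positivity)
  have hcard : (0 : ℝ) < Fintype.card φ := by exact_mod_cast Fintype.card_pos
  have h6 : P.Hc X (fun w => (sp w, Z w)) ≤ P.Pr sp * Real.log (Fintype.card φ) := by
    have h7 := P.Hc_on_event_le (s := sp) (X := X) (x0 := none) ((univ : Finset φ).image some)
      (fun w _ hs => by
        by_contra hn
        exact hs hn)
      (fun w _ hs => by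
        obtain ⟨y, hy⟩ := Option.ne_none_iff_exists'.1 hs
        rw [Finset.mem_image]
        exact ⟨y, Finset.mem_univ _, hy.symm⟩)
      (L := Real.log (Fintype.card φ)) (Real.log_nonneg (by exact_mod_cast Fintype.card_pos))
      (by
        rw [Real.exp_log hcard]
        exact_mod_cast Finset.card_image_le.trans (by rw [Finset.card_univ]))
    exact (P.Hc_anti X (Fac.fst _ _)).trans h7
  have h8 : Real.log (1 / (1 / J)) = Real.log J := by rw [one_div_one_div]
  rw [h8] at h5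
  have h9 : P.Pr sp * (1 + Real.log J + Real.log (Fintype.card φ)) =
      P.Pr sp * (1 + Real.log J) + P.Pr sp * Real.log (Fintype.card φ) := by ring
  rw [h1, h9]
  linarith

namespace Nz

variable {φ : Type*} [Fintype φ] {R J n0 N : ℕ}

/-- active occasion -/
def aoc (J : ℕ) (oc : ℕ → Prop) (s : ℕ) : Prop := oc s ∧ cn oc s < J

/-- at most `J` active occasions -/
theorem aoc_count (J : ℕ) (oc : ℕ → Prop) (n : ℕ) : ∑ t ∈ range n, ind (aoc J oc (t + 1)) ≤ (J : ℝ) := by
  have h1 : ∀ n, ∑ t ∈ range n, ind (aoc J oc t) = (cn (fun s => oc s ∧ cn oc s < J) n : ℝ) := by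
    intro n
    induction n with
    | zero => rw [cn_zero]; simp
    | succ n ih =>
      rw [Finset.sum_range_succ, ih]
      by_cases h : aoc J oc n
      · rw [ind_of h, cn_succ_of (p := fun s => oc s ∧ cn oc s < J) h]; push_cast; ring
      · rw [ind_not h, cn_succ_not (p := fun s => oc s ∧ cn oc s < J) h]; ring
  have h2 : ∑ t ∈ range n, ind (aoc J oc (t + 1)) ≤ ∑ t ∈ range (n + 1), ind (aoc J oc t) := by
    rw [Finset.sum_range_succ']
    linarith [ind_nonneg (aoc J oc 0)]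
  rw [h1] at h2
  refine h2.trans ?_
  exact_mod_cast card_cn_lt oc J (n + 1)

/-- number of published components -/
theorem pub_count (oc : ℕ → Prop) (tc : ℕ → Option φ) (ν : ℕ → Ns R φ) (n : ℕ) :
    ∑ t ∈ range n, ind (pub R J n0 oc tc ν (t + 1) ≠ none) ≤ 2 * n0 := by
  have h1 : ∀ n, ∑ t ∈ range n, ind (pub R J n0 oc tc ν t ≠ none) = (np R J n0 oc tc ν n : ℝ) := by
    intro n
    rw [np_eq]
    induction n with
    | zero => rw [cn_zero]; simp
    | succ n ih =>
      rw [Finset.sum_range_succ, ih]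
      by_cases h : pub R J n0 oc tc ν n = none
      · rw [ind_not (fun h' => h' h), cn_succ_not (p := fun s => pub R J n0 oc tc ν s ≠ none) (fun h' => h' h)]; ring
      · rw [ind_of (p := pub R J n0 oc tc ν n ≠ none) h, cn_succ_of (p := fun s => pub R J n0 oc tc ν s ≠ none) h]
        push_cast; ring
  have h2 : ∑ t ∈ range n, ind (pub R J n0 oc tc ν (t + 1) ≠ none) ≤
      ∑ t ∈ range (n + 1), ind (pub R J n0 oc tc ν t ≠ none) := by
    rw [Finset.sum_range_succ']
    linarith [ind_nonneg (pub R J n0 oc tc ν 0 ≠ none)]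
  rw [h1] at h2
  refine h2.trans ?_
  exact_mod_cast np_le (n + 1)

/-- averages over the kernel are averages over the noise -/
theorem sum_kr (oc : ℕ → Prop) (tc : ℕ → Option φ) (t : ℕ) (h : (Fin (N + 1) → Option φ) → ℝ) :
    ∑ F, kr R J n0 oc tc t F * h F =
      (FP.unif (Fin (N + 1) → Ns R φ)).E (fun ν => h (lab R J n0 oc tc t ν)) := by
  classical
  unfold kr FP.Pr
  have h1 : ∀ F : Fin (N + 1) → Option φ, (FP.unif (Fin (N + 1) → Ns R φ)).E
      (fun ν => ind (lab R J n0 oc tc t ν = F)) * h F =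
      (FP.unif (Fin (N + 1) → Ns R φ)).E (fun ν => ind (lab R J n0 oc tc t ν = F) * h F) := fun F => by
    rw [FP.E_mul_const]
  rw [Finset.sum_congr rfl fun F _ => h1 F, ← FP.E_sum]
  congr 1
  funext ν
  rw [Finset.sum_eq_single (lab R J n0 oc tc t ν)]
  · rw [ind_of rfl, one_mul]
  · intro F _ hF
    rw [ind_not (fun h' => hF h'.symm), zero_mul]
  · exact fun h' => absurd (Finset.mem_univ _) h'

/-- THE SUM OF THE ENTROPIES: laws `Q t` of (points, label) given by the law `P0` of the points and the kernels `kr` -/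
theorem sum_Hc [Nonempty φ] {Om Pt : Type*} [Fintype Om] [Fintype Pt] (P0 : FP Pt) (Q : ℕ → FP Om) (pt : Om → Pt)
    (Lb : Om → Fin (N + 1) → Option φ) (oc : Pt → ℕ → Prop) (tc : Pt → ℕ → Option φ)
    (hlaw : ∀ t, 1 ≤ t → t ≤ N → ∀ h : Pt → (Fin (N + 1) → Option φ) → ℝ,
      (Q t).E (fun w => h (pt w) (Lb w)) = P0.E (fun p => ∑ F, kr R J n0 (oc p) (tc p) t F * h p F))
    {ι : ℕ → Type*} (Y : ∀ t, Om → ι t)
    (hY : ∀ t v w, Y t v = Y t w → (aoc J (oc (pt v)) t ↔ aoc J (oc (pt w)) t)) (hJ : 1 ≤ J) :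
    ∑ t ∈ range N, (Q (t + 1)).Hc Lb (fun w => (rst t (Lb w), Y (t + 1) w)) ≤
      2 * n0 * (1 + Real.log J + Real.log (Fintype.card φ)) + 1 := by
  classical
  have hJ' : (0 : ℝ) < J := by exact_mod_cast hJ
  have hlJ : 0 ≤ Real.log J := Real.log_nonneg (by exact_mod_cast hJ)
  have hlc : 0 ≤ Real.log (Fintype.card φ) := Real.log_nonneg (by exact_mod_cast Fintype.card_pos)
  -- the support
  have hsupp : ∀ t, 1 ≤ t → t ≤ N → ∀ w, (Q t).p w ≠ 0 → kr R J n0 (oc (pt w)) (tc (pt w)) t (Lb w) ≠ 0 := by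
    intro t h1 h2 w hw h0
    have h3 := hlaw t h1 h2 (fun p F => ind (kr R J n0 (oc p) (tc p) t F = 0))
    have h4 : P0.E (fun p => ∑ F : Fin (N + 1) → Option φ, kr R J n0 (oc p) (tc p) t F * ind (kr R J n0 (oc p) (tc p) t F = 0)) = 0 := by
      have : ∀ p, ∑ F : Fin (N + 1) → Option φ, kr R J n0 (oc p) (tc p) t F * ind (kr R J n0 (oc p) (tc p) t F = 0) = 0 := by
        intro p
        refine Finset.sum_eq_zero fun F _ => ?_
        by_cases h : kr R J n0 (oc p) (tc p) t F = 0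
        · rw [h, zero_mul]
        · rw [ind_not h, mul_zero]
      rw [show (fun p => ∑ F : Fin (N + 1) → Option φ, kr R J n0 (oc p) (tc p) t F * ind (kr R J n0 (oc p) (tc p) t F = 0)) = fun _ => (0 : ℝ)
        from funext this, FP.E_const]
    rw [h4] at h3
    have h5 : (Q t).p w * ind (kr R J n0 (oc (pt w)) (tc (pt w)) t (Lb w) = 0) = 0 := by
      unfold FP.E at h3
      exact (Finset.sum_eq_zero_iff_of_nonneg (fun v _ => mul_nonneg ((Q t).nn v) (ind_nonneg _))).1 h3 w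
        (Finset.mem_univ w)
    rw [ind_of h0, mul_one] at h5
    exact hw h5
  -- one step
  have step : ∀ t ∈ range N, (Q (t + 1)).Hc Lb (fun w => (rst t (Lb w), Y (t + 1) w)) ≤
      P0.E (fun p => (FP.unif (Fin (N + 1) → Ns R φ)).E
        (fun ν => ind (pub R J n0 (oc p) (tc p) (sq ν) (t + 1) ≠ none))) *
        (1 + Real.log J + Real.log (Fintype.card φ)) + 1 / J * P0.E (fun p => ind (aoc J (oc p) (t + 1))) := by
    intro t ht
    have htN : t + 1 ≤ N := by
      have := Finset.mem_range.1 ht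
      omega
    have hs1 : t + 1 < N + 1 := by omega
    have h1 := (Q (t + 1)).Hc_lab_le (Lb := Lb) (t := t) ⟨t + 1, hs1⟩ rfl
      (fun w hw s hs => by
        by_contra hn
        have := ((kr_supp (hsupp (t + 1) (by omega) htN w hw)).1 s hn).1
        omega)
      (Y := Y (t + 1)) (oc := fun w => aoc J (oc (pt w)) (t + 1)) (hY (t + 1))
      (fun w hw hs => by
        have := (kr_supp (hsupp (t + 1) (by omega) htN w hw)).1 ⟨t + 1, hs1⟩ hs
        exact ⟨this.2.1, this.2.2⟩) hJ'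
    have h2 : (Q (t + 1)).Pr (fun w => Lb w ⟨t + 1, hs1⟩ ≠ none) =
        P0.E (fun p => (FP.unif (Fin (N + 1) → Ns R φ)).E
          (fun ν => ind (pub R J n0 (oc p) (tc p) (sq ν) (t + 1) ≠ none))) := by
      unfold FP.Pr
      rw [hlaw (t + 1) (by omega) htN (fun _ F => ind (F ⟨t + 1, hs1⟩ ≠ none))]
      refine P0.E_congr fun p _ => ?_
      rw [sum_kr]
      congr 1
      funext ν
      unfold lab
      rw [if_pos (le_refl (t + 1))]
    have h3 : (Q (t + 1)).Pr (fun w => aoc J (oc (pt w)) (t + 1)) = P0.E (fun p => ind (aoc J (oc p) (t + 1))) := by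
      unfold FP.Pr
      rw [hlaw (t + 1) (by omega) htN (fun p _ => ind (aoc J (oc p) (t + 1)))]
      refine P0.E_congr fun p _ => ?_
      rw [← Finset.sum_mul, kr_one, one_mul]
    rw [h2, h3] at h1
    exact h1
  refine (Finset.sum_le_sum step).trans ?_
  rw [Finset.sum_add_distrib, ← Finset.sum_mul, ← Finset.mul_sum, ← FP.E_sum, ← FP.E_sum]
  have h4 : P0.E (fun p => ∑ t ∈ range N, (FP.unif (Fin (N + 1) → Ns R φ)).E
      (fun ν => ind (pub R J n0 (oc p) (tc p) (sq ν) (t + 1) ≠ none))) ≤ 2 * n0 := by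
    refine P0.E_le_const fun p _ => ?_
    rw [← FP.E_sum]
    exact FP.E_le_const _ fun ν _ => pub_count _ _ _ N
  have h5 : P0.E (fun p => ∑ t ∈ range N, ind (aoc J (oc p) (t + 1))) ≤ J :=
    P0.E_le_const fun p _ => aoc_count J (oc p) N
  have h6 : 1 / (J : ℝ) * P0.E (fun p => ∑ t ∈ range N, ind (aoc J (oc p) (t + 1))) ≤ 1 := by
    calc 1 / (J : ℝ) * P0.E (fun p => ∑ t ∈ range N, ind (aoc J (oc p) (t + 1))) ≤ 1 / (J : ℝ) * J :=
          mul_le_mul_of_nonneg_left h5 (by positivity)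
      _ = 1 := by field_simp
  have h7 := mul_le_mul_of_nonneg_right h4 (show 0 ≤ 1 + Real.log J + Real.log (Fintype.card φ) by linarith)
  linarith

end Nz

namespace S3

open Nz

variable {X β γ φ : Type*} [Fintype X] [Fintype β] [Fintype γ] [Fintype φ] [Nonempty X] [Nonempty β] [Nonempty γ]
  [Nonempty φ] {R J n0 N : ℕ}

/-- the mean over the points is a mean for the uniform law -/
theorem unif_E3 (h : X → β → γ → ℝ) : (FP.unif (X × β × γ)).E (fun p => h p.1 p.2.1 p.2.2) = E3 h := by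
  rw [FP.unif_E, E3_eq3, Fintype.sum_prod_type]
  simp only [Fintype.sum_prod_type]
  congr 1
  rw [Fintype.card_prod, Fintype.card_prod]
  push_cast
  rfl

/-- (H2) for the first labels -/
theorem sum_Hc_f (k : ℕ → KP X β γ (Fin (N + 1) → Option φ)) (oc : X → β → γ → ℕ → Prop)
    (tc : X → β → γ → ℕ → Option φ)
    (hk : ∀ t, 1 ≤ t → t ≤ N → ∀ x b c F, (k t).f x b c F = kr R J n0 (oc x b c) (tc x b c) t F)
    {ι : ℕ → Type*} (Y : ∀ t, Sp X β γ (Fin (N + 1) → Option φ) → ι t)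
    (hY : ∀ t v w, Y t v = Y t w → (aoc J (oc v.1 v.2.1 v.2.2.1) t ↔ aoc J (oc w.1 w.2.1 w.2.2.1) t))
    (hJ : 1 ≤ J) :
    ∑ t ∈ range N, (k (t + 1)).P.Hc (fun w => w.2.2.2.1) (fun w => (rst t w.2.2.2.1, Y (t + 1) w)) ≤
      2 * n0 * (1 + Real.log J + Real.log (Fintype.card φ)) + 1 := by
  refine Nz.sum_Hc (R := R) (FP.unif (X × β × γ)) (fun t => (k t).P) (fun w => (w.1, w.2.1, w.2.2.1)) (fun w => w.2.2.2.1)
    (fun p => oc p.1 p.2.1 p.2.2) (fun p => tc p.1 p.2.1 p.2.2) ?_ Y hY hJ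
  intro t h1 h2 h
  rw [(k t).E_F (fun x b c F => h (x, b, c) F),
    unif_E3 (fun x b c => ∑ F, kr R J n0 (oc x b c) (tc x b c) t F * h (x, b, c) F)]
  exact E3_congr fun x b c => Finset.sum_congr rfl fun F _ => by rw [hk t h1 h2]

/-- (H2) for the second labels -/
theorem sum_Hc_g (k : ℕ → KP X β γ (Fin (N + 1) → Option φ)) (oc : X → β → γ → ℕ → Prop)
    (tc : X → β → γ → ℕ → Option φ)
    (hk : ∀ t, 1 ≤ t → t ≤ N → ∀ x b c F, (k t).g x b c F = kr R J n0 (oc x b c) (tc x b c) t F)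
    {ι : ℕ → Type*} (Y : ∀ t, Sp X β γ (Fin (N + 1) → Option φ) → ι t)
    (hY : ∀ t v w, Y t v = Y t w → (aoc J (oc v.1 v.2.1 v.2.2.1) t ↔ aoc J (oc w.1 w.2.1 w.2.2.1) t))
    (hJ : 1 ≤ J) :
    ∑ t ∈ range N, (k (t + 1)).P.Hc (fun w => w.2.2.2.2) (fun w => (rst t w.2.2.2.2, Y (t + 1) w)) ≤
      2 * n0 * (1 + Real.log J + Real.log (Fintype.card φ)) + 1 := by
  refine Nz.sum_Hc (R := R) (FP.unif (X × β × γ)) (fun t => (k t).P) (fun w => (w.1, w.2.1, w.2.2.1)) (fun w => w.2.2.2.2)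
    (fun p => oc p.1 p.2.1 p.2.2) (fun p => tc p.1 p.2.1 p.2.2) ?_ Y hY hJ
  intro t h1 h2 h
  rw [(k t).E_G (fun x b c F => h (x, b, c) F),
    unif_E3 (fun x b c => ∑ F, kr R J n0 (oc x b c) (tc x b c) t F * h (x, b, c) F)]
  exact E3_congr fun x b c => Finset.sum_congr rfl fun F _ => by rw [hk t h1 h2]

end S3

end Pool.Agent.M3
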