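import Pool.Agent.M3.S1Run

/-!
# M3.S1Test: product tests as a family of tests (helper27)

`X` = points of the face, `Y i` = the points seen by the `i`-th factor, `pi i : X -> Y i`; a test is
`prod_i v i (pi i x) d` with bounded functions `v i : Y i -> V -> R`.  For `m = 3`, face `(b,c)`: `v_b(d) u_c(d)`.
-/

set_option autoImplicit false

namespace Pool.Agent.M3

open Finset Pool.Agent.PWZ

noncomputable section

variable {K X V : Type} [Fintype K] {Y : K → Type}

/-- product of functions of the projections -/
def ptest (π : ∀ i, X → Y i) (v : (Σ i : K, Y i × V) → ℝ) (x : X) (d : V) : ℝ := ∏ i, v ⟨i, π i x, d⟩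

theorem ptest_aff (π : ∀ i, X → Y i) : AffTest (ptest (V := V) π) := by
  classical
  intro v j s x d
  unfold ptest
  have hdec : (Classical.decEq (Σ i : K, Y i × V)) = (fun a b => (inferInstance : Decidable (a = b))) := by
    funext a b
    exact Subsingleton.elim _ _
  rw [hdec]
  by_cases h : ∃ i : K, (⟨i, π i x, d⟩ : Σ i : K, Y i × V) = j
  · obtain ⟨i0, hi0⟩ := h
    have h1 : ∀ r : ℝ, ∏ i, (Function.update v j r) ⟨i, π i x, d⟩ =
        r * ∏ i ∈ Finset.univ.erase i0, v ⟨i, π i x, d⟩ := by
      intro r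
      rw [← Finset.mul_prod_erase Finset.univ _ (Finset.mem_univ i0), hi0, Function.update_self]
      congr 1
      refine Finset.prod_congr rfl (fun i hi => ?_)
      rw [Function.update_of_ne]
      intro hcon
      rw [← hi0] at hcon
      have : i = i0 := congrArg Sigma.fst hcon
      exact (Finset.mem_erase.1 hi).1 this
    have h2 := h1 s
    have h3 := h1 1
    have h4 := h1 (-1)
    rw [h2, h3, h4]
    ring
  · push Not at h
    have h1 : ∀ r : ℝ, ∏ i, (Function.update v j r) ⟨i, π i x, d⟩ = ∏ i, v ⟨i, π i x, d⟩ := by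
      intro r
      refine Finset.prod_congr rfl (fun i _ => ?_)
      rw [Function.update_of_ne (h i)]
    have h2 := h1 s
    have h3 := h1 1
    have h4 := h1 (-1)
    rw [h2, h3, h4]
    ring

/-- the product tests of a face -/
def prodTests [Nonempty K] (π : ∀ i, X → Y i) : Tests (Σ i : K, Y i × V) X V where
  test := ptest π
  aff := ptest_aff π
  neg := by
    classical
    intro v hv
    obtain ⟨i0⟩ := ‹Nonempty K›
    refine ⟨fun j => if j.1 = i0 then - v j else v j, fun j => ?_, fun x d => ?_⟩
    · show |if j.1 = i0 then - v j else v j| ≤ 1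
      split_ifs
      · rw [abs_neg]; exact hv j
      · exact hv j
    · show ∏ i, (if i = i0 then - v ⟨i, π i x, d⟩ else v ⟨i, π i x, d⟩) = - ∏ i, v ⟨i, π i x, d⟩
      rw [← Finset.mul_prod_erase Finset.univ _ (Finset.mem_univ i0),
        ← Finset.mul_prod_erase Finset.univ (fun i => v ⟨i, π i x, d⟩) (Finset.mem_univ i0)]
      rw [if_pos rfl]
      have h1 : ∏ i ∈ Finset.univ.erase i0, (if i = i0 then - v ⟨i, π i x, d⟩ else v ⟨i, π i x, d⟩) =
          ∏ i ∈ Finset.univ.erase i0, v ⟨i, π i x, d⟩ :=
        Finset.prod_congr rfl (fun i hi => by rw [if_neg (Finset.mem_erase.1 hi).1])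
      rw [h1]
      ring
  sq := by
    intro e he x d
    unfold ptest
    rw [← Finset.prod_pow]
    refine Finset.prod_eq_one (fun i _ => ?_)
    rcases he ⟨i, π i x, d⟩ with h | h <;> rw [h] <;> norm_num

theorem prodTests_test [Nonempty K] (π : ∀ i, X → Y i) (v : (Σ i : K, Y i × V) → ℝ) (x : X) (d : V) :
    (prodTests (V := V) π).test v x d = ∏ i, v ⟨i, π i x, d⟩ := rfl

/-- the points seen by the two factors -/
def twoY (B C : Type) (i : Bool) : Type := cond i C B

instance instFintypeTwoY (B C : Type) [Fintype B] [Fintype C] (i : Bool) : Fintype (twoY B C i) := by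
  cases i
  · exact ‹Fintype B›
  · exact ‹Fintype C›

/-- the two projections of a pair -/
def twoPi (B C : Type) : ∀ i : Bool, B × C → twoY B C i
  | false => fun x => x.1
  | true => fun x => x.2

/-- the tests of a face with two coordinates -/
def pairTests (B C V : Type) : Tests (Σ i : Bool, twoY B C i × V) (B × C) V :=
  prodTests (twoPi B C)

/-- the parameter vector of two functions -/
def twoFun {B C V : Type} (v : B → V → ℝ) (u : C → V → ℝ) : (Σ i : Bool, twoY B C i × V) → ℝ
  | ⟨false, y⟩ => v y.1 y.2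
  | ⟨true, y⟩ => u y.1 y.2

theorem pairTests_test {B C V : Type} (v : B → V → ℝ) (u : C → V → ℝ) (b : B) (c : C) (d : V) :
    (pairTests B C V).test (twoFun v u) (b, c) d = v b d * u c d := by
  unfold pairTests
  rw [prodTests_test]
  rw [Fintype.prod_bool, mul_comm]
  rfl

theorem abs_twoFun {B C V : Type} {v : B → V → ℝ} {u : C → V → ℝ} (hv : ∀ b d, |v b d| ≤ 1)
    (hu : ∀ c d, |u c d| ≤ 1) (j : Σ i : Bool, twoY B C i × V) : |twoFun v u j| ≤ 1 := by
  obtain ⟨i, y⟩ := j
  cases i
  · exact hv _ _
  · exact hu _ _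

/-- a sign test of a pair is the product of two sign functions -/
theorem pairTests_val {B C V : Type} (τ : (Σ i : Bool, twoY B C i × V) → Bool) (b : B) (c : C)
    (d : V) : (pairTests B C V).val τ (b, c) d = sgn τ ⟨false, b, d⟩ * sgn τ ⟨true, c, d⟩ := by
  unfold Tests.val pairTests
  rw [prodTests_test, Fintype.prod_bool, mul_comm]
  rfl

end

end Pool.Agent.M3
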