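import Pool.Agent.M3.S1Bin
import Pool.Agent.M3.S1Test

/-!
# M3.S1Fam (section 1 in the binary model): the structured functions and residuals of a layer (helper27)

`LB e g x` = signed list of the point `x` at the exponent `e` and the rounded node `g`; `SB`, `RB` = structured function
and residual, `F = SB + RB`, `|SB| <= 1`, `|RB| <= 2`.  Parameters: accuracy `ep`, rarity `th`; threshold of the
RULE `ep th / 16`.

* `RB_test` (P1): product tests at all nodes (`4 ep`, density `th`);
* `RB_test_fine`: the same at a finer rounding (`5 ep`, density `th K^D`);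
* `LB_mean`, `LB_future`, `LB_tail` (P3), `pubs_mean` (P4), `SB_walsh` (Walsh form), `LB_mono` (cumulative lists).
-/

set_option autoImplicit false
set_option linter.unusedSectionVars false

namespace Pool.Agent.M3.Bin

open Finset Pool.Agent.PWZ

noncomputable section

variable {k : ℕ} {X ι : Type} [Fintype X]

/-- number of steps of the RULE at a node -/
def nst (ep thr : ℝ) : ℕ := ⌊16 / (3 * ep ^ 2 * thr)⌋₊ + 1

theorem nst_lt (ep thr : ℝ) : 16 / (3 * ep ^ 2 * thr) < (nst ep thr : ℝ) := by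
  unfold nst
  push_cast
  exact Nat.lt_floor_add_one _

/-- threshold of the RULE -/
def thrs (ep th : ℝ) : ℝ := ep * th / 16

/-- the signed list of `x` at the exponent `e` and the node `g` -/
def LB (C : Cells X) (S : Tests ι X (V k)) (h N : ℕ) (ep th : ℝ) (F : X → V k → ℝ) (e : ℕ) (g : V k × ℕ) (x : X) :
    List (Birth (ι → Bool)) :=
  lst (faceNodes C k h N) S ep (thrs ep th) (nst ep (thrs ep th)) F (N - e) g x

/-- the structured function -/
def SB (C : Cells X) (S : Tests ι X (V k)) (h N : ℕ) (ep th : ℝ) (F : X → V k → ℝ) (e : ℕ) (g : V k × ℕ) (x : X)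
    (d : V k) : ℝ := struc ep S.val (LB C S h N ep th F e g x) x d

/-- the residual -/
def RB (C : Cells X) (S : Tests ι X (V k)) (h N : ℕ) (ep th : ℝ) (F : X → V k → ℝ) (e : ℕ) (g : V k × ℕ) (x : X)
    (d : V k) : ℝ := F x d - SB C S h N ep th F e g x d

/-- the number of public births at the node of `x` -/
def PB (C : Cells X) (S : Tests ι X (V k)) (h N : ℕ) (ep th : ℝ) (F : X → V k → ℝ) (e : ℕ) (g : V k × ℕ) (x : X) :
    ℕ := pubs (faceNodes C k h N) S ep (thrs ep th) (nst ep (thrs ep th)) F (N - e) g x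

variable (C : Cells X) (S : Tests ι X (V k)) (h N : ℕ) {ep th : ℝ} {F : X → V k → ℝ}

theorem abs_SB (e : ℕ) (g : V k × ℕ) (x : X) (d : V k) : |SB C S h N ep th F e g x d| ≤ 1 := abs_struc _ _ _ _ _

theorem abs_RB {x : X} {d : V k} (hF : |F x d| ≤ 1) (e : ℕ) (g : V k × ℕ) : |RB C S h N ep th F e g x d| ≤ 2 :=
  abs_resid hF _

/-- the Walsh form of the structured function -/
theorem SB_walsh (e : ℕ) (g : V k × ℕ) (x : X) (d : V k) :
    SB C S h N ep th F e g x d = ∑ I : Finset (Fin ((LB C S h N ep th F e g x).map (fun b => S.val b.τ x d)).length),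
      psiC ep ((LB C S h N ep th F e g x).map (fun b => S.val b.τ x d)).length I *
        ∏ i ∈ I, ((LB C S h N ep th F e g x).map (fun b => S.val b.τ x d)).get i := by
  unfold SB struc
  refine psi_list ep _ (fun y hy => ?_)
  obtain ⟨b, _, hb⟩ := List.mem_map.1 hy
  rw [← hb]
  exact S.val_or _ _ _

/-- the lists are cumulative: `e < N`, parent node -/
theorem LB_mono {e : ℕ} (he : e < N) (g : V k × ℕ) (x : X) :
    LB C S h N ep th F (e + 1) (par h e g) x <:+ LB C S h N ep th F e g x := by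
  unfold LB
  obtain ⟨n, hn, hn1⟩ : ∃ n, N - e = n + 1 ∧ N - (e + 1) = n := ⟨N - (e + 1), by omega, rfl⟩
  rw [hn, hn1]
  have h1 := pre_suffix (faceNodes C k h N) S (ep := ep) (thr := thrs ep th) (N := nst ep (thrs ep th)) (F := F)
    (n + 1) g x
  have h2 : pre (faceNodes C k h N) S ep (thrs ep th) (nst ep (thrs ep th)) F (n + 1) g =
      lst (faceNodes C k h N) S ep (thrs ep th) (nst ep (thrs ep th)) F n (par h e g) := by
    show lst (faceNodes C k h N) S ep (thrs ep th) (nst ep (thrs ep th)) F n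
      (if n < N then par h (N - (n + 1)) g else g) = _
    rw [if_pos (by omega), show N - (n + 1) = e by omega]
  rw [h2] at h1
  exact h1

/-- (P1): the product test at all nodes -/
theorem RB_test [Fintype ι] (hF : ∀ x d, |F x d| ≤ 1) (hep : 0 < ep) (hth : 0 < th) {e : ℕ} (he : e ≤ N)
    (g : V k × ℕ) (x0 : X) (t : ι → ℝ) (ht : ∀ i, |t i| ≤ 1) :
    (((C.cell (e - (h + 3)) x0).filter fun x =>
      4 * ep ≤ |ip e g.1 (RB C S h N ep th F e g x) (S.test t x)|).card : ℝ) ≤
      th * (C.cell (e - (h + 3)) x0).card := by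
  classical
  have hthr : 0 < thrs ep th := by unfold thrs; positivity
  have h1 := p1 (faceNodes C k h N) S (ep := ep) (thr := thrs ep th) (N := nst ep (thrs ep th)) hF hep hthr
    (nst_lt _ _) (N - e) g x0 t ht
  have he' : N - (N - e) = e := by omega
  have h2 : (faceNodes C k h N).cell (N - e) x0 = C.cell (e - (h + 3)) x0 := by
    show C.cell (N - (N - e) - (h + 3)) x0 = _
    rw [he']
  have h3 : (faceNodes C k h N).J (N - e) g = win e g.1 := by
    show win (N - (N - e)) g.1 = _
    rw [he']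
  rw [h2, h3] at h1
  have h4 : (((C.cell (e - (h + 3)) x0).filter fun x =>
      4 * ep ≤ |ip e g.1 (RB C S h N ep th F e g x) (S.test t x)|).card : ℝ) =
      ∑ q ∈ C.cell (e - (h + 3)) x0, ind (4 * ep ≤ |(win e g.1).E (fun d =>
      resid ep S.val F (lst (faceNodes C k h N) S ep (thrs ep th) (nst ep (thrs ep th)) F (N - e) g q) q d *
        S.test t q d)|) := by
    rw [Finset.card_filter]
    push_cast
    refine Finset.sum_congr rfl (fun q _ => ?_)
    have h5 : (win e g.1).E (fun d =>
        resid ep S.val F (lst (faceNodes C k h N) S ep (thrs ep th) (nst ep (thrs ep th)) F (N - e) g q) q d *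
        S.test t q d) = ip e g.1 (RB C S h N ep th F e g q) (S.test t q) := win_E_mul _ _ _ _
    rw [h5]
    by_cases hq : 4 * ep ≤ |ip e g.1 (RB C S h N ep th F e g q) (S.test t q)|
    · rw [if_pos hq, ind_of hq]
    · rw [if_neg hq, ind_not hq]
  rw [h4]
  have h6 : 4 * (thrs ep th * ((C.cell (e - (h + 3)) x0).card : ℝ)) ≤
      3 * ep * (th * (C.cell (e - (h + 3)) x0).card) := by
    unfold thrs
    have h7 : 0 ≤ ep * th * ((C.cell (e - (h + 3)) x0).card : ℝ) := by positivity
    nlinarith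
  exact le_of_mul_le_mul_left (h1.trans h6) (by positivity)

/-- the coarser node -/
def coar (h e : ℕ) (g : V k × ℕ) : V k × ℕ := (flr (e - h) g.1, g.2)

theorem coar_G {h h' : ℕ} (hh : h ≤ h') (e : ℕ) (z : V k) (w : ℕ) : coar h e (G h' e z w) = G h e z w := by
  unfold coar G gam
  simp only
  rw [flr_flr (by omega)]

/-- product tests at a finer rounding -/
theorem RB_test_fine [Fintype ι] (hF : ∀ x d, |F x d| ≤ 1) (hep : 0 < ep) (hth : 0 < th) {e : ℕ} (he : e ≤ N)
    (hT : ∀ t : ι → ℝ, (∀ i, |t i| ≤ 1) → ∀ x d, |S.test t x d| ≤ 1)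
    (hrd : 4 * ((2 : ℝ) ^ h)⁻¹ ≤ ep) {K : ℝ}
    {h' D : ℕ} (hh : h ≤ h') (hD : h' = h + D)
    (hsub : ∀ j j' x, j ≤ j' → C.cell j x ⊆ C.cell j' x)
    (hgrow : ∀ j x, j < N → ((C.cell (j + 1) x).card : ℝ) ≤ K * (C.cell j x).card) (hK : 1 ≤ K)
    (g : V k × ℕ) (x0 : X) (t : ι → ℝ) (ht : ∀ i, |t i| ≤ 1) :
    (((C.cell (e - (h' + 3)) x0).filter fun x =>
      5 * ep ≤ |ip e g.1 (RB C S h N ep th F e (coar h e g) x) (S.test t x)|).card : ℝ) ≤
      th * K ^ D * (C.cell (e - (h' + 3)) x0).card := by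
  classical
  -- from the fine window to the coarse window
  have h1 : ((C.cell (e - (h' + 3)) x0).filter fun x =>
      5 * ep ≤ |ip e g.1 (RB C S h N ep th F e (coar h e g) x) (S.test t x)|) ⊆
      ((C.cell (e - (h + 3)) x0).filter fun x =>
      4 * ep ≤ |ip e (coar h e g).1 (RB C S h N ep th F e (coar h e g) x) (S.test t x)|) := by
    intro x hx
    rw [Finset.mem_filter] at hx ⊢
    refine ⟨hsub _ _ x0 (by omega) hx.1, ?_⟩
    have h2 := ip_round h e g.1 (RB C S h N ep th F e (coar h e g) x) (S.test t x) 2 (fun d => by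
      rw [abs_mul]
      have := abs_RB C S h N (ep := ep) (th := th) (hF x d) e (coar h e g)
      have := hT t ht x d
      nlinarith [abs_nonneg (RB C S h N ep th F e (coar h e g) x d), abs_nonneg (S.test t x d)])
    have h3 : |ip e g.1 (RB C S h N ep th F e (coar h e g) x) (S.test t x)| ≤
        |ip e (flr (e - h) g.1) (RB C S h N ep th F e (coar h e g) x) (S.test t x)| +
        |ip e g.1 (RB C S h N ep th F e (coar h e g) x) (S.test t x) -
          ip e (flr (e - h) g.1) (RB C S h N ep th F e (coar h e g) x) (S.test t x)| := by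
      have := abs_add_le (ip e (flr (e - h) g.1) (RB C S h N ep th F e (coar h e g) x) (S.test t x))
        (ip e g.1 (RB C S h N ep th F e (coar h e g) x) (S.test t x) -
          ip e (flr (e - h) g.1) (RB C S h N ep th F e (coar h e g) x) (S.test t x))
      rwa [add_sub_cancel] at this
    have h4 : (coar h e g).1 = flr (e - h) g.1 := rfl
    rw [h4]
    have h5 : 2 * (2 : ℝ) * ((2 : ℝ) ^ h)⁻¹ ≤ ep := by linarith
    linarith [hx.2]
  have h2 := RB_test C S h N (F := F) hF hep hth he (coar h e g) x0 t ht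
  have h3 : ∀ D' : ℕ, ((C.cell (e - (h + 3)) x0).card : ℝ) ≤
      K ^ D' * (C.cell (e - (h + D' + 3)) x0).card := by
    intro D'
    induction D' with
    | zero => simp
    | succ D' ih =>
      refine ih.trans ?_
      rw [pow_succ, mul_assoc]
      refine mul_le_mul_of_nonneg_left ?_ (by positivity)
      rcases Nat.eq_zero_or_pos (e - (h + D' + 3)) with hz | hz
      · have : e - (h + (D' + 1) + 3) = e - (h + D' + 3) := by omega
        rw [this]
        have := (C.card_pos (e - (h + D' + 3)) x0).le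
        nlinarith
      · have : e - (h + D' + 3) = (e - (h + (D' + 1) + 3)) + 1 := by omega
        rw [this]
        exact hgrow _ _ (by omega)
  have h4 : (((C.cell (e - (h' + 3)) x0).filter fun x =>
      5 * ep ≤ |ip e g.1 (RB C S h N ep th F e (coar h e g) x) (S.test t x)|).card : ℝ) ≤
      th * (C.cell (e - (h + 3)) x0).card := by
    refine le_trans ?_ h2
    exact_mod_cast Finset.card_le_card h1
  refine h4.trans ?_
  rw [mul_assoc]
  refine mul_le_mul_of_nonneg_left ?_ hth.le
  rw [hD]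
  exact h3 D

/-! ### (P3), (P4) -/

section free

variable {Om : Type*} [Fintype Om] {Pm : FP Om} {N} (M : FreeMap Pm X k N)

/-- the length of the list of the random point at the exponent `e` -/
def LBlen (C : Cells X) (S : Tests ι X (V k)) (h : ℕ) (ep th : ℝ) (F : X → V k → ℝ) (M : FreeMap Pm X k N) (e : ℕ)
    (ω : Om) : ℝ := (LB C S h N ep th F e (G h e (M.z ω) (M.w ω)) (M.x ω)).length

theorem LBlen_eq {e : ℕ} (he : e ≤ N) (ω : Om) :
    LBlen C S h ep th F M e ω = (M.free C h).len S ep (thrs ep th) (nst ep (thrs ep th)) F (N - e) ω := by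
  unfold LBlen Free.len LB
  show _ = (List.length (lst (faceNodes C k h N) S ep (thrs ep th) (nst ep (thrs ep th)) F (N - e)
    (G h (N - (N - e)) (M.z ω) (M.w ω)) (M.x ω)) : ℝ)
  rw [show N - (N - e) = e by omega]

theorem LBlen_mono {e : ℕ} (he : e < N) (ω : Om) :
    LBlen C S h ep th F M (e + 1) ω ≤ LBlen C S h ep th F M e ω := by
  rw [LBlen_eq C S h M (by omega), LBlen_eq C S h M he.le]
  have : N - e = N - (e + 1) + 1 := by omega
  rw [this]
  exact (M.free C h).len_mono S _ ω

/-- (P3): mean length of the list at the end -/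
theorem LB_mean (hF : ∀ x d, |F x d| ≤ 1) (hep : 0 < ep) (hrd : 32 * ((2 : ℝ) ^ h)⁻¹ ≤ ep ^ 2) :
    Pm.E (LBlen C S h ep th F M 0) ≤ 2 / ep ^ 2 := by
  have h1 := (M.free C h).births_le S (thr := thrs ep th) (N := nst ep (thrs ep th)) hF hep (by linarith)
  refine le_trans (le_of_eq ?_) h1
  refine Pm.E_congr (fun ω _ => ?_)
  rw [LBlen_eq C S h M (Nat.zero_le N), Nat.sub_zero]

/-- (P3): mean number of the births after the exponent `e`, on an event of the past (`f` a function of the point, the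
exact position and the digits above) -/
theorem LB_future (hF : ∀ x d, |F x d| ≤ 1) (hep : 0 < ep) (hrd : 32 * ((2 : ℝ) ^ h)⁻¹ ≤ ep ^ 2) {e : ℕ} (he : e ≤ N)
    {f : Om → ℝ} (hf : Fac (fun ω => (M.x ω, pos e (M.z ω) (M.w ω), M.w ω / 2 ^ e)) f) (hf0 : ∀ ω, 0 ≤ f ω) :
    Pm.E (fun ω => f ω * (LBlen C S h ep th F M 0 ω - LBlen C S h ep th F M e ω)) ≤ 8 / ep ^ 2 * Pm.E f := by
  have hf' : Fac (M.info (N - e)) f := by
    intro v u hvu
    refine hf v u ?_
    unfold FreeMap.info at hvu
    rwa [show N - (N - e) = e by omega] at hvu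
  have h1 := (M.free C h).future_le S (thr := thrs ep th) (N := nst ep (thrs ep th)) hF hep (by linarith)
    (Nat.sub_le N e) hf' hf0
  refine le_trans (le_of_eq ?_) h1
  refine Pm.E_congr (fun ω _ => ?_)
  rw [LBlen_eq C S h M (Nat.zero_le N), LBlen_eq C S h M he, Nat.sub_zero]

/-- (P3): exponential tails -/
theorem LB_tail (hF : ∀ x d, |F x d| ≤ 1) (hep : 0 < ep) (hrd : 32 * ((2 : ℝ) ^ h)⁻¹ ≤ ep ^ 2) (n : ℕ) :
    Pm.Pr (fun ω => (n : ℝ) * (64 / (3 * ep ^ 2)) ≤ LBlen C S h ep th F M 0 ω) ≤ (1 / 2) ^ n := by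
  have h1 := (M.free C h).tail_le S (thr := thrs ep th) (N := nst ep (thrs ep th)) hF hep (by linarith) n
  refine le_trans (le_of_eq ?_) h1
  refine Pm.Pr_congr (fun ω _ => ?_)
  rw [LBlen_eq C S h M (Nat.zero_le N), Nat.sub_zero]

/-- (P4): mean number of public births at the nodes of the path -/
theorem pubs_mean (hF : ∀ x d, |F x d| ≤ 1) (hep : 0 < ep) (hth : 0 < th)
    (hrd : 32 * ((2 : ℝ) ^ h)⁻¹ ≤ ep ^ 2) :
    Pm.E (fun ω => ∑ e ∈ range (N + 1), (PB C S h N ep th F e (G h e (M.z ω) (M.w ω)) (M.x ω) : ℝ)) ≤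
      32 / (ep ^ 3 * th) := by
  have hthr : 0 < thrs ep th := by unfold thrs; positivity
  have h1 := (M.free C h).pubs_le S (thr := thrs ep th) (N := nst ep (thrs ep th)) hF hep hthr (by linarith)
    (fun n _ φ => M.unif C h n φ)
  have h2 : 2 / (ep ^ 2 * thrs ep th) = 32 / (ep ^ 3 * th) := by
    unfold thrs
    field_simp
    norm_num
  rw [h2] at h1
  refine le_trans (le_of_eq ?_) h1
  refine Pm.E_congr (fun ω _ => ?_)
  rw [← Finset.sum_range_reflect]
  refine Finset.sum_congr rfl (fun n hn => ?_)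
  have hn' := Finset.mem_range.1 hn
  have e1 : N + 1 - 1 - n = N - n := by omega
  have e2 : N - (N - n) = n := by omega
  rw [e1]
  unfold PB
  rw [e2]
  rfl

/-- (P4): the births of a cell at one node are thick -/
theorem pubs_thick {e : ℕ} (he : e < N) (g : V k × ℕ) (x : X) :
    thrs ep th * (C.cell (e - (h + 3)) x).card * PB C S h N ep th F e g x ≤
      ∑ q ∈ C.cell (e - (h + 3)) x, ((LB C S h N ep th F e g q).length -
        (LB C S h N ep th F (e + 1) (par h e g) q).length : ℝ) := by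
  have h1 := Pool.Agent.M3.pubs_le (faceNodes C k h N) S (ep := ep) (thr := thrs ep th)
    (N := nst ep (thrs ep th)) (F := F) (N - e) g x
  obtain ⟨n, hn, hn1⟩ : ∃ n, N - e = n + 1 ∧ N - (e + 1) = n := ⟨N - (e + 1), by omega, rfl⟩
  have h2 : (faceNodes C k h N).cell (N - e) x = C.cell (e - (h + 3)) x := by
    show C.cell (N - (N - e) - (h + 3)) x = _
    rw [show N - (N - e) = e by omega]
  have h3 : pre (faceNodes C k h N) S ep (thrs ep th) (nst ep (thrs ep th)) F (N - e) g =
      LB C S h N ep th F (e + 1) (par h e g) := by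
    funext y
    unfold LB
    rw [hn, hn1]
    show lst (faceNodes C k h N) S ep (thrs ep th) (nst ep (thrs ep th)) F n
      (if n < N then par h (N - (n + 1)) g else g) y = _
    rw [if_pos (by omega), show N - (n + 1) = e by omega]
  rw [h2, h3] at h1
  exact h1

end free

end

end Pool.Agent.M3.Bin
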