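import Pool.Agent.M3.NVof
import Pool.Agent.M3.S3.MdlA

/-!
# M3.NVNum: choice of the numbers of `nvof` and `thm3_model` (helper7)

`nv_num` : all sizes of section 2 are at most `exp (n^C1)` (the number of values `exp (exp (n^C1))`); then there are `be`,
`al`, `J`, `n0`, `Rz`, `Lam3` with all hypotheses of `nvof` and `SzM`, and the results are at most `exp (n^C)`.
-/

set_option autoImplicit false
set_option linter.unusedSectionVars false

namespace Pool.Agent.M3.Mod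

open Finset Pool.Agent.PWZ Pool.Agent.M3.Bin Real

theorem mul_exp_le {c u v : ℝ} (h : c ≤ v - u + 1) : c * Real.exp u ≤ Real.exp v := by
  have h1 : c ≤ Real.exp (v - u) := h.trans (Real.add_one_le_exp (v - u))
  have h2 : Real.exp v = Real.exp (v - u) * Real.exp u := by rw [← Real.exp_add]; ring_nf
  rw [h2]
  exact mul_le_mul_of_nonneg_right h1 (Real.exp_pos u).le

theorem nv_num (Ct C0 C1 : ℕ) : ∃ C n1 : ℕ, ∀ n : ℕ, n1 ≤ n → ∀ (M : ℕ) (Lam ne nf r1 : ℝ),
    (M : ℝ) ≤ Real.exp (Real.exp ((n : ℝ) ^ C1)) → 0 ≤ Lam → Lam ≤ Real.exp ((n : ℝ) ^ C1) →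
    0 ≤ ne → ne ≤ Real.exp ((n : ℝ) ^ C1) → 0 ≤ nf → nf ≤ Real.exp ((n : ℝ) ^ C1) →
    Real.exp (-(n : ℝ) ^ C1) ≤ r1 →
    ∃ (be al Lam3 : ℝ) (J n0 Rz : ℕ), 0 < be ∧ 0 < al ∧ al ≤ be ^ 2 ∧ be ≤ 1 ∧
      3 * be ≤ Real.exp (-Real.exp ((n : ℝ) ^ C1)) ∧ 0 < J ∧ 0 < n0 ∧
      2 * ((J : ℝ) / (Rz + 1) + (1 + (2 * nf / al + nf / be)) / J + (1 + nf) / n0) +
        qrun (Fin (M + 1)) M be ne nf Lam r1 ≤ Real.exp (-(n : ℝ) ^ C0) / 2 ∧
      SzM Rz J n0 (Fintype.card (Bool → Fin (M + 1))) Lam3 ∧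
      (2 * Lam3) ^ Ct ≤ Real.exp ((n : ℝ) ^ C) ∧ 2 * (n0 : ℝ) + nf + ne ≤ Real.exp ((n : ℝ) ^ C) ∧
      2500 * ((Ct : ℝ) * Lam3) ≤ Real.exp ((n : ℝ) ^ C) ∧ 4 * ((Ct : ℝ) * Lam3 ^ Ct) ≤ Real.exp ((n : ℝ) ^ C) := by
  refine ⟨C0 + C1 + 2 + 1, 10 ^ 4 + 8 * Ct + 8, ?_⟩
  intro n hn M Lam ne nf r1 hM hLam0 hLam hne0 hne hnf0 hnf hr1
  have hn4 : (10 : ℝ) ^ 4 + 8 * Ct + 8 ≤ n := by exact_mod_cast hn
  have hCt : (0 : ℝ) ≤ Ct := Nat.cast_nonneg _
  have hn1 : (1 : ℝ) ≤ n := by norm_num at hn4; linarith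
  have hn0 : (0 : ℝ) < n := by linarith
  set y0 : ℝ := (n : ℝ) ^ C0 with hy0
  set y1 : ℝ := (n : ℝ) ^ C1 with hy1
  set yD : ℝ := (n : ℝ) ^ (C0 + C1 + 2) with hyD
  have hy0' : 1 ≤ y0 := one_le_pow₀ hn1
  have hy1' : 1 ≤ y1 := one_le_pow₀ hn1
  have hyDe : yD = y0 * y1 * (n : ℝ) ^ 2 := by rw [hyD, hy0, hy1]; ring
  have hn2 : (10 : ℝ) ^ 8 ≤ (n : ℝ) ^ 2 := by
    have h1 : (10 : ℝ) ^ 4 ≤ n := by linarith
    calc (10 : ℝ) ^ 8 = (10 ^ 4) ^ 2 := by norm_num
      _ ≤ (n : ℝ) ^ 2 := pow_le_pow_left₀ (by norm_num) h1 2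
  have hyD8 : (10 : ℝ) ^ 8 * (y0 * y1) ≤ yD := by
    rw [hyDe, mul_comm]
    exact mul_le_mul_of_nonneg_left hn2 (by positivity)
  have hsum : y0 + y1 ≤ 2 * (y0 * y1) := by nlinarith
  have hyD7 : (10 : ℝ) ^ 7 * (y0 + y1 + 1) ≤ yD := by
    have h1 : 1 ≤ y0 * y1 := by nlinarith
    norm_num at hyD8 ⊢
    linarith
  have hCD : (n : ℝ) ^ (C0 + C1 + 2 + 1) = n * yD := by rw [hyD]; ring
  set E : ℝ := Real.exp y1 with hE
  set X : ℝ := Real.exp y0 with hX
  set F : ℝ := Real.exp yD with hF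
  have hE1 : y1 + 1 ≤ E := Real.add_one_le_exp y1
  have hX1 : y0 + 1 ≤ X := Real.add_one_le_exp y0
  have hEp : 0 < E := Real.exp_pos _
  have hXp : 0 < X := Real.exp_pos _
  have hFp : 0 < F := Real.exp_pos _
  have hFEX : (10 : ℝ) ^ 7 * (E * X) ≤ F := by
    rw [hE, hX, hF, ← Real.exp_add]
    refine mul_exp_le ?_
    norm_num at hyD7 ⊢
    linarith
  have hEX : E + X ≤ 2 * (E * X) := by nlinarith
  have hFE : (10 : ℝ) ^ 6 * (E + X) ≤ F := by
    norm_num at hFEX ⊢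
    linarith
  have hF1 : (10 : ℝ) ^ 6 ≤ F := by
    norm_num at hFE ⊢
    linarith
  norm_num at hF1 hFE hFEX hyD7
  have hFF : 1000000 * F ≤ F ^ 2 := by
    rw [sq]
    exact mul_le_mul_of_nonneg_right hF1 hFp.le
  have hyDp : 0 ≤ yD := by linarith
  have hyDn : (10000 : ℝ) * yD ≤ n * yD := mul_le_mul_of_nonneg_right (by norm_num at hn4; linarith) hyDp
  have hyDC : (8 * (Ct : ℝ)) * yD ≤ n * yD := mul_le_mul_of_nonneg_right (by linarith) hyDp
  have hyDC2 : (Ct : ℝ) * 10000000 ≤ Ct * yD := mul_le_mul_of_nonneg_left (by linarith) hCt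
  -- the numbers
  set be : ℝ := Real.exp (-F) with hbe
  set al : ℝ := Real.exp (-(2 * F)) with hal
  have hbep : 0 < be := Real.exp_pos _
  have halp : 0 < al := Real.exp_pos _
  have hbe2 : al = be ^ 2 := by
    rw [hal, hbe, ← Real.exp_nat_mul]
    congr 1
    push_cast
    ring
  have hbe1 : be ≤ 1 := by
    rw [hbe]
    exact Real.exp_le_one_iff.2 (by linarith)
  set J : ℕ := ⌈Real.exp (3 * F)⌉₊ with hJ
  set n0 : ℕ := ⌈F⌉₊ with hn0'
  set Rz : ℕ := ⌈Real.exp (4 * F)⌉₊ with hRz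
  have hJ1 : Real.exp (3 * F) ≤ J := Nat.le_ceil _
  have hJ2 : (J : ℝ) ≤ 2 * Real.exp (3 * F) := by
    have h1 := (Nat.ceil_lt_add_one (Real.exp_pos (3 * F)).le).le
    have h2 : 1 ≤ Real.exp (3 * F) := Real.one_le_exp (by linarith)
    rw [← hJ] at h1
    linarith
  have hN1 : F ≤ n0 := Nat.le_ceil _
  have hN2 : (n0 : ℝ) ≤ 2 * F := by
    have h1 := (Nat.ceil_lt_add_one hFp.le).le
    rw [← hn0'] at h1
    linarith
  have hR1 : Real.exp (4 * F) ≤ Rz := Nat.le_ceil _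
  have hR2 : (Rz : ℝ) ≤ Real.exp (4 * F) + 1 := by
    have h1 := (Nat.ceil_lt_add_one (Real.exp_pos (4 * F)).le).le
    rw [← hRz] at h1
    exact h1
  have hJp : (0 : ℝ) < J := lt_of_lt_of_le (Real.exp_pos _) hJ1
  have hNp : (0 : ℝ) < n0 := lt_of_lt_of_le hFp hN1
  have hRp : (0 : ℝ) < Rz := lt_of_lt_of_le (Real.exp_pos _) hR1
  have hXinv : Real.exp (-y0) = X⁻¹ := Real.exp_neg y0
  -- the number of values
  have hM1 : (M : ℝ) + 1 ≤ Real.exp (E + 1) := by
    have h1 : 2 * Real.exp E ≤ Real.exp (E + 1) := mul_exp_le (by linarith)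
    have h2 : 1 ≤ Real.exp E := Real.one_le_exp hEp.le
    linarith
  have hM0 : (0 : ℝ) ≤ M := Nat.cast_nonneg _
  have hm : (Fintype.card (Bool → Fin (M + 1)) : ℝ) = ((M : ℝ) + 1) ^ 2 := by
    rw [Fintype.card_fun, Fintype.card_fin, Fintype.card_bool]
    push_cast
    ring
  have hm1 : ((M : ℝ) + 1) ^ 2 ≤ Real.exp (2 * E + 2) := by
    calc ((M : ℝ) + 1) ^ 2 ≤ Real.exp (E + 1) ^ 2 := pow_le_pow_left₀ (by linarith) hM1 2
      _ = Real.exp (2 * E + 2) := by rw [← Real.exp_nat_mul]; congr 1; push_cast; ring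
  have hm0 : (1 : ℝ) ≤ ((M : ℝ) + 1) ^ 2 := one_le_pow₀ (by linarith)
  have hm2 : ((M : ℝ) + 1) ^ 2 + 1 ≤ Real.exp (2 * E + 3) := by
    have h1 : 2 * Real.exp (2 * E + 2) ≤ Real.exp (2 * E + 3) := mul_exp_le (by linarith)
    linarith
  refine ⟨be, al, 100 * F ^ 2, J, n0, Rz, hbep, halp, hbe2.le, hbe1, ?_, ?_, ?_, ?_, ?_, ?_, ?_, ?_, ?_⟩
  · refine mul_exp_le ?_
    linarith
  · exact_mod_cast hJp
  · exact_mod_cast hNp
  · -- the errors
    have hcard : (Fintype.card (Fin (M + 1) × Fin (M + 1) × Fin (M + 1) × Fin (M + 1)) : ℝ) = ((M : ℝ) + 1) ^ 4 := by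
      rw [Fintype.card_prod, Fintype.card_prod, Fintype.card_prod, Fintype.card_fin]
      push_cast
      ring
    have hr1p : 0 < r1 := lt_of_lt_of_le (Real.exp_pos _) hr1
    have hLr : Lam / r1 ≤ E * E := by
      rw [div_le_iff₀ hr1p]
      have h1 : E * Real.exp (-y1) = 1 := by rw [hE, ← Real.exp_add]; simp
      have h2 : 1 ≤ E * r1 := by
        rw [← h1]
        exact mul_le_mul_of_nonneg_left hr1 hEp.le
      calc Lam ≤ E := hLam
        _ = E * 1 := by ring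
        _ ≤ E * (E * r1) := mul_le_mul_of_nonneg_left h2 hEp.le
        _ = E * E * r1 := by ring
    have hLr0 : 0 ≤ Lam / r1 := div_nonneg hLam0 hr1p.le
    have hM4 : ((M : ℝ) + 1) ^ 4 ≤ Real.exp (4 * E + 4) := by
      calc ((M : ℝ) + 1) ^ 4 ≤ Real.exp (E + 1) ^ 4 := pow_le_pow_left₀ (by linarith) hM1 4
        _ = Real.exp (4 * E + 4) := by rw [← Real.exp_nat_mul]; congr 1; push_cast; ring
    have hEE : E ≤ Real.exp E := by
      have := Real.add_one_le_exp E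
      linarith
    have hT : 3 * ne + 4 * nf + 9 * (((M : ℝ) + 1) ^ 4 * (Lam / r1)) ≤ 16 * Real.exp (6 * E + 4) := by
      have h1 : ((M : ℝ) + 1) ^ 4 * (Lam / r1) ≤ Real.exp (4 * E + 4) * (Real.exp E * Real.exp E) :=
        mul_le_mul hM4 (hLr.trans (mul_le_mul hEE hEE hEp.le (Real.exp_pos _).le)) hLr0 (Real.exp_pos _).le
      have h2 : Real.exp (4 * E + 4) * (Real.exp E * Real.exp E) = Real.exp (6 * E + 4) := by
        rw [← Real.exp_add, ← Real.exp_add]
        congr 1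
        ring
      rw [h2] at h1
      have h3 : E ≤ Real.exp (6 * E + 4) := hEE.trans (Real.exp_le_exp.2 (by linarith))
      linarith
    have hq : qrun (Fin (M + 1)) M be ne nf Lam r1 ≤ X⁻¹ / 8 := by
      unfold qrun
      rw [hcard]
      have h1 : be * (3 * ne + 4 * nf + 9 * (((M : ℝ) + 1) ^ 4 * (Lam / r1))) ≤ be * (16 * Real.exp (6 * E + 4)) :=
        mul_le_mul_of_nonneg_left hT hbep.le
      have h2 : be * (16 * Real.exp (6 * E + 4)) = 16 * Real.exp (6 * E + 4 - F) := by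
        rw [hbe, mul_left_comm, ← Real.exp_add]
        congr 2
        ring
      have h3 : 128 * Real.exp (6 * E + 4 - F) ≤ Real.exp (-y0) := mul_exp_le (by linarith)
      rw [h2] at h1
      rw [hXinv] at h3
      linarith
    have hA : (J : ℝ) / (Rz + 1) ≤ X⁻¹ / 32 := by
      rw [div_le_iff₀ (by positivity)]
      have h1 : 64 * Real.exp (-F) ≤ Real.exp (-y0) := mul_exp_le (by linarith)
      have h2 : Real.exp (3 * F) = Real.exp (-F) * Real.exp (4 * F) := by rw [← Real.exp_add]; ring_nf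
      rw [hXinv] at h1
      calc (J : ℝ) ≤ 2 * Real.exp (3 * F) := hJ2
        _ = (2 * Real.exp (-F)) * Real.exp (4 * F) := by rw [h2]; ring
        _ ≤ (X⁻¹ / 32) * Real.exp (4 * F) := mul_le_mul_of_nonneg_right (by linarith) (Real.exp_pos _).le
        _ ≤ X⁻¹ / 32 * (Rz + 1) := mul_le_mul_of_nonneg_left (by linarith) (by positivity)
    have hB : (1 + (2 * nf / al + nf / be)) / (J : ℝ) ≤ X⁻¹ / 32 := by
      rw [div_le_iff₀ hJp]
      have h1 : 1 / al = Real.exp (2 * F) := by rw [hal, Real.exp_neg, one_div, inv_inv]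
      have h2 : 1 / be = Real.exp F := by rw [hbe, Real.exp_neg, one_div, inv_inv]
      have h3 : 2 * nf / al + nf / be = 2 * nf * (1 / al) + nf * (1 / be) := by ring
      rw [h3, h1, h2]
      have h4 : Real.exp F ≤ Real.exp (2 * F) := Real.exp_le_exp.2 (by linarith)
      have h5 : 1 ≤ Real.exp (2 * F) := Real.one_le_exp (by linarith)
      have h6 : 1 + (2 * nf * Real.exp (2 * F) + nf * Real.exp F) ≤ 4 * (E * Real.exp (2 * F)) := by
        have a1 : nf * Real.exp (2 * F) ≤ E * Real.exp (2 * F) := mul_le_mul_of_nonneg_right hnf (Real.exp_pos _).le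
        have a2 : nf * Real.exp F ≤ E * Real.exp (2 * F) := mul_le_mul hnf h4 (Real.exp_pos _).le hEp.le
        have a3 : 1 * 1 ≤ E * Real.exp (2 * F) := mul_le_mul (by linarith) h5 (by norm_num) hEp.le
        linarith
      have h7 : 128 * Real.exp (y1 - F) ≤ Real.exp (-y0) := mul_exp_le (by linarith)
      have h8 : E * Real.exp (2 * F) = Real.exp (y1 - F) * Real.exp (3 * F) := by
        rw [hE, ← Real.exp_add, ← Real.exp_add]
        congr 1
        ring
      rw [hXinv] at h7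
      refine h6.trans ?_
      rw [h8]
      calc 4 * (Real.exp (y1 - F) * Real.exp (3 * F)) = (4 * Real.exp (y1 - F)) * Real.exp (3 * F) := by ring
        _ ≤ (X⁻¹ / 32) * Real.exp (3 * F) := mul_le_mul_of_nonneg_right (by linarith) (Real.exp_pos _).le
        _ ≤ X⁻¹ / 32 * J := mul_le_mul_of_nonneg_left hJ1 (by positivity)
    have hC : (1 + nf) / (n0 : ℝ) ≤ X⁻¹ / 32 := by
      rw [div_le_iff₀ hNp]
      have h1 : 64 * (E * X) ≤ F := by
        have := mul_pos hEp hXp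
        linarith
      have h2 : 64 * E ≤ X⁻¹ * F := by
        rw [inv_mul_eq_div, le_div_iff₀ hXp]
        linarith
      have h3 : X⁻¹ * F ≤ X⁻¹ * n0 := mul_le_mul_of_nonneg_left hN1 (by positivity)
      linarith
    rw [hXinv]
    have hXi : 0 < X⁻¹ := inv_pos.2 hXp
    linarith
  · -- the sizes
    have hE1F : 2 * E + 5 ≤ F := by linarith
    refine ⟨?_, ?_, ?_, ?_, ?_, ?_⟩
    · have h1 : (1 : ℝ) ≤ Rz := (Real.one_le_exp (by linarith)).trans hR1
      exact_mod_cast h1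
    · have h1 : (1 : ℝ) ≤ J := (Real.one_le_exp (by linarith)).trans hJ1
      exact_mod_cast h1
    · linarith
    · have h2J : 2 * J ≤ Rz + 1 := by
        have h1 : 4 * Real.exp (3 * F) ≤ Real.exp (4 * F) := mul_exp_le (by linarith)
        have h2 : (2 : ℝ) * J ≤ Rz + 1 := by linarith
        exact_mod_cast h2
      refine le_trans ?_ (Nz.alz_ge h2J)
      rw [hm]
      have h3 : ((Rz : ℝ) + 1) * (((M : ℝ) + 1) ^ 2 + 1) ≤ Real.exp (5 * F) := by
        have a1 : (Rz : ℝ) + 1 ≤ Real.exp (4 * F + 2) := by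
          have b1 : 3 * Real.exp (4 * F) ≤ Real.exp (4 * F + 2) := mul_exp_le (by linarith)
          have b2 : 1 ≤ Real.exp (4 * F) := Real.one_le_exp (by linarith)
          linarith
        calc ((Rz : ℝ) + 1) * (((M : ℝ) + 1) ^ 2 + 1) ≤ Real.exp (4 * F + 2) * Real.exp (2 * E + 3) :=
              mul_le_mul a1 hm2 (by positivity) (Real.exp_pos _).le
          _ = Real.exp (4 * F + 2 + (2 * E + 3)) := by rw [← Real.exp_add]
          _ ≤ Real.exp (5 * F) := Real.exp_le_exp.2 (by linarith)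
      have h4 : Real.exp (-(5 * F)) ≤ 1 / (((Rz : ℝ) + 1) * (((M : ℝ) + 1) ^ 2 + 1)) := by
        rw [Real.exp_neg, ← one_div]
        exact one_div_le_one_div_of_le (by positivity) h3
      have h5 : Real.exp (-(5 * F)) ^ (3 * n0) ≤ (1 / (((Rz : ℝ) + 1) * (((M : ℝ) + 1) ^ 2 + 1))) ^ (3 * n0) :=
        pow_le_pow_left₀ (Real.exp_pos _).le h4 _
      have h6 : Real.exp (-(5 * F)) ^ (3 * n0) = Real.exp (-(15 * F * n0)) := by
        rw [← Real.exp_nat_mul]
        congr 1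
        push_cast
        ring
      have h7 : Real.exp (-(15 * F * (2 * F))) ≤ Real.exp (-(15 * F * n0)) :=
        Real.exp_le_exp.2 (neg_le_neg (mul_le_mul_of_nonneg_left hN2 (by positivity)))
      have h8 : 2 * Real.exp (-(100 * F ^ 2)) ≤ Real.exp (-(15 * F * (2 * F))) := by
        refine mul_exp_le ?_
        have h9 : 15 * F * (2 * F) = 30 * F ^ 2 := by ring
        rw [h9]
        linarith
      rw [h6] at h5
      linarith
    · have h1 : 2 * Real.exp (3 * F) ≤ Real.exp (100 * F ^ 2) := mul_exp_le (by linarith)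
      exact hJ2.trans h1
    · rw [hm]
      have h1 : Real.log (((M : ℝ) + 1) ^ 2 + 1) ≤ 2 * E + 3 := by
        rw [← Real.log_exp (2 * E + 3)]
        exact Real.log_le_log (by positivity) hm2
      have h2 : Real.log (((M : ℝ) + 1) ^ 2) ≤ 2 * E + 2 := by
        rw [← Real.log_exp (2 * E + 2)]
        exact Real.log_le_log (by positivity) hm1
      have h3 : Real.log (J : ℝ) ≤ 3 * F + 1 := by
        rw [← Real.log_exp (3 * F + 1)]
        have a1 : 2 * Real.exp (3 * F) ≤ Real.exp (3 * F + 1) := mul_exp_le (by linarith)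
        exact Real.log_le_log hJp (hJ2.trans a1)
      have h4 : 1 + Real.log (J : ℝ) + Real.log (((M : ℝ) + 1) ^ 2) ≤ 5 * F := by linarith
      have h5 : 2 * (n0 : ℝ) * (1 + Real.log (J : ℝ) + Real.log (((M : ℝ) + 1) ^ 2)) ≤ 2 * (2 * F) * (5 * F) :=
        (mul_le_mul_of_nonneg_left h4 (by positivity)).trans
          (mul_le_mul_of_nonneg_right (by linarith) (by positivity))
      have h6 : 2 * (2 * F) * (5 * F) = 20 * F ^ 2 := by ring
      rw [h6] at h5
      linarith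
  · -- power
    rw [hCD]
    have h1 : 2 * (100 * F ^ 2) ≤ Real.exp (3 * yD) := by
      have a1 : F ^ 2 = Real.exp (2 * yD) := by
        rw [hF, ← Real.exp_nat_mul]
        congr 1
      rw [a1]
      have a2 : 200 * Real.exp (2 * yD) ≤ Real.exp (3 * yD) := mul_exp_le (by linarith)
      linarith
    calc (2 * (100 * F ^ 2)) ^ Ct ≤ Real.exp (3 * yD) ^ Ct := pow_le_pow_left₀ (by positivity) h1 Ct
      _ = Real.exp ((Ct : ℝ) * (3 * yD)) := (Real.exp_nat_mul _ _).symm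
      _ ≤ Real.exp (n * yD) := Real.exp_le_exp.2 (by
          have h5 : 0 ≤ (Ct : ℝ) * yD := mul_nonneg hCt hyDp
          linarith)
  · rw [hCD]
    have h1 : 6 * Real.exp yD ≤ Real.exp (n * yD) := mul_exp_le (by linarith)
    linarith
  · rw [hCD]
    have a1 : F ^ 2 = Real.exp (2 * yD) := by
      rw [hF, ← Real.exp_nat_mul]
      congr 1
    rw [a1]
    have h1 : (250000 * (Ct : ℝ)) * Real.exp (2 * yD) ≤ Real.exp (n * yD) := by
      refine mul_exp_le ?_
      linarith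
    linarith
  · rw [hCD]
    have h1 : 100 * F ^ 2 ≤ Real.exp (3 * yD) := by
      have a1 : F ^ 2 = Real.exp (2 * yD) := by
        rw [hF, ← Real.exp_nat_mul]
        congr 1
      rw [a1]
      exact mul_exp_le (by linarith)
    have h2 : (100 * F ^ 2) ^ Ct ≤ Real.exp ((Ct : ℝ) * (3 * yD)) := by
      rw [Real.exp_nat_mul]
      exact pow_le_pow_left₀ (by positivity) h1 Ct
    have h3 : (4 * (Ct : ℝ)) * Real.exp ((Ct : ℝ) * (3 * yD)) ≤ Real.exp (n * yD) := by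
      refine mul_exp_le ?_
      linarith
    have h5 : (Ct : ℝ) * (100 * F ^ 2) ^ Ct ≤ (Ct : ℝ) * Real.exp ((Ct : ℝ) * (3 * yD)) :=
      mul_le_mul_of_nonneg_left h2 hCt
    linarith

end Pool.Agent.M3.Mod
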