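import Pool.Agent.M3.Indep

/-!
# M3.Nz: the noise mechanism of the published labels (row 3 of table m3, HOW 2B GIVES (H1)-(H3); helper7)

One pair, times `s = 0, 1, ..`. SCRIPT `oc s` = there is an occasion at the time `s`, `tc s : Option φ` = true component
(`none` = the recorded label does not change). NOISE `ν s : Fin (R+1) × Option φ`: the noise strikes if the first coordinate
is `0`, then the second coordinate is published. At most `J` occasions, `n0` true components, `2 n0` published components.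
* `pub ν s` = component published at the time `s`; `lab t ν` = everything published up to the time `t`;
* `np_le`, `pub_eq` (no strike: the true component is published), `pub_congr` (locality);
* `kr t F` = probability that `F` is published up to `t` (uniform noise), `kr_thick`: two points with the same occasions:
  `kr t F ≠ 0 → al ≤ kr' t F`, `al = (R/(R+1))^J (1/((R+1)(|φ|+1)))^(3 n0)`;
* `strike_le`: probability of a strike at one of the first `J` occasions `≤ J/(R+1)`.
-/

set_option autoImplicit false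
set_option linter.unusedSectionVars false

namespace Pool.Agent.M3

open Finset Pool.Agent.PWZ

namespace Nz

noncomputable section

open Classical in
/-- number of times before `t` at which `p` holds -/
def cn (p : ℕ → Prop) (t : ℕ) : ℕ := ((range t).filter p).card

theorem cn_zero (p : ℕ → Prop) : cn p 0 = 0 := by unfold cn; simp

theorem cn_succ_of {p : ℕ → Prop} {t : ℕ} (h : p t) : cn p (t + 1) = cn p t + 1 := by
  classical
  unfold cn
  rw [Finset.range_add_one, Finset.filter_insert, if_pos h, Finset.card_insert_of_notMem]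
  simp

theorem cn_succ_not {p : ℕ → Prop} {t : ℕ} (h : ¬ p t) : cn p (t + 1) = cn p t := by
  classical
  unfold cn
  rw [Finset.range_add_one, Finset.filter_insert, if_neg h]

theorem cn_mono (p : ℕ → Prop) {s t : ℕ} (h : s ≤ t) : cn p s ≤ cn p t := by
  classical
  unfold cn
  exact Finset.card_le_card (Finset.filter_subset_filter _ (Finset.range_mono h))

theorem cn_congr {p q : ℕ → Prop} {t : ℕ} (h : ∀ s < t, (p s ↔ q s)) : cn p t = cn q t := by
  classical
  unfold cn
  congr 1
  refine Finset.filter_congr fun s hs => h s (Finset.mem_range.1 hs)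

theorem cn_le_of_imp {p q : ℕ → Prop} {t : ℕ} (h : ∀ s < t, p s → q s) : cn p t ≤ cn q t := by
  classical
  unfold cn
  refine Finset.card_le_card fun s hs => ?_
  rw [Finset.mem_filter] at hs ⊢
  exact ⟨hs.1, h s (Finset.mem_range.1 hs.1) hs.2⟩

theorem cn_or_le {p q r : ℕ → Prop} (h : ∀ s, p s → q s ∨ r s) (t : ℕ) : cn p t ≤ cn q t + cn r t := by
  classical
  unfold cn
  refine le_trans (Finset.card_le_card ?_) (Finset.card_union_le _ _)
  intro s hs
  rw [Finset.mem_filter] at hs
  rw [Finset.mem_union, Finset.mem_filter, Finset.mem_filter]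
  rcases h s hs.2 with h | h
  · exact Or.inl ⟨hs.1, h⟩
  · exact Or.inr ⟨hs.1, h⟩

/-- the points at which the counter is still below `m` are at most `m` -/
theorem card_cn_lt (p : ℕ → Prop) (m n : ℕ) : cn (fun s => p s ∧ cn p s < m) n ≤ m := by
  classical
  induction n with
  | zero => rw [cn_zero]; exact Nat.zero_le _
  | succ n ih =>
    by_cases h : p n ∧ cn p n < m
    · rw [cn_succ_of h]
      have h1 : cn (fun s => p s ∧ cn p s < m) n ≤ cn p n := cn_le_of_imp fun s _ hs => hs.1
      omega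
    · rw [cn_succ_not h]; exact ih

variable {φ : Type*} (R J n0 : ℕ)

/-- one symbol of noise -/
abbrev Ns (R : ℕ) (φ : Type*) := Fin (R + 1) × Option φ

open Classical in
/-- true components, at most `n0` -/
def ptc (tc : ℕ → Option φ) (s : ℕ) : Option φ := if cn (fun r => tc r ≠ none) s < n0 then tc s else none

/-- something may be published at the time `s`, `m` = number of components published before -/
def act (oc : ℕ → Prop) (s m : ℕ) : Prop := oc s ∧ cn oc s < J ∧ m < 2 * n0

open Classical in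
/-- the component published at the time `s` -/
def pcm (oc : ℕ → Prop) (tc : ℕ → Option φ) (ν : ℕ → Ns R φ) (s m : ℕ) : Option φ :=
  if act J n0 oc s m then (if (ν s).1 = 0 then (ν s).2 else ptc n0 tc s) else none

open Classical in
/-- number of components published before `s` -/
def np (oc : ℕ → Prop) (tc : ℕ → Option φ) (ν : ℕ → Ns R φ) : ℕ → ℕ
  | 0 => 0
  | s + 1 => np oc tc ν s + if pcm R J n0 oc tc ν s (np oc tc ν s) = none then 0 else 1

/-- the component published at the time `s` -/
def pub (oc : ℕ → Prop) (tc : ℕ → Option φ) (ν : ℕ → Ns R φ) (s : ℕ) : Option φ :=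
  pcm R J n0 oc tc ν s (np R J n0 oc tc ν s)

end

variable {φ : Type*} {R J n0 : ℕ} {oc oc' : ℕ → Prop} {tc tc' : ℕ → Option φ} {ν ν' : ℕ → Ns R φ}

theorem np_eq (s : ℕ) : np R J n0 oc tc ν s = cn (fun r => pub R J n0 oc tc ν r ≠ none) s := by
  classical
  induction s with
  | zero => rw [cn_zero]; rfl
  | succ s ih =>
    rw [np]
    by_cases h : pcm R J n0 oc tc ν s (np R J n0 oc tc ν s) = none
    · rw [if_pos h, cn_succ_not (by unfold pub; exact fun h' => h' h), ih]; rfl
    · rw [if_neg h, cn_succ_of (by unfold pub; exact h), ih]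

theorem pub_act {s : ℕ} (h : pub R J n0 oc tc ν s ≠ none) : act J n0 oc s (np R J n0 oc tc ν s) := by
  classical
  by_contra hn
  apply h
  unfold pub pcm
  rw [if_neg hn]

theorem np_le (s : ℕ) : np R J n0 oc tc ν s ≤ 2 * n0 := by
  classical
  induction s with
  | zero => exact Nat.zero_le _
  | succ s ih =>
    rw [np]
    by_cases h : pcm R J n0 oc tc ν s (np R J n0 oc tc ν s) = none
    · rw [if_pos h]; exact ih
    · rw [if_neg h]
      have h1 := (pub_act (R := R) (J := J) (n0 := n0) (oc := oc) (tc := tc) (ν := ν) (s := s) h).2.2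
      omega

/-- nothing is published outside the occasions -/
theorem pub_oc {s : ℕ} (h : ¬ oc s) : pub R J n0 oc tc ν s = none := by
  by_contra hn
  exact h (pub_act hn).1

theorem ptc_count (tc : ℕ → Option φ) (n0 t : ℕ) : cn (fun s => ptc n0 tc s ≠ none) t ≤ n0 := by
  classical
  refine le_trans (cn_le_of_imp fun s _ hs => ?_) (card_cn_lt (fun s => tc s ≠ none) n0 t)
  unfold ptc at hs
  by_cases h : cn (fun r => tc r ≠ none) s < n0
  · rw [if_pos h] at hs; exact ⟨hs, h⟩
  · rw [if_neg h] at hs; exact absurd rfl hs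

theorem ptc_congr {t : ℕ} (h : ∀ s ≤ t, tc s = tc' s) {s : ℕ} (hs : s ≤ t) : ptc n0 tc s = ptc n0 tc' s := by
  classical
  unfold ptc
  rw [h s hs, cn_congr (q := fun r => tc' r ≠ none) fun r hr => by rw [h r (by omega)]]

/-- locality -/
theorem pub_congr {t : ℕ} (ho : ∀ s ≤ t, (oc s ↔ oc' s)) (hc : ∀ s ≤ t, tc s = tc' s) (hn : ∀ s ≤ t, ν s = ν' s) :
    ∀ s ≤ t, pub R J n0 oc tc ν s = pub R J n0 oc' tc' ν' s := by
  classical
  have key : ∀ s ≤ t, np R J n0 oc tc ν s = np R J n0 oc' tc' ν' s → pub R J n0 oc tc ν s = pub R J n0 oc' tc' ν' s := by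
    intro s hs h
    unfold pub pcm
    have ha : act J n0 oc s (np R J n0 oc tc ν s) ↔ act J n0 oc' s (np R J n0 oc' tc' ν' s) := by
      unfold act
      rw [h, ho s hs, cn_congr (q := oc') fun r hr => ho r (by omega)]
    by_cases h1 : act J n0 oc s (np R J n0 oc tc ν s)
    · rw [if_pos h1, if_pos (ha.1 h1), hn s hs, ptc_congr hc hs]
    · rw [if_neg h1, if_neg (fun h2 => h1 (ha.2 h2))]
  have hnp : ∀ s ≤ t, np R J n0 oc tc ν s = np R J n0 oc' tc' ν' s := by
    intro s
    induction s with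
    | zero => intro _; rfl
    | succ s ih =>
      intro hs
      have h1 := ih (by omega)
      have h2 := key s (by omega) h1
      unfold pub at h2
      rw [np, np, h1, ← h2, h1]
  exact fun s hs => key s hs (hnp s hs)

/-- no strike: the true component is published -/
theorem pub_eq {t : ℕ} (hto : ∀ s ≤ t, tc s ≠ none → oc s) (hJ : cn oc (t + 1) ≤ J)
    (hn0 : cn (fun s => tc s ≠ none) (t + 1) ≤ n0) (hst : ∀ s ≤ t, oc s → cn oc s < J → (ν s).1 ≠ 0) :
    ∀ s ≤ t, pub R J n0 oc tc ν s = tc s := by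
  classical
  have key : ∀ s ≤ t, np R J n0 oc tc ν s = cn (fun s => tc s ≠ none) s → pub R J n0 oc tc ν s = tc s := by
    intro s hs h
    unfold pub pcm
    by_cases ho : oc s
    · have hJs : cn oc s < J := by
        have h1 := cn_succ_of ho
        have h2 := cn_mono oc (show s + 1 ≤ t + 1 by omega)
        omega
      by_cases ht : tc s = none
      · by_cases ha : act J n0 oc s (np R J n0 oc tc ν s)
        · rw [if_pos ha, if_neg (hst s hs ho hJs)]
          unfold ptc
          rw [ht]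
          split_ifs <;> rfl
        · rw [if_neg ha, ht]
      · have h1 : cn (fun s => tc s ≠ none) s < n0 := by
          have h1 := cn_succ_of (p := fun s => tc s ≠ none) ht
          have h2 := cn_mono (fun s => tc s ≠ none) (show s + 1 ≤ t + 1 by omega)
          omega
        have ha : act J n0 oc s (np R J n0 oc tc ν s) := ⟨ho, hJs, by rw [h]; omega⟩
        rw [if_pos ha, if_neg (hst s hs ho hJs)]
        unfold ptc
        rw [if_pos h1]
    · have ht : tc s = none := by
        by_contra h1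
        exact ho (hto s hs h1)
      rw [if_neg (fun ha => ho ha.1), ht]
  have hnp : ∀ s ≤ t + 1, np R J n0 oc tc ν s = cn (fun s => tc s ≠ none) s := by
    intro s
    induction s with
    | zero => intro _; rw [cn_zero]; rfl
    | succ s ih =>
      intro hs
      have h1 := ih (by omega)
      have h2 := key s (by omega) h1
      unfold pub at h2
      rw [np, h2, h1]
      by_cases h3 : tc s = none
      · rw [if_pos h3, cn_succ_not (p := fun s => tc s ≠ none) (fun h => h h3), Nat.add_zero]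
      · rw [if_neg h3, cn_succ_of (p := fun s => tc s ≠ none) h3]
  exact fun s hs => key s hs (hnp s (by omega))

/-! ### finite noise -/

section fin

variable {φ : Type*} [Fintype φ] {N : ℕ}

noncomputable section

/-- the noise up to the time `N` as a sequence -/
def sq {R : ℕ} (ν : Fin (N + 1) → Ns R φ) (s : ℕ) : Ns R φ := if h : s < N + 1 then ν ⟨s, h⟩ else (Fin.last R, none)

/-- everything published up to the time `t ≤ N` -/
def lab (R J n0 : ℕ) (oc : ℕ → Prop) (tc : ℕ → Option φ) (t : ℕ) (ν : Fin (N + 1) → Ns R φ) :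
    Fin (N + 1) → Option φ :=
  fun s => if s.val ≤ t then pub R J n0 oc tc (sq ν) s.val else none

/-- probability that `F` is published up to the time `t` -/
def kr (R J n0 : ℕ) (oc : ℕ → Prop) (tc : ℕ → Option φ) (t : ℕ) (F : Fin (N + 1) → Option φ) : ℝ :=
  (FP.unif (Fin (N + 1) → Ns R φ)).Pr (fun ν => lab R J n0 oc tc t ν = F)

/-- the thickness -/
def alz (R J n0 m : ℕ) : ℝ := ((R : ℝ) / (R + 1)) ^ J * (1 / ((R + 1) * (m + 1))) ^ (3 * n0)

end

variable {R J n0 : ℕ} {oc oc' : ℕ → Prop} {tc tc' : ℕ → Option φ}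

theorem sq_of {ν : Fin (N + 1) → Ns R φ} (s : Fin (N + 1)) : sq ν s.val = ν s := by
  unfold sq
  rw [dif_pos s.2]

theorem kr_nn (t : ℕ) (F : Fin (N + 1) → Option φ) : 0 ≤ kr R J n0 oc tc t F := FP.Pr_nonneg _ _

theorem kr_one [DecidableEq φ] (t : ℕ) : ∑ F : Fin (N + 1) → Option φ, kr R J n0 oc tc t F = 1 := by
  classical
  unfold kr FP.Pr
  rw [← FP.E_sum]
  have h1 : (FP.unif (Fin (N + 1) → Ns R φ)).E (fun ν => ∑ F, ind (lab R J n0 oc tc t ν = F)) =
      (FP.unif (Fin (N + 1) → Ns R φ)).E (fun _ => 1) := by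
    congr 1
    funext ν
    rw [Finset.sum_eq_single (lab R J n0 oc tc t ν)]
    · exact ind_of rfl
    · exact fun F _ h => ind_not fun h' => h h'.symm
    · exact fun h => absurd (Finset.mem_univ _) h
  rw [h1]
  exact FP.E_const _ 1

/-- locality of the kernel -/
theorem lab_congr {t : ℕ} (ho : ∀ s ≤ t, (oc s ↔ oc' s)) (hc : ∀ s ≤ t, tc s = tc' s) (ν : Fin (N + 1) → Ns R φ) :
    lab R J n0 oc tc t ν = lab R J n0 oc' tc' t ν := by
  funext s
  unfold lab
  by_cases h : s.val ≤ t
  · rw [if_pos h, if_pos h]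
    exact pub_congr ho hc (fun _ _ => rfl) s.val h
  · rw [if_neg h, if_neg h]

theorem kr_congr {t : ℕ} (ho : ∀ s ≤ t, (oc s ↔ oc' s)) (hc : ∀ s ≤ t, tc s = tc' s) (F : Fin (N + 1) → Option φ) :
    kr R J n0 oc tc t F = kr R J n0 oc' tc' t F := by
  unfold kr
  congr 1
  funext ν
  rw [lab_congr ho hc]

/-- the label at the time `t` is the restriction of the label at the time `t + 1` -/
theorem lab_restrict (t : ℕ) (ν : Fin (N + 1) → Ns R φ) :
    lab R J n0 oc tc t ν = fun s => if s.val ≤ t then lab R J n0 oc tc (t + 1) ν s else none := by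
  funext s
  unfold lab
  by_cases h : s.val ≤ t
  · rw [if_pos h, if_pos h, if_pos (by omega)]
  · rw [if_neg h, if_neg h]

open Classical in
/-- refinement -/
theorem kr_restrict (t : ℕ) (F : Fin (N + 1) → Option φ) :
    kr R J n0 oc tc t F = ∑ F' : Fin (N + 1) → Option φ,
      ind ((fun s : Fin (N + 1) => if s.val ≤ t then F' s else none) = F) * kr R J n0 oc tc (t + 1) F' := by
  unfold kr FP.Pr
  have h1 : ∀ F' : Fin (N + 1) → Option φ,
      ind ((fun s : Fin (N + 1) => if s.val ≤ t then F' s else none) = F) *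
        (FP.unif (Fin (N + 1) → Ns R φ)).E (fun ν => ind (lab R J n0 oc tc (t + 1) ν = F')) =
      (FP.unif (Fin (N + 1) → Ns R φ)).E (fun ν =>
        ind ((fun s : Fin (N + 1) => if s.val ≤ t then F' s else none) = F) *
          ind (lab R J n0 oc tc (t + 1) ν = F')) := fun F' => by rw [FP.E_smul]
  rw [Finset.sum_congr rfl fun F' _ => h1 F', ← FP.E_sum]
  congr 1
  funext ν
  rw [Finset.sum_eq_single (lab R J n0 oc tc (t + 1) ν)]
  · rw [ind_of (rfl : lab R J n0 oc tc (t + 1) ν = lab R J n0 oc tc (t + 1) ν), mul_one]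
    show ind (lab R J n0 oc tc t ν = F) = _
    rw [lab_restrict t ν]
  · intro F' _ h
    rw [ind_not (p := lab R J n0 oc tc (t + 1) ν = F') fun h' => h h'.symm, mul_zero]
  · exact fun h => absurd (Finset.mem_univ _) h

/-- in the support nothing is published after `t` or outside the occasions, at most `2 n0` components -/
theorem kr_supp {t : ℕ} {F : Fin (N + 1) → Option φ} (h : kr R J n0 oc tc t F ≠ 0) :
    (∀ s, F s ≠ none → s.val ≤ t ∧ oc s.val ∧ cn oc s.val < J) ∧
    ∃ ν : Fin (N + 1) → Ns R φ, lab R J n0 oc tc t ν = F := by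
  classical
  have h1 : ∃ ν : Fin (N + 1) → Ns R φ, lab R J n0 oc tc t ν = F := by
    by_contra hn
    push Not at hn
    apply h
    unfold kr FP.Pr
    have h2 : (FP.unif (Fin (N + 1) → Ns R φ)).E (fun ν => ind (lab R J n0 oc tc t ν = F)) =
        (FP.unif (Fin (N + 1) → Ns R φ)).E (fun _ => 0) := by
      congr 1
      funext ν
      exact ind_not (hn ν)
    rw [h2]
    exact FP.E_const _ 0
  refine ⟨?_, h1⟩
  obtain ⟨ν, rfl⟩ := h1
  intro s hs
  unfold lab at hs
  by_cases h2 : s.val ≤ t
  · rw [if_pos h2] at hs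
    have h3 := pub_act hs
    exact ⟨h2, h3.1, h3.2.1⟩
  · rw [if_neg h2] at hs
    exact absurd rfl hs

/-! ### product sets -/

theorem sum_ind_card {σ : Type*} [Fintype σ] (p : σ → Prop) (S : Finset σ) (h : ∀ x, p x ↔ x ∈ S) :
    ∑ x, ind (p x) = (S.card : ℝ) := by
  classical
  have h1 : ∀ x, ind (p x) = if x ∈ S then (1 : ℝ) else 0 := by
    intro x
    by_cases hx : x ∈ S
    · rw [if_pos hx, ind_of ((h x).2 hx)]
    · rw [if_neg hx, ind_not (fun h' => hx ((h x).1 h'))]
  rw [Finset.sum_congr rfl fun x _ => h1 x]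
  simp

theorem unif_pi {ι σ : Type*} [Fintype ι] [DecidableEq ι] [Fintype σ] [Nonempty σ] (S : ι → Finset σ) :
    (FP.unif (ι → σ)).Pr (fun ν => ∀ s, ν s ∈ S s) = ∏ s, ((S s).card : ℝ) / (Fintype.card σ) := by
  classical
  unfold FP.Pr
  rw [FP.unif_E, Finset.prod_div_distrib, Finset.prod_const, Finset.card_univ, Fintype.card_fun]
  have h1 : ∑ ν : ι → σ, ind (∀ s, ν s ∈ S s) = ((Fintype.piFinset S).card : ℝ) :=
    sum_ind_card _ _ fun ν => (Fintype.mem_piFinset).symm
  rw [h1, Fintype.card_piFinset]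
  push_cast
  rfl

theorem fin_card (p : ℕ → Prop) (N : ℕ) [DecidablePred fun s : Fin (N + 1) => p s.val] :
    (univ.filter fun s : Fin (N + 1) => p s.val).card = cn p (N + 1) := by
  classical
  unfold cn
  rw [← Finset.card_map Fin.valEmbedding]
  congr 1
  ext s
  rw [Finset.mem_map, Finset.mem_filter, Finset.mem_range]
  constructor
  · rintro ⟨x, hx, rfl⟩
    exact ⟨x.2, (Finset.mem_filter.1 hx).2⟩
  · rintro ⟨h1, h2⟩
    exact ⟨⟨s, h1⟩, Finset.mem_filter.2 ⟨Finset.mem_univ _, h2⟩, rfl⟩

/-- product of constants over two sets of indices -/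
theorem prod_two_le {ι : Type*} [Fintype ι] (a b : ι → Prop) [DecidablePred a] [DecidablePred b] {x y : ℝ}
    (hx0 : 0 ≤ x) (hx1 : x ≤ 1) (hy0 : 0 ≤ y) (hy1 : y ≤ 1) {m n : ℕ} (ha : (univ.filter a).card ≤ m)
    (hb : (univ.filter b).card ≤ n) {q : ι → ℝ} (hq : ∀ s, (if a s then x else 1) * (if b s then y else 1) ≤ q s) :
    x ^ m * y ^ n ≤ ∏ s, q s := by
  have h1 : ∏ s : ι, ((if a s then x else 1) * (if b s then y else 1)) ≤ ∏ s, q s := by
    refine Finset.prod_le_prod (fun s _ => ?_) (fun s _ => hq s)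
    exact mul_nonneg (by split_ifs <;> linarith) (by split_ifs <;> linarith)
  refine le_trans ?_ h1
  rw [Finset.prod_mul_distrib, Finset.prod_ite, Finset.prod_ite]
  simp only [Finset.prod_const, one_pow, mul_one]
  exact mul_le_mul (pow_le_pow_of_le_one hx0 hx1 ha) (pow_le_pow_of_le_one hy0 hy1 hb) (pow_nonneg hy0 _)
    (pow_nonneg hx0 _)

/-- `F` as a sequence -/
noncomputable def sF (F : Fin (N + 1) → Option φ) (s : ℕ) : Option φ := if h : s < N + 1 then F ⟨s, h⟩ else none

theorem sF_of (F : Fin (N + 1) → Option φ) (s : Fin (N + 1)) : sF F s.val = F s := by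
  unfold sF
  rw [dif_pos s.2]

/-- something may be published at the time `s`, when `F` is published before -/
def aF (J n0 : ℕ) (oc : ℕ → Prop) (t : ℕ) (F : Fin (N + 1) → Option φ) (s : ℕ) : Prop :=
  s ≤ t ∧ act J n0 oc s (cn (fun r => sF F r ≠ none) s)

/-- facts on the published values of the support -/
theorem supp_aF {t : ℕ} {F : Fin (N + 1) → Option φ} (hoc : ∀ s ≤ t, (oc s ↔ oc' s))
    {ν : Fin (N + 1) → Ns R φ} (h : lab R J n0 oc tc t ν = F) (s : ℕ) (hs : sF F s ≠ none) : aF J n0 oc' t F s := by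
  classical
  have hsN : s < N + 1 := by
    by_contra hn
    apply hs
    unfold sF
    rw [dif_neg hn]
  have e1 : ∀ r < N + 1, r ≤ t → sF F r = pub R J n0 oc tc (sq ν) r := by
    intro r hr hrt
    unfold sF
    rw [dif_pos hr, ← h]
    unfold lab
    rw [if_pos hrt]
  have hst : s ≤ t := by
    by_contra hn
    apply hs
    unfold sF
    rw [dif_pos hsN, ← h]
    unfold lab
    rw [if_neg hn]
  rw [e1 s hsN hst] at hs
  have h1 := pub_act hs
  refine ⟨hst, (hoc s hst).1 h1.1, ?_, ?_⟩
  · rw [← cn_congr (p := oc) fun r hr => hoc r (by omega)]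
    exact h1.2.1
  · rw [cn_congr (q := fun r => pub R J n0 oc tc (sq ν) r ≠ none) fun r hr => by rw [e1 r (by omega) (by omega)],
      ← np_eq]
    exact h1.2.2

theorem supp_count {t : ℕ} {F : Fin (N + 1) → Option φ} {ν : Fin (N + 1) → Ns R φ}
    (h : lab R J n0 oc tc t ν = F) (s : ℕ) : cn (fun r => sF F r ≠ none) s ≤ 2 * n0 := by
  refine le_trans (cn_le_of_imp fun r _ hr => ?_) (card_cn_lt (fun r => sF F r ≠ none) (2 * n0) s)
  exact ⟨hr, (supp_aF (fun _ _ => Iff.rfl) h r hr).2.2.2⟩

open Classical in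
/-- the noise symbols at the time `s` which publish `F` -/
noncomputable def Sg (R J n0 : ℕ) (oc : ℕ → Prop) (tc : ℕ → Option φ) (t : ℕ) (F : Fin (N + 1) → Option φ)
    (s : Fin (N + 1)) : Finset (Ns R φ) :=
  if aF J n0 oc t F s.val then (if F s = ptc n0 tc s.val then univ.filter (fun x => x.1 ≠ 0) else {(0, F s)}) else univ

/-- good noise publishes `F` -/
theorem good_lab {t : ℕ} {F : Fin (N + 1) → Option φ} (hF : ∀ s, sF F s ≠ none → aF J n0 oc t F s)
    {ν : Fin (N + 1) → Ns R φ} (hν : ∀ s, ν s ∈ Sg R J n0 oc tc t F s) : lab R J n0 oc tc t ν = F := by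
  classical
  have key : ∀ s < N + 1, s ≤ t → np R J n0 oc tc (sq ν) s = cn (fun r => sF F r ≠ none) s →
      pub R J n0 oc tc (sq ν) s = sF F s := by
    intro s hs hst h
    unfold pub pcm
    rw [h]
    have h1 := hν ⟨s, hs⟩
    have e1 : sF F s = F ⟨s, hs⟩ := by unfold sF; rw [dif_pos hs]
    have e2 : sq ν s = ν ⟨s, hs⟩ := by unfold sq; rw [dif_pos hs]
    unfold Sg at h1
    by_cases ha : act J n0 oc s (cn (fun r => sF F r ≠ none) s)
    · rw [if_pos ha]
      have hA : aF J n0 oc t F s := ⟨hst, ha⟩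
      rw [if_pos hA] at h1
      by_cases hp : F ⟨s, hs⟩ = ptc n0 tc s
      · rw [if_pos hp] at h1
        have h2 := (Finset.mem_filter.1 h1).2
        rw [e2, if_neg h2, e1, hp]
      · rw [if_neg hp] at h1
        have h2 := Finset.mem_singleton.1 h1
        rw [e2, h2, if_pos rfl, e1]
    · rw [if_neg ha]
      by_contra hn
      exact ha (hF s fun h' => hn h'.symm).2
  have hnp : ∀ s, s < N + 1 → s ≤ t → np R J n0 oc tc (sq ν) s = cn (fun r => sF F r ≠ none) s := by
    intro s
    induction s with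
    | zero => intro _ _; rw [cn_zero]; rfl
    | succ s ih =>
      intro h1 h2
      have h3 := ih (by omega) (by omega)
      have h4 := key s (by omega) (by omega) h3
      unfold pub at h4
      rw [np, h4, h3]
      by_cases h5 : sF F s = none
      · rw [if_pos h5, cn_succ_not (p := fun r => sF F r ≠ none) (fun h => h h5), Nat.add_zero]
      · rw [if_neg h5, cn_succ_of (p := fun r => sF F r ≠ none) h5]
  funext s
  unfold lab
  by_cases hst : s.val ≤ t
  · rw [if_pos hst, key s.val s.2 hst (hnp s.val s.2 hst), sF_of]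
  · rw [if_neg hst]
    by_contra hn
    have h1 : sF F s.val ≠ none := by rw [sF_of]; exact fun h => hn h.symm
    exact hst (hF s.val h1).1

/-- THICKNESS: the support does not depend on the true components, every value has probability at least `alz` -/
theorem kr_thick {t : ℕ} (hoc : ∀ s ≤ t, (oc s ↔ oc' s)) {F : Fin (N + 1) → Option φ}
    (h : kr R J n0 oc tc t F ≠ 0) : alz R J n0 (Fintype.card φ) ≤ kr R J n0 oc' tc' t F := by
  classical
  obtain ⟨-, ν0, hν0⟩ := kr_supp h
  have hF : ∀ s, sF F s ≠ none → aF J n0 oc' t F s := fun s hs => supp_aF hoc hν0 s hs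
  have h1 : (FP.unif (Fin (N + 1) → Ns R φ)).Pr (fun ν => ∀ s, ν s ∈ Sg R J n0 oc' tc' t F s) ≤
      kr R J n0 oc' tc' t F := by
    unfold kr
    exact FP.Pr_mono _ fun ν _ hν => good_lab hF hν
  refine le_trans ?_ h1
  rw [unif_pi]
  have hR : (0 : ℝ) < R + 1 := by positivity
  have hm : (0 : ℝ) < Fintype.card φ + 1 := by positivity
  have hcard : (Fintype.card (Ns R φ) : ℝ) = (R + 1) * (Fintype.card φ + 1) := by
    unfold Ns
    rw [Fintype.card_prod, Fintype.card_fin, Fintype.card_option]
    push_cast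
    rfl
  have hx0 : (0 : ℝ) ≤ (R : ℝ) / (R + 1) := by positivity
  have hx1 : (R : ℝ) / (R + 1) ≤ 1 := by rw [div_le_one hR]; linarith
  have hy0 : (0 : ℝ) ≤ 1 / (((R : ℝ) + 1) * (Fintype.card φ + 1)) := by positivity
  have hy1 : 1 / (((R : ℝ) + 1) * (Fintype.card φ + 1)) ≤ 1 := by
    rw [div_le_one (mul_pos hR hm)]
    have : (0 : ℝ) ≤ R := Nat.cast_nonneg _
    have : (0 : ℝ) ≤ Fintype.card φ := Nat.cast_nonneg _
    nlinarith
  unfold alz
  refine prod_two_le (fun s : Fin (N + 1) => aF J n0 oc' t F s.val)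
    (fun s : Fin (N + 1) => aF J n0 oc' t F s.val ∧ sF F s.val ≠ ptc n0 tc' s.val) hx0 hx1 hy0 hy1 ?_ ?_ ?_
  · rw [fin_card (fun s => aF J n0 oc' t F s) N]
    refine le_trans (cn_le_of_imp fun s _ hs => ?_) (card_cn_lt oc' J (N + 1))
    exact ⟨hs.2.1, hs.2.2.1⟩
  · rw [fin_card (fun s => aF J n0 oc' t F s ∧ sF F s ≠ ptc n0 tc' s) N]
    have g1 : cn (fun s => aF J n0 oc' t F s ∧ sF F s ≠ ptc n0 tc' s) (N + 1) ≤
        cn (fun s => sF F s ≠ none) (N + 1) + cn (fun s => ptc n0 tc' s ≠ none) (N + 1) := by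
      refine cn_or_le (fun s hs => ?_) _
      by_cases h2 : sF F s = none
      · right
        refine fun h3 => hs.2 ?_
        rw [h2, h3]
      · exact Or.inl h2
    have g2 := supp_count hν0 (N + 1)
    have g3 := ptc_count tc' n0 (N + 1)
    omega
  · intro s
    unfold Sg
    rw [← sF_of F s]
    by_cases h2 : aF J n0 oc' t F s.val
    · rw [if_pos h2, if_pos h2]
      by_cases h3 : sF F s.val = ptc n0 tc' s.val
      · rw [if_pos h3, if_neg (fun h4 => h4.2 h3), mul_one]
        have h5 : ((univ.filter (fun x : Ns R φ => x.1 ≠ 0)).card : ℝ) = R * (Fintype.card φ + 1) := by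
          have h6 : (univ.filter (fun x : Ns R φ => x.1 ≠ 0)) =
              (univ.filter (fun r : Fin (R + 1) => r ≠ 0)) ×ˢ (univ : Finset (Option φ)) := by
            ext x
            simp
          rw [h6, Finset.card_product, Finset.card_univ, Fintype.card_option]
          have h7 : (univ.filter (fun r : Fin (R + 1) => r ≠ 0)).card = R := by
            rw [Finset.filter_ne', Finset.card_erase_of_mem (Finset.mem_univ _), Finset.card_univ, Fintype.card_fin]
            rfl
          rw [h7]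
          push_cast
          rfl
        rw [h5, hcard, mul_div_mul_right _ _ hm.ne']
      · rw [if_neg h3, if_pos ⟨h2, h3⟩, Finset.card_singleton, hcard]
        push_cast
        calc (R : ℝ) / (R + 1) * (1 / ((R + 1) * (Fintype.card φ + 1))) ≤ 1 * (1 / ((R + 1) * (Fintype.card φ + 1))) :=
              mul_le_mul_of_nonneg_right hx1 hy0
          _ = _ := one_mul _
    · rw [if_neg h2, if_neg h2, if_neg (fun h4 => h2 h4.1), one_mul, Finset.card_univ]
      rw [div_self (by rw [hcard]; positivity)]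

/-- one coordinate of the noise -/
theorem unif_coord {ι σ : Type*} [Fintype ι] [DecidableEq ι] [Fintype σ] [Nonempty σ] (s : ι) (S : Finset σ) :
    (FP.unif (ι → σ)).Pr (fun ν => ν s ∈ S) = (S.card : ℝ) / (Fintype.card σ) := by
  classical
  have h1 := unif_pi (fun r : ι => if r = s then S else (univ : Finset σ))
  have h2 : (FP.unif (ι → σ)).Pr (fun ν => ∀ r, ν r ∈ (if r = s then S else (univ : Finset σ))) =
      (FP.unif (ι → σ)).Pr (fun ν => ν s ∈ S) := by
    refine FP.Pr_congr _ fun ν _ => ⟨fun h => ?_, fun h r => ?_⟩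
    · have := h s
      rwa [if_pos rfl] at this
    · by_cases hr : r = s
      · rw [if_pos hr, hr]; exact h
      · rw [if_neg hr]; exact Finset.mem_univ _
  rw [← h2, h1, Finset.prod_eq_single s]
  · rw [if_pos rfl]
  · intro r _ hr
    rw [if_neg hr, Finset.card_univ, div_self]
    exact Nat.cast_ne_zero.mpr Fintype.card_ne_zero
  · exact fun h => absurd (Finset.mem_univ _) h

/-- probability of a strike -/
theorem strike_le (oc : ℕ → Prop) :
    (FP.unif (Fin (N + 1) → Ns R φ)).Pr (fun ν => ∃ s : Fin (N + 1), (oc s.val ∧ cn oc s.val < J) ∧ (ν s).1 = 0) ≤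
      (J : ℝ) / (R + 1) := by
  classical
  have h1 : (FP.unif (Fin (N + 1) → Ns R φ)).Pr
      (fun ν => ∃ s : Fin (N + 1), (oc s.val ∧ cn oc s.val < J) ∧ (ν s).1 = 0) ≤
      ∑ s ∈ univ.filter (fun s : Fin (N + 1) => oc s.val ∧ cn oc s.val < J),
        (FP.unif (Fin (N + 1) → Ns R φ)).Pr (fun ν => ν s ∈ (univ.filter (fun x : Ns R φ => x.1 = 0))) := by
    refine le_trans (FP.Pr_mono _ fun ν _ h => ?_) (FP.Pr_ex_le _ _ _)
    obtain ⟨s, h2, h3⟩ := h
    exact ⟨s, Finset.mem_filter.2 ⟨Finset.mem_univ _, h2⟩, Finset.mem_filter.2 ⟨Finset.mem_univ _, h3⟩⟩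
  refine h1.trans ?_
  have hm : (0 : ℝ) < Fintype.card φ + 1 := by positivity
  have h2 : ∀ s : Fin (N + 1), (FP.unif (Fin (N + 1) → Ns R φ)).Pr
      (fun ν => ν s ∈ (univ.filter (fun x : Ns R φ => x.1 = 0))) = 1 / ((R : ℝ) + 1) := by
    intro s
    rw [unif_coord]
    have h6 : (univ.filter (fun x : Ns R φ => x.1 = 0)) =
        (univ.filter (fun r : Fin (R + 1) => r = 0)) ×ˢ (univ : Finset (Option φ)) := by
      ext x
      simp
    rw [h6, Finset.card_product, Finset.card_univ, Fintype.card_option]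
    have h7 : (univ.filter (fun r : Fin (R + 1) => r = 0)).card = 1 := by
      rw [Finset.filter_eq', if_pos (Finset.mem_univ _), Finset.card_singleton]
    rw [h7]
    unfold Ns
    rw [Fintype.card_prod, Fintype.card_fin, Fintype.card_option]
    push_cast
    rw [one_mul, div_mul_cancel_right₀ hm.ne', inv_eq_one_div]
  rw [Finset.sum_congr rfl fun s _ => h2 s, Finset.sum_const, nsmul_eq_mul,
    fin_card (fun s => oc s ∧ cn oc s < J) N]
  have h3 := card_cn_lt oc J (N + 1)
  have h4 : (cn (fun s => oc s ∧ cn oc s < J) (N + 1) : ℝ) ≤ J := by exact_mod_cast h3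
  have h5 : (0 : ℝ) ≤ 1 / ((R : ℝ) + 1) := by positivity
  calc (cn (fun s => oc s ∧ cn oc s < J) (N + 1) : ℝ) * (1 / ((R : ℝ) + 1)) ≤ J * (1 / ((R : ℝ) + 1)) :=
        mul_le_mul_of_nonneg_right h4 h5
    _ = _ := by rw [mul_one_div]

/-- `alz ≥ (1/2) (1/((R+1)(m+1)))^(3 n0)` if `2 J ≤ R + 1` -/
theorem alz_ge {R J n0 m : ℕ} (h : 2 * J ≤ R + 1) :
    1 / 2 * (1 / (((R : ℝ) + 1) * (m + 1))) ^ (3 * n0) ≤ alz R J n0 m := by
  unfold alz
  refine mul_le_mul_of_nonneg_right ?_ (by positivity)
  have hR : (0 : ℝ) < R + 1 := by positivity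
  have h1 : (R : ℝ) / (R + 1) = 1 + (-(1 / (R + 1))) := by field_simp; ring
  have h2 : (-2 : ℝ) ≤ -(1 / ((R : ℝ) + 1)) := by
    have : 1 / ((R : ℝ) + 1) ≤ 1 := by rw [div_le_one hR]; linarith [(Nat.cast_nonneg R : (0 : ℝ) ≤ R)]
    linarith
  have h3 := one_add_mul_le_pow h2 J
  rw [h1]
  refine le_trans ?_ h3
  have h4 : (J : ℝ) * (1 / ((R : ℝ) + 1)) ≤ 1 / 2 := by
    rw [mul_one_div, div_le_div_iff₀ hR (by norm_num)]
    have : ((2 * J : ℕ) : ℝ) ≤ ((R + 1 : ℕ) : ℝ) := by exact_mod_cast h
    push_cast at this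
    linarith
  linarith

end fin

end Nz

end Pool.Agent.M3
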