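import Pool.Agent.M3.FPMart

/-!
# M3.RdO: labels at two options (helper7)

`gm t` = true node of the faces, `o0 t`, `o1 t` = the two options (functions of the public node `Q t`), `par` = parent of a
node, `x t g K` = value at the node `g` of a label with known coordinates `K`.
* `st t` = the two options in STABLE order (component `i` of time `t+1` is a child of component `i` of time `t` if
  possible); `mt t` = it is possible;
* `gen t` = genuine change at one of the options of time `t+1`; `ovr t` = a component is overwritten by a different one;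
  `flip t = gen t or ovr t`;
* `ext t` = EXTENDED LABEL = the two values in stable order and a bit which flips exactly when `flip`; a function of
  `(K, Q t)` (`ext_fac`), `ext_iff : ext (t+1) = ext t ↔ not flip`, `cmp`: the plain label `x t (gm t) K` changes only if
  the extended label changes, `plain_eq`: plain label = component `ix t` of the extended label, `ix t` = function of the
  public node and of `gm t`;
* `flip_count`: number of changes of the extended label `≤ 2 (number of genuine changes) + 1`;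
* `OPT Q gm t w = {gm t w' : Q t w' = Q t w}` = the realised options (finite sample space); `opA, opB` = an enumeration
  of a set with at most two elements, `opts_of_card : Opts Q par gm opA opB`; `gen_le` (genuine changes are counted by the
  sum over `OPT`), `E_ext_count`: with the option count `E (sum over OPT of φ) ≤ 2 E φ(gm)` the mean number of changes of
  the extended label is `≤ 4 (mean number of changes of the plain label) + 1`.
-/

set_option autoImplicit false
set_option linter.unusedSectionVars false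

namespace Pool.Agent.M3

open Finset Pool.Agent.PWZ

variable {Om : Type*} {κ : ℕ → Type*} {Γ 𝒦 β : Type*}

/-- two options for the node of the faces -/
structure Opts (Q : ∀ t, Om → κ t) (par : ℕ → Γ → Γ) (gm o0 o1 : ℕ → Om → Γ) : Prop where
  filt : Filt Q
  f0 : ∀ t, Fac (Q t) (o0 t)
  f1 : ∀ t, Fac (Q t) (o1 t)
  gmp : ∀ t w, par t (gm (t + 1) w) = gm t w
  mem : ∀ t w, gm t w = o0 t w ∨ gm t w = o1 t w
  p0 : ∀ t w, par t (o0 (t + 1) w) = o0 t w ∨ par t (o0 (t + 1) w) = o1 t w
  p1 : ∀ t w, par t (o1 (t + 1) w) = o0 t w ∨ par t (o1 (t + 1) w) = o1 t w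

noncomputable section

variable (par : ℕ → Γ → Γ) (gm o0 o1 : ℕ → Om → Γ) (x : ℕ → Γ → 𝒦 → β) (K : Om → 𝒦)

open Classical in
/-- the two options in stable order -/
def st : ℕ → Om → Γ × Γ
  | 0, w => (o0 0 w, o1 0 w)
  | t + 1, w => if par t (o1 (t + 1) w) = (st t w).1 ∧ par t (o0 (t + 1) w) = (st t w).2 then
      (o1 (t + 1) w, o0 (t + 1) w) else (o0 (t + 1) w, o1 (t + 1) w)

/-- both components are children of the components before -/
def mt (t : ℕ) (w : Om) : Prop :=
  par t (st par o0 o1 (t + 1) w).1 = (st par o0 o1 t w).1 ∧ par t (st par o0 o1 (t + 1) w).2 = (st par o0 o1 t w).2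

/-- genuine change at one of the options of time `t+1` -/
def gen (t : ℕ) (w : Om) : Prop :=
  x (t + 1) (o0 (t + 1) w) (K w) ≠ x t (par t (o0 (t + 1) w)) (K w) ∨
    x (t + 1) (o1 (t + 1) w) (K w) ≠ x t (par t (o1 (t + 1) w)) (K w)

/-- the values at the two options are different -/
def dif (t : ℕ) (w : Om) : Prop := x t (st par o0 o1 t w).1 (K w) ≠ x t (st par o0 o1 t w).2 (K w)

/-- a component is overwritten by a different one -/
def ovr (t : ℕ) (w : Om) : Prop := ¬ mt par o0 o1 t w ∧ dif par o0 o1 x K t w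

/-- change of the extended label -/
def flip (t : ℕ) (w : Om) : Prop := gen par o0 o1 x K t w ∨ ovr par o0 o1 x K t w

open Classical in
/-- the bit -/
def fb : ℕ → Om → Bool
  | 0, _ => false
  | t + 1, w => if flip par o0 o1 x K t w then !(fb t w) else fb t w

/-- the extended label -/
def ext (t : ℕ) (w : Om) : β × β × Bool :=
  (x t (st par o0 o1 t w).1 (K w), x t (st par o0 o1 t w).2 (K w), fb par o0 o1 x K t w)

open Classical in
/-- the true index -/
def ix (t : ℕ) (w : Om) : Bool := if gm t w = (st par o0 o1 t w).1 then true else false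

/-- component -/
def cpt (i : Bool) (v : β × β × Bool) : β := if i then v.1 else v.2.1

/-- the plain label, at the true node -/
def pln (t : ℕ) (w : Om) : β := x t (gm t w) (K w)

end

variable {Q : ∀ t, Om → κ t} {par : ℕ → Γ → Γ} {gm o0 o1 : ℕ → Om → Γ} {x : ℕ → Γ → 𝒦 → β} {K : Om → 𝒦}

theorem st_or (t : ℕ) (w : Om) : st par o0 o1 t w = (o0 t w, o1 t w) ∨ st par o0 o1 t w = (o1 t w, o0 t w) := by
  cases t with
  | zero => exact Or.inl rfl
  | succ t =>
    rw [st]
    by_cases h : par t (o1 (t + 1) w) = (st par o0 o1 t w).1 ∧ par t (o0 (t + 1) w) = (st par o0 o1 t w).2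
    · rw [if_pos h]; exact Or.inr rfl
    · rw [if_neg h]; exact Or.inl rfl

theorem gen_st {t : ℕ} {w : Om} (h : ¬ gen par o0 o1 x K t w) :
    x (t + 1) (st par o0 o1 (t + 1) w).1 (K w) = x t (par t (st par o0 o1 (t + 1) w).1) (K w) ∧
    x (t + 1) (st par o0 o1 (t + 1) w).2 (K w) = x t (par t (st par o0 o1 (t + 1) w).2) (K w) := by
  unfold gen at h
  push Not at h
  rcases st_or (par := par) (o0 := o0) (o1 := o1) (t + 1) w with h1 | h1
  · rw [h1]; exact h
  · rw [h1]; exact ⟨h.2, h.1⟩

section H

variable (H : Opts Q par gm o0 o1)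
include H

theorem st_fac (t : ℕ) : Fac (Q t) (st par o0 o1 t) := by
  induction t with
  | zero =>
    intro v w hv
    show (o0 0 v, o1 0 v) = (o0 0 w, o1 0 w)
    rw [H.f0 0 v w hv, H.f1 0 v w hv]
  | succ t ih =>
    intro v w hv
    rw [st, st, H.f0 (t + 1) v w hv, H.f1 (t + 1) v w hv, ih v w (H.filt t v w hv)]

/-- the parents of the options, in stable order -/
theorem par_st (t : ℕ) (w : Om) :
    (par t (st par o0 o1 (t + 1) w).1 = (st par o0 o1 t w).1 ∨ par t (st par o0 o1 (t + 1) w).1 = (st par o0 o1 t w).2) ∧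
    (par t (st par o0 o1 (t + 1) w).2 = (st par o0 o1 t w).1 ∨ par t (st par o0 o1 (t + 1) w).2 = (st par o0 o1 t w).2) := by
  have h0 := H.p0 t w
  have h1 := H.p1 t w
  rcases st_or (par := par) (o0 := o0) (o1 := o1) (t + 1) w with h | h <;>
  rcases st_or (par := par) (o0 := o0) (o1 := o1) t w with h' | h' <;> rw [h, h']
  · exact ⟨h0, h1⟩
  · exact ⟨h0.symm, h1.symm⟩
  · exact ⟨h1, h0⟩
  · exact ⟨h1.symm, h0.symm⟩

/-- if not both components are children of the components before, then both have the same parent -/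
theorem par_of_not_mt {t : ℕ} {w : Om} (h : ¬ mt par o0 o1 t w) :
    par t (st par o0 o1 (t + 1) w).1 = par t (st par o0 o1 (t + 1) w).2 := by
  unfold mt at h
  have hp := par_st H t w
  rcases hp.1 with h1 | h1
  · rcases hp.2 with h2 | h2
    · rw [h1, h2]
    · exact absurd ⟨h1, h2⟩ h
  · rcases hp.2 with h2 | h2
    · -- the order would have been exchanged
      exfalso
      apply h
      by_cases hc : par t (o1 (t + 1) w) = (st par o0 o1 t w).1 ∧ par t (o0 (t + 1) w) = (st par o0 o1 t w).2
      · have hs : st par o0 o1 (t + 1) w = (o1 (t + 1) w, o0 (t + 1) w) := by rw [st, if_pos hc]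
        rw [hs]
        exact hc
      · have hs : st par o0 o1 (t + 1) w = (o0 (t + 1) w, o1 (t + 1) w) := by rw [st, if_neg hc]
        rw [hs] at h1 h2
        exact absurd ⟨h2, h1⟩ hc
    · rw [h1, h2]

theorem gm_st (t : ℕ) (w : Om) : gm t w = (st par o0 o1 t w).1 ∨ gm t w = (st par o0 o1 t w).2 := by
  rcases st_or (par := par) (o0 := o0) (o1 := o1) t w with h | h <;> rw [h]
  · exact H.mem t w
  · exact (H.mem t w).symm

theorem plain_eq (t : ℕ) (w : Om) : pln gm x K t w = cpt (ix par gm o0 o1 t w) (ext par o0 o1 x K t w) := by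
  unfold pln cpt ix ext
  by_cases h : gm t w = (st par o0 o1 t w).1
  · rw [if_pos h, if_pos rfl, ← h]
  · rw [if_neg h, if_neg (by simp)]
    have h' := (gm_st H t w).resolve_left h
    rw [← h']

theorem ix_fac {ι : Type*} {Y : Om → ι} {t : ℕ} (h1 : Fac Y (Q t)) (h2 : Fac Y (gm t)) :
    Fac Y (ix par gm o0 o1 t) := by
  intro v w hv
  unfold ix
  rw [st_fac H t v w (h1 v w hv), h2 v w hv]

/-- without a flip the two values stay -/
theorem vals_of_not_flip {t : ℕ} {w : Om} (h : ¬ flip par o0 o1 x K t w) :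
    x (t + 1) (st par o0 o1 (t + 1) w).1 (K w) = x t (st par o0 o1 t w).1 (K w) ∧
    x (t + 1) (st par o0 o1 (t + 1) w).2 (K w) = x t (st par o0 o1 t w).2 (K w) := by
  unfold flip at h
  push Not at h
  obtain ⟨hg, ho⟩ := h
  obtain ⟨h1, h2⟩ := gen_st hg
  by_cases hm : mt par o0 o1 t w
  · rw [h1, h2, hm.1, hm.2]
    exact ⟨rfl, rfl⟩
  · have hd : ¬ dif par o0 o1 x K t w := fun hd => ho ⟨hm, hd⟩
    unfold dif at hd
    push Not at hd
    obtain ⟨h3, h4⟩ := par_st H t w
    rw [h1, h2]
    constructor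
    · rcases h3 with h3 | h3 <;> rw [h3]
      exact hd.symm
    · rcases h4 with h4 | h4 <;> rw [h4]
      exact hd

/-- the extended label changes exactly at the flips -/
theorem ext_iff (t : ℕ) (w : Om) : ext par o0 o1 x K (t + 1) w = ext par o0 o1 x K t w ↔ ¬ flip par o0 o1 x K t w := by
  constructor
  · intro h hf
    have h3 : fb par o0 o1 x K (t + 1) w = fb par o0 o1 x K t w := congrArg (fun v => v.2.2) h
    rw [fb, if_pos hf] at h3
    cases hb : fb par o0 o1 x K t w <;> rw [hb] at h3 <;> exact absurd h3 (by decide)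
  · intro hf
    obtain ⟨h1, h2⟩ := vals_of_not_flip H hf
    unfold ext
    rw [h1, h2, fb, if_neg hf]

/-- the plain label changes only if the extended label changes -/
theorem cmp {t : ℕ} {w : Om} (h : ext par o0 o1 x K (t + 1) w = ext par o0 o1 x K t w) :
    pln gm x K (t + 1) w = pln gm x K t w := by
  have hf := (ext_iff H t w).1 h
  unfold flip at hf
  push Not at hf
  obtain ⟨h1, h2⟩ := gen_st hf.1
  unfold pln
  rw [← H.gmp t w]
  rcases gm_st H (t + 1) w with hg | hg <;> rw [hg]
  · exact h1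
  · exact h2

theorem flip_fac (t : ℕ) : ∀ v w, (fun w => (K w, Q (t + 1) w)) v = (fun w => (K w, Q (t + 1) w)) w →
    (flip par o0 o1 x K t v ↔ flip par o0 o1 x K t w) := by
  intro v w hv
  simp only [Prod.mk.injEq] at hv
  obtain ⟨hK, hQ⟩ := hv
  have hQ' := H.filt t v w hQ
  unfold flip gen ovr dif mt
  rw [st_fac H (t + 1) v w hQ, st_fac H t v w hQ', hK, H.f0 (t + 1) v w hQ, H.f1 (t + 1) v w hQ]

theorem ext_fac (t : ℕ) : Fac (fun w => (K w, Q t w)) (ext par o0 o1 x K t) := by
  have hb : ∀ t, Fac (fun w => (K w, Q t w)) (fb par o0 o1 x K t) := by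
    intro t
    induction t with
    | zero => intro v w _; rfl
    | succ t ih =>
      intro v w hv
      have hf := flip_fac H (x := x) (K := K) t v w hv
      have hv' := hv
      simp only [Prod.mk.injEq] at hv'
      have h1 := ih v w (by simp only [hv'.1, H.filt t v w hv'.2])
      rw [fb, fb, h1]
      by_cases h : flip par o0 o1 x K t w
      · rw [if_pos h, if_pos (hf.2 h)]
      · rw [if_neg h, if_neg (fun h' => h (hf.1 h'))]
  intro v w hv
  have hv' := hv
  simp only [Prod.mk.injEq] at hv'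
  unfold ext
  rw [hb t v w hv, hv'.1, st_fac H t v w hv'.2]

/-- number of changes of the extended label -/
theorem flip_count (n : ℕ) (w : Om) :
    ∑ t ∈ range n, ind (flip par o0 o1 x K t w) ≤ 2 * ∑ t ∈ range n, ind (gen par o0 o1 x K t w) + 1 := by
  have key : ∀ n, ∑ t ∈ range n, ind (flip par o0 o1 x K t w) + ind (dif par o0 o1 x K n w) ≤
      2 * ∑ t ∈ range n, ind (gen par o0 o1 x K t w) + 1 := by
    intro n
    induction n with
    | zero =>
      simp only [Finset.range_zero, Finset.sum_empty]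
      have := ind_le_one (dif par o0 o1 x K 0 w)
      linarith
    | succ t ih =>
      rw [Finset.sum_range_succ, Finset.sum_range_succ]
      have e1 := ind_le_one (dif par o0 o1 x K (t + 1) w)
      have e2 := ind_nonneg (dif par o0 o1 x K t w)
      have e3 := ind_le_one (flip par o0 o1 x K t w)
      by_cases hg : gen par o0 o1 x K t w
      · rw [ind_of hg]
        linarith
      · rw [ind_not hg]
        by_cases hf : flip par o0 o1 x K t w
        · have ho : ovr par o0 o1 x K t w := hf.resolve_left hg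
          obtain ⟨hm, hd⟩ := ho
          obtain ⟨h1, h2⟩ := gen_st hg
          have h3 : ¬ dif par o0 o1 x K (t + 1) w := by
            intro h4
            apply h4
            rw [h1, h2, par_of_not_mt H hm]
          rw [ind_of hd] at ih
          rw [ind_not h3, ind_of hf]
          linarith
        · obtain ⟨h1, h2⟩ := vals_of_not_flip H hf
          have h3 : ind (dif par o0 o1 x K (t + 1) w) ≤ ind (dif par o0 o1 x K t w) := by
            refine ind_mono fun h4 => ?_
            unfold dif at h4 ⊢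
            rw [h1, h2] at h4
            exact h4
          rw [ind_not hf]
          linarith
  have := key n
  have h := ind_nonneg (dif par o0 o1 x K n w)
  linarith

/-- number of changes of the extended label -/
theorem ext_count (n : ℕ) (w : Om) :
    ∑ t ∈ range n, ind (ext par o0 o1 x K (t + 1) w ≠ ext par o0 o1 x K t w) ≤
      2 * ∑ t ∈ range n, ind (gen par o0 o1 x K t w) + 1 := by
  refine le_trans (Finset.sum_le_sum fun t _ => ?_) (flip_count H n w)
  refine ind_mono fun h => ?_
  by_contra hf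
  exact h ((ext_iff H t w).2 hf)

end H

/-! ### realised options -/

section OPT

variable {Om : Type*} [Fintype Om] {κ : ℕ → Type*} {Γ 𝒦 β : Type*}

noncomputable section

open Classical in
/-- the realised options -/
def OPT (Q : ∀ t, Om → κ t) (gm : ℕ → Om → Γ) (t : ℕ) (w : Om) : Finset Γ :=
  ((univ : Finset Om).filter (fun w' => Q t w' = Q t w)).image (gm t)

open Classical in
/-- first element of an enumeration of a set with at most two elements, `d` if there is none -/
def enA (S : Finset Γ) (d : Γ) : Γ := if h : ∃ p : Γ × Γ, S = {p.1, p.2} then h.choose.1 else d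

open Classical in
/-- second element -/
def enB (S : Finset Γ) (d : Γ) : Γ := if h : ∃ p : Γ × Γ, S = {p.1, p.2} then h.choose.2 else d

/-- the first option -/
def opA (Q : ∀ t, Om → κ t) (gm : ℕ → Om → Γ) (d : Γ) (t : ℕ) (w : Om) : Γ := enA (OPT Q gm t w) d

/-- the second option -/
def opB (Q : ∀ t, Om → κ t) (gm : ℕ → Om → Γ) (d : Γ) (t : ℕ) (w : Om) : Γ := enB (OPT Q gm t w) d

end

variable {Q : ∀ t, Om → κ t} {par : ℕ → Γ → Γ} {gm : ℕ → Om → Γ} {x : ℕ → Γ → 𝒦 → β} {K : Om → 𝒦}

theorem mem_OPT {t : ℕ} {w : Om} {g : Γ} : g ∈ OPT Q gm t w ↔ ∃ w', Q t w' = Q t w ∧ gm t w' = g := by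
  classical
  unfold OPT
  rw [Finset.mem_image]
  constructor
  · rintro ⟨w', h1, h2⟩
    exact ⟨w', (Finset.mem_filter.1 h1).2, h2⟩
  · rintro ⟨w', h1, h2⟩
    exact ⟨w', Finset.mem_filter.2 ⟨Finset.mem_univ _, h1⟩, h2⟩

theorem gm_OPT (t : ℕ) (w : Om) : gm t w ∈ OPT Q gm t w := mem_OPT.2 ⟨w, rfl, rfl⟩

theorem OPT_fac (t : ℕ) : Fac (Q t) (OPT Q gm t) := by
  intro v w hv
  ext g
  rw [mem_OPT, mem_OPT, hv]

/-- a nonempty set with at most two elements -/
theorem en_spec {S : Finset Γ} (hS : S.Nonempty) (h2 : S.card ≤ 2) (d : Γ) (g : Γ) :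
    g ∈ S ↔ g = enA S d ∨ g = enB S d := by
  classical
  have h : ∃ p : Γ × Γ, S = {p.1, p.2} := by
    have h1 : 1 ≤ S.card := hS.card_pos
    rcases Nat.lt_or_ge S.card 2 with h3 | h3
    · obtain ⟨a, ha⟩ := Finset.card_eq_one.1 (show S.card = 1 by omega)
      exact ⟨(a, a), by rw [ha]; simp⟩
    · obtain ⟨a, b, _, hab⟩ := Finset.card_eq_two.1 (show S.card = 2 by omega)
      exact ⟨(a, b), hab⟩
  unfold enA enB
  rw [dif_pos h, dif_pos h]
  have h4 := h.choose_spec
  constructor
  · intro hg
    rw [h4] at hg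
    simpa using hg
  · intro hg
    rw [h4]
    simpa using hg

/-- the two options from the realised options -/
theorem opts_of_card (hQ : Filt Q) (hp : ∀ t w, par t (gm (t + 1) w) = gm t w) (hc : ∀ t w, (OPT Q gm t w).card ≤ 2)
    (d : Γ) : Opts Q par gm (opA Q gm d) (opB Q gm d) := by
  have hs : ∀ t w g, g ∈ OPT Q gm t w ↔ g = opA Q gm d t w ∨ g = opB Q gm d t w := fun t w g =>
    en_spec ⟨_, gm_OPT t w⟩ (hc t w) d g
  have hpar : ∀ t w g, g ∈ OPT Q gm (t + 1) w → par t g ∈ OPT Q gm t w := by
    intro t w g hg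
    obtain ⟨w', h1, rfl⟩ := mem_OPT.1 hg
    rw [hp]
    exact mem_OPT.2 ⟨w', hQ t w' w h1, rfl⟩
  refine ⟨hQ, ?_, ?_, hp, ?_, ?_, ?_⟩
  · intro t v w hv
    unfold opA
    rw [OPT_fac t v w hv]
  · intro t v w hv
    unfold opB
    rw [OPT_fac t v w hv]
  · exact fun t w => (hs t w _).1 (gm_OPT t w)
  · exact fun t w => (hs t w _).1 (hpar t w _ ((hs (t + 1) w _).2 (Or.inl rfl)))
  · exact fun t w => (hs t w _).1 (hpar t w _ ((hs (t + 1) w _).2 (Or.inr rfl)))

/-- genuine changes are counted by the sum over the realised options -/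
theorem gen_le (hc : ∀ t w, (OPT Q gm t w).card ≤ 2) (d : Γ) (t : ℕ) (w : Om) :
    ind (gen par (opA Q gm d) (opB Q gm d) x K t w) ≤
      ∑ g ∈ OPT Q gm (t + 1) w, ind (x (t + 1) g (K w) ≠ x t (par t g) (K w)) := by
  have hs : ∀ g, g ∈ OPT Q gm (t + 1) w ↔ g = opA Q gm d (t + 1) w ∨ g = opB Q gm d (t + 1) w := fun g =>
    en_spec ⟨_, gm_OPT (t + 1) w⟩ (hc (t + 1) w) d g
  by_cases h : gen par (opA Q gm d) (opB Q gm d) x K t w
  · rw [ind_of h]
    rcases h with h | h
    · refine le_trans (le_of_eq (ind_of h).symm) (Finset.single_le_sum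
        (f := fun g => ind (x (t + 1) g (K w) ≠ x t (par t g) (K w))) (fun g _ => ind_nonneg _) ((hs _).2 (Or.inl rfl)))
    · refine le_trans (le_of_eq (ind_of h).symm) (Finset.single_le_sum
        (f := fun g => ind (x (t + 1) g (K w) ≠ x t (par t g) (K w))) (fun g _ => ind_nonneg _) ((hs _).2 (Or.inr rfl)))
  · rw [ind_not h]
    exact Finset.sum_nonneg fun g _ => ind_nonneg _

/-- mean number of changes of the extended label -/
theorem E_ext_count (P : FP Om) (hQ : Filt Q) (hp : ∀ t w, par t (gm (t + 1) w) = gm t w)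
    (hc : ∀ t w, (OPT Q gm t w).card ≤ 2) (d : Γ) (n : ℕ)
    (hcount : ∀ t < n, P.E (fun w => ∑ g ∈ OPT Q gm (t + 1) w, ind (x (t + 1) g (K w) ≠ x t (par t g) (K w))) ≤
      2 * P.E (fun w => ind (x (t + 1) (gm (t + 1) w) (K w) ≠ x t (par t (gm (t + 1) w)) (K w)))) :
    ∑ t ∈ range n, P.Pr (fun w => ext par (opA Q gm d) (opB Q gm d) x K (t + 1) w ≠
        ext par (opA Q gm d) (opB Q gm d) x K t w) ≤
      4 * ∑ t ∈ range n, P.Pr (fun w => pln gm x K (t + 1) w ≠ pln gm x K t w) + 1 := by
  have H := opts_of_card hQ hp hc d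
  have h1 : P.E (fun w => ∑ t ∈ range n, ind (ext par (opA Q gm d) (opB Q gm d) x K (t + 1) w ≠
      ext par (opA Q gm d) (opB Q gm d) x K t w)) ≤
      P.E (fun w => 2 * ∑ t ∈ range n, ind (gen par (opA Q gm d) (opB Q gm d) x K t w) + 1) :=
    P.E_mono fun w _ => ext_count H n w
  rw [P.E_sum, P.E_add, P.E_const, P.E_smul, P.E_sum] at h1
  have h2 : ∑ t ∈ range n, P.E (fun w => ind (gen par (opA Q gm d) (opB Q gm d) x K t w)) ≤
      ∑ t ∈ range n, 2 * P.Pr (fun w => pln gm x K (t + 1) w ≠ pln gm x K t w) := by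
    refine Finset.sum_le_sum fun t ht => ?_
    refine (P.E_mono fun w _ => gen_le hc d t w).trans ((hcount t (Finset.mem_range.1 ht)).trans (le_of_eq ?_))
    congr 1
    unfold FP.Pr
    refine P.E_congr fun w _ => ?_
    unfold pln
    rw [hp]
  rw [← Finset.mul_sum] at h2
  unfold FP.Pr at h2 ⊢
  linarith

end OPT

end Pool.Agent.M3
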