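import Pool.Agent.M3.Bin.Defs
import Pool.Agent.M3.Indep
import Pool.Agent.M3.FPMart

/-!
# M3/Model: the model of section 0 (table m3), `m` vertices, definitions (helper34)

Conventions of `Bin/Defs` (helper11): `V k = ZMod (2^k)`; EXPONENT `e = l + 1`, windows of length `2^e`,
`e = N, ..., 0`, `N ≤ k`; noise `w < 2^N`; digits above `e` = `w / 2^e`; `bit e w` = digit revealed between `e+1` and `e`,
`dg e w = ±1`; `pos e z w = z + w % 2^e`; `flr j v` = left end of the cell of length `2^j`; `G h e z w` = rounded node.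

SAMPLE SPACE `Sp k N m Θ P` = public randomness `Θ`, vertices `x i = (p i, v i) : P × V k` (`p i` private randomness),
noise `Fin (2^N)`; law `Pm` = uniform.  Three vertices: `m = 3`, face `i` = functions of `x (i+1)`, `x (i+2)`.
TIME of the filtrations: `t = 0, 1, ..`, exponent `ex N t = N - t`.
-/

set_option autoImplicit false

namespace Pool.Agent.M3.Mod

open Finset Pool.Agent.PWZ Pool.Agent.M3.Bin

noncomputable section

/-- sample space -/
abbrev Sp (k N m : ℕ) (Θ P : Type) := Θ × (Fin m → P × V k) × Fin (2 ^ N)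

/-- exponent at the time `t` -/
def ex (N t : ℕ) : ℕ := N - t

variable {k N m : ℕ} {Θ P : Type}

/-- public randomness -/
def th (ω : Sp k N m Θ P) : Θ := ω.1

/-- vertex `i` (with its private randomness) -/
def vx (i : Fin m) (ω : Sp k N m Θ P) : P × V k := ω.2.1 i

/-- noise -/
def nz (ω : Sp k N m Θ P) : ℕ := ω.2.2.val

/-- all vertices but `i` (value `vx j ω` at `j ≠ i`) -/
def ot (i : Fin m) (ω : Sp k N m Θ P) : {j : Fin m // j ≠ i} → P × V k := fun j => vx j.1 ω

/-- the centre: sum of all vertices -/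
def ctr (ω : Sp k N m Θ P) : V k := ∑ i, (vx i ω).2

/-- sum of the vertices but `i` -/
def co (i : Fin m) (ω : Sp k N m Θ P) : V k := ∑ j ∈ univ.erase i, (vx j ω).2

/-- exact node of a centre `z`: position and digits above -/
def nd (e : ℕ) (z : V k) (w : ℕ) : V k × ℕ := (pos e z w, w / 2 ^ e)

/-- THE PATH of the faces: `y_e` and the digits above (window `J_e = y_e - [0, 2^e)`) -/
def Yn (e : ℕ) (ω : Sp k N m Θ P) : V k × ℕ := nd e (ctr ω) (nz ω)

/-- the path of the view `i`: `z_e = v i + w % 2^e` and the digits above -/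
def Zn (i : Fin m) (e : ℕ) (ω : Sp k N m Θ P) : V k × ℕ := nd e (vx i ω).2 (nz ω)

/-- rounded node of the faces -/
def Gm (h e : ℕ) (ω : Sp k N m Θ P) : V k × ℕ := G h e (ctr ω) (nz ω)

/-- small cell (left end) of the vertex `j`, scale `e - (h+3)` -/
def sc (h e : ℕ) (j : Fin m) (ω : Sp k N m Θ P) : V k := flr (e - (h + 3)) (vx j ω).2

/-- PUBLIC NODE of the view `i`: public randomness, exact path of `z`, small cells of the other vertices -/
def Qn (i : Fin m) (h e : ℕ) (ω : Sp k N m Θ P) : Θ × (V k × ℕ) × ({j : Fin m // j ≠ i} → V k) :=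
  (th ω, Zn i e ω, fun j => sc h e j.1 ω)

/-- the digit revealed between the exponents `e+1` and `e` -/
def Dg (e : ℕ) (ω : Sp k N m Θ P) : ℝ := dg e (nz ω)

/-- average over the window `y - [0, 2^e)` -/
def av (e : ℕ) (y : V k) (f : V k → ℝ) : ℝ := ((2 : ℝ) ^ e)⁻¹ * ∑ n ∈ range (2 ^ e), f (y - (n : V k))

/-- half difference of the two halves of the window `y - [0, 2^(e+1))` -/
def dl (e : ℕ) (y : V k) (f : V k → ℝ) : ℝ := (av e y f - av e (y - ((2 ^ e : ℕ) : V k)) f) / 2

/-- mean over the current window of a function which may depend on the sample point -/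
def mn (e : ℕ) (f : Sp k N m Θ P → V k → ℝ) (ω : Sp k N m Θ P) : ℝ := av e (Yn e ω).1 (f ω)

/-- mean over the rounded window -/
def mr (h e : ℕ) (f : Sp k N m Θ P → V k → ℝ) (ω : Sp k N m Θ P) : ℝ := av e (Gm h e ω).1 (f ω)

/-- the points of the small cell of `v` -/
def SC [Fintype P] (h e : ℕ) (v : V k) : Finset (P × V k) :=
  univ.filter fun x => flr (e - (h + 3)) x.2 = flr (e - (h + 3)) v

section law

variable [Fintype Θ] [Nonempty Θ] [Fintype P] [Nonempty P]

/-- the law -/
def Pm : FP (Sp k N m Θ P) := FP.unif _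

/-- coordinates of the view `i` at the exponent `e ≤ N`: public randomness, private randomness of `i`, `z_e`,
digits above, `w % 2^e` (so `v i = z_e - w % 2^e`), the other vertices -/
def viewEquiv (i : Fin m) (e : ℕ) (he : e ≤ N) : Sp k N m Θ P ≃
    (Θ × P × V k × Fin (2 ^ (N - e)) × ({j : Fin m // j ≠ i} → P × V k)) × Fin (2 ^ e) where
  toFun ω := ((ω.1, (ω.2.1 i).1, pos e (ω.2.1 i).2 ω.2.2.val,
    ⟨ω.2.2.val / 2 ^ e, by
      rw [Nat.div_lt_iff_lt_mul (by positivity), ← pow_add, Nat.sub_add_cancel he]; exact ω.2.2.isLt⟩,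
    fun j => ω.2.1 j.1), ⟨ω.2.2.val % 2 ^ e, Nat.mod_lt _ (by positivity)⟩)
  invFun q := (q.1.1, (fun j => if h : j = i then (q.1.2.1, q.1.2.2.1 - ((q.2.val : ℕ) : V k)) else q.1.2.2.2.2 ⟨j, h⟩),
    ⟨q.1.2.2.2.1.val * 2 ^ e + q.2.val, by
      have h1 := q.1.2.2.2.1.isLt
      have h2 := q.2.isLt
      have h3 : 2 ^ (N - e) * 2 ^ e = 2 ^ N := by rw [← pow_add, Nat.sub_add_cancel he]
      calc q.1.2.2.2.1.val * 2 ^ e + q.2.val < q.1.2.2.2.1.val * 2 ^ e + 2 ^ e := by omega
        _ = (q.1.2.2.2.1.val + 1) * 2 ^ e := by ring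
        _ ≤ 2 ^ (N - e) * 2 ^ e := Nat.mul_le_mul_right _ h1
        _ = 2 ^ N := h3⟩)
  left_inv ω := by
    obtain ⟨θ, x, w⟩ := ω
    refine Prod.ext rfl (Prod.ext ?_ ?_)
    · funext j
      by_cases h : j = i
      · subst h
        simp only [dif_pos, Bin.pos, add_sub_cancel_right]
      · simp only [dif_neg h]
    · refine Fin.ext ?_
      simp only
      exact Nat.div_add_mod' _ _
  right_inv q := by
    obtain ⟨⟨θ, p, z, hi, x⟩, lo⟩ := q
    have hlo := lo.isLt
    have h1 : (hi.val * 2 ^ e + lo.val) % 2 ^ e = lo.val := by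
      rw [Nat.mul_comm, Nat.mul_add_mod, Nat.mod_eq_of_lt hlo]
    have h2 : (hi.val * 2 ^ e + lo.val) / 2 ^ e = hi.val := by
      rw [Nat.mul_comm, Nat.mul_add_div (by positivity), Nat.div_eq_of_lt hlo, Nat.add_zero]
    refine Prod.ext (Prod.ext rfl (Prod.ext ?_ (Prod.ext ?_ (Prod.ext ?_ ?_)))) ?_
    · simp
    · simp [Bin.pos, h1]
    · exact Fin.ext h2
    · funext j
      simp [j.2]
    · exact Fin.ext h1

/-- coordinates of the free law of the face `i`: the centre instead of the vertex `i` -/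
def faceEquiv (i : Fin m) : Sp k N m Θ P ≃ (Θ × P × ({j : Fin m // j ≠ i} → P × V k)) × (V k × Fin (2 ^ N)) where
  toFun ω := ((ω.1, (ω.2.1 i).1, fun j => ω.2.1 j.1), (∑ j, (ω.2.1 j).2, ω.2.2))
  invFun q := (q.1.1, (fun j => if h : j = i then (q.1.2.1, q.2.1 - ∑ j : {j : Fin m // j ≠ i}, (q.1.2.2 j).2)
    else q.1.2.2 ⟨j, h⟩), q.2.2)
  left_inv ω := by
    obtain ⟨θ, x, w⟩ := ω
    refine Prod.ext rfl (Prod.ext ?_ rfl)
    funext j
    by_cases h : j = i
    · subst h
      have h1 : ∑ l : {l : Fin m // l ≠ j}, (x l.1).2 = ∑ l ∈ univ.erase j, (x l).2 := by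
        rw [← Finset.sum_subtype (univ.erase j) (by simp) (fun l => (x l).2)]
      have h2 := Finset.add_sum_erase univ (fun l => (x l).2) (mem_univ j)
      simp only [dif_pos]
      refine Prod.ext rfl ?_
      simp only
      rw [h1, ← h2]
      abel
    · simp only [dif_neg h]
  right_inv q := by
    obtain ⟨⟨θ, p, x⟩, z, w⟩ := q
    refine Prod.ext (Prod.ext rfl (Prod.ext ?_ ?_)) (Prod.ext ?_ rfl)
    · simp
    · funext j
      simp [j.2]
    · simp only
      rw [← Finset.add_sum_erase univ _ (mem_univ i)]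
      simp only [dif_pos]
      have h1 : ∑ l ∈ univ.erase i, (if h : l = i then (p, z - ∑ j : {j : Fin m // j ≠ i}, (x j).2)
          else x ⟨l, h⟩).2 = ∑ j : {j : Fin m // j ≠ i}, (x j).2 := by
        rw [Finset.sum_subtype (univ.erase i) (p := fun l => l ≠ i) (by simp)]
        refine Finset.sum_congr rfl (fun j _ => ?_)
        simp [j.2]
      rw [h1]
      abel

end law

/-! ## three vertices: product tests -/

/-- a moving family of functions of two vertices: exponent, rounded node, two vertices -/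
abbrev Fam2 (k : ℕ) (P : Type) := ℕ → V k × ℕ → P × V k → P × V k → V k → ℝ

/-- PRODUCT TESTS at all rounded nodes, all small cells, all tests bounded by `H` -/
def PT [Fintype P] (h N : ℕ) (R : Fam2 k P) (θ r H : ℝ) : Prop :=
  ∀ e ≤ N, ∀ g : V k × ℕ, flr (e - h) g.1 = g.1 → ∀ (b0 c0 : V k) (v u : P × V k → V k → ℝ),
    (∀ x d, |v x d| ≤ H) → (∀ x d, |u x d| ≤ H) →
    ((((SC (P := P) h e b0) ×ˢ (SC (P := P) h e c0)).filter fun q =>
      r ≤ |av e g.1 (fun d => R e g q.1 q.2 d * v q.1 d * u q.2 d)|).card : ℝ) ≤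
      θ * ((SC (P := P) h e b0).card * (SC (P := P) h e c0).card : ℝ)

/-- the value of a family of the face `i` at a sample point (three vertices) -/
def fv (h : ℕ) (i : Fin 3) (R : Fam2 k P) (e : ℕ) (ω : Sp k N 3 Θ P) : V k → ℝ :=
  R e (Gm h e ω) (vx (i + 1) ω) (vx (i + 2) ω)

/-- THE PROCESS of three families -/
def TT3 (h : ℕ) (R : Fin 3 → Fam2 k P) (e : ℕ) (ω : Sp k N 3 Θ P) : ℝ :=
  av e (Yn e ω).1 (fun d => ∏ i, fv h i (R i) e ω d)

end

end Pool.Agent.M3.Mod
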