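import Pool.Agent.M3.S1Fam
import Pool.Agent.M3.Model

/-!
# M3.S1Mod (section 1 in the model of `Model.lean`): the layers of a face (helper27)

General number of vertices: `freeMap i` = the free law of the face opposite to the vertex `i`.  Three vertices:
`freeMap3 i` (points `(x (i+1), x (i+2))`), `pairC` = small cells of a pair, `Sf`, `Rf : Fam2 k P` = structured
function and residual of the function `F b c d` of a face, `Lf` = signed list, `Pf` = number of public births.

* `Rf_PT` (P1), `Rf_PT_fine`, `Df_PT` (P2), `Lf_mean`, `Lf_tail`, `Lf_future` (P3), `Pf_mean` (P4), `Sf_walsh`.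
-/

set_option autoImplicit false
set_option linter.unusedSectionVars false

namespace Pool.Agent.M3.Bin

open Finset Pool.Agent.PWZ

noncomputable section

variable {k N : ℕ} {X X' : Type} [Fintype X] [Fintype X'] {Om : Type*} [Fintype Om] {Pm : FP Om}

/-- the free law under an equivalence of the points -/
def FreeMap.map (M : FreeMap Pm X k N) (e : X ≃ X') : FreeMap Pm X' k N where
  x ω := e (M.x ω)
  z := M.z
  w := M.w
  law f := by
    rw [M.law (fun x z w => f (e x) z w)]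
    unfold E1
    congr 1
    · rw [Fintype.card_prod, Fintype.card_prod, Fintype.card_congr e]
    · exact Fintype.sum_equiv (e.prodCongr (Equiv.refl (V k))) _ _ (fun q => rfl)

end

end Pool.Agent.M3.Bin

namespace Pool.Agent.M3.Mod

open Finset Pool.Agent.PWZ Pool.Agent.M3.Bin

noncomputable section

section cells

variable {k : ℕ} {P : Type} [Fintype P]

/-- the points with the same cell of length `2^j` -/
def cel (j : ℕ) (v : V k) : Finset (P × V k) := univ.filter fun x => flr j x.2 = flr j v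

theorem mem_cel (j : ℕ) (v : V k) (x : P × V k) : x ∈ cel (P := P) j v ↔ flr j x.2 = flr j v := by
  unfold cel
  simp

theorem SC_eq (h e : ℕ) (v : V k) : SC (P := P) h e v = cel (e - (h + 3)) v := rfl

theorem card_cel {j : ℕ} (hj : j ≤ k) (v : V k) : ((cel (P := P) j v).card : ℝ) = Fintype.card P * 2 ^ j := by
  have h1 : cel (P := P) j v = (univ : Finset P) ×ˢ (univ.filter fun v' : V k => flr j v' = flr j v) := by
    ext x
    rw [mem_cel]
    simp
  rw [h1, Finset.card_product, card_cell hj, Finset.card_univ]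
  push_cast
  ring

/-- the small cells of the pairs -/
def pairC (k : ℕ) (P : Type) [Fintype P] : Cells ((P × V k) × (P × V k)) where
  cell j q := cel j q.1.2 ×ˢ cel j q.2.2
  self j q := by
    rw [Finset.mem_product, mem_cel, mem_cel]
    exact ⟨rfl, rfl⟩
  coh j q r hr := by
    rw [Finset.mem_product, mem_cel, mem_cel] at hr
    have h1 : cel (P := P) j r.1.2 = cel j q.1.2 := by
      ext x
      rw [mem_cel, mem_cel, hr.1]
    have h2 : cel (P := P) j r.2.2 = cel j q.2.2 := by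
      ext x
      rw [mem_cel, mem_cel, hr.2]
    rw [h1, h2]

theorem pairC_sub (j j' : ℕ) (q : (P × V k) × (P × V k)) (hj : j ≤ j') :
    (pairC k P).cell j q ⊆ (pairC k P).cell j' q := by
  intro r hr
  have hr' : r ∈ cel (P := P) j q.1.2 ×ˢ cel (P := P) j q.2.2 := hr
  show r ∈ cel (P := P) j' q.1.2 ×ˢ cel (P := P) j' q.2.2
  rw [Finset.mem_product, mem_cel, mem_cel] at hr' ⊢
  exact ⟨flr_mono_eq hj hr'.1, flr_mono_eq hj hr'.2⟩

theorem pairC_grow (j : ℕ) (q : (P × V k) × (P × V k)) (hj : j < k) :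
    (((pairC k P).cell (j + 1) q).card : ℝ) ≤ 4 * ((pairC k P).cell j q).card := by
  have h1 : ∀ j, (pairC k P).cell j q = cel (P := P) j q.1.2 ×ˢ cel (P := P) j q.2.2 := fun j => rfl
  rw [h1, h1, Finset.card_product, Finset.card_product]
  push_cast
  rw [card_cel (by omega), card_cel (by omega), card_cel hj.le, card_cel hj.le, pow_succ]
  apply le_of_eq
  ring

end cells

variable {k N : ℕ} {Θ P : Type} [Fintype Θ] [Nonempty Θ] [Fintype P] [Nonempty P]

/-- the free law of the face opposite to the vertex `i` (any number of vertices) -/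
def freeMap (k N : ℕ) (Θ P : Type) [Fintype Θ] [Nonempty Θ] [Fintype P] [Nonempty P] {m : ℕ} (i : Fin m) :
    FreeMap (Pm : FP (Sp k N m Θ P)) ({j : Fin m // j ≠ i} → P × V k) k N where
  x := ot i
  z := ctr
  w := nz
  law f := by
    unfold Pm
    rw [FP.unif_E]
    have h1 : ∑ ω : Sp k N m Θ P, f (ot i ω) (ctr ω) (nz ω) =
        ∑ q : (Θ × P × ({j : Fin m // j ≠ i} → P × V k)) × (V k × Fin (2 ^ N)), f q.1.2.2 q.2.1 q.2.2.val := by
      refine Fintype.sum_equiv (faceEquiv i) _ _ (fun ω => rfl)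
    have hcard : (Fintype.card (Sp k N m Θ P) : ℝ) =
        Fintype.card Θ * Fintype.card P * Fintype.card ({j : Fin m // j ≠ i} → P × V k) * 2 ^ k * 2 ^ N := by
      rw [Fintype.card_congr (faceEquiv (k := k) (N := N) (Θ := Θ) (P := P) i)]
      rw [Fintype.card_prod, Fintype.card_prod, Fintype.card_prod, Fintype.card_prod, Fintype.card_fin, ZMod.card]
      push_cast
      ring
    rw [h1, hcard]
    have h2 : ∑ q : (Θ × P × ({j : Fin m // j ≠ i} → P × V k)) × (V k × Fin (2 ^ N)), f q.1.2.2 q.2.1 q.2.2.val =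
        Fintype.card Θ * Fintype.card P *
          ∑ x : {j : Fin m // j ≠ i} → P × V k, ∑ z : V k, ∑ w ∈ range (2 ^ N), f x z w := by
      rw [Fintype.sum_prod_type, Fintype.sum_prod_type]
      have h3 : ∀ t : Θ, ∑ y : P × ({j : Fin m // j ≠ i} → P × V k), ∑ y' : V k × Fin (2 ^ N),
          f (t, y).2.2 y'.1 y'.2.val = Fintype.card P *
            ∑ x : {j : Fin m // j ≠ i} → P × V k, ∑ z : V k, ∑ w ∈ range (2 ^ N), f x z w := by
        intro t
        rw [Fintype.sum_prod_type]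
        have h4 : ∀ p : P, ∑ x : {j : Fin m // j ≠ i} → P × V k, ∑ y' : V k × Fin (2 ^ N),
            f (t, (p, x)).2.2 y'.1 y'.2.val =
            ∑ x : {j : Fin m // j ≠ i} → P × V k, ∑ z : V k, ∑ w ∈ range (2 ^ N), f x z w := by
          intro p
          refine Finset.sum_congr rfl (fun x _ => ?_)
          rw [Fintype.sum_prod_type]
          refine Finset.sum_congr rfl (fun z _ => ?_)
          exact (Finset.sum_range (fun w => f x z w)).symm
        rw [Finset.sum_congr rfl (fun p _ => h4 p), Finset.sum_const, Finset.card_univ, nsmul_eq_mul]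
      rw [Finset.sum_congr rfl (fun t _ => h3 t), Finset.sum_const, Finset.card_univ, nsmul_eq_mul]
      ring
    rw [h2]
    unfold E1
    have h5 : ∑ q : ({j : Fin m // j ≠ i} → P × V k) × V k, ∑ z : V k, ∑ w ∈ range (2 ^ N), f q.1 z w =
        2 ^ k * ∑ x : {j : Fin m // j ≠ i} → P × V k, ∑ z : V k, ∑ w ∈ range (2 ^ N), f x z w := by
      rw [Fintype.sum_prod_type_right]
      simp only [Finset.sum_const, Finset.card_univ, ZMod.card, nsmul_eq_mul]
      push_cast
      ring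
    rw [h5, Fintype.card_prod, ZMod.card]
    have c1 : (Fintype.card Θ : ℝ) ≠ 0 := by exact_mod_cast Fintype.card_ne_zero
    have c2 : (Fintype.card P : ℝ) ≠ 0 := by exact_mod_cast Fintype.card_ne_zero
    have c3 : (Fintype.card ({j : Fin m // j ≠ i} → P × V k) : ℝ) ≠ 0 := by exact_mod_cast Fintype.card_ne_zero
    push_cast
    field_simp

/-- the two other vertices of three -/
def twoOf (i : Fin 3) (P' : Type) : ({j : Fin 3 // j ≠ i} → P') ≃ P' × P' where
  toFun x := (x ⟨i + 1, by fin_cases i <;> decide⟩, x ⟨i + 2, by fin_cases i <;> decide⟩)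
  invFun q := fun j => if j.1 = i + 1 then q.1 else q.2
  left_inv x := by
    funext j
    obtain ⟨j, hj⟩ := j
    simp only
    split_ifs with h
    · congr 1
      exact Subtype.ext h.symm
    · congr 1
      refine Subtype.ext ?_
      show i + 2 = j
      revert h hj
      fin_cases i <;> fin_cases j <;> decide
  right_inv q := by
    obtain ⟨a, b⟩ := q
    simp only [if_pos]
    refine Prod.ext rfl ?_
    simp only
    rw [if_neg (by fin_cases i <;> decide)]

/-- the free law of the face `i` of three vertices -/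
def freeMap3 (k N : ℕ) (Θ P : Type) [Fintype Θ] [Nonempty Θ] [Fintype P] [Nonempty P] (i : Fin 3) :
    FreeMap (Pm : FP (Sp k N 3 Θ P)) ((P × V k) × (P × V k)) k N :=
  (freeMap k N Θ P i).map (twoOf i (P × V k))

theorem freeMap3_x (i : Fin 3) (ω : Sp k N 3 Θ P) :
    (freeMap3 k N Θ P i).x ω = (vx (i + 1) ω, vx (i + 2) ω) := rfl

theorem freeMap3_z (i : Fin 3) (ω : Sp k N 3 Θ P) : (freeMap3 k N Θ P i).z ω = ctr ω := rfl

theorem freeMap3_w (i : Fin 3) (ω : Sp k N 3 Θ P) : (freeMap3 k N Θ P i).w ω = nz ω := rfl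

/-! ### the families of a layer -/

/-- the index set of the sign tests of a pair -/
abbrev TI (k : ℕ) (P : Type) : Type := Σ i : Bool, twoY (P × V k) (P × V k) i × V k

/-- signed list -/
def Lf (h N : ℕ) (ep th : ℝ) (F : P × V k → P × V k → V k → ℝ) (e : ℕ) (g : V k × ℕ) (b c : P × V k) :
    List (Birth (TI k P → Bool)) :=
  LB (pairC k P) (pairTests (P × V k) (P × V k) (V k)) h N ep th (fun q => F q.1 q.2) e g (b, c)

/-- structured function -/
def Sf (h N : ℕ) (ep th : ℝ) (F : P × V k → P × V k → V k → ℝ) : Fam2 k P := fun e g b c d =>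
  SB (pairC k P) (pairTests (P × V k) (P × V k) (V k)) h N ep th (fun q => F q.1 q.2) e g (b, c) d

/-- residual -/
def Rf (h N : ℕ) (ep th : ℝ) (F : P × V k → P × V k → V k → ℝ) : Fam2 k P := fun e g b c d =>
  RB (pairC k P) (pairTests (P × V k) (P × V k) (V k)) h N ep th (fun q => F q.1 q.2) e g (b, c) d

/-- number of public births at the node of a pair -/
def Pf (h N : ℕ) (ep th : ℝ) (F : P × V k → P × V k → V k → ℝ) (e : ℕ) (g : V k × ℕ) (b c : P × V k) : ℕ :=
  PB (pairC k P) (pairTests (P × V k) (P × V k) (V k)) h N ep th (fun q => F q.1 q.2) e g (b, c)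

variable {h : ℕ} {ep th : ℝ} {F : P × V k → P × V k → V k → ℝ}

theorem Rf_eq (e : ℕ) (g : V k × ℕ) (b c : P × V k) (d : V k) :
    Rf h N ep th F e g b c d = F b c d - Sf h N ep th F e g b c d := rfl

theorem abs_Sf (e : ℕ) (g : V k × ℕ) (b c : P × V k) (d : V k) : |Sf h N ep th F e g b c d| ≤ 1 :=
  abs_SB _ _ _ _ _ _ _ _

theorem abs_Rf (hF : ∀ b c d, |F b c d| ≤ 1) (e : ℕ) (g : V k × ℕ) (b c : P × V k) (d : V k) :
    |Rf h N ep th F e g b c d| ≤ 2 :=
  abs_RB (pairC k P) (pairTests (P × V k) (P × V k) (V k)) h N (F := fun q => F q.1 q.2) (x := (b, c)) (hF b c d) e g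

theorem Lf_mono {e : ℕ} (he : e < N) (g : V k × ℕ) (b c : P × V k) :
    Lf h N ep th F (e + 1) (par h e g) b c <:+ Lf h N ep th F e g b c :=
  LB_mono _ _ _ _ he g (b, c)

/-- mean over a window as `ip` -/
theorem av_eq (e : ℕ) (y : V k) (f g : V k → ℝ) : av e y (fun d => f d * g d) = ip e y f g := rfl

/-- from sets of pairs of indices to counting in the product -/
theorem PT_of {h N : ℕ} {R : Fam2 k P} {θ r : ℝ}
    (H : ∀ e ≤ N, ∀ g : V k × ℕ, ∀ (q0 : (P × V k) × (P × V k)) (v u : P × V k → V k → ℝ),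
      (∀ x d, |v x d| ≤ 1) → (∀ x d, |u x d| ≤ 1) →
      ((((pairC k P).cell (e - (h + 3)) q0).filter fun q =>
        r ≤ |ip e g.1 (R e g q.1 q.2) (fun d => v q.1 d * u q.2 d)|).card : ℝ) ≤
        θ * ((pairC k P).cell (e - (h + 3)) q0).card) : PT h N R θ r 1 := by
  intro e he g _ b0 c0 v u hv hu
  obtain ⟨p0⟩ := ‹Nonempty P›
  have h1 := H e he g ((p0, b0), (p0, c0)) v u hv hu
  have h2 : (pairC k P).cell (e - (h + 3)) ((p0, b0), (p0, c0)) = SC (P := P) h e b0 ×ˢ SC (P := P) h e c0 := rfl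
  rw [h2, Finset.card_product] at h1
  push_cast at h1
  refine le_trans (le_of_eq ?_) h1
  congr 2
  refine Finset.filter_congr (fun q _ => ?_)
  have h3 : av e g.1 (fun d => R e g q.1 q.2 d * v q.1 d * u q.2 d) =
      ip e g.1 (R e g q.1 q.2) (fun d => v q.1 d * u q.2 d) := by
    rw [← av_eq]
    congr 1
    funext d
    ring
  rw [h3]

theorem pairTests_fun (v u : P × V k → V k → ℝ) (q : (P × V k) × (P × V k)) :
    (pairTests (P × V k) (P × V k) (V k)).test (twoFun v u) q = fun d => v q.1 d * u q.2 d :=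
  funext (fun d => pairTests_test v u q.1 q.2 d)

/-- (P1) -/
theorem Rf_PT (hF : ∀ b c d, |F b c d| ≤ 1) (hep : 0 < ep) (hth : 0 < th) :
    PT h N (Rf h N ep th F) th (4 * ep) 1 := by
  refine PT_of (fun e he g q0 v u hv hu => ?_)
  have h1 := RB_test (pairC k P) (pairTests (P × V k) (P × V k) (V k)) h N (ep := ep) (th := th)
    (F := fun q => F q.1 q.2) (fun q d => hF q.1 q.2 d) hep hth he g q0 (twoFun v u) (abs_twoFun hv hu)
  refine le_trans (le_of_eq ?_) h1
  congr 2
  refine Finset.filter_congr (fun q _ => ?_)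
  rw [pairTests_fun]
  rfl

theorem pairTests_le (t : TI k P → ℝ) (ht : ∀ i, |t i| ≤ 1) (x : (P × V k) × (P × V k)) (d : V k) :
    |(pairTests (P × V k) (P × V k) (V k)).test t x d| ≤ 1 := by
  unfold pairTests
  rw [prodTests_test, Finset.abs_prod]
  exact Finset.prod_le_one (fun i _ => abs_nonneg _) (fun i _ => ht _)

/-- a family at a finer rounding -/
def fine (h : ℕ) (R : Fam2 k P) : Fam2 k P := fun e g b c d => R e (coar h e g) b c d

/-- (P1) at a finer rounding -/
theorem Rf_PT_fine (hN : N ≤ k) (hF : ∀ b c d, |F b c d| ≤ 1) (hep : 0 < ep) (hth : 0 < th)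
    (hrd : 4 * ((2 : ℝ) ^ h)⁻¹ ≤ ep) {h' D : ℕ} (hD : h' = h + D) :
    PT h' N (fine h (Rf h N ep th F)) (th * 4 ^ D) (5 * ep) 1 := by
  refine PT_of (fun e he g q0 v u hv hu => ?_)
  have h1 := RB_test_fine (pairC k P) (pairTests (P × V k) (P × V k) (V k)) h N (ep := ep) (th := th)
    (F := fun q => F q.1 q.2) (fun q d => hF q.1 q.2 d) hep hth he pairTests_le hrd (K := 4) (h' := h') (D := D)
    (by omega) hD (fun j j' x hj => pairC_sub j j' x hj) (fun j x hj => pairC_grow j x (by omega)) (by norm_num)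
    g q0 (twoFun v u) (abs_twoFun hv hu)
  refine le_trans (le_of_eq ?_) h1
  congr 2
  refine Finset.filter_congr (fun q _ => ?_)
  rw [pairTests_fun]
  rfl

/-- (P2): the difference of two layers, at the rounding of the second -/
theorem Df_PT (hN : N ≤ k) (hF : ∀ b c d, |F b c d| ≤ 1) (hep : 0 < ep) (hth : 0 < th)
    (hrd : 4 * ((2 : ℝ) ^ h)⁻¹ ≤ ep) {h' D : ℕ} (hD : h' = h + D) {ep' th' : ℝ} (hep' : 0 < ep') (hth' : 0 < th')
    (hle : ep' ≤ ep) :
    PT h' N (fun e g b c d => fine h (Rf h N ep th F) e g b c d - Rf h' N ep' th' F e g b c d)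
      (th * 4 ^ D + th') (9 * ep) 1 := by
  classical
  intro e he g hg b0 c0 v u hv hu
  have h1 := Rf_PT_fine (P := P) hN hF hep hth hrd hD e he g hg b0 c0 v u hv hu
  have h2 := Rf_PT (P := P) (N := N) (h := h') hF hep' hth' e he g hg b0 c0 v u hv hu
  rw [add_mul]
  refine le_trans ?_ (add_le_add h1 h2)
  have h3 : ((SC (P := P) h' e b0 ×ˢ SC (P := P) h' e c0).filter fun q =>
      9 * ep ≤ |av e g.1 (fun d => (fine h (Rf h N ep th F) e g q.1 q.2 d - Rf h' N ep' th' F e g q.1 q.2 d) *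
        v q.1 d * u q.2 d)|) ⊆
      ((SC (P := P) h' e b0 ×ˢ SC (P := P) h' e c0).filter fun q =>
        5 * ep ≤ |av e g.1 (fun d => fine h (Rf h N ep th F) e g q.1 q.2 d * v q.1 d * u q.2 d)|) ∪
      ((SC (P := P) h' e b0 ×ˢ SC (P := P) h' e c0).filter fun q =>
        4 * ep' ≤ |av e g.1 (fun d => Rf h' N ep' th' F e g q.1 q.2 d * v q.1 d * u q.2 d)|) := by
    intro q hq
    rw [Finset.mem_filter] at hq
    rw [Finset.mem_union, Finset.mem_filter, Finset.mem_filter]
    have h4 : av e g.1 (fun d => (fine h (Rf h N ep th F) e g q.1 q.2 d - Rf h' N ep' th' F e g q.1 q.2 d) *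
        v q.1 d * u q.2 d) = av e g.1 (fun d => fine h (Rf h N ep th F) e g q.1 q.2 d * v q.1 d * u q.2 d) -
        av e g.1 (fun d => Rf h' N ep' th' F e g q.1 q.2 d * v q.1 d * u q.2 d) := by
      unfold av
      rw [← mul_sub, ← Finset.sum_sub_distrib]
      congr 1
      exact Finset.sum_congr rfl (fun n _ => by ring)
    rw [h4] at hq
    by_contra hcon
    push Not at hcon
    have h5 := hcon.1 hq.1
    have h6 := hcon.2 hq.1
    have h7 := abs_sub (av e g.1 (fun d => fine h (Rf h N ep th F) e g q.1 q.2 d * v q.1 d * u q.2 d))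
      (av e g.1 (fun d => Rf h' N ep' th' F e g q.1 q.2 d * v q.1 d * u q.2 d))
    linarith [hq.2]
  have h8 := (Finset.card_le_card h3).trans (Finset.card_union_le _ _)
  exact_mod_cast h8

/-- product tests for tests bounded by `H` -/
theorem PT.scale {R : Fam2 k P} {θ r : ℝ} (hR : PT h N R θ r 1) {H : ℝ} (hH : 0 < H) :
    PT h N R θ (r * H ^ 2) H := by
  intro e he g hg b0 c0 v u hv hu
  have h1 := hR e he g hg b0 c0 (fun x d => v x d / H) (fun x d => u x d / H)
    (fun x d => by rw [abs_div, abs_of_pos hH, div_le_one hH]; exact hv x d)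
    (fun x d => by rw [abs_div, abs_of_pos hH, div_le_one hH]; exact hu x d)
  refine le_trans (le_of_eq ?_) h1
  congr 2
  refine Finset.filter_congr (fun q _ => ?_)
  have h3 : av e g.1 (fun d => R e g q.1 q.2 d * (v q.1 d / H) * (u q.2 d / H)) =
      av e g.1 (fun d => R e g q.1 q.2 d * v q.1 d * u q.2 d) / H ^ 2 := by
    unfold av
    rw [mul_div_assoc, Finset.sum_div]
    congr 1
    refine Finset.sum_congr rfl (fun n _ => ?_)
    field_simp
  rw [h3, abs_div, abs_of_pos (by positivity : (0 : ℝ) < H ^ 2), le_div_iff₀ (by positivity)]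

/-- the Walsh form -/
theorem Sf_walsh (e : ℕ) (g : V k × ℕ) (b c : P × V k) (d : V k) :
    Sf h N ep th F e g b c d =
      ∑ I : Finset (Fin ((Lf h N ep th F e g b c).map
        (fun s => sgn s.τ ⟨false, b, d⟩ * sgn s.τ ⟨true, c, d⟩)).length),
      psiC ep ((Lf h N ep th F e g b c).map (fun s => sgn s.τ ⟨false, b, d⟩ * sgn s.τ ⟨true, c, d⟩)).length I *
        ∏ i ∈ I, ((Lf h N ep th F e g b c).map (fun s => sgn s.τ ⟨false, b, d⟩ * sgn s.τ ⟨true, c, d⟩)).get i := by
  have h1 := SB_walsh (pairC k P) (pairTests (P × V k) (P × V k) (V k)) h N (ep := ep) (th := th)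
    (F := fun q => F q.1 q.2) e g (b, c) d
  have h2 : (fun s : Birth (TI k P → Bool) => (pairTests (P × V k) (P × V k) (V k)).val s.τ (b, c) d) =
      (fun s => sgn s.τ ⟨false, b, d⟩ * sgn s.τ ⟨true, c, d⟩) := by
    funext s
    exact pairTests_val s.τ b c d
  rw [h2] at h1
  exact h1

/-! ### (P3), (P4) -/

/-- the length of the list of the face `i` at a sample point -/
def Llen (h : ℕ) (i : Fin 3) (ep th : ℝ) (F : P × V k → P × V k → V k → ℝ) (e : ℕ) (ω : Sp k N 3 Θ P) : ℝ :=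
  (Lf h N ep th F e (Gm h e ω) (vx (i + 1) ω) (vx (i + 2) ω)).length

theorem Llen_eq (i : Fin 3) (e : ℕ) (ω : Sp k N 3 Θ P) :
    Llen h i ep th F e ω = LBlen (pairC k P) (pairTests (P × V k) (P × V k) (V k)) h ep th (fun q => F q.1 q.2)
      (freeMap3 k N Θ P i) e ω := rfl

theorem Llen_mono (i : Fin 3) {e : ℕ} (he : e < N) (ω : Sp k N 3 Θ P) :
    Llen h i ep th F (e + 1) ω ≤ Llen h i ep th F e ω := by
  rw [Llen_eq, Llen_eq]
  exact LBlen_mono _ _ _ _ he ω

theorem Lf_mean (i : Fin 3) (hF : ∀ b c d, |F b c d| ≤ 1) (hep : 0 < ep) (hrd : 32 * ((2 : ℝ) ^ h)⁻¹ ≤ ep ^ 2) :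
    (Pm : FP (Sp k N 3 Θ P)).E (Llen h i ep th F 0) ≤ 2 / ep ^ 2 :=
  LB_mean (pairC k P) (pairTests (P × V k) (P × V k) (V k)) h (freeMap3 k N Θ P i) (fun q d => hF q.1 q.2 d) hep hrd

theorem Lf_future (i : Fin 3) (hF : ∀ b c d, |F b c d| ≤ 1) (hep : 0 < ep) (hrd : 32 * ((2 : ℝ) ^ h)⁻¹ ≤ ep ^ 2)
    {e : ℕ} (he : e ≤ N) {f : Sp k N 3 Θ P → ℝ}
    (hf : Fac (fun ω => (vx (i + 1) ω, vx (i + 2) ω, Yn e ω)) f) (hf0 : ∀ ω, 0 ≤ f ω) :
    (Pm : FP (Sp k N 3 Θ P)).E (fun ω => f ω * (Llen h i ep th F 0 ω - Llen h i ep th F e ω)) ≤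
      8 / ep ^ 2 * (Pm : FP (Sp k N 3 Θ P)).E f := by
  refine LB_future (pairC k P) (pairTests (P × V k) (P × V k) (V k)) h (freeMap3 k N Θ P i)
    (fun q d => hF q.1 q.2 d) hep hrd he (fun v u hvu => hf v u ?_) hf0
  have h1 : ((vx (i + 1) v, vx (i + 2) v), pos e (ctr v) (nz v), nz v / 2 ^ e) =
    ((vx (i + 1) u, vx (i + 2) u), pos e (ctr u) (nz u), nz u / 2 ^ e) := hvu
  rw [Prod.ext_iff, Prod.ext_iff] at h1
  obtain ⟨⟨h2, h3⟩, h4⟩ := h1
  show (vx (i + 1) v, vx (i + 2) v, nd e (ctr v) (nz v)) = (vx (i + 1) u, vx (i + 2) u, nd e (ctr u) (nz u))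
  unfold nd
  simp only at h2 h3 h4
  rw [h2, h3, h4]

theorem Lf_tail (i : Fin 3) (hF : ∀ b c d, |F b c d| ≤ 1) (hep : 0 < ep) (hrd : 32 * ((2 : ℝ) ^ h)⁻¹ ≤ ep ^ 2)
    (n : ℕ) :
    (Pm : FP (Sp k N 3 Θ P)).Pr (fun ω => (n : ℝ) * (64 / (3 * ep ^ 2)) ≤ Llen h i ep th F 0 ω) ≤ (1 / 2) ^ n :=
  LB_tail (pairC k P) (pairTests (P × V k) (P × V k) (V k)) h (freeMap3 k N Θ P i) (fun q d => hF q.1 q.2 d)
    hep hrd n

theorem Pf_mean (i : Fin 3) (hF : ∀ b c d, |F b c d| ≤ 1) (hep : 0 < ep) (hth : 0 < th)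
    (hrd : 32 * ((2 : ℝ) ^ h)⁻¹ ≤ ep ^ 2) :
    (Pm : FP (Sp k N 3 Θ P)).E (fun ω => ∑ e ∈ range (N + 1),
      (Pf h N ep th F e (Gm h e ω) (vx (i + 1) ω) (vx (i + 2) ω) : ℝ)) ≤ 32 / (ep ^ 3 * th) :=
  pubs_mean (pairC k P) (pairTests (P × V k) (P × V k) (V k)) h (freeMap3 k N Θ P i) (fun q d => hF q.1 q.2 d)
    hep hth hrd

end

end Pool.Agent.M3.Mod
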