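import Pool.Agent.M3.FP

/-!
# M3 TSDefs: Lemma M' (two-sided m = 2, moving functions, small probability), definitions (helper39)

Everything lives on one finite probability space `P : FP Om`.
Two populations `X : Om → 𝒳`, `Y : Om → 𝒴`; nodes `nx t w : Γx` (for the objects of `𝒳`) and `ny t w : Γy`
(for the objects of `𝒴`), time `t = 0, 1, .., n` (level `L - t`).
Objects are functions of the VALUE of the node: `v t g x : V → ℝ`, `g : Γx`, and `u t g y : V → ℝ`, `g : Γy`.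
Small cells: fibres of `cx t : 𝒳 → κx`, `cy t : 𝒴 → κy`.
`ρ t g : V → ℝ` = mean of the windows `1_J / |J|` over the positions compatible with the node.
-/

set_option autoImplicit false

namespace Pool.Agent.M3.TS

open Finset Pool.Agent.PWZ

noncomputable section

/-! ### weights and inner products -/

section iw

variable {V : Type*} [Fintype V]

/-- inner product with weights -/
def iw (ρ : V → ℝ) (f h : V → ℝ) : ℝ := ∑ c, ρ c * f c * h c

/-- nonnegative weights of total mass at most one -/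
structure Wt (ρ : V → ℝ) : Prop where
  nn : ∀ c, 0 ≤ ρ c
  le1 : ∑ c, ρ c ≤ 1

end iw

/-! ### populations, cells, births -/

section pop

variable {V 𝒳 κ : Type*}

/-- number of the sets of the list which contain `x` -/
def cnt (L : List (Finset 𝒳)) (x : 𝒳) : ℝ := (L.map (fun S => ind (x ∈ S))).sum

/-- the same membership in all the sets of the list -/
def Same (L : List (Finset 𝒳)) (x x' : 𝒳) : Prop := ∀ S ∈ L, (x ∈ S ↔ x' ∈ S)

/-- the cell with name `k` -/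
def cel [Fintype 𝒳] (c : 𝒳 → κ) (k : κ) : Finset 𝒳 :=
  @Finset.filter 𝒳 (fun x => c x = k) (fun _ => Classical.propDecidable _) univ

theorem mem_cel [Fintype 𝒳] {c : 𝒳 → κ} {k : κ} {x : 𝒳} : x ∈ cel c k ↔ c x = k := by
  unfold cel
  simp

/-- all tests see at most `ε |C|` individuals of `C` -/
def HC [Fintype V] (ρ : V → ℝ) (C : Finset 𝒳) (u : 𝒳 → V → ℝ) (r ε : ℝ) : Prop :=
  ∀ w : V → ℝ, (∀ c, |w c| ≤ 2) → ∑ x ∈ C, ind (r < |iw ρ (u x) w|) ≤ ε * (C.card : ℝ)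

end pop

/-! ### one population and its nodes -/

/-- the population `X` with nodes `nd`, cells `cl`, windows `ρ`, for the times `0 .. n` -/
structure Side {Om 𝒳 V Γ κ : Type*} [Fintype Om] [Fintype 𝒳] [Fintype V] (P : FP Om) (X : Om → 𝒳)
    (n : ℕ) (nd : ℕ → Om → Γ) (cl : ℕ → 𝒳 → κ) (ρ : ℕ → Γ → V → ℝ) (par : ℕ → Γ → Γ) : Prop where
  /-- `par t` gives the parent of a node of time `t + 1` -/
  par_nd : ∀ t w, par t (nd (t + 1) w) = nd t w
  wt : ∀ t g, Wt (ρ t g)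
  /-- free law: `X` is uniform given the node -/
  free : ∀ t g x x', P.Pr (fun w => X w = x ∧ nd t w = g) = P.Pr (fun w => X w = x' ∧ nd t w = g)
  /-- the windows are a martingale along the nodes, given `X` -/
  mart : ∀ t < n, ∀ g x v, P.E (fun w => ind (X w = x ∧ nd t w = g) * ρ (t + 1) (nd (t + 1) w) v) =
    P.Pr (fun w => X w = x ∧ nd t w = g) * ρ t g v

/-- number of moves of the family `u` -/
def moves {Om 𝒳 V Γ : Type*} [Fintype Om] (P : FP Om) (X : Om → 𝒳) (n : ℕ) (nd : ℕ → Om → Γ)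
    (u : ℕ → Γ → 𝒳 → V → ℝ) : ℝ :=
  ∑ t ∈ range n, P.Pr (fun w => u (t + 1) (nd (t + 1) w) (X w) ≠ u t (nd t w) (X w))

/-- uniformity of a family: at all nodes, in all cells -/
def HF {Om 𝒳 V Γ κ : Type*} [Fintype 𝒳] [Fintype V] (n : ℕ) (nd : ℕ → Om → Γ) (cl : ℕ → 𝒳 → κ)
    (ρ : ℕ → Γ → V → ℝ) (u : ℕ → Γ → 𝒳 → V → ℝ) (r ε : ℝ) : Prop :=
  ∀ t ≤ n, ∀ w : Om, ∀ k, HC (ρ t (nd t w)) (cel (cl t) k) (u t (nd t w)) r ε

/-- expected number of births which contain `X` -/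
def births {Om 𝒳 Γ κ : Type*} [Fintype Om] (P : FP Om) (X : Om → 𝒳) (n : ℕ) (nd : ℕ → Om → Γ)
    (cl : ℕ → 𝒳 → κ) (B : ℕ → Γ → κ → List (Finset 𝒳)) : ℝ :=
  ∑ t ∈ range n, P.E (fun w => cnt (B (t + 1) (nd (t + 1) w) (cl (t + 1) (X w))) (X w))

/-- expected number of births in the cell of `X` -/
def births' {Om 𝒳 Γ κ : Type*} [Fintype Om] (P : FP Om) (X : Om → 𝒳) (n : ℕ) (nd : ℕ → Om → Γ)
    (cl : ℕ → 𝒳 → κ) (B : ℕ → Γ → κ → List (Finset 𝒳)) : ℝ :=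
  ∑ t ∈ range n, P.E (fun w => ((B (t + 1) (nd (t + 1) w) (cl (t + 1) (X w))).length : ℝ))

/-- the label `lam t (node) x` is a function of the births `B` (lists at a node and a cell) which contain `x` -/
structure LMeas {Om 𝒳 Γ κ β : Type*} (n : ℕ) (nd : ℕ → Om → Γ) (cl : ℕ → 𝒳 → κ)
    (B : ℕ → Γ → κ → List (Finset 𝒳)) (lam : ℕ → Γ → 𝒳 → β) : Prop where
  zero : ∀ w w' x x', lam 0 (nd 0 w) x = lam 0 (nd 0 w') x'
  stay : ∀ t < n, ∀ w x, (∀ S ∈ B (t + 1) (nd (t + 1) w) (cl (t + 1) x), x ∉ S) →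
    lam (t + 1) (nd (t + 1) w) x = lam t (nd t w) x
  same : ∀ t < n, ∀ w x x', cl (t + 1) x = cl (t + 1) x' → lam t (nd t w) x = lam t (nd t w) x' →
    Same (B (t + 1) (nd (t + 1) w) (cl (t + 1) x)) x x' →
    lam (t + 1) (nd (t + 1) w) x = lam (t + 1) (nd (t + 1) w) x'

/-! ### the view of `X` -/

/-- the view of `X` (the digits of `X` are hidden, `Y` is uniform in its small cell).
`J t w` = the true window, `Q` = exact information, `R` = rounded information, `D t` = the digit revealed in the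
step `t → t + 1`, `ox t i`, `oy t i` (`i : Bool`) the two options for the nodes, `ck t k` = the `k`-th compatible cell of
`X`, `kx t w` = the number of the true one. -/
structure View {Om 𝒳 𝒴 V Γx Γy κx κy K : Type*} [Fintype Om] [Fintype 𝒳] [Fintype 𝒴] [Fintype V]
    (P : FP Om) (X : Om → 𝒳) (Y : Om → 𝒴) (n : ℕ) (nx : ℕ → Om → Γx) (ny : ℕ → Om → Γy)
    (cx : ℕ → 𝒳 → κx) (cy : ℕ → 𝒴 → κy) (ρx : ℕ → Γx → V → ℝ) (ρy : ℕ → Γy → V → ℝ)
    (J : ℕ → Om → V → ℝ) (near : ℝ)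
    {κQ κR : Type*} (Q : ℕ → Om → κQ) (R : ℕ → Om → κR) (D : ℕ → Om → ℝ) (dl : ℕ → Om → V → ℝ)
    (ox : ℕ → Bool → Om → Γx) (oy : ℕ → Bool → Om → Γy) (ck : ℕ → K → Om → κx) (kx : ℕ → Om → K) : Prop where
  ppos : ∀ w, P.p w ≠ 0
  Jwt : ∀ t w, Wt (J t w)
  /-- the true window is close to the averaged one -/
  Jnear : ∀ t ≤ n, ∀ w, ∀ f h : V → ℝ, (∀ c, |f c| ≤ 2) → (∀ c, |h c| ≤ 2) →
    |iw (J t w) f h - iw (ρy t (ny t w)) f h| ≤ near
  ρxy : ∀ t w, ρx t (nx t w) = ρy t (ny t w)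
  /-- `R t` is a function of `Q t`, `Q t` of `Q (t + 1)` -/
  QR : ∀ t, Fac (Q t) (R t)
  QQ : ∀ t, Fac (Q (t + 1)) (Q t)
  /-- the digit -/
  Dpm : ∀ t w, D t w = 1 ∨ D t w = -1
  Dfair : ∀ t < n, ∀ w, P.ce (Q t) (D t) w = 0
  DX : ∀ t, Fac (fun w => (X w, Q t w)) (D t)
  DQ : ∀ t, Fac (Q (t + 1)) (D t)
  /-- the next information: digit and cell of `Y` -/
  Qstep : ∀ t < n, Fac (fun w => (Q t w, D t w, cy (t + 1) (Y w))) (Q (t + 1))
  /-- the cell of `Y` is known -/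
  Qcy : ∀ t, Fac (Q t) (fun w => cy t (Y w))
  /-- given `(X, Q t)`, `Y` is uniform in its cell -/
  Yunif : ∀ t ≤ n, ∀ w, ∀ φ : 𝒴 → ℝ, P.ce (fun w => (X w, Q t w)) (fun w => φ (Y w)) w =
    (∑ y ∈ cel (cy t) (cy t (Y w)), φ y) / ((cel (cy t) (cy t (Y w))).card : ℝ)
  /-- the windows -/
  JQ : ∀ t, Fac (fun w => (Y w, Q t w)) (J t)
  dlQ : ∀ t, Fac (fun w => (Y w, Q t w)) (dl t)
  Jstep : ∀ t < n, ∀ w v, J (t + 1) w v = J t w v + D t w * dl t w v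
  /-- the nodes -/
  nxQ : ∀ t, Fac (fun w => (Y w, Q t w)) (nx t)
  nyQ : ∀ t, Fac (fun w => (Y w, Q t w)) (ny t)
  nyy : ∀ t, Fac (ny (t + 1)) (ny t)
  nxy : ∀ t, Fac (fun w => (Y w, ny t w)) (nx t)
  /-- the options -/
  oxR : ∀ t i, Fac (R t) (ox t i)
  oyR : ∀ t i, Fac (R t) (oy t i)
  opt : ∀ t w, ∃ i, nx t w = ox t i w ∧ ny t w = oy t i w
  /-- the options are nodes, with the same window -/
  oact : ∀ t ≤ n, ∀ i w, ∃ w', nx t w' = ox t i w ∧ ny t w' = oy t i w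
  ocnt : ∀ t i x g, P.Pr (fun w => X w = x ∧ ox t i w = g) ≤ 2 * P.Pr (fun w => X w = x ∧ nx t w = g)
  /-- the compatible cells of `X` -/
  ckR : ∀ t k, Fac (R t) (ck t k)
  kxX : ∀ t, Fac (fun w => (X w, R t w)) (kx t)
  ckx : ∀ t w, ck t (kx t w) w = cx t (X w)
  ccnt : ∀ t i k c g, P.Pr (fun w => ck t k w = c ∧ ox t i w = g) ≤
    2 * P.Pr (fun w => cx t (X w) = c ∧ nx t w = g)
  /-- the cells of `Y` are nested, and a cell has at most `4` times the size of a child -/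
  cyn : ∀ t y y', cy (t + 1) y = cy (t + 1) y' → cy t y = cy t y'
  cy4 : ∀ t < n, ∀ y, ((cel (cy t) (cy t y)).card : ℝ) ≤ 4 * ((cel (cy (t + 1)) (cy (t + 1) y)).card : ℝ)
  /-- given `(Y, node)`, `X` is fresh -/
  fresh : ∀ t ≤ n, ∀ y g, ∀ E : 𝒳 → Prop, ∀ ε : ℝ, 0 ≤ ε →
    (∀ k, ∑ x ∈ cel (cx t) k, ind (E x) ≤ ε * ((cel (cx t) k).card : ℝ)) →
    P.Pr (fun w => Y w = y ∧ ny t w = g ∧ E (X w)) ≤ 3 * ε * P.Pr (fun w => Y w = y ∧ ny t w = g)

/-- the process `<u_Y, v_X>` seen in the true window -/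
def TT {Om 𝒳 𝒴 V Γx Γy : Type*} [Fintype V] (X : Om → 𝒳) (Y : Om → 𝒴) (nx : ℕ → Om → Γx) (ny : ℕ → Om → Γy)
    (J : ℕ → Om → V → ℝ) (u : ℕ → Γy → 𝒴 → V → ℝ) (v : ℕ → Γx → 𝒳 → V → ℝ) (t : ℕ) (w : Om) : ℝ :=
  iw (J t w) (u t (ny t w) (Y w)) (v t (nx t w) (X w))

/-- one bit of the record: the true compatible cell is the `k`-th, and `X` is in the `j`-th birth of the option `i` -/
def rbit {Om 𝒳 Γx κx K : Type*} (X : Om → 𝒳) (ox : ℕ → Bool → Om → Γx) (ck : ℕ → K → Om → κx) (kx : ℕ → Om → K)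
    (B : ℕ → Γx → κx → List (Finset 𝒳)) (t : ℕ) (idx : K × Bool × ℕ) (w : Om) : Prop :=
  kx t w = idx.1 ∧ ∃ S, (B t (ox t idx.2.1 w) (ck t idx.1 w))[idx.2.2]? = some S ∧ X w ∈ S

/-- the record at time `t`: all the bits at the times `1, .., t` -/
def record {Om 𝒳 Γx κx K : Type*} (X : Om → 𝒳) (ox : ℕ → Bool → Om → Γx) (ck : ℕ → K → Om → κx) (kx : ℕ → Om → K)
    (B : ℕ → Γx → κx → List (Finset 𝒳)) (t : ℕ) (w : Om) : ℕ → K × Bool × ℕ → Prop :=
  fun s idx => s < t ∧ rbit X ox ck kx B (s + 1) idx w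

end

end Pool.Agent.M3.TS
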