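import Pool.Agent.M3.FPInfo

/-!
# M3.S3Vec: the robust predictor on a finite set (section 3 of m3)

`pz` = law of a refinement `V`, `px`, `py`, `pw` = its laws given `X`, `Y`, `(X,Y)`.  `x = px/pz`, `y = py/pz`.
`rb x y = x y` if `min x y ≤ 8`, `max x y` otherwise.  Predictor `rq = pz rb / rz`, `rz = Σ pz rb`.
* `rz_le`: `rz ≤ 1 + Σ pz lw`, `lw = (x-1)(y-1)` if `min ≤ 8`, `0` otherwise;
* `log_rq`: `log (pw/rq) = log (pw pz/(px py)) + ls + log rz`, `ls = log min` if `min > 8`, `0` otherwise;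
* `pinsker_vec`: `(Σ pw d - Σ q d)^2 ≤ 2 Σ pw log (pw/q)` for `d = ±1`;
* `rq_hel`: `(Σ rq d - Σ pz d)^2 ≤ 512 (Σ pz (√x-1)^2 + Σ pz (√y-1)^2)`;
* `hel_le_kl`: `Σ pz (√x-1)^2 ≤ Σ px log (px/pz)`.
-/

set_option autoImplicit false
set_option linter.unusedSectionVars false

namespace Pool.Agent.M3

open Finset

noncomputable section

/-- robust product of two density ratios -/
def rb (x y : ℝ) : ℝ := if min x y ≤ 8 then x * y else max x y

/-- weak product of the deviations -/
def lw (x y : ℝ) : ℝ := if min x y ≤ 8 then (x - 1) * (y - 1) else 0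

/-- overlap of two strong ratios -/
def ls (x y : ℝ) : ℝ := if min x y ≤ 8 then 0 else Real.log (min x y)

end

theorem rb_nonneg {x y : ℝ} (hx : 0 ≤ x) (hy : 0 ≤ y) : 0 ≤ rb x y := by
  unfold rb
  split_ifs
  · exact mul_nonneg hx hy
  · exact hx.trans (le_max_left _ _)

theorem rb_pos {x y : ℝ} (hx : 0 < x) (hy : 0 < y) : 0 < rb x y := by
  unfold rb
  split_ifs
  · exact mul_pos hx hy
  · exact lt_of_lt_of_le hx (le_max_left _ _)

theorem rb_comm (x y : ℝ) : rb x y = rb y x := by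
  unfold rb
  rw [min_comm, max_comm, mul_comm]

theorem ls_nonneg (x y : ℝ) : 0 ≤ ls x y := by
  unfold ls
  split_ifs with h
  · exact le_rfl
  · exact Real.log_nonneg (by linarith [not_le.mp h])

theorem rb_le (x y : ℝ) : rb x y ≤ x + y - 1 + lw x y := by
  unfold rb lw
  split_ifs with h
  · exact le_of_eq (by ring)
  · have h1 : 8 < min x y := not_le.mp h
    have h2 := min_add_max x y
    linarith

theorem log_rb {x y : ℝ} (hx : 0 < x) (hy : 0 < y) : Real.log (rb x y) = Real.log x + Real.log y - ls x y := by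
  unfold rb ls
  split_ifs with h
  · rw [Real.log_mul hx.ne' hy.ne']; ring
  · have h1 : 0 < min x y := lt_min hx hy
    have h2 : 0 < max x y := lt_max_of_lt_left hx
    have h3 := min_mul_max x y
    have h4 : Real.log x + Real.log y = Real.log (min x y) + Real.log (max x y) := by
      rw [← Real.log_mul hx.ne' hy.ne', ← Real.log_mul h1.ne' h2.ne', h3]
    linarith

theorem sqrt_rb_aux {x y : ℝ} (hx : 0 ≤ x) (hy : 0 ≤ y) (h : y ≤ 8) :
    (Real.sqrt (x * y) - 1) ^ 2 ≤ 16 * ((Real.sqrt x - 1) ^ 2 + (Real.sqrt y - 1) ^ 2) := by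
  rw [Real.sqrt_mul hx]
  set s := Real.sqrt x
  set t := Real.sqrt y
  have ht : t ^ 2 = y := Real.sq_sqrt hy
  have ht0 : 0 ≤ t := Real.sqrt_nonneg _
  have e : s * t - 1 = t * (s - 1) + (t - 1) := by ring
  rw [e]
  have h1 : (t * (s - 1) + (t - 1)) ^ 2 ≤ 2 * (t * (s - 1)) ^ 2 + 2 * (t - 1) ^ 2 := by
    nlinarith [sq_nonneg (t * (s - 1) - (t - 1))]
  have h2 : (t * (s - 1)) ^ 2 = y * (s - 1) ^ 2 := by rw [mul_pow, ht]
  have h3 : y * (s - 1) ^ 2 ≤ 8 * (s - 1) ^ 2 := mul_le_mul_of_nonneg_right h (sq_nonneg _)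
  nlinarith [sq_nonneg (t - 1), sq_nonneg (s - 1)]

theorem sqrt_rb {x y : ℝ} (hx : 0 ≤ x) (hy : 0 ≤ y) :
    (Real.sqrt (rb x y) - 1) ^ 2 ≤ 16 * ((Real.sqrt x - 1) ^ 2 + (Real.sqrt y - 1) ^ 2) := by
  unfold rb
  split_ifs with h
  · rcases min_le_iff.mp h with h1 | h1
    · rw [mul_comm x y, add_comm]
      exact sqrt_rb_aux hy hx h1
    · exact sqrt_rb_aux hx hy h1
  · rcases max_choice x y with h1 | h1 <;> rw [h1] <;>
      nlinarith [sq_nonneg (Real.sqrt x - 1), sq_nonneg (Real.sqrt y - 1)]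

variable {κ : Type*}

/-- Pinsker for a sign -/
theorem pinsker_vec (S : Finset κ) {p q d : κ → ℝ} (hp : ∀ v ∈ S, 0 ≤ p v) (hq : ∀ v ∈ S, 0 ≤ q v)
    (hp1 : ∑ v ∈ S, p v = 1) (hq1 : ∑ v ∈ S, q v = 1) (hac : ∀ v ∈ S, q v = 0 → p v = 0)
    (hd : ∀ v ∈ S, d v = 1 ∨ d v = -1) :
    (∑ v ∈ S, p v * d v - ∑ v ∈ S, q v * d v) ^ 2 ≤ 2 * ∑ v ∈ S, p v * Real.log (p v / q v) := by
  set b := ∑ v ∈ S, p v * d v with hb
  set c := ∑ v ∈ S, q v * d v with hc
  have hab : ∀ (r : κ → ℝ), (∀ v ∈ S, 0 ≤ r v) → ∑ v ∈ S, r v = 1 → |∑ v ∈ S, r v * d v| ≤ 1 := by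
    intro r hr hr1
    refine (Finset.abs_sum_le_sum_abs _ _).trans ?_
    rw [← hr1]
    refine Finset.sum_le_sum (fun v hv => ?_)
    rw [abs_mul, abs_of_nonneg (hr v hv)]
    rcases hd v hv with h | h <;> rw [h] <;> norm_num
  have hb1 : |b| ≤ 1 := hab p hp hp1
  have hc1 : |c| ≤ 1 := hab q hq hq1
  -- sums weighted by 1 + e d
  have hpm : ∀ (r : κ → ℝ) (e : ℝ), ∑ v ∈ S, r v = 1 → ∑ v ∈ S, r v * (1 + e * d v) = 1 + e * ∑ v ∈ S, r v * d v := by
    intro r e hr1
    have h : ∑ v ∈ S, r v * (1 + e * d v) = ∑ v ∈ S, r v + e * ∑ v ∈ S, r v * d v := by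
      rw [Finset.mul_sum, ← Finset.sum_add_distrib]
      exact Finset.sum_congr rfl (fun v _ => by ring)
    rw [h, hr1]
  have hgibbs : 0 ≤ ∑ v ∈ S, p v * Real.log (p v / q v) := by
    have : ∑ v ∈ S, (p v - q v) ≤ ∑ v ∈ S, p v * Real.log (p v / q v) := by
      refine Finset.sum_le_sum (fun v hv => ?_)
      rcases eq_or_lt_of_le (hp v hv) with h0 | h0
      · rw [← h0]; simp [hq v hv]
      · have hq0 : 0 < q v := lt_of_le_of_ne (hq v hv) (fun h => h0.ne' (hac v hv h.symm))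
        have h1 := Real.log_le_sub_one_of_pos (div_pos hq0 h0)
        have h2 : Real.log (p v / q v) = - Real.log (q v / p v) := by
          rw [← Real.log_inv, inv_div]
        rw [h2]
        have h3 : p v * Real.log (q v / p v) ≤ p v * (q v / p v - 1) := mul_le_mul_of_nonneg_left h1 h0.le
        have h4 : p v * (q v / p v - 1) = q v - p v := by field_simp
        linarith
    rw [Finset.sum_sub_distrib, hp1, hq1] at this
    linarith
  rcases lt_or_eq_of_le hc1 with hlt | heq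
  · have hbp := FP.bin_pinsker hb1 hlt
    obtain ⟨c1, c2⟩ := abs_lt.mp hlt
    obtain ⟨b1, b2⟩ := abs_le.mp hb1
    have hrhs : (1 + b) / 2 * Real.log ((1 + b) / (1 + c)) + (1 - b) / 2 * Real.log ((1 - b) / (1 - c)) =
        ∑ v ∈ S, p v * ((1 + d v) / 2 * Real.log ((1 + b) / (1 + c)) +
          (1 - d v) / 2 * Real.log ((1 - b) / (1 - c))) := by
      have e1 := hpm p 1 hp1
      have e2 := hpm p (-1) hp1
      rw [one_mul, ← hb] at e1
      rw [← hb] at e2
      generalize Real.log ((1 + b) / (1 + c)) = L1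
      generalize Real.log ((1 - b) / (1 - c)) = L2
      have e3 : (1 : ℝ) - b = ∑ v ∈ S, p v * (1 + -1 * d v) := by rw [e2]; ring
      rw [e3, ← e1, Finset.sum_div, Finset.sum_div, Finset.sum_mul, Finset.sum_mul, ← Finset.sum_add_distrib]
      exact Finset.sum_congr rfl (fun v _ => by ring)
    have key : (1 + b) / 2 * Real.log ((1 + b) / (1 + c)) + (1 - b) / 2 * Real.log ((1 - b) / (1 - c)) ≤
        ∑ v ∈ S, p v * Real.log (p v / q v) := by
      rw [hrhs]
      have hterm : ∀ v ∈ S, p v * ((1 + d v) / 2 * Real.log ((1 + b) / (1 + c)) +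
          (1 - d v) / 2 * Real.log ((1 - b) / (1 - c))) + (p v - q v * ((1 + d v * b) / (1 + d v * c))) ≤
          p v * Real.log (p v / q v) := by
        intro v hv
        have hcd : 0 < 1 + d v * c := by rcases hd v hv with h | h <;> rw [h] <;> linarith
        have hbd : 0 ≤ 1 + d v * b := by rcases hd v hv with h | h <;> rw [h] <;> linarith
        rcases eq_or_lt_of_le (hp v hv) with h0 | h0
        · rw [← h0]
          have := mul_nonneg (hq v hv) (div_nonneg hbd hcd.le)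
          simp only [zero_mul, zero_add, zero_sub]
          linarith
        · have hq0 : 0 < q v := lt_of_le_of_ne (hq v hv) (fun h => h0.ne' (hac v hv h.symm))
          -- 1 + d b > 0 because p v > 0
          have hbd' : 0 < 1 + d v * b := by
            have e := hpm p (d v) hp1
            rw [← hb] at e
            rw [← e]
            refine Finset.sum_pos' (fun u hu => mul_nonneg (hp u hu) ?_) ⟨v, hv, mul_pos h0 ?_⟩
            · rcases hd v hv with h | h <;> rcases hd u hu with h' | h' <;> rw [h, h'] <;> norm_num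
            · rcases hd v hv with h | h <;> rw [h] <;> norm_num
          have hlog : (1 + d v) / 2 * Real.log ((1 + b) / (1 + c)) +
              (1 - d v) / 2 * Real.log ((1 - b) / (1 - c)) = Real.log ((1 + d v * b) / (1 + d v * c)) := by
            rcases hd v hv with h | h
            · rw [h]; norm_num
            · rw [h]
              have e1 : (1 : ℝ) + -1 * b = 1 - b := by ring
              have e2 : (1 : ℝ) + -1 * c = 1 - c := by ring
              rw [e1, e2]; norm_num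
          rw [hlog]
          set ρ := (1 + d v * b) / (1 + d v * c) with hρ
          have hρ0 : 0 < ρ := div_pos hbd' hcd
          have h1 := Real.log_le_sub_one_of_pos (div_pos (mul_pos hq0 hρ0) h0)
          have h2 : Real.log (q v * ρ / p v) = Real.log ρ - Real.log (p v / q v) := by
            rw [Real.log_div (mul_pos hq0 hρ0).ne' h0.ne', Real.log_mul hq0.ne' hρ0.ne',
              Real.log_div h0.ne' hq0.ne']
            ring
          rw [h2] at h1
          have h3 : p v * (Real.log ρ - Real.log (p v / q v)) ≤ p v * (q v * ρ / p v - 1) :=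
            mul_le_mul_of_nonneg_left h1 h0.le
          have h4 : p v * (q v * ρ / p v - 1) = q v * ρ - p v := by field_simp
          linarith
      have hsum := Finset.sum_le_sum hterm
      rw [Finset.sum_add_distrib, Finset.sum_sub_distrib, hp1] at hsum
      have hq2 : ∑ v ∈ S, q v * ((1 + d v * b) / (1 + d v * c)) = 1 := by
        have e : ∀ v ∈ S, q v * ((1 + d v * b) / (1 + d v * c)) =
            (q v * (1 + 1 * d v)) / 2 * ((1 + b) / (1 + c)) + (q v * (1 + -1 * d v)) / 2 * ((1 - b) / (1 - c)) := by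
          intro v hv
          rcases hd v hv with h | h
          · rw [h]; ring
          · rw [h]; ring
        rw [Finset.sum_congr rfl e, Finset.sum_add_distrib, ← Finset.sum_mul, ← Finset.sum_mul,
          ← Finset.sum_div, ← Finset.sum_div, hpm q 1 hq1, hpm q (-1) hq1, ← hc]
        have n1 : (1 : ℝ) + c ≠ 0 := by linarith
        have n2 : (1 : ℝ) - c ≠ 0 := by linarith
        field_simp
        ring
      rw [hq2] at hsum
      linarith
    have : (b - c) ^ 2 / 2 ≤ ∑ v ∈ S, p v * Real.log (p v / q v) := hbp.trans key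
    linarith
  · -- |c| = 1 : q lives on d = c, hence so does p
    have hc0 : c = 1 ∨ c = -1 := by
      rcases (abs_eq (by norm_num : (0 : ℝ) ≤ 1)).mp heq with h | h
      · exact Or.inl h
      · exact Or.inr h
    have hcc : c * c = 1 := by rcases hc0 with h | h <;> rw [h] <;> norm_num
    have hq0 : ∀ v ∈ S, d v ≠ c → q v = 0 := by
      have e := hpm q (-c) hq1
      rw [← hc] at e
      have e0 : ∑ v ∈ S, q v * (1 + -c * d v) = 0 := by rw [e]; linarith
      have hnn : ∀ v ∈ S, 0 ≤ q v * (1 + -c * d v) := by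
        intro v hv
        refine mul_nonneg (hq v hv) ?_
        rcases hc0 with h | h <;> rcases hd v hv with h' | h' <;> rw [h, h'] <;> norm_num
      intro v hv hne
      have h1 := (Finset.sum_eq_zero_iff_of_nonneg hnn).mp e0 v hv
      rcases mul_eq_zero.mp h1 with h | h
      · exact h
      · exfalso
        rcases hc0 with h2 | h2
        · rcases hd v hv with h3 | h3
          · exact hne (h3.trans h2.symm)
          · rw [h2, h3] at h; norm_num at h
        · rcases hd v hv with h3 | h3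
          · rw [h2, h3] at h; norm_num at h
          · exact hne (h3.trans h2.symm)
    have hbc : b = c := by
      have e : b = ∑ v ∈ S, p v * c := by
        rw [hb]
        refine Finset.sum_congr rfl (fun v hv => ?_)
        by_cases h : d v = c
        · rw [h]
        · rw [hac v hv (hq0 v hv h)]; ring
      rw [e, ← Finset.sum_mul, hp1, one_mul]
    rw [hbc, sub_self]
    norm_num
    exact hgibbs

section Rob

variable (S : Finset κ) (pz px py pw : κ → ℝ)

noncomputable section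

/-- normalisation of the robust predictor -/
def rz : ℝ := ∑ v ∈ S, pz v * rb (px v / pz v) (py v / pz v)

/-- robust predictor -/
def rq (v : κ) : ℝ := pz v * rb (px v / pz v) (py v / pz v) / rz S pz px py

end

variable {S pz px py pw}

theorem rz_le (hz : ∀ v ∈ S, 0 ≤ pz v) (hz1 : ∑ v ∈ S, pz v = 1) (hx1 : ∑ v ∈ S, px v = 1)
    (hy1 : ∑ v ∈ S, py v = 1) (hxz : ∀ v ∈ S, pz v = 0 → px v = 0) (hyz : ∀ v ∈ S, pz v = 0 → py v = 0) :
    rz S pz px py ≤ 1 + ∑ v ∈ S, pz v * lw (px v / pz v) (py v / pz v) := by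
  unfold rz
  have h : ∀ v ∈ S, pz v * rb (px v / pz v) (py v / pz v) ≤
      (px v + py v - pz v) + pz v * lw (px v / pz v) (py v / pz v) := by
    intro v hv
    have h1 := mul_le_mul_of_nonneg_left (rb_le (px v / pz v) (py v / pz v)) (hz v hv)
    by_cases h0 : pz v = 0
    · rw [h0, hxz v hv h0, hyz v hv h0]; simp
    · have e1 : pz v * (px v / pz v) = px v := by field_simp
      have e2 : pz v * (py v / pz v) = py v := by field_simp
      have e3 : pz v * (px v / pz v + py v / pz v - 1 + lw (px v / pz v) (py v / pz v)) =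
          (px v + py v - pz v) + pz v * lw (px v / pz v) (py v / pz v) := by
        calc _ = pz v * (px v / pz v) + pz v * (py v / pz v) - pz v +
              pz v * lw (px v / pz v) (py v / pz v) := by ring
          _ = _ := by rw [e1, e2]
      rw [e3] at h1
      exact h1
  refine (Finset.sum_le_sum h).trans (le_of_eq ?_)
  rw [Finset.sum_add_distrib, Finset.sum_sub_distrib, Finset.sum_add_distrib, hz1, hx1, hy1]
  ring

theorem rz_pos (hz : ∀ v ∈ S, 0 ≤ pz v) (hx : ∀ v ∈ S, 0 ≤ px v) (hy : ∀ v ∈ S, 0 ≤ py v)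
    {v : κ} (hv : v ∈ S) (h1 : pz v ≠ 0) (h2 : px v ≠ 0) (h3 : py v ≠ 0) : 0 < rz S pz px py := by
  unfold rz
  refine Finset.sum_pos' (fun u hu => mul_nonneg (hz u hu)
    (rb_nonneg (div_nonneg (hx u hu) (hz u hu)) (div_nonneg (hy u hu) (hz u hu)))) ⟨v, hv, ?_⟩
  have p1 : 0 < pz v := lt_of_le_of_ne (hz v hv) h1.symm
  have p2 : 0 < px v := lt_of_le_of_ne (hx v hv) h2.symm
  have p3 : 0 < py v := lt_of_le_of_ne (hy v hv) h3.symm
  exact mul_pos p1 (rb_pos (div_pos p2 p1) (div_pos p3 p1))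

theorem rz_nonneg (hz : ∀ v ∈ S, 0 ≤ pz v) (hx : ∀ v ∈ S, 0 ≤ px v) (hy : ∀ v ∈ S, 0 ≤ py v) :
    0 ≤ rz S pz px py :=
  Finset.sum_nonneg (fun u hu => mul_nonneg (hz u hu)
    (rb_nonneg (div_nonneg (hx u hu) (hz u hu)) (div_nonneg (hy u hu) (hz u hu))))

theorem rq_nonneg (hz : ∀ v ∈ S, 0 ≤ pz v) (hx : ∀ v ∈ S, 0 ≤ px v) (hy : ∀ v ∈ S, 0 ≤ py v)
    {v : κ} (hv : v ∈ S) : 0 ≤ rq S pz px py v :=
  div_nonneg (mul_nonneg (hz v hv) (rb_nonneg (div_nonneg (hx v hv) (hz v hv))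
    (div_nonneg (hy v hv) (hz v hv)))) (rz_nonneg hz hx hy)

theorem rq_sum (h : rz S pz px py ≠ 0) : ∑ v ∈ S, rq S pz px py v = 1 := by
  unfold rq
  rw [← Finset.sum_div]
  exact div_self h

theorem rq_pos (hz : ∀ v ∈ S, 0 ≤ pz v) (hx : ∀ v ∈ S, 0 ≤ px v) (hy : ∀ v ∈ S, 0 ≤ py v)
    {v : κ} (hv : v ∈ S) (h1 : pz v ≠ 0) (h2 : px v ≠ 0) (h3 : py v ≠ 0) : 0 < rq S pz px py v := by
  have p1 : 0 < pz v := lt_of_le_of_ne (hz v hv) h1.symm
  have p2 : 0 < px v := lt_of_le_of_ne (hx v hv) h2.symm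
  have p3 : 0 < py v := lt_of_le_of_ne (hy v hv) h3.symm
  exact div_pos (mul_pos p1 (rb_pos (div_pos p2 p1) (div_pos p3 p1))) (rz_pos hz hx hy hv h1 h2 h3)

/-- the exact formula for the relative entropy density -/
theorem log_rq (hz : ∀ v ∈ S, 0 ≤ pz v) (hx : ∀ v ∈ S, 0 ≤ px v) (hy : ∀ v ∈ S, 0 ≤ py v)
    {v : κ} (hv : v ∈ S) (h0 : 0 < pw v) (h1 : pz v ≠ 0) (h2 : px v ≠ 0) (h3 : py v ≠ 0) :
    Real.log (pw v / rq S pz px py v) = Real.log (pw v * pz v / (px v * py v)) +
      ls (px v / pz v) (py v / pz v) + Real.log (rz S pz px py) := by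
  have p1 : 0 < pz v := lt_of_le_of_ne (hz v hv) h1.symm
  have p2 : 0 < px v := lt_of_le_of_ne (hx v hv) h2.symm
  have p3 : 0 < py v := lt_of_le_of_ne (hy v hv) h3.symm
  have hZ := rz_pos hz hx hy hv h1 h2 h3
  have hr := rb_pos (div_pos p2 p1) (div_pos p3 p1)
  have hl := log_rb (div_pos p2 p1) (div_pos p3 p1)
  unfold rq
  rw [Real.log_div h0.ne' (div_pos (mul_pos p1 hr) hZ).ne', Real.log_div (mul_pos p1 hr).ne' hZ.ne',
    Real.log_mul p1.ne' hr.ne', hl, Real.log_div p2.ne' p1.ne', Real.log_div p3.ne' p1.ne',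
    Real.log_div (mul_pos h0 p1).ne' (mul_pos p2 p3).ne', Real.log_mul h0.ne' p1.ne',
    Real.log_mul p2.ne' p3.ne']
  ring

/-- the robust predictor is close to `pz` in the Hellinger sense -/
theorem rq_hel {d : κ → ℝ} (hz : ∀ v ∈ S, 0 ≤ pz v) (hx : ∀ v ∈ S, 0 ≤ px v) (hy : ∀ v ∈ S, 0 ≤ py v)
    (hz1 : ∑ v ∈ S, pz v = 1) (hZ : 0 < rz S pz px py) (hd : ∀ v ∈ S, |d v| ≤ 1) :
    (∑ v ∈ S, rq S pz px py v * d v - ∑ v ∈ S, pz v * d v) ^ 2 ≤
      512 * (∑ v ∈ S, pz v * (Real.sqrt (px v / pz v) - 1) ^ 2 +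
        ∑ v ∈ S, pz v * (Real.sqrt (py v / pz v) - 1) ^ 2) := by
  set R : κ → ℝ := fun v => rb (px v / pz v) (py v / pz v) with hR
  have hR0 : ∀ v ∈ S, 0 ≤ R v := fun v hv =>
    rb_nonneg (div_nonneg (hx v hv) (hz v hv)) (div_nonneg (hy v hv) (hz v hv))
  set Z := rz S pz px py with hZd
  have hZe : Z = ∑ v ∈ S, pz v * R v := rfl
  set N := Real.sqrt Z with hN
  have hN0 : 0 < N := Real.sqrt_pos.mpr hZ
  have hN2 : N ^ 2 = Z := Real.sq_sqrt hZ.le
  set Hh := ∑ v ∈ S, pz v * (Real.sqrt (R v) - 1) ^ 2 with hHh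
  have hHh0 : 0 ≤ Hh := Finset.sum_nonneg (fun v hv => mul_nonneg (hz v hv) (sq_nonneg _))
  -- the Hellinger bound for R
  have hHle : Hh ≤ 16 * (∑ v ∈ S, pz v * (Real.sqrt (px v / pz v) - 1) ^ 2 +
        ∑ v ∈ S, pz v * (Real.sqrt (py v / pz v) - 1) ^ 2) := by
    rw [← Finset.sum_add_distrib, Finset.mul_sum]
    refine Finset.sum_le_sum (fun v hv => ?_)
    have := mul_le_mul_of_nonneg_left (sqrt_rb (div_nonneg (hx v hv) (hz v hv))
      (div_nonneg (hy v hv) (hz v hv))) (hz v hv)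
    refine this.trans (le_of_eq ?_)
    ring
  -- G = Σ pz (√R / N - 1)^2
  set G := ∑ v ∈ S, pz v * (Real.sqrt (R v) / N - 1) ^ 2 with hG
  have hG0 : 0 ≤ G := Finset.sum_nonneg (fun v hv => mul_nonneg (hz v hv) (sq_nonneg _))
  set A := ∑ v ∈ S, pz v * Real.sqrt (R v) with hA
  have hA0 : 0 ≤ A := Finset.sum_nonneg (fun v hv => mul_nonneg (hz v hv) (Real.sqrt_nonneg _))
  have eH : Hh = N ^ 2 - 2 * A + 1 := by
    have h : Hh = (∑ v ∈ S, pz v * R v) - 2 * A + ∑ v ∈ S, pz v := by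
      rw [hHh, hA, Finset.mul_sum, ← Finset.sum_sub_distrib, ← Finset.sum_add_distrib]
      refine Finset.sum_congr rfl (fun v hv => ?_)
      have := Real.sq_sqrt (hR0 v hv)
      calc pz v * (Real.sqrt (R v) - 1) ^ 2 =
          pz v * (Real.sqrt (R v) ^ 2) - 2 * (pz v * Real.sqrt (R v)) + pz v := by ring
        _ = _ := by rw [this]
    rw [h, hz1, hN2, hZe]
  have eG : G = 2 - 2 * A / N := by
    have e1 : G = (∑ v ∈ S, pz v * R v) / N ^ 2 - 2 * A / N + ∑ v ∈ S, pz v := by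
      rw [hG, hA, Finset.mul_sum, Finset.sum_div, Finset.sum_div, ← Finset.sum_sub_distrib,
        ← Finset.sum_add_distrib]
      refine Finset.sum_congr rfl (fun v hv => ?_)
      have := Real.sq_sqrt (hR0 v hv)
      calc pz v * (Real.sqrt (R v) / N - 1) ^ 2 =
          pz v * (Real.sqrt (R v) ^ 2) / N ^ 2 - 2 * (pz v * Real.sqrt (R v)) / N + pz v := by
            field_simp
            ring
        _ = _ := by rw [this]
    rw [e1, ← hZe, hN2, div_self hZ.ne', hz1]
    ring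
  have hG2 : G ≤ 2 := by
    rw [eG]
    have : 0 ≤ 2 * A / N := by positivity
    linarith
  have hGN : G * N = Hh - (N - 1) ^ 2 := by
    rw [eG, eH]
    field_simp
    ring
  have hG8 : G ≤ 8 * Hh := by
    by_cases hh : 1 / 2 ≤ N
    · have h1 : G * (1 / 2) ≤ G * N := mul_le_mul_of_nonneg_left hh hG0
      rw [hGN] at h1
      nlinarith [sq_nonneg (N - 1)]
    · push Not at hh
      have h1 : 0 ≤ G * N := mul_nonneg hG0 hN0.le
      rw [hGN] at h1
      have h2 : (1 / 4 : ℝ) ≤ (N - 1) ^ 2 := by nlinarith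
      linarith
  -- L1 bound
  have hL : (∑ v ∈ S, rq S pz px py v * d v - ∑ v ∈ S, pz v * d v) ^ 2 ≤ 4 * G := by
    have e1 : ∑ v ∈ S, rq S pz px py v * d v - ∑ v ∈ S, pz v * d v =
        ∑ v ∈ S, (Real.sqrt (pz v) * (Real.sqrt (R v) / N - 1)) *
          (Real.sqrt (pz v) * (Real.sqrt (R v) / N + 1) * d v) := by
      rw [← Finset.sum_sub_distrib]
      refine Finset.sum_congr rfl (fun v hv => ?_)
      have a1 := Real.mul_self_sqrt (hz v hv)
      have a2 := Real.sq_sqrt (hR0 v hv)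
      calc rq S pz px py v * d v - pz v * d v = pz v * (R v / Z - 1) * d v := by
            unfold rq; rw [← hZd]; ring
        _ = (Real.sqrt (pz v) * Real.sqrt (pz v)) * ((Real.sqrt (R v) ^ 2 / N ^ 2) - 1) * d v := by
            rw [a1, a2, hN2]
        _ = _ := by field_simp; ring
    rw [e1]
    refine (Finset.sum_mul_sq_le_sq_mul_sq S _ _).trans ?_
    have b1 : ∑ v ∈ S, (Real.sqrt (pz v) * (Real.sqrt (R v) / N - 1)) ^ 2 = G := by
      rw [hG]
      refine Finset.sum_congr rfl (fun v hv => ?_)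
      rw [mul_pow, Real.sq_sqrt (hz v hv)]
    have b2 : ∑ v ∈ S, (Real.sqrt (pz v) * (Real.sqrt (R v) / N + 1) * d v) ^ 2 ≤ 4 := by
      have c1 : ∀ v ∈ S, (Real.sqrt (pz v) * (Real.sqrt (R v) / N + 1) * d v) ^ 2 ≤
          2 * (pz v * R v / Z) + 2 * pz v := by
        intro v hv
        have a2 := Real.sq_sqrt (hR0 v hv)
        have a3 : d v ^ 2 ≤ 1 := by
          have := abs_le.mp (hd v hv)
          nlinarith
        have a4 : (Real.sqrt (R v) / N + 1) ^ 2 ≤ 2 * (R v / Z) + 2 := by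
          have : (Real.sqrt (R v) / N) ^ 2 = R v / Z := by rw [div_pow, a2, hN2]
          nlinarith [sq_nonneg (Real.sqrt (R v) / N - 1)]
        rw [mul_pow, mul_pow, Real.sq_sqrt (hz v hv)]
        have a5 : 0 ≤ pz v * (Real.sqrt (R v) / N + 1) ^ 2 := mul_nonneg (hz v hv) (sq_nonneg _)
        calc pz v * (Real.sqrt (R v) / N + 1) ^ 2 * d v ^ 2 ≤ pz v * (Real.sqrt (R v) / N + 1) ^ 2 * 1 :=
              mul_le_mul_of_nonneg_left a3 a5
          _ ≤ pz v * (2 * (R v / Z) + 2) := by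
              rw [mul_one]; exact mul_le_mul_of_nonneg_left a4 (hz v hv)
          _ = _ := by ring
      refine (Finset.sum_le_sum c1).trans (le_of_eq ?_)
      rw [Finset.sum_add_distrib, ← Finset.mul_sum, ← Finset.mul_sum, ← Finset.sum_div, ← hZe, hz1,
        div_self hZ.ne']
      norm_num
    rw [b1, mul_comm 4 G]
    exact mul_le_mul_of_nonneg_left b2 hG0
  calc _ ≤ 4 * G := hL
    _ ≤ 4 * (8 * Hh) := by linarith
    _ ≤ 4 * (8 * (16 * (∑ v ∈ S, pz v * (Real.sqrt (px v / pz v) - 1) ^ 2 +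
        ∑ v ∈ S, pz v * (Real.sqrt (py v / pz v) - 1) ^ 2))) := by linarith
    _ = _ := by ring

/-- Hellinger is bounded by relative entropy -/
theorem hel_le_kl (hz : ∀ v ∈ S, 0 ≤ pz v) (hx : ∀ v ∈ S, 0 ≤ px v) (hz1 : ∑ v ∈ S, pz v = 1)
    (hx1 : ∑ v ∈ S, px v = 1) (hxz : ∀ v ∈ S, pz v = 0 → px v = 0) :
    ∑ v ∈ S, pz v * (Real.sqrt (px v / pz v) - 1) ^ 2 ≤ ∑ v ∈ S, px v * Real.log (px v / pz v) := by
  have e : ∑ v ∈ S, pz v * (Real.sqrt (px v / pz v) - 1) ^ 2 =
      ∑ v ∈ S, (2 * px v - 2 * (pz v * Real.sqrt (px v / pz v))) := by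
    have e1 : ∀ v ∈ S, pz v * (Real.sqrt (px v / pz v) - 1) ^ 2 =
        (2 * px v - 2 * (pz v * Real.sqrt (px v / pz v))) + (pz v - px v) := by
      intro v hv
      have a := Real.sq_sqrt (div_nonneg (hx v hv) (hz v hv))
      by_cases h0 : pz v = 0
      · rw [h0, hxz v hv h0]; ring
      · have b : pz v * (px v / pz v) = px v := by field_simp
        calc _ = pz v * (Real.sqrt (px v / pz v) ^ 2) - 2 * (pz v * Real.sqrt (px v / pz v)) + pz v := by ring
          _ = _ := by rw [a, b]; ring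
    rw [Finset.sum_congr rfl e1, Finset.sum_add_distrib, Finset.sum_sub_distrib (f := pz), hz1, hx1]
    ring
  rw [e]
  refine Finset.sum_le_sum (fun v hv => ?_)
  rcases eq_or_lt_of_le (hx v hv) with h0 | h0
  · rw [← h0]
    simp
  · have hz0 : 0 < pz v := lt_of_le_of_ne (hz v hv) (fun h => h0.ne' (hxz v hv h.symm))
    have hq : 0 < px v / pz v := div_pos h0 hz0
    set s := Real.sqrt (px v / pz v) with hs
    have hs0 : 0 < s := Real.sqrt_pos.mpr hq
    have hs2 : s ^ 2 = px v / pz v := Real.sq_sqrt hq.le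
    have h1 := Real.log_le_sub_one_of_pos (inv_pos.mpr hs0)
    rw [Real.log_inv] at h1
    have h2 : Real.log (px v / pz v) = 2 * Real.log s := by rw [← hs2, Real.log_pow]; norm_num
    rw [h2]
    have h3 : px v = pz v * s ^ 2 := by rw [hs2]; field_simp
    have h4 : px v * s⁻¹ = pz v * s := by rw [h3]; field_simp
    nlinarith [mul_le_mul_of_nonneg_left h1 h0.le]

end Rob

end Pool.Agent.M3
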