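import Pool.Agent.PWZ.Defs

/-!
# M3.FP: finite probability spaces

`FP Om` = real weights `p w >= 0` of total mass one on a finite type.  `P.E f` expectation, `P.Pr s` probability,
`P.m X w` = mass of the fibre of the map `X` through `w`, `P.ce X f` = conditional expectation of `f` given the map
`X : Om -> kappa` (ratio of sums, `0/0 = 0`), `Fac X f` = `f` is a function of `X`.
-/

set_option autoImplicit false

namespace Pool.Agent.M3

open Finset Pool.Agent.PWZ

/-- a finite probability space -/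
structure FP (Om : Type*) [Fintype Om] where
  p : Om → ℝ
  nn : ∀ w, 0 ≤ p w
  tot : ∑ w, p w = 1

/-- `f` is a function of `X` -/
def Fac {Om κ ι : Type*} (X : Om → κ) (f : Om → ι) : Prop := ∀ v w, X v = X w → f v = f w

section Fac

variable {Om κ ι ι' : Type*}

theorem Fac.refl (X : Om → κ) : Fac X X := fun _ _ h => h

theorem Fac.trans {X : Om → κ} {Y : Om → ι} {Z : Om → ι'} (h : Fac X Y) (h' : Fac Y Z) : Fac X Z :=
  fun v w hv => h' v w (h v w hv)

theorem Fac.const (X : Om → κ) (c : ι) : Fac X (fun _ => c) := fun _ _ _ => rfl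

theorem Fac.comp {X : Om → κ} {Y : Om → ι} (h : Fac X Y) (g : ι → ι') : Fac X (fun w => g (Y w)) :=
  fun v w hv => congrArg g (h v w hv)

theorem Fac.comp₂ {ι'' : Type*} {X : Om → κ} {Y : Om → ι} {Z : Om → ι'} (h : Fac X Y) (h' : Fac X Z)
    (g : ι → ι' → ι'') : Fac X (fun w => g (Y w) (Z w)) :=
  fun v w hv => congrArg₂ g (h v w hv) (h' v w hv)

theorem Fac.prod {X : Om → κ} {Y : Om → ι} {Z : Om → ι'} (h : Fac X Y) (h' : Fac X Z) :
    Fac X (fun w => (Y w, Z w)) := h.comp₂ h' Prod.mk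

theorem Fac.fst (X : Om → κ) (Y : Om → ι) : Fac (fun w => (X w, Y w)) X :=
  fun _ _ h => (Prod.mk.injEq _ _ _ _ ▸ h : _ ∧ _).1

theorem Fac.snd (X : Om → κ) (Y : Om → ι) : Fac (fun w => (X w, Y w)) Y :=
  fun _ _ h => (Prod.mk.injEq _ _ _ _ ▸ h : _ ∧ _).2

theorem Fac.mul {X : Om → κ} {f g : Om → ℝ} (h : Fac X f) (h' : Fac X g) : Fac X (fun w => f w * g w) :=
  h.comp₂ h' (fun a b => a * b)

theorem Fac.add {X : Om → κ} {f g : Om → ℝ} (h : Fac X f) (h' : Fac X g) : Fac X (fun w => f w + g w) :=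
  h.comp₂ h' (fun a b => a + b)

theorem Fac.sub {X : Om → κ} {f g : Om → ℝ} (h : Fac X f) (h' : Fac X g) : Fac X (fun w => f w - g w) :=
  h.comp₂ h' (fun a b => a - b)

theorem Fac.ind {X : Om → κ} {s : Om → Prop} (h : ∀ v w, X v = X w → (s v ↔ s w)) :
    Fac X (fun w => ind (s w)) := fun v w hv => by
  have : s v = s w := propext (h v w hv)
  show PWZ.ind (s v) = PWZ.ind (s w)
  rw [this]

theorem Fac.finsum {X : Om → κ} {α : Type*} (s : Finset α) {f : α → Om → ℝ} (h : ∀ i ∈ s, Fac X (f i)) :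
    Fac X (fun w => ∑ i ∈ s, f i w) :=
  fun v w hv => Finset.sum_congr rfl (fun i hi => h i hi v w hv)

end Fac

variable {Om : Type*} [Fintype Om]

noncomputable section

/-- expectation -/
def FP.E (P : FP Om) (f : Om → ℝ) : ℝ := ∑ w, P.p w * f w

/-- probability -/
def FP.Pr (P : FP Om) (s : Om → Prop) : ℝ := P.E (fun w => ind (s w))

/-- mass of the fibre of `X` through `w` -/
def FP.m (P : FP Om) {κ : Type*} (X : Om → κ) (w : Om) : ℝ := P.E (fun v => ind (X v = X w))

/-- conditional expectation given `X` -/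
def FP.ce (P : FP Om) {κ : Type*} (X : Om → κ) (f : Om → ℝ) (w : Om) : ℝ :=
  P.E (fun v => ind (X v = X w) * f v) / P.m X w

end

namespace FP

variable (P : FP Om) {κ ι : Type*}

/-! ## expectation -/

theorem E_congr {f g : Om → ℝ} (h : ∀ w, P.p w ≠ 0 → f w = g w) : P.E f = P.E g := by
  unfold E
  refine Finset.sum_congr rfl (fun w _ => ?_)
  by_cases hw : P.p w = 0
  · rw [hw]; ring
  · rw [h w hw]

theorem E_mono {f g : Om → ℝ} (h : ∀ w, P.p w ≠ 0 → f w ≤ g w) : P.E f ≤ P.E g := by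
  unfold E
  refine Finset.sum_le_sum (fun w _ => ?_)
  by_cases hw : P.p w = 0
  · rw [hw]; simp
  · exact mul_le_mul_of_nonneg_left (h w hw) (P.nn w)

theorem E_const (c : ℝ) : P.E (fun _ => c) = c := by
  unfold E; rw [← Finset.sum_mul, P.tot, one_mul]

theorem E_nonneg {f : Om → ℝ} (h : ∀ w, P.p w ≠ 0 → 0 ≤ f w) : 0 ≤ P.E f := by
  have := P.E_mono (f := fun _ => 0) h
  rwa [E_const] at this

theorem E_le_const {f : Om → ℝ} {c : ℝ} (h : ∀ w, P.p w ≠ 0 → f w ≤ c) : P.E f ≤ c := by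
  have := P.E_mono (g := fun _ => c) h
  rwa [E_const] at this

theorem le_E_const {f : Om → ℝ} {c : ℝ} (h : ∀ w, P.p w ≠ 0 → c ≤ f w) : c ≤ P.E f := by
  have := P.E_mono (f := fun _ => c) h
  rwa [E_const] at this

theorem E_add (f g : Om → ℝ) : P.E (fun w => f w + g w) = P.E f + P.E g := by
  unfold E; rw [← Finset.sum_add_distrib]; exact Finset.sum_congr rfl (fun w _ => by ring)

theorem E_sub (f g : Om → ℝ) : P.E (fun w => f w - g w) = P.E f - P.E g := by
  unfold E; rw [← Finset.sum_sub_distrib]; exact Finset.sum_congr rfl (fun w _ => by ring)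

theorem E_neg (f : Om → ℝ) : P.E (fun w => - f w) = - P.E f := by
  unfold E; rw [← Finset.sum_neg_distrib]; exact Finset.sum_congr rfl (fun w _ => by ring)

theorem E_smul (c : ℝ) (f : Om → ℝ) : P.E (fun w => c * f w) = c * P.E f := by
  unfold E; rw [Finset.mul_sum]; exact Finset.sum_congr rfl (fun w _ => by ring)

theorem E_mul_const (c : ℝ) (f : Om → ℝ) : P.E (fun w => f w * c) = P.E f * c := by
  unfold E; rw [Finset.sum_mul]; exact Finset.sum_congr rfl (fun w _ => by ring)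

theorem E_div_const (c : ℝ) (f : Om → ℝ) : P.E (fun w => f w / c) = P.E f / c := by
  simp only [div_eq_mul_inv]; exact P.E_mul_const _ _

theorem E_sum {α : Type*} (s : Finset α) (f : α → Om → ℝ) :
    P.E (fun w => ∑ i ∈ s, f i w) = ∑ i ∈ s, P.E (f i) := by
  unfold E
  rw [Finset.sum_comm]
  refine Finset.sum_congr rfl (fun w _ => ?_)
  rw [Finset.mul_sum]

theorem abs_E_le (f : Om → ℝ) : |P.E f| ≤ P.E (fun w => |f w|) := by
  unfold E
  refine (Finset.abs_sum_le_sum_abs _ _).trans (le_of_eq (Finset.sum_congr rfl (fun w _ => ?_)))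
  rw [abs_mul, abs_of_nonneg (P.nn w)]

theorem E_swap {Om' : Type*} [Fintype Om'] (Q : FP Om') (f : Om → Om' → ℝ) :
    P.E (fun w => Q.E (fun v => f w v)) = Q.E (fun v => P.E (fun w => f w v)) := by
  unfold E
  simp only [Finset.mul_sum]
  rw [Finset.sum_comm]
  refine Finset.sum_congr rfl (fun v _ => Finset.sum_congr rfl (fun w _ => by ring))

/-- Cauchy-Schwarz -/
theorem E_mul_sq_le (f g : Om → ℝ) :
    (P.E (fun w => f w * g w)) ^ 2 ≤ P.E (fun w => f w ^ 2) * P.E (fun w => g w ^ 2) := by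
  have h := Finset.sum_mul_sq_le_sq_mul_sq Finset.univ (fun w => Real.sqrt (P.p w) * f w)
    (fun w => Real.sqrt (P.p w) * g w)
  unfold E
  have e1 : ∀ w, Real.sqrt (P.p w) * f w * (Real.sqrt (P.p w) * g w) = P.p w * (f w * g w) := by
    intro w
    have := Real.mul_self_sqrt (P.nn w)
    calc _ = (Real.sqrt (P.p w) * Real.sqrt (P.p w)) * (f w * g w) := by ring
      _ = _ := by rw [this]
  have e2 : ∀ (u : Om → ℝ) w, (Real.sqrt (P.p w) * u w) ^ 2 = P.p w * u w ^ 2 := by
    intro u w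
    rw [mul_pow, Real.sq_sqrt (P.nn w)]
  simp only [e1, e2] at h
  exact h

/-- Cauchy-Schwarz, square root form -/
theorem abs_E_mul_le (f g : Om → ℝ) :
    |P.E (fun w => f w * g w)| ≤
      Real.sqrt (P.E (fun w => f w ^ 2)) * Real.sqrt (P.E (fun w => g w ^ 2)) := by
  rw [← Real.sqrt_mul (P.E_nonneg (fun w _ => sq_nonneg _)), ← Real.sqrt_sq_eq_abs]
  exact Real.sqrt_le_sqrt (P.E_mul_sq_le f g)

theorem sq_E_le (f : Om → ℝ) : (P.E f) ^ 2 ≤ P.E (fun w => f w ^ 2) := by
  have h := P.E_mul_sq_le f (fun _ => 1)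
  simp only [mul_one, one_pow, E_const] at h
  exact h

/-! ## probability -/

theorem Pr_nonneg (s : Om → Prop) : 0 ≤ P.Pr s := P.E_nonneg (fun _ _ => ind_nonneg _)

theorem Pr_le_one (s : Om → Prop) : P.Pr s ≤ 1 := P.E_le_const (fun _ _ => ind_le_one _)

theorem Pr_mono {s t : Om → Prop} (h : ∀ w, P.p w ≠ 0 → s w → t w) : P.Pr s ≤ P.Pr t :=
  P.E_mono (fun w hw => ind_mono (h w hw))

theorem Pr_or_le (s t : Om → Prop) : P.Pr (fun w => s w ∨ t w) ≤ P.Pr s + P.Pr t := by
  unfold Pr; rw [← E_add]; exact P.E_mono (fun w _ => ind_or_le _ _)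

theorem Pr_congr {s t : Om → Prop} (h : ∀ w, P.p w ≠ 0 → (s w ↔ t w)) : P.Pr s = P.Pr t :=
  le_antisymm (P.Pr_mono (fun w hw => (h w hw).1)) (P.Pr_mono (fun w hw => (h w hw).2))

theorem ind_not_eq (q : Prop) : ind (¬ q) = 1 - ind q := by
  by_cases h : q
  · rw [ind_of h, ind_not (fun hn => hn h)]; ring
  · rw [ind_not h, ind_of h]; ring

theorem Pr_not (s : Om → Prop) : P.Pr (fun w => ¬ s w) = 1 - P.Pr s := by
  unfold Pr
  simp only [ind_not_eq]
  rw [E_sub, E_const]

theorem ind_ex_le {α : Type*} (I : Finset α) (s : α → Prop) : ind (∃ i ∈ I, s i) ≤ ∑ i ∈ I, ind (s i) := by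
  by_cases h : ∃ i ∈ I, s i
  · rw [ind_of h]
    obtain ⟨i, hi, hs⟩ := h
    rw [← ind_of hs]
    exact Finset.single_le_sum (f := fun i => ind (s i)) (fun j _ => ind_nonneg _) hi
  · rw [ind_not h]
    exact Finset.sum_nonneg (fun i _ => ind_nonneg _)

/-- union bound -/
theorem Pr_ex_le {α : Type*} (I : Finset α) (s : α → Om → Prop) :
    P.Pr (fun w => ∃ i ∈ I, s i w) ≤ ∑ i ∈ I, P.Pr (s i) := by
  unfold Pr
  rw [← E_sum]
  exact P.E_mono (fun w _ => ind_ex_le _ _)

/-- Markov -/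
theorem markov {f : Om → ℝ} (hf : ∀ w, P.p w ≠ 0 → 0 ≤ f w) (c : ℝ) :
    c * P.Pr (fun w => c ≤ f w) ≤ P.E f := by
  unfold Pr
  rw [← E_smul]
  refine P.E_mono (fun w hw => ?_)
  by_cases h : c ≤ f w
  · rw [ind_of h, mul_one]; exact h
  · rw [ind_not h, mul_zero]; exact hf w hw

/-! ## fibres -/

theorem m_nonneg (X : Om → κ) (w : Om) : 0 ≤ P.m X w := P.E_nonneg (fun _ _ => ind_nonneg _)

theorem m_le_one (X : Om → κ) (w : Om) : P.m X w ≤ 1 := P.E_le_const (fun _ _ => ind_le_one _)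

theorem le_m (X : Om → κ) (w : Om) : P.p w ≤ P.m X w := by
  unfold m E
  have h := Finset.single_le_sum (f := fun v => P.p v * ind (X v = X w))
    (fun v _ => mul_nonneg (P.nn v) (ind_nonneg _)) (Finset.mem_univ w)
  have h1 : ind (X w = X w) = 1 := ind_of rfl
  have h2 : P.p w * ind (X w = X w) ≤ ∑ x, P.p x * ind (X x = X w) := h
  rw [h1, mul_one] at h2
  exact h2

theorem m_pos {w : Om} (X : Om → κ) (hw : P.p w ≠ 0) : 0 < P.m X w :=
  lt_of_lt_of_le (lt_of_le_of_ne (P.nn w) (Ne.symm hw)) (P.le_m X w)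

theorem Fac_m (X : Om → κ) : Fac X (P.m X) := fun v w h => by unfold m; rw [h]

theorem m_anti {X : Om → κ} {Y : Om → ι} (h : Fac X Y) (w : Om) : P.m X w ≤ P.m Y w :=
  P.E_mono (fun v _ => ind_mono (h v w))

theorem m_congr {X : Om → κ} {Y : Om → ι} (h : Fac X Y) (h' : Fac Y X) (w : Om) : P.m X w = P.m Y w :=
  le_antisymm (P.m_anti h w) (P.m_anti h' w)

/-! ## conditional expectation -/

theorem ce_fac (X : Om → κ) (f : Om → ℝ) : Fac X (P.ce X f) := fun v w h => by
  unfold ce; rw [h, P.Fac_m X v w h]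

/-- the exchange identity which gives everything -/
theorem E_mul_ce_aux (X : Om → κ) (f h : Om → ℝ) :
    P.E (fun w => h w * P.ce X f w) =
      P.E (fun w => P.E (fun v => ind (X v = X w) * (h w * f v) / P.m X w)) := by
  refine P.E_congr (fun w _ => ?_)
  unfold ce
  rw [← E_div_const, ← E_smul]
  refine P.E_congr (fun v _ => ?_)
  ring

theorem E_mul_ce_symm (X : Om → κ) (f h : Om → ℝ) :
    P.E (fun w => h w * P.ce X f w) = P.E (fun w => P.ce X h w * f w) := by
  rw [E_mul_ce_aux, E_swap]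
  refine P.E_congr (fun v _ => ?_)
  unfold ce
  rw [← E_div_const, ← E_mul_const]
  refine P.E_congr (fun w _ => ?_)
  by_cases hx : X v = X w
  · rw [ind_of hx, ind_of hx.symm, P.Fac_m X v w hx]; ring
  · rw [ind_not hx, ind_not (fun h => hx h.symm)]; ring

theorem ce_const (X : Om → κ) (c : ℝ) {w : Om} (hw : P.p w ≠ 0) : P.ce X (fun _ => c) w = c := by
  unfold ce
  rw [E_mul_const]
  change P.m X w * c / P.m X w = c
  field_simp [(P.m_pos X hw).ne']

theorem ce_mul {X : Om → κ} {h : Om → ℝ} (hh : Fac X h) (f : Om → ℝ) (w : Om) :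
    P.ce X (fun v => h v * f v) w = h w * P.ce X f w := by
  unfold ce
  rw [← mul_div_assoc, ← E_smul]
  congr 1
  refine P.E_congr (fun v _ => ?_)
  show ind (X v = X w) * (h v * f v) = h w * (ind (X v = X w) * f v)
  by_cases hx : X v = X w
  · rw [hh v w hx]; ring
  · rw [ind_not hx]; ring

theorem ce_mul' {X : Om → κ} {h : Om → ℝ} (hh : Fac X h) (f : Om → ℝ) (w : Om) :
    P.ce X (fun v => f v * h v) w = P.ce X f w * h w := by
  rw [mul_comm, ← P.ce_mul hh]
  congr 1
  funext v; ring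

theorem ce_of_fac {X : Om → κ} {h : Om → ℝ} (hh : Fac X h) {w : Om} (hw : P.p w ≠ 0) :
    P.ce X h w = h w := by
  have := P.ce_mul hh (fun _ => 1) w
  simp only [mul_one] at this
  rw [this, P.ce_const X 1 hw, mul_one]

theorem ce_congr {X : Om → κ} {f g : Om → ℝ} (h : ∀ w, P.p w ≠ 0 → f w = g w) (w : Om) :
    P.ce X f w = P.ce X g w := by
  unfold ce
  rw [P.E_congr (g := fun v => ind (X v = X w) * g v) (fun v hv => by rw [h v hv])]

theorem ce_mono {X : Om → κ} {f g : Om → ℝ} (h : ∀ w, P.p w ≠ 0 → f w ≤ g w) (w : Om) :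
    P.ce X f w ≤ P.ce X g w := by
  unfold ce
  exact div_le_div_of_nonneg_right
    (P.E_mono (fun v hv => mul_le_mul_of_nonneg_left (h v hv) (ind_nonneg _))) (P.m_nonneg X w)

theorem ce_nonneg {X : Om → κ} {f : Om → ℝ} (h : ∀ w, P.p w ≠ 0 → 0 ≤ f w) (w : Om) :
    0 ≤ P.ce X f w :=
  div_nonneg (P.E_nonneg (fun v hv => mul_nonneg (ind_nonneg _) (h v hv))) (P.m_nonneg X w)

theorem ce_le_const {X : Om → κ} {f : Om → ℝ} {c : ℝ} (h : ∀ w, P.p w ≠ 0 → f w ≤ c) {w : Om}
    (hw : P.p w ≠ 0) : P.ce X f w ≤ c := by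
  rw [← P.ce_const X c hw]; exact P.ce_mono h w

theorem ce_add (X : Om → κ) (f g : Om → ℝ) (w : Om) :
    P.ce X (fun v => f v + g v) w = P.ce X f w + P.ce X g w := by
  unfold ce
  rw [← add_div, ← E_add]
  congr 1
  exact P.E_congr (fun v _ => by ring)

theorem ce_sub (X : Om → κ) (f g : Om → ℝ) (w : Om) :
    P.ce X (fun v => f v - g v) w = P.ce X f w - P.ce X g w := by
  unfold ce
  rw [← sub_div, ← E_sub]
  congr 1
  exact P.E_congr (fun v _ => by ring)

theorem ce_smul (X : Om → κ) (c : ℝ) (f : Om → ℝ) (w : Om) :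
    P.ce X (fun v => c * f v) w = c * P.ce X f w := P.ce_mul (Fac.const X c) f w

theorem ce_neg (X : Om → κ) (f : Om → ℝ) (w : Om) : P.ce X (fun v => - f v) w = - P.ce X f w := by
  have := P.ce_smul X (-1) f w
  simpa using this

theorem ce_sum (X : Om → κ) {α : Type*} (s : Finset α) (f : α → Om → ℝ) (w : Om) :
    P.ce X (fun v => ∑ i ∈ s, f i v) w = ∑ i ∈ s, P.ce X (f i) w := by
  unfold ce
  rw [← Finset.sum_div, ← E_sum]
  congr 1
  exact P.E_congr (fun v _ => by rw [Finset.mul_sum])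

theorem abs_ce_le (X : Om → κ) (f : Om → ℝ) (w : Om) : |P.ce X f w| ≤ P.ce X (fun v => |f v|) w := by
  unfold ce
  rw [abs_div, abs_of_nonneg (P.m_nonneg X w)]
  refine div_le_div_of_nonneg_right ((P.abs_E_le _).trans (le_of_eq ?_)) (P.m_nonneg X w)
  exact P.E_congr (fun v _ => by rw [abs_mul, abs_of_nonneg (ind_nonneg _)])

theorem E_ce (X : Om → κ) (f : Om → ℝ) : P.E (P.ce X f) = P.E f := by
  have h := P.E_mul_ce_symm X f (fun _ => 1)
  simp only [one_mul] at h
  rw [h]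
  exact P.E_congr (fun w hw => by rw [P.ce_const X 1 hw, one_mul])

/-- pull out -/
theorem E_mul_ce {X : Om → κ} {h : Om → ℝ} (hh : Fac X h) (f : Om → ℝ) :
    P.E (fun w => h w * P.ce X f w) = P.E (fun w => h w * f w) := by
  rw [← P.E_ce X (fun w => h w * f w)]
  exact P.E_congr (fun w _ => by rw [P.ce_mul hh])

theorem E_ce_mul {X : Om → κ} {h : Om → ℝ} (hh : Fac X h) (f : Om → ℝ) :
    P.E (fun w => P.ce X f w * h w) = P.E (fun w => f w * h w) := by
  rw [← P.E_ce X (fun w => f w * h w)]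
  exact P.E_congr (fun w _ => by rw [P.ce_mul' hh])

/-- tower property -/
theorem ce_tower {X : Om → κ} {Y : Om → ι} (hXY : Fac X Y) (f : Om → ℝ) (w : Om) :
    P.ce Y (P.ce X f) w = P.ce Y f w := by
  unfold ce
  congr 1
  have h1 : Fac X (fun v => ind (Y v = Y w)) :=
    Fac.ind (fun v v' hv => by rw [hXY v v' hv])
  exact P.E_mul_ce h1 f

theorem ce_tower' {X : Om → κ} {Y : Om → ι} (hXY : Fac X Y) (f : Om → ℝ) {w : Om} (hw : P.p w ≠ 0) :
    P.ce X (P.ce Y f) w = P.ce Y f w :=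
  P.ce_of_fac (hXY.trans (P.ce_fac Y f)) hw

/-- conditional expectation depends on the partition only -/
theorem ce_congr_map {X : Om → κ} {Y : Om → ι} (h : Fac X Y) (h' : Fac Y X) (f : Om → ℝ) (w : Om) :
    P.ce X f w = P.ce Y f w := by
  unfold ce
  rw [P.m_congr h h' w]
  congr 1
  refine P.E_congr (fun v _ => ?_)
  have : (X v = X w) = (Y v = Y w) := propext ⟨h v w, h' v w⟩
  rw [this]

/-- characterisation -/
theorem ce_unique {X : Om → κ} {f g : Om → ℝ} (hg : Fac X g)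
    (h : ∀ u : Om → ℝ, Fac X u → P.E (fun w => u w * f w) = P.E (fun w => u w * g w)) {w : Om}
    (hw : P.p w ≠ 0) : P.ce X f w = g w := by
  rw [← P.ce_of_fac hg hw]
  unfold ce
  congr 1
  exact h (fun v => ind (X v = X w)) (Fac.ind (fun v v' hv => by rw [hv]))

/-- Cauchy-Schwarz for conditional expectations -/
theorem ce_mul_sq_le (X : Om → κ) (f g : Om → ℝ) (w : Om) :
    (P.ce X (fun v => f v * g v) w) ^ 2 ≤
      P.ce X (fun v => f v ^ 2) w * P.ce X (fun v => g v ^ 2) w := by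
  unfold ce
  rw [div_pow, div_mul_div_comm, sq (P.m X w)]
  refine div_le_div_of_nonneg_right ?_ (mul_nonneg (P.m_nonneg X w) (P.m_nonneg X w))
  have h := P.E_mul_sq_le (fun v => ind (X v = X w) * f v) (fun v => ind (X v = X w) * g v)
  have e1 : ∀ q : Prop, ind q * ind q = ind q := by
    intro q
    by_cases hq : q
    · rw [ind_of hq]; ring
    · rw [ind_not hq]; ring
  have e2 : (fun v => ind (X v = X w) * f v * (ind (X v = X w) * g v)) =
      fun v => ind (X v = X w) * (f v * g v) := by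
    funext v
    calc _ = (ind (X v = X w) * ind (X v = X w)) * (f v * g v) := by ring
      _ = _ := by rw [e1]
  have e3 : ∀ u : Om → ℝ, (fun v => (ind (X v = X w) * u v) ^ 2) =
      fun v => ind (X v = X w) * u v ^ 2 := by
    intro u
    funext v
    calc _ = (ind (X v = X w) * ind (X v = X w)) * u v ^ 2 := by ring
      _ = _ := by rw [e1]
  rw [e2, e3, e3] at h
  exact h

theorem ce_sq_le (X : Om → κ) (f : Om → ℝ) (w : Om) :
    (P.ce X f w) ^ 2 ≤ P.ce X (fun v => f v ^ 2) w := by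
  by_cases hm : P.m X w = 0
  · unfold ce; rw [hm]; simp
  have h := P.ce_mul_sq_le X f (fun _ => 1) w
  simp only [mul_one, one_pow] at h
  have h1 : P.ce X (fun _ => (1 : ℝ)) w = 1 := by
    unfold ce
    simp only [mul_one]
    exact div_self hm
  rw [h1, mul_one] at h
  exact h

theorem E_ce_sq_le (X : Om → κ) (f : Om → ℝ) : P.E (fun w => P.ce X f w ^ 2) ≤ P.E (fun w => f w ^ 2) := by
  rw [← P.E_ce X (fun w => f w ^ 2)]
  exact P.E_mono (fun w _ => P.ce_sq_le X f w)

/-- Pythagoras -/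
theorem E_sq_eq (X : Om → κ) (f : Om → ℝ) :
    P.E (fun w => f w ^ 2) = P.E (fun w => P.ce X f w ^ 2) + P.E (fun w => (f w - P.ce X f w) ^ 2) := by
  have h1 : P.E (fun w => P.ce X f w * f w) = P.E (fun w => P.ce X f w ^ 2) := by
    rw [← P.E_mul_ce (P.ce_fac X f) f]
    exact P.E_congr (fun w _ => by ring)
  have h2 : P.E (fun w => (f w - P.ce X f w) ^ 2) =
      P.E (fun w => f w ^ 2) - 2 * P.E (fun w => P.ce X f w * f w) + P.E (fun w => P.ce X f w ^ 2) := by
    rw [← E_smul, ← E_sub, ← E_add]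
    exact P.E_congr (fun w _ => by ring)
  rw [h2, h1]; ring

/-- Jensen, conditional -/
theorem jensen {X : Om → κ} {f : Om → ℝ} {φ : ℝ → ℝ} {s : Set ℝ} (hφ : ConvexOn ℝ s φ)
    (hf : ∀ w, P.p w ≠ 0 → f w ∈ s) {w : Om} (hw : P.p w ≠ 0) :
    φ (P.ce X f w) ≤ P.ce X (fun v => φ (f v)) w := by
  classical
  have hm := P.m_pos X hw
  set t : Finset Om := univ.filter (fun v => P.p v ≠ 0) with ht
  have key := hφ.map_sum_le (t := t) (w := fun v => P.p v * ind (X v = X w) / P.m X w) (p := f)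
    (fun v _ => div_nonneg (mul_nonneg (P.nn v) (ind_nonneg _)) hm.le) ?_
    (fun v hv => hf v (by simpa [ht] using hv))
  · have e : ∀ g : Om → ℝ, P.ce X g w = ∑ v ∈ t, (P.p v * ind (X v = X w) / P.m X w) • g v := by
      intro g
      unfold ce
      rw [← E_div_const]
      unfold E
      rw [ht, Finset.sum_filter]
      refine Finset.sum_congr rfl (fun v _ => ?_)
      by_cases hv : P.p v = 0
      · rw [if_neg (by simpa using hv), hv]; ring
      · rw [if_pos hv, smul_eq_mul]; ring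
    rw [e, e]
    exact key
  · rw [← Finset.sum_div]
    rw [div_eq_one_iff_eq hm.ne']
    unfold m E
    rw [ht, Finset.sum_filter]
    refine Finset.sum_congr rfl (fun v _ => ?_)
    by_cases hv : P.p v = 0
    · rw [if_neg (by simpa using hv), hv]; ring
    · rw [if_pos hv]

/-- Jensen for the expectation -/
theorem jensenE {f : Om → ℝ} {φ : ℝ → ℝ} {s : Set ℝ} (hφ : ConvexOn ℝ s φ)
    (hf : ∀ w, P.p w ≠ 0 → f w ∈ s) : φ (P.E f) ≤ P.E (fun v => φ (f v)) := by
  classical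
  obtain ⟨w, hw⟩ : ∃ w, P.p w ≠ 0 := by
    by_contra hcon
    push Not at hcon
    have := P.tot
    simp [hcon] at this
  have h := P.jensen (X := fun _ : Om => ()) hφ hf hw
  have e : ∀ g : Om → ℝ, P.ce (fun _ : Om => ()) g w = P.E g := by
    intro g
    unfold ce m
    simp only [ind_of, one_mul, E_const, div_one]
  rw [e, e] at h
  exact h

/-- expectation of a conditional expectation on an event of `X` -/
theorem E_ind_ce {X : Om → κ} {s : Om → Prop} (hs : ∀ v w, X v = X w → (s v ↔ s w)) (f : Om → ℝ) :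
    P.E (fun w => ind (s w) * P.ce X f w) = P.E (fun w => ind (s w) * f w) :=
  P.E_mul_ce (Fac.ind hs) f

end FP

end Pool.Agent.M3
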