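import Pool.Agent.M3.KL

/-!
# M3.OpK: operator bound from a rule for events (Lemma K of helper51 for section 3)

`P : FP Om`, `a` the hidden map, `Y` the letter (with its owner), `y` a function of `Y` of mean zero.  If on every
(big) event `S` of `a` the mean of each test `0 ≤ ψ ≤ 1` of the letter exceeds its global mean by at most `δ`, and every
event of `a` without big subevents carries at most the part `ε` of the mass of each letter, then
`E (E[y | a])² ≤ (38 δ + 3 ε) E y²` (`opK`).  `test_of_kl`: the test form from the relative entropy form.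
`opK_kl`: big = mass at least `e^{-T}`, `opK_comp`: the same inside the classes of a map `C` of `a`.
`opK_bil`: bilinear form for two letters.
-/

set_option autoImplicit false
set_option linter.unusedSectionVars false

namespace Pool.Agent.M3

open Finset Pool.Agent.PWZ

variable {Om : Type*} [Fintype Om]

/-- an event of the map `a` -/
def Ev {α : Type*} (a : Om → α) (S : Om → Prop) : Prop := ∀ v w, a v = a w → (S v ↔ S w)

namespace FP

variable (P : FP Om) {α β γ ι : Type*}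

theorem exp_convex {lam x : ℝ} (h0 : 0 ≤ x) (h1 : x ≤ 1) :
    Real.exp (lam * x) ≤ 1 + (Real.exp lam - 1) * x := by
  have h := convexOn_exp.2 (Set.mem_univ (0 : ℝ)) (Set.mem_univ lam) (sub_nonneg.2 h1) h0 (by ring)
  simp only [smul_eq_mul, mul_zero, zero_add, Real.exp_zero, mul_one] at h
  rw [mul_comm x lam] at h
  linarith

/-- TESTS FROM RELATIVE ENTROPY: `E_Q ψ ≤ E_P ψ + 2 κ^{1/2}` -/
theorem test_of_kl {P Q : FP Om} (hac : Q.Ac P) {Y : Om → β} {ψ : Om → ℝ} (hψ : Fac Y ψ)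
    (h0 : ∀ w, 0 ≤ ψ w) (h1 : ∀ w, ψ w ≤ 1) {κ : ℝ} (hk : Q.kl P Y ≤ κ) :
    Q.E ψ ≤ P.E ψ + 2 * Real.sqrt κ := by
  have hkl := kl_nonneg hac Y
  have hκ : 0 ≤ κ := hkl.trans hk
  have hE0 : 0 ≤ P.E ψ := P.E_nonneg (fun w _ => h0 w)
  have hE1 : P.E ψ ≤ 1 := P.E_le_const (fun w _ => h1 w)
  have hQ1 : Q.E ψ ≤ 1 := Q.E_le_const (fun w _ => h1 w)
  -- for every `0 < lam ≤ 1`
  have key : ∀ lam : ℝ, 0 < lam → lam ≤ 1 → lam * Q.E ψ ≤ κ + (lam + lam ^ 2) * P.E ψ := by
    intro lam hl hl1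
    have hdv := dv' hac (hψ.comp (fun x => lam * x))
    rw [E_smul] at hdv
    have h2 : P.E (fun w => Real.exp (lam * ψ w) - 1) ≤ P.E (fun w => (lam + lam ^ 2) * ψ w) := by
      refine P.E_mono (fun w _ => ?_)
      have h3 := exp_convex (lam := lam) (h0 w) (h1 w)
      have h4 := Real.abs_exp_sub_one_sub_id_le (x := lam) (by rw [abs_of_pos hl]; exact hl1)
      have h5 := (abs_le.1 h4).2
      have h6 : (Real.exp lam - 1) * ψ w ≤ (lam + lam ^ 2) * ψ w :=
        mul_le_mul_of_nonneg_right (by linarith) (h0 w)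
      linarith
    rw [E_smul] at h2
    linarith
  by_cases hκ0 : κ = 0
  · subst hκ0
    rw [Real.sqrt_zero, mul_zero, add_zero]
    refine le_of_forall_pos_le_add (fun e he => ?_)
    have h2 := key (min e 1) (lt_min he one_pos) (min_le_right _ _)
    have hm : 0 < min e 1 := lt_min he one_pos
    have h3 : Q.E ψ ≤ (1 + min e 1) * P.E ψ := by
      have : min e 1 * Q.E ψ ≤ min e 1 * ((1 + min e 1) * P.E ψ) := by
        have : min e 1 * ((1 + min e 1) * P.E ψ) = 0 + (min e 1 + min e 1 ^ 2) * P.E ψ := by ring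
        rw [this]; exact h2
      exact le_of_mul_le_mul_left this hm
    have h4 : min e 1 * P.E ψ ≤ e * 1 := mul_le_mul (min_le_left _ _) hE1 hE0 he.le
    nlinarith [h3, h4]
  · have hκp : 0 < κ := lt_of_le_of_ne hκ (Ne.symm hκ0)
    have hs : 0 < Real.sqrt κ := Real.sqrt_pos.2 hκp
    have hss : Real.sqrt κ * Real.sqrt κ = κ := Real.mul_self_sqrt hκ
    by_cases h1' : Real.sqrt κ ≤ 1
    · have h2 := key _ hs h1'
      have h3 : Real.sqrt κ * Q.E ψ ≤ Real.sqrt κ * (P.E ψ + Real.sqrt κ + Real.sqrt κ * P.E ψ) := by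
        have h4 : Real.sqrt κ * (P.E ψ + Real.sqrt κ + Real.sqrt κ * P.E ψ) =
            Real.sqrt κ * Real.sqrt κ + (Real.sqrt κ + Real.sqrt κ ^ 2) * P.E ψ := by ring
        rw [h4, hss]; exact h2
      have h4 := le_of_mul_le_mul_left h3 hs
      have h5 : Real.sqrt κ * P.E ψ ≤ Real.sqrt κ * 1 := mul_le_mul_of_nonneg_left hE1 hs.le
      linarith
    · push Not at h1'
      linarith

/-- LEMMA K.  `Big` = a class of events of `a` of positive mass on which the rule holds; `ε` = share of `E y²` on an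
event without big subevents. -/
theorem opK_y {a : Om → α} {Y : Om → β} {Big : (Om → Prop) → Prop} {δ ε : ℝ} (hδ : 0 ≤ δ)
    (hpos : ∀ S, Big S → 0 < P.Pr S)
    (hi : ∀ S, Ev a S → Big S → ∀ ψ : Om → ℝ, Fac Y ψ → (∀ w, 0 ≤ ψ w) → (∀ w, ψ w ≤ 1) →
      P.E (fun w => ind (S w) * ψ w) ≤ P.Pr S * (P.E ψ + δ))
    {y : Om → ℝ} (hy : Fac Y y) (hy0 : P.E y = 0)
    (hii : ∀ S, Ev a S → (∀ S', Ev a S' → (∀ w, S' w → S w) → ¬ Big S') →
      P.E (fun w => ind (S w) * y w ^ 2) ≤ ε * P.E (fun w => y w ^ 2)) :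
    P.E (fun w => P.ce a y w ^ 2) ≤ (38 * δ + 3 * ε) * P.E (fun w => y w ^ 2) := by
  set p : ℝ := P.E (fun w => y w ^ 2) with hp
  have hp0 : 0 ≤ p := P.E_nonneg (fun w _ => sq_nonneg _)
  -- it suffices to prove the bound for every larger positive `δ'`
  suffices H : ∀ d : ℝ, 0 < d → δ ≤ d → P.E (fun w => P.ce a y w ^ 2) ≤ (38 * d + 3 * ε) * p by
    by_cases hd : 0 < δ
    · exact H δ hd le_rfl
    · have hd0 : δ = 0 := le_antisymm (not_lt.1 hd) hδ
      subst hd0
      refine le_of_forall_pos_le_add (fun e he => ?_)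
      have h1 := H (e / (38 * (p + 1))) (by positivity) (by positivity)
      refine h1.trans ?_
      have h2 : 38 * (e / (38 * (p + 1))) * p ≤ e := by
        rw [show 38 * (e / (38 * (p + 1))) * p = e * (p / (p + 1)) by field_simp]
        have h3 : p / (p + 1) ≤ 1 := (div_le_one (by linarith)).2 (by linarith)
        nlinarith
      nlinarith
  intro d hd hδd
  by_cases hpz : p = 0
  · have h1 := P.E_ce_sq_le a y
    rw [← hp, hpz] at h1
    rw [hpz, mul_zero]
    exact h1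
  have hpp : 0 < p := lt_of_le_of_ne hp0 (Ne.symm hpz)
  set x0 : ℝ := Real.sqrt (p / d) with hx0
  have hx0p : 0 < x0 := Real.sqrt_pos.2 (div_pos hpp hd)
  have hx0s : x0 ^ 2 * d = p := by
    rw [hx0, Real.sq_sqrt (div_nonneg hp0 hd.le)]
    field_simp
  -- the large letters
  set L : Om → Prop := fun w => x0 < |y w| with hL
  have hLf : Fac Y (fun w => ind (L w)) := Fac.ind (fun v w h => by rw [hL]; simp only [hy v w h])
  have hLy : ∀ w, x0 ^ 2 * ind (L w) ≤ y w ^ 2 := by
    intro w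
    by_cases h : L w
    · rw [ind_of h, mul_one, ← sq_abs (y w)]
      exact pow_le_pow_left₀ hx0p.le h.le 2
    · rw [ind_not h, mul_zero]; exact sq_nonneg _
  have hPL : P.E (fun w => ind (L w)) ≤ d := by
    have h1 : x0 ^ 2 * P.E (fun w => ind (L w)) ≤ x0 ^ 2 * d := by
      rw [← E_smul, hx0s, hp]
      exact P.E_mono (fun w _ => hLy w)
    exact le_of_mul_le_mul_left h1 (by positivity)
  -- large part and small part
  set yl : Om → ℝ := fun w => y w * ind (L w) with hyl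
  set ys : Om → ℝ := fun w => y w * (1 - ind (L w)) with hys
  have hsum : ∀ w, y w = yl w + ys w := by intro w; rw [hyl, hys]; ring
  have hysf : Fac Y ys := Fac.mul hy (hLf.comp (fun x => 1 - x))
  have hysb : ∀ w, |ys w| ≤ x0 := by
    intro w
    rw [hys]
    by_cases h : L w
    · simp only [ind_of h, sub_self, mul_zero, abs_zero]; exact hx0p.le
    · simp only [ind_not h, sub_zero, mul_one]; exact not_lt.1 h
  have hEl : |P.E yl| ≤ x0 * d := by
    have h1 : x0 * |P.E yl| ≤ p := by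
      have h2 : |P.E yl| ≤ P.E (fun w => |yl w|) := P.abs_E_le _
      refine (mul_le_mul_of_nonneg_left h2 hx0p.le).trans ?_
      rw [← E_smul, hp]
      refine P.E_mono (fun w _ => ?_)
      rw [hyl]
      by_cases h : L w
      · simp only [ind_of h, mul_one]
        rw [← sq_abs (y w), sq]
        exact mul_le_mul_of_nonneg_right h.le (abs_nonneg _)
      · simp only [ind_not h, mul_zero, abs_zero]; exact sq_nonneg _
    have h3 : x0 * |P.E yl| ≤ x0 * (x0 * d) := by
      rw [show x0 * (x0 * d) = x0 ^ 2 * d by ring, hx0s]; exact h1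
    exact le_of_mul_le_mul_left h3 hx0p
  have hEs : |P.E ys| ≤ x0 * d := by
    have h1 : P.E y = P.E yl + P.E ys := by
      rw [← E_add]; exact P.E_congr (fun w _ => hsum w)
    rw [hy0] at h1
    have h2 : P.E ys = - P.E yl := by linarith
    rw [h2, abs_neg]; exact hEl
  -- the exceptional events
  set U1 : Om → Prop := fun w => 3 * d ≤ P.ce a (fun v => ind (L v)) w with hU1
  set U2 : Om → Prop := fun w => 4 * (x0 * d) ≤ P.ce a ys w with hU2
  set U3 : Om → Prop := fun w => 4 * (x0 * d) ≤ - P.ce a ys w with hU3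
  have hU1e : Ev a U1 := fun v w h => by rw [hU1]; simp only [P.ce_fac a _ v w h]
  have hU2e : Ev a U2 := fun v w h => by rw [hU2]; simp only [P.ce_fac a _ v w h]
  have hU3e : Ev a U3 := fun v w h => by rw [hU3]; simp only [P.ce_fac a _ v w h]
  -- mean of a function over an event of `a` where its conditional mean is at least `c`
  have hge : ∀ (S : Om → Prop) (f : Om → ℝ) (c : ℝ), Ev a S → (∀ w, S w → c ≤ P.ce a f w) →
      c * P.Pr S ≤ P.E (fun w => ind (S w) * f w) := by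
    intro S f c hS hc
    rw [← P.E_ind_ce hS f]
    unfold Pr
    rw [← E_smul]
    refine P.E_mono (fun w _ => ?_)
    by_cases h : S w
    · rw [ind_of h, mul_one, one_mul]; exact hc w h
    · rw [ind_not h]; simp
  have hB1 : ∀ S', Ev a S' → (∀ w, S' w → U1 w) → ¬ Big S' := by
    intro S' hS' hsub hbig
    have h1 := hi S' hS' hbig _ hLf (fun w => ind_nonneg _) (fun w => ind_le_one _)
    have h2 := hge S' (fun v => ind (L v)) (3 * d) hS' (fun w hw => hsub w hw)
    have h3 := hpos S' hbig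
    have h4 : P.Pr S' * (P.E (fun w => ind (L w)) + δ) ≤ P.Pr S' * (d + d) :=
      mul_le_mul_of_nonneg_left (add_le_add hPL hδd) h3.le
    nlinarith
  -- the small part on a big event
  have hsm : ∀ S', Ev a S' → Big S' → ∀ s : ℝ, (s = 1 ∨ s = -1) →
      P.E (fun w => ind (S' w) * (s * ys w)) ≤ P.Pr S' * (3 * (x0 * d)) := by
    intro S' hS' hbig s hs
    have hsb : ∀ w, |s * ys w| ≤ x0 := by
      intro w
      rcases hs with rfl | rfl
      · rw [one_mul]; exact hysb w
      · rw [neg_one_mul, abs_neg]; exact hysb w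
    have h1 := hi S' hS' hbig (fun w => (s * ys w + x0) / (2 * x0))
      (hysf.comp (fun x => (s * x + x0) / (2 * x0)))
      (fun w => div_nonneg (by linarith [(abs_le.1 (hsb w)).1]) (by positivity))
      (fun w => (div_le_one (by positivity)).2 (by linarith [(abs_le.1 (hsb w)).2]))
    have h2 : P.E (fun w => (s * ys w + x0) / (2 * x0)) = (s * P.E ys + x0) / (2 * x0) := by
      rw [E_div_const, E_add, E_smul, E_const]
    have h3 : P.E (fun w => ind (S' w) * ((s * ys w + x0) / (2 * x0))) =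
        (P.E (fun w => ind (S' w) * (s * ys w)) + x0 * P.Pr S') / (2 * x0) := by
      unfold Pr
      rw [← E_smul, ← E_add, ← E_div_const]
      refine P.E_congr (fun w _ => ?_)
      ring
    rw [h2, h3, div_le_iff₀ (by positivity)] at h1
    have h4 : P.Pr S' * ((s * P.E ys + x0) / (2 * x0) + δ) * (2 * x0) =
        P.Pr S' * (s * P.E ys + x0 + 2 * (x0 * δ)) := by
      field_simp
    rw [h4] at h1
    have h5 : s * P.E ys ≤ x0 * d := by
      rcases hs with rfl | rfl
      · rw [one_mul]; exact (abs_le.1 hEs).2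
      · rw [neg_one_mul]; linarith [(abs_le.1 hEs).1]
    have h6 := hpos S' hbig
    have h7 : P.Pr S' * (s * P.E ys + x0 + 2 * (x0 * δ)) ≤ P.Pr S' * (x0 * d + x0 + 2 * (x0 * d)) := by
      refine mul_le_mul_of_nonneg_left ?_ h6.le
      have := mul_le_mul_of_nonneg_left hδd hx0p.le
      linarith
    nlinarith
  have hB2 : ∀ S', Ev a S' → (∀ w, S' w → U2 w) → ¬ Big S' := by
    intro S' hS' hsub hbig
    have h1 := hsm S' hS' hbig 1 (Or.inl rfl)
    have h2 := hge S' (fun v => 1 * ys v) (4 * (x0 * d)) hS' (fun w hw => by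
      have := hsub w hw
      simp only [one_mul]; exact this)
    have h3 := hpos S' hbig
    have h4 : 0 < x0 * d := by positivity
    nlinarith
  have hB3 : ∀ S', Ev a S' → (∀ w, S' w → U3 w) → ¬ Big S' := by
    intro S' hS' hsub hbig
    have h1 := hsm S' hS' hbig (-1) (Or.inr rfl)
    have h2 := hge S' (fun v => -1 * ys v) (4 * (x0 * d)) hS' (fun w hw => by
      have := hsub w hw
      simp only [neg_one_mul]
      rw [P.ce_neg]; exact this)
    have h3 := hpos S' hbig
    have h4 : 0 < x0 * d := by positivity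
    nlinarith
  -- the pointwise bound
  have hpt : ∀ w, P.ce a y w ^ 2 ≤ 6 * d * P.ce a (fun v => y v ^ 2) w + 32 * (d * p) +
      (ind (U1 w) + ind (U2 w) + ind (U3 w)) * P.ce a (fun v => y v ^ 2) w := by
    intro w
    have hc0 : 0 ≤ P.ce a (fun v => y v ^ 2) w := P.ce_nonneg (X := a) (fun v _ => sq_nonneg _) w
    have hcy := P.ce_sq_le a y w
    have hdp : 0 ≤ d * p := mul_nonneg hd.le hp0
    by_cases hu1 : U1 w
    · rw [ind_of hu1]
      have h1 : 0 ≤ (ind (U2 w) + ind (U3 w)) * P.ce a (fun v => y v ^ 2) w :=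
        mul_nonneg (add_nonneg (ind_nonneg _) (ind_nonneg _)) hc0
      have h2 : 0 ≤ 6 * d * P.ce a (fun v => y v ^ 2) w := by positivity
      nlinarith
    by_cases hu2 : U2 w
    · rw [ind_of hu2]
      have h1 : 0 ≤ (ind (U1 w) + ind (U3 w)) * P.ce a (fun v => y v ^ 2) w :=
        mul_nonneg (add_nonneg (ind_nonneg _) (ind_nonneg _)) hc0
      have h2 : 0 ≤ 6 * d * P.ce a (fun v => y v ^ 2) w := by positivity
      nlinarith
    by_cases hu3 : U3 w
    · rw [ind_of hu3]
      have h1 : 0 ≤ (ind (U1 w) + ind (U2 w)) * P.ce a (fun v => y v ^ 2) w :=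
        mul_nonneg (add_nonneg (ind_nonneg _) (ind_nonneg _)) hc0
      have h2 : 0 ≤ 6 * d * P.ce a (fun v => y v ^ 2) w := by positivity
      nlinarith
    rw [ind_not hu1, ind_not hu2, ind_not hu3]
    have e1 : P.ce a y w = P.ce a yl w + P.ce a ys w := by
      rw [← ce_add]; exact P.ce_congr (X := a) (fun v _ => hsum v) w
    have h1 : P.ce a yl w ^ 2 ≤ 3 * d * P.ce a (fun v => y v ^ 2) w := by
      have h2 := P.ce_mul_sq_le a y (fun v => ind (L v)) w
      have h3 : P.ce a (fun v => ind (L v) ^ 2) w = P.ce a (fun v => ind (L v)) w := by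
        refine P.ce_congr (X := a) (fun v _ => ?_) w
        by_cases h : L v
        · rw [ind_of h]; ring
        · rw [ind_not h]; ring
      rw [h3] at h2
      have h4 : P.ce a (fun v => ind (L v)) w ≤ 3 * d := (not_le.1 hu1).le
      calc P.ce a yl w ^ 2 ≤ P.ce a (fun v => y v ^ 2) w * P.ce a (fun v => ind (L v)) w := h2
        _ ≤ P.ce a (fun v => y v ^ 2) w * (3 * d) := mul_le_mul_of_nonneg_left h4 hc0
        _ = _ := by ring
    have h2 : P.ce a ys w ^ 2 ≤ 16 * (d * p) := by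
      have h3 : |P.ce a ys w| ≤ 4 * (x0 * d) :=
        abs_le.2 ⟨by linarith [not_le.1 hu3], (not_le.1 hu2).le⟩
      have h4 := pow_le_pow_left₀ (abs_nonneg _) h3 2
      rw [sq_abs] at h4
      have h5 : (4 * (x0 * d)) ^ 2 = 16 * (d * p) := by rw [← hx0s]; ring
      rw [h5] at h4; exact h4
    have h3 : (P.ce a yl w + P.ce a ys w) ^ 2 ≤ 2 * P.ce a yl w ^ 2 + 2 * P.ce a ys w ^ 2 := by
      nlinarith [sq_nonneg (P.ce a yl w - P.ce a ys w)]
    rw [e1]
    linarith
  -- integrate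
  have hint := P.E_mono (fun w _ => hpt w)
  have hex : ∀ U : Om → Prop, Ev a U → (∀ S', Ev a S' → (∀ w, S' w → U w) → ¬ Big S') →
      P.E (fun w => ind (U w) * P.ce a (fun v => y v ^ 2) w) ≤ ε * p := by
    intro U hU hB
    rw [P.E_ind_ce hU]
    exact hii U hU hB
  have e2 : P.E (fun w => 6 * d * P.ce a (fun v => y v ^ 2) w + 32 * (d * p) +
      (ind (U1 w) + ind (U2 w) + ind (U3 w)) * P.ce a (fun v => y v ^ 2) w) =
      6 * d * p + 32 * (d * p) + (P.E (fun w => ind (U1 w) * P.ce a (fun v => y v ^ 2) w) +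
      P.E (fun w => ind (U2 w) * P.ce a (fun v => y v ^ 2) w) +
      P.E (fun w => ind (U3 w) * P.ce a (fun v => y v ^ 2) w)) := by
    rw [E_add, E_add, E_smul, E_ce, E_const, ← hp, ← E_add, ← E_add]
    congr 1
    refine P.E_congr (fun w _ => ?_)
    ring
  rw [e2] at hint
  have x1 := hex U1 hU1e hB1
  have x2 := hex U2 hU2e hB2
  have x3 := hex U3 hU3e hB3
  nlinarith

/-- LEMMA K.  `Big` = a class of events of `a` of positive mass on which the rule holds; `ε` = mass of a letter on an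
event without big subevents. -/
theorem opK {a : Om → α} {Y : Om → β} {Big : (Om → Prop) → Prop} {δ ε : ℝ} (hδ : 0 ≤ δ)
    (hpos : ∀ S, Big S → 0 < P.Pr S)
    (hi : ∀ S, Ev a S → Big S → ∀ ψ : Om → ℝ, Fac Y ψ → (∀ w, 0 ≤ ψ w) → (∀ w, ψ w ≤ 1) →
      P.E (fun w => ind (S w) * ψ w) ≤ P.Pr S * (P.E ψ + δ))
    (hii : ∀ S, Ev a S → (∀ S', Ev a S' → (∀ w, S' w → S w) → ¬ Big S') → ∀ ψ : Om → ℝ, Fac Y ψ →
      (∀ w, 0 ≤ ψ w) → P.E (fun w => ind (S w) * ψ w) ≤ ε * P.E ψ)
    {y : Om → ℝ} (hy : Fac Y y) (hy0 : P.E y = 0) :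
    P.E (fun w => P.ce a y w ^ 2) ≤ (38 * δ + 3 * ε) * P.E (fun w => y w ^ 2) :=
  P.opK_y hδ hpos hi hy hy0
    (fun S hS hB => hii S hS hB _ (hy.comp (fun x => x ^ 2)) (fun _ => sq_nonneg _))

/-- the rule in the form of relative entropy gives the rule for tests -/
theorem test_cond {Y : Om → β} {S : Om → Prop} (hS : 0 < P.Pr S) {κ : ℝ} (hk : (P.cond S).kl P Y ≤ κ)
    {ψ : Om → ℝ} (hψ : Fac Y ψ) (h0 : ∀ w, 0 ≤ ψ w) (h1 : ∀ w, ψ w ≤ 1) :
    P.E (fun w => ind (S w) * ψ w) ≤ P.Pr S * (P.E ψ + 2 * Real.sqrt κ) := by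
  have h2 := test_of_kl (P.cond_ac S) hψ h0 h1 hk
  rw [cond_E hS.ne', div_le_iff₀ hS] at h2
  rw [mul_comm]
  exact h2

/-- THICK LETTERS: `b` the owner of the letter `Y`, the letter has at least the part `1/K` of the mass of its owner,
`S` has mass at most `s` given the owner: then `S` has mass at most `K s` given the letter -/
theorem ce_thick {Y : Om → β} {b : Om → γ} (hb : Fac Y b) {K s : ℝ}
    (hth : ∀ w, P.p w ≠ 0 → P.m b w ≤ K * P.m Y w) {S : Om → Prop}
    (hs : ∀ w, P.p w ≠ 0 → P.ce b (fun v => ind (S v)) w ≤ s) {w : Om} (hw : P.p w ≠ 0) :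
    P.ce Y (fun v => ind (S v)) w ≤ K * s := by
  have hmY := P.m_pos Y hw
  have hmb := P.m_pos b hw
  have h1 := hs w hw
  unfold ce at h1 ⊢
  rw [div_le_iff₀ hmb] at h1
  rw [div_le_iff₀ hmY]
  have hs0 : 0 ≤ P.E (fun v => ind (b v = b w) * ind (S v)) :=
    P.E_nonneg (fun v _ => mul_nonneg (ind_nonneg _) (ind_nonneg _))
  have hs1 : 0 ≤ s := by
    by_contra hneg
    push Not at hneg
    have := mul_neg_of_neg_of_pos hneg hmb
    linarith
  have h2 : P.E (fun v => ind (Y v = Y w) * ind (S v)) ≤ P.E (fun v => ind (b v = b w) * ind (S v)) :=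
    P.E_mono (fun v _ => mul_le_mul_of_nonneg_right (ind_mono (fun h => hb v w h)) (ind_nonneg _))
  calc P.E (fun v => ind (Y v = Y w) * ind (S v)) ≤ s * P.m b w := h2.trans h1
    _ ≤ s * (K * P.m Y w) := mul_le_mul_of_nonneg_left (hth w hw) hs1
    _ = K * s * P.m Y w := by ring

/-- integrated form -/
theorem E_thick {Y : Om → β} {S : Om → Prop} {c : ℝ}
    (hc : ∀ w, P.p w ≠ 0 → P.ce Y (fun v => ind (S v)) w ≤ c) {ψ : Om → ℝ} (hψ : Fac Y ψ) (h0 : ∀ w, 0 ≤ ψ w) :
    P.E (fun w => ind (S w) * ψ w) ≤ c * P.E ψ := by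
  rw [← E_smul]
  have h1 : P.E (fun w => ind (S w) * ψ w) = P.E (fun w => ψ w * P.ce Y (fun v => ind (S v)) w) := by
    rw [P.E_mul_ce hψ]
    exact P.E_congr (fun w _ => mul_comm _ _)
  rw [h1]
  refine P.E_mono (fun w hw => ?_)
  rw [mul_comm c]
  exact mul_le_mul_of_nonneg_left (hc w hw) (h0 w)

/-- OPERATOR BOUND from the rule for the events of mass at least `e^{-T}` and thick letters -/
theorem opK_kl {a : Om → α} {Y : Om → β} {κ T K : ℝ} (hK : 0 ≤ K)
    (hrule : ∀ S, Ev a S → Real.exp (-T) ≤ P.Pr S → (P.cond S).kl P Y ≤ κ)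
    (hth : ∀ S, Ev a S → ∀ w, P.p w ≠ 0 → P.ce Y (fun v => ind (S v)) w ≤ K * P.Pr S)
    {y : Om → ℝ} (hy : Fac Y y) (hy0 : P.E y = 0) :
    P.E (fun w => P.ce a y w ^ 2) ≤ (76 * Real.sqrt κ + 3 * (K * Real.exp (-T))) * P.E (fun w => y w ^ 2) := by
  have h := P.opK (a := a) (Y := Y) (Big := fun S => Real.exp (-T) ≤ P.Pr S) (δ := 2 * Real.sqrt κ)
    (ε := K * Real.exp (-T)) (by positivity) (fun S hS => lt_of_lt_of_le (Real.exp_pos _) hS)
    (fun S hS hbig ψ hψ h0 h1 =>
      P.test_cond (lt_of_lt_of_le (Real.exp_pos _) hbig) (hrule S hS hbig) hψ h0 h1)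
    (fun S hS hno ψ hψ h0 => by
      have h1 : P.Pr S ≤ Real.exp (-T) := (not_le.1 (hno S hS (fun _ h => h))).le
      exact P.E_thick (fun w hw => (hth S hS w hw).trans (mul_le_mul_of_nonneg_left h1 hK)) hψ h0)
    hy hy0
  rw [show 38 * (2 * Real.sqrt κ) = 76 * Real.sqrt κ by ring] at h
  exact h

/-- OPERATOR BOUND, the rule only inside the classes of a map `C` of `a` (state after a digit or after an addition) -/
theorem opK_comp {a : Om → α} {Y : Om → β} {C : Om → ι} {δ T K : ℝ} (hδ : 0 ≤ δ) (hK : 0 ≤ K)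
    (hC : Fac a C)
    (hi : ∀ S, Ev a S → 0 < P.Pr S →
      (∃ w, P.p w ≠ 0 ∧ (∀ v, S v → C v = C w) ∧ Real.exp (-T) * P.m C w ≤ P.Pr S) →
      ∀ ψ : Om → ℝ, Fac Y ψ → (∀ w, 0 ≤ ψ w) → (∀ w, ψ w ≤ 1) →
      P.E (fun w => ind (S w) * ψ w) ≤ P.Pr S * (P.E ψ + δ))
    (hth : ∀ S, Ev a S → ∀ w, P.p w ≠ 0 →
      P.ce (fun v => (Y v, C v)) (fun v => ind (S v)) w ≤ K * P.ce C (fun v => ind (S v)) w)
    {y : Om → ℝ} (hy : Fac Y y) (hy0 : P.E y = 0) :
    P.E (fun w => P.ce a y w ^ 2) ≤ (38 * δ + 3 * (K * Real.exp (-T))) * P.E (fun w => y w ^ 2) := by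
  refine P.opK (a := a) (Y := Y)
    (Big := fun S => 0 < P.Pr S ∧ ∃ w, P.p w ≠ 0 ∧ (∀ v, S v → C v = C w) ∧ Real.exp (-T) * P.m C w ≤ P.Pr S)
    hδ (fun S hS => hS.1) (fun S hS hbig => hi S hS hbig.1 hbig.2) (fun S hS hno ψ hψ h0 => ?_) hy hy0
  have h1 : ∀ w, P.p w ≠ 0 → P.ce C (fun v => ind (S v)) w ≤ Real.exp (-T) := by
    intro w hw
    by_contra hcon
    push Not at hcon
    have hm := P.m_pos C hw
    have hPr : P.Pr (fun v => S v ∧ C v = C w) = P.E (fun v => ind (C v = C w) * ind (S v)) := by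
      unfold Pr
      refine P.E_congr (fun v _ => ?_)
      rw [ind_and]; ring
    have h2 : Real.exp (-T) * P.m C w < P.Pr (fun v => S v ∧ C v = C w) := by
      unfold ce at hcon
      rw [lt_div_iff₀ hm] at hcon
      rw [hPr]; exact hcon
    refine hno (fun v => S v ∧ C v = C w) (fun v v' hv => ?_) (fun v hv => hv.1)
      ⟨lt_of_le_of_lt (mul_nonneg (Real.exp_pos _).le hm.le) h2, w, hw, fun v hv => hv.2, h2.le⟩
    simp only [hS v v' hv, hC v v' hv]
  have h2 : P.E (fun w => ind (S w) * ψ w) =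
      P.E (fun w => ψ w * P.ce (fun v => (Y v, C v)) (fun v => ind (S v)) w) := by
    rw [P.E_mul_ce ((Fac.fst Y C).trans hψ)]
    exact P.E_congr (fun w _ => mul_comm _ _)
  rw [h2, ← E_smul]
  refine P.E_mono (fun w hw => ?_)
  rw [mul_comm (K * _)]
  exact mul_le_mul_of_nonneg_left ((hth S hS w hw).trans (mul_le_mul_of_nonneg_left (h1 w hw) hK)) (h0 w)

/-- BILINEAR FORM: `z` and the letter `Y` are conditionally independent given `a` -/
theorem opK_bil {a : Om → α} {Y : Om → β} {y z : Om → ℝ} (hy : Fac Y y)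
    (hci : ∀ w, P.p w ≠ 0 → P.ce (fun v => (a v, Y v)) z w = P.ce a z w) :
    |P.E (fun w => y w * z w)| ≤
      Real.sqrt (P.E (fun w => P.ce a y w ^ 2)) * Real.sqrt (P.E (fun w => P.ce a z w ^ 2)) := by
  have h1 : P.E (fun w => y w * z w) = P.E (fun w => P.ce a y w * P.ce a z w) := by
    have e1 : P.E (fun w => y w * z w) = P.E (fun w => y w * P.ce (fun v => (a v, Y v)) z w) :=
      (P.E_mul_ce ((Fac.snd a Y).trans hy) z).symm
    have e2 : P.E (fun w => y w * P.ce (fun v => (a v, Y v)) z w) = P.E (fun w => y w * P.ce a z w) :=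
      P.E_congr (fun w hw => by rw [hci w hw])
    rw [e1, e2]
    exact (P.E_ce_mul (P.ce_fac a z) y).symm
  rw [h1]
  exact P.abs_E_mul_le _ _

end FP

end Pool.Agent.M3
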