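import Pool.Agent.M3.S3Cell
import Pool.Agent.M3.OpK

/-!
# M3.HKey: KEY of section 3 (note 3407 (5)) in single-map form

`P : FP Om` (the state), `a` hidden map, `X`, `Y` the two letters (with their owners), conditionally independent given
`a` (`P.CI a X Y`).  `V` = a cell (event of `a`), `Pv = P.cnd V`.  If the operator bound `s` holds for functions of `X`
and of `Y` and the rule `kl (P.cnd S) P X ≤ sig (log 1/P(S) + 1)` holds for all events `S` of `a` (same for `Y`), then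
`P(V) (KL(X) + KL(Y) - KL(X,Y)) ≤ (4 eta + 2 B s) P(V) (KL(X) + KL(Y)) + error` (`hkey`), error superexponentially
small; `hkey_weak`: no error if the densities are at most `B`.
-/

set_option autoImplicit false
set_option linter.unusedSectionVars false

namespace Pool.Agent.M3

open Finset Pool.Agent.PWZ

variable {Om : Type*} [Fintype Om]

/-- conditional independence of `X` and `Y` given `a` -/
def FP.CI (P : FP Om) {α κ ι : Type*} (a : Om → α) (X : Om → κ) (Y : Om → ι) : Prop :=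
  ∀ f g : Om → ℝ, Fac X f → Fac Y g → ∀ w, P.p w ≠ 0 →
    P.ce a (fun v => f v * g v) w = P.ce a f w * P.ce a g w

theorem FP.CI.symm {P : FP Om} {α κ ι : Type*} {a : Om → α} {X : Om → κ} {Y : Om → ι} (h : P.CI a X Y) :
    P.CI a Y X := by
  intro f g hf hg w hw
  have h1 := h g f hg hf w hw
  rw [mul_comm (P.ce a f w), ← h1]
  exact P.ce_congr (fun v _ => mul_comm _ _) w

theorem FP.CI.E3 {P : FP Om} {α κ ι : Type*} {a : Om → α} {X : Om → κ} {Y : Om → ι} (hci : P.CI a X Y)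
    {h f g : Om → ℝ} (hh : Fac a h) (hf : Fac X f) (hg : Fac Y g) :
    P.E (fun w => h w * (f w * g w)) = P.E (fun w => h w * (P.ce a f w * P.ce a g w)) := by
  rw [← P.E_mul_ce hh (fun w => f w * g w)]
  exact P.E_congr (fun w hw => by rw [hci f g hf hg w hw])

theorem FP.CI.E2 {P : FP Om} {α κ ι : Type*} {a : Om → α} {X : Om → κ} {Y : Om → ι} (hci : P.CI a X Y)
    {f g : Om → ℝ} (hf : Fac X f) (hg : Fac Y g) :
    P.E (fun w => f w * g w) = P.E (fun w => P.ce a f w * P.ce a g w) := by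
  have h := hci.E3 (h := fun _ => (1 : ℝ)) (Fac.const a 1) hf hg
  simpa only [one_mul] using h

/-! ## the function `x log x - x + 1` -/

noncomputable section

/-- `x log x - x + 1` -/
def hphi (x : ℝ) : ℝ := x * Real.log x - x + 1

end

theorem hphi_nonneg {x : ℝ} (hx : 0 ≤ x) : 0 ≤ hphi x := by
  unfold hphi
  rcases hx.eq_or_lt with h | h
  · rw [← h]; simp
  · have h1 := Real.log_le_sub_one_of_pos (x := 1 / x) (by positivity)
    rw [one_div, Real.log_inv] at h1
    have h2 : x * x⁻¹ = 1 := mul_inv_cancel₀ h.ne'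
    nlinarith [mul_le_mul_of_nonneg_left h1 h.le]

theorem hphi_sq {x : ℝ} (hx : 0 ≤ x) : (x - 1) ^ 2 ≤ 2 * max 1 x * hphi x := by
  rcases le_total x 1 with h1 | h1
  · rw [max_eq_left h1]
    rcases hx.eq_or_lt with h | h
    · unfold hphi; rw [← h]; norm_num
    · -- log (1/x) ≤ (1/x - x)/2
      have h2 : 0 ≤ Real.log (x⁻¹) := Real.log_nonneg ((one_le_inv₀ h).2 h1)
      have h3 := Real.self_le_sinh_iff.2 h2
      rw [Real.sinh_log (by positivity), inv_inv, Real.log_inv] at h3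
      unfold hphi
      have h4 : x * x⁻¹ = 1 := mul_inv_cancel₀ h.ne'
      nlinarith [mul_le_mul_of_nonneg_left h3 h.le]
  · rw [max_eq_right h1]
    have hx0 : 0 < x := lt_of_lt_of_le one_pos h1
    -- log x ≥ u + u^2/2, u = 1 - 1/x
    set u : ℝ := 1 - x⁻¹ with hu
    have hxi : 0 < x⁻¹ := by positivity
    have hxi1 : x⁻¹ ≤ 1 := inv_le_one_of_one_le₀ h1
    have hu0 : 0 ≤ u := by rw [hu]; linarith
    have hu1 : u < 1 := by rw [hu]; linarith
    have h2 : u + u ^ 2 / 2 ≤ Real.log x := by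
      have h3 := Real.hasSum_pow_div_log_of_abs_lt_one (x := u) (by rw [abs_of_nonneg hu0]; exact hu1)
      have h4 := sum_le_hasSum (Finset.range 2) (fun i _ => by positivity) h3
      have h5 : -Real.log (1 - u) = Real.log x := by
        rw [hu, sub_sub_cancel, Real.log_inv, neg_neg]
      rw [h5] at h4
      simp only [Finset.sum_range_succ, Finset.sum_range_zero] at h4
      norm_num at h4
      linarith
    have h6 : x * u = x - 1 := by
      rw [hu]; field_simp
    unfold hphi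
    have h7 : x * (u + u ^ 2 / 2) ≤ x * Real.log x := mul_le_mul_of_nonneg_left h2 hx0.le
    have h8 : 2 * x * (x * (u + u ^ 2 / 2) - x + 1) = (x - 1) ^ 2 := by
      have : 2 * x * (x * (u + u ^ 2 / 2) - x + 1) = 2 * x * (x * u) + (x * u) ^ 2 - 2 * x * x + 2 * x := by
        ring
      rw [this, h6]; ring
    nlinarith [mul_le_mul_of_nonneg_left h7 (by positivity : (0 : ℝ) ≤ 2 * x)]

theorem hphi_strong {B x : ℝ} (hB : Real.exp 2 ≤ B) (hx : B < x) :
    1 ≤ hphi x ∧ x ≤ hphi x ∧ x * Real.log x ≤ 2 * hphi x := by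
  have hx0 : 0 < x := lt_trans (lt_of_lt_of_le (Real.exp_pos 2) hB) hx
  have h2 : 2 ≤ Real.log x := by
    rw [Real.le_log_iff_exp_le hx0]
    exact (hB.trans hx.le)
  have h1 : 1 ≤ x := by
    have := Real.add_one_le_exp 2
    linarith
  unfold hphi
  refine ⟨?_, ?_, ?_⟩ <;> nlinarith

/-! ## one letter -/

section letter

variable {P Q : FP Om} {α κ ι : Type*}

theorem kl_eq_hphi (hQ : Q.AC P) (X : Om → κ) : kl Q P X = P.E (fun w => hphi (dn Q P X w)) := by
  have h1 := E_dn hQ (X := X) (F := fun w => Real.log (dn Q P X w))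
    ((dn_fac Q P X).comp (fun x => Real.log x))
  have h2 := E_dn_sub_one hQ X
  unfold kl
  rw [← h1]
  have h3 : P.E (fun w => hphi (dn Q P X w)) =
      P.E (fun w => Real.log (dn Q P X w) * dn Q P X w - (dn Q P X w - 1)) :=
    P.E_congr (fun w _ => by unfold hphi; ring)
  rw [h3, FP.E_sub, h2, sub_zero]

/-- weak part of the density -/
noncomputable def hwk (B x : ℝ) : ℝ := ind (¬ B < x) * x

/-- strong part of the density -/
noncomputable def hsg (B x : ℝ) : ℝ := ind (B < x) * x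

theorem hwk_add_hsg (B x : ℝ) : hwk B x + hsg B x = x := by
  unfold hwk hsg
  by_cases h : B < x
  · rw [ind_of h, ind_not (fun h' => h' h)]; ring
  · rw [ind_of h, ind_not h]; ring

theorem hwk_nonneg {B x : ℝ} (hx : 0 ≤ x) : 0 ≤ hwk B x := mul_nonneg (ind_nonneg _) hx

theorem hsg_nonneg {B x : ℝ} (hx : 0 ≤ x) : 0 ≤ hsg B x := mul_nonneg (ind_nonneg _) hx

theorem hwk_le {B x : ℝ} (hB : 0 ≤ B) : hwk B x ≤ B := by
  unfold hwk
  by_cases h : B < x
  · rw [ind_not (fun h' => h' h), zero_mul]; exact hB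
  · rw [ind_of h, one_mul]; exact not_lt.1 h

theorem hwk_le_self {B x : ℝ} (hx : 0 ≤ x) : hwk B x ≤ x := by
  unfold hwk
  exact mul_le_of_le_one_left hx (ind_le_one _)

theorem hsg_le_self {B x : ℝ} (hx : 0 ≤ x) : hsg B x ≤ x := by
  unfold hsg
  exact mul_le_of_le_one_left hx (ind_le_one _)

theorem E_hwk_sub_sq (hQ : Q.AC P) (X : Om → κ) {B : ℝ} (hB : Real.exp 2 ≤ B) :
    P.E (fun w => (hwk B (dn Q P X w) - 1) ^ 2) ≤ 3 * B * kl Q P X := by
  rw [kl_eq_hphi hQ X, ← P.E_smul]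
  have hB1 : 1 ≤ B := by
    have := Real.add_one_le_exp 2
    linarith
  refine P.E_mono (fun w _ => ?_)
  have h0 := dn_nonneg Q P X w
  have h1 := hphi_nonneg h0
  by_cases h : B < dn Q P X w
  · have h2 := (hphi_strong hB h).1
    unfold hwk
    rw [ind_not (fun h' => h' h)]
    nlinarith
  · have h2 := hphi_sq h0
    unfold hwk
    rw [ind_of h, one_mul]
    have h3 : max 1 (dn Q P X w) ≤ B := max_le hB1 (not_lt.1 h)
    nlinarith [mul_le_mul_of_nonneg_right h3 h1]

theorem E_hsg_le (hQ : Q.AC P) (X : Om → κ) {B : ℝ} (hB : Real.exp 2 ≤ B) :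
    P.E (fun w => hsg B (dn Q P X w)) ≤ kl Q P X := by
  rw [kl_eq_hphi hQ X]
  refine P.E_mono (fun w _ => ?_)
  unfold hsg
  by_cases h : B < dn Q P X w
  · rw [ind_of h, one_mul]; exact (hphi_strong hB h).2.1
  · rw [ind_not h, zero_mul]; exact hphi_nonneg (dn_nonneg Q P X w)

theorem E_strong_log_le (hQ : Q.AC P) (X : Om → κ) {B : ℝ} (hB : Real.exp 2 ≤ B) :
    Q.E (fun w => ind (B < dn Q P X w) * Real.log (dn Q P X w)) ≤ 2 * kl Q P X := by
  have hF : Fac X (fun w => ind (B < dn Q P X w) * Real.log (dn Q P X w)) :=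
    (dn_fac Q P X).comp (fun x => ind (B < x) * Real.log x)
  rw [← E_dn hQ hF, kl_eq_hphi hQ X, ← P.E_smul]
  refine P.E_mono (fun w _ => ?_)
  by_cases h : B < dn Q P X w
  · rw [ind_of h]
    have := (hphi_strong hB h).2.2
    linarith
  · rw [ind_not h]
    have := hphi_nonneg (dn_nonneg Q P X w)
    linarith

theorem Pr_strong_le (hQ : Q.AC P) (X : Om → κ) {B : ℝ} (hB : 0 < B) :
    P.E (fun w => ind (B < dn Q P X w)) ≤ 1 / B := by
  rw [le_div_iff₀ hB, ← FP.E_mul_const, ← E_dn_one hQ X]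
  refine P.E_mono (fun w _ => ?_)
  by_cases h : B < dn Q P X w
  · rw [ind_of h, one_mul]; exact h.le
  · rw [ind_not h, zero_mul]; exact dn_nonneg Q P X w

theorem E_hwk_sq_le (hQ : Q.AC P) (X : Om → κ) {B : ℝ} (hB : 0 ≤ B) :
    P.E (fun w => hwk B (dn Q P X w) ^ 2) ≤ B := by
  have h1 : P.E (fun w => hwk B (dn Q P X w) ^ 2) ≤ P.E (fun w => B * dn Q P X w) := by
    refine P.E_mono (fun w _ => ?_)
    have h0 := dn_nonneg Q P X w
    rw [sq]
    exact mul_le_mul (hwk_le hB) (hwk_le_self h0) (hwk_nonneg h0) hB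
  rw [FP.E_smul, E_dn_one hQ X, mul_one] at h1
  exact h1

end letter

/-! ## exceptional sets -/

section exc

variable {P Q : FP Om} {α κ ι : Type*}

/-- an event of `a` on which the conditional mean of `ψ` is at least `η` -/
theorem cnd_E_ge {a : Om → α} {S : Om → Prop} (hSa : Ev a S) (hS : 0 < P.Pr S) {ψ : Om → ℝ} {η : ℝ}
    (h : ∀ w, P.p w ≠ 0 → S w → η ≤ P.ce a ψ w) : η ≤ (P.cnd S hS).E ψ := by
  rw [cnd_E, le_div_iff₀ hS]
  have h1 : P.E (fun w => ind (S w) * ψ w) = P.E (fun w => ind (S w) * P.ce a ψ w) :=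
    (P.E_mul_ce (Fac.ind hSa) ψ).symm
  rw [h1]
  unfold FP.Pr
  rw [← FP.E_smul]
  refine P.E_mono (fun w hw => ?_)
  by_cases hs : S w
  · rw [ind_of hs, mul_one, one_mul]; exact h w hw hs
  · rw [ind_not hs, mul_zero, zero_mul]

/-- from a lower bound of the relative entropy to smallness -/
theorem Pr_le_of_kl {S : Om → Prop} {Y : Om → ι} {sig x : ℝ} (hsig : 0 < sig)
    (rule : ∀ hS : 0 < P.Pr S, kl (P.cnd S hS) P Y ≤ sig * (Real.log (1 / P.Pr S) + 1))
    (hx : ∀ hS : 0 < P.Pr S, sig * x ≤ kl (P.cnd S hS) P Y) : P.Pr S ≤ Real.exp (1 - x) := by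
  rcases (P.Pr_nonneg S).eq_or_lt with h | h
  · rw [← h]; exact (Real.exp_pos _).le
  · have h1 := (hx h).trans (rule h)
    have h2 : x ≤ Real.log (1 / P.Pr S) + 1 := le_of_mul_le_mul_left h1 hsig
    rw [one_div, Real.log_inv] at h2
    rw [← Real.log_le_iff_le_exp h]
    linarith

/-- first exceptional set: many strong letters -/
theorem exc_strong (hQ : Q.AC P) {a : Om → α} {Y : Om → ι} {B eta sig : ℝ} (hB : 0 < B) (h0 : 0 < eta)
    (hBe : 2 * Real.exp 1 ≤ B * eta) (hsig : 0 < sig)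
    (rule : ∀ (S : Om → Prop) (hS : 0 < P.Pr S), Ev a S →
      kl (P.cnd S hS) P Y ≤ sig * (Real.log (1 / P.Pr S) + 1)) :
    P.Pr (fun w => eta < P.ce a (fun v => ind (B < dn Q P Y v)) w) ≤ Real.exp (1 - eta / (2 * sig)) := by
  set ψ : Om → ℝ := fun v => ind (B < dn Q P Y v) with hψ
  have hψF : Fac Y ψ := (dn_fac Q P Y).comp (fun x => ind (B < x))
  have hSa : Ev a (fun w => eta < P.ce a ψ w) := fun v w hv => by
    show eta < P.ce a ψ v ↔ eta < P.ce a ψ w
    rw [P.ce_fac a ψ v w hv]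
  refine Pr_le_of_kl (Y := Y) hsig (fun hS => rule _ hS hSa) (fun hS => ?_)
  have h1 : eta ≤ (P.cnd _ hS).E ψ := cnd_E_ge hSa hS (fun w _ hw => hw.le)
  set lam : ℝ := Real.log (B * eta / 2) with hlam
  have hBe0 : 0 < B * eta / 2 := by positivity
  have hl1 : 1 ≤ lam := by
    rw [hlam, Real.le_log_iff_exp_le hBe0]
    linarith
  have h2 := dv_exp (cnd_ac P _ hS) (X := Y) (hψF.comp (fun x => lam * x))
  rw [FP.E_smul] at h2
  have h3 : P.E (fun w => Real.exp (lam * ψ w)) ≤ 1 + Real.exp lam * (1 / B) := by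
    have h4 : P.E (fun w => Real.exp (lam * ψ w)) ≤ P.E (fun w => 1 + Real.exp lam * ψ w) := by
      refine P.E_mono (fun w _ => ?_)
      by_cases h : B < dn Q P Y w
      · have : ψ w = 1 := ind_of h
        rw [this, mul_one, mul_one]; linarith
      · have : ψ w = 0 := ind_not h
        rw [this, mul_zero, mul_zero, Real.exp_zero, add_zero]
    rw [FP.E_add, FP.E_const, FP.E_smul] at h4
    have h5 := Pr_strong_le hQ Y hB
    have := mul_le_mul_of_nonneg_left h5 (Real.exp_pos lam).le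
    linarith
  have hE0 : 0 < P.E (fun w => Real.exp (lam * ψ w)) := by
    have : (1 : ℝ) ≤ P.E (fun w => Real.exp (lam * ψ w)) := by
      refine P.le_E_const (fun w _ => ?_)
      rw [Real.one_le_exp_iff]
      exact mul_nonneg (by linarith) (ind_nonneg _)
    linarith
  have h6 : Real.log (P.E (fun w => Real.exp (lam * ψ w))) ≤ Real.exp lam * (1 / B) := by
    have := Real.log_le_sub_one_of_pos hE0
    linarith
  have h7 : Real.exp lam * (1 / B) = eta / 2 := by
    rw [hlam, Real.exp_log hBe0]; field_simp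
  have h8 : sig * (eta / (2 * sig)) = eta / 2 := by field_simp
  rw [h8]
  nlinarith [mul_le_mul_of_nonneg_left h1 (by linarith : (0 : ℝ) ≤ lam)]

/-- second exceptional set: large mean of the weak part -/
theorem exc_weak (hQ : Q.AC P) {a : Om → α} {Y : Om → ι} {B eta sig : ℝ} (hB : 1 ≤ B) (h0 : 0 < eta)
    (h1 : eta ≤ 1) (hsig : 0 < sig)
    (rule : ∀ (S : Om → Prop) (hS : 0 < P.Pr S), Ev a S →
      kl (P.cnd S hS) P Y ≤ sig * (Real.log (1 / P.Pr S) + 1)) :
    P.Pr (fun w => P.E (fun v => hwk B (dn Q P Y v)) + eta < P.ce a (fun v => hwk B (dn Q P Y v)) w) ≤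
      Real.exp (1 - 3 * eta ^ 2 / (16 * B * sig)) := by
  set ψ : Om → ℝ := fun v => hwk B (dn Q P Y v) with hψ
  set m := P.E ψ with hm
  have hB0 : 0 < B := by linarith
  have hψF : Fac Y ψ := (dn_fac Q P Y).comp (fun x => hwk B x)
  have hψ0 : ∀ w, 0 ≤ ψ w := fun w => hwk_nonneg (dn_nonneg Q P Y w)
  have hψB : ∀ w, ψ w ≤ B := fun w => hwk_le hB0.le
  have hm0 : 0 ≤ m := P.E_nonneg (fun w _ => hψ0 w)
  have hmB : m ≤ B := P.E_le_const (fun w _ => hψB w)
  have hSa : Ev a (fun w => m + eta < P.ce a ψ w) := fun v w hv => by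
    show m + eta < P.ce a ψ v ↔ m + eta < P.ce a ψ w
    rw [P.ce_fac a ψ v w hv]
  refine Pr_le_of_kl (Y := Y) hsig (fun hS => rule _ hS hSa) (fun hS => ?_)
  have h2 : m + eta ≤ (P.cnd _ hS).E ψ := cnd_E_ge hSa hS (fun w _ hw => hw.le)
  set lam : ℝ := eta / (4 * B) with hlam
  have hl0 : 0 < lam := by positivity
  have h3 := dv_exp (cnd_ac P _ hS) (X := Y) (hψF.comp (fun x => lam * (x - m)))
  rw [FP.E_smul, FP.E_sub, FP.E_const] at h3
  have hx : ∀ w, |lam * (ψ w - m)| ≤ 1 := fun w => by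
    rw [abs_mul, abs_of_pos hl0]
    have h4 : |ψ w - m| ≤ B := by
      rw [abs_le]; constructor <;> linarith [hψ0 w, hψB w]
    calc lam * |ψ w - m| ≤ lam * B := mul_le_mul_of_nonneg_left h4 hl0.le
      _ = eta / 4 := by rw [hlam]; field_simp
      _ ≤ 1 := by linarith
  have h5 : P.E (fun w => Real.exp (lam * (ψ w - m))) ≤ 1 + lam ^ 2 * B := by
    have h6 : P.E (fun w => Real.exp (lam * (ψ w - m))) ≤
        P.E (fun w => 1 + (lam * (ψ w - m) + lam ^ 2 * (ψ w - m) ^ 2)) := by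
      refine P.E_mono (fun w _ => ?_)
      have h7 := (abs_le.1 (Real.abs_exp_sub_one_sub_id_le (hx w))).2
      nlinarith
    have h8 : P.E (fun w => (ψ w - m) ^ 2) ≤ B := by
      have h9 : P.E (fun w => (ψ w - m) ^ 2) = P.E (fun w => ψ w ^ 2) - m ^ 2 := by
        have : P.E (fun w => (ψ w - m) ^ 2) = P.E (fun w => ψ w ^ 2 - (2 * m) * ψ w + m ^ 2) :=
          P.E_congr (fun w _ => by ring)
        rw [this, FP.E_add, FP.E_sub, FP.E_smul, FP.E_const, ← hm]; ring
      have h10 := E_hwk_sq_le hQ Y hB0.le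
      rw [h9]
      nlinarith [sq_nonneg m]
    rw [FP.E_add, FP.E_add, FP.E_const, FP.E_smul, FP.E_smul, FP.E_sub, FP.E_const, ← hm, sub_self,
      mul_zero, zero_add] at h6
    have := mul_le_mul_of_nonneg_left h8 (sq_nonneg lam)
    linarith
  have hE0 : 0 < P.E (fun w => Real.exp (lam * (ψ w - m))) := by
    have h11 : (Real.exp (-1) : ℝ) ≤ P.E (fun w => Real.exp (lam * (ψ w - m))) :=
      P.le_E_const (fun w _ => Real.exp_le_exp.2 (abs_le.1 (hx w)).1)
    exact lt_of_lt_of_le (Real.exp_pos _) h11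
  have h12 : Real.log (P.E (fun w => Real.exp (lam * (ψ w - m)))) ≤ lam ^ 2 * B := by
    have := Real.log_le_sub_one_of_pos hE0
    linarith
  have h13 : lam * eta - lam ^ 2 * B = 3 * eta ^ 2 / (16 * B) := by
    rw [hlam]; field_simp; ring
  have h14 : sig * (3 * eta ^ 2 / (16 * B * sig)) = 3 * eta ^ 2 / (16 * B) := by field_simp
  rw [h14, ← h13]
  nlinarith [mul_le_mul_of_nonneg_left h2 hl0.le]

end exc


/-! ## the KEY inequality -/

section key

variable {P : FP Om} {α κ ι : Type*}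

/-- pointwise decomposition of the bilinear part -/
theorem key_point {B r t : ℝ} (hr : 0 ≤ r) (ht : 0 ≤ t) :
    (r - 1) * (t - 1) * ind (¬ (B < r ∧ B < t)) ≤
      (hwk B r - 1) * (hwk B t - 1) + hsg B r * (hwk B t - 1) + hsg B t * (hwk B r - 1) +
        hsg B r * ind (B < t) + hsg B t * ind (B < r) := by
  unfold hwk hsg
  by_cases h1 : B < r <;> by_cases h2 : B < t
  · rw [ind_of h1, ind_of h2, ind_not (fun h : ¬ (B < r ∧ B < t) => h ⟨h1, h2⟩), ind_not (fun h => h h1),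
      ind_not (fun h => h h2)]
    linarith
  · rw [ind_of h1, ind_not h2, ind_of (fun h : B < r ∧ B < t => h2 h.2), ind_not (fun h => h h1), ind_of h2]
    linarith
  · rw [ind_not h1, ind_of h2, ind_of (fun h : B < r ∧ B < t => h1 h.1), ind_of h1, ind_not (fun h => h h2)]
    linarith
  · rw [ind_not h1, ind_not h2, ind_of (fun h : B < r ∧ B < t => h1 h.1), ind_of h1, ind_of h2]
    linarith

theorem var_le_sub_one (f : Om → ℝ) :
    P.E (fun w => (f w - P.E f) ^ 2) ≤ P.E (fun w => (f w - 1) ^ 2) := by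
  set m := P.E f with hm
  have h1 : P.E (fun w => (f w - m) ^ 2) = P.E (fun w => f w ^ 2 - (2 * m) * f w + m ^ 2) :=
    P.E_congr (fun w _ => by ring)
  have h2 : P.E (fun w => (f w - 1) ^ 2) = P.E (fun w => f w ^ 2 - 2 * f w + 1) :=
    P.E_congr (fun w _ => by ring)
  rw [h1, h2, FP.E_add, FP.E_sub, FP.E_smul, FP.E_const, FP.E_add, FP.E_sub, FP.E_smul, FP.E_const, ← hm]
  nlinarith [sq_nonneg (m - 1)]

/-- covariance of the weak parts -/
theorem key_cov {Q : FP Om} (hQ : Q.AC P) {a : Om → α} {X : Om → κ} {Y : Om → ι} (hci : P.CI a X Y)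
    {B s : ℝ} (hB : Real.exp 2 ≤ B) (hs : 0 ≤ s)
    (opX : ∀ y : Om → ℝ, Fac X y → P.E y = 0 → P.E (fun w => P.ce a y w ^ 2) ≤ s * P.E (fun w => y w ^ 2))
    (opY : ∀ y : Om → ℝ, Fac Y y → P.E y = 0 → P.E (fun w => P.ce a y w ^ 2) ≤ s * P.E (fun w => y w ^ 2)) :
    P.E (fun w => (hwk B (dn Q P X w) - P.E (fun v => hwk B (dn Q P X v))) *
      (hwk B (dn Q P Y w) - P.E (fun v => hwk B (dn Q P Y v)))) ≤ 3 / 2 * B * s * (kl Q P X + kl Q P Y) := by
  set f : Om → ℝ := fun w => hwk B (dn Q P X w) with hf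
  set g : Om → ℝ := fun w => hwk B (dn Q P Y w) with hg
  have hfF : Fac X (fun w => f w - P.E f) := (dn_fac Q P X).comp (fun x => hwk B x - P.E f)
  have hgF : Fac Y (fun w => g w - P.E g) := (dn_fac Q P Y).comp (fun x => hwk B x - P.E g)
  rw [hci.E2 hfF hgF]
  have h1 : P.E (fun w => P.ce a (fun w => f w - P.E f) w * P.ce a (fun w => g w - P.E g) w) ≤
      P.E (fun w => 1 / 2 * P.ce a (fun w => f w - P.E f) w ^ 2 +
        1 / 2 * P.ce a (fun w => g w - P.E g) w ^ 2) := by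
    refine P.E_mono (fun w _ => ?_)
    nlinarith [sq_nonneg (P.ce a (fun w => f w - P.E f) w - P.ce a (fun w => g w - P.E g) w)]
  rw [FP.E_add, FP.E_smul, FP.E_smul] at h1
  have h2 := opX _ hfF (by rw [FP.E_sub, FP.E_const, sub_self])
  have h3 := opY _ hgF (by rw [FP.E_sub, FP.E_const, sub_self])
  have h4 : P.E (fun w => (f w - P.E f) ^ 2) ≤ 3 * B * kl Q P X :=
    (var_le_sub_one (P := P) f).trans (E_hwk_sub_sq hQ X hB)
  have h5 : P.E (fun w => (g w - P.E g) ^ 2) ≤ 3 * B * kl Q P Y :=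
    (var_le_sub_one (P := P) g).trans (E_hwk_sub_sq hQ Y hB)
  have h6 := mul_le_mul_of_nonneg_left h4 hs
  have h7 := mul_le_mul_of_nonneg_left h5 hs
  linarith

/-- strong part against a centred weak part -/
theorem key_sw {Q : FP Om} (hQ : Q.AC P) {a : Om → α} {X : Om → κ} {Y : Om → ι} (hci : P.CI a X Y)
    {B eta A e : ℝ} (hB : Real.exp 2 ≤ B) (h0 : 0 ≤ eta) (rX : ∀ w, P.p w ≠ 0 → dn Q P X w ≤ A)
    (hA : 0 ≤ A)
    (he : P.Pr (fun w => P.E (fun v => hwk B (dn Q P Y v)) + eta < P.ce a (fun v => hwk B (dn Q P Y v)) w) ≤ e) :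
    P.E (fun w => hsg B (dn Q P X w) * (hwk B (dn Q P Y w) - P.E (fun v => hwk B (dn Q P Y v)))) ≤
      eta * kl Q P X + A * B * e := by
  have hB0 : 0 ≤ B := (Real.exp_pos 2).le.trans hB
  set f : Om → ℝ := fun w => hsg B (dn Q P X w) with hf
  set g : Om → ℝ := fun w => hwk B (dn Q P Y w) with hg
  have hfF : Fac X f := (dn_fac Q P X).comp (fun x => hsg B x)
  have hgF : Fac Y (fun w => g w - P.E g) := (dn_fac Q P Y).comp (fun x => hwk B x - P.E g)
  have hm0 : 0 ≤ P.E g := P.E_nonneg (fun w _ => hwk_nonneg (dn_nonneg Q P Y w))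
  rw [hci.E2 hfF hgF]
  have hce0 : ∀ w, 0 ≤ P.ce a f w := fun w => P.ce_nonneg (fun v _ => hsg_nonneg (dn_nonneg Q P X v)) w
  have hceA : ∀ w, P.p w ≠ 0 → P.ce a f w ≤ A := fun w hw =>
    P.ce_le_const (fun v hv => (hsg_le_self (dn_nonneg Q P X v)).trans (rX v hv)) hw
  have h1 : P.E (fun w => P.ce a f w * P.ce a (fun w => g w - P.E g) w) ≤
      P.E (fun w => eta * P.ce a f w + A * B * ind (P.E g + eta < P.ce a g w)) := by
    refine P.E_mono (fun w hw => ?_)
    have e1 : P.ce a (fun w => g w - P.E g) w = P.ce a g w - P.E g := by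
      rw [FP.ce_sub, P.ce_const a _ hw]
    rw [e1]
    by_cases h : P.E g + eta < P.ce a g w
    · rw [ind_of h, mul_one]
      have h2 : P.ce a g w ≤ B := P.ce_le_const (fun v _ => hwk_le hB0) hw
      have h3 : P.ce a f w * (P.ce a g w - P.E g) ≤ A * B :=
        mul_le_mul (hceA w hw) (by linarith) (by linarith) hA
      have h4 := mul_nonneg h0 (hce0 w)
      linarith
    · rw [ind_not h, mul_zero, add_zero, mul_comm eta]
      exact mul_le_mul_of_nonneg_left (by linarith [not_lt.1 h]) (hce0 w)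
  rw [FP.E_add, FP.E_smul, FP.E_smul, FP.E_ce] at h1
  have h2 := mul_le_mul_of_nonneg_left (E_hsg_le hQ X hB) h0
  have h3 : A * B * P.E (fun w => ind (P.E g + eta < P.ce a g w)) ≤ A * B * e :=
    mul_le_mul_of_nonneg_left he (mul_nonneg hA hB0)
  linarith

/-- strong part against strong letters -/
theorem key_ss {Q : FP Om} (hQ : Q.AC P) {a : Om → α} {X : Om → κ} {Y : Om → ι} (hci : P.CI a X Y)
    {B eta A e : ℝ} (hB : Real.exp 2 ≤ B) (h0 : 0 ≤ eta) (rX : ∀ w, P.p w ≠ 0 → dn Q P X w ≤ A)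
    (hA : 0 ≤ A)
    (he : P.Pr (fun w => eta < P.ce a (fun v => ind (B < dn Q P Y v)) w) ≤ e) :
    P.E (fun w => hsg B (dn Q P X w) * ind (B < dn Q P Y w)) ≤ eta * kl Q P X + A * e := by
  set f : Om → ℝ := fun w => hsg B (dn Q P X w) with hf
  set g : Om → ℝ := fun w => ind (B < dn Q P Y w) with hg
  have hfF : Fac X f := (dn_fac Q P X).comp (fun x => hsg B x)
  have hgF : Fac Y g := (dn_fac Q P Y).comp (fun x => ind (B < x))
  rw [hci.E2 hfF hgF]
  have hce0 : ∀ w, 0 ≤ P.ce a f w := fun w => P.ce_nonneg (fun v _ => hsg_nonneg (dn_nonneg Q P X v)) w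
  have hceA : ∀ w, P.p w ≠ 0 → P.ce a f w ≤ A := fun w hw =>
    P.ce_le_const (fun v hv => (hsg_le_self (dn_nonneg Q P X v)).trans (rX v hv)) hw
  have h1 : P.E (fun w => P.ce a f w * P.ce a g w) ≤
      P.E (fun w => eta * P.ce a f w + A * ind (eta < P.ce a g w)) := by
    refine P.E_mono (fun w hw => ?_)
    by_cases h : eta < P.ce a g w
    · rw [ind_of h, mul_one]
      have h2 : P.ce a g w ≤ 1 := P.ce_le_const (fun v _ => ind_le_one _) hw
      have h20 : 0 ≤ P.ce a g w := P.ce_nonneg (fun v _ => ind_nonneg _) w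
      have h3 : P.ce a f w * P.ce a g w ≤ A * 1 := mul_le_mul (hceA w hw) h2 h20 hA
      have h4 := mul_nonneg h0 (hce0 w)
      linarith
    · rw [ind_not h, mul_zero, add_zero, mul_comm eta]
      exact mul_le_mul_of_nonneg_left (not_lt.1 h) (hce0 w)
  rw [FP.E_add, FP.E_smul, FP.E_smul, FP.E_ce] at h1
  have h2 := mul_le_mul_of_nonneg_left (E_hsg_le hQ X hB) h0
  have h3 : A * P.E (fun w => ind (eta < P.ce a g w)) ≤ A * e := mul_le_mul_of_nonneg_left he hA
  linarith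

/-- the loss term on the cell -/
theorem key_loss {a : Om → α} {X : Om → κ} {Y : Om → ι} {V : Om → Prop} (hVa : Ev a V) (hV : 0 < P.Pr V)
    (hci : P.CI a X Y) {B eta A e : ℝ} (hB : Real.exp 2 ≤ B) (h0 : 0 ≤ eta) (hA : 1 ≤ A)
    (rX : ∀ w, P.p w ≠ 0 → dn (P.cnd V hV) P X w ≤ A)
    (he : P.Pr (fun w => eta < P.ce a (fun v => ind (B < dn (P.cnd V hV) P Y v)) w) ≤ e) :
    P.Pr V * (P.cnd V hV).E (fun w => ind (B < dn (P.cnd V hV) P X w ∧ B < dn (P.cnd V hV) P Y w) *
      Real.log (min (dn (P.cnd V hV) P X w) (dn (P.cnd V hV) P Y w))) ≤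
      2 * eta * (P.Pr V * kl (P.cnd V hV) P X) + Real.log A * e := by
  set Q := P.cnd V hV with hQd
  have hQ : Q.AC P := cnd_ac P V hV
  have hB1 : 1 ≤ B := by
    have := Real.add_one_le_exp 2
    linarith
  set u : Om → ℝ := fun w => ind (B < dn Q P X w) * Real.log (dn Q P X w) with hu
  set g : Om → ℝ := fun w => ind (B < dn Q P Y w) with hg
  have huF : Fac X u := (dn_fac Q P X).comp (fun x => ind (B < x) * Real.log x)
  have hgF : Fac Y g := (dn_fac Q P Y).comp (fun x => ind (B < x))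
  have hu0 : ∀ w, 0 ≤ u w := fun w => by
    show 0 ≤ ind (B < dn Q P X w) * Real.log (dn Q P X w)
    by_cases h : B < dn Q P X w
    · rw [ind_of h, one_mul]; exact Real.log_nonneg (by linarith)
    · rw [ind_not h, zero_mul]
  have huA : ∀ w, P.p w ≠ 0 → u w ≤ Real.log A := fun w hw => by
    show ind (B < dn Q P X w) * Real.log (dn Q P X w) ≤ _
    by_cases h : B < dn Q P X w
    · rw [ind_of h, one_mul]; exact Real.log_le_log (by linarith) (rX w hw)
    · rw [ind_not h, zero_mul]; exact Real.log_nonneg hA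
  have h1 : Q.E (fun w => ind (B < dn Q P X w ∧ B < dn Q P Y w) *
      Real.log (min (dn Q P X w) (dn Q P Y w))) ≤ Q.E (fun w => u w * g w) := by
    refine Q.E_mono (fun w _ => ?_)
    show _ ≤ ind (B < dn Q P X w) * Real.log (dn Q P X w) * ind (B < dn Q P Y w)
    by_cases h2 : B < dn Q P X w
    · by_cases h3 : B < dn Q P Y w
      · rw [ind_of h2, ind_of h3, ind_of ⟨h2, h3⟩, one_mul, one_mul, mul_one]
        exact Real.log_le_log (lt_min (by linarith) (by linarith)) (min_le_left _ _)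
      · rw [ind_not h3, mul_zero, ind_not (fun h => h3 h.2), zero_mul]
    · rw [ind_not h2, zero_mul, zero_mul, ind_not (fun h => h2 h.1), zero_mul]
  have h2 : P.Pr V * Q.E (fun w => u w * g w) = P.E (fun w => ind (V w) * (P.ce a u w * P.ce a g w)) := by
    rw [hQd, Pr_mul_cnd_E, hci.E3 (Fac.ind hVa) huF hgF]
  have hce0 : ∀ w, 0 ≤ P.ce a u w := fun w => P.ce_nonneg (fun v _ => hu0 v) w
  have hceA : ∀ w, P.p w ≠ 0 → P.ce a u w ≤ Real.log A := fun w hw => P.ce_le_const huA hw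
  have hlA : 0 ≤ Real.log A := Real.log_nonneg hA
  have h3 : P.E (fun w => ind (V w) * (P.ce a u w * P.ce a g w)) ≤
      P.E (fun w => eta * (ind (V w) * P.ce a u w) + Real.log A * ind (eta < P.ce a g w)) := by
    refine P.E_mono (fun w hw => ?_)
    have hi0 := ind_nonneg (V w)
    have hi1 := ind_le_one (V w)
    by_cases h : eta < P.ce a g w
    · rw [ind_of h, mul_one]
      have h4 : P.ce a g w ≤ 1 := P.ce_le_const (fun v _ => ind_le_one _) hw
      have h5 : 0 ≤ P.ce a g w := P.ce_nonneg (fun v _ => ind_nonneg _) w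
      have h6 : P.ce a u w * P.ce a g w ≤ Real.log A * 1 := mul_le_mul (hceA w hw) h4 h5 hlA
      have h7 : 0 ≤ P.ce a u w * P.ce a g w := mul_nonneg (hce0 w) h5
      have h8 : ind (V w) * (P.ce a u w * P.ce a g w) ≤ 1 * (Real.log A * 1) := mul_le_mul hi1 h6 h7 zero_le_one
      have h9 := mul_nonneg h0 (mul_nonneg hi0 (hce0 w))
      linarith
    · rw [ind_not h, mul_zero, add_zero]
      have h6 : P.ce a u w * P.ce a g w ≤ P.ce a u w * eta :=
        mul_le_mul_of_nonneg_left (not_lt.1 h) (hce0 w)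
      calc ind (V w) * (P.ce a u w * P.ce a g w) ≤ ind (V w) * (P.ce a u w * eta) :=
            mul_le_mul_of_nonneg_left h6 hi0
        _ = _ := by ring
  rw [FP.E_add, FP.E_smul, FP.E_smul] at h3
  have h4 : P.E (fun w => ind (V w) * P.ce a u w) = P.Pr V * Q.E u := by
    rw [hQd, Pr_mul_cnd_E]
    exact P.E_mul_ce (Fac.ind hVa) u
  rw [h4] at h3
  have h5 := E_strong_log_le hQ X hB
  have h6 : P.Pr V * Q.E u ≤ P.Pr V * (2 * kl Q P X) := mul_le_mul_of_nonneg_left h5 hV.le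
  have h7 := mul_le_mul_of_nonneg_left h6 h0
  have h8 : Real.log A * P.E (fun w => ind (eta < P.ce a g w)) ≤ Real.log A * e :=
    mul_le_mul_of_nonneg_left he hlA
  have h9 := mul_le_mul_of_nonneg_left h1 hV.le
  linarith

/-- **KEY** -/
theorem hkey {a : Om → α} {X : Om → κ} {Y : Om → ι} {V : Om → Prop} (hVa : Ev a V) (hV : 0 < P.Pr V)
    (hci : P.CI a X Y) {B eta sig s A : ℝ} (hB : Real.exp 2 ≤ B) (h0 : 0 < eta) (h1 : eta ≤ 1)
    (hBe : 2 * Real.exp 1 ≤ B * eta) (hsig : 0 < sig) (hs : 0 ≤ s) (hA : 1 ≤ A)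
    (opX : ∀ y : Om → ℝ, Fac X y → P.E y = 0 → P.E (fun w => P.ce a y w ^ 2) ≤ s * P.E (fun w => y w ^ 2))
    (opY : ∀ y : Om → ℝ, Fac Y y → P.E y = 0 → P.E (fun w => P.ce a y w ^ 2) ≤ s * P.E (fun w => y w ^ 2))
    (ruleX : ∀ (S : Om → Prop) (hS : 0 < P.Pr S), Ev a S →
      kl (P.cnd S hS) P X ≤ sig * (Real.log (1 / P.Pr S) + 1))
    (ruleY : ∀ (S : Om → Prop) (hS : 0 < P.Pr S), Ev a S →
      kl (P.cnd S hS) P Y ≤ sig * (Real.log (1 / P.Pr S) + 1))
    (rX : ∀ w, P.p w ≠ 0 → dn (P.cnd V hV) P X w ≤ A)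
    (rY : ∀ w, P.p w ≠ 0 → dn (P.cnd V hV) P Y w ≤ A) :
    P.Pr V * (kl (P.cnd V hV) P X + kl (P.cnd V hV) P Y - kl (P.cnd V hV) P (fun w => (X w, Y w))) ≤
      (4 * eta + 2 * B * s) * (P.Pr V * (kl (P.cnd V hV) P X + kl (P.cnd V hV) P Y)) +
        (2 * A * B + 2 * A + Real.log A) * Real.exp (1 - 3 * eta ^ 2 / (16 * B * sig)) := by
  set Q := P.cnd V hV with hQd
  have hQ : Q.AC P := cnd_ac P V hV
  have hB1 : 1 ≤ B := by
    have := Real.add_one_le_exp 2
    linarith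
  have hB0 : 0 < B := by linarith
  have hA0 : 0 ≤ A := by linarith
  set r := dn Q P X with hr
  set t := dn Q P Y with ht
  set e := Real.exp (1 - 3 * eta ^ 2 / (16 * B * sig)) with he
  have he0 : 0 < e := Real.exp_pos _
  -- exceptional sets
  have hcmp : Real.exp (1 - eta / (2 * sig)) ≤ e := by
    rw [he, Real.exp_le_exp]
    have : 3 * eta ^ 2 / (16 * B * sig) ≤ eta / (2 * sig) := by
      rw [div_le_div_iff₀ (by positivity) (by positivity)]
      have h3 : eta ^ 2 ≤ eta := by nlinarith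
      have h4 : eta ≤ B * eta := le_mul_of_one_le_left h0.le hB1
      nlinarith [mul_pos h0 hsig, mul_le_mul_of_nonneg_right (h3.trans h4) hsig.le]
    linarith
  have x1 := (exc_strong hQ (a := a) (Y := X) hB0 h0 hBe hsig ruleX).trans hcmp
  have x2 := (exc_strong hQ (a := a) (Y := Y) hB0 h0 hBe hsig ruleY).trans hcmp
  have x3 := exc_weak hQ (a := a) (Y := X) hB1 h0 h1 hsig ruleX
  have x4 := exc_weak hQ (a := a) (Y := Y) hB1 h0 h1 hsig ruleY
  -- the terms
  have c1 := key_cov hQ hci hB hs opX opY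
  have c2 := key_sw hQ hci hB h0.le rX hA0 x4
  have c3 := key_sw hQ hci.symm hB h0.le rY hA0 x3
  have c4 := key_ss hQ hci hB h0.le rX hA0 x2
  have c5 := key_ss hQ hci.symm hB h0.le rY hA0 x1
  have c6 := key_loss hVa hV hci hB h0.le hA rX x2
  have hci' := cell_ineq hQ X Y hB1
  -- bilinear part
  set mX := P.E (fun v => hwk B (r v)) with hmX
  set mY := P.E (fun v => hwk B (t v)) with hmY
  have hX1 : P.E (fun w => hsg B (r w)) = 1 - mX := by
    have h2 : P.E (fun w => hsg B (r w)) = P.E (fun w => r w - hwk B (r w)) :=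
      P.E_congr (fun w _ => by linarith [hwk_add_hsg B (r w)])
    rw [h2, FP.E_sub, show P.E r = 1 from E_dn_one hQ X]
  have hY1 : P.E (fun w => hsg B (t w)) = 1 - mY := by
    have h2 : P.E (fun w => hsg B (t w)) = P.E (fun w => t w - hwk B (t w)) :=
      P.E_congr (fun w _ => by linarith [hwk_add_hsg B (t w)])
    rw [h2, FP.E_sub, show P.E t = 1 from E_dn_one hQ Y]
  have hX0 : 0 ≤ 1 - mX := by
    rw [← hX1]; exact P.E_nonneg (fun w _ => hsg_nonneg (dn_nonneg Q P X w))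
  have hY0 : 0 ≤ 1 - mY := by
    rw [← hY1]; exact P.E_nonneg (fun w _ => hsg_nonneg (dn_nonneg Q P Y w))
  have b1 : P.E (fun w => (r w - 1) * (t w - 1) * ind (¬ (B < r w ∧ B < t w))) ≤
      P.E (fun w => (hwk B (r w) - 1) * (hwk B (t w) - 1) + hsg B (r w) * (hwk B (t w) - 1) +
        hsg B (t w) * (hwk B (r w) - 1) + hsg B (r w) * ind (B < t w) + hsg B (t w) * ind (B < r w)) :=
    P.E_mono (fun w _ => key_point (dn_nonneg Q P X w) (dn_nonneg Q P Y w))
  have b2 : P.E (fun w => (hwk B (r w) - 1) * (hwk B (t w) - 1) + hsg B (r w) * (hwk B (t w) - 1) +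
        hsg B (t w) * (hwk B (r w) - 1) + hsg B (r w) * ind (B < t w) + hsg B (t w) * ind (B < r w)) =
      P.E (fun w => (hwk B (r w) - mX) * (hwk B (t w) - mY)) + P.E (fun w => hsg B (r w) * (hwk B (t w) - mY)) +
        P.E (fun w => hsg B (t w) * (hwk B (r w) - mX)) + P.E (fun w => hsg B (r w) * ind (B < t w)) +
        P.E (fun w => hsg B (t w) * ind (B < r w)) - (1 - mX) * (1 - mY) := by
    have e1 : P.E (fun w => (hwk B (r w) - 1) * (hwk B (t w) - 1)) =
        P.E (fun w => (hwk B (r w) - mX) * (hwk B (t w) - mY)) + (1 - mX) * (1 - mY) := by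
      have h2 : P.E (fun w => (hwk B (r w) - 1) * (hwk B (t w) - 1)) =
          P.E (fun w => (hwk B (r w) - mX) * (hwk B (t w) - mY) + ((mY - 1) * hwk B (r w) +
            ((mX - 1) * hwk B (t w) + (1 - mX * mY)))) := P.E_congr (fun w _ => by ring)
      rw [h2, FP.E_add, FP.E_add, FP.E_add, FP.E_smul, FP.E_smul, FP.E_const, ← hmX, ← hmY]; ring
    have e2 : P.E (fun w => hsg B (r w) * (hwk B (t w) - 1)) =
        P.E (fun w => hsg B (r w) * (hwk B (t w) - mY)) - (1 - mX) * (1 - mY) := by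
      have h2 : P.E (fun w => hsg B (r w) * (hwk B (t w) - 1)) =
          P.E (fun w => hsg B (r w) * (hwk B (t w) - mY) + (mY - 1) * hsg B (r w)) :=
        P.E_congr (fun w _ => by ring)
      rw [h2, FP.E_add, FP.E_smul, hX1]; ring
    have e3 : P.E (fun w => hsg B (t w) * (hwk B (r w) - 1)) =
        P.E (fun w => hsg B (t w) * (hwk B (r w) - mX)) - (1 - mX) * (1 - mY) := by
      have h2 : P.E (fun w => hsg B (t w) * (hwk B (r w) - 1)) =
          P.E (fun w => hsg B (t w) * (hwk B (r w) - mX) + (mX - 1) * hsg B (t w)) :=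
        P.E_congr (fun w _ => by ring)
      rw [h2, FP.E_add, FP.E_smul, hY1]; ring
    rw [FP.E_add, FP.E_add, FP.E_add, FP.E_add, e1, e2, e3]; ring
  have b3 : 0 ≤ (1 - mX) * (1 - mY) := mul_nonneg hX0 hY0
  have hkX := kl_nonneg hQ X
  have hkY := kl_nonneg hQ Y
  -- sum
  have hbil : P.E (fun w => (r w - 1) * (t w - 1) * ind (¬ (B < r w ∧ B < t w))) ≤
      (2 * eta + 2 * B * s) * (kl Q P X + kl Q P Y) + (2 * A * B + 2 * A) * e := by
    have hBs : 0 ≤ 1 / 2 * B * s * (kl Q P X + kl Q P Y) := by positivity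
    linarith
  have hV1 : P.Pr V ≤ 1 := P.Pr_le_one V
  have hfin := mul_le_mul_of_nonneg_left hbil hV.le
  have hci2 := mul_le_mul_of_nonneg_left hci' hV.le
  rw [mul_add (P.Pr V)] at hci2
  have herr : P.Pr V * ((2 * A * B + 2 * A) * e) ≤ (2 * A * B + 2 * A) * e :=
    mul_le_of_le_one_left (by positivity) hV1
  have hloss : 2 * eta * (P.Pr V * kl Q P X) ≤ 2 * eta * (P.Pr V * (kl Q P X + kl Q P Y)) :=
    mul_le_mul_of_nonneg_left (mul_le_mul_of_nonneg_left (by linarith) hV.le) (by positivity)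
  linarith

/-- **KEY** without strong letters -/
theorem hkey_weak {a : Om → α} {X : Om → κ} {Y : Om → ι} {V : Om → Prop} (hV : 0 < P.Pr V)
    (hci : P.CI a X Y) {B s : ℝ} (hB : Real.exp 2 ≤ B) (hs : 0 ≤ s)
    (opX : ∀ y : Om → ℝ, Fac X y → P.E y = 0 → P.E (fun w => P.ce a y w ^ 2) ≤ s * P.E (fun w => y w ^ 2))
    (opY : ∀ y : Om → ℝ, Fac Y y → P.E y = 0 → P.E (fun w => P.ce a y w ^ 2) ≤ s * P.E (fun w => y w ^ 2))
    (rX : ∀ w, P.p w ≠ 0 → dn (P.cnd V hV) P X w ≤ B)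
    (rY : ∀ w, P.p w ≠ 0 → dn (P.cnd V hV) P Y w ≤ B) :
    kl (P.cnd V hV) P X + kl (P.cnd V hV) P Y - kl (P.cnd V hV) P (fun w => (X w, Y w)) ≤
      2 * B * s * (kl (P.cnd V hV) P X + kl (P.cnd V hV) P Y) := by
  set Q := P.cnd V hV with hQd
  have hQ : Q.AC P := cnd_ac P V hV
  have hB0 : 0 < B := (Real.exp_pos 2).trans_le hB
  have c1 := key_cov hQ hci hB hs opX opY
  have hX : ∀ w, P.p w ≠ 0 → hwk B (dn Q P X w) = dn Q P X w := fun w hw => by
    unfold hwk; rw [ind_of (not_lt.2 (rX w hw)), one_mul]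
  have hY : ∀ w, P.p w ≠ 0 → hwk B (dn Q P Y w) = dn Q P Y w := fun w hw => by
    unfold hwk; rw [ind_of (not_lt.2 (rY w hw)), one_mul]
  have e1 : P.E (fun v => hwk B (dn Q P X v)) = 1 := by
    rw [← E_dn_one hQ X]; exact P.E_congr hX
  have e2 : P.E (fun v => hwk B (dn Q P Y v)) = 1 := by
    rw [← E_dn_one hQ Y]; exact P.E_congr hY
  rw [e1, e2] at c1
  have e3 : P.E (fun w => (hwk B (dn Q P X w) - 1) * (hwk B (dn Q P Y w) - 1)) =
      P.E (fun w => (dn Q P X w - 1) * (dn Q P Y w - 1)) :=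
    P.E_congr (fun w hw => by rw [hX w hw, hY w hw])
  rw [e3] at c1
  have h2 := cell_ineq_weak hQ X Y
  have hkX := kl_nonneg hQ X
  have hkY := kl_nonneg hQ Y
  have hBs : 0 ≤ 1 / 2 * B * s * (kl Q P X + kl Q P Y) := by positivity
  linarith

end key

end Pool.Agent.M3
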