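import Pool.Agent.M3.KL
import Pool.Agent.M3.Indep

/-!
# M3.S3Min: saturated partitions by minimisation (section 3)

`X` = hidden vertex with the public path, `Y` = (label, owner) of one side, `Z` = the same of the other side,
`W` = a partition which is a function of `X`.
`P.Sat tau X W Y Z`: every further partition `w` which is a function of `X` satisfies
`I(Y;w|W) + I(Z;w|W) <= tau H(w|W)`.

* `exists_sat`   : a saturated refinement `W` of `U` exists, with `tau H(W|U) <= I(Y;W|U) + I(Z;W|U)`;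
* `Sat.rule1`    : `KL(P_V(Y)|P_S(Y)) + KL(P_V(Z)|P_S(Z)) <= tau (log P(S)/P(V) + 1)` for events `V` of `X` inside a
                   class `S` of `W`;
* `Sat.rule2`    : `I_V(Y;G|C) <= tau (log P(S)/P(V) + 1 + log N)` for `G = g(X,C)` with at most `N` values on `V`
                   for each value of `C`, `C` independent of `(X,Y)` under `P_V`;
* `Sat.rule1_node`, `Sat.rule2_node` : the same in terms of the law `R` of one class of `W`;
* `Indep.cond`, `cond_cond`, `I_event_le`, `kl_restrict_le` (restriction to events, digits of `b`, `c`),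
  `I_freeze`, `E_freeze`, `I_owner_eq`, `I_owner_zero`, `I_owner_le` (owners).
-/

set_option autoImplicit false
set_option linter.unusedSectionVars false
set_option linter.style.haveILetI false
set_option linter.unusedVariables false

namespace Pool.Agent.M3

open Finset Pool.Agent.PWZ

variable {Om : Type*} [Fintype Om]

/-- saturation of the partition `W` -/
def FP.Sat (P : FP Om) (τ : ℝ) {κ ω ι ι' : Type*} (X : Om → κ) (W : Om → ω) (Y : Om → ι) (Z : Om → ι') : Prop :=
  ∀ w : Om → Om, Fac X w → P.I Y w W + P.I Z w W ≤ τ * P.Hc w W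

/-- every map has a code with values in `Om` -/
theorem exists_code [Nonempty Om] {κ : Type*} (X : Om → κ) : ∃ W : Om → Om, Fac X W ∧ Fac W X := by
  classical
  have key : ∀ v : Om, X (if h : ∃ u, X u = X v then h.choose else Classical.arbitrary Om) = X v := by
    intro v
    have h : ∃ u, X u = X v := ⟨v, rfl⟩
    rw [dif_pos h]
    exact h.choose_spec
  refine ⟨fun v => if h : ∃ u, X u = X v then h.choose else Classical.arbitrary Om, ?_, ?_⟩
  · intro v w h
    simp only [h]
  · intro v w h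
    rw [← key v, ← key w]
    exact congrArg X h

namespace FP

variable {P : FP Om} {κ ω ι ι' ι'' γ : Type*} {X : Om → κ} {W : Om → ω} {Y : Om → ι} {Z : Om → ι'}

theorem nonempty (P : FP Om) : Nonempty Om := ⟨P.exists_p_ne.choose⟩

theorem I_congr (P : FP Om) {X : Om → κ} {w : Om → ι} {w' : Om → ι'} {Z : Om → ω} (h : Fac w w') (h' : Fac w' w) :
    P.I X w Z = P.I X w' Z := by
  unfold I
  rw [P.H_congr (X := fun v => (w v, Z v)) (Y := fun v => (w' v, Z v)),
    P.H_congr (X := fun v => (X v, w v, Z v)) (Y := fun v => (X v, w' v, Z v))]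
  · exact (Fac.fst _ _).prod (((Fac.snd _ _).trans ((Fac.fst _ _).trans h)).prod ((Fac.snd _ _).trans (Fac.snd _ _)))
  · exact (Fac.fst _ _).prod (((Fac.snd _ _).trans ((Fac.fst _ _).trans h')).prod ((Fac.snd _ _).trans (Fac.snd _ _)))
  · exact ((Fac.fst _ _).trans h).prod (Fac.snd _ _)
  · exact ((Fac.fst _ _).trans h').prod (Fac.snd _ _)

theorem Hc_congr_right (P : FP Om) (T : Om → κ) {A : Om → ι} {B : Om → ι'} (h1 : Fac A B) (h2 : Fac B A) :
    P.Hc T A = P.Hc T B := P.Hc_congr (Fac.fst _ _) h1 (Fac.fst _ _) h2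

/-- saturation for partitions with arbitrary values -/
theorem Sat.gen {τ : ℝ} (h : P.Sat τ X W Y Z) {w : Om → γ} (hw : Fac X w) :
    P.I Y w W + P.I Z w W ≤ τ * P.Hc w W := by
  haveI := P.nonempty
  obtain ⟨w', h1, h2⟩ := exists_code w
  have := h w' (hw.trans h1)
  rw [P.I_congr (X := Y) h2 h1, P.I_congr (X := Z) h2 h1,
    P.Hc_congr (X := w') (Y := W) (X' := w) (Y' := W) ((Fac.fst _ _).trans h2) (Fac.refl _)
      ((Fac.fst _ _).trans h1) (Fac.refl _)] at this
  exact this

/-- a saturated refinement exists -/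
theorem exists_sat (P : FP Om) (τ : ℝ) {U : Om → ω} (hU : Fac X U) (Y : Om → ι) (Z : Om → ι') :
    ∃ W : Om → Om, Fac X W ∧ Fac W U ∧ P.Sat τ X W Y Z ∧ τ * P.Hc W U ≤ P.I Y W U + P.I Z W U := by
  classical
  haveI := P.nonempty
  let Φ : (Om → Om) → ℝ := fun W => τ * P.H W + P.Hc Y W + P.Hc Z W
  let s : Set (Om → Om) := {W | Fac X W ∧ Fac W U}
  have hne : s.Nonempty := by
    obtain ⟨W, h1, h2⟩ := exists_code U
    exact ⟨W, hU.trans h1, h2⟩
  obtain ⟨W, ⟨hW1, hW2⟩, hmin⟩ := Set.exists_min_image s Φ (Set.toFinite s) hne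
  refine ⟨W, hW1, hW2, ?_, ?_⟩
  · intro w hw
    obtain ⟨W', h1, h2⟩ := exists_code (fun v => (w v, W v))
    have hm := hmin W' ⟨(hw.prod hW1).trans h1, h2.trans ((Fac.snd _ _).trans hW2)⟩
    simp only [Φ] at hm
    rw [← P.H_congr h1 h2, ← P.Hc_congr_right Y h1 h2, ← P.Hc_congr_right Z h1 h2, P.H_chain] at hm
    rw [P.I_eq_Hc, P.I_eq_Hc]
    linarith
  · obtain ⟨U', h1, h2⟩ := exists_code U
    have hm := hmin U' ⟨hU.trans h1, h2⟩
    simp only [Φ] at hm
    rw [← P.H_congr h1 h2, ← P.Hc_congr_right Y h1 h2, ← P.Hc_congr_right Z h1 h2] at hm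
    have e1 : P.H (fun v => (W v, U v)) = P.H W := P.H_congr (Fac.fst _ _) ((Fac.refl W).prod hW2)
    have e2 : P.H (fun v => (W v, U v)) = P.H U + P.Hc W U := P.H_chain W U
    have e3 : P.Hc Y (fun v => (W v, U v)) = P.Hc Y W :=
      P.Hc_congr_right Y (Fac.fst _ _) ((Fac.refl W).prod hW2)
    have e4 : P.Hc Z (fun v => (W v, U v)) = P.Hc Z W :=
      P.Hc_congr_right Z (Fac.fst _ _) ((Fac.refl W).prod hW2)
    rw [P.I_eq_Hc, P.I_eq_Hc, e3, e4]
    have e5 : P.Hc W U = P.H W - P.H U := by linarith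
    rw [e5]
    linarith

/-! ## conditional laws of conditional laws -/

theorem cond_cond {V A : Om → Prop} (h : P.Pr (fun v => V v ∧ A v) ≠ 0) :
    (P.cond V).cond A = P.cond (fun v => V v ∧ A v) := by
  have hV : P.Pr V ≠ 0 := by
    intro h0
    apply h
    have h1 := P.Pr_mono (s := fun v => V v ∧ A v) (t := V) (fun _ _ h => h.1)
    exact le_antisymm (h0 ▸ h1) (P.Pr_nonneg _)
  have h2 : (P.cond V).Pr A = P.Pr (fun v => V v ∧ A v) / P.Pr V := by
    unfold Pr
    rw [cond_E hV]
    congr 1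
    exact P.E_congr (fun v _ => by rw [ind_and])
  have h3 : (P.cond V).Pr A ≠ 0 := by rw [h2]; exact div_ne_zero h hV
  have e : ((P.cond V).cond A).p = (P.cond (fun v => V v ∧ A v)).p := by
    funext v
    rw [cond_p h3, cond_p h, cond_p hV, h2, ind_and]
    field_simp
  cases hx : (P.cond V).cond A
  cases hy : P.cond (fun v => V v ∧ A v)
  rw [hx, hy] at e
  simp only at e
  subst e
  rfl

theorem cond_true (P : FP Om) : P.cond (fun _ => True) = P := by
  have h1 : P.Pr (fun _ => True) = 1 := by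
    unfold Pr
    rw [P.E_congr (g := fun _ => 1) (fun _ _ => ind_of trivial), E_const]
  have e : (P.cond (fun _ => True)).p = P.p := by
    funext v
    rw [cond_p (by rw [h1]; exact one_ne_zero), h1, ind_of trivial]
    ring
  cases hx : P.cond (fun _ => True)
  cases hy : P
  rw [hx, hy] at e
  simp only at e
  subst e
  rfl

theorem cond_Pr {V : Om → Prop} (h : P.Pr V ≠ 0) (A : Om → Prop) :
    (P.cond V).Pr A = P.Pr (fun v => V v ∧ A v) / P.Pr V := by
  unfold Pr
  rw [cond_E h]
  congr 1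
  exact P.E_congr (fun v _ => by rw [ind_and])

theorem Pr_mul_cond_E {V : Om → Prop} (h : P.Pr V ≠ 0) (f : Om → ℝ) :
    P.Pr V * (P.cond V).E f = P.E (fun w => ind (V w) * f w) := by
  rw [cond_E h]
  field_simp

/-- the information inside one class of the conditioning map -/
theorem I_class_le (P : FP Om) (X : Om → κ) (Y : Om → ι) (Z : Om → ι') {V : Om → Prop} {w0 : Om}
    (hV : ∀ v, V v ↔ Z v = Z w0) :
    P.Pr V * (P.cond V).I X Y (fun _ => ()) ≤ P.I X Y Z := by
  by_cases h : P.Pr V = 0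
  · rw [h, zero_mul]; exact P.I_nonneg X Y Z
  rw [P.I_eq_E_kl, (P.cond V).I_eq_E_kl, Pr_mul_cond_E h]
  refine P.E_mono (fun w hw => ?_)
  have hk : 0 ≤ (P.cond (fun v => (Y v, Z v) = (Y w, Z w))).kl (P.cond (fun v => Z v = Z w)) X := by
    refine kl_nonneg (fun u hu => ?_) X
    have h1 := (cond_p_ne (P.m_pos (fun v => (Y v, Z v)) hw).ne').1 hu
    refine (cond_p_ne (P.m_pos Z hw).ne').2 ⟨?_, h1.2⟩
    exact (Prod.mk.injEq _ _ _ _ ▸ h1.1 : _ ∧ _).2
  by_cases hVw : V w
  · rw [ind_of hVw, one_mul]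
    have hz : Z w = Z w0 := (hV w).1 hVw
    have e1 : (fun v => V v ∧ (Y v, ()) = (Y w, ())) = (fun v => (Y v, Z v) = (Y w, Z w)) := by
      funext v
      simp only [Prod.mk.injEq, and_true, hV v, hz]
      exact propext and_comm
    have e2 : (fun v => V v ∧ (() : Unit) = ()) = (fun v => Z v = Z w) := by
      funext v
      simp only [and_true, hV v, hz]
    rw [cond_cond (by rw [e1]; exact (P.m_pos (fun v => (Y v, Z v)) hw).ne'), e1,
      cond_cond (by rw [e2]; exact (P.m_pos Z hw).ne'), e2]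
  · rw [ind_not hVw, zero_mul]; exact hk

/-! ## rule 1 -/

/-- entropy of an event inside a class -/
theorem Hc_ev_le (P : FP Om) {V : Om → Prop} {w0 : Om} (hV : ∀ v, V v → W v = W w0) (hV0 : 0 < P.Pr V) :
    P.Hc V W ≤ P.Pr V * (Real.log (P.Pr (fun v => W v = W w0) / P.Pr V) + 1) := by
  classical
  set S : Om → Prop := fun v => W v = W w0 with hS
  have hS0 : 0 < P.Pr S := lt_of_lt_of_le hV0 (P.Pr_mono (fun v _ h => hV v h))
  -- pointwise form
  have e1 : P.Hc V W = P.E (fun w => Real.log (P.m W w / P.m (fun v => (V v, W v)) w)) := by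
    unfold Hc H
    rw [← E_sub]
    refine P.E_congr (fun w hw => ?_)
    rw [Real.log_div (P.m_pos W hw).ne' (P.m_pos (fun v => (V v, W v)) hw).ne']
    ring
  set R : Om → Prop := fun v => S v ∧ ¬ V v with hR
  have hsplit : P.Pr S = P.Pr V + P.Pr R := by
    unfold Pr
    rw [← E_add]
    refine P.E_congr (fun v _ => ?_)
    by_cases h1 : V v
    · rw [ind_of h1, ind_of (hV v h1 : S v), ind_not (fun h : R v => h.2 h1)]; ring
    · rw [ind_not h1, zero_add]
      congr 1
      exact propext ⟨fun h => ⟨h, h1⟩, fun h => h.1⟩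
  have e2 : ∀ w, P.p w ≠ 0 → Real.log (P.m W w / P.m (fun v => (V v, W v)) w) ≤
      ind (V w) * Real.log (P.Pr S / P.Pr V) + ind (R w) * (P.Pr V / P.Pr R) := by
    intro w hw
    by_cases hSw : S w
    · have hm : P.m W w = P.Pr S := by
        unfold m Pr
        refine P.E_congr (fun v _ => ?_)
        rw [hS]
        show ind (W v = W w) = ind (W v = W w0)
        rw [show W w = W w0 from hSw]
      by_cases hVw : V w
      · have hm2 : P.m (fun v => (V v, W v)) w = P.Pr V := by
          unfold m Pr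
          refine P.E_congr (fun v _ => ?_)
          congr 1
          refine propext ⟨fun h => ?_, fun h => ?_⟩
          · have := (Prod.mk.injEq _ _ _ _ ▸ h : _ ∧ _).1
            rw [this]; exact hVw
          · rw [Prod.mk.injEq]
            exact ⟨propext ⟨fun _ => hVw, fun _ => h⟩, by rw [hV v h, hV w hVw]⟩
        rw [hm, hm2, ind_of hVw, ind_not (fun h : R w => h.2 hVw)]
        linarith
      · have hRw : R w := ⟨hSw, hVw⟩
        have hm2 : P.m (fun v => (V v, W v)) w = P.Pr R := by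
          unfold m Pr
          refine P.E_congr (fun v _ => ?_)
          congr 1
          refine propext ⟨fun h => ?_, fun h => ?_⟩
          · have h' := (Prod.mk.injEq _ _ _ _ ▸ h : _ ∧ _)
            refine ⟨?_, ?_⟩
            · show W v = W w0
              rw [h'.2]; exact hSw
            · rw [h'.1]; exact hVw
          · rw [Prod.mk.injEq]
            exact ⟨propext ⟨fun h1 => absurd h1 h.2, fun h1 => absurd h1 hVw⟩, by
              rw [show W v = W w0 from h.1, show W w = W w0 from hSw]⟩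
        have hR0 : 0 < P.Pr R := Pr_pos_of hw hRw
        rw [hm, hm2, ind_not hVw, ind_of hRw, zero_mul, zero_add, one_mul]
        have h1 := Real.log_le_sub_one_of_pos (div_pos hS0 hR0)
        have h2 : P.Pr S / P.Pr R - 1 = P.Pr V / P.Pr R := by
          rw [hsplit]; field_simp; ring
        linarith
    · have hVw : ¬ V w := fun h => hSw (hV w h)
      have hm : P.m (fun v => (V v, W v)) w = P.m W w := by
        unfold m
        refine P.E_congr (fun v _ => ?_)
        congr 1
        refine propext ⟨fun h => (Prod.mk.injEq _ _ _ _ ▸ h : _ ∧ _).2, fun h => ?_⟩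
        rw [Prod.mk.injEq]
        refine ⟨propext ⟨fun h1 => absurd ?_ hSw, fun h1 => absurd h1 hVw⟩, h⟩
        show W w = W w0
        rw [← h]; exact hV v h1
      rw [hm, div_self (P.m_pos W hw).ne', Real.log_one, ind_not hVw, ind_not (fun h : R w => hSw h.1)]
      linarith
  rw [e1]
  refine (P.E_mono e2).trans ?_
  rw [E_add, E_mul_const, E_mul_const]
  change P.Pr V * _ + P.Pr R * (P.Pr V / P.Pr R) ≤ _
  by_cases hR0 : P.Pr R = 0
  · rw [hR0]; simp only [zero_mul, add_zero]; nlinarith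
  · have : P.Pr R * (P.Pr V / P.Pr R) = P.Pr V := by field_simp
    rw [this]; linarith

/-- the information of an event inside a class contains its relative entropy -/
theorem kl_event_le (P : FP Om) {V : Om → Prop} {w0 : Om} (hV : ∀ v, V v → W v = W w0) (Y : Om → ι) :
    P.Pr V * (P.cond V).kl (P.cond (fun v => W v = W w0)) Y ≤ P.I Y V W := by
  rw [P.I_eq_E_kl, Pr, ← E_mul_const]
  refine P.E_mono (fun w hw => ?_)
  by_cases hVw : V w
  · rw [ind_of hVw, one_mul]
    have e1 : (fun v => (V v, W v) = (V w, W w)) = V := by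
      funext v
      rw [Prod.mk.injEq]
      refine propext ⟨fun h => ?_, fun h => ⟨propext ⟨fun _ => hVw, fun _ => h⟩, by rw [hV v h, hV w hVw]⟩⟩
      rw [h.1]; exact hVw
    have e2 : (fun v => W v = W w) = (fun v => W v = W w0) := by
      rw [hV w hVw]
    rw [e1, e2]
  · rw [ind_not hVw, zero_mul]
    refine kl_nonneg (fun u hu => ?_) Y
    have h1 := (cond_p_ne (P.m_pos (fun v => (V v, W v)) hw).ne').1 hu
    refine (cond_p_ne (P.m_pos W hw).ne').2 ⟨?_, h1.2⟩
    exact (Prod.mk.injEq _ _ _ _ ▸ h1.1 : _ ∧ _).2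

/-- **rule 1** -/
theorem Sat.rule1 {τ : ℝ} (hτ : 0 ≤ τ) (h : P.Sat τ X W Y Z) {V : Om → Prop} {w0 : Om}
    (hX : ∀ v w, X v = X w → (V v ↔ V w)) (hV : ∀ v, V v → W v = W w0) (hV0 : 0 < P.Pr V) :
    (P.cond V).kl (P.cond (fun v => W v = W w0)) Y + (P.cond V).kl (P.cond (fun v => W v = W w0)) Z ≤
      τ * (Real.log (P.Pr (fun v => W v = W w0) / P.Pr V) + 1) := by
  have h1 := h.gen (w := V) (fun v w e => propext (hX v w e))
  have h2 := P.kl_event_le hV Y
  have h3 := P.kl_event_le hV Z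
  have h4 := mul_le_mul_of_nonneg_left (P.Hc_ev_le hV hV0) hτ
  refine le_of_mul_le_mul_left ?_ hV0
  calc _ = P.Pr V * (P.cond V).kl (P.cond (fun v => W v = W w0)) Y +
        P.Pr V * (P.cond V).kl (P.cond (fun v => W v = W w0)) Z := by ring
    _ ≤ τ * P.Hc V W := by linarith
    _ ≤ _ := by refine h4.trans (le_of_eq (by ring))


theorem Sat.symm {τ : ℝ} (h : P.Sat τ X W Y Z) : P.Sat τ X W Z Y := fun w hw => by
  have := h w hw
  linarith

/-! ## maps which agree on the support -/

theorem m_congr_supp {X : Om → κ} {X' : Om → ι} {w : Om}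
    (h : ∀ v, P.p v ≠ 0 → (X v = X w ↔ X' v = X' w)) : P.m X w = P.m X' w := by
  unfold m
  refine P.E_congr (fun v hv => ?_)
  rw [propext (h v hv)]

theorem H_congr_supp {X : Om → κ} {X' : Om → ι}
    (h : ∀ v w, P.p v ≠ 0 → P.p w ≠ 0 → (X v = X w ↔ X' v = X' w)) : P.H X = P.H X' := by
  unfold H
  refine P.E_congr (fun w hw => ?_)
  rw [P.m_congr_supp (fun v hv => h v w hv hw)]

theorem I_congr_supp {Y : Om → ι} {w : Om → κ} {w' : Om → γ} {Z : Om → ω}
    (h : ∀ v u, P.p v ≠ 0 → P.p u ≠ 0 → (w v = w u ↔ w' v = w' u)) : P.I Y w Z = P.I Y w' Z := by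
  unfold I
  rw [P.H_congr_supp (X := fun v => (w v, Z v)) (X' := fun v => (w' v, Z v)),
    P.H_congr_supp (X := fun v => (Y v, w v, Z v)) (X' := fun v => (Y v, w' v, Z v))]
  · intro v u hv hu; simp only [Prod.mk.injEq, h v u hv hu]
  · intro v u hv hu; simp only [Prod.mk.injEq, h v u hv hu]

/-! ## freezing -/

/-- freezing an independent variable -/
theorem E_freeze {X : Om → κ} {C : Om → ι} (h : P.Indep X C) {F : ι → Om → ℝ} (hF : ∀ c, Fac X (F c)) :
    P.E (fun w => F (C w) w) = P.E (fun u => P.E (fun w => F (C u) w)) := by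
  have h1 : P.E (fun w => F (C w) w) =
      P.E (fun w => P.E (fun u => F (C u) w * ind (C w = C u) / P.m C u)) := by
    refine P.E_congr (fun w hw => ?_)
    exact P.eq_E_fibre (q := fun u => F (C u) w) (Z := C) (fun v v' e => by dsimp only; rw [e]) hw
  rw [h1, E_swap]
  refine P.E_congr (fun u hu => ?_)
  have h2 := h (fun w => F (C u) w) (fun w => ind (C w = C u)) (hF _) (Fac.ind (fun v v' e => by rw [e]))
  rw [E_div_const, h2]
  change P.E _ * P.m C u / P.m C u = _
  field_simp [(P.m_pos C hu).ne']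

/-- joint support of independent maps -/
theorem exists_joint {X : Om → κ} {C : Om → ι} (h : P.Indep X C) {u v : Om} (hu : P.p u ≠ 0) (hv : P.p v ≠ 0) :
    ∃ w, P.p w ≠ 0 ∧ X w = X u ∧ C w = C v := by
  by_contra hcon
  push Not at hcon
  have h1 := h (fun w => ind (X w = X u)) (fun w => ind (C w = C v)) (Fac.ind (fun v v' e => by rw [e]))
    (Fac.ind (fun v v' e => by rw [e]))
  have h2 : P.E (fun w => ind (X w = X u) * ind (C w = C v)) = 0 := by
    rw [← P.E_const 0]
    refine P.E_congr (fun w hw => ?_)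
    by_cases hx : X w = X u
    · rw [ind_not (hcon w hw hx), mul_zero]
    · rw [ind_not hx, zero_mul]
  rw [h2] at h1
  have h3 := P.m_pos X hu
  have h4 := P.m_pos C hv
  have : 0 < P.m X u * P.m C v := mul_pos h3 h4
  unfold m at this
  linarith

/-- integrand of the information -/
theorem I_eq_E_log (P : FP Om) (X : Om → κ) (Y : Om → ι) (Z : Om → ι') :
    P.I X Y Z = P.E (fun w => Real.log (P.m (fun v => (X v, Y v, Z v)) w * P.m Z w /
      (P.m (fun v => (X v, Z v)) w * P.m (fun v => (Y v, Z v)) w))) := by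
  unfold I H
  rw [← E_add, ← E_sub, ← E_sub]
  refine P.E_congr (fun w hw => ?_)
  have a := (P.m_pos (fun v => (X v, Y v, Z v)) hw).ne'
  have b := (P.m_pos Z hw).ne'
  have c := (P.m_pos (fun v => (X v, Z v)) hw).ne'
  have d := (P.m_pos (fun v => (Y v, Z v)) hw).ne'
  rw [Real.log_div (mul_ne_zero a b) (mul_ne_zero c d), Real.log_mul a b, Real.log_mul c d]
  ring

/-- joint masses of independent maps -/
theorem m_mul_indep {XY : Om → κ} {C : Om → ι} (h : P.Indep XY C) {T : Om → γ} (hT : Fac XY T) (w : Om) :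
    P.E (fun v => ind (T v = T w) * ind (C v = C w)) = P.m T w * P.m C w :=
  h (fun v => ind (T v = T w)) (fun v => ind (C v = C w)) (Fac.ind (fun v v' e => by rw [hT v v' e]))
    (Fac.ind (fun v v' e => by rw [e]))

/-- information given an independent variable `C` of a function of `(X,C)`: average over the frozen values -/
theorem I_freeze {R : FP Om} {X : Om → κ} {Y : Om → ι} {C : Om → ι'} (h : R.Indep (fun w => (X w, Y w)) C)
    (g : κ → ι' → γ) :
    R.I Y (fun v => g (X v) (C v)) C = R.E (fun u => R.I Y (fun v => g (X v) (C u)) (fun _ => ())) := by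
  classical
  set XY : Om → κ × ι := fun w => (X w, Y w) with hXY
  -- the frozen integrand
  let F : ι' → Om → ℝ := fun c w => Real.log (R.m (fun v => (Y v, g (X v) c)) w /
    (R.m Y w * R.m (fun v => g (X v) c) w))
  have hF : ∀ c, Fac XY (F c) := by
    intro c v w e
    have e1 : X v = X w := (Prod.mk.injEq _ _ _ _ ▸ e : _ ∧ _).1
    have e2 : Y v = Y w := (Prod.mk.injEq _ _ _ _ ▸ e : _ ∧ _).2
    simp only [F]
    rw [R.Fac_m (fun v => (Y v, g (X v) c)) v w (by dsimp only; rw [e1, e2]), R.Fac_m Y v w e2,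
      R.Fac_m (fun v => g (X v) c) v w (by dsimp only; rw [e1])]
  have m1 : ∀ w, R.m (fun v => (Y v, g (X v) (C v), C v)) w = R.m (fun v => (Y v, g (X v) (C w))) w * R.m C w := by
    intro w
    rw [← m_mul_indep h (T := fun v => (Y v, g (X v) (C w))) (fun v v' e => by
      simp only [hXY, Prod.mk.injEq] at e ⊢; exact ⟨e.2, by rw [e.1]⟩) w]
    unfold m
    refine R.E_congr (fun v _ => ?_)
    rw [← ind_and]
    congr 1
    refine propext ⟨fun e => ?_, fun e => ?_⟩
    · simp only [Prod.mk.injEq] at e ⊢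
      refine ⟨⟨e.1, ?_⟩, e.2.2⟩
      rw [← e.2.2]; rw [e.2.1, e.2.2]
    · simp only [Prod.mk.injEq] at e ⊢
      exact ⟨e.1.1, by rw [e.2]; exact e.1.2, e.2⟩
  have m2 : ∀ w, R.m (fun v => (Y v, C v)) w = R.m Y w * R.m C w := by
    intro w
    rw [← m_mul_indep h (T := Y) (Fac.snd X Y) w]
    unfold m
    refine R.E_congr (fun v _ => ?_)
    rw [← ind_and, Prod.mk.injEq]
  have m3 : ∀ w, R.m (fun v => (g (X v) (C v), C v)) w = R.m (fun v => g (X v) (C w)) w * R.m C w := by
    intro w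
    rw [← m_mul_indep h (T := fun v => g (X v) (C w)) (fun v v' e => by
      simp only [hXY, Prod.mk.injEq] at e; dsimp only; rw [e.1]) w]
    unfold m
    refine R.E_congr (fun v _ => ?_)
    rw [← ind_and]
    congr 1
    refine propext ⟨fun e => ?_, fun e => ?_⟩
    · simp only [Prod.mk.injEq] at e ⊢
      refine ⟨?_, e.2⟩
      rw [← e.2]; rw [e.1, e.2]
    · simp only [Prod.mk.injEq] at e ⊢
      exact ⟨by rw [e.2]; exact e.1, e.2⟩
  have e1 : R.I Y (fun v => g (X v) (C v)) C = R.E (fun w => F (C w) w) := by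
    rw [R.I_eq_E_log]
    refine R.E_congr (fun w hw => ?_)
    simp only [F]
    rw [m1, m2, m3]
    have := (R.m_pos C hw).ne'
    have := (R.m_pos Y hw).ne'
    have := (R.m_pos (fun v => g (X v) (C w)) hw).ne'
    congr 1
    field_simp
  rw [e1, R.E_freeze h hF]
  refine R.E_congr (fun u hu => ?_)
  rw [R.I_eq_E_log]
  refine R.E_congr (fun w hw => ?_)
  simp only [F]
  have a1 : R.m (fun v => (Y v, g (X v) (C u), ())) w = R.m (fun v => (Y v, g (X v) (C u))) w :=
    R.m_congr_supp (fun v _ => by simp only [Prod.mk.injEq, and_true])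
  have a2 : R.m (fun v => (Y v, ())) w = R.m Y w :=
    R.m_congr_supp (fun v _ => by simp only [Prod.mk.injEq, and_true])
  have a3 : R.m (fun v => (g (X v) (C u), ())) w = R.m (fun v => g (X v) (C u)) w :=
    R.m_congr_supp (fun v _ => by simp only [Prod.mk.injEq, and_true])
  have a4 : R.m (fun _ => ()) w = 1 := by
    unfold m
    simp only [ind_of, E_const]
  rw [a1, a2, a3, a4, mul_one]

/-! ## rule 2 -/

/-- entropy inside one class -/
theorem Hc_class_eq (P : FP Om) (X : Om → κ) (Z : Om → ι') {V : Om → Prop} {w0 : Om}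
    (hV : ∀ v, V v ↔ Z v = Z w0) (hV0 : P.Pr V ≠ 0)
    (hoff : ∀ v w, ¬ V v → ¬ V w → X v = X w) :
    P.Hc X Z = P.Pr V * (P.cond V).H X := by
  unfold Hc H
  rw [Pr_mul_cond_E hV0, ← E_sub]
  refine P.E_congr (fun w hw => ?_)
  by_cases hVw : V w
  · have h1 : P.m Z w = P.Pr V := by
      unfold m Pr
      refine P.E_congr (fun v _ => ?_)
      rw [show (V v) = (Z v = Z w0) from propext (hV v), (hV w).1 hVw]
    have h2 : (P.cond V).m X w = P.m (fun v => (X v, Z v)) w / P.Pr V := by
      rw [cond_m hV0]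
      congr 1
      unfold m
      refine P.E_congr (fun v _ => ?_)
      rw [← ind_and, Prod.mk.injEq]
      congr 1
      refine propext ⟨fun h => ⟨h.2, by rw [(hV v).1 h.1, (hV w).1 hVw]⟩, fun h => ⟨?_, h.1⟩⟩
      rw [hV v, h.2, (hV w).1 hVw]
    rw [ind_of hVw, one_mul, h1, h2, Real.log_div (P.m_pos (fun v => (X v, Z v)) hw).ne' hV0]
    ring
  · have h1 : P.m (fun v => (X v, Z v)) w = P.m Z w := by
      refine P.m_congr_supp (fun v _ => ?_)
      rw [Prod.mk.injEq]
      refine ⟨fun h => h.2, fun h => ⟨hoff v w ?_ hVw, h⟩⟩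
      intro hVv
      apply hVw
      rw [hV w, ← h, (hV v).1 hVv]
    rw [ind_not hVw, zero_mul, h1]
    ring

/-- **rule 2**, one frozen value: `T` finite set of values of `G` -/
theorem Sat.rule2_one {τ : ℝ} (hτ : 0 ≤ τ) (h : P.Sat τ X W Y Z) {V : Om → Prop} {w0 : Om}
    (hX : ∀ v w, X v = X w → (V v ↔ V w)) (hV : ∀ v, V v → W v = W w0) (hV0 : 0 < P.Pr V)
    {G : Om → γ} (hG : Fac X G) {B : ℝ} (hB : (P.cond V).H G ≤ B) :
    (P.cond V).I Y G (fun _ => ()) ≤ τ * (Real.log (P.Pr (fun v => W v = W w0) / P.Pr V) + 1 + B) := by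
  classical
  obtain ⟨w1, hw1, hVw1⟩ : ∃ w1, P.p w1 ≠ 0 ∧ V w1 := by
    by_contra hcon
    push Not at hcon
    have : P.Pr V = 0 := by
      unfold Pr
      rw [← P.E_const 0]
      exact P.E_congr (fun v hv => ind_not (hcon v hv))
    linarith
  let w : Om → Option γ := fun v => if V v then some (G v) else none
  have hw : Fac X w := by
    intro v u e
    simp only [w]
    by_cases hv : V v
    · rw [if_pos hv, if_pos ((hX v u e).1 hv), hG v u e]
    · rw [if_neg hv, if_neg (fun h => hv ((hX v u e).2 h))]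
  have hwV : Fac w V := by
    intro v u e
    simp only [w] at e
    by_cases hv : V v
    · by_cases hu : V u
      · exact propext ⟨fun _ => hu, fun _ => hv⟩
      · rw [if_pos hv, if_neg hu] at e; cases e
    · by_cases hu : V u
      · rw [if_neg hv, if_pos hu] at e; cases e
      · exact propext ⟨fun h => absurd h hv, fun h => absurd h hu⟩
  have h1 := h.gen hw
  have h2 : 0 ≤ P.I Z w W := P.I_nonneg _ _ _
  -- information
  have h3 : P.I Y w (fun v => (V v, W v)) ≤ P.I Y w W := by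
    have e1 := P.I_chain w V Y W
    have e2 : P.I (fun v => (w v, V v)) Y W = P.I w Y W := by
      rw [P.I_comm, P.I_comm w]
      exact P.I_congr (Fac.fst _ _) ((Fac.refl w).prod hwV)
    have e3 := P.I_nonneg V Y W
    rw [P.I_comm Y w W, P.I_comm Y w]
    linarith
  have hcl : ∀ v, V v ↔ (V v, W v) = (V w1, W w1) := by
    intro v
    rw [Prod.mk.injEq]
    refine ⟨fun hv => ⟨propext ⟨fun _ => hVw1, fun _ => hv⟩, by rw [hV v hv, hV w1 hVw1]⟩, fun e => ?_⟩
    rw [e.1]; exact hVw1
  have h4 := P.I_class_le Y w (fun v => (V v, W v)) hcl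
  have h5 : (P.cond V).I Y w (fun _ => ()) = (P.cond V).I Y G (fun _ => ()) := by
    refine (P.cond V).I_congr_supp (fun v u hv hu => ?_)
    have hv' := ((cond_p_ne hV0.ne').1 hv).1
    have hu' := ((cond_p_ne hV0.ne').1 hu).1
    simp only [w]
    rw [if_pos hv', if_pos hu', Option.some.injEq]
  rw [h5] at h4
  -- entropy
  have h6 : P.Hc w W = P.Hc V W + P.Hc w (fun v => (V v, W v)) := by
    rw [← P.Hc_chain w V W]
    exact P.Hc_congr ((Fac.fst _ _).trans ((Fac.refl w).prod hwV)) (Fac.refl _)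
      ((Fac.fst _ _).trans (Fac.fst _ _)) (Fac.refl _)
  have h7 : P.Hc w (fun v => (V v, W v)) = P.Pr V * (P.cond V).H w :=
    P.Hc_class_eq w (fun v => (V v, W v)) hcl hV0.ne' (fun v u hv hu => by
      simp only [w]; rw [if_neg hv, if_neg hu])
  have h8 : (P.cond V).H w = (P.cond V).H G := by
    refine (P.cond V).H_congr_supp (fun v u hv hu => ?_)
    have hv' := ((cond_p_ne hV0.ne').1 hv).1
    have hu' := ((cond_p_ne hV0.ne').1 hu).1
    simp only [w]
    rw [if_pos hv', if_pos hu', Option.some.injEq]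
  have h9 := P.Hc_ev_le hV hV0
  have h10 : P.Hc w W ≤ P.Pr V * (Real.log (P.Pr (fun v => W v = W w0) / P.Pr V) + 1 + B) := by
    rw [h6, h7, h8]
    have := mul_le_mul_of_nonneg_left hB hV0.le
    nlinarith
  refine le_of_mul_le_mul_left ?_ hV0
  calc _ ≤ P.I Y w W := h4.trans h3
    _ ≤ τ * P.Hc w W := by linarith
    _ ≤ τ * _ := mul_le_mul_of_nonneg_left h10 hτ
    _ = _ := by ring

/-- **rule 2** -/
theorem Sat.rule2 {τ : ℝ} (hτ : 0 ≤ τ) (h : P.Sat τ X W Y Z) {V : Om → Prop} {w0 : Om}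
    (hX : ∀ v w, X v = X w → (V v ↔ V w)) (hV : ∀ v, V v → W v = W w0) (hV0 : 0 < P.Pr V)
    {C : Om → ι''} {G : Om → γ} (hG : Fac (fun v => (X v, C v)) G)
    (hind : (P.cond V).Indep (fun v => (X v, Y v)) C) {N : ℝ}
    (hN : ∀ c, ∃ T : Finset γ, (T.card : ℝ) ≤ N ∧ ∀ v, V v → P.p v ≠ 0 → C v = c → G v ∈ T) :
    (P.cond V).I Y G C ≤ τ * (Real.log (P.Pr (fun v => W v = W w0) / P.Pr V) + 1 + Real.log N) := by
  classical
  haveI := P.nonempty
  set R := P.cond V with hR
  let g : κ → ι'' → γ := fun x c => if hx : ∃ v, X v = x ∧ C v = c then G hx.choose else G (Classical.arbitrary Om)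
  have hg : ∀ v w, X w = X v → G v = g (X w) (C v) := by
    intro v w e
    have hx : ∃ u, X u = X w ∧ C u = C v := ⟨v, e.symm, rfl⟩
    simp only [g]
    rw [dif_pos hx]
    have := hx.choose_spec
    refine hG v hx.choose ?_
    rw [Prod.mk.injEq]
    exact ⟨by rw [this.1, e], this.2.symm⟩
  have e0 : G = fun v => g (X v) (C v) := funext (fun v => hg v v rfl)
  rw [e0, R.I_freeze hind g]
  refine R.E_le_const (fun u hu => ?_)
  obtain ⟨T, hT1, hT2⟩ := hN (C u)
  refine h.rule2_one hτ hX hV hV0 (G := fun v => g (X v) (C u)) (fun v w e => by dsimp only; rw [e]) ?_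
  have hmem : ∀ w, R.p w ≠ 0 → g (X w) (C u) ∈ T := by
    intro w hw
    obtain ⟨v, hv, hv1, hv2⟩ := exists_joint (hind.mono (Fac.fst X Y) (Fac.refl C)) hw hu
    have hv' := (cond_p_ne hV0.ne').1 hv
    have := hT2 v hv'.1 hv'.2 hv2
    rw [hg v w hv1.symm, hv2] at this
    exact this
  refine (R.H_le_log_image _ T hmem).trans ?_
  obtain ⟨w, hw⟩ := R.exists_p_ne
  have hpos : 0 < T.card := Finset.card_pos.2 ⟨_, hmem w hw⟩
  exact Real.log_le_log (by exact_mod_cast hpos) hT1

/-! ## restriction to events of the conditioning map -/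

/-- the information given `Z` on an event of `Z` -/
theorem I_event_le (P : FP Om) (X : Om → κ) (Y : Om → ι) (Z : Om → ι') {V : Om → Prop}
    (hV : ∀ v w, Z v = Z w → (V v ↔ V w)) :
    P.Pr V * (P.cond V).I X Y Z ≤ P.I X Y Z := by
  by_cases h : P.Pr V = 0
  · rw [h, zero_mul]; exact P.I_nonneg X Y Z
  rw [P.I_eq_E_kl, (P.cond V).I_eq_E_kl, Pr_mul_cond_E h]
  refine P.E_mono (fun w hw => ?_)
  have hk : 0 ≤ (P.cond (fun v => (Y v, Z v) = (Y w, Z w))).kl (P.cond (fun v => Z v = Z w)) X := by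
    refine kl_nonneg (fun u hu => ?_) X
    have h1 := (cond_p_ne (P.m_pos (fun v => (Y v, Z v)) hw).ne').1 hu
    refine (cond_p_ne (P.m_pos Z hw).ne').2 ⟨?_, h1.2⟩
    exact (Prod.mk.injEq _ _ _ _ ▸ h1.1 : _ ∧ _).2
  by_cases hVw : V w
  · rw [ind_of hVw, one_mul]
    have e1 : (fun v => V v ∧ (Y v, Z v) = (Y w, Z w)) = (fun v => (Y v, Z v) = (Y w, Z w)) := by
      funext v
      refine propext ⟨fun h => h.2, fun h => ⟨?_, h⟩⟩
      rw [hV v w (Prod.mk.injEq _ _ _ _ ▸ h : _ ∧ _).2]; exact hVw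
    have e2 : (fun v => V v ∧ Z v = Z w) = (fun v => Z v = Z w) := by
      funext v
      refine propext ⟨fun h => h.2, fun h => ⟨?_, h⟩⟩
      rw [hV v w h]; exact hVw
    rw [cond_cond (by rw [e1]; exact (P.m_pos (fun v => (Y v, Z v)) hw).ne'), e1,
      cond_cond (by rw [e2]; exact (P.m_pos Z hw).ne'), e2]
  · rw [ind_not hVw, zero_mul]; exact hk

/-- information in the label given the owner, from the pair -/
theorem I_owner_le (P : FP Om) (F : Om → κ) (B : Om → ω) (G : Om → ι) (C : Om → ι') :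
    P.I F G (fun w => (B w, C w)) ≤ P.I (fun w => (F w, B w)) G C := by
  have h1 := P.I_chain F B G C
  have h2 := P.I_nonneg B G C
  linarith

/-- relative entropy restricted to an event of the map with the same mass under both laws -/
theorem kl_restrict_le {Q : FP Om} (hac : P.Ac Q) {Y : Om → ι} {A : Om → Prop}
    (hA : ∀ v w, Y v = Y w → (A v ↔ A w)) (hm : P.Pr A = Q.Pr A) :
    P.Pr A * (P.cond A).kl (Q.cond A) Y ≤ P.kl Q Y := by
  by_cases h : P.Pr A = 0
  · rw [h, zero_mul]; exact kl_nonneg hac Y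
  have hq : Q.Pr A ≠ 0 := by rw [← hm]; exact h
  have key : ∀ {A : Om → Prop} (hA : ∀ v w, Y v = Y w → (A v ↔ A w)) (hm : P.Pr A = Q.Pr A) (h : P.Pr A ≠ 0),
      P.Pr A * (P.cond A).kl (Q.cond A) Y = P.E (fun w => ind (A w) * Real.log (P.m Y w / Q.m Y w)) := by
    intro A hA hm h
    have hq : Q.Pr A ≠ 0 := by rw [← hm]; exact h
    unfold kl
    rw [Pr_mul_cond_E h]
    refine P.E_congr (fun w hw => ?_)
    by_cases hw' : A w
    · have h1 : ∀ (P : FP Om), P.Pr A ≠ 0 → (P.cond A).m Y w = P.m Y w / P.Pr A := by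
        intro P hp
        rw [cond_m hp]
        congr 1
        unfold m
        refine P.E_congr (fun v _ => ?_)
        rw [← ind_and]
        congr 1
        refine propext ⟨fun h => h.2, fun h => ⟨?_, h⟩⟩
        rw [hA v w h]; exact hw'
      rw [h1 P h, h1 Q hq, ← hm]
      have a := (P.m_pos Y hw).ne'
      have b := (Q.m_pos Y (hac w hw)).ne'
      congr 2
      field_simp
    · rw [ind_not hw', zero_mul, zero_mul]
  rw [key hA hm h]
  have h2 : P.kl Q Y = P.E (fun w => ind (A w) * Real.log (P.m Y w / Q.m Y w)) +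
      P.E (fun w => ind (¬ A w) * Real.log (P.m Y w / Q.m Y w)) := by
    unfold kl
    rw [← E_add]
    refine P.E_congr (fun w _ => ?_)
    rw [ind_not_eq]; ring
  have h3 : 0 ≤ P.E (fun w => ind (¬ A w) * Real.log (P.m Y w / Q.m Y w)) := by
    have hm' : P.Pr (fun v => ¬ A v) = Q.Pr (fun v => ¬ A v) := by rw [P.Pr_not, Q.Pr_not, hm]
    by_cases h' : P.Pr (fun v => ¬ A v) = 0
    · refine le_of_eq ?_
      rw [← P.E_const 0]
      refine (P.E_congr (fun w hw => ?_)).symm
      have : A w := by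
        by_contra hcon
        have := P.Pr_pos_of hw (S := fun v => ¬ A v) hcon
        linarith
      rw [ind_not (fun hn => hn this), zero_mul]
    · rw [← key (fun v w e => not_congr (hA v w e)) hm' h']
      refine mul_nonneg (P.Pr_nonneg _) (kl_nonneg (fun u hu => ?_) Y)
      have h1 := (cond_p_ne h').1 hu
      exact (cond_p_ne (by rw [← hm']; exact h')).2 ⟨h1.1, hac u h1.2⟩
  rw [h2]
  linarith

/-! ## node form: everything under the law of one class -/

/-- conditioning on an event of one of two independent maps -/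
theorem Indep.cond {X : Om → κ} {C : Om → ι} (h : P.Indep X C) {V : Om → Prop}
    (hV : ∀ v w, X v = X w → (V v ↔ V w)) : (P.cond V).Indep X C := by
  by_cases h0 : P.Pr V = 0
  · have : P.cond V = P := by unfold FP.cond; rw [dif_pos h0]
    rw [this]; exact h
  intro f g hf hg
  rw [cond_E h0, cond_E h0, cond_E h0]
  have h1 := h (fun w => ind (V w) * f w) g (Fac.mul (Fac.ind hV) hf) hg
  have h2 := h (fun w => ind (V w)) g (Fac.ind hV) hg
  have e1 : P.E (fun w => ind (V w) * (f w * g w)) = P.E (fun w => ind (V w) * f w) * P.E g := by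
    rw [← h1]
    exact P.E_congr (fun w _ => by ring)
  rw [e1, h2]
  change _ = _ * (P.Pr V * P.E g / P.Pr V)
  field_simp

/-- **rule 1, node form**: `R` = law of the class of `w0` -/
theorem Sat.rule1_node {τ : ℝ} (hτ : 0 ≤ τ) (h : P.Sat τ X W Y Z) {w0 : Om} (hw0 : P.p w0 ≠ 0) (hXW : Fac X W)
    {V : Om → Prop} (hX : ∀ v w, X v = X w → (V v ↔ V w)) {R : FP Om} (hR : R = P.cond (fun v => W v = W w0))
    (hV0 : 0 < R.Pr V) :
    (R.cond V).kl R Y + (R.cond V).kl R Z ≤ τ * (- Real.log (R.Pr V) + 1) := by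
  subst hR
  have hS := P.m_pos W hw0
  have hS' : P.Pr (fun v => W v = W w0) ≠ 0 := hS.ne'
  have e := cond_Pr hS' V
  have hVS : 0 < P.Pr (fun v => W v = W w0 ∧ V v) := by
    rw [e] at hV0
    rcases lt_or_eq_of_le (P.Pr_nonneg (fun v => W v = W w0 ∧ V v)) with h1 | h1
    · exact h1
    · rw [← h1, zero_div] at hV0; exact absurd hV0 (lt_irrefl 0)
  have h1 := h.rule1 hτ (V := fun v => W v = W w0 ∧ V v) (w0 := w0)
    (fun v w ex => by rw [hXW v w ex, hX v w ex]) (fun v hv => hv.1) hVS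
  rw [cond_cond hVS.ne', e, ← Real.log_inv, inv_div]
  exact h1

/-- **rule 2, node form** -/
theorem Sat.rule2_node {τ : ℝ} (hτ : 0 ≤ τ) (h : P.Sat τ X W Y Z) {w0 : Om} (hw0 : P.p w0 ≠ 0) (hXW : Fac X W)
    {V : Om → Prop} (hX : ∀ v w, X v = X w → (V v ↔ V w)) {R : FP Om} (hR : R = P.cond (fun v => W v = W w0))
    (hV0 : 0 < R.Pr V) {C : Om → ι''} {G : Om → γ} (hG : Fac (fun v => (X v, C v)) G)
    (hind : R.Indep (fun v => (X v, Y v)) C) {N : ℝ}
    (hN : ∀ c, ∃ T : Finset γ, (T.card : ℝ) ≤ N ∧ ∀ v, V v → R.p v ≠ 0 → C v = c → G v ∈ T) :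
    (R.cond V).I Y G C ≤ τ * (- Real.log (R.Pr V) + 1 + Real.log N) := by
  subst hR
  have hS := P.m_pos W hw0
  have hS' : P.Pr (fun v => W v = W w0) ≠ 0 := hS.ne'
  have e := cond_Pr hS' V
  have hVS : 0 < P.Pr (fun v => W v = W w0 ∧ V v) := by
    rw [e] at hV0
    rcases lt_or_eq_of_le (P.Pr_nonneg (fun v => W v = W w0 ∧ V v)) with h1 | h1
    · exact h1
    · rw [← h1, zero_div] at hV0; exact absurd hV0 (lt_irrefl 0)
  have hind' := hind.cond (V := V) (fun v w ex => hX v w (Prod.mk.injEq _ _ _ _ ▸ ex : _ ∧ _).1)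
  rw [cond_cond hVS.ne'] at hind' ⊢
  have h1 := h.rule2 hτ (V := fun v => W v = W w0 ∧ V v) (w0 := w0)
    (fun v w ex => by rw [hXW v w ex, hX v w ex]) (fun v hv => hv.1) hVS hG hind' (N := N) (fun c => by
      obtain ⟨T, hT1, hT2⟩ := hN c
      exact ⟨T, hT1, fun v hv hp hc => hT2 v hv.2 ((cond_p_ne hS').2 ⟨hv.1, hp⟩) hc⟩)
  rw [e, ← Real.log_inv, inv_div]
  exact h1

/-! ## owners -/

theorem I_owner_eq (P : FP Om) (F : Om → κ) {B : Om → ω} {w : Om → ι} {W : Om → ι'} (h : P.I B w W = 0) :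
    P.I (fun v => (F v, B v)) w W = P.I F w (fun v => (B v, W v)) := by
  rw [P.I_chain, h, zero_add]

/-- an owner which is independent of `X` given `Q` has no information on functions of `X`, given functions of `X`
finer than `Q` -/
theorem I_owner_zero (P : FP Om) {B : Om → ω} {X : Om → κ} {Q : Om → γ} {w : Om → ι} {W : Om → ι'}
    (h : P.I B X Q = 0) (hw : Fac X w) (hW : Fac X W) (hQ : Fac W Q) : P.I B w W = 0 := by
  refine le_antisymm ?_ (P.I_nonneg _ _ _)
  have h1 : P.I (fun v => (w v, W v)) B Q ≤ P.I X B Q :=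
    P.I_mono B ((Fac.fst X Q).trans (hw.prod hW))
  have h2 := P.I_chain w W B Q
  have h3 := P.I_nonneg W B Q
  have h4 : P.I w B (fun v => (W v, Q v)) = P.I w B W :=
    P.I_congr_cond (Fac.fst W Q) ((Fac.refl W).prod hQ)
  rw [P.I_comm X B, h] at h1
  rw [P.I_comm B w, ← h4]
  linarith

end FP

end Pool.Agent.M3
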