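import Pool.Agent.M3.HKey
import Pool.Agent.M3.S3Rob
import Pool.Agent.M3.FPPoE

/-!
# M3.S3Key: KEY of section 3 (note 3419 (L2), (L3); row 3.2, 3.3)

Part A: arrays.  `Tab SX SY SZ` = joint law `j x y z` of two letters and a partition, with its marginals `u x z`, `v y z`,
`p z`, `J x y`, `U x`, `V y`.  `kk a b = a log (a/b) - a + b`.
* `Tab.basic`: for a single pair of letters and any set `Gd` of cells,
  `kk J (UV) - Σ_z kk j (uv/p) ≤ (Σ_(z not in Gd) j) log (J/UV) + (J - UV) (R - 1)`, `R = Σ_Gd uv/(pUV)`;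
* `cov_abs`, `cov_abs1`: `Σ |J - UV| |l| |k| ≤ kd |l|_2 |k|_2`, `≤ kd |k|_oo |l|_1`, `kd = 2 √d + d`, if the
  laws of the other letter given one letter are `d`-close (squared Hellinger distance);
* `Tab.key`.
Part B: `P : FP Om`, maps `X`, `Y` (letters with owners), `N` (state), `Z` (partition).
-/

set_option autoImplicit false
set_option linter.unusedSectionVars false

namespace Pool.Agent.M3

open Finset Pool.Agent.PWZ

noncomputable section

/-- `a log (a/b) - a + b` -/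
def kk (a b : ℝ) : ℝ := a * Real.log (a / b) - a + b

/-- the constant of the covariance lemma -/
def kd (d : ℝ) : ℝ := 2 * Real.sqrt d + d

end

theorem kd_nonneg {d : ℝ} (hd : 0 ≤ d) : 0 ≤ kd d := by
  unfold kd
  have := Real.sqrt_nonneg d
  linarith

theorem kk_nonneg {a b : ℝ} (ha : 0 ≤ a) (hb : 0 ≤ b) (h : b = 0 → a = 0) : 0 ≤ kk a b := by
  unfold kk
  rcases ha.eq_or_lt with h0 | h0
  · rw [← h0]; simpa using hb
  · have hb0 : 0 < b := lt_of_le_of_ne hb (fun h' => h0.ne' (h h'.symm))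
    have h1 := Real.log_le_sub_one_of_pos (div_pos hb0 h0)
    have h2 : Real.log (a / b) = - Real.log (b / a) := by
      rw [← Real.log_inv, inv_div]
    rw [h2]
    have h3 : a * Real.log (b / a) ≤ a * (b / a - 1) := mul_le_mul_of_nonneg_left h1 h0.le
    have h4 : a * (b / a - 1) = b - a := by field_simp
    linarith

theorem kk_mul {b x : ℝ} (hb : b ≠ 0) : kk (b * x) b = b * hphi x := by
  unfold kk hphi
  rw [mul_comm b x, mul_div_assoc, div_self hb, mul_one]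
  ring

/-- density form: `b hphi (a/b) = kk a b` -/
theorem kk_eq {a b : ℝ} (h : b = 0 → a = 0) : kk a b = b * hphi (a / b) := by
  by_cases hb : b = 0
  · rw [h hb, hb]; unfold kk; simp
  · rw [← kk_mul hb]; congr 1; field_simp

/-! ## covariance -/

section cov

variable {κ ι : Type*} {SX : Finset κ} {SY : Finset ι} {J : κ → ι → ℝ} {U : κ → ℝ} {V : ι → ℝ} {d : ℝ}

theorem abs_sub_sqrt {a b : ℝ} (ha : 0 ≤ a) (hb : 0 ≤ b) :
    |a - b| ≤ (Real.sqrt a - Real.sqrt b) ^ 2 + 2 * Real.sqrt b * |Real.sqrt a - Real.sqrt b| := by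
  set s := Real.sqrt a
  set t := Real.sqrt b
  have hs : s ^ 2 = a := Real.sq_sqrt ha
  have ht : t ^ 2 = b := Real.sq_sqrt hb
  have hs0 : 0 ≤ s := Real.sqrt_nonneg _
  have ht0 : 0 ≤ t := Real.sqrt_nonneg _
  have e : a - b = (s - t) * (s + t) := by rw [← hs, ← ht]; ring
  rw [e, abs_mul, abs_of_nonneg (by linarith : 0 ≤ s + t)]
  have h1 : s + t = (s - t) + 2 * t := by ring
  have h2 : s - t ≤ |s - t| := le_abs_self _
  have h3 : 0 ≤ |s - t| := abs_nonneg _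
  have h4 : |s - t| * (s + t) ≤ |s - t| * (|s - t| + 2 * t) :=
    mul_le_mul_of_nonneg_left (by linarith) h3
  have h5 : |s - t| * |s - t| = (s - t) ^ 2 := by rw [← sq, sq_abs]
  nlinarith

theorem cov_abs (hJ : ∀ x ∈ SX, ∀ y ∈ SY, 0 ≤ J x y) (hU : ∀ x ∈ SX, 0 ≤ U x) (hV : ∀ y ∈ SY, 0 ≤ V y)
    (hU1 : ∑ x ∈ SX, U x = 1) (hd : 0 ≤ d)
    (hx : ∀ x ∈ SX, ∑ y ∈ SY, (Real.sqrt (J x y) - Real.sqrt (U x * V y)) ^ 2 ≤ d * U x)
    (hy : ∀ y ∈ SY, ∑ x ∈ SX, (Real.sqrt (J x y) - Real.sqrt (U x * V y)) ^ 2 ≤ d * V y)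
    (l : κ → ℝ) (k : ι → ℝ) :
    ∑ x ∈ SX, ∑ y ∈ SY, |J x y - U x * V y| * (|l x| * |k y|) ≤
      kd d * (Real.sqrt (∑ x ∈ SX, U x * l x ^ 2) * Real.sqrt (∑ y ∈ SY, V y * k y ^ 2)) := by
  set A := ∑ x ∈ SX, U x * l x ^ 2 with hA
  set B := ∑ y ∈ SY, V y * k y ^ 2 with hB
  have hA0 : 0 ≤ A := Finset.sum_nonneg (fun x hx => mul_nonneg (hU x hx) (sq_nonneg _))
  have hB0 : 0 ≤ B := Finset.sum_nonneg (fun y hy => mul_nonneg (hV y hy) (sq_nonneg _))
  set D : κ × ι → ℝ := fun q => |Real.sqrt (J q.1 q.2) - Real.sqrt (U q.1 * V q.2)| with hD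
  have hDsq : ∀ q, D q ^ 2 = (Real.sqrt (J q.1 q.2) - Real.sqrt (U q.1 * V q.2)) ^ 2 := fun q => sq_abs _
  have hsplit : ∑ x ∈ SX, ∑ y ∈ SY, |J x y - U x * V y| * (|l x| * |k y|) ≤
      ∑ q ∈ SX ×ˢ SY, (D q * |l q.1|) * (D q * |k q.2|) +
        2 * ∑ q ∈ SX ×ˢ SY, (D q * |l q.1|) * (Real.sqrt (U q.1 * V q.2) * |k q.2|) := by
    rw [Finset.mul_sum, ← Finset.sum_add_distrib, Finset.sum_product]
    refine Finset.sum_le_sum (fun x hx => Finset.sum_le_sum (fun y hy => ?_))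
    have h1 := abs_sub_sqrt (hJ x hx y hy) (mul_nonneg (hU x hx) (hV y hy))
    have h2 : 0 ≤ |l x| * |k y| := mul_nonneg (abs_nonneg _) (abs_nonneg _)
    refine (mul_le_mul_of_nonneg_right h1 h2).trans (le_of_eq ?_)
    rw [← hDsq (x, y)]
    simp only [hD]
    ring
  have hDl : ∑ q ∈ SX ×ˢ SY, (D q * |l q.1|) ^ 2 ≤ d * A := by
    rw [Finset.sum_product, hA, Finset.mul_sum]
    refine Finset.sum_le_sum (fun x hxx => ?_)
    have h1 : ∑ y ∈ SY, (D (x, y) * |l x|) ^ 2 =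
        (∑ y ∈ SY, (Real.sqrt (J x y) - Real.sqrt (U x * V y)) ^ 2) * l x ^ 2 := by
      rw [Finset.sum_mul]
      refine Finset.sum_congr rfl (fun y _ => ?_)
      rw [mul_pow, hDsq, sq_abs]
    have h1' : ∑ y ∈ SY, (D (x, y) * |l (x, y).1|) ^ 2 = ∑ y ∈ SY, (D (x, y) * |l x|) ^ 2 := rfl
    rw [h1', h1]
    calc _ ≤ (d * U x) * l x ^ 2 := mul_le_mul_of_nonneg_right (hx x hxx) (sq_nonneg _)
      _ = _ := by ring
  have hDk : ∑ q ∈ SX ×ˢ SY, (D q * |k q.2|) ^ 2 ≤ d * B := by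
    rw [Finset.sum_product_right, hB, Finset.mul_sum]
    refine Finset.sum_le_sum (fun y hyy => ?_)
    have h1 : ∑ x ∈ SX, (D (x, y) * |k y|) ^ 2 =
        (∑ x ∈ SX, (Real.sqrt (J x y) - Real.sqrt (U x * V y)) ^ 2) * k y ^ 2 := by
      rw [Finset.sum_mul]
      refine Finset.sum_congr rfl (fun x _ => ?_)
      rw [mul_pow, hDsq, sq_abs]
    have h1' : ∑ x ∈ SX, (D (x, y) * |k (x, y).2|) ^ 2 = ∑ x ∈ SX, (D (x, y) * |k y|) ^ 2 := rfl
    rw [h1', h1]
    calc _ ≤ (d * V y) * k y ^ 2 := mul_le_mul_of_nonneg_right (hy y hyy) (sq_nonneg _)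
      _ = _ := by ring
  have hUVk : ∑ q ∈ SX ×ˢ SY, (Real.sqrt (U q.1 * V q.2) * |k q.2|) ^ 2 = B := by
    rw [Finset.sum_product]
    have h1 : ∀ x ∈ SX, ∑ y ∈ SY, (Real.sqrt (U (x, y).1 * V (x, y).2) * |k (x, y).2|) ^ 2 = U x * B := by
      intro x hxx
      rw [hB, Finset.mul_sum]
      refine Finset.sum_congr rfl (fun y hyy => ?_)
      show (Real.sqrt (U x * V y) * |k y|) ^ 2 = _
      rw [mul_pow, Real.sq_sqrt (mul_nonneg (hU x hxx) (hV y hyy)), sq_abs]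
      ring
    rw [Finset.sum_congr rfl h1, ← Finset.sum_mul, hU1, one_mul]
  have c1 := Real.sum_mul_le_sqrt_mul_sqrt (SX ×ˢ SY) (fun q => D q * |l q.1|) (fun q => D q * |k q.2|)
  have c2 := Real.sum_mul_le_sqrt_mul_sqrt (SX ×ˢ SY) (fun q => D q * |l q.1|)
    (fun q => Real.sqrt (U q.1 * V q.2) * |k q.2|)
  have hsd : Real.sqrt d * Real.sqrt d = d := Real.mul_self_sqrt hd
  have e1 : Real.sqrt (∑ q ∈ SX ×ˢ SY, (D q * |l q.1|) ^ 2) ≤ Real.sqrt d * Real.sqrt A := by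
    rw [← Real.sqrt_mul hd]; exact Real.sqrt_le_sqrt hDl
  have e2 : Real.sqrt (∑ q ∈ SX ×ˢ SY, (D q * |k q.2|) ^ 2) ≤ Real.sqrt d * Real.sqrt B := by
    rw [← Real.sqrt_mul hd]; exact Real.sqrt_le_sqrt hDk
  have c1' : ∑ q ∈ SX ×ˢ SY, (D q * |l q.1|) * (D q * |k q.2|) ≤ d * (Real.sqrt A * Real.sqrt B) := by
    refine c1.trans ((mul_le_mul e1 e2 (Real.sqrt_nonneg _) (by positivity)).trans (le_of_eq ?_))
    calc Real.sqrt d * Real.sqrt A * (Real.sqrt d * Real.sqrt B) =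
        (Real.sqrt d * Real.sqrt d) * (Real.sqrt A * Real.sqrt B) := by ring
      _ = _ := by rw [hsd]
  have c2' : ∑ q ∈ SX ×ˢ SY, (D q * |l q.1|) * (Real.sqrt (U q.1 * V q.2) * |k q.2|) ≤
      Real.sqrt d * (Real.sqrt A * Real.sqrt B) := by
    refine c2.trans ?_
    rw [hUVk]
    calc _ ≤ (Real.sqrt d * Real.sqrt A) * Real.sqrt B :=
        mul_le_mul_of_nonneg_right e1 (Real.sqrt_nonneg _)
      _ = _ := by ring
  unfold kd
  linarith

theorem cov_abs1 (hJ : ∀ x ∈ SX, ∀ y ∈ SY, 0 ≤ J x y) (hU : ∀ x ∈ SX, 0 ≤ U x) (hV : ∀ y ∈ SY, 0 ≤ V y)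
    (hV1 : ∑ y ∈ SY, V y = 1) (hd : 0 ≤ d)
    (hx : ∀ x ∈ SX, ∑ y ∈ SY, (Real.sqrt (J x y) - Real.sqrt (U x * V y)) ^ 2 ≤ d * U x)
    (l : κ → ℝ) {k : ι → ℝ} {K : ℝ} (hk : ∀ y ∈ SY, |k y| ≤ K) (hK : 0 ≤ K) :
    ∑ x ∈ SX, ∑ y ∈ SY, |J x y - U x * V y| * (|l x| * |k y|) ≤ kd d * K * ∑ x ∈ SX, U x * |l x| := by
  rw [Finset.mul_sum]
  refine Finset.sum_le_sum (fun x hxx => ?_)
  have hUx := hU x hxx
  have h1 : ∑ y ∈ SY, |J x y - U x * V y| ≤ kd d * U x := by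
    have h2 : ∑ y ∈ SY, |J x y - U x * V y| ≤ ∑ y ∈ SY, (Real.sqrt (J x y) - Real.sqrt (U x * V y)) ^ 2 +
        2 * ∑ y ∈ SY, Real.sqrt (U x * V y) * |Real.sqrt (J x y) - Real.sqrt (U x * V y)| := by
      rw [Finset.mul_sum, ← Finset.sum_add_distrib]
      refine Finset.sum_le_sum (fun y hyy => ?_)
      refine (abs_sub_sqrt (hJ x hxx y hyy) (mul_nonneg hUx (hV y hyy))).trans (le_of_eq (by ring))
    have h3 := Real.sum_mul_le_sqrt_mul_sqrt SY (fun y => Real.sqrt (U x * V y))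
      (fun y => |Real.sqrt (J x y) - Real.sqrt (U x * V y)|)
    have h4 : ∑ y ∈ SY, Real.sqrt (U x * V y) ^ 2 = U x := by
      have : ∀ y ∈ SY, Real.sqrt (U x * V y) ^ 2 = U x * V y := fun y hyy =>
        Real.sq_sqrt (mul_nonneg hUx (hV y hyy))
      rw [Finset.sum_congr rfl this, ← Finset.mul_sum, hV1, mul_one]
    have h5 : ∑ y ∈ SY, |Real.sqrt (J x y) - Real.sqrt (U x * V y)| ^ 2 ≤ d * U x := by
      refine le_trans (le_of_eq (Finset.sum_congr rfl (fun y _ => sq_abs _))) (hx x hxx)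
    rw [h4] at h3
    have h6 : Real.sqrt (∑ y ∈ SY, |Real.sqrt (J x y) - Real.sqrt (U x * V y)| ^ 2) ≤
        Real.sqrt d * Real.sqrt (U x) := by
      rw [← Real.sqrt_mul hd]; exact Real.sqrt_le_sqrt h5
    have h7 : Real.sqrt (U x) * Real.sqrt (U x) = U x := Real.mul_self_sqrt hUx
    have h8 : ∑ y ∈ SY, Real.sqrt (U x * V y) * |Real.sqrt (J x y) - Real.sqrt (U x * V y)| ≤
        Real.sqrt d * U x := by
      refine h3.trans ((mul_le_mul_of_nonneg_left h6 (Real.sqrt_nonneg _)).trans (le_of_eq ?_))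
      calc Real.sqrt (U x) * (Real.sqrt d * Real.sqrt (U x)) = Real.sqrt d * (Real.sqrt (U x) * Real.sqrt (U x)) := by
            ring
        _ = _ := by rw [h7]
    have h9 := hx x hxx
    unfold kd
    linarith
  calc ∑ y ∈ SY, |J x y - U x * V y| * (|l x| * |k y|) ≤ ∑ y ∈ SY, |J x y - U x * V y| * (|l x| * K) := by
        refine Finset.sum_le_sum (fun y hyy => mul_le_mul_of_nonneg_left ?_ (abs_nonneg _))
        exact mul_le_mul_of_nonneg_left (hk y hyy) (abs_nonneg _)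
    _ = (∑ y ∈ SY, |J x y - U x * V y|) * (|l x| * K) := by rw [Finset.sum_mul]
    _ ≤ (kd d * U x) * (|l x| * K) := mul_le_mul_of_nonneg_right h1 (mul_nonneg (abs_nonneg _) hK)
    _ = _ := by ring

end cov

/-! ## tables -/

/-- joint law of two letters and a partition, with its marginals -/
structure Tab {κ ι ζ : Type*} (SX : Finset κ) (SY : Finset ι) (SZ : Finset ζ) where
  j : κ → ι → ζ → ℝ
  u : κ → ζ → ℝ
  v : ι → ζ → ℝ
  p : ζ → ℝ
  J : κ → ι → ℝ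
  U : κ → ℝ
  V : ι → ℝ
  nn : ∀ x y z, 0 ≤ j x y z
  ju : ∀ x ∈ SX, ∀ z ∈ SZ, ∑ y ∈ SY, j x y z = u x z
  jv : ∀ y ∈ SY, ∀ z ∈ SZ, ∑ x ∈ SX, j x y z = v y z
  up : ∀ z ∈ SZ, ∑ x ∈ SX, u x z = p z
  vp : ∀ z ∈ SZ, ∑ y ∈ SY, v y z = p z
  jJ : ∀ x ∈ SX, ∀ y ∈ SY, ∑ z ∈ SZ, j x y z = J x y
  uU : ∀ x ∈ SX, ∑ z ∈ SZ, u x z = U x
  vV : ∀ y ∈ SY, ∑ z ∈ SZ, v y z = V y
  p1 : ∑ z ∈ SZ, p z = 1

namespace Tab

variable {κ ι ζ : Type*} {SX : Finset κ} {SY : Finset ι} {SZ : Finset ζ} (t : Tab SX SY SZ)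

theorem u_nn {x : κ} {z : ζ} (hx : x ∈ SX) (hz : z ∈ SZ) : 0 ≤ t.u x z := by
  rw [← t.ju x hx z hz]; exact Finset.sum_nonneg (fun _ _ => t.nn _ _ _)

theorem v_nn {y : ι} {z : ζ} (hy : y ∈ SY) (hz : z ∈ SZ) : 0 ≤ t.v y z := by
  rw [← t.jv y hy z hz]; exact Finset.sum_nonneg (fun _ _ => t.nn _ _ _)

theorem p_nn {z : ζ} (hz : z ∈ SZ) : 0 ≤ t.p z := by
  rw [← t.up z hz]; exact Finset.sum_nonneg (fun _ hx => t.u_nn hx hz)

theorem J_nn {x : κ} {y : ι} (hx : x ∈ SX) (hy : y ∈ SY) : 0 ≤ t.J x y := by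
  rw [← t.jJ x hx y hy]; exact Finset.sum_nonneg (fun _ _ => t.nn _ _ _)

theorem U_nn {x : κ} (hx : x ∈ SX) : 0 ≤ t.U x := by
  rw [← t.uU x hx]; exact Finset.sum_nonneg (fun _ hz => t.u_nn hx hz)

theorem V_nn {y : ι} (hy : y ∈ SY) : 0 ≤ t.V y := by
  rw [← t.vV y hy]; exact Finset.sum_nonneg (fun _ hz => t.v_nn hy hz)

theorem J_U {x : κ} (hx : x ∈ SX) : ∑ y ∈ SY, t.J x y = t.U x := by
  rw [← t.uU x hx, Finset.sum_congr rfl (fun y hy => (t.jJ x hx y hy).symm), Finset.sum_comm]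
  exact Finset.sum_congr rfl (fun z hz => t.ju x hx z hz)

theorem J_V {y : ι} (hy : y ∈ SY) : ∑ x ∈ SX, t.J x y = t.V y := by
  rw [← t.vV y hy, Finset.sum_congr rfl (fun x hx => (t.jJ x hx y hy).symm), Finset.sum_comm]
  exact Finset.sum_congr rfl (fun z hz => t.jv y hy z hz)

theorem U1 : ∑ x ∈ SX, t.U x = 1 := by
  rw [← t.p1, Finset.sum_congr rfl (fun x hx => (t.uU x hx).symm), Finset.sum_comm]
  exact Finset.sum_congr rfl (fun z hz => t.up z hz)

theorem V1 : ∑ y ∈ SY, t.V y = 1 := by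
  rw [← t.p1, Finset.sum_congr rfl (fun y hy => (t.vV y hy).symm), Finset.sum_comm]
  exact Finset.sum_congr rfl (fun z hz => t.vp z hz)

theorem j_le_u {x : κ} {y : ι} {z : ζ} (hx : x ∈ SX) (hy : y ∈ SY) (hz : z ∈ SZ) : t.j x y z ≤ t.u x z := by
  rw [← t.ju x hx z hz]
  exact Finset.single_le_sum (f := fun y => t.j x y z) (fun _ _ => t.nn _ _ _) hy

theorem j_le_v {x : κ} {y : ι} {z : ζ} (hx : x ∈ SX) (hy : y ∈ SY) (hz : z ∈ SZ) : t.j x y z ≤ t.v y z := by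
  rw [← t.jv y hy z hz]
  exact Finset.single_le_sum (f := fun x => t.j x y z) (fun _ _ => t.nn _ _ _) hx

theorem u_le_p {x : κ} {z : ζ} (hx : x ∈ SX) (hz : z ∈ SZ) : t.u x z ≤ t.p z := by
  rw [← t.up z hz]
  exact Finset.single_le_sum (f := fun x => t.u x z) (fun _ hx => t.u_nn hx hz) hx

theorem v_le_p {y : ι} {z : ζ} (hy : y ∈ SY) (hz : z ∈ SZ) : t.v y z ≤ t.p z := by
  rw [← t.vp z hz]
  exact Finset.single_le_sum (f := fun y => t.v y z) (fun _ hy => t.v_nn hy hz) hy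

theorem u_le_U {x : κ} {z : ζ} (hx : x ∈ SX) (hz : z ∈ SZ) : t.u x z ≤ t.U x := by
  rw [← t.uU x hx]
  exact Finset.single_le_sum (f := fun z => t.u x z) (fun _ hz => t.u_nn hx hz) hz

theorem v_le_V {y : ι} {z : ζ} (hy : y ∈ SY) (hz : z ∈ SZ) : t.v y z ≤ t.V y := by
  rw [← t.vV y hy]
  exact Finset.single_le_sum (f := fun z => t.v y z) (fun _ hz => t.v_nn hy hz) hz

theorem j_le_J {x : κ} {y : ι} {z : ζ} (hx : x ∈ SX) (hy : y ∈ SY) (hz : z ∈ SZ) : t.j x y z ≤ t.J x y := by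
  rw [← t.jJ x hx y hy]
  exact Finset.single_le_sum (f := fun z => t.j x y z) (fun _ _ => t.nn _ _ _) hz

theorem J_le_U {x : κ} {y : ι} (hx : x ∈ SX) (hy : y ∈ SY) : t.J x y ≤ t.U x := by
  rw [← t.J_U hx]
  exact Finset.single_le_sum (f := fun y => t.J x y) (fun _ hy => t.J_nn hx hy) hy

theorem J_le_V {x : κ} {y : ι} (hx : x ∈ SX) (hy : y ∈ SY) : t.J x y ≤ t.V y := by
  rw [← t.J_V hy]
  exact Finset.single_le_sum (f := fun x => t.J x y) (fun _ hx => t.J_nn hx hy) hx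

/-- if `UV = 0` then `J = 0` -/
theorem J_zero {x : κ} {y : ι} (hx : x ∈ SX) (hy : y ∈ SY) (h : t.U x * t.V y = 0) : t.J x y = 0 := by
  rcases mul_eq_zero.1 h with h | h
  · exact le_antisymm (h ▸ t.J_le_U hx hy) (t.J_nn hx hy)
  · exact le_antisymm (h ▸ t.J_le_V hx hy) (t.J_nn hx hy)

theorem j_zero {x : κ} {y : ι} {z : ζ} (hx : x ∈ SX) (hy : y ∈ SY) (hz : z ∈ SZ)
    (h : t.u x z * t.v y z / t.p z = 0) : t.j x y z = 0 := by
  have h0 := t.nn x y z
  rcases div_eq_zero_iff.1 h with h | h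
  · rcases mul_eq_zero.1 h with h | h
    · exact le_antisymm (h ▸ t.j_le_u hx hy hz) h0
    · exact le_antisymm (h ▸ t.j_le_v hx hy hz) h0
  · exact le_antisymm ((t.j_le_u hx hy hz).trans (h ▸ t.u_le_p hx hz)) h0

theorem uvp_nn {x : κ} {y : ι} {z : ζ} (hx : x ∈ SX) (hy : y ∈ SY) (hz : z ∈ SZ) :
    0 ≤ t.u x z * t.v y z / t.p z :=
  div_nonneg (mul_nonneg (t.u_nn hx hz) (t.v_nn hy hz)) (t.p_nn hz)

/-- BASIC INEQUALITY for one pair of letters (3.2) -/
theorem basic {x : κ} {y : ι} (hx : x ∈ SX) (hy : y ∈ SY) (Gd : ζ → Prop) :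
    kk (t.J x y) (t.U x * t.V y) - ∑ z ∈ SZ, kk (t.j x y z) (t.u x z * t.v y z / t.p z) ≤
      ∑ z ∈ SZ, ind (¬ Gd z) * (t.j x y z * Real.log (t.J x y / (t.U x * t.V y))) +
        (t.J x y - t.U x * t.V y) *
          (∑ z ∈ SZ, ind (Gd z) * (t.u x z * t.v y z / t.p z / (t.U x * t.V y)) - 1) := by
  set UV := t.U x * t.V y with hUV
  set L := Real.log (t.J x y / UV) with hL
  have hUV0 : 0 ≤ UV := mul_nonneg (t.U_nn hx) (t.V_nn hy)
  rcases hUV0.eq_or_lt with h0 | h0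
  · have hJ : t.J x y = 0 := t.J_zero hx hy h0.symm
    have hj : ∀ z ∈ SZ, t.j x y z = 0 := fun z hz =>
      le_antisymm (hJ ▸ t.j_le_J hx hy hz) (t.nn _ _ _)
    have h1 : 0 ≤ ∑ z ∈ SZ, kk (t.j x y z) (t.u x z * t.v y z / t.p z) :=
      Finset.sum_nonneg (fun z hz => kk_nonneg (t.nn _ _ _) (t.uvp_nn hx hy hz) (t.j_zero hx hy hz))
    have h2 : ∑ z ∈ SZ, ind (¬ Gd z) * (t.j x y z * L) = 0 :=
      Finset.sum_eq_zero (fun z hz => by rw [hj z hz]; ring)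
    rw [h2, hJ, ← h0]
    unfold kk at h1 ⊢
    simp only [zero_mul, sub_zero, zero_add, zero_sub]
    linarith
  · -- drop the cells outside `Gd`, tangent at `rho`
    have hcell : ∀ z ∈ SZ, ind (Gd z) * (t.j x y z * L + (UV - t.J x y) * (t.u x z * t.v y z / t.p z / UV)) ≤
        kk (t.j x y z) (t.u x z * t.v y z / t.p z) := by
      intro z hz
      have hk := kk_nonneg (t.nn x y z) (t.uvp_nn hx hy hz) (t.j_zero hx hy hz)
      by_cases hG : Gd z
      · rw [ind_of hG, one_mul]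
        set b := t.u x z * t.v y z / t.p z with hb
        have hb0 : 0 ≤ b := t.uvp_nn hx hy hz
        rcases (t.J_nn hx hy).eq_or_lt with hJ | hJ
        · have hj : t.j x y z = 0 := le_antisymm (hJ ▸ t.j_le_J hx hy hz) (t.nn _ _ _)
          rw [hj, ← hJ]
          unfold kk
          have : (UV - 0) * (b / UV) = b := by field_simp; ring
          rw [this]; simp
        · set r := t.J x y / UV with hr
          have hr0 : 0 < r := div_pos hJ h0
          have h3 := kk_nonneg (a := t.j x y z) (b := r * b) (t.nn _ _ _) (mul_nonneg hr0.le hb0)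
            (fun h => t.j_zero hx hy hz ((mul_eq_zero.1 h).resolve_left hr0.ne'))
          have e1 : (UV - t.J x y) * (b / UV) = b - r * b := by
            rw [hr]; field_simp
          rw [e1]
          unfold kk at h3 ⊢
          rcases (t.nn x y z).eq_or_lt with hj | hj
          · rw [← hj] at h3 ⊢
            simp only [zero_mul] at h3 ⊢
            linarith
          · have hb1 : b ≠ 0 := fun h => hj.ne' (t.j_zero hx hy hz h)
            have e2 : Real.log (t.j x y z / (r * b)) = Real.log (t.j x y z / b) - L := by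
              rw [mul_comm r b, ← div_div, Real.log_div (div_ne_zero hj.ne' hb1) hr0.ne', hL]
            rw [e2] at h3
            linarith
      · rw [ind_not hG, zero_mul]; exact hk
    have hsum := Finset.sum_le_sum hcell
    have e3 : ∑ z ∈ SZ, ind (Gd z) * (t.j x y z * L + (UV - t.J x y) * (t.u x z * t.v y z / t.p z / UV)) =
        L * ∑ z ∈ SZ, ind (Gd z) * t.j x y z +
          (UV - t.J x y) * ∑ z ∈ SZ, ind (Gd z) * (t.u x z * t.v y z / t.p z / UV) := by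
      rw [Finset.mul_sum, Finset.mul_sum, ← Finset.sum_add_distrib]
      exact Finset.sum_congr rfl (fun z _ => by ring)
    have e4 : ∑ z ∈ SZ, ind (¬ Gd z) * (t.j x y z * L) = L * (t.J x y - ∑ z ∈ SZ, ind (Gd z) * t.j x y z) := by
      rw [← t.jJ x hx y hy, ← Finset.sum_sub_distrib, Finset.mul_sum]
      refine Finset.sum_congr rfl (fun z _ => ?_)
      rw [FP.ind_not_eq]; ring
    rw [e3] at hsum
    rw [e4]
    have e5 : kk (t.J x y) UV = t.J x y * L - t.J x y + UV := rfl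
    rw [e5]
    linarith

/-- additive functions are not seen by `J - UV` -/
theorem lin (f : κ → ℝ) (g : ι → ℝ) (c : ℝ) :
    ∑ x ∈ SX, ∑ y ∈ SY, (t.J x y - t.U x * t.V y) * (f x + g y + c) = 0 := by
  have h1 : ∑ x ∈ SX, ∑ y ∈ SY, (t.J x y - t.U x * t.V y) * f x = 0 := by
    refine Finset.sum_eq_zero (fun x hx => ?_)
    rw [← Finset.sum_mul, Finset.sum_sub_distrib, t.J_U hx, ← Finset.mul_sum, t.V1]
    ring
  have h2 : ∑ x ∈ SX, ∑ y ∈ SY, (t.J x y - t.U x * t.V y) * g y = 0 := by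
    rw [Finset.sum_comm]
    refine Finset.sum_eq_zero (fun y hy => ?_)
    rw [← Finset.sum_mul, Finset.sum_sub_distrib, t.J_V hy, ← Finset.sum_mul, t.U1]
    ring
  have h3 : ∑ x ∈ SX, ∑ y ∈ SY, (t.J x y - t.U x * t.V y) * c = 0 := by
    refine Finset.sum_eq_zero (fun x hx => ?_)
    rw [← Finset.sum_mul, Finset.sum_sub_distrib, t.J_U hx, ← Finset.mul_sum, t.V1]
    ring
  have e : ∑ x ∈ SX, ∑ y ∈ SY, (t.J x y - t.U x * t.V y) * (f x + g y + c) =
      ∑ x ∈ SX, ∑ y ∈ SY, (t.J x y - t.U x * t.V y) * f x +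
      ∑ x ∈ SX, ∑ y ∈ SY, (t.J x y - t.U x * t.V y) * g y +
      ∑ x ∈ SX, ∑ y ∈ SY, (t.J x y - t.U x * t.V y) * c := by
    rw [← Finset.sum_add_distrib, ← Finset.sum_add_distrib]
    refine Finset.sum_congr rfl (fun x _ => ?_)
    rw [← Finset.sum_add_distrib, ← Finset.sum_add_distrib]
    exact Finset.sum_congr rfl (fun y _ => by ring)
  rw [e, h1, h2, h3]
  ring

end Tab

/-! ## weak and strong ratios -/

theorem wk_sub_sq_le {B x : ℝ} (hB : Real.exp 2 ≤ B) (hx : 0 ≤ x) : (hwk B x - 1) ^ 2 ≤ 2 * B * hphi x := by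
  have hB1 : 1 ≤ B := by
    have := Real.add_one_le_exp 2
    linarith
  by_cases h : B < x
  · have h2 := (hphi_strong hB h).1
    unfold hwk
    rw [ind_not (fun h' => h' h)]
    nlinarith
  · have h2 := hphi_sq hx
    unfold hwk
    rw [ind_of h, one_mul]
    have h3 : max 1 x ≤ B := max_le hB1 (not_lt.1 h)
    nlinarith [mul_le_mul_of_nonneg_right h3 (hphi_nonneg hx)]

theorem sg_le_hphi {B x : ℝ} (hB : Real.exp 2 ≤ B) (hx : 0 ≤ x) : hsg B x ≤ hphi x := by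
  unfold hsg
  by_cases h : B < x
  · rw [ind_of h, one_mul]; exact (hphi_strong hB h).2.1
  · rw [ind_not h, zero_mul]; exact hphi_nonneg hx

theorem abs_wk_sub_le {B x : ℝ} (hB : Real.exp 2 ≤ B) (hx : 0 ≤ x) : |hwk B x - 1| ≤ B := by
  have hB1 : 1 ≤ B := by
    have := Real.add_one_le_exp 2
    linarith
  have h1 := hwk_nonneg (B := B) hx
  have h2 := hwk_le (B := B) (x := x) (by linarith)
  rw [abs_le]
  constructor <;> linarith

/-- the part of `x y` which is not strong-strong -/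
theorem not_ss_eq (B x y : ℝ) : ind (¬ (B < x ∧ B < y)) * (x * y) =
    (hwk B x - 1) * (hwk B y - 1) + hsg B x * (hwk B y - 1) + (hwk B x - 1) * hsg B y + (x + y - 1) := by
  have hx := hwk_add_hsg B x
  have hy := hwk_add_hsg B y
  have e : (hwk B x - 1) * (hwk B y - 1) + hsg B x * (hwk B y - 1) + (hwk B x - 1) * hsg B y + (x + y - 1) =
      hwk B x * hwk B y + hsg B x * hwk B y + hwk B x * hsg B y := by
    have e1 : x = hwk B x + hsg B x := hx.symm
    have e2 : y = hwk B y + hsg B y := hy.symm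
    linear_combination e1 + e2
  rw [e]
  unfold hwk hsg
  by_cases h1 : B < x <;> by_cases h2 : B < y
  · rw [ind_not (fun h => h ⟨h1, h2⟩), ind_of h1, ind_of h2, ind_not (fun h => h h1), ind_not (fun h => h h2)]
    ring
  · rw [ind_of (fun h => h2 h.2), ind_of h1, ind_not h2, ind_not (fun h => h h1), ind_of h2]
    ring
  · rw [ind_of (fun h => h1 h.1), ind_not h1, ind_of h2, ind_of h1, ind_not (fun h => h h2)]
    ring
  · rw [ind_of (fun h => h1 h.1), ind_not h1, ind_not h2, ind_of h1, ind_of h2]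
    ring

namespace Tab

variable {κ ι ζ : Type*} {SX : Finset κ} {SY : Finset ι} {SZ : Finset ζ} (t : Tab SX SY SZ)

/-- KEY for a table (3.3), left side dropped -/
theorem key {B d : ℝ} (hB : Real.exp 2 ≤ B) (hd : 0 ≤ d)
    (hx : ∀ x ∈ SX, ∑ y ∈ SY, (Real.sqrt (t.J x y) - Real.sqrt (t.U x * t.V y)) ^ 2 ≤ d * t.U x)
    (hy : ∀ y ∈ SY, ∑ x ∈ SX, (Real.sqrt (t.J x y) - Real.sqrt (t.U x * t.V y)) ^ 2 ≤ d * t.V y)
    (T : ζ → Prop) :
    ∑ x ∈ SX, ∑ y ∈ SY, kk (t.J x y) (t.U x * t.V y) -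
        ∑ x ∈ SX, ∑ y ∈ SY, ∑ z ∈ SZ, kk (t.j x y z) (t.u x z * t.v y z / t.p z) ≤
      2 * kd d * B * (∑ z ∈ SZ, ∑ x ∈ SX, kk (t.u x z) (t.p z * t.U x) +
        ∑ z ∈ SZ, ∑ y ∈ SY, kk (t.v y z) (t.p z * t.V y)) +
      ∑ x ∈ SX, ∑ y ∈ SY, ∑ z ∈ SZ,
        ind (¬ (¬ T z ∧ ¬ (B < t.u x z / (t.p z * t.U x) ∧ B < t.v y z / (t.p z * t.V y)))) *
          (t.j x y z * Real.log (t.J x y / (t.U x * t.V y))) := by
  set X : κ → ζ → ℝ := fun x z => t.u x z / (t.p z * t.U x) with hX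
  set Y : ι → ζ → ℝ := fun y z => t.v y z / (t.p z * t.V y) with hY
  set Gd : κ → ι → ζ → Prop := fun x y z => ¬ T z ∧ ¬ (B < X x z ∧ B < Y y z) with hGd
  have hB1 : 1 ≤ B := by
    have := Real.add_one_le_exp 2
    linarith
  have hX0 : ∀ x ∈ SX, ∀ z ∈ SZ, 0 ≤ X x z := fun x hx z hz =>
    div_nonneg (t.u_nn hx hz) (mul_nonneg (t.p_nn hz) (t.U_nn hx))
  have hY0 : ∀ y ∈ SY, ∀ z ∈ SZ, 0 ≤ Y y z := fun y hy z hz =>
    div_nonneg (t.v_nn hy hz) (mul_nonneg (t.p_nn hz) (t.V_nn hy))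
  have hkd := kd_nonneg hd
  -- `R - 1`
  set q : κ → ι → ζ → ℝ := fun x y z => (hwk B (X x z) - 1) * (hwk B (Y y z) - 1) +
    hsg B (X x z) * (hwk B (Y y z) - 1) + (hwk B (X x z) - 1) * hsg B (Y y z) with hq
  have hR : ∀ x ∈ SX, ∀ y ∈ SY,
      ∑ z ∈ SZ, ind (Gd x y z) * (t.u x z * t.v y z / t.p z / (t.U x * t.V y)) - 1 =
        ∑ z ∈ SZ, ind (¬ T z) * t.p z * q x y z +
          (∑ z ∈ SZ, ind (¬ T z) * t.p z * X x z + ∑ z ∈ SZ, ind (¬ T z) * t.p z * Y y z +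
            (- ∑ z ∈ SZ, ind (¬ T z) * t.p z - 1)) := by
    intro x _ y _
    have h1 : ∀ z ∈ SZ, ind (Gd x y z) * (t.u x z * t.v y z / t.p z / (t.U x * t.V y)) =
        ind (¬ T z) * t.p z * q x y z + (ind (¬ T z) * t.p z * X x z + ind (¬ T z) * t.p z * Y y z -
          ind (¬ T z) * t.p z) := by
      intro z _
      have e1 : t.u x z * t.v y z / t.p z / (t.U x * t.V y) = t.p z * (X x z * Y y z) := by
        show _ = t.p z * (t.u x z / (t.p z * t.U x) * (t.v y z / (t.p z * t.V y)))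
        by_cases hp : t.p z = 0
        · rw [hp]; simp
        · rw [div_mul_div_comm, div_div, ← mul_div_assoc]
          rw [show t.p z * (t.u x z * t.v y z) = t.p z * (t.u x z * t.v y z) from rfl,
            show t.p z * t.U x * (t.p z * t.V y) = t.p z * (t.p z * (t.U x * t.V y)) by ring,
            mul_div_mul_left _ _ hp]
      have e2 : ind (Gd x y z) = ind (¬ T z) * ind (¬ (B < X x z ∧ B < Y y z)) := by
        by_cases a : T z
        · rw [ind_not (fun h : Gd x y z => h.1 a), ind_not (fun h => h a), zero_mul]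
        · by_cases b : B < X x z ∧ B < Y y z
          · have i1 : ind (¬ (B < X x z ∧ B < Y y z)) = 0 := ind_not (fun h => h b)
            rw [ind_not (fun h : Gd x y z => h.2 b), i1, mul_zero]
          · have i1 : ind (¬ (B < X x z ∧ B < Y y z)) = 1 := ind_of b
            have i2 : ind (¬ T z) = 1 := ind_of a
            rw [ind_of (show Gd x y z from ⟨a, b⟩), i1, i2, one_mul]
      rw [e1, e2]
      have e3 := not_ss_eq B (X x z) (Y y z)
      calc ind (¬ T z) * ind (¬ (B < X x z ∧ B < Y y z)) * (t.p z * (X x z * Y y z)) =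
          ind (¬ T z) * t.p z * (ind (¬ (B < X x z ∧ B < Y y z)) * (X x z * Y y z)) := by ring
        _ = _ := by rw [e3]; ring
    rw [Finset.sum_congr rfl h1, Finset.sum_add_distrib, Finset.sum_sub_distrib, Finset.sum_add_distrib]
    ring
  -- the covariance terms, cell by cell
  set K : ζ → ℝ := fun z => ∑ x ∈ SX, t.U x * hphi (X x z) with hK
  set K' : ζ → ℝ := fun z => ∑ y ∈ SY, t.V y * hphi (Y y z) with hK'
  have hK0 : ∀ z ∈ SZ, 0 ≤ K z := fun z hz =>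
    Finset.sum_nonneg (fun x hx => mul_nonneg (t.U_nn hx) (hphi_nonneg (hX0 x hx z hz)))
  have hK'0 : ∀ z ∈ SZ, 0 ≤ K' z := fun z hz =>
    Finset.sum_nonneg (fun y hy => mul_nonneg (t.V_nn hy) (hphi_nonneg (hY0 y hy z hz)))
  have hcell : ∀ z ∈ SZ, ∑ x ∈ SX, ∑ y ∈ SY, (t.J x y - t.U x * t.V y) * q x y z ≤
      2 * kd d * B * (K z + K' z) := by
    intro z hz
    have c1 := cov_abs (fun x hx y hy => t.J_nn hx hy) (fun x hx => t.U_nn hx) (fun y hy => t.V_nn hy) t.U1 hd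
      hx hy (fun x => hwk B (X x z) - 1) (fun y => hwk B (Y y z) - 1)
    have c2 := cov_abs1 (fun x hx y hy => t.J_nn hx hy) (fun x hx => t.U_nn hx) (fun y hy => t.V_nn hy) t.V1 hd
      hx (fun x => hsg B (X x z)) (k := fun y => hwk B (Y y z) - 1) (K := B)
      (fun y hy => abs_wk_sub_le hB (hY0 y hy z hz)) (by linarith)
    have c3 := cov_abs1 (SX := SY) (SY := SX) (J := fun y x => t.J x y) (fun y hy x hx => t.J_nn hx hy)
      (fun y hy => t.V_nn hy) (fun x hx => t.U_nn hx) t.U1 hd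
      (fun y hyy => by
        refine le_trans (le_of_eq (Finset.sum_congr rfl (fun x _ => ?_))) (hy y hyy)
        rw [mul_comm (t.V y) (t.U x)])
      (fun y => hsg B (Y y z)) (k := fun x => hwk B (X x z) - 1) (K := B)
      (fun x hx => abs_wk_sub_le hB (hX0 x hx z hz)) (by linarith)
    -- second moments
    have m1 : ∑ x ∈ SX, t.U x * (hwk B (X x z) - 1) ^ 2 ≤ 2 * B * K z := by
      rw [hK, Finset.mul_sum]
      refine Finset.sum_le_sum (fun x hx => ?_)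
      calc _ ≤ t.U x * (2 * B * hphi (X x z)) :=
            mul_le_mul_of_nonneg_left (wk_sub_sq_le hB (hX0 x hx z hz)) (t.U_nn hx)
        _ = _ := by ring
    have m2 : ∑ y ∈ SY, t.V y * (hwk B (Y y z) - 1) ^ 2 ≤ 2 * B * K' z := by
      rw [hK', Finset.mul_sum]
      refine Finset.sum_le_sum (fun y hy => ?_)
      calc _ ≤ t.V y * (2 * B * hphi (Y y z)) :=
            mul_le_mul_of_nonneg_left (wk_sub_sq_le hB (hY0 y hy z hz)) (t.V_nn hy)
        _ = _ := by ring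
    have m3 : ∑ x ∈ SX, t.U x * |hsg B (X x z)| ≤ K z := by
      refine Finset.sum_le_sum (fun x hx => mul_le_mul_of_nonneg_left ?_ (t.U_nn hx))
      rw [abs_of_nonneg (hsg_nonneg (hX0 x hx z hz))]
      exact sg_le_hphi hB (hX0 x hx z hz)
    have m4 : ∑ y ∈ SY, t.V y * |hsg B (Y y z)| ≤ K' z := by
      refine Finset.sum_le_sum (fun y hy => mul_le_mul_of_nonneg_left ?_ (t.V_nn hy))
      rw [abs_of_nonneg (hsg_nonneg (hY0 y hy z hz))]
      exact sg_le_hphi hB (hY0 y hy z hz)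
    have hBK : 0 ≤ 2 * B * K z := by have := hK0 z hz; positivity
    have hBK' : 0 ≤ 2 * B * K' z := by have := hK'0 z hz; positivity
    have m5 : Real.sqrt (∑ x ∈ SX, t.U x * (hwk B (X x z) - 1) ^ 2) *
        Real.sqrt (∑ y ∈ SY, t.V y * (hwk B (Y y z) - 1) ^ 2) ≤ B * (K z + K' z) := by
      have a1 := Real.sqrt_le_sqrt m1
      have a2 := Real.sqrt_le_sqrt m2
      have a3 := mul_le_mul a1 a2 (Real.sqrt_nonneg _) (Real.sqrt_nonneg _)
      refine a3.trans ?_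
      have a4 := Real.sq_sqrt hBK
      have a5 := Real.sq_sqrt hBK'
      nlinarith [sq_nonneg (Real.sqrt (2 * B * K z) - Real.sqrt (2 * B * K' z))]
    have hsplit : ∑ x ∈ SX, ∑ y ∈ SY, (t.J x y - t.U x * t.V y) * q x y z ≤
        ∑ x ∈ SX, ∑ y ∈ SY, |t.J x y - t.U x * t.V y| * (|hwk B (X x z) - 1| * |hwk B (Y y z) - 1|) +
        ∑ x ∈ SX, ∑ y ∈ SY, |t.J x y - t.U x * t.V y| * (|hsg B (X x z)| * |hwk B (Y y z) - 1|) +
        ∑ y ∈ SY, ∑ x ∈ SX, |t.J x y - t.V y * t.U x| * (|hsg B (Y y z)| * |hwk B (X x z) - 1|) := by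
      rw [Finset.sum_comm (s := SY) (t := SX), ← Finset.sum_add_distrib, ← Finset.sum_add_distrib]
      refine Finset.sum_le_sum (fun x _ => ?_)
      rw [← Finset.sum_add_distrib, ← Finset.sum_add_distrib]
      refine Finset.sum_le_sum (fun y _ => ?_)
      rw [mul_comm (t.V y) (t.U x)]
      set a := t.J x y - t.U x * t.V y
      have b1 : a * q x y z ≤ |a| * |q x y z| := by rw [← abs_mul]; exact le_abs_self _
      have b2 : |q x y z| ≤ |hwk B (X x z) - 1| * |hwk B (Y y z) - 1| + |hsg B (X x z)| * |hwk B (Y y z) - 1| +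
          |hsg B (Y y z)| * |hwk B (X x z) - 1| := by
        simp only [hq]
        refine (abs_add_le _ _).trans ?_
        refine add_le_add ((abs_add_le _ _).trans (le_of_eq ?_)) (le_of_eq ?_)
        · rw [abs_mul, abs_mul]
        · rw [abs_mul, mul_comm]
      have b3 := mul_le_mul_of_nonneg_left b2 (abs_nonneg a)
      refine (b1.trans b3).trans (le_of_eq ?_)
      ring
    have n1 : kd d * (Real.sqrt (∑ x ∈ SX, t.U x * (hwk B (X x z) - 1) ^ 2) *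
        Real.sqrt (∑ y ∈ SY, t.V y * (hwk B (Y y z) - 1) ^ 2)) ≤ kd d * (B * (K z + K' z)) :=
      mul_le_mul_of_nonneg_left m5 hkd
    have n2 : kd d * B * ∑ x ∈ SX, t.U x * |hsg B (X x z)| ≤ kd d * B * K z :=
      mul_le_mul_of_nonneg_left m3 (by positivity)
    have n3 : kd d * B * ∑ y ∈ SY, t.V y * |hsg B (Y y z)| ≤ kd d * B * K' z :=
      mul_le_mul_of_nonneg_left m4 (by positivity)
    have := hsplit.trans (add_le_add (add_le_add (c1.trans n1) (c2.trans n2)) (c3.trans n3))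
    refine this.trans (le_of_eq ?_)
    ring
  -- total of the covariance terms
  have htot : ∑ x ∈ SX, ∑ y ∈ SY, (t.J x y - t.U x * t.V y) *
      (∑ z ∈ SZ, ind (Gd x y z) * (t.u x z * t.v y z / t.p z / (t.U x * t.V y)) - 1) ≤
      2 * kd d * B * (∑ z ∈ SZ, t.p z * K z + ∑ z ∈ SZ, t.p z * K' z) := by
    have e1 : ∑ x ∈ SX, ∑ y ∈ SY, (t.J x y - t.U x * t.V y) *
        (∑ z ∈ SZ, ind (Gd x y z) * (t.u x z * t.v y z / t.p z / (t.U x * t.V y)) - 1) =
        ∑ z ∈ SZ, ind (¬ T z) * t.p z * ∑ x ∈ SX, ∑ y ∈ SY, (t.J x y - t.U x * t.V y) * q x y z := by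
      have h1 : ∀ x ∈ SX, ∀ y ∈ SY, (t.J x y - t.U x * t.V y) *
          (∑ z ∈ SZ, ind (Gd x y z) * (t.u x z * t.v y z / t.p z / (t.U x * t.V y)) - 1) =
          ∑ z ∈ SZ, ind (¬ T z) * t.p z * ((t.J x y - t.U x * t.V y) * q x y z) +
          (t.J x y - t.U x * t.V y) *
          (∑ z ∈ SZ, ind (¬ T z) * t.p z * X x z + ∑ z ∈ SZ, ind (¬ T z) * t.p z * Y y z +
            (- ∑ z ∈ SZ, ind (¬ T z) * t.p z - 1)) := by
        intro x hx y hy
        rw [hR x hx y hy, mul_add, Finset.mul_sum]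
        congr 1
        exact Finset.sum_congr rfl (fun z _ => by ring)
      rw [Finset.sum_congr rfl (fun x hx => Finset.sum_congr rfl (fun y hy => h1 x hx y hy))]
      simp only [Finset.sum_add_distrib]
      have h2 := t.lin (fun x => ∑ z ∈ SZ, ind (¬ T z) * t.p z * X x z)
        (fun y => ∑ z ∈ SZ, ind (¬ T z) * t.p z * Y y z) (- ∑ z ∈ SZ, ind (¬ T z) * t.p z - 1)
      rw [h2, add_zero]
      have h3 : ∀ x ∈ SX, ∑ y ∈ SY, ∑ z ∈ SZ, ind (¬ T z) * t.p z * ((t.J x y - t.U x * t.V y) * q x y z) =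
          ∑ z ∈ SZ, ∑ y ∈ SY, ind (¬ T z) * t.p z * ((t.J x y - t.U x * t.V y) * q x y z) :=
        fun x _ => Finset.sum_comm
      rw [Finset.sum_congr rfl h3, Finset.sum_comm]
      refine Finset.sum_congr rfl (fun z _ => ?_)
      rw [Finset.mul_sum]
      exact Finset.sum_congr rfl (fun x _ => by rw [Finset.mul_sum])
    rw [e1, ← Finset.sum_add_distrib, Finset.mul_sum]
    refine Finset.sum_le_sum (fun z hz => ?_)
    have h0 : 0 ≤ 2 * kd d * B * (K z + K' z) := by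
      have := hK0 z hz; have := hK'0 z hz; positivity
    have h1 : ind (¬ T z) * t.p z ≤ t.p z := by
      have := mul_le_mul_of_nonneg_right (ind_le_one (¬ T z)) (t.p_nn hz)
      rwa [one_mul] at this
    have h2 : 0 ≤ ind (¬ T z) * t.p z := mul_nonneg (ind_nonneg _) (t.p_nn hz)
    calc _ ≤ ind (¬ T z) * t.p z * (2 * kd d * B * (K z + K' z)) := mul_le_mul_of_nonneg_left (hcell z hz) h2
      _ ≤ t.p z * (2 * kd d * B * (K z + K' z)) := mul_le_mul_of_nonneg_right h1 h0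
      _ = _ := by ring
  have hg1 : ∑ z ∈ SZ, t.p z * K z = ∑ z ∈ SZ, ∑ x ∈ SX, kk (t.u x z) (t.p z * t.U x) := by
    refine Finset.sum_congr rfl (fun z hz => ?_)
    rw [hK, Finset.mul_sum]
    refine Finset.sum_congr rfl (fun x hx => ?_)
    rw [kk_eq (fun h => ?_)]
    · ring
    · rcases mul_eq_zero.1 h with h | h
      · exact le_antisymm (h ▸ t.u_le_p hx hz) (t.u_nn hx hz)
      · exact le_antisymm (h ▸ t.u_le_U hx hz) (t.u_nn hx hz)
  have hg2 : ∑ z ∈ SZ, t.p z * K' z = ∑ z ∈ SZ, ∑ y ∈ SY, kk (t.v y z) (t.p z * t.V y) := by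
    refine Finset.sum_congr rfl (fun z hz => ?_)
    rw [hK', Finset.mul_sum]
    refine Finset.sum_congr rfl (fun y hy => ?_)
    rw [kk_eq (fun h => ?_)]
    · ring
    · rcases mul_eq_zero.1 h with h | h
      · exact le_antisymm (h ▸ t.v_le_p hy hz) (t.v_nn hy hz)
      · exact le_antisymm (h ▸ t.v_le_V hy hz) (t.v_nn hy hz)
  rw [hg1, hg2] at htot
  -- sum the basic inequality
  have hb : ∑ x ∈ SX, ∑ y ∈ SY, (kk (t.J x y) (t.U x * t.V y) -
      ∑ z ∈ SZ, kk (t.j x y z) (t.u x z * t.v y z / t.p z)) ≤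
      ∑ x ∈ SX, ∑ y ∈ SY, (∑ z ∈ SZ, ind (¬ Gd x y z) * (t.j x y z * Real.log (t.J x y / (t.U x * t.V y))) +
        (t.J x y - t.U x * t.V y) *
          (∑ z ∈ SZ, ind (Gd x y z) * (t.u x z * t.v y z / t.p z / (t.U x * t.V y)) - 1)) :=
    Finset.sum_le_sum (fun x hx => Finset.sum_le_sum (fun y hy => t.basic hx hy (Gd x y)))
  simp only [Finset.sum_sub_distrib, Finset.sum_add_distrib] at hb htot ⊢
  linarith

end Tab

end Pool.Agent.M3
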