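import Pool.Agent.M3.FP

/-!
# M3.S1Rnd (section 1, proof of (P1)): from sign tests to bounded tests (helper27)

A family of tests `test x p d`, affine in each parameter `x i in [-1,1]` (for faces: `x` = the values of the functions
`v_b(d)`, `u_c(d)`, test = their product).  If no SIGN vector has many pairs `p` with correlation `>= ep`, then no
vector of the cube has many pairs with correlation `>= 4 ep`.  Instead of random rounding: the function
`sum_p (corr_p - ep)_+` is convex in each coordinate, so its maximum over the cube is attained at a vertex.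
-/

set_option autoImplicit false

namespace Pool.Agent.M3

open Finset Pool.Agent.PWZ

noncomputable section

variable {ι P V T : Type*}

/-- a function on the cube which is convex in each coordinate has a vertex with a value at least as large -/
theorem exists_vertex [Fintype ι] (f : (ι → ℝ) → ℝ)
    (hf : ∀ (x : ι → ℝ) (i : ι) (s : ℝ), (∀ j, |x j| ≤ 1) → |s| ≤ 1 →
      f (@Function.update ι (fun _ => ℝ) (Classical.decEq ι) x i s) ≤
        (1 + s) / 2 * f (@Function.update ι (fun _ => ℝ) (Classical.decEq ι) x i 1) +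
        (1 - s) / 2 * f (@Function.update ι (fun _ => ℝ) (Classical.decEq ι) x i (-1)))
    (x : ι → ℝ) (hx : ∀ i, |x i| ≤ 1) :
    ∃ e : ι → ℝ, (∀ i, e i = 1 ∨ e i = -1) ∧ f x ≤ f e := by
  classical
  have key : ∀ S : Finset ι, ∃ e : ι → ℝ, (∀ i ∈ S, e i = 1 ∨ e i = -1) ∧ (∀ i, i ∉ S → e i = x i) ∧ f x ≤ f e := by
    intro S
    induction S using Finset.induction_on with
    | empty => exact ⟨x, fun i hi => absurd hi (Finset.notMem_empty i), fun _ _ => rfl, le_rfl⟩
    | insert i S hi ih =>
      obtain ⟨e, h1, h2, h3⟩ := ih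
      have he : ∀ j, |e j| ≤ 1 := by
        intro j
        by_cases hj : j ∈ S
        · rcases h1 j hj with h | h <;> rw [h] <;> norm_num
        · rw [h2 j hj]
          exact hx j
      have h4 := hf e i (e i) he (he i)
      have hd : (Classical.decEq ι) = (fun a b => (inferInstance : Decidable (a = b))) := by
        funext a b
        exact Subsingleton.elim _ _
      rw [hd] at h4
      rw [show (@Function.update ι (fun _ => ℝ) (fun a b => (inferInstance : Decidable (a = b))) e i (e i)) = e from
        Function.update_eq_self i e] at h4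
      obtain ⟨h5, h6⟩ := abs_le.1 (he i)
      have h7 : f e ≤ f (Function.update e i 1) ∨ f e ≤ f (Function.update e i (-1)) := by
        by_contra hcon
        push Not at hcon
        obtain ⟨ha, hb⟩ := hcon
        have h8 : (1 + e i) / 2 * f (Function.update e i 1) + (1 - e i) / 2 * f (Function.update e i (-1)) < f e := by
          rcases lt_or_ge (e i) 0 with hlt | hge
          · have : (1 + e i) / 2 * f (Function.update e i 1) ≤ (1 + e i) / 2 * f e :=
              mul_le_mul_of_nonneg_left ha.le (by linarith)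
            have : (1 - e i) / 2 * f (Function.update e i (-1)) < (1 - e i) / 2 * f e :=
              mul_lt_mul_of_pos_left hb (by linarith)
            nlinarith
          · have : (1 + e i) / 2 * f (Function.update e i 1) < (1 + e i) / 2 * f e :=
              mul_lt_mul_of_pos_left ha (by linarith)
            have : (1 - e i) / 2 * f (Function.update e i (-1)) ≤ (1 - e i) / 2 * f e :=
              mul_le_mul_of_nonneg_left hb.le (by linarith)
            nlinarith
        exact absurd h4 (not_le.2 h8)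
      have fin : ∀ s : ℝ, (s = 1 ∨ s = -1) → f e ≤ f (Function.update e i s) →
          ∃ e' : ι → ℝ, (∀ j ∈ insert i S, e' j = 1 ∨ e' j = -1) ∧ (∀ j, j ∉ insert i S → e' j = x j) ∧
            f x ≤ f e' := by
        intro s hs hle
        refine ⟨Function.update e i s, fun j hj => ?_, fun j hj => ?_, h3.trans hle⟩
        · by_cases hji : j = i
          · rw [hji, Function.update_self]
            exact hs
          · rw [Function.update_of_ne hji]
            exact h1 j ((Finset.mem_insert.1 hj).resolve_left hji)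
        · have hji : j ≠ i := fun h => hj (h ▸ Finset.mem_insert_self i S)
          rw [Function.update_of_ne hji]
          exact h2 j (fun h => hj (Finset.mem_insert_of_mem h))
      rcases h7 with h7 | h7
      · exact fin 1 (Or.inl rfl) h7
      · exact fin (-1) (Or.inr rfl) h7
  obtain ⟨e, h1, _, h3⟩ := key Finset.univ
  exact ⟨e, fun i => h1 i (Finset.mem_univ i), h3⟩

/-- the family of tests is affine in every parameter -/
def AffTest (test : (ι → ℝ) → P → V → ℝ) : Prop :=
  ∀ (x : ι → ℝ) (i : ι) (s : ℝ) (p : P) (d : V),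
    test (@Function.update ι (fun _ => ℝ) (Classical.decEq ι) x i s) p d =
      (1 + s) / 2 * test (@Function.update ι (fun _ => ℝ) (Classical.decEq ι) x i 1) p d +
      (1 - s) / 2 * test (@Function.update ι (fun _ => ℝ) (Classical.decEq ι) x i (-1)) p d

/-- rounding of a bounded test, one sign: `C` = the cell, `Q` = the window -/
theorem rounding_oneR [Fintype ι] [Fintype V] {test : (ι → ℝ) → P → V → ℝ} (haff : AffTest test)
    (Q : FP V) (R : P → V → ℝ) (C : Finset P) {ep N K : ℝ} (hep : 0 < ep)
    (hK : ∀ e : ι → ℝ, (∀ i, e i = 1 ∨ e i = -1) → ∀ p ∈ C, Q.E (fun d => R p d * test e p d) ≤ K)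
    (hno : ∀ e : ι → ℝ, (∀ i, e i = 1 ∨ e i = -1) →
      ∑ p ∈ C, ind (ep ≤ Q.E (fun d => R p d * test e p d)) ≤ N)
    (x : ι → ℝ) (hx : ∀ i, |x i| ≤ 1) :
    3 * ep * ∑ p ∈ C, ind (4 * ep ≤ Q.E (fun d => R p d * test x p d)) ≤ max K 0 * N := by
  classical
  set f : (ι → ℝ) → ℝ := fun y => ∑ p ∈ C, max (Q.E (fun d => R p d * test y p d) - ep) 0 with hf
  obtain ⟨e, he, hle⟩ := exists_vertex f (by
    intro y i s hy hs
    obtain ⟨hs1, hs2⟩ := abs_le.1 hs
    rw [hf]
    show ∑ p ∈ C, _ ≤ (1 + s) / 2 * ∑ p ∈ C, _ + (1 - s) / 2 * ∑ p ∈ C, _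
    rw [Finset.mul_sum, Finset.mul_sum, ← Finset.sum_add_distrib]
    refine Finset.sum_le_sum (fun p _ => ?_)
    set A := Q.E (fun d => R p d * test (@Function.update ι (fun _ => ℝ) (Classical.decEq ι) y i 1) p d) with hA
    set B := Q.E (fun d => R p d * test (@Function.update ι (fun _ => ℝ) (Classical.decEq ι) y i (-1)) p d) with hB
    have e1 : Q.E (fun d => R p d * test (@Function.update ι (fun _ => ℝ) (Classical.decEq ι) y i s) p d) =
        (1 + s) / 2 * A + (1 - s) / 2 * B := by
      rw [hA, hB, ← FP.E_smul, ← FP.E_smul, ← FP.E_add]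
      refine Q.E_congr (fun d _ => ?_)
      rw [haff y i s p d]
      ring
    rw [e1]
    have hp1 : 0 ≤ (1 + s) / 2 := by linarith
    have hp2 : 0 ≤ (1 - s) / 2 := by linarith
    refine max_le ?_ (add_nonneg (mul_nonneg hp1 (le_max_right _ _)) (mul_nonneg hp2 (le_max_right _ _)))
    have h1 : (1 + s) / 2 * (A - ep) ≤ (1 + s) / 2 * max (A - ep) 0 :=
      mul_le_mul_of_nonneg_left (le_max_left _ _) hp1
    have h2 : (1 - s) / 2 * (B - ep) ≤ (1 - s) / 2 * max (B - ep) 0 :=
      mul_le_mul_of_nonneg_left (le_max_left _ _) hp2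
    linarith) x hx
  have h1 : 3 * ep * ∑ p ∈ C, ind (4 * ep ≤ Q.E (fun d => R p d * test x p d)) ≤ f x := by
    rw [hf, Finset.mul_sum]
    refine Finset.sum_le_sum (fun p _ => ?_)
    by_cases h : 4 * ep ≤ Q.E (fun d => R p d * test x p d)
    · rw [ind_of h, mul_one]
      exact le_max_of_le_left (by linarith)
    · rw [ind_not h, mul_zero]
      exact le_max_right _ _
  have h2 : f e ≤ max K 0 * ∑ p ∈ C, ind (ep ≤ Q.E (fun d => R p d * test e p d)) := by
    rw [hf, Finset.mul_sum]
    refine Finset.sum_le_sum (fun p hp => ?_)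
    by_cases h : ep ≤ Q.E (fun d => R p d * test e p d)
    · rw [ind_of h, mul_one]
      refine max_le ?_ (le_max_right _ _)
      exact le_max_of_le_left (by linarith [hK e he p hp])
    · rw [ind_not h, mul_zero]
      exact max_le (by linarith) le_rfl
  exact h1.trans (hle.trans (h2.trans (mul_le_mul_of_nonneg_left (hno e he) (le_max_right _ _))))

/-- rounding, both signs: no sign test has more than `c |C|` pairs with correlation `>= ep`, then every bounded test
has at most `(4 c / (3 ep)) |C|` pairs with absolute correlation `>= 4 ep` (residuals bounded by `2`) -/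
theorem rounding_abs [Fintype ι] [Fintype V] {test : (ι → ℝ) → P → V → ℝ} (haff : AffTest test)
    (hneg : ∀ x : ι → ℝ, (∀ i, |x i| ≤ 1) → ∃ x' : ι → ℝ, (∀ i, |x' i| ≤ 1) ∧ ∀ p d, test x' p d = - test x p d)
    (Q : FP V) (R : P → V → ℝ) (C : Finset P) {ep N : ℝ} (hep : 0 < ep)
    (hR : ∀ p ∈ C, ∀ d, |R p d| ≤ 2)
    (hT : ∀ e : ι → ℝ, (∀ i, e i = 1 ∨ e i = -1) → ∀ p ∈ C, ∀ d, |test e p d| ≤ 1)
    (hno : ∀ e : ι → ℝ, (∀ i, e i = 1 ∨ e i = -1) →
      ∑ p ∈ C, ind (ep ≤ Q.E (fun d => R p d * test e p d)) ≤ N)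
    (x : ι → ℝ) (hx : ∀ i, |x i| ≤ 1) :
    3 * ep * ∑ p ∈ C, ind (4 * ep ≤ |Q.E (fun d => R p d * test x p d)|) ≤ 4 * N := by
  have hK : ∀ e : ι → ℝ, (∀ i, e i = 1 ∨ e i = -1) → ∀ p ∈ C, Q.E (fun d => R p d * test e p d) ≤ 2 := by
    intro e he p hp
    refine Q.E_le_const (fun d _ => ?_)
    refine (le_abs_self _).trans ?_
    rw [abs_mul]
    nlinarith [hR p hp d, hT e he p hp d, abs_nonneg (R p d), abs_nonneg (test e p d)]
  have h1 := rounding_oneR haff Q R C hep hK hno x hx
  obtain ⟨x', hx', hn⟩ := hneg x hx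
  have h2 := rounding_oneR haff Q R C hep hK hno x' hx'
  rw [max_eq_left (by norm_num)] at h1 h2
  have h3 : ∑ p ∈ C, ind (4 * ep ≤ |Q.E (fun d => R p d * test x p d)|) ≤
      ∑ p ∈ C, ind (4 * ep ≤ Q.E (fun d => R p d * test x p d)) +
      ∑ p ∈ C, ind (4 * ep ≤ Q.E (fun d => R p d * test x' p d)) := by
    rw [← Finset.sum_add_distrib]
    refine Finset.sum_le_sum (fun p _ => ?_)
    have e1 : Q.E (fun d => R p d * test x' p d) = - Q.E (fun d => R p d * test x p d) := by
      rw [← FP.E_neg]
      exact Q.E_congr (fun d _ => by rw [hn]; ring)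
    rw [e1]
    by_cases h : 4 * ep ≤ |Q.E (fun d => R p d * test x p d)|
    · rw [ind_of h]
      rcases le_abs.1 h with h' | h'
      · rw [ind_of h']
        linarith [ind_nonneg (4 * ep ≤ - Q.E (fun d => R p d * test x p d))]
      · rw [ind_of h']
        linarith [ind_nonneg (4 * ep ≤ Q.E (fun d => R p d * test x p d))]
    · rw [ind_not h]
      exact add_nonneg (ind_nonneg _) (ind_nonneg _)
  have h4 : 3 * ep * ∑ p ∈ C, ind (4 * ep ≤ |Q.E (fun d => R p d * test x p d)|) ≤
      3 * ep * (∑ p ∈ C, ind (4 * ep ≤ Q.E (fun d => R p d * test x p d)) +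
      ∑ p ∈ C, ind (4 * ep ≤ Q.E (fun d => R p d * test x' p d))) :=
    mul_le_mul_of_nonneg_left h3 (by linarith)
  linarith

end

end Pool.Agent.M3
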