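import Pool.Agent.M3.S1Node
import Pool.Agent.M3.S1Rnd
import Pool.Agent.M3.S1Tail

/-!
# M3.S1Run (section 1): signed lists along the tree of face nodes (helper27)

Abstract form, for one face of any number of coordinates.  `P` = pairs, `V` = fibre variable, `Gam n` = rounded paths at
the time `n = 0, 1, ..` (`n = L - level`), `cell n p` = the product of small cells of the pair, `J n gam` = the rounded
window `J*(gam)`.  `test x p d`, `x` in the cube of a finite set `iota` of parameters (`iota` = values `v_b(d)`, `u_c(d)`),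
sign tests = vertices of the cube.  `lst n gam p` = signed list of the pair `p` at the rounded path `gam`.

* `p1_sign`, `p1` = (P1), the product test at all nodes;
* `Free` = the free law of a pair (exact windows `W n w`, martingale, close to the rounded windows);
* `births_le`, `future_le`, `tail_le` = (P3);
* `nodeBirths_le` = (P4).
-/

set_option autoImplicit false
set_option linter.unusedSectionVars false

namespace Pool.Agent.M3

open Finset Pool.Agent.PWZ

noncomputable section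

/-- the nodes of a face -/
structure Nodes (P V : Type*) [Fintype V] (Gam : ℕ → Type*) where
  prev : ∀ n, Gam (n + 1) → Gam n
  cell : ℕ → P → Finset P
  self : ∀ n p, p ∈ cell n p
  coh : ∀ n p q, q ∈ cell n p → cell n q = cell n p
  J : ∀ n, Gam n → FP V

/-- the family of tests of a face -/
structure Tests (ι P V : Type*) where
  test : (ι → ℝ) → P → V → ℝ
  aff : AffTest test
  neg : ∀ x : ι → ℝ, (∀ i, |x i| ≤ 1) → ∃ x' : ι → ℝ, (∀ i, |x' i| ≤ 1) ∧ ∀ p d, test x' p d = - test x p d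
  sq : ∀ e : ι → ℝ, (∀ i, e i = 1 ∨ e i = -1) → ∀ p d, test e p d ^ 2 = 1

variable {ι P V : Type*} {Gam : ℕ → Type*}

/-- the sign vector of a Boolean vector -/
def sgn (τ : ι → Bool) (i : ι) : ℝ := if τ i then 1 else -1

theorem sgn_or (τ : ι → Bool) (i : ι) : sgn τ i = 1 ∨ sgn τ i = -1 := by
  unfold sgn
  split_ifs <;> simp

theorem exists_sgn (e : ι → ℝ) (he : ∀ i, e i = 1 ∨ e i = -1) : ∃ τ : ι → Bool, sgn τ = e := by
  classical
  refine ⟨fun i => decide (e i = 1), ?_⟩
  funext i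
  unfold sgn
  by_cases h : e i = 1
  · simp [h]
  · simp only [h, decide_false, Bool.false_eq_true, if_false]
    exact ((he i).resolve_left h).symm

/-- value of a sign test -/
def Tests.val (S : Tests ι P V) (τ : ι → Bool) (p : P) (d : V) : ℝ := S.test (sgn τ) p d

theorem Tests.val_sq (S : Tests ι P V) (τ : ι → Bool) (p : P) (d : V) : S.val τ p d ^ 2 = 1 :=
  S.sq _ (sgn_or τ) p d

theorem Tests.val_or (S : Tests ι P V) (τ : ι → Bool) (p : P) (d : V) : S.val τ p d = 1 ∨ S.val τ p d = -1 :=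
  sq_eq_one_iff_of_ne_zero_or (S.val_sq τ p d)
where
  sq_eq_one_iff_of_ne_zero_or {x : ℝ} (h : x ^ 2 = 1) : x = 1 ∨ x = -1 := by
    have : (x - 1) * (x + 1) = 0 := by ring_nf; linarith
    rcases mul_eq_zero.1 this with h | h
    · left; linarith
    · right; linarith

variable [Fintype V]

/-- the signed lists: `N` steps of the RULE at every node -/
def lst (D : Nodes P V Gam) (S : Tests ι P V) (ep thr : ℝ) (N : ℕ) (F : P → V → ℝ) :
    ∀ n, Gam n → P → List (Birth (ι → Bool))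
  | 0, γ, p => node ep thr S.val F (D.J 0 γ) (D.cell 0 p) 0 (fun _ => []) N p
  | n + 1, γ, p => node ep thr S.val F (D.J (n + 1) γ) (D.cell (n + 1) p) (n + 1)
      (lst D S ep thr N F n (D.prev n γ)) N p

/-- the lists before the births of the time `n` -/
def pre (D : Nodes P V Gam) (S : Tests ι P V) (ep thr : ℝ) (N : ℕ) (F : P → V → ℝ) :
    ∀ n, Gam n → P → List (Birth (ι → Bool))
  | 0, _ => fun _ => []
  | n + 1, γ => lst D S ep thr N F n (D.prev n γ)

/-- the number of public births at the node of `p` -/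
def pubs (D : Nodes P V Gam) (S : Tests ι P V) (ep thr : ℝ) (N : ℕ) (F : P → V → ℝ) (n : ℕ) (γ : Gam n) (p : P) :
    ℕ := nHit ep thr S.val F (D.J n γ) (D.cell n p) n (pre D S ep thr N F n γ) N

section static

variable (D : Nodes P V Gam) (S : Tests ι P V) {ep thr : ℝ} {N : ℕ} {F : P → V → ℝ}

theorem lst_eq (n : ℕ) (γ : Gam n) (p : P) :
    lst D S ep thr N F n γ p =
      node ep thr S.val F (D.J n γ) (D.cell n p) n (pre D S ep thr N F n γ) N p := by
  cases n <;> rfl

theorem lst_eq_cell (n : ℕ) (γ : Gam n) {p q : P} (hq : q ∈ D.cell n p) :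
    lst D S ep thr N F n γ q =
      node ep thr S.val F (D.J n γ) (D.cell n p) n (pre D S ep thr N F n γ) N q := by
  rw [lst_eq, D.coh n p q hq]

theorem pubs_cell (n : ℕ) (γ : Gam n) {p q : P} (hq : q ∈ D.cell n p) :
    pubs D S ep thr N F n γ q = pubs D S ep thr N F n γ p := by
  unfold pubs
  rw [D.coh n p q hq]

/-- the lists are cumulative -/
theorem pre_suffix (n : ℕ) (γ : Gam n) (p : P) :
    pre D S ep thr N F n γ p <:+ lst D S ep thr N F n γ p := by
  rw [lst_eq]
  exact node_suffix _ _ _ _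

theorem pre_length_le (n : ℕ) (γ : Gam n) (p : P) :
    (pre D S ep thr N F n γ p).length ≤ (lst D S ep thr N F n γ p).length := (pre_suffix D S n γ p).length_le

/-- (P1), sign tests -/
theorem p1_sign (hF : ∀ p d, |F p d| ≤ 1) (hep : 0 < ep) (hthr : 0 < thr) (hN : 16 / (3 * ep ^ 2 * thr) < N)
    (n : ℕ) (γ : Gam n) (p : P) (τ : ι → Bool) :
    ∑ q ∈ D.cell n p, ind (ep ≤ (D.J n γ).E (fun d =>
      resid ep S.val F (lst D S ep thr N F n γ q) q d * S.val τ q d)) ≤ thr * (D.cell n p).card := by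
  have h1 := node_end (ep := ep) (thr := thr) (val := S.val) (F := F) (Q := D.J n γ) (C := D.cell n p)
    ⟨p, D.self n p⟩ (fun q _ => hF q) (fun τ q _ d => S.val_sq τ q d) hep hthr n (pre D S ep thr N F n γ) hN
  refine (le_of_eq ?_).trans (not_hit_iff h1 τ)
  refine Finset.sum_congr rfl (fun q hq => ?_)
  rw [lst_eq_cell D S n γ hq]

/-- (P1): the product test with `4 ep` at every node, for bounded tests -/
theorem p1 [Fintype ι] (hF : ∀ p d, |F p d| ≤ 1) (hep : 0 < ep) (hthr : 0 < thr)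
    (hN : 16 / (3 * ep ^ 2 * thr) < N) (n : ℕ) (γ : Gam n) (p : P) (x : ι → ℝ) (hx : ∀ i, |x i| ≤ 1) :
    3 * ep * ∑ q ∈ D.cell n p, ind (4 * ep ≤ |(D.J n γ).E (fun d =>
      resid ep S.val F (lst D S ep thr N F n γ q) q d * S.test x q d)|) ≤ 4 * (thr * (D.cell n p).card) := by
  refine rounding_abs S.aff S.neg (D.J n γ) (fun q d => resid ep S.val F (lst D S ep thr N F n γ q) q d)
    (D.cell n p) hep (fun q _ d => abs_resid (hF q d) _) (fun e he q _ d => ?_) (fun e he => ?_) x hx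
  · have h := S.sq e he q d
    rw [← sq_abs] at h
    nlinarith [abs_nonneg (S.test e q d)]
  · obtain ⟨τ, hτ⟩ := exists_sgn e he
    have h := p1_sign D S hF hep hthr hN n γ p τ
    unfold Tests.val at h ⊢
    rw [hτ] at h
    exact h

theorem energy_lst {p : P} (hF : ∀ d, |F p d| ≤ 1) (hep : 0 ≤ ep) (n : ℕ) (γ : Gam n) :
    energy ep S.val F (D.J n γ) (lst D S ep thr N F n γ p) p +
      3 / 4 * ep ^ 2 * ((lst D S ep thr N F n γ p).length - (pre D S ep thr N F n γ p).length : ℝ) ≤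
      energy ep S.val F (D.J n γ) (pre D S ep thr N F n γ p) p := by
  rw [lst_eq]
  exact energy_node hF (fun τ d => S.val_sq τ p d) hep n _ N

theorem lst_jump {p : P} (hF : ∀ d, |F p d| ≤ 1) (hep : 0 < ep) (n : ℕ) (γ : Gam n) :
    ((lst D S ep thr N F n γ p).length - (pre D S ep thr N F n γ p).length : ℝ) ≤ 16 / (3 * ep ^ 2) := by
  rw [lst_eq]
  exact node_jump hF (fun τ d => S.val_sq τ p d) hep n _ N

/-- every public birth is thick -/
theorem pubs_le (n : ℕ) (γ : Gam n) (p : P) :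
    thr * (D.cell n p).card * pubs D S ep thr N F n γ p ≤
      ∑ q ∈ D.cell n p, ((lst D S ep thr N F n γ q).length - (pre D S ep thr N F n γ q).length : ℝ) := by
  refine (nHit_le n (pre D S ep thr N F n γ) N).trans (le_of_eq ?_)
  refine Finset.sum_congr rfl (fun q hq => ?_)
  rw [lst_eq_cell D S n γ hq]

end static

/-! ### the free law of a pair -/

/-- the free law: random pair `pr`, path `g`, exact windows `W`, horizon `Nm` -/
structure Free (D : Nodes P V Gam) {Om : Type*} [Fintype Om] (Pm : FP Om) {κ : ℕ → Type*} (X : ∀ n, Om → κ n)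
    (δ : ℝ) (Nm : ℕ) where
  pr : Om → P
  g : ∀ n, Om → Gam n
  W : ∀ _ : ℕ, Om → FP V
  filt : Filt X
  prX : ∀ n, Fac (X n) pr
  gX : ∀ n, Fac (X n) (g n)
  gprev : ∀ n w, D.prev n (g (n + 1) w) = g n w
  close : ∀ n w (h : V → ℝ) (K : ℝ), (∀ d, |h d| ≤ K) → |(W n w).E h - (D.J n (g n w)).E h| ≤ δ * K
  mart : ∀ n < Nm, ∀ h : Om → V → ℝ, Fac (X n) h → ∀ w, Pm.p w ≠ 0 →
    Pm.ce (X n) (fun v => (W (n + 1) v).E (h v)) w = (W n w).E (h w)
  WX : ∀ n ≤ Nm, ∀ v w, X n v = X n w → ∀ h : V → ℝ, (W n v).E h = (W n w).E h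

section free

variable {Om : Type*} [Fintype Om] {Pm : FP Om} {κ : ℕ → Type*} {X : ∀ n, Om → κ n} {δ : ℝ} {Nm : ℕ}
  {D : Nodes P V Gam} (A : Free D Pm X δ Nm) (S : Tests ι P V) {ep thr : ℝ} {N : ℕ} {F : P → V → ℝ}

/-- the length of the list of the random pair -/
def Free.len (A : Free D Pm X δ Nm) (S : Tests ι P V) (ep thr : ℝ) (N : ℕ) (F : P → V → ℝ) (n : ℕ) (w : Om) : ℝ :=
  (lst D S ep thr N F n (A.g n w) (A.pr w)).length

/-- the energy in the exact window -/
def Free.en (A : Free D Pm X δ Nm) (S : Tests ι P V) (ep thr : ℝ) (N : ℕ) (F : P → V → ℝ) (n : ℕ) (w : Om) : ℝ :=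
  energy ep S.val F (A.W n w) (lst D S ep thr N F n (A.g n w) (A.pr w)) (A.pr w)

theorem Free.pre_succ (n : ℕ) (w : Om) :
    pre D S ep thr N F (n + 1) (A.g (n + 1) w) = lst D S ep thr N F n (A.g n w) := by
  show lst D S ep thr N F n (D.prev n (A.g (n + 1) w)) = _
  rw [A.gprev]

theorem Free.len_mono (n : ℕ) (w : Om) : A.len S ep thr N F n w ≤ A.len S ep thr N F (n + 1) w := by
  unfold Free.len
  have h := pre_length_le D S (ep := ep) (thr := thr) (N := N) (F := F) (n + 1) (A.g (n + 1) w) (A.pr w)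
  rw [A.pre_succ] at h
  exact_mod_cast h

theorem Free.len_jump (hF : ∀ p d, |F p d| ≤ 1) (hep : 0 < ep) (n : ℕ) (w : Om) :
    A.len S ep thr N F (n + 1) w - A.len S ep thr N F n w ≤ 16 / (3 * ep ^ 2) := by
  unfold Free.len
  have h := lst_jump D S (thr := thr) (N := N) (hF (A.pr w)) hep (n + 1) (A.g (n + 1) w)
  rwa [A.pre_succ] at h

theorem Free.len_zero (hF : ∀ p d, |F p d| ≤ 1) (hep : 0 < ep) (w : Om) :
    A.len S ep thr N F 0 w ≤ 16 / (3 * ep ^ 2) := by
  unfold Free.len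
  have h := lst_jump D S (thr := thr) (N := N) (hF (A.pr w)) hep 0 (A.g 0 w)
  have h0 : ((pre D S ep thr N F 0 (A.g 0 w) (A.pr w)).length : ℝ) = 0 := by
    show (([] : List (Birth (ι → Bool))).length : ℝ) = 0
    simp
  rw [h0, sub_zero] at h
  exact h

theorem Free.len_fac (n : ℕ) : Fac (X n) (A.len S ep thr N F n) := by
  intro v w hvw
  unfold Free.len
  rw [A.gX n v w hvw, A.prX n v w hvw]

/-- the drop of the exact energy at the births of one node -/
theorem Free.drop (hF : ∀ p d, |F p d| ≤ 1) (hep : 0 ≤ ep) (hδ : 16 * δ ≤ ep ^ 2) (n : ℕ) (w : Om) :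
    energy ep S.val F (A.W n w) (lst D S ep thr N F n (A.g n w) (A.pr w)) (A.pr w) +
      ep ^ 2 / 2 * ((lst D S ep thr N F n (A.g n w) (A.pr w)).length -
        (pre D S ep thr N F n (A.g n w) (A.pr w)).length : ℝ) ≤
      energy ep S.val F (A.W n w) (pre D S ep thr N F n (A.g n w) (A.pr w)) (A.pr w) := by
  set l := lst D S ep thr N F n (A.g n w) (A.pr w) with hl
  set l0 := pre D S ep thr N F n (A.g n w) (A.pr w) with hl0
  have hsuf : l0 <:+ l := pre_suffix D S n (A.g n w) (A.pr w)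
  by_cases hle : l.length = l0.length
  · have heq : l0 = l := hsuf.eq_of_length hle.symm
    rw [heq, sub_self, mul_zero, add_zero]
  · have h1 : (l0.length : ℝ) + 1 ≤ l.length := by
      have h2 := hsuf.length_le
      have h3 : l0.length + 1 ≤ l.length := by omega
      exact_mod_cast h3
    have h2 := energy_lst D S (thr := thr) (N := N) (hF (A.pr w)) hep n (A.g n w)
    rw [← hl, ← hl0] at h2
    have h3 := A.close n w (fun d => (resid ep S.val F l0 (A.pr w) d) ^ 2 - (resid ep S.val F l (A.pr w) d) ^ 2) 4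
      (fun d => by
        rw [abs_le]
        have h4 := resid_sq_le (ep := ep) (val := S.val) (hF (A.pr w) d) l0
        have h5 := resid_sq_le (ep := ep) (val := S.val) (hF (A.pr w) d) l
        constructor
        · nlinarith [sq_nonneg (resid ep S.val F l0 (A.pr w) d)]
        · nlinarith [sq_nonneg (resid ep S.val F l (A.pr w) d)])
    rw [FP.E_sub, FP.E_sub] at h3
    obtain ⟨h4, _⟩ := abs_le.1 h3
    unfold energy at h2 ⊢
    nlinarith [sq_nonneg ep]

theorem Free.step (hF : ∀ p d, |F p d| ≤ 1) (hep : 0 ≤ ep) (hδ : 16 * δ ≤ ep ^ 2) {n : ℕ} (hn : n < Nm) {w : Om}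
    (hw : Pm.p w ≠ 0) :
    Pm.ce (X n) (fun v => A.en S ep thr N F (n + 1) v + ep ^ 2 / 2 * A.len S ep thr N F (n + 1) v) w ≤
      A.en S ep thr N F n w + ep ^ 2 / 2 * A.len S ep thr N F n w := by
  have hfac : Fac (X n) (fun v => (fun d => (resid ep S.val F (lst D S ep thr N F n (A.g n v) (A.pr v)) (A.pr v) d) ^ 2
      : V → ℝ)) := by
    intro v u hvu
    show (fun d => _) = (fun d => _)
    rw [A.gX n v u hvu, A.prX n v u hvu]
  have h1 := A.mart n hn _ hfac w hw
  have h2 : Pm.ce (X n) (fun v => A.en S ep thr N F (n + 1) v + ep ^ 2 / 2 * A.len S ep thr N F (n + 1) v) w ≤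
      Pm.ce (X n) (fun v => (A.W (n + 1) v).E (fun d =>
        (resid ep S.val F (lst D S ep thr N F n (A.g n v) (A.pr v)) (A.pr v) d) ^ 2) +
        ep ^ 2 / 2 * A.len S ep thr N F n v) w := by
    refine Pm.ce_mono (fun v _ => ?_) w
    have h3 := A.drop S (thr := thr) (N := N) hF hep hδ (n + 1) v
    rw [A.pre_succ] at h3
    unfold Free.en Free.len
    unfold energy at h3 ⊢
    linarith
  refine h2.trans (le_of_eq ?_)
  rw [Pm.ce_add, h1, Pm.ce_smul, Pm.ce_of_fac (A.len_fac S n) hw]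
  rfl

/-- the mean of `energy + (ep^2/2) length` does not increase, conditionally on an event of the time `n` -/
theorem Free.future (hF : ∀ p d, |F p d| ≤ 1) (hep : 0 ≤ ep) (hδ : 16 * δ ≤ ep ^ 2) {n : ℕ} {f : Om → ℝ}
    (hf : Fac (X n) f) (hf0 : ∀ w, 0 ≤ f w) {k : ℕ} (hnk : n ≤ k) (hk : k ≤ Nm) :
    Pm.E (fun w => f w * (A.en S ep thr N F k w + ep ^ 2 / 2 * A.len S ep thr N F k w)) ≤
      Pm.E (fun w => f w * (A.en S ep thr N F n w + ep ^ 2 / 2 * A.len S ep thr N F n w)) := by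
  induction k, hnk using Nat.le_induction with
  | base => exact le_rfl
  | succ k hnk ih =>
    refine le_trans ?_ (ih (by omega))
    have hf' : Fac (X k) f := (A.filt.le hnk).trans hf
    rw [← Pm.E_mul_ce hf']
    exact Pm.E_mono (fun w hw => mul_le_mul_of_nonneg_left (A.step S hF hep hδ (by omega) hw) (hf0 w))

theorem Free.en_nonneg (n : ℕ) (w : Om) : 0 ≤ A.en S ep thr N F n w := energy_nonneg _ _

theorem Free.en_le (hF : ∀ p d, |F p d| ≤ 1) (n : ℕ) (w : Om) : A.en S ep thr N F n w ≤ 4 :=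
  energy_le (hF _) _

theorem Free.start (hF : ∀ p d, |F p d| ≤ 1) (hep : 0 ≤ ep) (hδ : 16 * δ ≤ ep ^ 2) (w : Om) :
    A.en S ep thr N F 0 w + ep ^ 2 / 2 * A.len S ep thr N F 0 w ≤ 1 := by
  have h := A.drop S (thr := thr) (N := N) hF hep hδ 0 w
  have h0 : pre D S ep thr N F 0 (A.g 0 w) (A.pr w) = [] := rfl
  rw [h0] at h
  have h1 := energy_nil_le (ep := ep) (val := S.val) (Q := A.W 0 w) (hF (A.pr w))
  simp only [List.length_nil, Nat.cast_zero, sub_zero] at h
  unfold Free.en Free.len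
  linarith

/-- (P3): mean number of births -/
theorem Free.births_le (hF : ∀ p d, |F p d| ≤ 1) (hep : 0 < ep) (hδ : 16 * δ ≤ ep ^ 2) :
    Pm.E (A.len S ep thr N F Nm) ≤ 2 / ep ^ 2 := by
  have h1 := A.future S (thr := thr) (N := N) hF hep.le hδ (n := 0) (Fac.const (X 0) (1 : ℝ))
    (fun _ => zero_le_one) (Nat.zero_le Nm) le_rfl
  simp only [one_mul] at h1
  have h2 : Pm.E (fun w => A.en S ep thr N F 0 w + ep ^ 2 / 2 * A.len S ep thr N F 0 w) ≤ 1 :=
    Pm.E_le_const (fun w _ => A.start S hF hep.le hδ w)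
  have h3 : Pm.E (fun w => ep ^ 2 / 2 * A.len S ep thr N F Nm w) ≤
      Pm.E (fun w => A.en S ep thr N F Nm w + ep ^ 2 / 2 * A.len S ep thr N F Nm w) :=
    Pm.E_mono (fun w _ => by linarith [A.en_nonneg S (ep := ep) (thr := thr) (N := N) (F := F) Nm w])
  rw [Pm.E_smul] at h3
  rw [le_div_iff₀ (by positivity)]
  nlinarith

/-- (P3): mean number of future births, on an event of the time `n` -/
theorem Free.future_le (hF : ∀ p d, |F p d| ≤ 1) (hep : 0 < ep) (hδ : 16 * δ ≤ ep ^ 2) {n : ℕ} (hn : n ≤ Nm)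
    {f : Om → ℝ} (hf : Fac (X n) f) (hf0 : ∀ w, 0 ≤ f w) :
    Pm.E (fun w => f w * (A.len S ep thr N F Nm w - A.len S ep thr N F n w)) ≤ 8 / ep ^ 2 * Pm.E f := by
  have h1 := A.future S (thr := thr) (N := N) hF hep.le hδ hf hf0 hn le_rfl
  have h2 : Pm.E (fun w => f w * (ep ^ 2 / 2 * (A.len S ep thr N F Nm w - A.len S ep thr N F n w))) ≤
      Pm.E (fun w => f w * 4) := by
    have e1 : Pm.E (fun w => f w * (ep ^ 2 / 2 * (A.len S ep thr N F Nm w - A.len S ep thr N F n w))) =
        Pm.E (fun w => f w * (ep ^ 2 / 2 * A.len S ep thr N F Nm w)) -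
        Pm.E (fun w => f w * (ep ^ 2 / 2 * A.len S ep thr N F n w)) := by
      rw [← FP.E_sub]
      exact Pm.E_congr (fun w _ => by ring)
    have e2 : Pm.E (fun w => f w * (A.en S ep thr N F Nm w + ep ^ 2 / 2 * A.len S ep thr N F Nm w)) =
        Pm.E (fun w => f w * A.en S ep thr N F Nm w) +
        Pm.E (fun w => f w * (ep ^ 2 / 2 * A.len S ep thr N F Nm w)) := by
      rw [← FP.E_add]
      exact Pm.E_congr (fun w _ => by ring)
    have e3 : Pm.E (fun w => f w * (A.en S ep thr N F n w + ep ^ 2 / 2 * A.len S ep thr N F n w)) =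
        Pm.E (fun w => f w * A.en S ep thr N F n w) +
        Pm.E (fun w => f w * (ep ^ 2 / 2 * A.len S ep thr N F n w)) := by
      rw [← FP.E_add]
      exact Pm.E_congr (fun w _ => by ring)
    have h3 : 0 ≤ Pm.E (fun w => f w * A.en S ep thr N F Nm w) :=
      Pm.E_nonneg (fun w _ => mul_nonneg (hf0 w) (A.en_nonneg S Nm w))
    have h4 : Pm.E (fun w => f w * A.en S ep thr N F n w) ≤ Pm.E (fun w => f w * 4) :=
      Pm.E_mono (fun w _ => mul_le_mul_of_nonneg_left (A.en_le S hF n w) (hf0 w))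
    linarith
  have e4 : Pm.E (fun w => f w * (ep ^ 2 / 2 * (A.len S ep thr N F Nm w - A.len S ep thr N F n w))) =
      ep ^ 2 / 2 * Pm.E (fun w => f w * (A.len S ep thr N F Nm w - A.len S ep thr N F n w)) := by
    rw [← Pm.E_smul]
    exact Pm.E_congr (fun w _ => by ring)
  rw [e4, Pm.E_mul_const] at h2
  rw [div_mul_eq_mul_div, le_div_iff₀ (by positivity)]
  nlinarith

/-- (P3): exponential tails, `k` blocks of `64 / (3 ep^2)` births -/
theorem Free.tail_le (hF : ∀ p d, |F p d| ≤ 1) (hep : 0 < ep) (hδ : 16 * δ ≤ ep ^ 2) (k : ℕ) :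
    Pm.Pr (fun w => (k : ℝ) * (64 / (3 * ep ^ 2)) ≤ A.len S ep thr N F Nm w) ≤ (1 / 2) ^ k := by
  have h := Pm.tail_of_future A.filt (Z := A.len S ep thr N F) (fun n => A.len_fac S n)
    (fun n w => A.len_mono S n w) (j := 16 / (3 * ep ^ 2)) (K := 8 / ep ^ 2)
    (fun w => A.len_zero S hF hep w) (fun n w => A.len_jump S hF hep n w) (by positivity) Nm
    (fun n hn f hf hf0 => A.future_le S hF hep hδ hn hf hf0) k
  have e1 : 16 / (3 * ep ^ 2) + 2 * (8 / ep ^ 2) = 64 / (3 * ep ^ 2) := by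
    field_simp
    norm_num
  rwa [e1] at h

/-- (P4): the mean number of public births at the nodes of the path of the pair -/
theorem Free.pubs_le (hF : ∀ p d, |F p d| ≤ 1) (hep : 0 < ep) (hthr : 0 < thr) (hδ : 16 * δ ≤ ep ^ 2)
    (hunif : ∀ n ≤ Nm, ∀ φ : P → Gam n → ℝ, Pm.E (fun w => φ (A.pr w) (A.g n w)) =
      Pm.E (fun w => (∑ q ∈ D.cell n (A.pr w), φ q (A.g n w)) / (D.cell n (A.pr w)).card)) :
    Pm.E (fun w => ∑ n ∈ range (Nm + 1), (pubs D S ep thr N F n (A.g n w) (A.pr w) : ℝ)) ≤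
      2 / (ep ^ 2 * thr) := by
  have h1 : ∀ n ≤ Nm, thr * Pm.E (fun w => (pubs D S ep thr N F n (A.g n w) (A.pr w) : ℝ)) ≤
      Pm.E (fun w => ((lst D S ep thr N F n (A.g n w) (A.pr w)).length -
        (pre D S ep thr N F n (A.g n w) (A.pr w)).length : ℝ)) := by
    intro n hn
    rw [hunif n hn (fun p γ => ((lst D S ep thr N F n γ p).length - (pre D S ep thr N F n γ p).length : ℝ)),
      ← Pm.E_smul]
    refine Pm.E_mono (fun w _ => ?_)
    have hc : (0 : ℝ) < (D.cell n (A.pr w)).card := by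
      exact_mod_cast Finset.card_pos.2 ⟨_, D.self n (A.pr w)⟩
    rw [le_div_iff₀ hc]
    have h2 := Pool.Agent.M3.pubs_le D S (ep := ep) (thr := thr) (N := N) (F := F) n (A.g n w) (A.pr w)
    linarith
  have h2 : ∀ k ≤ Nm, ∀ w, ∑ n ∈ range (k + 1), ((lst D S ep thr N F n (A.g n w) (A.pr w)).length -
        (pre D S ep thr N F n (A.g n w) (A.pr w)).length : ℝ) = A.len S ep thr N F k w := by
    intro k hk w
    induction k with
    | zero =>
      rw [zero_add, Finset.sum_range_one]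
      have h0 : pre D S ep thr N F 0 (A.g 0 w) (A.pr w) = [] := rfl
      rw [h0]
      simp only [List.length_nil, Nat.cast_zero, sub_zero]
      rfl
    | succ k ih =>
      rw [Finset.sum_range_succ, ih (by omega), A.pre_succ]
      unfold Free.len
      ring
  have h3 := A.births_le S (thr := thr) (N := N) hF hep hδ
  rw [Pm.E_sum]
  have h4 : thr * ∑ n ∈ range (Nm + 1), Pm.E (fun w => (pubs D S ep thr N F n (A.g n w) (A.pr w) : ℝ)) ≤
      Pm.E (A.len S ep thr N F Nm) := by
    rw [Finset.mul_sum]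
    calc ∑ n ∈ range (Nm + 1), thr * Pm.E (fun w => (pubs D S ep thr N F n (A.g n w) (A.pr w) : ℝ))
        ≤ ∑ n ∈ range (Nm + 1), Pm.E (fun w => ((lst D S ep thr N F n (A.g n w) (A.pr w)).length -
        (pre D S ep thr N F n (A.g n w) (A.pr w)).length : ℝ)) :=
          Finset.sum_le_sum (fun n hn => h1 n (by have := Finset.mem_range.1 hn; omega))
      _ = Pm.E (A.len S ep thr N F Nm) := by
          rw [← Pm.E_sum]
          exact Pm.E_congr (fun w _ => h2 Nm le_rfl w)
  rw [le_div_iff₀ (by positivity)]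
  rw [le_div_iff₀ (by positivity)] at h3
  nlinarith [sq_nonneg ep]

end free

end

end Pool.Agent.M3
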