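import Pool.Agent.M3.FP

/-!
# M3.S1Clip (section 1, 1.1): the universal clip functions (helper27)

`clip1 x` = the projection of `x` to `[-1,1]`; `psi ep s` = the value of the structured function after the list of
signs `s` (head of the list = the last birth).  `|psi| <= 1`; one more sign lowers the energy of `F - psi`;
Walsh form: on sign lists of length `p` the function `psi` is a combination of the products of the signs with
coefficients of absolute value at most one.
-/

set_option autoImplicit false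

namespace Pool.Agent.M3

open Finset Pool.Agent.PWZ

noncomputable section

/-- projection to `[-1,1]` -/
def clip1 (x : ℝ) : ℝ := max (-1) (min 1 x)

theorem clip1_le (x : ℝ) : clip1 x ≤ 1 := max_le (by norm_num) (min_le_left _ _)

theorem le_clip1 (x : ℝ) : -1 ≤ clip1 x := le_max_left _ _

theorem abs_clip1 (x : ℝ) : |clip1 x| ≤ 1 := abs_le.2 ⟨le_clip1 x, clip1_le x⟩

theorem clip1_of_abs {x : ℝ} (h : |x| ≤ 1) : clip1 x = x := by
  obtain ⟨h1, h2⟩ := abs_le.1 h
  unfold clip1
  rw [min_eq_right h2, max_eq_right h1]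

/-- the projection is closer to every point of `[-1,1]` -/
theorem abs_sub_clip1 {F : ℝ} (hF : |F| ≤ 1) (g : ℝ) : |F - clip1 g| ≤ |F - g| := by
  obtain ⟨h1, h2⟩ := abs_le.1 hF
  unfold clip1
  rcases le_total g 1 with hg | hg
  · rw [min_eq_right hg]
    rcases le_total (-1) g with hg' | hg'
    · rw [max_eq_right hg']
    · rw [max_eq_left hg', abs_of_nonneg (by linarith), abs_of_nonneg (by linarith)]
      linarith
  · rw [min_eq_left hg, max_eq_right (by norm_num), abs_of_nonpos (by linarith), abs_of_nonpos (by linarith)]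
    linarith

theorem sq_sub_clip1 {F : ℝ} (hF : |F| ≤ 1) (g : ℝ) : (F - clip1 g) ^ 2 ≤ (F - g) ^ 2 :=
  sq_le_sq.2 (abs_sub_clip1 hF g)

/-- the projection is `1`-Lipschitz -/
theorem abs_clip1_sub (x y : ℝ) : |clip1 x - clip1 y| ≤ |x - y| := by
  unfold clip1
  rw [max_comm (-1) (min 1 x), max_comm (-1) (min 1 y)]
  refine (abs_max_sub_max_le_abs _ _ _).trans ?_
  rw [min_comm 1 x, min_comm 1 y]
  rcases le_total x 1 with h1 | h1 <;> rcases le_total y 1 with h2 | h2
  · rw [min_eq_left h1, min_eq_left h2]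
  · rw [min_eq_left h1, min_eq_right h2, abs_of_nonpos (by linarith), abs_of_nonpos (by linarith)]
    linarith
  · rw [min_eq_right h1, min_eq_left h2, abs_of_nonneg (by linarith), abs_of_nonneg (by linarith)]
    linarith
  · rw [min_eq_right h1, min_eq_right h2, sub_self, abs_zero]
    exact abs_nonneg _

/-- the structured value after the list of signs `s` (head = last) -/
def psi (ep : ℝ) : List ℝ → ℝ
  | [] => 0
  | s :: l => clip1 (psi ep l + ep / 2 * s)

@[simp] theorem psi_nil (ep : ℝ) : psi ep [] = 0 := rfl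

theorem psi_cons (ep s : ℝ) (l : List ℝ) : psi ep (s :: l) = clip1 (psi ep l + ep / 2 * s) := rfl

theorem abs_psi (ep : ℝ) (l : List ℝ) : |psi ep l| ≤ 1 := by
  cases l with
  | nil => simp
  | cons s l => exact abs_clip1 _

/-- one birth moves the value by at most `ep / 2` -/
theorem psi_step {ep s : ℝ} (hep : 0 ≤ ep) (hs : |s| ≤ 1) (l : List ℝ) :
    |psi ep (s :: l) - psi ep l| ≤ ep / 2 := by
  rw [psi_cons]
  conv_lhs => rw [← clip1_of_abs (abs_psi ep l)]
  rw [clip1_of_abs (abs_psi ep l)]
  calc |clip1 (psi ep l + ep / 2 * s) - psi ep l|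
      = |clip1 (psi ep l + ep / 2 * s) - clip1 (psi ep l)| := by rw [clip1_of_abs (abs_psi ep l)]
    _ ≤ |psi ep l + ep / 2 * s - psi ep l| := abs_clip1_sub _ _
    _ = ep / 2 * |s| := by rw [add_sub_cancel_left, abs_mul, abs_of_nonneg (by linarith)]
    _ ≤ ep / 2 := by nlinarith [abs_nonneg s]

/-- the pointwise energy inequality of one birth -/
theorem sq_sub_psi_cons {F : ℝ} (hF : |F| ≤ 1) (ep : ℝ) {s : ℝ} (hs : s ^ 2 = 1) (l : List ℝ) :
    (F - psi ep (s :: l)) ^ 2 ≤ (F - psi ep l) ^ 2 - ep * ((F - psi ep l) * s) + ep ^ 2 / 4 := by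
  rw [psi_cons]
  refine (sq_sub_clip1 hF _).trans (le_of_eq ?_)
  linear_combination (ep ^ 2 / 4) * hs

/-! ### Walsh form -/

/-- the sum over the sublists of the products of the signs with the coefficients `c` -/
def walsh {p : ℕ} (c : Finset (Fin p) → ℝ) (s : Fin p → ℝ) : ℝ := ∑ I : Finset (Fin p), c I * ∏ i ∈ I, s i

/-- the product of `(1 + e_i s_i)/2` is the indicator of `s = e` on sign vectors -/
theorem prod_half {p : ℕ} {e s : Fin p → ℝ} (he : ∀ i, e i = 1 ∨ e i = -1) (hs : ∀ i, s i = 1 ∨ s i = -1) :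
    ∏ i, ((1 + e i * s i) / 2) = if e = s then 1 else 0 := by
  split_ifs with h
  · refine Finset.prod_eq_one (fun i _ => ?_)
    rw [h]
    rcases hs i with h1 | h1 <;> rw [h1] <;> norm_num
  · obtain ⟨i, hi⟩ := Function.ne_iff.1 h
    refine Finset.prod_eq_zero (Finset.mem_univ i) ?_
    rcases he i with h1 | h1 <;> rcases hs i with h2 | h2 <;> rw [h1, h2] at hi ⊢
    · exact absurd rfl hi
    · norm_num
    · norm_num
    · exact absurd rfl hi

/-- the sign vector of a Boolean vector -/
def sgv {p : ℕ} (b : Fin p → Bool) (i : Fin p) : ℝ := if b i then 1 else -1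

theorem sgv_or {p : ℕ} (b : Fin p → Bool) (i : Fin p) : sgv b i = 1 ∨ sgv b i = -1 := by
  unfold sgv
  split_ifs <;> simp

/-- every function of `p` signs has a Walsh form -/
theorem walsh_exists (p : ℕ) (g : (Fin p → ℝ) → ℝ) (K : ℝ) (hg : ∀ s, |g s| ≤ K) :
    ∃ c : Finset (Fin p) → ℝ, (∀ I, |c I| ≤ K) ∧
      ∀ s : Fin p → ℝ, (∀ i, s i = 1 ∨ s i = -1) → g s = walsh c s := by
  classical
  refine ⟨fun I => (2 ^ p)⁻¹ * ∑ b : Fin p → Bool, g (sgv b) * ∏ i ∈ I, sgv b i, fun I => ?_, fun s hs => ?_⟩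
  · rw [abs_mul, abs_of_pos (by positivity : (0 : ℝ) < (2 ^ p)⁻¹)]
    have h1 : |∑ b : Fin p → Bool, g (sgv b) * ∏ i ∈ I, sgv b i| ≤ ∑ _b : Fin p → Bool, K := by
      refine (Finset.abs_sum_le_sum_abs _ _).trans (Finset.sum_le_sum (fun b _ => ?_))
      rw [abs_mul, Finset.abs_prod]
      have h2 : ∏ i ∈ I, |sgv b i| = 1 := by
        refine Finset.prod_eq_one (fun i _ => ?_)
        rcases sgv_or b i with h | h <;> rw [h] <;> norm_num
      rw [h2, mul_one]
      exact hg _
    rw [Finset.sum_const, Finset.card_univ, Fintype.card_fun, Fintype.card_bool, Fintype.card_fin, nsmul_eq_mul]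
      at h1
    push_cast at h1
    calc (2 ^ p : ℝ)⁻¹ * |∑ b : Fin p → Bool, g (sgv b) * ∏ i ∈ I, sgv b i|
        ≤ (2 ^ p : ℝ)⁻¹ * (2 ^ p * K) := mul_le_mul_of_nonneg_left h1 (by positivity)
      _ = K := by field_simp
  · unfold walsh
    -- the Boolean vector of `s`
    set b0 : Fin p → Bool := fun i => decide (s i = 1) with hb0
    have hs0 : sgv b0 = s := by
      funext i
      unfold sgv
      rw [hb0]
      rcases hs i with h | h
      · simp [h]
      · simp only [h, decide_eq_true_eq]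
        rw [if_neg (by norm_num)]
    have e1 : ∀ b : Fin p → Bool, ∑ I : Finset (Fin p), (∏ i ∈ I, sgv b i) * ∏ i ∈ I, s i =
        2 ^ p * (if b = b0 then 1 else 0) := by
      intro b
      have h1 : ∑ I : Finset (Fin p), (∏ i ∈ I, sgv b i) * ∏ i ∈ I, s i = ∏ i, (1 + sgv b i * s i) := by
        rw [Finset.prod_one_add, Finset.powerset_univ]
        exact Finset.sum_congr rfl (fun I _ => (Finset.prod_mul_distrib).symm)
      have h2 : ∏ i, (1 + sgv b i * s i) = 2 ^ p * ∏ i, ((1 + sgv b i * s i) / 2) := by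
        rw [Finset.prod_div_distrib, Finset.prod_const, Finset.card_univ, Fintype.card_fin]
        field_simp
      rw [h1, h2, prod_half (sgv_or b) hs]
      congr 1
      have : (sgv b = s) ↔ (b = b0) := by
        constructor
        · intro h
          funext i
          have h3 : sgv b i = sgv b0 i := by rw [h, hs0]
          unfold sgv at h3
          cases hbi : b i <;> cases hb0i : b0 i <;> simp [hbi, hb0i] at h3 ⊢ <;> norm_num at h3
        · intro h
          rw [h, hs0]
      simp only [this]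
    calc g s = ∑ b : Fin p → Bool, (2 ^ p : ℝ)⁻¹ * g (sgv b) * (2 ^ p * (if b = b0 then 1 else 0)) := by
          rw [Finset.sum_eq_single b0]
          · rw [if_pos rfl, hs0]
            field_simp
          · intro b _ hb
            rw [if_neg hb]
            ring
          · intro h
            exact absurd (Finset.mem_univ _) h
      _ = ∑ b : Fin p → Bool, ∑ I : Finset (Fin p),
            (2 ^ p : ℝ)⁻¹ * g (sgv b) * ((∏ i ∈ I, sgv b i) * ∏ i ∈ I, s i) := by
          refine Finset.sum_congr rfl (fun b _ => ?_)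
          rw [← e1 b, Finset.mul_sum]
      _ = ∑ I : Finset (Fin p), ((2 ^ p : ℝ)⁻¹ * ∑ b : Fin p → Bool, g (sgv b) * ∏ i ∈ I, sgv b i) *
            ∏ i ∈ I, s i := by
          rw [Finset.sum_comm]
          refine Finset.sum_congr rfl (fun I _ => ?_)
          rw [mul_assoc, Finset.sum_mul, Finset.mul_sum]
          refine Finset.sum_congr rfl (fun b _ => ?_)
          ring

/-- the Walsh coefficients of `psi` on lists of length `p` -/
theorem psi_walsh (ep : ℝ) (p : ℕ) :
    ∃ c : Finset (Fin p) → ℝ, (∀ I, |c I| ≤ 1) ∧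
      ∀ s : Fin p → ℝ, (∀ i, s i = 1 ∨ s i = -1) → psi ep (List.ofFn s) = walsh c s :=
  walsh_exists p (fun s => psi ep (List.ofFn s)) 1 (fun _ => abs_psi _ _)

/-- a choice of the coefficients: universal, depends on `ep`, `p` and `I` only -/
def psiC (ep : ℝ) (p : ℕ) : Finset (Fin p) → ℝ := Classical.choose (psi_walsh ep p)

theorem abs_psiC (ep : ℝ) (p : ℕ) (I : Finset (Fin p)) : |psiC ep p I| ≤ 1 :=
  (Classical.choose_spec (psi_walsh ep p)).1 I

theorem psi_eq_walsh (ep : ℝ) (p : ℕ) (s : Fin p → ℝ) (hs : ∀ i, s i = 1 ∨ s i = -1) :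
    psi ep (List.ofFn s) = ∑ I : Finset (Fin p), psiC ep p I * ∏ i ∈ I, s i :=
  (Classical.choose_spec (psi_walsh ep p)).2 s hs

/-- the Walsh form for a list -/
theorem psi_list (ep : ℝ) (l : List ℝ) (hl : ∀ x ∈ l, x = 1 ∨ x = -1) :
    psi ep l = ∑ I : Finset (Fin l.length), psiC ep l.length I * ∏ i ∈ I, l.get i := by
  have h := psi_eq_walsh ep l.length l.get (fun i => hl _ (List.get_mem l i))
  rwa [List.ofFn_get] at h

end

end Pool.Agent.M3
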