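import Pool.Agent.M3.S1Clip

/-!
# M3.S1Node (section 1, 1.1): the RULE at one node (helper27)

One node: a cell `C` (finite set of pairs), a window `Q` (a probability on the fibre variable `d`), a finite type `T` of
sign tests with values `val tau p d = +-1`, the bounded function `F p d`.  The list of a pair is a list of births
`(time, number, test)`, head = last birth.  `step` = one birth if some test has at least `thr |C|` members (pairs of the
cell with correlation `>= ep`), otherwise nothing; `node n` = `n` steps.  After enough steps nothing happens any more.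
-/

set_option autoImplicit false
set_option linter.unusedSectionVars false

namespace Pool.Agent.M3

open Finset Pool.Agent.PWZ

noncomputable section

/-- a birth: time of the node, number of the birth at its node, test -/
structure Birth (T : Type*) where
  t : ℕ
  k : ℕ
  τ : T

variable {P V T : Type*}

/-- the structured function of a list -/
def struc (ep : ℝ) (val : T → P → V → ℝ) (l : List (Birth T)) (p : P) (d : V) : ℝ :=
  psi ep (l.map (fun b => val b.τ p d))

theorem abs_struc (ep : ℝ) (val : T → P → V → ℝ) (l : List (Birth T)) (p : P) (d : V) :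
    |struc ep val l p d| ≤ 1 := abs_psi _ _

@[simp] theorem struc_nil (ep : ℝ) (val : T → P → V → ℝ) (p : P) (d : V) : struc ep val [] p d = 0 := rfl

/-- the residual of a list -/
def resid (ep : ℝ) (val : T → P → V → ℝ) (F : P → V → ℝ) (l : List (Birth T)) (p : P) (d : V) : ℝ :=
  F p d - struc ep val l p d

theorem abs_resid {ep : ℝ} {val : T → P → V → ℝ} {F : P → V → ℝ} {p : P} {d : V} (hF : |F p d| ≤ 1)
    (l : List (Birth T)) : |resid ep val F l p d| ≤ 2 := by
  have h := abs_struc ep val l p d
  unfold resid
  calc |F p d - struc ep val l p d| ≤ |F p d| + |struc ep val l p d| := abs_sub _ _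
    _ ≤ 2 := by linarith

theorem resid_sq_le {ep : ℝ} {val : T → P → V → ℝ} {F : P → V → ℝ} {p : P} {d : V} (hF : |F p d| ≤ 1)
    (l : List (Birth T)) : (resid ep val F l p d) ^ 2 ≤ 4 := by
  have h := abs_resid (ep := ep) (val := val) hF l
  have h2 : |resid ep val F l p d| ^ 2 ≤ 2 ^ 2 := pow_le_pow_left₀ (abs_nonneg _) h 2
  rw [sq_abs] at h2
  linarith

/-- pointwise drop of the energy at a birth -/
theorem resid_cons {ep : ℝ} {val : T → P → V → ℝ} {F : P → V → ℝ} {p : P} {d : V} (hF : |F p d| ≤ 1)
    (b : Birth T) (hb : val b.τ p d ^ 2 = 1) (l : List (Birth T)) :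
    (resid ep val F (b :: l) p d) ^ 2 ≤
      (resid ep val F l p d) ^ 2 - ep * (resid ep val F l p d * val b.τ p d) + ep ^ 2 / 4 := by
  unfold resid struc
  rw [List.map_cons]
  exact sq_sub_psi_cons hF ep hb _

variable [Fintype V]

/-- correlation of the current residual with a test -/
def corr (ep : ℝ) (val : T → P → V → ℝ) (F : P → V → ℝ) (Q : FP V) (L : P → List (Birth T)) (τ : T) (p : P) : ℝ :=
  Q.E (fun d => resid ep val F (L p) p d * val τ p d)

/-- the members of a test -/
def mem (ep : ℝ) (val : T → P → V → ℝ) (F : P → V → ℝ) (Q : FP V) (C : Finset P) (L : P → List (Birth T))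
    (τ : T) : Finset P :=
  @Finset.filter P (fun p => ep ≤ corr ep val F Q L τ p) (Classical.decPred _) C

theorem mem_mem {ep : ℝ} {val : T → P → V → ℝ} {F : P → V → ℝ} {Q : FP V} {C : Finset P}
    {L : P → List (Birth T)} {τ : T} {p : P} :
    p ∈ mem ep val F Q C L τ ↔ p ∈ C ∧ ep ≤ corr ep val F Q L τ p := by
  unfold mem
  rw [Finset.mem_filter]

/-- some test has many members -/
def HitR (ep thr : ℝ) (val : T → P → V → ℝ) (F : P → V → ℝ) (Q : FP V) (C : Finset P)
    (L : P → List (Birth T)) : Prop :=
  ∃ τ : T, thr * C.card ≤ (mem ep val F Q C L τ).card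

open Classical in
/-- the test which is born (arbitrary but fixed) -/
def born [Nonempty T] (ep thr : ℝ) (val : T → P → V → ℝ) (F : P → V → ℝ) (Q : FP V) (C : Finset P)
    (L : P → List (Birth T)) : T :=
  if h : HitR ep thr val F Q C L then Classical.choose h else Classical.choice inferInstance

theorem born_spec [Nonempty T] {ep thr : ℝ} {val : T → P → V → ℝ} {F : P → V → ℝ} {Q : FP V} {C : Finset P}
    {L : P → List (Birth T)} (h : HitR ep thr val F Q C L) :
    thr * C.card ≤ (mem ep val F Q C L (born ep thr val F Q C L)).card := by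
  unfold born
  rw [dif_pos h]
  exact Classical.choose_spec h

open Classical in
/-- one step of the RULE: number `k` at the time `t` -/
def step [Nonempty T] (ep thr : ℝ) (val : T → P → V → ℝ) (F : P → V → ℝ) (Q : FP V) (C : Finset P)
    (t k : ℕ) (L : P → List (Birth T)) : P → List (Birth T) := fun p =>
  if HitR ep thr val F Q C L ∧ p ∈ mem ep val F Q C L (born ep thr val F Q C L) then
    ⟨t, k, born ep thr val F Q C L⟩ :: L p else L p

/-- `n` steps of the RULE -/
def node [Nonempty T] (ep thr : ℝ) (val : T → P → V → ℝ) (F : P → V → ℝ) (Q : FP V) (C : Finset P)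
    (t : ℕ) (L : P → List (Birth T)) : ℕ → P → List (Birth T)
  | 0 => L
  | k + 1 => step ep thr val F Q C t k (node ep thr val F Q C t L k)

section lemmas

variable [Nonempty T] {ep thr : ℝ} {val : T → P → V → ℝ} {F : P → V → ℝ} {Q : FP V} {C : Finset P}

/-- a step with a hit: the new list of a member -/
theorem step_mem {t k : ℕ} {L : P → List (Birth T)} (h : HitR ep thr val F Q C L) {p : P}
    (hp : p ∈ mem ep val F Q C L (born ep thr val F Q C L)) :
    step ep thr val F Q C t k L p = ⟨t, k, born ep thr val F Q C L⟩ :: L p := by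
  unfold step
  rw [if_pos ⟨h, hp⟩]

theorem step_not_mem {t k : ℕ} {L : P → List (Birth T)} {p : P}
    (hp : ¬ (HitR ep thr val F Q C L ∧ p ∈ mem ep val F Q C L (born ep thr val F Q C L))) :
    step ep thr val F Q C t k L p = L p := by
  unfold step
  rw [if_neg hp]

theorem step_of_not_hit {t k : ℕ} {L : P → List (Birth T)} (h : ¬ HitR ep thr val F Q C L) :
    step ep thr val F Q C t k L = L := by
  funext p
  exact step_not_mem (fun h' => h h'.1)

theorem step_not_cell {t k : ℕ} {L : P → List (Birth T)} {p : P} (hp : p ∉ C) :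
    step ep thr val F Q C t k L p = L p := step_not_mem (fun h => hp (mem_mem.1 h.2).1)

theorem node_not_cell {t : ℕ} {L : P → List (Birth T)} {p : P} (hp : p ∉ C) (k : ℕ) :
    node ep thr val F Q C t L k p = L p := by
  induction k with
  | zero => rfl
  | succ k ih =>
    show step ep thr val F Q C t k (node ep thr val F Q C t L k) p = L p
    rw [step_not_cell hp, ih]

/-- once there is no hit nothing happens any more -/
theorem node_stop {t : ℕ} {L : P → List (Birth T)} {j : ℕ} (h : ¬ HitR ep thr val F Q C (node ep thr val F Q C t L j))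
    {k : ℕ} (hjk : j ≤ k) : node ep thr val F Q C t L k = node ep thr val F Q C t L j := by
  induction k, hjk using Nat.le_induction with
  | base => rfl
  | succ k _ ih =>
    show step ep thr val F Q C t k (node ep thr val F Q C t L k) = _
    rw [ih, step_of_not_hit h]

/-- the energy of a pair -/
def energy (ep : ℝ) (val : T → P → V → ℝ) (F : P → V → ℝ) (Q : FP V) (l : List (Birth T)) (p : P) : ℝ :=
  Q.E (fun d => (resid ep val F l p d) ^ 2)

theorem energy_nonneg (l : List (Birth T)) (p : P) : 0 ≤ energy ep val F Q l p :=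
  Q.E_nonneg (fun _ _ => sq_nonneg _)

theorem energy_le {p : P} (hF : ∀ d, |F p d| ≤ 1) (l : List (Birth T)) : energy ep val F Q l p ≤ 4 :=
  Q.E_le_const (fun d _ => resid_sq_le (hF d) l)

theorem energy_nil_le {p : P} (hF : ∀ d, |F p d| ≤ 1) : energy ep val F Q [] p ≤ 1 := by
  refine Q.E_le_const (fun d _ => ?_)
  unfold resid
  rw [struc_nil, sub_zero]
  have h2 : |F p d| ^ 2 ≤ 1 ^ 2 := pow_le_pow_left₀ (abs_nonneg _) (hF d) 2
  rw [sq_abs] at h2
  linarith

/-- the drop of the energy of a member, up to the difference of two windows -/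
theorem energy_cons {p : P} (hF : ∀ d, |F p d| ≤ 1) (hval : ∀ τ d, val τ p d ^ 2 = 1) (b : Birth T)
    (l : List (Birth T)) (hb : ep ≤ Q.E (fun d => resid ep val F l p d * val b.τ p d)) (hep : 0 ≤ ep) :
    energy ep val F Q (b :: l) p ≤ energy ep val F Q l p - 3 / 4 * ep ^ 2 := by
  unfold energy
  have h1 : Q.E (fun d => (resid ep val F (b :: l) p d) ^ 2) ≤
      Q.E (fun d => (resid ep val F l p d) ^ 2 - ep * (resid ep val F l p d * val b.τ p d) + ep ^ 2 / 4) :=
    Q.E_mono (fun d _ => resid_cons (hF d) b (hval b.τ d) l)
  have h2 : Q.E (fun d => (resid ep val F l p d) ^ 2 - ep * (resid ep val F l p d * val b.τ p d) + ep ^ 2 / 4) =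
      Q.E (fun d => (resid ep val F l p d) ^ 2) - ep * Q.E (fun d => resid ep val F l p d * val b.τ p d) +
        ep ^ 2 / 4 := by
    rw [FP.E_add, FP.E_sub, FP.E_smul, FP.E_const]
  have h3 : ep * ep ≤ ep * Q.E (fun d => resid ep val F l p d * val b.τ p d) := mul_le_mul_of_nonneg_left hb hep
  nlinarith

/-- along the RULE the energy of every pair falls by `3/4 ep^2` per birth of the pair -/
theorem energy_node {p : P} (hF : ∀ d, |F p d| ≤ 1) (hval : ∀ τ d, val τ p d ^ 2 = 1) (hep : 0 ≤ ep) (t : ℕ)
    (L : P → List (Birth T)) (k : ℕ) :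
    energy ep val F Q (node ep thr val F Q C t L k p) p +
      3 / 4 * ep ^ 2 * ((node ep thr val F Q C t L k p).length - (L p).length : ℝ) ≤ energy ep val F Q (L p) p := by
  induction k with
  | zero =>
    show energy ep val F Q (L p) p + 3 / 4 * ep ^ 2 * ((L p).length - (L p).length : ℝ) ≤ _
    rw [sub_self, mul_zero, add_zero]
  | succ k ih =>
    set M := node ep thr val F Q C t L k with hM
    show energy ep val F Q (step ep thr val F Q C t k M p) p +
      3 / 4 * ep ^ 2 * ((step ep thr val F Q C t k M p).length - (L p).length : ℝ) ≤ _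
    by_cases h : HitR ep thr val F Q C M ∧ p ∈ mem ep val F Q C M (born ep thr val F Q C M)
    · rw [step_mem h.1 h.2]
      have h1 := energy_cons (Q := Q) (ep := ep) hF hval ⟨t, k, born ep thr val F Q C M⟩ (M p) (mem_mem.1 h.2).2 hep
      rw [List.length_cons]
      push_cast
      linarith
    · rw [step_not_mem h]
      exact ih

/-- the list only grows: new list = new births ++ old list -/
theorem node_suffix (t : ℕ) (L : P → List (Birth T)) (k : ℕ) (p : P) :
    L p <:+ node ep thr val F Q C t L k p := by
  induction k with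
  | zero => exact List.suffix_refl _
  | succ k ih =>
    show L p <:+ step ep thr val F Q C t k (node ep thr val F Q C t L k) p
    by_cases h : HitR ep thr val F Q C (node ep thr val F Q C t L k) ∧
        p ∈ mem ep val F Q C (node ep thr val F Q C t L k) (born ep thr val F Q C (node ep thr val F Q C t L k))
    · rw [step_mem h.1 h.2]
      exact ih.trans (List.suffix_cons _ _)
    · rw [step_not_mem h]
      exact ih

theorem length_le_node (t : ℕ) (L : P → List (Birth T)) (k : ℕ) (p : P) :
    (L p).length ≤ (node ep thr val F Q C t L k p).length := (node_suffix t L k p).length_le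

/-- the number of births of a pair at one node is at most `16 / (3 ep^2)` -/
theorem node_jump {p : P} (hF : ∀ d, |F p d| ≤ 1) (hval : ∀ τ d, val τ p d ^ 2 = 1) (hep : 0 < ep) (t : ℕ)
    (L : P → List (Birth T)) (k : ℕ) :
    ((node ep thr val F Q C t L k p).length - (L p).length : ℝ) ≤ 16 / (3 * ep ^ 2) := by
  have h := energy_node (thr := thr) (Q := Q) (C := C) hF hval hep.le t L k
  have h1 := energy_nonneg (ep := ep) (val := val) (F := F) (Q := Q) (node ep thr val F Q C t L k p) p
  have h2 := energy_le (ep := ep) (val := val) (Q := Q) hF (L p)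
  rw [le_div_iff₀ (by positivity)]
  nlinarith

open Classical in
/-- the number of public births among the first `k` steps -/
def nHit (ep thr : ℝ) (val : T → P → V → ℝ) (F : P → V → ℝ) (Q : FP V) (C : Finset P) (t : ℕ)
    (L : P → List (Birth T)) (k : ℕ) : ℕ :=
  ((range k).filter (fun j => HitR ep thr val F Q C (node ep thr val F Q C t L j))).card

theorem nHit_succ (t : ℕ) (L : P → List (Birth T)) (k : ℕ) :
    (nHit ep thr val F Q C t L (k + 1) : ℝ) =
      nHit ep thr val F Q C t L k + ind (HitR ep thr val F Q C (node ep thr val F Q C t L k)) := by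
  classical
  unfold nHit
  rw [Finset.range_add_one, Finset.filter_insert]
  by_cases h : HitR ep thr val F Q C (node ep thr val F Q C t L k)
  · rw [if_pos h, Finset.card_insert_of_notMem (by simp), ind_of h]
    push_cast
    ring
  · rw [if_neg h, ind_not h, add_zero]

/-- every public birth is thick: the births of the pairs of the cell -/
theorem nHit_le (t : ℕ) (L : P → List (Birth T)) (k : ℕ) :
    thr * C.card * nHit ep thr val F Q C t L k ≤
      ∑ p ∈ C, ((node ep thr val F Q C t L k p).length - (L p).length : ℝ) := by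
  classical
  induction k with
  | zero =>
    have h0 : nHit ep thr val F Q C t L 0 = 0 := rfl
    rw [h0]
    show _ ≤ ∑ p ∈ C, ((L p).length - (L p).length : ℝ)
    simp
  | succ k ih =>
    rw [nHit_succ]
    set M := node ep thr val F Q C t L k with hM
    have h1 : ∑ p ∈ C, ((node ep thr val F Q C t L (k + 1) p).length - (L p).length : ℝ) =
        ∑ p ∈ C, ((M p).length - (L p).length : ℝ) +
        ∑ p ∈ C, ind (HitR ep thr val F Q C M ∧ p ∈ mem ep val F Q C M (born ep thr val F Q C M)) := by
      rw [← Finset.sum_add_distrib]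
      refine Finset.sum_congr rfl (fun p _ => ?_)
      show ((step ep thr val F Q C t k M p).length - (L p).length : ℝ) = _
      by_cases h : HitR ep thr val F Q C M ∧ p ∈ mem ep val F Q C M (born ep thr val F Q C M)
      · rw [step_mem h.1 h.2, ind_of h, List.length_cons]
        push_cast
        ring
      · rw [step_not_mem h, ind_not h, add_zero]
    rw [h1]
    have h2 : thr * C.card * ind (HitR ep thr val F Q C M) ≤
        ∑ p ∈ C, ind (HitR ep thr val F Q C M ∧ p ∈ mem ep val F Q C M (born ep thr val F Q C M)) := by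
      by_cases h : HitR ep thr val F Q C M
      · rw [ind_of h, mul_one]
        refine (born_spec h).trans (le_of_eq ?_)
        have h3 : (mem ep val F Q C M (born ep thr val F Q C M)) =
            C.filter (fun p => p ∈ mem ep val F Q C M (born ep thr val F Q C M)) := by
          ext p
          rw [Finset.mem_filter]
          exact ⟨fun hp => ⟨(mem_mem.1 hp).1, hp⟩, fun hp => hp.2⟩
        rw [h3, Finset.card_filter]
        push_cast
        refine Finset.sum_congr rfl (fun p _ => ?_)
        rw [← h3]
        by_cases hp : p ∈ mem ep val F Q C M (born ep thr val F Q C M)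
        · rw [if_pos hp, ind_of ⟨h, hp⟩]
        · rw [if_neg hp, ind_not (fun h' => hp h'.2)]
      · rw [ind_not h, mul_zero]
        exact Finset.sum_nonneg (fun p _ => ind_nonneg _)
    nlinarith

/-- after `n > 16 / (3 ep^2 thr)` steps there is no hit -/
theorem node_end (hC : C.Nonempty) (hF : ∀ p ∈ C, ∀ d, |F p d| ≤ 1) (hval : ∀ τ, ∀ p ∈ C, ∀ d, val τ p d ^ 2 = 1)
    (hep : 0 < ep) (hthr : 0 < thr) (t : ℕ) (L : P → List (Birth T)) {n : ℕ} (hn : 16 / (3 * ep ^ 2 * thr) < n) :
    ¬ HitR ep thr val F Q C (node ep thr val F Q C t L n) := by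
  classical
  intro hhit
  have hall : ∀ j < n, HitR ep thr val F Q C (node ep thr val F Q C t L j) := by
    intro j hj
    by_contra hcon
    exact hcon (by rw [← node_stop hcon hj.le]; exact hhit)
  have h1 : nHit ep thr val F Q C t L n = n := by
    unfold nHit
    rw [Finset.filter_true_of_mem (fun j hj => hall j (Finset.mem_range.1 hj)), Finset.card_range]
  have h2 := nHit_le (ep := ep) (thr := thr) (val := val) (F := F) (Q := Q) (C := C) t L n
  rw [h1] at h2
  have h3 : ∑ p ∈ C, ((node ep thr val F Q C t L n p).length - (L p).length : ℝ) ≤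
      ∑ _p ∈ C, (16 / (3 * ep ^ 2) : ℝ) := by
    refine Finset.sum_le_sum (fun p hp => ?_)
    exact node_jump (hF p hp) (fun τ d => hval τ p hp d) hep t L n
  rw [Finset.sum_const, nsmul_eq_mul] at h3
  have hc : (0 : ℝ) < C.card := by exact_mod_cast hC.card_pos
  have h4 : thr * n ≤ 16 / (3 * ep ^ 2) := by
    have h5 : (C.card : ℝ) * (thr * n) ≤ C.card * (16 / (3 * ep ^ 2)) := by nlinarith
    exact le_of_mul_le_mul_left h5 hc
  rw [div_lt_iff₀ (by positivity)] at hn
  rw [le_div_iff₀ (by positivity)] at h4
  nlinarith

/-- at the end of the RULE no test has many members -/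
theorem not_hit_iff {L : P → List (Birth T)} (h : ¬ HitR ep thr val F Q C L) (τ : T) :
    ∑ p ∈ C, ind (ep ≤ Q.E (fun d => resid ep val F (L p) p d * val τ p d)) ≤ thr * C.card := by
  classical
  have h1 : ((mem ep val F Q C L τ).card : ℝ) =
      ∑ p ∈ C, ind (ep ≤ Q.E (fun d => resid ep val F (L p) p d * val τ p d)) := by
    unfold mem
    rw [Finset.card_filter]
    push_cast
    refine Finset.sum_congr rfl (fun p _ => ?_)
    by_cases hp : ep ≤ corr ep val F Q L τ p
    · rw [if_pos hp]
      exact (ind_of hp).symm
    · rw [if_neg hp]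
      exact (ind_not hp).symm
  rw [← h1]
  by_contra hcon
  exact h ⟨τ, (not_le.1 hcon).le⟩

end lemmas

end

end Pool.Agent.M3
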