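import Pool.Agent.M3.TSStep

/-!
# M3 TSNames: names of a moving family (helper39)

Output for accuracy `η`, density `ε`: `F` (names), `B` (births: lists at a node and a cell) with
`HF (U - F) η (2 ε)`, births of density `≥ ε` in their cell, `E #births ≤ (32 / η²) E #moves`.
Construction: top down along the nodes, `cell_step` in every cell. Energy
`E <|U - F|²>_ρ(node)`: martingale except at births (`- η²/8`) and moves (`+ 4`).
-/

set_option autoImplicit false

namespace Pool.Agent.M3.TS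

open Finset Pool.Agent.PWZ

variable {Om 𝒳 V Γ κ : Type*} [Fintype Om] [Fintype 𝒳] [Fintype V] {P : FP Om} {X : Om → 𝒳} {n : ℕ}
  {nd : ℕ → Om → Γ} {cl : ℕ → 𝒳 → κ} {ρ : ℕ → Γ → V → ℝ} {par : ℕ → Γ → Γ}

/-! ### consequences of the free law -/

theorem ce_mart (hS : Side P X n nd cl ρ par) {t : ℕ} (ht : t < n) (c : V) {w : Om} (hw : P.p w ≠ 0) :
    P.ce (fun w => (X w, nd t w)) (fun v => ρ (t + 1) (nd (t + 1) v) c) w = ρ t (nd t w) c := by
  have h0 := P.m_pos (fun w => (X w, nd t w)) hw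
  have h1 := hS.mart t ht (nd t w) (X w) c
  have e : ∀ v, ((X v, nd t v) = (X w, nd t w)) = (X v = X w ∧ nd t v = nd t w) := fun v =>
    propext Prod.mk_inj
  unfold FP.ce FP.m at *
  simp only [e] at h0 ⊢
  rw [h1]
  unfold FP.Pr
  field_simp

theorem E_mart (hS : Side P X n nd cl ρ par) {t : ℕ} (ht : t < n) (Φ : Om → V → ℝ)
    (hΦ : ∀ c, Fac (fun w => (X w, nd t w)) (fun w => Φ w c)) :
    P.E (fun w => ∑ c, ρ (t + 1) (nd (t + 1) w) c * Φ w c) = P.E (fun w => ∑ c, ρ t (nd t w) c * Φ w c) := by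
  rw [P.E_sum, P.E_sum]
  refine Finset.sum_congr rfl fun c _ => ?_
  rw [← P.E_ce_mul (hΦ c) (fun v => ρ (t + 1) (nd (t + 1) v) c)]
  exact P.E_congr fun w hw => by rw [ce_mart hS ht c hw]

theorem free_avg (hS : Side P X n nd cl ρ par) (t : ℕ) (Ψ : Γ → 𝒳 → ℝ) :
    P.E (fun w => Ψ (nd t w) (X w)) = P.E (fun w => (∑ x, Ψ (nd t w) x) / (Fintype.card 𝒳 : ℝ)) := by
  classical
  have hce : ∀ x w, P.p w ≠ 0 → P.ce (nd t) (fun v => ind (X v = x)) w = 1 / (Fintype.card 𝒳 : ℝ) := by
    intro x w hw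
    have h0 := P.m_pos (nd t) hw
    have hcard : (0 : ℝ) < (Fintype.card 𝒳 : ℝ) := by
      exact_mod_cast Fintype.card_pos_iff.mpr ⟨x⟩
    have h1 : ∀ x', P.Pr (fun v => X v = x' ∧ nd t v = nd t w) = P.Pr (fun v => X v = x ∧ nd t v = nd t w) :=
      fun x' => hS.free t (nd t w) x' x
    have h2 : ∑ x', P.Pr (fun v => X v = x' ∧ nd t v = nd t w) = P.m (nd t) w := by
      unfold FP.Pr FP.m
      rw [← P.E_sum]
      refine P.E_congr fun v _ => ?_
      rw [Finset.sum_eq_single (X v)]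
      · by_cases h : nd t v = nd t w
        · rw [ind_of ⟨rfl, h⟩, ind_of h]
        · rw [ind_not (fun h' => h h'.2), ind_not h]
      · intro b _ hb
        exact ind_not fun h => hb h.1.symm
      · intro h
        exact absurd (Finset.mem_univ _) h
    rw [Finset.sum_congr rfl (fun x' _ => h1 x'), Finset.sum_const, Finset.card_univ, nsmul_eq_mul] at h2
    unfold FP.ce
    have h3 : P.E (fun v => ind (nd t v = nd t w) * ind (X v = x)) =
        P.Pr (fun v => X v = x ∧ nd t v = nd t w) := by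
      unfold FP.Pr
      refine P.E_congr fun v _ => ?_
      rw [ind_and, mul_comm]
    rw [h3, div_eq_div_iff h0.ne' hcard.ne', one_mul, ← h2]
    ring
  have h1 : P.E (fun w => Ψ (nd t w) (X w)) = ∑ x, P.E (fun w => Ψ (nd t w) x * ind (X w = x)) := by
    rw [← P.E_sum]
    refine P.E_congr fun w _ => ?_
    rw [Finset.sum_eq_single (X w)]
    · rw [ind_of rfl, mul_one]
    · intro b _ hb
      rw [ind_not fun h => hb h.symm, mul_zero]
    · intro h
      exact absurd (Finset.mem_univ _) h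
  rw [h1]
  have h2 : ∀ x, P.E (fun w => Ψ (nd t w) x * ind (X w = x)) =
      P.E (fun w => Ψ (nd t w) x * (1 / (Fintype.card 𝒳 : ℝ))) := by
    intro x
    have hf : Fac (nd t) (fun w => Ψ (nd t w) x) := fun v w h => by
      show Ψ (nd t v) x = Ψ (nd t w) x
      rw [h]
    rw [← P.E_mul_ce hf (fun w => ind (X w = x))]
    exact P.E_congr fun w hw => by rw [hce x w hw]
  rw [Finset.sum_congr rfl fun x _ => h2 x, ← P.E_sum]
  refine P.E_congr fun w _ => ?_
  rw [← Finset.sum_mul]
  ring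

/-! ### the recursion -/

theorem names_rec (hρ : ∀ t g, Wt (ρ t g)) (cl : ℕ → 𝒳 → κ) (par : ℕ → Γ → Γ) (U : ℕ → Γ → 𝒳 → V → ℝ)
    (hU : ∀ t g x c, |U t g x c| ≤ 1) {η ε : ℝ} (hη : 0 < η) (hε : 0 < ε) :
    ∃ (F : ℕ → Γ → 𝒳 → V → ℝ) (B : ℕ → Γ → κ → List (Finset 𝒳)),
      (∀ g x c, F 0 g x c = 0) ∧ (∀ g k, B 0 g k = []) ∧
      (∀ t g x c, |F t g x c| ≤ 1) ∧
      ∀ t g k,
        (∀ x, cl (t + 1) x = k → (∀ S ∈ B (t + 1) g k, x ∉ S) → F (t + 1) g x = F t (par t g) x) ∧
        (∀ x x', cl (t + 1) x = k → cl (t + 1) x' = k → F t (par t g) x = F t (par t g) x' →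
          Same (B (t + 1) g k) x x' → F (t + 1) g x = F (t + 1) g x') ∧
        HC (ρ (t + 1) g) (cel (cl (t + 1)) k) (fun x c => U (t + 1) g x c - F (t + 1) g x c) η (2 * ε) ∧
        (∀ S ∈ B (t + 1) g k, S ⊆ cel (cl (t + 1)) k) ∧
        (∀ S ∈ B (t + 1) g k, ε * ((cel (cl (t + 1)) k).card : ℝ) ≤ (S.card : ℝ)) ∧
        (∀ x, cl (t + 1) x = k →
          iw (ρ (t + 1) g) (fun c => U (t + 1) g x c - F (t + 1) g x c)
            (fun c => U (t + 1) g x c - F (t + 1) g x c) + η ^ 2 / 8 * cnt (B (t + 1) g k) x ≤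
          iw (ρ (t + 1) g) (fun c => U (t + 1) g x c - F t (par t g) x c)
            (fun c => U (t + 1) g x c - F t (par t g) x c)) := by
  have H := fun (t : ℕ) (g : Γ) (k : κ) (g0 : 𝒳 → V → ℝ) (hg0 : ∀ x c, |g0 x c| ≤ 1) =>
    cell_step (hρ (t + 1) g) (cel (cl (t + 1)) k) (U (t + 1) g) g0 (hU (t + 1) g) hg0 hη hε
  choose L g h1 h2 h3 h4 h5 h6 h7 using H
  let st : ℕ → Γ → {f : 𝒳 → V → ℝ // ∀ x c, |f x c| ≤ 1} := fun t =>
    Nat.rec (motive := fun _ => Γ → {f : 𝒳 → V → ℝ // ∀ x c, |f x c| ≤ 1})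
      (fun _ => ⟨fun _ _ => 0, fun _ _ => by simp⟩)
      (fun t ih γ => ⟨fun x => g t γ (cl (t + 1) x) (ih (par t γ)).1 (ih (par t γ)).2 x,
        fun x c => h1 t γ (cl (t + 1) x) (ih (par t γ)).1 (ih (par t γ)).2 x c⟩) t
  let B : ℕ → Γ → κ → List (Finset 𝒳) := fun t =>
    Nat.casesOn (motive := fun _ => Γ → κ → List (Finset 𝒳)) t (fun _ _ => [])
      (fun t γ k => L t γ k (st t (par t γ)).1 (st t (par t γ)).2)
  refine ⟨fun t γ => (st t γ).1, B, fun _ _ _ => rfl, fun _ _ => rfl, fun t γ => (st t γ).2,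
    fun t γ k => ⟨?_, ?_, ?_, ?_, ?_, ?_⟩⟩
  · rintro x rfl hx
    exact h2 t γ (cl (t + 1) x) (st t (par t γ)).1 (st t (par t γ)).2 x hx
  · rintro x x' rfl hx' h h'
    have := h3 t γ (cl (t + 1) x) (st t (par t γ)).1 (st t (par t γ)).2 x x' h h'
    show g t γ (cl (t + 1) x) (st t (par t γ)).1 (st t (par t γ)).2 x =
      g t γ (cl (t + 1) x') (st t (par t γ)).1 (st t (par t γ)).2 x'
    rw [hx']
    exact this
  · intro w hw
    refine le_trans (le_of_eq ?_) (h4 t γ k (st t (par t γ)).1 (st t (par t γ)).2 w hw)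
    refine Finset.sum_congr rfl fun x hx => ?_
    have hk : cl (t + 1) x = k := mem_cel.1 hx
    show ind (η < |iw (ρ (t + 1) γ) (fun c => U (t + 1) γ x c -
      g t γ (cl (t + 1) x) (st t (par t γ)).1 (st t (par t γ)).2 x c) w|) = _
    rw [hk]
  · exact h5 t γ k (st t (par t γ)).1 (st t (par t γ)).2
  · exact h6 t γ k (st t (par t γ)).1 (st t (par t γ)).2
  · rintro x rfl
    exact h7 t γ (cl (t + 1) x) (st t (par t γ)).1 (st t (par t γ)).2 x

theorem names_exist (hS : Side P X n nd cl ρ par) (U : ℕ → Γ → 𝒳 → V → ℝ) (hU : ∀ t g x c, |U t g x c| ≤ 1)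
    (hU0 : ∀ g x c, U 0 g x c = 0) {η ε : ℝ} (hη : 0 < η) (hε : 0 < ε) :
    ∃ (F : ℕ → Γ → 𝒳 → V → ℝ) (B : ℕ → Γ → κ → List (Finset 𝒳)),
      (∀ g x c, F 0 g x c = 0) ∧
      (∀ t g x c, |F t g x c| ≤ 1) ∧
      LMeas n nd cl B F ∧
      HF n nd cl ρ (fun t g x c => U t g x c - F t g x c) η (2 * ε) ∧
      (∀ t g k, ∀ S ∈ B t g k, S ⊆ cel (cl t) k ∧ ε * ((cel (cl t) k).card : ℝ) ≤ (S.card : ℝ)) ∧
      births P X n nd cl B ≤ 32 / η ^ 2 * moves P X n nd U := by
  obtain ⟨F, B, hF0, hB0, hF1, hR⟩ := names_rec hS.wt cl par U hU hη hε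
  refine ⟨F, B, hF0, hF1, ⟨?_, ?_, ?_⟩, ?_, ?_, ?_⟩
  · intro w w' x x'
    funext c
    rw [hF0, hF0]
  · intro t _ w x hx
    have := (hR t (nd (t + 1) w) (cl (t + 1) x)).1 x rfl hx
    rw [this, hS.par_nd]
  · intro t _ w x x' hk h h'
    have := (hR t (nd (t + 1) w) (cl (t + 1) x)).2.1 x x' rfl hk.symm
    rw [hS.par_nd] at this
    exact this h h'
  · intro t _ w k
    cases t with
    | zero =>
      intro w' _
      have : ∀ x ∈ cel (cl 0) k, ind (η < |iw (ρ 0 (nd 0 w)) (fun c => U 0 (nd 0 w) x c - F 0 (nd 0 w) x c) w'|) =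
          0 := by
        intro x _
        refine ind_not ?_
        have h : iw (ρ 0 (nd 0 w)) (fun c => U 0 (nd 0 w) x c - F 0 (nd 0 w) x c) w' = 0 := by
          unfold iw
          refine Finset.sum_eq_zero fun c _ => ?_
          simp only [hU0, hF0]
          ring
        rw [h, abs_zero]
        exact not_lt.2 hη.le
      rw [Finset.sum_congr rfl this, Finset.sum_const_zero]
      positivity
    | succ t => exact (hR t (nd (t + 1) w) k).2.2.1
  · intro t g k
    cases t with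
    | zero =>
      intro S hS'
      rw [hB0] at hS'
      exact absurd hS' List.not_mem_nil
    | succ t => exact fun S h => ⟨(hR t g k).2.2.2.1 S h, (hR t g k).2.2.2.2.1 S h⟩
  · -- energy
    set En : ℕ → ℝ := fun t => P.E (fun w => iw (ρ t (nd t w))
      (fun c => U t (nd t w) (X w) c - F t (nd t w) (X w) c)
      (fun c => U t (nd t w) (X w) c - F t (nd t w) (X w) c)) with hEn
    have hstep : ∀ t < n, En (t + 1) + η ^ 2 / 8 *
        P.E (fun w => cnt (B (t + 1) (nd (t + 1) w) (cl (t + 1) (X w))) (X w)) ≤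
        En t + 4 * P.Pr (fun w => U (t + 1) (nd (t + 1) w) (X w) ≠ U t (nd t w) (X w)) := by
      intro t ht
      have e1 : En (t + 1) + η ^ 2 / 8 *
          P.E (fun w => cnt (B (t + 1) (nd (t + 1) w) (cl (t + 1) (X w))) (X w)) ≤
          P.E (fun w => iw (ρ (t + 1) (nd (t + 1) w))
            (fun c => U (t + 1) (nd (t + 1) w) (X w) c - F t (nd t w) (X w) c)
            (fun c => U (t + 1) (nd (t + 1) w) (X w) c - F t (nd t w) (X w) c)) := by
        rw [hEn]
        simp only
        rw [← P.E_smul, ← P.E_add]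
        refine P.E_mono fun w _ => ?_
        have := (hR t (nd (t + 1) w) (cl (t + 1) (X w))).2.2.2.2.2 (X w) rfl
        rw [hS.par_nd] at this
        exact this
      have e2 : P.E (fun w => iw (ρ (t + 1) (nd (t + 1) w))
            (fun c => U (t + 1) (nd (t + 1) w) (X w) c - F t (nd t w) (X w) c)
            (fun c => U (t + 1) (nd (t + 1) w) (X w) c - F t (nd t w) (X w) c)) ≤
          P.E (fun w => ∑ c, ρ (t + 1) (nd (t + 1) w) c *
            (U t (nd t w) (X w) c - F t (nd t w) (X w) c) ^ 2) +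
          4 * P.Pr (fun w => U (t + 1) (nd (t + 1) w) (X w) ≠ U t (nd t w) (X w)) := by
        unfold FP.Pr
        rw [← P.E_smul, ← P.E_add]
        refine P.E_mono fun w _ => ?_
        by_cases h : U (t + 1) (nd (t + 1) w) (X w) ≠ U t (nd t w) (X w)
        · rw [ind_of h]
          have h1 := abs_iw_le (hS.wt (t + 1) (nd (t + 1) w))
            (fun c => U (t + 1) (nd (t + 1) w) (X w) c - F t (nd t w) (X w) c)
            (fun c => U (t + 1) (nd (t + 1) w) (X w) c - F t (nd t w) (X w) c)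
            (by norm_num : (0 : ℝ) ≤ 2) (by norm_num : (0 : ℝ) ≤ 2)
            (fun c => by
              have h2 := hU (t + 1) (nd (t + 1) w) (X w) c
              have h3 := hF1 t (nd t w) (X w) c
              rw [abs_le] at h2 h3 ⊢
              constructor <;> linarith [h2.1, h2.2, h3.1, h3.2])
            (fun c => by
              have h2 := hU (t + 1) (nd (t + 1) w) (X w) c
              have h3 := hF1 t (nd t w) (X w) c
              rw [abs_le] at h2 h3 ⊢
              constructor <;> linarith [h2.1, h2.2, h3.1, h3.2])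
          have h4 := (le_abs_self _).trans h1
          have h5 : 0 ≤ ∑ c, ρ (t + 1) (nd (t + 1) w) c * (U t (nd t w) (X w) c - F t (nd t w) (X w) c) ^ 2 :=
            Finset.sum_nonneg fun c _ => mul_nonneg ((hS.wt _ _).nn c) (sq_nonneg _)
          linarith
        · rw [ind_not h]
          rw [not_not] at h
          rw [h, mul_zero, add_zero]
          unfold iw
          refine le_of_eq (Finset.sum_congr rfl fun c _ => ?_)
          ring
      have e3 := E_mart hS ht (fun w c => (U t (nd t w) (X w) c - F t (nd t w) (X w) c) ^ 2)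
        (fun c v w h => by
          have h1 : X v = X w := congrArg Prod.fst h
          have h2 : nd t v = nd t w := congrArg Prod.snd h
          show (U t (nd t v) (X v) c - F t (nd t v) (X v) c) ^ 2 = _
          rw [h1, h2])
      have e4 : P.E (fun w => ∑ c, ρ t (nd t w) c * (U t (nd t w) (X w) c - F t (nd t w) (X w) c) ^ 2) = En t := by
        rw [hEn]
        refine P.E_congr fun w _ => ?_
        unfold iw
        refine Finset.sum_congr rfl fun c _ => ?_
        ring
      rw [e4] at e3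
      linarith
    have hsum : ∀ N ≤ n, En N + η ^ 2 / 8 *
        ∑ t ∈ range N, P.E (fun w => cnt (B (t + 1) (nd (t + 1) w) (cl (t + 1) (X w))) (X w)) ≤
        4 * ∑ t ∈ range N, P.Pr (fun w => U (t + 1) (nd (t + 1) w) (X w) ≠ U t (nd t w) (X w)) := by
      intro N
      induction N with
      | zero =>
        intro _
        have h0 : En 0 = 0 := by
          rw [hEn]
          simp only
          rw [show (fun w => iw (ρ 0 (nd 0 w)) (fun c => U 0 (nd 0 w) (X w) c - F 0 (nd 0 w) (X w) c)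
            (fun c => U 0 (nd 0 w) (X w) c - F 0 (nd 0 w) (X w) c)) = fun _ => 0 from by
            funext w
            unfold iw
            refine Finset.sum_eq_zero fun c _ => ?_
            simp only [hU0, hF0]
            ring]
          exact P.E_const 0
        rw [h0]
        simp
      | succ N ih =>
        intro hN
        have h1 := ih (by omega)
        have h2 := hstep N (by omega)
        rw [Finset.sum_range_succ, Finset.sum_range_succ, mul_add, mul_add]
        linarith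
    have h1 := hsum n le_rfl
    have h2 : 0 ≤ En n := P.E_nonneg fun w _ => iw_self_nonneg (hS.wt _ _) _
    unfold births moves
    have h3 : (0 : ℝ) < η ^ 2 / 8 := by positivity
    have h4 : η ^ 2 / 8 * ∑ t ∈ range n, P.E (fun w => cnt (B (t + 1) (nd (t + 1) w) (cl (t + 1) (X w))) (X w)) ≤
        4 * ∑ t ∈ range n, P.Pr (fun w => U (t + 1) (nd (t + 1) w) (X w) ≠ U t (nd t w) (X w)) := by linarith
    rw [show (32 : ℝ) / η ^ 2 = 4 / (η ^ 2 / 8) by field_simp; norm_num, div_mul_eq_mul_div, le_div_iff₀ h3]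
    linarith

/-- in a cell every birth has density `≥ ε`: total number of births in the cell of `X` -/
theorem births'_le (hS : Side P X n nd cl ρ par) (B : ℕ → Γ → κ → List (Finset 𝒳)) {ε : ℝ} (hε : 0 < ε)
    (hB : ∀ t g k, ∀ S ∈ B t g k, S ⊆ cel (cl t) k ∧ ε * ((cel (cl t) k).card : ℝ) ≤ (S.card : ℝ)) :
    births' P X n nd cl B ≤ births P X n nd cl B / ε := by
  classical
  unfold births' births
  rw [Finset.sum_div]
  refine Finset.sum_le_sum fun t _ => ?_
  rw [le_div_iff₀ hε, mul_comm, ← P.E_smul]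
  have h1 := free_avg hS (t + 1) (fun g x => ε * ((B (t + 1) g (cl (t + 1) x)).length : ℝ))
  have h2 := free_avg hS (t + 1) (fun g x => cnt (B (t + 1) g (cl (t + 1) x)) x)
  rw [h1, h2]
  refine P.E_mono fun w _ => ?_
  refine div_le_div_of_nonneg_right ?_ (Nat.cast_nonneg _)
  set g := nd (t + 1) w with hg
  have hmaps : ∀ x ∈ (Finset.univ : Finset 𝒳), cl (t + 1) x ∈ Finset.univ.image (cl (t + 1)) :=
    fun x _ => Finset.mem_image_of_mem _ (Finset.mem_univ x)
  rw [← Finset.sum_fiberwise_of_maps_to hmaps (fun x => ε * ((B (t + 1) g (cl (t + 1) x)).length : ℝ)),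
    ← Finset.sum_fiberwise_of_maps_to hmaps (fun x => cnt (B (t + 1) g (cl (t + 1) x)) x)]
  refine Finset.sum_le_sum fun k _ => ?_
  have hcel : (Finset.univ.filter fun x => cl (t + 1) x = k) = cel (cl (t + 1)) k := by
    ext x
    simp [mem_cel]
  rw [hcel]
  have e1 : ∑ x ∈ cel (cl (t + 1)) k, ε * ((B (t + 1) g (cl (t + 1) x)).length : ℝ) =
      ((B (t + 1) g k).length : ℝ) * (ε * ((cel (cl (t + 1)) k).card : ℝ)) := by
    rw [Finset.sum_congr rfl (g := fun _ => ε * ((B (t + 1) g k).length : ℝ)) (fun x hx => by rw [mem_cel.1 hx]),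
      Finset.sum_const, nsmul_eq_mul]
    ring
  have e2 : ∑ x ∈ cel (cl (t + 1)) k, cnt (B (t + 1) g (cl (t + 1) x)) x =
      ∑ x ∈ cel (cl (t + 1)) k, cnt (B (t + 1) g k) x :=
    Finset.sum_congr rfl fun x hx => by rw [mem_cel.1 hx]
  rw [e1, e2]
  have key : ∀ L : List (Finset 𝒳), (∀ S ∈ L, S ⊆ cel (cl (t + 1)) k ∧
      ε * ((cel (cl (t + 1)) k).card : ℝ) ≤ (S.card : ℝ)) →
      (L.length : ℝ) * (ε * ((cel (cl (t + 1)) k).card : ℝ)) ≤ ∑ x ∈ cel (cl (t + 1)) k, cnt L x := by
    intro L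
    induction L with
    | nil => intro _; simp [cnt_nil]
    | cons S L ih =>
      intro h
      have h1 := ih fun S' h' => h S' (List.mem_cons_of_mem _ h')
      obtain ⟨h2, h3⟩ := h S List.mem_cons_self
      simp only [cnt_cons, List.length_cons]
      rw [Finset.sum_add_distrib]
      push_cast
      have h4 : ∑ x ∈ cel (cl (t + 1)) k, ind (x ∈ S) = (S.card : ℝ) := by
        have h5 : ∀ x ∈ cel (cl (t + 1)) k, ind (x ∈ S) = if x ∈ S then (1 : ℝ) else 0 := by
          intro x _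
          by_cases hx : x ∈ S
          · rw [ind_of hx, if_pos hx]
          · rw [ind_not hx, if_neg hx]
        rw [Finset.sum_congr rfl h5, Finset.sum_boole]
        congr 2
        exact Finset.filter_mem_eq_inter.trans (Finset.inter_eq_right.2 h2)
      rw [h4]
      linarith
  exact key _ fun S h => hB (t + 1) g k S h

end Pool.Agent.M3.TS
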