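/-
M3 (MP_4d8f14_an), section 6, module B2Win (helper66).
The block lemmas of PWZ for windows with arbitrary centres: if the sharp averages over
`[u - N_k, u + N_k]` and `[u' - N_k', u' + N_k']` (`|u| ≤ N_k`, `|u'| ≤ N_k'`) differ, then with
probability at least `(1/(2d))^2` over the noises the smoothed averages along the path differ.
-/
import Mathlib
import Pool.Agent.PWZ.EndPoint

set_option autoImplicit false

open Finset Pool.Agent.PWZ Pool.PWZ

namespace Pool.M3B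

/-- the positions along a path whose steps are casts of integers near given centres -/
theorem IsP_posc {M : ℕ} (S : ℕ → Finset (ZMod M)) (cen : ℕ → ℤ) (B : ℕ → ℕ)
    (hS : ∀ t, ∀ s ∈ S t, ∃ u : ℤ, |u - cen t| ≤ (B t : ℤ) ∧ s = (u : ZMod M)) (T : ℕ)
    (y : ZMod M) (l : List (ZMod M)) (h : IsP S T y l) :
    l.length = T + 1 ∧ ∀ t ≤ T, ∃ W : ℤ,
      |W - ∑ i ∈ Finset.Ico t T, cen i| ≤ ∑ i ∈ Finset.Ico t T, (B i : ℤ) ∧
      (l.drop (T - t)).headD 0 = y + (W : ZMod M) := by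
  induction T generalizing y l with
  | zero =>
    have hl : l = [y] := h
    subst hl
    refine ⟨rfl, fun t ht => ⟨0, ?_, ?_⟩⟩
    · simp
    · have : t = 0 := by omega
      subst this
      simp
  | succ T ih =>
    obtain ⟨s, hs, l', hl', rfl⟩ := h
    obtain ⟨h1, h2⟩ := ih (y + s) l' hl'
    refine ⟨by simp [h1], fun t ht => ?_⟩
    rcases Nat.lt_or_ge T t with htT | htT
    · have : t = T + 1 := by omega
      subst this
      refine ⟨0, by simp, by simp⟩
    · obtain ⟨W, hW1, hW2⟩ := h2 t htT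
      obtain ⟨u, hu1, hu2⟩ := hS T s hs
      refine ⟨W + u, ?_, ?_⟩
      · rw [Finset.sum_Ico_succ_top htT, Finset.sum_Ico_succ_top htT]
        have e : W + u - (∑ i ∈ Finset.Ico t T, cen i + cen T) =
            (W - ∑ i ∈ Finset.Ico t T, cen i) + (u - cen T) := by ring
        rw [e]
        exact (abs_add_le _ _).trans (add_le_add hW1 hu1)
      · rw [show T + 1 - t = (T - t) + 1 by omega, List.drop_succ_cons, hW2, hu2]
        push_cast
        ring

/-- steps near the centre `u1` at the time `t1`, near `u2` at the time `t2` -/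
noncomputable def zSc (N : ℕ → ℕ) (T M d t1 t2 : ℕ) (u1 u2 : ℤ) (t : ℕ) : Finset (ZMod M) :=
  if t = t1 ∨ t = t2 then
    ((Finset.Icc (-(N (T - 1 - t) : ℤ)) (N (T - 1 - t) : ℤ)).filter
      (fun u => |u - (if t = t1 then u1 else u2)| ≤ ((N (T - 1 - t) / d : ℕ) : ℤ))).image
      (fun u : ℤ => (u : ZMod M))
  else zE N T M t

lemma zSc_sub (N : ℕ → ℕ) (T M d t1 t2 : ℕ) (u1 u2 : ℤ) (h1 : t1 < T) (h2 : t2 < T) (t : ℕ) :
    zSc N T M d t1 t2 u1 u2 t ⊆ zE N T M t := by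
  unfold zSc
  split_ifs with h
  · have ht : t < T := by omega
    unfold zE
    rw [if_pos ht]
    exact Finset.image_subset_image (Finset.filter_subset _ _)
  · have ht : t < T := by omega
    unfold zE
    rw [if_pos ht]
    exact Finset.image_subset_image (Finset.filter_subset _ _)
  · exact Finset.Subset.refl _

/-- the number of integers of `[-N, N]` near a centre -/
lemma card_near (N q : ℕ) (hq : q ≤ N) (u : ℤ) (hu : |u| ≤ (N : ℤ)) :
    q + 1 ≤ ((Finset.Icc (-(N : ℤ)) (N : ℤ)).filter (fun v => |v - u| ≤ (q : ℤ))).card := by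
  rw [abs_le] at hu
  rcases le_total u 0 with h0 | h0
  · have hsub : Finset.Icc u (u + q) ⊆
        (Finset.Icc (-(N : ℤ)) (N : ℤ)).filter (fun v => |v - u| ≤ (q : ℤ)) := by
      intro v hv
      rw [Finset.mem_Icc] at hv
      rw [Finset.mem_filter, Finset.mem_Icc, abs_le]
      omega
    have := Finset.card_le_card hsub
    rw [Int.card_Icc] at this
    omega
  · have hsub : Finset.Icc (u - q) u ⊆
        (Finset.Icc (-(N : ℤ)) (N : ℤ)).filter (fun v => |v - u| ≤ (q : ℤ)) := by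
      intro v hv
      rw [Finset.mem_Icc] at hv
      rw [Finset.mem_filter, Finset.mem_Icc, abs_le]
      omega
    have := Finset.card_le_card hsub
    rw [Int.card_Icc] at this
    omega

lemma zSc_ratio (N : ℕ → ℕ) (T M d t1 t2 : ℕ) (u1 u2 : ℤ) (t : ℕ)
    (h : ∀ k < T, 2 * N k + 1 ≤ M) (hd : 1 ≤ d) (ht : t < T) (htt : t = t1 ∨ t = t2)
    (hu1 : |u1| ≤ (N (T - 1 - t1) : ℤ)) (hu2 : |u2| ≤ (N (T - 1 - t2) : ℤ)) :
    1 / (2 * (d : ℝ)) ≤
      ((zSc N T M d t1 t2 u1 u2 t).card : ℝ) / ((zE N T M t).card : ℝ) := by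
  have hM : 2 * N (T - 1 - t) + 1 ≤ M := h _ (by omega)
  rw [zE_card N T M t ht hM]
  have hle := Nat.div_le_self (N (T - 1 - t)) d
  have hcard : N (T - 1 - t) / d + 1 ≤ (zSc N T M d t1 t2 u1 u2 t).card := by
    unfold zSc
    rw [if_pos htt, Finset.card_image_of_injOn]
    · apply card_near _ _ hle
      split_ifs with h3
      · subst h3; exact hu1
      · have : t = t2 := by tauto
        subst this; exact hu2
    · intro u hu v hv huv
      rw [Finset.mem_coe, Finset.mem_filter] at hu hv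
      exact zch_inj (N (T - 1 - t)) M hM u v hu.1 hv.1 huv
  have hd' : (0 : ℝ) < d := by exact_mod_cast hd
  have h1 : N (T - 1 - t) < d * (N (T - 1 - t) / d + 1) := Nat.lt_mul_div_succ _ hd
  have h2 : 2 * N (T - 1 - t) + 1 ≤ (N (T - 1 - t) / d + 1) * (2 * d) := by
    have h3 : (N (T - 1 - t) / d + 1) * (2 * d) = 2 * (d * (N (T - 1 - t) / d + 1)) := by ring
    omega
  have h3 : 2 * N (T - 1 - t) + 1 ≤ (zSc N T M d t1 t2 u1 u2 t).card * (2 * d) :=
    h2.trans (Nat.mul_le_mul_right _ hcard)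
  have h2' : ((2 * N (T - 1 - t) + 1 : ℕ) : ℝ) ≤
      ((zSc N T M d t1 t2 u1 u2 t).card : ℝ) * (2 * d) := by exact_mod_cast h3
  have hpos : (0 : ℝ) < ((2 * N (T - 1 - t) + 1 : ℕ) : ℝ) := by positivity
  rw [div_le_div_iff₀ (by positivity) hpos, one_mul]
  exact h2'

lemma zSc_prod (N : ℕ → ℕ) (T M d t1 t2 : ℕ) (u1 u2 : ℤ) (h : ∀ k < T, 2 * N k + 1 ≤ M)
    (hd : 1 ≤ d) (h1 : t1 < T) (h2 : t2 < T) (h12 : t1 ≠ t2)
    (hu1 : |u1| ≤ (N (T - 1 - t1) : ℤ)) (hu2 : |u2| ≤ (N (T - 1 - t2) : ℤ)) :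
    (1 / (2 * (d : ℝ))) ^ 2 ≤
      ∏ t ∈ range T, (((zSc N T M d t1 t2 u1 u2 t).card : ℝ) / ((zE N T M t).card : ℝ)) := by
  rw [Finset.prod_eq_mul t1 t2 h12]
  · rw [sq]
    have e1 := zSc_ratio N T M d t1 t2 u1 u2 t1 h hd h1 (Or.inl rfl) hu1 hu2
    have e2 := zSc_ratio N T M d t1 t2 u1 u2 t2 h hd h2 (Or.inr rfl) hu1 hu2
    exact mul_le_mul e1 e2 (by positivity) (le_trans (by positivity) e1)
  · intro t ht htt
    have : zSc N T M d t1 t2 u1 u2 t = zE N T M t := by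
      unfold zSc
      rw [if_neg]
      rintro (rfl | rfl)
      · exact htt.1 rfl
      · exact htt.2 rfl
    rw [this]
    apply div_self
    have := (zE_ne N T M t).card_pos
    exact_mod_cast this.ne'
  · intro hh; exact absurd (Finset.mem_range.mpr h1) hh
  · intro hh; exact absurd (Finset.mem_range.mpr h2) hh

/-- the smoothed average seen from a path with steps near the centres at `t1`, `t2` is close to
the sharp average -/
lemma XX_closec (N : ℕ → ℕ) (T M : ℕ) [NeZero M] (h : ∀ k < T, 2 * N k + 1 ≤ M) (R d : ℕ)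
    (hR : 1 ≤ R) (hd : 1 ≤ d) (hN : ∀ k, 0 < N k) (hlow : ∀ k, 2 ^ R * N k ≤ N (k + 1))
    (φ : ℤ → ℝ) (hφ : ∀ n, |φ n| ≤ 1) (F G : ZMod M → ZMod M → ℝ) (a b : ZMod M)
    (hFG : ∀ w : ℤ, F b (a + b + (w : ZMod M)) * G a (a + b + (w : ZMod M)) = φ w)
    (t1 t2 t : ℕ) (u1 u2 : ℤ) (h1 : t1 < T) (h2 : t2 < T) (ht : t = t1 ∨ t = t2)
    (l : List (ZMod M)) (hl : IsP (zSc N T M d t1 t2 u1 u2) T (a + b) l) :
    l.length = T + 1 ∧
    |XX (zch N T M h) F G (l.drop (T - t)) a b -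
      av (fun n => φ ((if t = t1 then u1 else u2) + n)) (N (T - 1 - t))| ≤ 1 / d + 4 / 2 ^ R := by
  have htT : t < T := by omega
  set cc : ℤ := if t = t1 then u1 else u2 with hcc
  obtain ⟨hlen, hpos⟩ := IsP_posc (zSc N T M d t1 t2 u1 u2)
    (fun t' => if t' = t then cc else 0)
    (fun t' => if t' = t then N (T - 1 - t) / d else if t' < T then N (T - 1 - t') else 0)
    (by
      intro t' s hs
      by_cases h' : t' = t
      · subst h'
        simp only [if_true]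
        unfold zSc at hs
        rw [if_pos ht, Finset.mem_image] at hs
        obtain ⟨u, hu, rfl⟩ := hs
        rw [Finset.mem_filter] at hu
        exact ⟨u, hu.2, rfl⟩
      · simp only [if_neg h', sub_zero]
        have hs' := zSc_sub N T M d t1 t2 u1 u2 h1 h2 t' hs
        unfold zE at hs'
        by_cases hT' : t' < T
        · rw [if_pos hT']
          rw [if_pos hT', Finset.mem_image] at hs'
          obtain ⟨u, hu, rfl⟩ := hs'
          rw [Finset.mem_Icc] at hu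
          exact ⟨u, abs_le.mpr hu, rfl⟩
        · rw [if_neg hT']
          rw [if_neg hT', Finset.mem_singleton] at hs'
          exact ⟨0, by simp, by simp [hs']⟩) T (a + b) l hl
  refine ⟨hlen, ?_⟩
  obtain ⟨W, hW, hy⟩ := hpos t htT.le
  set k := T - 1 - t with hk
  have hTt : T - t = k + 1 := by omega
  have hcen : ∑ i ∈ Finset.Ico t T, (if i = t then cc else 0) = cc := by
    rw [Finset.sum_ite_eq']
    rw [if_pos (Finset.mem_Ico.mpr ⟨le_rfl, htT⟩)]
  have hBs : ∑ i ∈ Finset.Ico t T,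
      ((if i = t then N k / d else if i < T then N (T - 1 - i) else 0 : ℕ) : ℤ) ≤
      (N k / d : ℕ) + ∑ i ∈ range k, (N i : ℤ) := by
    rw [← Finset.sum_Ioo_add_eq_sum_Ico htT, if_pos rfl, add_comm]
    gcongr
    have e2 : ∀ i ∈ Finset.Ioo t T,
        ((if i = t then N k / d else if i < T then N (T - 1 - i) else 0 : ℕ) : ℤ) ≤
          (N (T - 1 - i) : ℤ) := by
      intro i hi
      rw [Finset.mem_Ioo] at hi
      rw [if_neg (by omega), if_pos hi.2]
    refine (Finset.sum_le_sum e2).trans (le_of_eq ?_)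
    refine Finset.sum_bij' (fun i _ => T - 1 - i) (fun j _ => T - 1 - j) ?_ ?_ ?_ ?_ ?_
    · intro i hi; rw [Finset.mem_Ioo] at hi; rw [Finset.mem_range]; omega
    · intro i hi; rw [Finset.mem_range] at hi; rw [Finset.mem_Ioo]; omega
    · intro i hi; rw [Finset.mem_Ioo] at hi; omega
    · intro i hi; rw [Finset.mem_range] at hi; omega
    · intro i hi; rfl
  rw [hcen] at hW
  have hW' : |W - cc| ≤ (N k / d : ℕ) + ∑ i ∈ range k, (N i : ℤ) := hW.trans hBs
  have hlen' : (l.drop (T - t)).length - 1 = t := by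
    rw [List.length_drop, hlen]; omega
  unfold XX
  rw [hlen', zch_ip, hy, hTt]
  have hcongr : (fun w : ℤ => F b (a + b + (W : ZMod M) - (w : ZMod M)) *
      G a (a + b + (W : ZMod M) - (w : ZMod M))) =
      (fun w => (fun n => φ (cc + n)) (W - cc - w)) := by
    funext w
    have := hFG (W - w)
    show _ = φ (cc + (W - cc - w))
    rw [show cc + (W - cc - w) = W - w by ring, ← this]
    push_cast
    rw [add_sub_assoc]
  rw [hcongr]
  refine (eR_close N k (fun n => φ (cc + n)) (fun n => hφ _) (W - cc)).trans ?_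
  have hNk : (0 : ℝ) < N k := by exact_mod_cast hN k
  have hd' : (0 : ℝ) < d := by exact_mod_cast hd
  have hWR : |((W - cc : ℤ) : ℝ)| ≤ (N k : ℝ) / d + ∑ i ∈ range k, (N i : ℝ) := by
    have h1 : ((|W - cc| : ℤ) : ℝ) ≤ (((N k / d : ℕ) + ∑ i ∈ range k, (N i : ℤ) : ℤ) : ℝ) := by
      exact_mod_cast hW'
    rw [Int.cast_abs, Int.cast_add, Int.cast_sum] at h1
    have h2 : ((N k / d : ℕ) : ℝ) ≤ (N k : ℝ) / d := Nat.cast_div_le
    have h3 : (((N k / d : ℕ) : ℤ) : ℝ) = ((N k / d : ℕ) : ℝ) := by norm_cast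
    rw [h3] at h1
    push_cast at h1 h2 ⊢
    linarith
  have hsum := sum_low N R hR hlow k
  have hsumR : (2 : ℝ) ^ R * ∑ i ∈ range k, (N i : ℝ) ≤ 2 * N k := by exact_mod_cast hsum
  have h2R : (0 : ℝ) < 2 ^ R := by positivity
  have hsumR' : ∑ i ∈ range k, (N i : ℝ) ≤ 2 * N k / 2 ^ R := by
    rw [le_div_iff₀ h2R]; linarith
  have hden : (0 : ℝ) < 2 * N k + 1 := by positivity
  rw [div_le_iff₀ hden]
  have h5 : 2 * (|((W - cc : ℤ) : ℝ)| + ∑ i ∈ range k, (N i : ℝ)) ≤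
      2 * ((N k : ℝ) / d + 2 * (2 * N k / 2 ^ R)) := by linarith
  refine h5.trans ?_
  have h6 : 2 * ((N k : ℝ) / d + 2 * (2 * N k / 2 ^ R)) = (1 / d + 4 / 2 ^ R) * (2 * N k) := by
    field_simp
    ring
  rw [h6]
  gcongr
  linarith

/-- if the sharp averages over shifted windows differ, then with probability at least
`(1/(2d))^2` the smoothed averages along the path differ -/
theorem pair_lowerc (N : ℕ → ℕ) (T M : ℕ) [NeZero M] (h : ∀ k < T, 2 * N k + 1 ≤ M) (R d : ℕ)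
    (hR : 1 ≤ R) (hd : 1 ≤ d) (hN : ∀ k, 0 < N k) (hlow : ∀ k, 2 ^ R * N k ≤ N (k + 1))
    (φ : ℤ → ℝ) (hφ : ∀ n, |φ n| ≤ 1) (F G : ZMod M → ZMod M → ℝ) (a b : ZMod M)
    (hFG : ∀ w : ℤ, F b (a + b + (w : ZMod M)) * G a (a + b + (w : ZMod M)) = φ w)
    (c0 c : ℝ) (hc : c0 + 2 * (1 / d + 4 / 2 ^ R) < c)
    (k k' : ℕ) (u u' : ℤ) (hkk : k < k') (hk' : k' < T) (hu : |u| ≤ (N k : ℤ))
    (hu' : |u'| ≤ (N k' : ℤ))
    (hosc : c ≤ |av (fun n => φ (u + n)) (N k) - av (fun n => φ (u' + n)) (N k')|)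
    (q : List (ZMod M) → ℝ) (hq0 : ∀ l, 0 ≤ q l)
    (hq : ∀ l : List (ZMod M), l.length = T + 1 →
      c0 < |XX (zch N T M h) F G (l.drop (k + 1)) a b -
        XX (zch N T M h) F G (l.drop (k' + 1)) a b| → 1 ≤ q l) :
    (1 / (2 * (d : ℝ))) ^ 2 ≤ up (zch N T M h) T (a + b) q := by
  have ht1 : T - 1 - k < T := by omega
  have ht2 : T - 1 - k' < T := by omega
  have hne : T - 1 - k' ≠ T - 1 - k := by omega
  have hk1 : T - 1 - (T - 1 - k) = k := by omega
  have hk2 : T - 1 - (T - 1 - k') = k' := by omega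
  refine (zSc_prod N T M d (T - 1 - k) (T - 1 - k') u u' h hd ht1 ht2 (Ne.symm hne)
    (by rw [hk1]; exact hu) (by rw [hk2]; exact hu')).trans ?_
  refine up_lower (zch N T M h) (zSc N T M d (T - 1 - k) (T - 1 - k') u u')
    (fun t => zSc_sub N T M d _ _ u u' ht1 ht2 t) T (a + b) _ hq0 ?_
  intro l hl
  obtain ⟨hlen, e1⟩ := XX_closec N T M h R d hR hd hN hlow φ hφ F G a b hFG (T - 1 - k)
    (T - 1 - k') (T - 1 - k) u u' ht1 ht2 (Or.inl rfl) l hl
  obtain ⟨-, e2⟩ := XX_closec N T M h R d hR hd hN hlow φ hφ F G a b hFG (T - 1 - k)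
    (T - 1 - k') (T - 1 - k') u u' ht1 ht2 (Or.inr rfl) l hl
  rw [hk1, show T - (T - 1 - k) = k + 1 by omega, if_pos rfl] at e1
  rw [hk2, show T - (T - 1 - k') = k' + 1 by omega, if_neg hne] at e2
  refine hq l hlen ?_
  rw [abs_le] at e1 e2
  rcases le_abs.mp hosc with h2 | h2
  · refine lt_of_lt_of_le ?_ (le_abs_self _)
    linarith [e1.1, e1.2, e2.1, e2.2]
  · refine lt_of_lt_of_le ?_ (neg_le_abs _)
    linarith [e1.1, e1.2, e2.1, e2.2]

end Pool.M3B
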