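/-
M3 (MP_4d8f14_an), section 6, module B2Chain (helper66).
One lacunary chain of scales: for two commuting maps on `ZMod M` the number of disjoint pairs of
scales with oscillating averages (over windows with ARBITRARY centres, and pairs which depend on
the base point) is bounded in the mean, from the finite theorem of PWZ.
-/
import Mathlib
import Pool.Agent.M3.B2Win
import Pool.Agent.PWZ.FT

set_option autoImplicit false

open Finset Pool.Agent.PWZ Pool.PWZ

namespace Pool.M3B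

/-- the averages of `φ` over a window of half length `n` and over one of half length `n'` (both
contain the origin) differ by at least `c` -/
def OscC (φ : ℤ → ℝ) (c : ℝ) (n n' : ℕ) : Prop :=
  ∃ u u' : ℤ, |u| ≤ (n : ℤ) ∧ |u'| ≤ (n' : ℤ) ∧
    c ≤ |av (fun m => φ (u + m)) n - av (fun m => φ (u' + m)) n'|

/-- disjoint pairs of indices with oscillation -/
structure Fam (φ : ℤ → ℝ) (c : ℝ) (N : ℕ → ℕ) (T : ℕ) (G : Finset ℕ) (k k' : ℕ → ℕ) : Prop where
  pos : ∀ j ∈ G, 1 ≤ k j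
  lt : ∀ j ∈ G, k j < k' j
  top : ∀ j ∈ G, k' j < T
  osc : ∀ j ∈ G, OscC φ c (N (k j)) (N (k' j))
  disj : ∀ i ∈ G, ∀ j ∈ G, i < j → k' i ≤ k j

/-- one base point -/
theorem point_c (N : ℕ → ℕ) (T M : ℕ) [NeZero M] (h : ∀ k < T, 2 * N k + 1 ≤ M) (R d : ℕ)
    (hR : 1 ≤ R) (hd : 1 ≤ d) (hN : ∀ k, 0 < N k) (hlow : ∀ k, 2 ^ R * N k ≤ N (k + 1))
    (φ : ℤ → ℝ) (hφ : ∀ n, |φ n| ≤ 1) (F G : ZMod M → ZMod M → ℝ) (a b : ZMod M)
    (hFG : ∀ w : ℤ, F b (a + b + (w : ZMod M)) * G a (a + b + (w : ZMod M)) = φ w)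
    (mark : List (ZMod M) → Prop) (c0 c : ℝ)
    (hmark : ∀ (l : List (ZMod M)) (i : ℕ), l.length ≤ (T - 2) + 1 → i < l.length →
      (∀ j < i, ¬ mark (l.drop j)) →
      |XX (zch N T M h) F G l a b - XX (zch N T M h) F G (l.drop i) a b| ≤ c0)
    (hc : c0 + 2 * (1 / d + 4 / 2 ^ R) < c)
    (I : Finset ℕ) (k k' : ℕ → ℕ) (hI : Fam φ c N T I k k') :
    (1 / (2 * (d : ℝ))) ^ 2 * (I.card : ℝ) ≤
      up (zch N T M h) T (a + b)
        (fun l => ∑ t ∈ range (T - 2), ind (mark (l.drop (T - (t + 1))))) := by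
  have hj : ∀ j ∈ I, (1 / (2 * (d : ℝ))) ^ 2 ≤
      up (zch N T M h) T (a + b)
        (fun l => ∑ t ∈ Finset.Ico (T - k' j) (T - k j), ind (mark (l.drop (T - t)))) := by
    intro j hj
    obtain ⟨u, u', hu, hu', ho⟩ := hI.osc j hj
    have h1 := hI.pos j hj
    have h2 := hI.lt j hj
    have h3 := hI.top j hj
    refine pair_lowerc N T M h R d hR hd hN hlow φ hφ F G a b hFG c0 c hc (k j) (k' j) u u' h2 h3
      hu hu' ho _ (fun l => Finset.sum_nonneg fun t _ => ind_nonneg _) ?_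
    intro l hl hlt
    have hex : ∃ t ∈ Finset.Ico (T - k' j) (T - k j), mark (l.drop (T - t)) := by
      by_contra hcon
      push Not at hcon
      have h4 := hmark (l.drop (k j + 1)) (k' j - k j) (by rw [List.length_drop, hl]; omega)
        (by rw [List.length_drop, hl]; omega) (by
          intro i hi
          rw [List.drop_drop]
          have := hcon (T - 1 - k j - i) (by rw [Finset.mem_Ico]; omega)
          rwa [show T - (T - 1 - k j - i) = k j + 1 + i by omega] at this)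
      rw [List.drop_drop, show k j + 1 + (k' j - k j) = k' j + 1 by omega] at h4
      linarith
    obtain ⟨t, ht, hmt⟩ := hex
    calc (1 : ℝ) = ind (mark (l.drop (T - t))) := (ind_of hmt).symm
      _ ≤ ∑ t ∈ Finset.Ico (T - k' j) (T - k j), ind (mark (l.drop (T - t))) :=
        Finset.single_le_sum (f := fun t => ind (mark (l.drop (T - t))))
          (fun t _ => ind_nonneg _) ht
  have hsum := Finset.sum_le_sum hj
  rw [Finset.sum_const, nsmul_eq_mul, ← up_sum] at hsum
  rw [mul_comm]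
  refine hsum.trans ?_
  apply up_mono
  intro l
  have hdisj : Set.PairwiseDisjoint (↑I : Set ℕ)
      (fun j => Finset.Ico (T - k' j) (T - k j)) := by
    have key : ∀ i ∈ I, ∀ j ∈ I, i < j → Disjoint (Finset.Ico (T - k' i) (T - k i))
        (Finset.Ico (T - k' j) (T - k j)) := by
      intro i hi j hj hij
      rw [Finset.disjoint_left]
      intro t ht ht'
      rw [Finset.mem_Ico] at ht ht'
      have := hI.disj i hi j hj hij
      omega
    intro i hi j hj hij
    rcases lt_or_gt_of_ne hij with h' | h'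
    · exact key i hi j hj h'
    · exact (key j hj i hi h').symm
  rw [← Finset.sum_biUnion hdisj]
  have h1 : ∑ t ∈ range (T - 2), ind (mark (l.drop (T - (t + 1)))) =
      ∑ t ∈ Finset.Ico 1 (T - 1), ind (mark (l.drop (T - t))) := by
    rw [Finset.sum_Ico_eq_sum_range]
    have : T - 1 - 1 = T - 2 := by omega
    rw [this]
    exact Finset.sum_congr rfl fun t _ => by rw [add_comm]
  rw [h1]
  apply Finset.sum_le_sum_of_subset_of_nonneg
  · intro t ht
    rw [Finset.mem_biUnion] at ht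
    obtain ⟨j, hj', ht⟩ := ht
    rw [Finset.mem_Ico] at ht ⊢
    have h2 := hI.pos j hj'
    have h3 := hI.lt j hj'
    have h4 := hI.top j hj'
    omega
  · intro t _ _; exact ind_nonneg _

/-- ONE CHAIN -/
theorem chain_c (c : ℝ) (hc : 0 < c) : ∃ R : ℕ, 1 ≤ R ∧ ∃ K : ℝ, 0 ≤ K ∧
    ∀ N : ℕ → ℕ, (∀ k, 0 < N k) → (∀ k, 2 ^ R * N k ≤ N (k + 1)) →
      (∀ k, N (k + 1) ≤ 2 ^ (4 * R) * N k) →
    ∀ (T M : ℕ) [NeZero M], (∀ k < T, 2 * N k + 1 ≤ M) →
    ∀ F G : ZMod M → ZMod M → ℝ, (∀ b x, |F b x| ≤ 1) → (∀ a x, |G a x| ≤ 1) →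
    ∀ (I : ZMod M → ZMod M → Finset ℕ) (k k' : ZMod M → ZMod M → ℕ → ℕ),
      (∀ a b, Fam (fun n : ℤ => F b (a + b + (n : ZMod M)) * G a (a + b + (n : ZMod M)))
        c N T (I a b) (k a b) (k' a b)) →
      ∑ a, ∑ b, ((I a b).card : ℝ) ≤ K * (M : ℝ) ^ 2 := by
  obtain ⟨d, hd⟩ := exists_nat_gt (16 / c)
  have hd0 : 0 < d := by
    have : (0 : ℝ) < d := lt_trans (by positivity) hd
    exact_mod_cast this
  have hd0' : (0 : ℝ) < d := by exact_mod_cast hd0
  obtain ⟨R0, hR0⟩ := exists_nat_gt (64 / c)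
  set R := R0 + 1 with hR
  set D : ℝ := (2 * (d : ℝ)) ^ 2 with hD
  have hDpos : 0 < D := by positivity
  obtain ⟨K, hK⟩ := finite_theorem (c / 4) (1 + 2 ^ (4 * R + 1)) (by positivity)
    (by linarith [pow_pos (show (0 : ℝ) < 2 by norm_num) (4 * R + 1)])
  refine ⟨R, by omega, D * |K|, by positivity, ?_⟩
  intro N hN0 hlow hup T M _ h F G hF hG I k k' hI
  have hd1 : 1 / (d : ℝ) < c / 16 := by
    rw [div_lt_iff₀ hc] at hd
    rw [div_lt_div_iff₀ hd0' (by norm_num)]
    linarith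
  have h2R : (R : ℝ) ≤ 2 ^ R := by
    have : R ≤ 2 ^ R := Nat.lt_two_pow_self.le
    exact_mod_cast this
  have hR1 : (R : ℝ) = R0 + 1 := by rw [hR]; push_cast; ring
  have h4R : 4 / (2 : ℝ) ^ R < c / 16 := by
    rw [div_lt_iff₀ hc] at hR0
    rw [div_lt_div_iff₀ (by positivity) (by norm_num)]
    nlinarith
  rcases Nat.lt_or_ge T 2 with hT | hT
  · have h0 : ∀ a b, (I a b).card = 0 := by
      intro a b
      rw [Finset.card_eq_zero, Finset.eq_empty_iff_forall_notMem]
      intro j hj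
      have h1 := (hI a b).pos j hj
      have h2 := (hI a b).lt j hj
      have h3 := (hI a b).top j hj
      omega
    simp only [h0, Nat.cast_zero, Finset.sum_const_zero]
    positivity
  have hDB : (zch N T M h).DB (T - 2) (1 + 2 ^ (4 * R + 1)) :=
    zch_DB N T M R h (by omega) hN0 hlow hup hT
  obtain ⟨mark, hm1, hm2⟩ := hK (ZMod M) (zch N T M h) (T - 2) hDB F G hF hG
  have hpt : ∀ a b : ZMod M, (1 / (2 * (d : ℝ))) ^ 2 * ((I a b).card : ℝ) ≤
      up (zch N T M h) T (a + b)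
        (fun l => ∑ t ∈ range (T - 2), ind (mark a b (l.drop (T - (t + 1))))) := by
    intro a b
    refine point_c N T M h R d (by omega) hd0 hN0 hlow
      (fun n : ℤ => F b (a + b + (n : ZMod M)) * G a (a + b + (n : ZMod M))) ?_ F G a b
      (fun w => rfl) (mark a b) (c / 4) c (fun l i hl hi hno => hm2 a b l i hl hi hno)
      (by linarith) (I a b) (k a b) (k' a b) (hI a b)
    intro n
    rw [abs_mul]
    exact mul_le_one₀ (hF _ _) (abs_nonneg _) (hG _ _)
  have hsum : ∑ a, ∑ b, (1 / (2 * (d : ℝ))) ^ 2 * ((I a b).card : ℝ) ≤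
      ∑ a, ∑ b, up (zch N T M h) T (a + b)
        (fun l => ∑ t ∈ range (T - 2), ind (mark a b (l.drop (T - (t + 1))))) :=
    Finset.sum_le_sum fun a _ => Finset.sum_le_sum fun b _ => hpt a b
  have hMpos : (0 : ℝ) < (M : ℝ) := by
    have : 0 < M := Nat.pos_of_ne_zero (NeZero.ne M)
    exact_mod_cast this
  have htop := EE_top (zch N T M h) T (fun z => zch_top N T M h z)
    (fun a b l => ∑ t ∈ range (T - 2), ind (mark a b (l.drop (T - (t + 1)))))
  rw [ZMod.card] at htop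
  have hEE : EE (zch N T M h) T
      (fun a b l => ∑ t ∈ range (T - 2), ind (mark a b (l.drop (T - (t + 1))))) =
      ∑ t ∈ range (T - 2), EE (zch N T M h) (t + 1) (fun a b l => ind (mark a b l)) := by
    rw [EE_sum]
    refine Finset.sum_congr rfl fun t ht => ?_
    rw [Finset.mem_range] at ht
    have h2 := EE_up_to (zch N T M h) (t + 1) (T - (t + 1)) (fun a b l => ind (mark a b l))
    rwa [show t + 1 + (T - (t + 1)) = T by omega] at h2
  rw [hEE] at htop
  have hle : ∑ a, ∑ b, up (zch N T M h) T (a + b)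
        (fun l => ∑ t ∈ range (T - 2), ind (mark a b (l.drop (T - (t + 1))))) ≤
      (M : ℝ) ^ 2 * |K| := by
    have h3 := hm1.trans (le_abs_self K)
    rw [htop] at h3
    rw [← mul_assoc, ← mul_inv, inv_mul_le_iff₀ (by positivity)] at h3
    rw [sq]
    exact h3
  have h4 := hsum.trans hle
  simp only [← Finset.mul_sum] at h4
  have hDinv : (1 / (2 * (d : ℝ))) ^ 2 = D⁻¹ := by
    rw [hD]; field_simp
  rw [hDinv, inv_mul_le_iff₀ hDpos] at h4
  calc _ ≤ D * ((M : ℝ) ^ 2 * |K|) := h4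
    _ = D * |K| * (M : ℝ) ^ 2 := by ring

end Pool.M3B
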