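/-
M3 (MP_4d8f14_an), section 6 (6.1), (6.2), module B2 (helper66).
THEOREM B2: for two commuting maps on a torus (or locally on a square of the integers) the number
of disjoint intervals of levels in which the binary averages `bav φ l w` (windows of length
`2^(l+1)` which contain the origin, ARBITRARY position `w`) oscillate by `c` is bounded in the mean,
with a constant which depends only on `c`.
-/
import Mathlib
import Pool.Agent.M3.B2Chain

set_option autoImplicit false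

open Finset Pool.Agent.PWZ Pool.PWZ

namespace Pool.M3B

/-- the average over the window `(w - 2^(l+1), w]` -/
noncomputable def bav (φ : ℤ → ℝ) (l : ℕ) (w : ℤ) : ℝ :=
  ((2 : ℝ) ^ (l + 1))⁻¹ * ∑ j ∈ range (2 ^ (l + 1)), φ (w - (j : ℤ))

/-- the binary averages oscillate by at least `c` between two levels of `[p, q)` -/
def OscB (φ : ℤ → ℝ) (c : ℝ) (p q : ℕ) : Prop :=
  ∃ l l' : ℕ, p ≤ l ∧ l < q ∧ p ≤ l' ∧ l' < q ∧ ∃ w w' : ℤ, 0 ≤ w ∧ w < 2 ^ (l + 1) ∧
    0 ≤ w' ∧ w' < 2 ^ (l' + 1) ∧ c ≤ |bav φ l w - bav φ l' w'|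

/-- there are `J` disjoint intervals of the levels `0, …, L` with oscillation -/
def HasOsc (φ : ℤ → ℝ) (c : ℝ) (L J : ℕ) : Prop :=
  ∃ p : ℕ → ℕ, StrictMono p ∧ p J ≤ L + 1 ∧ ∀ j < J, OscB φ c (p j) (p (j + 1))

open Classical in
/-- the largest number of disjoint intervals of the levels `0, …, L` with oscillation -/
noncomputable def osc (φ : ℤ → ℝ) (c : ℝ) (L : ℕ) : ℕ := Nat.findGreatest (HasOsc φ c L) (L + 1)

theorem HasOsc.zero (φ : ℤ → ℝ) (c : ℝ) (L : ℕ) : HasOsc φ c L 0 :=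
  ⟨id, strictMono_id, by simp, fun j hj => absurd hj (Nat.not_lt_zero j)⟩

theorem osc_spec (φ : ℤ → ℝ) (c : ℝ) (L : ℕ) : HasOsc φ c L (osc φ c L) := by
  classical
  unfold osc
  exact Nat.findGreatest_spec (m := 0) (Nat.zero_le _) (HasOsc.zero φ c L)

theorem HasOsc.le {φ : ℤ → ℝ} {c : ℝ} {L J : ℕ} (h : HasOsc φ c L J) : J ≤ L + 1 := by
  obtain ⟨p, hp, hpJ, -⟩ := h
  exact (hp.id_le J).trans hpJ

theorem HasOsc.le_osc {φ : ℤ → ℝ} {c : ℝ} {L J : ℕ} (h : HasOsc φ c L J) : J ≤ osc φ c L := by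
  classical
  unfold osc
  exact Nat.le_findGreatest h.le h

/-- the binary average is close to a symmetric average with centre `w - 2^l` -/
theorem bav_close (φ : ℤ → ℝ) (hφ : ∀ n, |φ n| ≤ 1) (l : ℕ) (w : ℤ) :
    |bav φ l w - av (fun n => φ ((w - 2 ^ l) + n)) (2 ^ l)| ≤ 1 / 2 ^ l := by
  have hsum : ∑ n ∈ Finset.Icc (-((2 ^ l : ℕ) : ℤ)) ((2 ^ l : ℕ) : ℤ), φ ((w - 2 ^ l) + n) =
      ∑ j ∈ range (2 ^ (l + 1) + 1), φ (w - (j : ℤ)) := by
    refine Finset.sum_bij' (fun n _ => ((2 ^ l : ℤ) - n).toNat) (fun j _ => (2 ^ l : ℤ) - j)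
      ?_ ?_ ?_ ?_ ?_
    · intro n hn
      rw [Finset.mem_Icc] at hn
      rw [Finset.mem_range, Nat.lt_succ_iff, Int.toNat_le]
      push_cast at hn ⊢
      rw [pow_succ]
      linarith [hn.1]
    · intro j hj
      rw [Finset.mem_range, Nat.lt_succ_iff] at hj
      have hj' : (j : ℤ) ≤ 2 ^ (l + 1) := by exact_mod_cast hj
      rw [pow_succ] at hj'
      rw [Finset.mem_Icc]
      push_cast
      constructor
      · linarith
      · linarith [Int.natCast_nonneg j]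
    · intro n hn
      rw [Finset.mem_Icc] at hn
      push_cast at hn
      rw [Int.toNat_of_nonneg (by linarith [hn.2])]
      ring
    · intro j hj
      simp
    · intro n hn
      rw [Finset.mem_Icc] at hn
      push_cast at hn
      rw [Int.toNat_of_nonneg (by linarith [hn.2])]
      congr 1
      ring
  unfold av bav
  rw [hsum, Finset.sum_range_succ]
  set S : ℝ := ∑ j ∈ range (2 ^ (l + 1)), φ (w - (j : ℤ)) with hS
  have hSb : |S| ≤ 2 ^ (l + 1) := by
    rw [hS]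
    refine (Finset.abs_sum_le_sum_abs _ _).trans ?_
    calc ∑ j ∈ range (2 ^ (l + 1)), |φ (w - (j : ℤ))| ≤ ∑ _j ∈ range (2 ^ (l + 1)), (1 : ℝ) :=
          Finset.sum_le_sum fun j _ => hφ _
      _ = 2 ^ (l + 1) := by simp
  have hx := hφ (w - ((2 ^ (l + 1) : ℕ) : ℤ))
  set x : ℝ := φ (w - ((2 ^ (l + 1) : ℕ) : ℤ)) with hxdef
  have hP : (0 : ℝ) < 2 ^ (l + 1) := by positivity
  have e1 : ((2 * 2 ^ l + 1 : ℕ) : ℝ) = 2 ^ (l + 1) + 1 := by push_cast; ring
  rw [e1]
  have e2 : ((2 : ℝ) ^ (l + 1))⁻¹ * S - ((2 : ℝ) ^ (l + 1) + 1)⁻¹ * (S + x) =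
      (((2 : ℝ) ^ (l + 1))⁻¹ * S - x) / (2 ^ (l + 1) + 1) := by
    field_simp
    ring
  rw [e2, abs_div, abs_of_pos (show (0 : ℝ) < 2 ^ (l + 1) + 1 by positivity)]
  have h1 : |((2 : ℝ) ^ (l + 1))⁻¹ * S - x| ≤ 2 := by
    have h2 : |((2 : ℝ) ^ (l + 1))⁻¹ * S| ≤ 1 := by
      rw [abs_mul, abs_of_pos (inv_pos.mpr hP), inv_mul_le_iff₀ hP, mul_one]
      exact hSb
    exact (abs_sub _ _).trans (by linarith)
  rw [div_le_div_iff₀ (by positivity) (by positivity)]
  have h3 : (2 : ℝ) ^ (l + 1) = 2 * 2 ^ l := by ring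
  have h4 : (0 : ℝ) < 2 ^ l := by positivity
  have h5 := mul_le_mul_of_nonneg_right h1 h4.le
  linarith

/-- oscillation of the binary averages gives oscillation of the symmetric averages -/
theorem OscC_of (φ : ℤ → ℝ) (hφ : ∀ n, |φ n| ≤ 1) (c : ℝ) (l0 l l' : ℕ) (hl : l0 ≤ l)
    (hl' : l0 ≤ l') (hc : 8 / c ≤ 2 ^ l0) (hcpos : 0 < c) (w w' : ℤ) (hw0 : 0 ≤ w)
    (hw : w < 2 ^ (l + 1))
    (hw0' : 0 ≤ w') (hw' : w' < 2 ^ (l' + 1)) (h : c / 2 ≤ |bav φ l w - bav φ l' w'|) :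
    OscC φ (c / 4) (2 ^ l) (2 ^ l') := by
  refine ⟨w - 2 ^ l, w' - 2 ^ l', ?_, ?_, ?_⟩
  · rw [abs_le]
    push_cast
    rw [pow_succ] at hw
    constructor <;> linarith
  · rw [abs_le]
    push_cast
    rw [pow_succ] at hw'
    constructor <;> linarith
  · have h1 := bav_close φ hφ l w
    have h2 := bav_close φ hφ l' w'
    have key : ∀ m : ℕ, l0 ≤ m → (1 : ℝ) / 2 ^ m ≤ c / 8 := by
      intro m hm
      have h3 : (2 : ℝ) ^ l0 ≤ 2 ^ m := pow_le_pow_right₀ (by norm_num) hm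
      rw [div_le_iff₀ (by positivity)]
      rw [div_le_iff₀ hcpos] at hc
      nlinarith
    have h3 := key l hl
    have h4 := key l' hl'
    set A := av (fun n => φ ((w - 2 ^ l) + n)) (2 ^ l)
    set B := av (fun n => φ ((w' - 2 ^ l') + n)) (2 ^ l')
    have h5 : |bav φ l w - bav φ l' w'| ≤ |bav φ l w - A| + |A - B| + |bav φ l' w' - B| := by
      have e : bav φ l w - bav φ l' w' = (bav φ l w - A) + (A - B) + (-(bav φ l' w' - B)) := by
        ring
      rw [e]
      refine (abs_add_le _ _).trans ?_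
      rw [abs_neg]
      gcongr
      exact abs_add_le _ _
    linarith

/-- the levels of a chain -/
def lev (m r r' k : ℕ) : ℕ := m * (k / 2) + (if k % 2 = 0 then r else r')

theorem lev_even (m r r' q : ℕ) : lev m r r' (2 * q) = m * q + r := by
  unfold lev
  rw [if_pos (by omega), Nat.mul_div_cancel_left q (by norm_num)]

theorem lev_odd (m r r' q : ℕ) : lev m r r' (2 * q + 1) = m * q + r' := by
  unfold lev
  rw [if_neg (by omega), show (2 * q + 1) / 2 = q by omega]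

theorem lev_gap (R r r' : ℕ) (h1 : r + R ≤ r') (h2 : r' ≤ r + 3 * R) (k : ℕ) :
    lev (4 * R) r r' k + R ≤ lev (4 * R) r r' (k + 1) ∧
      lev (4 * R) r r' (k + 1) ≤ lev (4 * R) r r' k + 4 * R := by
  rcases Nat.even_or_odd' k with ⟨q, hq | hq⟩
  · subst hq
    rw [lev_even, lev_odd]
    omega
  · subst hq
    rw [show 2 * q + 1 + 1 = 2 * (q + 1) by ring, lev_even, lev_odd, Nat.mul_add]
    omega

theorem lev_strict (R r r' : ℕ) (hR : 1 ≤ R) (h1 : r + R ≤ r') (h2 : r' ≤ r + 3 * R) :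
    StrictMono (lev (4 * R) r r') := by
  apply strictMono_nat_of_lt_succ
  intro k
  have := (lev_gap R r r' h1 h2 k).1
  omega

/-- two levels with compatible residues are in one chain -/
theorem chain_of (R l l' : ℕ) (hR : 1 ≤ R) (hll : l < l')
    (hc : (l % (4 * R) + R ≤ l' % (4 * R) ∧ l' % (4 * R) ≤ l % (4 * R) + 3 * R) ∨
      (l' % (4 * R) + R ≤ l % (4 * R) ∧ l % (4 * R) ≤ l' % (4 * R) + 3 * R)) :
    ∃ r < 4 * R, ∃ r' < 4 * R, r + R ≤ r' ∧ r' ≤ r + 3 * R ∧ ∃ k k', k < k' ∧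
      lev (4 * R) r r' k = l ∧ lev (4 * R) r r' k' = l' := by
  have hm : 0 < 4 * R := by omega
  have d1 := Nat.div_add_mod l (4 * R)
  have d2 := Nat.div_add_mod l' (4 * R)
  have m1 := Nat.mod_lt l hm
  have m2 := Nat.mod_lt l' hm
  set m := 4 * R with hmdef
  rcases hc with ⟨h1, h2⟩ | ⟨h1, h2⟩
  · refine ⟨l % m, m1, l' % m, m2, h1, h2, 2 * (l / m), 2 * (l' / m) + 1, ?_, ?_, ?_⟩
    · have : l / m ≤ l' / m := Nat.div_le_div_right hll.le
      omega
    · rw [lev_even]; exact d1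
    · rw [lev_odd]; exact d2
  · refine ⟨l' % m, m2, l % m, m1, h1, h2, 2 * (l / m) + 1, 2 * (l' / m), ?_, ?_, ?_⟩
    · have : l / m ≤ l' / m := Nat.div_le_div_right hll.le
      have hne : l / m ≠ l' / m := by
        intro he
        rw [he] at d1
        omega
      omega
    · rw [lev_odd]; exact d1
    · rw [lev_even]; exact d2

/-- in an interval of length at least `m` there is a level with a given residue -/
theorem exists_res (m A r : ℕ) (hr : r < m) : ∃ l, A ≤ l ∧ l < A + m ∧ l % m = r := by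
  have hm : 0 < m := by omega
  have hA := Nat.mod_lt A hm
  rcases le_or_gt (A % m) r with h | h
  · refine ⟨A + (r - A % m), by omega, by omega, ?_⟩
    have d := Nat.div_add_mod A m
    have e : A + (r - A % m) = r + m * (A / m) := by omega
    rw [e, Nat.add_mul_mod_self_left, Nat.mod_eq_of_lt hr]
  · refine ⟨A + (r + m - A % m), by omega, by omega, ?_⟩
    have d := Nat.div_add_mod A m
    have e : A + (r + m - A % m) = r + m * (A / m + 1) := by
      rw [Nat.mul_add]; omega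
    rw [e, Nat.add_mul_mod_self_left, Nat.mod_eq_of_lt hr]

/-- in a long interval with oscillation there are two levels of one chain with oscillation -/
theorem pick (φ : ℤ → ℝ) (c : ℝ) (hc : 0 < c) (R A B : ℕ) (hR : 1 ≤ R) (hAB : A + 4 * R ≤ B)
    (h : OscB φ c A B) :
    ∃ r < 4 * R, ∃ r' < 4 * R, r + R ≤ r' ∧ r' ≤ r + 3 * R ∧ ∃ k k', k < k' ∧
      A ≤ lev (4 * R) r r' k ∧ lev (4 * R) r r' k' < B ∧ ∃ w w' : ℤ, 0 ≤ w ∧
        w < 2 ^ (lev (4 * R) r r' k + 1) ∧ 0 ≤ w' ∧ w' < 2 ^ (lev (4 * R) r r' k' + 1) ∧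
        c / 2 ≤ |bav φ (lev (4 * R) r r' k) w - bav φ (lev (4 * R) r r' k') w'| := by
  -- the symmetric form: a compatible pair is enough
  have key : ∀ l l' : ℕ, A ≤ l → l < B → A ≤ l' → l' < B →
      ((l % (4 * R) + R ≤ l' % (4 * R) ∧ l' % (4 * R) ≤ l % (4 * R) + 3 * R) ∨
        (l' % (4 * R) + R ≤ l % (4 * R) ∧ l % (4 * R) ≤ l' % (4 * R) + 3 * R)) →
      ∀ w w' : ℤ, 0 ≤ w → w < 2 ^ (l + 1) → 0 ≤ w' → w' < 2 ^ (l' + 1) →
      c / 2 ≤ |bav φ l w - bav φ l' w'| →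
    ∃ r < 4 * R, ∃ r' < 4 * R, r + R ≤ r' ∧ r' ≤ r + 3 * R ∧ ∃ k k', k < k' ∧
      A ≤ lev (4 * R) r r' k ∧ lev (4 * R) r r' k' < B ∧ ∃ w w' : ℤ, 0 ≤ w ∧
        w < 2 ^ (lev (4 * R) r r' k + 1) ∧ 0 ≤ w' ∧ w' < 2 ^ (lev (4 * R) r r' k' + 1) ∧
        c / 2 ≤ |bav φ (lev (4 * R) r r' k) w - bav φ (lev (4 * R) r r' k') w'| := by
    intro l l' hA hB hA' hB' hcmp w w' hw0 hw hw0' hw' ho
    rcases lt_trichotomy l l' with hlt | heq | hgt
    · obtain ⟨r, hr, r', hr', h1, h2, k, k', hk, e, e'⟩ := chain_of R l l' hR hlt hcmp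
      refine ⟨r, hr, r', hr', h1, h2, k, k', hk, by rw [e]; exact hA, by rw [e']; exact hB', w, w',
        hw0, by rw [e]; exact hw, hw0', by rw [e']; exact hw', by rw [e, e']; exact ho⟩
    · exfalso
      subst heq
      omega
    · obtain ⟨r, hr, r', hr', h1, h2, k, k', hk, e, e'⟩ := chain_of R l' l hR hgt hcmp.symm
      refine ⟨r, hr, r', hr', h1, h2, k, k', hk, by rw [e]; exact hA', by rw [e']; exact hB, w', w,
        hw0', by rw [e]; exact hw', hw0, by rw [e']; exact hw, ?_⟩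
      rw [e, e', abs_sub_comm]
      exact ho
  obtain ⟨l, l', hA, hB, hA', hB', w, w', hw0, hw, hw0', hw', ho⟩ := h
  by_cases hcmp : (l % (4 * R) + R ≤ l' % (4 * R) ∧ l' % (4 * R) ≤ l % (4 * R) + 3 * R) ∨
        (l' % (4 * R) + R ≤ l % (4 * R) ∧ l % (4 * R) ≤ l' % (4 * R) + 3 * R)
  · exact key l l' hA hB hA' hB' hcmp w w' hw0 hw hw0' hw' (by linarith)
  · have m1 := Nat.mod_lt l (show 0 < 4 * R by omega)
    have m2 := Nat.mod_lt l' (show 0 < 4 * R by omega)
    obtain ⟨r'', hr'', hc1, hc2⟩ : ∃ r'' < 4 * R,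
        ((l % (4 * R) + R ≤ r'' ∧ r'' ≤ l % (4 * R) + 3 * R) ∨
          (r'' + R ≤ l % (4 * R) ∧ l % (4 * R) ≤ r'' + 3 * R)) ∧
        ((r'' + R ≤ l' % (4 * R) ∧ l' % (4 * R) ≤ r'' + 3 * R) ∨
          (l' % (4 * R) + R ≤ r'' ∧ r'' ≤ l' % (4 * R) + 3 * R)) := by
      rcases Nat.lt_or_ge (l % (4 * R)) (2 * R) with h3 | h3
      · exact ⟨l % (4 * R) + 2 * R, by omega, by omega, by omega⟩
      · exact ⟨l % (4 * R) - 2 * R, by omega, by omega, by omega⟩
    obtain ⟨l'', h1, h2, h3⟩ := exists_res (4 * R) A r'' hr''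
    have hpos : (0 : ℤ) < 2 ^ (l'' + 1) := by positivity
    by_cases ho1 : c / 2 ≤ |bav φ l w - bav φ l'' 0|
    · exact key l l'' hA hB h1 (by omega) (by rw [h3]; exact hc1) w 0 hw0 hw le_rfl hpos ho1
    · have ho2 : c / 2 ≤ |bav φ l'' 0 - bav φ l' w'| := by
        have h5 : |bav φ l w - bav φ l' w'| ≤
            |bav φ l w - bav φ l'' 0| + |bav φ l'' 0 - bav φ l' w'| := by
          have e : bav φ l w - bav φ l' w' =
              (bav φ l w - bav φ l'' 0) + (bav φ l'' 0 - bav φ l' w') := by ring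
          rw [e]
          exact abs_add_le _ _
        push Not at ho1
        linarith
      exact key l'' l' h1 (by omega) hA' hB' (by rw [h3]; exact hc2) 0 w' le_rfl hpos hw0' hw' ho2

/-- THEOREM B2 on the torus -/
theorem b2_torus (c : ℝ) (hc : 0 < c) : ∃ K : ℝ, 0 ≤ K ∧ ∀ κ L : ℕ, L + 2 ≤ κ →
    ∀ F G : ZMod (2 ^ κ) → ZMod (2 ^ κ) → ℝ, (∀ b x, |F b x| ≤ 1) → (∀ a x, |G a x| ≤ 1) →
      ∑ a, ∑ b, (osc (fun n : ℤ => F b (a + b + (n : ZMod (2 ^ κ))) *
        G a (a + b + (n : ZMod (2 ^ κ)))) c L : ℝ) ≤ K * ((2 : ℝ) ^ κ) ^ 2 := by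
  obtain ⟨R, hR, K, hK0, hK⟩ := chain_c (c / 4) (by positivity)
  obtain ⟨l1, hl1⟩ := pow_unbounded_of_one_lt (8 / c) (show (1 : ℝ) < 2 by norm_num)
  set l0 := l1 + 4 * R with hl0
  have hcl0 : 8 / c ≤ 2 ^ l0 := by
    refine hl1.le.trans ?_
    rw [hl0]
    exact pow_le_pow_right₀ (by norm_num) (by omega)
  refine ⟨(l0 : ℝ) + 4 * R + 4 * R * ((4 * R) * (4 * R) * K), by positivity, ?_⟩
  intro κ L hL F G hF hG
  have hMpos : 0 < 2 ^ κ := by positivity
  have : NeZero (2 ^ κ) := ⟨hMpos.ne'⟩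
  set φ : ZMod (2 ^ κ) → ZMod (2 ^ κ) → ℤ → ℝ := fun a b n =>
    F b (a + b + (n : ZMod (2 ^ κ))) * G a (a + b + (n : ZMod (2 ^ κ))) with hφ
  have hφ1 : ∀ a b n, |φ a b n| ≤ 1 := by
    intro a b n
    rw [hφ]
    show |F b _ * G a _| ≤ 1
    rw [abs_mul]
    exact mul_le_one₀ (hF _ _) (abs_nonneg _) (hG _ _)
  -- blocks
  have hspec : ∀ a b, HasOsc (φ a b) c L (osc (φ a b) c L) := fun a b => osc_spec _ _ _
  choose p hp hpJ hpo using hspec
  set J : ZMod (2 ^ κ) → ZMod (2 ^ κ) → ℕ := fun a b => osc (φ a b) c L with hJ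
  set J' : ZMod (2 ^ κ) → ZMod (2 ^ κ) → ℕ := fun a b => (J a b - l0) / (4 * R) with hJ'
  have h4R : 0 < 4 * R := by omega
  have hJJ : ∀ a b, J a b ≤ l0 + 4 * R + 4 * R * J' a b := by
    intro a b
    have := Nat.lt_mul_div_succ (J a b - l0) h4R
    rw [Nat.mul_add] at this
    show J a b ≤ l0 + 4 * R + 4 * R * ((J a b - l0) / (4 * R))
    omega
  -- a chain for every merged block
  have hblock : ∀ a b, ∀ i, ∃ x : (ℕ × ℕ) × (ℕ × ℕ), i < J' a b →
      x.1.1 < 4 * R ∧ x.1.2 < 4 * R ∧ x.1.1 + R ≤ x.1.2 ∧ x.1.2 ≤ x.1.1 + 3 * R ∧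
      x.2.1 < x.2.2 ∧ 1 ≤ x.2.1 ∧
      p a b (l0 + 4 * R * i) ≤ lev (4 * R) x.1.1 x.1.2 x.2.1 ∧
      lev (4 * R) x.1.1 x.1.2 x.2.2 < p a b (l0 + 4 * R * (i + 1)) ∧
      lev (4 * R) x.1.1 x.1.2 x.2.2 ≤ L ∧
      OscC (φ a b) (c / 4) (2 ^ lev (4 * R) x.1.1 x.1.2 x.2.1)
        (2 ^ lev (4 * R) x.1.1 x.1.2 x.2.2) := by
    intro a b i
    by_cases hi : i < J' a b
    · have hle : l0 + 4 * R * (i + 1) ≤ J a b := by
        have h1 : 4 * R * (i + 1) ≤ 4 * R * J' a b := Nat.mul_le_mul_left _ hi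
        have h2 : 4 * R * J' a b ≤ J a b - l0 := Nat.mul_div_le _ _
        have h3 : 4 * R * (i + 1) = 4 * R * i + 4 * R := by ring
        have h4 : 0 < J a b - l0 := by omega
        omega
      have hO : OscB (φ a b) c (p a b (l0 + 4 * R * i)) (p a b (l0 + 4 * R * (i + 1))) := by
        have h3 : 4 * R * (i + 1) = 4 * R * i + 4 * R := by ring
        obtain ⟨l, l', h1, h2, h1', h2', hw⟩ := hpo a b (l0 + 4 * R * i) (by
          show l0 + 4 * R * i < J a b
          omega)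
        have hm : p a b (l0 + 4 * R * i + 1) ≤ p a b (l0 + 4 * R * (i + 1)) :=
          (hp a b).monotone (by omega)
        exact ⟨l, l', h1, lt_of_lt_of_le h2 hm, h1', lt_of_lt_of_le h2' hm, hw⟩
      have hlen : p a b (l0 + 4 * R * i) + 4 * R ≤ p a b (l0 + 4 * R * (i + 1)) := by
        have h3 : l0 + 4 * R * (i + 1) = 4 * R + (l0 + 4 * R * i) := by ring
        rw [h3, add_comm]
        exact (hp a b).add_le_nat _ _
      obtain ⟨r, hr, r', hr', h1, h2, k, k', hk, hA, hB, w, w', hw0, hw, hw0', hw', ho⟩ :=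
        pick (φ a b) c hc R _ _ hR hlen hO
      have hp0 : l0 ≤ p a b (l0 + 4 * R * i) :=
        le_trans (Nat.le_add_right l0 (4 * R * i)) (hp a b).le_apply
      have hst := lev_strict R r r' hR h1 h2
      have hlk := hst hk
      have hk1 : 1 ≤ k := by
        by_contra hcon
        have hk0 : k = 2 * 0 := by omega
        rw [hk0, lev_even] at hA
        omega
      have hpL : p a b (l0 + 4 * R * (i + 1)) ≤ L + 1 :=
        ((hp a b).monotone hle).trans (hpJ a b)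
      have hl1 : l0 ≤ lev (4 * R) r r' k := by omega
      have hl2 : l0 ≤ lev (4 * R) r r' k' := by omega
      refine ⟨((r, r'), (k, k')), fun _ => ⟨hr, hr', h1, h2, hk, hk1, hA, hB, ?_, ?_⟩⟩
      · show lev (4 * R) r r' k' ≤ L
        omega
      · exact OscC_of (φ a b) (hφ1 a b) c l0 _ _ hl1 hl2 hcl0 hc w w' hw0 hw hw0' hw' ho
    · exact ⟨((0, 0), (0, 0)), fun h => absurd h hi⟩
  choose x hx using hblock
  set X := (range (4 * R) ×ˢ range (4 * R)).filter
    (fun y => y.1 + R ≤ y.2 ∧ y.2 ≤ y.1 + 3 * R) with hX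
  have hcount : ∀ a b, J' a b =
      ∑ y ∈ X, ((range (J' a b)).filter (fun i => (x a b i).1 = y)).card := by
    intro a b
    have h1 := Finset.card_eq_sum_card_fiberwise (s := range (J' a b)) (t := X)
      (f := fun i => (x a b i).1) (by
        intro i hi
        rw [Finset.mem_coe, Finset.mem_range] at hi
        have h2 := hx a b i hi
        rw [Finset.mem_coe, hX, Finset.mem_filter, Finset.mem_product, Finset.mem_range,
          Finset.mem_range]
        exact ⟨⟨h2.1, h2.2.1⟩, h2.2.2.1, h2.2.2.2.1⟩)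
    rw [Finset.card_range] at h1
    exact h1
  have hchain : ∀ y ∈ X, ∑ a, ∑ b,
      (((range (J' a b)).filter (fun i => (x a b i).1 = y)).card : ℝ) ≤
        K * ((2 ^ κ : ℕ) : ℝ) ^ 2 := by
    rintro ⟨r, r'⟩ hy
    rw [hX, Finset.mem_filter, Finset.mem_product, Finset.mem_range, Finset.mem_range] at hy
    obtain ⟨⟨hr, hr'⟩, h1, h2⟩ := hy
    simp only at hr hr' h1 h2
    have hst := lev_strict R r r' hR h1 h2
    have hex : ∃ k, L < lev (4 * R) r r' k := ⟨L + 1, hst.id_le (L + 1)⟩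
    classical
    set T := Nat.find hex with hT
    have hTspec : L < lev (4 * R) r r' T := Nat.find_spec hex
    have hTlt : ∀ k < T, lev (4 * R) r r' k ≤ L := by
      intro k hk
      have := Nat.find_min hex hk
      omega
    have hTof : ∀ k, lev (4 * R) r r' k ≤ L → k < T := by
      intro k hk
      by_contra hcon
      have := hst.monotone (Nat.le_of_not_lt hcon)
      omega
    refine hK (fun k => 2 ^ lev (4 * R) r r' k) (fun k => by positivity) ?_ ?_ T (2 ^ κ) ?_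
      F G hF hG (fun a b => (range (J' a b)).filter (fun i => (x a b i).1 = (r, r')))
      (fun a b i => (x a b i).2.1) (fun a b i => (x a b i).2.2) ?_
    · intro k
      rw [← pow_add]
      apply Nat.pow_le_pow_right (by norm_num)
      have := (lev_gap R r r' h1 h2 k).1
      omega
    · intro k
      rw [← pow_add]
      apply Nat.pow_le_pow_right (by norm_num)
      have := (lev_gap R r r' h1 h2 k).2
      omega
    · intro k hk
      have h3 := hTlt k hk
      have h4 : 2 ^ lev (4 * R) r r' k ≤ 2 ^ L := Nat.pow_le_pow_right (by norm_num) h3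
      have h5 : 2 ^ (L + 2) ≤ 2 ^ κ := Nat.pow_le_pow_right (by norm_num) hL
      have h6 : 2 ^ (L + 2) = 4 * 2 ^ L := by rw [pow_add]; ring
      have h7 : 1 ≤ 2 ^ L := Nat.one_le_two_pow
      omega
    · intro a b
      have hmem : ∀ i ∈ (range (J' a b)).filter (fun i => (x a b i).1 = (r, r')),
          i < J' a b ∧ (x a b i).1.1 = r ∧ (x a b i).1.2 = r' := by
        intro i hi
        rw [Finset.mem_filter, Finset.mem_range] at hi
        exact ⟨hi.1, by rw [hi.2], by rw [hi.2]⟩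
      refine ⟨?_, ?_, ?_, ?_, ?_⟩
      · intro i hi
        obtain ⟨hi1, -, -⟩ := hmem i hi
        exact (hx a b i hi1).2.2.2.2.2.1
      · intro i hi
        obtain ⟨hi1, -, -⟩ := hmem i hi
        exact (hx a b i hi1).2.2.2.2.1
      · intro i hi
        obtain ⟨hi1, e1, e2⟩ := hmem i hi
        have := (hx a b i hi1).2.2.2.2.2.2.2.2.1
        rw [e1, e2] at this
        exact hTof _ this
      · intro i hi
        obtain ⟨hi1, e1, e2⟩ := hmem i hi
        have := (hx a b i hi1).2.2.2.2.2.2.2.2.2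
        rw [e1, e2] at this
        exact this
      · intro i hi j hj hij
        obtain ⟨hi1, e1, e2⟩ := hmem i hi
        obtain ⟨hj1, e1', e2'⟩ := hmem j hj
        have h3 := (hx a b i hi1).2.2.2.2.2.2.2.1
        have h4 := (hx a b j hj1).2.2.2.2.2.2.1
        rw [e1, e2] at h3
        rw [e1', e2'] at h4
        have h5 : p a b (l0 + 4 * R * (i + 1)) ≤ p a b (l0 + 4 * R * j) := by
          apply (hp a b).monotone
          have : 4 * R * (i + 1) ≤ 4 * R * j := Nat.mul_le_mul_left _ hij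
          omega
        exact (hst.lt_iff_lt.mp (by omega)).le
  have hXcard : (X.card : ℝ) ≤ (4 * R) * (4 * R) := by
    have h1 : X.card ≤ (4 * R) * (4 * R) := by
      refine (Finset.card_filter_le _ _).trans ?_
      rw [Finset.card_product, Finset.card_range]
    exact_mod_cast h1
  have hsumJ' : ∑ a, ∑ b, (J' a b : ℝ) ≤ (4 * R) * (4 * R) * K * ((2 : ℝ) ^ κ) ^ 2 := by
    have e : ∑ a, ∑ b, (J' a b : ℝ) = ∑ y ∈ X, ∑ a, ∑ b,
        (((range (J' a b)).filter (fun i => (x a b i).1 = y)).card : ℝ) := by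
      have e1 : ∀ a b, (J' a b : ℝ) =
          ∑ y ∈ X, (((range (J' a b)).filter (fun i => (x a b i).1 = y)).card : ℝ) := by
        intro a b
        exact_mod_cast hcount a b
      rw [Finset.sum_congr rfl fun a _ => Finset.sum_congr rfl fun b _ => e1 a b]
      rw [Finset.sum_congr rfl fun a _ => Finset.sum_comm, Finset.sum_comm]
    rw [e]
    refine (Finset.sum_le_sum hchain).trans ?_
    rw [Finset.sum_const, nsmul_eq_mul]
    push_cast
    rw [← mul_assoc]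
    gcongr
  have hfin : ∑ a, ∑ b, (J a b : ℝ) ≤ ∑ a, ∑ b, (((l0 : ℝ) + 4 * R) + 4 * R * (J' a b : ℝ)) := by
    refine Finset.sum_le_sum fun a _ => Finset.sum_le_sum fun b _ => ?_
    have := hJJ a b
    exact_mod_cast this
  refine hfin.trans ?_
  simp only [Finset.sum_add_distrib, ← Finset.mul_sum, Finset.sum_const, Finset.card_univ,
    nsmul_eq_mul, ZMod.card]
  push_cast
  have h8 := mul_le_mul_of_nonneg_left hsumJ' (show (0 : ℝ) ≤ 4 * R by positivity)
  nlinarith [h8]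

theorem bav_congr {φ ψ : ℤ → ℝ} {L l : ℕ} (hl : l ≤ L) {w : ℤ} (hw0 : 0 ≤ w)
    (hw : w < 2 ^ (l + 1)) (h : ∀ n : ℤ, |n| ≤ 2 ^ (L + 1) → φ n = ψ n) :
    bav φ l w = bav ψ l w := by
  unfold bav
  congr 1
  refine Finset.sum_congr rfl fun j hj => h _ ?_
  rw [Finset.mem_range] at hj
  have hj' : (j : ℤ) < 2 ^ (l + 1) := by exact_mod_cast hj
  have h1 : (2 : ℤ) ^ (l + 1) ≤ 2 ^ (L + 1) := pow_le_pow_right₀ (by norm_num) (by omega)
  rw [abs_le]
  constructor <;> linarith [Int.natCast_nonneg j]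

theorem HasOsc.congr {φ ψ : ℤ → ℝ} {c : ℝ} {L J : ℕ}
    (h : ∀ n : ℤ, |n| ≤ 2 ^ (L + 1) → φ n = ψ n) (hJ : HasOsc φ c L J) : HasOsc ψ c L J := by
  obtain ⟨p, hp, hpJ, ho⟩ := hJ
  refine ⟨p, hp, hpJ, fun j hj => ?_⟩
  obtain ⟨l, l', h1, h2, h1', h2', w, w', hw0, hw, hw0', hw', hc⟩ := ho j hj
  have h3 : p (j + 1) ≤ p J := hp.monotone hj
  refine ⟨l, l', h1, h2, h1', h2', w, w', hw0, hw, hw0', hw', ?_⟩
  rw [← bav_congr (show l ≤ L by omega) hw0 hw h, ← bav_congr (show l' ≤ L by omega) hw0' hw' h]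
  exact hc

/-- the count depends only on the values near the origin -/
theorem osc_congr {φ ψ : ℤ → ℝ} (c : ℝ) {L : ℕ}
    (h : ∀ n : ℤ, |n| ≤ 2 ^ (L + 1) → φ n = ψ n) : osc φ c L = osc ψ c L :=
  le_antisymm ((osc_spec φ c L).congr h).le_osc
    ((osc_spec ψ c L).congr fun n hn => (h n hn).symm).le_osc

/-- THEOREM B2, LOCAL FORM: `f j`, `g i` are arbitrary functions on the integers (functions of the
diagonal variable), `i, j < 2^s`, levels `≤ s` -/
theorem b2_loc (c : ℝ) (hc : 0 < c) : ∃ K : ℝ, 0 ≤ K ∧ ∀ (s : ℕ) (f g : ℕ → ℤ → ℝ),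
    (∀ j x, |f j x| ≤ 1) → (∀ i x, |g i x| ≤ 1) →
      ∑ i ∈ range (2 ^ s), ∑ j ∈ range (2 ^ s), (osc (fun n : ℤ => f j ((i : ℤ) + j + n) *
        g i ((i : ℤ) + j + n)) c s : ℝ) ≤ K * (4 : ℝ) ^ s := by
  obtain ⟨K, hK0, hK⟩ := b2_torus c hc
  refine ⟨K * 256, by positivity, ?_⟩
  intro s f g hf hg
  have hMpos : 0 < 2 ^ (s + 4) := by positivity
  have : NeZero (2 ^ (s + 4)) := ⟨hMpos.ne'⟩
  set F : ZMod (2 ^ (s + 4)) → ZMod (2 ^ (s + 4)) → ℝ := fun b x => f b.val x.valMinAbs with hF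
  set G : ZMod (2 ^ (s + 4)) → ZMod (2 ^ (s + 4)) → ℝ := fun a x => g a.val x.valMinAbs with hG
  have h1 := hK (s + 4) s (by omega) F G (fun b x => hf _ _) (fun a x => hg _ _)
  set O : ZMod (2 ^ (s + 4)) → ZMod (2 ^ (s + 4)) → ℝ := fun a b =>
    (osc (fun n : ℤ => F b (a + b + (n : ZMod (2 ^ (s + 4)))) *
        G a (a + b + (n : ZMod (2 ^ (s + 4))))) c s : ℝ) with hO
  have hO0 : ∀ a b, 0 ≤ O a b := fun a b => Nat.cast_nonneg _
  have hlt : 2 ^ s < 2 ^ (s + 4) := Nat.pow_lt_pow_right (by norm_num) (by omega)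
  have hinj : Set.InjOn (fun i : ℕ => (i : ZMod (2 ^ (s + 4)))) (range (2 ^ s)) := by
    intro i hi j hj hij
    rw [Finset.mem_coe, Finset.mem_range] at hi hj
    have h2 := congrArg ZMod.val hij
    simp only at h2
    rwa [ZMod.val_natCast_of_lt (by omega), ZMod.val_natCast_of_lt (by omega)] at h2
  have hle : ∀ h : ZMod (2 ^ (s + 4)) → ℝ, (∀ a, 0 ≤ h a) →
      ∑ i ∈ range (2 ^ s), h (i : ZMod (2 ^ (s + 4))) ≤ ∑ a, h a := by
    intro h h0
    rw [← Finset.sum_image (f := h) hinj]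
    exact Finset.sum_le_sum_of_subset_of_nonneg (Finset.subset_univ _) fun a _ _ => h0 a
  have heq : ∀ i ∈ range (2 ^ s), ∀ j ∈ range (2 ^ s),
      (osc (fun n : ℤ => f j ((i : ℤ) + j + n) * g i ((i : ℤ) + j + n)) c s : ℝ) =
        O (i : ZMod (2 ^ (s + 4))) (j : ZMod (2 ^ (s + 4))) := by
    intro i hi j hj
    rw [Finset.mem_range] at hi hj
    rw [hO]
    simp only
    congr 1
    apply osc_congr
    intro n hn
    have hz : ((i : ZMod (2 ^ (s + 4))) + (j : ZMod (2 ^ (s + 4))) +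
        (n : ZMod (2 ^ (s + 4)))).valMinAbs = (i : ℤ) + j + n := by
      rw [ZMod.valMinAbs_spec]
      refine ⟨by push_cast; rfl, ?_⟩
      have hi' : (i : ℤ) < 2 ^ s := by exact_mod_cast hi
      have hj' : (j : ℤ) < 2 ^ s := by exact_mod_cast hj
      rw [abs_le, pow_succ] at hn
      have e : ((2 ^ (s + 4) : ℕ) : ℤ) = 16 * 2 ^ s := by push_cast; ring
      rw [e, Set.mem_Ioc]
      constructor <;> linarith [Int.natCast_nonneg i, Int.natCast_nonneg j]
    rw [hF, hG]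
    simp only
    rw [hz, ZMod.val_natCast_of_lt (by omega), ZMod.val_natCast_of_lt (by omega)]
  calc ∑ i ∈ range (2 ^ s), ∑ j ∈ range (2 ^ s), (osc (fun n : ℤ => f j ((i : ℤ) + j + n) *
        g i ((i : ℤ) + j + n)) c s : ℝ)
      = ∑ i ∈ range (2 ^ s), ∑ j ∈ range (2 ^ s),
        O (i : ZMod (2 ^ (s + 4))) (j : ZMod (2 ^ (s + 4))) :=
        Finset.sum_congr rfl fun i hi => Finset.sum_congr rfl fun j hj => heq i hi j hj
    _ ≤ ∑ i ∈ range (2 ^ s), ∑ b, O (i : ZMod (2 ^ (s + 4))) b :=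
        Finset.sum_le_sum fun i _ => hle (fun b => O (i : ZMod (2 ^ (s + 4))) b) fun b => hO0 _ _
    _ ≤ ∑ a, ∑ b, O a b := hle (fun a => ∑ b, O a b) fun a => Finset.sum_nonneg fun b _ => hO0 _ _
    _ ≤ K * ((2 : ℝ) ^ (s + 4)) ^ 2 := h1
    _ = K * 256 * 4 ^ s := by
        have : ((2 : ℝ) ^ (s + 4)) ^ 2 = 256 * 4 ^ s := by
          rw [← pow_mul, show (4 : ℝ) = 2 ^ 2 by norm_num, ← pow_mul]
          rw [show (s + 4) * 2 = 2 * s + 8 by ring, pow_add]
          norm_num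
          ring
        rw [this]
        ring

/-- a chain of levels with jumps of size `c` has length at most twice the number of disjoint
intervals with oscillation -/
theorem jumps_le (φ : ℤ → ℝ) (c : ℝ) (L J : ℕ) (v : ℕ → ℕ) (hv : StrictMono v) (hL : v J ≤ L)
    (w : ℕ → ℤ) (hw : ∀ i ≤ J, 0 ≤ w i ∧ w i < 2 ^ (v i + 1))
    (h : ∀ i < J, c ≤ |bav φ (v i) (w i) - bav φ (v (i + 1)) (w (i + 1))|) :
    J ≤ 2 * osc φ c L := by
  set J' := (J + 1) / 2 with hJ'
  have hmain : HasOsc φ c L J' := by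
    have hvle : ∀ i, i ≤ J → v i ≤ L := fun i hi => (hv.monotone hi).trans hL
    refine ⟨fun i => if i < J' then v (2 * i) else L + 1 + (i - J'), ?_, ?_, ?_⟩
    · apply strictMono_nat_of_lt_succ
      intro i
      by_cases h1 : i + 1 < J'
      · rw [if_pos (by omega), if_pos h1]
        exact hv (by omega)
      · by_cases h2 : i < J'
        · rw [if_pos h2, if_neg h1]
          have := hvle (2 * i) (by omega)
          omega
        · rw [if_neg h2, if_neg h1]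
          omega
    · show (if J' < J' then v (2 * J') else L + 1 + (J' - J')) ≤ L + 1
      rw [if_neg (lt_irrefl _)]
      omega
    · intro i hi
      have hi2 : 2 * i + 1 ≤ J := by omega
      show OscB φ c (if i < J' then v (2 * i) else L + 1 + (i - J'))
        (if i + 1 < J' then v (2 * (i + 1)) else L + 1 + (i + 1 - J'))
      rw [if_pos hi]
      have hlt : v (2 * i) < v (2 * i + 1) := hv (by omega)
      have hlt' : v (2 * i + 1) < (if i + 1 < J' then v (2 * (i + 1)) else L + 1 + (i + 1 - J')) := by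
        split_ifs with h1
        · exact hv (by omega)
        · have := hvle (2 * i + 1) hi2
          omega
      refine ⟨v (2 * i), v (2 * i + 1), le_rfl, by omega, by omega, hlt', w (2 * i), w (2 * i + 1),
        (hw _ (by omega)).1, (hw _ (by omega)).2, (hw _ hi2).1, (hw _ hi2).2, ?_⟩
      exact h (2 * i) (by omega)
  have := hmain.le_osc
  omega

end Pool.M3B
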