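import Pool.Agent.M3.TSDefs
import Pool.Agent.M3.Indep

/-!
# M3/TSMap (helper11): transport of `TS.Side`, `TS.View` along a bijection of uniform probability spaces
-/

set_option autoImplicit false
set_option linter.unusedSectionVars false

namespace Pool.Agent.M3.TS

open Finset Pool.Agent.PWZ Pool.Agent.M3

variable {Om Om' : Type*} [Fintype Om] [Fintype Om'] [Nonempty Om] [Nonempty Om']

theorem E_equiv (φ : Om ≃ Om') (f : Om' → ℝ) :
    (FP.unif Om).E (fun o => f (φ o)) = (FP.unif Om').E f := by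
  rw [FP.unif_E, FP.unif_E, Equiv.sum_comp φ f, Fintype.card_congr φ]

theorem Pr_equiv (φ : Om ≃ Om') (s : Om' → Prop) :
    (FP.unif Om).Pr (fun o => s (φ o)) = (FP.unif Om').Pr s :=
  E_equiv φ (fun o => ind (s o))

theorem ce_equiv {κ : Type*} (φ : Om ≃ Om') (Z : Om' → κ) (f : Om' → ℝ) (o : Om) :
    (FP.unif Om).ce (fun o => Z (φ o)) (fun o => f (φ o)) o = (FP.unif Om').ce Z f (φ o) := by
  unfold FP.ce FP.m
  rw [← E_equiv φ (fun v => ind (Z v = Z (φ o)) * f v), ← E_equiv φ (fun v => ind (Z v = Z (φ o)))]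

theorem Fac.map {κ ι : Type*} (φ : Om → Om') {Z : Om' → κ} {W : Om' → ι} (h : Fac Z W) :
    Fac (fun o => Z (φ o)) (fun o => W (φ o)) := fun v w hv => h (φ v) (φ w) hv

theorem Side.map {𝒳 V Γ κ : Type*} [Fintype 𝒳] [Fintype V] (φ : Om ≃ Om') {X : Om' → 𝒳} {n : ℕ}
    {nd : ℕ → Om' → Γ} {cl : ℕ → 𝒳 → κ} {ρ : ℕ → Γ → V → ℝ} {par : ℕ → Γ → Γ}
    (hS : Side (FP.unif Om') X n nd cl ρ par) :
    Side (FP.unif Om) (fun o => X (φ o)) n (fun t o => nd t (φ o)) cl ρ par where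
  par_nd := fun t w => hS.par_nd t (φ w)
  wt := hS.wt
  free := fun t g x x' => by
    rw [Pr_equiv φ (fun o => X o = x ∧ nd t o = g), Pr_equiv φ (fun o => X o = x' ∧ nd t o = g)]
    exact hS.free t g x x'
  mart := fun t ht g x v => by
    rw [Pr_equiv φ (fun o => X o = x ∧ nd t o = g),
      E_equiv φ (fun w => ind (X w = x ∧ nd t w = g) * ρ (t + 1) (nd (t + 1) w) v)]
    exact hS.mart t ht g x v

theorem View.map {𝒳 𝒴 V Γx Γy κx κy K : Type*} [Fintype 𝒳] [Fintype 𝒴] [Fintype V] (φ : Om ≃ Om')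
    {X : Om' → 𝒳} {Y : Om' → 𝒴} {n : ℕ} {nx : ℕ → Om' → Γx} {ny : ℕ → Om' → Γy}
    {cx : ℕ → 𝒳 → κx} {cy : ℕ → 𝒴 → κy} {ρx : ℕ → Γx → V → ℝ} {ρy : ℕ → Γy → V → ℝ}
    {J : ℕ → Om' → V → ℝ} {near : ℝ}
    {κQ κR : Type*} {Q : ℕ → Om' → κQ} {R : ℕ → Om' → κR} {D : ℕ → Om' → ℝ} {dl : ℕ → Om' → V → ℝ}
    {ox : ℕ → Bool → Om' → Γx} {oy : ℕ → Bool → Om' → Γy} {ck : ℕ → K → Om' → κx} {kx : ℕ → Om' → K}
    (hV : View (FP.unif Om') X Y n nx ny cx cy ρx ρy J near Q R D dl ox oy ck kx) :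
    View (FP.unif Om) (fun o => X (φ o)) (fun o => Y (φ o)) n (fun t o => nx t (φ o)) (fun t o => ny t (φ o))
      cx cy ρx ρy (fun t o => J t (φ o)) near (fun t o => Q t (φ o)) (fun t o => R t (φ o))
      (fun t o => D t (φ o)) (fun t o => dl t (φ o)) (fun t i o => ox t i (φ o)) (fun t i o => oy t i (φ o))
      (fun t k o => ck t k (φ o)) (fun t o => kx t (φ o)) where
  ppos := fun w => FP.unif_ne Om w
  Jwt := fun t w => hV.Jwt t (φ w)
  Jnear := fun t ht w => hV.Jnear t ht (φ w)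
  ρxy := fun t w => hV.ρxy t (φ w)
  QR := fun t => Fac.map φ (hV.QR t)
  QQ := fun t => Fac.map φ (hV.QQ t)
  Dpm := fun t w => hV.Dpm t (φ w)
  Dfair := fun t ht w => by
    rw [ce_equiv φ (Q t) (D t) w]
    exact hV.Dfair t ht (φ w)
  DX := fun t => Fac.map φ (hV.DX t)
  DQ := fun t => Fac.map φ (hV.DQ t)
  Qstep := fun t ht => Fac.map φ (hV.Qstep t ht)
  Qcy := fun t => Fac.map φ (hV.Qcy t)
  Yunif := fun t ht w f => by
    rw [ce_equiv φ (fun w => (X w, Q t w)) (fun w => f (Y w)) w]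
    exact hV.Yunif t ht (φ w) f
  JQ := fun t => Fac.map φ (hV.JQ t)
  dlQ := fun t => Fac.map φ (hV.dlQ t)
  Jstep := fun t ht w v => hV.Jstep t ht (φ w) v
  nxQ := fun t => Fac.map φ (hV.nxQ t)
  nyQ := fun t => Fac.map φ (hV.nyQ t)
  nyy := fun t => Fac.map φ (hV.nyy t)
  nxy := fun t => Fac.map φ (hV.nxy t)
  oxR := fun t i => Fac.map φ (hV.oxR t i)
  oyR := fun t i => Fac.map φ (hV.oyR t i)
  opt := fun t w => hV.opt t (φ w)
  oact := fun t ht i w => by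
    obtain ⟨w', h1, h2⟩ := hV.oact t ht i (φ w)
    exact ⟨φ.symm w', by simpa using h1, by simpa using h2⟩
  ocnt := fun t i x g => by
    rw [Pr_equiv φ (fun w => X w = x ∧ ox t i w = g), Pr_equiv φ (fun w => X w = x ∧ nx t w = g)]
    exact hV.ocnt t i x g
  ckR := fun t k => Fac.map φ (hV.ckR t k)
  kxX := fun t => Fac.map φ (hV.kxX t)
  ckx := fun t w => hV.ckx t (φ w)
  ccnt := fun t i k c g => by
    rw [Pr_equiv φ (fun w => ck t k w = c ∧ ox t i w = g), Pr_equiv φ (fun w => cx t (X w) = c ∧ nx t w = g)]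
    exact hV.ccnt t i k c g
  cyn := hV.cyn
  cy4 := hV.cy4
  fresh := fun t ht y g E ε hε hE => by
    rw [Pr_equiv φ (fun w => Y w = y ∧ ny t w = g ∧ E (X w)), Pr_equiv φ (fun w => Y w = y ∧ ny t w = g)]
    exact hV.fresh t ht y g E ε hε hE

end Pool.Agent.M3.TS
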