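import Pool.Agent.M3.TSLayA

/-!
# M3 TSLay: Lemma M', abstract form: layers (row 2M (3)) (helper39)

`Tower` = the same populations with finer and finer rounding `j = 0, 1, 2, ..` (`h_j = h + 2 j`).
Layer `j`: `T = Σ_(j<J) (<u - f_j, g_(j+1) - g_j> + <f_(j+1) - f_j, v - g_(j+1)>) + <u - f_J, v - g_J>`, names `f_j`, `g_j` in the
rounding `j` with accuracy `η / 2^j` and density `ε / 64^j`, `f_0 = g_0 = 0`; the products of layer `j` are treated by
`core_bound` in the rounding `j + 1`, with `r' = 2 η_j`, `r = 4 η_j`, rarity `34 ε_j`, `q = ε_(j+1) / Kc_(j+1)`.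
-/

set_option autoImplicit false
set_option linter.unusedSectionVars false

namespace Pool.Agent.M3.TS

open Finset Pool.Agent.PWZ

/-- the models of all roundings `j` -/
structure Tower {Om 𝒳 𝒴 V Γx Γy κx κy : Type} [Fintype Om] [Fintype 𝒳] [Fintype 𝒴] [Fintype V]
    (P : FP Om) (X : Om → 𝒳) (Y : Om → 𝒴) (n : ℕ) (nx : ℕ → ℕ → Om → Γx) (ny : ℕ → ℕ → Om → Γy)
    (cx : ℕ → ℕ → 𝒳 → κx) (cy : ℕ → ℕ → 𝒴 → κy) (ρx : ℕ → ℕ → Γx → V → ℝ) (ρy : ℕ → ℕ → Γy → V → ℝ)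
    (parx : ℕ → ℕ → Γx → Γx) (pary : ℕ → ℕ → Γy → Γy)
    (J : ℕ → Om → V → ℝ) (near Kc : ℝ)
    (crx : ℕ → ℕ → Γx → Γx) (cry : ℕ → ℕ → Γy → Γy) (ccx : ℕ → ℕ → κx → κx) (ccy : ℕ → ℕ → κy → κy) : Prop where
  sideX : ∀ j, Side P X n (nx j) (cx j) (ρx j) (parx j)
  sideY : ∀ j, Side P Y n (ny j) (cy j) (ρy j) (pary j)
  viewX : ∀ j, HasView P X Y n (nx j) (ny j) (cx j) (cy j) (ρx j) (ρy j) J (near / 4 ^ j) (Kc * 4 ^ j)
  viewY : ∀ j, HasView P Y X n (ny j) (nx j) (cy j) (cx j) (ρy j) (ρx j) J (near / 4 ^ j) (Kc * 4 ^ j)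
  crx : ∀ j t w, crx j t (nx (j + 1) t w) = nx j t w
  cry : ∀ j t w, cry j t (ny (j + 1) t w) = ny j t w
  ccx : ∀ j t x, ccx j t (cx (j + 1) t x) = cx j t x
  ccy : ∀ j t y, ccy j t (cy (j + 1) t y) = cy j t y
  cx16 : ∀ j t x, ((cel (cx j t) (cx j t x)).card : ℝ) ≤ 16 * ((cel (cx (j + 1) t) (cx (j + 1) t x)).card : ℝ)
  cy16 : ∀ j t y, ((cel (cy j t) (cy j t y)).card : ℝ) ≤ 16 * ((cel (cy (j + 1) t) (cy (j + 1) t y)).card : ℝ)

/-! ### pulling a family back to the finer roundings -/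

section pull

variable {Om Γ 𝒳 V κ : Type} [Fintype Om] [Fintype 𝒳] [Fintype V] {P : FP Om} {X : Om → 𝒳} {n : ℕ}

/-- the family in the rounding `j` -/
def pull (u : ℕ → Γ → 𝒳 → V → ℝ) (cr : ℕ → ℕ → Γ → Γ) : ℕ → ℕ → Γ → 𝒳 → V → ℝ
  | 0 => u
  | j + 1 => fun t g => pull u cr j t (cr j t g)

theorem pull_bd {u : ℕ → Γ → 𝒳 → V → ℝ} (hu : ∀ t g x c, |u t g x c| ≤ 1) (cr : ℕ → ℕ → Γ → Γ) :
    ∀ j t g x c, |pull u cr j t g x c| ≤ 1 := by
  intro j
  induction j with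
  | zero => exact hu
  | succ j ih => exact fun t g x c => ih t (cr j t g) x c

theorem pull_zero {u : ℕ → Γ → 𝒳 → V → ℝ} (hu : ∀ g x c, u 0 g x c = 0) (cr : ℕ → ℕ → Γ → Γ) :
    ∀ j g x c, pull u cr j 0 g x c = 0 := by
  intro j
  induction j with
  | zero => exact hu
  | succ j ih => exact fun g x c => ih (cr j 0 g) x c

theorem pull_eq (u : ℕ → Γ → 𝒳 → V → ℝ) {cr : ℕ → ℕ → Γ → Γ} {nd : ℕ → ℕ → Om → Γ}
    (hcr : ∀ j t w, cr j t (nd (j + 1) t w) = nd j t w) :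
    ∀ j t w, pull u cr j t (nd j t w) = u t (nd 0 t w) := by
  intro j
  induction j with
  | zero => exact fun t w => rfl
  | succ j ih =>
    intro t w
    show pull u cr j t (cr j t (nd (j + 1) t w)) = _
    rw [hcr, ih]

theorem pull_moves (u : ℕ → Γ → 𝒳 → V → ℝ) {cr : ℕ → ℕ → Γ → Γ} {nd : ℕ → ℕ → Om → Γ}
    (hcr : ∀ j t w, cr j t (nd (j + 1) t w) = nd j t w) (j : ℕ) :
    moves P X n (nd j) (pull u cr j) = moves P X n (nd 0) u := by
  unfold moves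
  simp only [pull_eq u hcr]

/-- names at one rounding -/
structure Nm (P : FP Om) (X : Om → 𝒳) (n : ℕ) (nd : ℕ → Om → Γ) (cl : ℕ → 𝒳 → κ) (ρ : ℕ → Γ → V → ℝ)
    (U F : ℕ → Γ → 𝒳 → V → ℝ) (B : ℕ → Γ → κ → List (Finset 𝒳)) (η ε m : ℝ) : Prop where
  F0 : ∀ g x c, F 0 g x c = 0
  F1 : ∀ t g x c, |F t g x c| ≤ 1
  lm : LMeas n nd cl B F
  hf : HF n nd cl ρ (fun t g x c => U t g x c - F t g x c) η (2 * ε)
  th : ∀ t g k, ∀ S ∈ B t g k, S ⊆ cel (cl t) k ∧ ε * ((cel (cl t) k).card : ℝ) ≤ (S.card : ℝ)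
  nb : births P X n nd cl B ≤ 32 / η ^ 2 * m

theorem exists_Nm {nd : ℕ → ℕ → Om → Γ} {cl : ℕ → ℕ → 𝒳 → κ} {ρ : ℕ → ℕ → Γ → V → ℝ} {par : ℕ → ℕ → Γ → Γ}
    (hS : ∀ j, Side P X n (nd j) (cl j) (ρ j) (par j)) {cr : ℕ → ℕ → Γ → Γ}
    (hcr : ∀ j t w, cr j t (nd (j + 1) t w) = nd j t w) {u : ℕ → Γ → 𝒳 → V → ℝ}
    (hu1 : ∀ t g x c, |u t g x c| ≤ 1) (hu0 : ∀ g x c, u 0 g x c = 0) {η ε m : ℝ} (hη : 0 < η) (hε : 0 < ε)
    (hu : HF n (nd 0) (cl 0) (ρ 0) u η ε) (hm : moves P X n (nd 0) u ≤ m) (j : ℕ) :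
    ∃ (F : ℕ → Γ → 𝒳 → V → ℝ) (B : ℕ → Γ → κ → List (Finset 𝒳)),
      Nm P X n (nd j) (cl j) (ρ j) (pull u cr j) F B (η / 2 ^ j) (ε / 64 ^ j) m ∧
      (j = 0 → ∀ t g x c, F t g x c = 0) := by
  have hm0 : 0 ≤ m := (moves_nonneg _ _ _ _ _).trans hm
  cases j with
  | zero =>
    refine ⟨fun _ _ _ _ => 0, fun _ _ _ => [], ⟨fun _ _ _ => rfl, fun _ _ _ _ => by simp, ⟨fun _ _ _ _ => rfl,
      fun _ _ _ _ _ => rfl, fun _ _ _ _ _ _ _ _ => rfl⟩, ?_, ?_, ?_⟩, fun _ _ _ _ _ => rfl⟩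
    · have h1 : HF n (nd 0) (cl 0) (ρ 0) (fun t g x c => u t g x c - 0) η ε := by
        refine HF.congr hu fun t _ w x => ?_
        funext c
        rw [sub_zero]
      refine HF.mono h1 (by simp) ?_
      rw [pow_zero, div_one]
      linarith
    · intro t g k S hS
      exact absurd hS List.not_mem_nil
    · have h1 : births P X n (nd 0) (cl 0) (fun _ _ _ => ([] : List (Finset 𝒳))) = 0 := by
        unfold births
        refine Finset.sum_eq_zero fun t _ => ?_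
        have : (fun w => cnt ([] : List (Finset 𝒳)) (X w)) = fun _ => (0 : ℝ) := by
          funext w
          rfl
        rw [this]
        exact P.E_const 0
      rw [h1]
      positivity
  | succ j =>
    have hη' : 0 < η / 2 ^ (j + 1) := by positivity
    have hε' : 0 < ε / 64 ^ (j + 1) := by positivity
    obtain ⟨F, B, h1, h2, h3, h4, h5, h6⟩ := names_exist (hS (j + 1)) (pull u cr (j + 1)) (pull_bd hu1 cr (j + 1))
      (pull_zero hu0 cr (j + 1)) hη' hε'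
    refine ⟨F, B, ⟨h1, h2, h3, h4, h5, h6.trans ?_⟩, fun h => absurd h (Nat.succ_ne_zero j)⟩
    rw [pull_moves u hcr]
    exact mul_le_mul_of_nonneg_left hm (by positivity)

end pull

/-! ### numbers -/

theorem geo2 (J : ℕ) : ∑ j ∈ range J, (1 : ℝ) / 2 ^ j ≤ 2 := by
  have h : ∀ J : ℕ, ∑ j ∈ range J, (1 : ℝ) / 2 ^ j = 2 - 2 / 2 ^ J := by
    intro J
    induction J with
    | zero => simp
    | succ J ih =>
      rw [Finset.sum_range_succ, ih, pow_succ]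
      field_simp
      ring
  rw [h]
  have : (0 : ℝ) < 2 / 2 ^ J := by positivity
  linarith

theorem geo4 (J : ℕ) : ∑ j ∈ range J, (1 : ℝ) / 4 ^ j ≤ 4 / 3 := by
  have h : ∀ J : ℕ, ∑ j ∈ range J, (1 : ℝ) / 4 ^ j = 4 / 3 - (4 / 3) / 4 ^ J := by
    intro J
    induction J with
    | zero => simp
    | succ J ih =>
      rw [Finset.sum_range_succ, ih, pow_succ]
      field_simp
      ring
  rw [h]
  have : (0 : ℝ) < (4 / 3) / 4 ^ J := by positivity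
  linarith

theorem lay_num {m L η ε : ℝ} (hm : 0 ≤ m) (hL : 0 ≤ L) (hη : 0 < η) (hε : 0 < ε) (J : ℕ) :
    ∑ j ∈ range J, 2 * (500 * (34 * (ε / 64 ^ j)) / (4 * (η / 2 ^ j)) ^ 2 *
      ((16 * (L + 5.6 * ((j : ℝ) + 1)) + 72) * (160 * m / (η / 2 ^ j) ^ 2) + 9 * (132 * m / (η / 2 ^ j) ^ 2))) ≤
      10 ^ 8 * ε * m / η ^ 4 * (1 + L) := by
  set K := ε * m / η ^ 4 with hK
  have hK0 : 0 ≤ K := by positivity
  have hterm : ∀ j ∈ range J, 2 * (500 * (34 * (ε / 64 ^ j)) / (4 * (η / 2 ^ j)) ^ 2 *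
      ((16 * (L + 5.6 * ((j : ℝ) + 1)) + 72) * (160 * m / (η / 2 ^ j) ^ 2) + 9 * (132 * m / (η / 2 ^ j) ^ 2))) ≤
      2125 * K * ((2560 * L + 12708) * (1 / 4 ^ j) + 14336 * (1 / 2 ^ j)) := by
    intro j _
    have h64 : (64 : ℝ) ^ j = (2 ^ j) ^ 6 := by rw [← pow_mul, mul_comm, pow_mul]; norm_num
    have h4 : (4 : ℝ) ^ j = (2 ^ j) ^ 2 := by rw [← pow_mul, mul_comm, pow_mul]; norm_num
    have ha : (0 : ℝ) < 2 ^ j := by positivity
    have hj : ((j : ℝ) + 1) ≤ 2 ^ j := by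
      have := Nat.lt_two_pow_self (n := j)
      have h' : j + 1 ≤ 2 ^ j := this
      exact_mod_cast h'
    rw [h64, h4, hK]
    set a : ℝ := 2 ^ j with haa
    have e1 : 2 * (500 * (34 * (ε / a ^ 6)) / (4 * (η / a)) ^ 2 *
      ((16 * (L + 5.6 * ((j : ℝ) + 1)) + 72) * (160 * m / (η / a) ^ 2) + 9 * (132 * m / (η / a) ^ 2))) =
      2125 * (ε * m / η ^ 4) * ((2560 * L + 12708) * (1 / a ^ 2) + 14336 * (((j : ℝ) + 1) / a ^ 2)) := by
      field_simp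
      ring
    rw [e1]
    refine mul_le_mul_of_nonneg_left ?_ (by positivity)
    have e2 : ((j : ℝ) + 1) / a ^ 2 ≤ 1 / a := by
      rw [div_le_div_iff₀ (by positivity) ha]
      nlinarith
    linarith
  refine (Finset.sum_le_sum hterm).trans ?_
  rw [← Finset.mul_sum, Finset.sum_add_distrib, ← Finset.mul_sum, ← Finset.mul_sum]
  have h2 := geo2 J
  have h4 := geo4 J
  have e1 : (2560 * L + 12708) * ∑ j ∈ range J, (1 : ℝ) / 4 ^ j ≤ (2560 * L + 12708) * (4 / 3) :=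
    mul_le_mul_of_nonneg_left h4 (by positivity)
  have e2 : 14336 * ∑ j ∈ range J, (1 : ℝ) / 2 ^ j ≤ 14336 * 2 := mul_le_mul_of_nonneg_left h2 (by norm_num)
  have e3 : 2125 * K * ((2560 * L + 12708) * ∑ j ∈ range J, (1 : ℝ) / 4 ^ j + 14336 * ∑ j ∈ range J, (1 : ℝ) / 2 ^ j) ≤
      2125 * K * ((2560 * L + 12708) * (4 / 3) + 14336 * 2) :=
    mul_le_mul_of_nonneg_left (add_le_add e1 e2) (by positivity)
  refine e3.trans ?_
  have e4 : 10 ^ 8 * ε * m / η ^ 4 * (1 + L) = K * (10 ^ 8 * (1 + L)) := by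
    rw [hK]
    ring
  have e5 : 2125 * K * ((2560 * L + 12708) * (4 / 3) + 14336 * 2) =
      K * (2125 * ((2560 * L + 12708) * (4 / 3) + 14336 * 2)) := by ring
  rw [e4, e5]
  refine mul_le_mul_of_nonneg_left ?_ hK0
  linarith

theorem lay_log {Kc ε : ℝ} (hKc : 1 ≤ Kc) (hε : 0 < ε) (j : ℕ) :
    Real.log (Kc * 4 ^ (j + 1) / (ε / 64 ^ (j + 1))) ≤ Real.log (Kc / ε) + 5.6 * ((j : ℝ) + 1) := by
  have h1 : Kc * 4 ^ (j + 1) / (ε / 64 ^ (j + 1)) = Kc / ε * 256 ^ (j + 1) := by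
    have : (256 : ℝ) ^ (j + 1) = 4 ^ (j + 1) * 64 ^ (j + 1) := by
      rw [← mul_pow]
      norm_num
    rw [this]
    field_simp
  have hpos : 0 < Kc / ε := by positivity
  rw [h1, Real.log_mul hpos.ne' (by positivity), Real.log_pow]
  have h2 : Real.log 256 ≤ 5.6 := by
    have h3 : (256 : ℝ) = 2 ^ 8 := by norm_num
    rw [h3, Real.log_pow]
    have := Real.log_two_lt_d9
    push_cast
    linarith
  have h4 : ((j + 1 : ℕ) : ℝ) * Real.log 256 ≤ ((j + 1 : ℕ) : ℝ) * 5.6 :=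
    mul_le_mul_of_nonneg_left h2 (Nat.cast_nonneg _)
  push_cast at h4 ⊢
  linarith

/-! ### the layers -/

theorem hv_near {Om 𝒳 𝒴 V Γx Γy κx κy : Type} [Fintype Om] [Fintype 𝒳] [Fintype 𝒴] [Fintype V]
    {P : FP Om} {X : Om → 𝒳} {Y : Om → 𝒴} {n : ℕ} {nx : ℕ → Om → Γx} {ny : ℕ → Om → Γy}
    {cx : ℕ → 𝒳 → κx} {cy : ℕ → 𝒴 → κy} {ρx : ℕ → Γx → V → ℝ} {ρy : ℕ → Γy → V → ℝ}
    {J : ℕ → Om → V → ℝ} {near Kc : ℝ} (hV : HasView P X Y n nx ny cx cy ρx ρy J near Kc)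
    {t : ℕ} (ht : t ≤ n) (w : Om) {f h : V → ℝ} (hf : ∀ c, |f c| ≤ 2) (hh : ∀ c, |h c| ≤ 2) :
    |iw (J t w) f h - iw (ρx t (nx t w)) f h| ≤ near := by
  obtain ⟨κQ, κR, K, hK, Q, R, D, dl, ox, oy, ck, kx, hV, hKK⟩ := hV
  rw [hV.ρxy]
  exact hV.Jnear t ht w f h hf hh

section layer

variable {Om 𝒳 𝒴 V Γx Γy κx κy : Type} [Fintype Om] [Fintype 𝒳] [Fintype 𝒴] [Fintype V]
    {P : FP Om} {X : Om → 𝒳} {Y : Om → 𝒴} {n : ℕ} {nx nx' : ℕ → Om → Γx} {ny ny' : ℕ → Om → Γy}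
    {cx cx' : ℕ → 𝒳 → κx} {cy cy' : ℕ → 𝒴 → κy} {ρx ρx' : ℕ → Γx → V → ℝ} {ρy ρy' : ℕ → Γy → V → ℝ}
    {parx parx' : ℕ → Γx → Γx} {J : ℕ → Om → V → ℝ} {near near' Kc Kc' : ℝ}
    {crx : ℕ → Γx → Γx} {cry : ℕ → Γy → Γy} {ccx : ℕ → κx → κx} {ccy : ℕ → κy → κy}

/-- uniformity of a difference in the next rounding -/
theorem hf_next (hV : HasView P X Y n nx ny cx cy ρx ρy J near Kc)
    (hV' : HasView P X Y n nx' ny' cx' cy' ρx' ρy' J near' Kc')
    (hcr : ∀ t w, crx t (nx' t w) = nx t w) (hcc : ∀ t x, ccx t (cx' t x) = cx t x)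
    (h16 : ∀ t x, ((cel (cx t) (cx t x)).card : ℝ) ≤ 16 * ((cel (cx' t) (cx' t x)).card : ℝ))
    {W : ℕ → Γx → 𝒳 → V → ℝ} (hW2 : ∀ t g x c, |W t g x c| ≤ 2) {r ε : ℝ} (hε : 0 ≤ ε)
    (hW : HF n nx cx ρx W r ε) :
    HF n nx' cx' ρx' (fun t g x => W t (crx t g) x) (r + (near + near')) (16 * ε) := by
  refine HF.finer hW hε hW2 crx hcr ccx hcc h16 ?_
  intro t ht w f h hf hh
  have h1 := hv_near hV ht w hf hh
  have h2 := hv_near hV' ht w hf hh
  rw [abs_sub_comm] at h2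
  have h3 := abs_sub_le (iw (ρx' t (nx' t w)) f h) (iw (J t w) f h) (iw (ρx t (nx t w)) f h)
  linarith

end layer

/-- LEMMA M' -/
theorem lemmaM' {Om 𝒳 𝒴 V Γx Γy κx κy : Type} [Fintype Om] [Fintype 𝒳] [Fintype 𝒴] [Fintype V]
    {P : FP Om} {X : Om → 𝒳} {Y : Om → 𝒴} {n : ℕ} {nx : ℕ → ℕ → Om → Γx} {ny : ℕ → ℕ → Om → Γy}
    {cx : ℕ → ℕ → 𝒳 → κx} {cy : ℕ → ℕ → 𝒴 → κy} {ρx : ℕ → ℕ → Γx → V → ℝ} {ρy : ℕ → ℕ → Γy → V → ℝ}
    {parx : ℕ → ℕ → Γx → Γx} {pary : ℕ → ℕ → Γy → Γy}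
    {J : ℕ → Om → V → ℝ} {near Kc : ℝ}
    {crx : ℕ → ℕ → Γx → Γx} {cry : ℕ → ℕ → Γy → Γy} {ccx : ℕ → ℕ → κx → κx} {ccy : ℕ → ℕ → κy → κy}
    (hT : Tower P X Y n nx ny cx cy ρx ρy parx pary J near Kc crx cry ccx ccy)
    (u : ℕ → Γy → 𝒴 → V → ℝ) (v : ℕ → Γx → 𝒳 → V → ℝ)
    (hu1 : ∀ t g y c, |u t g y c| ≤ 1) (hv1 : ∀ t g x c, |v t g x c| ≤ 1)
    (hu0 : ∀ g y c, u 0 g y c = 0) (hv0 : ∀ g x c, v 0 g x c = 0)
    {η ε m : ℝ} (hη : 0 < η) (hη1 : η ≤ 1 / 4) (hε : 0 < ε) (hε1 : ε ≤ 1) (hKc : 1 ≤ Kc)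
    (hnear0 : 0 ≤ near) (hnear : near ≤ η / 4)
    (hu : HF n (ny 0) (cy 0) (ρy 0) u η ε) (hv : HF n (nx 0) (cx 0) (ρx 0) v η ε)
    (hmu : moves P Y n (ny 0) u ≤ m) (hmv : moves P X n (nx 0) v ≤ m) :
    P.Pr (fun w => ∃ t ≤ n, 400 * η < |TT X Y (nx 0) (ny 0) J u v t w|) ≤
      10 ^ 8 * ε * m / η ^ 4 * (1 + Real.log (Kc / ε)) := by
  classical
  have hm0 : 0 ≤ m := (moves_nonneg _ _ _ _ _).trans hmu
  -- the names
  choose Fu Bu hNu hNu0 using exists_Nm hT.sideY hT.cry hu1 hu0 hη hε hu hmu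
  choose Fv Bv hNv hNv0 using exists_Nm hT.sideX hT.crx hv1 hv0 hη hε hv hmv
  set U := pull u cry with hU
  set W := pull v crx with hW
  have hU1 : ∀ j t g y c, |U j t g y c| ≤ 1 := pull_bd hu1 cry
  have hW1 : ∀ j t g x c, |W j t g x c| ≤ 1 := pull_bd hv1 crx
  have hU0 : ∀ j g y c, U j 0 g y c = 0 := pull_zero hu0 cry
  have hW0 : ∀ j g x c, W j 0 g x c = 0 := pull_zero hv0 crx
  have hMU : ∀ j, moves P Y n (ny j) (U j) ≤ m := fun j => by rw [hU, pull_moves u hT.cry]; exact hmu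
  have hMW : ∀ j, moves P X n (nx j) (W j) ≤ m := fun j => by rw [hW, pull_moves v hT.crx]; exact hmv
  -- small numbers
  have hηj : ∀ j : ℕ, 0 < η / 2 ^ j := fun j => by positivity
  have hεj : ∀ j : ℕ, 0 < ε / 64 ^ j := fun j => by positivity
  have hηs : ∀ j : ℕ, η / 2 ^ (j + 1) = (η / 2 ^ j) / 2 := fun j => by
    rw [pow_succ]
    field_simp
  have hεs : ∀ j : ℕ, ε / 64 ^ (j + 1) = (ε / 64 ^ j) / 64 := fun j => by
    rw [pow_succ]
    field_simp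
  have hηle : ∀ j : ℕ, η / 2 ^ j ≤ 1 / 4 := fun j =>
    (div_le_self hη.le (one_le_pow₀ (by norm_num))).trans hη1
  have hεle : ∀ j : ℕ, ε / 64 ^ j ≤ 1 := fun j =>
    (div_le_self hε.le (one_le_pow₀ (by norm_num))).trans hε1
  have hnj : ∀ j : ℕ, near / 4 ^ j ≤ (η / 2 ^ j) / 4 := by
    intro j
    have h4 : (4 : ℝ) ^ j = 2 ^ j * 2 ^ j := by rw [← mul_pow]; norm_num
    have h2 : (1 : ℝ) ≤ 2 ^ j := one_le_pow₀ (by norm_num)
    have h3 : (0 : ℝ) < 2 ^ j := by positivity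
    rw [h4]
    calc near / (2 ^ j * 2 ^ j) ≤ near / (2 ^ j * 1) :=
          div_le_div_of_nonneg_left hnear0 (by positivity) (mul_le_mul_of_nonneg_left h2 h3.le)
      _ = near / 2 ^ j := by rw [mul_one]
      _ ≤ (η / 4) / 2 ^ j := div_le_div_of_nonneg_right hnear h3.le
      _ = _ := by ring
  have hnj0 : ∀ j : ℕ, 0 ≤ near / 4 ^ j := fun j => by positivity
  -- uniformity in the next rounding
  have bd2 : ∀ {a b : ℝ}, |a| ≤ 1 → |b| ≤ 1 → |a - b| ≤ 2 := fun {a b} h1 h2 => by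
    have := abs_sub a b
    linarith
  have hfu : ∀ j, HF n (ny (j + 1)) (cy (j + 1)) (ρy (j + 1))
      (fun t g y c => U (j + 1) t g y c - Fu j t (cry j t g) y c) (3 / 2 * (η / 2 ^ j)) (32 * (ε / 64 ^ j)) := by
    intro j
    have h1 := hf_next (hT.viewY j) (hT.viewY (j + 1)) (hT.cry j) (hT.ccy j) (hT.cy16 j)
      (W := fun t g y c => U j t g y c - Fu j t g y c) (fun t g y c => bd2 (hU1 j t g y c) ((hNu j).F1 t g y c))
      (by have := hεj j; positivity) (hNu j).hf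
    refine HF.mono h1 ?_ ?_
    · have h2 := hnj j
      have h3 := hnj (j + 1)
      rw [hηs] at h3
      have := hηj j
      linarith
    · linarith
  have hfv : ∀ j, HF n (nx (j + 1)) (cx (j + 1)) (ρx (j + 1))
      (fun t g x c => W (j + 1) t g x c - Fv j t (crx j t g) x c) (3 / 2 * (η / 2 ^ j)) (32 * (ε / 64 ^ j)) := by
    intro j
    have h1 := hf_next (hT.viewX j) (hT.viewX (j + 1)) (hT.crx j) (hT.ccx j) (hT.cx16 j)
      (W := fun t g x c => W j t g x c - Fv j t g x c) (fun t g x c => bd2 (hW1 j t g x c) ((hNv j).F1 t g x c))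
      (by have := hεj j; positivity) (hNv j).hf
    refine HF.mono h1 ?_ ?_
    · have h2 := hnj j
      have h3 := hnj (j + 1)
      rw [hηs] at h3
      have := hηj j
      linarith
    · linarith
  have hgu : ∀ j, HF n (ny (j + 1)) (cy (j + 1)) (ρy (j + 1))
      (fun t g y c => Fu (j + 1) t g y c - Fu j t (cry j t g) y c) (2 * (η / 2 ^ j)) (34 * (ε / 64 ^ j)) := by
    intro j
    have h1 := HF.sub (hfu j) (hNu (j + 1)).hf
    have h2 := HF.mono h1 (r' := 2 * (η / 2 ^ j)) (ε' := 34 * (ε / 64 ^ j))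
      (by rw [hηs]; linarith) (by rw [hεs]; have := hεj j; linarith)
    refine HF.congr h2 fun t _ w y => ?_
    funext c
    ring
  have hgv : ∀ j, HF n (nx (j + 1)) (cx (j + 1)) (ρx (j + 1))
      (fun t g x c => Fv (j + 1) t g x c - Fv j t (crx j t g) x c) (2 * (η / 2 ^ j)) (34 * (ε / 64 ^ j)) := by
    intro j
    have h1 := HF.sub (hfv j) (hNv (j + 1)).hf
    have h2 := HF.mono h1 (r' := 2 * (η / 2 ^ j)) (ε' := 34 * (ε / 64 ^ j))
      (by rw [hηs]; linarith) (by rw [hεs]; have := hεj j; linarith)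
    refine HF.congr h2 fun t _ w x => ?_
    funext c
    ring
  -- the products
  let aa : ℕ → ℕ → Om → ℝ := fun j => TT X Y (nx (j + 1)) (ny (j + 1)) J
    (fun t g y c => U (j + 1) t g y c - Fu j t (cry j t g) y c)
    (fun t g x c => Fv (j + 1) t g x c - Fv j t (crx j t g) x c)
  let bb : ℕ → ℕ → Om → ℝ := fun j => TT Y X (ny (j + 1)) (nx (j + 1)) J
    (fun t g x c => W (j + 1) t g x c - Fv (j + 1) t g x c)
    (fun t g y c => Fu (j + 1) t g y c - Fu j t (cry j t g) y c)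
  let RR : ℕ → ℕ → Om → ℝ := fun j => TT X Y (nx j) (ny j) J
    (fun t g y c => U j t g y c - Fu j t g y c) (fun t g x c => W j t g x c - Fv j t g x c)
  have hRR : ∀ j t w, RR j t w = aa j t w + bb j t w + RR (j + 1) t w := by
    intro j t w
    have e1 : ∀ y c, U (j + 1) t (ny (j + 1) t w) y c = U j t (ny j t w) y c := fun y c => by
      rw [hU, pull_eq u hT.cry, pull_eq u hT.cry]
    have e2 : ∀ x c, W (j + 1) t (nx (j + 1) t w) x c = W j t (nx j t w) x c := fun x c => by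
      rw [hW, pull_eq v hT.crx, pull_eq v hT.crx]
    show iw (J t w) (fun c => U j t (ny j t w) (Y w) c - Fu j t (ny j t w) (Y w) c)
        (fun c => W j t (nx j t w) (X w) c - Fv j t (nx j t w) (X w) c) =
      iw (J t w) (fun c => U (j + 1) t (ny (j + 1) t w) (Y w) c - Fu j t (cry j t (ny (j + 1) t w)) (Y w) c)
        (fun c => Fv (j + 1) t (nx (j + 1) t w) (X w) c - Fv j t (crx j t (nx (j + 1) t w)) (X w) c) +
      iw (J t w) (fun c => W (j + 1) t (nx (j + 1) t w) (X w) c - Fv (j + 1) t (nx (j + 1) t w) (X w) c)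
        (fun c => Fu (j + 1) t (ny (j + 1) t w) (Y w) c - Fu j t (cry j t (ny (j + 1) t w)) (Y w) c) +
      iw (J t w) (fun c => U (j + 1) t (ny (j + 1) t w) (Y w) c - Fu (j + 1) t (ny (j + 1) t w) (Y w) c)
        (fun c => W (j + 1) t (nx (j + 1) t w) (X w) c - Fv (j + 1) t (nx (j + 1) t w) (X w) c)
    unfold iw
    rw [← Finset.sum_add_distrib, ← Finset.sum_add_distrib]
    refine Finset.sum_congr rfl fun c _ => ?_
    simp only [e1, e2, hT.crx, hT.cry]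
    ring
  have hRR0 : ∀ t w, RR 0 t w = TT X Y (nx 0) (ny 0) J u v t w := by
    intro t w
    show iw (J t w) (fun c => U 0 t (ny 0 t w) (Y w) c - Fu 0 t (ny 0 t w) (Y w) c)
        (fun c => W 0 t (nx 0 t w) (X w) c - Fv 0 t (nx 0 t w) (X w) c) =
      iw (J t w) (u t (ny 0 t w) (Y w)) (v t (nx 0 t w) (X w))
    unfold iw
    refine Finset.sum_congr rfl fun c _ => ?_
    simp only [hNu0 0 rfl, hNv0 0 rfl]
    show J t w c * (u t (ny 0 t w) (Y w) c - 0) * (v t (nx 0 t w) (X w) c - 0) = _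
    rw [sub_zero, sub_zero]
  -- the bound for one product
  set L := Real.log (Kc / ε) with hL
  have hL0 : 0 ≤ L := Real.log_nonneg (by
    rw [le_div_iff₀ hε]
    linarith)
  set bd : ℕ → ℝ := fun j => 500 * (34 * (ε / 64 ^ j)) / (4 * (η / 2 ^ j)) ^ 2 *
      ((16 * (L + 5.6 * ((j : ℝ) + 1)) + 72) * (160 * m / (η / 2 ^ j) ^ 2) + 9 * (132 * m / (η / 2 ^ j) ^ 2)) with hbd
  have hfin : ∀ j, 500 * (34 * (ε / 64 ^ j)) / (4 * (η / 2 ^ j)) ^ 2 *
      ((16 * Real.log (Kc * 4 ^ (j + 1) / (ε / 64 ^ (j + 1))) + 72) * (160 * m / (η / 2 ^ j) ^ 2) +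
        9 * (132 * m / (η / 2 ^ j) ^ 2)) ≤ bd j := by
    intro j
    have h1 := lay_log hKc hε j
    have h2 : 0 ≤ 160 * m / (η / 2 ^ j) ^ 2 := by positivity
    refine mul_le_mul_of_nonneg_left ?_ (by positivity)
    have h3 : (16 * Real.log (Kc * 4 ^ (j + 1) / (ε / 64 ^ (j + 1))) + 72) * (160 * m / (η / 2 ^ j) ^ 2) ≤
        (16 * (L + 5.6 * ((j : ℝ) + 1)) + 72) * (160 * m / (η / 2 ^ j) ^ 2) :=
      mul_le_mul_of_nonneg_right (by linarith) h2
    linarith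
  have hKcj : ∀ j : ℕ, 1 ≤ Kc * 4 ^ j := fun j => by
    have : (1 : ℝ) ≤ 4 ^ j := one_le_pow₀ (by norm_num)
    nlinarith
  have hone : ∀ j : ℕ, 1 ≤ 1 / (η / 2 ^ j) ^ 2 := by
    intro j
    rw [le_div_iff₀ (by have := hηj j; positivity), one_mul]
    have h1 := hηj j
    have h2 := hηle j
    nlinarith
  have hbirth : ∀ (j : ℕ) (b0 b1 : ℝ), b0 ≤ 32 / (η / 2 ^ j) ^ 2 * m → b1 ≤ 32 / (η / 2 ^ (j + 1)) ^ 2 * m →
      b0 + b1 ≤ 160 * m / (η / 2 ^ j) ^ 2 := by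
    intro j b0 b1 h0 h1
    rw [hηs] at h1
    have h2 : 32 / ((η / 2 ^ j) / 2) ^ 2 * m = 128 * m / (η / 2 ^ j) ^ 2 := by
      have := (hηj j).ne'
      field_simp
      ring
    have h3 : 32 / (η / 2 ^ j) ^ 2 * m = 32 * m / (η / 2 ^ j) ^ 2 := by ring
    rw [h2] at h1
    rw [h3] at h0
    have h4 : 160 * m / (η / 2 ^ j) ^ 2 = 32 * m / (η / 2 ^ j) ^ 2 + 128 * m / (η / 2 ^ j) ^ 2 := by ring
    linarith
  have hε34 : ∀ j : ℕ, (0 : ℝ) ≤ 34 * (ε / 64 ^ j) := fun j => by positivity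
  have hηr : ∀ j : ℕ, 2 * (η / 2 ^ j) + near / 4 ^ (j + 1) ≤ 4 * (η / 2 ^ j) := by
    intro j
    have h1 := hnj (j + 1)
    rw [hηs] at h1
    have := hηj j
    linarith
  have haa : ∀ j, P.Pr (fun w => ∃ t ≤ n, 24 * (4 * (η / 2 ^ j)) < |aa j t w|) ≤ bd j := by
    intro j
    refine le_trans ?_ (hfin j)
    refine prod_bound (hT.viewX (j + 1)) (hT.sideX j) (hT.sideX (j + 1)) (hT.crx j) (hT.ccx j) (hNv j).lm
      (hNv (j + 1)).lm (ε0 := ε / 64 ^ j) (hεj (j + 1)) (by rw [hεs]; have := hεj j; linarith) (hεle (j + 1)) (hKcj (j + 1))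
      (hNv j).th (hNv (j + 1)).th (hNv j).F1 (hNv (j + 1)).F1
      (A := fun t g y c => U (j + 1) t g y c - Fu j t (cry j t g) y c)
      (fun t g y c => bd2 (hU1 (j + 1) t g y c) ((hNu j).F1 t _ y c)) ?_
      (by have := hηj j; positivity) (by have := hηle j; linarith) (hηr j) (hε34 j) ?_ (hgv j)
      (hbirth j _ _ (hNv j).nb (hNv (j + 1)).nb) ?_
    · intro w y c
      show U (j + 1) 0 (ny (j + 1) 0 w) y c - Fu j 0 (cry j 0 (ny (j + 1) 0 w)) y c = 0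
      rw [hU0, (hNu j).F0, sub_zero]
    · refine HF.mono (hfu j) ?_ ?_
      · have := hηj j
        linarith
      · have := hεj j
        linarith
    · have h1 := moves_sub_le (P := P) (X := Y) (n := n) (nd := ny (j + 1)) (U (j + 1))
        (fun t g y c => Fu j t (cry j t g) y c)
      have h2 := moves_cr (P := P) (X := Y) (n := n) (Fu j) (cry j) (hT.cry j)
      have h3 := moves_le_births (P := P) (X := Y) (hNu j).lm
      have h4 := (hNu j).nb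
      have h5 := hMU (j + 1)
      have h6 : moves P Y n (ny (j + 1)) (fun t g y c => Fu j t (cry j t g) y c) ≤ 32 / (η / 2 ^ j) ^ 2 * m :=
        h2.le.trans (h3.trans h4)
      have h7 : m ≤ m / (η / 2 ^ j) ^ 2 := by
        have := mul_le_mul_of_nonneg_left (hone j) hm0
        rw [mul_one] at this
        calc m ≤ m * (1 / (η / 2 ^ j) ^ 2) := this
          _ = _ := by ring
      have h8 : 32 / (η / 2 ^ j) ^ 2 * m = 32 * (m / (η / 2 ^ j) ^ 2) := by ring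
      have h9 : 132 * m / (η / 2 ^ j) ^ 2 = 132 * (m / (η / 2 ^ j) ^ 2) := by ring
      have h10 : 0 ≤ m / (η / 2 ^ j) ^ 2 := by positivity
      rw [h8] at h6
      rw [h9]
      linarith
  have hbb : ∀ j, P.Pr (fun w => ∃ t ≤ n, 24 * (4 * (η / 2 ^ j)) < |bb j t w|) ≤ bd j := by
    intro j
    refine le_trans ?_ (hfin j)
    refine prod_bound (hT.viewY (j + 1)) (hT.sideY j) (hT.sideY (j + 1)) (hT.cry j) (hT.ccy j) (hNu j).lm
      (hNu (j + 1)).lm (ε0 := ε / 64 ^ j) (hεj (j + 1)) (by rw [hεs]; have := hεj j; linarith) (hεle (j + 1)) (hKcj (j + 1))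
      (hNu j).th (hNu (j + 1)).th (hNu j).F1 (hNu (j + 1)).F1
      (A := fun t g x c => W (j + 1) t g x c - Fv (j + 1) t g x c)
      (fun t g x c => bd2 (hW1 (j + 1) t g x c) ((hNv (j + 1)).F1 t _ x c)) ?_
      (by have := hηj j; positivity) (by have := hηle j; linarith) (hηr j) (hε34 j) ?_ (hgu j)
      (hbirth j _ _ (hNu j).nb (hNu (j + 1)).nb) ?_
    · intro w x c
      show W (j + 1) 0 (nx (j + 1) 0 w) x c - Fv (j + 1) 0 (nx (j + 1) 0 w) x c = 0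
      rw [hW0, (hNv (j + 1)).F0, sub_zero]
    · refine HF.mono (hNv (j + 1)).hf ?_ ?_
      · rw [hηs]
        have := hηj j
        linarith
      · rw [hεs]
        have := hεj j
        linarith
    · have h1 := moves_sub_le (P := P) (X := X) (n := n) (nd := nx (j + 1)) (W (j + 1)) (Fv (j + 1))
      have h3 := moves_le_births (P := P) (X := X) (hNv (j + 1)).lm
      have h4 := (hNv (j + 1)).nb
      have h5 := hMW (j + 1)
      have h6 : moves P X n (nx (j + 1)) (Fv (j + 1)) ≤ 32 / (η / 2 ^ (j + 1)) ^ 2 * m := h3.trans h4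
      have h7 : m ≤ m / (η / 2 ^ j) ^ 2 := by
        have := mul_le_mul_of_nonneg_left (hone j) hm0
        rw [mul_one] at this
        calc m ≤ m * (1 / (η / 2 ^ j) ^ 2) := this
          _ = _ := by ring
      rw [hηs] at h6
      have h8 : 32 / ((η / 2 ^ j) / 2) ^ 2 * m = 128 * (m / (η / 2 ^ j) ^ 2) := by
        have := (hηj j).ne'
        field_simp
        ring
      have h9 : 132 * m / (η / 2 ^ j) ^ 2 = 132 * (m / (η / 2 ^ j) ^ 2) := by ring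
      have h10 : 0 ≤ m / (η / 2 ^ j) ^ 2 := by positivity
      rw [h8] at h6
      rw [h9]
      linarith
  -- the last product
  have hlast : ∀ j, P.Pr (fun w => ∃ t ≤ n, 4 * (η / 2 ^ j) < |RR j t w|) ≤ ((n : ℝ) + 1) * (4 * (ε / 64 ^ j)) := by
    intro j
    obtain ⟨κQ, κR, K, hK, Q, R, D, dl, ox, oy, ck, kx, hV, hKK⟩ := hT.viewX j
    have h1 := P.Pr_ex_le (range (n + 1)) (fun t w => 4 * (η / 2 ^ j) < |RR j t w|)
    have h2 : P.Pr (fun w => ∃ t ≤ n, 4 * (η / 2 ^ j) < |RR j t w|) ≤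
        P.Pr (fun w => ∃ t ∈ range (n + 1), 4 * (η / 2 ^ j) < |RR j t w|) :=
      P.Pr_mono fun w _ ⟨t, ht, h⟩ => ⟨t, Finset.mem_range.2 (by omega), h⟩
    refine h2.trans (h1.trans ?_)
    have h3 : ∀ t ∈ range (n + 1), P.Pr (fun w => 4 * (η / 2 ^ j) < |RR j t w|) ≤ 4 * (ε / 64 ^ j) := by
      intro t ht
      have ht' : t ≤ n := by
        have := Finset.mem_range.1 ht
        omega
      have h4 := rare_y hV (r' := η / 2 ^ j) (r := 4 * (η / 2 ^ j)) (ε := 2 * (ε / 64 ^ j))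
        (by have := hεj j; positivity) (by have := hnj j; have := hηj j; linarith)
        (u := fun t g y c => U j t g y c - Fu j t g y c) (v := fun t g x c => W j t g x c - Fv j t g x c)
        (fun t g y c => bd2 (hU1 j t g y c) ((hNu j).F1 t _ y c))
        (fun t g x c => bd2 (hW1 j t g x c) ((hNv j).F1 t _ x c)) (hNu j).hf ht' (h := fun _ => 1)
        (fun _ => zero_le_one) (fun _ _ _ => rfl)
      rw [P.E_const, mul_one] at h4
      refine le_trans (le_of_eq ?_) (h4.trans (by linarith))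
      unfold FP.Pr
      refine P.E_congr fun w _ => ?_
      rw [one_mul]
    refine (Finset.sum_le_sum h3).trans (le_of_eq ?_)
    rw [Finset.sum_const, Finset.card_range, nsmul_eq_mul]
    push_cast
    ring
  -- all layers together
  have hall : ∀ J' : ℕ, P.Pr (fun w => ∃ t ≤ n, 400 * η < |TT X Y (nx 0) (ny 0) J u v t w|) ≤
      10 ^ 8 * ε * m / η ^ 4 * (1 + L) + ((n : ℝ) + 1) * (4 * (ε / 64 ^ J')) := by
    intro J'
    have hsum : ∀ t w, RR 0 t w = (∑ j ∈ range J', (aa j t w + bb j t w)) + RR J' t w := by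
      intro t w
      have : ∀ N : ℕ, RR 0 t w = (∑ j ∈ range N, (aa j t w + bb j t w)) + RR N t w := by
        intro N
        induction N with
        | zero => simp
        | succ N ih =>
          rw [Finset.sum_range_succ, ih, hRR N t w]
          ring
      exact this J'
    have hev : P.Pr (fun w => ∃ t ≤ n, 400 * η < |TT X Y (nx 0) (ny 0) J u v t w|) ≤
        P.Pr (fun w => (∃ j ∈ range J', (∃ t ≤ n, 24 * (4 * (η / 2 ^ j)) < |aa j t w|) ∨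
          (∃ t ≤ n, 24 * (4 * (η / 2 ^ j)) < |bb j t w|)) ∨ (∃ t ≤ n, 4 * (η / 2 ^ J') < |RR J' t w|)) := by
      refine P.Pr_mono ?_
      rintro w _ ⟨t, ht, h⟩
      by_contra hno
      push Not at hno
      obtain ⟨h1, h2⟩ := hno
      have h3 : |RR 0 t w| ≤ ∑ j ∈ range J', (192 * η * (1 / 2 ^ j)) + 4 * (η / 2 ^ J') := by
        rw [hsum t w]
        refine (abs_add_le _ _).trans (add_le_add ?_ (h2 t ht))
        refine (Finset.abs_sum_le_sum_abs _ _).trans (Finset.sum_le_sum fun j hj => ?_)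
        obtain ⟨h4, h5⟩ := h1 j hj
        refine (abs_add_le _ _).trans ((add_le_add (h4 t ht) (h5 t ht)).trans (le_of_eq ?_))
        ring
      rw [← Finset.mul_sum] at h3
      have h4 := geo2 J'
      have h5 : 192 * η * ∑ j ∈ range J', (1 : ℝ) / 2 ^ j ≤ 192 * η * 2 :=
        mul_le_mul_of_nonneg_left h4 (by positivity)
      have h6 : η / 2 ^ J' ≤ η := div_le_self hη.le (one_le_pow₀ (by norm_num))
      rw [← hRR0] at h
      linarith
    refine hev.trans ((P.Pr_or_le _ _).trans (add_le_add ?_ (hlast J')))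
    refine (P.Pr_ex_le _ _).trans ?_
    have h1 : ∀ j ∈ range J', P.Pr (fun w => (∃ t ≤ n, 24 * (4 * (η / 2 ^ j)) < |aa j t w|) ∨
          (∃ t ≤ n, 24 * (4 * (η / 2 ^ j)) < |bb j t w|)) ≤ 2 * bd j := by
      intro j _
      refine (P.Pr_or_le _ _).trans ?_
      have := haa j
      have := hbb j
      linarith
    exact (Finset.sum_le_sum h1).trans (lay_num hm0 hL0 hη hε J')
  -- the limit
  have hlim : Filter.Tendsto (fun J' : ℕ => 10 ^ 8 * ε * m / η ^ 4 * (1 + L) +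
      ((n : ℝ) + 1) * (4 * (ε / 64 ^ J'))) Filter.atTop (nhds (10 ^ 8 * ε * m / η ^ 4 * (1 + L) + ((n : ℝ) + 1) * (4 * 0))) := by
    refine Filter.Tendsto.const_add _ (Filter.Tendsto.const_mul _ (Filter.Tendsto.const_mul _ ?_))
    have h1 : Filter.Tendsto (fun J' : ℕ => ((1 : ℝ) / 64) ^ J') Filter.atTop (nhds 0) :=
      tendsto_pow_atTop_nhds_zero_of_lt_one (by norm_num) (by norm_num)
    have h2 := h1.const_mul ε
    rw [mul_zero] at h2
    refine h2.congr fun J' => ?_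
    rw [one_div, inv_pow]
    rfl
  have hfinal := ge_of_tendsto' hlim hall
  rw [mul_zero, mul_zero, add_zero] at hfinal
  exact hfinal

end Pool.Agent.M3.TS
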