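import Pool.Agent.M3.Tele

/-!
# M3/Cut : a face cut after its `p`-th change (section 5, helper11)

`cut h N p G` = the family which is `G` as long as it has had at most `p` changes (the change from the dummy time `0`
counts) and constant afterwards.
* `fz_cut` : it is `G` while the number of changes is at most `p`; `sum_cut` : at most `p` changes on every path;
* `abs_cut` : the same bound as `G`.
-/

set_option autoImplicit false
set_option linter.unusedSectionVars false

namespace Pool.Agent.M3.Mod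

open Finset Pool.Agent.PWZ Pool.Agent.M3.Bin

noncomputable section

variable {k N : ℕ} {Θ P : Type}

open Classical in
/-- the cut family, `n` steps above `e` -/
def cutA (h p : ℕ) (G : Fam2 k P) : ℕ → ℕ → V k × ℕ → P × V k → P × V k → V k → ℝ
  | 0, _, _, _, _ => 0
  | n + 1, e, g, x, y => if cntA h G (n + 1) e g x y ≤ p then G e g x y else cutA h p G n (e + 1) (par h e g) x y

/-- the family cut after its `p`-th change -/
def cut (h N p : ℕ) (G : Fam2 k P) : Fam2 k P := fun e g x y => cutA h p G (N - e) e g x y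

theorem cutA_of_le {h p : ℕ} {G : Fam2 k P} : ∀ {n e : ℕ} {g : V k × ℕ} {x y : P × V k},
    cntA h G n e g x y ≤ p → cutA h p G n e g x y = gv G n e g x y
  | 0, e, g, x, y, _ => by rw [cutA, gv_zero]
  | n + 1, e, g, x, y, hv => by rw [cutA, if_pos hv, gv_succ]

theorem cutA_of_gt {h p : ℕ} {G : Fam2 k P} {n e : ℕ} {g : V k × ℕ} {x y : P × V k}
    (hv : ¬ cntA h G (n + 1) e g x y ≤ p) : cutA h p G (n + 1) e g x y = cutA h p G n (e + 1) (par h e g) x y := by
  rw [cutA, if_neg hv]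

theorem abs_cutA {h p : ℕ} {G : Fam2 k P} {B : ℝ} (hB : 0 ≤ B) (hG : ∀ e g x y d, |G e g x y d| ≤ B) :
    ∀ (n e : ℕ) (g : V k × ℕ) (x y : P × V k) (d : V k), |cutA h p G n e g x y d| ≤ B
  | 0, e, g, x, y, d => by
    rw [cutA]
    simpa using hB
  | n + 1, e, g, x, y, d => by
    rw [cutA]
    split_ifs
    · exact hG _ _ _ _ _
    · exact abs_cutA hB hG n _ _ _ _ _

theorem abs_cut {h N p : ℕ} {G : Fam2 k P} {B : ℝ} (hB : 0 ≤ B) (hG : ∀ e g x y d, |G e g x y d| ≤ B)
    (e : ℕ) (g : V k × ℕ) (x y : P × V k) (d : V k) : |cut h N p G e g x y d| ≤ B :=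
  abs_cutA hB hG _ _ _ _ _ _

theorem fz_cut_eq (h p : ℕ) (i : Fin 3) (G : Fam2 k P) {t : ℕ} (ht : t ≤ N) (ω : Sp k N 3 Θ P) :
    fz h i (cut h N p G) t ω =
      cutA h p G t (ex N t) (Gm h (ex N t) ω) (vx (i + 1) ω) (vx (i + 2) ω) := by
  unfold fz
  by_cases h0 : t = 0
  · subst h0
    rw [if_pos rfl, cutA]
  · rw [if_neg h0]
    unfold fv cut
    rw [sub_ex ht]

/-- the cut family is the family while there are at most `p` changes -/
theorem fz_cut {h p : ℕ} {i : Fin 3} {G : Fam2 k P} {t : ℕ} (ht : t ≤ N) {ω : Sp k N 3 Θ P}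
    (hv : cn h i G t ω ≤ p) : fz h i (cut h N p G) t ω = fz h i G t ω := by
  rw [fz_cut_eq h p i G ht]
  rw [cn_eq_cntA h i G ht] at hv
  rw [cutA_of_le hv]
  rfl

theorem fv_cut {h p : ℕ} {i : Fin 3} {G : Fam2 k P} {t : ℕ} (h1 : 1 ≤ t) (ht : t ≤ N) {ω : Sp k N 3 Θ P}
    (hv : cn h i G t ω ≤ p) : fv h i (cut h N p G) (ex N t) ω = fv h i G (ex N t) ω := by
  have h2 := fz_cut (G := G) ht hv
  unfold fz at h2
  rwa [if_neg (by omega), if_neg (by omega)] at h2

/-- a change of the cut family is a change of the family -/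
theorem chE_cut {h p : ℕ} {i : Fin 3} {G : Fam2 k P} {t : ℕ} (ht : t < N) {ω : Sp k N 3 Θ P}
    (hc : chE h i (cut h N p G) t ω) : chE h i G t ω ∧ cn h i G (t + 1) ω ≤ p := by
  have hle : cn h i G (t + 1) ω ≤ p := by
    by_contra hcon
    refine hc ?_
    rw [fz_cut_eq h p i G (show t + 1 ≤ N from ht), fz_cut_eq h p i G ht.le]
    rw [cn_eq_cntA h i G (show t + 1 ≤ N from ht)] at hcon
    have e1 : par h (ex N (t + 1)) (Gm h (ex N (t + 1)) ω) = Gm h (ex N t) ω := by
      rw [par_Gm, ex_add ht]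
    rw [cutA_of_gt hcon, e1, ex_add ht]
  refine ⟨?_, hle⟩
  intro heq
  refine hc ?_
  rw [fz_cut (G := G) (show t + 1 ≤ N from ht) hle, fz_cut (G := G) ht.le ((cn_le_succ h i G ht ω).trans hle)]
  exact heq

/-- at most `p` changes on every path -/
theorem sum_cut (h p : ℕ) (i : Fin 3) (G : Fam2 k P) (ω : Sp k N 3 Θ P) :
    ∑ s ∈ range N, ind (chE h i (cut h N p G) s ω) ≤ (p : ℝ) := by
  have key : ∀ n ≤ N, ∑ s ∈ range n, ind (chE h i (cut h N p G) s ω) ≤ (cn h i G n ω : ℝ) ∧
      ∑ s ∈ range n, ind (chE h i (cut h N p G) s ω) ≤ (p : ℝ) := by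
    intro n
    induction n with
    | zero =>
      intro _
      simp only [Finset.range_zero, Finset.sum_empty]
      exact ⟨Nat.cast_nonneg _, Nat.cast_nonneg _⟩
    | succ n ih =>
      intro hn
      obtain ⟨h1, h2⟩ := ih (by omega)
      have h3 := cn_succ h i G (show n < N from hn) ω
      rw [Finset.sum_range_succ]
      by_cases hc : chE h i (cut h N p G) n ω
      · obtain ⟨h4, h5⟩ := chE_cut (show n < N from hn) hc
        rw [ind_of hc]
        rw [ind_of h4] at h3
        have h6 : (cn h i G (n + 1) ω : ℝ) ≤ (p : ℝ) := by exact_mod_cast h5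
        constructor <;> linarith
      · rw [ind_not hc]
        have h4 := ind_nonneg (chE h i G n ω)
        constructor <;> linarith
  exact (key N le_rfl).2

/-- the process with one face cut -/
theorem TT3_cut (h p : ℕ) (R : Fin 3 → Fam2 k P) (x : Fin 3) {t : ℕ} (h1 : 1 ≤ t) (ht : t ≤ N) {ω : Sp k N 3 Θ P}
    (hv : cn h x (R x) t ω ≤ p) :
    TT3 h (trF x (cut h N p (R x)) (R (x + 1)) (R (x + 2))) (ex N t) ω = TT3 h R (ex N t) ω := by
  conv_rhs => rw [← trF_self R x]
  rw [TT3_trF, TT3_trF, fv_cut h1 ht hv]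

end

end Pool.Agent.M3.Mod
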