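import Pool.Agent.M3.Thm5
import Pool.Agent.M3.Cut
import Pool.Agent.M3.Cold

/-!
# M3/Cold5 : coldness at the semi points (section 5, 5.4; helper11)

`R` = three families on the space without randomness, bounded by `B`, rounding `h0`; everything is pulled back by `prU`.
* `Hot h0 R r0 ρ x t` : the pair of the vertices `≠ x` has been hot at a time `1 ≤ u ≤ t`;
* `cold_pair` (C1), (C2) : the known class is everything but the vertex `x`, which is known up to a cell;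
* `cold_known` (C3) : the known class of the view;
* `rar_single` (C4) : one vertex known, rarity.
-/

set_option autoImplicit false
set_option linter.unusedSectionVars false

namespace Pool.Agent.M3.Mod

open Finset Pool.Agent.PWZ Pool.Agent.M3.Bin

noncomputable section

variable {k N : ℕ} {Θ P : Type}

/-- the pair of the vertices `≠ x` has been hot -/
def Hot (h : ℕ) (R : Fin 3 → Fam2 k Unit) (r0 ρ : ℝ) (x : Fin 3) (t : ℕ) (ω : Sp k N 3 Unit Unit) : Prop :=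
  ∃ u ≤ N, u ≤ t ∧ 1 ≤ u ∧ ρ < Pm.ce (Kn x (ex N u)) (fun v => ind (r0 ≤ |TT3 h R (ex N u) v|)) ω

theorem Hot.mono {h : ℕ} {R : Fin 3 → Fam2 k Unit} {r0 ρ : ℝ} {x : Fin 3} {t t' : ℕ} (htt : t ≤ t')
    {ω : Sp k N 3 Unit Unit} (hh : Hot h R r0 ρ x t ω) : Hot h R r0 ρ x t' ω := by
  obtain ⟨u, h1, h2, h3, h4⟩ := hh
  exact ⟨u, h1, h2.trans htt, h3, h4⟩

theorem Hot.fac (h : ℕ) (R : Fin 3 → Fam2 k Unit) (r0 ρ : ℝ) (x : Fin 3) (t : ℕ) {v w : Sp k N 3 Unit Unit}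
    (hv : Kn x (ex N t) v = Kn x (ex N t) w) : Hot h R r0 ρ x t v ↔ Hot h R r0 ρ x t w := by
  unfold Hot
  refine exists_congr fun u => and_congr_right fun _ => and_congr_right fun hu => and_congr_right fun _ => ?_
  have h1 : Kn x (ex N u) v = Kn x (ex N u) w := (filt_Kn x).le hu v w hv
  rw [FP.ce_fac _ (Kn x (ex N u)) _ v w h1]

/-- mean over the rounded window -/
def TTr (h : ℕ) (R : Fin 3 → Fam2 k P) (e : ℕ) (ω : Sp k N 3 Θ P) : ℝ :=
  av e (Gm h e ω).1 (fun d => ∏ i, fv h i (R i) e ω d)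

theorem TTr_close (h : ℕ) {R : Fin 3 → Fam2 k P} {B : ℝ} (hB : ∀ j e g x y d, |R j e g x y d| ≤ B) (e : ℕ)
    (ω : Sp k N 3 Θ P) : |TT3 h R e ω - TTr h R e ω| ≤ 2 * B ^ 3 * ((2 : ℝ) ^ h)⁻¹ := by
  refine av_round h e (Yn e ω).1 (f := fun d => ∏ i, fv h i (R i) e ω d) (B := B ^ 3) (fun d => ?_)
  rw [Finset.abs_prod]
  have h1 : ∏ i : Fin 3, |fv h i (R i) e ω d| ≤ ∏ _i : Fin 3, B :=
    Finset.prod_le_prod (fun i _ => abs_nonneg _) (fun i _ => hB i _ _ _ _ _)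
  rw [Finset.prod_const, Finset.card_univ, Fintype.card_fin] at h1
  exact h1

theorem TTr_fac (h : ℕ) (R : Fin 3 → Fam2 k P) (e : ℕ) :
    Fac (fun ω : Sp k N 3 Θ P => (fun j => vx j ω, Gm h e ω)) (TTr h R e) := by
  intro v w hv
  simp only [Prod.mk.injEq] at hv
  unfold TTr fv
  have h1 : ∀ j, vx j v = vx j w := fun j => congrFun hv.1 j
  rw [hv.2]
  simp only [h1]

theorem TTr_lift (h : ℕ) (R : Fin 3 → Fam2 k Unit) (e : ℕ) (ω : Sp k N 3 Θ P) :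
    TTr h (fun j => liftF (R j)) e ω = TTr h R e (prU ω) := rfl

variable [Fintype Θ] [Nonempty Θ] [Fintype P] [Nonempty P]

theorem Zk_erase_fac (x : Fin 3) (s : ℕ) :
    Fac (fun ω : Sp k N 3 Θ P => (th ω, ot x ω, nz ω, flr s (vx x ω).2)) (Zk (univ.erase x) s) := by
  intro v w hv
  simp only [Prod.mk.injEq] at hv
  obtain ⟨h1, h2, h3, h4⟩ := hv
  unfold Zk
  refine Prod.ext h1 (Prod.ext ?_ (Prod.ext h3 ?_))
  · funext j
    exact congrFun h2 ⟨j.1, (Finset.mem_erase.mp j.2).1⟩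
  · funext j
    have hj : j.1 = x := by
      by_contra hne
      exact j.2 (Finset.mem_erase.mpr ⟨hne, Finset.mem_univ _⟩)
    show flr s (vx j.1 v).2 = flr s (vx j.1 w).2
    rw [hj, h4]

theorem Zk_erase_fac' (x : Fin 3) (s : ℕ) :
    Fac (Zk (Θ := Θ) (P := P) (k := k) (N := N) (univ.erase x) s)
      (fun ω : Sp k N 3 Θ P => (th ω, ot x ω, nz ω, flr s (vx x ω).2)) := by
  intro v w hv
  unfold Zk at hv
  simp only [Prod.mk.injEq] at hv
  obtain ⟨h1, h2, h3, h4⟩ := hv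
  refine Prod.ext h1 (Prod.ext ?_ (Prod.ext h3 ?_))
  · funext j
    exact congrFun h2 ⟨j.1, Finset.mem_erase.mpr ⟨j.2, Finset.mem_univ _⟩⟩
  · exact congrFun h4 ⟨x, fun h => (Finset.mem_erase.mp h).1 rfl⟩

/-- (C1), (C2): transfer of coldness to the class of the losses of a pair -/
theorem cold_pair (x : Fin 3) {h0 t s : ℕ} (h1 : 1 ≤ t) (ht : t ≤ N) (hN : N ≤ k) (hs : s ≤ ex N t - (h0 + 3))
    {R : Fin 3 → Fam2 k Unit} {B r0 r ρ : ℝ} (hB : ∀ j e g x y d, |R j e g x y d| ≤ B)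
    (hr : r0 + 2 * (2 * B ^ 3 * ((2 : ℝ) ^ h0)⁻¹) ≤ r) (hρ : 0 ≤ ρ) (w : Sp k N 3 Θ P) :
    Pm.ce (Zk (univ.erase x) s)
      (fun v => ind (r ≤ |TT3 h0 R (ex N t) (prU v)| ∧ ¬ Hot h0 R r0 ρ x t (prU v))) w ≤
      2 * 2 ^ (ex N t - s) * ρ := by
  set δ : ℝ := 2 * B ^ 3 * ((2 : ℝ) ^ h0)⁻¹ with hδ
  have he : ex N t ≤ N := Nat.sub_le _ _
  have g1 := cold_transfer (Θ := Θ) (P := P) x he hN hs hρ
    (B := fun v : Sp k N 3 Θ P => r - δ ≤ |TTr h0 R (ex N t) (prU v)|)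
    (Hot := fun v => Hot h0 R r0 ρ x t (prU v)) ?_ ?_ w
  · rw [FP.ce_congr_map _ (Zk_erase_fac' x s) (Zk_erase_fac x s)]
    refine le_trans (FP.ce_mono _ (fun v _ => ind_mono ?_) w) g1
    rintro ⟨g2, g3⟩
    refine ⟨?_, g3⟩
    have g4 := TTr_close h0 hB (ex N t) (prU v)
    have g5 := abs_sub_abs_le_abs_sub (TT3 h0 R (ex N t) (prU v)) (TTr h0 R (ex N t) (prU v))
    linarith
  · intro v u hv
    have g2 := TTr_fac h0 (fun j => liftF (P := P) (R j)) (ex N t) v u (by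
      simp only [Prod.mk.injEq] at hv ⊢
      exact hv.2)
    rw [TTr_lift, TTr_lift] at g2
    simp only [g2]
  · intro ω hω
    have g2 : Pm.ce (fun ω : Sp k N 3 Θ P => (th ω, Zn x (ex N t) ω, ot x ω))
        (fun v => ind (r - δ ≤ |TTr h0 R (ex N t) (prU v)|)) ω ≤
        Pm.ce (Kn x (ex N t)) (fun v => ind (r0 ≤ |TT3 h0 R (ex N t) (prU v)|)) ω := by
      refine FP.ce_mono _ (fun v _ => ind_mono fun g3 => ?_) ω
      have g4 := TTr_close h0 hB (ex N t) (prU v)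
      have g5 := abs_sub_abs_le_abs_sub (TTr h0 R (ex N t) (prU v)) (TT3 h0 R (ex N t) (prU v))
      rw [abs_sub_comm] at g5
      linarith
    refine g2.trans ?_
    rw [ce_prU x he (fun v => ind (r0 ≤ |TT3 h0 R (ex N t) v|)) ω]
    by_contra hcon
    exact hω ⟨t, ht, le_rfl, h1, not_le.mp hcon⟩

/-- (C3): the known class of the view itself -/
theorem cold_known (x : Fin 3) {h0 t : ℕ} (h1 : 1 ≤ t) (ht : t ≤ N)
    {R : Fin 3 → Fam2 k Unit} {r0 r ρ : ℝ} (hr : r0 ≤ r) (hρ : 0 ≤ ρ) (w : Sp k N 3 Θ P) :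
    Pm.ce (Kn x (ex N t))
      (fun v => ind (r ≤ |TT3 h0 R (ex N t) (prU v)| ∧ ¬ Hot h0 R r0 ρ x t (prU v))) w ≤ ρ := by
  have he : ex N t ≤ N := Nat.sub_le _ _
  rw [ce_prU x he (fun v => ind (r ≤ |TT3 h0 R (ex N t) v| ∧ ¬ Hot h0 R r0 ρ x t v)) w]
  refine FP.cold_of_hot _ (K := Kn x (ex N t)) (S := fun v => r ≤ |TT3 h0 R (ex N t) v|)
    (Hh := Hot h0 R r0 ρ x t) (Dead := Hot h0 R r0 ρ x t) hρ (fun v u hv => Hot.fac h0 R r0 ρ x t hv) ?_
    (fun _ _ h => h) (Pm_ne _)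
  intro v _ hv
  refine (FP.ce_mono _ (fun u _ => ind_mono fun g => hr.trans g) v).trans ?_
  by_contra hcon
  exact hv ⟨t, ht, le_rfl, h1, not_le.mp hcon⟩

/-- (C4): rarity given one vertex and all the noise -/
theorem rar_single (i : Fin 3) {h0 hh e : ℕ} (he : e ≤ N) (hN : N ≤ k) (hle : h0 ≤ hh)
    {R : Fin 3 → Fam2 k Unit} {θ r1 r B : ℝ} (hθ : 0 ≤ θ) (hr1 : 0 ≤ r1) (hPT : PT h0 N (R i) θ r1 B)
    (hB : ∀ j e g x y d, |R j e g x y d| ≤ B) (hr : 2 * (r1 + 2 * B ^ 3 * ((2 : ℝ) ^ h0)⁻¹) ≤ r)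
    (w : Sp k N 3 Θ P) :
    Pm.ce (Zk {i} (e - (hh + 3))) (fun v => ind (r ≤ |TT3 h0 R e (prU v)|)) w ≤ 2 * (θ * 4 ^ (hh - h0)) := by
  have hB0 : 0 ≤ B := (abs_nonneg _).trans (hB 0 0 (0, 0) ((), 0) ((), 0) 0)
  have g0 := PT_lift (P := P) (PT_fine hle hN hPT hθ hB0 (fun e g x y d => hB i e g x y d))
  have hpow2 : ((2 : ℝ) ^ hh)⁻¹ ≤ ((2 : ℝ) ^ h0)⁻¹ :=
    inv_anti₀ (by positivity) (pow_le_pow_right₀ (by norm_num) hle)
  have g1 := TT3_hidden (Θ := Θ) (P := P) i he hN (R := fun j => liftF (P := P) (fine h0 (R j)))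
    (θ := θ * 4 ^ (hh - h0)) (r := r1 + 2 * (B * B * B) * ((2 : ℝ) ^ h0)⁻¹) (H := B) (h := hh) (by positivity) g0
    (by
      have h7 : 2 * B ^ 3 * ((2 : ℝ) ^ hh)⁻¹ ≤ 2 * B ^ 3 * ((2 : ℝ) ^ h0)⁻¹ :=
        mul_le_mul_of_nonneg_left hpow2 (by positivity)
      have h8 : 2 * B ^ 3 * ((2 : ℝ) ^ h0)⁻¹ = 2 * (B * B * B) * ((2 : ℝ) ^ h0)⁻¹ := by ring
      linarith)
    (fun j e g x y d => hB j e _ _ _ d) w
  have g2 : Pm.ce (Zk {i} (e - (hh + 3))) (fun v => ind (r ≤ |TT3 h0 R e (prU v)|)) w =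
      Pm.ce (fun ω => (th ω, vx i ω, nz ω, sc hh e (i + 1) ω, sc hh e (i + 2) ω))
        (fun v => ind (r ≤ |TT3 h0 R e (prU v)|)) w := by
    refine FP.ce_congr_map _ ?_ ?_ _ w
    · intro v u hv
      unfold Zk at hv
      simp only [Prod.mk.injEq] at hv
      obtain ⟨h1, h2, h3, h4⟩ := hv
      have e1 : ∀ j : Fin 3, j ≠ i → flr (e - (hh + 3)) (vx j v).2 = flr (e - (hh + 3)) (vx j u).2 := fun j hj =>
        congrFun h4 ⟨j, fun h => hj (Finset.mem_singleton.mp h)⟩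
      refine Prod.ext h1 (Prod.ext ?_ (Prod.ext h3 (Prod.ext ?_ ?_)))
      · exact congrFun h2 ⟨i, Finset.mem_singleton_self i⟩
      · exact e1 (i + 1) (fin3_ne1 i)
      · exact e1 (i + 2) (fin3_ne2 i)
    · intro v u hv
      simp only [Prod.mk.injEq] at hv
      obtain ⟨h1, h2, h3, h4, h5⟩ := hv
      unfold Zk
      refine Prod.ext h1 (Prod.ext ?_ (Prod.ext h3 ?_))
      · funext j
        have hj : j.1 = i := Finset.mem_singleton.mp j.2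
        show vx j.1 v = vx j.1 u
        rw [hj, h2]
      · funext j
        have hj : j.1 ≠ i := fun h => j.2 (Finset.mem_singleton.mpr h)
        have hj2 : j.1 = i + 1 ∨ j.1 = i + 2 := by
          have : ∀ i j : Fin 3, j ≠ i → j = i + 1 ∨ j = i + 2 := by decide
          exact this i j.1 hj
        show flr (e - (hh + 3)) (vx j.1 v).2 = flr (e - (hh + 3)) (vx j.1 u).2
        rcases hj2 with h | h
        · rw [h]; exact h4
        · rw [h]; exact h5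
  rw [g2]
  refine le_trans (FP.ce_mono _ (fun v _ => ind_mono fun g3 => ?_) w) g1
  have g4 : TT3 hh (fun j => liftF (P := P) (fine h0 (R j))) e v = TT3 h0 R e (prU v) := by
    rw [TT3_lift, TT3_fine hle]
  rw [g4]
  have h9 : 2 * (r1 + 2 * (B * B * B) * ((2 : ℝ) ^ h0)⁻¹) = 2 * (r1 + 2 * B ^ 3 * ((2 : ℝ) ^ h0)⁻¹) := by ring
  rw [h9]
  exact hr.trans g3

end

end Pool.Agent.M3.Mod
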