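import Pool.Agent.M3.Prop1N
import Pool.Agent.M3.Par

/-!
# M3.ColdL: Proposition 1 in one layer, with the sizes of `NVThm` (4.4 of table m3) (helper2)

`cold_layer`: in the layer `n`, for a frozen known face (one change, zero before) and every threshold
`τ ≥ r0 / (8 (n+1)^4)`, the known pair is cold: `ce (Kn i) (τ ≤ |T|) < exp (-n^C1)` at all times, except with
probability `exp (-n^C1)`.
-/

set_option autoImplicit false
set_option linter.unusedSectionVars false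

namespace Pool.Agent.M3.Mod

open Finset Filter Pool.Agent.PWZ Pool.Agent.M3.Bin

/-! ### numerics -/

/-- constants times exponentials of polynomials against the rarity -/
theorem ev_K {κ : ℝ} (hκ : 0 < κ) (A : ℝ) (b1 b2 : ℝ) (a1 a2 C1 : ℕ) {c : ℝ} (hc : 0 < c) :
    ∀ᶠ n : ℕ in atTop, A * Real.exp (b1 * (n : ℝ) ^ a1 + b2 * (n : ℝ) ^ a2 - c * (1 + κ) ^ n) ≤
      Real.exp (-(n : ℝ) ^ C1) := by
  have hc4 : 0 < c / 4 := by positivity
  filter_upwards [Par.ev_pow_le hκ a1 b1 hc4, Par.ev_pow_le hκ a2 b2 hc4, Par.ev_pow_le hκ C1 1 hc4,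
    Par.ev_pow_le hκ 0 (Real.log (|A| + 1)) hc4] with n h1 h2 h3 h4
  rw [pow_zero, mul_one] at h4
  rw [one_mul] at h3
  have hA : A ≤ Real.exp (Real.log (|A| + 1)) := by
    rw [Real.exp_log (by positivity)]
    linarith [le_abs_self A]
  calc A * Real.exp (b1 * (n : ℝ) ^ a1 + b2 * (n : ℝ) ^ a2 - c * (1 + κ) ^ n) ≤
      Real.exp (Real.log (|A| + 1)) * Real.exp (b1 * (n : ℝ) ^ a1 + b2 * (n : ℝ) ^ a2 - c * (1 + κ) ^ n) :=
        mul_le_mul_of_nonneg_right hA (Real.exp_pos _).le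
    _ = Real.exp (Real.log (|A| + 1) + (b1 * (n : ℝ) ^ a1 + b2 * (n : ℝ) ^ a2 - c * (1 + κ) ^ n)) := by
        rw [Real.exp_add]
    _ ≤ _ := Real.exp_le_exp.mpr (by linarith)

/-- constants times monomials against a higher power -/
theorem ev_P (A : ℝ) (a : ℕ) (b : ℝ) (C1 C2 : ℕ) (hC : C1 < C2) {c : ℝ} (hc : 0 < c) :
    ∀ᶠ n : ℕ in atTop, A * (n : ℝ) ^ a * Real.exp (b * (n : ℝ) ^ C1 - c * (n : ℝ) ^ C2) ≤
      Real.exp (-(n : ℝ) ^ C1) := by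
  have hc2 : 0 < c / 2 := by positivity
  filter_upwards [Par.ev_pow_pow_le hC (b + 1) hc2, Par.ev_mono_le_LL (C := C2) (by omega) a A hc2] with n h1 h2
  calc A * (n : ℝ) ^ a * Real.exp (b * (n : ℝ) ^ C1 - c * (n : ℝ) ^ C2) ≤
      Real.exp (c / 2 * (n : ℝ) ^ C2) * Real.exp (b * (n : ℝ) ^ C1 - c * (n : ℝ) ^ C2) :=
        mul_le_mul_of_nonneg_right h2 (Real.exp_pos _).le
    _ = Real.exp (c / 2 * (n : ℝ) ^ C2 + (b * (n : ℝ) ^ C1 - c * (n : ℝ) ^ C2)) := by rw [Real.exp_add]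
    _ ≤ _ := Real.exp_le_exp.mpr (by linarith)

/-- an inverse square is small -/
theorem ev_inv {δ : ℝ} (hδ : 0 < δ) : ∀ᶠ n : ℕ in atTop, ((n : ℝ) + 1)⁻¹ ^ 2 ≤ δ := by
  filter_upwards [Par.ev_const_le (C := 1) le_rfl δ⁻¹ one_pos, eventually_ge_atTop 1] with n h1 h2
  rw [pow_one, one_mul] at h1
  have h3 : (0 : ℝ) < (n : ℝ) + 1 := by positivity
  have h4 : δ⁻¹ ≤ (n : ℝ) + 1 := by linarith
  have h5 : ((n : ℝ) + 1)⁻¹ ≤ δ := by
    rw [inv_le_comm₀ h3 hδ]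
    exact h4
  have h6 : ((n : ℝ) + 1)⁻¹ ≤ 1 := inv_le_one_of_one_le₀ (by linarith [Nat.cast_nonneg (α := ℝ) n])
  have h7 : 0 ≤ ((n : ℝ) + 1)⁻¹ := by positivity
  calc ((n : ℝ) + 1)⁻¹ ^ 2 = ((n : ℝ) + 1)⁻¹ * ((n : ℝ) + 1)⁻¹ := sq _
    _ ≤ δ * 1 := mul_le_mul h5 h6 h7 hδ.le
    _ = δ := mul_one δ

section fam

variable {k N : ℕ} (L : Lay) {F : Fin 3 → Unit × V k → Unit × V k → V k → ℝ}

/-- the faces through the hidden vertex are product tested -/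
theorem face_PT (hN : N ≤ k) (hF : ∀ i b c d, |F i b c d| ≤ 1) (l : ℕ) (i : Fin 3) {G : Fam2 k Unit}
    (hG : G = Dl N L F l i ∨ G = fine (L.lh l) (Rl N L F l i) ∨ G = Rl N L F (l + 1) i) :
    PT (L.lh (l + 1)) N G (2 ^ 17 * L.lth l) (36 * L.lep l) 2 := by
  have hth := L.lth_pos l
  have hep := L.lep_pos l
  rcases hG with rfl | rfl | rfl
  · refine PT.mono (PT.scale (Dl_PT L hN hF l i) (by norm_num : (0 : ℝ) < 2)) le_rfl ?_
    linarith
  · refine PT.mono (PT.scale (fineR_PT L hN hF l i) (by norm_num : (0 : ℝ) < 2)) le_rfl ?_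
    linarith
  · refine PT.mono (PT.scale (Rl_PT L hF (l + 1) i) (by norm_num : (0 : ℝ) < 2)) ?_ ?_
    · have := L.lth_succ_le l
      linarith
    · have := L.lep_succ_le l
      linarith

theorem face_abs (hF : ∀ i b c d, |F i b c d| ≤ 1) (l : ℕ) (i : Fin 3) {G : Fam2 k Unit}
    (hG : G = Dl N L F l i ∨ G = fine (L.lh l) (Rl N L F l i) ∨ G = Rl N L F (l + 1) i)
    (e : ℕ) (g : V k × ℕ) (x y : Unit × V k) (d : V k) : |G e g x y d| ≤ 2 := by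
  rcases hG with rfl | rfl | rfl
  · exact abs_Dl L l i e g x y d
  · exact abs_Rl L hF l i e _ x y d
  · exact abs_Rl L hF (l + 1) i e _ x y d

end fam

theorem third_eq : ∀ i s r j : Fin 3, s ≠ i → r ≠ i → r ≠ s → j ≠ i → j ≠ s → j = r := by decide

theorem four_pow_le {m : ℕ} {X : ℝ} (h : (m : ℝ) ≤ X) : (4 : ℝ) ^ m ≤ Real.exp (2 * X) := by
  have h1 : (2 : ℝ) ≤ Real.exp 1 := by
    have := Real.add_one_le_exp (1 : ℝ)
    linarith
  have h2 : (4 : ℝ) ≤ Real.exp 2 := by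
    have h3 : Real.exp 2 = Real.exp 1 * Real.exp 1 := by
      rw [← Real.exp_add]
      norm_num
    rw [h3]
    nlinarith
  calc (4 : ℝ) ^ m ≤ Real.exp 2 ^ m := pow_le_pow_left₀ (by norm_num) h2 m
    _ = Real.exp (m * 2) := by rw [← Real.exp_nat_mul]
    _ ≤ _ := Real.exp_le_exp.mpr (by linarith)

/-- PROPOSITION 1 IN THE LAYER `n` -/
theorem cold_layer (L : Lay) {κ0 r0 : ℝ} (hκ : 0 < κ0) (hr0 : 0 < r0) (hc : L.c ≤ r0 / 4000) (H : NVThm L κ0) (C1 : ℕ) :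
    ∃ n1 : ℕ, ∀ n ≥ n1, ∀ k N : ℕ, N ≤ k →
    ∀ F : Fin 3 → Unit × V k → Unit × V k → V k → ℝ, (∀ i b c d, |F i b c d| ≤ 1) →
    ∀ i s r : Fin 3, s ≠ i → r ≠ i → r ≠ s →
    ∀ R : Fin 3 → Fam2 k Unit, R s = Dl N L F n s →
      (R r = fine (L.lh n) (Rl N L F n r) ∨ R r = Rl N L F (n + 1) r) →
      (∀ e g x y d, |R i e g x y d| ≤ 2) →
      (∀ ω : Sp k N 3 Unit Unit, ∑ t ∈ range N, ind (chE (L.lh (n + 1)) i (R i) t ω) ≤ 1) →
      (∀ t < N, ∀ w : Sp k N 3 Unit Unit, chE (L.lh (n + 1)) i (R i) t w → fz (L.lh (n + 1)) i (R i) t w = 0) →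
    ∀ τ : ℝ, r0 / (8 * ((n : ℝ) + 1) ^ 4) ≤ τ →
      (Pm : FP (Sp k N 3 Unit Unit)).Pr (fun ω => ∃ t ≤ N, 1 ≤ t ∧ Real.exp (-(n : ℝ) ^ C1) ≤
        Pm.ce (Kn i (ex N t)) (fun v => ind (τ ≤ |TT3 (L.lh (n + 1)) R (ex N t) v|)) ω) ≤
      Real.exp (-(n : ℝ) ^ C1) := by
  obtain ⟨C, n0, hC⟩ := H (C1 + 2) 1
  have hkap := L.kap_pos
  have e1 := ev_K hkap (4 * (1458 * 2 ^ 19)) 1 2 (C1 + 1) C C1 (c := 1) one_pos
  have e2 := ev_K hkap (4 * 1458) 1 1 (C1 + 1) C C1 (c := κ0 / 2) (by positivity)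
  have e3 := ev_K hkap (4 * (8503056 * 2 ^ 19 * 6)) 2 3 (C1 + 1) C C1 (c := 1 / 2) (by norm_num)
  have e4 := ev_P (4 * 1461) 0 1 (C1 + 1) (C1 + 2) (by omega) (c := 1) one_pos
  have e4' := Par.ev_pow_pow_le (Nat.lt_succ_self C1) 1 (one_pos : (0 : ℝ) < 1)
  have e5 := ev_P (3 * (2048 * 256 / r0 ^ 2)) 8 0 C1 (C1 + 1) (by omega) (c := 1) one_pos
  have e6 := ev_P 3 0 0 C1 (C1 + 1) (by omega) (c := 1) one_pos
  have e7 := ev_K hkap 3 0 0 0 0 C1 (c := 1) one_pos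
  have e8 := ev_inv (δ := r0 / 100) (by positivity)
  have e9 := Par.ev_pow_le hkap C 1 (k := 1 / 2) (by norm_num)
  obtain ⟨n1, hn1⟩ := eventually_atTop.1 (e1.and (e2.and (e3.and (e4.and (e4'.and (e5.and (e6.and (e7.and (e8.and e9)))))))))
  refine ⟨max (max n0 n1) 1, fun n hn k N hN F hF i s r hsi hri hrs R hRs hRr hRi hch hone τ hτ => ?_⟩
  have hnn0 : n0 ≤ n := (le_max_left _ _).trans ((le_max_left _ _).trans hn)
  have hnn1 : n1 ≤ n := (le_max_right _ _).trans ((le_max_left _ _).trans hn)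
  have hn1' : 1 ≤ n := (le_max_right _ _).trans hn
  obtain ⟨e1, e2, e3, e4, e4', e5, e6, e7, e8, e9⟩ := hn1 n hnn1
  obtain ⟨h, hh, hhC, hW⟩ := hC n hnn0
  have hx1 : (1 : ℝ) ≤ (n : ℝ) := by exact_mod_cast hn1'
  set K : ℝ := (1 + L.kap) ^ n with hK
  set x : ℝ := (n : ℝ) with hx
  obtain ⟨Θ, P, iT, nT, iP, nP, W, hq, ha6, heta, hrmin, he3, hhb, hhb', hJ⟩ := hW k N hN F hF i s r hsi hri hrs R hRs hRr hRi
    (fun ω => (hch ω).trans (by rw [pow_one]; exact hx1)) (Real.exp (K / 2)) (Real.exp_le_exp.mpr (by linarith))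
  -- the faces
  have hface : ∀ j, j ≠ i → R j = Dl N L F n j ∨ R j = fine (L.lh n) (Rl N L F n j) ∨ R j = Rl N L F (n + 1) j := by
    intro j hj
    by_cases hjs : j = s
    · subst hjs
      exact Or.inl hRs
    · have hjr : j = r := third_eq i s r j hsi hri hrs hj hjs
      subst hjr
      exact Or.inr hRr
  have hRabs : ∀ j e g x y d, |R j e g x y d| ≤ 2 := by
    intro j e g a b d
    by_cases hj : j = i
    · subst hj
      exact hRi e g a b d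
    · exact face_abs L hF n j (hface j hj) e g a b d
  have hlth := L.lth_pos n
  have hlep := L.lep_pos n
  have hn4 : 0 < (x + 1) ^ 4 := by positivity
  have hτ0 : 0 < τ := lt_of_lt_of_le (by positivity) hτ
  have hr04 : r0 / (x + 1) ^ 4 ≤ 8 * τ := by
    have h1 : r0 / (x + 1) ^ 4 = 8 * (r0 / (8 * (x + 1) ^ 4)) := by field_simp
    rw [h1]
    linarith
  have hlepτ : L.lep n ≤ 2 / 1000 * τ := by
    have h1 : L.lep n = L.c / (x + 1) ^ 4 := rfl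
    have h2 : L.c / (x + 1) ^ 4 ≤ r0 / 4000 / (x + 1) ^ 4 := div_le_div_of_nonneg_right hc hn4.le
    have h3 : r0 / 4000 / (x + 1) ^ 4 = (r0 / (x + 1) ^ 4) / 4000 := by ring
    rw [h1]
    linarith
  have hetaτ : W.eta ≤ 8 / 100 * τ := by
    have h1 : (x + 1)⁻¹ ^ 6 = (x + 1)⁻¹ ^ 2 * (x + 1)⁻¹ ^ 4 := by ring
    have h2 : (x + 1)⁻¹ ^ 2 * (x + 1)⁻¹ ^ 4 ≤ r0 / 100 * (x + 1)⁻¹ ^ 4 :=
      mul_le_mul_of_nonneg_right e8 (by positivity)
    have h3 : r0 / 100 * (x + 1)⁻¹ ^ 4 = (r0 / (x + 1) ^ 4) / 100 := by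
      rw [inv_pow]
      field_simp
    linarith
  have hrd := L.rd1 (n + 1)
  have hle := L.lep_succ_le n
  have hmain := W.coldU hh hN (θ := 2 ^ 17 * L.lth n) (r := 36 * L.lep n) (B0 := 2) (by positivity)
    (fun j hj => face_PT L hN hF n j (hface j hj)) (by positivity) hRabs hone (s := τ / 4) (s2 := τ / 2) (by positivity)
    (by linarith) (by linarith) (ρ := Real.exp (-x ^ (C1 + 1))) (ρ' := Real.exp (-x ^ (C1 + 1))) (Real.exp_pos _)
    (Real.exp_pos _)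
  -- the threshold
  have hA : 2 * Real.exp (-x ^ (C1 + 1)) / (τ / 2 - τ / 4) ^ 2 + Real.exp (-x ^ (C1 + 1)) + W.a6 ≤ Real.exp (-x ^ C1) := by
    have h1 : 2 * Real.exp (-x ^ (C1 + 1)) / (τ / 2 - τ / 4) ^ 2 = 32 / τ ^ 2 * Real.exp (-x ^ (C1 + 1)) := by
      have : (τ / 2 - τ / 4) ^ 2 = τ ^ 2 / 16 := by ring
      rw [this]
      field_simp
      ring
    have h2 : 32 / τ ^ 2 ≤ 2048 * 256 / r0 ^ 2 * x ^ 8 := by
      have h3 : r0 ≤ 8 * τ * (x + 1) ^ 4 := by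
        rw [div_le_iff₀ hn4] at hr04
        exact hr04
      have h4 : r0 ^ 2 ≤ (8 * τ * (x + 1) ^ 4) ^ 2 := pow_le_pow_left₀ hr0.le h3 2
      have h5 : (x + 1) ^ 8 ≤ 256 * x ^ 8 := by
        have h6 : (x + 1) ^ 8 ≤ (2 * x) ^ 8 := pow_le_pow_left₀ (by positivity) (by linarith) 8
        have h7 : (2 * x) ^ 8 = 256 * x ^ 8 := by ring
        linarith
      rw [div_le_iff₀ (by positivity)]
      have h8 : 2048 * 256 / r0 ^ 2 * x ^ 8 * τ ^ 2 = (32 * (64 * τ ^ 2 * (256 * x ^ 8))) / r0 ^ 2 := by ring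
      rw [h8, le_div_iff₀ (by positivity)]
      have h9 : (8 * τ * (x + 1) ^ 4) ^ 2 = 64 * τ ^ 2 * (x + 1) ^ 8 := by ring
      rw [h9] at h4
      have h10 : 64 * τ ^ 2 * (x + 1) ^ 8 ≤ 64 * τ ^ 2 * (256 * x ^ 8) := mul_le_mul_of_nonneg_left h5 (by positivity)
      linarith
    have h3 : 32 / τ ^ 2 * Real.exp (-x ^ (C1 + 1)) ≤ 2048 * 256 / r0 ^ 2 * x ^ 8 * Real.exp (-x ^ (C1 + 1)) :=
      mul_le_mul_of_nonneg_right h2 (Real.exp_pos _).le
    have a1 : Real.exp (0 * x ^ C1 - 1 * x ^ (C1 + 1)) = Real.exp (-x ^ (C1 + 1)) := by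
      congr 1
      ring
    rw [a1] at e5 e6
    have a2 : Real.exp (0 * x ^ 0 + 0 * x ^ 0 - 1 * K) = L.lth n := by
      unfold Lay.lth
      congr 1
      ring
    rw [a2] at e7
    rw [pow_zero, mul_one] at e6
    rw [h1]
    linarith
  -- the probability
  have ha0 : 0 ≤ W.a6 := by
    obtain ⟨w⟩ : Nonempty (Sp k N 3 Θ P) := inferInstance
    exact (FP.ce_nonneg _ (fun v _ => ind_nonneg _) w).trans (W.utdK 0 (Nat.zero_le _) w)
  set T1 : ℝ := 3 * (2 ^ 17 * L.lth n * 4 ^ (h - L.lh (n + 1))) + W.a6 with hT1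
  have hT10 : 0 ≤ T1 := by positivity
  have hT1le : T1 ≤ 2 ^ 19 * Real.exp (2 * x ^ C - K) := by
    have h1 : (4 : ℝ) ^ (h - L.lh (n + 1)) ≤ Real.exp (2 * x ^ C) := by
      refine four_pow_le (le_trans ?_ hhC)
      exact_mod_cast Nat.sub_le _ _
    have h2 : L.lth n = Real.exp (-K) := rfl
    have h3 : Real.exp (2 * x ^ C - K) = Real.exp (-K) * Real.exp (2 * x ^ C) := by
      rw [← Real.exp_add]
      congr 1
      ring
    have h4 : Real.exp (-K) ≤ Real.exp (-K) * Real.exp (2 * x ^ C) := by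
      have : (1 : ℝ) ≤ Real.exp (2 * x ^ C) := Real.one_le_exp (by positivity)
      nlinarith [Real.exp_pos (-K)]
    have h5 : 2 ^ 17 * L.lth n * 4 ^ (h - L.lh (n + 1)) ≤ 2 ^ 17 * Real.exp (-K) * Real.exp (2 * x ^ C) := by
      rw [h2]
      exact mul_le_mul_of_nonneg_left h1 (by positivity)
    rw [h3, hT1]
    have h6 : 0 < Real.exp (-K) * Real.exp (2 * x ^ C) := by positivity
    rw [h2] at ha6
    linarith
  have he3' : W.e3 ≤ Real.exp (x ^ C - κ0 / 2 * K) := by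
    refine he3.trans (le_of_eq ?_)
    rw [← Real.exp_mul, ← Real.exp_add]
    congr 1
    ring
  have hsum : ∑ U ∈ UU i, (W.hb U + W.J) ≤ 6 * Real.exp (x ^ C + K / 2) := by
    have hK0 : 0 ≤ K := by rw [hK]; positivity
    have h1 : ∀ U ∈ UU i, W.hb U + W.J ≤ 2 * Real.exp (x ^ C + K / 2) := by
      intro U _
      have h2 := hhb U
      rw [← Real.exp_add] at h2
      have h3 : Real.exp (x ^ C) ≤ Real.exp (x ^ C + K / 2) := Real.exp_le_exp.mpr (by linarith)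
      linarith
    have h2 := Finset.sum_le_card_nsmul (UU i) _ _ h1
    have h3 : ((UU i).card : ℝ) ≤ 3 := by
      have : (UU i).card ≤ 3 := Finset.card_le_three
      exact_mod_cast this
    rw [nsmul_eq_mul] at h2
    have h4 : 0 < Real.exp (x ^ C + K / 2) := Real.exp_pos _
    nlinarith
  have hρi : 1 / Real.exp (-x ^ (C1 + 1)) = Real.exp (x ^ (C1 + 1)) := by
    rw [Real.exp_neg, one_div, inv_inv]
  have hE : 0 < Real.exp (x ^ (C1 + 1)) := Real.exp_pos _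
  have p1 : Real.exp (x ^ (C1 + 1)) * (1458 * T1) ≤ Real.exp (-x ^ C1) / 4 := by
    have h1 : Real.exp (1 * x ^ (C1 + 1) + 2 * x ^ C - 1 * K) = Real.exp (x ^ (C1 + 1)) * Real.exp (2 * x ^ C - K) := by
      rw [← Real.exp_add]
      congr 1
      ring
    rw [h1] at e1
    have h2 : Real.exp (x ^ (C1 + 1)) * (1458 * T1) ≤ Real.exp (x ^ (C1 + 1)) * (1458 * (2 ^ 19 * Real.exp (2 * x ^ C - K))) :=
      mul_le_mul_of_nonneg_left (by linarith) hE.le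
    linarith
  have p2 : Real.exp (x ^ (C1 + 1)) * (1458 * W.e3) ≤ Real.exp (-x ^ C1) / 4 := by
    have h1 : Real.exp (1 * x ^ (C1 + 1) + 1 * x ^ C - κ0 / 2 * K) =
        Real.exp (x ^ (C1 + 1)) * Real.exp (x ^ C - κ0 / 2 * K) := by
      rw [← Real.exp_add]
      congr 1
      ring
    rw [h1] at e2
    have h2 : Real.exp (x ^ (C1 + 1)) * (1458 * W.e3) ≤ Real.exp (x ^ (C1 + 1)) * (1458 * Real.exp (x ^ C - κ0 / 2 * K)) :=
      mul_le_mul_of_nonneg_left (by linarith) hE.le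
    linarith
  have p3 : Real.exp (x ^ (C1 + 1)) * (8503056 * T1 * Real.exp (x ^ (C1 + 1)) * ∑ U ∈ UU i, (W.hb U + W.J)) ≤
      Real.exp (-x ^ C1) / 4 := by
    have h1 : Real.exp (2 * x ^ (C1 + 1) + 3 * x ^ C - 1 / 2 * K) =
        Real.exp (x ^ (C1 + 1)) * (Real.exp (2 * x ^ C - K) * Real.exp (x ^ (C1 + 1)) * Real.exp (x ^ C + K / 2)) := by
      rw [← Real.exp_add, ← Real.exp_add, ← Real.exp_add]
      congr 1
      ring
    rw [h1] at e3
    have h2 : 8503056 * T1 * Real.exp (x ^ (C1 + 1)) * ∑ U ∈ UU i, (W.hb U + W.J) ≤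
        8503056 * (2 ^ 19 * Real.exp (2 * x ^ C - K)) * Real.exp (x ^ (C1 + 1)) * (6 * Real.exp (x ^ C + K / 2)) := by
      have h3 : 8503056 * T1 * Real.exp (x ^ (C1 + 1)) * ∑ U ∈ UU i, (W.hb U + W.J) ≤
          8503056 * T1 * Real.exp (x ^ (C1 + 1)) * (6 * Real.exp (x ^ C + K / 2)) :=
        mul_le_mul_of_nonneg_left hsum (by positivity)
      have h4 : 8503056 * T1 * Real.exp (x ^ (C1 + 1)) ≤
          8503056 * (2 ^ 19 * Real.exp (2 * x ^ C - K)) * Real.exp (x ^ (C1 + 1)) :=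
        mul_le_mul_of_nonneg_right (by linarith) hE.le
      exact h3.trans (mul_le_mul_of_nonneg_right h4 (by positivity))
    have h5 := mul_le_mul_of_nonneg_left h2 hE.le
    have h6 : Real.exp (x ^ (C1 + 1)) * (8503056 * (2 ^ 19 * Real.exp (2 * x ^ C - K)) * Real.exp (x ^ (C1 + 1)) *
        (6 * Real.exp (x ^ C + K / 2))) = (4 * (8503056 * 2 ^ 19 * 6) * (Real.exp (x ^ (C1 + 1)) *
        (Real.exp (2 * x ^ C - K) * Real.exp (x ^ (C1 + 1)) * Real.exp (x ^ C + K / 2)))) / 4 := by ring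
    rw [h6] at h5
    linarith
  have p4 : Real.exp (x ^ (C1 + 1)) * (1461 * W.q) ≤ Real.exp (-x ^ C1) / 4 := by
    have h1 : Real.exp (1 * x ^ (C1 + 1) - 1 * x ^ (C1 + 2)) = Real.exp (x ^ (C1 + 1)) * Real.exp (-x ^ (C1 + 2)) := by
      rw [← Real.exp_add]
      congr 1
      ring
    rw [h1, pow_zero, mul_one] at e4
    have h2 : Real.exp (x ^ (C1 + 1)) * (1461 * W.q) ≤ Real.exp (x ^ (C1 + 1)) * (1461 * Real.exp (-x ^ (C1 + 2))) :=
      mul_le_mul_of_nonneg_left (by linarith) hE.le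
    have h3 : Real.exp (-x ^ (C1 + 1)) ≤ Real.exp (-x ^ C1) := by
      have e4'' : x ^ C1 ≤ x ^ (C1 + 1) := pow_le_pow_right₀ hx1 (Nat.le_succ C1)
      exact Real.exp_le_exp.mpr (neg_le_neg e4'')
    linarith
  refine le_trans (FP.Pr_mono _ (fun ω _ => ?_)) (hmain.trans ?_)
  · rintro ⟨t, ht, ht1, hh'⟩
    refine ⟨t, ht, ht1, hA.trans (hh'.trans (FP.ce_mono _ (fun v _ => ind_mono fun hv => ?_) ω))⟩
    linarith
  · have h1 : (1 / Real.exp (-x ^ (C1 + 1))) * (1458 * T1 + 1458 * W.e3 +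
        8503056 * T1 / Real.exp (-x ^ (C1 + 1)) * ∑ U ∈ UU i, (W.hb U + W.J) + 1458 * W.q) +
        3 * W.q / Real.exp (-x ^ (C1 + 1)) =
        Real.exp (x ^ (C1 + 1)) * (1458 * T1) + Real.exp (x ^ (C1 + 1)) * (1458 * W.e3) +
        Real.exp (x ^ (C1 + 1)) * (8503056 * T1 * Real.exp (x ^ (C1 + 1)) * ∑ U ∈ UU i, (W.hb U + W.J)) +
        Real.exp (x ^ (C1 + 1)) * (1461 * W.q) := by
      have h2 : ∀ y : ℝ, y / Real.exp (-x ^ (C1 + 1)) = y * Real.exp (x ^ (C1 + 1)) := by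
        intro y
        rw [← hρi]
        ring
      rw [h2, h2, h2]
      ring
    rw [h1]
    linarith

end Pool.Agent.M3.Mod
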