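import Pool.Agent.M3.Tele

/-!
# M3/FrzL: the number of changes of the faces of the pieces (row 4 of table m3, 4.3; helper94)

A residual of a layer changes only if its signed list grows ((P3) of section 1), so the number of changes of a face of a
piece of the layer `l` is at most `1 + ` the lengths of the two lists of the layers `l`, `l+1` at the end.
* `sum_chE_le`, `chE_tail`: outside an event of probability `exp (-l^C1)` there are at most `l^Cp` changes.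
-/

set_option autoImplicit false
set_option linter.unusedSectionVars false

namespace Pool.Agent.M3.Mod

open Finset Pool.Agent.PWZ Pool.Agent.M3.Bin

noncomputable section

variable {k N : ℕ} {Θ P : Type} [Fintype Θ] [Nonempty Θ] [Fintype P] [Nonempty P]

variable (L : Lay) {F : Fin 3 → P × V k → P × V k → V k → ℝ}

variable (N F)

/-- the length of the list of the layer `l`, face `i` -/
def Ll (l : ℕ) (i : Fin 3) (e : ℕ) (ω : Sp k N 3 Θ P) : ℝ := Llen (L.lh l) i (L.lep l) (L.lth l) (F i) e ω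

variable {N F}

/-- a change of the residual is a growth of the list -/
theorem Rv_ch {l : ℕ} {i : Fin 3} {t : ℕ} (ht : t < N) {ω : Sp k N 3 Θ P}
    (hc : Rv N L F l i (ex N (t + 1)) ω ≠ Rv N L F l i (ex N t) ω) :
    1 ≤ Ll N L F l i (ex N (t + 1)) ω - Ll N L F l i (ex N t) ω := by
  have h1 : ex N (t + 1) < N := by unfold ex; omega
  have h2 := Lf_mono (N := N) (h := L.lh l) (ep := L.lep l) (th := L.lth l) (F := F i) h1
    (Gm (L.lh l) (ex N (t + 1)) ω) (vx (i + 1) ω) (vx (i + 2) ω)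
  rw [par_Gm, ex_add ht] at h2
  set A := Lf (L.lh l) N (L.lep l) (L.lth l) (F i) (ex N t) (Gm (L.lh l) (ex N t) ω) (vx (i + 1) ω) (vx (i + 2) ω) with hA
  set B := Lf (L.lh l) N (L.lep l) (L.lth l) (F i) (ex N (t + 1)) (Gm (L.lh l) (ex N (t + 1)) ω) (vx (i + 1) ω)
    (vx (i + 2) ω) with hB
  have h3 : A.length < B.length := by
    rcases Nat.lt_or_ge A.length B.length with h | h
    · exact h
    · exfalso
      have h4 : A = B := h2.eq_of_length (le_antisymm h2.length_le h)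
      apply hc
      funext d
      have h5 : ∀ e : ℕ, Rv N L F l i e ω d = F i (vx (i + 1) ω) (vx (i + 2) ω) d -
          struc (L.lep l) (pairTests (P × V k) (P × V k) (V k)).val
            (Lf (L.lh l) N (L.lep l) (L.lth l) (F i) e (Gm (L.lh l) e ω) (vx (i + 1) ω) (vx (i + 2) ω))
            (vx (i + 1) ω, vx (i + 2) ω) d := fun e => rfl
      rw [h5, h5, ← hA, ← hB, h4]
  have h6 : Ll N L F l i (ex N (t + 1)) ω = (B.length : ℝ) := rfl
  have h7 : Ll N L F l i (ex N t) ω = (A.length : ℝ) := rfl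
  rw [h6, h7]
  have h8 : (A.length : ℝ) + 1 ≤ B.length := by exact_mod_cast h3
  linarith

theorem Ll_nonneg (l : ℕ) (i : Fin 3) (e : ℕ) (ω : Sp k N 3 Θ P) : 0 ≤ Ll N L F l i e ω := Nat.cast_nonneg _

theorem Ll_succ_le (l : ℕ) (i : Fin 3) {t : ℕ} (ht : t < N) (ω : Sp k N 3 Θ P) :
    Ll N L F l i (ex N t) ω ≤ Ll N L F l i (ex N (t + 1)) ω := by
  have h1 : ex N (t + 1) < N := by unfold ex; omega
  have h2 := Llen_mono (N := N) (h := L.lh l) (ep := L.lep l) (th := L.lth l) (F := F i) i h1 ω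
  rw [ex_add ht] at h2
  exact h2

theorem ind_Rv_ch (l : ℕ) (i : Fin 3) {t : ℕ} (ht : t < N) (ω : Sp k N 3 Θ P) :
    ind (Rv N L F l i (ex N (t + 1)) ω ≠ Rv N L F l i (ex N t) ω) ≤
      Ll N L F l i (ex N (t + 1)) ω - Ll N L F l i (ex N t) ω := by
  by_cases hc : Rv N L F l i (ex N (t + 1)) ω ≠ Rv N L F l i (ex N t) ω
  · rw [ind_of hc]
    exact Rv_ch L ht hc
  · rw [ind_not hc]
    linarith [Ll_succ_le (F := F) L l i ht ω]

/-- the faces of the pieces as functions of the two residuals -/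
theorem Pc_v (l : ℕ) (q j : Fin 3) (t t' : ℕ) (ω : Sp k N 3 Θ P) (h1 : Rv N L F l j t ω = Rv N L F l j t' ω)
    (h2 : Rv N L F (l + 1) j t ω = Rv N L F (l + 1) j t' ω) :
    fv (L.lh (l + 1)) j (Pc N L F l q j) t ω = fv (L.lh (l + 1)) j (Pc N L F l q j) t' ω := by
  have a1 : fv (L.lh (l + 1)) j (fine (L.lh l) (Rl N L F l j)) t ω =
      fv (L.lh (l + 1)) j (fine (L.lh l) (Rl N L F l j)) t' ω := by
    rw [fineRl_v L (L.lh_mono l), fineRl_v L (L.lh_mono l), h1]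
  have a2 : fv (L.lh (l + 1)) j (Dl N L F l j) t ω = fv (L.lh (l + 1)) j (Dl N L F l j) t' ω := by
    funext d
    rw [Dl_v, Dl_v, h1, h2]
  have a3 : fv (L.lh (l + 1)) j (Rl N L F (l + 1) j) t ω = fv (L.lh (l + 1)) j (Rl N L F (l + 1) j) t' ω := by
    rw [Rl_v, Rl_v, h2]
  fin_cases q <;> fin_cases j
  · exact a1
  · exact a1
  · exact a2
  · exact a1
  · exact a2
  · exact a3
  · exact a2
  · exact a3
  · exact a3

/-- the number of changes of a face of a piece -/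
theorem sum_chE_le (l : ℕ) (q j : Fin 3) (ω : Sp k N 3 Θ P) :
    ∑ s ∈ range N, ind (chE (L.lh (l + 1)) j (Pc N L F l q j) s ω) ≤
      1 + Ll N L F l j 0 ω + Ll N L F (l + 1) j 0 ω := by
  rcases Nat.eq_zero_or_pos N with hN | hN
  · subst hN
    have h1 := Ll_nonneg (F := F) L l j 0 ω
    have h2 := Ll_nonneg (F := F) L (l + 1) j 0 ω
    simp only [Finset.range_zero, Finset.sum_empty]
    linarith
  have key : ∀ n : ℕ, n + 1 ≤ N → ∑ s ∈ range (n + 1), ind (chE (L.lh (l + 1)) j (Pc N L F l q j) s ω) ≤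
      1 + Ll N L F l j (ex N (n + 1)) ω + Ll N L F (l + 1) j (ex N (n + 1)) ω := by
    intro n
    induction n with
    | zero =>
      intro _
      rw [Finset.sum_range_one]
      have h1 := Ll_nonneg (F := F) L l j (ex N (0 + 1)) ω
      have h2 := Ll_nonneg (F := F) L (l + 1) j (ex N (0 + 1)) ω
      have h3 := ind_le_one (chE (L.lh (l + 1)) j (Pc N L F l q j) 0 ω)
      linarith
    | succ n ih =>
      intro hn
      rw [Finset.sum_range_succ]
      have h1 := ih (by omega)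
      have h2 := ind_Rv_ch (F := F) L l j (t := n + 1) (by omega) ω
      have h3 := ind_Rv_ch (F := F) L (l + 1) j (t := n + 1) (by omega) ω
      have h4 : ind (chE (L.lh (l + 1)) j (Pc N L F l q j) (n + 1) ω) ≤
          ind (Rv N L F l j (ex N (n + 1 + 1)) ω ≠ Rv N L F l j (ex N (n + 1)) ω) +
          ind (Rv N L F (l + 1) j (ex N (n + 1 + 1)) ω ≠ Rv N L F (l + 1) j (ex N (n + 1)) ω) := by
        refine (ind_mono ?_).trans (ind_or_le _ _)
        intro hc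
        by_contra hcon
        rw [not_or, not_not, not_not] at hcon
        apply hc
        unfold fz
        rw [if_neg (by omega), if_neg (by omega)]
        exact Pc_v L l q j _ _ ω hcon.1 hcon.2
      linarith
  have h5 := key (N - 1) (by omega)
  have h6 : N - 1 + 1 = N := by omega
  rw [h6] at h5
  have h7 : ex N N = 0 := by unfold ex; omega
  rw [h7] at h5
  exact h5

/-- tail of the length of the list -/
theorem Ll_tail (hF : ∀ i b c d, |F i b c d| ≤ 1) (l : ℕ) (i : Fin 3) (n : ℕ) :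
    (Pm : FP (Sp k N 3 Θ P)).Pr (fun ω => (n : ℝ) * (64 / (3 * L.lep l ^ 2)) ≤ Ll N L F l i 0 ω) ≤ (1 / 2) ^ n := by
  have h1 := L.rd l
  have h2 : 0 < ((2 : ℝ) ^ L.lh l)⁻¹ := by positivity
  exact Lf_tail (Θ := Θ) (P := P) (N := N) (h := L.lh l) (ep := L.lep l) (th := L.lth l) (F := F i) i (hF i)
    (L.lep_pos l) (by linarith) n

theorem half_pow_le (m : ℕ) : (1 / 2 : ℝ) ^ (2 * m + 2) ≤ Real.exp (-(m : ℝ)) / 2 := by
  have h1 : (1 / 2 : ℝ) ^ 2 ≤ Real.exp (-1) := by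
    have h2 := Real.exp_one_lt_d9
    rw [Real.exp_neg, le_inv_comm₀ (by norm_num) (Real.exp_pos 1)]
    norm_num
    linarith
  have h3 : ((1 / 2 : ℝ) ^ 2) ^ m ≤ Real.exp (-1) ^ m := pow_le_pow_left₀ (by norm_num) h1 m
  have h4 : Real.exp (-1) ^ m = Real.exp (-(m : ℝ)) := by
    rw [← Real.exp_nat_mul]
    congr 1
    ring
  rw [pow_add, pow_mul]
  rw [h4] at h3
  have h5 := Real.exp_pos (-(m : ℝ))
  nlinarith

/-- THE TAIL OF THE NUMBER OF CHANGES -/
theorem chE_tail (C1 : ℕ) : ∃ Cp l0 : ℕ, ∀ l ≥ l0, ∀ (k N : ℕ) (Θ P : Type) [Fintype Θ] [Nonempty Θ] [Fintype P]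
    [Nonempty P] (F : Fin 3 → P × V k → P × V k → V k → ℝ), (∀ i b c d, |F i b c d| ≤ 1) → ∀ q j : Fin 3,
    (Pm : FP (Sp k N 3 Θ P)).Pr (fun ω => (l : ℝ) ^ Cp <
      ∑ s ∈ range N, ind (chE (L.lh (l + 1)) j (Pc N L F l q j) s ω)) ≤ Real.exp (-(l : ℝ) ^ C1) := by
  obtain ⟨l0, hl0⟩ := exists_nat_ge (1 + 8 * 64 * 6561 / (3 * L.c ^ 2))
  refine ⟨C1 + 9, l0 + 1, ?_⟩
  intro l hl k N Θ P _ _ _ _ F hF q j
  have hl1 : (1 : ℝ) ≤ l := by
    have : 1 ≤ l := by omega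
    exact_mod_cast this
  have hlK : 1 + 8 * 64 * 6561 / (3 * L.c ^ 2) ≤ (l : ℝ) := hl0.trans (by exact_mod_cast (by omega : l0 ≤ l))
  have hc := L.c_pos
  set n : ℕ := 2 * l ^ C1 + 2 with hn
  have h1 := Ll_tail (Θ := Θ) (N := N) L hF l j n
  have h2 := Ll_tail (Θ := Θ) (N := N) L hF (l + 1) j n
  have h3 := half_pow_le (l ^ C1)
  have hlC : (1 : ℝ) ≤ (l : ℝ) ^ C1 := one_le_pow₀ hl1
  -- the two thresholds
  have h4 : ∀ l' : ℕ, l' ≤ l + 1 → (n : ℝ) * (64 / (3 * L.lep l' ^ 2)) ≤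
      4 * (l : ℝ) ^ C1 * (64 * 6561 * (l : ℝ) ^ 8 / (3 * L.c ^ 2)) := by
    intro l' hl'
    have h5 : 64 / (3 * L.lep l' ^ 2) = 64 * ((l' : ℝ) + 1) ^ 8 / (3 * L.c ^ 2) := by
      unfold Lay.lep
      field_simp
    have h6 : ((l' : ℝ) + 1) ^ 8 ≤ 6561 * (l : ℝ) ^ 8 := by
      have h7 : (l' : ℝ) ≤ l + 1 := by exact_mod_cast hl'
      calc ((l' : ℝ) + 1) ^ 8 ≤ (3 * (l : ℝ)) ^ 8 := pow_le_pow_left₀ (by positivity) (by linarith) 8
        _ = 6561 * (l : ℝ) ^ 8 := by rw [mul_pow]; norm_num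
    have h8 : (n : ℝ) ≤ 4 * (l : ℝ) ^ C1 := by
      rw [hn]
      push_cast
      linarith
    rw [h5]
    have h9 : 64 * ((l' : ℝ) + 1) ^ 8 / (3 * L.c ^ 2) ≤ 64 * 6561 * (l : ℝ) ^ 8 / (3 * L.c ^ 2) := by
      apply div_le_div_of_nonneg_right _ (by positivity)
      linarith
    exact mul_le_mul h8 h9 (by positivity) (by positivity)
  have h10 : 1 + 2 * (4 * (l : ℝ) ^ C1 * (64 * 6561 * (l : ℝ) ^ 8 / (3 * L.c ^ 2))) ≤ (l : ℝ) ^ (C1 + 9) := by
    have e1 : 1 + 2 * (4 * (l : ℝ) ^ C1 * (64 * 6561 * (l : ℝ) ^ 8 / (3 * L.c ^ 2))) =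
        1 + (l : ℝ) ^ (C1 + 8) * (8 * 64 * 6561 / (3 * L.c ^ 2)) := by
      rw [pow_add]
      ring
    have e2 : (1 : ℝ) ≤ (l : ℝ) ^ (C1 + 8) := one_le_pow₀ hl1
    have e3 : (l : ℝ) ^ (C1 + 9) = (l : ℝ) ^ (C1 + 8) * l := by rw [← pow_succ]
    rw [e1, e3]
    have e4 : (l : ℝ) ^ (C1 + 8) * (1 + 8 * 64 * 6561 / (3 * L.c ^ 2)) ≤ (l : ℝ) ^ (C1 + 8) * l :=
      mul_le_mul_of_nonneg_left hlK (by positivity)
    have e5 : (l : ℝ) ^ (C1 + 8) * (1 + 8 * 64 * 6561 / (3 * L.c ^ 2)) =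
        (l : ℝ) ^ (C1 + 8) + (l : ℝ) ^ (C1 + 8) * (8 * 64 * 6561 / (3 * L.c ^ 2)) := by ring
    rw [e5] at e4
    linarith
  have h11 : (Pm : FP (Sp k N 3 Θ P)).Pr (fun ω => (l : ℝ) ^ (C1 + 9) <
      ∑ s ∈ range N, ind (chE (L.lh (l + 1)) j (Pc N L F l q j) s ω)) ≤
      (Pm : FP (Sp k N 3 Θ P)).Pr (fun ω => (n : ℝ) * (64 / (3 * L.lep l ^ 2)) ≤ Ll N L F l j 0 ω) +
      (Pm : FP (Sp k N 3 Θ P)).Pr (fun ω => (n : ℝ) * (64 / (3 * L.lep (l + 1) ^ 2)) ≤ Ll N L F (l + 1) j 0 ω) := by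
    refine (FP.Pr_mono _ (fun ω _ => ?_)).trans (FP.Pr_or_le _ _ _)
    intro hω
    by_contra hcon
    rw [not_or, not_le, not_le] at hcon
    have a1 := sum_chE_le (F := F) L l q j ω
    have a2 := h4 l (by omega)
    have a3 := h4 (l + 1) le_rfl
    linarith [hcon.1, hcon.2]
  have h12 : ((l ^ C1 : ℕ) : ℝ) = (l : ℝ) ^ C1 := by push_cast; ring
  rw [h12] at h3
  linarith

end

end Pool.Agent.M3.Mod
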