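import Pool.Agent.M3.NV

/-!
# M3/NVT : from the model with randomness to the model without (helper11)

* `E_prU`, `Pr_prU` : expectation of a function of (vertices, noise);
* `ce_prU` : the same for the conditional expectation given `Kn i e` (`e ≤ N`);
* `TT3_lift`, `chE_lift`, `PT_lift` : lifted families.
-/

set_option autoImplicit false
set_option linter.unusedSectionVars false

namespace Pool.Agent.M3.Mod

open Finset Pool.Agent.PWZ Pool.Agent.M3.Bin

variable {k N m : ℕ} {Θ P : Type}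

theorem nz_prU (ω : Sp k N m Θ P) : nz (prU ω) = nz ω := rfl

theorem vx_prU (i : Fin m) (ω : Sp k N m Θ P) : vx i (prU ω) = ((), (vx i ω).2) := rfl

theorem ctr_prU (ω : Sp k N m Θ P) : ctr (prU ω) = ctr ω := rfl

theorem co_prU (i : Fin m) (ω : Sp k N m Θ P) : co i (prU ω) = co i ω := rfl

theorem Yn_prU (e : ℕ) (ω : Sp k N m Θ P) : Yn e (prU ω) = Yn e ω := rfl

theorem Zn_prU (i : Fin m) (e : ℕ) (ω : Sp k N m Θ P) : Zn i e (prU ω) = Zn i e ω := rfl

theorem Gm_prU (h e : ℕ) (ω : Sp k N m Θ P) : Gm h e (prU ω) = Gm h e ω := rfl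

section law

variable [Fintype Θ] [Nonempty Θ] [Fintype P] [Nonempty P]

/-- the randomness splits off -/
def splitU : Sp k N m Θ P ≃ (Θ × (Fin m → P)) × Sp k N m Unit Unit where
  toFun ω := ((ω.1, fun i => (vx i ω).1), prU ω)
  invFun q := (q.1.1, (fun i => (q.1.2 i, (vx i q.2).2)), q.2.2.2)
  left_inv _ := rfl
  right_inv _ := rfl

theorem E_prU (f : Sp k N m Unit Unit → ℝ) :
    (Pm : FP (Sp k N m Θ P)).E (fun ω => f (prU ω)) = (Pm : FP (Sp k N m Unit Unit)).E f := by
  unfold Pm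
  rw [FP.unif_E, FP.unif_E]
  have h1 : ∑ ω : Sp k N m Θ P, f (prU ω) = ∑ q : (Θ × (Fin m → P)) × Sp k N m Unit Unit, f q.2 :=
    Fintype.sum_equiv splitU _ _ (fun ω => rfl)
  have h2 : (Fintype.card (Sp k N m Θ P) : ℝ) =
      (Fintype.card (Θ × (Fin m → P)) : ℝ) * Fintype.card (Sp k N m Unit Unit) := by
    rw [Fintype.card_congr (splitU (k := k) (N := N) (m := m) (Θ := Θ) (P := P)), Fintype.card_prod]
    push_cast
    rfl
  have h3 : (Fintype.card (Θ × (Fin m → P)) : ℝ) ≠ 0 := Nat.cast_ne_zero.mpr Fintype.card_ne_zero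
  rw [h1, h2, Fintype.sum_prod_type]
  simp only [Finset.sum_const, Finset.card_univ, nsmul_eq_mul]
  rw [mul_div_mul_left _ _ h3]

theorem Pr_prU (s : Sp k N m Unit Unit → Prop) :
    (Pm : FP (Sp k N m Θ P)).Pr (fun ω => s (prU ω)) = (Pm : FP (Sp k N m Unit Unit)).Pr s :=
  E_prU (fun ω => ind (s ω))

theorem prU_updh (i : Fin m) {e : ℕ} (he : e ≤ N) (p : P) (n : ℕ) (ω : Sp k N m Θ P) :
    prU (updh i e he p n ω) = updh i e he () n (prU ω) := by
  refine Prod.ext rfl (Prod.ext ?_ rfl)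
  funext j
  by_cases hj : j = i
  · subst hj
    simp [prU, updh, vx, Zn, nz]
  · simp [prU, updh, vx, hj]

/-- the conditional expectation given the known vertices, of a function of (vertices, noise) -/
theorem ce_prU (i : Fin m) {e : ℕ} (he : e ≤ N) (f : Sp k N m Unit Unit → ℝ) (ω : Sp k N m Θ P) :
    Pm.ce (Kn i e) (fun ω => f (prU ω)) ω = Pm.ce (Kn i e) f (prU ω) := by
  have h1 := ce_hidden i he (fun ω => f (prU ω)) ω
  have h2 := ce_hidden i he f (prU ω)
  have e1 : Pm.ce (Kn i e) (fun ω => f (prU ω)) ω = Pm.ce (fun ω => (th ω, Zn i e ω, ot i ω)) (fun ω => f (prU ω)) ω := rfl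
  have e2 : Pm.ce (Kn i e) f (prU ω) = Pm.ce (fun ω => (th ω, Zn i e ω, ot i ω)) f (prU ω) := rfl
  rw [e1, e2, h1, h2]
  have hP : (Fintype.card P : ℝ) ≠ 0 := Nat.cast_ne_zero.mpr Fintype.card_ne_zero
  simp only [prU_updh, Finset.sum_const, Finset.card_univ, nsmul_eq_mul, Fintype.card_unit, Nat.cast_one, one_mul]
  have h3 : ∑ p : Unit, ∑ n ∈ range (2 ^ e), f (updh i e he p n (prU ω)) =
      ∑ n ∈ range (2 ^ e), f (updh i e he () n (prU ω)) := by
    rw [Fintype.sum_unique]
  rw [h3]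
  field_simp

end law

/-! ### lifted families -/

theorem fv_lift (h : ℕ) (i : Fin 3) (R : Fam2 k Unit) (e : ℕ) (ω : Sp k N 3 Θ P) :
    fv h i (liftF R) e ω = fv h i R e (prU ω) := rfl

theorem TT3_lift (h : ℕ) (R : Fin 3 → Fam2 k Unit) (e : ℕ) (ω : Sp k N 3 Θ P) :
    TT3 h (fun j => liftF (R j)) e ω = TT3 h R e (prU ω) := rfl

theorem TZ_lift (h : ℕ) (R : Fin 3 → Fam2 k Unit) (t : ℕ) (ω : Sp k N 3 Θ P) :
    TZ h (fun j => liftF (R j)) t ω = TZ h R t (prU ω) := rfl

theorem fz_lift (h : ℕ) (i : Fin 3) (R : Fam2 k Unit) (t : ℕ) (ω : Sp k N 3 Θ P) :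
    fz h i (liftF R) t ω = fz h i R t (prU ω) := rfl

theorem chE_lift (h : ℕ) (i : Fin 3) (R : Fam2 k Unit) (t : ℕ) (ω : Sp k N 3 Θ P) :
    chE h i (liftF R) t ω = chE h i R t (prU ω) := rfl

/-! ### finer rounding -/

theorem fv_fine {h h' : ℕ} (hh : h ≤ h') (i : Fin 3) (R : Fam2 k P) (e : ℕ) (ω : Sp k N 3 Θ P) :
    fv h' i (fine h R) e ω = fv h i R e ω := by
  unfold fv fine Gm
  funext d
  rw [coar_G hh]

theorem fz_fine {h h' : ℕ} (hh : h ≤ h') (i : Fin 3) (R : Fam2 k P) (t : ℕ) (ω : Sp k N 3 Θ P) :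
    fz h' i (fine h R) t ω = fz h i R t ω := by
  unfold fz
  rw [fv_fine hh]

theorem chE_fine {h h' : ℕ} (hh : h ≤ h') (i : Fin 3) (R : Fam2 k P) (t : ℕ) (ω : Sp k N 3 Θ P) :
    chE h' i (fine h R) t ω = chE h i R t ω := by
  unfold chE
  rw [fz_fine hh, fz_fine hh]

theorem TT3_fine {h h' : ℕ} (hh : h ≤ h') (R : Fin 3 → Fam2 k P) (e : ℕ) (ω : Sp k N 3 Θ P) :
    TT3 h' (fun j => fine h (R j)) e ω = TT3 h R e ω := by
  unfold TT3
  congr 1
  funext d
  refine Finset.prod_congr rfl fun i _ => ?_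
  rw [fv_fine hh]

theorem TZ_fine {h h' : ℕ} (hh : h ≤ h') (R : Fin 3 → Fam2 k P) (t : ℕ) (ω : Sp k N 3 Θ P) :
    TZ h' (fun j => fine h (R j)) t ω = TZ h R t ω := by
  unfold TZ
  rw [TT3_fine hh]

section PT

variable [Fintype P] [Nonempty P]

/-- the points of a small cell, with private randomness -/
theorem SC_prod (h e : ℕ) (v : V k) :
    SC (P := P) h e v = (univ : Finset P) ×ˢ ((univ : Finset (V k)).filter fun x => flr (e - (h + 3)) x = flr (e - (h + 3)) v) := by
  ext x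
  simp [SC]

/-- PRODUCT TESTS of a lifted family -/
theorem PT_lift {h : ℕ} {R : Fam2 k Unit} {θ r H : ℝ} (hPT : PT h N R θ r H) : PT h N (liftF (P := P) R) θ r H := by
  classical
  intro e he g hg b0 c0 v u hv hu
  set B : Finset (V k) := (univ : Finset (V k)).filter fun x => flr (e - (h + 3)) x = flr (e - (h + 3)) b0 with hB
  set C : Finset (V k) := (univ : Finset (V k)).filter fun x => flr (e - (h + 3)) x = flr (e - (h + 3)) c0 with hC
  have hcard : ∀ (S : Finset (V k)) (Q : Type) [Fintype Q], ((((univ : Finset Q) ×ˢ S).card : ℕ) : ℝ) =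
      (Fintype.card Q : ℝ) * (S.card : ℝ) := by
    intro S Q _
    rw [Finset.card_product, Finset.card_univ]
    push_cast
    rfl
  -- the bad set as a function of the choices
  set bad : P × V k → P × V k → Prop := fun x y =>
    r ≤ |av e g.1 (fun d => R e g ((), x.2) ((), y.2) d * v x d * u y d)| with hbad
  have hb : ∀ π σ : V k → P, ∑ x ∈ B, ∑ y ∈ C, ind (bad (π x, x) (σ y, y)) ≤ θ * (B.card * C.card : ℝ) := by
    intro π σ
    have h1 := hPT e he g hg b0 c0 (fun x d => v (π x.2, x.2) d) (fun y d => u (σ y.2, y.2) d)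
      (fun x d => hv _ _) (fun y d => hu _ _)
    rw [SC_prod, SC_prod, hcard, hcard, Finset.card_filter] at h1
    push_cast at h1
    rw [Fintype.card_unit, Nat.cast_one, one_mul, one_mul] at h1
    refine le_trans (le_of_eq ?_) h1
    rw [Finset.sum_product, Finset.sum_product]
    rw [Fintype.sum_unique]
    rw [← hB]
    refine Finset.sum_congr rfl fun x _ => ?_
    rw [Finset.sum_product]
    rw [Fintype.sum_unique]
    rw [← hC]
    refine Finset.sum_congr rfl fun y _ => ?_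
    by_cases hq : bad (π x, x) (σ y, y)
    · rw [ind_of hq, if_pos]
      exact hq
    · rw [ind_not hq, if_neg]
      exact hq
  -- average over the choices
  have hcP : (0 : ℝ) < Fintype.card P := Nat.cast_pos.mpr Fintype.card_pos
  have havg : ∀ (x : V k) (F : P → ℝ), ∑ π : V k → P, F (π x) =
      (Fintype.card (V k → P) : ℝ) / (Fintype.card P : ℝ) * ∑ p : P, F p := by
    intro x F
    have h1 : ∀ p : P, ((univ.filter fun π : V k → P => π x = p).card : ℝ) =
        (Fintype.card (V k → P) : ℝ) / (Fintype.card P : ℝ) := by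
      intro p
      have h2 : ∀ p' : P, ((univ.filter fun π : V k → P => π x = p').card : ℝ) =
          ((univ.filter fun π : V k → P => π x = p).card : ℝ) := by
        intro p'
        norm_cast
        refine Finset.card_bij (fun π _ => Function.update π x p) ?_ ?_ ?_
        · intro π _
          simp
        · intro π hπ π' hπ' hh
          simp only [Finset.mem_filter, Finset.mem_univ, true_and] at hπ hπ'
          funext y
          by_cases hy : y = x
          · subst hy; rw [hπ, hπ']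
          · have := congrFun hh y
            simpa [hy] using this
        · intro π hπ
          simp only [Finset.mem_filter, Finset.mem_univ, true_and] at hπ
          refine ⟨Function.update π x p', by simp, ?_⟩
          funext y
          by_cases hy : y = x
          · subst hy; simp [hπ]
          · simp [hy]
      have h3 : ∑ p' : P, ((univ.filter fun π : V k → P => π x = p').card : ℝ) = (Fintype.card (V k → P) : ℝ) := by
        norm_cast
        rw [← Finset.card_univ (α := V k → P)]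
        exact (Finset.card_eq_sum_card_fiberwise (fun π _ => Finset.mem_univ (π x))).symm
      rw [Finset.sum_congr rfl fun p' _ => h2 p', Finset.sum_const, Finset.card_univ, nsmul_eq_mul] at h3
      rw [← h3]
      field_simp
    rw [← Finset.sum_fiberwise (s := univ) (g := fun π : V k → P => π x) (f := fun π => F (π x)), Finset.mul_sum]
    refine Finset.sum_congr rfl fun p _ => ?_
    have h4 : ∑ π ∈ univ.filter (fun π : V k → P => π x = p), F (π x) =
        ∑ _π ∈ univ.filter (fun π : V k → P => π x = p), F p := by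
      refine Finset.sum_congr rfl fun π hπ => ?_
      rw [Finset.mem_filter] at hπ
      rw [hπ.2]
    rw [h4, Finset.sum_const, nsmul_eq_mul, h1]
  set c1 : ℝ := (Fintype.card (V k → P) : ℝ) with hc1
  have hc1p : 0 < c1 := Nat.cast_pos.mpr Fintype.card_pos
  have hsum : ∑ π : V k → P, ∑ σ : V k → P, ∑ x ∈ B, ∑ y ∈ C, ind (bad (π x, x) (σ y, y)) =
      (c1 / Fintype.card P) * (c1 / Fintype.card P) * ∑ p : P, ∑ p' : P, ∑ x ∈ B, ∑ y ∈ C, ind (bad (p, x) (p', y)) := by
    have e1 : ∀ π : V k → P, ∑ σ : V k → P, ∑ x ∈ B, ∑ y ∈ C, ind (bad (π x, x) (σ y, y)) =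
        c1 / Fintype.card P * ∑ x ∈ B, ∑ y ∈ C, ∑ p' : P, ind (bad (π x, x) (p', y)) := by
      intro π
      rw [Finset.sum_comm, Finset.mul_sum]
      refine Finset.sum_congr rfl fun x _ => ?_
      rw [Finset.sum_comm, Finset.mul_sum]
      refine Finset.sum_congr rfl fun y _ => ?_
      exact havg y (fun p' => ind (bad (π x, x) (p', y)))
    rw [Finset.sum_congr rfl fun π _ => e1 π, ← Finset.mul_sum, mul_assoc]
    congr 1
    have e2 : ∑ π : V k → P, ∑ x ∈ B, ∑ y ∈ C, ∑ p' : P, ind (bad (π x, x) (p', y)) =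
        c1 / Fintype.card P * ∑ x ∈ B, ∑ p : P, ∑ y ∈ C, ∑ p' : P, ind (bad (p, x) (p', y)) := by
      rw [Finset.sum_comm, Finset.mul_sum]
      refine Finset.sum_congr rfl fun x _ => ?_
      exact havg x (fun p => ∑ y ∈ C, ∑ p' : P, ind (bad (p, x) (p', y)))
    rw [e2]
    congr 1
    rw [Finset.sum_comm]
    refine Finset.sum_congr rfl fun p _ => ?_
    symm
    rw [Finset.sum_comm]
    refine Finset.sum_congr rfl fun x _ => ?_
    exact Finset.sum_comm
  have hle : ∑ π : V k → P, ∑ σ : V k → P, ∑ x ∈ B, ∑ y ∈ C, ind (bad (π x, x) (σ y, y)) ≤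
      c1 * (c1 * (θ * (B.card * C.card : ℝ))) := by
    calc ∑ π : V k → P, ∑ σ : V k → P, ∑ x ∈ B, ∑ y ∈ C, ind (bad (π x, x) (σ y, y))
        ≤ ∑ _π : V k → P, ∑ _σ : V k → P, θ * (B.card * C.card : ℝ) :=
          Finset.sum_le_sum fun π _ => Finset.sum_le_sum fun σ _ => hb π σ
      _ = _ := by
          rw [Finset.sum_const, Finset.sum_const, Finset.card_univ, nsmul_eq_mul, nsmul_eq_mul]
  rw [hsum] at hle
  have hfin : ∑ p : P, ∑ p' : P, ∑ x ∈ B, ∑ y ∈ C, ind (bad (p, x) (p', y)) ≤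
      θ * ((Fintype.card P * B.card) * (Fintype.card P * C.card) : ℝ) := by
    have h5 : (c1 / Fintype.card P) * (c1 / Fintype.card P) *
        ∑ p : P, ∑ p' : P, ∑ x ∈ B, ∑ y ∈ C, ind (bad (p, x) (p', y)) ≤
        (c1 / Fintype.card P) * (c1 / Fintype.card P) * (θ * ((Fintype.card P * B.card) * (Fintype.card P * C.card) : ℝ)) := by
      refine hle.trans (le_of_eq ?_)
      field_simp
    exact le_of_mul_le_mul_left h5 (by positivity)
  -- conclusion
  rw [SC_prod, SC_prod, ← hB, ← hC, hcard, hcard]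
  refine le_trans (le_of_eq ?_) hfin
  have h6 : ((((univ : Finset P) ×ˢ B) ×ˢ ((univ : Finset P) ×ˢ C)).filter fun q : (P × V k) × (P × V k) =>
      r ≤ |av e g.1 (fun d => liftF R e g q.1 q.2 d * v q.1 d * u q.2 d)|).card =
      ∑ q ∈ ((univ : Finset P) ×ˢ B) ×ˢ ((univ : Finset P) ×ˢ C), if bad q.1 q.2 then 1 else 0 := by
    rw [Finset.card_filter]
    rfl
  rw [h6]
  push_cast
  rw [Finset.sum_product, Finset.sum_product]
  refine Finset.sum_congr rfl fun p _ => ?_
  rw [Finset.sum_comm (s := (univ : Finset P)) (t := B)]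
  refine Finset.sum_congr rfl fun x _ => ?_
  rw [Finset.sum_product]
  refine Finset.sum_congr rfl fun p' _ => ?_
  refine Finset.sum_congr rfl fun y _ => ?_
  by_cases hq : bad (p, x) (p', y)
  · rw [ind_of hq, if_pos hq]
  · rw [ind_not hq, if_neg hq]

/-- PRODUCT TESTS at a finer rounding -/
theorem PT_fineD {h D : ℕ} (hN : N ≤ k) {R : Fam2 k P} {θ r H B : ℝ} (hθ : 0 ≤ θ) (hH : 0 ≤ H)
    (hB : ∀ e g x y d, |R e g x y d| ≤ B) (hPT : PT h N R θ r H) :
    PT (h + D) N (fine h R) (θ * 4 ^ D) (r + 2 * (B * H * H) * ((2 : ℝ) ^ h)⁻¹) H := by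
  classical
  intro e he g hg b0 c0 v u hv hu
  have hek : e ≤ k := he.trans hN
  have h1 := hPT e he (coar h e g) (flr_flr le_rfl _) b0 c0 v u hv hu
  have hB0 : 0 ≤ B := (abs_nonneg _).trans (hB 0 (0, 0) (Classical.arbitrary P, 0) (Classical.arbitrary P, 0) 0)
  have hsub : ((SC (P := P) (h + D) e b0 ×ˢ SC (P := P) (h + D) e c0).filter fun q =>
      r + 2 * (B * H * H) * ((2 : ℝ) ^ h)⁻¹ ≤ |av e g.1 (fun d => fine h R e g q.1 q.2 d * v q.1 d * u q.2 d)|) ⊆
      ((SC (P := P) h e b0 ×ˢ SC (P := P) h e c0).filter fun q =>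
      r ≤ |av e (coar h e g).1 (fun d => R e (coar h e g) q.1 q.2 d * v q.1 d * u q.2 d)|) := by
    intro q hq
    rw [Finset.mem_filter, Finset.mem_product] at hq ⊢
    obtain ⟨⟨hq1, hq2⟩, hq3⟩ := hq
    have hc : ∀ (x : P × V k) (b : V k), x ∈ SC (P := P) (h + D) e b → x ∈ SC (P := P) h e b := by
      intro x b hx
      unfold SC at hx ⊢
      rw [Finset.mem_filter] at hx ⊢
      exact ⟨Finset.mem_univ _, flr_mono_eq (by omega) hx.2⟩
    refine ⟨⟨hc _ _ hq1, hc _ _ hq2⟩, ?_⟩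
    have h2 := av_round (k := k) h e g.1 (f := fun d => R e (coar h e g) q.1 q.2 d * v q.1 d * u q.2 d) (B := B * H * H)
      (fun d => by
        rw [abs_mul, abs_mul]
        exact mul_le_mul (mul_le_mul (hB _ _ _ _ _) (hv _ _) (abs_nonneg _) hB0) (hu _ _) (abs_nonneg _)
          (mul_nonneg hB0 hH))
    have h3 : |av e g.1 (fun d => R e (coar h e g) q.1 q.2 d * v q.1 d * u q.2 d)| -
        |av e (flr (e - h) g.1) (fun d => R e (coar h e g) q.1 q.2 d * v q.1 d * u q.2 d)| ≤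
        |av e g.1 (fun d => R e (coar h e g) q.1 q.2 d * v q.1 d * u q.2 d) -
          av e (flr (e - h) g.1) (fun d => R e (coar h e g) q.1 q.2 d * v q.1 d * u q.2 d)| :=
      abs_sub_abs_le_abs_sub _ _
    have h4 : r + 2 * (B * H * H) * ((2 : ℝ) ^ h)⁻¹ ≤
        |av e g.1 (fun d => R e (coar h e g) q.1 q.2 d * v q.1 d * u q.2 d)| := hq3
    have h5 : (coar h e g).1 = flr (e - h) g.1 := rfl
    rw [h5]
    linarith
  refine (Nat.cast_le.mpr (Finset.card_le_card hsub)).trans (h1.trans ?_)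
  rw [card_SC hek, card_SC hek, card_SC hek, card_SC hek, mul_assoc θ (4 ^ D)]
  refine mul_le_mul_of_nonneg_left ?_ hθ
  have h6 : (2 : ℝ) ^ (e - (h + 3)) ≤ 2 ^ D * 2 ^ (e - (h + D + 3)) := by
    rw [← pow_add]
    exact pow_le_pow_right₀ (by norm_num) (by omega)
  have hP : (0 : ℝ) ≤ (Fintype.card P : ℝ) := Nat.cast_nonneg _
  have h7 : (Fintype.card P : ℝ) * 2 ^ (e - (h + 3)) ≤ 2 ^ D * ((Fintype.card P : ℝ) * 2 ^ (e - (h + D + 3))) := by
    calc (Fintype.card P : ℝ) * 2 ^ (e - (h + 3)) ≤ (Fintype.card P : ℝ) * (2 ^ D * 2 ^ (e - (h + D + 3))) :=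
          mul_le_mul_of_nonneg_left h6 hP
      _ = _ := by ring
  calc (Fintype.card P : ℝ) * 2 ^ (e - (h + 3)) * ((Fintype.card P : ℝ) * 2 ^ (e - (h + 3)))
      ≤ (2 ^ D * ((Fintype.card P : ℝ) * 2 ^ (e - (h + D + 3)))) * (2 ^ D * ((Fintype.card P : ℝ) * 2 ^ (e - (h + D + 3)))) :=
        mul_le_mul h7 h7 (by positivity) (by positivity)
    _ = 4 ^ D * ((Fintype.card P : ℝ) * 2 ^ (e - (h + D + 3)) * ((Fintype.card P : ℝ) * 2 ^ (e - (h + D + 3)))) := by
        rw [show (4 : ℝ) = 2 * 2 by norm_num, mul_pow]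
        ring

end PT

end Pool.Agent.M3.Mod
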