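import Pool.Agent.M3.Frz
import Pool.Agent.M3.NVT

/-!
# M3/Tele: the telescoping identities of Proposition 2 (row 4 of table m3, 4.4; helper94)

`trF x G A B` = the three faces `x, x+1, x+2` carry `G, A, B`.
* `TT3_trF`, `trF_self`, `TT3_trF_frz` (the current version);
* `tele_term`, `tele_sum`: `<R^m R^m G> = sum_(m <= n < M) (terms n) + <R^M R^M G>`;
* `piece_union`: the pieces of a layer, their structured face replaced by an arbitrary `G`: if the process is large,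
  then a term (`tA n`, `tB n`) or the last term `tL M` is large.
-/

set_option autoImplicit false
set_option linter.unusedSectionVars false

namespace Pool.Agent.M3.Mod

open Finset Pool.Agent.PWZ Pool.Agent.M3.Bin

noncomputable section

variable {k N : ℕ} {Θ P : Type}

/-- the faces `x`, `x+1`, `x+2` carry `G`, `A`, `B` -/
def trF (x : Fin 3) (G A B : Fam2 k P) : Fin 3 → Fam2 k P :=
  fun j => if j = x then G else if j = x + 1 then A else B

theorem trF_0 (x : Fin 3) (G A B : Fam2 k P) : trF x G A B x = G := if_pos rfl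

theorem trF_1 (x : Fin 3) (G A B : Fam2 k P) : trF x G A B (x + 1) = A := by
  unfold trF
  rw [if_neg (fin3_ne1 x), if_pos rfl]

theorem trF_2 (x : Fin 3) (G A B : Fam2 k P) : trF x G A B (x + 2) = B := by
  unfold trF
  rw [if_neg (fin3_ne2 x), if_neg (fin3_ne3 x).symm]

theorem prod_rot (f : Fin 3 → ℝ) (x : Fin 3) : ∏ j, f j = f x * f (x + 1) * f (x + 2) := by
  rw [Fin.prod_univ_three]
  have h0 : ∀ a b c : ℝ, a * b * c = b * c * a := fun a b c => by ring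
  have h1 : ∀ a b c : ℝ, a * b * c = c * a * b := fun a b c => by ring
  fin_cases x
  · rfl
  · exact h0 _ _ _
  · exact h1 _ _ _

/-- the process of `trF` -/
theorem TT3_trF (h : ℕ) (x : Fin 3) (G A B : Fam2 k P) (e : ℕ) (ω : Sp k N 3 Θ P) :
    TT3 h (trF x G A B) e ω =
      av e (Yn e ω).1 (fun d => fv h x G e ω d * fv h (x + 1) A e ω d * fv h (x + 2) B e ω d) := by
  unfold TT3
  congr 1
  funext d
  rw [prod_rot _ x, trF_0, trF_1, trF_2]

theorem trF_self (R : Fin 3 → Fam2 k P) (x : Fin 3) : trF x (R x) (R (x + 1)) (R (x + 2)) = R := by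
  funext j
  unfold trF
  split_ifs with h1 h2
  · rw [h1]
  · rw [h2]
  · have h3 : j = x + 2 := by revert x j; decide
    rw [h3]

/-- the current version of the face `x` -/
theorem TT3_trF_frz (h : ℕ) (x : Fin 3) (G A B : Fam2 k P) {t : ℕ} (h1 : 1 ≤ t) (ht : t ≤ N) (ω : Sp k N 3 Θ P) :
    TT3 h (trF x (frz h N (cn h x G t ω) G) A B) (ex N t) ω = TT3 h (trF x G A B) (ex N t) ω := by
  rw [TT3_trF, TT3_trF, fv_frz h x G h1 ht ω]

/-- the current version of the face `x` of a process -/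
theorem TT3_frz (h : ℕ) (R : Fin 3 → Fam2 k P) (x : Fin 3) {t : ℕ} (h1 : 1 ≤ t) (ht : t ≤ N) (ω : Sp k N 3 Θ P) :
    TT3 h (trF x (frz h N (cn h x (R x) t ω) (R x)) (R (x + 1)) (R (x + 2))) (ex N t) ω = TT3 h R (ex N t) ω := by
  rw [TT3_trF_frz h x (R x) _ _ h1 ht ω, trF_self]

section fam

variable (L : Lay) {F : Fin 3 → P × V k → P × V k → V k → ℝ}

theorem lh_le {l n : ℕ} (hln : l ≤ n) : L.lh l ≤ L.lh n := by
  induction n, hln using Nat.le_induction with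
  | base => exact le_rfl
  | succ n _ ih => exact ih.trans (L.lh_mono n)

variable [Fintype Θ] [Nonempty Θ] [Fintype P] [Nonempty P]

theorem Rl_v (l : ℕ) (i : Fin 3) (e : ℕ) (ω : Sp k N 3 Θ P) :
    fv (L.lh l) i (Rl N L F l i) e ω = Rv N L F l i e ω := rfl

theorem fineRl_v {l h : ℕ} (hl : L.lh l ≤ h) (i : Fin 3) (e : ℕ) (ω : Sp k N 3 Θ P) :
    fv h i (fine (L.lh l) (Rl N L F l i)) e ω = Rv N L F l i e ω := by
  rw [fv_fine hl]
  rfl

/-- the process of two residuals and `G`, rounding `lh (m+1)` -/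
theorem trF_RR {h0 m : ℕ} (h1 : h0 ≤ L.lh (m + 1)) (x : Fin 3) (G : Fam2 k P) (e : ℕ) (ω : Sp k N 3 Θ P) :
    TT3 (L.lh (m + 1)) (trF x (fine h0 G) (fine (L.lh m) (Rl N L F m (x + 1)))
      (fine (L.lh m) (Rl N L F m (x + 2)))) e ω =
      av e (Yn e ω).1 (fun d => fv h0 x G e ω d * Rv N L F m (x + 1) e ω d * Rv N L F m (x + 2) e ω d) := by
  rw [TT3_trF, fv_fine h1, fineRl_v L (L.lh_mono m), fineRl_v L (L.lh_mono m)]

/-- the same, rounding `lh M` -/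
theorem trF_RM {h0 M : ℕ} (h1 : h0 ≤ L.lh M) (x : Fin 3) (G : Fam2 k P) (e : ℕ) (ω : Sp k N 3 Θ P) :
    TT3 (L.lh M) (trF x (fine h0 G) (Rl N L F M (x + 1)) (Rl N L F M (x + 2))) e ω =
      av e (Yn e ω).1 (fun d => fv h0 x G e ω d * Rv N L F M (x + 1) e ω d * Rv N L F M (x + 2) e ω d) := by
  rw [TT3_trF, fv_fine h1, Rl_v, Rl_v]

/-- one step of the telescoping -/
theorem tele_term {h0 n : ℕ} (h1 : h0 ≤ L.lh (n + 1)) (x : Fin 3) (G : Fam2 k P) (e : ℕ) (ω : Sp k N 3 Θ P) :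
    av e (Yn e ω).1 (fun d => fv h0 x G e ω d * Rv N L F n (x + 1) e ω d * Rv N L F n (x + 2) e ω d) =
      (TT3 (L.lh (n + 1)) (trF x (fine h0 G) (Dl N L F n (x + 1)) (fine (L.lh n) (Rl N L F n (x + 2)))) e ω +
        TT3 (L.lh (n + 1)) (trF x (fine h0 G) (Rl N L F (n + 1) (x + 1)) (Dl N L F n (x + 2))) e ω) +
      av e (Yn e ω).1 (fun d => fv h0 x G e ω d * Rv N L F (n + 1) (x + 1) e ω d *
        Rv N L F (n + 1) (x + 2) e ω d) := by
  have a1 : TT3 (L.lh (n + 1)) (trF x (fine h0 G) (Dl N L F n (x + 1)) (fine (L.lh n) (Rl N L F n (x + 2)))) e ω =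
      av e (Yn e ω).1 (fun d => fv h0 x G e ω d * (Rv N L F n (x + 1) e ω d - Rv N L F (n + 1) (x + 1) e ω d) *
        Rv N L F n (x + 2) e ω d) := by
    rw [TT3_trF, fv_fine h1, fineRl_v L (L.lh_mono n)]
    congr 1
    funext d
    rw [Dl_v]
  have a2 : TT3 (L.lh (n + 1)) (trF x (fine h0 G) (Rl N L F (n + 1) (x + 1)) (Dl N L F n (x + 2))) e ω =
      av e (Yn e ω).1 (fun d => fv h0 x G e ω d * Rv N L F (n + 1) (x + 1) e ω d *
        (Rv N L F n (x + 2) e ω d - Rv N L F (n + 1) (x + 2) e ω d)) := by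
    rw [TT3_trF, fv_fine h1, Rl_v]
    congr 1
    funext d
    rw [Dl_v]
  rw [a1, a2, ← av_add, ← av_add]
  congr 1
  funext d
  ring

/-- THE TELESCOPING of Proposition 2 -/
theorem tele_sum {h0 m M : ℕ} (h1 : h0 ≤ L.lh (m + 1)) (hM : m + 1 ≤ M) (x : Fin 3) (G : Fam2 k P) (e : ℕ)
    (ω : Sp k N 3 Θ P) :
    TT3 (L.lh (m + 1)) (trF x (fine h0 G) (fine (L.lh m) (Rl N L F m (x + 1)))
        (fine (L.lh m) (Rl N L F m (x + 2)))) e ω =
      (∑ n ∈ Ico m M,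
        (TT3 (L.lh (n + 1)) (trF x (fine h0 G) (Dl N L F n (x + 1)) (fine (L.lh n) (Rl N L F n (x + 2)))) e ω +
          TT3 (L.lh (n + 1)) (trF x (fine h0 G) (Rl N L F (n + 1) (x + 1)) (Dl N L F n (x + 2))) e ω)) +
      TT3 (L.lh M) (trF x (fine h0 G) (Rl N L F M (x + 1)) (Rl N L F M (x + 2))) e ω := by
  rw [trF_RR L h1, trF_RM L (h1.trans (lh_le L hM))]
  have key : ∀ j : ℕ, av e (Yn e ω).1 (fun d => fv h0 x G e ω d * Rv N L F m (x + 1) e ω d *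
        Rv N L F m (x + 2) e ω d) =
      (∑ n ∈ Ico m (m + j),
        (TT3 (L.lh (n + 1)) (trF x (fine h0 G) (Dl N L F n (x + 1)) (fine (L.lh n) (Rl N L F n (x + 2)))) e ω +
          TT3 (L.lh (n + 1)) (trF x (fine h0 G) (Rl N L F (n + 1) (x + 1)) (Dl N L F n (x + 2))) e ω)) +
      av e (Yn e ω).1 (fun d => fv h0 x G e ω d * Rv N L F (m + j) (x + 1) e ω d *
        Rv N L F (m + j) (x + 2) e ω d) := by
    intro j
    induction j with
    | zero => simp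
    | succ j ih =>
      rw [← Nat.add_assoc, Finset.sum_Ico_succ_top (Nat.le_add_right m j), ih,
        tele_term L (h1.trans (lh_le L (by omega))) x G e ω]
      ring
  obtain ⟨j, hj⟩ := Nat.exists_eq_add_of_le (show m ≤ M by omega)
  rw [hj]
  exact key j

variable (N F)

/-- first term of the step `n` -/
def tA (x : Fin 3) (G : Fam2 k P) (h0 n : ℕ) : Fin 3 → Fam2 k P :=
  trF x (fine h0 G) (Dl N L F n (x + 1)) (fine (L.lh n) (Rl N L F n (x + 2)))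

/-- second term of the step `n` -/
def tB (x : Fin 3) (G : Fam2 k P) (h0 n : ℕ) : Fin 3 → Fam2 k P :=
  trF x (fine h0 G) (Rl N L F (n + 1) (x + 1)) (Dl N L F n (x + 2))

/-- last term -/
def tL (x : Fin 3) (G : Fam2 k P) (h0 M : ℕ) : Fin 3 → Fam2 k P :=
  trF x (fine h0 G) (Rl N L F M (x + 1)) (Rl N L F M (x + 2))

variable {N F}

/-- `tele_sum` in short form, the left side at the rounding `h0 = lh (l+1)` -/
theorem tele_l (l : ℕ) {M : ℕ} (hM : l + 1 ≤ M) (x : Fin 3) (G : Fam2 k P) (e : ℕ) (ω : Sp k N 3 Θ P) :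
    TT3 (L.lh (l + 1)) (trF x G (fine (L.lh l) (Rl N L F l (x + 1))) (fine (L.lh l) (Rl N L F l (x + 2)))) e ω =
      (∑ n ∈ Ico l M, (TT3 (L.lh (n + 1)) (tA N L F x G (L.lh (l + 1)) n) e ω +
        TT3 (L.lh (n + 1)) (tB N L F x G (L.lh (l + 1)) n) e ω)) +
      TT3 (L.lh M) (tL N L F x G (L.lh (l + 1)) M) e ω := by
  have h1 := tele_sum (F := F) L (h0 := L.lh (l + 1)) (m := l) (M := M) le_rfl hM x G e ω
  unfold tA tB tL
  rw [← h1, TT3_trF, TT3_trF, fv_fine le_rfl]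

theorem tele_l1 (l : ℕ) {M : ℕ} (hM : l + 2 ≤ M) (x : Fin 3) (G : Fam2 k P) (e : ℕ) (ω : Sp k N 3 Θ P) :
    TT3 (L.lh (l + 1)) (trF x G (Rl N L F (l + 1) (x + 1)) (Rl N L F (l + 1) (x + 2))) e ω =
      (∑ n ∈ Ico (l + 1) M, (TT3 (L.lh (n + 1)) (tA N L F x G (L.lh (l + 1)) n) e ω +
        TT3 (L.lh (n + 1)) (tB N L F x G (L.lh (l + 1)) n) e ω)) +
      TT3 (L.lh M) (tL N L F x G (L.lh (l + 1)) M) e ω := by
  have h1 := tele_sum (F := F) L (h0 := L.lh (l + 1)) (m := l + 1) (M := M) (L.lh_mono (l + 1)) hM x G e ω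
  unfold tA tB tL
  rw [← h1, TT3_trF, TT3_trF, fv_fine (L.lh_mono (l + 1)), fineRl_v L (L.lh_mono (l + 1)),
    fineRl_v L (L.lh_mono (l + 1)), Rl_v, Rl_v]

/-- mixed piece: one more term -/
theorem tele_mix (l : ℕ) (x : Fin 3) (G : Fam2 k P) (e : ℕ) (ω : Sp k N 3 Θ P) :
    TT3 (L.lh (l + 1)) (trF x G (Rl N L F (l + 1) (x + 1)) (fine (L.lh l) (Rl N L F l (x + 2)))) e ω =
      TT3 (L.lh (l + 1)) (tB N L F x G (L.lh (l + 1)) l) e ω +
      TT3 (L.lh (l + 1)) (trF x G (Rl N L F (l + 1) (x + 1)) (Rl N L F (l + 1) (x + 2))) e ω := by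
  unfold tB
  rw [TT3_trF, TT3_trF, TT3_trF, fv_fine le_rfl, fineRl_v L (L.lh_mono l), Rl_v, Rl_v, ← av_add]
  congr 1
  funext d
  rw [Dl_v]
  ring

/-- a large sum has a large term -/
theorem large_term {a b : ℕ → ℝ} {S : Finset ℕ} {c T r r'' : ℝ} {r' : ℕ → ℝ} (hT : T = (∑ n ∈ S, (a n + b n)) + c)
    (hr : r'' + ∑ n ∈ S, 2 * r' n ≤ r) (h : r ≤ |T|) :
    (∃ n ∈ S, r' n ≤ |a n| ∨ r' n ≤ |b n|) ∨ r'' ≤ |c| := by
  by_contra hcon
  rw [not_or] at hcon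
  obtain ⟨h1, h2⟩ := hcon
  have h3 : ∑ n ∈ S, (|a n| + |b n|) ≤ ∑ n ∈ S, 2 * r' n := by
    refine Finset.sum_le_sum fun n hn => ?_
    have h4 : ¬ (r' n ≤ |a n| ∨ r' n ≤ |b n|) := fun h' => h1 ⟨n, hn, h'⟩
    rw [not_or, not_le, not_le] at h4
    linarith [h4.1, h4.2]
  have h5 : |T| ≤ ∑ n ∈ S, (|a n| + |b n|) + |c| := by
    rw [hT]
    refine (abs_add_le _ _).trans (add_le_add ?_ le_rfl)
    refine (Finset.abs_sum_le_sum_abs _ _).trans (Finset.sum_le_sum fun n _ => abs_add_le _ _)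
  rw [not_le] at h2
  linarith

/-- THE PIECES, structured face `x` replaced by an arbitrary family `G` -/
theorem piece_union (l : ℕ) {M : ℕ} (hM : l + 2 ≤ M) {q x : Fin 3} (hqx : x + q = 2) (G : Fam2 k P) (e : ℕ)
    (ω : Sp k N 3 Θ P) {r r'' : ℝ} {r' : ℕ → ℝ} (hr' : ∀ n, 0 ≤ r' n) (hr : r'' + ∑ n ∈ Ico l M, 2 * r' n ≤ r)
    (h : r ≤ |TT3 (L.lh (l + 1)) (trF x G (Pc N L F l q (x + 1)) (Pc N L F l q (x + 2))) e ω|) :
    (∃ n ∈ Ico l M, r' n ≤ |TT3 (L.lh (n + 1)) (tA N L F x G (L.lh (l + 1)) n) e ω| ∨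
      r' n ≤ |TT3 (L.lh (n + 1)) (tB N L F x G (L.lh (l + 1)) n) e ω|) ∨
    r'' ≤ |TT3 (L.lh M) (tL N L F x G (L.lh (l + 1)) M) e ω| := by
  have hsub : Ico (l + 1) M ⊆ Ico l M := by
    intro n hn
    rw [Finset.mem_Ico] at hn ⊢
    omega
  have hsum : ∑ n ∈ Ico (l + 1) M, 2 * r' n ≤ ∑ n ∈ Ico l M, 2 * r' n :=
    Finset.sum_le_sum_of_subset_of_nonneg hsub (fun n _ _ => by linarith [hr' n])
  have hx : ∀ q x : Fin 3, x + q = 2 → x = 2 - q := by decide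
  obtain rfl := hx q x hqx
  fin_cases q
  · have h1 := tele_l (F := F) L l (M := M) (by omega) 2 G e ω
    exact large_term h1 hr h
  · have h1 := tele_l1 (F := F) L l hM 1 G e ω
    have h2 := tele_mix (F := F) L l 1 G e ω
    rw [h1] at h2
    by_cases h3 : r' l ≤ |TT3 (L.lh (l + 1)) (tB N L F 1 G (L.lh (l + 1)) l) e ω|
    · exact Or.inl ⟨l, Finset.mem_Ico.mpr ⟨le_rfl, by omega⟩, Or.inr h3⟩
    · rw [not_le] at h3
      have h4 : ∑ n ∈ Ico l M, 2 * r' n = 2 * r' l + ∑ n ∈ Ico (l + 1) M, 2 * r' n :=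
        Finset.sum_eq_sum_Ico_succ_bot (by omega) _
      have h6 : r ≤ |TT3 (L.lh (l + 1)) (trF 1 G (Rl N L F (l + 1) (1 + 1)) (fine (L.lh l) (Rl N L F l (1 + 2)))) e ω| := h
      rw [h2] at h6
      have h7 := h6.trans (abs_add_le _ _)
      rcases large_term (T := (∑ n ∈ Ico (l + 1) M, (TT3 (L.lh (n + 1)) (tA N L F 1 G (L.lh (l + 1)) n) e ω +
        TT3 (L.lh (n + 1)) (tB N L F 1 G (L.lh (l + 1)) n) e ω)) +
        TT3 (L.lh M) (tL N L F 1 G (L.lh (l + 1)) M) e ω) (r := r - r' l) (r'' := r'') (r' := r') rfl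
        (by linarith [hr' l]) (by linarith) with ⟨n, hn, h5⟩ | h5
      · exact Or.inl ⟨n, hsub hn, h5⟩
      · exact Or.inr h5
  · have h1 := tele_l1 (F := F) L l hM 0 G e ω
    rcases large_term h1 ((add_le_add le_rfl hsum).trans hr) h with ⟨n, hn, h5⟩ | h5
    · exact Or.inl ⟨n, hsub hn, h5⟩
    · exact Or.inr h5

end fam

end

end Pool.Agent.M3.Mod
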