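import Pool.Agent.M3.ColdL
import Pool.Agent.M3.FrzL
import Pool.Agent.M3.Tele
import Pool.Agent.M3.Hot
import Pool.Agent.M3.S6End

/-!
# M3.Colds: PROPOSITION 2 (three colds, 4.4 of table m3) (helper2)

`cold3_of_NVThm : NVThm L κ0 → Cold3 L r` for `r0 / (l+1)^2 ≤ r l`, `L.c ≤ r0 / 4000`.
-/

set_option autoImplicit false
set_option linter.unusedSectionVars false

namespace Pool.Agent.M3

open Finset Pool.Agent.PWZ

namespace FP

variable {Om : Type*} [Fintype Om] (P : FP Om)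

/-- the conditional expectation depends on the values on the class only -/
theorem ce_class {κ : Type*} (X : Om → κ) {f g : Om → ℝ} {w : Om} (h : ∀ v, X v = X w → f v = g v) :
    P.ce X f w = P.ce X g w := by
  unfold ce
  congr 1
  refine P.E_congr (fun v _ => ?_)
  by_cases hv : X v = X w
  · rw [h v hv]
  · rw [ind_not hv, zero_mul, zero_mul]

end FP

namespace Mod

open Filter Pool.Agent.M3.Bin

variable {k N : ℕ}

/-! ### versions of the known face -/

/-- 4.3: hotness of the process implies hotness of a version, or many changes -/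
theorem hot_versions (h : ℕ) (R : Fin 3 → Fam2 k Unit) (x : Fin 3) (p : ℕ) (r ρ : ℝ) :
    (Pm : FP (Sp k N 3 Unit Unit)).Pr (fun ω => ∃ t ≤ N, 1 ≤ t ∧ ρ <
        Pm.ce (Kn x (ex N t)) (fun v => ind (r ≤ |TT3 h R (ex N t) v|)) ω) ≤
      (Pm : FP (Sp k N 3 Unit Unit)).Pr (fun ω => (p : ℝ) < ∑ s ∈ range N, ind (chE h x (R x) s ω)) +
      ∑ v ∈ range (p + 1), (Pm : FP (Sp k N 3 Unit Unit)).Pr (fun ω => ∃ t ≤ N, 1 ≤ t ∧ ρ <
        Pm.ce (Kn x (ex N t)) (fun ω' => ind (r ≤ |TT3 h (trF x (frz h N v (R x)) (R (x + 1)) (R (x + 2)))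
          (ex N t) ω'|)) ω) := by
  have h1 := FP.Pr_ex_le (Pm : FP (Sp k N 3 Unit Unit)) (range (p + 1)) (fun v ω => ∃ t ≤ N, 1 ≤ t ∧ ρ <
        Pm.ce (Kn x (ex N t)) (fun ω' => ind (r ≤ |TT3 h (trF x (frz h N v (R x)) (R (x + 1)) (R (x + 2)))
          (ex N t) ω'|)) ω)
  refine le_trans ?_ (add_le_add le_rfl h1)
  refine le_trans (FP.Pr_mono _ (fun ω _ => ?_)) (FP.Pr_or_le _ _ _)
  rintro ⟨t, ht, ht1, hh⟩
  by_cases hp : (p : ℝ) < ∑ s ∈ range N, ind (chE h x (R x) s ω)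
  · exact Or.inl hp
  right
  have hcn : cn h x (R x) t ω ≤ p := by
    have h2 := cn_eq h x (R x) ω
    rw [← h2, not_lt] at hp
    exact (cn_mono h x (R x) ht ω).trans (by exact_mod_cast hp)
  refine ⟨cn h x (R x) t ω, Finset.mem_range.mpr (by omega), t, ht, ht1, ?_⟩
  refine lt_of_lt_of_le hh (le_of_eq ?_)
  refine FP.ce_class _ _ (fun v hv => ?_)
  have h3 : cn h x (R x) t v = cn h x (R x) t ω := cn_fac h x (R x) t v ω hv
  rw [← h3, TT3_frz h R x ht1 ht v]

/-! ### the last term -/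

theorem tL_small (L : Lay) {F : Fin 3 → Unit × V k → Unit × V k → V k → ℝ} (hN : N ≤ k)
    (hF : ∀ i b c d, |F i b c d| ≤ 1) (x : Fin 3) {G : Fam2 k Unit} (hG : ∀ e g a b d, |G e g a b d| ≤ 2) (h0 M : ℕ)
    {ρ : ℝ} (hρ : 0 < ρ) :
    (Pm : FP (Sp k N 3 Unit Unit)).Pr (fun ω => ∃ t ≤ N, ρ ≤
        Pm.ce (Kn x (ex N t)) (fun v => ind (32 * L.lep M ≤ |TT3 (L.lh M) (tL N L F x G h0 M) (ex N t) v|)) ω) ≤
      (N + 1) * (2 * L.lth M) / ρ := by
  have hPT : PT (L.lh M) N (Rl N L F M (x + 1)) (L.lth M) (16 * L.lep M) 2 := by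
    refine PT.mono (PT.scale (Rl_PT L hF M (x + 1)) (by norm_num : (0 : ℝ) < 2)) le_rfl ?_
    linarith
  have hr : 2 * (2 : ℝ) ^ 3 * ((2 : ℝ) ^ L.lh M)⁻¹ ≤ 16 * L.lep M := by
    have h1 := L.rd1 M
    have h3 : 0 < ((2 : ℝ) ^ L.lh M)⁻¹ := by positivity
    have h4 := L.lep_pos M
    linarith
  have habs : ∀ i e g a b d, |tL N L F x G h0 M i e g a b d| ≤ 2 := by
    intro i e g a b d
    unfold tL trF
    split_ifs
    · exact hG _ _ _ _ _
    · exact abs_Rl L hF M _ _ _ _ _ _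
    · exact abs_Rl L hF M _ _ _ _ _ _
  have h1 : ∀ e ≤ N, (Pm : FP (Sp k N 3 Unit Unit)).Pr (fun ω => 32 * L.lep M ≤
      |TT3 (L.lh M) (tL N L F x G h0 M) e ω|) ≤ 2 * L.lth M := by
    intro e he
    have h2 := TT3_hidden (Θ := Unit) (P := Unit) (x + 1) he hN (R := tL N L F x G h0 M) (L.lth_pos M).le
      (by rw [show tL N L F x G h0 M (x + 1) = Rl N L F M (x + 1) from trF_1 _ _ _ _]; exact hPT) hr habs
    have h3 : 2 * (16 * L.lep M) = 32 * L.lep M := by ring
    rw [h3] at h2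
    unfold FP.Pr
    rw [← FP.E_ce Pm (fun ω => (th ω, vx (x + 1) ω, nz ω, sc (L.lh M) e (x + 1 + 1) ω, sc (L.lh M) e (x + 1 + 2) ω))]
    exact FP.E_le_const _ fun ω _ => h2 ω
  have h2 : (Pm : FP (Sp k N 3 Unit Unit)).Pr (fun ω => ∃ t ≤ N, ρ ≤
        Pm.ce (Kn x (ex N t)) (fun v => ind (32 * L.lep M ≤ |TT3 (L.lh M) (tL N L F x G h0 M) (ex N t) v|)) ω) ≤
      ∑ t ∈ range (N + 1), (Pm : FP (Sp k N 3 Unit Unit)).Pr (fun ω => ρ ≤
        Pm.ce (Kn x (ex N t)) (fun v => ind (32 * L.lep M ≤ |TT3 (L.lh M) (tL N L F x G h0 M) (ex N t) v|)) ω) := by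
    refine le_trans (FP.Pr_mono _ (fun ω _ => ?_)) (FP.Pr_ex_le _ _ _)
    rintro ⟨t, ht, hh⟩
    exact ⟨t, Finset.mem_range.mpr (by omega), hh⟩
  refine h2.trans ?_
  have h3 : ∀ t ∈ range (N + 1), (Pm : FP (Sp k N 3 Unit Unit)).Pr (fun ω => ρ ≤
        Pm.ce (Kn x (ex N t)) (fun v => ind (32 * L.lep M ≤ |TT3 (L.lh M) (tL N L F x G h0 M) (ex N t) v|)) ω) ≤
        2 * L.lth M / ρ := by
    intro t _
    rw [le_div_iff₀ hρ]
    have h4 := FP.markov (Pm : FP (Sp k N 3 Unit Unit))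
      (f := Pm.ce (Kn x (ex N t)) (fun v => ind (32 * L.lep M ≤ |TT3 (L.lh M) (tL N L F x G h0 M) (ex N t) v|)))
      (fun w _ => FP.ce_nonneg _ (fun v _ => ind_nonneg _) w) ρ
    rw [FP.E_ce] at h4
    have h5 := h1 (ex N t) (Nat.sub_le _ _)
    unfold FP.Pr at h5 ⊢
    unfold FP.Pr at h4
    linarith
  refine (Finset.sum_le_sum h3).trans ?_
  rw [Finset.sum_const, Finset.card_range, nsmul_eq_mul]
  push_cast
  apply le_of_eq
  ring

/-! ### the pieces -/

theorem trF_ne {P : Type} (R : Fin 3 → Fam2 k P) (x : Fin 3) (G : Fam2 k P) {s : Fin 3} (hs : s ≠ x) :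
    trF x G (R (x + 1)) (R (x + 2)) s = R s := by
  unfold trF
  rw [if_neg hs]
  by_cases h : s = x + 1
  · rw [if_pos h, h]
  · rw [if_neg h]
    have h3 : ∀ s x : Fin 3, s ≠ x → s ≠ x + 1 → x + 2 = s := by decide
    rw [h3 s x hs h]

/-- the faces of a piece through a vertex which is not opposite to the structured face -/
theorem Pc_faces (L : Lay) (F : Fin 3 → Unit × V k → Unit × V k → V k → ℝ) (l : ℕ) {q x : Fin 3} (hqx : x + q ≠ 2) :
    ∃ s r : Fin 3, s ≠ x ∧ r ≠ x ∧ r ≠ s ∧ Pc N L F l q s = Dl N L F l s ∧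
      (Pc N L F l q r = fine (L.lh l) (Rl N L F l r) ∨ Pc N L F l q r = Rl N L F (l + 1) r) := by
  fin_cases q <;> fin_cases x
  · exact ⟨2, 1, by decide, by decide, by decide, rfl, Or.inl rfl⟩
  · exact ⟨2, 0, by decide, by decide, by decide, rfl, Or.inl rfl⟩
  · exact absurd rfl hqx
  · exact ⟨1, 2, by decide, by decide, by decide, rfl, Or.inr rfl⟩
  · exact absurd rfl hqx
  · exact ⟨1, 0, by decide, by decide, by decide, rfl, Or.inl rfl⟩
  · exact absurd rfl hqx
  · exact ⟨0, 2, by decide, by decide, by decide, rfl, Or.inr rfl⟩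
  · exact ⟨0, 1, by decide, by decide, by decide, rfl, Or.inr rfl⟩

theorem sum_inv_sq_le (m : ℕ) : ∑ j ∈ range m, 1 / ((j : ℝ) + 1) ^ 2 ≤ 2 := by
  have key : ∀ m : ℕ, ∑ j ∈ range (m + 1), 1 / ((j : ℝ) + 1) ^ 2 ≤ 2 - 1 / ((m : ℝ) + 1) := by
    intro m
    induction m with
    | zero => norm_num
    | succ m ih =>
      rw [Finset.sum_range_succ]
      push_cast
      have h1 : (0 : ℝ) < (m : ℝ) + 1 := by positivity
      have h2 : 1 / ((m : ℝ) + 1 + 1) ^ 2 ≤ 1 / ((m : ℝ) + 1) - 1 / ((m : ℝ) + 1 + 1) := by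
        rw [div_sub_div _ _ h1.ne' (by positivity), div_le_div_iff₀ (by positivity) (by positivity)]
        nlinarith
      linarith
  rcases m with _ | m
  · norm_num
  · have h1 := key m
    have h2 : (0 : ℝ) < 1 / ((m : ℝ) + 1) := by positivity
    linarith

/-- thresholds -/
noncomputable def rln (r0 : ℝ) (l n : ℕ) : ℝ := r0 / (8 * ((l : ℝ) + 1) ^ 2) * (1 / (((n - l : ℕ) : ℝ) + 1) ^ 2)

theorem rln_nonneg {r0 : ℝ} (hr0 : 0 < r0) (l n : ℕ) : 0 ≤ rln r0 l n := by
  unfold rln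
  positivity

theorem rln_ge {r0 : ℝ} (hr0 : 0 < r0) {l n : ℕ} (hln : l ≤ n) : r0 / (8 * ((n : ℝ) + 1) ^ 4) ≤ rln r0 l n := by
  unfold rln
  rw [div_mul_div_comm, mul_one]
  refine div_le_div_of_nonneg_left hr0.le (by positivity) ?_
  have h1 : ((l : ℝ) + 1) ^ 2 ≤ ((n : ℝ) + 1) ^ 2 := by
    have : (l : ℝ) ≤ n := by exact_mod_cast hln
    exact pow_le_pow_left₀ (by positivity) (by linarith) 2
  have h2 : (((n - l : ℕ) : ℝ) + 1) ^ 2 ≤ ((n : ℝ) + 1) ^ 2 := by
    have : ((n - l : ℕ) : ℝ) ≤ n := by exact_mod_cast Nat.sub_le n l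
    exact pow_le_pow_left₀ (by positivity) (by linarith) 2
  calc 8 * ((l : ℝ) + 1) ^ 2 * (((n - l : ℕ) : ℝ) + 1) ^ 2 ≤ 8 * ((n : ℝ) + 1) ^ 2 * ((n : ℝ) + 1) ^ 2 :=
        mul_le_mul (by linarith) h2 (by positivity) (by positivity)
    _ = 8 * ((n : ℝ) + 1) ^ 4 := by ring

theorem sum_rln_le {r0 : ℝ} (hr0 : 0 < r0) (l M : ℕ) :
    r0 / (8 * ((l : ℝ) + 1) ^ 2) + ∑ n ∈ Ico l M, 2 * rln r0 l n ≤ r0 / ((l : ℝ) + 1) ^ 2 := by
  unfold rln
  rw [Finset.sum_Ico_eq_sum_range]
  have h1 : ∀ j : ℕ, 2 * (r0 / (8 * ((l : ℝ) + 1) ^ 2) * (1 / (((l + j - l : ℕ) : ℝ) + 1) ^ 2)) =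
      2 * (r0 / (8 * ((l : ℝ) + 1) ^ 2)) * (1 / ((j : ℝ) + 1) ^ 2) := by
    intro j
    rw [Nat.add_sub_cancel_left]
    ring
  simp only [h1]
  rw [← Finset.mul_sum]
  have h2 := sum_inv_sq_le (M - l)
  have h3 : 0 < r0 / (8 * ((l : ℝ) + 1) ^ 2) := by positivity
  have h4 : r0 / ((l : ℝ) + 1) ^ 2 = 8 * (r0 / (8 * ((l : ℝ) + 1) ^ 2)) := by field_simp
  rw [h4]
  nlinarith

/-- PROPOSITION 2 (THREE COLDS) -/
theorem cold3_of_NVThm (L : Lay) {κ0 r0 : ℝ} (hκ : 0 < κ0) (hr0 : 0 < r0) (hc : L.c ≤ r0 / 4000) (H : NVThm L κ0)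
    {r : ℕ → ℝ} (hr : ∀ l : ℕ, r0 / ((l : ℝ) + 1) ^ 2 ≤ r l) : Cold3 L r := by
  intro C1
  obtain ⟨n1, hn1⟩ := cold_layer L hκ hr0 hc H (C1 + 1)
  obtain ⟨Cp, l1, hl1⟩ := chE_tail L (C1 + 1)
  have e1 := Par.ev_tail (C := C1 + 1) (by omega) 0 2 (c := 1) (c' := 1 / 2) (by norm_num) (by norm_num)
  have e2 := ev_P 4 0 0 C1 (C1 + 1) (by omega) (c := 1 / 2) (by norm_num)
  have e3 := ev_P 16 Cp 0 C1 (C1 + 1) (by omega) (c := 1 / 2) (by norm_num)
  obtain ⟨l2, hl2⟩ := eventually_atTop.1 (e1.and (e2.and e3))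
  refine ⟨max (max n1 l1) (max l2 1), fun l hl k N hN F hF q x => ?_⟩
  have hln1 : n1 ≤ l := (le_max_left _ _).trans ((le_max_left _ _).trans hl)
  have hll1 : l1 ≤ l := (le_max_right _ _).trans ((le_max_left _ _).trans hl)
  have hll2 : l2 ≤ l := (le_max_left _ _).trans ((le_max_right _ _).trans hl)
  have hl1' : 1 ≤ l := (le_max_right _ _).trans ((le_max_right _ _).trans hl)
  obtain ⟨e1, e2, e3⟩ := hl2 l hll2
  have hx1 : (1 : ℝ) ≤ (l : ℝ) := by exact_mod_cast hl1'
  set X : ℝ := (l : ℝ) with hX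
  have a1 : Real.exp (0 * X ^ C1 - 1 / 2 * X ^ (C1 + 1)) = Real.exp (-(1 / 2) * X ^ (C1 + 1)) := by
    congr 1
    ring
  rw [a1] at e2 e3
  rw [pow_zero, mul_one] at e2
  have hEp : 0 < Real.exp (-X ^ C1) := Real.exp_pos _
  have hEh : 0 < Real.exp (-(1 / 2) * X ^ (C1 + 1)) := Real.exp_pos _
  have hmono : Real.exp (-X ^ (C1 + 1)) ≤ Real.exp (-X ^ C1) :=
    Real.exp_le_exp.mpr (neg_le_neg (pow_le_pow_right₀ hx1 (Nat.le_succ C1)))
  have hhalf : Real.exp (-X ^ (C1 + 1)) ≤ Real.exp (-(1 / 2) * X ^ (C1 + 1)) := by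
    apply Real.exp_le_exp.mpr
    have : 0 ≤ X ^ (C1 + 1) := by positivity
    linarith
  set R : Fin 3 → Fam2 k Unit := Pc N L F l q with hR
  have hRabs : ∀ j e g a b d, |R j e g a b d| ≤ 2 := fun j e g a b d => abs_Pc L hF l q j e g a b d
  -- every version is cold
  have hver : ∀ v : ℕ, (Pm : FP (Sp k N 3 Unit Unit)).Pr (fun ω => ∃ t ≤ N, 1 ≤ t ∧ Real.exp (-X ^ C1) <
        Pm.ce (Kn x (ex N t)) (fun ω' => ind (r l ≤ |TT3 (L.lh (l + 1))
          (trF x (frz (L.lh (l + 1)) N v (R x)) (R (x + 1)) (R (x + 2))) (ex N t) ω'|)) ω) ≤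
      2 * Real.exp (-(1 / 2) * X ^ (C1 + 1)) := by
    intro v
    set G : Fam2 k Unit := frz (L.lh (l + 1)) N v (R x) with hG
    have hGabs : ∀ e g a b d, |G e g a b d| ≤ 2 := fun e g a b d => abs_frz (by norm_num) (hRabs x) e g a b d
    by_cases hqx : x + q = 2
    · -- the known face is the structured face
      obtain ⟨m, hm1, hm2⟩ := exists_last L (l + 2) N (a := r0 / (8 * (X + 1) ^ 2))
        (b := Real.exp (-X ^ (C1 + 1)) * (Real.exp (-X ^ C1) / 4)) (by positivity) (by positivity)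
      set M : ℕ := l + 2 + m with hM
      set Jx : Finset (Option (ℕ × Bool)) := Finset.insertNone (Ico l M ×ˢ (univ : Finset Bool)) with hJx
      set S' : Option (ℕ × Bool) → ℕ → Sp k N 3 Unit Unit → Prop := fun j t w => 1 ≤ t ∧ (match j with
        | none => r0 / (8 * (X + 1) ^ 2) ≤ |TT3 (L.lh M) (tL N L F x G (L.lh (l + 1)) M) (ex N t) w|
        | some (n, false) => rln r0 l n ≤ |TT3 (L.lh (n + 1)) (tA N L F x G (L.lh (l + 1)) n) (ex N t) w|
        | some (n, true) => rln r0 l n ≤ |TT3 (L.lh (n + 1)) (tB N L F x G (L.lh (l + 1)) n) (ex N t) w|) with hS'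
      set rr : Option (ℕ × Bool) → ℝ := fun j => match j with
        | none => Real.exp (-X ^ C1) / 4
        | some (n, _) => Real.exp (-(n : ℝ) ^ (C1 + 1)) with hrr
      have hsum2 : ∑ n ∈ Ico l M, 2 * Real.exp (-(n : ℝ) ^ (C1 + 1)) ≤ Real.exp (-(1 / 2) * X ^ (C1 + 1)) := by
        refine le_trans (le_of_eq ?_) (e1 M)
        refine Finset.sum_congr rfl fun n _ => ?_
        rw [pow_zero, mul_one]
        congr 2
        ring
      have hsumrr : ∑ j ∈ Jx, rr j = Real.exp (-X ^ C1) / 4 + ∑ n ∈ Ico l M, 2 * Real.exp (-(n : ℝ) ^ (C1 + 1)) := by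
        rw [hJx, Finset.sum_insertNone, Finset.sum_product]
        congr 1
        refine Finset.sum_congr rfl fun n _ => ?_
        rw [Fintype.sum_bool]
        ring
      have h1 := FP.hot_sum (Pm : FP (Sp k N 3 Unit Unit)) (Y := fun t => Kn x (ex N t)) Jx
        (S := fun t w => 1 ≤ t ∧ r l ≤ |TT3 (L.lh (l + 1)) (trF x G (R (x + 1)) (R (x + 2))) (ex N t) w|) (S' := S')
        (fun t w _ hS => ?_) rr N (ρ := Real.exp (-X ^ C1)) (by rw [hsumrr]; linarith)
        ⟨none, Finset.none_mem_insertNone⟩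
      · refine le_trans (FP.Pr_mono _ (fun ω _ => ?_)) (h1.trans ?_)
        · rintro ⟨t, ht, ht1, hh⟩
          refine ⟨t, ht, hh.le.trans (le_of_eq ?_)⟩
          congr 1
          funext v'
          congr 1
          exact propext ⟨fun h => ⟨ht1, h⟩, fun h => h.2⟩
        · have hpos : ∀ j, 0 < rr j := by
            intro j
            rcases j with _ | ⟨n, b⟩
            · exact div_pos (Real.exp_pos _) (by norm_num)
            · exact Real.exp_pos _
          have ht0 : ∀ j : Option (ℕ × Bool), ∀ t : ℕ, ∀ ω : Sp k N 3 Unit Unit,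
              rr j ≤ Pm.ce (Kn x (ex N t)) (fun v => ind (S' j t v)) ω → 1 ≤ t := by
            intro j t ω hh
            by_contra hcon
            have h2 : Pm.ce (Kn x (ex N t)) (fun v => ind (S' j t v)) ω ≤ 0 := by
              refine FP.ce_le_const _ (fun v _ => ?_) (Pm_ne ω)
              rw [ind_not (fun h => hcon h.1)]
            linarith [hpos j]
          have hterm : ∀ n ∈ Ico l M, ∀ b : Bool, (Pm : FP (Sp k N 3 Unit Unit)).Pr (fun w => ∃ t ≤ N,
              rr (some (n, b)) ≤ Pm.ce (Kn x (ex N t)) (fun v => ind (S' (some (n, b)) t v)) w) ≤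
              Real.exp (-(n : ℝ) ^ (C1 + 1)) := by
            intro n hn b
            rw [Finset.mem_Ico] at hn
            have hh0 : L.lh (l + 1) ≤ L.lh (n + 1) := lh_le L (by omega)
            have hch : ∀ ω : Sp k N 3 Unit Unit, ∑ t ∈ range N,
                ind (chE (L.lh (n + 1)) x (fine (L.lh (l + 1)) G) t ω) ≤ 1 := by
              intro ω
              simp only [chE_fine hh0]
              exact sum_frz _ _ _ _ _
            have hone : ∀ t < N, ∀ w : Sp k N 3 Unit Unit, chE (L.lh (n + 1)) x (fine (L.lh (l + 1)) G) t w →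
                fz (L.lh (n + 1)) x (fine (L.lh (l + 1)) G) t w = 0 := by
              intro t ht w hcw
              rw [chE_fine hh0] at hcw
              rw [fz_fine hh0]
              exact chE_frz ht hcw
            have hne1 : x + 1 ≠ x := fin3_ne1 x
            have hne2 : x + 2 ≠ x := fin3_ne2 x
            have hne3 : x + 2 ≠ x + 1 := (fin3_ne3 x).symm
            rcases b with _ | _
            · have h2 := hn1 n (by omega) k N hN F hF x (x + 1) (x + 2) hne1 hne2 hne3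
                (tA N L F x G (L.lh (l + 1)) n) (trF_1 _ _ _ _) (Or.inl (trF_2 _ _ _ _))
                (fun e g a b d => by
                  rw [show tA N L F x G (L.lh (l + 1)) n x = fine (L.lh (l + 1)) G from trF_0 _ _ _ _]
                  exact hGabs _ _ _ _ _)
                (fun ω => by
                  rw [show tA N L F x G (L.lh (l + 1)) n x = fine (L.lh (l + 1)) G from trF_0 _ _ _ _]
                  exact hch ω)
                (fun t ht w => by
                  rw [show tA N L F x G (L.lh (l + 1)) n x = fine (L.lh (l + 1)) G from trF_0 _ _ _ _]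
                  exact hone t ht w)
                (rln r0 l n) (rln_ge hr0 hn.1)
              refine le_trans (FP.Pr_mono _ (fun ω _ => ?_)) h2
              rintro ⟨t, ht, hh⟩
              refine ⟨t, ht, ht0 (some (n, false)) t ω hh, hh.trans (FP.ce_mono _ (fun v' _ => ind_mono fun h => h.2) ω)⟩
            · have h2 := hn1 n (by omega) k N hN F hF x (x + 2) (x + 1) hne2 hne1 hne3.symm
                (tB N L F x G (L.lh (l + 1)) n) (trF_2 _ _ _ _) (Or.inr (trF_1 _ _ _ _))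
                (fun e g a b d => by
                  rw [show tB N L F x G (L.lh (l + 1)) n x = fine (L.lh (l + 1)) G from trF_0 _ _ _ _]
                  exact hGabs _ _ _ _ _)
                (fun ω => by
                  rw [show tB N L F x G (L.lh (l + 1)) n x = fine (L.lh (l + 1)) G from trF_0 _ _ _ _]
                  exact hch ω)
                (fun t ht w => by
                  rw [show tB N L F x G (L.lh (l + 1)) n x = fine (L.lh (l + 1)) G from trF_0 _ _ _ _]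
                  exact hone t ht w)
                (rln r0 l n) (rln_ge hr0 hn.1)
              refine le_trans (FP.Pr_mono _ (fun ω _ => ?_)) h2
              rintro ⟨t, ht, hh⟩
              refine ⟨t, ht, ht0 (some (n, true)) t ω hh, hh.trans (FP.ce_mono _ (fun v' _ => ind_mono fun h => h.2) ω)⟩
          have hlast : (Pm : FP (Sp k N 3 Unit Unit)).Pr (fun w => ∃ t ≤ N,
              rr none ≤ Pm.ce (Kn x (ex N t)) (fun v => ind (S' none t v)) w) ≤ Real.exp (-X ^ (C1 + 1)) := by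
            have h2 := tL_small L hN hF x hGabs (L.lh (l + 1)) M (ρ := Real.exp (-X ^ C1) / 4) (by positivity)
            refine le_trans (FP.Pr_mono _ (fun ω _ => ?_)) (h2.trans ?_)
            · rintro ⟨t, ht, hh⟩
              refine ⟨t, ht, hh.trans (FP.ce_mono _ (fun v' _ => ind_mono fun h => ?_) ω)⟩
              exact hm1.trans h.2
            · rw [div_le_iff₀ (by positivity)]
              exact hm2
          rw [hJx, Finset.sum_insertNone, Finset.sum_product]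
          have h3 : ∑ n ∈ Ico l M, ∑ b : Bool, (Pm : FP (Sp k N 3 Unit Unit)).Pr (fun w => ∃ t ≤ N,
              rr (some (n, b)) ≤ Pm.ce (Kn x (ex N t)) (fun v => ind (S' (some (n, b)) t v)) w) ≤
              ∑ n ∈ Ico l M, 2 * Real.exp (-(n : ℝ) ^ (C1 + 1)) := by
            refine Finset.sum_le_sum fun n hn => ?_
            refine (Finset.sum_le_sum fun b _ => hterm n hn b).trans (le_of_eq ?_)
            rw [Fintype.sum_bool]
            ring
          linarith
      · have hS2 := hS.2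
        rcases piece_union (F := F) L l (M := M) (by omega) hqx G (ex N t) w (r' := rln r0 l)
          (fun n => rln_nonneg hr0 l n) ((sum_rln_le hr0 l M).trans (hr l)) hS2 with ⟨n, hn, h5 | h5⟩ | h5
        · exact ⟨some (n, false), Finset.some_mem_insertNone.mpr (Finset.mem_product.mpr ⟨hn, Finset.mem_univ _⟩), hS.1, h5⟩
        · exact ⟨some (n, true), Finset.some_mem_insertNone.mpr (Finset.mem_product.mpr ⟨hn, Finset.mem_univ _⟩), hS.1, h5⟩
        · exact ⟨none, Finset.none_mem_insertNone, hS.1, h5⟩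
    · -- the structured face goes through the hidden vertex
      obtain ⟨s, r', hsx, hrx, hrs, hRs, hRr⟩ := Pc_faces (N := N) L F l hqx
      have h2 := hn1 l hln1 k N hN F hF x s r' hsx hrx hrs (trF x G (R (x + 1)) (R (x + 2)))
        (by rw [trF_ne R x G hsx]; exact hRs) (by rw [trF_ne R x G hrx]; exact hRr)
        (fun e g a b d => by rw [trF_0]; exact hGabs _ _ _ _ _)
        (fun ω => by rw [trF_0]; exact sum_frz _ _ _ _ _)
        (fun t ht w => by rw [trF_0]; exact fun hcw => chE_frz ht hcw)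
        (r l) (by
          refine le_trans ?_ (hr l)
          refine div_le_div_of_nonneg_left hr0.le (by positivity) ?_
          have h3 : (1 : ℝ) ≤ ((l : ℝ) + 1) ^ 2 := one_le_pow₀ (by linarith)
          nlinarith)
      refine le_trans (FP.Pr_mono _ (fun ω _ => ?_)) (h2.trans ?_)
      · rintro ⟨t, ht, ht1, hh⟩
        exact ⟨t, ht, ht1, hmono.trans hh.le⟩
      · linarith
  -- union over the versions
  have h1 := hot_versions (k := k) (N := N) (L.lh (l + 1)) R x (l ^ Cp) (r l) (Real.exp (-X ^ C1))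
  refine h1.trans ?_
  have h2 := hl1 l hll1 k N Unit Unit F hF q x
  have h3 : (Pm : FP (Sp k N 3 Unit Unit)).Pr (fun ω => ((l ^ Cp : ℕ) : ℝ) <
      ∑ s ∈ range N, ind (chE (L.lh (l + 1)) x (R x) s ω)) ≤ Real.exp (-X ^ (C1 + 1)) := by
    push_cast
    exact h2
  have h4 := Finset.sum_le_card_nsmul (range (l ^ Cp + 1)) _ _ (fun v _ => hver v)
  rw [Finset.card_range, nsmul_eq_mul] at h4
  push_cast at h4
  have h5 : (1 : ℝ) ≤ X ^ Cp := one_le_pow₀ hx1
  have h6 : (X ^ Cp + 1) * (2 * Real.exp (-(1 / 2) * X ^ (C1 + 1))) ≤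
      4 * X ^ Cp * Real.exp (-(1 / 2) * X ^ (C1 + 1)) := by nlinarith
  have h7 : Real.exp (-X ^ (C1 + 1)) ≤ X ^ Cp * Real.exp (-(1 / 2) * X ^ (C1 + 1)) := by nlinarith
  have h8 := add_le_add h3 h4
  refine h8.trans ?_
  linarith

/-- the form used by `h5_of` -/
theorem cold3_inv (L : Lay) {κ0 c0 : ℝ} (hκ : 0 < κ0) (hc0 : 0 < c0) (hc : L.c ≤ c0 / 4000) (H : NVThm L κ0) :
    Cold3 L (fun l => c0 * ((l : ℝ) + 1)⁻¹ ^ 2) :=
  cold3_of_NVThm L hκ hc0 hc H (fun l => by
    apply le_of_eq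
    rw [inv_pow]
    rfl)

end Mod

end Pool.Agent.M3
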