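import Pool.Agent.M3.S3Cell

/-!
# M3.Dbl: mixtures of laws and the doubling path (section 3)

`P.mix Q q` = the law `(1 - q) P + q Q`; `dd P Q q X` = relative difference `(Q(X) - P(X)) / (P.mix Q q)(X)`;
`dbl P Q X Y q = (P.mix Q q).E (dd X * dd Y)`.

* `I_mixture_le` (mixture lemma): for `P = sum lam_i mu_i`,
  `I_P(X;Y) <= sum lam_i (I_(mu_i)(X;Y) + E_P (dn mu_i P X - 1)(dn mu_i P Y - 1))`;
* `dbl_step` : `I_q <= (I_(2q) + I_0) / 2 + q^2 dbl q` for `2 q <= 1`;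
* `dbl_last` : `I_q <= q I_1 + (1-q) I_0 + q (1-q) dbl q`;
* `dbl_path` : `I_p <= p I_1 + (1-p) I_0 + p (sum_(k<K) (2^k p) dbl(2^k p) + (1 - 2^K p) dbl(2^K p))`.
* `I_event` : `I(X;Y | 1_U) = P(U) I_(P_U)(X;Y) + P(U^c) I_(P_(U^c))(X;Y)`, `red_event_le` : the two together.
-/

set_option autoImplicit false
set_option linter.unusedSectionVars false

namespace Pool.Agent.M3

open Finset Pool.Agent.PWZ

variable {Om : Type*} [Fintype Om]

noncomputable section

open Classical in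
/-- mixture of two laws -/
def FP.mix (P Q : FP Om) (q : ℝ) : FP Om :=
  if h : 0 ≤ q ∧ q ≤ 1 then
    { p := fun w => (1 - q) * P.p w + q * Q.p w
      nn := fun w => add_nonneg (mul_nonneg (sub_nonneg.2 h.2) (P.nn w)) (mul_nonneg h.1 (Q.nn w))
      tot := by
        rw [Finset.sum_add_distrib, ← Finset.mul_sum, ← Finset.mul_sum, P.tot, Q.tot]
        ring }
  else P

/-- relative difference of the laws of `X` -/
def dd (P Q : FP Om) (q : ℝ) {κ : Type*} (X : Om → κ) (w : Om) : ℝ :=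
  (Q.m X w - P.m X w) / (P.mix Q q).m X w

/-- the bilinear form of the doubling path -/
def dbl (P Q : FP Om) {κ ι : Type*} (X : Om → κ) (Y : Om → ι) (q : ℝ) : ℝ :=
  (P.mix Q q).E (fun w => dd P Q q X w * dd P Q q Y w)

end

section

variable {P Q : FP Om} {κ ι α : Type*}

theorem mix_p {q : ℝ} (h0 : 0 ≤ q) (h1 : q ≤ 1) (w : Om) :
    (P.mix Q q).p w = (1 - q) * P.p w + q * Q.p w := by
  unfold FP.mix
  rw [dif_pos ⟨h0, h1⟩]

theorem mix_E {q : ℝ} (h0 : 0 ≤ q) (h1 : q ≤ 1) (f : Om → ℝ) :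
    (P.mix Q q).E f = (1 - q) * P.E f + q * Q.E f := by
  unfold FP.E
  rw [Finset.mul_sum, Finset.mul_sum, ← Finset.sum_add_distrib]
  refine Finset.sum_congr rfl (fun w _ => ?_)
  rw [mix_p h0 h1]
  ring

theorem mix_m {q : ℝ} (h0 : 0 ≤ q) (h1 : q ≤ 1) (X : Om → κ) (w : Om) :
    (P.mix Q q).m X w = (1 - q) * P.m X w + q * Q.m X w := mix_E h0 h1 _

theorem mix_one : (P.mix Q 1).p = Q.p := by
  funext w
  rw [mix_p zero_le_one le_rfl]
  ring

theorem mix_zero : (P.mix Q 0).p = P.p := by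
  funext w
  rw [mix_p le_rfl zero_le_one]
  ring

theorem FP_ext {P Q : FP Om} (h : P.p = Q.p) : P = Q := by
  cases P; cases Q; cases h; rfl

/-- **mixture lemma** -/
theorem I_mixture_le (s : Finset α) (lam : α → ℝ) (h0 : ∀ i ∈ s, 0 ≤ lam i) (mu : α → FP Om) (P : FP Om)
    (hP : ∀ w, P.p w = ∑ i ∈ s, lam i * (mu i).p w) (X : Om → κ) (Y : Om → ι) :
    P.I X Y (fun _ => ()) ≤ ∑ i ∈ s, lam i * ((mu i).I X Y (fun _ => ()) +
      P.E (fun w => (dn (mu i) P X w - 1) * (dn (mu i) P Y w - 1))) := by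
  rw [I_const]
  have h1 : ∀ f : Om → ℝ, P.E f = ∑ i ∈ s, lam i * (mu i).E f := by
    intro f
    unfold FP.E
    have : ∀ w, P.p w * f w = ∑ i ∈ s, lam i * ((mu i).p w * f w) := fun w => by
      rw [hP w, Finset.sum_mul]
      exact Finset.sum_congr rfl (fun i _ => by ring)
    rw [Finset.sum_congr rfl (fun w _ => this w), Finset.sum_comm]
    exact Finset.sum_congr rfl (fun i _ => by rw [Finset.mul_sum])
  rw [h1 (fun w => Real.log (P.m (fun w => (X w, Y w)) w / (P.m X w * P.m Y w)))]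
  refine Finset.sum_le_sum (fun i hi => ?_)
  rcases eq_or_lt_of_le (h0 i hi) with h | h
  · rw [← h, zero_mul, zero_mul]
  · refine mul_le_mul_of_nonneg_left ?_ h.le
    have hac : (mu i).AC P := by
      intro w hw hp
      rw [hP w] at hp
      have h2 := (Finset.sum_eq_zero_iff_of_nonneg
        (fun j hj => mul_nonneg (h0 j hj) ((mu j).nn w))).1 hp i hi
      rcases mul_eq_zero.1 h2 with h3 | h3
      · exact h.ne' h3
      · exact hw h3
    rw [E_iota hac X Y]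
    have h3 := cell_ineq_weak hac X Y
    linarith

/-- the mixture lemma for two laws -/
theorem I_mixture2_le {P P₁ P₂ : FP Om} {l : ℝ} (h0 : 0 ≤ l) (h1 : l ≤ 1)
    (hP : ∀ w, P.p w = l * P₁.p w + (1 - l) * P₂.p w) (X : Om → κ) (Y : Om → ι) :
    P.I X Y (fun _ => ()) ≤ l * P₁.I X Y (fun _ => ()) + (1 - l) * P₂.I X Y (fun _ => ()) +
      (l * P.E (fun w => (dn P₁ P X w - 1) * (dn P₁ P Y w - 1)) +
        (1 - l) * P.E (fun w => (dn P₂ P X w - 1) * (dn P₂ P Y w - 1))) := by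
  have h := I_mixture_le (Finset.univ : Finset Bool) (fun b => if b then l else 1 - l)
    (fun b _ => by cases b <;> simp <;> linarith) (fun b => if b then P₁ else P₂) P
    (fun w => by rw [hP w]; simp) X Y
  simp only [Fintype.sum_bool, if_true, Bool.false_eq_true, if_false] at h
  linarith

theorem dn_mix_right {q : ℝ} (h0 : 0 ≤ q) (h1 : q ≤ 1) (X : Om → κ) {w : Om} (hw : (P.mix Q q).p w ≠ 0) :
    dn Q (P.mix Q q) X w - 1 = (1 - q) * dd P Q q X w := by
  have hm := ((P.mix Q q).m_pos X hw).ne'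
  unfold dn dd
  rw [div_sub_one hm, mul_div_assoc']
  congr 1
  rw [mix_m h0 h1]; ring

theorem dn_mix_left {q : ℝ} (h0 : 0 ≤ q) (h1 : q ≤ 1) (X : Om → κ) {w : Om} (hw : (P.mix Q q).p w ≠ 0) :
    dn P (P.mix Q q) X w - 1 = - (q * dd P Q q X w) := by
  have hm := ((P.mix Q q).m_pos X hw).ne'
  unfold dn dd
  rw [div_sub_one hm, mul_div_assoc', ← neg_div]
  congr 1
  rw [mix_m h0 h1]; ring

theorem dn_mix_two {q : ℝ} (h0 : 0 ≤ q) (h1 : 2 * q ≤ 1) (X : Om → κ) {w : Om} (hw : (P.mix Q q).p w ≠ 0) :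
    dn (P.mix Q (2 * q)) (P.mix Q q) X w - 1 = q * dd P Q q X w := by
  have hm := ((P.mix Q q).m_pos X hw).ne'
  have h1' : q ≤ 1 := by linarith
  have h02 : 0 ≤ 2 * q := by linarith
  unfold dn dd
  rw [div_sub_one hm, mul_div_assoc']
  congr 1
  rw [mix_m h0 h1', mix_m h02 h1]; ring

/-- the last step: `I_q <= q I_1 + (1-q) I_0 + q (1-q) dbl q` -/
theorem dbl_last {q : ℝ} (h0 : 0 ≤ q) (h1 : q ≤ 1) (X : Om → κ) (Y : Om → ι) :
    (P.mix Q q).I X Y (fun _ => ()) ≤ q * Q.I X Y (fun _ => ()) + (1 - q) * P.I X Y (fun _ => ()) +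
      q * (1 - q) * dbl P Q X Y q := by
  have h := I_mixture2_le (P := P.mix Q q) (P₁ := Q) (P₂ := P) h0 h1
    (fun w => by rw [mix_p h0 h1]; ring) X Y
  have e3 : (P.mix Q q).E (fun w => (dn Q (P.mix Q q) X w - 1) * (dn Q (P.mix Q q) Y w - 1)) =
      (1 - q) ^ 2 * dbl P Q X Y q := by
    unfold dbl
    rw [← FP.E_smul]
    refine FP.E_congr _ (fun w hw => ?_)
    rw [dn_mix_right h0 h1 X hw, dn_mix_right h0 h1 Y hw]; ring
  have e4 : (P.mix Q q).E (fun w => (dn P (P.mix Q q) X w - 1) * (dn P (P.mix Q q) Y w - 1)) =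
      q ^ 2 * dbl P Q X Y q := by
    unfold dbl
    rw [← FP.E_smul]
    refine FP.E_congr _ (fun w hw => ?_)
    rw [dn_mix_left h0 h1 X hw, dn_mix_left h0 h1 Y hw]; ring
  rw [e3, e4] at h
  have e5 : q * ((1 - q) ^ 2 * dbl P Q X Y q) + (1 - q) * (q ^ 2 * dbl P Q X Y q) =
      q * (1 - q) * dbl P Q X Y q := by ring
  linarith

/-- the doubling step: `I_q <= (I_(2q) + I_0)/2 + q^2 dbl q` -/
theorem dbl_step {q : ℝ} (h0 : 0 ≤ q) (h1 : 2 * q ≤ 1) (X : Om → κ) (Y : Om → ι) :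
    (P.mix Q q).I X Y (fun _ => ()) ≤ (P.mix Q (2 * q)).I X Y (fun _ => ()) / 2 +
      P.I X Y (fun _ => ()) / 2 + q ^ 2 * dbl P Q X Y q := by
  have h1' : q ≤ 1 := by linarith
  have h02 : 0 ≤ 2 * q := by linarith
  have h := I_mixture2_le (P := P.mix Q q) (P₁ := P.mix Q (2 * q)) (P₂ := P) (l := 1 / 2)
    (by norm_num) (by norm_num)
    (fun w => by rw [mix_p h0 h1', mix_p h02 h1]; ring) X Y
  have e3 : (P.mix Q q).E (fun w => (dn (P.mix Q (2 * q)) (P.mix Q q) X w - 1) *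
      (dn (P.mix Q (2 * q)) (P.mix Q q) Y w - 1)) = q ^ 2 * dbl P Q X Y q := by
    unfold dbl
    rw [← FP.E_smul]
    refine FP.E_congr _ (fun w hw => ?_)
    rw [dn_mix_two h0 h1 X hw, dn_mix_two h0 h1 Y hw]; ring
  have e4 : (P.mix Q q).E (fun w => (dn P (P.mix Q q) X w - 1) * (dn P (P.mix Q q) Y w - 1)) =
      q ^ 2 * dbl P Q X Y q := by
    unfold dbl
    rw [← FP.E_smul]
    refine FP.E_congr _ (fun w hw => ?_)
    rw [dn_mix_left h0 h1' X hw, dn_mix_left h0 h1' Y hw]; ring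
  rw [e3, e4] at h
  linarith

/-- **the doubling path** -/
theorem dbl_path (X : Om → κ) (Y : Om → ι) (K : ℕ) {p : ℝ} (h0 : 0 ≤ p) (h1 : 2 ^ K * p ≤ 1) :
    (P.mix Q p).I X Y (fun _ => ()) ≤ p * Q.I X Y (fun _ => ()) + (1 - p) * P.I X Y (fun _ => ()) +
      p * (∑ k ∈ Finset.range K, (2 ^ k * p) * dbl P Q X Y (2 ^ k * p) +
        (1 - 2 ^ K * p) * dbl P Q X Y (2 ^ K * p)) := by
  induction K generalizing p with
  | zero =>
    simp only [pow_zero, one_mul, Finset.range_zero, Finset.sum_empty, zero_add] at h1 ⊢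
    have h := dbl_last (P := P) (Q := Q) h0 h1 X Y
    linarith
  | succ K ih =>
    have h2 : 2 ^ K * (2 * p) ≤ 1 := by rw [pow_succ] at h1; linarith
    have hK : (1 : ℝ) ≤ 2 ^ K := one_le_pow₀ (by norm_num)
    have h3 : 2 * p ≤ 1 := by nlinarith
    have hs := dbl_step (P := P) (Q := Q) h0 h3 X Y
    have hi := ih (p := 2 * p) (by linarith) h2
    rw [Finset.sum_range_succ' (fun k => (2 ^ k * p) * dbl P Q X Y (2 ^ k * p)) K]
    have e1 : ∑ k ∈ Finset.range K, (2 ^ (k + 1) * p) * dbl P Q X Y (2 ^ (k + 1) * p) =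
        ∑ k ∈ Finset.range K, (2 ^ k * (2 * p)) * dbl P Q X Y (2 ^ k * (2 * p)) := by
      refine Finset.sum_congr rfl (fun k _ => ?_)
      rw [show (2 : ℝ) ^ (k + 1) * p = 2 ^ k * (2 * p) by ring]
    have e2 : (2 : ℝ) ^ (K + 1) * p = 2 ^ K * (2 * p) := by ring
    rw [e1, e2, pow_zero, one_mul]
    set S := ∑ k ∈ Finset.range K, (2 ^ k * (2 * p)) * dbl P Q X Y (2 ^ k * (2 * p)) with hS
    set D := dbl P Q X Y (2 ^ K * (2 * p)) with hD
    have e3 : p * (S + p * dbl P Q X Y p + (1 - 2 ^ K * (2 * p)) * D) =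
      (2 * p) * (S + (1 - 2 ^ K * (2 * p)) * D) / 2 + p ^ 2 * dbl P Q X Y p := by ring
    rw [e3]
    linarith

theorem cnd_m_pair (P : FP Om) {U V : Om → Prop} (hV : 0 < P.Pr V) {w : Om} (hVU : ∀ v, (U v = U w) ↔ V v)
    (Z : Om → κ) : (P.cnd V hV).m Z w = P.m (fun v => (Z v, U v)) w / P.Pr V := by
  unfold FP.m
  rw [cnd_E]
  congr 1
  refine P.E_congr (fun v _ => ?_)
  rw [← ind_and]
  congr 1
  rw [Prod.mk.injEq, hVU v]
  exact propext and_comm

theorem m_triple (P : FP Om) (U : Om → Prop) (Z : Om → κ) (Z' : Om → ι) (w : Om) :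
    P.m (fun v => ((Z v, Z' v), U v)) w = P.m (fun v => (Z v, Z' v, U v)) w := by
  unfold FP.m
  refine P.E_congr (fun v _ => ?_)
  congr 1
  simp only [Prod.mk.injEq, and_assoc]

theorem log_cnd (P : FP Om) {U V : Om → Prop} (hV : 0 < P.Pr V) {w : Om} (hw : P.p w ≠ 0)
    (hVU : ∀ v, (U v = U w) ↔ V v) (X : Om → κ) (Y : Om → ι) :
    Real.log ((P.cnd V hV).m (fun w => (X w, Y w)) w / ((P.cnd V hV).m X w * (P.cnd V hV).m Y w)) =
      -Real.log (P.m (fun w => (X w, U w)) w) + -Real.log (P.m (fun w => (Y w, U w)) w) -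
        -Real.log (P.m (fun w => (X w, Y w, U w)) w) - -Real.log (P.m (fun w => U w) w) := by
  have mU : P.m (fun v => U v) w = P.Pr V := by
    unfold FP.m FP.Pr
    refine P.E_congr (fun v _ => ?_)
    rw [propext (hVU v)]
  rw [cnd_m_pair P hV hVU, cnd_m_pair P hV hVU X, cnd_m_pair P hV hVU Y, m_triple P U X Y, mU]
  have a := (P.m_pos (fun v => (X v, Y v, U v)) hw)
  have c := (P.m_pos (fun v => (X v, U v)) hw)
  have d := (P.m_pos (fun v => (Y v, U v)) hw)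
  rw [Real.log_div (div_pos a hV).ne' (mul_pos (div_pos c hV) (div_pos d hV)).ne',
    Real.log_mul (div_pos c hV).ne' (div_pos d hV).ne', Real.log_div a.ne' hV.ne',
    Real.log_div c.ne' hV.ne', Real.log_div d.ne' hV.ne']
  ring

/-- information given the indicator of an event -/
theorem I_event (P : FP Om) (U : Om → Prop) (h : 0 < P.Pr U) (h' : 0 < P.Pr (fun w => ¬ U w))
    (X : Om → κ) (Y : Om → ι) :
    P.I X Y (fun w => U w) = P.Pr U * (P.cnd U h).I X Y (fun _ => ()) +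
      P.Pr (fun w => ¬ U w) * (P.cnd (fun w => ¬ U w) h').I X Y (fun _ => ()) := by
  rw [I_const, I_const, Pr_mul_cnd_E, Pr_mul_cnd_E, ← FP.E_add]
  unfold FP.I FP.H
  rw [← FP.E_add, ← FP.E_sub, ← FP.E_sub]
  refine P.E_congr (fun w hw => ?_)
  by_cases hU : U w
  · rw [ind_of hU, ind_not (fun h => h hU), one_mul, zero_mul, add_zero]
    exact (log_cnd P (U := U) h hw (fun v => ⟨fun e => (iff_of_eq e).2 hU,
      fun e => propext ⟨fun _ => hU, fun _ => e⟩⟩) X Y).symm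
  · rw [ind_not hU, ind_of hU, zero_mul, one_mul, zero_add]
    exact (log_cnd P (U := U) h' hw (fun v => ⟨fun e hv => hU ((iff_of_eq e).1 hv),
      fun e => propext ⟨fun hv => absurd hv e, fun hv => absurd hv hU⟩⟩) X Y).symm

/-- a law is the mixture of its two conditional laws -/
theorem mix_cnd (P : FP Om) (U : Om → Prop) (h : 0 < P.Pr U) (h' : 0 < P.Pr (fun w => ¬ U w)) :
    (P.cnd (fun w => ¬ U w) h').mix (P.cnd U h) (P.Pr U) = P := by
  refine FP_ext (funext (fun w => ?_))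
  rw [mix_p (P.Pr_nonneg U) (P.Pr_le_one U)]
  have h1 : 1 - P.Pr U = P.Pr (fun w => ¬ U w) := (P.Pr_not U).symm
  rw [h1]
  change P.Pr (fun w => ¬ U w) * (P.p w * ind (¬ U w) / P.Pr (fun w => ¬ U w)) +
    P.Pr U * (P.p w * ind (U w) / P.Pr U) = P.p w
  rw [mul_div_cancel₀ _ h'.ne', mul_div_cancel₀ _ h.ne']
  by_cases hU : U w
  · rw [ind_of hU, ind_not (fun h => h hU)]; ring
  · rw [ind_not hU, ind_of hU]; ring

/-- **redundancy of an event** -/
theorem red_event_le (P : FP Om) (U : Om → Prop) (h : 0 < P.Pr U) (h' : 0 < P.Pr (fun w => ¬ U w))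
    (X : Om → κ) (Y : Om → ι) (K : ℕ) (hK : 2 ^ K * P.Pr U ≤ 1) :
    P.I X Y (fun _ => ()) - P.I X Y (fun w => U w) ≤
      P.Pr U * (∑ k ∈ Finset.range K, (2 ^ k * P.Pr U) *
          dbl (P.cnd (fun w => ¬ U w) h') (P.cnd U h) X Y (2 ^ k * P.Pr U) +
        (1 - 2 ^ K * P.Pr U) * dbl (P.cnd (fun w => ¬ U w) h') (P.cnd U h) X Y (2 ^ K * P.Pr U)) := by
  have hp := dbl_path (P := P.cnd (fun w => ¬ U w) h') (Q := P.cnd U h) X Y K (P.Pr_nonneg U) hK
  rw [mix_cnd P U h h'] at hp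
  rw [I_event P U h h' X Y]
  have h1 : 1 - P.Pr U = P.Pr (fun w => ¬ U w) := (P.Pr_not U).symm
  rw [h1] at hp
  linarith

end

end Pool.Agent.M3
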