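import Pool.Agent.M3.FP

/-!
# M3.EndCount: the number of ends of type E (section 3, 3424 (2), 3429 (O4)), pointwise in the start and in `a`

`B`, `C` the two (independent) sides, times in a linear order, `hor` = horizon (nothing happens at or after `hor`).
`T b c` = public time T', `S b c` = own fall, `EB b`, `EC c`, `EA` = ends of type E.
Order of decisions at one time: first T', then the ends of type E, then the falls.
* `EndTF` : the epoch of `(b,c)` is ended by T' or by a fall; `EndB`, `EndA` : by `EB`, by `EA` (version without `EC`);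
* `endB_le`, `endA_le`, `endE_le` : `P(EndB) <= P(EndTF)/q`, `P(EndA) <= (P(EndTF) + P(EndB))/r` if
  `P_c(T' <= EB b) >= q` and `P_bc(T' <= EA or EB b <= EA) >= r`;
* version with `EC` (3424): `EndTF3`, `EndE3`, `endE3_le` : `P(EndE3) <= (3 / ((q - e) r)) P(EndTF3)`.
* form of helper26: `GG` = min(T,X) <= EB, EA, `GB`, `GA`: `gB_le`, `gA_le`, `gE_le`, `gg_exhaust`.
-/

set_option autoImplicit false
set_option linter.unusedSectionVars false
set_option linter.unusedVariables false

namespace Pool.Agent.M3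

open Finset Pool.Agent.PWZ

variable {B C TT : Type*} [Fintype B] [Fintype C] [LinearOrder TT]

/-- probability of a set of pairs -/
noncomputable def pr2 (PB : FP B) (PC : FP C) (s : B → C → Prop) : ℝ := PB.E (fun b => PC.Pr (s b))

section pr2

variable (PB : FP B) (PC : FP C)

theorem pr2_nonneg (s : B → C → Prop) : 0 ≤ pr2 PB PC s := PB.E_nonneg (fun b _ => PC.Pr_nonneg _)

theorem pr2_mono {s t : B → C → Prop} (h : ∀ b c, s b c → t b c) : pr2 PB PC s ≤ pr2 PB PC t :=
  PB.E_mono (fun b _ => PC.Pr_mono (fun c _ => h b c))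

theorem pr2_or_le (s t : B → C → Prop) :
    pr2 PB PC (fun b c => s b c ∨ t b c) ≤ pr2 PB PC s + pr2 PB PC t := by
  unfold pr2
  rw [← PB.E_add]
  exact PB.E_mono (fun b _ => PC.Pr_or_le _ _)

theorem pr2_le_one (s : B → C → Prop) : pr2 PB PC s ≤ 1 := PB.E_le_const (fun b _ => PC.Pr_le_one _)

theorem pr2_swap (s : B → C → Prop) : pr2 PB PC s = pr2 PC PB (fun c b => s b c) := by
  unfold pr2 FP.Pr
  exact PB.E_swap PC (fun b c => ind (s b c))

end pr2

/-! ## version without `EC` -/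

/-- ended by T' or by the own fall -/
def EndTF (T S : B → C → TT) (EB : B → TT) (EA hor : TT) (b : B) (c : C) : Prop :=
  (T b c < hor ∧ T b c ≤ S b c ∧ T b c ≤ EB b ∧ T b c ≤ EA) ∨
    (S b c < hor ∧ S b c < T b c ∧ S b c < EB b ∧ S b c < EA)

/-- ended by `EB` -/
def EndB (T S : B → C → TT) (EB : B → TT) (EA hor : TT) (b : B) (c : C) : Prop :=
  EB b < hor ∧ EB b < T b c ∧ EB b ≤ S b c ∧ EB b ≤ EA

/-- ended by `EA` -/
def EndA (T S : B → C → TT) (EB : B → TT) (EA hor : TT) (b : B) (c : C) : Prop :=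
  EA < hor ∧ EA < T b c ∧ EA ≤ S b c ∧ EA < EB b

theorem endTF_of (T S : B → C → TT) (EB : B → TT) (EA hor : TT) (b : B) (c : C)
    (h1 : T b c ≤ EB b) (h2 : EB b ≤ EA) (h3 : EB b < hor) : EndTF T S EB EA hor b c := by
  rcases lt_or_ge (S b c) (T b c) with h | h
  · exact Or.inr ⟨h.trans_le (h1.trans h3.le), h, h.trans_le h1, h.trans_le (h1.trans h2)⟩
  · exact Or.inl ⟨h1.trans_lt h3, h, h1, h1.trans h2⟩

theorem endTF_or_of (T S : B → C → TT) (EB : B → TT) (EA hor : TT) (b : B) (c : C)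
    (h1 : T b c ≤ EA ∨ EB b ≤ EA) (h3 : EA < hor) :
    EndTF T S EB EA hor b c ∨ EndB T S EB EA hor b c := by
  rcases lt_or_ge (EB b) (T b c) with h | h
  · have h2 : EB b ≤ EA := by
      rcases h1 with h1 | h1
      · exact h.le.trans h1
      · exact h1
    rcases lt_or_ge (S b c) (EB b) with h4 | h4
    · exact Or.inl (Or.inr ⟨h4.trans_le (h2.trans h3.le), h4.trans h, h4, h4.trans_le h2⟩)
    · exact Or.inr ⟨h2.trans_lt h3, h, h4, h2⟩
  · have h2 : T b c ≤ EA := by
      rcases h1 with h1 | h1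
      · exact h1
      · exact h.trans h1
    rcases lt_or_ge (S b c) (T b c) with h4 | h4
    · exact Or.inl (Or.inr ⟨h4.trans_le (h2.trans h3.le), h4, h4.trans_le h, h4.trans_le h2⟩)
    · exact Or.inl (Or.inl ⟨h2.trans_lt h3, h4, h, h2⟩)

/-- the exhaustion of the ends -/
theorem end_exhaust (T S : B → C → TT) (EB : B → TT) (EA hor : TT) (b : B) (c : C)
    (h : T b c < hor ∨ S b c < hor ∨ EB b < hor ∨ EA < hor) :
    EndTF T S EB EA hor b c ∨ EndB T S EB EA hor b c ∨ EndA T S EB EA hor b c := by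
  unfold EndTF EndB EndA
  rcases lt_or_ge (S b c) (T b c) with h1 | h1 <;> rcases lt_or_ge (S b c) (EB b) with h2 | h2 <;>
    rcases lt_or_ge (S b c) EA with h3 | h3 <;> rcases lt_or_ge (EB b) (T b c) with h4 | h4 <;>
    rcases lt_or_ge EA (T b c) with h5 | h5 <;> rcases lt_or_ge EA (EB b) with h6 | h6 <;>
    first
      | (left; right; refine ⟨?_, h1, h2, h3⟩; rcases h with h | h | h | h <;> order)
      | (right; left; refine ⟨?_, h4, ?_, ?_⟩ <;> first | order | (rcases h with h | h | h | h <;> order))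
      | (right; right; refine ⟨?_, h5, ?_, ?_⟩ <;> first | order | (rcases h with h | h | h | h <;> order))
      | (left; left; refine ⟨?_, ?_, ?_, ?_⟩ <;> first | order | (rcases h with h | h | h | h <;> order))

/-- COUNT, ends by `EB` -/
theorem endB_le (PB : FP B) (PC : FP C) (T S : B → C → TT) (EB : B → TT) (EA hor : TT) {q : ℝ}
    (hB : ∀ b, EB b < hor → EB b ≤ EA → q ≤ PC.Pr (fun c => T b c ≤ EB b)) (hq : 0 ≤ q) :
    q * pr2 PB PC (EndB T S EB EA hor) ≤ pr2 PB PC (EndTF T S EB EA hor) := by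
  unfold pr2
  rw [← PB.E_smul]
  refine PB.E_mono (fun b _ => ?_)
  by_cases h : EB b < hor ∧ EB b ≤ EA
  · calc q * PC.Pr (EndB T S EB EA hor b) ≤ q * 1 := mul_le_mul_of_nonneg_left (PC.Pr_le_one _) hq
      _ = q := mul_one q
      _ ≤ PC.Pr (fun c => T b c ≤ EB b) := hB b h.1 h.2
      _ ≤ _ := PC.Pr_mono (fun c _ hc => endTF_of T S EB EA hor b c hc h.2 h.1)
  · have : PC.Pr (EndB T S EB EA hor b) = 0 := by
      refine le_antisymm ?_ (PC.Pr_nonneg _)
      refine PC.E_le_const (fun c _ => ?_)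
      rw [ind_not (fun hn : EndB T S EB EA hor b c => h ⟨hn.1, hn.2.2.2⟩)]
    rw [this, mul_zero]
    exact PC.Pr_nonneg _

/-- COUNT, ends by `EA` -/
theorem endA_le (PB : FP B) (PC : FP C) (T S : B → C → TT) (EB : B → TT) (EA hor : TT) {r : ℝ}
    (hA : EA < hor → r ≤ pr2 PB PC (fun b c => T b c ≤ EA ∨ EB b ≤ EA)) (hr : 0 ≤ r) :
    r * pr2 PB PC (EndA T S EB EA hor) ≤
      pr2 PB PC (EndTF T S EB EA hor) + pr2 PB PC (EndB T S EB EA hor) := by
  by_cases h : EA < hor
  · calc r * pr2 PB PC (EndA T S EB EA hor) ≤ r * 1 :=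
          mul_le_mul_of_nonneg_left (pr2_le_one PB PC _) hr
      _ = r := mul_one r
      _ ≤ _ := hA h
      _ ≤ pr2 PB PC (fun b c => EndTF T S EB EA hor b c ∨ EndB T S EB EA hor b c) :=
          pr2_mono PB PC (fun b c hc => endTF_or_of T S EB EA hor b c hc h)
      _ ≤ _ := pr2_or_le PB PC _ _
  · have : pr2 PB PC (EndA T S EB EA hor) = 0 := by
      refine le_antisymm ?_ (pr2_nonneg PB PC _)
      refine PB.E_le_const (fun b _ => PC.E_le_const (fun c _ => ?_))
      rw [ind_not (fun hn : EndA T S EB EA hor b c => h hn.1)]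
    rw [this, mul_zero]
    exact add_nonneg (pr2_nonneg PB PC _) (pr2_nonneg PB PC _)

/-- COUNT, all ends of type E -/
theorem endE_le (PB : FP B) (PC : FP C) (T S : B → C → TT) (EB : B → TT) (EA hor : TT) {q r : ℝ}
    (hB : ∀ b, EB b < hor → EB b ≤ EA → q ≤ PC.Pr (fun c => T b c ≤ EB b))
    (hA : EA < hor → r ≤ pr2 PB PC (fun b c => T b c ≤ EA ∨ EB b ≤ EA)) (hq : 0 < q) (hq1 : q ≤ 1) (hr : 0 < r)
    (hr1 : r ≤ 1) :
    pr2 PB PC (fun b c => EndB T S EB EA hor b c ∨ EndA T S EB EA hor b c) ≤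
      3 / (q * r) * pr2 PB PC (EndTF T S EB EA hor) := by
  have h1 := endB_le PB PC T S EB EA hor hB hq.le
  have h2 := endA_le PB PC T S EB EA hor hA hr.le
  have h3 := pr2_or_le PB PC (EndB T S EB EA hor) (EndA T S EB EA hor)
  have h0 := pr2_nonneg PB PC (EndTF T S EB EA hor)
  have hb := pr2_nonneg PB PC (EndB T S EB EA hor)
  have ha := pr2_nonneg PB PC (EndA T S EB EA hor)
  generalize pr2 PB PC (EndTF T S EB EA hor) = x at *
  generalize pr2 PB PC (EndB T S EB EA hor) = y at *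
  generalize pr2 PB PC (EndA T S EB EA hor) = z at *
  rw [div_mul_eq_mul_div, le_div_iff₀ (mul_pos hq hr)]
  have h4 : (y + z) * (q * r) ≤ 3 * x := by
    have e1 : y * (q * r) ≤ x := by
      calc y * (q * r) = q * y * r := by ring
        _ ≤ x * 1 := mul_le_mul h1 hr1 hr.le h0
        _ = x := mul_one x
    have e2 : z * (q * r) ≤ q * x + q * y := by
      calc z * (q * r) = q * (r * z) := by ring
        _ ≤ q * (x + y) := mul_le_mul_of_nonneg_left h2 hq.le
        _ = _ := by ring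
    have e3 : q * x ≤ x := mul_le_of_le_one_left h0 hq1
    nlinarith
  exact (mul_le_mul_of_nonneg_right h3 (mul_pos hq hr).le).trans h4

/-! ## version with `EC` (3424) -/

/-- ended by T' or by the own fall -/
def EndTF3 (T S : B → C → TT) (EB : B → TT) (EC : C → TT) (EA hor : TT) (b : B) (c : C) : Prop :=
  (T b c < hor ∧ T b c ≤ S b c ∧ T b c ≤ EB b ∧ T b c ≤ EC c ∧ T b c ≤ EA) ∨
    (S b c < hor ∧ S b c < T b c ∧ S b c < EB b ∧ S b c < EC c ∧ S b c < EA)

/-- ended by `EB`, `EC` or `EA` -/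
def EndE3 (T S : B → C → TT) (EB : B → TT) (EC : C → TT) (EA hor : TT) (b : B) (c : C) : Prop :=
  ((EB b < hor ∧ EB b ≤ EA) ∨ (EC c < hor ∧ EC c ≤ EA) ∨ EA < hor)

/-- COUNT for 3424: the hypotheses are those of `E^B`, `E^C`, `E^A` -/
theorem endE3_le (PB : FP B) (PC : FP C) (T S : B → C → TT) (EB : B → TT) (EC : C → TT) (EA hor : TT)
    {q r e : ℝ}
    (hB : ∀ b, EB b < hor → EB b ≤ EA → q ≤ PC.Pr (fun c => T b c ≤ EB b))
    (hC : ∀ c, EC c < hor → EC c ≤ EA → q ≤ PB.Pr (fun b => T b c ≤ EC c))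
    (hBe : PB.Pr (fun b => EB b < hor ∧ EB b < EA) ≤ e) (hCe : PC.Pr (fun c => EC c < hor ∧ EC c < EA) ≤ e)
    (hA : EA < hor → r ≤ PB.Pr (fun b => EB b < hor ∧ EB b ≤ EA) ∨
      r ≤ PC.Pr (fun c => EC c < hor ∧ EC c ≤ EA))
    (he : 0 ≤ e) (hqe : e < q) (hq1 : q ≤ 1) (hr : 0 < r) (hr1 : r ≤ 1) :
    pr2 PB PC (EndE3 T S EB EC EA hor) ≤ 3 / ((q - e) * r) * pr2 PB PC (EndTF3 T S EB EC EA hor) := by
  have hq : 0 < q - e := by linarith
  set x := pr2 PB PC (EndTF3 T S EB EC EA hor) with hx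
  have h0 : 0 ≤ x := pr2_nonneg PB PC _
  -- the part of `EB`
  have key1 : (q - e) * PB.Pr (fun b => EB b < hor ∧ EB b ≤ EA) ≤ x := by
    rw [hx]
    unfold pr2
    unfold FP.Pr
    rw [← PB.E_smul]
    refine PB.E_mono (fun b _ => ?_)
    by_cases h : EB b < hor ∧ EB b ≤ EA
    · rw [ind_of h, mul_one]
      have h1 := hB b h.1 h.2
      have h2 : PC.Pr (fun c => T b c ≤ EB b) ≤
          PC.Pr (EndTF3 T S EB EC EA hor b) + PC.Pr (fun c => EC c < hor ∧ EC c < EA) := by
        refine le_trans (PC.Pr_mono (fun c _ hc => ?_)) (PC.Pr_or_le _ _)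
        rcases lt_or_ge (EC c) (T b c) with h5 | h5
        · exact Or.inr ⟨h5.trans_le (hc.trans h.1.le), h5.trans_le (hc.trans h.2)⟩
        · left
          rcases lt_or_ge (S b c) (T b c) with h6 | h6
          · exact Or.inr ⟨h6.trans_le (hc.trans h.1.le), h6, h6.trans_le hc, h6.trans_le h5,
              h6.trans_le (hc.trans h.2)⟩
          · exact Or.inl ⟨hc.trans_lt h.1, h6, hc, h5, hc.trans h.2⟩
      have h3 : PC.Pr (EndTF3 T S EB EC EA hor b) = PC.E (fun c => ind (EndTF3 T S EB EC EA hor b c)) := rfl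
      linarith
    · rw [ind_not h, mul_zero]
      exact PC.Pr_nonneg _
  have key2 : (q - e) * PC.Pr (fun c => EC c < hor ∧ EC c ≤ EA) ≤ x := by
    rw [hx, pr2_swap]
    unfold pr2
    unfold FP.Pr
    rw [← PC.E_smul]
    refine PC.E_mono (fun c _ => ?_)
    by_cases h : EC c < hor ∧ EC c ≤ EA
    · rw [ind_of h, mul_one]
      have h1 := hC c h.1 h.2
      have h2 : PB.Pr (fun b => T b c ≤ EC c) ≤
          PB.Pr (fun b => EndTF3 T S EB EC EA hor b c) + PB.Pr (fun b => EB b < hor ∧ EB b < EA) := by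
        refine le_trans (PB.Pr_mono (fun b _ hc => ?_)) (PB.Pr_or_le _ _)
        rcases lt_or_ge (EB b) (T b c) with h5 | h5
        · exact Or.inr ⟨h5.trans_le (hc.trans h.1.le), h5.trans_le (hc.trans h.2)⟩
        · left
          rcases lt_or_ge (S b c) (T b c) with h6 | h6
          · exact Or.inr ⟨h6.trans_le (hc.trans h.1.le), h6, h6.trans_le h5, h6.trans_le hc,
              h6.trans_le (hc.trans h.2)⟩
          · exact Or.inl ⟨hc.trans_lt h.1, h6, h5, hc, hc.trans h.2⟩
      have h3 : PB.Pr (fun b => EndTF3 T S EB EC EA hor b c) =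
          PB.E (fun b => ind (EndTF3 T S EB EC EA hor b c)) := rfl
      linarith
    · rw [ind_not h, mul_zero]
      exact PB.Pr_nonneg _
  -- the part of `EA`
  have key3 : (q - e) * r * ind (EA < hor) ≤ x := by
    by_cases h : EA < hor
    · rw [ind_of h, mul_one]
      rcases hA h with h1 | h1
      · exact (mul_le_mul_of_nonneg_left h1 hq.le).trans key1
      · exact (mul_le_mul_of_nonneg_left h1 hq.le).trans key2
    · rw [ind_not h, mul_zero]; exact h0
  have hsum : pr2 PB PC (EndE3 T S EB EC EA hor) ≤ PB.Pr (fun b => EB b < hor ∧ EB b ≤ EA) +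
      (PC.Pr (fun c => EC c < hor ∧ EC c ≤ EA) + ind (EA < hor)) := by
    have e1 : pr2 PB PC (EndE3 T S EB EC EA hor) ≤
        pr2 PB PC (fun b c => EB b < hor ∧ EB b ≤ EA) +
          (pr2 PB PC (fun b c => EC c < hor ∧ EC c ≤ EA) + pr2 PB PC (fun b c => EA < hor)) := by
      refine le_trans (pr2_or_le PB PC (fun b c => EB b < hor ∧ EB b ≤ EA)
        (fun b c => (EC c < hor ∧ EC c ≤ EA) ∨ EA < hor)) ?_
      exact add_le_add le_rfl (pr2_or_le PB PC _ _)
    have e2 : pr2 PB PC (fun b c => EB b < hor ∧ EB b ≤ EA) = PB.Pr (fun b => EB b < hor ∧ EB b ≤ EA) := by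
      unfold pr2 FP.Pr
      exact PB.E_congr (fun b _ => PC.E_const _)
    have e3 : pr2 PB PC (fun b c => EC c < hor ∧ EC c ≤ EA) = PC.Pr (fun c => EC c < hor ∧ EC c ≤ EA) := by
      unfold pr2
      exact PB.E_const _
    have e4 : pr2 PB PC (fun b c => EA < hor) = ind (EA < hor) := by
      unfold pr2 FP.Pr
      rw [PB.E_const, PC.E_const]
    rw [e2, e3, e4] at e1
    exact e1
  rw [div_mul_eq_mul_div, le_div_iff₀ (mul_pos hq hr)]
  generalize PB.Pr (fun b => EB b < hor ∧ EB b ≤ EA) = u at *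
  generalize PC.Pr (fun c => EC c < hor ∧ EC c ≤ EA) = v at *
  generalize ind (EA < hor) = z at *
  generalize pr2 PB PC (EndE3 T S EB EC EA hor) = y at *
  have hqr := mul_pos hq hr
  have h1 : y * ((q - e) * r) ≤ (u + (v + z)) * ((q - e) * r) := mul_le_mul_of_nonneg_right hsum hqr.le
  have h2 : u * ((q - e) * r) ≤ x := by
    calc u * ((q - e) * r) = (q - e) * u * r := by ring
      _ ≤ x * 1 := mul_le_mul key1 hr1 hr.le h0
      _ = x := mul_one x
  have h3 : v * ((q - e) * r) ≤ x := by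
    calc v * ((q - e) * r) = (q - e) * v * r := by ring
      _ ≤ x * 1 := mul_le_mul key2 hr1 hr.le h0
      _ = x := mul_one x
  nlinarith

/-! ## the form of helper26 (sub-epochs in the analysis, falls `X` at the time of an end of type E are counted as falls) -/

/-- ended by T' or by a fall, not later than the ends of type E -/
def GG (T X : B → C → TT) (EB : B → TT) (EA hor : TT) (b : B) (c : C) : Prop :=
  min (T b c) (X b c) ≤ min (EB b) EA ∧ min (T b c) (X b c) < hor

/-- ended by `EB` -/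
def GB (T X : B → C → TT) (EB : B → TT) (EA hor : TT) (b : B) (c : C) : Prop :=
  EB b < hor ∧ EB b < T b c ∧ EB b < X b c ∧ EB b ≤ EA

/-- ended by `EA` -/
def GA (T X : B → C → TT) (EB : B → TT) (EA hor : TT) (b : B) (c : C) : Prop :=
  EA < hor ∧ EA < T b c ∧ EA < X b c ∧ EA < EB b

/-- every pair whose sub-epoch ends before `hor` is in one of the three sets -/
theorem gg_exhaust (T X : B → C → TT) (EB : B → TT) (EA hor : TT) (b : B) (c : C)
    (h : min (min (T b c) (X b c)) (min (EB b) EA) < hor) :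
    GG T X EB EA hor b c ∨ GB T X EB EA hor b c ∨ GA T X EB EA hor b c := by
  rcases le_or_gt (min (T b c) (X b c)) (min (EB b) EA) with h1 | h1
  · left
    refine ⟨h1, ?_⟩
    rwa [min_eq_left h1] at h
  · right
    rw [min_eq_right h1.le] at h
    rcases le_or_gt (EB b) EA with h2 | h2
    · left
      rw [min_eq_left h2] at h h1
      exact ⟨h, h1.trans_le (min_le_left _ _), h1.trans_le (min_le_right _ _), h2⟩
    · right
      rw [min_eq_right h2.le] at h h1
      exact ⟨h, h1.trans_le (min_le_left _ _), h1.trans_le (min_le_right _ _), h2⟩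

theorem gB_le (PB : FP B) (PC : FP C) (T X : B → C → TT) (EB : B → TT) (EA hor : TT) {q : ℝ}
    (hB : ∀ b, EB b < hor → EB b ≤ EA → q ≤ PC.Pr (fun c => T b c ≤ EB b)) (hq : 0 ≤ q) :
    q * pr2 PB PC (GB T X EB EA hor) ≤ pr2 PB PC (GG T X EB EA hor) := by
  unfold pr2
  rw [← PB.E_smul]
  refine PB.E_mono (fun b _ => ?_)
  by_cases h : EB b < hor ∧ EB b ≤ EA
  · calc q * PC.Pr (GB T X EB EA hor b) ≤ q * 1 := mul_le_mul_of_nonneg_left (PC.Pr_le_one _) hq
      _ = q := mul_one q
      _ ≤ PC.Pr (fun c => T b c ≤ EB b) := hB b h.1 h.2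
      _ ≤ _ := PC.Pr_mono (fun c _ hc => ⟨(min_le_left _ _).trans (le_min hc (hc.trans h.2)),
          (min_le_left _ _).trans_lt (hc.trans_lt h.1)⟩)
  · have : PC.Pr (GB T X EB EA hor b) = 0 := by
      refine le_antisymm ?_ (PC.Pr_nonneg _)
      refine PC.E_le_const (fun c _ => ?_)
      rw [ind_not (fun hn : GB T X EB EA hor b c => h ⟨hn.1, hn.2.2.2⟩)]
    rw [this, mul_zero]
    exact PC.Pr_nonneg _

theorem gA_le (PB : FP B) (PC : FP C) (T X : B → C → TT) (EB : B → TT) (EA hor : TT) {r : ℝ}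
    (hA : EA < hor → r ≤ pr2 PB PC (fun b c => T b c ≤ EA ∨ EB b ≤ EA)) (hr : 0 ≤ r) :
    r * pr2 PB PC (GA T X EB EA hor) ≤
      pr2 PB PC (GG T X EB EA hor) + pr2 PB PC (GB T X EB EA hor) := by
  by_cases h : EA < hor
  · calc r * pr2 PB PC (GA T X EB EA hor) ≤ r * 1 :=
          mul_le_mul_of_nonneg_left (pr2_le_one PB PC _) hr
      _ = r := mul_one r
      _ ≤ _ := hA h
      _ ≤ pr2 PB PC (fun b c => GG T X EB EA hor b c ∨ GB T X EB EA hor b c) := by
          refine pr2_mono PB PC (fun b c hc => ?_)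
          rcases le_or_gt (min (T b c) (X b c)) (min (EB b) EA) with h1 | h1
          · left
            exact ⟨h1, h1.trans_lt ((min_le_right _ _).trans_lt h)⟩
          · right
            rcases le_or_gt (EB b) EA with h2 | h2
            · rw [min_eq_left h2] at h1
              exact ⟨h2.trans_lt h, h1.trans_le (min_le_left _ _), h1.trans_le (min_le_right _ _), h2⟩
            · exfalso
              rw [min_eq_right h2.le] at h1
              rcases hc with hc | hc
              · exact absurd ((min_le_left (T b c) (X b c)).trans hc) (not_le.2 h1)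
              · exact absurd hc (not_le.2 h2)
      _ ≤ _ := pr2_or_le PB PC _ _
  · have : pr2 PB PC (GA T X EB EA hor) = 0 := by
      refine le_antisymm ?_ (pr2_nonneg PB PC _)
      refine PB.E_le_const (fun b _ => PC.E_le_const (fun c _ => ?_))
      rw [ind_not (fun hn : GA T X EB EA hor b c => h hn.1)]
    rw [this, mul_zero]
    exact add_nonneg (pr2_nonneg PB PC _) (pr2_nonneg PB PC _)

/-- COUNT of helper26: `q`, `1/4` -/
theorem gE_le (PB : FP B) (PC : FP C) (T X : B → C → TT) (EB : B → TT) (EA hor : TT) {q r : ℝ}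
    (hB : ∀ b, EB b < hor → EB b ≤ EA → q ≤ PC.Pr (fun c => T b c ≤ EB b))
    (hA : EA < hor → r ≤ pr2 PB PC (fun b c => T b c ≤ EA ∨ EB b ≤ EA)) (hq : 0 < q) (hq1 : q ≤ 1) (hr : 0 < r)
    (hr1 : r ≤ 1) :
    pr2 PB PC (fun b c => GB T X EB EA hor b c ∨ GA T X EB EA hor b c) ≤
      3 / (q * r) * pr2 PB PC (GG T X EB EA hor) := by
  have h1 := gB_le PB PC T X EB EA hor hB hq.le
  have h2 := gA_le PB PC T X EB EA hor hA hr.le
  have h3 := pr2_or_le PB PC (GB T X EB EA hor) (GA T X EB EA hor)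
  have h0 := pr2_nonneg PB PC (GG T X EB EA hor)
  generalize pr2 PB PC (GG T X EB EA hor) = x at *
  generalize pr2 PB PC (GB T X EB EA hor) = y at *
  generalize pr2 PB PC (GA T X EB EA hor) = z at *
  rw [div_mul_eq_mul_div, le_div_iff₀ (mul_pos hq hr)]
  have h4 : (y + z) * (q * r) ≤ 3 * x := by
    have e1 : y * (q * r) ≤ x := by
      calc y * (q * r) = q * y * r := by ring
        _ ≤ x * 1 := mul_le_mul h1 hr1 hr.le h0
        _ = x := mul_one x
    have e2 : z * (q * r) ≤ q * x + q * y := by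
      calc z * (q * r) = q * (r * z) := by ring
        _ ≤ q * (x + y) := mul_le_mul_of_nonneg_left h2 hq.le
        _ = _ := by ring
    have e3 : q * x ≤ x := mul_le_of_le_one_left h0 hq1
    nlinarith
  exact (mul_le_mul_of_nonneg_right h3 (mul_pos hq hr).le).trans h4

end Pool.Agent.M3
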