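import Pool.Agent.M3.FPInfo

/-!
# M3.FallG: saturation inside an epoch and gain of a fall (row 3.7), kernel form

`k : X → β → Φ → ℝ` a kernel (label law of the owner `b` at the point `x`), classes = `Finset X`, `W : FP β` the law of
the owner.  `kav k S b F` = average of `k x b F` over `x ∈ S`; `kkl k S R b` = relative entropy of the averages.

* `kkl_base_le`, `kkl_base_ge` : change of the base class `R` to `om ⊆ R`, `|om| ≥ (1 - e) |R|`;
* `sat_inside` : from the bound for rare sets (old labels, base `R`) and for the other sets (current labels, base `om`);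
* `fall_gain` : every nonempty `v` in a removed piece has a large relative entropy also for `om` and the current labels;
* `sat_inside'`, `fall_gain'` : the same for rule v2 (note 3445, argmin removal: main block `M`).
-/

set_option autoImplicit false
set_option linter.unusedSectionVars false

namespace Pool.Agent.M3

open Finset

variable {X β Φ : Type*} [Fintype β] [Fintype Φ]

noncomputable section

/-- average law of the label of `b` over the class `S` -/
def kav (k : X → β → Φ → ℝ) (S : Finset X) (b : β) (F : Φ) : ℝ := (∑ x ∈ S, k x b F) / S.card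

/-- relative entropy of the average laws of two classes -/
def kkl (k : X → β → Φ → ℝ) (S R : Finset X) (b : β) : ℝ :=
  ∑ F, kav k S b F * Real.log (kav k S b F / kav k R b F)

/-- `k` is a kernel on the class `R`, bounded below by `al` -/
structure Ker (k : X → β → Φ → ℝ) (R : Finset X) (al : ℝ) : Prop where
  pos : 0 < al
  low : ∀ x ∈ R, ∀ b F, al ≤ k x b F
  tot : ∀ x ∈ R, ∀ b, ∑ F, k x b F = 1

end

section

variable {k : X → β → Φ → ℝ} {R S om : Finset X} {al : ℝ}

theorem Ker.mono (h : Ker k R al) (hS : S ⊆ R) : Ker k S al :=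
  ⟨h.pos, fun x hx => h.low x (hS hx), fun x hx => h.tot x (hS hx)⟩

theorem Ker.kav_low (h : Ker k R al) (hR : R.Nonempty) (b : β) (F : Φ) : al ≤ kav k R b F := by
  have hc : (0 : ℝ) < R.card := by exact_mod_cast hR.card_pos
  unfold kav
  rw [le_div_iff₀ hc]
  calc al * R.card = ∑ _x ∈ R, al := by rw [Finset.sum_const, nsmul_eq_mul]; ring
    _ ≤ ∑ x ∈ R, k x b F := Finset.sum_le_sum (fun x hx => h.low x hx b F)

theorem Ker.kav_pos (h : Ker k R al) (hR : R.Nonempty) (b : β) (F : Φ) : 0 < kav k R b F :=
  lt_of_lt_of_le h.pos (h.kav_low hR b F)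

theorem Ker.kav_tot (h : Ker k R al) (hR : R.Nonempty) (b : β) : ∑ F, kav k R b F = 1 := by
  have hc : (0 : ℝ) < R.card := by exact_mod_cast hR.card_pos
  unfold kav
  rw [← Finset.sum_div, Finset.sum_comm, Finset.sum_congr rfl (fun x hx => h.tot x hx b), Finset.sum_const,
    nsmul_eq_mul, mul_one, div_self hc.ne']

theorem Ker.kav_le_one (h : Ker k R al) (hR : R.Nonempty) (b : β) (F : Φ) : kav k R b F ≤ 1 := by
  rw [← h.kav_tot hR b]
  exact Finset.single_le_sum (f := fun F => kav k R b F) (fun F _ => (h.kav_pos hR b F).le) (Finset.mem_univ F)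

theorem Ker.al_le_one (h : Ker k R al) (hR : R.Nonempty) (b : β) (F : Φ) : al ≤ 1 :=
  (h.kav_low hR b F).trans (h.kav_le_one hR b F)

/-- Gibbs -/
theorem kkl_nonneg (h : Ker k R al) (hR : R.Nonempty) (h' : Ker k S al) (hS : S.Nonempty) (b : β) :
    0 ≤ kkl k S R b := by
  have h1 : ∀ F, kav k S b F - kav k R b F ≤ kav k S b F * Real.log (kav k S b F / kav k R b F) := by
    intro F
    have p := h'.kav_pos hS b F
    have q := h.kav_pos hR b F
    have h2 := Real.log_le_sub_one_of_pos (x := kav k R b F / kav k S b F) (by positivity)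
    have h3 : Real.log (kav k S b F / kav k R b F) = - Real.log (kav k R b F / kav k S b F) := by
      rw [← Real.log_inv, inv_div]
    rw [h3]
    have h4 : kav k S b F * (kav k R b F / kav k S b F) = kav k R b F := by field_simp
    nlinarith
  have h2 := Finset.sum_le_sum (s := (Finset.univ : Finset Φ)) (fun F _ => h1 F)
  rw [Finset.sum_sub_distrib, h.kav_tot hR b, h'.kav_tot hS b, sub_self] at h2
  exact h2

/-- upper bound by thickness -/
theorem kkl_le (h : Ker k R al) (hR : R.Nonempty) (h' : Ker k S al) (hS : S.Nonempty) (b : β) :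
    kkl k S R b ≤ Real.log (1 / al) := by
  have h1 : kkl k S R b ≤ ∑ F, kav k S b F * Real.log (1 / al) := by
    refine Finset.sum_le_sum (fun F _ => ?_)
    have p := h'.kav_pos hS b F
    have q := h.kav_pos hR b F
    refine mul_le_mul_of_nonneg_left (Real.log_le_log (by positivity) ?_) p.le
    exact div_le_div₀ zero_le_one (h'.kav_le_one hS b F) h.pos (h.kav_low hR b F)
  rw [← Finset.sum_mul, h'.kav_tot hS b, one_mul] at h1
  exact h1

/-- the averages of a class and of a large subclass: lower bound -/
theorem kav_ge_of_sub [DecidableEq X] (h : Ker k R al) (hom : om ⊆ R) (hne : om.Nonempty) {e : ℝ}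
    (hc : (1 - e) * R.card ≤ om.card) (b : β) (F : Φ) : (1 - e) * kav k om b F ≤ kav k R b F := by
  have hR : R.Nonempty := hne.mono hom
  have c1 : (0 : ℝ) < R.card := by exact_mod_cast hR.card_pos
  have c2 : (0 : ℝ) < om.card := by exact_mod_cast hne.card_pos
  have h1 : ∑ x ∈ om, k x b F ≤ ∑ x ∈ R, k x b F :=
    Finset.sum_le_sum_of_subset_of_nonneg hom (fun x hx _ => h.pos.le.trans (h.low x hx b F))
  have h0 : 0 ≤ ∑ x ∈ om, k x b F :=
    Finset.sum_nonneg (fun x hx => h.pos.le.trans (h.low x (hom hx) b F))
  unfold kav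
  rw [← mul_div_assoc, div_le_div_iff₀ c2 c1]
  calc (1 - e) * (∑ x ∈ om, k x b F) * R.card = ((1 - e) * R.card) * ∑ x ∈ om, k x b F := by ring
    _ ≤ om.card * ∑ x ∈ om, k x b F := mul_le_mul_of_nonneg_right hc h0
    _ ≤ om.card * ∑ x ∈ R, k x b F := mul_le_mul_of_nonneg_left h1 c2.le
    _ = (∑ x ∈ R, k x b F) * om.card := by ring

/-- the averages of a class and of a large subclass: upper bound -/
theorem kav_le_of_sub [DecidableEq X] (h : Ker k R al) (hom : om ⊆ R) (hne : om.Nonempty) {e : ℝ} (he : 0 ≤ e)
    (hc : (1 - e) * R.card ≤ om.card) (b : β) (F : Φ) :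
    kav k R b F ≤ (1 + e / al) * kav k om b F := by
  have hR : R.Nonempty := hne.mono hom
  have c1 : (0 : ℝ) < R.card := by exact_mod_cast hR.card_pos
  have c2 : (0 : ℝ) < om.card := by exact_mod_cast hne.card_pos
  have hle1 : ∀ x ∈ R, k x b F ≤ 1 := fun x hx => by
    rw [← h.tot x hx b]
    exact Finset.single_le_sum (f := fun F => k x b F) (fun F _ => h.pos.le.trans (h.low x hx b F))
      (Finset.mem_univ F)
  have hcc : (om.card : ℝ) ≤ R.card := by exact_mod_cast Finset.card_le_card hom
  have h1 : ∑ x ∈ R, k x b F ≤ ∑ x ∈ om, k x b F + e * R.card := by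
    rw [← Finset.sum_sdiff hom]
    have h2 : ∑ x ∈ R \ om, k x b F ≤ ∑ _x ∈ R \ om, (1 : ℝ) :=
      Finset.sum_le_sum (fun x hx => hle1 x (Finset.mem_sdiff.1 hx).1)
    rw [Finset.sum_const, nsmul_eq_mul, mul_one] at h2
    have h3 : ((R \ om).card : ℝ) = R.card - om.card := by
      rw [Finset.card_sdiff_of_subset hom, Nat.cast_sub (Finset.card_le_card hom)]
    rw [h3] at h2
    linarith
  have hlow := (h.mono hom).kav_low hne b F
  have h0 : 0 ≤ ∑ x ∈ om, k x b F :=
    Finset.sum_nonneg (fun x hx => h.pos.le.trans (h.low x (hom hx) b F))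
  have h4 : kav k R b F ≤ kav k om b F + e := by
    unfold kav
    rw [div_add' _ _ _ c2.ne', div_le_div_iff₀ c1 c2]
    calc (∑ x ∈ R, k x b F) * om.card ≤ (∑ x ∈ om, k x b F + e * R.card) * om.card :=
          mul_le_mul_of_nonneg_right h1 c2.le
      _ = (∑ x ∈ om, k x b F) * om.card + e * om.card * R.card := by ring
      _ ≤ (∑ x ∈ om, k x b F) * R.card + e * om.card * R.card := by
          have := mul_le_mul_of_nonneg_left hcc h0
          linarith
      _ = (∑ x ∈ om, k x b F + e * om.card) * R.card := by ring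
  have h5 : e ≤ e / al * kav k om b F := by
    rw [div_mul_eq_mul_div, le_div_iff₀ h.pos]
    exact mul_le_mul_of_nonneg_left hlow he
  linarith

/-- change of the base class, upper bound -/
theorem kkl_base_le [DecidableEq X] (h : Ker k R al) (hom : om ⊆ R) (hne : om.Nonempty) {e : ℝ} (he : 0 ≤ e)
    (hc : (1 - e) * R.card ≤ om.card) (h' : Ker k S al) (hS : S.Nonempty) (b : β) :
    kkl k S om b ≤ kkl k S R b + e / al := by
  have hR : R.Nonempty := hne.mono hom
  have h1 : kkl k S om b ≤ ∑ F, (kav k S b F * Real.log (kav k S b F / kav k R b F) + kav k S b F * (e / al)) := by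
    refine Finset.sum_le_sum (fun F _ => ?_)
    have p := h'.kav_pos hS b F
    have q := h.kav_pos hR b F
    have r := (h.mono hom).kav_pos hne b F
    have h2 := kav_le_of_sub h hom hne he hc b F
    have h3 : Real.log (kav k S b F / kav k om b F) =
        Real.log (kav k S b F / kav k R b F) + Real.log (kav k R b F / kav k om b F) := by
      rw [← Real.log_mul (by positivity) (by positivity)]
      congr 1
      field_simp
    have h4 : Real.log (kav k R b F / kav k om b F) ≤ e / al := by
      have h5 := Real.log_le_sub_one_of_pos (x := kav k R b F / kav k om b F) (by positivity)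
      have h6 : kav k R b F / kav k om b F ≤ 1 + e / al := by
        rw [div_le_iff₀ r]; exact h2
      linarith
    rw [h3, mul_add]
    have := mul_le_mul_of_nonneg_left h4 p.le
    linarith
  rw [Finset.sum_add_distrib, ← Finset.sum_mul, h'.kav_tot hS b, one_mul] at h1
  exact h1

/-- change of the base class, lower bound -/
theorem kkl_base_ge [DecidableEq X] (h : Ker k R al) (hom : om ⊆ R) (hne : om.Nonempty) {e : ℝ}
    (he1 : e ≤ 1 / 2) (he : 0 ≤ e) (hc : (1 - e) * R.card ≤ om.card) (h' : Ker k S al) (hS : S.Nonempty) (b : β) :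
    kkl k S R b - 2 * e ≤ kkl k S om b := by
  have hR : R.Nonempty := hne.mono hom
  have h1 : ∑ F, (kav k S b F * Real.log (kav k S b F / kav k R b F) - kav k S b F * (2 * e)) ≤ kkl k S om b := by
    refine Finset.sum_le_sum (fun F _ => ?_)
    have p := h'.kav_pos hS b F
    have q := h.kav_pos hR b F
    have r := (h.mono hom).kav_pos hne b F
    have h2 := kav_ge_of_sub h hom hne hc b F
    have h3 : Real.log (kav k S b F / kav k om b F) =
        Real.log (kav k S b F / kav k R b F) - Real.log (kav k om b F / kav k R b F) := by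
      rw [← Real.log_div (by positivity) (by positivity)]
      congr 1
      field_simp
    have h4 : Real.log (kav k om b F / kav k R b F) ≤ 2 * e := by
      have h5 := Real.log_le_sub_one_of_pos (x := kav k om b F / kav k R b F) (by positivity)
      have h6 : kav k om b F / kav k R b F ≤ 1 + 2 * e := by
        rw [div_le_iff₀ q]
        have h7 : (1 + 2 * e) * ((1 - e) * kav k om b F) ≤ (1 + 2 * e) * kav k R b F :=
          mul_le_mul_of_nonneg_left h2 (by linarith)
        have h8 : kav k om b F ≤ (1 + 2 * e) * ((1 - e) * kav k om b F) := by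
          have : (1 : ℝ) ≤ (1 + 2 * e) * (1 - e) := by nlinarith
          nlinarith
        linarith
      linarith
    rw [h3, mul_sub]
    have := mul_le_mul_of_nonneg_left h4 p.le
    linarith
  rw [Finset.sum_sub_distrib, ← Finset.sum_mul, h'.kav_tot hS b, one_mul] at h1
  exact h1

end

/-! ## change of the labels -/

section labels

variable {k k' : X → β → Φ → ℝ} {R S om : Finset X} {al : ℝ}

theorem kkl_congr {b : β} (hS : ∀ x ∈ S, ∀ F, k' x b F = k x b F) (hR : ∀ x ∈ R, ∀ F, k' x b F = k x b F) :
    kkl k' S R b = kkl k S R b := by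
  have h1 : ∀ F, kav k' S b F = kav k S b F := fun F => by
    unfold kav
    rw [Finset.sum_congr rfl (fun x hx => hS x hx F)]
  have h2 : ∀ F, kav k' R b F = kav k R b F := fun F => by
    unfold kav
    rw [Finset.sum_congr rfl (fun x hx => hR x hx F)]
  unfold kkl
  exact Finset.sum_congr rfl (fun F _ => by rw [h1 F, h2 F])

/-- labels changed for owners of mass at most `kap`: upper bound -/
theorem E_kkl_change_le (W : FP β) (hk : Ker k R al) (hk' : Ker k' R al) (hR : R.Nonempty) (hSR : S ⊆ R)
    (hS : S.Nonempty) {Ch : β → Prop} {kap : ℝ} (hCh : W.Pr Ch ≤ kap)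
    (hun : ∀ b, W.p b ≠ 0 → ¬ Ch b → ∀ x ∈ R, ∀ F, k' x b F = k x b F) :
    W.E (fun b => kkl k' S R b) ≤ W.E (fun b => kkl k S R b) + kap * Real.log (1 / al) := by
  rcases isEmpty_or_nonempty Φ with hΦ | ⟨⟨F0⟩⟩
  · exfalso
    obtain ⟨x, hx⟩ := hR
    obtain ⟨b, _⟩ := W.exists_p_ne
    have := hk.tot x hx b
    simp at this
  have hal : 0 ≤ Real.log (1 / al) := by
    obtain ⟨b, _⟩ := W.exists_p_ne
    exact Real.log_nonneg (by rw [le_div_iff₀ hk.pos, one_mul]; exact hk.al_le_one hR b F0)
  have h1 : W.E (fun b => kkl k' S R b) ≤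
      W.E (fun b => kkl k S R b + Pool.Agent.PWZ.ind (Ch b) * Real.log (1 / al)) := by
    refine W.E_mono (fun b hb => ?_)
    by_cases h : Ch b
    · rw [Pool.Agent.PWZ.ind_of h, one_mul]
      have h2 := kkl_le hk' hR (hk'.mono hSR) hS b
      have h3 := kkl_nonneg hk hR (hk.mono hSR) hS b
      linarith
    · rw [Pool.Agent.PWZ.ind_not h, zero_mul, add_zero,
        kkl_congr (fun x hx => hun b hb h x (hSR hx)) (fun x hx => hun b hb h x hx)]
  rw [FP.E_add, FP.E_mul_const] at h1
  have h2 : W.E (fun b => Pool.Agent.PWZ.ind (Ch b)) = W.Pr Ch := rfl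
  rw [h2] at h1
  have := mul_le_mul_of_nonneg_right hCh hal
  linarith

/-- labels changed for owners of mass at most `kap`: lower bound -/
theorem E_kkl_change_ge (W : FP β) (hk : Ker k R al) (hk' : Ker k' R al) (hR : R.Nonempty) (hSR : S ⊆ R)
    (hS : S.Nonempty) {Ch : β → Prop} {kap : ℝ} (hCh : W.Pr Ch ≤ kap)
    (hun : ∀ b, W.p b ≠ 0 → ¬ Ch b → ∀ x ∈ R, ∀ F, k' x b F = k x b F) :
    W.E (fun b => kkl k S R b) - kap * Real.log (1 / al) ≤ W.E (fun b => kkl k' S R b) := by
  have := E_kkl_change_le W hk' hk hR hSR hS hCh (fun b hb h x hx F => (hun b hb h x hx F).symm)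
  linarith

end labels

/-! ## the two statements of 3.7 -/

section main

variable {k k' : X → β → Φ → ℝ} {R K S om v : Finset X} {al : ℝ}

/-- **SAT INSIDE**: `R` = the unremoved class, `om ⊆ R` the class, `k` = labels at the start of the epoch, `k'` = current
labels.  Small sets are controlled by the removals, the others by the test. -/
theorem sat_inside [DecidableEq X] (W : FP β) {n e kap Lr : ℝ} (hn : 0 < n) (he : 0 ≤ e) (he1 : e ≤ 1 / 2)
    (hk : Ker k R al) (hk' : Ker k' R al) (hom : om ⊆ R) (hne : om.Nonempty)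
    (hc : (1 - e) * R.card ≤ om.card) {Ch : β → Prop} (hCh : W.Pr Ch ≤ kap)
    (hun : ∀ b, W.p b ≠ 0 → ¬ Ch b → ∀ x ∈ R, ∀ F, k' x b F = k x b F)
    (hrare : ∀ S ⊆ om, S.Nonempty → (S.card : ℝ) ≤ Real.exp (-Lr) * R.card →
      W.E (fun b => kkl k S R b) ≤ (Real.log (R.card / S.card) + 1) / n)
    (hbig : ∀ S ⊆ om, S.Nonempty → Real.exp (-Lr) * R.card < S.card →
      W.E (fun b => kkl k' S om b) ≤ (Real.log (om.card / S.card) + 1) / n)
    (hnum : 2 * e + n * (e / al + kap * Real.log (1 / al)) ≤ 1)
    (hS : S ⊆ om) (hSne : S.Nonempty) :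
    W.E (fun b => kkl k' S om b) ≤ 2 * (Real.log (om.card / S.card) + 1) / n := by
  have c2 : (0 : ℝ) < om.card := by exact_mod_cast hne.card_pos
  have c3 : (0 : ℝ) < S.card := by exact_mod_cast hSne.card_pos
  have hR : R.Nonempty := hne.mono hom
  have c1 : (0 : ℝ) < R.card := by exact_mod_cast hR.card_pos
  have hlog : 0 ≤ Real.log (om.card / S.card) := by
    refine Real.log_nonneg ?_
    rw [le_div_iff₀ c3, one_mul]
    exact_mod_cast Finset.card_le_card hS
  by_cases hr : (S.card : ℝ) ≤ Real.exp (-Lr) * R.card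
  · have h1 := hrare S hS hSne hr
    have hSR : S ⊆ R := hS.trans hom
    have h2 : W.E (fun b => kkl k S om b) ≤ W.E (fun b => kkl k S R b) + e / al := by
      have : W.E (fun b => kkl k S om b) ≤ W.E (fun b => kkl k S R b + e / al) :=
        W.E_mono (fun b _ => kkl_base_le hk hom hne he hc (hk.mono hSR) hSne b)
      rw [FP.E_add, FP.E_const] at this
      exact this
    have h3 := E_kkl_change_le W (hk.mono hom) (hk'.mono hom) hne hS hSne hCh
      (fun b hb h x hx F => hun b hb h x (hom hx) F)
    have h4 : Real.log (R.card / S.card) ≤ Real.log (om.card / S.card) + 2 * e := by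
      have h5 : Real.log (R.card / S.card) = Real.log (om.card / S.card) + Real.log (R.card / om.card) := by
        rw [← Real.log_mul (by positivity) (by positivity)]
        congr 1
        field_simp
      have h6 := Real.log_le_sub_one_of_pos (x := (R.card : ℝ) / om.card) (by positivity)
      have h7 : (R.card : ℝ) / om.card ≤ 1 + 2 * e := by
        rw [div_le_iff₀ c2]
        have h8 : (1 + 2 * e) * ((1 - e) * R.card) ≤ (1 + 2 * e) * om.card :=
          mul_le_mul_of_nonneg_left hc (by linarith)
        have h9 : (R.card : ℝ) ≤ (1 + 2 * e) * ((1 - e) * R.card) := by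
          have : (1 : ℝ) ≤ (1 + 2 * e) * (1 - e) := by nlinarith
          nlinarith
        linarith
      linarith
    have h10 : (Real.log (R.card / S.card) + 1) / n ≤ (Real.log (om.card / S.card) + 2 * e + 1) / n :=
      div_le_div_of_nonneg_right (by linarith) hn.le
    have h11 : (Real.log (om.card / S.card) + 2 * e + 1) / n + e / al + kap * Real.log (1 / al) ≤
        2 * (Real.log (om.card / S.card) + 1) / n := by
      have h12 : (Real.log (om.card / S.card) + 2 * e + 1) / n + e / al + kap * Real.log (1 / al) =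
          (Real.log (om.card / S.card) + 1 + (2 * e + n * (e / al + kap * Real.log (1 / al)))) / n := by
        field_simp
        ring
      rw [h12]
      exact div_le_div_of_nonneg_right (by linarith) hn.le
    linarith
  · have h1 := hbig S hS hSne (not_le.1 hr)
    refine h1.trans (div_le_div_of_nonneg_right ?_ hn.le)
    linarith

/-- **GAIN OF A FALL**: `v` a nonempty set with large relative entropy for the old labels and the base `R` -/
theorem fall_gain [DecidableEq X] (W : FP β) {n e kap L : ℝ} (he : 0 ≤ e) (he1 : e ≤ 1 / 2)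
    (hk : Ker k R al) (hk' : Ker k' R al) (hom : om ⊆ R) (hc : (1 - e) * R.card ≤ om.card)
    {Ch : β → Prop} (hCh : W.Pr Ch ≤ kap)
    (hun : ∀ b, W.p b ≠ 0 → ¬ Ch b → ∀ x ∈ R, ∀ F, k' x b F = k x b F)
    (hv : v ⊆ om) (hvne : v.Nonempty) (hgain : L / (4 * n) ≤ W.E (fun b => kkl k v R b))
    (hnum : 2 * e + kap * Real.log (1 / al) ≤ L / (5 * n)) :
    L / (20 * n) ≤ W.E (fun b => kkl k' v om b) := by
  have hne : om.Nonempty := hvne.mono hv
  have h2 : W.E (fun b => kkl k v R b) - 2 * e ≤ W.E (fun b => kkl k v om b) := by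
    have : W.E (fun b => kkl k v R b - 2 * e) ≤ W.E (fun b => kkl k v om b) :=
      W.E_mono (fun b _ => kkl_base_ge hk hom hne he1 he hc (hk.mono (hv.trans hom)) hvne b)
    rw [FP.E_sub, FP.E_const] at this
    exact this
  have h3 := E_kkl_change_ge W (hk.mono hom) (hk'.mono hom) hne hv hvne hCh
    (fun b hb h x hx F => hun b hb h x (hom hx) F)
  have h4 : L / (20 * n) = L / (4 * n) - L / (5 * n) := by
    rcases eq_or_ne n 0 with h | h
    · rw [h]; simp
    · field_simp; ring
  linarith

/-- **SAT INSIDE** for rule v2 (note 3445): `M ⊇ om` the main block, saturated for the old labels with constant `c` -/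
theorem sat_inside' [DecidableEq X] (W : FP β) {M : Finset X} {n e kap c : ℝ} (hn : 0 < n) (he : 0 ≤ e)
    (he1 : e ≤ 1 / 2) (hk : Ker k M al) (hk' : Ker k' M al) (hom : om ⊆ M) (hne : om.Nonempty)
    (hc : (1 - e) * M.card ≤ om.card) {Ch : β → Prop} (hCh : W.Pr Ch ≤ kap)
    (hun : ∀ b, W.p b ≠ 0 → ¬ Ch b → ∀ x ∈ om, ∀ F, k' x b F = k x b F)
    (hS : S ⊆ om) (hSne : S.Nonempty)
    (hsat : W.E (fun b => kkl k S M b) ≤ (Real.log (M.card / S.card) + c) / n) :
    W.E (fun b => kkl k' S om b) ≤
      (Real.log (om.card / S.card) + c + 2 * e) / n + e / al + kap * Real.log (1 / al) := by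
  have c2 : (0 : ℝ) < om.card := by exact_mod_cast hne.card_pos
  have c3 : (0 : ℝ) < S.card := by exact_mod_cast hSne.card_pos
  have hM : M.Nonempty := hne.mono hom
  have c1 : (0 : ℝ) < M.card := by exact_mod_cast hM.card_pos
  have hSM : S ⊆ M := hS.trans hom
  have h2 : W.E (fun b => kkl k S om b) ≤ W.E (fun b => kkl k S M b) + e / al := by
    have : W.E (fun b => kkl k S om b) ≤ W.E (fun b => kkl k S M b + e / al) :=
      W.E_mono (fun b _ => kkl_base_le hk hom hne he hc (hk.mono hSM) hSne b)
    rw [FP.E_add, FP.E_const] at this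
    exact this
  have h3 := E_kkl_change_le W (hk.mono hom) (hk'.mono hom) hne hS hSne hCh hun
  have h4 : Real.log (M.card / S.card) ≤ Real.log (om.card / S.card) + 2 * e := by
    have h5 : Real.log (M.card / S.card) = Real.log (om.card / S.card) + Real.log (M.card / om.card) := by
      rw [← Real.log_mul (by positivity) (by positivity)]
      congr 1
      field_simp
    have h6 := Real.log_le_sub_one_of_pos (x := (M.card : ℝ) / om.card) (by positivity)
    have h7 : (M.card : ℝ) / om.card ≤ 1 + 2 * e := by
      rw [div_le_iff₀ c2]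
      have h8 : (1 + 2 * e) * ((1 - e) * M.card) ≤ (1 + 2 * e) * om.card :=
        mul_le_mul_of_nonneg_left hc (by linarith)
      have h9 : (M.card : ℝ) ≤ (1 + 2 * e) * ((1 - e) * M.card) := by
        have : (1 : ℝ) ≤ (1 + 2 * e) * (1 - e) := by nlinarith
        nlinarith
      linarith
    linarith
  have h10 : (Real.log (M.card / S.card) + c) / n ≤ (Real.log (om.card / S.card) + c + 2 * e) / n :=
    div_le_div_of_nonneg_right (by linarith) hn.le
  linarith

/-- **GAIN OF A FALL** for rule v2: `v ⊆ S`, `S` a removed block, `M` the main block, `om` the class (`M, om ⊆ R` large);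
old labels `k`, current labels `k'` -/
theorem fall_gain' [DecidableEq X] (W : FP β) {M : Finset X} {e kap L : ℝ} (he : 0 ≤ e) (he1 : e ≤ 1 / 2)
    (hk : Ker k R al) (hk' : Ker k' om al) (hM : M ⊆ R) (hMne : M.Nonempty) (hMc : (1 - e) * R.card ≤ M.card)
    (hom : om ⊆ R) (hc : (1 - e) * R.card ≤ om.card)
    {Ch : β → Prop} (hCh : W.Pr Ch ≤ kap)
    (hun : ∀ b, W.p b ≠ 0 → ¬ Ch b → ∀ x ∈ om, ∀ F, k' x b F = k x b F)
    (hS : S ⊆ R) (hSne : S.Nonempty) (hv : v ⊆ om) (hvne : v.Nonempty)
    (hgain : L ≤ W.E (fun b => ∑ F, kav k v b F * Real.log (kav k S b F / kav k M b F))) :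
    L - (2 * e + e / al + kap * Real.log (1 / al)) ≤ W.E (fun b => kkl k' v om b) := by
  have hne : om.Nonempty := hvne.mono hv
  have hkv := hk.mono (hv.trans hom)
  have h1 : ∀ b, (∑ F, kav k v b F * Real.log (kav k S b F / kav k M b F)) - (2 * e + e / al) ≤ kkl k v om b := by
    intro b
    have h2 : ∑ F, (kav k v b F * Real.log (kav k S b F / kav k M b F) - kav k v b F * (2 * e + e / al) +
        (kav k v b F - kav k S b F)) ≤ kkl k v om b := by
      refine Finset.sum_le_sum (fun F _ => ?_)
      have p := hkv.kav_pos hvne b F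
      have q := (hk.mono hS).kav_pos hSne b F
      have r := (hk.mono hM).kav_pos hMne b F
      have t := (hk.mono hom).kav_pos hne b F
      have u := hk.kav_pos (hne.mono hom) b F
      -- log (v / om) = log (S / M) + log (M / om) + log (v / S)
      have h3 : Real.log (kav k v b F / kav k om b F) = Real.log (kav k S b F / kav k M b F) -
          Real.log (kav k om b F / kav k M b F) - Real.log (kav k S b F / kav k v b F) := by
        rw [← Real.log_div (by positivity) (by positivity), ← Real.log_div (by positivity) (by positivity)]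
        congr 1
        field_simp
      have h4 : Real.log (kav k om b F / kav k M b F) ≤ 2 * e + e / al := by
        have h5 : Real.log (kav k om b F / kav k M b F) =
            Real.log (kav k om b F / kav k R b F) + Real.log (kav k R b F / kav k M b F) := by
          rw [← Real.log_mul (by positivity) (by positivity)]
          congr 1
          field_simp
        have h6 : Real.log (kav k om b F / kav k R b F) ≤ 2 * e := by
          have h7 := Real.log_le_sub_one_of_pos (x := kav k om b F / kav k R b F) (by positivity)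
          have h8 := kav_ge_of_sub hk hom hne hc b F
          have h9 : kav k om b F / kav k R b F ≤ 1 + 2 * e := by
            rw [div_le_iff₀ u]
            have h10 : (1 + 2 * e) * ((1 - e) * kav k om b F) ≤ (1 + 2 * e) * kav k R b F :=
              mul_le_mul_of_nonneg_left h8 (by linarith)
            have h11 : kav k om b F ≤ (1 + 2 * e) * ((1 - e) * kav k om b F) := by
              have : (1 : ℝ) ≤ (1 + 2 * e) * (1 - e) := by nlinarith
              nlinarith
            linarith
          linarith
        have h12 : Real.log (kav k R b F / kav k M b F) ≤ e / al := by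
          have h7 := Real.log_le_sub_one_of_pos (x := kav k R b F / kav k M b F) (by positivity)
          have h8 := kav_le_of_sub hk hM hMne he hMc b F
          have h9 : kav k R b F / kav k M b F ≤ 1 + e / al := by
            rw [div_le_iff₀ r]; exact h8
          linarith
        linarith
      have h13 : kav k v b F * Real.log (kav k S b F / kav k v b F) ≤ kav k S b F - kav k v b F := by
        have h14 := Real.log_le_sub_one_of_pos (x := kav k S b F / kav k v b F) (by positivity)
        have h15 : kav k v b F * (kav k S b F / kav k v b F) = kav k S b F := by field_simp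
        nlinarith
      rw [h3]
      have h16 := mul_le_mul_of_nonneg_left h4 p.le
      nlinarith
    rw [Finset.sum_add_distrib, Finset.sum_sub_distrib, Finset.sum_sub_distrib, ← Finset.sum_mul,
      hkv.kav_tot hvne b, (hk.mono hS).kav_tot hSne b] at h2
    linarith
  have h2 : W.E (fun b => ∑ F, kav k v b F * Real.log (kav k S b F / kav k M b F)) - (2 * e + e / al) ≤
      W.E (fun b => kkl k v om b) := by
    have : W.E (fun b => (∑ F, kav k v b F * Real.log (kav k S b F / kav k M b F)) - (2 * e + e / al)) ≤
        W.E (fun b => kkl k v om b) := W.E_mono (fun b _ => h1 b)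
    rw [FP.E_sub, FP.E_const] at this
    exact this
  have h3 := E_kkl_change_ge W (hk.mono hom) hk' hne hv hvne hCh hun
  linarith

end main

end Pool.Agent.M3
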