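/-
M3 (MP_4d8f14_an), section 6 (6.3), module Greedy (helper66).
Greedy marks along the levels `s, s-1, …, 0` of a real sequence: a mark at the level `j` if the
value differs by at least `c` from the value at the last mark. Between marks the values change by
less than `2c`; for binary averages the number of marks is at most twice `osc`.
-/
import Mathlib
import Pool.Agent.M3.B2

set_option autoImplicit false

open Finset Pool.Agent.PWZ Pool.PWZ

namespace Pool.M3B

open Classical in
/-- the level of the last mark after `t` steps down from the level `s` -/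
noncomputable def gbase (x : ℕ → ℝ) (c : ℝ) (s : ℕ) : ℕ → ℕ
  | 0 => s
  | t + 1 => if c ≤ |x (s - (t + 1)) - x (gbase x c s t)| then s - (t + 1) else gbase x c s t

/-- a greedy mark at the level `j < s` -/
def gmark (x : ℕ → ℝ) (c : ℝ) (s j : ℕ) : Prop :=
  j < s ∧ c ≤ |x j - x (gbase x c s (s - (j + 1)))|

theorem gbase_le (x : ℕ → ℝ) (c : ℝ) (s t : ℕ) (ht : t ≤ s) :
    s - t ≤ gbase x c s t ∧ gbase x c s t ≤ s := by
  induction t with
  | zero => exact ⟨le_rfl, le_rfl⟩
  | succ t ih =>
    have h := ih (by omega)
    unfold gbase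
    split_ifs
    · omega
    · omega

/-- the value at the base is close to the current value -/
theorem gbase_close (x : ℕ → ℝ) (c : ℝ) (hc : 0 < c) (s t : ℕ) :
    |x (s - t) - x (gbase x c s t)| < c := by
  cases t with
  | zero => simp only [gbase, Nat.sub_zero, sub_self, abs_zero]; exact hc
  | succ t =>
    by_cases h : c ≤ |x (s - (t + 1)) - x (gbase x c s t)|
    · have e : gbase x c s (t + 1) = s - (t + 1) := by
        unfold gbase
        rw [if_pos h]
      rw [e, sub_self, abs_zero]
      exact hc
    · have e : gbase x c s (t + 1) = gbase x c s t := by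
        conv_lhs => unfold gbase
        rw [if_neg h]
      rw [e]
      exact not_le.1 h

/-- no marks: the base does not change -/
theorem gbase_eq (x : ℕ → ℝ) (c : ℝ) (s t d : ℕ) (htd : t + d ≤ s)
    (h : ∀ j, s - (t + d) ≤ j → j < s - t → ¬ gmark x c s j) :
    gbase x c s (t + d) = gbase x c s t := by
  induction d with
  | zero => rfl
  | succ d ih =>
    have h1 := ih (by omega) fun j hj hj' => h j (by omega) hj'
    have h2 := h (s - (t + d + 1)) (by omega) (by omega)
    have h3 : ¬ c ≤ |x (s - (t + d + 1)) - x (gbase x c s (t + d))| := by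
      intro h4
      apply h2
      refine ⟨by omega, ?_⟩
      rw [show s - (s - (t + d + 1) + 1) = t + d by omega]
      exact h4
    have e : gbase x c s (t + d + 1) = gbase x c s (t + d) := by
      conv_lhs => unfold gbase
      rw [if_neg h3]
    rw [← h1, ← e]
    rfl

/-- between marks the values change by less than `2 c` -/
theorem gmark_close (x : ℕ → ℝ) (c : ℝ) (hc : 0 < c) (s l l' : ℕ) (hl : l' ≤ l) (hs : l ≤ s)
    (h : ∀ j, l' ≤ j → j < l → ¬ gmark x c s j) : |x l - x l'| < 2 * c := by
  have h1 := gbase_close x c hc s (s - l)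
  have h2 := gbase_close x c hc s (s - l')
  have h3 : gbase x c s (s - l') = gbase x c s (s - l) := by
    have e := gbase_eq x c s (s - l) (l - l') (by omega) (fun j hj hj' => h j (by omega) (by omega))
    rw [← e]
    congr 1
    omega
  rw [show s - (s - l) = l by omega] at h1
  rw [show s - (s - l') = l' by omega, h3] at h2
  have e : x l - x l' = (x l - x (gbase x c s (s - l))) - (x l' - x (gbase x c s (s - l))) := by
    ring
  rw [e]
  refine (abs_sub _ _).trans_lt ?_
  linarith

open Classical in
/-- the marks among the first `t` levels below `s` -/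
noncomputable def gset (x : ℕ → ℝ) (c : ℝ) (s t : ℕ) : Finset ℕ :=
  (Finset.Ico (s - t) s).filter (gmark x c s)

/-- the marks form a chain of levels with jumps -/
theorem gset_chain (x : ℕ → ℝ) (c : ℝ) (s t : ℕ) (ht : t ≤ s) :
    ∃ v : ℕ → ℕ, StrictMono v ∧ v 0 = gbase x c s t ∧ v (gset x c s t).card = s ∧
      ∀ i < (gset x c s t).card, c ≤ |x (v i) - x (v (i + 1))| := by
  classical
  induction t with
  | zero =>
    have e : gset x c s 0 = ∅ := by
      unfold gset
      rw [Nat.sub_zero, Finset.Ico_self, Finset.filter_empty]
    rw [e]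
    refine ⟨fun i => s + i, ?_, rfl, rfl, fun i hi => absurd hi (Nat.not_lt_zero i)⟩
    intro i j hij
    show s + i < s + j
    omega
  | succ t ih =>
    obtain ⟨v, hv, hv0, hvs, hj⟩ := ih (by omega)
    have hIco : Finset.Ico (s - (t + 1)) s = insert (s - (t + 1)) (Finset.Ico (s - t) s) := by
      ext j
      rw [Finset.mem_insert, Finset.mem_Ico, Finset.mem_Ico]
      omega
    have hnot : s - (t + 1) ∉ gset x c s t := by
      unfold gset
      rw [Finset.mem_filter, Finset.mem_Ico]
      omega
    by_cases hm : gmark x c s (s - (t + 1))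
    · have hg : gset x c s (t + 1) = insert (s - (t + 1)) (gset x c s t) := by
        unfold gset
        rw [hIco, Finset.filter_insert, if_pos hm]
      have hcard : (gset x c s (t + 1)).card = (gset x c s t).card + 1 := by
        rw [hg, Finset.card_insert_of_notMem hnot]
      have hc := hm.2
      rw [show s - (s - (t + 1) + 1) = t by omega] at hc
      have hb : gbase x c s (t + 1) = s - (t + 1) := by
        conv_lhs => unfold gbase
        rw [if_pos hc]
      have hbl := (gbase_le x c s t (by omega)).1
      refine ⟨fun i => Nat.casesOn i (s - (t + 1)) v, ?_, hb.symm, ?_, ?_⟩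
      · apply strictMono_nat_of_lt_succ
        intro i
        cases i with
        | zero =>
          show s - (t + 1) < v 0
          rw [hv0]
          omega
        | succ i => exact hv (Nat.lt_succ_self i)
      · rw [hcard]
        exact hvs
      · intro i hi
        rw [hcard] at hi
        cases i with
        | zero =>
          show c ≤ |x (s - (t + 1)) - x (v 0)|
          rw [hv0]
          exact hc
        | succ i => exact hj i (by omega)
    · have hg : gset x c s (t + 1) = gset x c s t := by
        unfold gset
        rw [hIco, Finset.filter_insert, if_neg hm]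
      have hc : ¬ c ≤ |x (s - (t + 1)) - x (gbase x c s t)| := by
        intro h4
        apply hm
        refine ⟨by omega, ?_⟩
        rw [show s - (s - (t + 1) + 1) = t by omega]
        exact h4
      have hb : gbase x c s (t + 1) = gbase x c s t := by
        conv_lhs => unfold gbase
        rw [if_neg hc]
      rw [hg, hb]
      exact ⟨v, hv, hv0, hvs, hj⟩

/-- THE NUMBER OF GREEDY MARKS of the binary averages along a path of positions -/
theorem gmark_card (φ : ℤ → ℝ) (c : ℝ) (s : ℕ) (w : ℕ → ℤ)
    (hw : ∀ l ≤ s, 0 ≤ w l ∧ w l < 2 ^ (l + 1)) :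
    (gset (fun l => bav φ l (w l)) c s s).card ≤ 2 * osc φ c s := by
  obtain ⟨v, hv, hv0, hvs, hj⟩ := gset_chain (fun l => bav φ l (w l)) c s s le_rfl
  set J := (gset (fun l => bav φ l (w l)) c s s).card with hJ
  refine jumps_le φ c s J v hv (by rw [hvs]) (fun i => w (v i)) (fun i hi => hw _ ?_) hj
  rw [← hvs]
  exact hv.monotone hi

/-- the sum of the indicators of the greedy marks -/
theorem gmark_sum (φ : ℤ → ℝ) (c : ℝ) (s : ℕ) (w : ℕ → ℤ)
    (hw : ∀ l ≤ s, 0 ≤ w l ∧ w l < 2 ^ (l + 1)) :
    ∑ j ∈ range s, ind (gmark (fun l => bav φ l (w l)) c s j) ≤ 2 * (osc φ c s : ℝ) := by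
  classical
  have h := gmark_card φ c s w hw
  have e : ∑ j ∈ range s, ind (gmark (fun l => bav φ l (w l)) c s j) =
      ((gset (fun l => bav φ l (w l)) c s s).card : ℝ) := by
    unfold gset
    rw [Nat.sub_self, ← Finset.range_eq_Ico, Finset.card_filter, Nat.cast_sum]
    refine Finset.sum_congr rfl fun j _ => ?_
    by_cases hm : gmark (fun l => bav φ l (w l)) c s j
    · rw [ind_of hm, if_pos hm, Nat.cast_one]
    · rw [ind_not hm, if_neg hm, Nat.cast_zero]
  rw [e]
  exact_mod_cast h

end Pool.M3B
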