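/-
M3 (MP_4d8f14_an), section 6 (6.3), module S6Cnt (helper66).
COUNTING: at a face node (two small cells, a rounded node of exponent `s`), with the third vertex
fixed, the static forms have few oscillations; the sum over all sample points is bounded by the
number of sample points at the face node (free law).
-/
import Mathlib
import Pool.Agent.M3.Bin.Flr
import Pool.Agent.M3.Greedy

set_option autoImplicit false

open Finset Pool.Agent.PWZ Pool.PWZ Pool.M3B

namespace Pool.Agent.M3.S6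

open Pool.Agent.M3.Bin

variable {k : ℕ}

/-- a sum over a set covered by an image -/
theorem sum_cover {X Y : Type*} [DecidableEq X] (A : Finset X) (I : Finset Y) (f : Y → X)
    (F : X → ℝ) (hF : ∀ x, 0 ≤ F x) (h : ∀ a ∈ A, ∃ i ∈ I, a = f i) :
    ∑ a ∈ A, F a ≤ ∑ i ∈ I, F (f i) := by
  have h1 : A ⊆ I.image f := by
    intro a ha
    obtain ⟨i, hi, rfl⟩ := h a ha
    exact Finset.mem_image_of_mem f hi
  refine (Finset.sum_le_sum_of_subset_of_nonneg h1 fun a _ _ => hF a).trans ?_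
  rw [← Finset.sum_fiberwise_of_maps_to (s := I) (t := I.image f) (g := f)
    (fun i hi => Finset.mem_image_of_mem f hi) (fun i => F (f i))]
  refine Finset.sum_le_sum fun a ha => ?_
  obtain ⟨i, hi, rfl⟩ := Finset.mem_image.1 ha
  exact Finset.single_le_sum (f := fun i => F (f i)) (fun j _ => hF _)
    (Finset.mem_filter.2 ⟨hi, rfl⟩)

/-- the local form of B2 on two cells, third vertex fixed -/
theorem cell_osc {c1 K : ℝ} {s : ℕ}
    (hK : ∀ (f g : ℕ → ℤ → ℝ), (∀ j x, |f j x| ≤ 1) → (∀ i x, |g i x| ≤ 1) →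
      ∑ i ∈ range (2 ^ s), ∑ j ∈ range (2 ^ s), (osc (fun n : ℤ => f j ((i : ℤ) + j + n) *
        g i ((i : ℤ) + j + n)) c1 s : ℝ) ≤ K * (4 : ℝ) ^ s)
    (U G : V k → V k → ℝ) (hU : ∀ b d, |U b d| ≤ 1) (hG : ∀ a d, |G a d| ≤ 1) (a0 b0 c : V k)
    (j : ℕ) (hj : j ≤ s) :
    ∑ a ∈ univ.filter (fun a : V k => flr j a = a0), ∑ b ∈ univ.filter (fun b : V k => flr j b = b0),
      (osc (fun n : ℤ => U b (a + b + c + (n : V k)) * G a (a + b + c + (n : V k))) c1 s : ℝ) ≤
      K * 4 ^ s := by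
  have hpow : (2 : ℕ) ^ j ≤ 2 ^ s := Nat.pow_le_pow_right (by norm_num) hj
  have hcov : ∀ v0 : V k, ∀ v ∈ univ.filter (fun v : V k => flr j v = v0),
      ∃ i ∈ range (2 ^ s), v = v0 + ((i : ℕ) : V k) := by
    intro v0 v hv
    rw [Finset.mem_filter] at hv
    obtain ⟨r, hr, hv'⟩ := flr_add_rem j v
    exact ⟨r, Finset.mem_range.2 (by omega), by rw [← hv.2]; exact hv'⟩
  have h1 := sum_cover (univ.filter (fun a : V k => flr j a = a0)) (range (2 ^ s))
    (fun i : ℕ => a0 + (i : V k))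
    (fun a => ∑ b ∈ univ.filter (fun b : V k => flr j b = b0),
      (osc (fun n : ℤ => U b (a + b + c + (n : V k)) * G a (a + b + c + (n : V k))) c1 s : ℝ))
    (fun a => Finset.sum_nonneg fun b _ => Nat.cast_nonneg _) (hcov a0)
  refine h1.trans ?_
  have h2 : ∀ i ∈ range (2 ^ s), ∑ b ∈ univ.filter (fun b : V k => flr j b = b0),
      (osc (fun n : ℤ => U b (a0 + (i : V k) + b + c + (n : V k)) *
        G (a0 + (i : V k)) (a0 + (i : V k) + b + c + (n : V k))) c1 s : ℝ) ≤
      ∑ m ∈ range (2 ^ s), (osc (fun n : ℤ =>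
        U (b0 + (m : V k)) (a0 + (i : V k) + (b0 + (m : V k)) + c + (n : V k)) *
        G (a0 + (i : V k)) (a0 + (i : V k) + (b0 + (m : V k)) + c + (n : V k))) c1 s : ℝ) :=
    fun i _ => sum_cover (univ.filter (fun b : V k => flr j b = b0)) (range (2 ^ s))
      (fun m : ℕ => b0 + (m : V k)) (fun b =>
        (osc (fun n : ℤ => U b (a0 + (i : V k) + b + c + (n : V k)) *
        G (a0 + (i : V k)) (a0 + (i : V k) + b + c + (n : V k))) c1 s : ℝ))
      (fun b => Nat.cast_nonneg _) (hcov b0)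
  refine (Finset.sum_le_sum h2).trans ?_
  have h3 := hK (fun m x => U (b0 + (m : V k)) (a0 + b0 + c + (x : V k)))
    (fun i x => G (a0 + (i : V k)) (a0 + b0 + c + (x : V k))) (fun _ _ => hU _ _)
    (fun _ _ => hG _ _)
  refine le_trans (le_of_eq ?_) h3
  refine Finset.sum_congr rfl fun i _ => Finset.sum_congr rfl fun m _ => ?_
  congr 2
  funext n
  have e : a0 + (i : V k) + (b0 + (m : V k)) + c + (n : V k) =
      a0 + b0 + c + (((i : ℤ) + m + n : ℤ) : V k) := by
    push_cast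
    ring
  rw [e]

/-- the number of noises at a rounded node, for a fixed centre -/
theorem card_noise {N h s : ℕ} (hs : s ≤ N) (hNk : N ≤ k) (z : V k) (g : V k × ℕ) :
    ((range (2 ^ N)).filter fun w => G h s z w = g).card ≤ 2 ^ (s - h) := by
  have hsk : s - h ≤ k := by omega
  have hinj : Set.InjOn (fun w : ℕ => pos s z w)
      (((range (2 ^ N)).filter fun w => G h s z w = g : Finset ℕ) : Set ℕ) := by
    intro w hw w' hw' hww
    rw [Finset.mem_coe, Finset.mem_filter] at hw hw'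
    have h1 : w / 2 ^ s = w' / 2 ^ s := by
      have e1 := congrArg Prod.snd hw.2
      have e2 := congrArg Prod.snd hw'.2
      exact e1.trans e2.symm
    have h2 : ((w % 2 ^ s : ℕ) : V k) = ((w' % 2 ^ s : ℕ) : V k) := add_left_cancel hww
    have h3 : (2 : ℕ) ^ s ≤ 2 ^ k := Nat.pow_le_pow_right (by norm_num) (by omega)
    have m1 := Nat.mod_lt w (show 0 < 2 ^ s by positivity)
    have m2 := Nat.mod_lt w' (show 0 < 2 ^ s by positivity)
    have h4 := congrArg ZMod.val h2
    rw [ZMod.val_natCast_of_lt (by omega), ZMod.val_natCast_of_lt (by omega)] at h4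
    rw [← Nat.div_add_mod w (2 ^ s), ← Nat.div_add_mod w' (2 ^ s), h1, h4]
  rw [← Finset.card_image_of_injOn hinj]
  rcases (((range (2 ^ N)).filter fun w => G h s z w = g).image fun w : ℕ => pos s z w).eq_empty_or_nonempty
    with he | ⟨y0, hy0⟩
  · rw [he, Finset.card_empty]
    exact Nat.zero_le _
  · obtain ⟨w0, hw0, rfl⟩ := Finset.mem_image.1 hy0
    rw [Finset.mem_filter] at hw0
    rw [← card_cell hsk (pos s z w0)]
    apply Finset.card_le_card
    intro y hy
    obtain ⟨w, hw, rfl⟩ := Finset.mem_image.1 hy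
    rw [Finset.mem_filter] at hw ⊢
    refine ⟨Finset.mem_univ _, ?_⟩
    have e1 := congrArg Prod.fst hw.2
    have e2 := congrArg Prod.fst hw0.2
    exact e1.trans e2.symm

/-- sample points: third vertex, the two vertices of the face, noise -/
abbrev Pt (k : ℕ) := V k × V k × V k × ℕ

/-- all sample points -/
def pts (k N : ℕ) : Finset (Pt k) := univ ×ˢ univ ×ˢ univ ×ˢ range (2 ^ N)

/-- the face node of a sample point -/
def fkey (h s : ℕ) (q : Pt k) : V k × V k × (V k × ℕ) :=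
  (flr (s - (h + 3)) q.2.1, flr (s - (h + 3)) q.2.2.1, G h s (q.2.1 + q.2.2.1 + q.1) q.2.2.2)

/-- lower bound for the number of sample points at a face node -/
theorem card_fiber {N h s : ℕ} (hs : s ≤ N) (hNk : N ≤ k) (q0 : Pt k) (hq0 : q0 ∈ pts k N) :
    2 ^ (s - (h + 3)) * 2 ^ (s - (h + 3)) * (2 ^ (s - h) * 2 ^ s) ≤
      ((pts k N).filter fun q => fkey h s q = fkey h s q0).card := by
  set j := s - (h + 3) with hj
  obtain ⟨c0, a0, b0, w0⟩ := q0
  have hw0 : w0 < 2 ^ N := by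
    unfold pts at hq0
    simp only [Finset.mem_product, Finset.mem_univ, Finset.mem_range, true_and] at hq0
    exact hq0
  set y0 := pos s (a0 + b0 + c0) w0 with hy0
  set A := univ.filter fun a : V k => flr j a = flr j a0 with hA
  set B := univ.filter fun b : V k => flr j b = flr j b0 with hB
  set Y := univ.filter fun y : V k => flr (s - h) y = flr (s - h) y0 with hY
  have cA : A.card = 2 ^ j := card_cell (by omega) a0
  have cB : B.card = 2 ^ j := card_cell (by omega) b0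
  have cY : Y.card = 2 ^ (s - h) := card_cell (by omega) y0
  have hcard : (A ×ˢ B ×ˢ Y ×ˢ range (2 ^ s)).card = 2 ^ j * 2 ^ j * (2 ^ (s - h) * 2 ^ s) := by
    rw [Finset.card_product, Finset.card_product, Finset.card_product, cA, cB, cY,
      Finset.card_range]
    ring
  rw [← hcard]
  have hps : 0 < 2 ^ s := by positivity
  have hdiv : ∀ r < 2 ^ s, (w0 / 2 ^ s * 2 ^ s + r) / 2 ^ s = w0 / 2 ^ s := by
    intro r hr
    rw [Nat.mul_comm, Nat.mul_add_div hps, Nat.div_eq_of_lt hr, Nat.add_zero]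
  have hmod : ∀ r < 2 ^ s, (w0 / 2 ^ s * 2 ^ s + r) % 2 ^ s = r := by
    intro r hr
    rw [Nat.mul_comm, Nat.mul_add_mod, Nat.mod_eq_of_lt hr]
  refine Finset.card_le_card_of_injOn (fun t : V k × V k × V k × ℕ =>
    ((t.2.2.1 - (t.2.2.2 : V k) - t.1 - t.2.1, t.1, t.2.1, w0 / 2 ^ s * 2 ^ s + t.2.2.2) : Pt k))
    ?_ ?_
  · rintro ⟨a, b, y, r⟩ ht
    simp only [Finset.coe_product, Set.mem_prod, Finset.mem_coe, Finset.mem_range] at ht
    obtain ⟨ha, hb, hy, hr⟩ := ht
    rw [hA, Finset.mem_filter] at ha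
    rw [hB, Finset.mem_filter] at hb
    rw [hY, Finset.mem_filter] at hy
    rw [Finset.mem_coe, Finset.mem_filter]
    constructor
    · unfold pts
      simp only [Finset.mem_product, Finset.mem_univ, Finset.mem_range, true_and]
      have h1 : w0 / 2 ^ s < 2 ^ (N - s) := by
        rw [Nat.div_lt_iff_lt_mul hps, ← pow_add, Nat.sub_add_cancel hs]
        exact hw0
      calc w0 / 2 ^ s * 2 ^ s + r < w0 / 2 ^ s * 2 ^ s + 2 ^ s := by omega
        _ = (w0 / 2 ^ s + 1) * 2 ^ s := by ring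
        _ ≤ 2 ^ (N - s) * 2 ^ s := Nat.mul_le_mul_right _ h1
        _ = 2 ^ N := by rw [← pow_add, Nat.sub_add_cancel hs]
    · unfold fkey
      simp only
      rw [← hj, ha.2, hb.2]
      congr 2
      unfold G gam
      refine Prod.ext ?_ ?_
      · show flr (s - h) (pos s (a + b + (y - (r : V k) - a - b)) (w0 / 2 ^ s * 2 ^ s + r)) = _
        unfold Bin.pos
        rw [hmod r hr]
        have e : a + b + (y - (r : V k) - a - b) + (r : V k) = y := by ring
        rw [e, hy.2, hy0]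
        rfl
      · exact hdiv r hr
  · rintro ⟨a, b, y, r⟩ ht ⟨a', b', y', r'⟩ ht' heq
    simp only [Finset.coe_product, Set.mem_prod, Finset.mem_coe, Finset.mem_range] at ht ht'
    simp only [Prod.mk.injEq] at heq
    obtain ⟨h1, h2, h3, h4⟩ := heq
    have h5 : r = r' := by omega
    subst h2 h3 h5
    have h6 : y = y' := by
      have := h1
      linear_combination this
    rw [h6]

/-- for every third vertex and every form: the sum over the two cells is bounded; the sum over all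
sample points of the face node -/
theorem fiber_osc {c1 K : ℝ} (hK0 : 0 ≤ K) {N h s : ℕ}
    (hK : ∀ (f g : ℕ → ℤ → ℝ), (∀ j x, |f j x| ≤ 1) → (∀ i x, |g i x| ≤ 1) →
      ∑ i ∈ range (2 ^ s), ∑ j ∈ range (2 ^ s), (osc (fun n : ℤ => f j ((i : ℤ) + j + n) *
        g i ((i : ℤ) + j + n)) c1 s : ℝ) ≤ K * (4 : ℝ) ^ s)
    (hs : s ≤ N) (hNk : N ≤ k) {O : Type*} (Z : V k → Finset O) (n : ℕ)
    (hZ : ∀ c, (Z c).card ≤ n) (U G' : O → V k → V k → V k → ℝ) (hU : ∀ o c b d, |U o c b d| ≤ 1)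
    (hG : ∀ o c a d, |G' o c a d| ≤ 1) (q0 : Pt k) (hq0 : q0 ∈ pts k N) :
    ∑ q ∈ (pts k N).filter (fun q => fkey h s q = fkey h s q0), ∑ o ∈ Z q.1,
      (osc (fun m : ℤ => U o q.1 q.2.2.1 (q.2.1 + q.2.2.1 + q.1 + (m : V k)) *
        G' o q.1 q.2.1 (q.2.1 + q.2.2.1 + q.1 + (m : V k))) c1 s : ℝ) ≤
      4 * 4 ^ (h + 3) * K * n *
        (((pts k N).filter fun q => fkey h s q = fkey h s q0).card : ℝ) := by
  classical
  set j := s - (h + 3) with hj
  set f : V k → V k → V k → ℝ := fun c a b => ∑ o ∈ Z c,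
      (osc (fun m : ℤ => U o c b (a + b + c + (m : V k)) *
        G' o c a (a + b + c + (m : V k))) c1 s : ℝ) with hf
  have hf0 : ∀ c a b, 0 ≤ f c a b := fun c a b => Finset.sum_nonneg fun o _ => Nat.cast_nonneg _
  obtain ⟨c0, a0, b0, w0⟩ := q0
  set g0 := G h s (a0 + b0 + c0) w0 with hg0
  set A := univ.filter fun a : V k => flr j a = flr j a0 with hA
  set B := univ.filter fun b : V k => flr j b = flr j b0 with hB
  set Cs := (Finset.Ioo (-(3 * 2 ^ s) : ℤ) (2 ^ s)).image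
    (fun t : ℤ => g0.1 - flr j a0 - flr j b0 + (t : V k)) with hCs
  have hCcard : (Cs.card : ℝ) ≤ 4 * 2 ^ s := by
    have h1 : Cs.card ≤ 4 * 2 ^ s := by
      refine Finset.card_image_le.trans ?_
      rw [Int.card_Ioo]
      have : (2 : ℤ) ^ s - -(3 * 2 ^ s) - 1 = ((4 * 2 ^ s - 1 : ℕ) : ℤ) := by
        have h2 : 1 ≤ 4 * 2 ^ s := by
          have : 1 ≤ 2 ^ s := Nat.one_le_two_pow
          omega
        rw [Nat.cast_sub h2]
        push_cast
        ring
      rw [this, Int.toNat_natCast]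
      omega
    exact_mod_cast h1
  -- the fibre in product form
  have hmem : ∀ c a b w, fkey h s ((c, a, b, w) : Pt k) = fkey h s ((c0, a0, b0, w0) : Pt k) →
      c ∈ Cs ∧ a ∈ A ∧ b ∈ B ∧ G h s (a + b + c) w = g0 := by
    intro c a b w hk
    unfold fkey at hk
    simp only [Prod.mk.injEq] at hk
    obtain ⟨k1, k2, k3⟩ := hk
    refine ⟨?_, Finset.mem_filter.2 ⟨Finset.mem_univ _, k1⟩,
      Finset.mem_filter.2 ⟨Finset.mem_univ _, k2⟩, k3⟩
    obtain ⟨r2, hr2, e2⟩ := flr_add_rem j a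
    obtain ⟨r3, hr3, e3⟩ := flr_add_rem j b
    obtain ⟨r1, hr1, e1⟩ := flr_add_rem (s - h) (Bin.pos s (a + b + c) w)
    have e1' : flr (s - h) (Bin.pos s (a + b + c) w) = g0.1 := congrArg Prod.fst k3
    rw [e1'] at e1
    have k1' : flr j a = flr j a0 := k1
    have k2' : flr j b = flr j b0 := k2
    rw [k1'] at e2
    rw [k2'] at e3
    have hr := Nat.mod_lt w (show 0 < 2 ^ s by positivity)
    have p1 : (2 : ℕ) ^ (s - h) ≤ 2 ^ s := Nat.pow_le_pow_right (by norm_num) (by omega)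
    have p2 : (2 : ℕ) ^ j ≤ 2 ^ s := Nat.pow_le_pow_right (by norm_num) (by omega)
    unfold Bin.pos at e1
    generalize w % 2 ^ s = R at e1 hr
    rw [hCs, Finset.mem_image]
    refine ⟨(r1 : ℤ) - (R : ℤ) - r2 - r3, ?_, ?_⟩
    · rw [Finset.mem_Ioo]
      have q1 : (r1 : ℤ) < 2 ^ s := by exact_mod_cast lt_of_lt_of_le hr1 p1
      have q2 : (r2 : ℤ) < 2 ^ s := by exact_mod_cast lt_of_lt_of_le hr2 p2
      have q3 : (r3 : ℤ) < 2 ^ s := by exact_mod_cast lt_of_lt_of_le hr3 p2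
      have q4 : (R : ℤ) < 2 ^ s := by exact_mod_cast hr
      have n1 := Int.natCast_nonneg r1
      have n2 := Int.natCast_nonneg r2
      have n3 := Int.natCast_nonneg r3
      have n4 := Int.natCast_nonneg R
      constructor <;> linarith
    · push_cast
      linear_combination e2 + e3 - e1
  have hL : ∑ q ∈ (pts k N).filter (fun q => fkey h s q = fkey h s ((c0, a0, b0, w0) : Pt k)),
      f q.1 q.2.1 q.2.2.1 ≤
      ∑ c ∈ Cs, ∑ a ∈ A, ∑ b ∈ B, (2 : ℝ) ^ (s - h) * f c a b := by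
    rw [Finset.sum_filter]
    unfold pts
    rw [Finset.sum_product, ← Finset.sum_subset (Finset.subset_univ Cs)]
    · refine Finset.sum_le_sum fun c _ => ?_
      rw [Finset.sum_product, ← Finset.sum_subset (Finset.subset_univ A)]
      · refine Finset.sum_le_sum fun a _ => ?_
        rw [Finset.sum_product, ← Finset.sum_subset (Finset.subset_univ B)]
        · refine Finset.sum_le_sum fun b _ => ?_
          simp only
          rw [← Finset.sum_filter, Finset.sum_const, nsmul_eq_mul]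
          refine mul_le_mul_of_nonneg_right ?_ (hf0 _ _ _)
          have h1 := card_noise (h := h) hs hNk (a + b + c) g0
          have h2 : ((range (2 ^ N)).filter fun w => fkey h s ((c, a, b, w) : Pt k) =
              fkey h s ((c0, a0, b0, w0) : Pt k)) ⊆
              ((range (2 ^ N)).filter fun w => G h s (a + b + c) w = g0) := by
            intro w hw
            rw [Finset.mem_filter] at hw ⊢
            exact ⟨hw.1, (hmem c a b w hw.2).2.2.2⟩
          exact_mod_cast (Finset.card_le_card h2).trans h1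
        · intro b _ hb
          refine Finset.sum_eq_zero fun w _ => if_neg fun hk => hb (hmem c a b w hk).2.2.1
      · intro a _ ha
        refine Finset.sum_eq_zero fun q _ => if_neg fun hk => ha (hmem c a q.1 q.2 hk).2.1
    · intro c _ hc
      refine Finset.sum_eq_zero fun q _ => if_neg fun hk => hc (hmem c q.1 q.2.1 q.2.2 hk).1
  have hC : ∀ c ∈ Cs, ∑ a ∈ A, ∑ b ∈ B, (2 : ℝ) ^ (s - h) * f c a b ≤
      2 ^ (s - h) * (n * (K * 4 ^ s)) := by
    intro c _
    have h1 : ∑ a ∈ A, ∑ b ∈ B, f c a b ≤ n * (K * 4 ^ s) := by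
      rw [hf]
      simp only
      have e : ∑ a ∈ A, ∑ b ∈ B, ∑ o ∈ Z c,
          (osc (fun m : ℤ => U o c b (a + b + c + (m : V k)) *
            G' o c a (a + b + c + (m : V k))) c1 s : ℝ) =
          ∑ o ∈ Z c, ∑ a ∈ A, ∑ b ∈ B,
          (osc (fun m : ℤ => U o c b (a + b + c + (m : V k)) *
            G' o c a (a + b + c + (m : V k))) c1 s : ℝ) := by
        rw [Finset.sum_congr rfl fun a _ => Finset.sum_comm, Finset.sum_comm]
      rw [e]
      calc _ ≤ ∑ _o ∈ Z c, K * 4 ^ s := Finset.sum_le_sum fun o _ =>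
            cell_osc hK (U o c) (G' o c) (hU o c) (hG o c) _ _ c j (by omega)
        _ = (Z c).card * (K * 4 ^ s) := by rw [Finset.sum_const, nsmul_eq_mul]
        _ ≤ n * (K * 4 ^ s) := by
          refine mul_le_mul_of_nonneg_right ?_ (by positivity)
          exact_mod_cast hZ c
    simp only [← Finset.mul_sum]
    exact mul_le_mul_of_nonneg_left h1 (by positivity)
  have hfib := card_fiber (h := h) hs hNk ((c0, a0, b0, w0) : Pt k) hq0
  rw [← hj] at hfib
  have hfib' : ((2 : ℝ) ^ j * 2 ^ j * (2 ^ (s - h) * 2 ^ s)) ≤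
      (((pts k N).filter fun q => fkey h s q = fkey h s ((c0, a0, b0, w0) : Pt k)).card : ℝ) := by
    exact_mod_cast hfib
  refine (hL.trans (Finset.sum_le_sum hC)).trans ?_
  rw [Finset.sum_const, nsmul_eq_mul]
  have h4 : (4 : ℝ) ^ s ≤ 4 ^ (h + 3) * (2 ^ j * 2 ^ j) := by
    have e : (2 : ℝ) ^ j * 2 ^ j = 4 ^ j := by rw [← mul_pow]; norm_num
    rw [e, ← pow_add]
    exact pow_le_pow_right₀ (by norm_num) (by omega)
  calc (Cs.card : ℝ) * (2 ^ (s - h) * (n * (K * 4 ^ s)))
      ≤ (4 * 2 ^ s) * (2 ^ (s - h) * (n * (K * (4 ^ (h + 3) * (2 ^ j * 2 ^ j))))) := by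
        refine mul_le_mul hCcard ?_ (by positivity) (by positivity)
        gcongr
    _ = 4 * 4 ^ (h + 3) * K * n * ((2 : ℝ) ^ j * 2 ^ j * (2 ^ (s - h) * 2 ^ s)) := by ring
    _ ≤ _ := mul_le_mul_of_nonneg_left hfib' (by positivity)

/-- COUNTING at one exponent: `P` = condition at the face node, `Z` = forms (functions of the face
node and of the third vertex) -/
theorem count_osc {c1 K : ℝ} (hK0 : 0 ≤ K) {N h s : ℕ}
    (hK : ∀ (f g : ℕ → ℤ → ℝ), (∀ j x, |f j x| ≤ 1) → (∀ i x, |g i x| ≤ 1) →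
      ∑ i ∈ range (2 ^ s), ∑ j ∈ range (2 ^ s), (osc (fun n : ℤ => f j ((i : ℤ) + j + n) *
        g i ((i : ℤ) + j + n)) c1 s : ℝ) ≤ K * (4 : ℝ) ^ s)
    (hs : s ≤ N) (hNk : N ≤ k) {O : Type*} (P : V k × V k × (V k × ℕ) → Prop)
    (Z : V k × V k × (V k × ℕ) → V k → Finset O) (n : ℕ)
    (hZ : ∀ κ c, (Z κ c).card ≤ n)
    (U G' : O → V k → V k → V k → ℝ) (hU : ∀ o c b d, |U o c b d| ≤ 1)
    (hG : ∀ o c a d, |G' o c a d| ≤ 1) :
    ∑ q ∈ pts k N, ind (P (fkey h s q)) * ∑ o ∈ Z (fkey h s q) q.1,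
      (osc (fun m : ℤ => U o q.1 q.2.2.1 (q.2.1 + q.2.2.1 + q.1 + (m : V k)) *
        G' o q.1 q.2.1 (q.2.1 + q.2.2.1 + q.1 + (m : V k))) c1 s : ℝ) ≤
      4 * 4 ^ (h + 3) * K * n * ∑ q ∈ pts k N, ind (P (fkey h s q)) := by
  classical
  set KS := (pts k N).image (fkey h s) with hKS
  have hmaps : ∀ q ∈ pts k N, fkey h s q ∈ KS := fun q hq => Finset.mem_image_of_mem _ hq
  rw [← Finset.sum_fiberwise_of_maps_to hmaps, ← Finset.sum_fiberwise_of_maps_to hmaps
    (fun q => ind (P (fkey h s q))), Finset.mul_sum]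
  refine Finset.sum_le_sum fun κ hκ => ?_
  obtain ⟨q0, hq0, rfl⟩ := Finset.mem_image.1 hκ
  have e1 : ∑ q ∈ (pts k N).filter (fun q => fkey h s q = fkey h s q0),
      ind (P (fkey h s q)) * ∑ o ∈ Z (fkey h s q) q.1,
      (osc (fun m : ℤ => U o q.1 q.2.2.1 (q.2.1 + q.2.2.1 + q.1 + (m : V k)) *
        G' o q.1 q.2.1 (q.2.1 + q.2.2.1 + q.1 + (m : V k))) c1 s : ℝ) =
      ind (P (fkey h s q0)) * ∑ q ∈ (pts k N).filter (fun q => fkey h s q = fkey h s q0),
        ∑ o ∈ Z (fkey h s q0) q.1,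
      (osc (fun m : ℤ => U o q.1 q.2.2.1 (q.2.1 + q.2.2.1 + q.1 + (m : V k)) *
        G' o q.1 q.2.1 (q.2.1 + q.2.2.1 + q.1 + (m : V k))) c1 s : ℝ) := by
    rw [Finset.mul_sum]
    refine Finset.sum_congr rfl fun q hq => ?_
    rw [Finset.mem_filter] at hq
    rw [hq.2]
  have e2 : ∑ q ∈ (pts k N).filter (fun q => fkey h s q = fkey h s q0), ind (P (fkey h s q)) =
      ind (P (fkey h s q0)) * (((pts k N).filter fun q => fkey h s q = fkey h s q0).card : ℝ) := by
    rw [Finset.sum_congr rfl (g := fun _ => ind (P (fkey h s q0))) (fun q hq => by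
      rw [Finset.mem_filter] at hq
      rw [hq.2]), Finset.sum_const, nsmul_eq_mul, mul_comm]
  rw [e1, e2]
  have h1 := fiber_osc (h := h) hK0 hK hs hNk (Z (fkey h s q0)) n (hZ _) U G' hU hG q0 hq0
  calc _ ≤ ind (P (fkey h s q0)) * (4 * 4 ^ (h + 3) * K * n *
        (((pts k N).filter fun q => fkey h s q = fkey h s q0).card : ℝ)) :=
        mul_le_mul_of_nonneg_left h1 (ind_nonneg _)
    _ = _ := by ring

end Pool.Agent.M3.S6
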