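/-
M3 (MP_4d8f14_an), section 6 (6.3), module S6Form (helper66).
LAYER 0: the structured functions of a fixed layer are combinations of products of static signs,
indexed by the subsets of lists of public births.  The difference of the process with the full
functions and the process with the residuals has marks.
-/
import Mathlib
import Pool.Agent.M3.S6Cnt

set_option autoImplicit false

open Finset Pool.Agent.PWZ Pool.PWZ Pool.M3B

namespace Pool.Agent.M3.S6

open Pool.Agent.M3.Bin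

variable {k : ℕ}

/-! ### three vertices, cyclic notation -/

theorem prod3 (i : Fin 3) (f : Fin 3 → ℝ) : ∏ j, f j = f i * f (i + 1) * f (i + 2) := by
  fin_cases i
  · rw [Fin.prod_univ_three]; rfl
  · rw [Fin.prod_univ_three]
    show f 0 * f 1 * f 2 = f 1 * f 2 * f 0
    ring
  · rw [Fin.prod_univ_three]
    show f 0 * f 1 * f 2 = f 2 * f 0 * f 1
    ring

theorem sum3 (i : Fin 3) (x : Fin 3 → V k) : ∑ j, x j = x (i + 1) + x (i + 2) + x i := by
  fin_cases i
  · rw [Fin.sum_univ_three]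
    show x 0 + x 1 + x 2 = x 1 + x 2 + x 0
    ring
  · rw [Fin.sum_univ_three]
    show x 0 + x 1 + x 2 = x 2 + x 0 + x 1
    ring
  · rw [Fin.sum_univ_three]
    rfl

theorem add11 (i : Fin 3) : i + 1 + 1 = i + 2 := by fin_cases i <;> rfl
theorem add12 (i : Fin 3) : i + 1 + 2 = i := by fin_cases i <;> rfl
theorem add21 (i : Fin 3) : i + 2 + 1 = i := by fin_cases i <;> rfl
theorem add22 (i : Fin 3) : i + 2 + 2 = i + 1 := by fin_cases i <;> rfl
theorem ne1 (i : Fin 3) : i + 1 ≠ i := by fin_cases i <;> decide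
theorem ne2 (i : Fin 3) : i + 2 ≠ i := by fin_cases i <;> decide
theorem ne21 (i : Fin 3) : i + 2 ≠ i + 1 := by fin_cases i <;> decide
theorem cases3 (i j : Fin 3) : j = i ∨ j = i + 1 ∨ j = i + 2 := by
  fin_cases i <;> fin_cases j <;> decide

/-- coordinates with a distinguished vertex -/
def rot (i : Fin 3) : (Fin 3 → V k) ≃ V k × V k × V k where
  toFun x := (x i, x (i + 1), x (i + 2))
  invFun q := fun j => if j = i then q.1 else if j = i + 1 then q.2.1 else q.2.2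
  left_inv x := by
    funext j
    rcases cases3 i j with rfl | rfl | rfl
    · simp
    · simp [ne1]
    · simp [ne2, ne21]
  right_inv q := by
    obtain ⟨c, a, b⟩ := q
    simp [ne1, ne2, ne21]

/-- the face node of the face `i` -/
def fk (h s : ℕ) (i : Fin 3) (x : Fin 3 → V k) (w : ℕ) : V k × V k × (V k × ℕ) :=
  (flr (s - (h + 3)) (x (i + 1)), flr (s - (h + 3)) (x (i + 2)), G h s (∑ j, x j) w)

theorem sum_pts (i : Fin 3) (N : ℕ) (f : (Fin 3 → V k) → ℕ → ℝ) :
    ∑ x : Fin 3 → V k, ∑ w ∈ range (2 ^ N), f x w =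
      ∑ q ∈ pts k N, f ((rot i).symm (q.1, q.2.1, q.2.2.1)) q.2.2.2 := by
  rw [← (rot i).symm.sum_comp]
  unfold pts
  rw [Finset.sum_product, Fintype.sum_prod_type]
  refine Finset.sum_congr rfl fun c _ => ?_
  rw [Finset.sum_product, Fintype.sum_prod_type]
  refine Finset.sum_congr rfl fun a _ => ?_
  rw [Finset.sum_product]

/-- counting for the face `i` -/
theorem count3 {c1 K : ℝ} (hK0 : 0 ≤ K) {N h s : ℕ}
    (hK : ∀ (f g : ℕ → ℤ → ℝ), (∀ j x, |f j x| ≤ 1) → (∀ i x, |g i x| ≤ 1) →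
      ∑ i ∈ range (2 ^ s), ∑ j ∈ range (2 ^ s), (osc (fun n : ℤ => f j ((i : ℤ) + j + n) *
        g i ((i : ℤ) + j + n)) c1 s : ℝ) ≤ K * (4 : ℝ) ^ s)
    (hs : s ≤ N) (hNk : N ≤ k) {O : Type*} (i : Fin 3) (P : V k × V k × (V k × ℕ) → Prop)
    (Z : V k × V k × (V k × ℕ) → V k → Finset O) (n : ℕ)
    (hZ : ∀ κ c, (Z κ c).card ≤ n)
    (U G' : O → V k → V k → V k → ℝ) (hU : ∀ o c b d, |U o c b d| ≤ 1)
    (hG : ∀ o c a d, |G' o c a d| ≤ 1) :
    ∑ x : Fin 3 → V k, ∑ w ∈ range (2 ^ N), ind (P (fk h s i x w)) *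
      ∑ o ∈ Z (fk h s i x w) (x i), (osc (fun m : ℤ => U o (x i) (x (i + 2)) (∑ j, x j + (m : V k)) *
        G' o (x i) (x (i + 1)) (∑ j, x j + (m : V k))) c1 s : ℝ) ≤
      4 * 4 ^ (h + 3) * K * n * ∑ x : Fin 3 → V k, ∑ w ∈ range (2 ^ N), ind (P (fk h s i x w)) := by
  have hrot : ∀ q : Pt k, ((rot i).symm (q.1, q.2.1, q.2.2.1)) i = q.1 ∧
      ((rot i).symm (q.1, q.2.1, q.2.2.1)) (i + 1) = q.2.1 ∧
      ((rot i).symm (q.1, q.2.1, q.2.2.1)) (i + 2) = q.2.2.1 := by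
    intro q
    have h1 := (rot i).apply_symm_apply (q.1, q.2.1, q.2.2.1)
    have h2 : (rot i) ((rot i).symm (q.1, q.2.1, q.2.2.1)) =
      (((rot i).symm (q.1, q.2.1, q.2.2.1)) i, ((rot i).symm (q.1, q.2.1, q.2.2.1)) (i + 1),
        ((rot i).symm (q.1, q.2.1, q.2.2.1)) (i + 2)) := rfl
    rw [h2] at h1
    simp only [Prod.mk.injEq] at h1
    exact ⟨h1.1, h1.2.1, h1.2.2⟩
  have hfk : ∀ q : Pt k, fk h s i ((rot i).symm (q.1, q.2.1, q.2.2.1)) q.2.2.2 = fkey h s q := by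
    intro q
    obtain ⟨h1, h2, h3⟩ := hrot q
    unfold fk fkey
    rw [sum3 i, h1, h2, h3]
  rw [sum_pts i, sum_pts i]
  have h1 := count_osc (h := h) hK0 hK hs hNk P Z n hZ U G' hU hG
  have e1 : ∀ q ∈ pts k N, ind (P (fk h s i ((rot i).symm (q.1, q.2.1, q.2.2.1)) q.2.2.2)) *
      ∑ o ∈ Z (fk h s i ((rot i).symm (q.1, q.2.1, q.2.2.1)) q.2.2.2)
        (((rot i).symm (q.1, q.2.1, q.2.2.1)) i),
        (osc (fun m : ℤ => U o (((rot i).symm (q.1, q.2.1, q.2.2.1)) i)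
          (((rot i).symm (q.1, q.2.1, q.2.2.1)) (i + 2))
          (∑ j, ((rot i).symm (q.1, q.2.1, q.2.2.1)) j + (m : V k)) *
        G' o (((rot i).symm (q.1, q.2.1, q.2.2.1)) i) (((rot i).symm (q.1, q.2.1, q.2.2.1)) (i + 1))
          (∑ j, ((rot i).symm (q.1, q.2.1, q.2.2.1)) j + (m : V k))) c1 s : ℝ) =
      ind (P (fkey h s q)) * ∑ o ∈ Z (fkey h s q) q.1,
      (osc (fun m : ℤ => U o q.1 q.2.2.1 (q.2.1 + q.2.2.1 + q.1 + (m : V k)) *
        G' o q.1 q.2.1 (q.2.1 + q.2.2.1 + q.1 + (m : V k))) c1 s : ℝ) := by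
    intro q _
    obtain ⟨h1, h2, h3⟩ := hrot q
    rw [hfk, sum3 i, h1, h2, h3]
  have e2 : ∀ q ∈ pts k N, ind (P (fk h s i ((rot i).symm (q.1, q.2.1, q.2.2.1)) q.2.2.2)) =
      ind (P (fkey h s q)) := by
    intro q _
    rw [hfk]
  rw [Finset.sum_congr rfl e1, Finset.sum_congr rfl e2]
  exact h1

/-! ### the data -/

/-- the structured functions of a fixed layer: lists of births `L`, public births `Pub`, signs `A`,
`B` of the two vertices of the face, universal coefficients `cf` -/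
structure PS (k N h : ℕ) (T : Type) where
  A : Fin 3 → T → V k → V k → ℝ
  B : Fin 3 → T → V k → V k → ℝ
  L : Fin 3 → ℕ → (Fin 3 → V k) → ℕ → Finset T
  Pub : Fin 3 → ℕ → (Fin 3 → V k) → ℕ → Finset T
  cf : Fin 3 → ℕ → (Fin 3 → V k) → ℕ → Finset T → ℝ
  A_le : ∀ i τ v d, |A i τ v d| ≤ 1
  B_le : ∀ i τ v d, |B i τ v d| ≤ 1
  cf_le : ∀ i e x w I, |cf i e x w I| ≤ 1
  sub : ∀ i e x w, L i e x w ⊆ Pub i e x w
  cumL : ∀ i e x w, e < N → L i (e + 1) x w ⊆ L i e x w
  cumP : ∀ i e x w, e < N → Pub i (e + 1) x w ⊆ Pub i e x w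
  node : ∀ i e x x' w w', e ≤ N → fk h e i x w = fk h e i x' w' → Pub i e x w = Pub i e x' w'
  stat : ∀ i e x w, e < N → L i (e + 1) x w = L i e x w → cf i (e + 1) x w = cf i e x w

variable {N h : ℕ} {T : Type}

/-- the structured function -/
noncomputable def PS.S (D : PS k N h T) (i : Fin 3) (e : ℕ) (x : Fin 3 → V k) (w : ℕ) (d : V k) : ℝ :=
  ∑ I ∈ (D.L i e x w).powerset, D.cf i e x w I *
    ∏ τ ∈ I, (D.A i τ (x (i + 1)) d * D.B i τ (x (i + 2)) d)

/-- factor of a form -/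
noncomputable def PS.val (D : PS k N h T) (F : Fin 3 → V k → V k → V k → ℝ) (i : Fin 3) :
    Option (Finset T) → V k → V k → V k → ℝ
  | none, p, q, d => F i p q d
  | some I, p, q, d => ∏ τ ∈ I, (D.A i τ p d * D.B i τ q d)

/-- the function of a form -/
noncomputable def PS.fm (D : PS k N h T) (F : Fin 3 → V k → V k → V k → ℝ)
    (o : Fin 3 → Option (Finset T)) (x : Fin 3 → V k) (d : V k) : ℝ :=
  ∏ i, D.val F i (o i) (x (i + 1)) (x (i + 2)) d

/-- coefficient of a factor -/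
noncomputable def PS.cc (D : PS k N h T) (i : Fin 3) (e : ℕ) (x : Fin 3 → V k) (w : ℕ) :
    Option (Finset T) → ℝ
  | none => 1
  | some I => - D.cf i e x w I

theorem PS.val_le (D : PS k N h T) {F : Fin 3 → V k → V k → V k → ℝ}
    (hF : ∀ i p q d, |F i p q d| ≤ 1) (i : Fin 3) (o : Option (Finset T)) (p q d : V k) :
    |D.val F i o p q d| ≤ 1 := by
  cases o with
  | none => exact hF i p q d
  | some I =>
    show |∏ τ ∈ I, (D.A i τ p d * D.B i τ q d)| ≤ 1
    rw [Finset.abs_prod]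
    refine Finset.prod_le_one (fun _ _ => abs_nonneg _) fun τ _ => ?_
    rw [abs_mul]
    exact mul_le_one₀ (D.A_le i τ p d) (abs_nonneg _) (D.B_le i τ q d)

theorem PS.cc_le (D : PS k N h T) (i : Fin 3) (e : ℕ) (x : Fin 3 → V k) (w : ℕ)
    (o : Option (Finset T)) : |D.cc i e x w o| ≤ 1 := by
  cases o with
  | none => show |(1 : ℝ)| ≤ 1; simp
  | some I => show |-D.cf i e x w I| ≤ 1; rw [abs_neg]; exact D.cf_le i e x w I

/-- the forms of the current lists -/
def PS.FL (D : PS k N h T) (e : ℕ) (x : Fin 3 → V k) (w : ℕ) : Finset (Fin 3 → Option (Finset T)) :=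
  Fintype.piFinset fun i => Finset.insertNone (D.L i e x w).powerset

/-- the forms of the public births -/
def PS.FP (D : PS k N h T) (e : ℕ) (x : Fin 3 → V k) (w : ℕ) : Finset (Fin 3 → Option (Finset T)) :=
  Fintype.piFinset fun i => Finset.insertNone (D.Pub i e x w).powerset

/-- EXPANSION of the product of the residuals -/
theorem PS.expand (D : PS k N h T) (F : Fin 3 → V k → V k → V k → ℝ) (e : ℕ) (x : Fin 3 → V k)
    (w : ℕ) (d : V k) :
    ∏ i, (F i (x (i + 1)) (x (i + 2)) d - D.S i e x w d) =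
      ∑ o ∈ D.FL e x w, (∏ i, D.cc i e x w (o i)) * D.fm F o x d := by
  have h1 : ∀ i, F i (x (i + 1)) (x (i + 2)) d - D.S i e x w d =
      ∑ o ∈ Finset.insertNone (D.L i e x w).powerset,
        D.cc i e x w o * D.val F i o (x (i + 1)) (x (i + 2)) d := by
    intro i
    rw [Finset.sum_insertNone]
    have e1 : D.cc i e x w none * D.val F i none (x (i + 1)) (x (i + 2)) d =
        F i (x (i + 1)) (x (i + 2)) d := by
      show 1 * F i (x (i + 1)) (x (i + 2)) d = _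
      rw [one_mul]
    rw [e1, sub_eq_add_neg]
    congr 1
    unfold PS.S
    rw [← Finset.sum_neg_distrib]
    refine Finset.sum_congr rfl fun I _ => ?_
    show _ = -D.cf i e x w I * ∏ τ ∈ I, (D.A i τ (x (i + 1)) d * D.B i τ (x (i + 2)) d)
    ring
  rw [Finset.prod_congr rfl fun i _ => h1 i, Finset.prod_univ_sum]
  refine Finset.sum_congr rfl fun o _ => ?_
  rw [Finset.prod_mul_distrib]
  rfl

/-! ### forms -/

open Classical in
/-- the forms which are completed at the exponent `s` -/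
noncomputable def PS.New (D : PS k N h T) (s : ℕ) (x : Fin 3 → V k) (w : ℕ) :
    Finset (Fin 3 → Option (Finset T)) :=
  (D.FP s x w).filter fun o => o ≠ (fun _ => none) ∧ (s = N ∨ o ∉ D.FP (s + 1) x w)

theorem PS.mem_FL (D : PS k N h T) {e : ℕ} {x : Fin 3 → V k} {w : ℕ} {o : Fin 3 → Option (Finset T)} :
    o ∈ D.FL e x w ↔ ∀ i, ∀ I, o i = some I → I ⊆ D.L i e x w := by
  unfold PS.FL
  rw [Fintype.mem_piFinset]
  refine forall_congr' fun i => ?_
  rw [Finset.mem_insertNone]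
  constructor
  · intro h1 I hI
    exact Finset.mem_powerset.1 (h1 I (by rw [hI]; rfl))
  · intro h1 I hI
    exact Finset.mem_powerset.2 (h1 I (Option.mem_def.1 hI))

theorem PS.mem_FP (D : PS k N h T) {e : ℕ} {x : Fin 3 → V k} {w : ℕ} {o : Fin 3 → Option (Finset T)} :
    o ∈ D.FP e x w ↔ ∀ i, ∀ I, o i = some I → I ⊆ D.Pub i e x w := by
  unfold PS.FP
  rw [Fintype.mem_piFinset]
  refine forall_congr' fun i => ?_
  rw [Finset.mem_insertNone]
  constructor
  · intro h1 I hI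
    exact Finset.mem_powerset.1 (h1 I (by rw [hI]; rfl))
  · intro h1 I hI
    exact Finset.mem_powerset.2 (h1 I (Option.mem_def.1 hI))

theorem PS.FL_sub (D : PS k N h T) (e : ℕ) (x : Fin 3 → V k) (w : ℕ) : D.FL e x w ⊆ D.FP e x w := by
  intro o ho
  rw [PS.mem_FL] at ho
  rw [PS.mem_FP]
  exact fun i I hI => (ho i I hI).trans (D.sub i e x w)

/-- every form of the current lists has been completed -/
theorem PS.exists_new (D : PS k N h T) (x : Fin 3 → V k) (w : ℕ) {o : Fin 3 → Option (Finset T)}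
    (ho : o ≠ fun _ => none) : ∀ n e : ℕ, e + n = N → o ∈ D.FP e x w →
      ∃ s, e ≤ s ∧ s ≤ N ∧ o ∈ D.New s x w := by
  classical
  intro n
  induction n with
  | zero =>
    intro e he h1
    refine ⟨e, le_rfl, by omega, ?_⟩
    unfold PS.New
    rw [Finset.mem_filter]
    exact ⟨h1, ho, Or.inl (by omega)⟩
  | succ n ih =>
    intro e he h1
    by_cases h2 : o ∈ D.FP (e + 1) x w
    · obtain ⟨s, hs1, hs2, hs3⟩ := ih (e + 1) (by omega) h2
      exact ⟨s, by omega, hs2, hs3⟩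
    · refine ⟨e, le_rfl, by omega, ?_⟩
      unfold PS.New
      rw [Finset.mem_filter]
      exact ⟨h1, ho, Or.inr h2⟩

theorem card_FP_le (D : PS k N h T) (e : ℕ) (x : Fin 3 → V k) (w N0 : ℕ)
    (hN0 : ∀ i, (D.Pub i e x w).card ≤ N0) : (D.FP e x w).card ≤ (2 ^ N0 + 1) ^ 3 := by
  unfold PS.FP
  rw [Fintype.card_piFinset]
  calc ∏ i, (Finset.insertNone (D.Pub i e x w).powerset).card
      ≤ ∏ _i : Fin 3, (2 ^ N0 + 1) := by
        refine Finset.prod_le_prod' fun i _ => ?_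
        rw [Finset.card_insertNone, Finset.card_powerset]
        have := Nat.pow_le_pow_right (show 0 < 2 by norm_num) (hN0 i)
        omega
    _ = (2 ^ N0 + 1) ^ 3 := by simp

/-- decreasing sets change rarely -/
theorem tele {T : Type} (S : ℕ → Finset T) (n : ℕ) (hS : ∀ e < n, S (e + 1) ⊆ S e) :
    ∑ e ∈ range n, ind (S (e + 1) ≠ S e) + (S n).card ≤ (S 0).card := by
  induction n with
  | zero => simp
  | succ n ih =>
    have h1 := ih fun e he => hS e (by omega)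
    rw [Finset.sum_range_succ]
    have h2 : ind (S (n + 1) ≠ S n) + ((S (n + 1)).card : ℝ) ≤ (S n).card := by
      by_cases h3 : S (n + 1) = S n
      · rw [ind_not (by simpa using h3), zero_add, h3]
      · rw [ind_of h3]
        have h4 : (S (n + 1)).card < (S n).card :=
          Finset.card_lt_card (Finset.ssubset_iff_subset_ne.2 ⟨hS n (by omega), h3⟩)
        have h5 : (S (n + 1)).card + 1 ≤ (S n).card := h4
        have h6 : ((S (n + 1)).card : ℝ) + 1 ≤ (S n).card := by exact_mod_cast h5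
        linarith
    linarith

/-- the average of a function over the window of the level `l` -/
noncomputable def lav (f : V k → ℝ) (l : ℕ) (x : Fin 3 → V k) (w : ℕ) : ℝ :=
  M3B.bav (fun n : ℤ => f (∑ j, x j + (n : V k))) l ((w % 2 ^ (l + 1) : ℕ) : ℤ)

theorem lav_pos (l w : ℕ) : (0 : ℤ) ≤ ((w % 2 ^ (l + 1) : ℕ) : ℤ) ∧
    ((w % 2 ^ (l + 1) : ℕ) : ℤ) < 2 ^ (l + 1) := by
  refine ⟨Int.natCast_nonneg _, ?_⟩
  have := Nat.mod_lt w (show 0 < 2 ^ (l + 1) by positivity)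
  exact_mod_cast this

theorem lav_sum {ι : Type*} (s : Finset ι) (c : ι → ℝ) (f : ι → V k → ℝ) (l : ℕ) (x : Fin 3 → V k)
    (w : ℕ) : lav (fun d => ∑ i ∈ s, c i * f i d) l x w = ∑ i ∈ s, c i * lav (f i) l x w := by
  unfold lav M3B.bav
  rw [Finset.sum_comm, Finset.mul_sum]
  refine Finset.sum_congr rfl fun i _ => ?_
  rw [← Finset.mul_sum]
  ring

theorem HasOsc_mono {φ : ℤ → ℝ} {c : ℝ} {L L' J : ℕ} (hL : L ≤ L') (h : HasOsc φ c L J) :
    HasOsc φ c L' J := by
  obtain ⟨p, hp, hpJ, ho⟩ := h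
  exact ⟨p, hp, by omega, ho⟩

theorem osc_mono (φ : ℤ → ℝ) (c : ℝ) {L L' : ℕ} (hL : L ≤ L') : osc φ c L ≤ osc φ c L' :=
  (HasOsc_mono hL (osc_spec φ c L)).le_osc

/-- the first vertex factor of a form, with the vertex `i` fixed -/
noncomputable def PS.Uf (D : PS k N h T) (F : Fin 3 → V k → V k → V k → ℝ) (i : Fin 3)
    (o : Fin 3 → Option (Finset T)) (c b d : V k) : ℝ :=
  (∏ τ ∈ (o i).getD ∅, D.B i τ b d) * D.val F (i + 1) (o (i + 1)) b c d

/-- the second vertex factor of a form, with the vertex `i` fixed -/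
noncomputable def PS.Gf (D : PS k N h T) (F : Fin 3 → V k → V k → V k → ℝ) (i : Fin 3)
    (o : Fin 3 → Option (Finset T)) (c a d : V k) : ℝ :=
  (∏ τ ∈ (o i).getD ∅, D.A i τ a d) * D.val F (i + 2) (o (i + 2)) c a d

theorem prod_le_one' {T : Type} (I : Finset T) (f : T → ℝ) (hf : ∀ τ, |f τ| ≤ 1) :
    |∏ τ ∈ I, f τ| ≤ 1 := by
  rw [Finset.abs_prod]
  exact Finset.prod_le_one (fun _ _ => abs_nonneg _) fun τ _ => hf τ

theorem PS.Uf_le (D : PS k N h T) {F : Fin 3 → V k → V k → V k → ℝ}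
    (hF : ∀ i p q d, |F i p q d| ≤ 1) (i : Fin 3) (o : Fin 3 → Option (Finset T)) (c b d : V k) :
    |D.Uf F i o c b d| ≤ 1 := by
  unfold PS.Uf
  rw [abs_mul]
  exact mul_le_one₀ (prod_le_one' _ _ fun τ => D.B_le i τ b d) (abs_nonneg _) (D.val_le hF _ _ _ _ _)

theorem PS.Gf_le (D : PS k N h T) {F : Fin 3 → V k → V k → V k → ℝ}
    (hF : ∀ i p q d, |F i p q d| ≤ 1) (i : Fin 3) (o : Fin 3 → Option (Finset T)) (c a d : V k) :
    |D.Gf F i o c a d| ≤ 1 := by
  unfold PS.Gf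
  rw [abs_mul]
  exact mul_le_one₀ (prod_le_one' _ _ fun τ => D.A_le i τ a d) (abs_nonneg _) (D.val_le hF _ _ _ _ _)

/-- a form in which the face `i` is structured is a product of a function of `x (i+2)` and a
function of `x (i+1)`, for a fixed vertex `i` -/
theorem PS.fm_eq (D : PS k N h T) (F : Fin 3 → V k → V k → V k → ℝ) (i : Fin 3)
    (o : Fin 3 → Option (Finset T)) (ho : (o i).isSome) (x : Fin 3 → V k) (d : V k) :
    D.fm F o x d = D.Uf F i o (x i) (x (i + 2)) d * D.Gf F i o (x i) (x (i + 1)) d := by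
  obtain ⟨I, hI⟩ := Option.isSome_iff_exists.1 ho
  unfold PS.fm PS.Uf PS.Gf
  rw [prod3 i, hI, add11, add12, add21, add22]
  have e : D.val F i (some I) (x (i + 1)) (x (i + 2)) d =
      (∏ τ ∈ I, D.A i τ (x (i + 1)) d) * ∏ τ ∈ I, D.B i τ (x (i + 2)) d := by
    show ∏ τ ∈ I, (D.A i τ (x (i + 1)) d * D.B i τ (x (i + 2)) d) = _
    rw [Finset.prod_mul_distrib]
  rw [e, Option.getD_some]
  ring

/-! ### face nodes -/

theorem fk_up {h s : ℕ} (i : Fin 3) {x x' : Fin 3 → V k} {w w' : ℕ}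
    (hf : fk h s i x w = fk h s i x' w') : fk h (s + 1) i x w = fk h (s + 1) i x' w' := by
  unfold fk at hf ⊢
  simp only [Prod.mk.injEq] at hf ⊢
  obtain ⟨h1, h2, h3⟩ := hf
  refine ⟨flr_mono_eq (by omega) h1, flr_mono_eq (by omega) h2, ?_⟩
  rw [← par_G, ← par_G, h3]

/-- all faces, if in addition the third vertex is the same -/
theorem fk_all {h s : ℕ} (i : Fin 3) {x x' : Fin 3 → V k} {w w' : ℕ}
    (hf : fk h s i x w = fk h s i x' w') (hx : x i = x' i) (j : Fin 3) :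
    fk h s j x w = fk h s j x' w' := by
  unfold fk at hf ⊢
  simp only [Prod.mk.injEq] at hf ⊢
  obtain ⟨h1, h2, h3⟩ := hf
  rcases cases3 i j with rfl | rfl | rfl
  · exact ⟨h1, h2, h3⟩
  · rw [add11, add12, hx]
    exact ⟨h2, rfl, h3⟩
  · rw [add21, add22, hx]
    exact ⟨rfl, h1, h3⟩

theorem PS.FP_congr (D : PS k N h T) {s : ℕ} (hs : s ≤ N) (i : Fin 3) {x x' : Fin 3 → V k}
    {w w' : ℕ} (hf : fk h s i x w = fk h s i x' w') (hx : x i = x' i) :
    (∀ j, D.Pub j s x w = D.Pub j s x' w') ∧ D.FP s x w = D.FP s x' w' := by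
  have h1 : ∀ j, D.Pub j s x w = D.Pub j s x' w' := fun j =>
    D.node j s x x' w w' hs (fk_all i hf hx j)
  refine ⟨h1, ?_⟩
  unfold PS.FP
  congr 1
  funext j
  rw [h1 j]

end Pool.Agent.M3.S6
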