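/-
M3 (MP_4d8f14_an), section 6 (6.3), module S6Layer (helper66).
THEOREM `layer0`: the difference of the process with the full functions and the process with the
residuals of a fixed layer has marks.
-/
import Mathlib
import Pool.Agent.M3.S6Form

set_option autoImplicit false

open Finset Pool.Agent.PWZ Pool.PWZ Pool.M3B

namespace Pool.Agent.M3.S6

open Pool.Agent.M3.Bin

variable {k N h : ℕ} {T : Type}

/-- the number of sample points -/
noncomputable def tot (k N : ℕ) : ℝ := ((2 : ℝ) ^ k) ^ 3 * 2 ^ N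

theorem sum_one (k N : ℕ) : ∑ _x : Fin 3 → V k, ∑ _w ∈ range (2 ^ N), (1 : ℝ) = tot k N := by
  unfold tot
  simp only [Finset.sum_const, Finset.card_univ, Finset.card_range, nsmul_eq_mul, mul_one,
    Fintype.card_fun, ZMod.card, Fintype.card_fin]
  push_cast
  ring

theorem PS.Pub_anti (D : PS k N h T) (i : Fin 3) (x : Fin 3 → V k) (w : ℕ) :
    ∀ e e' : ℕ, e ≤ e' → e' ≤ N → D.Pub i e' x w ⊆ D.Pub i e x w := by
  intro e e' he he'
  induction e', he using Nat.le_induction with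
  | base => exact Finset.Subset.refl _
  | succ e' he ih => exact (D.cumP i e' x w (by omega)).trans (ih (by omega))

open Classical in
/-- the forms at the exponent `s` in which the face `i` is structured, if there are few births -/
noncomputable def PS.Zx (D : PS k N h T) (N0 s : ℕ) (i : Fin 3) (x : Fin 3 → V k) (w : ℕ) :
    Finset (Fin 3 → Option (Finset T)) :=
  if ∀ j, (D.Pub j s x w).card ≤ N0 then (D.FP s x w).filter fun o => (o i).isSome else ∅

open Classical in
/-- the same as a function of the face node and the third vertex -/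
noncomputable def PS.Zk (D : PS k N h T) (N0 s : ℕ) (i : Fin 3) (κ : V k × V k × (V k × ℕ))
    (c : V k) : Finset (Fin 3 → Option (Finset T)) :=
  if hx : ∃ q : (Fin 3 → V k) × ℕ, fk h s i q.1 q.2 = κ ∧ q.1 i = c then
    D.Zx N0 s i (Classical.choose hx).1 (Classical.choose hx).2 else ∅

theorem PS.Zk_eq (D : PS k N h T) (N0 : ℕ) {s : ℕ} (hs : s ≤ N) (i : Fin 3) (x : Fin 3 → V k)
    (w : ℕ) : D.Zk N0 s i (fk h s i x w) (x i) = D.Zx N0 s i x w := by
  classical
  have hx : ∃ q : (Fin 3 → V k) × ℕ, fk h s i q.1 q.2 = fk h s i x w ∧ q.1 i = x i :=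
    ⟨(x, w), rfl, rfl⟩
  unfold PS.Zk
  rw [dif_pos hx]
  obtain ⟨h1, h2⟩ := Classical.choose_spec hx
  obtain ⟨h3, h4⟩ := D.FP_congr hs i h1 h2
  unfold PS.Zx
  rw [h4]
  simp only [h3]

theorem PS.Zk_card (D : PS k N h T) (N0 s : ℕ) (i : Fin 3) (κ : V k × V k × (V k × ℕ))
    (c : V k) : (D.Zk N0 s i κ c).card ≤ (2 ^ N0 + 1) ^ 3 := by
  classical
  unfold PS.Zk
  split_ifs with hx
  · unfold PS.Zx
    split_ifs with h1
    · exact (Finset.card_filter_le _ _).trans (card_FP_le D _ _ _ N0 h1)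
    · rw [Finset.card_empty]; exact Nat.zero_le _
  · rw [Finset.card_empty]; exact Nat.zero_le _

/-- new public births of the face `i` at the exponent `s` -/
def PS.nw (D : PS k N h T) (s : ℕ) (i : Fin 3) (x : Fin 3 → V k) (w : ℕ) : Prop :=
  s = N ∨ D.Pub i (s + 1) x w ≠ D.Pub i s x w

def PS.Pk (D : PS k N h T) (s : ℕ) (i : Fin 3) (κ : V k × V k × (V k × ℕ)) : Prop :=
  ∃ q : (Fin 3 → V k) × ℕ, fk h s i q.1 q.2 = κ ∧ D.nw s i q.1 q.2

theorem PS.Pk_iff (D : PS k N h T) {s : ℕ} (hs : s ≤ N) (i : Fin 3) (x : Fin 3 → V k) (w : ℕ) :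
    D.Pk s i (fk h s i x w) ↔ D.nw s i x w := by
  constructor
  · rintro ⟨⟨x', w'⟩, h1, h2⟩
    simp only at h1 h2
    rcases h2 with h2 | h2
    · exact Or.inl h2
    · by_cases hsN : s = N
      · exact Or.inl hsN
      · right
        rw [← D.node i s x' x w' w hs h1, ← D.node i (s + 1) x' x w' w (by omega) (fk_up i h1)]
        exact h2
  · intro h1
    exact ⟨(x, w), rfl, h1⟩

/-- the completed forms of a sample point with few births -/
theorem PS.New_sub (D : PS k N h T) (N0 s : ℕ) (x : Fin 3 → V k) (w : ℕ)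
    (hN0 : ∀ i, (D.Pub i s x w).card ≤ N0)
    (o : Fin 3 → Option (Finset T)) (ho : o ∈ D.New s x w) :
    ∃ i, D.nw s i x w ∧ o ∈ D.Zx N0 s i x w := by
  classical
  unfold PS.New at ho
  rw [Finset.mem_filter] at ho
  obtain ⟨h1, h2, h3⟩ := ho
  have hZ : ∀ i, (o i).isSome → o ∈ D.Zx N0 s i x w := by
    intro i hi
    unfold PS.Zx
    rw [if_pos hN0, Finset.mem_filter]
    exact ⟨h1, hi⟩
  by_cases hsN : s = N
  · obtain ⟨i, hi⟩ := Function.ne_iff.1 h2
    exact ⟨i, Or.inl hsN, hZ i (Option.isSome_iff_ne_none.2 hi)⟩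
  · have h4 := h3.resolve_left hsN
    rw [PS.mem_FP] at h4
    push Not at h4
    obtain ⟨i, I, hI, hn⟩ := h4
    refine ⟨i, Or.inr ?_, hZ i (by rw [hI]; rfl)⟩
    intro he
    apply hn
    rw [he]
    exact (D.mem_FP.1 h1) i I hI

/-- the number of oscillations of the forms completed at the exponent `s` -/
theorem PS.new_osc (D : PS k N h T) {c1 K : ℝ} (hK0 : 0 ≤ K) {s : ℕ}
    (hK : ∀ (f g : ℕ → ℤ → ℝ), (∀ j x, |f j x| ≤ 1) → (∀ i x, |g i x| ≤ 1) →
      ∑ i ∈ range (2 ^ s), ∑ j ∈ range (2 ^ s), (osc (fun n : ℤ => f j ((i : ℤ) + j + n) *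
        g i ((i : ℤ) + j + n)) c1 s : ℝ) ≤ K * (4 : ℝ) ^ s)
    (hs : s ≤ N) (hNk : N ≤ k) (F : Fin 3 → V k → V k → V k → ℝ) (hF : ∀ i p q d, |F i p q d| ≤ 1)
    (N0 : ℕ) :
    ∑ x : Fin 3 → V k, ∑ w ∈ range (2 ^ N), (if ∀ i, (D.Pub i s x w).card ≤ N0 then
      ∑ o ∈ D.New s x w, (osc (fun m : ℤ => D.fm F o x (∑ j, x j + (m : V k))) c1 s : ℝ) else 0) ≤
      4 * 4 ^ (h + 3) * K * ((2 ^ N0 + 1) ^ 3 : ℕ) *
        ∑ i, ∑ x : Fin 3 → V k, ∑ w ∈ range (2 ^ N), ind (D.nw s i x w) := by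
  classical
  have hO : ∀ i : Fin 3, ∀ x : Fin 3 → V k, ∀ w : ℕ, ∀ o ∈ D.Zx N0 s i x w,
      (osc (fun m : ℤ => D.Uf F i o (x i) (x (i + 2)) (∑ j, x j + (m : V k)) *
        D.Gf F i o (x i) (x (i + 1)) (∑ j, x j + (m : V k))) c1 s : ℝ) =
      (osc (fun m : ℤ => D.fm F o x (∑ j, x j + (m : V k))) c1 s : ℝ) := by
    intro i x w o ho
    have h1 : (o i).isSome := by
      unfold PS.Zx at ho
      split_ifs at ho with h2
      · exact (Finset.mem_filter.1 ho).2
      · exact absurd ho (Finset.notMem_empty _)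
    congr 2
    funext m
    exact (D.fm_eq F i o h1 x _).symm
  have hpt : ∀ (x : Fin 3 → V k) (w : ℕ), (if ∀ i, (D.Pub i s x w).card ≤ N0 then
      ∑ o ∈ D.New s x w, (osc (fun m : ℤ => D.fm F o x (∑ j, x j + (m : V k))) c1 s : ℝ) else 0) ≤
      ∑ i : Fin 3, ind (D.Pk s i (fk h s i x w)) * ∑ o ∈ D.Zk N0 s i (fk h s i x w) (x i),
        (osc (fun m : ℤ => D.Uf F i o (x i) (x (i + 2)) (∑ j, x j + (m : V k)) *
        D.Gf F i o (x i) (x (i + 1)) (∑ j, x j + (m : V k))) c1 s : ℝ) := by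
    intro x w
    have hnn : 0 ≤ ∑ i : Fin 3, ind (D.Pk s i (fk h s i x w)) *
        ∑ o ∈ D.Zk N0 s i (fk h s i x w) (x i),
        (osc (fun m : ℤ => D.Uf F i o (x i) (x (i + 2)) (∑ j, x j + (m : V k)) *
        D.Gf F i o (x i) (x (i + 1)) (∑ j, x j + (m : V k))) c1 s : ℝ) :=
      Finset.sum_nonneg fun i _ => mul_nonneg (ind_nonneg _)
        (Finset.sum_nonneg fun o _ => Nat.cast_nonneg _)
    split_ifs with hN0
    · have e1 : ∀ i : Fin 3, ind (D.Pk s i (fk h s i x w)) *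
          ∑ o ∈ D.Zk N0 s i (fk h s i x w) (x i),
          (osc (fun m : ℤ => D.Uf F i o (x i) (x (i + 2)) (∑ j, x j + (m : V k)) *
          D.Gf F i o (x i) (x (i + 1)) (∑ j, x j + (m : V k))) c1 s : ℝ) =
          ∑ o ∈ D.FP s x w, ind (D.nw s i x w) * (if o ∈ D.Zx N0 s i x w then
            (osc (fun m : ℤ => D.fm F o x (∑ j, x j + (m : V k))) c1 s : ℝ) else 0) := by
        intro i
        rw [D.Zk_eq N0 hs i x w, ← Finset.mul_sum]
        have e2 : ind (D.Pk s i (fk h s i x w)) = ind (D.nw s i x w) := by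
          congr 1
          exact propext (D.Pk_iff hs i x w)
        rw [e2]
        congr 1
        rw [← Finset.sum_filter]
        have e3 : (D.FP s x w).filter (fun o => o ∈ D.Zx N0 s i x w) = D.Zx N0 s i x w := by
          ext o
          rw [Finset.mem_filter]
          constructor
          · exact fun h1 => h1.2
          · intro h1
            refine ⟨?_, h1⟩
            unfold PS.Zx at h1
            rw [if_pos hN0] at h1
            exact (Finset.mem_filter.1 h1).1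
        rw [e3]
        exact Finset.sum_congr rfl fun o ho => hO i x w o ho
      rw [Finset.sum_congr rfl fun i _ => e1 i, Finset.sum_comm]
      have e4 : D.New s x w ⊆ D.FP s x w := by
        unfold PS.New
        exact Finset.filter_subset _ _
      refine (Finset.sum_le_sum fun o ho => ?_).trans
        (Finset.sum_le_sum_of_subset_of_nonneg e4 fun o _ _ =>
          Finset.sum_nonneg fun i _ => mul_nonneg (ind_nonneg _) (by split_ifs <;> positivity))
      obtain ⟨i, hi1, hi2⟩ := D.New_sub N0 s x w hN0 o ho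
      calc (osc (fun m : ℤ => D.fm F o x (∑ j, x j + (m : V k))) c1 s : ℝ)
          = ind (D.nw s i x w) * (if o ∈ D.Zx N0 s i x w then
            (osc (fun m : ℤ => D.fm F o x (∑ j, x j + (m : V k))) c1 s : ℝ) else 0) := by
            rw [ind_of hi1, if_pos hi2, one_mul]
        _ ≤ _ := Finset.single_le_sum (f := fun i => ind (D.nw s i x w) *
            (if o ∈ D.Zx N0 s i x w then
            (osc (fun m : ℤ => D.fm F o x (∑ j, x j + (m : V k))) c1 s : ℝ) else 0))
            (fun i _ => mul_nonneg (ind_nonneg _) (by split_ifs <;> positivity))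
            (Finset.mem_univ i)
    · exact hnn
  refine (Finset.sum_le_sum fun x _ => Finset.sum_le_sum fun w _ => hpt x w).trans ?_
  have e5 : ∑ x : Fin 3 → V k, ∑ w ∈ range (2 ^ N), ∑ i : Fin 3,
      ind (D.Pk s i (fk h s i x w)) * ∑ o ∈ D.Zk N0 s i (fk h s i x w) (x i),
        (osc (fun m : ℤ => D.Uf F i o (x i) (x (i + 2)) (∑ j, x j + (m : V k)) *
        D.Gf F i o (x i) (x (i + 1)) (∑ j, x j + (m : V k))) c1 s : ℝ) =
      ∑ i : Fin 3, ∑ x : Fin 3 → V k, ∑ w ∈ range (2 ^ N),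
      ind (D.Pk s i (fk h s i x w)) * ∑ o ∈ D.Zk N0 s i (fk h s i x w) (x i),
        (osc (fun m : ℤ => D.Uf F i o (x i) (x (i + 2)) (∑ j, x j + (m : V k)) *
        D.Gf F i o (x i) (x (i + 1)) (∑ j, x j + (m : V k))) c1 s : ℝ) := by
    rw [Finset.sum_congr rfl fun x _ => Finset.sum_comm, Finset.sum_comm]
  rw [e5, Finset.mul_sum]
  refine Finset.sum_le_sum fun i _ => ?_
  have h6 := count3 (c1 := c1) (h := h) hK0 hK hs hNk i (D.Pk s i) (D.Zk N0 s i) ((2 ^ N0 + 1) ^ 3)
    (D.Zk_card N0 s i) (D.Uf F i) (D.Gf F i) (D.Uf_le hF i) (D.Gf_le hF i)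
  refine h6.trans (le_of_eq ?_)
  congr 1
  refine Finset.sum_congr rfl fun x _ => Finset.sum_congr rfl fun w _ => ?_
  congr 1
  exact propext (D.Pk_iff hs i x w)

/-! ### the theorem -/

/-- the difference of the two processes at the level `l` (exponent `l + 1`) -/
noncomputable def PS.XD (D : PS k N h T) (F : Fin 3 → V k → V k → V k → ℝ) (l : ℕ)
    (x : Fin 3 → V k) (w : ℕ) : ℝ :=
  lav (fun d => ∏ i, F i (x (i + 1)) (x (i + 2)) d -
    ∏ i, (F i (x (i + 1)) (x (i + 2)) d - D.S i (l + 1) x w d)) l x w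

open Classical in
theorem PS.XD_eq (D : PS k N h T) (F : Fin 3 → V k → V k → V k → ℝ) (l : ℕ)
    (x : Fin 3 → V k) (w : ℕ) : D.XD F l x w =
      ∑ o ∈ (D.FL (l + 1) x w).erase (fun _ => none), (- ∏ i, D.cc i (l + 1) x w (o i)) *
        lav (D.fm F o x) l x w := by
  unfold PS.XD
  rw [← lav_sum]
  congr 1
  funext d
  rw [D.expand]
  have h0 : (fun _ => none : Fin 3 → Option (Finset T)) ∈ D.FL (l + 1) x w := by
    rw [D.mem_FL]
    intro i I hI
    exact absurd hI (by simp)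
  rw [← Finset.add_sum_erase _ _ h0]
  have h1 : (∏ i, D.cc i (l + 1) x w ((fun _ => none : Fin 3 → Option (Finset T)) i)) *
      D.fm F (fun _ => none) x d = ∏ i, F i (x (i + 1)) (x (i + 2)) d := by
    have e1 : ∏ i, D.cc i (l + 1) x w ((fun _ => none : Fin 3 → Option (Finset T)) i) = 1 :=
      Finset.prod_eq_one fun i _ => rfl
    rw [e1, one_mul]
    rfl
  rw [h1]
  simp only [neg_mul, Finset.sum_neg_distrib]
  ring

/-- the marks of a sample point -/
def PS.mrk (D : PS k N h T) (F : Fin 3 → V k → V k → V k → ℝ) (c1 : ℝ) (x : Fin 3 → V k)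
    (w j : ℕ) : Prop :=
  (j + 2 ≤ N ∧ ∃ i, D.L i (j + 2) x w ≠ D.L i (j + 1) x w) ∨
    ∃ s, 1 ≤ s ∧ s ≤ N ∧ ∃ o ∈ D.New s x w,
      gmark (fun l => lav (D.fm F o x) l x w) c1 (s - 1) j

/-- the exceptional points -/
def PS.exc (D : PS k N h T) (N0 : ℕ) (x : Fin 3 → V k) (w : ℕ) : Prop :=
  ∃ i, N0 < (D.Pub i 0 x w).card

/-- no marks: the lists and the coefficients do not change -/
theorem PS.const (D : PS k N h T) (F : Fin 3 → V k → V k → V k → ℝ) (c1 : ℝ) (x : Fin 3 → V k)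
    (w l' : ℕ) : ∀ d, l' + d < N → (∀ j, l' ≤ j → j < l' + d → ¬ D.mrk F c1 x w j) →
    ∀ i, D.L i (l' + d + 1) x w = D.L i (l' + 1) x w ∧
      D.cf i (l' + d + 1) x w = D.cf i (l' + 1) x w := by
  intro d
  induction d with
  | zero => intro _ _ i; exact ⟨rfl, rfl⟩
  | succ d ih =>
    intro hN hno i
    obtain ⟨h1, h2⟩ := ih (by omega) (fun j hj hj' => hno j hj (by omega)) i
    have h3 : D.L i (l' + d + 2) x w = D.L i (l' + d + 1) x w := by
      by_contra h4
      exact hno (l' + d) (by omega) (by omega) (Or.inl ⟨by omega, i, h4⟩)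
    have h4 := D.stat i (l' + d + 1) x w (by omega) h3
    exact ⟨h3.trans h1, h4.trans h2⟩

/-- between marks the difference changes by at most `2 c1` times the number of forms -/
theorem PS.close (D : PS k N h T) (F : Fin 3 → V k → V k → V k → ℝ) {c1 : ℝ} (hc1 : 0 < c1)
    (N0 : ℕ) (x : Fin 3 → V k) (w : ℕ) (hexc : ¬ D.exc N0 x w) (l' l : ℕ) (hl : l' ≤ l)
    (hlN : l < N) (hno : ∀ j, l' ≤ j → j < l → ¬ D.mrk F c1 x w j) :
    |D.XD F l x w - D.XD F l' x w| ≤ ((2 ^ N0 + 1) ^ 3 : ℕ) * (2 * c1) := by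
  classical
  obtain ⟨d, rfl⟩ := Nat.exists_eq_add_of_le hl
  have hc := D.const F c1 x w l' d hlN hno
  have hFL : D.FL (l' + d + 1) x w = D.FL (l' + 1) x w := by
    unfold PS.FL
    congr 1
    funext i
    rw [(hc i).1]
  have hcc : ∀ o : Fin 3 → Option (Finset T), ∏ i, D.cc i (l' + d + 1) x w (o i) =
      ∏ i, D.cc i (l' + 1) x w (o i) := by
    intro o
    refine Finset.prod_congr rfl fun i _ => ?_
    cases o i with
    | none => rfl
    | some I =>
      show -D.cf i (l' + d + 1) x w I = -D.cf i (l' + 1) x w I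
      rw [(hc i).2]
  rw [D.XD_eq, D.XD_eq, hFL, ← Finset.sum_sub_distrib]
  refine (Finset.abs_sum_le_sum_abs _ _).trans ?_
  have hterm : ∀ o ∈ (D.FL (l' + 1) x w).erase (fun _ => none),
      |(- ∏ i, D.cc i (l' + d + 1) x w (o i)) * lav (D.fm F o x) (l' + d) x w -
        (- ∏ i, D.cc i (l' + 1) x w (o i)) * lav (D.fm F o x) l' x w| ≤ 2 * c1 := by
    intro o ho
    rw [Finset.mem_erase] at ho
    rw [hcc, ← mul_sub, abs_mul, abs_neg]
    have h1 : |∏ i, D.cc i (l' + 1) x w (o i)| ≤ 1 := by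
      rw [Finset.abs_prod]
      exact Finset.prod_le_one (fun _ _ => abs_nonneg _) fun i _ => D.cc_le i _ x w _
    obtain ⟨s, hs1, hs2, hs3⟩ := D.exists_new x w ho.1 (N - (l' + d + 1)) (l' + d + 1) (by omega)
      (D.FL_sub _ _ _ (by rw [hFL]; exact ho.2))
    have h2 := gmark_close (fun l => lav (D.fm F o x) l x w) c1 hc1 (s - 1) (l' + d) l'
      (by omega) (by omega) (fun j hj hj' hm => hno j hj hj'
        (Or.inr ⟨s, by omega, hs2, o, hs3, hm⟩))
    calc _ ≤ 1 * (2 * c1) := mul_le_mul h1 h2.le (abs_nonneg _) zero_le_one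
      _ = 2 * c1 := one_mul _
  refine (Finset.sum_le_sum hterm).trans ?_
  rw [Finset.sum_const, nsmul_eq_mul]
  refine mul_le_mul_of_nonneg_right ?_ (by linarith)
  have h3 : ((D.FL (l' + 1) x w).erase (fun _ => none)).card ≤ (2 ^ N0 + 1) ^ 3 := by
    refine (Finset.card_le_card (Finset.erase_subset _ _)).trans ?_
    refine (Finset.card_le_card (D.FL_sub _ _ _)).trans (card_FP_le D _ x w N0 fun i => ?_)
    refine (Finset.card_le_card (D.Pub_anti i x w 0 (l' + 1) (Nat.zero_le _) (by omega))).trans ?_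
    unfold PS.exc at hexc
    push Not at hexc
    exact hexc i
  exact_mod_cast h3

/-- the number of marks of a sample point -/
theorem PS.mrk_sum (D : PS k N h T) (F : Fin 3 → V k → V k → V k → ℝ) (c1 : ℝ)
    (N0 : ℕ) (x : Fin 3 → V k) (w : ℕ) (hexc : ¬ D.exc N0 x w) :
    ∑ j ∈ range N, ind (D.mrk F c1 x w j) ≤ ∑ i, ((D.Pub i 0 x w).card : ℝ) +
      2 * ∑ s ∈ Finset.Icc 1 N, (if ∀ i, (D.Pub i s x w).card ≤ N0 then
      ∑ o ∈ D.New s x w, (osc (fun m : ℤ => D.fm F o x (∑ j, x j + (m : V k))) c1 s : ℝ)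
      else 0) := by
  classical
  have h1 : ∀ j, ind (D.mrk F c1 x w j) ≤
      ∑ i, ind (j + 2 ≤ N ∧ D.L i (j + 2) x w ≠ D.L i (j + 1) x w) +
      ∑ s ∈ Finset.Icc 1 N, ∑ o ∈ D.New s x w,
        ind (gmark (fun l => lav (D.fm F o x) l x w) c1 (s - 1) j) := by
    intro j
    have n1 : 0 ≤ ∑ i, ind (j + 2 ≤ N ∧ D.L i (j + 2) x w ≠ D.L i (j + 1) x w) :=
      Finset.sum_nonneg fun i _ => ind_nonneg _
    have n2 : 0 ≤ ∑ s ∈ Finset.Icc 1 N, ∑ o ∈ D.New s x w,
        ind (gmark (fun l => lav (D.fm F o x) l x w) c1 (s - 1) j) :=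
      Finset.sum_nonneg fun s _ => Finset.sum_nonneg fun o _ => ind_nonneg _
    by_cases hm : D.mrk F c1 x w j
    · rw [ind_of hm]
      rcases hm with ⟨h2, i, h3⟩ | ⟨s, hs1, hs2, o, ho, hg⟩
      · have h4 : (1 : ℝ) ≤ ∑ i, ind (j + 2 ≤ N ∧ D.L i (j + 2) x w ≠ D.L i (j + 1) x w) := by
          calc (1 : ℝ) = ind (j + 2 ≤ N ∧ D.L i (j + 2) x w ≠ D.L i (j + 1) x w) :=
              (ind_of ⟨h2, h3⟩).symm
            _ ≤ _ := Finset.single_le_sum (f := fun i =>
              ind (j + 2 ≤ N ∧ D.L i (j + 2) x w ≠ D.L i (j + 1) x w))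
              (fun i _ => ind_nonneg _) (Finset.mem_univ i)
        linarith
      · have h4 : (1 : ℝ) ≤ ∑ s ∈ Finset.Icc 1 N, ∑ o ∈ D.New s x w,
            ind (gmark (fun l => lav (D.fm F o x) l x w) c1 (s - 1) j) := by
          calc (1 : ℝ) = ind (gmark (fun l => lav (D.fm F o x) l x w) c1 (s - 1) j) :=
              (ind_of hg).symm
            _ ≤ ∑ o ∈ D.New s x w, ind (gmark (fun l => lav (D.fm F o x) l x w) c1 (s - 1) j) :=
              Finset.single_le_sum (f := fun o =>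
                ind (gmark (fun l => lav (D.fm F o x) l x w) c1 (s - 1) j))
                (fun o _ => ind_nonneg _) ho
            _ ≤ _ := Finset.single_le_sum (f := fun s => ∑ o ∈ D.New s x w,
                ind (gmark (fun l => lav (D.fm F o x) l x w) c1 (s - 1) j))
                (fun s _ => Finset.sum_nonneg fun o _ => ind_nonneg _)
                (Finset.mem_Icc.2 ⟨hs1, hs2⟩)
        linarith
    · rw [ind_not hm]
      linarith
  refine (Finset.sum_le_sum fun j _ => h1 j).trans ?_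
  rw [Finset.sum_add_distrib]
  have hN0 : ∀ s ≤ N, ∀ i, (D.Pub i s x w).card ≤ N0 := by
    intro s hs i
    refine (Finset.card_le_card (D.Pub_anti i x w 0 s (Nat.zero_le _) hs)).trans ?_
    unfold PS.exc at hexc
    push Not at hexc
    exact hexc i
  refine add_le_add ?_ ?_
  · rw [Finset.sum_comm]
    refine Finset.sum_le_sum fun i _ => ?_
    rcases Nat.eq_zero_or_pos N with h0 | h0
    · have e0 : ∑ j ∈ range N, ind (j + 2 ≤ N ∧ D.L i (j + 2) x w ≠ D.L i (j + 1) x w) = 0 :=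
        Finset.sum_eq_zero fun j hj => absurd (Finset.mem_range.1 hj) (by omega)
      rw [e0]
      exact Nat.cast_nonneg _
    have h2 := tele (fun e => D.L i (e + 1) x w) (N - 1) (fun e he => D.cumL i (e + 1) x w (by omega))
    simp only [zero_add] at h2
    have h3 : ∑ j ∈ range N, ind (j + 2 ≤ N ∧ D.L i (j + 2) x w ≠ D.L i (j + 1) x w) ≤
        ∑ e ∈ range (N - 1), ind (D.L i (e + 1 + 1) x w ≠ D.L i (e + 1) x w) := by
      have e1 : ∑ j ∈ range N, ind (j + 2 ≤ N ∧ D.L i (j + 2) x w ≠ D.L i (j + 1) x w) =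
          ∑ j ∈ range (N - 1), ind (j + 2 ≤ N ∧ D.L i (j + 2) x w ≠ D.L i (j + 1) x w) := by
        symm
        refine Finset.sum_subset (Finset.range_subset_range.2 (by omega)) fun j _ hj => ?_
        rw [Finset.mem_range] at hj
        exact ind_not fun hh => by omega
      rw [e1]
      exact Finset.sum_le_sum fun j _ => ind_mono fun hh => hh.2
    have h4 : ((D.L i 1 x w).card : ℝ) ≤ (D.Pub i 0 x w).card := by
      have := Finset.card_le_card ((D.sub i 1 x w).trans
        (D.Pub_anti i x w 0 1 (Nat.zero_le _) h0))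
      exact_mod_cast this
    have h5 : (0 : ℝ) ≤ ((D.L i (N - 1 + 1) x w).card : ℝ) := Nat.cast_nonneg _
    linarith
  · rw [Finset.sum_comm, Finset.mul_sum]
    refine Finset.sum_le_sum fun s hs => ?_
    rw [Finset.mem_Icc] at hs
    rw [if_pos (hN0 s hs.2), Finset.sum_comm, Finset.mul_sum]
    refine Finset.sum_le_sum fun o _ => ?_
    have h2 := gmark_sum (fun n : ℤ => D.fm F o x (∑ j, x j + (n : V k))) c1 (s - 1)
      (fun l => ((w % 2 ^ (l + 1) : ℕ) : ℤ)) (fun l _ => lav_pos l w)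
    have h3 : ∑ j ∈ range N, ind (gmark (fun l => lav (D.fm F o x) l x w) c1 (s - 1) j) =
        ∑ j ∈ range (s - 1), ind (gmark (fun l => lav (D.fm F o x) l x w) c1 (s - 1) j) := by
      symm
      refine Finset.sum_subset (Finset.range_subset_range.2 (by omega)) fun j _ hj => ?_
      rw [Finset.mem_range] at hj
      exact ind_not fun hg => hj hg.1
    rw [h3]
    refine h2.trans ?_
    have h4 := osc_mono (fun n : ℤ => D.fm F o x (∑ j, x j + (n : V k))) c1
      (show s - 1 ≤ s by omega)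
    have h5 : (osc (fun n : ℤ => D.fm F o x (∑ j, x j + (n : V k))) c1 (s - 1) : ℝ) ≤
        (osc (fun n : ℤ => D.fm F o x (∑ j, x j + (n : V k))) c1 s : ℝ) := by exact_mod_cast h4
    linarith

/-- THEOREM (layer 0) -/
theorem layer0 (c0 η β : ℝ) (hc0 : 0 < c0) (hη : 0 < η) (hβ : 0 ≤ β) (h : ℕ) :
    ∃ K : ℝ, 0 ≤ K ∧ ∀ (k N : ℕ), N ≤ k → ∀ (T : Type) (D : PS k N h T)
      (F : Fin 3 → V k → V k → V k → ℝ), (∀ i p q d, |F i p q d| ≤ 1) →
      (∀ i, ∑ x : Fin 3 → V k, ∑ w ∈ range (2 ^ N), ((D.Pub i 0 x w).card : ℝ) ≤ β * tot k N) →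
      ∃ (mark : (Fin 3 → V k) → ℕ → ℕ → Prop) (exc : (Fin 3 → V k) → ℕ → Prop),
        (∑ x : Fin 3 → V k, ∑ w ∈ range (2 ^ N), ∑ j ∈ range N, ind (mark x w j)) ≤ K * tot k N ∧
        (∑ x : Fin 3 → V k, ∑ w ∈ range (2 ^ N), ind (exc x w)) ≤ η * tot k N ∧
        ∀ x w, ¬ exc x w → ∀ l' l, l' ≤ l → l < N → (∀ j, l' ≤ j → j < l → ¬ mark x w j) →
          |D.XD F l x w - D.XD F l' x w| ≤ c0 := by
  classical
  obtain ⟨N0, hN0⟩ := exists_nat_gt (3 * β / η)
  set n : ℕ := (2 ^ N0 + 1) ^ 3 with hn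
  have hnpos : (0 : ℝ) < n := by
    have : 0 < n := by rw [hn]; positivity
    exact_mod_cast this
  set c1 : ℝ := c0 / (2 * n) with hc1
  have hc1pos : 0 < c1 := by positivity
  obtain ⟨K, hK0, hK⟩ := b2_loc c1 hc1pos
  refine ⟨3 * β + 2 * (4 * 4 ^ (h + 3) * K * n * (3 * (1 + β))), by positivity, ?_⟩
  intro k N hNk T D F hF hPub
  have htot : 0 ≤ tot k N := by unfold tot; positivity
  refine ⟨fun x w j => ¬ D.exc N0 x w ∧ D.mrk F c1 x w j, D.exc N0, ?_, ?_, ?_⟩
  · have h1 : ∀ (x : Fin 3 → V k) (w : ℕ),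
        ∑ j ∈ range N, ind (¬ D.exc N0 x w ∧ D.mrk F c1 x w j) ≤
        ∑ i, ((D.Pub i 0 x w).card : ℝ) +
        2 * ∑ s ∈ Finset.Icc 1 N, (if ∀ i, (D.Pub i s x w).card ≤ N0 then
        ∑ o ∈ D.New s x w, (osc (fun m : ℤ => D.fm F o x (∑ j, x j + (m : V k))) c1 s : ℝ)
        else 0) := by
      intro x w
      by_cases hexc : D.exc N0 x w
      · have e0 : ∑ j ∈ range N, ind (¬ D.exc N0 x w ∧ D.mrk F c1 x w j) = 0 :=
          Finset.sum_eq_zero fun j _ => ind_not fun hh => hh.1 hexc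
        rw [e0]
        have n1 : 0 ≤ ∑ i, ((D.Pub i 0 x w).card : ℝ) := Finset.sum_nonneg fun i _ => Nat.cast_nonneg _
        have n2 : 0 ≤ ∑ s ∈ Finset.Icc 1 N, (if ∀ i, (D.Pub i s x w).card ≤ N0 then
          ∑ o ∈ D.New s x w, (osc (fun m : ℤ => D.fm F o x (∑ j, x j + (m : V k))) c1 s : ℝ)
          else 0) := Finset.sum_nonneg fun s _ => by
            split_ifs
            · exact Finset.sum_nonneg fun o _ => Nat.cast_nonneg _
            · exact le_rfl
        linarith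
      · refine le_trans (Finset.sum_le_sum fun j _ => ind_mono fun hh => hh.2) ?_
        exact D.mrk_sum F c1 N0 x w hexc
    refine (Finset.sum_le_sum fun x _ => Finset.sum_le_sum fun w _ => h1 x w).trans ?_
    simp only [Finset.sum_add_distrib, ← Finset.mul_sum]
    have h2 : ∑ x : Fin 3 → V k, ∑ w ∈ range (2 ^ N), ∑ i, ((D.Pub i 0 x w).card : ℝ) ≤
        3 * β * tot k N := by
      have e1 : ∑ x : Fin 3 → V k, ∑ w ∈ range (2 ^ N), ∑ i, ((D.Pub i 0 x w).card : ℝ) =
          ∑ i, ∑ x : Fin 3 → V k, ∑ w ∈ range (2 ^ N), ((D.Pub i 0 x w).card : ℝ) := by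
        rw [Finset.sum_congr rfl fun x _ => Finset.sum_comm, Finset.sum_comm]
      rw [e1]
      refine (Finset.sum_le_sum fun i _ => hPub i).trans (le_of_eq ?_)
      simp
      ring
    have h3 : ∑ x : Fin 3 → V k, ∑ w ∈ range (2 ^ N), ∑ s ∈ Finset.Icc 1 N,
        (if ∀ i, (D.Pub i s x w).card ≤ N0 then
        ∑ o ∈ D.New s x w, (osc (fun m : ℤ => D.fm F o x (∑ j, x j + (m : V k))) c1 s : ℝ)
        else 0) ≤ 4 * 4 ^ (h + 3) * K * n * (3 * (1 + β)) * tot k N := by
      have e1 : ∑ x : Fin 3 → V k, ∑ w ∈ range (2 ^ N), ∑ s ∈ Finset.Icc 1 N,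
          (if ∀ i, (D.Pub i s x w).card ≤ N0 then
          ∑ o ∈ D.New s x w, (osc (fun m : ℤ => D.fm F o x (∑ j, x j + (m : V k))) c1 s : ℝ)
          else 0) = ∑ s ∈ Finset.Icc 1 N, ∑ x : Fin 3 → V k, ∑ w ∈ range (2 ^ N),
          (if ∀ i, (D.Pub i s x w).card ≤ N0 then
          ∑ o ∈ D.New s x w, (osc (fun m : ℤ => D.fm F o x (∑ j, x j + (m : V k))) c1 s : ℝ)
          else 0) := by
        rw [Finset.sum_congr rfl fun x _ => Finset.sum_comm, Finset.sum_comm]
      rw [e1]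
      refine (Finset.sum_le_sum fun s hs => D.new_osc hK0 (hK s) (Finset.mem_Icc.1 hs).2 hNk F hF
        N0).trans ?_
      rw [← Finset.mul_sum]
      have h4 : ∑ s ∈ Finset.Icc 1 N, ∑ i, ∑ x : Fin 3 → V k, ∑ w ∈ range (2 ^ N),
          ind (D.nw s i x w) ≤ 3 * (1 + β) * tot k N := by
        have e2 : ∑ s ∈ Finset.Icc 1 N, ∑ i, ∑ x : Fin 3 → V k, ∑ w ∈ range (2 ^ N),
            ind (D.nw s i x w) = ∑ i, ∑ x : Fin 3 → V k, ∑ w ∈ range (2 ^ N),
            ∑ s ∈ Finset.Icc 1 N, ind (D.nw s i x w) := by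
          rw [Finset.sum_comm]
          refine Finset.sum_congr rfl fun i _ => ?_
          rw [Finset.sum_comm]
          refine Finset.sum_congr rfl fun x _ => ?_
          rw [Finset.sum_comm]
        rw [e2]
        have h5 : ∀ i, ∀ x : Fin 3 → V k, ∀ w, ∑ s ∈ Finset.Icc 1 N, ind (D.nw s i x w) ≤
            1 + ((D.Pub i 0 x w).card : ℝ) := by
          intro i x w
          have h6 := tele (fun e => D.Pub i e x w) N (fun e he => D.cumP i e x w he)
          have h7 : ∑ s ∈ Finset.Icc 1 N, ind (D.nw s i x w) ≤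
              ∑ s ∈ range (N + 1), ind (D.nw s i x w) := by
            refine Finset.sum_le_sum_of_subset_of_nonneg ?_ fun s _ _ => ind_nonneg _
            intro s hs
            rw [Finset.mem_Icc] at hs
            rw [Finset.mem_range]
            omega
          refine h7.trans ?_
          rw [Finset.sum_range_succ]
          have h8 : ∑ s ∈ range N, ind (D.nw s i x w) ≤
              ∑ s ∈ range N, ind (D.Pub i (s + 1) x w ≠ D.Pub i s x w) := by
            refine Finset.sum_le_sum fun s hs => ind_mono fun hh => ?_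
            rw [Finset.mem_range] at hs
            exact hh.resolve_left (by omega)
          have h9 := ind_le_one (D.nw N i x w)
          have h10 : (0 : ℝ) ≤ ((D.Pub i N x w).card : ℝ) := Nat.cast_nonneg _
          linarith
        refine (Finset.sum_le_sum fun i _ => Finset.sum_le_sum fun x _ =>
          Finset.sum_le_sum fun w _ => h5 i x w).trans ?_
        simp only [Finset.sum_add_distrib]
        have h11 : ∑ i : Fin 3, ∑ x : Fin 3 → V k, ∑ w ∈ range (2 ^ N),
            ((D.Pub i 0 x w).card : ℝ) ≤ 3 * (β * tot k N) := by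
          refine (Finset.sum_le_sum fun i _ => hPub i).trans (le_of_eq ?_)
          simp
        have h12 : ∑ _i : Fin 3, ∑ _x : Fin 3 → V k, ∑ _w ∈ range (2 ^ N), (1 : ℝ) =
            3 * tot k N := by
          rw [Finset.sum_congr rfl fun i _ => sum_one k N]
          simp
        rw [h12]
        linarith
      calc _ ≤ 4 * 4 ^ (h + 3) * K * ((2 ^ N0 + 1) ^ 3 : ℕ) * (3 * (1 + β) * tot k N) :=
            mul_le_mul_of_nonneg_left h4 (by positivity)
        _ = _ := by rw [← hn]; ring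
    calc _ ≤ 3 * β * tot k N + 2 * (4 * 4 ^ (h + 3) * K * n * (3 * (1 + β)) * tot k N) := by
          linarith
      _ = _ := by ring
  · have h1 : ∀ (x : Fin 3 → V k) (w : ℕ), ind (D.exc N0 x w) ≤
        ∑ i, ((D.Pub i 0 x w).card : ℝ) / N0 := by
      intro x w
      have nn : ∀ i, 0 ≤ ((D.Pub i 0 x w).card : ℝ) / N0 := fun i => by positivity
      by_cases hexc : D.exc N0 x w
      · rw [ind_of hexc]
        obtain ⟨i, hi⟩ := hexc
        have hN0' : (0 : ℝ) < N0 := lt_of_le_of_lt (by positivity) hN0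
        have h2 : (1 : ℝ) ≤ ((D.Pub i 0 x w).card : ℝ) / N0 := by
          rw [le_div_iff₀ hN0', one_mul]
          exact_mod_cast hi.le
        exact h2.trans (Finset.single_le_sum (f := fun i => ((D.Pub i 0 x w).card : ℝ) / N0)
          (fun i _ => nn i) (Finset.mem_univ i))
      · rw [ind_not hexc]
        exact Finset.sum_nonneg fun i _ => nn i
    refine (Finset.sum_le_sum fun x _ => Finset.sum_le_sum fun w _ => h1 x w).trans ?_
    have e1 : ∑ x : Fin 3 → V k, ∑ w ∈ range (2 ^ N), ∑ i, ((D.Pub i 0 x w).card : ℝ) / N0 =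
        (∑ i, ∑ x : Fin 3 → V k, ∑ w ∈ range (2 ^ N), ((D.Pub i 0 x w).card : ℝ)) / N0 := by
      rw [Finset.sum_congr rfl fun x _ => Finset.sum_comm, Finset.sum_comm, Finset.sum_div]
      refine Finset.sum_congr rfl fun i _ => ?_
      rw [Finset.sum_div]
      refine Finset.sum_congr rfl fun x _ => ?_
      rw [Finset.sum_div]
    rw [e1]
    have hN0' : (0 : ℝ) < N0 := lt_of_le_of_lt (by positivity) hN0
    rw [div_le_iff₀ hN0']
    have h11 : ∑ i : Fin 3, ∑ x : Fin 3 → V k, ∑ w ∈ range (2 ^ N),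
        ((D.Pub i 0 x w).card : ℝ) ≤ 3 * (β * tot k N) := by
      refine (Finset.sum_le_sum fun i _ => hPub i).trans (le_of_eq ?_)
      simp
    rw [div_lt_iff₀ hη] at hN0
    have h12 := mul_le_mul_of_nonneg_right hN0.le htot
    linarith
  · intro x w hexc l' l hl hlN hno
    have h1 := D.close F hc1pos N0 x w hexc l' l hl hlN (fun j hj hj' hm => hno j hj hj' ⟨hexc, hm⟩)
    refine h1.trans (le_of_eq ?_)
    rw [← hn, hc1]
    field_simp

end Pool.Agent.M3.S6
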