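import Pool.Agent.M3.S1Births
import Pool.Agent.M3.S6Layer
import Pool.Agent.M3.S6End

/-!
# M3.S6Inst (section 6, (6.3)): layer 0 in the model (helper27)

`PS0` = the structured functions of the layer `l0` in the form `S6.PS` of helper66: lists of births as finite sets,
public births = births at the face nodes of the path, coefficients of the Walsh form.  THEOREM `lay0`: `Lay0 L l0`.
-/

set_option autoImplicit false
set_option linter.unusedSectionVars false

namespace Pool.Agent.M3.Mod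

open Finset Pool.Agent.PWZ Pool.Agent.M3.Bin

noncomputable section

variable {k N : ℕ}

/-- the pair of the face `i` of the vertices `x` -/
abbrev ux (x : Fin 3 → V k) (j : Fin 3) : Unit × V k := ((), x j)

section inst

variable (h N : ℕ) (ep th : ℝ) (F : Fin 3 → Unit × V k → Unit × V k → V k → ℝ)

/-- the list of the face `i` at a sample point -/
def l0L (i : Fin 3) (e : ℕ) (x : Fin 3 → V k) (w : ℕ) : List (Birth (TI k Unit → Bool)) :=
  Lf h N ep th (F i) e (G h e (∑ j, x j) w) (ux x (i + 1)) (ux x (i + 2))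

/-- the births at the node of the face `i` -/
def l0B (i : Fin 3) (e : ℕ) (x : Fin 3 → V k) (w : ℕ) : Finset (Birth (TI k Unit → Bool)) :=
  Bf h N ep th (F i) e (G h e (∑ j, x j) w) (ux x (i + 1)) (ux x (i + 2))

open Classical in
/-- the public births of the nodes of the path, down to the exponent `e` -/
def l0P (i : Fin 3) (e : ℕ) (x : Fin 3 → V k) (w : ℕ) : Finset (Birth (TI k Unit → Bool)) :=
  (Finset.Icc e N).biUnion fun s => l0B h N ep th F i s x w

variable {h N ep th F}

theorem l0L_suffix (i : Fin 3) {e : ℕ} (he : e < N) (x : Fin 3 → V k) (w : ℕ) :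
    l0L h N ep th F i (e + 1) x w <:+ l0L h N ep th F i e x w := by
  unfold l0L
  rw [← par_G]
  exact Lf_mono he _ _ _

theorem mem_l0P {i : Fin 3} {e s : ℕ} {x : Fin 3 → V k} {w : ℕ} (hes : e ≤ s) (hs : s ≤ N)
    {b : Birth (TI k Unit → Bool)} (hb : b ∈ l0B h N ep th F i s x w) : b ∈ l0P h N ep th F i e x w := by
  classical
  unfold l0P
  rw [Finset.mem_biUnion]
  exact ⟨s, Finset.mem_Icc.2 ⟨hes, hs⟩, hb⟩

theorem l0L_sub (i : Fin 3) (x : Fin 3 → V k) (w : ℕ) (b : Birth (TI k Unit → Bool)) :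
    ∀ n e : ℕ, e + n = N → b ∈ l0L h N ep th F i e x w → b ∈ l0P h N ep th F i e x w := by
  classical
  intro n
  induction n with
  | zero =>
    intro e he hb
    obtain rfl : e = N := by omega
    exact mem_l0P le_rfl le_rfl (mem_Lf_top hb)
  | succ n ih =>
    intro e he hb
    have h1 := mem_Lf (by omega : e < N) hb
    rcases h1 with h1 | h1
    · rw [par_G] at h1
      have h2 := ih (e + 1) (by omega) h1
      unfold l0P at h2
      rw [Finset.mem_biUnion] at h2
      obtain ⟨s, hs, h3⟩ := h2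
      rw [Finset.mem_Icc] at hs
      exact mem_l0P (by omega) hs.2 h3
    · exact mem_l0P le_rfl (by omega) h1

theorem l0P_mono (i : Fin 3) (e : ℕ) (x : Fin 3 → V k) (w : ℕ) :
    l0P h N ep th F i (e + 1) x w ⊆ l0P h N ep th F i e x w := by
  classical
  unfold l0P
  refine Finset.biUnion_subset_biUnion_of_subset_left _ ?_
  intro s hs
  rw [Finset.mem_Icc] at hs ⊢
  omega

/-- the face nodes above are determined -/
theorem fk_le (i : Fin 3) {x x' : Fin 3 → V k} {w w' : ℕ} {e : ℕ} (hf : S6.fk h e i x w = S6.fk h e i x' w') :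
    ∀ s, e ≤ s → S6.fk h s i x w = S6.fk h s i x' w' := by
  intro s hs
  induction s, hs using Nat.le_induction with
  | base => exact hf
  | succ s _ ih => exact S6.fk_up i ih

theorem l0B_congr (i : Fin 3) {x x' : Fin 3 → V k} {w w' : ℕ} {e : ℕ} (he : e ≤ N)
    (hf : S6.fk h e i x w = S6.fk h e i x' w') : l0B h N ep th F i e x w = l0B h N ep th F i e x' w' := by
  unfold S6.fk at hf
  simp only [Prod.mk.injEq] at hf
  obtain ⟨h1, h2, h3⟩ := hf
  unfold l0B
  rw [← h3]
  exact Bf_congr he _ h1 h2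

theorem l0P_congr (i : Fin 3) {x x' : Fin 3 → V k} {w w' : ℕ} {e : ℕ}
    (hf : S6.fk h e i x w = S6.fk h e i x' w') : l0P h N ep th F i e x w = l0P h N ep th F i e x' w' := by
  classical
  unfold l0P
  refine Finset.biUnion_congr rfl fun s hs => ?_
  rw [Finset.mem_Icc] at hs
  exact l0B_congr i hs.2 (fk_le i hf s hs.1)

open Classical in
/-- THE INSTANCE -/
def PS0 (h N : ℕ) (ep th : ℝ) (F : Fin 3 → Unit × V k → Unit × V k → V k → ℝ) :
    S6.PS k N h (Birth (TI k Unit → Bool)) where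
  A _ τ v d := sgn τ.τ ⟨false, ((), v), d⟩
  B _ τ v d := sgn τ.τ ⟨true, ((), v), d⟩
  L i e x w := if e ≤ N then (l0L h N ep th F i e x w).toFinset else ∅
  Pub i e x w := l0P h N ep th F i e x w
  cf i e x w I := psiC ep (l0L h N ep th F i e x w).length
    (univ.filter fun j => (l0L h N ep th F i e x w).get j ∈ I)
  A_le _ τ v d := by rcases sgn_or τ.τ ⟨false, ((), v), d⟩ with h | h <;> rw [h] <;> norm_num
  B_le _ τ v d := by rcases sgn_or τ.τ ⟨true, ((), v), d⟩ with h | h <;> rw [h] <;> norm_num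
  cf_le i e x w I := abs_psiC _ _ _
  sub i e x w := by
    split_ifs with he
    · intro b hb
      rw [List.mem_toFinset] at hb
      exact l0L_sub i x w b (N - e) e (by omega) hb
    · exact Finset.empty_subset _
  cumL i e x w he := by
    rw [if_pos (show e + 1 ≤ N from he), if_pos he.le]
    intro b hb
    rw [List.mem_toFinset] at hb ⊢
    exact (l0L_suffix i he x w).subset hb
  cumP i e x w _ := l0P_mono i e x w
  node i e x x' w w' _ hf := l0P_congr i hf
  stat i e x w he hL := by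
    rw [if_pos (show e + 1 ≤ N from he), if_pos he.le] at hL
    have h1 := l0L_suffix (h := h) (ep := ep) (th := th) (F := F) i he x w
    have h2 : (l0L h N ep th F i (e + 1) x w).Nodup := Lf_nodup _ _ _ _
    have h3 : (l0L h N ep th F i e x w).Nodup := Lf_nodup _ _ _ _
    have h4 : (l0L h N ep th F i (e + 1) x w).length = (l0L h N ep th F i e x w).length := by
      rw [← List.toFinset_card_of_nodup h2, ← List.toFinset_card_of_nodup h3, hL]
    have h5 : l0L h N ep th F i (e + 1) x w = l0L h N ep th F i e x w := h1.eq_of_length h4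
    funext I
    rw [h5]

/-- the structured function of the instance -/
theorem PS0_S (i : Fin 3) {e : ℕ} (he : e ≤ N) (x : Fin 3 → V k) (w : ℕ) (d : V k) :
    (PS0 h N ep th F).S i e x w d = Sf h N ep th (F i) e (G h e (∑ j, x j) w) (ux x (i + 1)) (ux x (i + 2)) d := by
  classical
  have h1 := psi_toFinset ep (l0L h N ep th F i e x w) (Lf_nodup _ _ _ _)
    (fun τ => (pairTests (Unit × V k) (Unit × V k) (V k)).val τ.τ (ux x (i + 1), ux x (i + 2)) d)
    (fun τ => Tests.val_or _ _ _ _)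
  have h2 : Sf h N ep th (F i) e (G h e (∑ j, x j) w) (ux x (i + 1)) (ux x (i + 2)) d =
      psi ep ((l0L h N ep th F i e x w).map
        (fun τ => (pairTests (Unit × V k) (Unit × V k) (V k)).val τ.τ (ux x (i + 1), ux x (i + 2)) d)) := rfl
  rw [h2, h1]
  unfold S6.PS.S
  have h3 : (PS0 h N ep th F).L i e x w = (l0L h N ep th F i e x w).toFinset := by
    show (if e ≤ N then (l0L h N ep th F i e x w).toFinset else ∅) = _
    rw [if_pos he]
  rw [h3]
  refine Finset.sum_congr rfl fun I _ => ?_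
  have h4 : (PS0 h N ep th F).cf i e x w I = psiC ep (l0L h N ep th F i e x w).length
    (univ.filter fun j => (l0L h N ep th F i e x w).get j ∈ I) := by
    show psiC ep (l0L h N ep th F i e x w).length _ = _
    congr
  rw [h4]
  congr 1
  refine Finset.prod_congr rfl fun τ _ => ?_
  exact (pairTests_val τ.τ (ux x (i + 1)) (ux x (i + 2)) d).symm

/-- the public births have a bounded mean -/
theorem PS0_pub (hF : ∀ i b c d, |F i b c d| ≤ 1) (hep : 0 < ep) (hth : 0 < th)
    (hrd : 32 * ((2 : ℝ) ^ h)⁻¹ ≤ ep ^ 2) (i : Fin 3) :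
    ∑ x : Fin 3 → V k, ∑ w ∈ range (2 ^ N), (((PS0 h N ep th F).Pub i 0 x w).card : ℝ) ≤
      32 / (ep ^ 3 * th) * S6.tot k N := by
  classical
  have h1 := sum_of_E (Pf_mean (k := k) (N := N) (Θ := Unit) (P := Unit) (F := F i) i (hF i) hep hth hrd)
  refine le_trans ?_ h1
  refine Finset.sum_le_sum fun x _ => Finset.sum_le_sum fun w hw => ?_
  have hw' := Finset.mem_range.1 hw
  have h2 : ((PS0 h N ep th F).Pub i 0 x w).card ≤
      ∑ s ∈ Finset.Icc 0 N, (l0B h N ep th F i s x w).card := Finset.card_biUnion_le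
  have h3 : ∑ s ∈ Finset.Icc 0 N, (l0B h N ep th F i s x w).card ≤
      ∑ e ∈ range (N + 1), Pf h N ep th (F i) e (G h e (∑ j, x j) w) (ux x (i + 1)) (ux x (i + 2)) := by
    have e1 : Finset.Icc 0 N = range (N + 1) := by
      ext s
      rw [Finset.mem_Icc, Finset.mem_range]
      omega
    rw [e1]
    exact Finset.sum_le_sum fun s _ => card_Bf _ _ _ _
  have h4 : (((PS0 h N ep th F).Pub i 0 x w).card : ℝ) ≤
      ((∑ e ∈ range (N + 1), Pf h N ep th (F i) e (G h e (∑ j, x j) w) (ux x (i + 1)) (ux x (i + 2)) : ℕ) : ℝ) := by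
    exact_mod_cast h2.trans h3
  refine h4.trans (le_of_eq ?_)
  push_cast
  refine Finset.sum_congr rfl fun e _ => ?_
  have h5 : Gm h e (mkS N x w) = G h e (∑ j, x j) w := by
    show G h e (ctr (mkS N x w)) (nz (mkS N x w)) = _
    rw [nz_mkS x hw', ctr_mkS]
  rw [h5, vx_mkS, vx_mkS]

end inst

/-- the averages of the two files -/
theorem lav_eq (f : V k → ℝ) (l : ℕ) (x : Fin 3 → V k) (w : ℕ) :
    S6.lav f l x w = av (l + 1) (pos (l + 1) (∑ j, x j) w) f := by
  unfold S6.lav Pool.M3B.bav av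
  congr 1
  refine Finset.sum_congr rfl fun n _ => ?_
  unfold Bin.pos
  have h1 : ∑ j, x j + ((((w % 2 ^ (l + 1) : ℕ) : ℤ) - (n : ℤ) : ℤ) : V k) =
      ∑ j, x j + ((w % 2 ^ (l + 1) : ℕ) : V k) - (n : V k) := by
    rw [Int.cast_sub, Int.cast_natCast, Int.cast_natCast]
    ring
  show f (∑ j, x j + ((((w % 2 ^ (l + 1) : ℕ) : ℤ) - (n : ℤ) : ℤ) : V k)) = _
  rw [h1]

/-- LAYER 0 IN THE MODEL -/
theorem lay0 (L : Lay) (l0 : ℕ) : Lay0 L l0 := by
  classical
  intro c0 hc0 η hη
  have hep := L.lep_pos l0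
  have hth := L.lth_pos l0
  have hrd : 32 * ((2 : ℝ) ^ L.lh l0)⁻¹ ≤ L.lep l0 ^ 2 := by
    have h1 := L.rd l0
    have h2 : 0 < ((2 : ℝ) ^ L.lh l0)⁻¹ := by positivity
    linarith
  obtain ⟨K, hK0, hK⟩ := S6.layer0 c0 η (32 / (L.lep l0 ^ 3 * L.lth l0)) hc0 hη (by positivity) (L.lh l0)
  refine ⟨K, hK0, fun k N hNk F hF => ?_⟩
  set D := PS0 (L.lh l0) N (L.lep l0) (L.lth l0) F with hD
  obtain ⟨mark, exc, hm, he, hc⟩ := hK k N hNk _ D (fun i p q d => F i ((), p) ((), q) d)
    (fun i p q d => hF i _ _ d) (fun i => PS0_pub hF hep hth hrd i)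
  have hT : (0 : ℝ) < S6.tot k N := by unfold S6.tot; positivity
  have hconv : ∀ (f : Sp k N 3 Unit Unit → ℝ) (g : (Fin 3 → V k) → ℕ → ℝ) (B : ℝ),
      (∀ x w, w < 2 ^ N → f (mkS N x w) = g x w) →
      ∑ x : Fin 3 → V k, ∑ w ∈ range (2 ^ N), g x w ≤ B * S6.tot k N →
      (Pm : FP (Sp k N 3 Unit Unit)).E f ≤ B := by
    intro f g B hfg hB
    rw [E_mkS]
    have h1 : ∑ x : Fin 3 → V k, ∑ w ∈ range (2 ^ N), f (mkS N x w) =
        ∑ x : Fin 3 → V k, ∑ w ∈ range (2 ^ N), g x w :=
      Finset.sum_congr rfl fun x _ => Finset.sum_congr rfl fun w hw => hfg x w (Finset.mem_range.1 hw)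
    rw [h1, inv_mul_le_iff₀ (by positivity)]
    unfold S6.tot at hB
    linarith
  refine ⟨fun ω j => mark (fun j => (vx j ω).2) (nz ω) j, fun ω => exc (fun j => (vx j ω).2) (nz ω), ?_, ?_, ?_⟩
  · refine hconv _ (fun x w => ∑ j ∈ range N, ind (mark x w j)) K (fun x w hw => ?_) hm
    simp only [nz_mkS x hw, vx_mkS]
  · refine hconv _ (fun x w => ind (exc x w)) η (fun x w hw => ?_) he
    simp only [nz_mkS x hw, vx_mkS]
  · intro ω hω l' l hl hlN hno
    have h1 := hc (fun j => (vx j ω).2) (nz ω) hω l' l hl hlN hno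
    have key : ∀ l, l < N → XX3 N F (l + 1) ω - TR L F l0 (l + 1) ω =
        D.XD (fun i p q d => F i ((), p) ((), q) d) l (fun j => (vx j ω).2) (nz ω) := by
      intro l hl
      unfold S6.PS.XD
      rw [lav_eq]
      unfold XX3 TR T3
      have h2 : (Yn (l + 1) ω).1 = pos (l + 1) (∑ j, (fun j => (vx j ω).2) j) (nz ω) := rfl
      rw [h2, ← av_sub]
      congr 1
      funext d
      rw [Fin.prod_univ_three, Fin.prod_univ_three]
      have h3 : ∀ i, D.S i (l + 1) (fun j => (vx j ω).2) (nz ω) d = Sv N L F l0 i (l + 1) ω d := by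
        intro i
        rw [hD, PS0_S i (by omega)]
        rfl
      rw [h3, h3, h3, Rv_eq, Rv_eq, Rv_eq]
      rfl
    rw [key l hlN, key l' (by omega)]
    exact h1

/-- section 6 complete: the theorem on actions of groups from section 5 -/
theorem final3' (L : Lay) (lstar : ℕ) (r p : ℕ → ℝ) (hr : Summable r) (hr0 : ∀ l, 0 ≤ r l) (hp : Summable p)
    (hp0 : ∀ l, 0 ≤ p l) (h5 : H5 L lstar r p) : Pool.PWM.FinalM 3 :=
  final3 L lstar r p hr hr0 hp hp0 h5 (lay0 L)

end

end Pool.Agent.M3.Mod
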