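import Pool.Agent.M3.H5of
import Pool.Agent.M3.S6Inst
import Pool.Agent.M3.Colds

/-!
# M3/Final : the end of the chain for three commuting maps (helper11)

* `finalM3_of` : named views and the three colds give the theorem `FinalM 3`;
* `L0` : the layers; `finalM3_of_NVThm` : the named views give `FinalM 3`.
-/

set_option autoImplicit false

namespace Pool.Agent.M3.Mod

open Finset Filter Pool.Agent.PWZ Pool.Agent.M3.Bin

noncomputable section

theorem summable_inv_sq (c : ℝ) : Summable (fun l : ℕ => c * ((l : ℝ) + 1)⁻¹ ^ 2) := by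
  refine Summable.mul_left c ?_
  have h1 : Summable (fun n : ℕ => ((n : ℝ) ^ 2)⁻¹) := Real.summable_nat_pow_inv.mpr (by norm_num)
  have h2 := (summable_nat_add_iff 1).mpr h1
  refine h2.congr fun n => ?_
  push_cast
  rw [inv_pow]

theorem summable_exp_neg : Summable (fun l : ℕ => Real.exp (-(l : ℝ))) := Real.summable_exp_neg_nat

theorem finalM3_of (L : Lay) {κ0 c0 : ℝ} (hκ0 : 0 < κ0) (hc0 : 0 < c0) (hNV : NVThm L κ0)
    (hC3 : Cold3 L (fun l => c0 * ((l : ℝ) + 1)⁻¹ ^ 2)) : Pool.PWM.FinalM 3 := by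
  obtain ⟨lstar, h5⟩ := h5_of L hκ0 hc0 hNV hC3
  exact final3' L lstar _ _ (summable_inv_sq (9 * c0)) (fun l => by positivity) summable_exp_neg
    (fun l => (Real.exp_pos _).le) h5

/-- the layers of the final choice of constants -/
def L0 : Lay := mkLay (1 / 100) (1 / 4000) (by norm_num) (by norm_num) (by norm_num)

theorem finalM3_of_NVThm {κ0 : ℝ} (hκ0 : 0 < κ0) (hNV : NVThm L0 κ0) : Pool.PWM.FinalM 3 :=
  finalM3_of L0 hκ0 one_pos hNV (cold3_inv L0 hκ0 one_pos le_rfl hNV)

end

end Pool.Agent.M3.Mod
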