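import Pool.Agent.M3.NV

/-!
# M3/Frz: frozen versions of a moving face (row 4 of table m3, 4.3; helper94)

The time `0` (exponent `N`) is a dummy: all functions are zero there, the change from `0` to the value at the time `1`
counts as a change.
`cnt h N G e g x y` = number of changes of `G` along the rounded path from the exponent `N` down to the node `g`
of the exponent `e`; `frz h N v G` = the function which `G` had right after its `v`-th change, frozen from then on,
`0` before it (`v = 0`: zero for ever).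
* `abs_frz`, `fz_frz`, `fv_frz` (the version with the current number is the function), `cn_fac`, `cn_mono`, `cn_eq`,
  `chE_frz` (a version changes only from `0`), `sum_frz` (at most one change).
-/

set_option autoImplicit false
set_option linter.unusedSectionVars false

namespace Pool.Agent.M3.Mod

open Finset Pool.Agent.PWZ Pool.Agent.M3.Bin

noncomputable section

variable {k N : ℕ} {Θ P : Type}

/-- the value `n` steps above `e`, zero at the dummy time -/
def gv (G : Fam2 k P) (n e : ℕ) (g : V k × ℕ) (x y : P × V k) : V k → ℝ := if n = 0 then 0 else G e g x y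

open Classical in
/-- number of changes along the path, `n` steps above `e` -/
def cntA (h : ℕ) (G : Fam2 k P) : ℕ → ℕ → V k × ℕ → P × V k → P × V k → ℕ
  | 0, _, _, _, _ => 0
  | n + 1, e, g, x, y => cntA h G n (e + 1) (par h e g) x y +
      (if gv G (n + 1) e g x y = gv G n (e + 1) (par h e g) x y then 0 else 1)

/-- number of changes from the exponent `N` down to `e` -/
def cnt (h N : ℕ) (G : Fam2 k P) (e : ℕ) (g : V k × ℕ) (x y : P × V k) : ℕ := cntA h G (N - e) e g x y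

/-- frozen version, `n` steps above `e` -/
def frzA (h v : ℕ) (G : Fam2 k P) : ℕ → ℕ → V k × ℕ → P × V k → P × V k → V k → ℝ
  | 0, _, _, _, _ => 0
  | n + 1, e, g, x, y =>
      if v ≤ cntA h G n (e + 1) (par h e g) x y then frzA h v G n (e + 1) (par h e g) x y
      else if v ≤ cntA h G (n + 1) e g x y then G e g x y else 0

/-- the frozen version with the number `v` -/
def frz (h N v : ℕ) (G : Fam2 k P) : Fam2 k P := fun e g x y => frzA h v G (N - e) e g x y

theorem gv_zero (G : Fam2 k P) (e : ℕ) (g : V k × ℕ) (x y : P × V k) : gv G 0 e g x y = 0 := if_pos rfl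

theorem gv_succ (G : Fam2 k P) (n e : ℕ) (g : V k × ℕ) (x y : P × V k) : gv G (n + 1) e g x y = G e g x y :=
  if_neg (Nat.succ_ne_zero n)

theorem cntA_succ_eq {h : ℕ} {G : Fam2 k P} (n e : ℕ) (g : V k × ℕ) (x y : P × V k)
    (hG : gv G (n + 1) e g x y = gv G n (e + 1) (par h e g) x y) :
    cntA h G (n + 1) e g x y = cntA h G n (e + 1) (par h e g) x y := by
  rw [cntA, if_pos hG, Nat.add_zero]

theorem cntA_succ_ne {h : ℕ} {G : Fam2 k P} (n e : ℕ) (g : V k × ℕ) (x y : P × V k)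
    (hG : ¬ gv G (n + 1) e g x y = gv G n (e + 1) (par h e g) x y) :
    cntA h G (n + 1) e g x y = cntA h G n (e + 1) (par h e g) x y + 1 := by
  rw [cntA, if_neg hG]

theorem cntA_mono (h : ℕ) (G : Fam2 k P) (n e : ℕ) (g : V k × ℕ) (x y : P × V k) :
    cntA h G n (e + 1) (par h e g) x y ≤ cntA h G (n + 1) e g x y := by
  rw [cntA]
  exact Nat.le_add_right _ _

theorem frzA_succ_pos {h v : ℕ} {G : Fam2 k P} {n e : ℕ} {g : V k × ℕ} {x y : P × V k}
    (hv : v ≤ cntA h G n (e + 1) (par h e g) x y) :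
    frzA h v G (n + 1) e g x y = frzA h v G n (e + 1) (par h e g) x y := by
  rw [frzA, if_pos hv]

theorem frzA_zero {h v : ℕ} {G : Fam2 k P} : ∀ {n e : ℕ} {g : V k × ℕ} {x y : P × V k},
    cntA h G n e g x y < v → frzA h v G n e g x y = 0
  | 0, e, g, x, y, _ => by rw [frzA]
  | n + 1, e, g, x, y, hv => by
    have := cntA_mono h G n e g x y
    rw [frzA, if_neg (by omega), if_neg (by omega)]

/-- the version with the current number of changes is the function itself -/
theorem frzA_cur (h : ℕ) (G : Fam2 k P) : ∀ (n e : ℕ) (g : V k × ℕ) (x y : P × V k),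
    frzA h (cntA h G n e g x y) G n e g x y = gv G n e g x y
  | 0, e, g, x, y => by rw [frzA, gv_zero]
  | n + 1, e, g, x, y => by
    by_cases hG : gv G (n + 1) e g x y = gv G n (e + 1) (par h e g) x y
    · have h1 := cntA_succ_eq n e g x y hG
      rw [frzA_succ_pos (by rw [h1]), h1, frzA_cur h G n (e + 1) (par h e g) x y, hG]
    · have h1 := cntA_succ_ne n e g x y hG
      rw [frzA, if_neg (by omega), if_pos le_rfl, gv_succ]

theorem abs_frzA {h v : ℕ} {G : Fam2 k P} {B : ℝ} (hB : 0 ≤ B) (hG : ∀ e g x y d, |G e g x y d| ≤ B) :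
    ∀ (n e : ℕ) (g : V k × ℕ) (x y : P × V k) (d : V k), |frzA h v G n e g x y d| ≤ B
  | 0, e, g, x, y, d => by
    rw [frzA]
    simpa using hB
  | n + 1, e, g, x, y, d => by
    rw [frzA]
    split_ifs
    · exact abs_frzA hB hG n _ _ _ _ _
    · exact hG _ _ _ _ _
    · simpa using hB

theorem abs_frz {h N v : ℕ} {G : Fam2 k P} {B : ℝ} (hB : 0 ≤ B) (hG : ∀ e g x y d, |G e g x y d| ≤ B)
    (e : ℕ) (g : V k × ℕ) (x y : P × V k) (d : V k) : |frz h N v G e g x y d| ≤ B :=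
  abs_frzA hB hG _ _ _ _ _ _

/-- number of changes of the face `i` at the sample point, up to the time `t` -/
def cn (h : ℕ) (i : Fin 3) (G : Fam2 k P) (t : ℕ) (ω : Sp k N 3 Θ P) : ℕ :=
  cnt h N G (ex N t) (Gm h (ex N t) ω) (vx (i + 1) ω) (vx (i + 2) ω)

theorem par_Gm (h e : ℕ) (ω : Sp k N 3 Θ P) : par h e (Gm h e ω) = Gm h (e + 1) ω := par_G h e _ _

theorem ex_add {N t : ℕ} (ht : t < N) : ex N (t + 1) + 1 = ex N t := by unfold ex; omega

theorem sub_ex {N t : ℕ} (ht : t ≤ N) : N - ex N t = t := by unfold ex; omega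

theorem cn_eq_cntA (h : ℕ) (i : Fin 3) (G : Fam2 k P) {t : ℕ} (ht : t ≤ N) (ω : Sp k N 3 Θ P) :
    cn h i G t ω = cntA h G t (ex N t) (Gm h (ex N t) ω) (vx (i + 1) ω) (vx (i + 2) ω) := by
  unfold cn cnt
  rw [sub_ex ht]

theorem cn_zero (h : ℕ) (i : Fin 3) (G : Fam2 k P) (ω : Sp k N 3 Θ P) : cn h i G 0 ω = 0 := by
  rw [cn_eq_cntA h i G (Nat.zero_le N), cntA]

/-- the function at a sample point -/
theorem fz_gv (h : ℕ) (i : Fin 3) (G : Fam2 k P) (t : ℕ) (ω : Sp k N 3 Θ P) :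
    fz h i G t ω = gv G t (ex N t) (Gm h (ex N t) ω) (vx (i + 1) ω) (vx (i + 2) ω) := rfl

/-- one step -/
theorem cn_succ (h : ℕ) (i : Fin 3) (G : Fam2 k P) {t : ℕ} (ht : t < N) (ω : Sp k N 3 Θ P) :
    (cn h i G (t + 1) ω : ℝ) = cn h i G t ω + ind (chE h i G t ω) := by
  rw [cn_eq_cntA h i G (show t + 1 ≤ N from ht), cn_eq_cntA h i G ht.le]
  have e1 : par h (ex N (t + 1)) (Gm h (ex N (t + 1)) ω) = Gm h (ex N t) ω := by
    rw [par_Gm, ex_add ht]
  by_cases hG : gv G (t + 1) (ex N (t + 1)) (Gm h (ex N (t + 1)) ω) (vx (i + 1) ω) (vx (i + 2) ω) =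
      gv G t (ex N (t + 1) + 1) (par h (ex N (t + 1)) (Gm h (ex N (t + 1)) ω)) (vx (i + 1) ω) (vx (i + 2) ω)
  · have h1 : ¬ chE h i G t ω := by
      unfold chE
      rw [not_not, fz_gv, fz_gv]
      rw [e1, ex_add ht] at hG
      exact hG
    rw [cntA_succ_eq _ _ _ _ _ hG, e1, ex_add ht, ind_not h1, add_zero]
  · have h1 : chE h i G t ω := by
      unfold chE
      rw [fz_gv, fz_gv]
      rw [e1, ex_add ht] at hG
      exact hG
    rw [cntA_succ_ne _ _ _ _ _ hG, e1, ex_add ht, ind_of h1]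
    push_cast
    ring

theorem cn_le_succ (h : ℕ) (i : Fin 3) (G : Fam2 k P) {t : ℕ} (ht : t < N) (ω : Sp k N 3 Θ P) :
    cn h i G t ω ≤ cn h i G (t + 1) ω := by
  have h1 := cn_succ h i G ht ω
  have h2 := ind_nonneg (chE h i G t ω)
  have h3 : (cn h i G t ω : ℝ) ≤ cn h i G (t + 1) ω := by linarith
  exact_mod_cast h3

theorem cn_mono_le (h : ℕ) (i : Fin 3) (G : Fam2 k P) (ω : Sp k N 3 Θ P) {t : ℕ} :
    ∀ {u : ℕ}, t ≤ u → u ≤ N → cn h i G t ω ≤ cn h i G u ω := by
  intro u htu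
  induction u, htu using Nat.le_induction with
  | base => intro _; exact le_rfl
  | succ u _ ih => intro hu; exact (ih (by omega)).trans (cn_le_succ h i G (by omega) ω)

theorem cn_mono (h : ℕ) (i : Fin 3) (G : Fam2 k P) {t : ℕ} (ht : t ≤ N) (ω : Sp k N 3 Θ P) :
    cn h i G t ω ≤ cn h i G N ω := cn_mono_le h i G ω ht le_rfl

theorem cn_sum (h : ℕ) (i : Fin 3) (G : Fam2 k P) (ω : Sp k N 3 Θ P) : ∀ {t : ℕ}, t ≤ N →
    (cn h i G t ω : ℝ) = ∑ s ∈ range t, ind (chE h i G s ω)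
  | 0, _ => by rw [cn_zero]; simp
  | t + 1, ht => by
    rw [cn_succ h i G (by omega), Finset.sum_range_succ, cn_sum h i G ω (by omega)]

/-- the total number of changes -/
theorem cn_eq (h : ℕ) (i : Fin 3) (G : Fam2 k P) (ω : Sp k N 3 Θ P) :
    (cn h i G N ω : ℝ) = ∑ s ∈ range N, ind (chE h i G s ω) := cn_sum h i G ω le_rfl

/-- the number of changes is known in the view `i` -/
theorem cn_fac (h : ℕ) (i : Fin 3) (G : Fam2 k P) (t : ℕ) :
    Fac (Kn (Θ := Θ) (P := P) (k := k) (N := N) i (ex N t)) (cn h i G t) := by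
  intro v w hv
  unfold Kn at hv
  simp only [Prod.mk.injEq] at hv
  obtain ⟨-, h2, h3⟩ := hv
  have hY : Yn (ex N t) v = Yn (ex N t) w := by
    rw [Yn_eq i, Yn_eq i, h2, co_fac i v w h3]
  have hg := fac_Yn_Gm h (ex N t) v w hY
  have h4 : vx (i + 1) v = vx (i + 1) w := congrFun h3 ⟨i + 1, fin3_ne1 i⟩
  have h5 : vx (i + 2) v = vx (i + 2) w := congrFun h3 ⟨i + 2, fin3_ne2 i⟩
  unfold cn
  rw [hg, h4, h5]

/-- the frozen version at a sample point -/
theorem fv_frz_eq (h v : ℕ) (i : Fin 3) (G : Fam2 k P) {t : ℕ} (ht : t ≤ N) (ω : Sp k N 3 Θ P) :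
    fv h i (frz h N v G) (ex N t) ω =
      frzA h v G t (ex N t) (Gm h (ex N t) ω) (vx (i + 1) ω) (vx (i + 2) ω) := by
  unfold fv frz
  rw [sub_ex ht]

theorem fz_frz_eq (h v : ℕ) (i : Fin 3) (G : Fam2 k P) {t : ℕ} (ht : t ≤ N) (ω : Sp k N 3 Θ P) :
    fz h i (frz h N v G) t ω =
      frzA h v G t (ex N t) (Gm h (ex N t) ω) (vx (i + 1) ω) (vx (i + 2) ω) := by
  unfold fz
  by_cases h0 : t = 0
  · subst h0
    rw [if_pos rfl, frzA]
  · rw [if_neg h0, fv_frz_eq h v i G ht]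

/-- the version with the current number is the function -/
theorem fz_frz (h : ℕ) (i : Fin 3) (G : Fam2 k P) {t : ℕ} (ht : t ≤ N) (ω : Sp k N 3 Θ P) :
    fz h i (frz h N (cn h i G t ω) G) t ω = fz h i G t ω := by
  rw [fz_frz_eq h _ i G ht, cn_eq_cntA h i G ht, frzA_cur]
  rfl

/-- the version with the current number is the function -/
theorem fv_frz (h : ℕ) (i : Fin 3) (G : Fam2 k P) {t : ℕ} (h1 : 1 ≤ t) (ht : t ≤ N) (ω : Sp k N 3 Θ P) :
    fv h i (frz h N (cn h i G t ω) G) (ex N t) ω = fv h i G (ex N t) ω := by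
  have h2 := fz_frz h i G ht ω
  unfold fz at h2
  rwa [if_neg (by omega), if_neg (by omega)] at h2

theorem fz_frz_zero {h v : ℕ} {i : Fin 3} {G : Fam2 k P} {t : ℕ} (ht : t ≤ N) {ω : Sp k N 3 Θ P}
    (hv : cn h i G t ω < v) : fz h i (frz h N v G) t ω = 0 := by
  rw [fz_frz_eq h v i G ht]
  rw [cn_eq_cntA h i G ht] at hv
  exact frzA_zero hv

theorem fz_frz_const {h v : ℕ} {i : Fin 3} {G : Fam2 k P} {t : ℕ} (ht : t < N) {ω : Sp k N 3 Θ P}
    (hv : v ≤ cn h i G t ω) : fz h i (frz h N v G) (t + 1) ω = fz h i (frz h N v G) t ω := by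
  rw [fz_frz_eq h v i G (show t + 1 ≤ N from ht), fz_frz_eq h v i G ht.le]
  rw [cn_eq_cntA h i G ht.le] at hv
  have e1 : par h (ex N (t + 1)) (Gm h (ex N (t + 1)) ω) = Gm h (ex N t) ω := by
    rw [par_Gm, ex_add ht]
  rw [frzA_succ_pos (by rw [e1, ex_add ht]; exact hv), e1, ex_add ht]

/-- a change of a frozen version happens only between `cn t < v` and `v ≤ cn (t+1)` -/
theorem chE_frz_lt {h v : ℕ} {i : Fin 3} {G : Fam2 k P} {t : ℕ} (ht : t < N) {ω : Sp k N 3 Θ P}
    (hc : chE h i (frz h N v G) t ω) : cn h i G t ω < v ∧ v ≤ cn h i G (t + 1) ω := by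
  have h1 : cn h i G t ω < v := by
    by_contra hcon
    exact hc (fz_frz_const ht (not_lt.mp hcon))
  refine ⟨h1, ?_⟩
  by_contra hcon
  refine hc ?_
  rw [fz_frz_zero (show t + 1 ≤ N from ht) (not_le.mp hcon), fz_frz_zero ht.le h1]

/-- a version changes only from `0` -/
theorem chE_frz {h v : ℕ} {i : Fin 3} {G : Fam2 k P} {t : ℕ} (ht : t < N) {ω : Sp k N 3 Θ P}
    (hc : chE h i (frz h N v G) t ω) : fz h i (frz h N v G) t ω = 0 :=
  fz_frz_zero ht.le (chE_frz_lt ht hc).1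

private theorem sum_cross_le (a : ℕ → ℕ) (v : ℕ) : ∀ n : ℕ, (∀ s < n, a s ≤ a (s + 1)) →
    ∑ s ∈ range n, ind (a s < v ∧ v ≤ a (s + 1)) ≤ ind (v ≤ a n)
  | 0, _ => by simpa using ind_nonneg (v ≤ a 0)
  | n + 1, h => by
    have h1 := sum_cross_le a v n (fun s hs => h s (by omega))
    rw [Finset.sum_range_succ]
    have h2 := h n (Nat.lt_succ_self n)
    by_cases h3 : v ≤ a n
    · rw [ind_not (fun h' : a n < v ∧ v ≤ a (n + 1) => absurd h'.1 (not_lt.mpr h3)),
        ind_of (show v ≤ a (n + 1) from h3.trans h2)]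
      rw [ind_of h3] at h1
      linarith
    · rw [ind_not h3] at h1
      have h4 : ind (a n < v ∧ v ≤ a (n + 1)) ≤ ind (v ≤ a (n + 1)) := ind_mono (fun h' => h'.2)
      linarith

/-- at most one change on every path -/
theorem sum_frz (h v : ℕ) (i : Fin 3) (G : Fam2 k P) (ω : Sp k N 3 Θ P) :
    ∑ s ∈ range N, ind (chE h i (frz h N v G) s ω) ≤ 1 := by
  have h1 : ∑ s ∈ range N, ind (chE h i (frz h N v G) s ω) ≤
      ∑ s ∈ range N, ind (cn h i G s ω < v ∧ v ≤ cn h i G (s + 1) ω) := by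
    refine Finset.sum_le_sum fun s hs => ind_mono fun hc => ?_
    exact chE_frz_lt (Finset.mem_range.mp hs) hc
  refine h1.trans ((sum_cross_le (fun s => cn h i G s ω) v N (fun s hs => cn_le_succ h i G hs ω)).trans ?_)
  exact ind_le_one _

end

end Pool.Agent.M3.Mod
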