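import Pool.Agent.M3.Piece5
import Pool.Agent.M3.S6End

/-!
# M3/H5of : section 5, the input H5 of section 6 from the named views and the three colds (helper11)

`h5_of` : `NVThm L κ0` and `Cold3 L (c0 / (l+1)^2)` give `H5 L lstar (9 c0 / (l+1)^2) (exp (-l))`.
-/

set_option autoImplicit false
set_option linter.unusedSectionVars false

namespace Pool.Agent.M3.Mod

open Finset Filter Pool.Agent.PWZ Pool.Agent.M3.Bin

noncomputable section

variable {k N : ℕ}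

/-- the view of the piece `q`: hidden vertex `a`, structured face `s`, third face `r` -/
theorem exists_view (q : Fin 3) : ∃ a s r : Fin 3, s ≠ a ∧ r ≠ a ∧ r ≠ s ∧
    ∀ (L : Lay) (k N : ℕ) (F : Fin 3 → Unit × V k → Unit × V k → V k → ℝ) (l : ℕ),
      Pc N L F l q s = Dl N L F l s ∧
      (Pc N L F l q r = fine (L.lh l) (Rl N L F l r) ∨ Pc N L F l q r = Rl N L F (l + 1) r) := by
  fin_cases q
  · exact ⟨0, 2, 1, by decide, by decide, by decide, fun L k N F l => ⟨rfl, Or.inl rfl⟩⟩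
  · exact ⟨0, 1, 2, by decide, by decide, by decide, fun L k N F l => ⟨rfl, Or.inr rfl⟩⟩
  · exact ⟨1, 0, 2, by decide, by decide, by decide, fun L k N F l => ⟨rfl, Or.inr rfl⟩⟩

/-- the sizes: everything is at most `exp (-x^2)` -/
theorem num5 {x r c0 pc ph ρ q e3 J σ1 σ2 h1 h2 h3 q2 : ℝ} (hr : 0 < r)
    (hpc : pc ≤ Real.exp (-x ^ 2)) (hph : ph ≤ Real.exp (-x ^ 2)) (hq : q ≤ Real.exp (-x ^ 2))
    (he3 : e3 ≤ Real.exp (-x ^ 2)) (hσ1 : σ1 ≤ Real.exp (-x ^ 2)) (hσh1 : σ1 * h1 ≤ Real.exp (-x ^ 2))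
    (hσh2 : σ2 * h2 ≤ Real.exp (-x ^ 2)) (hσh3 : σ2 * h3 ≤ Real.exp (-x ^ 2))
    (hJρ : 4 * (J * ρ) ≤ Real.exp (-x ^ 2)) (hJσ1 : 2 * (J * σ1) ≤ Real.exp (-x ^ 2))
    (hJσ2 : 4 * (J * σ2) ≤ Real.exp (-x ^ 2))
    (hq2 : q2 = q + 3 * ph + pc + q + 2 * J * (2 * ρ + (σ1 + (σ2 + σ2)))) (hc0 : 0 < c0)
    (hrc : c0 / (x + 1) ^ 2 ≤ r) (hx : 1 ≤ x)
    (hfin : (28 + 15 * (5832 / c0 ^ 2)) * x ^ 4 * Real.exp (-x ^ 2) ≤ Real.exp (-x)) :
    pc + (1458 / (4 * r ^ 2) * ((pc + σ1) + e3 + (σ1 * h1 + (σ2 * h2 + σ2 * h3)) + q2) + 3 * q2) ≤ Real.exp (-x) := by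
  set E := Real.exp (-x ^ 2) with hE
  have hE0 : 0 < E := Real.exp_pos _
  have hq2' : q2 ≤ 9 * E := by
    rw [hq2]
    have : 2 * J * (2 * ρ + (σ1 + (σ2 + σ2))) = 4 * (J * ρ) + 2 * (J * σ1) + 4 * (J * σ2) := by ring
    rw [this]
    linarith
  have hx4 : (1 : ℝ) ≤ x ^ 4 := one_le_pow₀ hx
  have hK : 1458 / (4 * r ^ 2) ≤ 5832 / c0 ^ 2 * x ^ 4 := by
    have hx1 : 0 < (x + 1) ^ 2 := by positivity
    have g1 : c0 ≤ r * (x + 1) ^ 2 := by
      rw [div_le_iff₀ hx1] at hrc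
      exact hrc
    have g2 : c0 ^ 2 ≤ (r * (x + 1) ^ 2) ^ 2 := pow_le_pow_left₀ hc0.le g1 2
    have g3 : (x + 1) ^ 4 ≤ 16 * x ^ 4 := by
      have h6 : (x + 1) ^ 4 ≤ (2 * x) ^ 4 := pow_le_pow_left₀ (by positivity) (by linarith) 4
      have h7 : (2 * x) ^ 4 = 16 * x ^ 4 := by ring
      linarith
    have g4 : (r * (x + 1) ^ 2) ^ 2 = r ^ 2 * (x + 1) ^ 4 := by ring
    have g5 : r ^ 2 * (x + 1) ^ 4 ≤ r ^ 2 * (16 * x ^ 4) := mul_le_mul_of_nonneg_left g3 (by positivity)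
    rw [div_le_iff₀ (by positivity)]
    have g6 : 5832 / c0 ^ 2 * x ^ 4 * (4 * r ^ 2) = 5832 * (4 * r ^ 2 * x ^ 4) / c0 ^ 2 := by ring
    rw [g6, le_div_iff₀ (by positivity)]
    nlinarith
  have hK0 : 0 ≤ 1458 / (4 * r ^ 2) := by positivity
  have hsum : (pc + σ1) + e3 + (σ1 * h1 + (σ2 * h2 + σ2 * h3)) + q2 ≤ 15 * E := by linarith
  have h1 : 1458 / (4 * r ^ 2) * ((pc + σ1) + e3 + (σ1 * h1 + (σ2 * h2 + σ2 * h3)) + q2) ≤
      5832 / c0 ^ 2 * x ^ 4 * (15 * E) :=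
    (mul_le_mul_of_nonneg_left hsum hK0).trans (mul_le_mul_of_nonneg_right hK (by positivity))
  have h2 : (28 + 15 * (5832 / c0 ^ 2)) * x ^ 4 * E = 28 * (x ^ 4 * E) + 5832 / c0 ^ 2 * x ^ 4 * (15 * E) := by ring
  have h3 : E ≤ x ^ 4 * E := by nlinarith
  linarith

theorem h5_of (L : Lay) {κ0 : ℝ} (hκ0 : 0 < κ0) {c0 : ℝ} (hc0 : 0 < c0) (hNV : NVThm L κ0)
    (hC3 : Cold3 L (fun l => c0 * ((l : ℝ) + 1)⁻¹ ^ 2)) :
    ∃ lstar, H5 L lstar (fun l => 9 * c0 * ((l : ℝ) + 1)⁻¹ ^ 2) (fun l => Real.exp (-(l : ℝ))) := by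
  obtain ⟨Cp, l1, hCp⟩ := chE_tail L 2
  obtain ⟨C, n0, hC⟩ := hNV 2 Cp
  obtain ⟨l2, hl2⟩ := hC3 (C + 3)
  have hkap := L.kap_pos
  have e1 := ev_K hkap (4 * (2 ^ 18 * Real.exp 2)) 3 1 C (C + 3) 2 (c := 1) one_pos
  have e2 := ev_P 1 0 1 (C + 2) (C + 3) (by omega) (c := κ0) hκ0
  have e3 := ev_P 256 0 3 (C + 2) (C + 3) (by omega) (c := 1) one_pos
  have e4 := ev_P (28 + 15 * (5832 / c0 ^ 2)) 4 0 1 2 (by omega) (c := 1) one_pos
  have e5 := ev_inv (δ := c0 / 80) (by positivity)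
  obtain ⟨n1, hn1⟩ := eventually_atTop.1 (e1.and (e2.and (e3.and (e4.and e5))))
  refine ⟨max (max (max l1 n0) (max l2 n1)) 1, fun l hl k N hN F hF q => ?_⟩
  have hll1 : l1 ≤ l := (le_max_left _ _).trans ((le_max_left _ _).trans ((le_max_left _ _).trans hl))
  have hln0 : n0 ≤ l := (le_max_right _ _).trans ((le_max_left _ _).trans ((le_max_left _ _).trans hl))
  have hll2 : l2 ≤ l := (le_max_left _ _).trans ((le_max_right _ _).trans ((le_max_left _ _).trans hl))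
  have hln1 : n1 ≤ l := (le_max_right _ _).trans ((le_max_right _ _).trans ((le_max_left _ _).trans hl))
  have hl1' : 1 ≤ l := (le_max_right _ _).trans hl
  obtain ⟨e1, e2, e3, e4, e5⟩ := hn1 l hln1
  obtain ⟨a, s, r3, hsa, hra, hrs, hPc⟩ := exists_view q
  obtain ⟨hPs, hPr⟩ := hPc L k N F l
  obtain ⟨h, hh, hhC, hW⟩ := hC l hln0
  have hx1 : (1 : ℝ) ≤ (l : ℝ) := by exact_mod_cast hl1'
  set x : ℝ := (l : ℝ) with hx
  have hM1 : Real.exp (x ^ C) ≤ Real.exp (x ^ (C + 3)) := Real.exp_le_exp.mpr (pow_le_pow_right₀ hx1 (by omega))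
  obtain ⟨Θ, P, iT, nT, iP, nP, W, hq, ha6, heta, hrmin, he3, hhb, hhb', hJ⟩ :=
    hW k N hN F hF a s r3 hsa hra hrs (Rc L N F l q a (l ^ Cp))
      (by rw [Rc_ne L l q a _ hsa, hPs])
      (by rw [Rc_ne L l q a _ hra]; exact hPr)
      (fun e g x y d => abs_Rc L hF l q a _ a e g x y d)
      (fun ω => by
        rw [Rc_self]
        have := sum_cut (L.lh (l + 1)) (l ^ Cp) a (Pc N L F l q a) ω
        push_cast at this
        exact this) (Real.exp (x ^ (C + 3))) hM1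
  set Rl2 : ℝ := (x + 1)⁻¹ ^ 2 with hRl2
  have hRl0 : 0 < Rl2 := by rw [hRl2]; positivity
  have h4le : (x + 1)⁻¹ ^ 4 ≤ c0 / 80 * Rl2 := by
    have g1 : (x + 1)⁻¹ ^ 4 = Rl2 * Rl2 := by rw [hRl2]; ring
    rw [g1]
    exact mul_le_mul_of_nonneg_right e5 hRl0.le
  have hinv1 : (x + 1)⁻¹ ≤ 1 := inv_le_one_of_one_le₀ (by linarith)
  have hinv0 : 0 ≤ (x + 1)⁻¹ := by positivity
  have h5le : (x + 1)⁻¹ ^ 5 ≤ (x + 1)⁻¹ ^ 4 := pow_le_pow_of_le_one hinv0 hinv1 (by omega)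
  have h6le : (x + 1)⁻¹ ^ 6 ≤ (x + 1)⁻¹ ^ 4 := pow_le_pow_of_le_one hinv0 hinv1 (by omega)
  have hlep : L.lep l ≤ (x + 1)⁻¹ ^ 4 := by
    have g1 : L.lep l = L.c / (x + 1) ^ 4 := rfl
    rw [g1, inv_pow, ← one_div]
    exact div_le_div_of_nonneg_right L.c_le (by positivity)
  have hrd := L.rd1 (l + 1)
  have hle := L.lep_succ_le l
  have hlep0 := L.lep_pos l
  have hrr : 0 < 2 * c0 * Rl2 := by positivity
  have hmain := one_piece (Θ := Θ) (P := P) L (l := l) hN hF q a (h0 := L.lh (l + 1)) rfl hh W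
    (r := 2 * c0 * Rl2) (r0 := c0 * Rl2) (ρ := Real.exp (-x ^ (C + 3))) (pc := Real.exp (-x ^ 2))
    (ph := Real.exp (-x ^ (C + 3))) hrr
    (by linarith) (by linarith) (by linarith) (by linarith) (Real.exp_pos _).le
    (by
      have g1 := hCp l hll1 k N Unit Unit F hF q a
      refine le_trans (FP.Pr_mono _ (fun ω _ hω => ?_)) g1
      push_cast at hω
      exact hω)
    (fun y => hl2 l hll2 k N hN F hF q y) rfl rfl rfl
  refine le_trans (FP.Pr_mono _ (fun ω _ hω => ?_)) (hmain.trans ?_)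
  · obtain ⟨e, he, g1⟩ := hω
    refine ⟨e, he, le_trans ?_ g1⟩
    show 4 * (2 * c0 * Rl2) + W.eta ≤ 9 * c0 * Rl2
    linarith
  -- numerics
  have hxC : x ^ C ≤ x ^ (C + 2) := pow_le_pow_right₀ hx1 (by omega)
  have hx2 : x ^ 2 ≤ x ^ (C + 2) := pow_le_pow_right₀ hx1 (by omega)
  have hx3 : x ^ 2 ≤ x ^ (C + 3) := pow_le_pow_right₀ hx1 (by omega)
  have hE2 : Real.exp (-x ^ (C + 2)) ≤ Real.exp (-x ^ 2) := Real.exp_le_exp.mpr (by linarith)
  set K : ℝ := (1 + L.kap) ^ l with hK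
  have hlth : L.lth l = Real.exp (-K) := rfl
  set σ1 : ℝ := 2 * (2 ^ 17 * L.lth l * 4 ^ (h + 1 - L.lh (l + 1))) with hσ1
  set σ2 : ℝ := 2 * 2 ^ (h + 4) * Real.exp (-x ^ (C + 3)) with hσ2
  have hσ1le : σ1 ≤ 2 ^ 18 * Real.exp 2 * Real.exp (2 * x ^ C - K) := by
    have g1 : (4 : ℝ) ^ (h + 1 - L.lh (l + 1)) ≤ Real.exp (2 * (x ^ C + 1)) := by
      refine four_pow_le (le_trans ?_ (add_le_add hhC (le_refl (1 : ℝ))))
      have : ((h + 1 - L.lh (l + 1) : ℕ) : ℝ) ≤ ((h + 1 : ℕ) : ℝ) := by exact_mod_cast Nat.sub_le _ _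
      push_cast at this ⊢
      exact this
    have g2 : Real.exp 2 * Real.exp (2 * x ^ C - K) = Real.exp (-K) * Real.exp (2 * (x ^ C + 1)) := by
      rw [← Real.exp_add, ← Real.exp_add]
      congr 1
      ring
    rw [hσ1, hlth]
    have g3 : Real.exp (-K) * 4 ^ (h + 1 - L.lh (l + 1)) ≤ Real.exp (-K) * Real.exp (2 * (x ^ C + 1)) :=
      mul_le_mul_of_nonneg_left g1 (Real.exp_pos _).le
    have g4 : 2 ^ 18 * Real.exp 2 * Real.exp (2 * x ^ C - K) = 2 ^ 18 * (Real.exp 2 * Real.exp (2 * x ^ C - K)) := by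
      ring
    rw [g4, g2]
    linarith
  have hσ10 : 0 ≤ σ1 := by rw [hσ1]; have := L.lth_pos l; positivity
  have hσ2le : σ2 ≤ 32 * Real.exp (x ^ C - x ^ (C + 3)) := by
    have g1 : (2 : ℝ) ^ h ≤ Real.exp (x ^ C) := by
      have g2 : (2 : ℝ) ≤ Real.exp 1 := by
        have := Real.add_one_le_exp (1 : ℝ)
        linarith
      calc (2 : ℝ) ^ h ≤ Real.exp 1 ^ h := pow_le_pow_left₀ (by norm_num) g2 h
        _ = Real.exp (h * 1) := by rw [← Real.exp_nat_mul]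
        _ ≤ _ := Real.exp_le_exp.mpr (by linarith)
    have g3 : Real.exp (x ^ C - x ^ (C + 3)) = Real.exp (x ^ C) * Real.exp (-x ^ (C + 3)) := by
      rw [← Real.exp_add]
      congr 1
    rw [hσ2, g3, pow_add]
    have g4 := mul_le_mul_of_nonneg_right g1 (Real.exp_pos (-x ^ (C + 3))).le
    linarith
  have hσ20 : 0 ≤ σ2 := by rw [hσ2]; positivity
  have hJ0 : 0 ≤ W.J := by
    have g1 := W.chJ {a} (singleton_mem_UU a)
    exact le_trans (Finset.sum_nonneg fun t _ => FP.Pr_nonneg _ _) g1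
  have hEC : 0 < Real.exp (x ^ C) := Real.exp_pos _
  -- products with the rarity
  have p1 : ∀ y : ℝ, 0 ≤ y → y ≤ Real.exp (x ^ C + x ^ (C + 3)) → 4 * (σ1 * y) ≤ Real.exp (-x ^ 2) := by
    intro y hy0 hy
    have g1 : Real.exp (3 * x ^ C + 1 * x ^ (C + 3) - 1 * K) =
        Real.exp (2 * x ^ C - K) * Real.exp (x ^ C + x ^ (C + 3)) := by
      rw [← Real.exp_add]
      congr 1
      ring
    rw [g1] at e1
    have g2 : σ1 * y ≤ 2 ^ 18 * Real.exp 2 * Real.exp (2 * x ^ C - K) * Real.exp (x ^ C + x ^ (C + 3)) :=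
      mul_le_mul hσ1le hy hy0 (by positivity)
    linarith
  have p2 : ∀ y : ℝ, 0 ≤ y → y ≤ Real.exp (x ^ C) → 8 * (σ2 * y) ≤ Real.exp (-x ^ (C + 2)) := by
    intro y hy0 hy
    have g1 : Real.exp (3 * x ^ (C + 2) - 1 * x ^ (C + 3)) ≥
        Real.exp (x ^ C - x ^ (C + 3)) * Real.exp (x ^ C) := by
      rw [← Real.exp_add]
      refine Real.exp_le_exp.mpr ?_
      have : 0 ≤ x ^ C := by positivity
      linarith
    have g2 : σ2 * y ≤ 32 * Real.exp (x ^ C - x ^ (C + 3)) * Real.exp (x ^ C) :=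
      mul_le_mul hσ2le hy hy0 (by positivity)
    rw [pow_zero, mul_one] at e3
    linarith
  have hMC : Real.exp (x ^ C) * Real.exp (x ^ (C + 3)) = Real.exp (x ^ C + x ^ (C + 3)) := (Real.exp_add _ _).symm
  have hone : Real.exp (x ^ C) ≤ Real.exp (x ^ C + x ^ (C + 3)) :=
    Real.exp_le_exp.mpr (by have : 0 ≤ x ^ (C + 3) := by positivity
                            linarith)
  have h1E : (1 : ℝ) ≤ Real.exp (x ^ C) := Real.one_le_exp (by positivity)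
  have hhb0 : ∀ U ∈ UU a, 0 ≤ W.hb U := fun U hU =>
    le_trans (Finset.sum_nonneg fun t _ => FP.E_nonneg _ (fun w _ => W.bn U t w)) (W.bh U hU)
  have hUa1 : ({a, a + 1} : Finset (Fin 3)) ∈ UU a := by unfold UU; simp
  have hUa2 : ({a, a + 2} : Finset (Fin 3)) ∈ UU a := by unfold UU; simp
  refine num5 (c0 := 2 * c0) (x := x) hrr le_rfl ?_ hq ?_ ?_ ?_ ?_ ?_ ?_ ?_ ?_ rfl (by positivity) ?_ hx1 ?_
  · exact Real.exp_le_exp.mpr (by linarith)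
  · refine he3.trans ?_
    rw [← Real.exp_mul, ← Real.exp_add]
    rw [pow_zero, mul_one, one_mul] at e2
    refine le_trans (Real.exp_le_exp.mpr ?_) (e2.trans hE2)
    have : x ^ (C + 3) * -κ0 = -(κ0 * x ^ (C + 3)) := by ring
    rw [this]
    linarith
  · have := p1 1 zero_le_one (h1E.trans hone)
    linarith
  · have g1 := hhb {a}
    rw [hMC] at g1
    have := p1 _ (hhb0 _ (singleton_mem_UU a)) g1
    have h9 : 0 ≤ σ1 * W.hb {a} := mul_nonneg hσ10 (hhb0 _ (singleton_mem_UU a))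
    linarith
  · have := p2 _ (hhb0 _ hUa1) (hhb' _ (pair_ne1 a))
    have h9 : 0 ≤ σ2 * W.hb {a, a + 1} := mul_nonneg hσ20 (hhb0 _ hUa1)
    linarith
  · have := p2 _ (hhb0 _ hUa2) (hhb' _ (pair_ne2 a))
    have h9 : 0 ≤ σ2 * W.hb {a, a + 2} := mul_nonneg hσ20 (hhb0 _ hUa2)
    linarith
  · have g1 := p2 _ hJ0 hJ
    have g2 : Real.exp (-x ^ (C + 3)) ≤ σ2 := by
      have g3 : (1 : ℝ) ≤ 2 * 2 ^ (h + 4) := by
        have : (1 : ℝ) ≤ 2 ^ (h + 4) := one_le_pow₀ (by norm_num)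
        linarith
      calc Real.exp (-x ^ (C + 3)) = 1 * Real.exp (-x ^ (C + 3)) := (one_mul _).symm
        _ ≤ _ := mul_le_mul_of_nonneg_right g3 (Real.exp_pos _).le
    have g4 : W.J * Real.exp (-x ^ (C + 3)) ≤ W.J * σ2 := mul_le_mul_of_nonneg_left g2 hJ0
    have g5 : 0 ≤ W.J * σ2 := mul_nonneg hJ0 hσ20
    linarith
  · have g1 := p1 _ hJ0 (hJ.trans hone)
    have g5 : 0 ≤ W.J * σ1 := mul_nonneg hJ0 hσ10
    linarith
  · have g1 := p2 _ hJ0 hJ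
    have g5 : 0 ≤ W.J * σ2 := mul_nonneg hJ0 hσ20
    linarith
  · rw [hRl2, inv_pow]
    exact le_of_eq (by field_simp)
  · have g1 : (28 + 15 * (5832 / (2 * c0) ^ 2)) * x ^ 4 * Real.exp (-x ^ 2) ≤
        (28 + 15 * (5832 / c0 ^ 2)) * x ^ 4 * Real.exp (-x ^ 2) := by
      refine mul_le_mul_of_nonneg_right (mul_le_mul_of_nonneg_right ?_ (by positivity)) (Real.exp_pos _).le
      have g2 : 5832 / (2 * c0) ^ 2 ≤ 5832 / c0 ^ 2 :=
        div_le_div_of_nonneg_left (by norm_num) (by positivity) (pow_le_pow_left₀ hc0.le (by linarith) 2)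
      linarith
    refine g1.trans ?_
    have g3 : Real.exp (0 * x ^ 1 - 1 * x ^ 2) = Real.exp (-x ^ 2) := by
      congr 1
      ring
    rw [g3, pow_one] at e4
    exact e4

end

end Pool.Agent.M3.Mod
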