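import Pool.Agent.M3.HKey

/-!
# M3.HIota: mean of the information density on rare events (note 3407 (6a)), single-map form

`P : FP Om`, hidden map `a`, letters `X`, `Y` conditionally independent given `a`.  Rule for `Y`:
`kl (P.cnd S) P Y ≤ sig (log (1/P(S)) + 1)` for all events `S` of `a`.
* `rule_test` : tests: `P.E (1_S log φ) ≤ P(S) (sig (log (1/P(S)) + 1) + P.E φ - 1)`;
* `rule_dens` : for a density `ψ ≤ M` (function of `a`) and `φ > 0` a function of `Y`:
  `P.E (ψ log φ) ≤ sig (log M + 1) + P.E φ - 1`;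
* `hiota` : if `X` is thick (`P(X = x | a) ≤ A P_S(X = x)`) then the mean of `log P(X,Y)/P(X)P(Y)` on the event `S` is at
  most `sig (log (A/P(S)) + 1)`.
-/

set_option autoImplicit false
set_option linter.unusedSectionVars false

namespace Pool.Agent.M3

open Finset Pool.Agent.PWZ MeasureTheory

variable {Om : Type*} [Fintype Om]

/-! ## layer cake -/

theorem int_ind {x M : ℝ} (h0 : 0 ≤ x) (h1 : x ≤ M) : ∫ t in (0 : ℝ)..M, ind (t < x) = x := by
  have e : (fun t : ℝ => ind (t < x)) = Set.indicator (Set.Iio x) (fun _ => (1 : ℝ)) := by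
    funext t
    by_cases h : t < x
    · rw [ind_of h, Set.indicator_of_mem (show t ∈ Set.Iio x from h)]
    · rw [ind_not h, Set.indicator_of_notMem (show t ∉ Set.Iio x from h)]
  rw [e, intervalIntegral.integral_of_le (h0.trans h1), integral_indicator measurableSet_Iio,
    Measure.restrict_restrict measurableSet_Iio]
  have e2 : Set.Iio x ∩ Set.Ioc 0 M = Set.Ioo 0 x := by
    ext t
    simp only [Set.mem_inter_iff, Set.mem_Iio, Set.mem_Ioc, Set.mem_Ioo]
    constructor
    · rintro ⟨h2, h3, _⟩; exact ⟨h3, h2⟩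
    · rintro ⟨h2, h3⟩; exact ⟨h3, h2, by linarith⟩
  rw [e2]
  simp [h0]

theorem ind_intervalIntegrable (x a b : ℝ) : IntervalIntegrable (fun t => ind (t < x)) volume a b := by
  have e : (fun t : ℝ => ind (t < x)) = Set.indicator (Set.Iio x) (fun _ => (1 : ℝ)) := by
    funext t
    by_cases h : t < x
    · rw [ind_of h, Set.indicator_of_mem (show t ∈ Set.Iio x from h)]
    · rw [ind_not h, Set.indicator_of_notMem (show t ∉ Set.Iio x from h)]
  rw [e]
  have h1 : IntegrableOn (Set.indicator (Set.Iio x) (fun _ => (1 : ℝ))) (Set.uIcc a b) volume := by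
    refine Integrable.indicator ?_ measurableSet_Iio
    exact integrableOn_const (by simp [Set.uIcc])
  exact h1.intervalIntegrable

/-- integration of level sets -/
theorem E_layer {P : FP Om} {ψ c : Om → ℝ} {M D : ℝ} (h0 : ∀ w, 0 ≤ ψ w)
    (h1 : ∀ w, P.p w ≠ 0 → ψ w ≤ M) (hM : 0 ≤ M)
    (h : ∀ t, 0 ≤ t → P.E (fun w => ind (t < ψ w) * c w) ≤ D) : P.E (fun w => ψ w * c w) ≤ D * M := by
  have e1 : P.E (fun w => ψ w * c w) = ∫ t in (0 : ℝ)..M, P.E (fun w => ind (t < ψ w) * c w) := by
    unfold FP.E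
    rw [intervalIntegral.integral_finsetSum]
    · refine Finset.sum_congr rfl (fun w _ => ?_)
      by_cases hw : P.p w = 0
      · rw [hw]; simp
      · have e2 : (fun t : ℝ => P.p w * (ind (t < ψ w) * c w)) = fun t => ind (t < ψ w) * (P.p w * c w) := by
          funext t; ring
        rw [e2, intervalIntegral.integral_mul_const, int_ind (h0 w) (h1 w hw)]
        ring
    · intro w _
      have e2 : (fun t : ℝ => P.p w * (ind (t < ψ w) * c w)) = fun t => ind (t < ψ w) * (P.p w * c w) := by
        funext t; ring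
      rw [e2]
      exact (ind_intervalIntegrable (ψ w) 0 M).mul_const _
  rw [e1]
  have hint : IntervalIntegrable (fun t => P.E (fun w => ind (t < ψ w) * c w)) volume 0 M := by
    have e2 : (fun t : ℝ => P.E (fun w => ind (t < ψ w) * c w)) =
        ∑ w : Om, (fun t : ℝ => ind (t < ψ w) * (P.p w * c w)) := by
      funext t
      rw [Finset.sum_apply]
      unfold FP.E
      exact Finset.sum_congr rfl (fun w _ => by ring)
    rw [e2]
    exact IntervalIntegrable.sum Finset.univ
      (fun w _ => (ind_intervalIntegrable (ψ w) 0 M).mul_const (P.p w * c w))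
  calc ∫ t in (0 : ℝ)..M, P.E (fun w => ind (t < ψ w) * c w) ≤ ∫ _t in (0 : ℝ)..M, D := by
        refine intervalIntegral.integral_mono_on hM hint intervalIntegrable_const (fun t ht => ?_)
        exact h t ht.1
    _ = D * M := by
        rw [intervalIntegral.integral_const, sub_zero, smul_eq_mul, mul_comm]

/-! ## tests -/

section test

variable {P : FP Om} {α κ ι : Type*}

theorem rule_test {S : Om → Prop} (hS : 0 < P.Pr S) {Y : Om → ι} {sig : ℝ}
    (rule : kl (P.cnd S hS) P Y ≤ sig * (Real.log (1 / P.Pr S) + 1))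
    {φ : Om → ℝ} (hφ : Fac Y φ) (h0 : ∀ w, 0 < φ w) :
    P.E (fun w => ind (S w) * Real.log (φ w)) ≤
      P.Pr S * (sig * (Real.log (1 / P.Pr S) + 1) + (P.E φ - 1)) := by
  have h1 := dv (cnd_ac P S hS) hφ (fun w _ => (h0 w).le) (fun w _ => h0 w)
  rw [← Pr_mul_cnd_E P S hS]
  exact mul_le_mul_of_nonneg_left (by linarith) hS.le

/-- the rule for densities -/
theorem rule_dens {a : Om → α} {Y : Om → ι} {sig : ℝ} (hsig : 0 ≤ sig)
    (rule : ∀ (S : Om → Prop) (hS : 0 < P.Pr S), Ev a S →
      kl (P.cnd S hS) P Y ≤ sig * (Real.log (1 / P.Pr S) + 1))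
    {φ : Om → ℝ} (hφ : Fac Y φ) (h0 : ∀ w, 0 < φ w) (h1 : 1 ≤ P.E φ)
    {ψ : Om → ℝ} (hψ : Fac a ψ) (p0 : ∀ w, 0 ≤ ψ w) {M : ℝ} (hM : 0 < M) (pM : ∀ w, P.p w ≠ 0 → ψ w ≤ M)
    (p1 : P.E ψ = 1) :
    P.E (fun w => ψ w * Real.log (φ w)) ≤ sig * (Real.log M + 1) + (P.E φ - 1) := by
  set δ := P.E φ - 1 with hδ
  have hδ0 : 0 ≤ δ := by linarith
  have key : ∀ t, 0 ≤ t →
      P.E (fun w => ind (t < ψ w) * (Real.log (φ w) - (sig * Real.log M + δ))) ≤ sig / M := by
    intro t _
    have hSa : Ev a (fun w => t < ψ w) := fun v w hv => by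
      show t < ψ v ↔ t < ψ w
      rw [hψ v w hv]
    have e1 : P.E (fun w => ind (t < ψ w) * (Real.log (φ w) - (sig * Real.log M + δ))) =
        P.E (fun w => ind (t < ψ w) * Real.log (φ w)) -
          (sig * Real.log M + δ) * P.Pr (fun w => t < ψ w) := by
      unfold FP.Pr
      rw [← FP.E_smul, ← FP.E_sub]
      exact P.E_congr (fun w _ => by ring)
    rw [e1]
    rcases (P.Pr_nonneg (fun w => t < ψ w)).eq_or_lt with h | h
    · have e2 : P.E (fun w => ind (t < ψ w) * Real.log (φ w)) = 0 := by
        have h2 : ∀ w, P.p w ≠ 0 → ¬ t < ψ w := by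
          intro w hw ht
          have h3 : P.p w * ind (t < ψ w) ≤ P.Pr (fun w => t < ψ w) := by
            unfold FP.Pr FP.E
            exact Finset.single_le_sum (f := fun v => P.p v * ind (t < ψ v))
              (fun v _ => mul_nonneg (P.nn v) (ind_nonneg _)) (Finset.mem_univ w)
          rw [← h, ind_of ht, mul_one] at h3
          exact hw (le_antisymm h3 (P.nn w))
        have h4 : P.E (fun w => ind (t < ψ w) * Real.log (φ w)) = P.E (fun _ => (0 : ℝ)) :=
          P.E_congr (fun w hw => by rw [ind_not (h2 w hw), zero_mul])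
        rw [h4, FP.E_const]
      rw [e2, ← h, mul_zero, sub_zero]
      positivity
    · have h2 := rule_test h (rule _ h hSa) hφ h0
      rw [← hδ] at h2
      set p := P.Pr (fun w => t < ψ w) with hp
      -- p log (1/p) ≤ p log M + 1/M - p
      have h3 : Real.log (1 / p) ≤ Real.log M + (1 / (p * M) - 1) := by
        have h4 := Real.log_le_sub_one_of_pos (x := 1 / (p * M)) (by positivity)
        have h5 : Real.log (1 / p) = Real.log M + Real.log (1 / (p * M)) := by
          rw [← Real.log_mul hM.ne' (by positivity)]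
          congr 1
          field_simp
        rw [h5]; linarith
      have h6 : p * (sig * (Real.log (1 / p) + 1)) ≤ p * (sig * (Real.log M + 1 / (p * M))) :=
        mul_le_mul_of_nonneg_left (mul_le_mul_of_nonneg_left (by linarith) hsig) h.le
      have h7 : p * (sig * (Real.log M + 1 / (p * M))) = p * (sig * Real.log M) + sig / M := by
        field_simp
      have h8 : p * (sig * (Real.log (1 / p) + 1) + δ) = p * (sig * (Real.log (1 / p) + 1)) + p * δ := by
        ring
      linarith
  have h2 := E_layer p0 pM hM.le key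
  have h3 : P.E (fun w => ψ w * (Real.log (φ w) - (sig * Real.log M + δ))) =
      P.E (fun w => ψ w * Real.log (φ w)) - (sig * Real.log M + δ) := by
    have : P.E (fun w => ψ w * (Real.log (φ w) - (sig * Real.log M + δ))) =
        P.E (fun w => ψ w * Real.log (φ w) - ψ w * (sig * Real.log M + δ)) :=
      P.E_congr (fun w _ => by ring)
    rw [this, FP.E_sub, FP.E_mul_const, p1, one_mul]
  rw [h3, div_mul_cancel₀ _ hM.ne'] at h2
  linarith

/-- **(6a)**: mean of the information density on an event -/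
theorem hiota {a : Om → α} {X : Om → κ} {Y : Om → ι} {S : Om → Prop} (hSa : Ev a S) (hS : 0 < P.Pr S)
    (hci : P.CI a X Y) {sig A : ℝ} (hsig : 0 ≤ sig) (hA : 0 < A)
    (rule : ∀ (S : Om → Prop) (hS : 0 < P.Pr S), Ev a S →
      kl (P.cnd S hS) P Y ≤ sig * (Real.log (1 / P.Pr S) + 1))
    (thick : ∀ w w', P.p w ≠ 0 → S w → (P.cnd S hS).p w' ≠ 0 →
      P.ce a (fun v => ind (X v = X w')) w ≤ A * (P.cnd S hS).m X w') :
    (P.cnd S hS).E (fun w => Real.log (P.m (fun w => (X w, Y w)) w / (P.m X w * P.m Y w))) ≤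
      sig * (Real.log (A / P.Pr S) + 1) := by
  set Q := P.cnd S hS with hQd
  have hQ : Q.AC P := cnd_ac P S hS
  set io : Om → ℝ := fun w => Real.log (P.m (fun w => (X w, Y w)) w / (P.m X w * P.m Y w)) with hio
  rw [← Q.E_ce X io]
  refine Q.E_le_const (fun w' hw' => ?_)
  have hpw' := hQ w' hw'
  have hmX := P.m_pos X hpw'
  have hQm := Q.m_pos X hw'
  -- the function of `Y`
  set f : Om → ℝ := fun u => ind (X u = X w') with hf
  have hfF : Fac X f := Fac.ind (fun v w hv => by rw [hv])
  set φ : Om → ℝ := fun v => P.ce Y f v / P.m X w' with hφd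
  have hφF : Fac Y φ := fun v w hv => by
    show P.ce Y f v / P.m X w' = P.ce Y f w / P.m X w'
    rw [P.ce_fac Y f v w hv]
  have hφ0 : ∀ w, 0 ≤ φ w := fun w =>
    div_nonneg (P.ce_nonneg (fun v _ => ind_nonneg _) w) hmX.le
  have hφ1 : P.E φ = 1 := by
    show P.E (fun v => P.ce Y f v / P.m X w') = 1
    rw [FP.E_div_const, FP.E_ce]
    have : P.E f = P.m X w' := rfl
    rw [this, div_self hmX.ne']
  have hioφ : ∀ v, X v = X w' → io v = Real.log (φ v) := by
    intro v hv
    show Real.log (P.m (fun w => (X w, Y w)) v / (P.m X v * P.m Y v)) =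
      Real.log (P.E (fun u => ind (Y u = Y v) * f u) / P.m Y v / P.m X w')
    have e1 : P.m (fun w => (X w, Y w)) v = P.E (fun u => ind (Y u = Y v) * f u) := by
      show P.E (fun u => ind ((X u, Y u) = (X v, Y v))) = _
      refine P.E_congr (fun u _ => ?_)
      show ind ((X u, Y u) = (X v, Y v)) = ind (Y u = Y v) * ind (X u = X w')
      rw [← hv]
      by_cases h1 : X u = X v
      · by_cases h2 : Y u = Y v
        · rw [ind_of h1, ind_of h2, ind_of (by rw [h1, h2]), one_mul]
        · rw [ind_not h2, zero_mul, ind_not (fun h => h2 (congrArg Prod.snd h))]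
      · rw [ind_not h1, mul_zero, ind_not (fun h => h1 (congrArg Prod.fst h))]
    rw [e1, P.Fac_m X v w' hv, div_div, mul_comm (P.m Y v)]
  -- the density
  set ψ : Om → ℝ := fun w => ind (S w) * P.ce a f w / (P.Pr S * Q.m X w') with hψd
  have hψF : Fac a ψ := fun v w hv => by
    show ind (S v) * P.ce a f v / (P.Pr S * Q.m X w') = ind (S w) * P.ce a f w / (P.Pr S * Q.m X w')
    rw [P.ce_fac a f v w hv]
    have : ind (S v) = ind (S w) := by rw [show S v = S w from propext (hSa v w hv)]
    rw [this]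
  have hden : 0 < P.Pr S * Q.m X w' := mul_pos hS hQm
  have hψ0 : ∀ w, 0 ≤ ψ w := fun w =>
    div_nonneg (mul_nonneg (ind_nonneg _) (P.ce_nonneg (fun v _ => ind_nonneg _) w)) hden.le
  have hψM : ∀ w, P.p w ≠ 0 → ψ w ≤ A / P.Pr S := by
    intro w hw
    show ind (S w) * P.ce a f w / (P.Pr S * Q.m X w') ≤ A / P.Pr S
    rw [div_le_div_iff₀ hden hS]
    by_cases h : S w
    · rw [ind_of h, one_mul]
      have := thick w w' hw h hw'
      calc P.ce a f w * P.Pr S ≤ A * Q.m X w' * P.Pr S := mul_le_mul_of_nonneg_right this hS.le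
        _ = A * (P.Pr S * Q.m X w') := by ring
    · rw [ind_not h, zero_mul, zero_mul]
      positivity
  have hSf : P.E (fun w => ind (S w) * f w) = P.Pr S * Q.m X w' := by
    rw [← Pr_mul_cnd_E P S hS f]; rfl
  have hψ1 : P.E ψ = 1 := by
    show P.E (fun w => ind (S w) * P.ce a f w / (P.Pr S * Q.m X w')) = 1
    rw [FP.E_div_const, P.E_mul_ce (Fac.ind hSa) f, hSf, div_self hden.ne']
  -- change to the density
  have hchange : ∀ g : Om → ℝ, Fac Y g →
      Q.E (fun v => ind (X v = X w') * g v) / Q.m X w' = P.E (fun w => ψ w * g w) := by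
    intro g hg
    have h1 : P.Pr S * Q.E (fun v => ind (X v = X w') * g v) =
        P.E (fun w => (ind (S w) * P.ce a f w) * g w) := by
      rw [hQd, Pr_mul_cnd_E, hci.E3 (Fac.ind hSa) hfF hg]
      have h2 : Fac a (fun w => ind (S w) * P.ce a f w) := (Fac.ind hSa).mul (P.ce_fac a f)
      rw [← P.E_mul_ce h2 g]
      exact P.E_congr (fun w _ => by ring)
    have h3 : P.E (fun w => ψ w * g w) =
        P.E (fun w => (ind (S w) * P.ce a f w) * g w) / (P.Pr S * Q.m X w') := by
      rw [← FP.E_div_const]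
      exact P.E_congr (fun w _ => by
        show ind (S w) * P.ce a f w / (P.Pr S * Q.m X w') * g w = _
        ring)
    rw [h3, ← h1]
    field_simp
  have hM : 0 < A / P.Pr S := by positivity
  -- approximation
  refine le_of_forall_pos_le_add (fun δ hδ => ?_)
  have hmain := rule_dens hsig rule (φ := fun w => φ w + δ) (hφF.comp (fun x => x + δ))
    (fun w => by have := hφ0 w; linarith)
    (by rw [FP.E_add, FP.E_const, hφ1]; linarith) hψF hψ0 hM hψM hψ1
  rw [FP.E_add, FP.E_const, hφ1, ← hchange (fun w => Real.log (φ w + δ)) (hφF.comp (fun x => Real.log (x + δ)))]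
    at hmain
  have hle : Q.ce X io w' ≤ Q.E (fun v => ind (X v = X w') * Real.log (φ v + δ)) / Q.m X w' := by
    unfold FP.ce
    refine div_le_div_of_nonneg_right ?_ hQm.le
    refine Q.E_mono (fun v hv => ?_)
    by_cases h : X v = X w'
    · rw [ind_of h, one_mul, one_mul, hioφ v h]
      have hpos : 0 < φ v := by
        have h1 : 0 < P.ce Y f v := by
          unfold FP.ce
          refine div_pos ?_ (P.m_pos Y (hQ v hv))
          have h2 : P.p v * (ind (Y v = Y v) * f v) ≤ P.E (fun u => ind (Y u = Y v) * f u) := by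
            unfold FP.E
            exact Finset.single_le_sum (f := fun u => P.p u * (ind (Y u = Y v) * f u))
              (fun u _ => mul_nonneg (P.nn u) (mul_nonneg (ind_nonneg _) (ind_nonneg _))) (Finset.mem_univ v)
          have h3 : f v = 1 := ind_of h
          rw [ind_of rfl, h3, mul_one, mul_one] at h2
          exact lt_of_lt_of_le (lt_of_le_of_ne (P.nn v) (Ne.symm (hQ v hv))) h2
        exact div_pos h1 hmX
      exact Real.log_le_log hpos (by linarith)
    · rw [ind_not h, zero_mul, zero_mul]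
  linarith

end test

end Pool.Agent.M3
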