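import Pool.Agent.M3.S3Cell

/-!
# M3.LemK: contraction of averages of functions of letters (section 3, Lemma K, helper51)

`P` law of the hidden point, `Q` law of the key `b`, `f b` the letter map, `y b` a centred function of the letter.
If for every event `U` of mass at least `ep` the law of `f b` under `P(.|U)` is `dl`-close (in mean over `b`) to its
law under `P`, and letters on which `y b` does not vanish have mass at least `lam`, then the square of the
`L2` norm of the average of the `y b` is at most `38 dl + 3 ep / lam` times the average of the squares.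
`closeTV_of_kl`: the closeness follows from the entropy rule (relative entropies at most `dl ^ 2` in mean).
`lemma_K_pair`: the bilinear form for the two families of letters.
-/

set_option autoImplicit false

namespace Pool.Agent.M3

open Finset Pool.Agent.PWZ

variable {Om B κ : Type*} [Fintype Om] [Fintype B]

/-- the closeness hypothesis: total variation in dual form -/
def CloseTV (P : FP Om) (Q : FP B) (f : B → Om → κ) (ep dl : ℝ) : Prop :=
  ∀ U : Om → Prop, ep ≤ P.Pr U → ∀ h : B → Om → ℝ, (∀ b, Fac (f b) (h b)) → (∀ b w, |h b w| ≤ 1) →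
    Q.E (fun b => P.E (fun w => ind (U w) * h b w)) ≤ P.Pr U * (Q.E (fun b => P.E (h b)) + 2 * dl)

/-- form for functions with values in `[0,1]` -/
theorem CloseTV.unit {P : FP Om} {Q : FP B} {f : B → Om → κ} {ep dl : ℝ} (H : CloseTV P Q f ep dl)
    {U : Om → Prop} (hU : ep ≤ P.Pr U) {h : B → Om → ℝ} (hf : ∀ b, Fac (f b) (h b))
    (h0 : ∀ b w, 0 ≤ h b w) (h1 : ∀ b w, h b w ≤ 1) :
    Q.E (fun b => P.E (fun w => ind (U w) * h b w)) ≤ P.Pr U * (Q.E (fun b => P.E (h b)) + dl) := by
  have hF : ∀ b, Fac (f b) (fun w => 2 * h b w - 1) := fun b => (hf b).comp (fun x => 2 * x - 1)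
  have hB : ∀ b w, |(fun w => 2 * h b w - 1) w| ≤ 1 := fun b w => by
    show |2 * h b w - 1| ≤ 1
    rw [abs_le]
    constructor
    · linarith [h0 b w]
    · linarith [h1 b w]
  have key := H U hU (fun b w => 2 * h b w - 1) hF hB
  have e1 : ∀ b, P.E (fun w => ind (U w) * (2 * h b w - 1)) =
      2 * P.E (fun w => ind (U w) * h b w) - P.Pr U := fun b => by
    rw [← P.E_smul]
    unfold FP.Pr
    rw [← P.E_sub]
    exact P.E_congr (fun w _ => by ring)
  have e2 : ∀ b, P.E (fun w => 2 * h b w - 1) = 2 * P.E (h b) - 1 := fun b => by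
    rw [P.E_sub, P.E_smul, P.E_const]
  simp only [e1, e2, Q.E_sub, Q.E_smul, Q.E_const] at key
  nlinarith [key]

/-- the entropy rule gives the closeness in total variation -/
theorem closeTV_of_kl {P : FP Om} {Q : FP B} {f : B → Om → κ} {ep dl : ℝ} (hep : 0 < ep) (hdl : 0 < dl)
    (hdl1 : dl ≤ 1 / 2)
    (rule : ∀ (U : Om → Prop) (hU : 0 < P.Pr U), ep ≤ P.Pr U →
      Q.E (fun b => kl (P.cnd U hU) P (f b)) ≤ dl ^ 2) : CloseTV P Q f ep dl := by
  intro U hU h hf hb
  have hUp : 0 < P.Pr U := lt_of_lt_of_le hep hU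
  have key : ∀ b, dl * ((P.cnd U hUp).E (h b) - P.E (h b)) ≤ kl (P.cnd U hUp) P (f b) + dl ^ 2 := by
    intro b
    set c := P.E (h b) with hc
    have hcb : |c| ≤ 1 := by
      refine (P.abs_E_le _).trans (P.E_le_const (fun w _ => hb b w))
    have hg : Fac (f b) (fun w => dl * (h b w - c)) := (hf b).comp (fun x => dl * (x - c))
    have h1 := dv_exp (cnd_ac P U hUp) hg
    have h2 : P.E (fun w => Real.exp (dl * (h b w - c))) ≤ 1 + dl ^ 2 := by
      have h3 : P.E (fun w => Real.exp (dl * (h b w - c))) ≤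
          P.E (fun w => 1 + dl * (h b w - c) + dl ^ 2 * (h b w - c) ^ 2) := by
        refine P.E_mono (fun w _ => ?_)
        have hx : |dl * (h b w - c)| ≤ 1 := by
          rw [abs_mul, abs_of_pos hdl]
          have : |h b w - c| ≤ 2 := (abs_sub _ _).trans (by linarith [hb b w])
          nlinarith [abs_nonneg (h b w - c)]
        have := Real.abs_exp_sub_one_sub_id_le hx
        have h4 := (abs_le.mp this).2
        nlinarith
      refine h3.trans ?_
      have e : P.E (fun w => 1 + dl * (h b w - c) + dl ^ 2 * (h b w - c) ^ 2) =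
          1 + dl ^ 2 * (P.E (fun w => h b w ^ 2) - c ^ 2) := by
        have e1 : P.E (fun w => 1 + dl * (h b w - c) + dl ^ 2 * (h b w - c) ^ 2) =
            P.E (fun w => (1 - dl * c + dl ^ 2 * c ^ 2) + ((dl - 2 * dl ^ 2 * c) * h b w + dl ^ 2 * h b w ^ 2)) :=
          P.E_congr (fun w _ => by ring)
        rw [e1, P.E_add, P.E_const, P.E_add, P.E_smul, P.E_smul]
        rw [← hc]; ring
      rw [e]
      have h5 : P.E (fun w => h b w ^ 2) ≤ 1 := by
        refine P.E_le_const (fun w _ => ?_)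
        have := hb b w
        rw [← sq_abs]
        exact pow_le_one₀ (abs_nonneg _) this
      nlinarith [sq_nonneg c, sq_nonneg dl]
    have hpos : 0 < P.E (fun w => Real.exp (dl * (h b w - c))) := by
      obtain ⟨w, hw⟩ := P.exists_p_ne
      have h1 : P.p w * Real.exp (dl * (h b w - c)) ≤ P.E (fun w => Real.exp (dl * (h b w - c))) := by
        unfold FP.E
        exact Finset.single_le_sum (f := fun v => P.p v * Real.exp (dl * (h b v - c)))
          (fun v _ => mul_nonneg (P.nn v) (Real.exp_pos _).le) (Finset.mem_univ w)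
      exact lt_of_lt_of_le (mul_pos (lt_of_le_of_ne (P.nn w) (Ne.symm hw)) (Real.exp_pos _)) h1
    have h6 : Real.log (P.E (fun w => Real.exp (dl * (h b w - c)))) ≤ dl ^ 2 := by
      have := Real.log_le_sub_one_of_pos hpos
      linarith
    have e7 : (P.cnd U hUp).E (fun w => dl * (h b w - c)) = dl * ((P.cnd U hUp).E (h b) - c) := by
      rw [FP.E_smul, FP.E_sub, FP.E_const]
    rw [e7] at h1
    linarith
  have h1 : dl * Q.E (fun b => (P.cnd U hUp).E (h b) - P.E (h b)) ≤ dl ^ 2 + dl ^ 2 := by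
    rw [← Q.E_smul]
    refine (Q.E_mono (fun b _ => key b)).trans ?_
    rw [Q.E_add, Q.E_const]
    linarith [rule U hUp hU]
  have h2 : Q.E (fun b => (P.cnd U hUp).E (h b) - P.E (h b)) ≤ 2 * dl := by
    have : dl * Q.E (fun b => (P.cnd U hUp).E (h b) - P.E (h b)) ≤ dl * (2 * dl) := by
      refine h1.trans (le_of_eq (by ring))
    exact le_of_mul_le_mul_left this hdl
  rw [Q.E_sub] at h2
  have e : ∀ b, P.E (fun w => ind (U w) * h b w) = P.Pr U * (P.cnd U hUp).E (h b) := fun b =>
    (Pr_mul_cnd_E P U hUp (h b)).symm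
  simp only [e]
  rw [Q.E_smul]
  exact mul_le_mul_of_nonneg_left (by linarith) hUp.le

/-- mass of the part of a letter in a small event -/
theorem E_ind_sq_le (P : FP Om) {X : Om → κ} {g : Om → ℝ} (hg : Fac X g) {U : Om → Prop} {lam : ℝ}
    (hlam : 0 < lam) (hm : ∀ w, P.p w ≠ 0 → g w ≠ 0 → lam ≤ P.m X w) :
    P.E (fun w => ind (U w) * g w ^ 2) ≤ P.Pr U / lam * P.E (fun w => g w ^ 2) := by
  have hg2 : Fac X (fun w => g w ^ 2) := hg.comp (fun x => x ^ 2)
  rw [← P.E_ce_mul hg2, ← P.E_smul]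
  refine P.E_mono (fun w hw => ?_)
  by_cases h : g w = 0
  · rw [h]; simp
  · refine mul_le_mul_of_nonneg_right ?_ (sq_nonneg _)
    have hmw := hm w hw h
    have hmp : 0 < P.m X w := P.m_pos X hw
    have hc : P.ce X (fun v => ind (U v)) w = P.E (fun v => ind (X v = X w) * ind (U v)) / P.m X w := rfl
    rw [hc]
    have hle : P.E (fun v => ind (X v = X w) * ind (U v)) ≤ P.Pr U := by
      unfold FP.Pr
      refine P.E_mono (fun v _ => ?_)
      have := ind_le_one (X v = X w)
      nlinarith [ind_nonneg (U v)]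
    exact (div_le_div_of_nonneg_right hle hmp.le).trans
      (div_le_div_of_nonneg_left (P.Pr_nonneg U) hlam hmw)

/-- LEMMA K -/
theorem lemma_K (P : FP Om) (Q : FP B) (f : B → Om → κ) (y : B → Om → ℝ) (hy : ∀ b, Fac (f b) (y b))
    (h0 : ∀ b, P.E (y b) = 0) {dl ep lam : ℝ} (hdl : 0 < dl) (hep : 0 < ep) (hlam : 0 < lam)
    (hTV : CloseTV P Q f ep dl)
    (hth : ∀ b w, P.p w ≠ 0 → y b w ≠ 0 → lam ≤ P.m (f b) w) :
    P.E (fun w => (Q.E (fun b => y b w)) ^ 2) ≤
      (38 * dl + 3 * ep / lam) * Q.E (fun b => P.E (fun w => y b w ^ 2)) := by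
  set p := Q.E (fun b => P.E (fun w => y b w ^ 2)) with hp
  have hp0 : 0 ≤ p := Q.E_nonneg (fun b _ => P.E_nonneg (fun w _ => sq_nonneg _))
  have hsw : P.E (fun w => Q.E (fun b => y b w ^ 2)) = p := P.E_swap Q (fun w b => y b w ^ 2)
  rcases hp0.eq_or_lt with hz | hpos
  · have : P.E (fun w => (Q.E (fun b => y b w)) ^ 2) ≤ p := by
      rw [← hsw]
      exact P.E_mono (fun w _ => Q.sq_E_le _)
    rw [← hz] at this ⊢
    linarith
  -- the threshold
  set x0 := Real.sqrt (p / dl) with hx0
  have hx0pos : 0 < x0 := Real.sqrt_pos.mpr (div_pos hpos hdl)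
  have hx2 : x0 ^ 2 * dl = p := by
    rw [hx0, Real.sq_sqrt (div_pos hpos hdl).le]
    field_simp
  -- large part
  have hFl : ∀ b, Fac (f b) (fun w => ind (x0 < |y b w|)) := fun b =>
    Fac.ind (fun v w hv => by rw [hy b v w hv])
  have hmk : Q.E (fun b => P.E (fun w => ind (x0 < |y b w|))) ≤ dl := by
    have h1 : x0 ^ 2 * Q.E (fun b => P.E (fun w => ind (x0 < |y b w|))) ≤ p := by
      rw [← Q.E_smul]
      refine Q.E_mono (fun b _ => ?_)
      rw [← P.E_smul]
      refine P.E_mono (fun w _ => ?_)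
      by_cases h : x0 < |y b w|
      · rw [ind_of h, mul_one, ← sq_abs (y b w)]
        exact pow_le_pow_left₀ hx0pos.le h.le 2
      · rw [ind_not h, mul_zero]; exact sq_nonneg _
    rw [← hx2] at h1
    exact le_of_mul_le_mul_left h1 (by positivity)
  -- first moment of the large part
  have hfm : Q.E (fun b => P.E (fun w => |y b w| * ind (x0 < |y b w|))) ≤ x0 * dl := by
    have h1 : x0 * Q.E (fun b => P.E (fun w => |y b w| * ind (x0 < |y b w|))) ≤ p := by
      rw [← Q.E_smul]
      refine Q.E_mono (fun b _ => ?_)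
      rw [← P.E_smul]
      refine P.E_mono (fun w _ => ?_)
      by_cases h : x0 < |y b w|
      · rw [ind_of h, mul_one, ← sq_abs (y b w), sq]
        exact mul_le_mul_of_nonneg_right h.le (abs_nonneg _)
      · rw [ind_not h, mul_zero, mul_zero]; exact sq_nonneg _
    have h2 : x0 * (x0 * dl) = p := by rw [← hx2]; ring
    rw [← h2] at h1
    exact le_of_mul_le_mul_left h1 hx0pos
  -- the share of large keys at a point
  set s : Om → ℝ := fun w => Q.E (fun b => ind (x0 < |y b w|)) with hs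
  set xi : B → Om → ℝ := fun b w => y b w * (1 - ind (x0 < |y b w|)) with hxi
  set z : Om → ℝ := fun w => Q.E (fun b => xi b w) with hz
  have hxiF : ∀ b, Fac (f b) (xi b) := fun b =>
    (hy b).mul ((Fac.const (f b) (1:ℝ)).sub (hFl b))
  have hxib : ∀ b w, |xi b w| ≤ x0 := fun b w => by
    show |y b w * (1 - ind (x0 < |y b w|))| ≤ x0
    by_cases h : x0 < |y b w|
    · rw [ind_of h]; simp [hx0pos.le]
    · rw [ind_not h]; simpa using not_lt.mp h
  have hexi : |Q.E (fun b => P.E (xi b))| ≤ x0 * dl := by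
    have e1 : ∀ b, P.E (xi b) = - P.E (fun w => y b w * ind (x0 < |y b w|)) := fun b => by
      have : P.E (xi b) = P.E (y b) - P.E (fun w => y b w * ind (x0 < |y b w|)) := by
        rw [← P.E_sub]; exact P.E_congr (fun w _ => by show y b w * (1 - ind (x0 < |y b w|)) = _; ring)
      rw [this, h0 b]; ring
    refine (Q.abs_E_le _).trans (le_trans (Q.E_mono (fun b _ => ?_)) hfm)
    rw [e1 b, abs_neg]
    refine (P.abs_E_le _).trans (P.E_mono (fun w _ => ?_))
    rw [abs_mul, abs_of_nonneg (ind_nonneg (x0 < |y b w|))]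
  -- exceptional events are small
  have hU1 : P.Pr (fun w => 3 * dl ≤ s w) < ep := by
    by_contra hcon
    rw [not_lt] at hcon
    have h1 := hTV.unit hcon hFl (fun b w => ind_nonneg _) (fun b w => ind_le_one _)
    have h2 : 3 * dl * P.Pr (fun w => 3 * dl ≤ s w) ≤
        Q.E (fun b => P.E (fun w => ind (3 * dl ≤ s w) * ind (x0 < |y b w|))) := by
      rw [← P.E_swap Q (fun w b => ind (3 * dl ≤ s w) * ind (x0 < |y b w|))]
      unfold FP.Pr
      rw [← P.E_smul]
      refine P.E_mono (fun w _ => ?_)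
      rw [Q.E_smul]
      by_cases h : 3 * dl ≤ s w
      · rw [ind_of h]; simpa using h
      · rw [ind_not h]; simp
    nlinarith [P.Pr_nonneg (fun w => 3 * dl ≤ s w)]
  have hU : ∀ sg : ℝ, |sg| = 1 → P.Pr (fun w => 4 * x0 * dl ≤ sg * z w) < ep := by
    intro sg hsg
    by_contra hcon
    rw [not_lt] at hcon
    have hF : ∀ b, Fac (f b) (fun w => sg * xi b w / x0) := fun b => (hxiF b).comp (fun x => sg * x / x0)
    have hBd : ∀ b w, |(fun w => sg * xi b w / x0) w| ≤ 1 := fun b w => by
      show |sg * xi b w / x0| ≤ 1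
      rw [abs_div, abs_mul, hsg, one_mul, abs_of_pos hx0pos, div_le_one hx0pos]
      exact hxib b w
    have h1 := hTV _ hcon (fun b w => sg * xi b w / x0) hF hBd
    have h2 : 4 * dl * P.Pr (fun w => 4 * x0 * dl ≤ sg * z w) ≤
        Q.E (fun b => P.E (fun w => ind (4 * x0 * dl ≤ sg * z w) * (sg * xi b w / x0))) := by
      rw [← P.E_swap Q (fun w b => ind (4 * x0 * dl ≤ sg * z w) * (sg * xi b w / x0))]
      unfold FP.Pr
      rw [← P.E_smul]
      refine P.E_mono (fun w _ => ?_)
      rw [Q.E_smul, Q.E_div_const, Q.E_smul]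
      by_cases h : 4 * x0 * dl ≤ sg * z w
      · rw [ind_of h, mul_one, one_mul, le_div_iff₀ hx0pos]
        show 4 * dl * x0 ≤ sg * z w
        linarith
      · rw [ind_not h]; simp
    have h3 : Q.E (fun b => P.E (fun w => sg * xi b w / x0)) ≤ dl := by
      have e : ∀ b, P.E (fun w => sg * xi b w / x0) = sg * P.E (xi b) / x0 := fun b => by
        rw [P.E_div_const, P.E_smul]
      simp only [e]
      rw [Q.E_div_const, Q.E_smul, div_le_iff₀ hx0pos]
      refine (le_abs_self _).trans ?_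
      rw [abs_mul, hsg, one_mul]
      linarith [hexi]
    nlinarith [P.Pr_nonneg (fun w => 4 * x0 * dl ≤ sg * z w)]
  -- the exceptional set
  set V : Om → Prop := fun w => 3 * dl ≤ s w ∨ (4 * x0 * dl ≤ 1 * z w ∨ 4 * x0 * dl ≤ (-1) * z w) with hV
  have hVle : P.Pr V ≤ 3 * ep := by
    have a1 := hU 1 (by simp)
    have a2 := hU (-1) (by simp)
    have b1 := P.Pr_or_le (fun w => 3 * dl ≤ s w)
      (fun w => 4 * x0 * dl ≤ 1 * z w ∨ 4 * x0 * dl ≤ (-1) * z w)
    have b2 := P.Pr_or_le (fun w => 4 * x0 * dl ≤ 1 * z w) (fun w => 4 * x0 * dl ≤ (-1) * z w)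
    show P.Pr (fun w => 3 * dl ≤ s w ∨ (4 * x0 * dl ≤ 1 * z w ∨ 4 * x0 * dl ≤ (-1) * z w)) ≤ 3 * ep
    linarith
  have hpt : ∀ w, (Q.E (fun b => y b w)) ^ 2 ≤
      6 * dl * Q.E (fun b => y b w ^ 2) + 32 * p * dl + ind (V w) * Q.E (fun b => y b w ^ 2) := by
    intro w
    have hq0 : 0 ≤ Q.E (fun b => y b w ^ 2) := Q.E_nonneg (fun b _ => sq_nonneg _)
    by_cases h : V w
    · rw [ind_of h, one_mul]
      have := Q.sq_E_le (fun b => y b w)
      have h1 : 0 ≤ 6 * dl * Q.E (fun b => y b w ^ 2) := by positivity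
      have h2 : 0 ≤ 32 * p * dl := by positivity
      linarith
    · rw [ind_not h, zero_mul, add_zero]
      have h1 : s w < 3 * dl := not_le.mp (fun h' => h (Or.inl h'))
      have h2 : z w < 4 * x0 * dl := by
        have := not_le.mp (fun h' : 4 * x0 * dl ≤ 1 * z w => h (Or.inr (Or.inl h')))
        linarith
      have h3 : - (4 * x0 * dl) < z w := by
        have := not_le.mp (fun h' : 4 * x0 * dl ≤ (-1) * z w => h (Or.inr (Or.inr h')))
        linarith
      have hsplit : Q.E (fun b => y b w) = Q.E (fun b => y b w * ind (x0 < |y b w|)) + z w := by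
        rw [hz]
        show _ = _ + Q.E (fun b => xi b w)
        rw [← Q.E_add]
        exact Q.E_congr (fun b _ => by show _ = _ + y b w * (1 - ind (x0 < |y b w|)); ring)
      have hcs := Q.E_mul_sq_le (fun b => y b w) (fun b => ind (x0 < |y b w|))
      have hii : Q.E (fun b => ind (x0 < |y b w|) ^ 2) = s w := by
        rw [hs]
        refine Q.E_congr (fun b _ => ?_)
        by_cases hh : x0 < |y b w|
        · rw [ind_of hh]; ring
        · rw [ind_not hh]; ring
      rw [hii] at hcs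
      have hcs' : (Q.E (fun b => y b w * ind (x0 < |y b w|))) ^ 2 ≤ 3 * dl * Q.E (fun b => y b w ^ 2) := by
        refine hcs.trans ?_
        rw [mul_comm]
        exact mul_le_mul_of_nonneg_right h1.le hq0
      have hz2 : z w ^ 2 ≤ 16 * p * dl := by
        have : z w ^ 2 ≤ (4 * x0 * dl) ^ 2 := by
          rw [sq_le_sq, abs_of_pos (show 0 < 4 * x0 * dl by positivity), abs_le]
          exact ⟨h3.le, h2.le⟩
        have e : (4 * x0 * dl) ^ 2 = 16 * p * dl := by rw [← hx2]; ring
        linarith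
      rw [hsplit]
      nlinarith [sq_nonneg (Q.E (fun b => y b w * ind (x0 < |y b w|)) - z w)]
  have hlast : P.E (fun w => ind (V w) * Q.E (fun b => y b w ^ 2)) ≤ 3 * ep / lam * p := by
    have e : P.E (fun w => ind (V w) * Q.E (fun b => y b w ^ 2)) =
        Q.E (fun b => P.E (fun w => ind (V w) * y b w ^ 2)) := by
      rw [← P.E_swap Q (fun w b => ind (V w) * y b w ^ 2)]
      exact P.E_congr (fun w _ => by rw [Q.E_smul])
    rw [e, hp, ← Q.E_smul]
    refine Q.E_mono (fun b _ => ?_)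
    refine (E_ind_sq_le P (hy b) hlam (hth b)).trans ?_
    refine mul_le_mul_of_nonneg_right ?_ (P.E_nonneg (fun w _ => sq_nonneg _))
    exact div_le_div_of_nonneg_right hVle hlam.le
  calc P.E (fun w => (Q.E (fun b => y b w)) ^ 2)
      ≤ P.E (fun w => 6 * dl * Q.E (fun b => y b w ^ 2) + 32 * p * dl + ind (V w) * Q.E (fun b => y b w ^ 2)) :=
        P.E_mono (fun w _ => hpt w)
    _ = 6 * dl * p + 32 * p * dl + P.E (fun w => ind (V w) * Q.E (fun b => y b w ^ 2)) := by
        rw [P.E_add, P.E_add, P.E_smul, P.E_const, hsw]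
    _ ≤ _ := by nlinarith [hlast]

/-- bilinear form: two families of letters of the same hidden point -/
theorem lemma_K_pair {C ι : Type*} [Fintype C] (P : FP Om) (Q : FP B) (R : FP C) (f : B → Om → κ) (g : C → Om → ι)
    (y : B → Om → ℝ) (z : C → Om → ℝ) (hy : ∀ b, Fac (f b) (y b)) (hz : ∀ c, Fac (g c) (z c))
    (h0 : ∀ b, P.E (y b) = 0) (h0' : ∀ c, P.E (z c) = 0) {dl ep lam : ℝ} (hdl : 0 < dl) (hep : 0 < ep)
    (hlam : 0 < lam) (hTV : CloseTV P Q f ep dl) (hTV' : CloseTV P R g ep dl)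
    (hth : ∀ b w, P.p w ≠ 0 → y b w ≠ 0 → lam ≤ P.m (f b) w)
    (hth' : ∀ c w, P.p w ≠ 0 → z c w ≠ 0 → lam ≤ P.m (g c) w) :
    |P.E (fun w => Q.E (fun b => y b w) * R.E (fun c => z c w))| ≤
      (38 * dl + 3 * ep / lam) / 2 *
        (Q.E (fun b => P.E (fun w => y b w ^ 2)) + R.E (fun c => P.E (fun w => z c w ^ 2))) := by
  have h1 := lemma_K P Q f y hy h0 hdl hep hlam hTV hth
  have h2 := lemma_K P R g z hz h0' hdl hep hlam hTV' hth'
  refine (P.abs_E_le _).trans ?_
  have h3 : P.E (fun w => |Q.E (fun b => y b w) * R.E (fun c => z c w)|) ≤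
      P.E (fun w => (1 / 2) * (Q.E (fun b => y b w)) ^ 2 + (1 / 2) * (R.E (fun c => z c w)) ^ 2) := by
    refine P.E_mono (fun w _ => ?_)
    rw [abs_le]
    constructor
    · nlinarith [sq_nonneg (Q.E (fun b => y b w) + R.E (fun c => z c w))]
    · nlinarith [sq_nonneg (Q.E (fun b => y b w) - R.E (fun c => z c w))]
  rw [P.E_add, P.E_smul, P.E_smul] at h3
  nlinarith

end Pool.Agent.M3
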