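import Pool.Agent.M3.FP

/-!
# M3.LemmaP: Lemma P of section 3 (3.8 of row 3 of `m3`, note 3424)

One epoch of section 3 and one fixed hidden point `a`.  The known points `b`, `c` are independent (`P : FP B`, `R : FP C`).
`Ep B C T` : `sf b` = time of the virtual hit of `a` by the `f`-rule (a function of the path of `b`), `sg c` = the same for
`g`, `su b c` = time of an external fall, `te b c` = the test time `T'`, `EB b`, `EC c`, `EA` = ends of the epoch by
rarity of the surviving paths, `big b` = the cell of the `f`-hit is big.  `T` is any linear order.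

`lemmaP`: if given `b` the test time and `EC` are rare before `EB b`, `EA`, and in the mean `te`, `EB`, `EC` are rare before
`EA`, then a function `Psi ≥ 0` which has mean `≤ lam` in `c` for typical `b` and mean `≤ lam` in `b` for typical `c`
has `E[Psi; big f-fall] ≤ lam/(q-e) (P(F) + P(Xu)) + q lam/(1-q-e') P(X) + M (P(b not typical) + P(c not typical))`.
-/

set_option autoImplicit false

namespace Pool.Agent.M3

open Finset Pool.Agent.PWZ

/-- the times of one epoch for a fixed hidden point -/
structure Ep (B C T : Type*) where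
  sf : B → T
  sg : C → T
  su : B → C → T
  te : B → C → T
  EB : B → T
  EC : C → T
  EA : T
  big : B → Prop

namespace Ep

variable {B C T : Type*} [LinearOrder T] (D : Ep B C T)

/-- the epoch has not ended at `s` by a test or by rarity of the surviving paths -/
def al (b : B) (c : C) (s : T) : Prop := s < D.te b c ∧ s < D.EB b ∧ s < D.EC c ∧ s < D.EA

/-- big fall caused by the `f`-rule -/
def F (b : B) (c : C) : Prop := D.big b ∧ D.al b c (D.sf b) ∧ D.sf b ≤ D.sg c ∧ D.sf b < D.su b c

/-- external fall -/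
def Xu (b : B) (c : C) : Prop := D.al b c (D.su b c) ∧ D.su b c ≤ D.sf b ∧ D.su b c ≤ D.sg c

/-- the hidden point falls in this epoch -/
def X (b : B) (c : C) : Prop := D.al b c (D.sf b) ∨ D.al b c (D.sg c) ∨ D.al b c (D.su b c)

theorem al_mono {b : B} {c : C} {s t : T} (h : D.al b c t) (hs : s ≤ t) : D.al b c s :=
  ⟨hs.trans_lt h.1, hs.trans_lt h.2.1, hs.trans_lt h.2.2.1, hs.trans_lt h.2.2.2⟩

theorem F.X {b : B} {c : C} (h : D.F b c) : D.X b c := Or.inl h.2.1

theorem Xu.X {b : B} {c : C} (h : D.Xu b c) : D.X b c := Or.inr (Or.inr h.1)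

end Ep

namespace FP

/-- Lemma P -/
theorem lemmaP {B C T : Type*} [Fintype B] [Fintype C] [LinearOrder T] (P : FP B) (R : FP C) (D : Ep B C T)
    {q e e' lam M : ℝ} (hq00 : 0 ≤ q) (hq : e < q) (hq1 : q + e' < 1) (hlam : 0 ≤ lam)
    (h1 : ∀ b s, s < D.EB b → s < D.EA → R.Pr (fun c => D.te b c ≤ s ∨ D.EC c ≤ s) ≤ e)
    (h2 : ∀ s, s < D.EA →
      P.E (fun b => R.Pr (fun c => D.te b c ≤ s ∨ D.EB b ≤ s ∨ D.EC c ≤ s)) ≤ e')
    (Psi : B → C → ℝ) (h0 : ∀ b c, 0 ≤ Psi b c) (hM : ∀ b c, Psi b c ≤ M)
    (gb : B → Prop) (gc : C → Prop)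
    (hb : ∀ b, gb b → R.E (fun c => Psi b c) ≤ lam)
    (hc : ∀ c, gc c → P.E (fun b => Psi b c) ≤ lam) :
    P.E (fun b => R.E (fun c => ind (D.F b c) * Psi b c)) ≤
      lam / (q - e) * (P.E (fun b => R.Pr (fun c => D.F b c)) + P.E (fun b => R.Pr (fun c => D.Xu b c)))
      + q * lam / (1 - q - e') * P.E (fun b => R.Pr (fun c => D.X b c))
      + M * (P.Pr (fun b => ¬ gb b) + R.Pr (fun c => ¬ gc c)) := by
  classical
  have hqe : 0 < q - e := sub_pos.2 hq
  have hqe' : 0 < 1 - q - e' := by linarith
  -- one needs a point to know that `M` is nonnegative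
  have hBne : Nonempty B := by
    by_contra hB
    rw [not_nonempty_iff] at hB
    have := P.tot
    simp at this
  have hCne : Nonempty C := by
    by_contra hC
    rw [not_nonempty_iff] at hC
    have := R.tot
    simp at this
  obtain ⟨b0⟩ := hBne
  obtain ⟨c0⟩ := hCne
  have hM0 : 0 ≤ M := (h0 b0 c0).trans (hM b0 c0)
  -- the points `b` whose hit comes late
  let S2 : B → Prop := fun b =>
    D.big b ∧ D.sf b < D.EB b ∧ D.sf b < D.EA ∧ 1 - q < R.Pr (fun c => D.sg c < D.sf b)
  have step1 : ∀ b, R.E (fun c => ind (D.F b c) * Psi b c) ≤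
      lam / (q - e) * (R.Pr (fun c => D.F b c) + R.Pr (fun c => D.Xu b c)) + M * ind (¬ gb b)
        + ind (S2 b) * R.E (fun c => ind (D.F b c) * Psi b c) := by
    intro b
    have n1 : 0 ≤ lam / (q - e) * (R.Pr (fun c => D.F b c) + R.Pr (fun c => D.Xu b c)) :=
      mul_nonneg (div_nonneg hlam hqe.le) (add_nonneg (R.Pr_nonneg _) (R.Pr_nonneg _))
    have n2 : 0 ≤ M * ind (¬ gb b) := mul_nonneg hM0 (ind_nonneg _)
    by_cases hS : S2 b
    · rw [ind_of hS, one_mul]
      linarith
    · rw [ind_not hS, zero_mul, add_zero]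
      by_cases hg : gb b
      · by_cases hh : D.big b ∧ D.sf b < D.EB b ∧ D.sf b < D.EA
        · -- the hit comes early
          have hle : R.Pr (fun c => D.sg c < D.sf b) ≤ 1 - q := by
            by_contra hcon
            exact hS ⟨hh.1, hh.2.1, hh.2.2, not_le.1 hcon⟩
          have hE := h1 b (D.sf b) hh.2.1 hh.2.2
          have hcov : (1 : ℝ) ≤ R.Pr (fun c => D.F b c) + R.Pr (fun c => D.Xu b c)
              + R.Pr (fun c => D.sg c < D.sf b) + R.Pr (fun c => D.te b c ≤ D.sf b ∨ D.EC c ≤ D.sf b) := by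
            unfold FP.Pr
            rw [← R.E_add, ← R.E_add, ← R.E_add]
            refine R.le_E_const fun c _ => ?_
            have i1 := ind_nonneg (D.F b c)
            have i2 := ind_nonneg (D.Xu b c)
            have i3 := ind_nonneg (D.sg c < D.sf b)
            have i4 := ind_nonneg (D.te b c ≤ D.sf b ∨ D.EC c ≤ D.sf b)
            by_cases k3 : D.sg c < D.sf b
            · rw [ind_of k3]
              linarith
            · by_cases k4 : D.te b c ≤ D.sf b ∨ D.EC c ≤ D.sf b
              · rw [ind_of k4]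
                linarith
              · have k4' := not_or.1 k4
                have al : D.al b c (D.sf b) := ⟨not_le.1 k4'.1, hh.2.1, not_le.1 k4'.2, hh.2.2⟩
                by_cases k5 : D.sf b < D.su b c
                · have hF : D.F b c := ⟨hh.1, al, not_lt.1 k3, k5⟩
                  rw [ind_of hF]
                  linarith
                · have hsu := not_lt.1 k5
                  have hX : D.Xu b c := ⟨D.al_mono al hsu, hsu, hsu.trans (not_lt.1 k3)⟩
                  rw [ind_of hX]
                  linarith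
          have hge : q - e ≤ R.Pr (fun c => D.F b c) + R.Pr (fun c => D.Xu b c) := by linarith
          have hle2 : R.E (fun c => ind (D.F b c) * Psi b c) ≤ lam := by
            refine le_trans (R.E_mono fun c _ => ?_) (hb b hg)
            have := mul_le_mul_of_nonneg_right (ind_le_one (D.F b c)) (h0 b c)
            linarith
          have hfin : lam ≤ lam / (q - e) * (R.Pr (fun c => D.F b c) + R.Pr (fun c => D.Xu b c)) := by
            calc lam = lam / (q - e) * (q - e) := by field_simp
              _ ≤ _ := mul_le_mul_of_nonneg_left hge (div_nonneg hlam hqe.le)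
          linarith
        · -- no fall
          have hz : R.E (fun c => ind (D.F b c) * Psi b c) = 0 := by
            have : ∀ c, ind (D.F b c) * Psi b c = 0 := by
              intro c
              have hF : ¬ D.F b c := fun hF => hh ⟨hF.1, hF.2.1.2.1, hF.2.1.2.2.2⟩
              rw [ind_not hF, zero_mul]
            simp only [this, FP.E_const]
          rw [hz]
          linarith
      · rw [ind_of hg, mul_one]
        have : R.E (fun c => ind (D.F b c) * Psi b c) ≤ M := by
          refine R.E_le_const fun c _ => ?_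
          have h3 := mul_le_mul_of_nonneg_right (ind_le_one (D.F b c)) (h0 b c)
          have h4 := hM b c
          linarith
        linarith
  have step2 : P.E (fun b => ind (S2 b) * R.E (fun c => ind (D.F b c) * Psi b c)) ≤
      q * lam / (1 - q - e') * P.E (fun b => R.Pr (fun c => D.X b c)) + M * R.Pr (fun c => ¬ gc c) := by
    by_cases hne : ∃ b, S2 b
    · -- the first late hit
      obtain ⟨b1, hb1, hmin⟩ := Finset.exists_min_image (Finset.univ.filter S2) D.sf
        (by obtain ⟨b, hb⟩ := hne; exact ⟨b, by simp [hb]⟩)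
      have hS1 : S2 b1 := (Finset.mem_filter.1 hb1).2
      have hmin' : ∀ b, S2 b → D.sf b1 ≤ D.sf b := fun b hb => hmin b (by simp [hb])
      obtain ⟨_, _, hEA, hlate⟩ := hS1
      have hq0 : R.Pr (fun c => D.sf b1 ≤ D.sg c) ≤ q := by
        have h5 : R.Pr (fun c => D.sf b1 ≤ D.sg c) = 1 - R.Pr (fun c => D.sg c < D.sf b1) := by
          rw [← R.Pr_not]
          exact R.Pr_congr fun c _ => not_lt.symm
        linarith
      have hX : 1 - q - e' ≤ P.E (fun b => R.Pr (fun c => D.X b c)) := by
        have h6 := h2 _ hEA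
        have h7 : (1 : ℝ) ≤ P.E (fun b => R.Pr (fun c => D.X b c)) +
            P.E (fun b => R.Pr (fun c => D.sf b1 ≤ D.sg c)) +
            P.E (fun b => R.Pr (fun c => D.te b c ≤ D.sf b1 ∨ D.EB b ≤ D.sf b1 ∨ D.EC c ≤ D.sf b1)) := by
          rw [← P.E_add, ← P.E_add]
          refine P.le_E_const fun b _ => ?_
          unfold FP.Pr
          rw [← R.E_add, ← R.E_add]
          refine R.le_E_const fun c _ => ?_
          have i1 := ind_nonneg (D.X b c)
          have i2 := ind_nonneg (D.sf b1 ≤ D.sg c)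
          have i3 := ind_nonneg (D.te b c ≤ D.sf b1 ∨ D.EB b ≤ D.sf b1 ∨ D.EC c ≤ D.sf b1)
          by_cases k2 : D.sf b1 ≤ D.sg c
          · rw [ind_of k2]
            linarith
          · by_cases k3 : D.te b c ≤ D.sf b1 ∨ D.EB b ≤ D.sf b1 ∨ D.EC c ≤ D.sf b1
            · rw [ind_of k3]
              linarith
            · have k3' := not_or.1 k3
              have k3'' := not_or.1 k3'.2
              have al : D.al b c (D.sf b1) :=
                ⟨not_le.1 k3'.1, not_le.1 k3''.1, not_le.1 k3''.2, hEA⟩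
              have hXX : D.X b c := Or.inr (Or.inl (D.al_mono al (not_le.1 k2).le))
              rw [ind_of hXX]
              linarith
        have h8 : P.E (fun _ => R.Pr (fun c => D.sf b1 ≤ D.sg c)) ≤ q := by
          rw [P.E_const]
          exact hq0
        linarith
      have hmain : P.E (fun b => ind (S2 b) * R.E (fun c => ind (D.F b c) * Psi b c)) ≤
          q * lam + M * R.Pr (fun c => ¬ gc c) := by
        have e1 : P.E (fun b => ind (S2 b) * R.E (fun c => ind (D.F b c) * Psi b c)) ≤
            P.E (fun b => R.E (fun c => ind (D.sf b1 ≤ D.sg c) * Psi b c)) := by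
          refine P.E_mono fun b _ => ?_
          by_cases hS : S2 b
          · rw [ind_of hS, one_mul]
            refine R.E_mono fun c _ => mul_le_mul_of_nonneg_right (ind_mono fun hF => ?_) (h0 b c)
            exact (hmin' b hS).trans hF.2.2.1
          · rw [ind_not hS, zero_mul]
            exact R.E_nonneg fun c _ => mul_nonneg (ind_nonneg _) (h0 b c)
        refine e1.trans ?_
        rw [P.E_swap R (fun b c => ind (D.sf b1 ≤ D.sg c) * Psi b c)]
        have e2 : ∀ c, P.E (fun b => ind (D.sf b1 ≤ D.sg c) * Psi b c) ≤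
            lam * ind (D.sf b1 ≤ D.sg c) + M * ind (¬ gc c) := by
          intro c
          rw [P.E_smul]
          by_cases hg : gc c
          · have h9 := mul_le_mul_of_nonneg_left (hc c hg) (ind_nonneg (D.sf b1 ≤ D.sg c))
            have h10 : 0 ≤ M * ind (¬ gc c) := mul_nonneg hM0 (ind_nonneg _)
            linarith
          · rw [ind_of hg, mul_one]
            have h11 : P.E (fun b => Psi b c) ≤ M := P.E_le_const fun b _ => hM b c
            have h12 : 0 ≤ P.E (fun b => Psi b c) := P.E_nonneg fun b _ => h0 b c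
            have h13 := mul_le_mul_of_nonneg_right (ind_le_one (D.sf b1 ≤ D.sg c)) h12
            have h14 : 0 ≤ lam * ind (D.sf b1 ≤ D.sg c) := mul_nonneg hlam (ind_nonneg _)
            linarith
        refine (R.E_mono fun c _ => e2 c).trans ?_
        rw [R.E_add, R.E_smul, R.E_smul]
        have h15 := mul_le_mul_of_nonneg_left hq0 hlam
        unfold FP.Pr at h15 ⊢
        linarith
      have hfin : q * lam ≤ q * lam / (1 - q - e') * P.E (fun b => R.Pr (fun c => D.X b c)) := by
        calc q * lam = q * lam / (1 - q - e') * (1 - q - e') := by field_simp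
          _ ≤ _ := mul_le_mul_of_nonneg_left hX (div_nonneg (mul_nonneg hq00 hlam) hqe'.le)
      linarith
    · have hz : P.E (fun b => ind (S2 b) * R.E (fun c => ind (D.F b c) * Psi b c)) = 0 := by
        have : ∀ b, ind (S2 b) * R.E (fun c => ind (D.F b c) * Psi b c) = 0 := by
          intro b
          rw [ind_not (fun hS => hne ⟨b, hS⟩), zero_mul]
        simp only [this, FP.E_const]
      rw [hz]
      have n3 : 0 ≤ M * R.Pr (fun c => ¬ gc c) := mul_nonneg hM0 (R.Pr_nonneg _)
      have n4 : 0 ≤ q * lam / (1 - q - e') * P.E (fun b => R.Pr (fun c => D.X b c)) :=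
        mul_nonneg (div_nonneg (mul_nonneg hq00 hlam) hqe'.le) (P.E_nonneg fun b _ => R.Pr_nonneg _)
      linarith
  calc P.E (fun b => R.E (fun c => ind (D.F b c) * Psi b c))
      ≤ P.E (fun b => lam / (q - e) * (R.Pr (fun c => D.F b c) + R.Pr (fun c => D.Xu b c))
        + M * ind (¬ gb b) + ind (S2 b) * R.E (fun c => ind (D.F b c) * Psi b c)) :=
        P.E_mono fun b _ => step1 b
    _ = lam / (q - e) * (P.E (fun b => R.Pr (fun c => D.F b c)) +
        P.E (fun b => R.Pr (fun c => D.Xu b c))) + M * P.Pr (fun b => ¬ gb b) +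
        P.E (fun b => ind (S2 b) * R.E (fun c => ind (D.F b c) * Psi b c)) := by
        rw [P.E_add, P.E_add, P.E_smul, P.E_smul, P.E_add]
        rfl
    _ ≤ _ := by linarith

/-- Lemma P with the thresholds `q/2` and `1/4` (no `EC`: take `EC c = EA`) -/
theorem lemmaP' {B C T : Type*} [Fintype B] [Fintype C] [LinearOrder T] (P : FP B) (R : FP C) (D : Ep B C T)
    {q lam M : ℝ} (hq : 0 < q) (hq1 : q ≤ 1 / 4) (hlam : 0 ≤ lam) (hEC : ∀ c, D.EC c = D.EA)
    (h1 : ∀ b s, s < D.EB b → s < D.EA → R.Pr (fun c => D.te b c ≤ s) ≤ q / 2)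
    (h2 : ∀ s, s < D.EA → P.E (fun b => R.Pr (fun c => D.te b c ≤ s ∨ D.EB b ≤ s)) ≤ 1 / 4)
    (Psi : B → C → ℝ) (h0 : ∀ b c, 0 ≤ Psi b c) (hM : ∀ b c, Psi b c ≤ M)
    (gb : B → Prop) (gc : C → Prop)
    (hb : ∀ b, gb b → R.E (fun c => Psi b c) ≤ lam)
    (hc : ∀ c, gc c → P.E (fun b => Psi b c) ≤ lam) :
    P.E (fun b => R.E (fun c => ind (D.F b c) * Psi b c)) ≤
      2 / q * lam * (P.E (fun b => R.Pr (fun c => D.F b c)) + P.E (fun b => R.Pr (fun c => D.Xu b c)))
      + 2 * q * lam * P.E (fun b => R.Pr (fun c => D.X b c))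
      + M * (P.Pr (fun b => ¬ gb b) + R.Pr (fun c => ¬ gc c)) := by
  have h1' : ∀ b s, s < D.EB b → s < D.EA → R.Pr (fun c => D.te b c ≤ s ∨ D.EC c ≤ s) ≤ q / 2 := by
    intro b s hs hs'
    refine (R.Pr_mono fun c _ h => ?_).trans (h1 b s hs hs')
    rcases h with h | h
    · exact h
    · rw [hEC] at h
      exact absurd hs' (not_lt.2 h)
  have h2' : ∀ s, s < D.EA →
      P.E (fun b => R.Pr (fun c => D.te b c ≤ s ∨ D.EB b ≤ s ∨ D.EC c ≤ s)) ≤ 1 / 4 := by
    intro s hs
    refine (P.E_mono fun b _ => R.Pr_mono fun c _ h => ?_).trans (h2 s hs)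
    rcases h with h | h | h
    · exact Or.inl h
    · exact Or.inr h
    · rw [hEC] at h
      exact absurd hs (not_lt.2 h)
  have key := lemmaP P R D hq.le (by linarith : q / 2 < q) (by linarith : q + 1 / 4 < 1) hlam h1' h2'
    Psi h0 hM gb gc hb hc
  have n1 : 0 ≤ P.E (fun b => R.Pr (fun c => D.X b c)) := P.E_nonneg fun b _ => R.Pr_nonneg _
  have e1 : lam / (q - q / 2) = 2 / q * lam := by
    field_simp
    ring
  have e2 : q * lam / (1 - q - 1 / 4) ≤ 2 * q * lam := by
    rw [div_le_iff₀ (by linarith)]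
    have : 0 ≤ q * lam := mul_nonneg hq.le hlam
    nlinarith
  have e3 := mul_le_mul_of_nonneg_right e2 n1
  rw [e1] at key
  linarith

end FP

end Pool.Agent.M3
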