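import Pool.Agent.M3.NVMain
import Pool.Agent.M3.NVNum
import Pool.Agent.M3.Final

/-!
# M3.Main0: three commuting maps from Theorem 3 (helper11)

Theorem 3 (with any exponent `κ > 0`) gives the finite theorem in the binary model (`binTh3_of_Thm3`) and the statement
on commuting maps (`finalM3_of_Thm3`).
-/

set_option autoImplicit false

namespace Pool.Agent.M3.Mod

/-- named views from Theorem 3 -/
theorem nvThm_of_Thm3 (L : Lay) {κ : ℝ} (h3 : S3.Thm3 κ) : NVThm L κ :=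
  nvThm_of L h3 fun Ct C0 C1 => by
    obtain ⟨C, n1, h⟩ := nv_num Ct C0 C1
    exact ⟨C, n1, fun n hn => h n hn⟩

/-- **the finite theorem in the binary model** from Theorem 3 -/
theorem binTh3_of_Thm3 {κ : ℝ} (hκ : 0 < κ) (h3 : S3.Thm3 κ) : Pool.PWM.BinTh 3 := by
  have hNV := nvThm_of_Thm3 L0 h3
  obtain ⟨lstar, h5⟩ := h5_of L0 hκ one_pos hNV (cold3_inv L0 hκ one_pos le_rfl hNV)
  exact bin3 L0 lstar _ _ (summable_inv_sq (9 * 1)) (fun l => by positivity) summable_exp_neg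
    (fun l => (Real.exp_pos _).le) h5 (lay0 L0)

/-- **three commuting maps** from Theorem 3 -/
theorem finalM3_of_Thm3 {κ : ℝ} (hκ : 0 < κ) (h3 : S3.Thm3 κ) : Pool.PWM.FinalM 3 :=
  Pool.PWM.finalM_of_bin 3 (binTh3_of_Thm3 hκ h3)

end Pool.Agent.M3.Mod
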