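import Pool.Agent.M3.Indep

/-!
# M3.Mix: a law as a mixture over a top (helper34)

`Mix P tp φ Q` : given `tp w = τ` the point `φ w` has the law `Q τ`.

* `Mix.E`, `Mix.Pr`, `Mix.ce` : expectations and conditional expectations given (top, map of the point) are those of `Q`;
* `Mix.push` : image of the laws; `Mix.swap_top` : same classes of tops;
* `Mix.ex` : additional independent randomness `c w` does not matter.
-/

set_option autoImplicit false

namespace Pool.Agent.M3

open Finset Pool.Agent.PWZ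

/-- given `tp w = τ` the point `φ w` has the law `Q τ` -/
structure Mix {Om Om' τ : Type*} [Fintype Om] [Fintype Om'] (P : FP Om) (tp : Om → τ) (φ : Om → Om')
    (Q : τ → FP Om') : Prop where
  law : ∀ Ψ : τ → Om' → ℝ, P.E (fun w => Ψ (tp w) (φ w)) = P.E (fun w => (Q (tp w)).E (Ψ (tp w)))

namespace Mix

variable {Om Om' Om'' τ κ : Type*} [Fintype Om] [Fintype Om'] [Fintype Om''] {P : FP Om} {tp : Om → τ} {φ : Om → Om'}
  {Q : τ → FP Om'}

theorem E (M : Mix P tp φ Q) (Ψ : τ → Om' → ℝ) :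
    P.E (fun w => Ψ (tp w) (φ w)) = P.E (fun w => (Q (tp w)).E (Ψ (tp w))) := M.law Ψ

theorem Pr (M : Mix P tp φ Q) (s : τ → Om' → Prop) :
    P.Pr (fun w => s (tp w) (φ w)) = P.E (fun w => (Q (tp w)).Pr (s (tp w))) :=
  M.law (fun t u => ind (s t u))

/-- a bound for every top is a bound -/
theorem E_le (M : Mix P tp φ Q) (Ψ : τ → Om' → ℝ) {C : ℝ} (h : ∀ t, (Q t).E (Ψ t) ≤ C) :
    P.E (fun w => Ψ (tp w) (φ w)) ≤ C := by
  rw [M.law]
  exact P.E_le_const fun w _ => h (tp w)

/-- sums over the time of bounds for every top -/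
theorem sum_E_le (M : Mix P tp φ Q) {α : Type*} (s : Finset α) (Ψ : α → τ → Om' → ℝ) {C : ℝ}
    (h : ∀ t, ∑ a ∈ s, (Q t).E (Ψ a t) ≤ C) :
    ∑ a ∈ s, P.E (fun w => Ψ a (tp w) (φ w)) ≤ C := by
  rw [Finset.sum_congr rfl fun a _ => M.law (Ψ a), ← P.E_sum]
  exact P.E_le_const fun w _ => h (tp w)

private theorem mass_aux (M : Mix P tp φ Q) (w : Om) (G : Om' → ℝ) :
    P.E (fun v => ind (tp v = tp w) * G (φ v)) = P.m tp w * (Q (tp w)).E G := by
  have h1 : P.E (fun v => ind (tp v = tp w) * G (φ v)) =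
      P.E (fun v => (Q (tp v)).E (fun u => ind (tp v = tp w) * G u)) := M.law (fun t u => ind (t = tp w) * G u)
  rw [h1]
  have h2 : ∀ v, (Q (tp v)).E (fun u => ind (tp v = tp w) * G u) = ind (tp v = tp w) * (Q (tp w)).E G := by
    intro v
    by_cases h : tp v = tp w
    · rw [FP.E_smul, h]
    · rw [ind_not h, FP.E_smul, zero_mul, zero_mul]
  simp only [h2]
  rw [FP.E_mul_const]
  rfl

omit [Fintype Om] [Fintype Om'] in
private theorem ind_aux (X : τ → Om' → κ) (w v : Om) :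
    ind ((tp v, X (tp v) (φ v)) = (tp w, X (tp w) (φ w))) =
      ind (tp v = tp w) * ind (X (tp w) (φ v) = X (tp w) (φ w)) := by
  by_cases h : tp v = tp w
  · rw [ind_of h, one_mul, h]
    by_cases h2 : X (tp w) (φ v) = X (tp w) (φ w)
    · rw [ind_of h2, ind_of (by rw [h2])]
    · rw [ind_not h2, ind_not (fun h3 => h2 (Prod.mk.inj h3).2)]
  · rw [ind_not h, zero_mul, ind_not (fun h3 => h (Prod.mk.inj h3).1)]

/-- CONDITIONAL EXPECTATIONS given the top and a map of the point -/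
theorem ce (M : Mix P tp φ Q) (X : τ → Om' → κ) (f : τ → Om' → ℝ) {w : Om} (hw : P.p w ≠ 0) :
    P.ce (fun v => (tp v, X (tp v) (φ v))) (fun v => f (tp v) (φ v)) w = (Q (tp w)).ce (X (tp w)) (f (tp w)) (φ w) := by
  unfold FP.ce
  have hm : P.m tp w ≠ 0 := (P.m_pos tp hw).ne'
  have e1 : P.E (fun v => ind ((tp v, X (tp v) (φ v)) = (tp w, X (tp w) (φ w))) * f (tp v) (φ v)) =
      P.m tp w * (Q (tp w)).E (fun u => ind (X (tp w) u = X (tp w) (φ w)) * f (tp w) u) := by
    rw [← M.mass_aux w (fun u => ind (X (tp w) u = X (tp w) (φ w)) * f (tp w) u)]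
    refine P.E_congr fun v _ => ?_
    by_cases h : tp v = tp w
    · rw [ind_of h, one_mul, h]
      congr 1
      by_cases h2 : X (tp w) (φ v) = X (tp w) (φ w)
      · rw [ind_of h2, ind_of (by rw [h2])]
      · rw [ind_not h2, ind_not (fun h3 => h2 (Prod.mk.inj h3).2)]
    · rw [ind_not h, zero_mul, ind_not (fun h3 => h (Prod.mk.inj h3).1), zero_mul]
  have e2 : P.m (fun v => (tp v, X (tp v) (φ v))) w = P.m tp w * (Q (tp w)).m (X (tp w)) (φ w) := by
    unfold FP.m
    rw [show P.E (fun v => ind (tp v = tp w)) = P.m tp w from rfl,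
      ← M.mass_aux w (fun u => ind (X (tp w) u = X (tp w) (φ w)))]
    refine P.E_congr fun v _ => ?_
    exact ind_aux X w v
  rw [e1, e2]
  exact mul_div_mul_left _ _ hm

/-- the mass of a class -/
theorem m (M : Mix P tp φ Q) (X : τ → Om' → κ) (w : Om) :
    P.m (fun v => (tp v, X (tp v) (φ v))) w = P.m tp w * (Q (tp w)).m (X (tp w)) (φ w) := by
  unfold FP.m
  rw [show P.E (fun v => ind (tp v = tp w)) = P.m tp w from rfl,
    ← M.mass_aux w (fun u => ind (X (tp w) u = X (tp w) (φ w)))]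
  exact P.E_congr fun v _ => ind_aux X w v

/-- the point has positive mass under its own law -/
theorem ne (M : Mix P tp φ Q) {w : Om} (hw : P.p w ≠ 0) : (Q (tp w)).p (φ w) ≠ 0 := by
  classical
  intro h0
  have h1 := M.mass_aux w (fun u => ind (u = φ w))
  have h2 : (Q (tp w)).E (fun u => ind (u = φ w)) = 0 := by
    unfold FP.E
    refine Finset.sum_eq_zero fun u _ => ?_
    by_cases hu : u = φ w
    · rw [hu, h0, zero_mul]
    · show (Q (tp w)).p u * ind (u = φ w) = 0
      rw [ind_not hu, mul_zero]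
  rw [h2, mul_zero] at h1
  have h3 : P.p w ≤ P.E (fun v => ind (tp v = tp w) * ind (φ v = φ w)) := by
    unfold FP.E
    have h4 : P.p w = P.p w * (ind (tp w = tp w) * ind (φ w = φ w)) := by
      rw [ind_of rfl, ind_of rfl]; ring
    rw [h4]
    exact Finset.single_le_sum (f := fun v => P.p v * (ind (tp v = tp w) * ind (φ v = φ w)))
      (fun v _ => mul_nonneg (P.nn v) (mul_nonneg (ind_nonneg _) (ind_nonneg _))) (Finset.mem_univ w)
  rw [h1] at h3
  exact hw (le_antisymm h3 (P.nn w))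

/-- IMAGE of the laws under maps which may depend on the top -/
theorem push (M : Mix P tp φ Q) (g : τ → Om' → Om'') {Q' : τ → FP Om''}
    (h : ∀ t, ∀ ψ : Om'' → ℝ, (Q t).E (fun u => ψ (g t u)) = (Q' t).E ψ) :
    Mix P tp (fun w => g (tp w) (φ w)) Q' := by
  constructor
  intro Ψ
  have h1 : P.E (fun w => Ψ (tp w) (g (tp w) (φ w))) = P.E (fun w => (Q (tp w)).E (fun u => Ψ (tp w) (g (tp w) u))) :=
    M.law (fun t u => Ψ t (g t u))
  rw [h1]
  exact P.E_congr fun w _ => h (tp w) (Ψ (tp w))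

/-- a constant mixture: the point has the law `Q` and is independent of the top -/
theorem of_indep {Q0 : FP Om'} (h : ∀ Ψ : τ → Om' → ℝ, P.E (fun w => Ψ (tp w) (φ w)) = P.E (fun w => Q0.E (Ψ (tp w)))) :
    Mix P tp φ (fun _ => Q0) := ⟨h⟩

/-- transport to a larger space: `π : Om₁ → Om` preserves the law -/
theorem pull {Om₁ : Type*} [Fintype Om₁] {P₁ : FP Om₁} (π : Om₁ → Om) (M : Mix P tp φ Q)
    (h : ∀ f : Om → ℝ, P₁.E (fun w => f (π w)) = P.E f) :
    Mix P₁ (fun w => tp (π w)) (fun w => φ (π w)) Q := by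
  constructor
  intro Ψ
  rw [h (fun w => Ψ (tp w) (φ w)), h (fun w => (Q (tp w)).E (Ψ (tp w)))]
  exact M.law Ψ

end Mix

end Pool.Agent.M3
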