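import Pool.Agent.M3.Model
import Pool.Agent.M3.Bin.Flr

/-!
# M3/Model1: paths, filtrations, windows (no probability)
-/

set_option autoImplicit false
set_option linter.unusedSectionVars false

namespace Pool.Agent.M3.Mod

open Finset Pool.Agent.PWZ Pool.Agent.M3.Bin

variable {k N m : ℕ} {Θ P : Type}

/-! ## exponents -/

theorem ex_zero (N : ℕ) : ex N 0 = N := rfl

theorem ex_succ {N t : ℕ} (h : t < N) : ex N t = ex N (t + 1) + 1 := by unfold ex; omega

theorem ex_top {N t : ℕ} (h : N ≤ t) : ex N t = 0 := by unfold ex; omega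

/-! ## paths -/

/-- the parent of an exact node -/
def pnd (e : ℕ) (q : V k × ℕ) : V k × ℕ := (q.1 + ((q.2 % 2 * 2 ^ e : ℕ) : V k), q.2 / 2)

theorem pnd_nd (e : ℕ) (z : V k) (w : ℕ) : pnd e (nd e z w) = nd (e + 1) z w := by
  unfold pnd nd
  refine Prod.ext ?_ ?_
  · exact (pos_succ e z w).symm
  · simp only
    rw [Nat.div_div_eq_div_mul, ← pow_succ]

theorem nd_zero (z : V k) (w : ℕ) : nd 0 z w = (z, w) := by
  unfold nd
  rw [pos_zero]
  simp

theorem fac_Yn_succ (e : ℕ) : Fac (Yn (Θ := Θ) (P := P) (k := k) (N := N) (m := m) e) (Yn (e + 1)) := by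
  intro v w h
  unfold Yn at h ⊢
  rw [← pnd_nd, ← pnd_nd, h]

theorem fac_Zn_succ (i : Fin m) (e : ℕ) : Fac (Zn (Θ := Θ) (P := P) (k := k) (N := N) i e) (Zn i (e + 1)) := by
  intro v w h
  unfold Zn at h ⊢
  rw [← pnd_nd, ← pnd_nd, h]

theorem fac_Gm_succ (h e : ℕ) : Fac (Gm (Θ := Θ) (P := P) (k := k) (N := N) (m := m) h e) (Gm h (e + 1)) := by
  intro v w hv
  unfold Gm at hv ⊢
  rw [← par_G, ← par_G, hv]

theorem fac_Yn_Gm (h e : ℕ) : Fac (Yn (Θ := Θ) (P := P) (k := k) (N := N) (m := m) e) (Gm h e) := by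
  intro v w hv
  unfold Yn nd at hv
  unfold Gm G gam
  rw [Prod.mk.injEq] at hv ⊢
  exact ⟨by rw [hv.1], hv.2⟩

theorem fac_sc_succ (h e : ℕ) (j : Fin m) : Fac (sc (Θ := Θ) (P := P) (k := k) (N := N) h e j) (sc h (e + 1) j) := by
  intro v w hv
  exact flr_mono_eq (by omega) hv

theorem fac_Qn_succ (i : Fin m) (h e : ℕ) :
    Fac (Qn (Θ := Θ) (P := P) (k := k) (N := N) i h e) (Qn i h (e + 1)) := by
  intro v w hv
  unfold Qn at hv ⊢
  simp only [Prod.mk.injEq] at hv ⊢
  exact ⟨hv.1, fac_Zn_succ i e v w hv.2.1, funext fun j => fac_sc_succ h e j.1 v w (congrFun hv.2.2 j)⟩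

theorem fac_of_succ {κ : ℕ → Type*} {X : ∀ e, Sp k N m Θ P → κ e} (h : ∀ e, Fac (X e) (X (e + 1))) (t : ℕ) :
    Fac (X (ex N (t + 1))) (X (ex N t)) := by
  rcases Nat.lt_or_ge t N with ht | ht
  · rw [ex_succ ht]; exact h _
  · rw [ex_top ht, ex_top (ht.trans (Nat.le_succ t))]; exact Fac.refl _

theorem filt_Yn : Filt (fun t (ω : Sp k N m Θ P) => Yn (ex N t) ω) := fun t => fac_of_succ (X := fun e => Yn e) fac_Yn_succ t

theorem filt_Zn (i : Fin m) : Filt (fun t (ω : Sp k N m Θ P) => Zn i (ex N t) ω) :=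
  fun t => fac_of_succ (X := fun e => Zn i e) (fac_Zn_succ i) t

theorem filt_Gm (h : ℕ) : Filt (fun t (ω : Sp k N m Θ P) => Gm h (ex N t) ω) :=
  fun t => fac_of_succ (X := fun e => Gm h e) (fac_Gm_succ h) t

theorem filt_Qn (i : Fin m) (h : ℕ) : Filt (fun t (ω : Sp k N m Θ P) => Qn i h (ex N t) ω) :=
  fun t => fac_of_succ (X := fun e => Qn i h e) (fac_Qn_succ i h) t

/-! ## relations between the paths -/

theorem ctr_eq (i : Fin m) (ω : Sp k N m Θ P) : ctr ω = (vx i ω).2 + co i ω := by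
  unfold ctr co
  rw [Finset.add_sum_erase univ (fun j => (vx j ω).2) (mem_univ i)]

theorem pos_add (e : ℕ) (x y : V k) (w : ℕ) : Bin.pos e (x + y) w = Bin.pos e x w + y := by
  unfold Bin.pos
  abel

/-- the face path from the view path and the other vertices -/
theorem Yn_eq (i : Fin m) (e : ℕ) (ω : Sp k N m Θ P) :
    Yn e ω = ((Zn i e ω).1 + co i ω, (Zn i e ω).2) := by
  unfold Yn Zn nd
  rw [ctr_eq i ω, pos_add]

theorem co_fac (i : Fin m) : Fac (ot (Θ := Θ) (P := P) (k := k) (N := N) i) (co i) := by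
  intro v w h
  unfold co
  refine Finset.sum_congr rfl (fun j hj => ?_)
  have := congrFun h ⟨j, Finset.ne_of_mem_erase hj⟩
  unfold ot at this
  rw [this]

theorem fac_Yn (i : Fin m) (e : ℕ) :
    Fac (fun ω : Sp k N m Θ P => (Zn i e ω, ot i ω)) (Yn e) := by
  intro v w h
  simp only [Prod.mk.injEq] at h
  rw [Yn_eq i, Yn_eq i, h.1, co_fac i v w h.2]

theorem fac_Zn (i : Fin m) (e : ℕ) :
    Fac (fun ω : Sp k N m Θ P => (Yn e ω, ot i ω)) (Zn i e) := by
  intro v w h
  simp only [Prod.mk.injEq] at h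
  have h1 := h.1
  rw [Yn_eq i, Yn_eq i, co_fac i v w h.2, Prod.mk.injEq] at h1
  exact Prod.ext (add_right_cancel h1.1) h1.2

/-- the low part of the noise is known from the hidden vertex and the exact path -/
theorem nz_mod (i : Fin m) {e : ℕ} (he : e ≤ k) (ω : Sp k N m Θ P) :
    nz ω % 2 ^ e = ((Zn i e ω).1 - (vx i ω).2).val := by
  unfold Zn nd Bin.pos
  simp only [add_sub_cancel_left]
  rw [ZMod.val_natCast]
  exact (Nat.mod_eq_of_lt ((Nat.mod_lt _ (Nat.two_pow_pos e)).trans_le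
    (Nat.pow_le_pow_right (by norm_num) he))).symm

theorem nz_eq (i : Fin m) {e : ℕ} (he : e ≤ k) (ω : Sp k N m Θ P) :
    nz ω = (Zn i e ω).2 * 2 ^ e + ((Zn i e ω).1 - (vx i ω).2).val := by
  rw [← nz_mod i he ω]
  exact (Nat.div_add_mod' _ _).symm

/-- the noise is a function of the hidden vertex and the exact path of any exponent -/
theorem fac_nz (i : Fin m) {e : ℕ} (he : e ≤ k) :
    Fac (fun ω : Sp k N m Θ P => (vx i ω, Zn i e ω)) nz := by
  intro v w h
  simp only [Prod.mk.injEq] at h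
  rw [nz_eq i he v, nz_eq i he w, h.1, h.2]

/-- every digit is a function of the hidden vertex and the exact path of any exponent -/
theorem fac_Dg (i : Fin m) {e : ℕ} (he : e ≤ k) (e' : ℕ) :
    Fac (fun ω : Sp k N m Θ P => (vx i ω, Zn i e ω)) (Dg e') := by
  intro v w h
  unfold Dg
  rw [fac_nz i he v w h]

theorem dg_val (e w : ℕ) : dg e w = 1 ∨ dg e w = -1 := by
  unfold dg
  split <;> simp

theorem Dg_val (e : ℕ) (ω : Sp k N m Θ P) : Dg e ω = 1 ∨ Dg e ω = -1 := dg_val _ _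

/-- the new digit is known at the next node -/
theorem fac_Dg_Yn (e : ℕ) : Fac (Yn (Θ := Θ) (P := P) (k := k) (N := N) (m := m) e) (Dg e) := by
  intro v w h
  unfold Yn nd at h
  rw [Prod.mk.injEq] at h
  unfold Dg dg bit
  rw [h.2]

theorem fac_Dg_Zn (i : Fin m) (e : ℕ) : Fac (Zn (Θ := Θ) (P := P) (k := k) (N := N) i e) (Dg e) := by
  intro v w h
  unfold Zn nd at h
  rw [Prod.mk.injEq] at h
  unfold Dg dg bit
  rw [h.2]

/-! ## windows -/

theorem av_eq_ip (e : ℕ) (y : V k) (f : V k → ℝ) : av e y f = Bin.ip e y f (fun _ => 1) := by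
  unfold av Bin.ip
  simp

theorem av_mul_eq_ip (e : ℕ) (y : V k) (f g : V k → ℝ) : av e y (fun d => f d * g d) = Bin.ip e y f g := rfl

theorem av_zero (y : V k) (f : V k → ℝ) : av 0 y f = f y := by unfold av; simp

theorem av_const (e : ℕ) (y : V k) (c : ℝ) : av e y (fun _ => c) = c := by
  unfold av
  rw [Finset.sum_const, card_range, nsmul_eq_mul]
  push_cast
  rw [← mul_assoc, inv_mul_cancel₀ (by positivity), one_mul]

theorem av_add (e : ℕ) (y : V k) (f g : V k → ℝ) : av e y (fun d => f d + g d) = av e y f + av e y g := by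
  unfold av; rw [Finset.sum_add_distrib, mul_add]

theorem av_sub (e : ℕ) (y : V k) (f g : V k → ℝ) : av e y (fun d => f d - g d) = av e y f - av e y g := by
  unfold av; rw [Finset.sum_sub_distrib, mul_sub]

theorem av_smul (e : ℕ) (y : V k) (c : ℝ) (f : V k → ℝ) : av e y (fun d => c * f d) = c * av e y f := by
  unfold av; rw [← Finset.mul_sum]; ring

theorem av_sum {α : Type*} (e : ℕ) (y : V k) (s : Finset α) (f : α → V k → ℝ) :
    av e y (fun d => ∑ a ∈ s, f a d) = ∑ a ∈ s, av e y (f a) := by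
  unfold av
  rw [Finset.sum_comm, Finset.mul_sum]

theorem av_mono (e : ℕ) (y : V k) {f g : V k → ℝ} (h : ∀ d, f d ≤ g d) : av e y f ≤ av e y g := by
  unfold av
  exact mul_le_mul_of_nonneg_left (Finset.sum_le_sum fun n _ => h _) (by positivity)

theorem abs_av_le (e : ℕ) (y : V k) {f : V k → ℝ} {B : ℝ} (h : ∀ d, |f d| ≤ B) : |av e y f| ≤ B := by
  rw [abs_le]
  constructor
  · rw [← av_const e y (-B)]
    exact av_mono e y fun d => (abs_le.mp (h d)).1
  · rw [← av_const e y B]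
    exact av_mono e y fun d => (abs_le.mp (h d)).2

theorem av_congr (e : ℕ) (y : V k) {f g : V k → ℝ} (h : ∀ n : ℕ, n < 2 ^ e → f (y - (n : V k)) = g (y - (n : V k))) :
    av e y f = av e y g := by
  unfold av
  rw [Finset.sum_congr rfl fun n hn => h n (Finset.mem_range.mp hn)]

/-- a window is the union of its two halves -/
theorem av_succ (e : ℕ) (y : V k) (f : V k → ℝ) :
    av (e + 1) y f = (av e y f + av e (y - ((2 ^ e : ℕ) : V k)) f) / 2 := by
  rw [av_eq_ip, av_eq_ip, av_eq_ip, ip_succ]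

/-- ONE DIGIT -/
theorem av_step (e : ℕ) (z : V k) (w : ℕ) (f : V k → ℝ) :
    av e (Bin.pos e z w) f = av (e + 1) (Bin.pos (e + 1) z w) f + dg e w * dl e (Bin.pos (e + 1) z w) f := by
  rw [av_succ, pos_succ]
  unfold dl dg
  have hb : bit e w = 0 ∨ bit e w = 1 := by unfold bit; omega
  rcases hb with hb | hb
  · rw [hb]
    simp only [zero_mul, Nat.cast_zero, add_zero, if_true]
    ring
  · rw [hb]
    simp only [one_mul, one_ne_zero, if_false, add_sub_cancel_right]
    ring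

theorem mn_step (e : ℕ) (f : Sp k N m Θ P → V k → ℝ) (ω : Sp k N m Θ P) :
    mn e f ω = mn (e + 1) f ω + Dg e ω * dl e (Yn (e + 1) ω).1 (f ω) := av_step e _ _ _

theorem mn_zero (f : Sp k N m Θ P → V k → ℝ) (ω : Sp k N m Θ P) : mn 0 f ω = f ω (ctr ω) := by
  unfold mn Yn nd
  rw [pos_zero, av_zero]

/-- exact window against rounded window -/
theorem av_round (h e : ℕ) (y : V k) {f : V k → ℝ} {B : ℝ} (hB : ∀ d, |f d| ≤ B) :
    |av e y f - av e (flr (e - h) y) f| ≤ 2 * B * ((2 : ℝ) ^ h)⁻¹ := by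
  rw [av_eq_ip, av_eq_ip]
  exact ip_round h e y f _ B (fun d => by rw [mul_one]; exact hB d)

theorem mn_mr (h e : ℕ) {f : Sp k N m Θ P → V k → ℝ} {B : ℝ} {ω : Sp k N m Θ P} (hB : ∀ d, |f ω d| ≤ B) :
    |mn e f ω - mr h e f ω| ≤ 2 * B * ((2 : ℝ) ^ h)⁻¹ := av_round h e _ hB

end Pool.Agent.M3.Mod
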