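import Pool.Agent.M3.Model1
import Pool.Agent.M3.Bin.Law

/-!
# M3/Model2: independence, fair digit, exact martingale (0.2, 0.4)
-/

set_option autoImplicit false
set_option linter.unusedSectionVars false

namespace Pool.Agent.M3.Mod

open Finset Pool.Agent.PWZ Pool.Agent.M3.Bin

variable {k N m : ℕ} {Θ P : Type} [Fintype Θ] [Nonempty Θ] [Fintype P] [Nonempty P]

theorem Pm_ne (ω : Sp k N m Θ P) : (Pm (k := k) (N := N) (m := m) (Θ := Θ) (P := P)).p ω ≠ 0 := FP.unif_ne _ ω

/-- conditional expectation for the uniform law: average over a parametrisation of the fibre -/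
theorem ce_unif_image {Om κ α : Type*} [Fintype Om] [Nonempty Om] {X : Om → κ} {w : Om} {S : Finset α} {φ : α → Om}
    (hinj : ∀ x ∈ S, ∀ y ∈ S, φ x = φ y → x = y) (hX : ∀ v, X v = X w ↔ ∃ x ∈ S, φ x = v) (f : Om → ℝ) :
    (FP.unif Om).ce X f w = (S.card : ℝ)⁻¹ * ∑ x ∈ S, f (φ x) := by
  classical
  have h1 : ∀ g : Om → ℝ, ∑ v, ind (X v = X w) * g v = ∑ x ∈ S, g (φ x) := by
    intro g
    have h2 : ∑ v, ind (X v = X w) * g v = ∑ v ∈ S.image φ, g v := by
      rw [← Finset.sum_subset (Finset.subset_univ (S.image φ))]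
      · refine Finset.sum_congr rfl fun v hv => ?_
        rw [ind_of ((hX v).mpr (Finset.mem_image.mp hv)), one_mul]
      · intro v _ hv
        rw [ind_not (fun h => hv (Finset.mem_image.mpr ((hX v).mp h))), zero_mul]
    rw [h2, Finset.sum_image hinj]
  have hc : (Fintype.card Om : ℝ) ≠ 0 := Nat.cast_ne_zero.mpr Fintype.card_ne_zero
  unfold FP.ce FP.m
  rw [FP.unif_E, FP.unif_E, h1]
  have h3 : ∑ v, ind (X v = X w) = (S.card : ℝ) := by
    have := h1 (fun _ => 1)
    simp only [mul_one, Finset.sum_const, nsmul_eq_mul] at this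
    exact this
  rw [h3, div_div_div_cancel_right₀ hc, div_eq_inv_mul]

/-! ## independences -/

/-- VIEW: the low digits are independent of the exact path, of the private randomness and of the others -/
theorem indep_low (i : Fin m) {e : ℕ} (he : e ≤ N) :
    (Pm (k := k) (N := N) (m := m) (Θ := Θ) (P := P)).Indep
      (fun ω => (th ω, (vx i ω).1, Zn i e ω, ot i ω)) (fun ω => nz ω % 2 ^ e) := by
  have h := FP.unif_indep (viewEquiv (k := k) (N := N) (Θ := Θ) (P := P) i e he)
  refine h.mono ?_ ?_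
  · intro v w hvw
    simp only [viewEquiv, Equiv.coe_fn_mk, Prod.mk.injEq] at hvw
    obtain ⟨h1, h2, h3, h4, h5⟩ := hvw
    refine Prod.ext h1 (Prod.ext h2 (Prod.ext (Prod.ext h3 ?_) h5))
    exact congrArg Fin.val h4
  · intro v w hvw
    simp only [viewEquiv, Equiv.coe_fn_mk] at hvw
    exact congrArg Fin.val hvw

/-- FREE LAW OF A FACE: everything but the value of the vertex `i` is independent of the centre; so the exact path of
the faces is independent of (public randomness, private randomness of `i`, the other vertices) -/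
theorem indep_face (i : Fin m) :
    (Pm (k := k) (N := N) (m := m) (Θ := Θ) (P := P)).Indep
      (fun ω => (th ω, (vx i ω).1, ot i ω)) (fun ω => (ctr ω, nz ω)) := by
  have h := FP.unif_indep (faceEquiv (k := k) (N := N) (Θ := Θ) (P := P) i)
  refine h.mono ?_ ?_
  · intro v w hvw
    simp only [faceEquiv, Equiv.coe_fn_mk, Prod.mk.injEq] at hvw
    exact Prod.ext hvw.1 (Prod.ext hvw.2.1 hvw.2.2)
  · intro v w hvw
    simp only [faceEquiv, Equiv.coe_fn_mk, Prod.mk.injEq] at hvw
    refine Prod.ext hvw.1 ?_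
    exact congrArg Fin.val hvw.2

/-- a vertex is independent of everything else -/
theorem indep_vx (j : Fin m) :
    (Pm (k := k) (N := N) (m := m) (Θ := Θ) (P := P)).Indep
      (fun ω => vx j ω) (fun ω => (th ω, ot j ω, nz ω)) := by
  have h := FP.unif_indep (Om := Sp k N m Θ P)
    (O1 := P × V k) (O2 := Θ × ({l : Fin m // l ≠ j} → P × V k) × Fin (2 ^ N))
    { toFun := fun ω => (ω.2.1 j, (ω.1, fun l => ω.2.1 l.1, ω.2.2))
      invFun := fun q => (q.2.1, fun l => if hl : l = j then q.1 else q.2.2.1 ⟨l, hl⟩, q.2.2.2)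
      left_inv := by
        intro ω
        obtain ⟨θ, x, w⟩ := ω
        refine Prod.ext rfl (Prod.ext ?_ rfl)
        funext l
        by_cases hl : l = j
        · subst hl; simp
        · simp [hl]
      right_inv := by
        intro q
        obtain ⟨x, θ, y, w⟩ := q
        refine Prod.ext ?_ (Prod.ext rfl (Prod.ext ?_ rfl))
        · simp
        · funext l
          simp [l.2] }
  refine h.mono ?_ ?_
  · intro v w hvw
    exact hvw
  · intro v w hvw
    simp only [Equiv.coe_fn_mk, Prod.mk.injEq] at hvw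
    obtain ⟨h1, h2, h3⟩ := hvw
    exact Prod.ext h1 (Prod.ext h2 (congrArg Fin.val h3))

/-- the public randomness is independent of everything else -/
theorem indep_th :
    (Pm (k := k) (N := N) (m := m) (Θ := Θ) (P := P)).Indep
      (fun ω => th ω) (fun ω => ω.2) :=
  FP.unif_indep (Equiv.refl (Sp k N m Θ P))

/-- expectation as a sum -/
theorem E_eq_aux (f : Sp k N m Θ P → ℝ) :
    Pm.E f = ((Fintype.card Θ : ℝ) * ((Fintype.card P : ℝ) * 2 ^ k) ^ m * 2 ^ N)⁻¹ *
      ∑ θ : Θ, ∑ x : Fin m → P × V k, ∑ w ∈ (range (2 ^ N)).attach,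
        f (θ, x, ⟨w.1, Finset.mem_range.mp w.2⟩) := by
  unfold Pm
  rw [FP.unif_E, div_eq_inv_mul]
  congr 1
  · congr 1
    rw [Fintype.card_prod, Fintype.card_prod, Fintype.card_fun, Fintype.card_prod, Fintype.card_fin,
      Fintype.card_fin, ZMod.card]
    push_cast
    ring
  · rw [Fintype.sum_prod_type]
    refine Finset.sum_congr rfl fun θ _ => ?_
    rw [Fintype.sum_prod_type]
    refine Finset.sum_congr rfl fun x _ => ?_
    exact Finset.sum_bij' (fun w _ => ⟨w.val, Finset.mem_range.mpr w.isLt⟩)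
      (fun w _ => ⟨w.1, Finset.mem_range.mp w.2⟩) (fun _ _ => Finset.mem_attach _ _)
      (fun _ _ => Finset.mem_univ _) (fun _ _ => rfl) (fun _ _ => rfl) (fun _ _ => rfl)

/-- expectation of a function of the noise -/
theorem E_nz (F : ℕ → ℝ) :
    (Pm (k := k) (N := N) (m := m) (Θ := Θ) (P := P)).E (fun ω => F (nz ω)) =
      ((2 : ℝ) ^ N)⁻¹ * ∑ w ∈ range (2 ^ N), F w := by
  rw [E_eq_aux]
  have h1 : ∀ (θ : Θ) (x : Fin m → P × V k), ∑ w ∈ (range (2 ^ N)).attach,
      F (nz (Θ := Θ) (P := P) (k := k) (N := N) (m := m) (θ, x, ⟨w.1, Finset.mem_range.mp w.2⟩)) =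
        ∑ w ∈ range (2 ^ N), F w := by
    intro θ x
    unfold nz
    exact Finset.sum_attach (range (2 ^ N)) F
  simp only [h1]
  rw [Finset.sum_const, Finset.sum_const, Finset.card_univ, Finset.card_univ, nsmul_eq_mul, nsmul_eq_mul,
    Fintype.card_fun, Fintype.card_prod, Fintype.card_fin, ZMod.card]
  push_cast
  have h2 : (Fintype.card Θ : ℝ) ≠ 0 := Nat.cast_ne_zero.mpr Fintype.card_ne_zero
  have h3 : (Fintype.card P : ℝ) ≠ 0 := Nat.cast_ne_zero.mpr Fintype.card_ne_zero
  field_simp

/-- the digit is fair -/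
theorem E_Dg {e : ℕ} (he : e < N) : (Pm (k := k) (N := N) (m := m) (Θ := Θ) (P := P)).E (Dg e) = 0 := by
  unfold Dg
  rw [E_nz (fun w => dg e w)]
  have h := sum_bit (N := N) e he (fun _ b => if b = 0 then 1 else -1)
  simp only [if_true, one_ne_zero, if_false, add_neg_cancel, zero_div, Finset.sum_const_zero] at h
  unfold dg
  rw [h, mul_zero]

/-- the digit is a function of the low part of the noise -/
theorem fac_Dg_low (e : ℕ) : Fac (fun ω : Sp k N m Θ P => nz ω % 2 ^ (e + 1)) (Dg e) := by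
  have h : ∀ w : ℕ, bit e w = (w % 2 ^ (e + 1)) / 2 ^ e := by
    intro w
    unfold bit
    rw [pow_succ, Nat.mod_mul_right_div_self]
  intro v w hvw
  unfold Dg dg
  rw [h, h]
  simp only at hvw
  rw [hvw]

/-! ## the fair digit -/

/-- in the view `i` (before the digit), all other vertices known -/
theorem ce_Dg_view (i : Fin m) {e : ℕ} (he : e < N) {κ : Type*} {X : Sp k N m Θ P → κ}
    (hX : Fac (fun ω => (th ω, (vx i ω).1, Zn i (e + 1) ω, ot i ω)) X) (ω : Sp k N m Θ P) :
    Pm.ce X (Dg e) ω = 0 := by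
  have h := indep_low (k := k) (N := N) (Θ := Θ) (P := P) i he (fun v => ind (X v = X ω)) (Dg e)
    (Fac.ind fun v w hv => by rw [hX v w hv]) (fac_Dg_low e)
  unfold FP.ce
  rw [h, E_Dg he, mul_zero, zero_div]

/-- in the free law (all vertices but `i` known) -/
theorem ce_Dg_face (i : Fin m) {e : ℕ} (he : e < N) {κ : Type*} {X : Sp k N m Θ P → κ}
    (hX : Fac (fun ω => (th ω, (vx i ω).1, Yn (e + 1) ω, ot i ω)) X) (ω : Sp k N m Θ P) :
    Pm.ce X (Dg e) ω = 0 := by
  refine ce_Dg_view i he ?_ ω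
  refine Fac.trans ?_ hX
  intro v w h
  simp only [Prod.mk.injEq] at h ⊢
  obtain ⟨h1, h2, h3, h4⟩ := h
  exact ⟨h1, h2, fac_Yn i (e + 1) v w (Prod.ext h3 h4), h4⟩

/-- EXACT MARTINGALE: the mean over the window of a function which is known before the digit and does not depend on the
value of the vertex `i` -/
theorem ce_mn (i : Fin m) {e : ℕ} (he : e < N) {f : Sp k N m Θ P → V k → ℝ}
    (hf : Fac (fun ω => (th ω, (vx i ω).1, Yn (e + 1) ω, ot i ω)) f) {κ : Type*} {X : Sp k N m Θ P → κ}
    (hX : Fac (fun ω => (th ω, (vx i ω).1, Yn (e + 1) ω, ot i ω)) X) (ω : Sp k N m Θ P) :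
    Pm.ce X (mn e f) ω = Pm.ce X (mn (e + 1) f) ω := by
  have h1 : mn e f = fun ω => mn (e + 1) f ω + Dg e ω * dl e (Yn (e + 1) ω).1 (f ω) := funext fun ω => mn_step e f ω
  have h2 : Fac (fun ω : Sp k N m Θ P => (th ω, (vx i ω).1, Yn (e + 1) ω, ot i ω))
      (fun ω => dl e (Yn (e + 1) ω).1 (f ω)) := by
    intro v w hv
    simp only
    rw [hf v w hv]
    simp only [Prod.mk.injEq] at hv
    rw [hv.2.2.1]
  rw [h1, FP.ce_add, ← FP.ce_tower _ hX (fun ω => Dg e ω * dl e (Yn (e + 1) ω).1 (f ω))]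
  have h3 : ∀ v : Sp k N m Θ P, Pm.ce (fun ω => (th ω, (vx i ω).1, Yn (e + 1) ω, ot i ω))
      (fun ω => Dg e ω * dl e (Yn (e + 1) ω).1 (f ω)) v = 0 := by
    intro v
    rw [FP.ce_mul' _ h2, ce_Dg_face i he (Fac.refl _), zero_mul]
  rw [FP.ce_congr _ (fun v _ => h3 v), FP.ce_const _ _ _ (Pm_ne ω), add_zero]

/-- the same with the conditional expectation equal to the old mean -/
theorem ce_mn' (i : Fin m) {e : ℕ} (he : e < N) {f : Sp k N m Θ P → V k → ℝ}
    (hf : Fac (fun ω => (th ω, (vx i ω).1, Yn (e + 1) ω, ot i ω)) f) {κ : Type*} {X : Sp k N m Θ P → κ}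
    (hX : Fac (fun ω => (th ω, (vx i ω).1, Yn (e + 1) ω, ot i ω)) X) (hX2 : Fac X (mn (e + 1) f))
    (ω : Sp k N m Θ P) : Pm.ce X (mn e f) ω = mn (e + 1) f ω := by
  rw [ce_mn i he hf hX, FP.ce_of_fac _ hX2 (Pm_ne ω)]

/-! ## explicit averages -/

/-- the sample point `ω` with the vertex `j` replaced by `x` -/
def upd (j : Fin m) (x : P × V k) (ω : Sp k N m Θ P) : Sp k N m Θ P :=
  (ω.1, Function.update ω.2.1 j x, ω.2.2)

/-- the points of the cell of scale `s` -/
def CL (s : ℕ) (v : V k) : Finset (P × V k) := univ.filter fun x => flr s x.2 = flr s v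

/-- a vertex in its cell, everything else known: uniform -/
theorem ce_cell (j : Fin m) (s : ℕ) (f : Sp k N m Θ P → ℝ) (ω : Sp k N m Θ P) :
    Pm.ce (fun ω => (th ω, ot j ω, nz ω, flr s (vx j ω).2)) f ω =
      ((CL (P := P) s (vx j ω).2).card : ℝ)⁻¹ * ∑ x ∈ CL (P := P) s (vx j ω).2, f (upd j x ω) := by
  unfold Pm
  refine ce_unif_image ?_ ?_ f
  · intro x _ y _ hxy
    have h := congrArg (fun v => vx j v) hxy
    simp only [vx, upd, Function.update_self] at h
    exact h
  · intro v
    constructor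
    · intro hv
      simp only [Prod.mk.injEq] at hv
      obtain ⟨h1, h2, h3, h4⟩ := hv
      refine ⟨vx j v, ?_, ?_⟩
      · unfold CL
        rw [Finset.mem_filter]
        exact ⟨Finset.mem_univ _, h4⟩
      · refine Prod.ext h1.symm (Prod.ext ?_ (Fin.ext h3.symm))
        funext l
        unfold upd vx
        by_cases hl : l = j
        · subst hl; simp
        · simp only [ne_eq, hl, not_false_eq_true, Function.update_of_ne]
          exact (congrFun h2 ⟨l, hl⟩).symm
    · rintro ⟨x, hx, rfl⟩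
      unfold CL at hx
      rw [Finset.mem_filter] at hx
      refine Prod.ext rfl (Prod.ext ?_ (Prod.ext rfl ?_))
      · funext l
        unfold ot vx upd
        simp only [ne_eq, l.2, not_false_eq_true, Function.update_of_ne]
      · unfold vx upd
        simp only [Function.update_self]
        exact hx.2

/-- the sample point with the same exact path of the view `i` (exponent `e`), the private randomness `p` and the low
part `n` of the noise: the hidden vertex is `z_e - n` -/
def updh (i : Fin m) (e : ℕ) (he : e ≤ N) (p : P) (n : ℕ) (ω : Sp k N m Θ P) : Sp k N m Θ P :=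
  (ω.1, Function.update ω.2.1 i (p, (Zn i e ω).1 - (n : V k)), ⟨(nz ω / 2 ^ e) * 2 ^ e + n % 2 ^ e, by
    have h1 : nz ω / 2 ^ e < 2 ^ (N - e) := by
      rw [Nat.div_lt_iff_lt_mul (by positivity), ← pow_add, Nat.sub_add_cancel he]; exact ω.2.2.isLt
    have h2 : n % 2 ^ e < 2 ^ e := Nat.mod_lt _ (by positivity)
    have h3 : 2 ^ (N - e) * 2 ^ e = 2 ^ N := by rw [← pow_add, Nat.sub_add_cancel he]
    calc nz ω / 2 ^ e * 2 ^ e + n % 2 ^ e < nz ω / 2 ^ e * 2 ^ e + 2 ^ e := by omega
      _ = (nz ω / 2 ^ e + 1) * 2 ^ e := by ring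
      _ ≤ 2 ^ (N - e) * 2 ^ e := Nat.mul_le_mul_right _ h1
      _ = 2 ^ N := h3⟩)

/-- the hidden vertex, the exact path and the others known: uniform over `P x A_e` -/
theorem ce_hidden (i : Fin m) {e : ℕ} (he : e ≤ N) (f : Sp k N m Θ P → ℝ) (ω : Sp k N m Θ P) :
    Pm.ce (fun ω => (th ω, Zn i e ω, ot i ω)) f ω =
      ((Fintype.card P : ℝ) * 2 ^ e)⁻¹ * ∑ p : P, ∑ n ∈ range (2 ^ e), f (updh i e he p n ω) := by
  have hnz : ∀ (p : P) (n : ℕ), nz (updh i e he p n ω) = nz ω / 2 ^ e * 2 ^ e + n % 2 ^ e := fun p n => rfl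
  have hmod : ∀ (p : P) (n : ℕ), nz (updh i e he p n ω) % 2 ^ e = n % 2 ^ e := by
    intro p n
    rw [hnz, Nat.mul_comm, Nat.mul_add_mod, Nat.mod_mod]
  have hdiv : ∀ (p : P) (n : ℕ), nz (updh i e he p n ω) / 2 ^ e = nz ω / 2 ^ e := by
    intro p n
    rw [hnz, Nat.mul_comm, Nat.mul_add_div (by positivity), Nat.div_eq_of_lt (Nat.mod_lt _ (by positivity)),
      Nat.add_zero]
  have hvx : ∀ (p : P) (n : ℕ), vx i (updh i e he p n ω) = (p, (Zn i e ω).1 - (n : V k)) := by
    intro p n
    unfold vx updh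
    simp
  have key : Pm.ce (fun ω => (th ω, Zn i e ω, ot i ω)) f ω =
      (((univ : Finset P) ×ˢ range (2 ^ e)).card : ℝ)⁻¹ *
        ∑ q ∈ (univ : Finset P) ×ˢ range (2 ^ e), f (updh i e he q.1 q.2 ω) := by
    unfold Pm
    refine ce_unif_image (φ := fun q : P × ℕ => updh i e he q.1 q.2 ω) ?_ ?_ f
    · rintro ⟨p, n⟩ hn ⟨p', n'⟩ hn' hq
      rw [Finset.mem_product, Finset.mem_range] at hn hn'
      simp only at hq hn hn'
      have h1 := congrArg (fun v => vx i v) hq
      have h2 := congrArg (fun v => nz v % 2 ^ e) hq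
      rw [hvx, hvx, Prod.mk.injEq] at h1
      rw [hmod, hmod, Nat.mod_eq_of_lt hn.2, Nat.mod_eq_of_lt hn'.2] at h2
      exact Prod.ext h1.1 h2
    · intro v
      constructor
      · intro hv
        simp only [Prod.mk.injEq] at hv
        obtain ⟨h1, h2, h3⟩ := hv
        have h2a : Bin.pos e (vx i v).2 (nz v) = (Zn i e ω).1 := congrArg Prod.fst h2
        have h2b : nz v / 2 ^ e = nz ω / 2 ^ e := congrArg Prod.snd h2
        have hlt : nz v % 2 ^ e < 2 ^ e := Nat.mod_lt _ (by positivity)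
        refine ⟨((vx i v).1, nz v % 2 ^ e), ?_, ?_⟩
        · rw [Finset.mem_product, Finset.mem_range]
          exact ⟨Finset.mem_univ _, hlt⟩
        · refine Prod.ext h1.symm (Prod.ext ?_ (Fin.ext ?_))
          · funext l
            by_cases hl : l = i
            · subst hl
              refine (hvx _ _).trans ?_
              unfold Bin.pos at h2a
              rw [← h2a]
              exact Prod.ext rfl (by simp only [add_sub_cancel_right]; rfl)
            · unfold updh
              simp only [ne_eq, hl, not_false_eq_true, Function.update_of_ne]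
              exact (congrFun h3 ⟨l, hl⟩).symm
          · refine (hnz _ _).trans ?_
            simp only
            rw [← h2b, Nat.mod_mod]
            exact Nat.div_add_mod' _ _
      · rintro ⟨⟨p, n⟩, hn, rfl⟩
        rw [Finset.mem_product, Finset.mem_range] at hn
        refine Prod.ext rfl (Prod.ext ?_ ?_)
        · refine Prod.ext ?_ ?_
          · change Bin.pos e (vx i (updh i e he p n ω)).2 (nz (updh i e he p n ω)) = (Zn i e ω).1
            unfold Bin.pos
            rw [hvx, hmod, Nat.mod_eq_of_lt hn.2]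
            simp
          · exact hdiv p n
        · funext l
          unfold ot vx updh
          simp only [ne_eq, l.2, not_false_eq_true, Function.update_of_ne]
  rw [key, Finset.card_product, Finset.card_univ, Finset.card_range, Finset.sum_product]
  push_cast
  rfl

/-- expectation as a sum -/
theorem E_eq (f : Sp k N m Θ P → ℝ) :
    Pm.E f = ((Fintype.card Θ : ℝ) * ((Fintype.card P : ℝ) * 2 ^ k) ^ m * 2 ^ N)⁻¹ *
      ∑ θ : Θ, ∑ x : Fin m → P × V k, ∑ w ∈ (range (2 ^ N)).attach,
        f (θ, x, ⟨w.1, Finset.mem_range.mp w.2⟩) := E_eq_aux f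

end Pool.Agent.M3.Mod
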