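import Pool.Agent.M3.S1Mod
import Pool.Agent.M3.Model3

/-!
# M3.S1Lay (section 1, 1.3): the layers, the telescoping identity, rarity of the pieces (helper27)

`Lay` = parameters: `kap`, `c` (accuracy constant), `a` with `64 / c^2 <= 2^a`.  Layer `l`: rarity
`lth l = exp (-(1+kap)^l)`, accuracy `lep l = c / (l+1)^4`, rounding `lh l = a + 8 clog2 (l+1)`
(`64 / (lep l)^2 <= 2^(lh l)`, `lh l <= lh (l+1) <= lh l + 8`).
`Rl l i`, `Sl l i` = residual and structured function of the face `i` at the rounding `lh l`; `Dl l i` = difference of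
two layers at the rounding `lh (l+1)`; `Pc l q : Fin 3 -> Fam2` (`q = 0, 1, 2`) the three pieces of the layer.

* `Pc_PT`: all faces of all pieces are product tested: `PT (lh (l+1)) N _ (2^17 lth l) (36 lep l) 2`;
* `piece_hidden`, `piece_known`: rarity of the pieces in all the views (threshold `72 lep l`);
* `telescope`: `X = first terms + sum of the pieces + last residual`.
-/

set_option autoImplicit false
set_option linter.unusedSectionVars false

namespace Pool.Agent.M3.Mod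

open Finset Pool.Agent.PWZ Pool.Agent.M3.Bin

noncomputable section

/-- parameters of the layers -/
structure Lay where
  kap : ℝ
  c : ℝ
  a : ℕ
  kap_pos : 0 < kap
  c_pos : 0 < c
  c_le : c ≤ 1
  ha : 64 / c ^ 2 ≤ 2 ^ a

/-- parameters for given constants -/
def mkLay (kap c : ℝ) (hk : 0 < kap) (hc : 0 < c) (hc1 : c ≤ 1) : Lay where
  kap := kap
  c := c
  a := Classical.choose (pow_unbounded_of_one_lt (64 / c ^ 2) (by norm_num : (1 : ℝ) < 2))
  kap_pos := hk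
  c_pos := hc
  c_le := hc1
  ha := (Classical.choose_spec (pow_unbounded_of_one_lt (64 / c ^ 2) (by norm_num : (1 : ℝ) < 2))).le

namespace Lay

variable (L : Lay)

/-- rarity of the layer -/
def lth (l : ℕ) : ℝ := Real.exp (-(1 + L.kap) ^ l)

/-- accuracy of the layer -/
def lep (l : ℕ) : ℝ := L.c / ((l : ℝ) + 1) ^ 4

/-- rounding of the layer -/
def lh (l : ℕ) : ℕ := L.a + 8 * Nat.clog 2 (l + 1)

theorem lth_pos (l : ℕ) : 0 < L.lth l := Real.exp_pos _

theorem lth_le_one (l : ℕ) : L.lth l ≤ 1 := by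
  unfold lth
  rw [Real.exp_le_one_iff]
  have : 0 ≤ (1 + L.kap) ^ l := pow_nonneg (by linarith [L.kap_pos]) l
  linarith

theorem lth_succ_le (l : ℕ) : L.lth (l + 1) ≤ L.lth l := by
  unfold lth
  rw [Real.exp_le_exp]
  have h1 : (1 + L.kap) ^ l ≤ (1 + L.kap) ^ (l + 1) :=
    pow_le_pow_right₀ (by linarith [L.kap_pos]) (Nat.le_succ l)
  linarith

theorem lep_pos (l : ℕ) : 0 < L.lep l := by
  unfold lep
  exact div_pos L.c_pos (by positivity)

theorem lep_le_one (l : ℕ) : L.lep l ≤ 1 := by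
  unfold lep
  rw [div_le_one (by positivity)]
  have h1 : (1 : ℝ) ≤ ((l : ℝ) + 1) ^ 4 := one_le_pow₀ (by linarith [Nat.cast_nonneg (α := ℝ) l])
  linarith [L.c_le]

theorem lep_succ_le (l : ℕ) : L.lep (l + 1) ≤ L.lep l := by
  unfold lep
  apply div_le_div_of_nonneg_left L.c_pos.le (by positivity)
  apply pow_le_pow_left₀ (by positivity)
  push_cast
  linarith

theorem clog_succ_le (n : ℕ) (hn : 1 ≤ n) : Nat.clog 2 (n + 1) ≤ Nat.clog 2 n + 1 := by
  apply Nat.clog_le_of_le_pow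
  have h1 := Nat.le_pow_clog (by norm_num : 1 < 2) n
  rw [pow_succ]
  omega

theorem lh_mono (l : ℕ) : L.lh l ≤ L.lh (l + 1) := by
  unfold lh
  have := Nat.clog_mono_right 2 (Nat.le_succ (l + 1))
  have h2 : Nat.clog 2 (l + 1) ≤ Nat.clog 2 (l + 1 + 1) := this
  omega

theorem lh_succ_le (l : ℕ) : L.lh (l + 1) ≤ L.lh l + 8 := by
  unfold lh
  have := clog_succ_le (l + 1) (by omega)
  omega

/-- the rounding is fine enough -/
theorem rd (l : ℕ) : 64 * ((2 : ℝ) ^ L.lh l)⁻¹ ≤ L.lep l ^ 2 := by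
  have h1 : ((l : ℝ) + 1) ^ 8 ≤ (2 : ℝ) ^ (8 * Nat.clog 2 (l + 1)) := by
    have h2 := Nat.le_pow_clog (by norm_num : 1 < 2) (l + 1)
    have h3 : ((l : ℝ) + 1) ≤ (2 : ℝ) ^ Nat.clog 2 (l + 1) := by exact_mod_cast h2
    calc ((l : ℝ) + 1) ^ 8 ≤ ((2 : ℝ) ^ Nat.clog 2 (l + 1)) ^ 8 := pow_le_pow_left₀ (by positivity) h3 8
      _ = (2 : ℝ) ^ (8 * Nat.clog 2 (l + 1)) := by rw [← pow_mul, mul_comm]
  have h4 : 64 / L.c ^ 2 * ((l : ℝ) + 1) ^ 8 ≤ (2 : ℝ) ^ L.lh l := by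
    unfold lh
    rw [pow_add]
    exact mul_le_mul L.ha h1 (by positivity) (by positivity)
  unfold lep
  have hc := L.c_pos
  rw [div_pow, ← pow_mul]
  norm_num
  rw [← div_eq_mul_inv, div_le_div_iff₀ (by positivity) (by positivity)]
  have h5 : 64 * ((l : ℝ) + 1) ^ 8 = L.c ^ 2 * (64 / L.c ^ 2 * ((l : ℝ) + 1) ^ 8) := by field_simp
  rw [h5]
  exact mul_le_mul_of_nonneg_left h4 (by positivity)

theorem rd1 (l : ℕ) : 64 * ((2 : ℝ) ^ L.lh l)⁻¹ ≤ L.lep l := by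
  have h1 := L.rd l
  have h2 := L.lep_pos l
  have h3 := L.lep_le_one l
  nlinarith

end Lay

variable {k N : ℕ} {Θ P : Type} [Fintype Θ] [Nonempty Θ] [Fintype P] [Nonempty P]

theorem PT.mono {h : ℕ} {R : Fam2 k P} {θ θ' r r' H : ℝ} (hR : PT h N R θ r H) (hθ : θ ≤ θ') (hr : r ≤ r') :
    PT h N R θ' r' H := by
  intro e he g hg b0 c0 v u hv hu
  have h1 := hR e he g hg b0 c0 v u hv hu
  have h2 : ((SC (P := P) h e b0 ×ˢ SC (P := P) h e c0).filter fun q =>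
      r' ≤ |av e g.1 (fun d => R e g q.1 q.2 d * v q.1 d * u q.2 d)|) ⊆
      ((SC (P := P) h e b0 ×ˢ SC (P := P) h e c0).filter fun q =>
      r ≤ |av e g.1 (fun d => R e g q.1 q.2 d * v q.1 d * u q.2 d)|) := by
    intro q hq
    rw [Finset.mem_filter] at hq ⊢
    exact ⟨hq.1, hr.trans hq.2⟩
  have h3 : ((((SC (P := P) h e b0) ×ˢ (SC (P := P) h e c0)).filter fun q =>
      r' ≤ |av e g.1 (fun d => R e g q.1 q.2 d * v q.1 d * u q.2 d)|).card : ℝ) ≤
      (((SC (P := P) h e b0 ×ˢ SC (P := P) h e c0).filter fun q =>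
      r ≤ |av e g.1 (fun d => R e g q.1 q.2 d * v q.1 d * u q.2 d)|).card : ℝ) := by
    exact_mod_cast Finset.card_le_card h2
  exact h3.trans (h1.trans (mul_le_mul_of_nonneg_right hθ (by positivity)))

/-! ### the families of the layers -/

section fam

variable (L : Lay) (N) (F : Fin 3 → P × V k → P × V k → V k → ℝ)

/-- residual of the layer `l`, face `i`, at the rounding `lh l` -/
def Rl (l : ℕ) (i : Fin 3) : Fam2 k P := Rf (L.lh l) N (L.lep l) (L.lth l) (F i)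

/-- structured function of the layer `l`, face `i`, at the rounding `lh l` -/
def Sl (l : ℕ) (i : Fin 3) : Fam2 k P := Sf (L.lh l) N (L.lep l) (L.lth l) (F i)

/-- difference of the residuals of the layers `l` and `l+1`, at the rounding `lh (l+1)` -/
def Dl (l : ℕ) (i : Fin 3) : Fam2 k P := fun e g b c d =>
  fine (L.lh l) (Rl N L F l i) e g b c d - Rl N L F (l + 1) i e g b c d

/-- the pieces of the layer `l`, at the rounding `lh (l+1)` -/
def Pc (l : ℕ) (q : Fin 3) : Fin 3 → Fam2 k P :=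
  match q with
  | 0 => ![fine (L.lh l) (Rl N L F l 0), fine (L.lh l) (Rl N L F l 1), Dl N L F l 2]
  | 1 => ![fine (L.lh l) (Rl N L F l 0), Dl N L F l 1, Rl N L F (l + 1) 2]
  | 2 => ![Dl N L F l 0, Rl N L F (l + 1) 1, Rl N L F (l + 1) 2]

variable {N F}

theorem Rl_PT (hF : ∀ i b c d, |F i b c d| ≤ 1) (l : ℕ) (i : Fin 3) :
    PT (L.lh l) N (Rl N L F l i) (L.lth l) (4 * L.lep l) 1 :=
  Rf_PT (hF i) (L.lep_pos l) (L.lth_pos l)

theorem fineR_PT (hN : N ≤ k) (hF : ∀ i b c d, |F i b c d| ≤ 1) (l : ℕ) (i : Fin 3) :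
    PT (L.lh (l + 1)) N (fine (L.lh l) (Rl N L F l i)) (2 ^ 17 * L.lth l) (5 * L.lep l) 1 := by
  obtain ⟨D, hD⟩ := Nat.exists_eq_add_of_le (L.lh_mono l)
  have hD8 : D ≤ 8 := by
    have := L.lh_succ_le l
    omega
  have h1 := Rf_PT_fine (N := N) (P := P) hN (hF i) (L.lep_pos l) (L.lth_pos l)
    (by linarith [L.rd1 l, inv_nonneg.2 (pow_nonneg (by norm_num : (0 : ℝ) ≤ 2) (L.lh l))]) hD
  refine h1.mono ?_ le_rfl
  have h2 : (4 : ℝ) ^ D ≤ 4 ^ 8 := pow_le_pow_right₀ (by norm_num) hD8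
  have h3 := L.lth_pos l
  nlinarith

theorem Dl_PT (hN : N ≤ k) (hF : ∀ i b c d, |F i b c d| ≤ 1) (l : ℕ) (i : Fin 3) :
    PT (L.lh (l + 1)) N (Dl N L F l i) (2 ^ 17 * L.lth l) (9 * L.lep l) 1 := by
  obtain ⟨D, hD⟩ := Nat.exists_eq_add_of_le (L.lh_mono l)
  have hD8 : D ≤ 8 := by
    have := L.lh_succ_le l
    omega
  have h1 := Df_PT (N := N) (P := P) hN (hF i) (L.lep_pos l) (L.lth_pos l)
    (by linarith [L.rd1 l, inv_nonneg.2 (pow_nonneg (by norm_num : (0 : ℝ) ≤ 2) (L.lh l))]) hD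
    (L.lep_pos (l + 1)) (L.lth_pos (l + 1)) (L.lep_succ_le l)
  refine PT.mono h1 ?_ le_rfl
  have h2 : (4 : ℝ) ^ D ≤ 4 ^ 8 := pow_le_pow_right₀ (by norm_num) hD8
  have h3 := L.lth_pos l
  have h4 := L.lth_succ_le l
  nlinarith

theorem abs_Rl (hF : ∀ i b c d, |F i b c d| ≤ 1) (l : ℕ) (i : Fin 3) (e : ℕ) (g : V k × ℕ) (b c : P × V k)
    (d : V k) : |Rl N L F l i e g b c d| ≤ 2 := abs_Rf (hF i) e g b c d

theorem abs_Sl (l : ℕ) (i : Fin 3) (e : ℕ) (g : V k × ℕ) (b c : P × V k) (d : V k) :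
    |Sl N L F l i e g b c d| ≤ 1 := abs_Sf e g b c d

/-- a difference of two layers is a difference of structured functions -/
theorem Dl_eq (l : ℕ) (i : Fin 3) (e : ℕ) (g : V k × ℕ) (b c : P × V k) (d : V k) :
    Dl N L F l i e g b c d = Sl N L F (l + 1) i e g b c d - fine (L.lh l) (Sl N L F l i) e g b c d := by
  unfold Dl Rl Sl fine
  rw [Rf_eq, Rf_eq]
  ring

theorem abs_Dl (l : ℕ) (i : Fin 3) (e : ℕ) (g : V k × ℕ) (b c : P × V k) (d : V k) :
    |Dl N L F l i e g b c d| ≤ 2 := by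
  rw [Dl_eq]
  have h1 := abs_Sl L (F := F) (N := N) (l + 1) i e g b c d
  have h2 := abs_Sl L (F := F) (N := N) l i e (coar (L.lh l) e g) b c d
  have h3 := abs_sub (Sl N L F (l + 1) i e g b c d) (fine (L.lh l) (Sl N L F l i) e g b c d)
  have h4 : |fine (L.lh l) (Sl N L F l i) e g b c d| ≤ 1 := h2
  linarith

theorem abs_Pc (hF : ∀ i b c d, |F i b c d| ≤ 1) (l : ℕ) (q i : Fin 3) (e : ℕ) (g : V k × ℕ) (b c : P × V k)
    (d : V k) : |Pc N L F l q i e g b c d| ≤ 2 := by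
  fin_cases q <;> fin_cases i
  · exact abs_Rl L hF l 0 e _ b c d
  · exact abs_Rl L hF l 1 e _ b c d
  · exact abs_Dl L l 2 e g b c d
  · exact abs_Rl L hF l 0 e _ b c d
  · exact abs_Dl L l 1 e g b c d
  · exact abs_Rl L hF (l + 1) 2 e _ b c d
  · exact abs_Dl L l 0 e g b c d
  · exact abs_Rl L hF (l + 1) 1 e _ b c d
  · exact abs_Rl L hF (l + 1) 2 e _ b c d

/-- all faces of all pieces are product tested, tests bounded by `2` -/
theorem Pc_PT (hN : N ≤ k) (hF : ∀ i b c d, |F i b c d| ≤ 1) (l : ℕ) (q i : Fin 3) :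
    PT (L.lh (l + 1)) N (Pc N L F l q i) (2 ^ 17 * L.lth l) (36 * L.lep l) 2 := by
  have hth := L.lth_pos l
  have hep := L.lep_pos l
  have h1 : ∀ i : Fin 3, PT (L.lh (l + 1)) N (fine (L.lh l) (Rl N L F l i)) (2 ^ 17 * L.lth l) (36 * L.lep l) 2 := by
    intro i
    refine PT.mono (PT.scale (fineR_PT L hN hF l i) (by norm_num : (0 : ℝ) < 2)) le_rfl ?_
    linarith
  have h2 : ∀ i : Fin 3, PT (L.lh (l + 1)) N (Dl N L F l i) (2 ^ 17 * L.lth l) (36 * L.lep l) 2 := by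
    intro i
    refine PT.mono (PT.scale (Dl_PT L hN hF l i) (by norm_num : (0 : ℝ) < 2)) le_rfl ?_
    linarith
  have h3 : ∀ i : Fin 3, PT (L.lh (l + 1)) N (Rl N L F (l + 1) i) (2 ^ 17 * L.lth l) (36 * L.lep l) 2 := by
    intro i
    refine PT.mono (PT.scale (Rl_PT L hF (l + 1) i) (by norm_num : (0 : ℝ) < 2)) ?_ ?_
    · have := L.lth_succ_le l
      linarith
    · have := L.lep_succ_le l
      linarith
  fin_cases q <;> fin_cases i
  · exact h1 0
  · exact h1 1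
  · exact h2 2
  · exact h1 0
  · exact h2 1
  · exact h3 2
  · exact h2 0
  · exact h3 1
  · exact h3 2

end fam

/-! ### rarity of a product process with one tested face -/

theorem prod_cyc (f : Fin 3 → ℝ) (i : Fin 3) : ∏ j, f j = f i * f (i + 2) * f (i + 1) := by
  rw [Fin.prod_univ_three]
  fin_cases i
  · show f 0 * f 1 * f 2 = f 0 * f 2 * f 1
    ring
  · show f 0 * f 1 * f 2 = f 1 * f 0 * f 2
    ring
  · show f 0 * f 1 * f 2 = f 2 * f 1 * f 0
    ring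

/-- the vertex opposite to the tested face is known, and all the noise -/
theorem TT3_hidden (i : Fin 3) {h e : ℕ} (he : e ≤ N) (hN : N ≤ k) {R : Fin 3 → Fam2 k P} {θ r H : ℝ} (hθ : 0 ≤ θ)
    (hPT : PT h N (R i) θ r H) (hr : 2 * H ^ 3 * ((2 : ℝ) ^ h)⁻¹ ≤ r)
    (hR : ∀ i e g x y d, |R i e g x y d| ≤ H) (ω : Sp k N 3 Θ P) :
    Pm.ce (fun ω => (th ω, vx i ω, nz ω, sc h e (i + 1) ω, sc h e (i + 2) ω))
      (fun ω => ind (2 * r ≤ |TT3 h R e ω|)) ω ≤ 2 * θ := by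
  have e1 : i + 1 + 1 = i + 2 := by fin_cases i <;> rfl
  have e2 : i + 1 + 2 = i := by fin_cases i <;> rfl
  have e3 : i + 2 + 1 = i := by fin_cases i <;> rfl
  have e4 : i + 2 + 2 = i + 1 := by fin_cases i <;> rfl
  have h1 := rar_hidden (Θ := Θ) (P := P) i he hN (R := R i) hθ hPT hr (hR i)
    (v := fun g ω => R (i + 2) e g (vx i ω) (vx (i + 1) ω)) (u := fun g ω => R (i + 1) e g (vx (i + 2) ω) (vx i ω))
    (fun g => by
      intro v w hvw
      simp only [Prod.mk.injEq] at hvw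
      simp only [hvw.2.1, hvw.2.2.1])
    (fun g => by
      intro v w hvw
      simp only [Prod.mk.injEq] at hvw
      simp only [hvw.2.1, hvw.2.2.1])
    (fun g ω d => hR _ _ _ _ _ _) (fun g ω d => hR _ _ _ _ _ _) ω
  refine le_trans (le_of_eq ?_) h1
  congr 1
  funext v
  have h2 : TT3 h R e v = av e (Yn e v).1 (fun d => R i e (Gm h e v) (vx (i + 1) v) (vx (i + 2) v) d *
      R (i + 2) e (Gm h e v) (vx i v) (vx (i + 1) v) d * R (i + 1) e (Gm h e v) (vx (i + 2) v) (vx i v) d) := by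
    unfold TT3
    congr 1
    funext d
    rw [prod_cyc _ i]
    unfold fv
    rw [e1, e2, e3, e4]
  rw [h2]

/-- the vertex `j` opposite to the tested face is known, view of another vertex `i` -/
theorem TT3_known {i j l : Fin 3} (hij : j ≠ i) (hli : l ≠ i) (hlj : l ≠ j) {h e : ℕ} (he : e ≤ N) (hN : N ≤ k)
    {R : Fin 3 → Fam2 k P} {θ r H : ℝ} (hθ : 0 ≤ θ)
    (hPT : PT h N (R j) θ r H) (hr : 2 * H ^ 3 * ((2 : ℝ) ^ h)⁻¹ ≤ r)
    (hR : ∀ i e g x y d, |R i e g x y d| ≤ H) (ω : Sp k N 3 Θ P) :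
    Pm.ce (fun ω => (th ω, vx j ω, Zn i e ω, sc h e l ω))
      (fun ω => ind (2 * r ≤ |TT3 h R e ω|)) ω ≤ 3 * θ := by
  have e1 : j + 1 + 1 = j + 2 := by fin_cases j <;> rfl
  have e2 : j + 1 + 2 = j := by fin_cases j <;> rfl
  have e3 : j + 2 + 1 = j := by fin_cases j <;> rfl
  have e4 : j + 2 + 2 = j + 1 := by fin_cases j <;> rfl
  have h1 := rar_known (Θ := Θ) (P := P) hij hli hlj he hN (R := R j) hθ hPT hr (hR j)
    (v := fun g ω => R (j + 2) e g (vx j ω) (vx (j + 1) ω)) (u := fun g ω => R (j + 1) e g (vx (j + 2) ω) (vx j ω))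
    (fun g => by
      intro v w hvw
      simp only [Prod.mk.injEq] at hvw
      simp only [hvw.2.1, hvw.2.2.1])
    (fun g => by
      intro v w hvw
      simp only [Prod.mk.injEq] at hvw
      simp only [hvw.2.1, hvw.2.2.1])
    (fun g ω d => hR _ _ _ _ _ _) (fun g ω d => hR _ _ _ _ _ _) ω
  refine le_trans (le_of_eq ?_) h1
  congr 1
  funext v
  have h2 : TT3 h R e v = av e (Yn e v).1 (fun d => R j e (Gm h e v) (vx (j + 1) v) (vx (j + 2) v) d *
      R (j + 2) e (Gm h e v) (vx j v) (vx (j + 1) v) d * R (j + 1) e (Gm h e v) (vx (j + 2) v) (vx j v) d) := by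
    unfold TT3
    congr 1
    funext d
    rw [prod_cyc _ j]
    unfold fv
    rw [e1, e2, e3, e4]
  rw [h2]

section pieces

variable (L : Lay) {F : Fin 3 → P × V k → P × V k → V k → ℝ}

theorem rdH (l : ℕ) : 2 * (2 : ℝ) ^ 3 * ((2 : ℝ) ^ L.lh (l + 1))⁻¹ ≤ 36 * L.lep l := by
  have h1 := L.rd1 (l + 1)
  have h2 := L.lep_succ_le l
  have h3 : 0 < ((2 : ℝ) ^ L.lh (l + 1))⁻¹ := by positivity
  have h4 := L.lep_pos l
  linarith

/-- RARITY OF THE PIECES, a vertex and all the noise known -/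
theorem piece_hidden (i : Fin 3) {e : ℕ} (he : e ≤ N) (hN : N ≤ k) (hF : ∀ i b c d, |F i b c d| ≤ 1) (l : ℕ)
    (q : Fin 3) (ω : Sp k N 3 Θ P) :
    Pm.ce (fun ω => (th ω, vx i ω, nz ω, sc (L.lh (l + 1)) e (i + 1) ω, sc (L.lh (l + 1)) e (i + 2) ω))
      (fun ω => ind (72 * L.lep l ≤ |TT3 (L.lh (l + 1)) (Pc N L F l q) e ω|)) ω ≤ 2 * (2 ^ 17 * L.lth l) := by
  have h1 := TT3_hidden (Θ := Θ) i he hN (by have := L.lth_pos l; positivity) (Pc_PT L hN hF l q i) (rdH L l)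
    (fun i e g x y d => abs_Pc L hF l q i e g x y d) ω
  have h2 : 2 * (36 * L.lep l) = 72 * L.lep l := by ring
  rw [h2] at h1
  exact h1

/-- RARITY OF THE PIECES, the vertex `j` known in the view of `i` -/
theorem piece_known {i j l' : Fin 3} (hij : j ≠ i) (hli : l' ≠ i) (hlj : l' ≠ j) {e : ℕ} (he : e ≤ N) (hN : N ≤ k)
    (hF : ∀ i b c d, |F i b c d| ≤ 1) (l : ℕ) (q : Fin 3) (ω : Sp k N 3 Θ P) :
    Pm.ce (fun ω => (th ω, vx j ω, Zn i e ω, sc (L.lh (l + 1)) e l' ω))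
      (fun ω => ind (72 * L.lep l ≤ |TT3 (L.lh (l + 1)) (Pc N L F l q) e ω|)) ω ≤ 3 * (2 ^ 17 * L.lth l) := by
  have h1 := TT3_known (Θ := Θ) hij hli hlj he hN (by have := L.lth_pos l; positivity) (Pc_PT L hN hF l q j)
    (rdH L l) (fun i e g x y d => abs_Pc L hF l q i e g x y d) ω
  have h2 : 2 * (36 * L.lep l) = 72 * L.lep l := by ring
  rw [h2] at h1
  exact h1

/-! ### the telescoping identity -/

variable (N F)

/-- the static functions at a sample point -/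
def Fv (i : Fin 3) (ω : Sp k N 3 Θ P) : V k → ℝ := F i (vx (i + 1) ω) (vx (i + 2) ω)

/-- the residual of the layer `l` at a sample point -/
def Rv (l : ℕ) (i : Fin 3) (e : ℕ) (ω : Sp k N 3 Θ P) : V k → ℝ := fv (L.lh l) i (Rl N L F l i) e ω

/-- the structured function of the layer `l` at a sample point -/
def Sv (l : ℕ) (i : Fin 3) (e : ℕ) (ω : Sp k N 3 Θ P) : V k → ℝ := fv (L.lh l) i (Sl N L F l i) e ω

/-- mean over the current window of the product of three functions -/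
def T3 (e : ℕ) (f0 f1 f2 : V k → ℝ) (ω : Sp k N 3 Θ P) : ℝ := av e (Yn e ω).1 (fun d => f0 d * f1 d * f2 d)

/-- THE PROCESS `X` -/
def XX3 (e : ℕ) (ω : Sp k N 3 Θ P) : ℝ := T3 N e (Fv N F 0 ω) (Fv N F 1 ω) (Fv N F 2 ω) ω

variable {N F}

theorem Rv_eq (l : ℕ) (i : Fin 3) (e : ℕ) (ω : Sp k N 3 Θ P) (d : V k) :
    Rv N L F l i e ω d = Fv N F i ω d - Sv N L F l i e ω d := rfl

theorem fine_v (l : ℕ) (R : Fam2 k P) (i : Fin 3) (e : ℕ) (ω : Sp k N 3 Θ P) :
    fv (L.lh (l + 1)) i (fine (L.lh l) R) e ω = fv (L.lh l) i R e ω := by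
  unfold fv fine Gm
  funext d
  rw [coar_G (L.lh_mono l)]

theorem Dl_v (l : ℕ) (i : Fin 3) (e : ℕ) (ω : Sp k N 3 Θ P) (d : V k) :
    fv (L.lh (l + 1)) i (Dl N L F l i) e ω d = Rv N L F l i e ω d - Rv N L F (l + 1) i e ω d := by
  have h1 : fv (L.lh (l + 1)) i (Dl N L F l i) e ω d =
      fv (L.lh (l + 1)) i (fine (L.lh l) (Rl N L F l i)) e ω d -
      fv (L.lh (l + 1)) i (Rl N L F (l + 1) i) e ω d := rfl
  rw [h1, fine_v]
  rfl

/-- the residual process of the layer `l` -/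
def TR (L : Lay) (F : Fin 3 → P × V k → P × V k → V k → ℝ) (l e : ℕ) (ω : Sp k N 3 Θ P) : ℝ :=
  T3 N e (Rv N L F l 0 e ω) (Rv N L F l 1 e ω) (Rv N L F l 2 e ω) ω

/-- one step of the telescoping: the residual process of the layer `l` is that of the layer `l+1` plus the pieces -/
theorem tele_step (l e : ℕ) (ω : Sp k N 3 Θ P) :
    TR L F l e ω = (∑ q : Fin 3, TT3 (L.lh (l + 1)) (Pc N L F l q) e ω) + TR L F (l + 1) e ω := by
  have h0 : TT3 (L.lh (l + 1)) (Pc N L F l 0) e ω = av e (Yn e ω).1 (fun d =>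
      Rv N L F l 0 e ω d * Rv N L F l 1 e ω d * (Rv N L F l 2 e ω d - Rv N L F (l + 1) 2 e ω d)) := by
    unfold TT3
    congr 1
    funext d
    rw [Fin.prod_univ_three, ← Dl_v]
    have a0 : fv (L.lh (l + 1)) 0 (Pc N L F l 0 0) e ω d = Rv N L F l 0 e ω d := by
      show fv (L.lh (l + 1)) 0 (fine (L.lh l) (Rl N L F l 0)) e ω d = _
      rw [fine_v]
      rfl
    have a1 : fv (L.lh (l + 1)) 1 (Pc N L F l 0 1) e ω d = Rv N L F l 1 e ω d := by
      show fv (L.lh (l + 1)) 1 (fine (L.lh l) (Rl N L F l 1)) e ω d = _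
      rw [fine_v]
      rfl
    rw [a0, a1]
    rfl
  have h1 : TT3 (L.lh (l + 1)) (Pc N L F l 1) e ω = av e (Yn e ω).1 (fun d =>
      Rv N L F l 0 e ω d * (Rv N L F l 1 e ω d - Rv N L F (l + 1) 1 e ω d) * Rv N L F (l + 1) 2 e ω d) := by
    unfold TT3
    congr 1
    funext d
    rw [Fin.prod_univ_three, ← Dl_v]
    have a0 : fv (L.lh (l + 1)) 0 (Pc N L F l 1 0) e ω d = Rv N L F l 0 e ω d := by
      show fv (L.lh (l + 1)) 0 (fine (L.lh l) (Rl N L F l 0)) e ω d = _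
      rw [fine_v]
      rfl
    rw [a0]
    rfl
  have h2 : TT3 (L.lh (l + 1)) (Pc N L F l 2) e ω = av e (Yn e ω).1 (fun d =>
      (Rv N L F l 0 e ω d - Rv N L F (l + 1) 0 e ω d) * Rv N L F (l + 1) 1 e ω d * Rv N L F (l + 1) 2 e ω d) := by
    unfold TT3
    congr 1
    funext d
    rw [Fin.prod_univ_three, ← Dl_v]
    rfl
  rw [Fin.sum_univ_three, h0, h1, h2]
  unfold TR T3
  rw [← av_add, ← av_add, ← av_add]
  congr 1
  funext d
  ring

/-- THE TELESCOPING IDENTITY from the layer `l0` to the layer `l0 + n` -/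
theorem telescope (l0 n e : ℕ) (ω : Sp k N 3 Θ P) :
    XX3 N F e ω =
      (T3 N e (Fv N F 0 ω) (Fv N F 1 ω) (Sv N L F l0 2 e ω) ω +
        T3 N e (Fv N F 0 ω) (Sv N L F l0 1 e ω) (Rv N L F l0 2 e ω) ω +
        T3 N e (Sv N L F l0 0 e ω) (Rv N L F l0 1 e ω) (Rv N L F l0 2 e ω) ω) +
      (∑ l ∈ range n, ∑ q : Fin 3, TT3 (L.lh (l0 + l + 1)) (Pc N L F (l0 + l) q) e ω) +
      TR L F (l0 + n) e ω := by
  have h1 : XX3 N F e ω =
      (T3 N e (Fv N F 0 ω) (Fv N F 1 ω) (Sv N L F l0 2 e ω) ω +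
        T3 N e (Fv N F 0 ω) (Sv N L F l0 1 e ω) (Rv N L F l0 2 e ω) ω +
        T3 N e (Sv N L F l0 0 e ω) (Rv N L F l0 1 e ω) (Rv N L F l0 2 e ω) ω) + TR L F l0 e ω := by
    unfold XX3 TR T3
    rw [← av_add, ← av_add, ← av_add]
    congr 1
    funext d
    rw [Rv_eq, Rv_eq, Rv_eq]
    ring
  have h2 : TR L F l0 e ω = (∑ l ∈ range n, ∑ q : Fin 3, TT3 (L.lh (l0 + l + 1)) (Pc N L F (l0 + l) q) e ω) +
      TR L F (l0 + n) e ω := by
    induction n with
    | zero => simp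
    | succ n ih =>
      rw [ih, Finset.sum_range_succ, tele_step L (l0 + n) e ω]
      have : l0 + (n + 1) = l0 + n + 1 := by omega
      rw [this]
      ring
  rw [h1, h2]
  ring

end pieces

end

end Pool.Agent.M3.Mod
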