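import Pool.Agent.M3.Prop1M
import Pool.Agent.M3.S1Lay

/-!
# M3/NV : the named view (interface between sections 2 + 2B + 3 and sections 4 + 5), row 4 of table m3, 4.0 (helper11)

* `prU` : from the model with public and private randomness to the model without; `liftF` : a family without private
  randomness in the model with private randomness;
* `UU i` : the sets of known vertices `{i}`, `{i,i+1}`, `{i,i+2}` of the losses in the view `i`;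
* `TZ h R t` : the process `TT3 h R (ex N t)`, zero at the dummy time `0`;
* `NV i h R` : NAMED VIEW of the process `TZ h R`, hidden vertex `i`; the face `i` is the known face;
* `NVThm L` : existence of named views, all layers, hidden vertices, arbitrary known face;
* `Cold3 L r` : Proposition 2 (three colds).
-/

set_option autoImplicit false

namespace Pool.Agent.M3.Mod

open Finset Pool.Agent.PWZ Pool.Agent.M3.Bin

noncomputable section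

variable {k N : ℕ} {Θ P : Type}

/-- forget the public and the private randomness -/
def prU {m : ℕ} (ω : Sp k N m Θ P) : Sp k N m Unit Unit := ((), (fun i => ((), (vx i ω).2)), ω.2.2)

/-- a family without private randomness -/
def liftF (R : Fam2 k Unit) : Fam2 k P := fun e g x y d => R e g ((), x.2) ((), y.2) d

/-- the known vertices of the losses of the view `i` -/
def UU (i : Fin 3) : Finset (Finset (Fin 3)) := {{i}, {i, i + 1}, {i, i + 2}}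

/-- THE PROCESS, the time `0` is a dummy (all families are zero at the time `0`) -/
def TZ (h : ℕ) (R : Fin 3 → Fam2 k P) (t : ℕ) (ω : Sp k N 3 Θ P) : ℝ := if t = 0 then 0 else TT3 h R (ex N t) ω

/-- the function of the face `i` at the time `t`, zero at the time `0` -/
def fz (h : ℕ) (i : Fin 3) (R : Fam2 k P) (t : ℕ) (ω : Sp k N 3 Θ P) : V k → ℝ :=
  if t = 0 then 0 else fv h i R (ex N t) ω

/-- the known face changes between the times `t` and `t+1` -/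
def chE (h : ℕ) (i : Fin 3) (R : Fam2 k P) (t : ℕ) (ω : Sp k N 3 Θ P) : Prop :=
  fz h i R (t + 1) ω ≠ fz h i R t ω

section NV

variable [Fintype Θ] [Nonempty Θ] [Fintype P] [Nonempty P]

/-- NAMED VIEW of the process `TZ h R`, hidden vertex `i` (known face `i`) -/
structure NV (k N : ℕ) (Θ P : Type) [Fintype Θ] [Nonempty Θ] [Fintype P] [Nonempty P] (i : Fin 3) (h : ℕ)
    (R : Fin 3 → Fam2 k P) where
  /-- the filtration of the view -/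
  ι : ℕ → Type
  A : ∀ t, Sp k N 3 Θ P → ι t
  /-- published process, free step, digit, failure of the step -/
  X : ℕ → Sp k N 3 Θ P → ℝ
  g : ℕ → Sp k N 3 Θ P → ℝ
  D : ℕ → Sp k N 3 Θ P → ℝ
  ev : ℕ → Sp k N 3 Θ P → Prop
  /-- nothing of the triple is young -/
  utd : ℕ → Sp k N 3 Θ P → Prop
  /-- errors of the labels, dead points of Proposition 1 -/
  D0 : ℕ → Sp k N 3 Θ P → Prop
  D1 : ℕ → Sp k N 3 Θ P → Prop
  /-- squares of the biases: synergy `b0`; `b {i}` = class of the hidden vertex, `b {i,j}` = label of the pair -/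
  b0 : ℕ → Sp k N 3 Θ P → ℝ
  b : Finset (Fin 3) → ℕ → Sp k N 3 Θ P → ℝ
  /-- recorded changes at the time `t+1` -/
  c : Finset (Fin 3) → ℕ → Sp k N 3 Θ P → ℝ
  /-- true changes at the time `t+1` (of the labels of `{i}`, `{i,j}`) -/
  ch : Finset (Fin 3) → ℕ → Sp k N 3 Θ P → Prop
  /-- accuracy, probability of errors, synergy, budgets, mass of the points which are not up to date, least threshold -/
  eta : ℝ
  q : ℝ
  e3 : ℝ
  hb : Finset (Fin 3) → ℝ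
  J : ℝ
  a6 : ℝ
  rmin : ℝ
  eta0 : 0 ≤ eta
  view : ∀ s : ℝ, 0 ≤ s → ∀ Dd : ℕ → Sp k N 3 Θ P → Prop, Pm.ViewHyp A X g D ev (Pm.Al A Dd (1 / 2)) s 729
  KA : ∀ t, Fac (A t) (Kn i (ex N t))
  D0inc : ∀ t w, D0 t w → D0 (t + 1) w
  D1inc : ∀ t w, D1 t w → D1 (t + 1) w
  D01 : ∀ t w, D0 t w → D1 t w
  D0q : Pm.Pr (D0 N) ≤ q
  D1q : Pm.Pr (D1 N) ≤ q
  /-- PROPOSITION 1: from `X` to `T` and back, events -/
  XS1 : ∀ s : ℝ, 0 ≤ s → ∀ t ≤ N, ∀ w, s < |X t w| → ¬ D1 t w → ¬ utd t w ∨ s - eta ≤ |TZ h R t w|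
  SX1 : ∀ s2 : ℝ, ∀ t ≤ N, ∀ w, s2 + eta ≤ |TZ h R t w| → ¬ D1 t w → utd t w → s2 ≤ |X t w|
  ev1 : ∀ t < N, ∀ w, Pm.Al A D1 (1 / 2) (t + 1) w → ind (ev (t + 1) w) ≤ ind (chE h i (R i) t w) + ∑ U ∈ UU i, c U t w
  /-- the published process is zero as long as the known face is zero -/
  zer : ∀ t ≤ N, ∀ w, fz h i (R i) t w = 0 → X t w = 0
  utdY : ∀ U ∈ UU i, ∀ t ≤ N, ∀ w, Pm.ce (Yk i U (ex N t) (ex N t - (h + 3))) (fun v => ind (¬ utd t v)) w ≤ a6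
  utdK : ∀ t ≤ N, ∀ w, Pm.ce (Kn i (ex N t)) (fun v => ind (¬ utd t v)) w ≤ a6
  /-- BIAS -/
  bias : ∀ t < N, ∀ w, Pm.ce (A t) (D t) w ^ 2 ≤ b0 t w + ∑ U ∈ UU i, b U t w
  b0n : ∀ t w, 0 ≤ b0 t w
  bn : ∀ U t w, 0 ≤ b U t w
  cn : ∀ U t w, 0 ≤ c U t w
  b0A : ∀ t < N, Fac (A t) (b0 t)
  bA : ∀ U ∈ UU i, ∀ t < N, Fac (A t) (b U t)
  bZ : ∀ U ∈ UU i, ∀ t < N, Fac (Zk U (ex N (t + 1) - (h + 3))) (b U t)
  cZ : ∀ U ∈ UU i, ∀ t < N, Fac (Zk U (ex N (t + 1) - (h + 3))) (c U t)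
  b0e : ∑ t ∈ range N, Pm.E (fun w => ind (¬ D0 t w) * b0 t w) ≤ e3
  bh : ∀ U ∈ UU i, ∑ t ∈ range N, Pm.E (b U t) ≤ hb U
  cJ : ∀ U ∈ UU i, ∑ t ∈ range N, Pm.E (c U t) ≤ J
  /-- true changes -/
  chZ : ∀ U ∈ UU i, ∀ t < N, Fac (Zk U (ex N (t + 1) - (h + 3))) (fun w => ind (ch U t w))
  chJ : ∀ U ∈ UU i, ∑ t ∈ range N, Pm.Pr (ch U t) ≤ J
  eJ : ∑ t ∈ range N, Pm.Pr (fun w : Sp k N 3 Θ P => chE h i (R i) t w) ≤ J
  /-- THE THEOREM: dead points for every threshold `r` and every increasing family which contains the errors -/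
  thm : ∀ r : ℝ, rmin ≤ r → ∀ D0' : ℕ → Sp k N 3 Θ P → Prop, (∀ t w, D0' t w → D0' (t + 1) w) →
    (∀ t w, D0 t w → D0' t w) → ∃ D2 : ℕ → Sp k N 3 Θ P → Prop, (∀ t w, D2 t w → D2 (t + 1) w) ∧
      (∀ t w, D0' t w → D2 t w) ∧
      Pm.Pr (D2 N) ≤ Pm.Pr (D0' N) + q + ∑ t ∈ range N, Pm.Pr (fun w =>
        (chE h i (R i) t w ∨ ∃ U ∈ UU i, ch U t w) ∧
          (r ≤ |TZ h R t w| ∨ r ≤ |TZ h R (t + 1) w|) ∧ ¬ D0' (t + 1) w) ∧
      (∀ t ≤ N, ∀ w, 2 * r < |X t w| → ¬ D2 t w → 2 * r - eta ≤ |TZ h R t w|) ∧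
      (∀ s2 : ℝ, ∀ t ≤ N, ∀ w, 2 * r ≤ s2 + eta → s2 + eta ≤ |TZ h R t w| → ¬ D2 t w → s2 ≤ |X t w|) ∧
      (∀ t < N, ∀ w, 2 * r < |X t w| → Pm.Al A D2 (1 / 2) (t + 1) w → ¬ ev (t + 1) w)

end NV

/-- EXISTENCE OF NAMED VIEWS.  Layer `n`, hidden vertex `i`, structured face `s` (difference of the layers `n`, `n+1`),
the third face `r` a residual of the layer `n` or `n+1`, the known face `i` ARBITRARY, bounded by `2`, with at most
`n^Cp` changes on every path (the change from the dummy time `0` included).  The families live at the rounding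
`lh (n+1)`, the view at a finer rounding `h ≤ n^C`.  `M` = saturation parameter of section 3, `κ0` an absolute exponent. -/
def NVThm (L : Lay) (κ0 : ℝ) : Prop :=
  ∀ C0 Cp : ℕ, ∃ C n0 : ℕ, ∀ n ≥ n0, ∃ h : ℕ, L.lh (n + 1) ≤ h ∧ (h : ℝ) ≤ (n : ℝ) ^ C ∧
    ∀ k N : ℕ, N ≤ k →
    ∀ F : Fin 3 → Unit × V k → Unit × V k → V k → ℝ, (∀ i b c d, |F i b c d| ≤ 1) →
    ∀ i s r : Fin 3, s ≠ i → r ≠ i → r ≠ s →
    ∀ R : Fin 3 → Fam2 k Unit, R s = Dl N L F n s →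
      (R r = fine (L.lh n) (Rl N L F n r) ∨ R r = Rl N L F (n + 1) r) →
      (∀ e g x y d, |R i e g x y d| ≤ 2) →
      (∀ ω : Sp k N 3 Unit Unit, ∑ t ∈ range N, ind (chE (L.lh (n + 1)) i (R i) t ω) ≤ (n : ℝ) ^ Cp) →
    ∀ M : ℝ, Real.exp ((n : ℝ) ^ C) ≤ M →
    ∃ (Θ P : Type) (_ : Fintype Θ) (_ : Nonempty Θ) (_ : Fintype P) (_ : Nonempty P)
      (W : NV k N Θ P i h (fun j => liftF (fine (L.lh (n + 1)) (R j)))),
      W.q ≤ Real.exp (-(n : ℝ) ^ C0) ∧ W.a6 ≤ L.lth n ∧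
      W.eta ≤ ((n : ℝ) + 1)⁻¹ ^ 6 ∧ W.rmin ≤ ((n : ℝ) + 1)⁻¹ ^ 5 ∧
      W.e3 ≤ Real.exp ((n : ℝ) ^ C) * M ^ (-κ0) ∧
      (∀ U, W.hb U ≤ Real.exp ((n : ℝ) ^ C) * M) ∧ (∀ U, U ≠ {i} → W.hb U ≤ Real.exp ((n : ℝ) ^ C)) ∧
      W.J ≤ Real.exp ((n : ℝ) ^ C)

/-- PROPOSITION 2 (three colds), threshold `r l` -/
def Cold3 (L : Lay) (r : ℕ → ℝ) : Prop :=
  ∀ C1 : ℕ, ∃ l0 : ℕ, ∀ l ≥ l0, ∀ k N : ℕ, N ≤ k →
    ∀ F : Fin 3 → Unit × V k → Unit × V k → V k → ℝ, (∀ i b c d, |F i b c d| ≤ 1) → ∀ q x : Fin 3,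
      (Pm : FP (Sp k N 3 Unit Unit)).Pr (fun ω => ∃ t ≤ N, 1 ≤ t ∧ Real.exp (-(l : ℝ) ^ C1) <
        Pm.ce (Kn x (ex N t)) (fun v => ind (r l ≤ |TT3 (L.lh (l + 1)) (Pc N L F l q) (ex N t) v|)) ω) ≤
      Real.exp (-(l : ℝ) ^ C1)

end

end Pool.Agent.M3.Mod
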