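import Pool.Agent.M3.RdN
import Pool.Agent.M3.RdD

/-!
# M3.RdNum: from labels of any type to labels with finitely many values (helper7; two options: helper52)

Extended labels `f t w : Bool → F'` = the labels at the two options; `ix t w` = number of the true option (a function of
the node `Z t`), plain label `fp t w = f t w (ix t w)`.
`HypR` = `HypT` where the submartingale property and the bound of `K v t` are only required for the values `v` which have
occurred on the path (`occ`, at some option), labels of ANY type. `numd S ix M` = the numbered process (labels in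
`Fin (M+1)`, `RdN` on `Om × Bool`: one list for both options), errors = old errors or a list of values longer than `M`.
* `numd_hyp : S.HypR ix -> (S.numd ix M).HypT`, `numd_f ..`: the numbered labels change only if the labels change;
* `numd_T`, `numd_D0`: the process is the same, the errors.
-/

set_option autoImplicit false
set_option linter.unusedSectionVars false

namespace Pool.Agent.M3

open Finset Pool.Agent.PWZ

variable {Om : Type*} [Fintype Om] {κ : ℕ → Type*} {α β γ F' G' U' E : Type*}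

theorem RD.ZB_filt {F G U : Type*} {R : RD Om κ α β γ F G U} (h : Filt R.Q) : Filt R.ZB := by
  intro t v w hv
  unfold RD.ZB at hv ⊢
  simp only [Prod.mk.injEq] at hv ⊢
  exact ⟨hv.1, h t v w hv.2⟩

theorem RD.ZC_filt {F G U : Type*} {R : RD Om κ α β γ F G U} (h : Filt R.Q) : Filt R.ZC := by
  intro t v w hv
  unfold RD.ZC at hv ⊢
  simp only [Prod.mk.injEq] at hv ⊢
  exact ⟨hv.1, h t v w hv.2⟩

/-! ## two components -/

/-- the public map on `Om × Bool` -/
def tw {ι : ℕ → Type*} (Y : ∀ t, Om → ι t) (t : ℕ) (p : Om × Bool) : ι t := Y t p.1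

/-- the components on `Om × Bool` -/
def cp {L : Type*} (x : ℕ → Om → Bool → L) (t : ℕ) (p : Om × Bool) : L := x t p.1 p.2

theorem tw_filt {ι : ℕ → Type*} {Y : ∀ t, Om → ι t} (h : Filt Y) : Filt (tw Y) := fun t v w hv => h t v.1 w.1 hv

section num

variable {ι : ℕ → Type*} {L : Type*} {Y : ∀ t, Om → ι t} {x : ℕ → Om → Bool → L}

/-- the same value has the same number -/
theorem num_val_stay (hY : Filt Y) {M t : ℕ} {w : Om} {i j : Bool} (h : x (t + 1) w i = x t w j) :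
    num (tw Y) (cp x) M (t + 1) (w, i) = num (tw Y) (cp x) M t (w, j) := by
  classical
  unfold num
  refine Fin.ext ?_
  simp only
  congr 1
  have e1 : cp x (t + 1) (w, i) = cp x t (w, j) := h
  rw [e1]
  have h1 := mem_rlst_self (Y := tw Y) (x := cp x) t (w, j)
  have h2 : rlst (tw Y) (cp x) t (w, j) = rlst (tw Y) (cp x) t (w, i) := rlst_fac (tw_filt hY) t rfl
  obtain ⟨m, hm⟩ := rlst_pre (Y := tw Y) (x := cp x) t (w, i)
  rw [← hm, ← h2, List.idxOf_append_of_mem h1]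

/-- off the overflow the number determines the value -/
theorem val_of_num {M t : ℕ} {w : Om} {i : Bool} (h : ¬ ovf (tw Y) (cp x) M (t + 1) (w, i))
    (hn : num (tw Y) (cp x) M (t + 1) (w, i) = num (tw Y) (cp x) M t (w, i)) : x (t + 1) w i = x t w i := by
  have h' : ¬ ovf (tw Y) (cp x) M t (w, i) := fun h0 => h (ovf_inc M t (w, i) h0)
  have h1 := dec_num h
  have h2 := dec_num h'
  rw [hn, dec_stay (num_mng h')] at h1
  rw [h2] at h1
  exact h1.symm

end num

namespace RT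

noncomputable section

variable (S : RT Om κ α β γ (Bool → F') (Bool → G') (Bool → U') E F' G' U') (ix : ℕ → Om → Bool)

/-- the value has occurred on the path (at some option) -/
def occ (v : E × F' × G' × U') (t : ℕ) (w : Om) : Prop :=
  v.1 ∈ rlst S.toRD.Z S.e t w ∧ v.2.1 ∈ rlst (tw S.toRD.ZB) (cp S.f) t (w, false) ∧
    v.2.2.1 ∈ rlst (tw S.toRD.ZC) (cp S.g) t (w, false) ∧ v.2.2.2 ∈ rlst (tw S.Q) (cp S.u) t (w, false)

/-- hypotheses, labels of any type -/
structure HypR : Prop where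
  hyp : S.toRD.Hyp
  fe : ∀ t, Fac (S.toRD.Z t) (S.e t)
  ixf : ∀ t, Fac (S.toRD.Z t) (ix t)
  fpx : ∀ t w, S.fp t w = S.f t w (ix t w)
  gpx : ∀ t w, S.gp t w = S.g t w (ix t w)
  upx : ∀ t w, S.up t w = S.u t w (ix t w)
  cf : ∀ t w, S.P.p w ≠ 0 → ¬ S.D0 (t + 1) w → S.f (t + 1) w = S.f t w → S.fp (t + 1) w = S.fp t w
  cg : ∀ t w, S.P.p w ≠ 0 → ¬ S.D0 (t + 1) w → S.g (t + 1) w = S.g t w → S.gp (t + 1) w = S.gp t w
  cu : ∀ t w, S.P.p w ≠ 0 → ¬ S.D0 (t + 1) w → S.u (t + 1) w = S.u t w → S.up (t + 1) w = S.up t w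
  Kf : ∀ v t, Fac (S.toRD.Z t) (S.K v t)
  Ks : ∀ v t w, S.P.p w ≠ 0 → S.occ v t w → |S.K v t w| ≤ S.P.ce (S.toRD.Z t) (fun z => |S.K v (t + 1) z|) w
  Kb : ∀ v t w, S.P.p w ≠ 0 → S.occ v t w → |S.K v t w| ≤ S.Lam
  D0i : ∀ t w, S.P.p w ≠ 0 → S.D0 t w → S.D0 (t + 1) w
  TX : ∀ t w, S.P.p w ≠ 0 → ¬ S.D0 t w → |S.T t w - S.Xt t w| ≤ S.eta
  Lam0 : 0 ≤ S.Lam
  eta0 : 0 ≤ S.eta

/-- decoded value -/
def dcd {M : ℕ} (v : Fin (M + 1) × Fin (M + 1) × Fin (M + 1) × Fin (M + 1)) (t : ℕ) (w : Om) : E × F' × G' × U' :=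
  (dec S.toRD.Z S.e v.1 t w, dec (tw S.toRD.ZB) (cp S.f) v.2.1 t (w, false),
    dec (tw S.toRD.ZC) (cp S.g) v.2.2.1 t (w, false), dec (tw S.Q) (cp S.u) v.2.2.2 t (w, false))

/-- all numbers have a meaning -/
def mn4 {M : ℕ} (v : Fin (M + 1) × Fin (M + 1) × Fin (M + 1) × Fin (M + 1)) (t : ℕ) (w : Om) : Prop :=
  mng S.toRD.Z S.e v.1 t w ∧ mng (tw S.toRD.ZB) (cp S.f) v.2.1 t (w, false) ∧
    mng (tw S.toRD.ZC) (cp S.g) v.2.2.1 t (w, false) ∧ mng (tw S.Q) (cp S.u) v.2.2.2 t (w, false)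

/-- some list is too long -/
def ovf4 (M : ℕ) (t : ℕ) (w : Om) : Prop :=
  ovf S.toRD.Z S.e M t w ∨ ovf (tw S.toRD.ZB) (cp S.f) M t (w, false) ∨
    ovf (tw S.toRD.ZC) (cp S.g) M t (w, false) ∨ ovf (tw S.Q) (cp S.u) M t (w, false)

open Classical in
/-- the numbered process -/
def numd (M : ℕ) : RT Om κ α β γ (Bool → Fin (M + 1)) (Bool → Fin (M + 1)) (Bool → Fin (M + 1)) (Fin (M + 1))
    (Fin (M + 1)) (Fin (M + 1)) (Fin (M + 1)) where
  P := S.P
  Q := S.Q
  A := S.A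
  B := S.B
  C := S.C
  f := fun t w i => num (tw S.toRD.ZB) (cp S.f) M t (w, i)
  g := fun t w i => num (tw S.toRD.ZC) (cp S.g) M t (w, i)
  u := fun t w i => num (tw S.Q) (cp S.u) M t (w, i)
  al := S.al
  be := S.be
  e := num S.toRD.Z S.e M
  fp := fun t w => num (tw S.toRD.ZB) (cp S.f) M t (w, ix t w)
  gp := fun t w => num (tw S.toRD.ZC) (cp S.g) M t (w, ix t w)
  up := fun t w => num (tw S.Q) (cp S.u) M t (w, ix t w)
  K := fun v t w => if S.mn4 v t w then S.K (S.dcd v t w) t w else 0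
  T := S.T
  D0 := fun t w => S.D0 t w ∨ S.ovf4 M t w
  Lam := S.Lam
  eta := S.eta

variable {S ix}

theorem numd_T (M : ℕ) : (S.numd ix M).T = S.T := rfl
theorem numd_P (M : ℕ) : (S.numd ix M).P = S.P := rfl
theorem numd_Q (M : ℕ) : (S.numd ix M).Q = S.Q := rfl
theorem numd_Z (M : ℕ) (t : ℕ) : (S.numd ix M).toRD.Z t = S.toRD.Z t := rfl
theorem numd_ZB (M : ℕ) (t : ℕ) : (S.numd ix M).toRD.ZB t = S.toRD.ZB t := rfl
theorem numd_ZC (M : ℕ) (t : ℕ) : (S.numd ix M).toRD.ZC t = S.toRD.ZC t := rfl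
theorem numd_D0 (M : ℕ) (t : ℕ) (w : Om) : (S.numd ix M).D0 t w ↔ S.D0 t w ∨ S.ovf4 M t w := Iff.rfl

theorem numd_f (hQ : Filt S.Q) {M t : ℕ} {w : Om} (h : (S.numd ix M).f (t + 1) w ≠ (S.numd ix M).f t w) :
    S.f (t + 1) w ≠ S.f t w :=
  fun h' => h (funext fun i => num_val_stay (RD.ZB_filt hQ) (congrFun h' i))

theorem numd_g (hQ : Filt S.Q) {M t : ℕ} {w : Om} (h : (S.numd ix M).g (t + 1) w ≠ (S.numd ix M).g t w) :
    S.g (t + 1) w ≠ S.g t w :=
  fun h' => h (funext fun i => num_val_stay (RD.ZC_filt hQ) (congrFun h' i))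

theorem numd_u (hQ : Filt S.Q) {M t : ℕ} {w : Om} (h : (S.numd ix M).u (t + 1) w ≠ (S.numd ix M).u t w) :
    S.u (t + 1) w ≠ S.u t w :=
  fun h' => h (funext fun i => num_val_stay hQ (congrFun h' i))

theorem numd_e {M t : ℕ} {w : Om} (h : (S.numd ix M).e (t + 1) w ≠ (S.numd ix M).e t w) :
    S.e (t + 1) w ≠ S.e t w := fun h' => h (num_stay h')

/-- a change event of the numbered process is a change event of the process -/
theorem numd_d1 (hQ : Filt S.Q) {M : ℕ} {r : ℝ} {t : ℕ} {w : Om} (h : (S.numd ix M).d1 r t w) : S.d1 r t w := by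
  rcases h with ⟨h1, h2⟩ | ⟨h1, h2⟩
  · exact Or.inl ⟨numd_e h1, h2⟩
  · refine Or.inr ⟨?_, h2⟩
    rcases h1 with h1 | h1 | h1
    · exact Or.inl (numd_f hQ h1)
    · exact Or.inr (Or.inl (numd_g hQ h1))
    · exact Or.inr (Or.inr (numd_u hQ h1))

theorem ovf4_inc (M : ℕ) (t : ℕ) (w : Om) (h : S.ovf4 M t w) : S.ovf4 M (t + 1) w := by
  rcases h with h | h | h | h
  · exact Or.inl (ovf_inc M t w h)
  · exact Or.inr (Or.inl (ovf_inc M t (w, false) h))
  · exact Or.inr (Or.inr (Or.inl (ovf_inc M t (w, false) h)))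
  · exact Or.inr (Or.inr (Or.inr (ovf_inc M t (w, false) h)))

/-- the values which have occurred form a class function -/
theorem mem_of_mng {ι : ℕ → Type*} {L : Type*} {Om' : Type*} [Fintype Om'] {Y : ∀ t, Om' → ι t} {x : ℕ → Om' → L}
    {M : ℕ} {i : Fin (M + 1)} {t : ℕ} {w : Om'} (h : mng Y x i t w) : dec Y x i t w ∈ rlst Y x t w := by
  unfold dec
  unfold mng at h
  rw [List.getD_eq_getElem _ _ h]
  exact List.getElem_mem h

theorem occ_dcd {M : ℕ} {v : Fin (M + 1) × Fin (M + 1) × Fin (M + 1) × Fin (M + 1)} {t : ℕ} {w : Om}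
    (h : S.mn4 v t w) : S.occ (S.dcd v t w) t w :=
  ⟨mem_of_mng h.1, mem_of_mng h.2.1, mem_of_mng h.2.2.1, mem_of_mng h.2.2.2⟩

theorem mn4_iff (h : S.toRD.Hyp) {M : ℕ} {v : Fin (M + 1) × Fin (M + 1) × Fin (M + 1) × Fin (M + 1)} {t : ℕ}
    {w w' : Om} (hw : S.toRD.Z t w = S.toRD.Z t w') : S.mn4 v t w ↔ S.mn4 v t w' := by
  unfold mn4
  rw [mng_iff (RD.Z_filt h) _ t hw,
    mng_iff (tw_filt (RD.ZB_filt h.filt)) (v := (w, false)) (w := (w', false)) _ t (RD.Z_fac_ZB t _ _ hw),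
    mng_iff (tw_filt (RD.ZC_filt h.filt)) (v := (w, false)) (w := (w', false)) _ t (RD.Z_fac_ZC t _ _ hw),
    mng_iff (tw_filt h.filt) (v := (w, false)) (w := (w', false)) _ t (RD.Z_fac_Q t _ _ hw)]

theorem dcd_fac (h : S.toRD.Hyp) {M : ℕ} {v : Fin (M + 1) × Fin (M + 1) × Fin (M + 1) × Fin (M + 1)} {t : ℕ}
    {w w' : Om} (hw : S.toRD.Z t w = S.toRD.Z t w') (hm : S.mn4 v t w') : S.dcd v t w = S.dcd v t w' := by
  obtain ⟨h1, h2, h3, h4⟩ := hm
  unfold dcd
  rw [dec_fac (RD.Z_filt h) hw h1,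
    dec_fac (tw_filt (RD.ZB_filt h.filt)) (v := (w, false)) (w := (w', false)) (RD.Z_fac_ZB t _ _ hw) h2,
    dec_fac (tw_filt (RD.ZC_filt h.filt)) (v := (w, false)) (w := (w', false)) (RD.Z_fac_ZC t _ _ hw) h3,
    dec_fac (tw_filt h.filt) (v := (w, false)) (w := (w', false)) (RD.Z_fac_Q t _ _ hw) h4]

theorem mn4_inc {M : ℕ} {v : Fin (M + 1) × Fin (M + 1) × Fin (M + 1) × Fin (M + 1)} {t : ℕ} {w : Om}
    (hm : S.mn4 v t w) : S.mn4 v (t + 1) w :=
  ⟨mng_inc hm.1, mng_inc hm.2.1, mng_inc hm.2.2.1, mng_inc hm.2.2.2⟩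

theorem dcd_stay {M : ℕ} {v : Fin (M + 1) × Fin (M + 1) × Fin (M + 1) × Fin (M + 1)} {t : ℕ} {w : Om}
    (hm : S.mn4 v t w) : S.dcd v (t + 1) w = S.dcd v t w := by
  unfold dcd
  rw [dec_stay hm.1, dec_stay hm.2.1, dec_stay hm.2.2.1, dec_stay hm.2.2.2]

/-- decoding of a component -/
theorem dec_cp {ι : ℕ → Type*} {L : Type*} {Y : ∀ t, Om → ι t} {x : ℕ → Om → Bool → L} (hY : Filt Y) {M t : ℕ}
    {w : Om} (h : ¬ ovf (tw Y) (cp x) M t (w, false)) (i : Bool) :
    mng (tw Y) (cp x) (num (tw Y) (cp x) M t (w, i)) t (w, false) ∧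
      dec (tw Y) (cp x) (num (tw Y) (cp x) M t (w, i)) t (w, false) = x t w i := by
  have h' : ¬ ovf (tw Y) (cp x) M t (w, i) := by
    rwa [ovf_iff (tw_filt hY) M t (v := (w, i)) (w := (w, false)) rfl]
  have h1 := num_mng h'
  have h2 := dec_num h'
  have h3 : mng (tw Y) (cp x) (num (tw Y) (cp x) M t (w, i)) t (w, false) := by
    rwa [mng_iff (tw_filt hY) _ t (v := (w, false)) (w := (w, i)) rfl]
  refine ⟨h3, ?_⟩
  rw [dec_fac (tw_filt hY) (v := (w, false)) (w := (w, i)) rfl h1]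
  exact h2

/-- the numbered true value, decoded -/
theorem dcd_vt (H : S.HypR ix) {M t : ℕ} {w : Om} (h : ¬ S.ovf4 M t w) :
    S.mn4 ((S.numd ix M).vt t w) t w ∧ S.dcd ((S.numd ix M).vt t w) t w = S.vt t w := by
  unfold ovf4 at h
  push Not at h
  obtain ⟨h1, h2, h3, h4⟩ := h
  have k2 := dec_cp (RD.ZB_filt H.hyp.filt) h2 (ix t w)
  have k3 := dec_cp (RD.ZC_filt H.hyp.filt) h3 (ix t w)
  have k4 := dec_cp H.hyp.filt h4 (ix t w)
  refine ⟨⟨num_mng h1, k2.1, k3.1, k4.1⟩, ?_⟩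
  show (dec S.toRD.Z S.e (num S.toRD.Z S.e M t w) t w,
    dec (tw S.toRD.ZB) (cp S.f) (num (tw S.toRD.ZB) (cp S.f) M t (w, ix t w)) t (w, false),
    dec (tw S.toRD.ZC) (cp S.g) (num (tw S.toRD.ZC) (cp S.g) M t (w, ix t w)) t (w, false),
    dec (tw S.Q) (cp S.u) (num (tw S.Q) (cp S.u) M t (w, ix t w)) t (w, false)) =
    (S.e t w, S.fp t w, S.gp t w, S.up t w)
  rw [dec_num h1, k2.2, k3.2, k4.2, H.fpx, H.gpx, H.upx]

theorem numd_hyp (h : S.HypR ix) (M : ℕ) : (S.numd ix M).HypT := by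
  classical
  have hZB := RD.ZB_filt (R := S.toRD) h.hyp.filt
  have hZC := RD.ZC_filt (R := S.toRD) h.hyp.filt
  have hyp : (S.numd ix M).toRD.Hyp := by
    refine ⟨h.hyp.filt, ?_, ?_, ?_, h.hyp.iB, h.hyp.iC, h.hyp.iBC, h.hyp.iCB, h.hyp.dbl, h.hyp.al0, h.hyp.be0,
      h.hyp.ab, h.hyp.be1⟩
    · intro t v w hv
      have hv' := hv
      simp only [Prod.mk.injEq] at hv'
      funext i
      refine num_fac (tw_filt hZB) (Z := fun p : Om × Bool => ((S.A p.1, S.B p.1, S.Q t p.1), p.2)) ?_ ?_ M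
        (v, i) (w, i) ?_
      · intro p q hpq
        simp only [Prod.mk.injEq] at hpq
        show S.toRD.ZB t p.1 = S.toRD.ZB t q.1
        unfold RD.ZB
        rw [hpq.1.2.1, hpq.1.2.2]
      · intro p q hpq
        have h1 := h.hyp.ff t p.1 q.1 (Prod.mk.inj hpq).1
        show S.f t p.1 p.2 = S.f t q.1 q.2
        rw [h1, (Prod.mk.inj hpq).2]
      · exact Prod.ext hv rfl
    · intro t v w hv
      funext i
      refine num_fac (tw_filt hZC) (Z := fun p : Om × Bool => ((S.A p.1, S.C p.1, S.Q t p.1), p.2)) ?_ ?_ M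
        (v, i) (w, i) ?_
      · intro p q hpq
        simp only [Prod.mk.injEq] at hpq
        show S.toRD.ZC t p.1 = S.toRD.ZC t q.1
        unfold RD.ZC
        rw [hpq.1.2.1, hpq.1.2.2]
      · intro p q hpq
        have h1 := h.hyp.fg t p.1 q.1 (Prod.mk.inj hpq).1
        show S.g t p.1 p.2 = S.g t q.1 q.2
        rw [h1, (Prod.mk.inj hpq).2]
      · exact Prod.ext hv rfl
    · intro t v w hv
      funext i
      refine num_fac (tw_filt h.hyp.filt) (Z := fun p : Om × Bool => ((S.A p.1, S.Q t p.1), p.2)) ?_ ?_ M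
        (v, i) (w, i) ?_
      · intro p q hpq
        simp only [Prod.mk.injEq] at hpq
        exact hpq.1.2
      · intro p q hpq
        have h1 := h.hyp.fu t p.1 q.1 (Prod.mk.inj hpq).1
        show S.u t p.1 p.2 = S.u t q.1 q.2
        rw [h1, (Prod.mk.inj hpq).2]
      · exact Prod.ext hv rfl
  refine ⟨hyp, ?_, ?_, ?_, ?_, ?_, ?_, ?_, ?_, ?_, ?_, ?_, ?_, h.Lam0, h.eta0⟩
  · intro t
    exact num_fac (RD.Z_filt h.hyp) (Fac.refl _) (h.fe t) M
  · intro t v w hv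
    have h1 := congrArg Prod.fst hv
    have h2 := h.ixf t v w (congrArg Prod.snd hv)
    have h3 := congrFun h1 (ix t w)
    show num (tw S.toRD.ZB) (cp S.f) M t (v, ix t v) = num (tw S.toRD.ZB) (cp S.f) M t (w, ix t w)
    rw [h2]
    exact h3
  · intro t v w hv
    have h1 := congrArg Prod.fst hv
    have h2 := h.ixf t v w (congrArg Prod.snd hv)
    have h3 := congrFun h1 (ix t w)
    show num (tw S.toRD.ZC) (cp S.g) M t (v, ix t v) = num (tw S.toRD.ZC) (cp S.g) M t (w, ix t w)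
    rw [h2]
    exact h3
  · intro t v w hv
    have h1 := congrArg Prod.fst hv
    have h2 := h.ixf t v w (congrArg Prod.snd hv)
    have h3 := congrFun h1 (ix t w)
    show num (tw S.Q) (cp S.u) M t (v, ix t v) = num (tw S.Q) (cp S.u) M t (w, ix t w)
    rw [h2]
    exact h3
  · intro t w hw hd hf
    have hd' : ¬ (S.D0 (t + 1) w ∨ S.ovf4 M (t + 1) w) := hd
    unfold ovf4 at hd'
    push Not at hd'
    have hff : S.f (t + 1) w = S.f t w := by
      funext i
      refine val_of_num (Y := S.toRD.ZB) (M := M) ?_ (congrFun hf i)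
      rw [ovf_iff (tw_filt hZB) M (t + 1) (v := (w, i)) (w := (w, false)) rfl]
      exact hd'.2.2.1
    have h1 := h.cf t w hw hd'.1 hff
    rw [h.fpx, h.fpx] at h1
    exact num_val_stay hZB h1
  · intro t w hw hd hf
    have hd' : ¬ (S.D0 (t + 1) w ∨ S.ovf4 M (t + 1) w) := hd
    unfold ovf4 at hd'
    push Not at hd'
    have hff : S.g (t + 1) w = S.g t w := by
      funext i
      refine val_of_num (Y := S.toRD.ZC) (M := M) ?_ (congrFun hf i)
      rw [ovf_iff (tw_filt hZC) M (t + 1) (v := (w, i)) (w := (w, false)) rfl]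
      exact hd'.2.2.2.1
    have h1 := h.cg t w hw hd'.1 hff
    rw [h.gpx, h.gpx] at h1
    exact num_val_stay hZC h1
  · intro t w hw hd hf
    have hd' : ¬ (S.D0 (t + 1) w ∨ S.ovf4 M (t + 1) w) := hd
    unfold ovf4 at hd'
    push Not at hd'
    have hff : S.u (t + 1) w = S.u t w := by
      funext i
      refine val_of_num (Y := S.Q) (M := M) ?_ (congrFun hf i)
      rw [ovf_iff (tw_filt h.hyp.filt) M (t + 1) (v := (w, i)) (w := (w, false)) rfl]
      exact hd'.2.2.2.2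
    have h1 := h.cu t w hw hd'.1 hff
    rw [h.upx, h.upx] at h1
    exact num_val_stay h.hyp.filt h1
  · intro v t w w' hw
    show (if S.mn4 v t w then S.K (S.dcd v t w) t w else 0) = (if S.mn4 v t w' then S.K (S.dcd v t w') t w' else 0)
    by_cases hm : S.mn4 v t w'
    · rw [if_pos hm, if_pos ((mn4_iff h.hyp hw).2 hm), dcd_fac h.hyp hw hm]
      exact h.Kf _ t w w' hw
    · rw [if_neg hm, if_neg (fun h' => hm ((mn4_iff h.hyp hw).1 h'))]
  · intro v t w hw
    show |if S.mn4 v t w then S.K (S.dcd v t w) t w else 0| ≤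
      S.P.ce (S.toRD.Z t) (fun z => |if S.mn4 v (t + 1) z then S.K (S.dcd v (t + 1) z) (t + 1) z else 0|) w
    by_cases hm : S.mn4 v t w
    · rw [if_pos hm]
      refine (h.Ks _ t w hw (occ_dcd hm)).trans (le_of_eq ?_)
      unfold FP.ce
      congr 1
      refine S.P.E_congr fun z hz => ?_
      by_cases hzw : S.toRD.Z t z = S.toRD.Z t w
      · have hm' : S.mn4 v t z := (mn4_iff h.hyp hzw).2 hm
        have e1 : S.dcd v (t + 1) z = S.dcd v t w := by rw [dcd_stay hm', dcd_fac h.hyp hzw hm]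
        show ind (S.toRD.Z t z = S.toRD.Z t w) * |S.K (S.dcd v t w) (t + 1) z| =
          ind (S.toRD.Z t z = S.toRD.Z t w) *
            |if S.mn4 v (t + 1) z then S.K (S.dcd v (t + 1) z) (t + 1) z else 0|
        rw [if_pos (mn4_inc hm'), e1]
      · rw [ind_not hzw, zero_mul, zero_mul]
    · rw [if_neg hm, abs_zero]
      exact S.P.ce_nonneg (fun _ _ => abs_nonneg _) w
  · intro v t w hw
    show |if S.mn4 v t w then S.K (S.dcd v t w) t w else 0| ≤ S.Lam
    by_cases hm : S.mn4 v t w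
    · rw [if_pos hm]
      exact h.Kb _ t w hw (occ_dcd hm)
    · rw [if_neg hm, abs_zero]
      exact h.Lam0
  · intro t w hw hd
    rcases hd with hd | hd
    · exact Or.inl (h.D0i t w hw hd)
    · exact Or.inr (ovf4_inc M t w hd)
  · intro t w hw hd
    have hd' : ¬ (S.D0 t w ∨ S.ovf4 M t w) := hd
    push Not at hd'
    obtain ⟨h1, h2⟩ := dcd_vt h hd'.2
    have h3 := h.TX t w hw hd'.1
    show |S.T t w - (if S.mn4 ((S.numd ix M).vt t w) t w then
      S.K (S.dcd ((S.numd ix M).vt t w) t w) t w else 0)| ≤ S.eta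
    rw [if_pos h1, h2]
    exact h3

end

end RT

end Pool.Agent.M3
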