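import Pool.Agent.M3.NVP
import Pool.Agent.M3.RdNum

/-!
# M3.RdRaw: the raw process by numbering (helper7)

`RawR` : labels of any type (`RT.HypR` in the model, time `0` is a dummy); `raw_numd : RawR -> Raw` for the numbered
process `S.numd ix M`.
* `rlst_len_chg` : the list of a public label has at most `1 + number of changes` values;
* `num_mng'` : recorded numbers have a meaning.
-/

set_option autoImplicit false
set_option linter.unusedSectionVars false

namespace Pool.Agent.M3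

open Finset Pool.Agent.PWZ

section lists

variable {Om : Type*} [Fintype Om] {ι : ℕ → Type*} {L : Type*} {Y : ∀ t, Om → ι t} {x : ℕ → Om → L}

/-- the list of a public label has at most `1 + number of changes` values -/
theorem rlst_len_chg (hx : ∀ t, Fac (Y t) (x t)) (t : ℕ) (w : Om) :
    (rlst Y x t w).length ≤ 1 + Nz.cn (fun s => x (s + 1) w ≠ x s w) t := by
  classical
  have hv : ∀ t, rvals Y x t w = {x t w} := by
    intro t
    ext l
    rw [mem_vals, Finset.mem_singleton]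
    constructor
    · rintro ⟨w', h1, h2⟩
      rw [← h2]
      exact hx t w' w h1
    · intro h
      exact ⟨w, rfl, h.symm⟩
  induction t with
  | zero =>
    unfold rlst
    rw [hv 0, Finset.length_toList, Finset.card_singleton]
    omega
  | succ t ih =>
    unfold rlst
    rw [List.length_append, Finset.length_toList, hv (t + 1)]
    by_cases h : x (t + 1) w ≠ x t w
    · rw [Nz.cn_succ_of h]
      have h1 : (({x (t + 1) w} : Finset L) \ (rlst Y x t w).toFinset).card ≤ 1 := by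
        refine (Finset.card_le_card Finset.sdiff_subset).trans ?_
        rw [Finset.card_singleton]
      omega
    · rw [Nz.cn_succ_not h]
      push Not at h
      have h1 : ({x (t + 1) w} : Finset L) \ (rlst Y x t w).toFinset = ∅ := by
        rw [Finset.sdiff_eq_empty_iff_subset, h, Finset.singleton_subset_iff, List.mem_toFinset]
        exact mem_rlst_self t w
      rw [h1, Finset.card_empty]
      omega

/-- the number has a meaning, also when the list overflows -/
theorem num_mng' (M t : ℕ) (w : Om) : mng Y x (num Y x M t w) t w := by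
  classical
  unfold mng num
  simp only
  exact lt_of_le_of_lt (min_le_left _ _) (List.idxOf_lt_length_iff.2 (mem_rlst_self t w))

theorem mng_le {M : ℕ} {n : Fin (M + 1)} {s t : ℕ} (hst : s ≤ t) {w : Om} (h : mng Y x n s w) : mng Y x n t w :=
  lt_of_lt_of_le h (rlst_length_mono hst w)

/-- a label of type `Unit` has the number `0` -/
theorem num_unit {y : ℕ → Om → Unit} (M t : ℕ) (w : Om) : num Y y M t w = 0 := by
  classical
  have h1 : (rlst Y y t w).length ≤ 1 := by
    rw [← List.toFinset_card_of_nodup (rlst_nodup t w)]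
    exact (Finset.card_le_univ _).trans (by simp)
  have h2 : ((num Y y M t w : Fin (M + 1)) : ℕ) < (rlst Y y t w).length := num_mng' M t w
  refine Fin.ext ?_
  show ((num Y y M t w : Fin (M + 1)) : ℕ) = ((0 : Fin (M + 1)) : ℕ)
  rw [Fin.val_zero]
  omega

end lists

namespace Mod

open Pool.Agent.M3.Bin

variable {k N : ℕ} {Θ Ξ : Type} [Fintype Θ] [Nonempty Θ] [Fintype Ξ] [Nonempty Ξ]

/-- the type of the process with labels of any type -/
abbrev RTa (k N : ℕ) (Θ Ξ : Type) [Fintype Θ] [Fintype Ξ] (i : Fin 3) (E F' G' : Type) :=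
  RT (Sp k N 3 Θ Ξ) (fun _ => Θ × (V k × ℕ) × ({a : Fin 3 // a ≠ i} → V k)) (Ξ × V k) (Ξ × V k) (Ξ × V k)
    (Bool → F') (Bool → G') (Bool → Unit) E F' G' Unit

/-- HYPOTHESES ON THE PROCESS, labels of any type -/
structure RawR {E F' G' : Type} (i j l : Fin 3) (h : ℕ) (R : Fin 3 → Fam2 k Unit)
    (S : RTa k N Θ Ξ i E F' G') (ix : ℕ → Sp k N 3 Θ Ξ → Bool) (dK : E × F' × G' × Unit → ℕ → Sp k N 3 Θ Ξ → ℝ)
    (M : ℕ) (ne nf q0 q1 : ℝ) : Prop where
  hij : j ≠ i
  hli : l ≠ i
  hlj : l ≠ j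
  hyp : S.HypR ix
  rd : S.toRD = mdl i j l h S.f S.g S.u S.al S.be
  T : ∀ t w, S.T t w = TZ h (fun a => liftF (R a)) t w
  T8 : ∀ t w, |S.T t w| ≤ 8
  eta : S.eta < 1 / 2
  chE : ∀ t w, S.e (t + 1) w ≠ S.e t w → chE h i (liftF (R i)) t w
  zer : ∀ t w, fz h i (liftF (R i)) t w = 0 → ∀ v : E × F' × G' × Unit, v.1 = S.e t w → S.K v t w = 0
  dKf : ∀ v t, Fac (S.toRD.Z t) (dK v t)
  step : ∀ v t w, S.occ v t w → S.K v (t + 1) w = S.K v t w + Dg (ex N (t + 1)) w * dK v t w
  eM : ∀ t w, Nz.cn (fun s => S.e (s + 1) w ≠ S.e s w) t < M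
  D0q : Pm.Pr (S.D0 N) ≤ q0
  ovq : Pm.Pr (fun w => ovf (tw S.toRD.ZB) (cp S.f) M N (w, false) ∨ ovf (tw S.toRD.ZC) (cp S.g) M N (w, false)) ≤ q1
  eJ : ∑ t ∈ range N, Pm.Pr (fun w : Sp k N 3 Θ Ξ => Mod.chE h i (liftF (R i)) t w) ≤ ne
  fJ : ∑ t ∈ range N, Pm.Pr (fun w => S.f (t + 1) w ≠ S.f t w) ≤ nf
  gJ : ∑ t ∈ range N, Pm.Pr (fun w => S.g (t + 1) w ≠ S.g t w) ≤ nf

variable {i j l : Fin 3} {E F' G' : Type} {h : ℕ} {R : Fin 3 → Fam2 k Unit} {S : RTa k N Θ Ξ i E F' G'}
    {ix : ℕ → Sp k N 3 Θ Ξ → Bool} {dK : E × F' × G' × Unit → ℕ → Sp k N 3 Θ Ξ → ℝ} {M : ℕ} {ne nf q0 q1 : ℝ}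

open Classical in
/-- the free step of the numbered process -/
noncomputable def dKn (S : RTa k N Θ Ξ i E F' G') (dK : E × F' × G' × Unit → ℕ → Sp k N 3 Θ Ξ → ℝ) (M : ℕ)
    (v : Fin (M + 1) × Fin (M + 1) × Fin (M + 1) × Fin (M + 1)) (t : ℕ) (w : Sp k N 3 Θ Ξ) : ℝ :=
  if S.mn4 v t w then dK (S.dcd v t w) t w else 0

/-- the recorded numbers have a meaning -/
theorem mn4_vr (hQ : Filt S.Q) (t : ℕ) (w : Sp k N 3 Θ Ξ) : S.mn4 ((S.numd ix M).vr t w) t w := by
  have hB : ∀ t (q : Bool), mng (tw S.toRD.ZB) (cp S.f) (num (tw S.toRD.ZB) (cp S.f) M t (w, q)) t (w, false) := by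
    intro t q
    rw [mng_iff (tw_filt (RD.ZB_filt hQ)) _ t (v := (w, false)) (w := (w, q)) rfl]
    exact num_mng' M t (w, q)
  have hC : ∀ t (q : Bool), mng (tw S.toRD.ZC) (cp S.g) (num (tw S.toRD.ZC) (cp S.g) M t (w, q)) t (w, false) := by
    intro t q
    rw [mng_iff (tw_filt (RD.ZC_filt hQ)) _ t (v := (w, false)) (w := (w, q)) rfl]
    exact num_mng' M t (w, q)
  have hU : ∀ t (q : Bool), mng (tw S.Q) (cp S.u) (num (tw S.Q) (cp S.u) M t (w, q)) t (w, false) := by
    intro t q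
    rw [mng_iff (tw_filt hQ) _ t (v := (w, false)) (w := (w, q)) rfl]
    exact num_mng' M t (w, q)
  have h2 : ∀ t, mng (tw S.toRD.ZB) (cp S.f) ((S.numd ix M).rfp t w) t (w, false) := by
    intro t
    induction t with
    | zero => exact hB 0 (ix 0 w)
    | succ t ih =>
      unfold RT.rfp
      by_cases hc : (S.numd ix M).toRD.pp t w ∨ (S.numd ix M).toRD.pf t w
      · rw [if_pos hc]; exact hB (t + 1) (ix (t + 1) w)
      · rw [if_neg hc]; exact mng_inc ih
  have h3 : ∀ t, mng (tw S.toRD.ZC) (cp S.g) ((S.numd ix M).rgp t w) t (w, false) := by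
    intro t
    induction t with
    | zero => exact hC 0 (ix 0 w)
    | succ t ih =>
      unfold RT.rgp
      by_cases hc : (S.numd ix M).toRD.pp t w ∨ (S.numd ix M).toRD.pg t w
      · rw [if_pos hc]; exact hC (t + 1) (ix (t + 1) w)
      · rw [if_neg hc]; exact mng_inc ih
  have h4 : ∀ t, mng (tw S.Q) (cp S.u) ((S.numd ix M).rup t w) t (w, false) := by
    intro t
    induction t with
    | zero => exact hU 0 (ix 0 w)
    | succ t ih =>
      unfold RT.rup
      by_cases hc : (S.numd ix M).toRD.pp t w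
      · rw [if_pos hc]; exact hU (t + 1) (ix (t + 1) w)
      · rw [if_neg hc]; exact mng_inc ih
  exact ⟨num_mng' M t w, h2 t, h3 t, h4 t⟩

theorem mdl_of {F G U : Type} {i j l : Fin 3} {h : ℕ}
    {R : RD (Sp k N 3 Θ Ξ) (fun _ => Θ × (V k × ℕ) × ({a : Fin 3 // a ≠ i} → V k)) (Ξ × V k) (Ξ × V k) (Ξ × V k)
      F G U} (e1 : R.P = Pm) (e2 : R.Q = fun t => Qn i h (ex N t)) (e3 : R.A = vx i) (e4 : R.B = vx j)
    (e5 : R.C = vx l) : R = mdl i j l h R.f R.g R.u R.al R.be := by
  cases R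
  simp only at e1 e2 e3 e4 e5
  subst e1 e2 e3 e4 e5
  rfl

/-- THE NUMBERED PROCESS IS A RAW PROCESS -/
theorem raw_numd (H : RawR i j l h R S ix dK M ne nf q0 q1) :
    Raw i j l h R (S.numd ix M) ix (dKn S dK M) 0 ne nf (q0 + q1) := by
  classical
  have hQ := H.hyp.hyp.filt
  have hP : S.P = Pm := congrArg RD.P H.rd
  have hlen : ∀ t w, (rlst S.toRD.Z S.e t w).length ≤ M := by
    intro t w
    have h1 := rlst_len_chg (Y := S.toRD.Z) (x := S.e) H.hyp.fe t w
    have h2 := H.eM t w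
    omega
  have hunit : ∀ t (p : Sp k N 3 Θ Ξ × Bool), num (tw S.Q) (cp S.u) M t p = 0 := fun t p => num_unit M t p
  refine
    { hij := H.hij
      hli := H.hli
      hlj := H.hlj
      hyp := RT.numd_hyp H.hyp M
      rd := ?_
      ixf := H.hyp.ixf
      fpx := fun _ _ => rfl
      gpx := fun _ _ => rfl
      up := fun t w => hunit t (w, ix t w)
      uc := fun t w => ?_
      T := H.T
      T8 := H.T8
      eta := H.eta
      chE := fun t w hw => H.chE t w (RT.numd_e hw)
      zer := ?_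
      dKf := ?_
      step := ?_
      D0q := ?_
      eJ := H.eJ
      fJ := ?_
      gJ := ?_ }
  · exact mdl_of (R := (S.numd ix M).toRD) hP (congrArg RD.Q H.rd) (congrArg RD.A H.rd) (congrArg RD.B H.rd)
      (congrArg RD.C H.rd)
  · funext q
    show num (tw S.Q) (cp S.u) M (t + 1) (w, q) = num (tw S.Q) (cp S.u) M t (w, q)
    rw [hunit, hunit]
  · intro t w hz v hv
    show (if S.mn4 v t w then S.K (S.dcd v t w) t w else 0) = 0
    by_cases hm : S.mn4 v t w
    · rw [if_pos hm]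
      refine H.zer t w hz _ ?_
      show dec S.toRD.Z S.e v.1 t w = S.e t w
      have h1 : v.1 = num S.toRD.Z S.e M t w := hv
      rw [h1]
      exact dec_num (not_lt.2 (hlen t w))
    · rw [if_neg hm]
  · intro v t x y hv
    have hv' : S.toRD.Z t x = S.toRD.Z t y := hv
    unfold dKn
    by_cases hm : S.mn4 v t y
    · rw [if_pos hm, if_pos ((RT.mn4_iff H.hyp.hyp hv').2 hm), RT.dcd_fac H.hyp.hyp hv' hm]
      exact H.dKf _ t x y hv'
    · rw [if_neg hm, if_neg (fun h' => hm ((RT.mn4_iff H.hyp.hyp hv').1 h'))]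
  · intro t w
    have hm : S.mn4 ((S.numd ix M).vr t w) t w := mn4_vr hQ t w
    have hm' := RT.mn4_inc hm
    show (if S.mn4 ((S.numd ix M).vr t w) (t + 1) w then S.K (S.dcd ((S.numd ix M).vr t w) (t + 1) w) (t + 1) w
      else 0) = (if S.mn4 ((S.numd ix M).vr t w) t w then S.K (S.dcd ((S.numd ix M).vr t w) t w) t w else 0) +
        Dg (ex N (t + 1)) w * (if S.mn4 ((S.numd ix M).vr t w) t w then dK (S.dcd ((S.numd ix M).vr t w) t w) t w
          else 0)
    rw [if_pos hm, if_pos hm', if_pos hm, RT.dcd_stay hm]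
    exact H.step _ t w (RT.occ_dcd hm)
  · have h1 := Pm.Pr_or_le (S.D0 N) (fun w => ovf (tw S.toRD.ZB) (cp S.f) M N (w, false) ∨
      ovf (tw S.toRD.ZC) (cp S.g) M N (w, false))
    refine le_trans (Pm.Pr_mono fun w _ hw => ?_) (h1.trans (add_le_add H.D0q H.ovq))
    have hw' : S.D0 N w ∨ S.ovf4 M N w := hw
    rcases hw' with hw' | hw' | hw' | hw' | hw'
    · exact Or.inl hw'
    · exact absurd hw' (not_lt.2 (hlen N w))
    · exact Or.inr (Or.inl hw')
    · exact Or.inr (Or.inr hw')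
    · exfalso
      have h2 : (rlst (tw S.Q) (cp S.u) N (w, false)).length ≤ 1 := by
        rw [← List.toFinset_card_of_nodup (rlst_nodup N (w, false))]
        exact (Finset.card_le_univ _).trans (by simp)
      have h3 : M < (rlst (tw S.Q) (cp S.u) N (w, false)).length := hw'
      have h4 := H.eM 0 w
      omega
  · refine (Finset.sum_le_sum fun t _ => Pm.Pr_mono fun w _ hw => ?_).trans H.fJ
    exact RT.numd_f hQ hw
  · refine (Finset.sum_le_sum fun t _ => Pm.Pr_mono fun w _ hw => ?_).trans H.gJ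
    exact RT.numd_g hQ hw

end Mod

end Pool.Agent.M3
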