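import Pool.Agent.M3.RdOut
import Pool.Agent.M3.RdRaw

/-!
# M3.RdOutR : `RawR` from the output of section 2 (helper52)

* `abs_TZ_le` : `|TZ| ≤ 8`; `dKo` : the free step of `outRT`;
* **`rawR_of_out`** : the process `outRT O c (TZ h (liftF R)) al be` satisfies `RawR` (labels of any type), hence
  `raw_numd` gives `Raw` for the numbered process.
-/

set_option autoImplicit false
set_option linter.unusedSectionVars false

namespace Pool.Agent.M3

open Finset Pool.Agent.PWZ

namespace Mod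

open Pool.Agent.M3.Bin Pool.Agent.M3.TS Pool.Agent.M3.S2

noncomputable section

variable {k N : ℕ}

section tz

variable {P : Type}

/-- three families bounded by `2` -/
theorem abs_TZ_le (h : ℕ) {Θ : Type} {R : Fin 3 → Fam2 k P} (hR : ∀ a e g x y d, |R a e g x y d| ≤ 2) (t : ℕ)
    (w : Sp k N 3 Θ P) : |TZ h R t w| ≤ 8 := by
  unfold TZ
  by_cases ht : t = 0
  · rw [if_pos ht, abs_zero]
    norm_num
  · rw [if_neg ht]
    unfold TT3
    refine abs_av_le _ _ fun d => ?_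
    rw [Fin.prod_univ_three, abs_mul, abs_mul]
    unfold fv
    have h0 := hR 0 (ex N t) (Gm h (ex N t) w) (vx (0 + 1) w) (vx (0 + 2) w) d
    have h1 := hR 1 (ex N t) (Gm h (ex N t) w) (vx (1 + 1) w) (vx (1 + 2) w) d
    have h2 := hR 2 (ex N t) (Gm h (ex N t) w) (vx (2 + 1) w) (vx (2 + 2) w) d
    calc _ ≤ (2 : ℝ) * 2 * 2 := mul_le_mul (mul_le_mul h0 h1 (abs_nonneg _) (by norm_num)) h2 (abs_nonneg _)
          (by norm_num)
      _ = 8 := by norm_num

/-- the known face at the times `> N` -/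
theorem fz_min {Θ : Type} (h : ℕ) (i : Fin 3) (R : Fam2 k P) {t : ℕ} {w : Sp k N 3 Θ P} (h0 : fz h i R t w = 0) :
    fz h i R (min t N) w = 0 := by
  rcases Nat.lt_or_ge N t with ht | ht
  · rw [min_eq_right ht.le]
    unfold fz at h0 ⊢
    by_cases hN : N = 0
    · rw [if_pos hN]
    · rw [if_neg hN]
      rw [if_neg (by omega)] at h0
      have h1 : ex N N = ex N t := by unfold ex; omega
      rw [h1]
      exact h0
  · rw [min_eq_left ht]
    exact h0

end tz

variable {Θ Ξ Q' : Type} [Fintype Θ] [Nonempty Θ] [Fintype Ξ] [Nonempty Ξ] [Fintype Q'] [Nonempty Q']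
  {i j l : Fin 3} {hij : j ≠ i} {hli : l ≠ i} {hlj : l ≠ j} {hN : N ≤ k} {h : ℕ}
  {TT : ℕ → Sp k N 3 Θ (Ξ × Q') → ℝ} {E : ℕ → Θ × (V k × ℕ) → Q' × V k → Q' × V k → V k → ℝ} {eps q Lam J : ℝ} {M : ℕ}

/-- the free step -/
def dKo (O : S2.Out (tri Θ Ξ Q' hij hli hlj hN h) (fun t => Qn i h (ex N t)) TT E eps q Lam J M) (c : ℝ)
    (v : ((Q' × V k) × (V k → ℝ)) × (O.F' × Bool) × (O.G' × Bool) × Unit) (t : ℕ) (w : Sp k N 3 Θ (Ξ × Q')) : ℝ :=
  if t < N then c * dl (ex N (t + 1)) (Yn (ex N t) w).1 (O.Phi v.1.1 v.1.2 v.2.1.1 v.2.2.1.1) else 0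

variable (O : S2.Out (tri Θ Ξ Q' hij hli hlj hN h) (fun t => Qn i h (ex N t)) TT E eps q Lam J M) {al be c : ℝ}
  {R : Fin 3 → Fam2 k Unit}

theorem cn_sum_ind (p : ℕ → Prop) (n : ℕ) : (Nz.cn p n : ℝ) = ∑ t ∈ range n, ind (p t) := by
  induction n with
  | zero => rw [Nz.cn_zero]; simp
  | succ n ih =>
    rw [Finset.sum_range_succ, ← ih]
    by_cases hp : p n
    · rw [Nz.cn_succ_of hp, ind_of hp]
      push_cast
      ring
    · rw [Nz.cn_succ_not hp, ind_not hp, add_zero]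

/-- **`RawR` from the output of section 2** -/
theorem rawR_of_out (hc : 0 < c) (hE : ∀ t g b c d, |E t g b c d| ≤ 1) (heps : 0 ≤ eps) (heta : c * eps < 1 / 2)
    (al0 : 0 < al) (be0 : 0 < be) (ab : al ≤ be ^ 2) (be1 : be ≤ 1)
    (hEz : ∀ t ≤ N, ∀ (w : Sp k N 3 Θ (Ξ × Q')) d, fz h i (liftF (R i)) t w d =
      2 * E t (gq h (ex N t) w) (vq j w) (vq l w) d)
    (hT8 : ∀ t (w : Sp k N 3 Θ (Ξ × Q')), |TZ h (fun a => liftF (R a)) t w| ≤ 8) {qb : ℝ}
    (hbad : Pm.Pr (fun w : Sp k N 3 Θ (Ξ × Q') => ∃ t ≤ N, TZ h (fun a => liftF (R a)) t w ≠ c * TT t w) ≤ qb) {p0 : ℝ}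
    (hp : ∀ w : Sp k N 3 Θ (Ξ × Q'), ∑ t ∈ range N, ind (chE h i (liftF (R i)) t w) ≤ p0) {M' : ℕ}
    (hM1 : 2 * M ≤ M') (hM2 : p0 + 1 ≤ M') :
    RawR i j l h R (outRT O c (TZ h (fun a => liftF (R a))) al be) (oix i j l hij hli hlj hN h) (dKo O c) M' p0
      (4 * J + 1) (q + qb) (2 * q) := by
  have hEeq : ∀ t ≤ N, ∀ w : Sp k N 3 Θ (Ξ × Q'), (fun d => 2 * E t (gq h (ex N t) w) (vq j w) (vq l w) d) =
      fz h i (liftF (R i)) t w := fun t ht w => funext fun d => (hEz t ht w d).symm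
  -- the changes of the known label
  have hch : ∀ t (w : Sp k N 3 Θ (Ξ × Q')), (outRT O c (TZ h (fun a => liftF (R a))) al be).e (t + 1) w ≠
      (outRT O c (TZ h (fun a => liftF (R a))) al be).e t w → t < N ∧ chE h i (liftF (R i)) t w := by
    intro t w h1
    rcases Nat.lt_or_ge t N with ht | ht
    · refine ⟨ht, fun h2 => h1 ?_⟩
      show (vq j w, E (min (t + 1) N) (gq h (ex N (t + 1)) w) (vq j w) (vq l w)) =
        (vq j w, E (min t N) (gq h (ex N t) w) (vq j w) (vq l w))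
      rw [min_eq_left (show t + 1 ≤ N by omega), min_eq_left ht.le]
      refine Prod.ext rfl (funext fun d => ?_)
      have h3 := hEz (t + 1) ht w d
      have h4 := hEz t ht.le w d
      rw [h2, h4] at h3
      linarith
    · exfalso
      apply h1
      have h5 : ex N (t + 1) = ex N t := by unfold ex; omega
      show (vq j w, E (min (t + 1) N) (gq h (ex N (t + 1)) w) (vq j w) (vq l w)) =
        (vq j w, E (min t N) (gq h (ex N t) w) (vq j w) (vq l w))
      rw [min_eq_right (show N ≤ t + 1 by omega), min_eq_right ht, h5]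
  have hpE : ∀ w : Sp k N 3 Θ (Ξ × Q'), ∑ t ∈ range N, ind (E (t + 1) (gq h (ex N (t + 1)) w) (vq j w) (vq l w) ≠
      E t (gq h (ex N t) w) (vq j w) (vq l w)) ≤ p0 := by
    intro w
    refine (Finset.sum_le_sum fun t ht => ind_mono fun h1 h2 => h1 (funext fun d => ?_)).trans (hp w)
    have ht' := Finset.mem_range.1 ht
    have h3 := hEz (t + 1) ht' w d
    have h4 := hEz t ht'.le w d
    rw [h2, h4] at h3
    linarith
  have hp00 : 0 ≤ p0 := by
    obtain ⟨w0⟩ : Nonempty (Sp k N 3 Θ (Ξ × Q')) := inferInstance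
    exact (Finset.sum_nonneg fun _ _ => ind_nonneg _).trans (hp w0)
  have hM3 : 1 ≤ M' := by
    have : (1 : ℝ) ≤ M' := by linarith
    exact_mod_cast this
  refine ⟨hij, hli, hlj, outRT_hyp O hc.le hE heps al0 be0 ab be1, rfl, fun _ _ => rfl, hT8, heta,
    fun t w h1 => (hch t w h1).2, ?_, ?_, ?_, ?_, outRT_D0 O hc hbad, ?_, ?_, outRT_chf O, outRT_chg O⟩
  · -- zer
    intro t w h0 v hv
    have h1 := fz_min h i (liftF (R i)) h0
    have h2 : ∀ d, E (min t N) (gq h (ex N t) w) (vq j w) (vq l w) d = 0 := by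
      intro d
      have h3 := hEz (min t N) (min_le_right _ _) w d
      rw [h1, ex_min] at h3
      have h4 : (0 : ℝ) = 2 * E (min t N) (gq h (ex N t) w) (vq j w) (vq l w) d := h3
      linarith
    have h3 : v.1.2 = E (min t N) (gq h (ex N t) w) (vq j w) (vq l w) := by rw [hv]; rfl
    show c * iw (Wd (ex N t) (Yn (ex N t) w).1) (fun _ => 1) (O.Phi v.1.1 v.1.2 v.2.1.1 v.2.2.1.1) = 0
    have h4 : O.Phi v.1.1 v.1.2 v.2.1.1 v.2.2.1.1 = fun _ => 0 := by
      funext d
      refine O.Phi0 _ _ _ _ (fun d' => ?_) d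
      rw [h3]
      exact h2 d'
    rw [h4, iw_av, av_const, mul_zero]
  · -- dKf
    intro v t w w' hw
    have h1 := Kn_Yn (k := k) (N := N) (Θ := Θ) (Ξ := Ξ) (Q' := Q') i (ex N t) w w'
      (Z_Kn hij hli hlj h (ex N t) w w' hw)
    unfold dKo
    rw [h1]
  · -- step
    intro v t w _
    show c * iw (Wd (ex N (t + 1)) (Yn (ex N (t + 1)) w).1) (fun _ => 1) (O.Phi v.1.1 v.1.2 v.2.1.1 v.2.2.1.1) =
      c * iw (Wd (ex N t) (Yn (ex N t) w).1) (fun _ => 1) (O.Phi v.1.1 v.1.2 v.2.1.1 v.2.2.1.1) +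
        Dg (ex N (t + 1)) w * dKo O c v t w
    unfold dKo
    rcases Nat.lt_or_ge t N with ht | ht
    · rw [if_pos ht, iw_av, iw_av]
      have he : ex N t = ex N (t + 1) + 1 := by unfold ex; omega
      have h1 := mn_step (k := k) (N := N) (m := 3) (Θ := Θ) (P := Ξ × Q') (ex N (t + 1))
        (fun _ => O.Phi v.1.1 v.1.2 v.2.1.1 v.2.2.1.1) w
      unfold mn at h1
      rw [← he] at h1
      rw [h1]
      ring
    · rw [if_neg (not_lt.2 ht)]
      have he : ex N (t + 1) = ex N t := by unfold ex; omega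
      rw [he]
      ring
  · -- eM
    intro t w
    have h1 : (Nz.cn (fun s => (outRT O c (TZ h (fun a => liftF (R a))) al be).e (s + 1) w ≠
        (outRT O c (TZ h (fun a => liftF (R a))) al be).e s w) t : ℝ) ≤ p0 := by
      rw [cn_sum_ind]
      refine le_trans ?_ (hp w)
      have h3 : ∀ s, ind ((outRT O c (TZ h (fun a => liftF (R a))) al be).e (s + 1) w ≠
          (outRT O c (TZ h (fun a => liftF (R a))) al be).e s w) ≤
          if s < N then ind (chE h i (liftF (R i)) s w) else 0 := by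
        intro s
        by_cases hs : s < N
        · rw [if_pos hs]
          exact ind_mono fun h4 => (hch s w h4).2
        · rw [if_neg hs]
          exact le_of_eq (ind_not fun h4 => hs (hch s w h4).1)
      refine (Finset.sum_le_sum fun s _ => h3 s).trans ?_
      rw [← Finset.sum_filter]
      refine Finset.sum_le_sum_of_subset_of_nonneg (fun s hs => ?_) fun _ _ _ => ind_nonneg _
      exact Finset.mem_range.2 (Finset.mem_filter.1 hs).2
    have h2 : (Nz.cn (fun s => (outRT O c (TZ h (fun a => liftF (R a))) al be).e (s + 1) w ≠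
        (outRT O c (TZ h (fun a => liftF (R a))) al be).e s w) t : ℝ) < M' := by linarith
    exact_mod_cast h2
  · -- ovq
    refine le_trans (FP.Pr_mono _ ?_) (outRT_ovf O (al := al) (be := be) (c := c)
      (Tp := TZ h (fun a => liftF (R a))) hpE hM1 (by linarith) hM3)
    rintro w _ (h1 | h1)
    · exact Or.inr (Or.inl h1)
    · exact Or.inr (Or.inr (Or.inl h1))
  · -- eJ
    have h1 : ∑ t ∈ range N, Pm.Pr (fun w : Sp k N 3 Θ (Ξ × Q') => Mod.chE h i (liftF (R i)) t w) =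
        Pm.E (fun w : Sp k N 3 Θ (Ξ × Q') => ∑ t ∈ range N, ind (Mod.chE h i (liftF (R i)) t w)) :=
      (FP.E_sum _ _ _).symm
    rw [h1]
    exact FP.E_le_const _ fun w _ => hp w

end

end Mod

end Pool.Agent.M3
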