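import Pool.Agent.M3.RunE

/-!
# M3.RunP: existence of the public tests of section 2.4 (P2), and their number

Population of a node = conditional law given `Q t`.  `b t w s`: `s` is active at the node.  Virtual run `+s`:
record `plus b N s`.  There are lists `ts t` of public tests, functions of the node, with active indices and functions
bounded by one, such that for every active `s` and every `g`, `|g| ≤ 1`,
`P(η ≤ m (g E^(+s) v_s) | Q t) < ε`.  Every test `(s, g)` adds at least `ε` to the mean number of updates of the runs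
`+s`, so there are at most `(n2 + 1) / ε` tests for `s` in mean (times `1 +` restarts).
-/

set_option autoImplicit false
set_option linter.unusedSectionVars false

namespace Pool.Agent.M3

open Finset Pool.Agent.PWZ

/-- number of tests for the index `s` -/
noncomputable def cntS {S V : Type*} (s : S) (T : List (S × (V → ℝ))) : ℝ := (T.map fun p => ind (p.1 = s)).sum

theorem cntS_nil {S V : Type*} (s : S) : cntS s ([] : List (S × (V → ℝ))) = 0 := by
  unfold cntS; simp

theorem cntS_append {S V : Type*} (s : S) (T T' : List (S × (V → ℝ))) :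
    cntS s (T ++ T') = cntS s T + cntS s T' := by
  unfold cntS
  rw [List.map_append, List.sum_append]

theorem cntS_nonneg {S V : Type*} (s : S) (T : List (S × (V → ℝ))) : 0 ≤ cntS s T := by
  unfold cntS
  refine List.sum_nonneg fun z hz => ?_
  obtain ⟨p, -, rfl⟩ := List.mem_map.1 hz
  exact ind_nonneg _

theorem cntS_single {S V : Type*} (s : S) (p : S × (V → ℝ)) : cntS s [p] = ind (p.1 = s) := by
  unfold cntS; simp

/-- the total number of tests -/
theorem sum_cntS {S V : Type*} [DecidableEq S] (A : Finset S) (T : List (S × (V → ℝ))) (h : ∀ p ∈ T, p.1 ∈ A) :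
    ∑ s ∈ A, cntS s T = (T.length : ℝ) := by
  induction T with
  | nil => simp [cntS_nil]
  | cons p T ih =>
    have e : ∀ s, cntS s (p :: T) = ind (p.1 = s) + cntS s T := by
      intro s
      unfold cntS
      rw [List.map_cons, List.sum_cons]
    simp only [e]
    rw [Finset.sum_add_distrib, ih fun q hq => h q (List.mem_cons_of_mem _ hq),
      Finset.sum_eq_single p.1 (fun s _ hs => ind_not fun h' => hs h'.symm)
        (fun h' => absurd (h p List.mem_cons_self) h'), ind_of rfl, List.length_cons]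
    push_cast
    ring

section node

variable {Om : Type*} [Fintype Om] {S V κ : Type*} (P : FP Om) {η : ℝ} {n2 : ℕ}

theorem len_app_ge (x : Loc S V) (ν : S → Prop) (ts : List (S × (V → ℝ))) (p : S × (V → ℝ)) (H : List (S × (V → ℝ)))
    (hν : ν p.1) : ((proc η n2 x ν ts H).length : ℝ) + ind (Hit η n2 x (proc η n2 x ν ts H) p) ≤
      ((proc η n2 x ν (ts ++ [p]) H).length : ℝ) := by
  rw [proc_append]
  have h1 := (r1_suffix (η := η) (n2 := n2) (x := x) (ν := ν) (app η n2 x ν p (proc η n2 x ν ts H))).length_le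
  have h2 : ((app η n2 x ν p (proc η n2 x ν ts H)).length : ℝ) ≤
      ((r1 η n2 x ν (app η n2 x ν p (proc η n2 x ν ts H))).length : ℝ) := by exact_mod_cast h1
  refine le_trans ?_ h2
  rcases app_or (η := η) (n2 := n2) (x := x) (ν := ν) p (proc η n2 x ν ts H) with h | h
  · rw [h.1, ind_not fun h' => h.2 ⟨hν, h'⟩, add_zero]
  · rw [h.1, ind_of h.2.2, List.length_cons]
    push_cast
    rfl

theorem len_append_ge (x : Loc S V) (ν : S → Prop) (ts : List (S × (V → ℝ))) (p : S × (V → ℝ)) (H : List (S × (V → ℝ))) :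
    ((proc η n2 x ν ts H).length : ℝ) ≤ ((proc η n2 x ν (ts ++ [p]) H).length : ℝ) := by
  rw [proc_append]
  have h1 := (r1_suffix (η := η) (n2 := n2) (x := x) (ν := ν) (app η n2 x ν p (proc η n2 x ν ts H))).length_le
  have h2 := (app_suffix (η := η) (n2 := n2) (x := x) (ν := ν) p (proc η n2 x ν ts H)).length_le
  exact_mod_cast h2.trans h1

/-- **one node**: `Q` = the node, `x` data, `ν s` = record of the run `+s` at this node, `Hs s` = its history before -/
theorem node_tests [DecidableEq S] (Q : Om → κ) (x : Om → Loc S V) (ν : S → Om → S → Prop)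
    (Hs : S → Om → List (S × (V → ℝ))) (hη : 0 < η) (hm : ∀ w, IsMean (x w).m)
    (hH : ∀ s w, (Hs s w).length ≤ n2 + 1) {ε : ℝ} (hε : 0 < ε) (A : Finset S) (w0 : Om) (hw0 : P.p w0 ≠ 0)
    (hν : ∀ s ∈ A, ∀ w, Q w = Q w0 → ν s w s) :
    ∃ T : List (S × (V → ℝ)), (∀ p ∈ T, p.1 ∈ A ∧ ∀ d, |p.2 d| ≤ 1) ∧
      (∀ s ∈ A, ∀ g : V → ℝ, (∀ d, |g d| ≤ 1) →
        P.ce Q (fun w => ind (Hit η n2 (x w) (proc η n2 (x w) (ν s w) T (Hs s w)) (s, g))) w0 < ε) ∧
      (∀ s, ε * cntS s T ≤
        P.ce Q (fun w => ((proc η n2 (x w) (ν s w) T (Hs s w)).length : ℝ) - ((Hs s w).length : ℝ)) w0) := by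
  classical
  set Gd : List (S × (V → ℝ)) → Prop := fun T => (∀ p ∈ T, p.1 ∈ A ∧ ∀ d, |p.2 d| ≤ 1) ∧
    (∀ s, ε * cntS s T ≤
        P.ce Q (fun w => ((proc η n2 (x w) (ν s w) T (Hs s w)).length : ℝ) - ((Hs s w).length : ℝ)) w0) with hGd
  have h0 : Gd [] := by
    refine ⟨by simp, fun s => ?_⟩
    rw [cntS_nil, mul_zero]
    refine P.ce_nonneg (fun w _ => ?_) w0
    have := (proc_suffix (η := η) (n2 := n2) (x := x w) (ν := ν s w) [] (Hs s w)).length_le
    have h : ((Hs s w).length : ℝ) ≤ ((proc η n2 (x w) (ν s w) [] (Hs s w)).length : ℝ) := by exact_mod_cast this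
    linarith
  -- good lists are bounded
  have hbd : ∀ T, Gd T → ε * (T.length : ℝ) ≤ A.card * (n2 + 1) := by
    intro T hT
    rw [← sum_cntS A T fun p hp => (hT.1 p hp).1, Finset.mul_sum, ← nsmul_eq_mul, ← Finset.sum_const]
    refine Finset.sum_le_sum fun s _ => (hT.2 s).trans (P.ce_le_const (fun w _ => ?_) hw0)
    have h1 : ((proc η n2 (x w) (ν s w) T (Hs s w)).length : ℝ) ≤ ((n2 + 1 : ℕ) : ℝ) := by
      exact_mod_cast proc_len hη (hm w) T (hH s w)
    have h2 : (0 : ℝ) ≤ ((Hs s w).length : ℝ) := by positivity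
    push_cast at h1
    linarith
  -- a longest good list
  obtain ⟨B, hB⟩ := exists_nat_ge (A.card * ((n2 : ℝ) + 1) / ε)
  have hlen : ∀ T, Gd T → T.length ≤ B := by
    intro T hT
    have h1 := hbd T hT
    have h2 : (T.length : ℝ) ≤ A.card * ((n2 : ℝ) + 1) / ε := by
      rw [le_div_iff₀ hε, mul_comm]
      exact h1
    exact_mod_cast h2.trans hB
  obtain ⟨T, hT, hmax⟩ : ∃ T, Gd T ∧ ∀ T', Gd T' → T'.length ≤ T.length := by
    have hne : ∃ k, ∃ T, Gd T ∧ T.length = k := ⟨0, [], h0, rfl⟩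
    have hbk : ∀ k, (∃ T, Gd T ∧ T.length = k) → k ≤ B := by
      rintro k ⟨T, hT, rfl⟩
      exact hlen T hT
    have h1 := Nat.findGreatest_spec (P := fun k => ∃ T, Gd T ∧ T.length = k) (Nat.zero_le B) ⟨[], h0, rfl⟩
    obtain ⟨T, hT, hk⟩ := h1
    refine ⟨T, hT, fun T' hT' => ?_⟩
    rw [hk]
    exact Nat.le_findGreatest (hlen T' hT') ⟨T', hT', rfl⟩
  refine ⟨T, hT.1, fun s hs g hg => ?_, hT.2⟩
  by_contra hcon
  push Not at hcon
  have hnew : Gd (T ++ [(s, g)]) := by
    refine ⟨fun p hp => ?_, fun s' => ?_⟩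
    · rcases List.mem_append.1 hp with h | h
      · exact hT.1 p h
      · rw [List.mem_singleton.1 h]
        exact ⟨hs, hg⟩
    · rw [cntS_append, cntS_single, mul_add]
      by_cases hs' : s = s'
      · subst hs'
        rw [ind_of rfl, mul_one]
        have h1 := hT.2 s
        have h2 : P.ce Q (fun w => ((proc η n2 (x w) (ν s w) T (Hs s w)).length : ℝ) - ((Hs s w).length : ℝ)) w0 +
            P.ce Q (fun w => ind (Hit η n2 (x w) (proc η n2 (x w) (ν s w) T (Hs s w)) (s, g))) w0 ≤
            P.ce Q (fun w => ((proc η n2 (x w) (ν s w) (T ++ [(s, g)]) (Hs s w)).length : ℝ) -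
              ((Hs s w).length : ℝ)) w0 := by
          rw [← P.ce_add]
          unfold FP.ce
          refine div_le_div_of_nonneg_right ?_ (P.m_nonneg _ _)
          refine P.E_mono fun w _ => ?_
          by_cases hq : Q w = Q w0
          · rw [ind_of hq, one_mul, one_mul]
            have := len_app_ge (η := η) (n2 := n2) (x w) (ν s w) T (s, g) (Hs s w) (hν s hs w hq)
            linarith
          · rw [ind_not hq, zero_mul, zero_mul]
        linarith
      · rw [ind_not hs', mul_zero, add_zero]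
        refine (hT.2 s').trans (P.ce_mono (fun w _ => ?_) w0)
        have := len_append_ge (η := η) (n2 := n2) (x w) (ν s' w) T (s, g) (Hs s' w)
        linarith
  have := hmax _ hnew
  rw [List.length_append, List.length_singleton] at this
  omega

end node

/-! ### all nodes -/

section path

variable {Om : Type*} [Fintype Om] {S V : Type*} (P : FP Om) {κ : ℕ → Type*} {Q : ∀ t, Om → κ t} {η : ℝ} {n2 : ℕ}
  {x : ℕ → Om → Loc S V} {N b : ℕ → Om → S → Prop}

/-- the virtual record `+s` as a random variable -/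
def nuP (b N : ℕ → Om → S → Prop) (s : S) (t : ℕ) (w : Om) : S → Prop :=
  plus (fun t => b t w) (fun t => N t w) s t

/-- **existence of the public tests** -/
theorem exists_tests [DecidableEq S] (hη : 0 < η) (hm : ∀ t w, IsMean (x t w).m) {ε : ℝ} (hε : 0 < ε)
    (A : ℕ → Om → Finset S) (hA : ∀ t, Fac (Q t) (A t)) (hAb : ∀ t w s, s ∈ A t w → b t w s) :
    ∃ ts : ℕ → Om → List (S × (V → ℝ)), (∀ t, Fac (Q t) (ts t)) ∧
      (∀ t w, ∀ p ∈ ts t w, p.1 ∈ A t w ∧ ∀ d, |p.2 d| ≤ 1) ∧
      (∀ t w, P.p w ≠ 0 → ∀ s ∈ A t w, ∀ g : V → ℝ, (∀ d, |g d| ≤ 1) →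
        P.ce (Q t) (fun w => ind (Hit η n2 (x t w) (Hi η n2 x ts (nuP b N s) t w) (s, g))) w < ε) ∧
      (∀ t w, P.p w ≠ 0 → ∀ s, ε * cntS s (ts t w) ≤ P.ce (Q t) (Up η n2 x ts (nuP b N s) t) w) := by
  classical
  -- the property of the list `T` at time `t` when the earlier lists are `τ`
  let Φ : ℕ → (ℕ → Om → List (S × (V → ℝ))) → (Om → List (S × (V → ℝ))) → Prop := fun t τ T =>
    Fac (Q t) T ∧ (∀ w, ∀ p ∈ T w, p.1 ∈ A t w ∧ ∀ d, |p.2 d| ≤ 1) ∧
      (∀ w, P.p w ≠ 0 → ∀ s ∈ A t w, ∀ g : V → ℝ, (∀ d, |g d| ≤ 1) →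
        P.ce (Q t) (fun w => ind (Hit η n2 (x t w)
          (proc η n2 (x t w) (nuP b N s t w) (T w) (Hp η n2 x τ (nuP b N s) t w)) (s, g))) w < ε) ∧
      (∀ w, P.p w ≠ 0 → ∀ s, ε * cntS s (T w) ≤ P.ce (Q t) (fun w =>
        ((proc η n2 (x t w) (nuP b N s t w) (T w) (Hp η n2 x τ (nuP b N s) t w)).length : ℝ) -
          ((Hp η n2 x τ (nuP b N s) t w).length : ℝ)) w)
  have hex : ∀ t τ, ∃ T, Φ t τ T := by
    intro t τ
    have h1 : ∀ w0, P.p w0 ≠ 0 → ∃ T : List (S × (V → ℝ)), (∀ p ∈ T, p.1 ∈ A t w0 ∧ ∀ d, |p.2 d| ≤ 1) ∧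
      (∀ s ∈ A t w0, ∀ g : V → ℝ, (∀ d, |g d| ≤ 1) →
        P.ce (Q t) (fun w => ind (Hit η n2 (x t w) (proc η n2 (x t w) (nuP b N s t w) T
          (Hp η n2 x τ (nuP b N s) t w)) (s, g))) w0 < ε) ∧
      (∀ s, ε * cntS s T ≤
        P.ce (Q t) (fun w => ((proc η n2 (x t w) (nuP b N s t w) T (Hp η n2 x τ (nuP b N s) t w)).length : ℝ) -
          ((Hp η n2 x τ (nuP b N s) t w).length : ℝ)) w0) := by
      intro w0 hw0
      refine node_tests P (Q t) (x t) (fun s w => nuP b N s t w) (fun s w => Hp η n2 x τ (nuP b N s) t w) hη (hm t)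
        (fun s w => hpre_len hη (fun t => hm t w) t) hε (A t w0) w0 hw0 fun s hs w hw => ?_
      refine Or.inr ⟨rfl, hAb t w s ?_⟩
      rw [hA t w w0 hw]
      exact hs
    choose! F hF using h1
    refine ⟨fun w => if h : ∃ v, P.p v ≠ 0 ∧ Q t v = Q t w then F h.choose else [], ?_, ?_, ?_, ?_⟩
    · intro v w hvw
      have e : (∃ u, P.p u ≠ 0 ∧ Q t u = Q t v) = (∃ u, P.p u ≠ 0 ∧ Q t u = Q t w) := by rw [hvw]
      simp only [hvw]
    · intro w p hp
      by_cases h : ∃ v, P.p v ≠ 0 ∧ Q t v = Q t w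
      · simp only [dif_pos h] at hp
        have h2 := (hF h.choose h.choose_spec.1).1 p hp
        rw [hA t _ w h.choose_spec.2] at h2
        exact h2
      · simp only [dif_neg h] at hp
        simp at hp
    · intro w hw s hs g hg
      have h : ∃ v, P.p v ≠ 0 ∧ Q t v = Q t w := ⟨w, hw, rfl⟩
      have h2 := (hF h.choose h.choose_spec.1).2.1 s (by rw [hA t _ w h.choose_spec.2]; exact hs) g hg
      have h3 := P.ce_fac (Q t) (fun w => ind (Hit η n2 (x t w) (proc η n2 (x t w) (nuP b N s t w) (F h.choose)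
          (Hp η n2 x τ (nuP b N s) t w)) (s, g))) _ w h.choose_spec.2
      rw [h3] at h2
      refine lt_of_le_of_lt (le_of_eq ?_) h2
      unfold FP.ce
      congr 1
      refine P.E_congr fun v _ => ?_
      by_cases hq : Q t v = Q t w
      · have e : (∃ u, P.p u ≠ 0 ∧ Q t u = Q t v) := by rw [hq]; exact h
        have e2 : e.choose = h.choose := by congr 1; funext u; rw [hq]
        simp only [dif_pos e, e2]
      · rw [ind_not hq, zero_mul, zero_mul]
    · intro w hw s
      have h : ∃ v, P.p v ≠ 0 ∧ Q t v = Q t w := ⟨w, hw, rfl⟩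
      have h2 := (hF h.choose h.choose_spec.1).2.2 s
      have h3 := P.ce_fac (Q t) (fun w => ((proc η n2 (x t w) (nuP b N s t w) (F h.choose)
          (Hp η n2 x τ (nuP b N s) t w)).length : ℝ) - ((Hp η n2 x τ (nuP b N s) t w).length : ℝ)) _ w h.choose_spec.2
      rw [h3] at h2
      simp only [dif_pos h]
      refine h2.trans (le_of_eq ?_)
      unfold FP.ce
      congr 1
      refine P.E_congr fun v _ => ?_
      by_cases hq : Q t v = Q t w
      · have e : (∃ u, P.p u ≠ 0 ∧ Q t u = Q t v) := by rw [hq]; exact h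
        have e2 : e.choose = h.choose := by congr 1; funext u; rw [hq]
        simp only [dif_pos e, e2]
      · rw [ind_not hq, zero_mul, zero_mul]
  choose T hT using hex
  -- recursion over the time
  let pre : ℕ → (ℕ → Om → List (S × (V → ℝ))) := fun n =>
    Nat.rec (motive := fun _ => ℕ → Om → List (S × (V → ℝ))) (fun _ _ => []) (fun t τ => Function.update τ t (T t τ)) n
  have pre_succ : ∀ t, pre (t + 1) = Function.update (pre t) t (T t (pre t)) := fun _ => rfl
  set ts : ℕ → Om → List (S × (V → ℝ)) := fun t => pre (t + 1) t with hts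
  have hts' : ∀ t, ts t = T t (pre t) := by
    intro t
    simp only [hts]
    rw [pre_succ, Function.update_self]
  have hpre : ∀ t s, s < t → pre t s = ts s := by
    intro t
    induction t with
    | zero => intro s hs; omega
    | succ t ih =>
      intro s hs
      rcases Nat.lt_succ_iff_lt_or_eq.1 hs with h | h
      · rw [pre_succ, Function.update_of_ne (by omega)]
        exact ih s h
      · subst h
        rfl
  have hHp : ∀ t s w, Hp η n2 x (pre t) (nuP b N s) t w = Hp η n2 x ts (nuP b N s) t w := by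
    intro t s w
    exact hpre_congr' t (fun _ _ => rfl) (fun r hr => by rw [hpre t r hr]) fun _ _ => rfl
  have hHi : ∀ t s w, Hi η n2 x ts (nuP b N s) t w =
      proc η n2 (x t w) (nuP b N s t w) (ts t w) (Hp η n2 x ts (nuP b N s) t w) := fun t s w => hist_eq t
  have hΦ : ∀ t, Φ t ts (ts t) := by
    intro t
    have h := hT t (pre t)
    rw [← hts' t] at h
    refine ⟨h.1, h.2.1, fun w hw s hs g hg => ?_, fun w hw s => ?_⟩
    · have h2 := h.2.2.1 w hw s hs g hg
      simp only [hHp] at h2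
      exact h2
    · have h2 := h.2.2.2 w hw s
      simp only [hHp] at h2
      exact h2
  refine ⟨ts, fun t => (hΦ t).1, fun t => (hΦ t).2.1, fun t w hw s hs g hg => ?_, fun t w hw s => ?_⟩
  · have h2 := (hΦ t).2.2.1 w hw s hs g hg
    simp only [← hHi] at h2
    exact h2
  · have h2 := (hΦ t).2.2.2 w hw s
    simp only [← hHi] at h2
    exact h2

/-- **number of public tests** for `s`: `β` = `s` is active by time `t` -/
theorem tests_count (hη : 0 < η) (hm : ∀ t w, IsMean (x t w).m) {ε : ℝ}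
    {ts : ℕ → Om → List (S × (V → ℝ))} {s : S} {β : ℕ → Om → Prop}
    (hβQ : ∀ t v w, Q t v = Q t w → (β t v ↔ β t w)) (hβm : ∀ t w, β t w → β (t + 1) w)
    (hβ : ∀ t w, ¬ β t w → cntS s (ts t w) = 0)
    (hts : ∀ t w, P.p w ≠ 0 → ε * cntS s (ts t w) ≤ P.ce (Q t) (Up η n2 x ts (nuP b N s) t) w) (n : ℕ) :
    ε * ∑ t ∈ range (n + 1), P.E (fun w => cntS s (ts t w)) ≤
      (n2 + 1) * P.E (fun w => ind (β n w) * (1 + ∑ t ∈ range n, ind (x (t + 1) w).rs)) := by
  have hmono : ∀ s t w, s ≤ t → β s w → β t w := by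
    intro s t w hst
    induction hst with
    | refl => exact id
    | step _ ih => exact fun hb => hβm _ w (ih hb)
  have h1 : ∀ t ≤ n, ε * P.E (fun w => cntS s (ts t w)) ≤ P.E (fun w => ind (β n w) * Up η n2 x ts (nuP b N s) t w) := by
    intro t ht
    have h2 : P.E (fun w => ind (β t w) * P.ce (Q t) (Up η n2 x ts (nuP b N s) t) w) =
        P.E (fun w => ind (β t w) * Up η n2 x ts (nuP b N s) t w) := P.E_mul_ce (Fac.ind (hβQ t)) _
    have h3 : ε * P.E (fun w => cntS s (ts t w)) ≤
        P.E (fun w => ind (β t w) * P.ce (Q t) (Up η n2 x ts (nuP b N s) t) w) := by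
      rw [← P.E_smul]
      refine P.E_mono fun w hw => ?_
      by_cases hb : β t w
      · rw [ind_of hb, one_mul]
        exact hts t w hw
      · rw [ind_not hb, zero_mul, hβ t w hb, mul_zero]
    rw [h2] at h3
    refine h3.trans (P.E_mono fun w _ => ?_)
    refine mul_le_mul_of_nonneg_right (ind_mono (hmono t n w ht)) ?_
    exact upd_nonneg (x := fun t => x t w) (ts := fun t => ts t w) (ν := fun t => nuP b N s t w) t
  have h2 : ε * ∑ t ∈ range (n + 1), P.E (fun w => cntS s (ts t w)) ≤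
      P.E (fun w => ind (β n w) * ∑ t ∈ range (n + 1), Up η n2 x ts (nuP b N s) t w) := by
    rw [Finset.mul_sum]
    have e : (fun w => ind (β n w) * ∑ t ∈ range (n + 1), Up η n2 x ts (nuP b N s) t w) =
        fun w => ∑ t ∈ range (n + 1), ind (β n w) * Up η n2 x ts (nuP b N s) t w := by
      funext w
      rw [Finset.mul_sum]
    rw [e, P.E_sum]
    exact Finset.sum_le_sum fun t ht => h1 t (by rw [Finset.mem_range] at ht; omega)
  refine h2.trans ?_
  rw [← P.E_smul]
  refine P.E_mono fun w _ => ?_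
  have h3 := sum_upd_le (η := η) (n2 := n2) (x := fun t => x t w) (ts := fun t => ts t w)
    (ν := fun t => nuP b N s t w) hη (fun t => hm t w) n
  have h4 := mul_le_mul_of_nonneg_left h3 (ind_nonneg (β n w))
  refine h4.trans (le_of_eq ?_)
  ring

end path

end Pool.Agent.M3
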