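import Pool.Agent.M3.TSDefs
import Pool.Agent.PWZ.Step

/-!
# M3 TSStep: the greedy step for one population (helper39)

`𝒳` the individuals, `C` a population, `ρ` weights on `V` (mean of the windows),
`G x`, `g x : V → [-1,1]`. As long as some test `w` (`|w| ≤ 2`) sees more than `2 ε |C|` individuals
of `C`, the ones with the same sign are moved by `(η/4) w` (a birth `S ⊆ C`, `|S| ≥ ε |C|`).
Every birth lowers the energy of its members by `η²/8`.
-/

set_option autoImplicit false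

namespace Pool.Agent.M3.TS

open Finset Pool.Agent.PWZ

variable {V 𝒳 : Type*} [Fintype V]

theorem iw_self_nonneg {ρ : V → ℝ} (h : Wt ρ) (f : V → ℝ) : 0 ≤ iw ρ f f := by
  unfold iw
  refine Finset.sum_nonneg fun c _ => ?_
  rw [mul_assoc]
  exact mul_nonneg (h.nn c) (mul_self_nonneg _)

theorem iw_comm (ρ : V → ℝ) (f h : V → ℝ) : iw ρ f h = iw ρ h f := by
  unfold iw
  exact Finset.sum_congr rfl fun c _ => by ring

theorem iw_neg_r (ρ : V → ℝ) (f h : V → ℝ) : iw ρ f (fun c => - h c) = - iw ρ f h := by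
  unfold iw
  rw [← Finset.sum_neg_distrib]
  exact Finset.sum_congr rfl fun c _ => by ring

theorem iw_sub_l (ρ : V → ℝ) (f g h : V → ℝ) :
    iw ρ (fun c => f c - g c) h = iw ρ f h - iw ρ g h := by
  unfold iw
  rw [← Finset.sum_sub_distrib]
  exact Finset.sum_congr rfl fun c _ => by ring

theorem iw_sub_r (ρ : V → ℝ) (f g h : V → ℝ) :
    iw ρ f (fun c => g c - h c) = iw ρ f g - iw ρ f h := by
  unfold iw
  rw [← Finset.sum_sub_distrib]
  exact Finset.sum_congr rfl fun c _ => by ring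

theorem iw_add_l (ρ : V → ℝ) (f g h : V → ℝ) :
    iw ρ (fun c => f c + g c) h = iw ρ f h + iw ρ g h := by
  unfold iw
  rw [← Finset.sum_add_distrib]
  exact Finset.sum_congr rfl fun c _ => by ring

theorem abs_iw_le {ρ : V → ℝ} (h : Wt ρ) (f g : V → ℝ) {A B : ℝ}
    (hA : 0 ≤ A) (hB : 0 ≤ B) (hf : ∀ c, |f c| ≤ A) (hg : ∀ c, |g c| ≤ B) :
    |iw ρ f g| ≤ A * B := by
  unfold iw
  calc |∑ c, ρ c * f c * g c| ≤ ∑ c, |ρ c * f c * g c| := Finset.abs_sum_le_sum_abs _ _
    _ ≤ ∑ c, ρ c * (A * B) := Finset.sum_le_sum fun c _ => by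
        rw [abs_mul, abs_mul, abs_of_nonneg (h.nn c), mul_assoc]
        exact mul_le_mul_of_nonneg_left (mul_le_mul (hf c) (hg c) (abs_nonneg _) hA) (h.nn c)
    _ = (∑ c, ρ c) * (A * B) := by rw [Finset.sum_mul]
    _ ≤ 1 * (A * B) := mul_le_mul_of_nonneg_right h.le1 (mul_nonneg hA hB)
    _ = A * B := one_mul _

/-- the energy drop at one individual -/
theorem cell_drop {ρ : V → ℝ} (hρ : Wt ρ) (f g w : V → ℝ) (hf : ∀ c, |f c| ≤ 1)
    (hw : ∀ c, |w c| ≤ 2) {η : ℝ} (hη : 0 < η)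
    (h : 3 / 4 * η ≤ iw ρ (fun c => f c - g c) w) :
    iw ρ (fun c => f c - max (-1) (min 1 (g c + (η / 4) * w c)))
        (fun c => f c - max (-1) (min 1 (g c + (η / 4) * w c))) + η ^ 2 / 8 ≤
      iw ρ (fun c => f c - g c) (fun c => f c - g c) := by
  have h1 : iw ρ (fun c => f c - max (-1) (min 1 (g c + (η / 4) * w c)))
        (fun c => f c - max (-1) (min 1 (g c + (η / 4) * w c))) ≤
      ∑ c, ρ c * (f c - (g c + (η / 4) * w c)) ^ 2 := by
    unfold iw
    refine Finset.sum_le_sum (fun c _ => ?_)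
    have := mul_le_mul_of_nonneg_left (clip_sq (f c) (g c + (η / 4) * w c) (hf c)) (hρ.nn c)
    calc ρ c * (f c - max (-1) (min 1 (g c + (η / 4) * w c))) *
          (f c - max (-1) (min 1 (g c + (η / 4) * w c)))
        = ρ c * (f c - max (-1) (min 1 (g c + (η / 4) * w c))) ^ 2 := by ring
      _ ≤ _ := this
  have h2 : ∑ c, ρ c * (f c - (g c + (η / 4) * w c)) ^ 2 =
      iw ρ (fun c => f c - g c) (fun c => f c - g c) -
        (η / 2) * iw ρ (fun c => f c - g c) w + (η / 4) ^ 2 * iw ρ w w := by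
    unfold iw
    rw [Finset.mul_sum, Finset.mul_sum, ← Finset.sum_sub_distrib, ← Finset.sum_add_distrib]
    refine Finset.sum_congr rfl (fun c _ => ?_)
    ring
  have h3 : iw ρ w w ≤ 4 := by
    have := abs_iw_le hρ w w (by norm_num : (0 : ℝ) ≤ 2) (by norm_num) hw hw
    have h4 := le_abs_self (iw ρ w w)
    linarith
  have h4 : (η / 4) ^ 2 * iw ρ w w ≤ (η / 4) ^ 2 * 4 :=
    mul_le_mul_of_nonneg_left h3 (by positivity)
  have h5 : (η / 2) * (3 / 4 * η) ≤ (η / 2) * iw ρ (fun c => f c - g c) w :=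
    mul_le_mul_of_nonneg_left h (by positivity)
  rw [h2] at h1
  nlinarith [h1, h4, h5]

theorem cnt_nil (x : 𝒳) : cnt ([] : List (Finset 𝒳)) x = 0 := rfl

theorem cnt_cons (S : Finset 𝒳) (L : List (Finset 𝒳)) (x : 𝒳) :
    cnt (S :: L) x = ind (x ∈ S) + cnt L x := rfl

theorem cnt_nonneg (L : List (Finset 𝒳)) (x : 𝒳) : 0 ≤ cnt L x := by
  induction L with
  | nil => exact le_refl _
  | cons S L ih =>
    rw [cnt_cons]
    have := ind_nonneg (x ∈ S)
    linarith

theorem cnt_append (L L' : List (Finset 𝒳)) (x : 𝒳) : cnt (L ++ L') x = cnt L x + cnt L' x := by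
  unfold cnt
  rw [List.map_append, List.sum_append]

theorem cnt_le_length (L : List (Finset 𝒳)) (x : 𝒳) : cnt L x ≤ (L.length : ℝ) := by
  induction L with
  | nil => simp [cnt_nil]
  | cons S L ih =>
    rw [cnt_cons, List.length_cons]
    push_cast
    have := ind_le_one (x ∈ S)
    linarith

/-- one update -/
theorem cell_one {ρ : V → ℝ} (hρ : Wt ρ) (C : Finset 𝒳) (G g0 : 𝒳 → V → ℝ)
    (hG : ∀ x c, |G x c| ≤ 1) (hg0 : ∀ x c, |g0 x c| ≤ 1) {η ε : ℝ} (hη : 0 < η)
    (hH : ¬ HC ρ C (fun x c => G x c - g0 x c) η (2 * ε)) :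
    ∃ (S : Finset 𝒳) (g : 𝒳 → V → ℝ),
      (∀ x c, |g x c| ≤ 1) ∧
      (∀ x, x ∉ S → g x = g0 x) ∧
      (∀ x x', g0 x = g0 x' → (x ∈ S ↔ x' ∈ S) → g x = g x') ∧
      S ⊆ C ∧
      (ε * (C.card : ℝ) ≤ (S.card : ℝ)) ∧
      (∀ x, iw ρ (fun c => G x c - g x c) (fun c => G x c - g x c) + η ^ 2 / 8 * ind (x ∈ S) ≤
        iw ρ (fun c => G x c - g0 x c) (fun c => G x c - g0 x c)) := by
  classical
  -- a signed test function
  obtain ⟨w, hw, hz⟩ : ∃ w : V → ℝ, (∀ c, |w c| ≤ 2) ∧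
      ε * (C.card : ℝ) ≤ ∑ x ∈ C, ind (η < iw ρ (fun c => G x c - g0 x c) w) := by
    unfold HC at hH
    push Not at hH
    obtain ⟨w, hw, hz⟩ := hH
    by_cases hc : ε * (C.card : ℝ) ≤ ∑ x ∈ C, ind (η < iw ρ (fun c => G x c - g0 x c) w)
    · exact ⟨w, hw, hc⟩
    · push Not at hc
      refine ⟨fun c => - w c, fun c => by rw [abs_neg]; exact hw c, ?_⟩
      have hle : ∑ x ∈ C, ind (η < |iw ρ (fun c => G x c - g0 x c) w|) ≤
          (∑ x ∈ C, ind (η < iw ρ (fun c => G x c - g0 x c) w)) +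
          ∑ x ∈ C, ind (η < iw ρ (fun c => G x c - g0 x c) (fun c => - w c)) := by
        rw [← Finset.sum_add_distrib]
        refine Finset.sum_le_sum (fun x _ => ?_)
        refine le_trans (ind_mono ?_) (ind_or_le _ _)
        intro hlt
        rw [iw_neg_r]
        rcases lt_abs.mp hlt with h | h
        · exact Or.inl h
        · exact Or.inr h
      linarith
  let S : Finset 𝒳 := C.filter (fun x => η < iw ρ (fun c => G x c - g0 x c) w)
  have hcard : ∑ x ∈ C, ind (η < iw ρ (fun c => G x c - g0 x c) w) = (S.card : ℝ) := by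
    have : ∀ x ∈ C, ind (η < iw ρ (fun c => G x c - g0 x c) w) =
        if η < iw ρ (fun c => G x c - g0 x c) w then (1 : ℝ) else 0 := by
      intro x _
      by_cases h : η < iw ρ (fun c => G x c - g0 x c) w
      · rw [ind_of h, if_pos h]
      · rw [ind_not h, if_neg h]
    rw [Finset.sum_congr rfl this, Finset.sum_boole]
  let g : 𝒳 → V → ℝ := fun x =>
    if x ∈ S then (fun c => max (-1) (min 1 (g0 x c + (η / 4) * w c))) else g0 x
  have hgin : ∀ x, x ∈ S → g x = fun c => max (-1) (min 1 (g0 x c + (η / 4) * w c)) := by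
    intro x hx
    simp only [g, if_pos hx]
  have hgout : ∀ x, x ∉ S → g x = g0 x := by
    intro x hx
    simp only [g, if_neg hx]
  refine ⟨S, g, ?_, hgout, ?_, Finset.filter_subset _ _, by rw [← hcard]; exact hz, ?_⟩
  · intro x c
    by_cases hx : x ∈ S
    · rw [hgin x hx]
      exact abs_clip_le _
    · rw [hgout x hx]
      exact hg0 x c
  · intro x x' h1 h2
    by_cases hx : x ∈ S
    · rw [hgin x hx, hgin x' (h2.mp hx), h1]
    · have hx' : x' ∉ S := fun h => hx (h2.mpr h)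
      rw [hgout x hx, hgout x' hx', h1]
  · intro x
    by_cases hx : x ∈ S
    · rw [ind_of hx, hgin x hx, mul_one]
      have hlt : η < iw ρ (fun c => G x c - g0 x c) w := (Finset.mem_filter.1 hx).2
      exact cell_drop hρ (G x) (g0 x) w (hG x) hw hη (by linarith)
    · rw [ind_not hx, hgout x hx, mul_zero, add_zero]

/-- the greedy step -/
theorem cell_step {ρ : V → ℝ} (hρ : Wt ρ) (C : Finset 𝒳) (G g0 : 𝒳 → V → ℝ)
    (hG : ∀ x c, |G x c| ≤ 1) (hg0 : ∀ x c, |g0 x c| ≤ 1) {η ε : ℝ} (hη : 0 < η) (hε : 0 < ε) :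
    ∃ (L : List (Finset 𝒳)) (g : 𝒳 → V → ℝ),
      (∀ x c, |g x c| ≤ 1) ∧
      (∀ x, (∀ S ∈ L, x ∉ S) → g x = g0 x) ∧
      (∀ x x', g0 x = g0 x' → Same L x x' → g x = g x') ∧
      HC ρ C (fun x c => G x c - g x c) η (2 * ε) ∧
      (∀ S ∈ L, S ⊆ C) ∧
      (∀ S ∈ L, ε * (C.card : ℝ) ≤ (S.card : ℝ)) ∧
      (∀ x, iw ρ (fun c => G x c - g x c) (fun c => G x c - g x c) + η ^ 2 / 8 * cnt L x ≤
        iw ρ (fun c => G x c - g0 x c) (fun c => G x c - g0 x c)) := by
  classical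
  -- empty population: nothing to do
  rcases C.eq_empty_or_nonempty with hC | hC
  · refine ⟨[], g0, hg0, fun _ _ => rfl, fun _ _ h _ => h, ?_, by simp, by simp, ?_⟩
    · intro w _
      rw [hC]
      simp
    · intro x
      rw [cnt_nil, mul_zero, add_zero]
  have hCpos : (0 : ℝ) < (C.card : ℝ) := by exact_mod_cast hC.card_pos
  set En : (𝒳 → V → ℝ) → ℝ := fun g => ∑ x ∈ C, iw ρ (fun c => G x c - g x c) (fun c => G x c - g x c)
    with hEn
  have hEn0 : ∀ g, 0 ≤ En g := fun g => Finset.sum_nonneg (fun x _ => iw_self_nonneg hρ _)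
  set δ : ℝ := (η ^ 2 / 8) * (ε * (C.card : ℝ)) with hδ
  have hδpos : 0 < δ := by positivity
  have hone : ∀ (g0 g : 𝒳 → V → ℝ) (S : Finset 𝒳), S ⊆ C → ε * (C.card : ℝ) ≤ (S.card : ℝ) →
      (∀ x, iw ρ (fun c => G x c - g x c) (fun c => G x c - g x c) + η ^ 2 / 8 * ind (x ∈ S) ≤
        iw ρ (fun c => G x c - g0 x c) (fun c => G x c - g0 x c)) → En g + δ ≤ En g0 := by
    intro g0 g S hSC hS h
    have h1 : ∑ x ∈ C, η ^ 2 / 8 * ind (x ∈ S) = (η ^ 2 / 8) * (S.card : ℝ) := by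
      rw [← Finset.mul_sum]
      congr 1
      have h4 : ∀ x ∈ C, ind (x ∈ S) = if x ∈ S then (1 : ℝ) else 0 := by
        intro x _
        by_cases hx : x ∈ S
        · rw [ind_of hx, if_pos hx]
        · rw [ind_not hx, if_neg hx]
      rw [Finset.sum_congr rfl h4, Finset.sum_boole]
      congr 2
      exact Finset.filter_mem_eq_inter.trans (Finset.inter_eq_right.2 hSC)
    have h2 : δ ≤ (η ^ 2 / 8) * (S.card : ℝ) := mul_le_mul_of_nonneg_left hS (by positivity)
    have h3 : En g + ∑ x ∈ C, η ^ 2 / 8 * ind (x ∈ S) ≤ En g0 := by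
      rw [hEn]
      simp only
      rw [← Finset.sum_add_distrib]
      exact Finset.sum_le_sum (fun x _ => h x)
    rw [h1] at h3
    linarith
  have key : ∀ N : ℕ, ∀ g0 : 𝒳 → V → ℝ, (∀ x c, |g0 x c| ≤ 1) → En g0 ≤ N * δ →
      ∃ (L : List (Finset 𝒳)) (g : 𝒳 → V → ℝ),
      (∀ x c, |g x c| ≤ 1) ∧
      (∀ x, (∀ S ∈ L, x ∉ S) → g x = g0 x) ∧
      (∀ x x', g0 x = g0 x' → Same L x x' → g x = g x') ∧
      HC ρ C (fun x c => G x c - g x c) η (2 * ε) ∧
      (∀ S ∈ L, S ⊆ C) ∧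
      (∀ S ∈ L, ε * (C.card : ℝ) ≤ (S.card : ℝ)) ∧
      (∀ x, iw ρ (fun c => G x c - g x c) (fun c => G x c - g x c) + η ^ 2 / 8 * cnt L x ≤
        iw ρ (fun c => G x c - g0 x c) (fun c => G x c - g0 x c)) := by
    intro N
    induction N with
    | zero =>
      intro g0 hg0 hN
      by_cases hH : HC ρ C (fun x c => G x c - g0 x c) η (2 * ε)
      · refine ⟨[], g0, hg0, fun _ _ => rfl, fun _ _ h _ => h, hH, by simp, by simp, ?_⟩
        intro x
        rw [cnt_nil, mul_zero, add_zero]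
      · exfalso
        obtain ⟨S, g, -, -, -, hSC, hS, hE⟩ := cell_one hρ C G g0 hG hg0 hη hH
        have h0 := hEn0 g
        have h1 := hone g0 g S hSC hS hE
        simp only [Nat.cast_zero, zero_mul] at hN
        linarith
    | succ N ih =>
      intro g0 hg0 hN
      by_cases hH : HC ρ C (fun x c => G x c - g0 x c) η (2 * ε)
      · refine ⟨[], g0, hg0, fun _ _ => rfl, fun _ _ h _ => h, hH, by simp, by simp, ?_⟩
        intro x
        rw [cnt_nil, mul_zero, add_zero]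
      · obtain ⟨S, g1, hb1, hout1, hcls1, hSC, hS, hE⟩ := cell_one hρ C G g0 hG hg0 hη hH
        have h1 := hone g0 g1 S hSC hS hE
        have hN1 : En g1 ≤ N * δ := by
          push_cast at hN
          linarith
        obtain ⟨L, g, hb, hout, hcls, hHF, hz, hc, hEnL⟩ := ih g1 hb1 hN1
        refine ⟨S :: L, g, hb, ?_, ?_, hHF, ?_, ?_, ?_⟩
        · intro x hx
          rw [hout x (fun Y hY => hx Y (List.mem_cons_of_mem _ hY)),
            hout1 x (hx S List.mem_cons_self)]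
        · intro x x' h h'
          refine hcls x x' (hcls1 x x' h (h' S List.mem_cons_self))
            (fun Y hY => h' Y (List.mem_cons_of_mem _ hY))
        · intro Y hY
          rcases List.mem_cons.mp hY with h | h
          · rw [h]; exact hSC
          · exact hz Y h
        · intro Y hY
          rcases List.mem_cons.mp hY with h | h
          · rw [h]; exact hS
          · exact hc Y h
        · intro x
          have h2 := hE x
          have h3 := hEnL x
          rw [cnt_cons, mul_add]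
          linarith
  obtain ⟨N, hN⟩ := exists_nat_gt (En g0 / δ)
  refine key N g0 hg0 ?_
  rw [div_lt_iff₀ hδpos] at hN
  exact hN.le

end Pool.Agent.M3.TS
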