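import Pool.Agent.M3.NVof
import Pool.Agent.M3.RdOutR
import Pool.Agent.M3.ColdL
import Pool.Agent.M3.S2.InpL
import Pool.Agent.M3.S2.MainM
import Pool.Agent.M3.S3.Mdl

/-!
# M3.NVMain: named views exist (helper11)

* `raw_of_out` : the raw process of section 2B from the output of section 2 for the model;
* `nv_of_out` : named view, from the output of section 2, Theorem 3 in the model and numbers.
-/

set_option autoImplicit false
set_option linter.unusedSectionVars false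

namespace Pool.Agent.M3.Mod

open Finset Pool.Agent.PWZ Pool.Agent.M3.Bin Pool.Agent.M3.TS

noncomputable section

variable {k N : ℕ} {Θ S Q' : Type} [Fintype Θ] [Nonempty Θ] [Fintype S] [DecidableEq S] [Fintype Q'] [Nonempty Q']
  {i j l : Fin 3} {m : ℕ} [Nonempty (S → Fin m)]

/-- **the raw process** from the output of section 2 -/
theorem raw_of_out (hij : j ≠ i) (hli : l ≠ i) (hlj : l ≠ j) (hN : N ≤ k) {h0 h1 h2 : ℕ}
    (h12 : h1 ≤ h2) (h01 : h0 ≤ h1) (I : S2.Inp (tri Θ (S → Fin m) Q' hij hli hlj hN h1) S) {R : Fin 3 → Fam2 k Unit}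
    (hR : ∀ a e g x y d, |R a e g x y d| ≤ 2)
    (hG1 : ∀ t (ω : Sp k N 3 Θ ((S → Fin m) × Q')), I.G1 t (gq h1 (ex N t) ω) (vq j ω) (vq l ω) =
      fun d => fz h0 i (R i) t (prU ω) d / 2)
    {qb : ℝ} (hbad : (Pm : FP (Sp k N 3 Θ ((S → Fin m) × Q'))).Pr (fun ω => ∃ t ≤ N, TZ h0 R t (prU ω) ≠ 4 * I.TT t ω) ≤ qb)
    {p0 : ℝ} (hp : ∀ ω : Sp k N 3 Unit Unit, ∑ t ∈ range N, ind (chE h0 i (R i) t ω) ≤ p0)
    {eps q Lam J : ℝ} {M M' : ℕ}
    (O : S2.Out (tri Θ (S → Fin m) Q' hij hli hlj hN h2) (fun t (ω : Sp k N 3 Θ ((S → Fin m) × Q')) => Qn i h2 (ex N t) ω) I.TT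
      (I.E2n (fineTri Θ (S → Fin m) Q' hij hli hlj hN h12)) eps q Lam J M)
    (heps : 0 ≤ eps) (heta : 4 * eps < 1 / 2) {al be : ℝ} (al0 : 0 < al) (be0 : 0 < be) (ab : al ≤ be ^ 2)
    (be1 : be ≤ 1) (hM1 : 2 * M ≤ M') (hM2 : p0 + 1 ≤ M') :
    ∃ (E F' G' : Type) (T : RTa k N Θ ((S → Fin m) × Q') i E F' G') (ix : ℕ → Sp k N 3 Θ ((S → Fin m) × Q') → Bool)
      (dK : E × F' × G' × Unit → ℕ → Sp k N 3 Θ ((S → Fin m) × Q') → ℝ),
      RawR i j l h2 (fun a => fine h0 (R a)) T ix dK M' p0 (4 * J + 1) (q + qb) (2 * q) ∧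
      T.Lam = 4 * Lam ∧ T.eta = 4 * eps ∧ T.al = al ∧ T.be = be := by
  have h02 : h0 ≤ h2 := h01.trans h12
  have hfine : ∀ a e g x y d, |(fun a => fine h0 (R a)) a e g x y d| ≤ 2 := fun a e g x y d => hR a e _ x y d
  have hTZ : ∀ t (w : Sp k N 3 Θ ((S → Fin m) × Q')), TZ h2 (fun a => liftF ((fun a => fine h0 (R a)) a)) t w =
      TZ h0 R t (prU w) := fun t w => (TZ_lift h2 (fun a => fine h0 (R a)) t w).trans (TZ_fine h02 R t (prU w))
  have hfz : ∀ t (w : Sp k N 3 Θ ((S → Fin m) × Q')), fz h2 i (liftF ((fun a => fine h0 (R a)) i)) t w =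
      fz h0 i (R i) t (prU w) := fun t w => (fz_lift h2 i (fine h0 (R i)) t w).trans (fz_fine h02 i (R i) t (prU w))
  refine ⟨_, _, _, _, _, _, rawR_of_out (R := fun a => fine h0 (R a)) O (c := 4) (by norm_num) ?_ heps heta al0 be0
    ab be1 ?_ ?_ ?_ ?_ hM1 hM2, rfl, rfl, rfl, rfl⟩
  · intro t g b c d
    exact I.G1b t _ b c d
  · intro t _ w d
    rw [hfz]
    have e1 : (fineTri Θ (S → Fin m) Q' hij hli hlj hN h12).crs t (gq h2 (ex N t) w) = gq h1 (ex N t) w :=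
      (fineTri Θ (S → Fin m) Q' hij hli hlj hN h12).crs_gm t w
    have e2 : I.E2n (fineTri Θ (S → Fin m) Q' hij hli hlj hN h12) t (gq h2 (ex N t) w) (vq j w) (vq l w) d =
        fz h0 i (R i) t (prU w) d / 2 := by
      unfold S2.Inp.E2n
      rw [e1]
      exact congrFun (hG1 t w) d
    rw [e2]
    ring
  · intro t w
    exact abs_TZ_le h2 (fun a e g x y d => by
      unfold liftF
      exact hfine a e g _ _ d) t w
  · refine le_trans (le_of_eq ?_) hbad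
    refine Pm.Pr_congr fun w _ => ?_
    refine exists_congr fun t => and_congr_right fun _ => ?_
    rw [hTZ]
  · intro w
    refine le_trans (le_of_eq ?_) (hp (prU w))
    refine Finset.sum_congr rfl fun t _ => ?_
    congr 1
    unfold chE
    rw [hfz, hfz]

/-! ### sizes -/

/-- polynomial against exponential -/
theorem pow_le_two_pow_ev (k c : ℕ) : ∃ n0 : ℕ, ∀ n ≥ n0, (c : ℝ) * ((n : ℝ) + 1) ^ k ≤ 2 ^ n := by
  have h1 := tendsto_pow_const_div_const_pow_of_one_lt k (r := (2 : ℝ)) (by norm_num)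
  have h2 : (0 : ℝ) < 1 / (2 * ((c : ℝ) + 1)) := by positivity
  obtain ⟨n0, h3⟩ := Filter.eventually_atTop.1 (h1.eventually_lt_const h2)
  refine ⟨n0, fun n hn => ?_⟩
  have h4 := h3 (n + 1) (by omega)
  have h5 : (0 : ℝ) < 2 ^ (n + 1) := by positivity
  rw [div_lt_div_iff₀ h5 (by positivity)] at h4
  push_cast at h4
  have h6 : (2 : ℝ) ^ (n + 1) = 2 * 2 ^ n := by rw [pow_succ]; ring
  rw [h6] at h4
  have h7 : (0 : ℝ) ≤ ((n : ℝ) + 1) ^ k := by positivity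
  nlinarith

theorem two_pow_le_exp {a : ℕ} {X : ℝ} (h : (a : ℝ) ≤ X) : (2 : ℝ) ^ a ≤ Real.exp X := by
  have h1 : (2 : ℝ) ≤ Real.exp 1 := by
    have := Real.add_one_le_exp (1 : ℝ)
    linarith
  calc (2 : ℝ) ^ a ≤ Real.exp 1 ^ a := pow_le_pow_left₀ (by norm_num) h1 a
    _ = Real.exp a := by rw [← Real.exp_nat_mul, mul_one]
    _ ≤ Real.exp X := Real.exp_le_exp.2 h

theorem half_half {a b c e : ℝ} (h1 : a ≤ e / 2) (h2 : b + c ≤ e / 2) : a + b + c ≤ e := by linarith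

theorem four_P {p q : ℝ} (h2 : 1 ≤ p) (h3 : q = p * 512) : 4 * p + 1 ≤ q := by
  rw [h3]
  linarith

theorem two_pow_add9 (a : ℕ) : (2 : ℝ) ^ (a + 9) = 2 ^ a * 512 := by
  rw [pow_add]
  norm_num

theorem two_pow_add9n (a : ℕ) : (2 : ℕ) ^ (a + 9) = 2 ^ a * 512 := by
  rw [pow_add]
  norm_num

theorem exp_neg_le_half_pow {a : ℕ} {X : ℝ} (h : (a : ℝ) ≤ X) : Real.exp (-X) ≤ (1 / 2) ^ a := by
  have h1 := two_pow_le_exp h
  rw [Real.exp_neg, one_div, inv_pow]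
  exact inv_anti₀ (by positivity) h1

/-- THE NUMBERS of sections 2B and 3 (statement) -/
def NumNV (Ct C0 C1 C n : ℕ) : Prop :=
  ∀ (M : ℕ) (Lam ne nf r1 : ℝ), (M : ℝ) ≤ Real.exp (Real.exp ((n : ℝ) ^ C1)) → 0 ≤ Lam →
    Lam ≤ Real.exp ((n : ℝ) ^ C1) → 0 ≤ ne → ne ≤ Real.exp ((n : ℝ) ^ C1) → 0 ≤ nf → nf ≤ Real.exp ((n : ℝ) ^ C1) →
    Real.exp (-(n : ℝ) ^ C1) ≤ r1 → ∃ (be al Lam3 : ℝ) (J n0 Rz : ℕ), 0 < be ∧ 0 < al ∧ al ≤ be ^ 2 ∧ be ≤ 1 ∧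
      3 * be ≤ Real.exp (-Real.exp ((n : ℝ) ^ C1)) ∧ 0 < J ∧ 0 < n0 ∧
      2 * ((J : ℝ) / (Rz + 1) + (1 + (2 * nf / al + nf / be)) / J + (1 + nf) / n0) +
        qrun (Fin (M + 1)) M be ne nf Lam r1 ≤ Real.exp (-(n : ℝ) ^ C0) / 2 ∧
      SzM Rz J n0 (Fintype.card (Bool → Fin (M + 1))) Lam3 ∧ (2 * Lam3) ^ Ct ≤ Real.exp ((n : ℝ) ^ C) ∧
      2 * (n0 : ℝ) + nf + ne ≤ Real.exp ((n : ℝ) ^ C) ∧ 2500 * ((Ct : ℝ) * Lam3) ≤ Real.exp ((n : ℝ) ^ C) ∧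
      4 * ((Ct : ℝ) * Lam3 ^ Ct) ≤ Real.exp ((n : ℝ) ^ C)

/-- the three faces are bounded by `2` -/
theorem face_abs3 (L : Lay) {n : ℕ} {F : Fin 3 → Unit × V k → Unit × V k → V k → ℝ} (hF : ∀ i b c d, |F i b c d| ≤ 1)
    {i s r : Fin 3} (hsi : s ≠ i) (hri : r ≠ i) (hrs : r ≠ s) {R : Fin 3 → Fam2 k Unit} (hRs : R s = Dl N L F n s)
    (hRr : R r = fine (L.lh n) (Rl N L F n r) ∨ R r = Rl N L F (n + 1) r) (hRi : ∀ e g x y d, |R i e g x y d| ≤ 2) :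
    ∀ a e g x y d, |R a e g x y d| ≤ 2 := by
  intro a
  rcases fin3_cover3 hri hsi hrs.symm a with h | h | h
  · rw [h]
    exact hRi
  · rw [h]
    exact face_abs L hF n r (Or.inr hRr)
  · rw [h]
    exact face_abs L hF n s (Or.inl hRs)

/-- sizes of the output of section 2 -/
theorem sz_out {n C z : ℕ} (hn : 2000 ≤ n) (hz : z ≤ n ^ C) :
    ((931 * z + 940 : ℕ) : ℝ) ≤ (n : ℝ) ^ (C + 2) := by
  have h1 : 1 ≤ n ^ C := Nat.one_le_pow _ _ (by omega)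
  have h2 : 931 * z + 940 ≤ 2000 * n ^ C := by nlinarith
  have h3 : 2000 * n ^ C ≤ n * n ^ C := Nat.mul_le_mul_right _ hn
  have h4 : n * n ^ C ≤ n ^ (C + 2) := by
    rw [pow_add, mul_comm]
    exact Nat.mul_le_mul_left _ (by nlinarith)
  exact_mod_cast h2.trans (h3.trans h4)

/-- **NAMED VIEWS EXIST** -/
theorem nvThm_of (L : Lay) {κ : ℝ} (h3 : S3.Thm3 κ)
    (hnum : ∀ Ct C0 C1 : ℕ, ∃ C n1 : ℕ, ∀ n ≥ n1, NumNV Ct C0 C1 C n) : NVThm L κ := by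
  classical
  intro C0 Cp
  obtain ⟨Ct, hCt⟩ := thm3_model h3
  obtain ⟨C1, n1, hI⟩ := inpL L C0 Cp
  obtain ⟨C2, n2, hnum⟩ := hnum Ct C0 (C1 + 2)
  obtain ⟨n3, hn3⟩ := pow_le_two_pow_ev 6 9
  refine ⟨max C2 (C1 + 2), n1 + n2 + n3 + 2000 + ⌈L.kap⌉₊, fun n hn => ?_⟩
  have hn1 : n1 ≤ n := by omega
  have hn2 : n2 ≤ n := by omega
  have hn3' : n3 ≤ n := by omega
  have hn2000 : 2000 ≤ n := by omega
  have hkap : L.kap ≤ n := (Nat.le_ceil _).trans (by exact_mod_cast (by omega : ⌈L.kap⌉₊ ≤ n))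
  have hnR : (1 : ℝ) ≤ n := by exact_mod_cast (by omega : 1 ≤ n)
  obtain ⟨z, z1, z2, z3, z4, z5, hI⟩ := hI n hn1
  have hz := sz_out hn2000 z5
  set Z : ℝ := (n : ℝ) ^ (C1 + 2) with hZ
  -- final exponents
  have hC2 : (n : ℝ) ^ C2 ≤ (n : ℝ) ^ max C2 (C1 + 2) := pow_le_pow_right₀ hnR (le_max_left _ _)
  have hC1 : Z ≤ (n : ℝ) ^ max C2 (C1 + 2) := pow_le_pow_right₀ hnR (le_max_right _ _)
  have hE := Real.exp_le_exp.2 hC2
  have hzR : ((931 : ℝ) * z + 940) ≤ Z := by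
    refine le_trans (le_of_eq ?_) hz
    push_cast
    ring
  refine ⟨S2.Num.h2 z, ?_, ?_, ?_⟩
  · unfold S2.Num.h2
    omega
  · refine le_trans ?_ hC1
    unfold S2.Num.h2
    push_cast
    have : (0 : ℝ) ≤ z := Nat.cast_nonneg _
    linarith
  intro k N hN F hF i s r hsi hri hrs R hRs hRr hRi hp M hM
  obtain ⟨S, iS, dS, hI⟩ := hI k N hN F hF i r s hri hsi hrs.symm R hRs hRr hRi hp
  obtain ⟨I, hsm, hG1, hbad⟩ := hI (Fintype.card S + 1)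
  obtain ⟨O⟩ := out_tri hri hsi hrs.symm hN z I hsm (by omega) (by omega)
  -- numbers
  set P2 : ℝ := 2 ^ (931 * z + 931) with hP2
  have hP20 : 0 < P2 := by positivity
  have hzz : (0 : ℝ) ≤ z := Nat.cast_nonneg _
  set M1 : ℕ := 2 ^ (2 ^ (931 * z + 931)) with hM1
  set M' : ℕ := 2 * M1 + 2 ^ z + 1 with hM'
  have hp0 : (n : ℝ) ^ Cp ≤ Real.exp Z := z2.trans (two_pow_le_exp (by linarith))
  have h4P : 4 * P2 + 1 ≤ Real.exp Z := by
    have h1 : 4 * P2 + 1 ≤ 2 ^ (931 * z + 940) :=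
      four_P (one_le_pow₀ (by norm_num)) (two_pow_add9 (931 * z + 931))
    exact h1.trans (two_pow_le_exp hz)
  have hM'le : (M' : ℝ) ≤ Real.exp (Real.exp Z) := by
    have h1 : M' ≤ 2 ^ (2 ^ (931 * z + 940)) := by
      have h2 : z ≤ 2 ^ (931 * z + 931) := (Nat.lt_two_pow_self).le.trans (Nat.pow_le_pow_right (by norm_num) (by omega))
      have h3 : 2 ^ z ≤ M1 := Nat.pow_le_pow_right (by norm_num) h2
      have h4 : 1 ≤ M1 := Nat.one_le_two_pow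
      have h5 : M' ≤ 2 ^ 2 * M1 := by omega
      refine h5.trans ?_
      rw [hM1, ← pow_add]
      refine Nat.pow_le_pow_right (by norm_num) ?_
      have h6 : 2 ^ (931 * z + 940) = 2 ^ (931 * z + 931) * 512 := two_pow_add9n (931 * z + 931)
      have h7 : 1 ≤ 2 ^ (931 * z + 931) := Nat.one_le_two_pow
      rw [h6]
      generalize 2 ^ (931 * z + 931) = y at h7 ⊢
      omega
    have h2 : (M' : ℝ) ≤ 2 ^ (2 ^ (931 * z + 940)) := by exact_mod_cast h1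
    refine h2.trans (two_pow_le_exp ?_)
    push_cast
    exact two_pow_le_exp hz
  have hr1 : Real.exp (-Z) ≤ (1 / 2) ^ z := exp_neg_le_half_pow (by linarith)
  have hMM : 2 * M1 ≤ M' := by
    rw [hM']
    exact (Nat.le_add_right _ _).trans (Nat.le_add_right _ _)
  have hMp : (n : ℝ) ^ Cp + 1 ≤ M' := by
    rw [hM']
    push_cast
    have : (0 : ℝ) ≤ (M1 : ℝ) := Nat.cast_nonneg _
    linarith
  clear_value M' M1 P2
  obtain ⟨be, al, Lam3, J, n0, Rz, be0, al0, hab, be1, hbe, hJ, hn0, hq, hSz, hs1, hs2, hs3, hs4⟩ :=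
    hnum n hn2 M' (4 * P2) ((n : ℝ) ^ Cp) (4 * P2 + 1) ((1 / 2) ^ z) hM'le (by positivity) (by linarith)
      (by positivity) hp0 (by positivity) h4P hr1
  have hz16 : (1 / 2 : ℝ) ^ z ≤ 1 / 16 := by
    have h1 : (1 / 2 : ℝ) ^ z ≤ (1 / 2) ^ 4 := pow_le_pow_of_le_one (by norm_num) (by norm_num) (by omega)
    norm_num at h1 ⊢
    exact h1
  have hz0 : (0 : ℝ) < (1 / 2) ^ z := by positivity
  obtain ⟨E, F', G', T, ix, dK, HR, eL, eη, eα, eβ⟩ := raw_of_out hri hsi hrs.symm hN (h1_le_h2 z)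
    (z3.trans (by unfold S2.Num.h1; omega)) I (face_abs3 L hF hsi hri hrs hRs hRr hRi) hG1 hbad hp O hz0.le
    (by linarith) al0 be0 hab be1 hMM hMp
  have H := raw_numd HR
  have hE1 : (1 : ℝ) ≤ Real.exp ((n : ℝ) ^ max C2 (C1 + 2)) := Real.one_le_exp (by positivity)
  have hM0 : 0 < M := lt_of_lt_of_le (Real.exp_pos _) hM
  have hM1' : 1 ≤ M := hE1.trans hM
  obtain ⟨Uc, HB⟩ := hCt k N Unit ((S → Fin (Fintype.card S + 1)) × Unit) (Fin (M' + 1)) hN i r s hri hsi hrs.symm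
    (S2.Num.h2 z) Rz J n0 (fL (T.numd ix M') ix) (gL (T.numd ix M') ix) H.labF H.labG Lam3 M hSz
    (hs1.trans (hE.trans hM))
  have hL3 : 0 ≤ Lam3 := le_trans zero_le_one hSz.Lam1
  -- the mass of the errors
  have hqq : (1 / 2 : ℝ) ^ z + (1 / 2) ^ (2 * n ^ C0 + 3) + 2 * (1 / 2) ^ z ≤ Real.exp (-(n : ℝ) ^ C0) / 2 := by
    have h1 : (1 / 2 : ℝ) ^ z ≤ (1 / 2) ^ (2 * n ^ C0 + 3) := pow_le_pow_of_le_one (by norm_num) (by norm_num) z1
    have h2 : (1 / 2 : ℝ) ^ (2 * n ^ C0 + 3) = ((1 / 2) ^ n ^ C0) * ((1 / 2) ^ n ^ C0) / 8 := by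
      rw [pow_add, two_mul, pow_add]
      norm_num
      ring
    have h3 : (1 / 2 : ℝ) ^ n ^ C0 * (1 / 2) ^ n ^ C0 ≤ Real.exp (-(n : ℝ) ^ C0) := by
      have h4 : (1 / 2 : ℝ) ^ n ^ C0 * (1 / 2) ^ n ^ C0 = (1 / 4) ^ n ^ C0 := by
        rw [← mul_pow]
        norm_num
      rw [h4]
      have h5 : (1 / 4 : ℝ) ≤ Real.exp (-1) := by
        have h6 := Real.exp_one_lt_d9
        rw [Real.exp_neg, one_div]
        exact inv_anti₀ (Real.exp_pos _) (by linarith)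
      have h7 : Real.exp (-(n : ℝ) ^ C0) = Real.exp (-1) ^ n ^ C0 := by
        rw [← Real.exp_nat_mul]
        push_cast
        congr 1
        ring
      rw [h7]
      exact pow_le_pow_left₀ (by norm_num) h5 _
    have h8 : 0 ≤ Real.exp (-(n : ℝ) ^ C0) := (Real.exp_pos _).le
    linarith
  obtain ⟨W, w1, w2, w3, w4, w5, w6, w7⟩ := nvof H HB hJ hn0 (r0 := 9 * (1 / 2) ^ z) (r1 := (1 / 2) ^ z)
    (qq := Real.exp (-(n : ℝ) ^ C0)) hz0 (by linarith) (by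
      have e1 : (T.numd ix M').eta = 4 * (1 / 2) ^ z := eη
      rw [e1]
      linarith) (by
      have e1 : (T.numd ix M').al = al := eα
      have e2 : (T.numd ix M').be = be := eβ
      have e3 : (T.numd ix M').Lam = 4 * P2 := eL
      rw [e1, e2, e3]
      exact half_half hqq hq)
  -- small thresholds
  have hsmall : 9 * (1 / 2 : ℝ) ^ z ≤ ((n : ℝ) + 1)⁻¹ ^ 6 := by
    have h1 := hn3 n hn3'
    have h2 : (2 : ℝ) ^ n ≤ 2 ^ z := pow_le_pow_right₀ (by norm_num) z4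
    have h3 : (0 : ℝ) < ((n : ℝ) + 1) ^ 6 := by positivity
    have h4 : (0 : ℝ) < 2 ^ z := by positivity
    rw [one_div, inv_pow, inv_pow, ← div_eq_mul_inv, ← one_div, div_le_div_iff₀ h4 h3]
    push_cast at h1
    linarith
  have hinv1 : ((n : ℝ) + 1)⁻¹ ≤ 1 := inv_le_one_of_one_le₀ (by linarith)
  have hinv0 : (0 : ℝ) ≤ ((n : ℝ) + 1)⁻¹ := by positivity
  have hJ3 : 2500 * ((Ct : ℝ) * Lam3) ≤ Real.exp ((n : ℝ) ^ max C2 (C1 + 2)) := hs3.trans hE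
  have hκ : 4 * ((Ct : ℝ) * Lam3 ^ Ct) ≤ Real.exp ((n : ℝ) ^ max C2 (C1 + 2)) := hs4.trans hE
  refine ⟨Unit, ((S → Fin (Fintype.card S + 1)) × Unit) ×
    Co k N ((S → Fin (Fintype.card S + 1)) × Unit) Rz (Bool → Fin (M' + 1)), inferInstance, inferInstance,
    inferInstance, inferInstance, W, ?_, ?_, ?_, ?_, ?_, ?_, ?_, ?_⟩
  · rw [w1]
  · rw [w2]
    have e2 : (T.numd ix M').be = be := eβ
    rw [e2]
    refine hbe.trans ?_
    unfold Lay.lth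
    refine Real.exp_le_exp.2 (neg_le_neg ?_)
    have h1 : 1 + L.kap ≤ Real.exp L.kap := by
      have := Real.add_one_le_exp L.kap
      linarith
    calc (1 + L.kap) ^ n ≤ Real.exp L.kap ^ n := pow_le_pow_left₀ (by linarith [L.kap_pos]) h1 n
      _ = Real.exp (n * L.kap) := by rw [← Real.exp_nat_mul]
      _ ≤ Real.exp Z := by
        refine Real.exp_le_exp.2 ?_
        have h2 : (n : ℝ) * L.kap ≤ n * n := mul_le_mul_of_nonneg_left hkap (by linarith)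
        have h3 : (n : ℝ) * n = (n : ℝ) ^ 2 := by ring
        have h4 : (n : ℝ) ^ 2 ≤ (n : ℝ) ^ (C1 + 2) := pow_le_pow_right₀ hnR (by omega)
        linarith
  · rw [w3]
    have e1 : (T.numd ix M').eta = 4 * (1 / 2) ^ z := eη
    rw [e1]
    linarith
  · rw [w4]
    refine hsmall.trans (pow_le_pow_of_le_one hinv0 hinv1 (by norm_num))
  · rw [w5]
    have h1 : 0 ≤ M ^ (-κ) := Real.rpow_nonneg hM0.le _
    calc 4 * ((Ct : ℝ) * Lam3 ^ Ct * M ^ (-κ)) = 4 * ((Ct : ℝ) * Lam3 ^ Ct) * M ^ (-κ) := by ring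
      _ ≤ _ := mul_le_mul_of_nonneg_right hκ h1
  · intro U
    rw [w6]
    by_cases hU : U = {i}
    · rw [if_pos hU]
      calc 4 * ((Ct : ℝ) * M * Lam3 ^ Ct) = 4 * ((Ct : ℝ) * Lam3 ^ Ct) * M := by ring
        _ ≤ _ := mul_le_mul_of_nonneg_right hκ hM0.le
    · rw [if_neg hU]
      refine hJ3.trans ?_
      exact le_mul_of_one_le_right (le_trans zero_le_one hE1) hM1'
  · intro U hU
    rw [w6, if_neg hU]
    exact hJ3
  · rw [w7]
    exact hs2.trans hE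

end

end Pool.Agent.M3.Mod
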