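import Pool.Agent.M3.RdD
import Pool.Agent.M3.View

/-!
# M3.RdV: section 2B in the form `ViewHyp` (helper7)

`V t` = any filtration which knows the node `Z t` and the PUBLISHED value `x t` (recorded labels, possibly noisy, and
possibly more), `Dx` = increasing events off which the published value is the recorded value (noise has not struck).
`Xc` = published process clipped at `c`, `gc` its free step clipped at `2c`, `ev` = the step fails.
* `viewHyp`: `ViewHyp P V Xc gc D ev (alive) s (9 c^2)` for every family of dead points `Dd`;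
* Theorem (`Dd = Dead r or Dx`): `noev` (no event at semi alive points), `XS`, `SX`;
* Prop. 1 (`Dd = Dead' c or Dx`): `ev'` (events at alive points are changes of the published value), `XS'`, `SX'`.
-/

set_option autoImplicit false
set_option linter.unusedSectionVars false

namespace Pool.Agent.M3

open Finset Pool.Agent.PWZ

variable {Om : Type*} [Fintype Om] {κ : ℕ → Type*} {α β γ F G U E F' G' U' : Type*}

/-- at a point where the share of `D` is `< 1/2` there is a point of the class off `D` -/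
theorem FP.exists_off (P : FP Om) {ι : Type*} {Y : Om → ι} {D : Om → Prop} {w : Om} (hw : P.p w ≠ 0)
    (h : P.ce Y (fun v => ind (D v)) w < 1) : ∃ v, P.p v ≠ 0 ∧ Y v = Y w ∧ ¬ D v := by
  by_contra hn
  push Not at hn
  have h1 : P.ce Y (fun v => ind (D v)) w = P.ce Y (fun _ => 1) w := by
    unfold FP.ce
    congr 1
    refine P.E_congr fun v hv => ?_
    show ind (Y v = Y w) * ind (D v) = ind (Y v = Y w) * 1
    by_cases hy : Y v = Y w
    · rw [ind_of (hn v hv hy)]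
    · rw [ind_not hy]; ring
  rw [h1, P.ce_const Y 1 hw] at h
  exact lt_irrefl _ h

namespace RT

noncomputable section

/-- the published process -/
structure Pub (S : RT Om κ α β γ F G U E F' G' U') {ι : ℕ → Type*} (V : ∀ t, Om → ι t) (x : ℕ → Om → E × F' × G' × U')
    (D : ℕ → Om → ℝ) (dK : E × F' × G' × U' → ℕ → Om → ℝ) (Dx : ℕ → Om → Prop) : Prop where
  hypT : S.HypT
  filt : Filt V
  VZ : ∀ t, Fac (V t) (S.toRD.Z t)
  Vx : ∀ t, Fac (V t) (x t)
  VD : ∀ t, Fac (V (t + 1)) (D t)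
  digit : ∀ t w, S.P.p w ≠ 0 → D t w = 1 ∨ D t w = -1
  dKf : ∀ v t, Fac (S.toRD.Z t) (dK v t)
  step : ∀ t w, S.P.p w ≠ 0 → S.K (S.vr t w) (t + 1) w = S.K (S.vr t w) t w + D t w * dK (S.vr t w) t w
  Dxi : ∀ t w, S.P.p w ≠ 0 → Dx t w → Dx (t + 1) w
  xv : ∀ t w, S.P.p w ≠ 0 → ¬ Dx t w → x t w = S.vr t w

variable (S : RT Om κ α β γ F G U E F' G' U') {ι : ℕ → Type*} (V : ∀ t, Om → ι t) (x : ℕ → Om → E × F' × G' × U')
    (D : ℕ → Om → ℝ) (dK : E × F' × G' × U' → ℕ → Om → ℝ) (Dx : ℕ → Om → Prop)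

open Classical in
/-- the published process, clipped -/
def Xc (c : ℝ) (t : ℕ) (w : Om) : ℝ := if |S.K (x t w) t w| ≤ c then S.K (x t w) t w else 0

open Classical in
/-- its free step, clipped -/
def gc (c : ℝ) (t : ℕ) (w : Om) : ℝ := if |dK (x t w) t w| ≤ 2 * c then dK (x t w) t w else 0

/-- the step fails -/
def ev (c : ℝ) : ℕ → Om → Prop
  | 0, _ => False
  | t + 1, w => ¬ S.Xc x c (t + 1) w = S.Xc x c t w + D t w * gc x dK c t w

variable {S V x D dK Dx}

theorem ev_succ (c : ℝ) (t : ℕ) (w : Om) :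
    S.ev x D dK c (t + 1) w ↔ ¬ S.Xc x c (t + 1) w = S.Xc x c t w + D t w * gc x dK c t w := Iff.rfl

theorem Xc_abs {c : ℝ} (hc : 0 ≤ c) (t : ℕ) (w : Om) : |S.Xc x c t w| ≤ c := by
  unfold Xc
  split_ifs with h
  · exact h
  · rw [abs_zero]; exact hc

theorem gc_abs {c : ℝ} (hc : 0 ≤ c) (t : ℕ) (w : Om) : |gc x dK c t w| ≤ 2 * c := by
  unfold gc
  split_ifs with h
  · exact h
  · rw [abs_zero]; linarith

theorem Kx_fac (H : S.Pub V x D dK Dx) (t : ℕ) : Fac (V t) (fun w => S.K (x t w) t w) := by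
  intro v w hv
  show S.K (x t v) t v = S.K (x t w) t w
  rw [H.Vx t v w hv]
  exact H.hypT.Kf (x t w) t v w (H.VZ t v w hv)

theorem Xc_fac (H : S.Pub V x D dK Dx) (c : ℝ) (t : ℕ) : Fac (V t) (S.Xc x c t) := by
  intro v w hv
  unfold Xc
  have h := Kx_fac H t v w hv
  simp only at h
  rw [h]

theorem gc_fac (H : S.Pub V x D dK Dx) (c : ℝ) (t : ℕ) : Fac (V t) (gc x dK c t) := by
  intro v w hv
  unfold gc
  rw [H.Vx t v w hv, H.dKf (x t w) t v w (H.VZ t v w hv)]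

theorem ev_iff (H : S.Pub V x D dK Dx) (c : ℝ) (t : ℕ) {v w : Om} (hv : V t v = V t w) :
    S.ev x D dK c t v ↔ S.ev x D dK c t w := by
  cases t with
  | zero => exact Iff.rfl
  | succ t =>
    rw [ev_succ, ev_succ, Xc_fac H c (t + 1) v w hv, Xc_fac H c t v w (H.filt t v w hv), gc_fac H c t v w (H.filt t v w hv),
      H.VD t v w hv]

/-- THE VIEW, for every family of dead points -/
theorem viewHyp (H : S.Pub V x D dK Dx) {c s : ℝ} (hc : 0 ≤ c) (hs : 0 ≤ s) (Dd : ℕ → Om → Prop) :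
    S.P.ViewHyp V (S.Xc x c) (gc x dK c) D (S.ev x D dK c) (S.P.Al V Dd (1 / 2)) s (9 * c ^ 2) := by
  have hPhi : ∀ y : ℝ, |y| ≤ 3 * c → Phi s y ≤ 9 * c ^ 2 := by
    intro y hy
    unfold Phi
    have h1 : max (|y| - s) 0 ≤ 3 * c := max_le (by linarith) (by linarith)
    have h2 : 0 ≤ max (|y| - s) 0 := le_max_right _ _
    calc max (|y| - s) 0 ^ 2 ≤ (3 * c) ^ 2 := pow_le_pow_left₀ h2 h1 2
      _ = 9 * c ^ 2 := by ring
  refine ⟨H.filt, Xc_fac H c, gc_fac H c, fun t v w h => S.P.al_iff H.filt h,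
    fun t w _ h => S.P.al_anti (Nat.le_succ t) h, H.digit, ?_, ?_, ?_⟩
  · intro t w _ h
    rw [ev_succ, not_not] at h
    exact h
  · intro t w _
    exact hPhi _ ((Xc_abs hc t w).trans (by linarith))
  · intro t w hw
    refine hPhi _ ?_
    have h1 := Xc_abs (S := S) (x := x) hc t w
    have h2 := gc_abs (x := x) (dK := dK) hc t w
    have h3 : |D t w * gc x dK c t w| = |gc x dK c t w| := by
      rw [abs_mul]
      rcases H.digit t w hw with h | h
      · rw [h, abs_one, one_mul]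
      · rw [h, abs_neg, abs_one, one_mul]
    have h4 := abs_add_le (S.Xc x c t w) (D t w * gc x dK c t w)
    linarith

/-- one step at a point where the published value is the recorded value and does not change -/
theorem step_ok (H : S.Pub V x D dK Dx) {c : ℝ} {t : ℕ} {w : Om} (hw : S.P.p w ≠ 0)
    (h0 : ¬ Dx t w) (hx : x (t + 1) w = x t w)
    (h1 : |S.K (x t w) t w| ≤ c) (h2 : |S.K (x (t + 1) w) (t + 1) w| ≤ c) :
    S.Xc x c (t + 1) w = S.Xc x c t w + D t w * gc x dK c t w := by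
  have hv := H.xv t w hw h0
  have hst := H.step t w hw
  rw [← hv] at hst
  have hg : |dK (x t w) t w| ≤ 2 * c := by
    have h3 : |D t w * dK (x t w) t w| = |dK (x t w) t w| := by
      rw [abs_mul]
      rcases H.digit t w hw with h | h
      · rw [h, abs_one, one_mul]
      · rw [h, abs_neg, abs_one, one_mul]
    have h4 : D t w * dK (x t w) t w = S.K (x t w) (t + 1) w - S.K (x t w) t w := by linarith
    rw [← h3, h4]
    rw [hx] at h2
    have := abs_sub (S.K (x t w) (t + 1) w) (S.K (x t w) t w)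
    linarith
  unfold Xc gc
  rw [if_pos h1, if_pos h2, if_pos hg, hx]
  exact hst

/-! ## the Theorem: `Dd = Dead r or Dx` -/

/-- dead or noisy -/
def DD (S : RT Om κ α β γ F G U E F' G' U') (Dx : ℕ → Om → Prop) (r : ℝ) (t : ℕ) (w : Om) : Prop := S.Dead r t w ∨ Dx t w

theorem DD_inc (H : S.Pub V x D dK Dx) (r : ℝ) (t : ℕ) (w : Om) (hw : S.P.p w ≠ 0) (h : S.DD Dx r t w) :
    S.DD Dx r (t + 1) w := by
  rcases h with h | h
  · exact Or.inl (dead_inc H.hypT r t w hw h)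
  · exact Or.inr (H.Dxi t w hw h)

theorem DD_le (r : ℝ) (n : ℕ) : S.P.Pr (S.DD Dx r n) ≤ S.P.Pr (S.Dead r n) + S.P.Pr (Dx n) :=
  S.P.Pr_or_le _ _

/-- from `Xc` to `T` -/
theorem XS (H : S.Pub V x D dK Dx) {c r : ℝ} (hr : 0 ≤ r) (t : ℕ) (w : Om) (hw : S.P.p w ≠ 0)
    (hx : 2 * r < |S.Xc x c t w|) (hd : ¬ S.DD Dx r t w) : 2 * r - S.eta ≤ |S.T t w| := by
  unfold DD at hd
  push Not at hd
  have h1 : S.Xc x c t w = S.X t w := by
    unfold Xc at hx ⊢
    split_ifs at hx ⊢ with h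
    · rw [H.xv t w hw hd.2]; rfl
    · rw [abs_zero] at hx; linarith
  rw [h1] at hx
  obtain ⟨_, h2⟩ := dead_D1 H.hypT hw hd.1 (Or.inl hx.le)
  have h3 := abs_sub_abs_le_abs_sub (S.X t w) (S.T t w)
  rw [abs_sub_comm] at h3
  linarith

/-- from `T` to `Xc` -/
theorem SX (H : S.Pub V x D dK Dx) {c r s2 : ℝ} (hT : ∀ t w, S.P.p w ≠ 0 → |S.T t w| + S.eta ≤ c)
    (hs2 : 2 * r ≤ s2 + S.eta) (t : ℕ) (w : Om) (hw : S.P.p w ≠ 0)
    (hx : s2 + S.eta ≤ |S.T t w|) (hd : ¬ S.DD Dx r t w) : s2 ≤ |S.Xc x c t w| := by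
  unfold DD at hd
  push Not at hd
  obtain ⟨_, h2⟩ := dead_D1 H.hypT hw hd.1 (Or.inr (hs2.trans hx))
  have h3 := abs_sub_abs_le_abs_sub (S.T t w) (S.X t w)
  have h4 := abs_sub_abs_le_abs_sub (S.X t w) (S.T t w)
  rw [abs_sub_comm] at h4
  have h6 : |S.X t w| ≤ c := by
    have := hT t w hw
    linarith
  have h5 : |S.K (x t w) t w| ≤ c := by
    rw [H.xv t w hw hd.2]
    exact h6
  have h7 : s2 ≤ |S.X t w| := by linarith
  unfold Xc
  rw [if_pos h5, H.xv t w hw hd.2]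
  exact h7

/-- NO EVENT at semi alive points -/
theorem noev (H : S.Pub V x D dK Dx) {c r : ℝ} (hr : 0 ≤ r) (her : S.eta ≤ r) (hc : 2 * r ≤ c)
    (hT : ∀ t w, S.P.p w ≠ 0 → |S.T t w| + S.eta < c) (t : ℕ) (w : Om) (hw : S.P.p w ≠ 0)
    (hx : 2 * r < |S.Xc x c t w|) (ha : S.P.Al V (S.DD Dx r) (1 / 2) (t + 1) w) :
    ¬ S.ev x D dK c (t + 1) w := by
  obtain ⟨w', hw', hV, hd⟩ := S.P.exists_off hw (lt_trans (ha (t + 1) le_rfl) (by norm_num))
  rw [← ev_iff H c (t + 1) hV]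
  have hVt := H.filt t w' w hV
  rw [← Xc_fac H c t w' w hVt] at hx
  unfold DD at hd
  push Not at hd
  have hDx : ¬ Dx t w' := fun h => hd.2 (H.Dxi t w' hw' h)
  have h1 : |S.K (x t w') t w'| ≤ c := by
    by_contra hn
    unfold Xc at hx
    rw [if_neg hn, abs_zero] at hx
    linarith
  have h1' : 2 * r < |S.X t w'| := by
    unfold Xc at hx
    rw [if_pos h1, H.xv t w' hw' hDx] at hx
    exact hx
  have h2 := dead_D2 H.hypT her hw' hd.1 h1'.le
  have h3 : x (t + 1) w' = x t w' := by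
    rw [H.xv (t + 1) w' hw' hd.2, H.xv t w' hw' hDx, h2]
  have h4 : |S.K (x (t + 1) w') (t + 1) w'| ≤ c := by
    by_contra hn
    have h5 : c < |S.X (t + 1) w'| := by
      rw [H.xv (t + 1) w' hw' hd.2] at hn
      exact not_le.mp hn
    obtain ⟨_, h6⟩ := dead_D1 H.hypT hw' hd.1 (Or.inl (hc.trans h5.le))
    have h7 := abs_sub_abs_le_abs_sub (S.X (t + 1) w') (S.T (t + 1) w')
    rw [abs_sub_comm] at h7
    have := hT (t + 1) w' hw'
    linarith
  rw [ev_succ, not_not]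
  exact step_ok H hw' hDx h3 h1 h4

/-! ## Proposition 1: `Dd = Dead' c or Dx` -/

/-- dead or noisy -/
def DD' (S : RT Om κ α β γ F G U E F' G' U') (Dx : ℕ → Om → Prop) (q : ℝ) (t : ℕ) (w : Om) : Prop := S.Dead' q t w ∨ Dx t w

theorem DD'_inc (H : S.Pub V x D dK Dx) (q : ℝ) (t : ℕ) (w : Om) (hw : S.P.p w ≠ 0) (h : S.DD' Dx q t w) :
    S.DD' Dx q (t + 1) w := by
  rcases h with h | h
  · exact Or.inl (dead'_inc H.hypT q t w hw h)
  · exact Or.inr (H.Dxi t w hw h)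

theorem DD'_le (q : ℝ) (n : ℕ) : S.P.Pr (S.DD' Dx q n) ≤ S.P.Pr (S.Dead' q n) + S.P.Pr (Dx n) :=
  S.P.Pr_or_le _ _

/-- from `Xc` to `T` -/
theorem XS' (H : S.Pub V x D dK Dx) {c s : ℝ} (hs : 0 ≤ s) (t : ℕ) (w : Om) (hw : S.P.p w ≠ 0)
    (hx : s < |S.Xc x c t w|) (hd : ¬ S.DD' Dx c t w) : ¬ S.toRD.utd t w ∨ s - S.eta ≤ |S.T t w| := by
  unfold DD' at hd
  push Not at hd
  have h1 : S.Xc x c t w = S.X t w := by
    unfold Xc at hx ⊢
    split_ifs at hx ⊢ with h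
    · rw [H.xv t w hw hd.2]; rfl
    · rw [abs_zero] at hx; linarith
  rw [h1] at hx
  rcases dead'_T H.hypT hw hd.1 with h2 | h2
  · exact Or.inl h2
  · right
    have h3 := abs_sub_abs_le_abs_sub (S.X t w) (S.T t w)
    rw [abs_sub_comm] at h3
    linarith

/-- from `T` to `Xc`: off the points which are not up to date -/
theorem SX' (H : S.Pub V x D dK Dx) {p c s2 : ℝ} (hpc : p ≤ c) (hT : ∀ t w, S.P.p w ≠ 0 → |S.T t w| + S.eta < p)
    (t : ℕ) (w : Om) (hw : S.P.p w ≠ 0)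
    (hx : s2 + S.eta ≤ |S.T t w|) (hd : ¬ S.DD' Dx c t w) (hu : S.toRD.utd t w) : s2 ≤ |S.Xc x c t w| := by
  unfold DD' at hd
  push Not at hd
  have h2 := TX' H.hypT hw (fun h0 => hd.1 (Or.inl h0)) hu
  have h3 := abs_sub_abs_le_abs_sub (S.T t w) (S.X t w)
  have h5 : |S.K (x t w) t w| ≤ c := by
    rw [H.xv t w hw hd.2]
    exact (dead'_X H.hypT hpc hT hw hd.1).le
  have h7 : s2 ≤ |S.X t w| := by linarith
  unfold Xc
  rw [if_pos h5, H.xv t w hw hd.2]
  exact h7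

/-- an event at an alive point is a change of the published value -/
theorem ev' (H : S.Pub V x D dK Dx) {p c : ℝ} (hpc : p ≤ c)
    (hT : ∀ t w, S.P.p w ≠ 0 → |S.T t w| + S.eta < p) (t : ℕ) (w : Om) (hw : S.P.p w ≠ 0)
    (ha : S.P.Al V (S.DD' Dx c) (1 / 2) (t + 1) w) (he : S.ev x D dK c (t + 1) w) :
    x (t + 1) w ≠ x t w := by
  obtain ⟨w', hw', hV, hd⟩ := S.P.exists_off hw (lt_trans (ha (t + 1) le_rfl) (by norm_num))
  intro hx
  rw [← ev_iff H c (t + 1) hV] at he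
  have hVt := H.filt t w' w hV
  rw [← H.Vx t w' w hVt, ← H.Vx (t + 1) w' w hV] at hx
  have hd' : ¬ S.DD' Dx c t w' := fun h => hd (DD'_inc H c t w' hw' h)
  unfold DD' at hd hd'
  push Not at hd hd'
  have h1 : |S.K (x t w') t w'| ≤ c := by
    rw [H.xv t w' hw' hd'.2]
    exact (dead'_X H.hypT hpc hT hw' hd'.1).le
  have h2 : |S.K (x (t + 1) w') (t + 1) w'| ≤ c := by
    rw [H.xv (t + 1) w' hw' hd.2]
    exact (dead'_X H.hypT hpc hT hw' hd.1).le
  exact he (step_ok H hw' hd'.2 hx h1 h2)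

end

end RT

end Pool.Agent.M3
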