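import Pool.Agent.M3.NVD
import Pool.Agent.M3.RdV

/-!
# M3.NVP: the view of NVof, the published process in the model (helper7)

Raw process `S : RTm ..` (numbered labels, no coins, model `Sp k N 3 Θ Ξ`), `ix` = number of the true option.
* `Raw` : hypotheses on the raw process (`RT.HypT` and the relation to the families `R`);
* `fL`, `gL` : the two labelled pairs; `labF`, `labG` : `LabH`;
* `pvF`, `pvG`, `xx` : published plain labels, published value; `AA` : the view; `dd` : errors (raw errors, noise);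
* `pubAA` : `RT.Pub` for every increasing family of dead points which contains `dd`.
-/

set_option autoImplicit false
set_option linter.unusedSectionVars false

namespace Pool.Agent.M3.Mod

open Finset Pool.Agent.PWZ Pool.Agent.M3.Bin

/-- the type of the raw process -/
abbrev RTm (k N : ℕ) (Θ Ξ : Type) [Fintype Θ] [Fintype Ξ] (i : Fin 3) (M : ℕ) (Uu Up : Type) :=
  RT (Sp k N 3 Θ Ξ) (fun _ => Θ × (V k × ℕ) × ({a : Fin 3 // a ≠ i} → V k)) (Ξ × V k) (Ξ × V k) (Ξ × V k)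
    (Bool → Fin (M + 1)) (Bool → Fin (M + 1)) Uu (Fin (M + 1)) (Fin (M + 1)) (Fin (M + 1)) Up

/-- sample points with coins -/
abbrev OmC (k N : ℕ) (Θ Ξ : Type) (Rz M : ℕ) := Sp k N 3 Θ (Ξ × Co k N Ξ Rz (Bool → Fin (M + 1)))

variable {k N : ℕ} {Θ Ξ : Type} [Fintype Θ] [Nonempty Θ] [Fintype Ξ] [Nonempty Ξ]

section raw

variable {i : Fin 3} {M : ℕ} {Uu Up : Type}

/-- the labelled pair `(i,j)` -/
def fL (S : RTm k N Θ Ξ i M Uu Up) (ix : ℕ → Sp k N 3 Θ Ξ → Bool) : L1 (Sp k N 3 Θ Ξ) (Fin (M + 1)) where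
  x := S.f
  xp := S.fp
  ix := ix
  cl := fun t w => S.toRD.pp t w ∨ S.toRD.pf t w
  bb := fun t w => S.toRD.bf t w

/-- the labelled pair `(i,l)` -/
def gL (S : RTm k N Θ Ξ i M Uu Up) (ix : ℕ → Sp k N 3 Θ Ξ → Bool) : L1 (Sp k N 3 Θ Ξ) (Fin (M + 1)) where
  x := S.g
  xp := S.gp
  ix := ix
  cl := fun t w => S.toRD.pp t w ∨ S.toRD.pg t w
  bb := fun t w => S.toRD.bg t w

/-- HYPOTHESES ON THE RAW PROCESS -/
structure Raw (i j l : Fin 3) (h : ℕ) (R : Fin 3 → Fam2 k Unit) (S : RTm k N Θ Ξ i M Uu Up)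
    (ix : ℕ → Sp k N 3 Θ Ξ → Bool) (dK : Fin (M + 1) × Fin (M + 1) × Fin (M + 1) × Up → ℕ → Sp k N 3 Θ Ξ → ℝ)
    (u0 : Up) (ne nf q0 : ℝ) : Prop where
  hij : j ≠ i
  hli : l ≠ i
  hlj : l ≠ j
  hyp : S.HypT
  rd : S.toRD = mdl i j l h S.f S.g S.u S.al S.be
  ixf : ∀ t, Fac (S.toRD.Z t) (ix t)
  fpx : ∀ t w, S.fp t w = S.f t w (ix t w)
  gpx : ∀ t w, S.gp t w = S.g t w (ix t w)
  up : ∀ t w, S.up t w = u0
  uc : ∀ t w, S.u (t + 1) w = S.u t w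
  T : ∀ t w, S.T t w = TZ h (fun a => liftF (R a)) t w
  T8 : ∀ t w, |S.T t w| ≤ 8
  eta : S.eta < 1 / 2
  chE : ∀ t w, S.e (t + 1) w ≠ S.e t w → chE h i (liftF (R i)) t w
  zer : ∀ t w, fz h i (liftF (R i)) t w = 0 → ∀ v : Fin (M + 1) × Fin (M + 1) × Fin (M + 1) × Up,
    v.1 = S.e t w → S.K v t w = 0
  dKf : ∀ v t, Fac (S.toRD.Z t) (dK v t)
  step : ∀ t w, S.K (S.vr t w) (t + 1) w = S.K (S.vr t w) t w + Dg (ex N (t + 1)) w * dK (S.vr t w) t w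
  D0q : Pm.Pr (S.D0 N) ≤ q0
  eJ : ∑ t ∈ range N, Pm.Pr (fun w : Sp k N 3 Θ Ξ => Mod.chE h i (liftF (R i)) t w) ≤ ne
  fJ : ∑ t ∈ range N, Pm.Pr (fun w => S.f (t + 1) w ≠ S.f t w) ≤ nf
  gJ : ∑ t ∈ range N, Pm.Pr (fun w => S.g (t + 1) w ≠ S.g t w) ≤ nf

variable {j l : Fin 3} {h : ℕ} {R : Fin 3 → Fam2 k Unit} {S : RTm k N Θ Ξ i M Uu Up}
    {ix : ℕ → Sp k N 3 Θ Ξ → Bool} {dK : Fin (M + 1) × Fin (M + 1) × Fin (M + 1) × Up → ℕ → Sp k N 3 Θ Ξ → ℝ}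
    {u0 : Up} {ne nf q0 : ℝ}

namespace Raw

variable (H : Raw i j l h R S ix dK u0 ne nf q0)

include H

theorem P_eq : S.P = Pm := congrArg RD.P H.rd
theorem Q_eq (t : ℕ) : S.Q t = Qn i h (ex N t) := congrFun (congrArg RD.Q H.rd) t
theorem A_eq : S.A = vx i := congrArg RD.A H.rd
theorem B_eq : S.B = vx j := congrArg RD.B H.rd
theorem C_eq : S.C = vx l := congrArg RD.C H.rd

theorem Z_eq (t : ℕ) (w : Sp k N 3 Θ Ξ) : S.toRD.Z t w = (vx j w, vx l w, Qn i h (ex N t) w) := by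
  unfold RD.Z
  rw [H.B_eq, H.C_eq, H.Q_eq]

theorem ZB_eq (t : ℕ) (w : Sp k N 3 Θ Ξ) : S.toRD.ZB t w = (vx j w, Qn i h (ex N t) w) := by
  unfold RD.ZB
  rw [H.B_eq, H.Q_eq]

theorem ZC_eq (t : ℕ) (w : Sp k N 3 Θ Ξ) : S.toRD.ZC t w = (vx l w, Qn i h (ex N t) w) := by
  unfold RD.ZC
  rw [H.C_eq, H.Q_eq]

theorem ne0 (w : Sp k N 3 Θ Ξ) : S.P.p w ≠ 0 := by
  rw [H.P_eq]
  exact Pm_ne w

theorem rup_eq (t : ℕ) (w : Sp k N 3 Θ Ξ) : S.rup t w = u0 := by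
  induction t with
  | zero => exact H.up 0 w
  | succ t ih =>
    unfold RT.rup
    by_cases hp : S.toRD.pp t w
    · rw [if_pos hp]; exact H.up (t + 1) w
    · rw [if_neg hp, ih]

theorem labF : LabH i j h (fL S ix) where
  cl := fun t v w hj hQ => by
    have h1 : S.Q (t + 1) v = S.Q (t + 1) w := by rw [H.Q_eq]; exact hQ
    have h2 : S.toRD.ZB (t + 1) v = S.toRD.ZB (t + 1) w := by rw [H.ZB_eq, H.ZB_eq, hj, hQ]
    exact or_congr (RD.pp_iff h1) (RD.pf_iff h2)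
  x := fun t => by
    have h1 := H.hyp.hyp.ff t
    rw [H.A_eq, H.B_eq, H.Q_eq] at h1
    exact h1
  bb := fun t v w hi hj hQ => by
    refine RD.bf_iff H.hyp.hyp ?_ ?_ ?_
    · rw [H.A_eq]; exact hi
    · rw [H.B_eq]; exact hj
    · rw [H.Q_eq]; exact hQ

theorem labG : LabH i l h (gL S ix) where
  cl := fun t v w hl hQ => by
    have h1 : S.Q (t + 1) v = S.Q (t + 1) w := by rw [H.Q_eq]; exact hQ
    have h2 : S.toRD.ZC (t + 1) v = S.toRD.ZC (t + 1) w := by rw [H.ZC_eq, H.ZC_eq, hl, hQ]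
    exact or_congr (RD.pp_iff h1) (RD.pg_iff h2)
  x := fun t => by
    have h1 := H.hyp.hyp.fg t
    rw [H.A_eq, H.C_eq, H.Q_eq] at h1
    exact h1
  bb := fun t v w hi hl hQ => by
    refine RD.bg_iff H.hyp.hyp ?_ ?_ ?_
    · rw [H.A_eq]; exact hi
    · rw [H.C_eq]; exact hl
    · rw [H.Q_eq]; exact hQ

omit H in
theorem rp_fL (t : ℕ) (w : Sp k N 3 Θ Ξ) : (fL S ix).rp t w = S.rfp t w := by
  induction t with
  | zero => rfl
  | succ t ih =>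
    unfold L1.rp RT.rfp
    by_cases hc : S.toRD.pp t w ∨ S.toRD.pf t w
    · rw [if_pos hc, if_pos (show (fL S ix).cl t w from hc)]; rfl
    · rw [if_neg hc, if_neg (show ¬ (fL S ix).cl t w from hc), ih]

omit H in
theorem rp_gL (t : ℕ) (w : Sp k N 3 Θ Ξ) : (gL S ix).rp t w = S.rgp t w := by
  induction t with
  | zero => rfl
  | succ t ih =>
    unfold L1.rp RT.rgp
    by_cases hc : S.toRD.pp t w ∨ S.toRD.pg t w
    · rw [if_pos hc, if_pos (show (gL S ix).cl t w from hc)]; rfl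
    · rw [if_neg hc, if_neg (show ¬ (gL S ix).cl t w from hc), ih]

end Raw

end raw

/-! ## with coins -/

section coins

variable {i : Fin 3} {M : ℕ} {Uu Up υ : Type} {Rz : ℕ}

/-- published plain label of the pair `(i,j)` -/
noncomputable def pvF (J n0 : ℕ) (i j : Fin 3) (S : RTm k N Θ Ξ i M Uu Up) (ix : ℕ → Sp k N 3 Θ Ξ → Bool) (t : ℕ)
    (w : OmC k N Θ Ξ Rz M) : Fin (M + 1) :=
  ((fL S ix).pull pic).pv Rz J n0 (nuF i j) 0 t w

/-- published plain label of the pair `(i,l)` -/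
noncomputable def pvG (J n0 : ℕ) (i l : Fin 3) (S : RTm k N Θ Ξ i M Uu Up) (ix : ℕ → Sp k N 3 Θ Ξ → Bool) (t : ℕ)
    (w : OmC k N Θ Ξ Rz M) : Fin (M + 1) :=
  ((gL S ix).pull pic).pv Rz J n0 (nuG i l) 0 t w

/-- published value -/
noncomputable def xx (J n0 : ℕ) (i j l : Fin 3) (S : RTm k N Θ Ξ i M Uu Up) (ix : ℕ → Sp k N 3 Θ Ξ → Bool) (t : ℕ)
    (w : OmC k N Θ Ξ Rz M) : Fin (M + 1) × Fin (M + 1) × Fin (M + 1) × Up :=
  (S.e t (pic w), pvF J n0 i j S ix t w, pvG J n0 i l S ix t w, S.rup t (pic w))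

/-- the view -/
noncomputable def AA (J n0 : ℕ) (i j l : Fin 3) (S : RTm k N Θ Ξ i M Uu Up) (ix : ℕ → Sp k N 3 Θ Ξ → Bool)
    (Uc : ℕ → OmC k N Θ Ξ Rz M → υ) (t : ℕ)
    (w : OmC k N Θ Ξ Rz M) :
    (Θ × (V k × ℕ) × ({a : Fin 3 // a ≠ i} → (Ξ × Co k N Ξ Rz (Bool → Fin (M + 1))) × V k)) ×
      (Fin (N + 1) → Option (Bool → Fin (M + 1))) × (Fin (N + 1) → Option (Bool → Fin (M + 1))) × υ :=
  (Kn i (ex N t) w, letF Rz J n0 i j (fL S ix) t w, letG Rz J n0 i l (gL S ix) t w, Uc t w)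

/-- errors: raw errors, noise -/
def dd (J n0 : ℕ) (i j l : Fin 3) (S : RTm k N Θ Ξ i M Uu Up) (ix : ℕ → Sp k N 3 Θ Ξ → Bool) (t : ℕ)
    (w : OmC k N Θ Ξ Rz M) : Prop :=
  S.D0 t (pic w) ∨ ((fL S ix).pull pic).bad Rz J n0 (nuF i j) t w ∨ ((gL S ix).pull pic).bad Rz J n0 (nuG i l) t w

variable {j l : Fin 3} {h J n0 : ℕ} {R : Fin 3 → Fam2 k Unit} {S : RTm k N Θ Ξ i M Uu Up}
    {ix : ℕ → Sp k N 3 Θ Ξ → Bool} {dK : Fin (M + 1) × Fin (M + 1) × Fin (M + 1) × Up → ℕ → Sp k N 3 Θ Ξ → ℝ}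
    {u0 : Up} {ne nf q0 : ℝ} (H : Raw i j l h R S ix dK u0 ne nf q0)
    {Uc : ℕ → OmC k N Θ Ξ Rz M → υ}

include H

theorem dd_inc (t : ℕ) (w : OmC k N Θ Ξ Rz M) (hd : dd J n0 i j l S ix t w) :
    dd J n0 i j l S ix (t + 1) w := by
  rcases hd with hd | hd | hd
  · exact Or.inl (H.hyp.D0i t (pic w) (H.ne0 _) hd)
  · exact Or.inr (Or.inl (L1.bad_inc hd))
  · exact Or.inr (Or.inr (L1.bad_inc hd))

/-- off the errors the published value is the recorded value -/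
theorem xx_eq {t : ℕ} {w : OmC k N Θ Ξ Rz M} (hd : ¬ dd J n0 i j l S ix t w) :
    xx J n0 i j l S ix t w = S.vr t (pic w) := by
  have hd' := hd
  unfold dd at hd'
  push Not at hd'
  obtain ⟨h0, h1, h2⟩ := hd'
  have hD : ∀ s ≤ t, ¬ S.D0 s (pic w) := by
    intro s hs h3
    exact h0 (S.P.inc_le H.hyp.D0i hs (H.ne0 _) h3)
  have e1 : pvF J n0 i j S ix t w = S.rfp t (pic w) := by
    unfold pvF
    rw [L1.pv_eq (D := (fL S ix).pull pic) (fun s _ => H.fpx s (pic w)) ?_ h1, L1.rp_pull, Raw.rp_fL]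
    intro s hs hb
    rw [L1.rp_pull, L1.rp_pull, Raw.rp_fL, Raw.rp_fL]
    by_contra hne
    exact hb (RT.rfp_ne H.hyp (H.ne0 _) (hD (s + 1) hs) hne).2
  have e2 : pvG J n0 i l S ix t w = S.rgp t (pic w) := by
    unfold pvG
    rw [L1.pv_eq (D := (gL S ix).pull pic) (fun s _ => H.gpx s (pic w)) ?_ h2, L1.rp_pull, Raw.rp_gL]
    intro s hs hb
    rw [L1.rp_pull, L1.rp_pull, Raw.rp_gL, Raw.rp_gL]
    by_contra hne
    exact hb (RT.rgp_ne H.hyp (H.ne0 _) (hD (s + 1) hs) hne).2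
  unfold xx RT.vr
  rw [e1, e2]

omit H in
/-- the known vertices without coins and the public node are known in the view -/
theorem AA_known (hij : j ≠ i) (hli : l ≠ i) (h t : ℕ) {v w : OmC k N Θ Ξ Rz M}
    (hv : AA J n0 i j l S ix Uc t v = AA J n0 i j l S ix Uc t w) :
    vx j (pic v) = vx j (pic w) ∧ vx l (pic v) = vx l (pic w) ∧ Qn i h (ex N t) v = Qn i h (ex N t) w := by
  have h1 : Kn i (ex N t) v = Kn i (ex N t) w := congrArg Prod.fst hv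
  have h2 := Kn_Z hij hli h (ex N t) v w h1
  simp only [Prod.mk.injEq] at h2
  refine ⟨?_, ?_, h2.2.2⟩
  · rw [vx_pic, vx_pic, h2.1]
  · rw [vx_pic, vx_pic, h2.2.1]

theorem AA_Z (t : ℕ) {v w : OmC k N Θ Ξ Rz M}
    (hv : AA J n0 i j l S ix Uc t v = AA J n0 i j l S ix Uc t w) : S.toRD.Z t (pic v) = S.toRD.Z t (pic w) := by
  obtain ⟨h1, h2, h3⟩ := AA_known H.hij H.hli h t hv
  rw [H.Z_eq, H.Z_eq, h1, h2, Qn_pic, Qn_pic, h3]

omit H in
theorem letF_mono {s t : ℕ} (hs : s ≤ t) {D : L1 (Sp k N 3 Θ Ξ) (Fin (M + 1))} {v w : OmC k N Θ Ξ Rz M}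
    (hv : letF Rz J n0 i j D t v = letF Rz J n0 i j D t w) : letF Rz J n0 i j D s v = letF Rz J n0 i j D s w := by
  funext r
  have h1 := congrFun hv r
  unfold letF L1.LF Nz.lab at h1 ⊢
  by_cases hr : r.val ≤ s
  · rw [if_pos (hr.trans hs), if_pos (hr.trans hs)] at h1
    rw [if_pos hr, if_pos hr, h1]
  · rw [if_neg hr, if_neg hr]

omit H in
theorem letG_mono {s t : ℕ} (hs : s ≤ t) {D : L1 (Sp k N 3 Θ Ξ) (Fin (M + 1))} {v w : OmC k N Θ Ξ Rz M}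
    (hv : letG Rz J n0 i l D t v = letG Rz J n0 i l D t w) : letG Rz J n0 i l D s v = letG Rz J n0 i l D s w := by
  funext r
  have h1 := congrFun hv r
  unfold letG L1.LF Nz.lab at h1 ⊢
  by_cases hr : r.val ≤ s
  · rw [if_pos (hr.trans hs), if_pos (hr.trans hs)] at h1
    rw [if_pos hr, if_pos hr, h1]
  · rw [if_neg hr, if_neg hr]

omit H in
theorem AA_filt (hij : j ≠ i) (hli : l ≠ i) (hUs : ∀ t, Fac (fun w => (Qn i h (ex N (t + 1)) w, Uc (t + 1) w)) (Uc t)) :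
    Filt (AA J n0 i j l S ix Uc) := by
  intro t v w hv
  have h0 := AA_known hij hli h (t + 1) hv
  unfold AA at hv ⊢
  simp only [Prod.mk.injEq] at hv ⊢
  refine ⟨filt_Kn i t v w hv.1, letF_mono (Nat.le_succ t) hv.2.1, letG_mono (Nat.le_succ t) hv.2.2.1, ?_⟩
  exact hUs t v w (by simp only [Prod.mk.injEq]; exact ⟨h0.2.2, hv.2.2.2⟩)

omit H in
theorem AA_Kn (t : ℕ) : Fac (AA J n0 i j l S ix Uc t) (Kn i (ex N t)) := fun _ _ hv => congrArg Prod.fst hv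

theorem pvF_fac {ι : ℕ → Type*} {Y : ∀ t, OmC k N Θ Ξ Rz M → ι t} (hY : Filt Y)
    (hL : ∀ t, Fac (Y t) (letF Rz J n0 i j (fL S ix) t)) (hZ : ∀ t, Fac (Y t) (fun w => S.toRD.Z t (pic w))) (t : ℕ) :
    Fac (Y t) (pvF J n0 i j S ix t) :=
  L1.pv_fac (D := (fL S ix).pull pic) hY hL (fun t v w hv => H.ixf t (pic v) (pic w) (hZ t v w hv)) t

theorem pvG_fac {ι : ℕ → Type*} {Y : ∀ t, OmC k N Θ Ξ Rz M → ι t} (hY : Filt Y)
    (hL : ∀ t, Fac (Y t) (letG Rz J n0 i l (gL S ix) t)) (hZ : ∀ t, Fac (Y t) (fun w => S.toRD.Z t (pic w))) (t : ℕ) :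
    Fac (Y t) (pvG J n0 i l S ix t) :=
  L1.pv_fac (D := (gL S ix).pull pic) hY hL (fun t v w hv => H.ixf t (pic v) (pic w) (hZ t v w hv)) t

/-- THE PUBLISHED PROCESS, for every increasing family of dead points which contains the errors -/
theorem pubAA (hUs : ∀ t, Fac (fun w => (Qn i h (ex N (t + 1)) w, Uc (t + 1) w)) (Uc t))
    {D0' : ℕ → OmC k N Θ Ξ Rz M → Prop} (hi : ∀ t w, D0' t w → D0' (t + 1) w)
    (hD : ∀ t w, dd J n0 i j l S ix t w → D0' t w) :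
    (S.pull Pm pic D0').Pub (AA J n0 i j l S ix Uc) (xx J n0 i j l S ix) (fun t => Dg (ex N (t + 1)))
      (fun v t w => dK v t (pic w)) D0' where
  hypT := by
    have hP : Pul Pm S.P (pic (k := k) (N := N) (m := 3) (Θ := Θ) (Ξ := Ξ)
        (Ci := Co k N Ξ Rz (Bool → Fin (M + 1)))) := by
      rw [H.P_eq]; exact pul_pic
    exact RT.pull_hypT hP D0' H.hyp (fun t w _ => hi t w) (fun t w _ h0 => hD t w (Or.inl h0))
  filt := AA_filt H.hij H.hli hUs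
  VZ := fun t v w hv => AA_Z H t hv
  Vx := fun t v w hv => by
    have hZ : ∀ t, Fac (AA J n0 i j l S ix Uc t) (fun w => S.toRD.Z t (pic w)) := fun t v w hv => AA_Z H t hv
    unfold xx
    rw [H.hyp.fe t _ _ (AA_Z H t hv), H.rup_eq, H.rup_eq,
      pvF_fac H (AA_filt H.hij H.hli hUs) (fun t v w hv => congrArg (fun q => q.2.1) hv) hZ t v w hv,
      pvG_fac H (AA_filt H.hij H.hli hUs) (fun t v w hv => congrArg (fun q => q.2.2.1) hv) hZ t v w hv]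
  VD := fun t v w hv => by
    have h1 : Kn i (ex N (t + 1)) v = Kn i (ex N (t + 1)) w := congrArg Prod.fst hv
    unfold Kn at h1
    simp only [Prod.mk.injEq] at h1
    exact fac_Dg_Zn i (ex N (t + 1)) v w h1.2.1
  digit := fun t w _ => Dg_val _ w
  dKf := fun v t x y hv => H.dKf v t _ _ hv
  step := fun t w _ => by
    have hP : Pul Pm S.P (pic (k := k) (N := N) (m := 3) (Θ := Θ) (Ξ := Ξ)
        (Ci := Co k N Ξ Rz (Bool → Fin (M + 1)))) := by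
      rw [H.P_eq]; exact pul_pic
    have h1 := H.step t (pic w)
    rw [RT.pull_vr hP]
    exact h1
  Dxi := fun t w _ => hi t w
  xv := fun t w _ hn => by
    have hP : Pul Pm S.P (pic (k := k) (N := N) (m := 3) (Θ := Θ) (Ξ := Ξ)
        (Ci := Co k N Ξ Rz (Bool → Fin (M + 1)))) := by
      rw [H.P_eq]; exact pul_pic
    rw [RT.pull_vr hP]
    exact xx_eq H (fun h0 => hn (hD t w h0))

end coins

end Pool.Agent.M3.Mod
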