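import Pool.Agent.M3.RdOutR
import Pool.Agent.M3.NVT
import Pool.Agent.M3.S2.MainM

/-!
# M3.NVTr : transfer to the finer rounding (helper52)

* `TZ_tr`, `fz_tr`, `chE_tr` : lifted and refined families;
* **`rawR_fine`** : `RawR` for the families `fine h0 (R a)` at the rounding `h2`, from `Out` for the process of an input of
  section 2 at the rounding `h1` and the facts of `inpL`.
-/

set_option autoImplicit false
set_option linter.unusedSectionVars false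

namespace Pool.Agent.M3.Mod

open Finset Pool.Agent.PWZ Pool.Agent.M3.Bin Pool.Agent.M3.S2

noncomputable section

variable {k N : ℕ}

section tr

variable {Θ P : Type} {h0 h : ℕ}

theorem TZ_tr (hh : h0 ≤ h) (R : Fin 3 → Fam2 k Unit) (t : ℕ) (w : Sp k N 3 Θ P) :
    TZ h (fun a => liftF (fine h0 (R a))) t w = TZ h0 R t (prU w) := by
  rw [TZ_lift h (fun a => fine h0 (R a)), TZ_fine hh]

theorem fz_tr (hh : h0 ≤ h) (i : Fin 3) (R : Fam2 k Unit) (t : ℕ) (w : Sp k N 3 Θ P) :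
    fz h i (liftF (fine h0 R)) t w = fz h0 i R t (prU w) := by
  rw [fz_lift h i (fine h0 R), fz_fine hh]

theorem chE_tr (hh : h0 ≤ h) (i : Fin 3) (R : Fam2 k Unit) (t : ℕ) (w : Sp k N 3 Θ P) :
    chE h i (liftF (fine h0 R)) t w ↔ chE h0 i R t (prU w) := by
  unfold chE
  rw [fz_tr hh, fz_tr hh]

theorem abs_tr {R : Fam2 k Unit} {B : ℝ} (hR : ∀ e g x y d, |R e g x y d| ≤ B) (e : ℕ) (g : V k × ℕ) (x y : P × V k)
    (d : V k) : |liftF (fine h0 R) e g x y d| ≤ B := hR _ _ _ _ _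

end tr

variable {Ξ : Type} [Fintype Ξ] [Nonempty Ξ] {i j l : Fin 3} {hij : j ≠ i} {hli : l ≠ i} {hlj : l ≠ j}
  {hN : N ≤ k} {h0 h1 h2 : ℕ} {S : Type} [Fintype S] [DecidableEq S] {m : ℕ} [NeZero m] {eps q Lam J : ℝ} {M : ℕ}

/-- **`RawR` at the finer rounding** -/
theorem rawR_fine (h02 : h0 ≤ h2) (h12 : h1 ≤ h2)
    (I : S2.Inp (tri Unit (S → Fin m) Unit hij hli hlj hN h1) S)
    (O : S2.Out (tri Unit (S → Fin m) Unit hij hli hlj hN h2) (fun t => Qn i h2 (ex N t)) I.TT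
      (I.E2n (fineTri Unit (S → Fin m) Unit hij hli hlj hN h12)) eps q Lam J M) {R : Fin 3 → Fam2 k Unit}
    (hG : ∀ t (ω : Sp k N 3 Unit ((S → Fin m) × Unit)), I.G1 t (gq h1 (ex N t) ω) (vq j ω) (vq l ω) =
      fun d => fz h0 i (R i) t (prU ω) d / 2) {qb : ℝ}
    (hb : (Pm : FP (Sp k N 3 Unit ((S → Fin m) × Unit))).Pr (fun ω => ∃ t ≤ N,
      TZ h0 R t (prU ω) ≠ 4 * I.TT t ω) ≤ qb) (heps : 0 ≤ eps) (heta : 4 * eps < 1 / 2)
    {al be : ℝ} (al0 : 0 < al) (be0 : 0 < be) (ab : al ≤ be ^ 2) (be1 : be ≤ 1)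
    (hR : ∀ a e g x y d, |R a e g x y d| ≤ 2) {p0 : ℝ}
    (hp : ∀ ω : Sp k N 3 Unit Unit, ∑ t ∈ range N, ind (chE h0 i (R i) t ω) ≤ p0) {M' : ℕ}
    (hM1 : 2 * M ≤ M') (hM2 : p0 + 1 ≤ M') :
    RawR i j l h2 (fun a => fine h0 (R a)) (outRT O 4 (TZ h2 (fun a => liftF (fine h0 (R a)))) al be)
      (oix i j l hij hli hlj hN h2) (dKo O 4) M' p0 (4 * J + 1) (q + qb) (2 * q) := by
  refine rawR_of_out O (c := 4) (R := fun a => fine h0 (R a)) (by norm_num) (fun t g b c d => I.G1b _ _ _ _ _) heps heta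
    al0 be0 ab be1 ?_ ?_ ?_ ?_ hM1 hM2
  · intro t _ w d
    rw [fz_tr h02]
    have h3 := congrFun (hG t w) d
    have h4 : (fineTri Unit (S → Fin m) Unit hij hli hlj hN h12).crs t (gq h2 (ex N t) w) = gq h1 (ex N t) w :=
      (fineTri Unit (S → Fin m) Unit hij hli hlj hN h12).crs_gm t w
    show fz h0 i (R i) t (prU w) d = 2 * I.G1 t ((fineTri Unit (S → Fin m) Unit hij hli hlj hN h12).crs t
      (gq h2 (ex N t) w)) (vq j w) (vq l w) d
    rw [h4, h3]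
    ring
  · intro t w
    exact abs_TZ_le h2 (fun a => abs_tr (hR a)) t w
  · refine le_trans (FP.Pr_mono _ ?_) hb
    rintro w _ ⟨t, ht, h3⟩
    rw [TZ_tr h02] at h3
    exact ⟨t, ht, h3⟩
  · intro w
    refine le_trans (Finset.sum_le_sum fun t _ => ?_) (hp (prU w))
    exact ind_mono fun h3 => (chE_tr h02 i (R i) t w).1 h3

end

end Pool.Agent.M3.Mod
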