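import Pool.Agent.M3.NVB

/-!
# M3.NVof: THE NAMED VIEW from the raw process (2B) and the output of section 3 (helper7)

`nvof` : `Raw` (raw process with numbered labels) and `B3` (output of section 3 for the noisy letters) give a named view
`NV k N Θ (Ξ × Co ..) i h (liftF (R a))`.
-/

set_option autoImplicit false
set_option linter.unusedSectionVars false

namespace Pool.Agent.M3.Mod

open Finset Pool.Agent.PWZ Pool.Agent.M3.Bin

variable {k N : ℕ} {Θ Ξ : Type} [Fintype Θ] [Nonempty Θ] [Fintype Ξ] [Nonempty Ξ]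

theorem UU_eq {i j l : Fin 3} (hij : j ≠ i) (hli : l ≠ i) (hlj : l ≠ j) : UU i = {{i}, {i, j}, {i, l}} := by
  revert i j l
  decide

theorem st_ne1 : ∀ {i j : Fin 3}, j ≠ i → ({i, j} : Finset (Fin 3)) ≠ {i} := by decide

theorem st_ne2 : ∀ {i j l : Fin 3}, l ≠ i → l ≠ j → ({i, l} : Finset (Fin 3)) ≠ {i, j} := by decide

theorem sumUU_jl {i j l : Fin 3} (hij : j ≠ i) (hli : l ≠ i) (hlj : l ≠ j) (f : Finset (Fin 3) → ℝ) :
    ∑ U ∈ UU i, f U = f {i} + f {i, j} + f {i, l} := by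
  rw [UU_eq hij hli hlj]
  have h1 : ({i} : Finset (Fin 3)) ≠ {i, j} := (st_ne1 hij).symm
  have h2 : ({i} : Finset (Fin 3)) ≠ {i, l} := (st_ne1 hli).symm
  have h3 : ({i, j} : Finset (Fin 3)) ≠ {i, l} := (st_ne2 hli hlj).symm
  rw [Finset.sum_insert (by simp only [Finset.mem_insert, Finset.mem_singleton, not_or]; exact ⟨h1, h2⟩),
    Finset.sum_insert (by simp only [Finset.mem_singleton]; exact h3), Finset.sum_singleton]
  ring

section

variable {i : Fin 3} {M : ℕ} {Uu Up υ : Type} {Rz : ℕ}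

/-- synergy -/
noncomputable def b0v (J n0 : ℕ) (i j l : Fin 3) (h : ℕ) (S : RTm k N Θ Ξ i M Uu Up) (ix : ℕ → Sp k N 3 Θ Ξ → Bool)
    (Uc : ℕ → OmC k N Θ Ξ Rz M → υ) (t : ℕ) (w : OmC k N Θ Ξ Rz M) : ℝ :=
  4 * (ind (|mB i h Uc t w| ≤ 1 / 2) *
        (zB i j l h Uc (letF Rz J n0 i j (fL S ix)) (letG Rz J n0 i l (gL S ix)) t w -
          poe (mB i h Uc t w) (xB i h Uc j (letF Rz J n0 i j (fL S ix)) t w)
            (xB i h Uc l (letG Rz J n0 i l (gL S ix)) t w)) ^ 2)

/-- squares of the biases -/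
noncomputable def bv (J n0 : ℕ) (i j l : Fin 3) (h : ℕ) (S : RTm k N Θ Ξ i M Uu Up) (ix : ℕ → Sp k N 3 Θ Ξ → Bool)
    (Uc : ℕ → OmC k N Θ Ξ Rz M → υ) (U : Finset (Fin 3)) (t : ℕ) (w : OmC k N Θ Ξ Rz M) : ℝ :=
  if U = {i} then 4 * mB i h Uc t w ^ 2
  else if U = {i, j} then 2500 * (xB i h Uc j (letF Rz J n0 i j (fL S ix)) t w - mB i h Uc t w) ^ 2
  else if U = {i, l} then 2500 * (xB i h Uc l (letG Rz J n0 i l (gL S ix)) t w - mB i h Uc t w) ^ 2
  else 0

/-- recorded changes -/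
noncomputable def cv (J n0 : ℕ) (i j l : Fin 3) (S : RTm k N Θ Ξ i M Uu Up) (ix : ℕ → Sp k N 3 Θ Ξ → Bool)
    (U : Finset (Fin 3)) (t : ℕ) (w : OmC k N Θ Ξ Rz M) : ℝ :=
  if U = {i, j} then ind (((fL S ix).pull pic).pc Rz J n0 (nuF i j) (t + 1) w ≠ none)
  else if U = {i, l} then ind (((gL S ix).pull pic).pc Rz J n0 (nuG i l) (t + 1) w ≠ none)
  else 0

/-- true changes -/
def chv (i j l : Fin 3) (S : RTm k N Θ Ξ i M Uu Up) (U : Finset (Fin 3)) (t : ℕ) (w : OmC k N Θ Ξ Rz M) : Prop :=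
  (U = {i, j} ∧ S.f (t + 1) (pic w) ≠ S.f t (pic w)) ∨ (U = {i, l} ∧ S.g (t + 1) (pic w) ≠ S.g t (pic w))

variable {j l : Fin 3} {h J n0 : ℕ} {S : RTm k N Θ Ξ i M Uu Up} {ix : ℕ → Sp k N 3 Θ Ξ → Bool}
    {Uc : ℕ → OmC k N Θ Ξ Rz M → υ}

theorem b0v_nn (t : ℕ) (w : OmC k N Θ Ξ Rz M) : 0 ≤ b0v J n0 i j l h S ix Uc t w :=
  mul_nonneg (by norm_num) (mul_nonneg (ind_nonneg _) (sq_nonneg _))

theorem bv_nn (U : Finset (Fin 3)) (t : ℕ) (w : OmC k N Θ Ξ Rz M) : 0 ≤ bv J n0 i j l h S ix Uc U t w := by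
  unfold bv
  split_ifs
  · positivity
  · positivity
  · positivity
  · exact le_rfl

theorem cv_nn (U : Finset (Fin 3)) (t : ℕ) (w : OmC k N Θ Ξ Rz M) : 0 ≤ cv J n0 i j l S ix U t w := by
  unfold cv
  split_ifs
  · exact ind_nonneg _
  · exact ind_nonneg _
  · exact le_rfl

theorem bv_i (t : ℕ) (w : OmC k N Θ Ξ Rz M) : bv J n0 i j l h S ix Uc {i} t w = 4 * mB i h Uc t w ^ 2 := by
  unfold bv
  rw [if_pos rfl]

theorem bv_ij (hij : j ≠ i) (t : ℕ) (w : OmC k N Θ Ξ Rz M) : bv J n0 i j l h S ix Uc {i, j} t w =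
    2500 * (xB i h Uc j (letF Rz J n0 i j (fL S ix)) t w - mB i h Uc t w) ^ 2 := by
  have h1 : ({i, j} : Finset (Fin 3)) ≠ {i} := st_ne1 hij
  unfold bv
  rw [if_neg h1, if_pos rfl]

theorem bv_il (_hij : j ≠ i) (hli : l ≠ i) (hlj : l ≠ j) (t : ℕ) (w : OmC k N Θ Ξ Rz M) :
    bv J n0 i j l h S ix Uc {i, l} t w =
    2500 * (xB i h Uc l (letG Rz J n0 i l (gL S ix)) t w - mB i h Uc t w) ^ 2 := by
  have h1 : ({i, l} : Finset (Fin 3)) ≠ {i} := st_ne1 hli
  have h2 : ({i, l} : Finset (Fin 3)) ≠ {i, j} := st_ne2 hli hlj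
  unfold bv
  rw [if_neg h1, if_neg h2, if_pos rfl]

theorem cv_i (hij : j ≠ i) (hli : l ≠ i) (t : ℕ) (w : OmC k N Θ Ξ Rz M) : cv J n0 i j l S ix {i} t w = 0 := by
  have h1 : ({i} : Finset (Fin 3)) ≠ {i, j} := (st_ne1 hij).symm
  have h2 : ({i} : Finset (Fin 3)) ≠ {i, l} := (st_ne1 hli).symm
  unfold cv
  rw [if_neg h1, if_neg h2]

theorem cv_ij (t : ℕ) (w : OmC k N Θ Ξ Rz M) : cv J n0 i j l S ix {i, j} t w =
    ind (((fL S ix).pull pic).pc Rz J n0 (nuF i j) (t + 1) w ≠ none) := by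
  unfold cv
  rw [if_pos rfl]

theorem cv_il (_hij : j ≠ i) (hli : l ≠ i) (hlj : l ≠ j) (t : ℕ) (w : OmC k N Θ Ξ Rz M) :
    cv J n0 i j l S ix {i, l} t w =
    ind (((gL S ix).pull pic).pc Rz J n0 (nuG i l) (t + 1) w ≠ none) := by
  have h2 : ({i, l} : Finset (Fin 3)) ≠ {i, j} := st_ne2 hli hlj
  unfold cv
  rw [if_neg h2, if_pos rfl]

/-- the public state from the vertices of `U` -/
theorem Zk_QU (hUf : ∀ t, Fac (fun w => (vx i (pic w), Qn i h (ex N t) w)) (Uc t)) {U : Finset (Fin 3)} (hU : i ∈ U)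
    (t : ℕ) : Fac (Zk (k := k) (N := N) (Θ := Θ) (P := Ξ × Co k N Ξ Rz (Bool → Fin (M + 1))) U
      (ex N (t + 1) - (h + 3))) (fun w => (Qn i h (ex N t) w, Uc t w)) := by
  intro v w hv
  have hs : ex N (t + 1) - (h + 3) ≤ ex N t - (h + 3) := by unfold ex; omega
  have h1 := Zk_Qn hU hs v w hv
  have h2 := Zk_vx hU _ v w hv
  have h3 := hUf t v w (by simp only [Prod.mk.injEq]; exact ⟨by rw [vx_pic, vx_pic, h2], h1⟩)
  show (_, _) = (_, _)
  rw [h1, h3]

end

section main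

variable {i : Fin 3} {M : ℕ} {Uu Up υ : Type} {Rz : ℕ}
variable {j l : Fin 3} {h J n0 : ℕ} {R : Fin 3 → Fam2 k Unit} {S : RTm k N Θ Ξ i M Uu Up}
    {ix : ℕ → Sp k N 3 Θ Ξ → Bool} {dK : Fin (M + 1) × Fin (M + 1) × Fin (M + 1) × Up → ℕ → Sp k N 3 Θ Ξ → ℝ}
    {u0 : Up} {ne nf q0 : ℝ} {Uc : ℕ → OmC k N Θ Ξ Rz M → υ} {hm hx e3 : ℝ}

theorem mB_zk (hUf : ∀ t, Fac (fun w => (vx i (pic w), Qn i h (ex N t) w)) (Uc t)) {U : Finset (Fin 3)} (hU : i ∈ U)
    (t : ℕ) : Fac (Zk (k := k) (N := N) (Θ := Θ) (P := Ξ × Co k N Ξ Rz (Bool → Fin (M + 1))) U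
      (ex N (t + 1) - (h + 3))) (mB i h Uc t) :=
  (Zk_QU hUf hU t).trans (Pm.ce_fac _ _)

theorem xF_zk (hUf : ∀ t, Fac (fun w => (vx i (pic w), Qn i h (ex N t) w)) (Uc t)) (hD : LabH i j h (fL S ix))
    (t : ℕ) : Fac (Zk (k := k) (N := N) (Θ := Θ) (P := Ξ × Co k N Ξ Rz (Bool → Fin (M + 1))) {i, j}
      (ex N (t + 1) - (h + 3))) (xB i h Uc j (letF Rz J n0 i j (fL S ix)) t) := by
  have hi : i ∈ ({i, j} : Finset (Fin 3)) := by simp
  have hj : j ∈ ({i, j} : Finset (Fin 3)) := by simp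
  refine Fac.trans (Y := fun v => (vx j (pic v), letF Rz J n0 i j (fL S ix) t v, Qn i h (ex N t) v, Uc t v)) ?_
    (Pm.ce_fac _ _)
  intro v w hv
  have h1 := Zk_QU hUf hi t v w hv
  simp only [Prod.mk.injEq] at h1
  have h2 := Zk_vx hi _ v w hv
  have h3 := Zk_vx hj _ v w hv
  have h4 := letF_fac (J := J) (n0 := n0) hD t v w (by simp only [Prod.mk.injEq]; exact ⟨h2, h3, h1.1⟩)
  simp only [Prod.mk.injEq]
  exact ⟨by rw [vx_pic, vx_pic, h3], h4, h1.1, h1.2⟩

theorem xG_zk (hUf : ∀ t, Fac (fun w => (vx i (pic w), Qn i h (ex N t) w)) (Uc t)) (hD : LabH i l h (gL S ix))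
    (t : ℕ) : Fac (Zk (k := k) (N := N) (Θ := Θ) (P := Ξ × Co k N Ξ Rz (Bool → Fin (M + 1))) {i, l}
      (ex N (t + 1) - (h + 3))) (xB i h Uc l (letG Rz J n0 i l (gL S ix)) t) := by
  have hi : i ∈ ({i, l} : Finset (Fin 3)) := by simp
  have hl : l ∈ ({i, l} : Finset (Fin 3)) := by simp
  refine Fac.trans (Y := fun v => (vx l (pic v), letG Rz J n0 i l (gL S ix) t v, Qn i h (ex N t) v, Uc t v)) ?_
    (Pm.ce_fac _ _)
  intro v w hv
  have h1 := Zk_QU hUf hi t v w hv
  simp only [Prod.mk.injEq] at h1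
  have h2 := Zk_vx hi _ v w hv
  have h3 := Zk_vx hl _ v w hv
  have h4 := letG_fac (J := J) (n0 := n0) hD t v w (by simp only [Prod.mk.injEq]; exact ⟨h2, h3, h1.1⟩)
  simp only [Prod.mk.injEq]
  exact ⟨by rw [vx_pic, vx_pic, h3], h4, h1.1, h1.2⟩

theorem bv_zk (hij : j ≠ i) (hli : l ≠ i) (hlj : l ≠ j)
    (hUf : ∀ t, Fac (fun w => (vx i (pic w), Qn i h (ex N t) w)) (Uc t)) (hF : LabH i j h (fL S ix))
    (hG : LabH i l h (gL S ix)) {U : Finset (Fin 3)} (hU : U ∈ UU i) (t : ℕ) :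
    Fac (Zk (k := k) (N := N) (Θ := Θ) (P := Ξ × Co k N Ξ Rz (Bool → Fin (M + 1))) U
      (ex N (t + 1) - (h + 3))) (bv J n0 i j l h S ix Uc U t) := by
  rw [UU_eq hij hli hlj] at hU
  simp only [Finset.mem_insert, Finset.mem_singleton] at hU
  rcases hU with rfl | rfl | rfl
  · intro v w hv
    rw [bv_i, bv_i, mB_zk hUf (by simp) t v w hv]
  · intro v w hv
    rw [bv_ij hij, bv_ij hij, mB_zk hUf (by simp) t v w hv, xF_zk hUf hF t v w hv]
  · intro v w hv
    rw [bv_il hij hli hlj, bv_il hij hli hlj, mB_zk hUf (by simp) t v w hv, xG_zk hUf hG t v w hv]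

theorem pcF_zk (hD : LabH i j h (fL S ix)) (t : ℕ) :
    Fac (Zk (k := k) (N := N) (Θ := Θ) (P := Ξ × Co k N Ξ Rz (Bool → Fin (M + 1))) {i, j}
      (ex N (t + 1) - (h + 3))) (((fL S ix).pull pic).pc Rz J n0 (nuF i j) (t + 1)) := by
  intro v w hv
  have hi : i ∈ ({i, j} : Finset (Fin 3)) := by simp
  have hj : j ∈ ({i, j} : Finset (Fin 3)) := by simp
  have h1 := Zk_Qn hi le_rfl v w hv
  have h2 := Zk_vx hi _ v w hv
  have h3 := Zk_vx hj _ v w hv
  have h4 := letF_fac (J := J) (n0 := n0) hD (t + 1) v w (by simp only [Prod.mk.injEq]; exact ⟨h2, h3, h1⟩)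
  unfold letF at h4
  unfold L1.pc
  rw [h4]

theorem pcG_zk (hD : LabH i l h (gL S ix)) (t : ℕ) :
    Fac (Zk (k := k) (N := N) (Θ := Θ) (P := Ξ × Co k N Ξ Rz (Bool → Fin (M + 1))) {i, l}
      (ex N (t + 1) - (h + 3))) (((gL S ix).pull pic).pc Rz J n0 (nuG i l) (t + 1)) := by
  intro v w hv
  have hi : i ∈ ({i, l} : Finset (Fin 3)) := by simp
  have hl : l ∈ ({i, l} : Finset (Fin 3)) := by simp
  have h1 := Zk_Qn hi le_rfl v w hv
  have h2 := Zk_vx hi _ v w hv
  have h3 := Zk_vx hl _ v w hv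
  have h4 := letG_fac (J := J) (n0 := n0) hD (t + 1) v w (by simp only [Prod.mk.injEq]; exact ⟨h2, h3, h1⟩)
  unfold letG at h4
  unfold L1.pc
  rw [h4]

theorem cv_zk (hij : j ≠ i) (hli : l ≠ i) (hlj : l ≠ j) (hF : LabH i j h (fL S ix))
    (hG : LabH i l h (gL S ix)) {U : Finset (Fin 3)} (hU : U ∈ UU i) (t : ℕ) :
    Fac (Zk (k := k) (N := N) (Θ := Θ) (P := Ξ × Co k N Ξ Rz (Bool → Fin (M + 1))) U
      (ex N (t + 1) - (h + 3))) (cv J n0 i j l S ix U t) := by
  rw [UU_eq hij hli hlj] at hU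
  simp only [Finset.mem_insert, Finset.mem_singleton] at hU
  rcases hU with rfl | rfl | rfl
  · intro v w _
    rw [cv_i hij hli, cv_i hij hli]
  · intro v w hv
    rw [cv_ij, cv_ij, pcF_zk hF t v w hv]
  · intro v w hv
    rw [cv_il hij hli hlj, cv_il hij hli hlj, pcG_zk hG t v w hv]

theorem ch_zk (hF : LabH i j h (fL S ix))
    (hG : LabH i l h (gL S ix)) {U : Finset (Fin 3)} (hU : U ∈ UU i) (t : ℕ) :
    Fac (Zk (k := k) (N := N) (Θ := Θ) (P := Ξ × Co k N Ξ Rz (Bool → Fin (M + 1))) U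
      (ex N (t + 1) - (h + 3))) (fun w => ind (chv i j l S U t w)) := by
  have hs : ex N (t + 1) - (h + 3) ≤ ex N t - (h + 3) := by unfold ex; omega
  refine Fac.ind fun v w hv => ?_
  have hi : i ∈ U := mem_of_UU hU
  have q1 := Zk_Qn hi (le_refl (ex N (t + 1) - (h + 3))) v w hv
  have q2 := Zk_Qn hi hs v w hv
  have q3 := Zk_vx hi _ v w hv
  have q4 : vx i (pic v) = vx i (pic w) := by rw [vx_pic, vx_pic, q3]
  unfold chv
  refine or_congr ?_ ?_
  · constructor
    · rintro ⟨h1, h2⟩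
      subst h1
      have q5 := Zk_vx (a := j) (by simp) _ v w hv
      have q6 : vx j (pic v) = vx j (pic w) := by rw [vx_pic, vx_pic, q5]
      have e1 : S.f (t + 1) (pic v) = S.f (t + 1) (pic w) :=
        hF.x (t + 1) (pic v) (pic w) (by simp only [Prod.mk.injEq]; exact ⟨q4, q6, q1⟩)
      have e2 : S.f t (pic v) = S.f t (pic w) :=
        hF.x t (pic v) (pic w) (by simp only [Prod.mk.injEq]; exact ⟨q4, q6, q2⟩)
      exact ⟨rfl, by rw [← e1, ← e2]; exact h2⟩
    · rintro ⟨h1, h2⟩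
      subst h1
      have q5 := Zk_vx (a := j) (by simp) _ v w hv
      have q6 : vx j (pic v) = vx j (pic w) := by rw [vx_pic, vx_pic, q5]
      have e1 : S.f (t + 1) (pic v) = S.f (t + 1) (pic w) :=
        hF.x (t + 1) (pic v) (pic w) (by simp only [Prod.mk.injEq]; exact ⟨q4, q6, q1⟩)
      have e2 : S.f t (pic v) = S.f t (pic w) :=
        hF.x t (pic v) (pic w) (by simp only [Prod.mk.injEq]; exact ⟨q4, q6, q2⟩)
      exact ⟨rfl, by rw [e1, e2]; exact h2⟩
  · constructor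
    · rintro ⟨h1, h2⟩
      subst h1
      have q5 := Zk_vx (a := l) (by simp) _ v w hv
      have q6 : vx l (pic v) = vx l (pic w) := by rw [vx_pic, vx_pic, q5]
      have e1 : S.g (t + 1) (pic v) = S.g (t + 1) (pic w) :=
        hG.x (t + 1) (pic v) (pic w) (by simp only [Prod.mk.injEq]; exact ⟨q4, q6, q1⟩)
      have e2 : S.g t (pic v) = S.g t (pic w) :=
        hG.x t (pic v) (pic w) (by simp only [Prod.mk.injEq]; exact ⟨q4, q6, q2⟩)
      exact ⟨rfl, by rw [← e1, ← e2]; exact h2⟩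
    · rintro ⟨h1, h2⟩
      subst h1
      have q5 := Zk_vx (a := l) (by simp) _ v w hv
      have q6 : vx l (pic v) = vx l (pic w) := by rw [vx_pic, vx_pic, q5]
      have e1 : S.g (t + 1) (pic v) = S.g (t + 1) (pic w) :=
        hG.x (t + 1) (pic v) (pic w) (by simp only [Prod.mk.injEq]; exact ⟨q4, q6, q1⟩)
      have e2 : S.g t (pic v) = S.g t (pic w) :=
        hG.x t (pic v) (pic w) (by simp only [Prod.mk.injEq]; exact ⟨q4, q6, q2⟩)
      exact ⟨rfl, by rw [e1, e2]; exact h2⟩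

/-! ## masses -/

section mass

variable (H : Raw i j l h R S ix dK u0 ne nf q0)

include H

theorem pul_S : Pul Pm S.P (pic (k := k) (N := N) (m := 3) (Θ := Θ) (Ξ := Ξ)
    (Ci := Co k N Ξ Rz (Bool → Fin (M + 1)))) := by
  rw [H.P_eq]; exact pul_pic

theorem nf_nn : 0 ≤ nf := (Finset.sum_nonneg fun _ _ => Pm.Pr_nonneg _).trans H.fJ

theorem ne_nn : 0 ≤ ne := (Finset.sum_nonneg fun _ _ => Pm.Pr_nonneg _).trans H.eJ

theorem eP : ∑ t ∈ range N, Pm.Pr (fun w : OmC k N Θ Ξ Rz M => S.e (t + 1) (pic w) ≠ S.e t (pic w)) ≤ ne := by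
  refine le_trans (Finset.sum_le_sum fun t _ => ?_) H.eJ
  rw [(pul_pic (k := k) (N := N) (m := 3) (Θ := Θ) (Ξ := Ξ) (Ci := Co k N Ξ Rz (Bool → Fin (M + 1)))).Pr
    (fun v => S.e (t + 1) v ≠ S.e t v)]
  exact Pm.Pr_mono fun v _ hv => H.chE t v hv

theorem fP : ∑ t ∈ range N, Pm.Pr (fun w : OmC k N Θ Ξ Rz M => S.f (t + 1) (pic w) ≠ S.f t (pic w)) ≤ nf := by
  refine le_trans (le_of_eq (Finset.sum_congr rfl fun t _ => ?_)) H.fJ
  exact (pul_pic (k := k) (N := N) (m := 3) (Θ := Θ) (Ξ := Ξ) (Ci := Co k N Ξ Rz (Bool → Fin (M + 1)))).Pr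
    (fun v => S.f (t + 1) v ≠ S.f t v)

theorem gP : ∑ t ∈ range N, Pm.Pr (fun w : OmC k N Θ Ξ Rz M => S.g (t + 1) (pic w) ≠ S.g t (pic w)) ≤ nf := by
  refine le_trans (le_of_eq (Finset.sum_congr rfl fun t _ => ?_)) H.gJ
  exact (pul_pic (k := k) (N := N) (m := 3) (Θ := Θ) (Ξ := Ξ) (Ci := Co k N Ξ Rz (Bool → Fin (M + 1)))).Pr
    (fun v => S.g (t + 1) v ≠ S.g t v)

theorem pp_sum : ∑ t ∈ range N, Pm.Pr (S.toRD.pp t) ≤ 2 * nf / S.al := by
  have h1 := RD.pp_count (R := S.toRD) H.hyp.hyp N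
  have h2 : ∑ t ∈ range N, (S.P.Pr (fun w => S.f (t + 1) w ≠ S.f t w) + S.P.Pr (fun w => S.g (t + 1) w ≠ S.g t w) +
        S.P.Pr (fun w => S.u (t + 1) w ≠ S.u t w)) ≤ 2 * nf := by
    have h3 : ∀ t, S.P.Pr (fun w => S.u (t + 1) w ≠ S.u t w) = 0 := by
      intro t
      unfold FP.Pr
      have h4 : (fun w => ind (S.u (t + 1) w ≠ S.u t w)) = fun _ => (0 : ℝ) :=
        funext fun w => ind_not (fun hn => hn (H.uc t w))
      rw [h4, FP.E_const]
    rw [Finset.sum_add_distrib, Finset.sum_add_distrib, Finset.sum_eq_zero fun t _ => h3 t, H.P_eq]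
    linarith [H.fJ, H.gJ]
  rw [le_div_iff₀ H.hyp.hyp.al0, mul_comm, ← H.P_eq]
  exact h1.trans h2

theorem pf_sum : ∑ t ∈ range N, Pm.Pr (S.toRD.pf t) ≤ nf / S.be := by
  have h1 := RD.pf_count (R := S.toRD) H.hyp.hyp N
  rw [le_div_iff₀ H.hyp.hyp.be0, mul_comm, ← H.P_eq]
  refine h1.trans ?_
  rw [H.P_eq]
  exact H.fJ

theorem pg_sum : ∑ t ∈ range N, Pm.Pr (S.toRD.pg t) ≤ nf / S.be := by
  have h1 := RD.pg_count (R := S.toRD) H.hyp.hyp N
  rw [le_div_iff₀ H.hyp.hyp.be0, mul_comm, ← H.P_eq]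
  refine h1.trans ?_
  rw [H.P_eq]
  exact H.gJ

/-- MASS OF THE ERRORS -/
theorem dd_le (hJ : 0 < J) (hn : 0 < n0) :
    Pm.Pr (fun w : OmC k N Θ Ξ Rz M => dd J n0 i j l S ix N w) ≤
      q0 + 2 * ((J : ℝ) / (Rz + 1) + (1 + (2 * nf / S.al + nf / S.be)) / J + (1 + nf) / n0) := by
  have h1 := Pm.Pr_or_le (fun w : OmC k N Θ Ξ Rz M => S.D0 N (pic w))
    (fun w => ((fL S ix).pull pic).bad Rz J n0 (nuF i j) N w ∨ ((gL S ix).pull pic).bad Rz J n0 (nuG i l) N w)
  have h2 := Pm.Pr_or_le (fun w : OmC k N Θ Ξ Rz M => ((fL S ix).pull pic).bad Rz J n0 (nuF i j) N w)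
    (fun w => ((gL S ix).pull pic).bad Rz J n0 (nuG i l) N w)
  have h3 : Pm.Pr (fun w : OmC k N Θ Ξ Rz M => S.D0 N (pic w)) ≤ q0 := by
    rw [(pul_pic (k := k) (N := N) (m := 3) (Θ := Θ) (Ξ := Ξ) (Ci := Co k N Ξ Rz (Bool → Fin (M + 1)))).Pr
      (fun v => S.D0 N v)]
    exact H.D0q
  have hF : ∑ t ∈ range N, Pm.Pr (fun v => (fL S ix).cl t v) ≤ 2 * nf / S.al + nf / S.be := by
    refine le_trans (Finset.sum_le_sum fun t _ => Pm.Pr_or_le (S.toRD.pp t) (S.toRD.pf t)) ?_
    rw [Finset.sum_add_distrib]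
    exact add_le_add (pp_sum H) (pf_sum H)
  have hG : ∑ t ∈ range N, Pm.Pr (fun v => (gL S ix).cl t v) ≤ 2 * nf / S.al + nf / S.be := by
    refine le_trans (Finset.sum_le_sum fun t _ => Pm.Pr_or_le (S.toRD.pp t) (S.toRD.pg t)) ?_
    rw [Finset.sum_add_distrib]
    exact add_le_add (pp_sum H) (pg_sum H)
  have cF : ∑ t ∈ range N, Pm.Pr (fun v => (fL S ix).cl t v ∧ (fL S ix).bb t v) ≤ nf := by
    have h5 := RD.sum_rec_f (R := S.toRD) N
    rw [H.P_eq] at h5
    exact h5.trans H.fJ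
  have cG : ∑ t ∈ range N, Pm.Pr (fun v => (gL S ix).cl t v ∧ (gL S ix).bb t v) ≤ nf := by
    have h5 := RD.sum_rec_g (R := S.toRD) N
    rw [H.P_eq] at h5
    exact h5.trans H.gJ
  have h4 := L1.bad_le (D := fL S ix) (ν := nuF (Rz := Rz) i j) (fun Ψ => Pm_nuF i j Ψ) hJ hn hF cF
  have h5 := L1.bad_le (D := gL S ix) (ν := nuG (Rz := Rz) i l) (fun Ψ => Pm_nuG i l Ψ) hJ hn hG cG
  unfold dd
  linarith

theorem T_lt (t : ℕ) (w : Sp k N 3 Θ Ξ) : |S.T t w| + S.eta < 17 / 2 := by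
  linarith [H.T8 t w, H.eta]

omit H in
theorem div_mono_r {L a b : ℝ} (hL : 0 ≤ L) (ha : 0 < a) (hab : a ≤ b) : L / b ≤ L / a :=
  div_le_div_of_nonneg_left hL ha hab

variable [Fintype Up]

/-- the error of one run -/
noncomputable def qrun (Up : Type) [Fintype Up] (M : ℕ) (be ne nf Lam r1 : ℝ) : ℝ :=
  be * (3 * ne + 4 * nf + 9 * ((Fintype.card (Fin (M + 1) × Fin (M + 1) × Fin (M + 1) × Up) : ℝ) * (Lam / r1)))

theorem qrun_nn {r1 : ℝ} (hr1 : 0 < r1) : 0 ≤ qrun Up M S.be ne nf S.Lam r1 := by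
  unfold qrun
  have h1 := nf_nn H
  have h2 := ne_nn H
  have h3 := H.hyp.Lam0
  have h4 := H.hyp.hyp.be0
  positivity

/-- mass of the dead points of Proposition 1 -/
theorem D1_le {D0' : ℕ → OmC k N Θ Ξ Rz M → Prop} (hi : ∀ t w, D0' t w → D0' (t + 1) w)
    (hD : ∀ t w, dd J n0 i j l S ix t w → D0' t w) {r1 : ℝ} (hr1 : 0 < r1) (hr1' : r1 ≤ 1 / 2) :
    Pm.Pr ((S.pull Pm pic D0').DD' D0' 9 N) ≤ Pm.Pr (D0' N) + qrun Up M S.be ne nf S.Lam r1 := by
  have hT := RT.pull_hypT (pul_S H) D0' H.hyp (fun t w _ => hi t w) (fun t w _ h0 => hD t w (Or.inl h0))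
  have h1 : Pm.Pr ((S.pull Pm pic D0').DD' D0' 9 N) ≤ Pm.Pr ((S.pull Pm pic D0').Dead' 9 N) := by
    refine Pm.Pr_mono fun w _ hw => ?_
    rcases hw with hw | hw
    · exact hw
    · exact Or.inl hw
  have h2 := RT.dead'_le (S := S.pull Pm pic D0') hT (p := 17 / 2) (q := 9) (by norm_num) (by norm_num) N
    (fun t w _ => T_lt H t (pic w)) (eP H) (fP H) (gP H)
  refine h1.trans (h2.trans ?_)
  have hbe : 0 ≤ S.be := H.hyp.hyp.be0.le
  have h3 : S.Lam / (9 - 17 / 2) ≤ S.Lam / r1 := div_mono_r H.hyp.Lam0 hr1 (by linarith)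
  unfold qrun
  have h4 : S.be * (3 * ne + 2 * (nf + nf) +
      9 * ((Fintype.card (Fin (M + 1) × Fin (M + 1) × Fin (M + 1) × Up) : ℝ) * (S.Lam / (9 - 17 / 2)))) ≤
      S.be * (3 * ne + 4 * nf +
      9 * ((Fintype.card (Fin (M + 1) × Fin (M + 1) × Fin (M + 1) × Up) : ℝ) * (S.Lam / r1))) := by
    refine mul_le_mul_of_nonneg_left ?_ hbe
    have h5 := mul_le_mul_of_nonneg_left h3
      (Nat.cast_nonneg (Fintype.card (Fin (M + 1) × Fin (M + 1) × Fin (M + 1) × Up)) (α := ℝ))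
    linarith
  have h6 : (S.pull Pm pic D0').be = S.be := rfl
  have h7 : (S.pull Pm pic D0').Lam = S.Lam := rfl
  have h8 : (S.pull Pm pic D0').D0 = D0' := rfl
  have h9 : (S.pull Pm pic D0').P = Pm := rfl
  rw [h6, h7, h8, h9]
  linarith

/-- mass of the dead points of the Theorem -/
theorem D2_le {D0' : ℕ → OmC k N Θ Ξ Rz M → Prop} (hi : ∀ t w, D0' t w → D0' (t + 1) w)
    (hD : ∀ t w, dd J n0 i j l S ix t w → D0' t w) {r0 r1 r : ℝ} (hr1 : 0 < r1) (hr0 : 2 * S.eta + r1 ≤ r0)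
    (hr : r0 ≤ r) :
    Pm.Pr ((S.pull Pm pic D0').DD D0' r N) ≤ Pm.Pr (D0' N) + qrun Up M S.be ne nf S.Lam r1 +
      ∑ t ∈ range N, Pm.Pr (fun w =>
        (chE h i (liftF (R i)) t w ∨ ∃ U ∈ UU i, chv i j l S U t w) ∧
          (r ≤ |TZ h (fun a => liftF (R a)) t w| ∨ r ≤ |TZ h (fun a => liftF (R a)) (t + 1) w|) ∧ ¬ D0' (t + 1) w) := by
  have hT := RT.pull_hypT (pul_S H) D0' H.hyp (fun t w _ => hi t w) (fun t w _ h0 => hD t w (Or.inl h0))
  have h1 : Pm.Pr ((S.pull Pm pic D0').DD D0' r N) ≤ Pm.Pr ((S.pull Pm pic D0').Dead r N) := by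
    refine Pm.Pr_mono fun w _ hw => ?_
    rcases hw with hw | hw
    · exact hw
    · exact Or.inl hw
  have hTZ : ∀ t (w : OmC k N Θ Ξ Rz M), S.T t (pic w) = TZ h (fun a => liftF (R a)) t w := by
    intro t w
    rw [H.T]
    rfl
  have hUU := UU_eq H.hij H.hli H.hlj
  have hd1 : ∑ t ∈ range N, Pm.Pr (fun w : OmC k N Θ Ξ Rz M =>
      (S.pull Pm pic D0').d1 r t w ∧ ¬ (S.pull Pm pic D0').D0 (t + 1) w) ≤
      ∑ t ∈ range N, Pm.Pr (fun w =>
        (chE h i (liftF (R i)) t w ∨ ∃ U ∈ UU i, chv i j l S U t w) ∧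
          (r ≤ |TZ h (fun a => liftF (R a)) t w| ∨ r ≤ |TZ h (fun a => liftF (R a)) (t + 1) w|) ∧ ¬ D0' (t + 1) w) := by
    refine Finset.sum_le_sum fun t _ => Pm.Pr_mono fun w _ hw => ?_
    obtain ⟨hw1, hw2⟩ := hw
    rcases hw1 with ⟨h3, h4⟩ | ⟨h3, h4⟩
    · refine ⟨Or.inl ?_, Or.inl ?_, hw2⟩
      · exact H.chE t (pic w) h3
      · have h5 : r ≤ |S.T t (pic w)| := h4
        rw [hTZ] at h5
        exact h5
    · refine ⟨Or.inr ?_, ?_, hw2⟩
      · rcases h3 with h3 | h3 | h3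
        · exact ⟨{i, j}, by rw [hUU]; simp, Or.inl ⟨rfl, h3⟩⟩
        · exact ⟨{i, l}, by rw [hUU]; simp, Or.inr ⟨rfl, h3⟩⟩
        · exact absurd (H.uc t (pic w)) h3
      · have h5 : r ≤ |S.T t (pic w)| ∨ r ≤ |S.T (t + 1) (pic w)| := h4
        rw [hTZ, hTZ] at h5
        exact h5
  have hr' : 2 * (S.pull Pm pic D0').eta < r := by
    have h3 : (S.pull Pm pic D0').eta = S.eta := rfl
    rw [h3]
    linarith
  have h2 := RT.dead_le (S := S.pull Pm pic D0') hT hr' N hd1 (eP H) (fP H) (gP H)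
  refine h1.trans (h2.trans ?_)
  have hbe : 0 ≤ S.be := H.hyp.hyp.be0.le
  have h3 : S.Lam / (r - 2 * S.eta) ≤ S.Lam / r1 := div_mono_r H.hyp.Lam0 hr1 (by linarith)
  unfold qrun
  have h4 : S.be * (3 * ne + 2 * (nf + nf) +
      9 * ((Fintype.card (Fin (M + 1) × Fin (M + 1) × Fin (M + 1) × Up) : ℝ) * (S.Lam / (r - 2 * S.eta)))) ≤
      S.be * (3 * ne + 4 * nf +
      9 * ((Fintype.card (Fin (M + 1) × Fin (M + 1) × Fin (M + 1) × Up) : ℝ) * (S.Lam / r1))) := by
    refine mul_le_mul_of_nonneg_left ?_ hbe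
    have h5 := mul_le_mul_of_nonneg_left h3
      (Nat.cast_nonneg (Fintype.card (Fin (M + 1) × Fin (M + 1) × Fin (M + 1) × Up)) (α := ℝ))
    linarith
  have h6 : (S.pull Pm pic D0').be = S.be := rfl
  have h7 : (S.pull Pm pic D0').Lam = S.Lam := rfl
  have h8 : (S.pull Pm pic D0').D0 = D0' := rfl
  have h9 : (S.pull Pm pic D0').P = Pm := rfl
  have h10 : (S.pull Pm pic D0').eta = S.eta := rfl
  rw [h6, h7, h8, h9, h10]
  linarith

end mass

/-- THE NAMED VIEW -/
theorem nvof [Fintype Up] (H : Raw i j l h R S ix dK u0 ne nf q0)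
    (HB : B3 i j l h (letF Rz J n0 i j (fL S ix)) (letG Rz J n0 i l (gL S ix)) Uc hm hx e3)
    (hJ : 0 < J) (hn : 0 < n0) {r0 r1 qq : ℝ} (hr1 : 0 < r1) (hr1' : r1 ≤ 1 / 2) (hr0 : 2 * S.eta + r1 ≤ r0)
    (hqq : q0 + 2 * ((J : ℝ) / (Rz + 1) + (1 + (2 * nf / S.al + nf / S.be)) / J + (1 + nf) / n0) +
      qrun Up M S.be ne nf S.Lam r1 ≤ qq) :
    ∃ W : NV k N Θ (Ξ × Co k N Ξ Rz (Bool → Fin (M + 1))) i h (fun a => liftF (R a)),
      W.q = qq ∧ W.a6 = 3 * S.be ∧ W.eta = S.eta ∧ W.rmin = r0 ∧ W.e3 = 4 * e3 ∧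
      (∀ U, W.hb U = if U = {i} then 4 * hm else 2500 * hx) ∧ W.J = 2 * n0 + nf + ne := by
  have hij := H.hij
  have hli := H.hli
  have hlj := H.hlj
  have hF := H.labF
  have hG := H.labG
  have hinc := dd_inc (Rz := Rz) (J := J) (n0 := n0) H
  have hUf := HB.Uf
  have hUs := HB.Us
  have HP := pubAA H hUs hinc (fun _ _ h0 => h0)
  have hT : ∀ t w, |(S.pull Pm pic (dd (Rz := Rz) J n0 i j l S ix)).T t w| +
      (S.pull Pm pic (dd (Rz := Rz) J n0 i j l S ix)).eta < 17 / 2 := fun t w => T_lt H t (pic w)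
  have hTZ : ∀ t (w : OmC k N Θ Ξ Rz M), S.T t (pic w) = TZ h (fun a => liftF (R a)) t w := by
    intro t w
    rw [H.T]
    rfl
  have hUU := UU_eq hij hli hlj
  have hdd := dd_le (Rz := Rz) H hJ hn
  have hq1 := qrun_nn H (Up := Up) hr1
  have hq0 : Pm.Pr (fun w : OmC k N Θ Ξ Rz M => dd J n0 i j l S ix N w) ≤ qq := by linarith
  have hqD1 := D1_le (Rz := Rz) (J := J) (n0 := n0) H hinc (fun _ _ h0 => h0) hr1 hr1'
  have hqr : qrun Up M S.be ne nf S.Lam r1 ≤ qq := by
    have h1 := Pm.Pr_nonneg (fun w : OmC k N Θ Ξ Rz M => dd J n0 i j l S ix N w)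
    linarith
  let W : NV k N Θ (Ξ × Co k N Ξ Rz (Bool → Fin (M + 1))) i h (fun a => liftF (R a)) :=
    { ι := fun _ => _
      A := AA J n0 i j l S ix Uc
      X := (S.pull Pm pic (dd (Rz := Rz) J n0 i j l S ix)).Xc (xx J n0 i j l S ix) 9
      g := RT.gc (xx J n0 i j l S ix) (fun v t w => dK v t (pic w)) 9
      D := fun t => Dg (ex N (t + 1))
      ev := (S.pull Pm pic (dd (Rz := Rz) J n0 i j l S ix)).ev (xx J n0 i j l S ix) (fun t => Dg (ex N (t + 1)))
        (fun v t w => dK v t (pic w)) 9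
      utd := fun t w => S.toRD.utd t (pic w)
      D0 := dd (Rz := Rz) J n0 i j l S ix
      D1 := (S.pull Pm pic (dd (Rz := Rz) J n0 i j l S ix)).DD' (dd (Rz := Rz) J n0 i j l S ix) 9
      b0 := b0v J n0 i j l h S ix Uc
      b := bv J n0 i j l h S ix Uc
      c := cv J n0 i j l S ix
      ch := chv i j l S
      eta := S.eta
      q := qq
      e3 := 4 * e3
      hb := fun U => if U = {i} then 4 * hm else 2500 * hx
      J := 2 * n0 + nf + ne
      a6 := 3 * S.be
      rmin := r0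
      eta0 := H.hyp.eta0
      view := by
        intro s hs Dd
        have h1 := RT.viewHyp HP (c := 9) (by norm_num) hs Dd
        have h2 : (9 : ℝ) * 9 ^ 2 = 729 := by norm_num
        rw [h2] at h1
        exact h1
      KA := fun t => AA_Kn t
      D0inc := hinc
      D1inc := fun t w hw => RT.DD'_inc HP 9 t w (Pm_ne w) hw
      D01 := fun t w hw => Or.inr hw
      D0q := hq0
      D1q := by linarith
      XS1 := by
        intro s hs t _ w hx hd
        have h1 := RT.XS' HP (c := 9) hs t w (Pm_ne w) hx hd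
        rcases h1 with h1 | h1
        · left
          intro h2
          apply h1
          have h3 := RD.pull_utd (pul_S (Rz := Rz) H) t w
          exact h3.2 h2
        · right
          have h2 : s - S.eta ≤ |S.T t (pic w)| := h1
          rw [hTZ] at h2
          exact h2
      SX1 := by
        intro s2 t _ w hx hd hu
        refine RT.SX' HP (p := 17 / 2) (c := 9) (by norm_num) (fun t w _ => hT t w) t w (Pm_ne w) ?_ hd ?_
        · show s2 + S.eta ≤ |S.T t (pic w)|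
          rw [hTZ]
          exact hx
        · exact (RD.pull_utd (pul_S (Rz := Rz) H) t w).2 hu
      ev1 := by
        intro t _ w ha
        by_cases he : (S.pull Pm pic (dd (Rz := Rz) J n0 i j l S ix)).ev (xx J n0 i j l S ix)
            (fun t => Dg (ex N (t + 1))) (fun v t w => dK v t (pic w)) 9 (t + 1) w
        · have h1 := RT.ev' HP (p := 17 / 2) (c := 9) (by norm_num) (fun t w _ => hT t w) t w (Pm_ne w) ha he
          have hs : ∑ U ∈ UU i, cv J n0 i j l S ix U t w =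
              ind (((fL S ix).pull pic).pc Rz J n0 (nuF i j) (t + 1) w ≠ none) +
                ind (((gL S ix).pull pic).pc Rz J n0 (nuG i l) (t + 1) w ≠ none) := by
            rw [sumUU_jl hij hli hlj, cv_i hij hli, cv_ij, cv_il hij hli hlj]
            ring
          rw [hs]
          have n1 := ind_nonneg (chE h i (liftF (R i)) t w)
          have n2 := ind_nonneg (((fL S ix).pull pic).pc Rz J n0 (nuF i j) (t + 1) w ≠ none)
          have n3 := ind_nonneg (((gL S ix).pull pic).pc Rz J n0 (nuG i l) (t + 1) w ≠ none)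
          have n4 := ind_le_one ((S.pull Pm pic (dd (Rz := Rz) J n0 i j l S ix)).ev (xx J n0 i j l S ix)
            (fun t => Dg (ex N (t + 1))) (fun v t w => dK v t (pic w)) 9 (t + 1) w)
          by_cases c1 : S.e (t + 1) (pic w) = S.e t (pic w)
          · by_cases c2 : pvF (Rz := Rz) J n0 i j S ix (t + 1) w = pvF J n0 i j S ix t w
            · by_cases c3 : pvG (Rz := Rz) J n0 i l S ix (t + 1) w = pvG J n0 i l S ix t w
              · exfalso
                apply h1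
                unfold xx
                rw [c1, c2, c3, H.rup_eq, H.rup_eq]
              · have c4 := L1.pv_ne (D := (gL S ix).pull pic) c3
                rw [ind_of c4] at n3 ⊢
                linarith
            · have c4 := L1.pv_ne (D := (fL S ix).pull pic) c2
              rw [ind_of c4] at n2 ⊢
              linarith
          · have c4 : chE h i (liftF (R i)) t w := H.chE t (pic w) c1
            rw [ind_of c4] at n1 ⊢
            linarith
        · rw [ind_not he]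
          exact add_nonneg (ind_nonneg _) (Finset.sum_nonneg fun U _ => cv_nn U t w)
      zer := by
        intro t _ w hz
        have h1 : S.K (xx J n0 i j l S ix t w) t (pic w) = 0 := H.zer t (pic w) hz _ rfl
        show (if |S.K (xx J n0 i j l S ix t w) t (pic w)| ≤ 9 then S.K (xx J n0 i j l S ix t w) t (pic w) else 0) = 0
        rw [h1]
        simp
      utdY := by
        intro U hU t _ w
        have h1 := ce_Yk_pic i U (ex N t) (ex N t - (h + 3)) (fun v => ind (¬ S.toRD.utd t v)) w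
        refine (le_of_eq h1).trans ?_
        have h2 := H.hyp.hyp
        rw [H.rd] at h2 ⊢
        exact mdl_utdY hij hli hlj h2 U hU t _ (pic w)
      utdK := by
        intro t _ w
        have h1 := ce_Kn_pic i (ex N t) (fun v => ind (¬ S.toRD.utd t v)) w
        refine (le_of_eq h1).trans ?_
        have h2 := H.hyp.hyp
        rw [H.rd] at h2 ⊢
        exact mdl_utdK hij hli hlj h2 t (pic w)
      bias := by
        intro t _ w
        have h1 := bias_AA (J := J) (n0 := n0) (S := S) (ix := ix) hij hli hlj hUf t w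
        rw [sumUU_jl hij hli hlj, bv_i, bv_ij hij, bv_il hij hli hlj]
        exact h1
      b0n := fun t w => b0v_nn t w
      bn := fun U t w => bv_nn U t w
      cn := fun U t w => cv_nn U t w
      b0A := by
        intro t _ v w hv
        obtain ⟨h1, h2, h3⟩ := AA_known hij hli h t hv
        unfold AA at hv
        simp only [Prod.mk.injEq] at hv
        obtain ⟨_, e1, e2, e3'⟩ := hv
        have m1 : mB i h Uc t v = mB i h Uc t w := Pm.ce_fac _ _ v w (by simp only [Prod.mk.injEq]; exact ⟨h3, e3'⟩)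
        have m2 : xB i h Uc j (letF Rz J n0 i j (fL S ix)) t v = xB i h Uc j (letF Rz J n0 i j (fL S ix)) t w :=
          Pm.ce_fac _ _ v w (by simp only [Prod.mk.injEq]; exact ⟨h1, e1, h3, e3'⟩)
        have m3 : xB i h Uc l (letG Rz J n0 i l (gL S ix)) t v = xB i h Uc l (letG Rz J n0 i l (gL S ix)) t w :=
          Pm.ce_fac _ _ v w (by simp only [Prod.mk.injEq]; exact ⟨h2, e2, h3, e3'⟩)
        have m4 : zB i j l h Uc (letF Rz J n0 i j (fL S ix)) (letG Rz J n0 i l (gL S ix)) t v =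
            zB i j l h Uc (letF Rz J n0 i j (fL S ix)) (letG Rz J n0 i l (gL S ix)) t w :=
          Pm.ce_fac _ _ v w (by simp only [Prod.mk.injEq]; exact ⟨h1, h2, e1, e2, h3, e3'⟩)
        unfold b0v
        rw [m1, m2, m3, m4]
      bA := by
        intro U hU t _ v w hv
        obtain ⟨h1, h2, h3⟩ := AA_known hij hli h t hv
        unfold AA at hv
        simp only [Prod.mk.injEq] at hv
        obtain ⟨_, e1, e2, e3'⟩ := hv
        have m1 : mB i h Uc t v = mB i h Uc t w := Pm.ce_fac _ _ v w (by simp only [Prod.mk.injEq]; exact ⟨h3, e3'⟩)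
        have m2 : xB i h Uc j (letF Rz J n0 i j (fL S ix)) t v = xB i h Uc j (letF Rz J n0 i j (fL S ix)) t w :=
          Pm.ce_fac _ _ v w (by simp only [Prod.mk.injEq]; exact ⟨h1, e1, h3, e3'⟩)
        have m3 : xB i h Uc l (letG Rz J n0 i l (gL S ix)) t v = xB i h Uc l (letG Rz J n0 i l (gL S ix)) t w :=
          Pm.ce_fac _ _ v w (by simp only [Prod.mk.injEq]; exact ⟨h2, e2, h3, e3'⟩)
        unfold bv
        rw [m1, m2, m3]
      bZ := fun U hU t _ => bv_zk hij hli hlj hUf hF hG hU t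
      cZ := fun U hU t _ => cv_zk hij hli hlj hF hG hU t
      b0e := by
        have h1 : ∑ t ∈ range N, Pm.E (fun w : OmC k N Θ Ξ Rz M => ind (¬ dd J n0 i j l S ix t w) *
            b0v J n0 i j l h S ix Uc t w) ≤ ∑ t ∈ range N, 4 * Pm.E (fun w => ind (|mB i h Uc t w| ≤ 1 / 2) *
              (zB i j l h Uc (letF Rz J n0 i j (fL S ix)) (letG Rz J n0 i l (gL S ix)) t w -
              poe (mB i h Uc t w) (xB i h Uc j (letF Rz J n0 i j (fL S ix)) t w)
              (xB i h Uc l (letG Rz J n0 i l (gL S ix)) t w)) ^ 2) := by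
          refine Finset.sum_le_sum fun t _ => ?_
          rw [← Pm.E_smul]
          refine Pm.E_mono fun w _ => ?_
          have h2 := mul_le_mul_of_nonneg_right (ind_le_one (¬ dd (Rz := Rz) J n0 i j l S ix t w))
            (b0v_nn (J := J) (n0 := n0) (i := i) (j := j) (l := l) (h := h) (S := S) (ix := ix) (Uc := Uc) t w)
          rw [one_mul] at h2
          exact h2
        refine h1.trans ?_
        rw [← Finset.mul_sum]
        exact mul_le_mul_of_nonneg_left HB.syn (by norm_num)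
      bh := by
        intro U hU
        rw [hUU] at hU
        simp only [Finset.mem_insert, Finset.mem_singleton] at hU
        rcases hU with rfl | rfl | rfl
        · rw [if_pos rfl]
          have h1 : ∀ t, Pm.E (bv J n0 i j l h S ix Uc {i} t) = 4 * Pm.E (fun w => mB i h Uc t w ^ 2) := by
            intro t
            rw [← Pm.E_smul]
            exact Pm.E_congr fun w _ => bv_i t w
          rw [Finset.sum_congr rfl fun t _ => h1 t, ← Finset.mul_sum]
          exact mul_le_mul_of_nonneg_left HB.m2 (by norm_num)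
        · rw [if_neg (st_ne1 hij)]
          have h1 : ∀ t, Pm.E (bv J n0 i j l h S ix Uc {i, j} t) =
              2500 * Pm.E (fun w => (xB i h Uc j (letF Rz J n0 i j (fL S ix)) t w - mB i h Uc t w) ^ 2) := by
            intro t
            rw [← Pm.E_smul]
            exact Pm.E_congr fun w _ => bv_ij hij t w
          rw [Finset.sum_congr rfl fun t _ => h1 t, ← Finset.mul_sum]
          exact mul_le_mul_of_nonneg_left HB.x2 (by norm_num)
        · rw [if_neg (st_ne1 hli)]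
          have h1 : ∀ t, Pm.E (bv J n0 i j l h S ix Uc {i, l} t) =
              2500 * Pm.E (fun w => (xB i h Uc l (letG Rz J n0 i l (gL S ix)) t w - mB i h Uc t w) ^ 2) := by
            intro t
            rw [← Pm.E_smul]
            exact Pm.E_congr fun w _ => bv_il hij hli hlj t w
          rw [Finset.sum_congr rfl fun t _ => h1 t, ← Finset.mul_sum]
          exact mul_le_mul_of_nonneg_left HB.y2 (by norm_num)
      cJ := by
        intro U hU
        have g1 := nf_nn H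
        have g2 := ne_nn H
        have key : ∀ p : ℕ → OmC k N Θ Ξ Rz M → Prop,
            (∀ w, ∑ t ∈ range (N + 1), ind (p t w) ≤ 2 * n0) →
            ∑ t ∈ range N, Pm.E (fun w => ind (p (t + 1) w)) ≤ 2 * n0 + nf + ne := by
          intro p hp
          rw [← Pm.E_sum]
          have h1 : Pm.E (fun w => ∑ t ∈ range N, ind (p (t + 1) w)) ≤ 2 * n0 := by
            refine Pm.E_le_const fun w _ => ?_
            have h2 := hp w
            rw [Finset.sum_range_succ'] at h2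
            linarith [ind_nonneg (p 0 w)]
          linarith
        rw [hUU] at hU
        simp only [Finset.mem_insert, Finset.mem_singleton] at hU
        rcases hU with rfl | rfl | rfl
        · have h1 : ∀ t, Pm.E (cv (Rz := Rz) J n0 i j l S ix {i} t) = 0 := by
            intro t
            have h2 : cv (Rz := Rz) J n0 i j l S ix {i} t = fun _ => (0 : ℝ) := funext fun w => cv_i hij hli t w
            rw [h2, FP.E_const]
          rw [Finset.sum_congr rfl fun t _ => h1 t, Finset.sum_const_zero]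
          positivity
        · have h1 : ∀ t, Pm.E (cv (Rz := Rz) J n0 i j l S ix {i, j} t) =
              Pm.E (fun w => ind (((fL S ix).pull pic).pc Rz J n0 (nuF i j) (t + 1) w ≠ none)) := fun t =>
            Pm.E_congr fun w _ => cv_ij t w
          rw [Finset.sum_congr rfl fun t _ => h1 t]
          exact key (fun t w => ((fL S ix).pull pic).pc Rz J n0 (nuF i j) t w ≠ none)
            (fun w => L1.pc_count (D := (fL S ix).pull pic) (N + 1) w)
        · have h1 : ∀ t, Pm.E (cv (Rz := Rz) J n0 i j l S ix {i, l} t) =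
              Pm.E (fun w => ind (((gL S ix).pull pic).pc Rz J n0 (nuG i l) (t + 1) w ≠ none)) := fun t =>
            Pm.E_congr fun w _ => cv_il hij hli hlj t w
          rw [Finset.sum_congr rfl fun t _ => h1 t]
          exact key (fun t w => ((gL S ix).pull pic).pc Rz J n0 (nuG i l) t w ≠ none)
            (fun w => L1.pc_count (D := (gL S ix).pull pic) (N + 1) w)
      chZ := fun U hU t _ => ch_zk hF hG hU t
      chJ := by
        intro U hU
        have g1 := nf_nn H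
        have g2 := ne_nn H
        have hf := fP (Rz := Rz) H
        have hg := gP (Rz := Rz) H
        have g3 : (0 : ℝ) ≤ n0 := Nat.cast_nonneg n0
        rw [hUU] at hU
        simp only [Finset.mem_insert, Finset.mem_singleton] at hU
        rcases hU with rfl | rfl | rfl
        · have h1 : ∀ t, Pm.Pr (chv (Rz := Rz) i j l S {i} t) = 0 := by
            intro t
            unfold FP.Pr
            have h2 : (fun w : OmC k N Θ Ξ Rz M => ind (chv i j l S {i} t w)) = fun _ => (0 : ℝ) := by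
              funext w
              refine ind_not ?_
              rintro (⟨h3, _⟩ | ⟨h3, _⟩)
              · exact st_ne1 hij h3.symm
              · exact st_ne1 hli h3.symm
            rw [h2, FP.E_const]
          rw [Finset.sum_congr rfl fun t _ => h1 t, Finset.sum_const_zero]
          positivity
        · refine (Finset.sum_le_sum fun t _ => Pm.Pr_mono fun w _ hw => ?_).trans (hf.trans (by linarith))
          rcases hw with ⟨_, h3⟩ | ⟨h3, _⟩
          · exact h3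
          · exact absurd h3.symm (st_ne2 hli hlj)
        · refine (Finset.sum_le_sum fun t _ => Pm.Pr_mono fun w _ hw => ?_).trans (hg.trans (by linarith))
          rcases hw with ⟨h3, _⟩ | ⟨_, h3⟩
          · exact absurd h3 (st_ne2 hli hlj)
          · exact h3
      eJ := by
        have g1 := nf_nn H
        have g3 : (0 : ℝ) ≤ n0 := Nat.cast_nonneg n0
        have h1 : ∑ t ∈ range N, Pm.Pr (fun w : OmC k N Θ Ξ Rz M => chE h i (liftF (R i)) t w) =
            ∑ t ∈ range N, Pm.Pr (fun w : Sp k N 3 Θ Ξ => chE h i (liftF (R i)) t w) :=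
          Finset.sum_congr rfl fun t _ =>
            (pul_pic (k := k) (N := N) (m := 3) (Θ := Θ) (Ξ := Ξ) (Ci := Co k N Ξ Rz (Bool → Fin (M + 1)))).Pr
              (fun v : Sp k N 3 Θ Ξ => chE h i (liftF (R i)) t v)
        rw [h1]
        linarith [H.eJ]
      thm := by
        intro r hr D0' hi' hD'
        by_cases h9 : 2 * r ≤ 9
        · have HP' := pubAA H hUs hi' hD'
          have hr0' : 0 ≤ r := by linarith [H.hyp.eta0]
          have her : S.eta ≤ r := by linarith [H.hyp.eta0]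
          refine ⟨(S.pull Pm pic D0').DD D0' r, fun t w hw => RT.DD_inc HP' r t w (Pm_ne w) hw,
            fun t w hw => Or.inr hw, ?_, ?_, ?_, ?_⟩
          · have h1 := D2_le H hi' hD' hr1 hr0 hr
            linarith
          · intro t _ w hx hd
            have h1 := RT.XS HP' (c := 9) hr0' t w (Pm_ne w) hx hd
            have h2 : 2 * r - S.eta ≤ |S.T t (pic w)| := h1
            rw [hTZ] at h2
            exact h2
          · intro s2 t _ w hs2 hx hd
            refine RT.SX HP' (c := 9) (r := r) (fun t w _ => ?_) hs2 t w (Pm_ne w) ?_ hd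
            · have h3 := T_lt H t (pic w)
              show |S.T t (pic w)| + S.eta ≤ 9
              linarith
            · show s2 + S.eta ≤ |S.T t (pic w)|
              rw [hTZ]
              exact hx
          · intro t _ w hx ha
            refine RT.noev HP' (c := 9) hr0' her h9 (fun t w _ => ?_) t w (Pm_ne w) hx ha
            have h3 := T_lt H t (pic w)
            show |S.T t (pic w)| + S.eta < 9
            linarith
        · have h9' : 9 < 2 * r := not_le.mp h9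
          have hXle : ∀ t w, |(S.pull Pm pic (dd (Rz := Rz) J n0 i j l S ix)).Xc (xx J n0 i j l S ix) 9 t w| ≤ 9 :=
            fun t w => RT.Xc_abs (by norm_num) t w
          refine ⟨D0', hi', fun t w hw => hw, ?_, ?_, ?_, ?_⟩
          · have h1 : 0 ≤ ∑ t ∈ range N, Pm.Pr (fun w : OmC k N Θ Ξ Rz M =>
              (chE h i (liftF (R i)) t w ∨ ∃ U ∈ UU i, chv i j l S U t w) ∧
              (r ≤ |TZ h (fun a => liftF (R a)) t w| ∨ r ≤ |TZ h (fun a => liftF (R a)) (t + 1) w|) ∧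
                ¬ D0' (t + 1) w) := Finset.sum_nonneg fun _ _ => Pm.Pr_nonneg _
            linarith
          · intro t _ w hx _
            have h1 := hXle t w
            linarith
          · intro s2 t _ w hs2 hx _
            exfalso
            rw [← hTZ] at hx
            have h3 := T_lt H t (pic w)
            have h4 := H.hyp.eta0
            linarith
          · intro t _ w hx _
            have h1 := hXle t w
            linarith }
  exact ⟨W, rfl, rfl, rfl, rfl, rfl, fun U => rfl, rfl⟩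

end main

end Pool.Agent.M3.Mod
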