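import Pool.Agent.PWZ.Step

/-!
# M3 / Nam : names of a moving family on rounded paths (helper65)

Step (1) of section 2M and Lemma N of section 2 of the proof for three commuting maps
(MP_4d8f14_an).  Abstract setting:

* `PathEx α` : expectation operators `E t` on functions of the exact path `l : List α`
  (newest first, `l.length = t + 1`), `E (t+1) (f ∘ tail) = E t f`;
* `m l` : a probability weight on `V` for every exact path (mean over `J_l`), free:
  `E (t+1) (∑ m l c * F l.tail c) = E t (∑ m l c * F l c)` (functions fixed before the step);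
* `rd l` : the rounded path, `ms r` : the weight of a rounded path (mean over `J*`), the two
  means of a function bounded by `B` differ by at most `δ B`, `8 δ ≤ η`;
* `u r y` : a moving family (function of the rounded path and of the vertex `y : Y`);
* `cell r y` : the small cell of `y`.

`names_moving`: there are births `A r` (lists of sets of vertices, each in one cell and of
density at least `ε` there) and names `g r y`, determined by the births which contain `y`, such
that `u - g` is uniform (`HF`) in every cell, and the number of births of a vertex has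
conditional budget `8/η² (1 + number of moves)` from every state.
-/

set_option autoImplicit false

namespace Pool.Agent.M3

open Finset Pool.Agent.PWZ

/-- inner product with a weight -/
def wip {V : Type*} [Fintype V] (m : V → ℝ) (f h : V → ℝ) : ℝ := ∑ c, m c * f c * h c

/-- a probability weight -/
structure PW {V : Type*} [Fintype V] (m : V → ℝ) : Prop where
  nn : ∀ c, 0 ≤ m c
  sum : ∑ c, m c = 1

section wip

variable {V : Type*} [Fintype V] {m : V → ℝ}

theorem wip_self_nonneg (hm : PW m) (f : V → ℝ) : 0 ≤ wip m f f := by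
  unfold wip
  refine Finset.sum_nonneg fun c _ => ?_
  rw [mul_assoc]
  exact mul_nonneg (hm.nn c) (mul_self_nonneg _)

theorem abs_wip_le (hm : PW m) (f h : V → ℝ) (B B' : ℝ) (hB : 0 ≤ B)
    (hf : ∀ c, |f c| ≤ B) (hh : ∀ c, |h c| ≤ B') : |wip m f h| ≤ B * B' := by
  unfold wip
  calc |∑ c, m c * f c * h c|
      ≤ ∑ c, |m c * f c * h c| := Finset.abs_sum_le_sum_abs _ _
    _ ≤ ∑ c, m c * (B * B') := by
        refine Finset.sum_le_sum (fun c _ => ?_)
        rw [abs_mul, abs_mul, abs_of_nonneg (hm.nn c), mul_assoc]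
        refine mul_le_mul_of_nonneg_left ?_ (hm.nn c)
        exact mul_le_mul (hf c) (hh c) (abs_nonneg _) hB
    _ = B * B' := by rw [← Finset.sum_mul, hm.sum, one_mul]

/-- the energy drop at one point -/
theorem wip_drop (hm : PW m) (f g w : V → ℝ) (hf : ∀ c, |f c| ≤ 1)
    (hw : ∀ c, |w c| ≤ 1) (η : ℝ) (hη : 0 < η)
    (h : η < wip m (fun c => f c - g c) w) :
    wip m (fun c => f c - max (-1) (min 1 (g c + η * w c)))
        (fun c => f c - max (-1) (min 1 (g c + η * w c))) + η ^ 2 ≤
      wip m (fun c => f c - g c) (fun c => f c - g c) := by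
  have h1 : wip m (fun c => f c - max (-1) (min 1 (g c + η * w c)))
        (fun c => f c - max (-1) (min 1 (g c + η * w c))) ≤
      ∑ c, m c * (f c - (g c + η * w c)) ^ 2 := by
    unfold wip
    refine Finset.sum_le_sum (fun c _ => ?_)
    have := mul_le_mul_of_nonneg_left (clip_sq (f c) (g c + η * w c) (hf c)) (hm.nn c)
    calc m c * (f c - max (-1) (min 1 (g c + η * w c))) *
          (f c - max (-1) (min 1 (g c + η * w c)))
        = m c * (f c - max (-1) (min 1 (g c + η * w c))) ^ 2 := by ring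
      _ ≤ _ := this
  have h2 : ∑ c, m c * (f c - (g c + η * w c)) ^ 2 =
      wip m (fun c => f c - g c) (fun c => f c - g c) -
        (2 * η) * wip m (fun c => f c - g c) w + η ^ 2 * wip m w w := by
    unfold wip
    rw [Finset.mul_sum, Finset.mul_sum, ← Finset.sum_sub_distrib, ← Finset.sum_add_distrib]
    refine Finset.sum_congr rfl (fun c _ => ?_)
    ring
  have h3 : wip m w w ≤ 1 := by
    have := abs_wip_le hm w w 1 1 zero_le_one hw hw
    have h4 := le_abs_self (wip m w w)
    linarith
  have h4 : η ^ 2 * wip m w w ≤ η ^ 2 * 1 :=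
    mul_le_mul_of_nonneg_left h3 (by positivity)
  have h5 : (2 * η) * η ≤ (2 * η) * wip m (fun c => f c - g c) w :=
    mul_le_mul_of_nonneg_left h.le (by positivity)
  rw [h2] at h1
  nlinarith [h1, h4, h5]

end wip

/-- number of births of `y` in a list -/
noncomputable def nb {Y : Type*} (L : List (Finset Y)) (y : Y) : ℝ :=
  (L.map (fun X => ind (y ∈ X))).sum

theorem nb_nil {Y : Type*} (y : Y) : nb ([] : List (Finset Y)) y = 0 := rfl

theorem nb_cons {Y : Type*} (X : Finset Y) (L : List (Finset Y)) (y : Y) :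
    nb (X :: L) y = ind (y ∈ X) + nb L y := by
  unfold nb
  rw [List.map_cons, List.sum_cons]

theorem nb_nonneg {Y : Type*} (L : List (Finset Y)) (y : Y) : 0 ≤ nb L y := by
  induction L with
  | nil => rw [nb_nil]
  | cons X L ih =>
    rw [nb_cons]
    have := ind_nonneg (y ∈ X)
    linarith

theorem nb_eq_zero {Y : Type*} (L : List (Finset Y)) (y : Y) (h : ∀ X ∈ L, y ∉ X) :
    nb L y = 0 := by
  induction L with
  | nil => rw [nb_nil]
  | cons X L ih =>
    rw [nb_cons, ind_not (h X List.mem_cons_self), ih (fun Z hZ => h Z (List.mem_cons_of_mem _ hZ)),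
      add_zero]

theorem one_le_nb {Y : Type*} (L : List (Finset Y)) (y : Y) (X : Finset Y) (hX : X ∈ L)
    (h : y ∈ X) : 1 ≤ nb L y := by
  induction L with
  | nil => simp at hX
  | cons Z L ih =>
    rw [nb_cons]
    rcases List.mem_cons.mp hX with h1 | h1
    · rw [← h1, ind_of h]
      have := nb_nonneg L y
      linarith
    · have := ih h1
      have h2 := ind_nonneg (y ∈ Z)
      linarith

section step

variable {V : Type*} [Fintype V] {Y : Type*} [Fintype Y] {κ : Type*}

/-- number of points of a cell -/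
noncomputable def cs (cell : Y → κ) (k : κ) : ℝ := ∑ y, ind (cell y = k)

/-- uniformity of a family in every cell -/
def HFc (m : V → ℝ) (cell : Y → κ) (G : Y → V → ℝ) (η ε : ℝ) : Prop :=
  ∀ w : V → ℝ, (∀ c, |w c| ≤ 1) → ∀ k,
    ∑ y, ind (cell y = k) * ind (η < |wip m (G y) w|) ≤ ε * cs cell k

/-- a birth : a nonempty set in one cell, of density at least `ε` -/
def IsB (cell : Y → κ) (ε : ℝ) (X : Finset Y) : Prop :=
  X.Nonempty ∧ ∃ k, (∀ y ∈ X, cell y = k) ∧ ε * cs cell k ≤ (X.card : ℝ)

theorem sum_ind_mul_eq_card (P Q : Y → Prop) :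
    ∑ y, ind (P y) * ind (Q y) =
      ((@Finset.filter Y (fun y => P y ∧ Q y) (fun _ => Classical.propDecidable _) univ).card : ℝ) := by
  classical
  rw [Finset.card_filter, Nat.cast_sum]
  refine Finset.sum_congr rfl fun y _ => ?_
  by_cases h1 : P y
  · by_cases h2 : Q y
    · rw [ind_of h1, ind_of h2, if_pos ⟨h1, h2⟩, Nat.cast_one, one_mul]
    · rw [ind_not h2, if_neg (fun h => h2 h.2), Nat.cast_zero, mul_zero]
  · rw [ind_not h1, if_neg (fun h => h1 h.1), Nat.cast_zero, zero_mul]

theorem abs_clip_sub_le (x w η : ℝ) (hη : 0 ≤ η) (hx : |x| ≤ 1) (hw : |w| ≤ 1) :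
    |max (-1) (min 1 (x + η * w)) - x| ≤ η := by
  have h1 : |η * w| ≤ η := by
    rw [abs_mul, abs_of_nonneg hη]
    calc η * |w| ≤ η * 1 := mul_le_mul_of_nonneg_left hw hη
      _ = η := mul_one _
  have h2 := abs_le.1 hx
  have h3 := abs_le.1 h1
  rw [abs_le]
  constructor
  · have : x - η ≤ min 1 (x + η * w) := le_min (by linarith) (by linarith)
    have h4 := le_max_right (-1) (min 1 (x + η * w))
    linarith
  · have h4 : max (-1) (min 1 (x + η * w)) ≤ x + η :=
      max_le (by linarith) ((min_le_right _ _).trans (by linarith))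
    linarith

/-- one birth -/
theorem nam_one {m : V → ℝ} (hm : PW m) (cell : Y → κ) (G g0 : Y → V → ℝ)
    (hG : ∀ y c, |G y c| ≤ 1) (hg0 : ∀ y c, |g0 y c| ≤ 1) (η ε : ℝ) (hη : 0 < η) (hε : 0 ≤ ε)
    (hH : ¬ HFc m cell (fun y c => G y c - g0 y c) η (2 * ε)) :
    ∃ (X : Finset Y) (g : Y → V → ℝ),
      (∀ y c, |g y c| ≤ 1) ∧
      (∀ y, y ∉ X → g y = g0 y) ∧
      (∀ y y', g0 y = g0 y' → (y ∈ X ↔ y' ∈ X) → g y = g y') ∧
      IsB cell ε X ∧
      (∀ y c, |g y c - g0 y c| ≤ η * ind (y ∈ X)) ∧
      (∀ y, wip m (fun c => G y c - g y c) (fun c => G y c - g y c) + η ^ 2 * ind (y ∈ X) ≤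
        wip m (fun c => G y c - g0 y c) (fun c => G y c - g0 y c)) := by
  classical
  obtain ⟨w, hw, k, hk⟩ : ∃ w : V → ℝ, (∀ c, |w c| ≤ 1) ∧ ∃ k,
      ε * cs cell k <
        ∑ y, ind (cell y = k) * ind (η < wip m (fun c => G y c - g0 y c) w) := by
    unfold HFc at hH
    push Not at hH
    obtain ⟨w, hw, k, hk⟩ := hH
    by_cases hc : ε * cs cell k <
        ∑ y, ind (cell y = k) * ind (η < wip m (fun c => G y c - g0 y c) w)
    · exact ⟨w, hw, k, hc⟩
    · push Not at hc
      refine ⟨fun c => - w c, fun c => by rw [abs_neg]; exact hw c, k, ?_⟩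
      have hneg : ∀ y, wip m (fun c => G y c - g0 y c) (fun c => - w c) =
          - wip m (fun c => G y c - g0 y c) w := by
        intro y
        unfold wip
        rw [← Finset.sum_neg_distrib]
        exact Finset.sum_congr rfl (fun c _ => by ring)
      have hle : ∑ y, ind (cell y = k) * ind (η < |wip m (fun c => G y c - g0 y c) w|) ≤
          (∑ y, ind (cell y = k) * ind (η < wip m (fun c => G y c - g0 y c) w)) +
          ∑ y, ind (cell y = k) * ind (η < wip m (fun c => G y c - g0 y c) (fun c => - w c)) := by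
        rw [← Finset.sum_add_distrib]
        refine Finset.sum_le_sum (fun y _ => ?_)
        rw [← mul_add]
        refine mul_le_mul_of_nonneg_left ?_ (ind_nonneg _)
        refine le_trans (ind_mono ?_) (ind_or_le _ _)
        intro hlt
        rw [hneg y]
        rcases lt_abs.mp hlt with h | h
        · exact Or.inl h
        · exact Or.inr h
      linarith
  let P : Y → Prop := fun y => η < wip m (fun c => G y c - g0 y c) w
  let X : Finset Y := univ.filter (fun y => cell y = k ∧ P y)
  have hmemX : ∀ y, y ∈ X ↔ (cell y = k ∧ P y) := by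
    intro y
    simp only [X, Finset.mem_filter, Finset.mem_univ, true_and]
  have hcard : ∑ y, ind (cell y = k) * ind (η < wip m (fun c => G y c - g0 y c) w) =
      (X.card : ℝ) := by
    rw [sum_ind_mul_eq_card (fun y => cell y = k) (fun y => η < wip m (fun c => G y c - g0 y c) w)]
    congr 2
    ext y
    simp only [Finset.mem_filter, Finset.mem_univ, true_and, X, P]
  rw [hcard] at hk
  have hcs : 0 ≤ cs cell k := Finset.sum_nonneg fun y _ => ind_nonneg _
  have hXpos : 0 < (X.card : ℝ) := lt_of_le_of_lt (mul_nonneg hε hcs) hk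
  have hXne : X.Nonempty := by
    rw [← Finset.card_pos]
    exact_mod_cast hXpos
  let g : Y → V → ℝ := fun y =>
    if y ∈ X then (fun c => max (-1) (min 1 (g0 y c + η * w c))) else g0 y
  have hgin : ∀ y, y ∈ X → g y = fun c => max (-1) (min 1 (g0 y c + η * w c)) := by
    intro y hy
    simp only [g, if_pos hy]
  have hgout : ∀ y, y ∉ X → g y = g0 y := by
    intro y hy
    simp only [g, if_neg hy]
  refine ⟨X, g, ?_, hgout, ?_, ⟨hXne, k, fun y hy => ((hmemX y).1 hy).1, hk.le⟩, ?_, ?_⟩
  · intro y c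
    by_cases hy : y ∈ X
    · rw [hgin y hy]
      exact abs_clip_le _
    · rw [hgout y hy]
      exact hg0 y c
  · intro y y' h1 h2
    by_cases hy : y ∈ X
    · rw [hgin y hy, hgin y' (h2.mp hy), h1]
    · have hy' : y' ∉ X := fun h => hy (h2.mpr h)
      rw [hgout y hy, hgout y' hy', h1]
  · intro y c
    by_cases hy : y ∈ X
    · rw [ind_of hy, hgin y hy, mul_one]
      exact abs_clip_sub_le (g0 y c) (w c) η hη.le (hg0 y c) (hw c)
    · rw [ind_not hy, hgout y hy, sub_self, abs_zero, mul_zero]
  · intro y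
    by_cases hy : y ∈ X
    · rw [ind_of hy, hgin y hy, mul_one]
      exact wip_drop hm (G y) (g0 y) w (hG y) hw η hη ((hmemX y).1 hy).2
    · rw [ind_not hy, hgout y hy, mul_zero, add_zero]

/-- all births at one node -/
theorem nam_step {m : V → ℝ} (hm : PW m) (cell : Y → κ) (G g0 : Y → V → ℝ)
    (hG : ∀ y c, |G y c| ≤ 1) (hg0 : ∀ y c, |g0 y c| ≤ 1) (η ε : ℝ) (hη : 0 < η) (hε : 0 ≤ ε) :
    ∃ (L : List (Finset Y)) (g : Y → V → ℝ),
      (∀ y c, |g y c| ≤ 1) ∧
      (∀ y, (∀ X ∈ L, y ∉ X) → g y = g0 y) ∧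
      (∀ y y', g0 y = g0 y' → (∀ X ∈ L, (y ∈ X ↔ y' ∈ X)) → g y = g y') ∧
      HFc m cell (fun y c => G y c - g y c) η (2 * ε) ∧
      (∀ X ∈ L, IsB cell ε X) ∧
      (∀ y c, |g y c - g0 y c| ≤ η * nb L y) ∧
      (∀ y, wip m (fun c => G y c - g y c) (fun c => G y c - g y c) + η ^ 2 * nb L y ≤
        wip m (fun c => G y c - g0 y c) (fun c => G y c - g0 y c)) := by
  classical
  have key : ∀ N : ℕ, ∀ g0 : Y → V → ℝ, (∀ y c, |g0 y c| ≤ 1) →
      (∑ y, wip m (fun c => G y c - g0 y c) (fun c => G y c - g0 y c)) < N * η ^ 2 →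
      ∃ (L : List (Finset Y)) (g : Y → V → ℝ),
      (∀ y c, |g y c| ≤ 1) ∧
      (∀ y, (∀ X ∈ L, y ∉ X) → g y = g0 y) ∧
      (∀ y y', g0 y = g0 y' → (∀ X ∈ L, (y ∈ X ↔ y' ∈ X)) → g y = g y') ∧
      HFc m cell (fun y c => G y c - g y c) η (2 * ε) ∧
      (∀ X ∈ L, IsB cell ε X) ∧
      (∀ y c, |g y c - g0 y c| ≤ η * nb L y) ∧
      (∀ y, wip m (fun c => G y c - g y c) (fun c => G y c - g y c) + η ^ 2 * nb L y ≤
        wip m (fun c => G y c - g0 y c) (fun c => G y c - g0 y c)) := by
    intro N
    induction N with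
    | zero =>
      intro g0 hg0 hN
      exfalso
      have h0 : 0 ≤ ∑ y, wip m (fun c => G y c - g0 y c) (fun c => G y c - g0 y c) :=
        Finset.sum_nonneg fun y _ => wip_self_nonneg hm _
      simp only [Nat.cast_zero, zero_mul] at hN
      linarith
    | succ N ih =>
      intro g0 hg0 hN
      by_cases hH : HFc m cell (fun y c => G y c - g0 y c) η (2 * ε)
      · refine ⟨[], g0, hg0, fun y _ => rfl, fun y y' h _ => h, hH, ?_, ?_, ?_⟩
        · intro X hX; simp at hX
        · intro y c; rw [sub_self, abs_zero, nb_nil, mul_zero]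
        · intro y; rw [nb_nil, mul_zero, add_zero]
      · obtain ⟨X, g1, hb1, hout1, hcls1, hB1, hch1, hE⟩ := nam_one hm cell G g0 hG hg0 η ε hη hε hH
        have hN1 : (∑ y, wip m (fun c => G y c - g1 y c) (fun c => G y c - g1 y c)) <
            N * η ^ 2 := by
          have h1 : (∑ y, wip m (fun c => G y c - g1 y c) (fun c => G y c - g1 y c)) +
              η ^ 2 * ∑ y, ind (y ∈ X) ≤
              ∑ y, wip m (fun c => G y c - g0 y c) (fun c => G y c - g0 y c) := by
            rw [Finset.mul_sum, ← Finset.sum_add_distrib]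
            exact Finset.sum_le_sum fun y _ => hE y
          obtain ⟨y0, hy0⟩ := hB1.1
          have h2 : (1 : ℝ) ≤ ∑ y, ind (y ∈ X) := by
            rw [← ind_of hy0]
            exact Finset.single_le_sum (f := fun y => ind (y ∈ X)) (fun y _ => ind_nonneg _)
              (Finset.mem_univ y0)
          have h3 : η ^ 2 * 1 ≤ η ^ 2 * ∑ y, ind (y ∈ X) :=
            mul_le_mul_of_nonneg_left h2 (by positivity)
          push_cast at hN
          linarith
        obtain ⟨L, g, hb, hout, hcls, hHF, hB, hch, hEn⟩ := ih g1 hb1 hN1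
        refine ⟨X :: L, g, hb, ?_, ?_, hHF, ?_, ?_, ?_⟩
        · intro y hy
          rw [hout y (fun Z hZ => hy Z (List.mem_cons_of_mem _ hZ)),
            hout1 y (hy X List.mem_cons_self)]
        · intro y y' h h'
          exact hcls y y' (hcls1 y y' h (h' X List.mem_cons_self))
            (fun Z hZ => h' Z (List.mem_cons_of_mem _ hZ))
        · intro Z hZ
          rcases List.mem_cons.mp hZ with h | h
          · rw [h]; exact hB1
          · exact hB Z h
        · intro y c
          rw [nb_cons, mul_add]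
          have h1 := hch1 y c
          have h2 := hch y c
          have h3 := abs_sub_le (g y c) (g1 y c) (g0 y c)
          linarith
        · intro y
          rw [nb_cons, mul_add]
          have h1 := hE y
          have h2 := hEn y
          linarith
  obtain ⟨N, hN⟩ := exists_nat_gt
    ((∑ y, wip m (fun c => G y c - g0 y c) (fun c => G y c - g0 y c)) / η ^ 2)
  refine key N g0 hg0 ?_
  rwa [div_lt_iff₀ (by positivity)] at hN

end step

/-- expectation operators on paths (newest first) -/
structure PathEx (α : Type*) where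
  E : ℕ → (List α → ℝ) → ℝ
  add : ∀ t f g, E t (fun l => f l + g l) = E t f + E t g
  smul : ∀ t (x : ℝ) f, E t (fun l => x * f l) = x * E t f
  mono : ∀ t f g, (∀ l, l.length = t + 1 → f l ≤ g l) → E t f ≤ E t g
  tail : ∀ t f, E (t + 1) (fun l => f l.tail) = E t f

namespace PathEx

variable {α : Type*} (P : PathEx α)

theorem congr_len (t : ℕ) (f g : List α → ℝ) (h : ∀ l, l.length = t + 1 → f l = g l) :
    P.E t f = P.E t g :=
  le_antisymm (P.mono t f g fun l hl => (h l hl).le) (P.mono t g f fun l hl => (h l hl).ge)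

theorem zero (t : ℕ) : P.E t (fun _ => 0) = 0 := by
  have h := P.smul t 0 (fun _ => 0)
  simpa using h

theorem nonneg (t : ℕ) (f : List α → ℝ) (h : ∀ l, l.length = t + 1 → 0 ≤ f l) :
    0 ≤ P.E t f := by
  rw [← P.zero t]
  exact P.mono t _ _ h

theorem sub (t : ℕ) (f g : List α → ℝ) : P.E t (fun l => f l - g l) = P.E t f - P.E t g := by
  have h := P.add t f (fun l => (-1) * g l)
  rw [P.smul] at h
  rw [sub_eq_add_neg, ← neg_one_mul, ← h]
  exact P.congr_len t _ _ fun l _ => by ring

theorem sum {ι : Type*} (s : Finset ι) (t : ℕ) (f : ι → List α → ℝ) :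
    P.E t (fun l => ∑ i ∈ s, f i l) = ∑ i ∈ s, P.E t (f i) := by
  classical
  induction s using Finset.induction_on with
  | empty => simp only [Finset.sum_empty]; exact P.zero t
  | insert i s hi ih =>
    rw [Finset.sum_insert hi, ← ih, ← P.add]
    exact P.congr_len t _ _ fun l _ => by rw [Finset.sum_insert hi]

theorem drop (t n : ℕ) (f : List α → ℝ) : P.E (t + n) (fun l => f (l.drop n)) = P.E t f := by
  induction n with
  | zero => simp
  | succ n ih =>
    rw [← ih, ← add_assoc, ← P.tail (t + n)]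
    exact P.congr_len _ _ _ fun l _ => by rw [List.drop_tail]

end PathEx

/-- accumulated list along a path -/
def accu {β γ : Type*} (A : List β → List γ) : List β → List γ
  | [] => []
  | b :: r => A (b :: r) ++ accu A r

/-- move indicator -/
noncomputable def mv {β Y V : Type*} (u : List β → Y → V → ℝ) (r : List β) (y : Y) : ℝ :=
  ind (u r y ≠ u r.tail y)

/-- data for the names of a moving family -/
structure NamData (α β V Y κ : Type*) [Fintype V] [Fintype Y] where
  P : PathEx α
  m : List α → V → ℝ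
  hm : ∀ l, PW (m l)
  free : ∀ t (F : List α → V → ℝ),
    P.E (t + 1) (fun l => ∑ c, m l c * F l.tail c) = P.E t (fun l => ∑ c, m l c * F l c)
  rd : List α → List β
  rd_nil : rd [] = []
  rd_cons : ∀ x l, ∃ b, rd (x :: l) = b :: rd l
  ms : List β → V → ℝ
  hms : ∀ r, PW (ms r)
  δ : ℝ
  err : ∀ l (F : V → ℝ) (B : ℝ), (∀ c, |F c| ≤ B) →
    |∑ c, m l c * F c - ∑ c, ms (rd l) c * F c| ≤ δ * B
  u : List β → Y → V → ℝ
  hu : ∀ r y c, |u r y c| ≤ 1
  u_nil : ∀ y c, u [] y c = 0
  cell : List β → Y → κ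

/-- the names of a moving family -/
structure Names {α β V Y κ : Type*} [Fintype V] [Fintype Y] (D : NamData α β V Y κ) (η ε : ℝ)
    (A : List β → List (Finset Y)) (g : List β → Y → V → ℝ) : Prop where
  A_nil : A [] = []
  g_nil : ∀ y c, g [] y c = 0
  bd : ∀ r y c, |g r y c| ≤ 1
  out : ∀ b r y, (∀ X ∈ A (b :: r), y ∉ X) → g (b :: r) y = g r y
  cls : ∀ r y y', (∀ X ∈ accu A r, (y ∈ X ↔ y' ∈ X)) → g r y = g r y'
  hf : ∀ b r, HFc (D.ms (b :: r)) (D.cell (b :: r))
    (fun y c => D.u (b :: r) y c - g (b :: r) y c) η (2 * ε)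
  thick : ∀ b r, ∀ X ∈ A (b :: r), IsB (D.cell (b :: r)) ε X
  cap : ∀ b r y, η ^ 2 * nb (A (b :: r)) y ≤ 4
  chg : ∀ b r y c, |g (b :: r) y c - g r y c| ≤ η * nb (A (b :: r)) y
  drop : ∀ b r y, wip (D.ms (b :: r)) (fun c => D.u (b :: r) y c - g (b :: r) y c)
      (fun c => D.u (b :: r) y c - g (b :: r) y c) + η ^ 2 * nb (A (b :: r)) y ≤
    wip (D.ms (b :: r)) (fun c => D.u (b :: r) y c - g r y c)
      (fun c => D.u (b :: r) y c - g r y c)

section main

variable {α β V Y κ : Type*} [Fintype V] [Fintype Y] (D : NamData α β V Y κ)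

theorem names_exist_moving (η ε : ℝ) (hη : 0 < η) (hε : 0 ≤ ε) :
    ∃ A g, Names D η ε A g := by
  classical
  have H := fun (r : List β) (g0 : Y → V → ℝ) (hg0 : ∀ y c, |g0 y c| ≤ 1) =>
    nam_step (D.hms r) (D.cell r) (D.u r) g0 (D.hu r) hg0 η ε hη hε
  choose L g h1 h2 h3 h4 h5 h7 h6 using H
  let st : List β → {g : Y → V → ℝ // ∀ y c, |g y c| ≤ 1} := fun r =>
    List.rec (motive := fun _ => {g : Y → V → ℝ // ∀ y c, |g y c| ≤ 1})
      ⟨fun _ _ => 0, fun _ _ => by simp⟩
      (fun b r ih => ⟨g (b :: r) ih.1 ih.2, h1 (b :: r) ih.1 ih.2⟩) r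
  let A : List β → List (Finset Y) := fun r =>
    List.casesOn (motive := fun _ => List (Finset Y)) r []
      (fun b r => L (b :: r) (st r).1 (st r).2)
  have hcls : ∀ r y y', (∀ X ∈ accu A r, (y ∈ X ↔ y' ∈ X)) → (st r).1 y = (st r).1 y' := by
    intro r
    induction r with
    | nil => intro y y' _; rfl
    | cons b r ih =>
      intro y y' h
      refine h3 (b :: r) (st r).1 (st r).2 y y' (ih y y' fun X hX => h X ?_) fun X hX => h X ?_
      · exact List.mem_append_right _ hX
      · exact List.mem_append_left _ hX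
  refine ⟨A, fun r => (st r).1,
    ⟨rfl, fun _ _ => rfl, fun r => (st r).2, ?_, hcls, ?_, ?_, ?_, ?_, ?_⟩⟩
  · exact fun b r => h2 (b :: r) (st r).1 (st r).2
  · exact fun b r => h4 (b :: r) (st r).1 (st r).2
  · exact fun b r => h5 (b :: r) (st r).1 (st r).2
  · intro b r y
    have h := h6 (b :: r) (st r).1 (st r).2 y
    have h0 : 0 ≤ wip (D.ms (b :: r))
        (fun c => D.u (b :: r) y c - g (b :: r) (st r).1 (st r).2 y c)
        (fun c => D.u (b :: r) y c - g (b :: r) (st r).1 (st r).2 y c) :=
      wip_self_nonneg (D.hms _) _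
    have h7' : ∀ c, |D.u (b :: r) y c - (st r).1 y c| ≤ 2 := by
      intro c
      have e1 := D.hu (b :: r) y c
      have e2 := (st r).2 y c
      have e3 := abs_sub (D.u (b :: r) y c) ((st r).1 y c)
      linarith
    have h8 := abs_wip_le (D.hms (b :: r)) _ _ 2 2 (by norm_num) h7' h7'
    have h9 := le_abs_self (wip (D.ms (b :: r)) (fun c => D.u (b :: r) y c - (st r).1 y c)
      (fun c => D.u (b :: r) y c - (st r).1 y c))
    show η ^ 2 * nb (L (b :: r) (st r).1 (st r).2) y ≤ 4
    linarith
  · exact fun b r => h7 (b :: r) (st r).1 (st r).2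
  · exact fun b r => h6 (b :: r) (st r).1 (st r).2

theorem NamData.free_wip (t : ℕ) (φ : List α → ℝ) (F : List α → V → ℝ) :
    D.P.E (t + 1) (fun l => φ l.tail * wip (D.m l) (F l.tail) (F l.tail)) =
      D.P.E t (fun l => φ l * wip (D.m l) (F l) (F l)) := by
  have h := D.free t (fun l c => φ l * (F l c * F l c))
  rw [D.P.congr_len (t + 1) (fun l => φ l.tail * wip (D.m l) (F l.tail) (F l.tail))
      (fun l => ∑ c, D.m l c * (φ l.tail * (F l.tail c * F l.tail c))) ?_, h]
  · refine D.P.congr_len t _ _ fun l _ => ?_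
    unfold wip
    rw [Finset.mul_sum]
    exact Finset.sum_congr rfl fun c _ => by ring
  · intro l _
    unfold wip
    rw [Finset.mul_sum]
    exact Finset.sum_congr rfl fun c _ => by ring

variable {D} {η ε : ℝ} {A : List β → List (Finset Y)} {g : List β → Y → V → ℝ}

/-- the exact energy -/
noncomputable def en (D : NamData α β V Y κ) (g : List β → Y → V → ℝ) (l : List α) (y : Y) : ℝ :=
  wip (D.m l) (fun c => D.u (D.rd l) y c - g (D.rd l) y c)
    (fun c => D.u (D.rd l) y c - g (D.rd l) y c)

theorem en_nonneg (D : NamData α β V Y κ) (g : List β → Y → V → ℝ) (l : List α) (y : Y) :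
    0 ≤ en D g l y := wip_self_nonneg (D.hm l) _

theorem Names.sub_le (N : Names D η ε A g) (r r' : List β) (y : Y) (c : V) :
    |D.u r y c - g r' y c| ≤ 2 := by
  have e1 := D.hu r y c
  have e2 := N.bd r' y c
  have e3 := abs_sub (D.u r y c) (g r' y c)
  linarith

theorem Names.sq_le (N : Names D η ε A g) {m : V → ℝ} (hm : PW m) (r r' : List β) (y : Y) :
    wip m (fun c => D.u r y c - g r' y c) (fun c => D.u r y c - g r' y c) ≤ 4 := by
  have h8 := abs_wip_le hm _ _ 2 2 (by norm_num) (N.sub_le r r' y) (N.sub_le r r' y)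
  have h9 := le_abs_self (wip m (fun c => D.u r y c - g r' y c) (fun c => D.u r y c - g r' y c))
  linarith

theorem Names.en_le (N : Names D η ε A g) (l : List α) (y : Y) : en D g l y ≤ 4 :=
  N.sq_le (D.hm l) _ _ y

/-- one step of the exact energy -/
theorem Names.step (N : Names D η ε A g) (hη : 0 < η) (hδ : 8 * D.δ ≤ η) (x : α) (l : List α) (y : Y) :
    en D g (x :: l) y + (η ^ 2 / 2) * nb (A (D.rd (x :: l))) y ≤
      wip (D.m (x :: l)) (fun c => D.u (D.rd l) y c - g (D.rd l) y c)
        (fun c => D.u (D.rd l) y c - g (D.rd l) y c) + 4 * mv D.u (D.rd (x :: l)) y := by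
  classical
  obtain ⟨b, hb⟩ := D.rd_cons x l
  have hmain : en D g (x :: l) y + (η ^ 2 / 2) * nb (A (D.rd (x :: l))) y ≤
      wip (D.m (x :: l)) (fun c => D.u (D.rd (x :: l)) y c - g (D.rd l) y c)
        (fun c => D.u (D.rd (x :: l)) y c - g (D.rd l) y c) := by
    unfold en
    rw [hb]
    by_cases hy : ∀ X ∈ A (b :: D.rd l), y ∉ X
    · rw [N.out b (D.rd l) y hy, nb_eq_zero _ _ hy, mul_zero, add_zero]
    · have h2 := N.drop b (D.rd l) y
      set a : ℝ := nb (A (b :: D.rd l)) y with ha
      have ha0 : 0 ≤ a := nb_nonneg _ _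
      have hF : ∀ c, |(D.u (b :: D.rd l) y c - g (D.rd l) y c) *
          (D.u (b :: D.rd l) y c - g (D.rd l) y c) -
          (D.u (b :: D.rd l) y c - g (b :: D.rd l) y c) *
          (D.u (b :: D.rd l) y c - g (b :: D.rd l) y c)| ≤ 4 * η * a := by
        intro c
        have e1 := N.chg b (D.rd l) y c
        have e2 := N.sub_le (b :: D.rd l) (D.rd l) y c
        have e3 := N.sub_le (b :: D.rd l) (b :: D.rd l) y c
        have e4 : (D.u (b :: D.rd l) y c - g (D.rd l) y c) *
          (D.u (b :: D.rd l) y c - g (D.rd l) y c) -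
          (D.u (b :: D.rd l) y c - g (b :: D.rd l) y c) *
          (D.u (b :: D.rd l) y c - g (b :: D.rd l) y c) =
          (g (b :: D.rd l) y c - g (D.rd l) y c) *
          ((D.u (b :: D.rd l) y c - g (D.rd l) y c) +
            (D.u (b :: D.rd l) y c - g (b :: D.rd l) y c)) := by ring
        rw [e4, abs_mul]
        have e5 : |(D.u (b :: D.rd l) y c - g (D.rd l) y c) +
            (D.u (b :: D.rd l) y c - g (b :: D.rd l) y c)| ≤ 4 := by
          refine (abs_add_le _ _).trans (by linarith)
        calc _ ≤ (η * a) * 4 := mul_le_mul e1 e5 (abs_nonneg _) (by positivity)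
          _ = 4 * η * a := by ring
      have h3 := D.err (x :: l) _ _ hF
      rw [hb] at h3
      have h4 := (abs_le.1 h3).1
      have e6 : ∀ w : V → ℝ, ∑ c, w c * ((D.u (b :: D.rd l) y c - g (D.rd l) y c) *
          (D.u (b :: D.rd l) y c - g (D.rd l) y c) -
          (D.u (b :: D.rd l) y c - g (b :: D.rd l) y c) *
          (D.u (b :: D.rd l) y c - g (b :: D.rd l) y c)) =
          wip w (fun c => D.u (b :: D.rd l) y c - g (D.rd l) y c)
            (fun c => D.u (b :: D.rd l) y c - g (D.rd l) y c) -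
          wip w (fun c => D.u (b :: D.rd l) y c - g (b :: D.rd l) y c)
            (fun c => D.u (b :: D.rd l) y c - g (b :: D.rd l) y c) := by
        intro w
        unfold wip
        rw [← Finset.sum_sub_distrib]
        exact Finset.sum_congr rfl fun c _ => by ring
      rw [e6, e6] at h4
      have h5 : D.δ * (4 * η * a) ≤ (η ^ 2 / 2) * a := by
        have h6 : 8 * D.δ * (η * a) ≤ η * (η * a) :=
          mul_le_mul_of_nonneg_right hδ (by positivity)
        nlinarith [h6]
      linarith
  refine hmain.trans ?_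
  by_cases hm : D.u (D.rd (x :: l)) y = D.u (D.rd l) y
  · rw [hm]
    have : 0 ≤ mv D.u (D.rd (x :: l)) y := ind_nonneg _
    linarith
  · have h1 : mv D.u (D.rd (x :: l)) y = 1 := by
      unfold mv
      rw [hb, List.tail_cons, ← hb]
      exact ind_of hm
    have h2 := N.sq_le (D.hm (x :: l)) (D.rd (x :: l)) (D.rd l) y
    have h3 := wip_self_nonneg (D.hm (x :: l)) (fun c => D.u (D.rd l) y c - g (D.rd l) y c)
    rw [h1]
    linarith

/-- one step in the mean -/
theorem Names.step_E (N : Names D η ε A g) (hη : 0 < η) (hδ : 8 * D.δ ≤ η) (y : Y) (t : ℕ)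
    (φ : List α → ℝ) (hφ : ∀ l, 0 ≤ φ l) :
    D.P.E (t + 1) (fun l => φ l.tail * en D g l y) +
        (η ^ 2 / 2) * D.P.E (t + 1) (fun l => φ l.tail * nb (A (D.rd l)) y) ≤
      D.P.E t (fun l => φ l * en D g l y) +
        4 * D.P.E (t + 1) (fun l => φ l.tail * mv D.u (D.rd l) y) := by
  have h0 := D.free_wip t φ (fun l c => D.u (D.rd l) y c - g (D.rd l) y c)
  have h1 : D.P.E t (fun l => φ l * en D g l y) = D.P.E (t + 1) (fun l => φ l.tail *
      wip (D.m l) (fun c => D.u (D.rd l.tail) y c - g (D.rd l.tail) y c)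
        (fun c => D.u (D.rd l.tail) y c - g (D.rd l.tail) y c)) := h0.symm
  rw [h1, ← D.P.smul, ← D.P.smul, ← D.P.add, ← D.P.add]
  refine D.P.mono (t + 1) _ _ fun l hl => ?_
  obtain ⟨x, l', rfl⟩ : ∃ x l', l = x :: l' := by
    cases l with
    | nil => simp at hl
    | cons x l' => exact ⟨x, l', rfl⟩
  have h2 := mul_le_mul_of_nonneg_left (N.step hη hδ x l' y) (hφ l')
  simp only [List.tail_cons]
  nlinarith [h2]

/-- conditional budget of the births of `y` from the state at time `s` -/
theorem Names.budget (N : Names D η ε A g) (hη : 0 < η) (hδ : 8 * D.δ ≤ η) (y : Y) (s n : ℕ)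
    (φ : List α → ℝ) (hφ : ∀ l, 0 ≤ φ l) :
    ∑ j ∈ range n, D.P.E (s + j + 1) (fun l => φ (l.drop (j + 1)) * nb (A (D.rd l)) y) ≤
      (8 / η ^ 2) * (D.P.E s φ +
        ∑ j ∈ range n, D.P.E (s + j + 1) (fun l => φ (l.drop (j + 1)) * mv D.u (D.rd l) y)) := by
  have key : ∀ n, D.P.E (s + n) (fun l => φ (l.drop n) * en D g l y) +
      (η ^ 2 / 2) * ∑ j ∈ range n,
        D.P.E (s + j + 1) (fun l => φ (l.drop (j + 1)) * nb (A (D.rd l)) y) ≤
      D.P.E s (fun l => φ l * en D g l y) +
        4 * ∑ j ∈ range n,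
          D.P.E (s + j + 1) (fun l => φ (l.drop (j + 1)) * mv D.u (D.rd l) y) := by
    intro n
    induction n with
    | zero => simp
    | succ n ih =>
      rw [Finset.sum_range_succ, Finset.sum_range_succ, mul_add, mul_add]
      have h := N.step_E hη hδ y (s + n) (fun l => φ (l.drop n)) (fun l => hφ _)
      simp only [List.drop_tail] at h
      rw [show s + (n + 1) = s + n + 1 by ring]
      linarith
  have h1 := key n
  have h2 : 0 ≤ D.P.E (s + n) (fun l => φ (l.drop n) * en D g l y) :=
    D.P.nonneg _ _ fun l _ => mul_nonneg (hφ _) (en_nonneg D g l y)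
  have h3 : D.P.E s (fun l => φ l * en D g l y) ≤ 4 * D.P.E s φ := by
    rw [← D.P.smul]
    refine D.P.mono _ _ _ fun l _ => ?_
    have := mul_le_mul_of_nonneg_left (N.en_le l y) (hφ l)
    linarith
  have hη2 : 0 < η ^ 2 := by positivity
  rw [div_mul_eq_mul_div, le_div_iff₀ hη2]
  linarith

/-- total budget of the births of `y` -/
theorem Names.budget0 (N : Names D η ε A g) (hη : 0 < η) (hδ : 8 * D.δ ≤ η) (y : Y) (n : ℕ) :
    ∑ t ∈ range (n + 1), D.P.E t (fun l => nb (A (D.rd l)) y) ≤
      (8 / η ^ 2) * ∑ t ∈ range (n + 1), D.P.E t (fun l => mv D.u (D.rd l) y) := by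
  have key : ∀ n, D.P.E n (fun l => en D g l y) +
      (η ^ 2 / 2) * ∑ t ∈ range (n + 1), D.P.E t (fun l => nb (A (D.rd l)) y) ≤
        4 * ∑ t ∈ range (n + 1), D.P.E t (fun l => mv D.u (D.rd l) y) := by
    intro n
    induction n with
    | zero =>
      rw [Finset.sum_range_one, Finset.sum_range_one, ← D.P.smul, ← D.P.smul, ← D.P.add]
      refine D.P.mono 0 _ _ fun l hl => ?_
      obtain ⟨x, rfl⟩ : ∃ x, l = [x] := List.length_eq_one_iff.1 hl
      have h := N.step hη hδ x [] y
      have h0 : wip (D.m [x]) (fun c => D.u (D.rd []) y c - g (D.rd []) y c)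
          (fun c => D.u (D.rd []) y c - g (D.rd []) y c) = 0 := by
        unfold wip
        refine Finset.sum_eq_zero fun c _ => ?_
        simp only [D.rd_nil, D.u_nil, N.g_nil]
        ring
      rw [h0] at h
      linarith
    | succ n ih =>
      rw [Finset.sum_range_succ, Finset.sum_range_succ _ (n + 1), mul_add, mul_add]
      have h := N.step_E hη hδ y n (fun _ => 1) (fun _ => zero_le_one)
      simp only [one_mul] at h
      linarith
  have h1 := key n
  have h2 : 0 ≤ D.P.E n (fun l => en D g l y) := D.P.nonneg _ _ fun l _ => en_nonneg D g l y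
  have hη2 : 0 < η ^ 2 := by positivity
  rw [div_mul_eq_mul_div, le_div_iff₀ hη2]
  linarith

end main

/-! ### exponential tails -/

/-- total of a nonnegative function along a path -/
def totp {α : Type*} (x : List α → ℝ) : List α → ℝ
  | [] => 0
  | a :: l => x (a :: l) + totp x l

theorem nb_append {Y : Type*} (L L' : List (Finset Y)) (y : Y) : nb (L ++ L') y = nb L y + nb L' y := by
  unfold nb
  rw [List.map_append, List.sum_append]

theorem totp_nb {α β V Y κ : Type*} [Fintype V] [Fintype Y] (D : NamData α β V Y κ)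
    (A : List β → List (Finset Y)) (y : Y) (l : List α) :
    totp (fun l => nb (A (D.rd l)) y) l = nb (accu A (D.rd l)) y := by
  induction l with
  | nil => rw [D.rd_nil]; rfl
  | cons x l ih =>
    obtain ⟨b, hb⟩ := D.rd_cons x l
    rw [totp, ih, hb, accu, nb_append]

theorem totp_nonneg {α : Type*} (x : List α → ℝ) (hx : ∀ l, 0 ≤ x l) (l : List α) :
    0 ≤ totp x l := by
  induction l with
  | nil => exact le_refl _
  | cons a l ih =>
    rw [totp]
    have := hx (a :: l)
    linarith

/-- first passage: the total reaches `θ` exactly at `l` -/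
noncomputable def fst {α : Type*} (x : List α → ℝ) (θ : ℝ) : List α → ℝ
  | [] => 0
  | a :: l => ind (totp x l < θ ∧ θ ≤ totp x (a :: l))

theorem fst_nonneg {α : Type*} (x : List α → ℝ) (θ : ℝ) (l : List α) : 0 ≤ fst x θ l := by
  cases l with
  | nil => exact le_refl _
  | cons a l => exact ind_nonneg _

/-- sum over the prefixes of the path: `l.drop i`, `i < l.length` -/
theorem sum_fst {α : Type*} (x : List α → ℝ) (hx : ∀ l, 0 ≤ x l) (θ : ℝ) (hθ : 0 < θ)
    (l : List α) : ∑ i ∈ range l.length, fst x θ (l.drop i) = ind (θ ≤ totp x l) := by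
  induction l with
  | nil =>
    rw [List.length_nil, Finset.range_zero, Finset.sum_empty, ind_not]
    rw [totp]
    exact not_le.2 hθ
  | cons a l ih =>
    rw [List.length_cons, Finset.sum_range_succ']
    simp only [List.drop_succ_cons, List.drop_zero]
    rw [ih, fst]
    have h1 := hx (a :: l)
    by_cases h2 : θ ≤ totp x l
    · have h3 : θ ≤ totp x (a :: l) := by rw [totp]; linarith
      rw [ind_of h2, ind_of h3, ind_not (fun h => absurd h.1 (not_lt.2 h2)), add_zero]
    · push Not at h2
      rw [ind_not (not_le.2 h2), zero_add]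
      by_cases h3 : θ ≤ totp x (a :: l)
      · rw [ind_of h3, ind_of ⟨h2, h3⟩]
      · rw [ind_not h3, ind_not (fun h => h3 h.2)]

/-- after the first passage of `θ` at `l.drop i` the rest of the total is large -/
theorem rest_large {α : Type*} (x : List α → ℝ) (cap : ℝ)
    (hc : ∀ l, x l ≤ cap) (θ θ' : ℝ) (l : List α) (hl : θ' ≤ totp x l) (i : ℕ)
    (hi : fst x θ (l.drop i) ≠ 0) : θ' - θ - cap ≤ ∑ j ∈ range i, x (l.drop j) := by
  have key : ∀ (i : ℕ) (l : List α), totp x l = (∑ j ∈ range i, if j < l.length then x (l.drop j) else 0)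
      + totp x (l.drop i) := by
    intro i
    induction i with
    | zero => intro l; simp
    | succ i ih =>
      intro l
      cases l with
      | nil => simp [totp]
      | cons a l =>
        rw [Finset.sum_range_succ', List.drop_succ_cons, totp, ih l]
        simp only [List.length_cons, add_lt_add_iff_right, List.drop_succ_cons, List.drop_zero,
          Nat.zero_lt_succ, if_true]
        ring
  obtain ⟨a, l', hal⟩ : ∃ a l', l.drop i = a :: l' := by
    cases h : l.drop i with
    | nil => rw [h] at hi; exact absurd rfl hi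
    | cons a l' => exact ⟨a, l', rfl⟩
  have hlen : i < l.length := by
    by_contra h
    push Not at h
    rw [List.drop_eq_nil_of_le h] at hal
    exact absurd hal (by simp)
  have h1 := key i l
  have h2 : (∑ j ∈ range i, if j < l.length then x (l.drop j) else 0) =
      ∑ j ∈ range i, x (l.drop j) :=
    Finset.sum_congr rfl fun j hj => if_pos (by rw [Finset.mem_range] at hj; omega)
  rw [h2, hal] at h1
  have h3 : totp x l' < θ := by
    by_contra h
    rw [hal, fst, ind_not (fun h' => h h'.1)] at hi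
    exact hi rfl
  have h4 : totp x (a :: l') ≤ cap + θ := by
    rw [totp]
    have := hc (a :: l')
    linarith
  linarith

/-- exponential tail of a total with conditional budgets `β` and jumps at most `cap` -/
theorem PathEx.exp_tail {α : Type*} (P : PathEx α) (x : List α → ℝ) (hx : ∀ l, 0 ≤ x l)
    (cap β : ℝ) (hc : ∀ l, x l ≤ cap) (hβ : 0 < β)
    (hb : ∀ s n (φ : List α → ℝ), (∀ l, 0 ≤ φ l) →
      ∑ j ∈ range n, P.E (s + j + 1) (fun l => φ (l.drop (j + 1)) * x l) ≤ β * P.E s φ)
    (k n : ℕ) :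
    P.E n (fun l => ind (((k : ℝ) + 1) * (2 * β + cap) ≤ totp x l)) ≤
      (1 / 2) ^ k * P.E n (fun _ => 1) := by
  have hcap : 0 ≤ cap := (hx []).trans (hc [])
  induction k with
  | zero =>
    rw [pow_zero, one_mul]
    exact P.mono n _ _ fun l _ => ind_le_one _
  | succ k ih =>
    set θ : ℝ := ((k : ℝ) + 1) * (2 * β + cap) with hθ
    have hθpos : 0 < θ := by positivity
    set θ' : ℝ := (((k + 1 : ℕ) : ℝ) + 1) * (2 * β + cap) with hθ'
    have hdiff : θ' - θ - cap = 2 * β := by
      rw [hθ, hθ']; push_cast; ring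
    have hpt : ∀ l : List α, l.length = n + 1 → 2 * β * ind (θ' ≤ totp x l) ≤
        ∑ i ∈ range (n + 1), fst x θ (l.drop i) * ∑ j ∈ range i, x (l.drop j) := by
      intro l hl
      by_cases h : θ' ≤ totp x l
      · have h1 : θ ≤ totp x l := by
          have : θ ≤ θ' := by linarith
          exact this.trans h
        have h2 := sum_fst x hx θ hθpos l
        rw [ind_of h1, hl] at h2
        rw [ind_of h, mul_one, ← mul_one (2 * β), ← h2, Finset.mul_sum]
        refine Finset.sum_le_sum fun i _ => ?_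
        by_cases h0 : fst x θ (l.drop i) = 0
        · rw [h0, mul_zero, zero_mul]
        · have h3 := rest_large x cap hc θ θ' l h i h0
          rw [hdiff] at h3
          rw [mul_comm]
          exact mul_le_mul_of_nonneg_left h3 (fst_nonneg _ _ _)
      · rw [ind_not h, mul_zero]
        exact Finset.sum_nonneg fun i _ => mul_nonneg (fst_nonneg _ _ _)
          (Finset.sum_nonneg fun j _ => hx _)
    have h1 : 2 * β * P.E n (fun l => ind (θ' ≤ totp x l)) ≤
        P.E n (fun l => ∑ i ∈ range (n + 1), fst x θ (l.drop i) * ∑ j ∈ range i, x (l.drop j)) := by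
      rw [← P.smul]
      exact P.mono n _ _ hpt
    have h2 : P.E n (fun l => ∑ i ∈ range (n + 1), fst x θ (l.drop i) *
        ∑ j ∈ range i, x (l.drop j)) ≤
        β * P.E n (fun l => ind (θ ≤ totp x l)) := by
      rw [P.sum]
      have h3 : P.E n (fun l => ind (θ ≤ totp x l)) =
          ∑ i ∈ range (n + 1), P.E n (fun l => fst x θ (l.drop i)) := by
        rw [← P.sum]
        refine P.congr_len n _ _ fun l hl => ?_
        rw [← sum_fst x hx θ hθpos l, hl]
      rw [h3, Finset.mul_sum]
      refine Finset.sum_le_sum fun i hi => ?_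
      rw [Finset.mem_range] at hi
      obtain ⟨s, hs⟩ : ∃ s, n = s + i := ⟨n - i, by omega⟩
      have h4 : P.E n (fun l => fst x θ (l.drop i)) = P.E s (fst x θ) := by
        rw [hs]; exact P.drop s i _
      have h5 := hb s i (fst x θ) (fun l => fst_nonneg _ _ _)
      rw [h4]
      refine le_trans (le_of_eq ?_) h5
      have h6 : P.E n (fun l => fst x θ (l.drop i) * ∑ j ∈ range i, x (l.drop j)) =
          ∑ j ∈ range i, P.E n (fun l => fst x θ (l.drop i) * x (l.drop j)) := by
        rw [← P.sum]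
        exact P.congr_len n _ _ fun l _ => by rw [Finset.mul_sum]
      rw [h6, ← Finset.sum_range_reflect]
      refine Finset.sum_congr rfl fun j hj => ?_
      rw [Finset.mem_range] at hj
      have h7 : n = (s + j + 1) + (i - 1 - j) := by omega
      rw [h7, ← P.drop (s + j + 1) (i - 1 - j)]
      refine P.congr_len _ _ _ fun l _ => ?_
      rw [List.drop_drop]
      congr 3
      omega
    have h8 : P.E n (fun l => ind (θ' ≤ totp x l)) ≤
        (1 / 2) * P.E n (fun l => ind (θ ≤ totp x l)) := by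
      have h9 := h1.trans h2
      have h10 : β * (2 * P.E n (fun l => ind (θ' ≤ totp x l))) ≤
          β * P.E n (fun l => ind (θ ≤ totp x l)) := by linarith
      have h11 := le_of_mul_le_mul_left h10 hβ
      linarith
    calc P.E n (fun l => ind (θ' ≤ totp x l))
        ≤ (1 / 2) * P.E n (fun l => ind (θ ≤ totp x l)) := h8
      _ ≤ (1 / 2) * ((1 / 2) ^ k * P.E n (fun _ => 1)) := by
          exact mul_le_mul_of_nonneg_left ih (by norm_num)
      _ = (1 / 2) ^ (k + 1) * P.E n (fun _ => 1) := by ring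

/-- the number of births of `y` has exponential tails -/
theorem Names.tails {α β V Y κ : Type*} [Fintype V] [Fintype Y] {D : NamData α β V Y κ}
    {η ε : ℝ} {A : List β → List (Finset Y)} {g : List β → Y → V → ℝ} (N : Names D η ε A g)
    (hη : 0 < η) (hδ : 8 * D.δ ≤ η) (y : Y) (K : ℝ) (hK : 0 ≤ K)
    (hmv : ∀ s n (φ : List α → ℝ), (∀ l, 0 ≤ φ l) →
      ∑ j ∈ range n, D.P.E (s + j + 1) (fun l => φ (l.drop (j + 1)) * mv D.u (D.rd l) y) ≤
        K * D.P.E s φ) (k n : ℕ) :
    D.P.E n (fun l => ind (((k : ℝ) + 1) * ((20 + 16 * K) / η ^ 2) ≤ nb (accu A (D.rd l)) y)) ≤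
      (1 / 2) ^ k * D.P.E n (fun _ => 1) := by
  have hη2 : 0 < η ^ 2 := by positivity
  have h := D.P.exp_tail (fun l => nb (A (D.rd l)) y) (fun l => nb_nonneg _ _) (4 / η ^ 2)
    ((8 + 8 * K) / η ^ 2) ?_ (by positivity) ?_ k n
  · have e1 : 2 * ((8 + 8 * K) / η ^ 2) + 4 / η ^ 2 = (20 + 16 * K) / η ^ 2 := by ring
    rw [e1] at h
    refine le_trans (le_of_eq ?_) h
    exact D.P.congr_len n _ _ fun l _ => by rw [totp_nb]
  · intro l
    rw [le_div_iff₀ hη2, mul_comm]
    cases l with
    | nil => rw [D.rd_nil, N.A_nil, nb_nil, mul_zero]; norm_num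
    | cons x l =>
      obtain ⟨b, hb⟩ := D.rd_cons x l
      rw [hb]
      exact N.cap b _ y
  · intro s n φ hφ
    have h1 := N.budget hη hδ y s n φ hφ
    have h2 := hmv s n φ hφ
    have h3 : 8 / η ^ 2 * (D.P.E s φ + ∑ j ∈ range n,
        D.P.E (s + j + 1) (fun l => φ (l.drop (j + 1)) * mv D.u (D.rd l) y)) ≤
        8 / η ^ 2 * (D.P.E s φ + K * D.P.E s φ) :=
      mul_le_mul_of_nonneg_left (by linarith) (by positivity)
    refine h1.trans (h3.trans (le_of_eq ?_))
    ring

end Pool.Agent.M3
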