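import Pool.Agent.M3.NVT

/-!
# M3.PTFine: product tests at a finer rounding, general family (helper2)
-/

set_option autoImplicit false
set_option linter.unusedSectionVars false

namespace Pool.Agent.M3.Mod

open Finset Pool.Agent.PWZ Pool.Agent.M3.Bin

variable {k N : ℕ} {P : Type} [Fintype P] [Nonempty P]

/-- product tests at a finer rounding -/
theorem PT_fine {h h' : ℕ} (hh : h ≤ h') (hN : N ≤ k) {R : Fam2 k P} {θ r H B0 : ℝ} (hPT : PT h N R θ r H) (hθ : 0 ≤ θ)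
    (hH : 0 ≤ H) (hR : ∀ e g x y d, |R e g x y d| ≤ B0) :
    PT h' N (fine h R) (θ * 4 ^ (h' - h)) (r + 2 * (B0 * H * H) * ((2 : ℝ) ^ h)⁻¹) H := by
  classical
  intro e he g hg b0 c0 v u hv hu
  have hB0 : 0 ≤ B0 := (abs_nonneg _).trans (hR 0 (0, 0) (Classical.arbitrary _, 0) (Classical.arbitrary _, 0) 0)
  have h1 := hPT e he (coar h e g) (flr_flr le_rfl g.1) b0 c0 v u hv hu
  have hsub : ((SC (P := P) h' e b0 ×ˢ SC (P := P) h' e c0).filter fun q =>
      r + 2 * (B0 * H * H) * ((2 : ℝ) ^ h)⁻¹ ≤ |av e g.1 (fun d => fine h R e g q.1 q.2 d * v q.1 d * u q.2 d)|) ⊆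
      ((SC (P := P) h e b0 ×ˢ SC (P := P) h e c0).filter fun q =>
      r ≤ |av e (coar h e g).1 (fun d => R e (coar h e g) q.1 q.2 d * v q.1 d * u q.2 d)|) := by
    intro q hq
    rw [Finset.mem_filter, Finset.mem_product] at hq ⊢
    refine ⟨⟨?_, ?_⟩, ?_⟩
    · have h2 := hq.1.1
      unfold SC at h2 ⊢
      rw [Finset.mem_filter] at h2 ⊢
      exact ⟨h2.1, flr_mono_eq (by omega) h2.2⟩
    · have h2 := hq.1.2
      unfold SC at h2 ⊢
      rw [Finset.mem_filter] at h2 ⊢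
      exact ⟨h2.1, flr_mono_eq (by omega) h2.2⟩
    · have h3 := ip_round h e g.1 (fun d => R e (coar h e g) q.1 q.2 d * v q.1 d) (u q.2) (B0 * H * H) (fun d => by
        rw [abs_mul, abs_mul]
        exact mul_le_mul (mul_le_mul (hR _ _ _ _ _) (hv _ _) (abs_nonneg _) hB0) (hu _ _) (abs_nonneg _) (by positivity))
      have e1 : av e g.1 (fun d => fine h R e g q.1 q.2 d * v q.1 d * u q.2 d) =
          ip e g.1 (fun d => R e (coar h e g) q.1 q.2 d * v q.1 d) (u q.2) := rfl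
      have e2 : av e (coar h e g).1 (fun d => R e (coar h e g) q.1 q.2 d * v q.1 d * u q.2 d) =
          ip e (flr (e - h) g.1) (fun d => R e (coar h e g) q.1 q.2 d * v q.1 d) (u q.2) := rfl
      have h4 := hq.2
      rw [e1] at h4
      rw [e2]
      have h5 := abs_sub_abs_le_abs_sub (ip e g.1 (fun d => R e (coar h e g) q.1 q.2 d * v q.1 d) (u q.2))
        (ip e (flr (e - h) g.1) (fun d => R e (coar h e g) q.1 q.2 d * v q.1 d) (u q.2))
      linarith
  have hcard : ((((SC (P := P) h' e b0) ×ˢ (SC (P := P) h' e c0)).filter fun q =>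
      r + 2 * (B0 * H * H) * ((2 : ℝ) ^ h)⁻¹ ≤ |av e g.1 (fun d => fine h R e g q.1 q.2 d * v q.1 d * u q.2 d)|).card : ℝ) ≤
      θ * ((SC (P := P) h e b0).card * (SC (P := P) h e c0).card : ℝ) :=
    le_trans (by exact_mod_cast Finset.card_le_card hsub) h1
  refine hcard.trans ?_
  rw [mul_assoc]
  refine mul_le_mul_of_nonneg_left ?_ hθ
  rw [card_SC (he.trans hN), card_SC (he.trans hN), card_SC (he.trans hN), card_SC (he.trans hN)]
  have h6 : (2 : ℝ) ^ (e - (h + 3)) ≤ 2 ^ (e - (h' + 3)) * 2 ^ (h' - h) := by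
    rw [← pow_add]
    exact pow_le_pow_right₀ (by norm_num) (by omega)
  have h7 : (4 : ℝ) ^ (h' - h) = 2 ^ (h' - h) * 2 ^ (h' - h) := by
    rw [← mul_pow]
    norm_num
  rw [h7]
  have h8 : (Fintype.card P : ℝ) * 2 ^ (e - (h + 3)) ≤ (Fintype.card P : ℝ) * (2 ^ (e - (h' + 3)) * 2 ^ (h' - h)) :=
    mul_le_mul_of_nonneg_left h6 (by positivity)
  calc (Fintype.card P : ℝ) * 2 ^ (e - (h + 3)) * ((Fintype.card P : ℝ) * 2 ^ (e - (h + 3))) ≤
      ((Fintype.card P : ℝ) * (2 ^ (e - (h' + 3)) * 2 ^ (h' - h))) * ((Fintype.card P : ℝ) * (2 ^ (e - (h' + 3)) * 2 ^ (h' - h))) :=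
        mul_le_mul h8 h8 (by positivity) (by positivity)
    _ = _ := by ring

end Pool.Agent.M3.Mod
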