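import Pool.Agent.M3.Cold5
import Pool.Agent.M3.FrzL
import Pool.Agent.M3.ColdL

/-!
# M3/Piece5 : section 5 for one piece, explicit sizes (helper11)

`one_piece` : from a named view of the piece (known face cut after `p` changes) and the coldness of the three pairs.
-/

set_option autoImplicit false
set_option linter.unusedSectionVars false

namespace Pool.Agent.M3.Mod

open Finset Pool.Agent.PWZ Pool.Agent.M3.Bin

noncomputable section

variable {k N : ℕ} {Θ P : Type} [Fintype Θ] [Nonempty Θ] [Fintype P] [Nonempty P]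

/-- the piece with the face `a` cut -/
def Rc (L : Lay) (N : ℕ) (F : Fin 3 → Unit × V k → Unit × V k → V k → ℝ) (l : ℕ) (q a : Fin 3) (p : ℕ) :
    Fin 3 → Fam2 k Unit :=
  trF a (cut (L.lh (l + 1)) N p (Pc N L F l q a)) (Pc N L F l q (a + 1)) (Pc N L F l q (a + 2))

section

variable (L : Lay) {F : Fin 3 → Unit × V k → Unit × V k → V k → ℝ}

theorem Rc_self (l : ℕ) (q a : Fin 3) (p : ℕ) : Rc L N F l q a p a = cut (L.lh (l + 1)) N p (Pc N L F l q a) :=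
  trF_0 _ _ _ _

theorem Rc_ne (l : ℕ) (q a : Fin 3) (p : ℕ) {j : Fin 3} (hj : j ≠ a) : Rc L N F l q a p j = Pc N L F l q j := by
  have h : j = a + 1 ∨ j = a + 2 := by
    have : ∀ a j : Fin 3, j ≠ a → j = a + 1 ∨ j = a + 2 := by decide
    exact this a j hj
  unfold Rc
  rcases h with h | h
  · rw [h, trF_1]
  · rw [h, trF_2]

theorem abs_Rc (hF : ∀ i b c d, |F i b c d| ≤ 1) (l : ℕ) (q a : Fin 3) (p : ℕ) (j : Fin 3) (e : ℕ) (g : V k × ℕ)
    (x y : Unit × V k) (d : V k) : |Rc L N F l q a p j e g x y d| ≤ 2 := by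
  by_cases hj : j = a
  · rw [hj, Rc_self]
    exact abs_cut (by norm_num) (fun e g x y d => abs_Pc L hF l q a e g x y d) e g x y d
  · rw [Rc_ne L l q a p hj]
    exact abs_Pc L hF l q j e g x y d

/-- the process of the cut piece, not cut so far -/
theorem TZ_Rc (l : ℕ) (q a : Fin 3) (p : ℕ) {t : ℕ} (h1 : 1 ≤ t) (ht : t ≤ N) {ω : Sp k N 3 Unit Unit}
    (hc : cn (L.lh (l + 1)) a (Pc N L F l q a) t ω ≤ p) :
    TZ (L.lh (l + 1)) (Rc L N F l q a p) t ω = TT3 (L.lh (l + 1)) (Pc N L F l q) (ex N t) ω := by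
  unfold TZ
  rw [if_neg (by omega)]
  exact TT3_cut (L.lh (l + 1)) p (Pc N L F l q) a h1 ht hc

end

theorem sum_UU {i : Fin 3} (f : Finset (Fin 3) → ℝ) :
    ∑ U ∈ UU i, f U = f {i} + (f {i, i + 1} + f {i, i + 2}) := by
  unfold UU
  rw [Finset.sum_insert (by revert i; decide), Finset.sum_insert (by revert i; decide), Finset.sum_singleton]

theorem UU_pair {i : Fin 3} {U : Finset (Fin 3)} (hU : U ∈ UU i) (hne : U ≠ {i}) : ∃ x : Fin 3, U = univ.erase x := by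
  revert hne hU
  revert U i
  decide

theorem pair_ne1 : ∀ a : Fin 3, ({a, a + 1} : Finset (Fin 3)) ≠ {a} := by decide

theorem pair_ne2 : ∀ a : Fin 3, ({a, a + 2} : Finset (Fin 3)) ≠ {a} := by decide

theorem one_piece (L : Lay) {F : Fin 3 → Unit × V k → Unit × V k → V k → ℝ} {l : ℕ} (hN : N ≤ k)
    (hF : ∀ i b c d, |F i b c d| ≤ 1) (q a : Fin 3) {h0 h p : ℕ} (hh0 : h0 = L.lh (l + 1)) (hh : h0 ≤ h)
    (W : NV k N Θ P a h (fun j => liftF (fine h0 (Rc L N F l q a p j)))) {r r0 ρ pc ph : ℝ} (hr : 0 < r)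
    (hrm : W.rmin ≤ r) (her : W.eta ≤ r)
    (hr0 : r0 + 2 * (2 * (2 : ℝ) ^ 3 * ((2 : ℝ) ^ h0)⁻¹) ≤ r)
    (hrar : 2 * (36 * L.lep l + 2 * (2 : ℝ) ^ 3 * ((2 : ℝ) ^ h0)⁻¹) ≤ r) (hρ : 0 ≤ ρ)
    (hcut : (Pm : FP (Sp k N 3 Unit Unit)).Pr
      (fun ω => (p : ℝ) < ∑ s ∈ range N, ind (chE h0 a (Pc N L F l q a) s ω)) ≤ pc)
    (hhot : ∀ x : Fin 3, (Pm : FP (Sp k N 3 Unit Unit)).Pr (fun ω => ∃ t ≤ N, 1 ≤ t ∧ ρ <
        Pm.ce (Kn x (ex N t)) (fun v => ind (r0 ≤ |TT3 h0 (Pc N L F l q) (ex N t) v|)) ω) ≤ ph)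
    {σ1 σ2 q2 : ℝ} (hσ1 : σ1 = 2 * (2 ^ 17 * L.lth l * 4 ^ (h + 1 - h0)))
    (hσ2 : σ2 = 2 * 2 ^ (h + 4) * ρ)
    (hq2 : q2 = W.q + 3 * ph + pc + W.q + 2 * W.J * (2 * ρ + (σ1 + (σ2 + σ2)))) :
    (Pm : FP (Sp k N 3 Unit Unit)).Pr
      (fun ω => ∃ e < N, 4 * r + W.eta ≤ |TT3 h0 (Pc N L F l q) e ω|) ≤
      pc + (1458 / (4 * r ^ 2) * ((pc + σ1) + W.e3 +
        (σ1 * W.hb {a} + (σ2 * W.hb {a, a + 1} + σ2 * W.hb {a, a + 2})) + q2) + 3 * q2) := by
  set R := Pc N L F l q with hRdef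
  set TW : ℕ → Sp k N 3 Θ P → ℝ := fun t w => TZ h (fun j => liftF (P := P) (fine h0 (Rc L N F l q a p j))) t w with hTW
  have hRB : ∀ j e g x y d, |R j e g x y d| ≤ 2 := fun j e g x y d => abs_Pc L hF l q j e g x y d
  have hTW1 : ∀ t (w : Sp k N 3 Θ P), TW t w = TZ h0 (Rc L N F l q a p) t (prU w) := by
    intro t w
    rw [hTW]
    show TZ h (fun j => liftF (P := P) (fine h0 (Rc L N F l q a p j))) t w = _
    rw [TZ_lift, TZ_fine hh]
  have hTW0 : ∀ t (w : Sp k N 3 Θ P), t = 0 → TW t w = 0 := by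
    intro t w h0t
    rw [hTW1]
    unfold TZ
    rw [if_pos h0t]
  have hTZR : ∀ t, 1 ≤ t → t ≤ N → ∀ ω : Sp k N 3 Unit Unit, cn h0 a (R a) t ω ≤ p →
      TZ h0 (Rc L N F l q a p) t ω = TT3 h0 R (ex N t) ω := by
    intro t h1 ht ω hc
    rw [hh0] at hc ⊢
    exact TZ_Rc L l q a p h1 ht hc
  -- flags
  set ct : ℕ → Sp k N 3 Unit Unit → Prop := fun t ω => p < cn h0 a (R a) (min t N) ω with hct
  set D0' : ℕ → Sp k N 3 Θ P → Prop := fun t w => W.D0 t w ∨ (∃ x : Fin 3, Hot h0 R r0 ρ x t (prU w)) ∨ ct t (prU w)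
    with hD0'
  have hinc : ∀ t w, D0' t w → D0' (t + 1) w := by
    intro t w hd
    rcases hd with hd | ⟨x, hd⟩ | hd
    · exact Or.inl (W.D0inc t w hd)
    · exact Or.inr (Or.inl ⟨x, hd.mono (Nat.le_succ t)⟩)
    · refine Or.inr (Or.inr ?_)
      have h1 := cn_mono_le h0 a (R a) (prU w) (t := min t N) (u := min (t + 1) N) (by omega) (by omega)
      have h2 : p < cn h0 a (R a) (min t N) (prU w) := hd
      show p < cn h0 a (R a) (min (t + 1) N) (prU w)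
      omega
  -- semi points
  have hsemi : ∀ t ≤ N, ∀ w : Sp k N 3 Θ P, r ≤ |TW t w| → ¬ D0' t w →
      1 ≤ t ∧ r ≤ |TT3 h0 R (ex N t) (prU w)| ∧ ∀ x, ¬ Hot h0 R r0 ρ x t (prU w) := by
    intro t ht w h1 h2
    have h3 : 1 ≤ t := by
      by_contra hcon
      rw [hTW0 t w (by omega), abs_zero] at h1
      linarith
    refine ⟨h3, ?_, fun x hx => h2 (Or.inr (Or.inl ⟨x, hx⟩))⟩
    have h4 : cn h0 a (R a) t (prU w) ≤ p := by
      by_contra hcon
      refine h2 (Or.inr (Or.inr ?_))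
      show p < cn h0 a (R a) (min t N) (prU w)
      rw [min_eq_left ht]
      exact not_le.mp hcon
    rw [hTW1, hTZR t h3 ht (prU w) h4] at h1
    exact h1
  have hlth := L.lth_pos l
  have hσ10 : 0 ≤ σ1 := by rw [hσ1]; positivity
  have hσ20 : 0 ≤ σ2 := by rw [hσ2]; positivity
  have hex : ∀ t < N, ex N (t + 1) - (h + 3) = ex N t - (h + 1 + 3) := by intro t ht; unfold ex; omega
  have hPT : PT h0 N (R a) (2 ^ 17 * L.lth l) (36 * L.lep l) 2 := by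
    rw [hh0]
    exact Pc_PT L hN hF l q a
  -- the singleton
  have hrar1 : ∀ e ≤ N, ∀ hx, h0 ≤ hx → hx ≤ h + 1 → ∀ w : Sp k N 3 Θ P,
      Pm.ce (Zk {a} (e - (hx + 3))) (fun v => ind (r ≤ |TT3 h0 R e (prU v)|)) w ≤ σ1 := by
    intro e he hx h1 h2 w
    refine (rar_single (Θ := Θ) (P := P) a he hN h1 (R := R) (θ := 2 ^ 17 * L.lth l) (r1 := 36 * L.lep l) (B := 2)
      (by positivity) (by have := L.lep_pos l; positivity) hPT hRB hrar w).trans ?_
    rw [hσ1]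
    have h3 : (4 : ℝ) ^ (hx - h0) ≤ 4 ^ (h + 1 - h0) := pow_le_pow_right₀ (by norm_num) (by omega)
    have h4 : 2 ^ 17 * L.lth l * (4 : ℝ) ^ (hx - h0) ≤ 2 ^ 17 * L.lth l * 4 ^ (h + 1 - h0) :=
      mul_le_mul_of_nonneg_left h3 (by positivity)
    linarith
  -- a class of losses
  set σ : Finset (Fin 3) → ℝ := fun U => if U = {a} then σ1 else σ2 with hσdef
  have hσ0 : ∀ U ∈ UU a, 0 ≤ σ U := by
    intro U _
    rw [hσdef]
    show 0 ≤ (if U = {a} then σ1 else σ2)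
    split_ifs
    · exact hσ10
    · exact hσ20
  have hpair : ∀ U ∈ UU a, U ≠ {a} → ∀ t ≤ N, 1 ≤ t → ∀ s : ℕ, s ≤ ex N t - (h0 + 3) → ex N t - s ≤ h + 4 →
      ∀ w : Sp k N 3 Θ P, Pm.ce (Zk U s) (fun v => ind (r ≤ |TW t v| ∧ ¬ D0' t v)) w ≤ σ2 := by
    intro U hU hne t ht h1 s hs hs2 w
    obtain ⟨x, rfl⟩ := UU_pair hU hne
    have g1 := cold_pair (Θ := Θ) (P := P) x h1 ht hN hs hRB hr0 hρ w
    refine le_trans (FP.ce_mono _ (fun v _ => ind_mono ?_) w) (g1.trans ?_)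
    · rintro ⟨h3, h4⟩
      obtain ⟨-, h5, h6⟩ := hsemi t ht v h3 h4
      exact ⟨h5, h6 x⟩
    · rw [hσ2]
      have h3 : (2 : ℝ) ^ (ex N t - s) ≤ 2 ^ (h + 4) := pow_le_pow_right₀ (by norm_num) hs2
      exact mul_le_mul_of_nonneg_right (by linarith) hρ
  have hzero : ∀ {κ : Type} (Y : Sp k N 3 Θ P → κ) (w : Sp k N 3 Θ P),
      Pm.ce Y (fun v => ind (r ≤ |TW 0 v| ∧ ¬ D0' 0 v)) w ≤ 0 := by
    intro κ Y w
    refine FP.ce_le_const _ (fun v _ => ?_) (Pm_ne w)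
    rw [ind_not]
    rintro ⟨h3, h4⟩
    obtain ⟨h5, -⟩ := hsemi 0 (Nat.zero_le _) v h3 h4
    omega
  have hcold : ∀ U ∈ UU a, ∀ t < N, ∀ w : Sp k N 3 Θ P,
      Pm.ce (Zk U (ex N (t + 1) - (h + 3))) (fun v => ind (r ≤ |TW t v| ∧ ¬ D0' t v)) w ≤ σ U := by
    intro U hU t ht w
    rcases Nat.eq_zero_or_pos t with h0t | h0t
    · subst h0t
      exact (hzero _ w).trans (hσ0 U hU)
    rw [hσdef]
    show _ ≤ (if U = {a} then σ1 else σ2)
    split_ifs with hUa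
    · subst hUa
      rw [hex t ht]
      refine le_trans (FP.ce_mono _ (fun v _ => ind_mono ?_) w)
        (hrar1 (ex N t) (Nat.sub_le _ _) (h + 1) (by omega) le_rfl w)
      rintro ⟨h3, h4⟩
      exact (hsemi t ht.le v h3 h4).2.1
    · exact hpair U hU hUa t ht.le h0t _ (by unfold ex; omega) (by unfold ex; omega) w
  have hcold' : ∀ U ∈ UU a, ∀ t < N, ∀ w : Sp k N 3 Θ P,
      Pm.ce (Zk U (ex N (t + 1) - (h + 3))) (fun v => ind (r ≤ |TW (t + 1) v| ∧ ¬ D0' (t + 1) v)) w ≤ σ U := by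
    intro U hU t ht w
    rw [hσdef]
    show _ ≤ (if U = {a} then σ1 else σ2)
    split_ifs with hUa
    · subst hUa
      refine le_trans (FP.ce_mono _ (fun v _ => ind_mono ?_) w)
        (hrar1 (ex N (t + 1)) (Nat.sub_le _ _) h hh (by omega) w)
      rintro ⟨h3, h4⟩
      exact (hsemi (t + 1) ht v h3 h4).2.1
    · exact hpair U hU hUa (t + 1) ht (by omega) _ (by omega) (by omega) w
  -- the known class
  have hkn' : ∀ t ≤ N, ∀ w : Sp k N 3 Θ P,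
      Pm.ce (Kn a (ex N t)) (fun v => ind (r ≤ |TW t v| ∧ ¬ D0' t v)) w ≤ ρ := by
    intro t ht w
    rcases Nat.eq_zero_or_pos t with h0t | h0t
    · subst h0t
      exact (hzero _ w).trans hρ
    refine le_trans (FP.ce_mono _ (fun v _ => ind_mono ?_) w)
      (cold_known (Θ := Θ) (P := P) a (h0 := h0) (R := R) (r0 := r0) (r := r) h0t ht ?_ hρ w)
    · rintro ⟨h3, h4⟩
      obtain ⟨-, h5, h6⟩ := hsemi t ht v h3 h4
      exact ⟨h5, h6 a⟩
    · have : 0 < ((2 : ℝ) ^ h0)⁻¹ := by positivity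
      linarith
  have hkn : ∀ t < N, ∀ w : Sp k N 3 Θ P,
      Pm.ce (Kn a (ex N (t + 1))) (fun v => ind (r ≤ |TW t v| ∧ ¬ D0' t v)) w ≤ 2 * ρ := by
    intro t ht w
    have h1 := ce_Kn_dbl (Θ := Θ) (P := P) a t (f := fun v : Sp k N 3 Θ P => ind (r ≤ |TW t v| ∧ ¬ D0' t v))
      (fun _ => ind_nonneg _) w
    have h2 := hkn' t ht.le w
    linarith
  -- cut
  have hcutN : (Pm : FP (Sp k N 3 Unit Unit)).Pr (fun ω => p < cn h0 a (R a) N ω) ≤ pc := by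
    refine le_trans (FP.Pr_mono _ (fun ω _ hω => ?_)) hcut
    rw [← cn_eq h0 a (R a) ω]
    exact_mod_cast hω
  have hθ : Pm.Pr (fun v : Sp k N 3 Θ P => r ≤ |TW N v|) ≤ pc + σ1 := by
    have h1 : Pm.Pr (fun v : Sp k N 3 Θ P => r ≤ |TW N v|) ≤
        Pm.Pr (fun v : Sp k N 3 Θ P => p < cn h0 a (R a) N (prU v) ∨ r ≤ |TT3 h0 R (ex N N) (prU v)|) := by
      refine FP.Pr_mono _ (fun v _ hv => ?_)
      by_cases hc : p < cn h0 a (R a) N (prU v)
      · exact Or.inl hc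
      · right
        have h3 : 1 ≤ N := by
          by_contra hcon
          rw [hTW0 N v (by omega), abs_zero] at hv
          linarith
        rw [hTW1, hTZR N h3 le_rfl (prU v) (not_lt.mp hc)] at hv
        exact hv
    refine h1.trans ((FP.Pr_or_le _ _ _).trans (add_le_add ?_ ?_))
    · rw [Pr_prU (Θ := Θ) (P := P) (fun ω => p < cn h0 a (R a) N ω)]
      exact hcutN
    · unfold FP.Pr
      rw [← FP.E_ce _ (Zk {a} (ex N N - (h + 3)))]
      exact FP.E_le_const _ (fun w _ => hrar1 (ex N N) (Nat.sub_le _ _) h hh (by omega) w)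
  have hD0N : Pm.Pr (D0' N) ≤ W.q + 3 * ph + pc := by
    have h1 := FP.Pr_or_le (Pm (k := k) (N := N) (m := 3) (Θ := Θ) (P := P)) (W.D0 N)
      (fun w => (∃ x : Fin 3, Hot h0 R r0 ρ x N (prU w)) ∨ ct N (prU w))
    have h2 := FP.Pr_or_le (Pm (k := k) (N := N) (m := 3) (Θ := Θ) (P := P))
      (fun w => ∃ x : Fin 3, Hot h0 R r0 ρ x N (prU w)) (fun w => ct N (prU w))
    have h3 : (Pm (k := k) (N := N) (m := 3) (Θ := Θ) (P := P)).Pr (fun w => ∃ x : Fin 3, Hot h0 R r0 ρ x N (prU w)) ≤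
        3 * ph := by
      have h4 := FP.Pr_ex_le (Pm (k := k) (N := N) (m := 3) (Θ := Θ) (P := P)) (univ : Finset (Fin 3))
        (fun x w => Hot h0 R r0 ρ x N (prU w))
      have h5 : ∑ x : Fin 3, (Pm (k := k) (N := N) (m := 3) (Θ := Θ) (P := P)).Pr (fun w => Hot h0 R r0 ρ x N (prU w)) ≤
          ∑ _x : Fin 3, ph := by
        refine Finset.sum_le_sum fun x _ => ?_
        rw [Pr_prU (Θ := Θ) (P := P) (fun ω => Hot h0 R r0 ρ x N ω)]
        refine le_trans (FP.Pr_mono _ (fun ω _ hω => ?_)) (hhot x)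
        obtain ⟨u, h6, -, h7, h8⟩ := hω
        exact ⟨u, h6, h7, h8⟩
      rw [Finset.sum_const, Finset.card_univ, Fintype.card_fin, nsmul_eq_mul] at h5
      refine le_trans (FP.Pr_mono _ (fun w _ hw => ?_)) (h4.trans (h5.trans (by norm_num)))
      obtain ⟨x, hx⟩ := hw
      exact ⟨x, Finset.mem_univ _, hx⟩
    have h4 : (Pm (k := k) (N := N) (m := 3) (Θ := Θ) (P := P)).Pr (fun w => ct N (prU w)) ≤ pc := by
      rw [Pr_prU (Θ := Θ) (P := P) (fun ω => ct N ω)]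
      refine le_trans (FP.Pr_mono _ (fun ω _ hω => ?_)) hcutN
      have : p < cn h0 a (R a) (min N N) ω := hω
      rwa [min_self] at this
    have h5 := W.D0q
    have h6 : Pm.Pr (D0' N) ≤ (Pm (k := k) (N := N) (m := 3) (Θ := Θ) (P := P)).Pr
      (fun w => W.D0 N w ∨ ((∃ x : Fin 3, Hot h0 R r0 ρ x N (prU w)) ∨ ct N (prU w))) := le_rfl
    linarith
  -- the one view theorem
  have hmain := W.one_view hr hrm her hinc (fun t w hd => Or.inl hd) (σ := σ) (σe := 2 * ρ) (θ := pc + σ1) hσ0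
    (by positivity) hcold hcold' hkn (fun t ht w => (hkn' (t + 1) ht w).trans (by linarith)) hθ
  have hsum1 : ∑ U ∈ UU a, σ U * W.hb U = σ1 * W.hb {a} + (σ2 * W.hb {a, a + 1} + σ2 * W.hb {a, a + 2}) := by
    rw [sum_UU]
    have e1 : σ {a} = σ1 := if_pos rfl
    have e2 : σ {a, a + 1} = σ2 := if_neg (pair_ne1 a)
    have e3 : σ {a, a + 2} = σ2 := if_neg (pair_ne2 a)
    rw [e1, e2, e3]
  have hsum2 : ∑ U ∈ UU a, σ U = σ1 + (σ2 + σ2) := by
    rw [sum_UU]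
    have e1 : σ {a} = σ1 := if_pos rfl
    have e2 : σ {a, a + 1} = σ2 := if_neg (pair_ne1 a)
    have e3 : σ {a, a + 2} = σ2 := if_neg (pair_ne2 a)
    rw [e1, e2, e3]
  rw [hsum1, hsum2] at hmain
  have hq2' : Pm.Pr (D0' N) + W.q + 2 * W.J * (2 * ρ + (σ1 + (σ2 + σ2))) ≤ q2 := by
    rw [hq2]
    linarith
  -- back to the piece
  have hfin : (Pm : FP (Sp k N 3 Unit Unit)).Pr (fun ω => ∃ e < N, 4 * r + W.eta ≤ |TT3 h0 R e ω|) ≤
      pc + (Pm (k := k) (N := N) (m := 3) (Θ := Θ) (P := P)).Pr (fun w => ∃ t ≤ N, 4 * r + W.eta ≤ |TW t w|) := by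
    rw [← Pr_prU (Θ := Θ) (P := P) (fun ω => ∃ e < N, 4 * r + W.eta ≤ |TT3 h0 R e ω|)]
    have h1 : (Pm (k := k) (N := N) (m := 3) (Θ := Θ) (P := P)).Pr
        (fun w => ∃ e < N, 4 * r + W.eta ≤ |TT3 h0 R e (prU w)|) ≤
        (Pm (k := k) (N := N) (m := 3) (Θ := Θ) (P := P)).Pr
        (fun w => p < cn h0 a (R a) N (prU w) ∨ ∃ t ≤ N, 4 * r + W.eta ≤ |TW t w|) := by
      refine FP.Pr_mono _ (fun w _ hw => ?_)
      obtain ⟨e, he, h2⟩ := hw
      by_cases hc : p < cn h0 a (R a) N (prU w)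
      · exact Or.inl hc
      · right
        refine ⟨N - e, Nat.sub_le _ _, ?_⟩
        have h3 : 1 ≤ N - e := by omega
        have h4 : cn h0 a (R a) (N - e) (prU w) ≤ p :=
          (cn_mono h0 a (R a) (Nat.sub_le _ _) (prU w)).trans (not_lt.mp hc)
        rw [hTW1, hTZR (N - e) h3 (Nat.sub_le _ _) (prU w) h4]
        have h5 : ex N (N - e) = e := by unfold ex; omega
        rw [h5]
        exact h2
    refine h1.trans ((FP.Pr_or_le _ _ _).trans (add_le_add ?_ le_rfl))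
    rw [Pr_prU (Θ := Θ) (P := P) (fun ω => p < cn h0 a (R a) N ω)]
    exact hcutN
  refine hfin.trans (add_le_add le_rfl (hmain.trans ?_))
  have h1458 : 0 ≤ 1458 / (4 * r ^ 2) := by positivity
  refine add_le_add (mul_le_mul_of_nonneg_left ?_ h1458) ?_
  · linarith
  · linarith

end

end Pool.Agent.M3.Mod
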