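import Pool.Agent.M3.NVT

/-!
# M3.Pj: superseded by M3.NVT (helper11)
-/
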