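import Pool.Agent.M3.Model3
import Pool.Agent.M3.Prop1

/-!
# M3.Prop1M: Proposition 1 of note 3382 in the model

`U` = set of known vertices, `i ∈ U` the hidden vertex of the view.  `Zk U s` = public randomness, the vertices of `U`, ALL the
noise, the cells of scale `s` of the other vertices (what a loss of the face `U` may depend on, cells of the NEXT node
allowed); `Yk i U e s` = the same without the hidden vertex and the low noise (path `Zn i e` instead).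
* `ce_Zk_le`: `E[f | Zk U s'] <= (2^(s-s'))^(# outside U) E[f | Yk i U e s]` for `f >= 0` a function of `(th, Zn i e, ot i)`;
* `prop1_mod`: Prop. 1 for `m` vertices (rarity as a hypothesis);
* `rar_Yk`, `prop1_three`: three vertices, product tested faces `j ≠ i`, arbitrary face `i`.
-/

set_option autoImplicit false
set_option linter.unusedSectionVars false

namespace Pool.Agent.M3.Mod

open Finset Pool.Agent.PWZ Pool.Agent.M3.Bin

variable {k N m : ℕ} {Θ P : Type}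

/-- the vertices of `U` -/
def ku (U : Finset (Fin m)) (ω : Sp k N m Θ P) : {j : Fin m // j ∈ U} → P × V k := fun j => vx j.1 ω

/-- the vertices outside `U` -/
def uk (U : Finset (Fin m)) (ω : Sp k N m Θ P) : {j : Fin m // ¬ j ∈ U} → P × V k := fun j => vx j.1 ω

/-- the cells of scale `s` of the vertices outside `U` -/
noncomputable def cl (U : Finset (Fin m)) (s : ℕ) (ω : Sp k N m Θ P) : {j : Fin m // ¬ j ∈ U} → V k :=
  fun j => flr s (vx j.1 ω).2

/-- the vertices of `U`, all the noise, the cells of the others -/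
noncomputable def Zk (U : Finset (Fin m)) (s : ℕ) (ω : Sp k N m Θ P) :
    Θ × ({j : Fin m // j ∈ U} → P × V k) × ℕ × ({j : Fin m // ¬ j ∈ U} → V k) := (th ω, ku U ω, nz ω, cl U s ω)

/-- the same without the hidden vertex `i` and the low noise -/
noncomputable def Yk (i : Fin m) (U : Finset (Fin m)) (e s : ℕ) (ω : Sp k N m Θ P) :
    Θ × (V k × ℕ) × ({j : Fin m // j ∈ U.erase i} → P × V k) × ({j : Fin m // ¬ j ∈ U} → V k) :=
  (th ω, Zn i e ω, ku (U.erase i) ω, cl U s ω)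

/-- the class of the known vertices in the view `i` -/
def Kn (i : Fin m) (e : ℕ) (ω : Sp k N m Θ P) : Θ × (V k × ℕ) × ({j : Fin m // j ≠ i} → P × V k) :=
  (th ω, Zn i e ω, ot i ω)

theorem fac_cl {U : Finset (Fin m)} {s s' : ℕ} (h : s' ≤ s) :
    Fac (cl (k := k) (N := N) (Θ := Θ) (P := P) U s') (cl U s) := fun _ _ hv =>
  funext fun j => flr_mono_eq h (congrFun hv j)

theorem filt_Kn (i : Fin m) : Filt (fun t (ω : Sp k N m Θ P) => Kn i (ex N t) ω) := by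
  intro t v w hv
  unfold Kn at hv ⊢
  simp only [Prod.mk.injEq] at hv ⊢
  exact ⟨hv.1, filt_Zn i t v w hv.2.1, hv.2.2⟩

theorem Kn_fac_Yk (i : Fin m) (U : Finset (Fin m)) (hi : i ∈ U) (e s : ℕ) :
    Fac (Kn (k := k) (N := N) (Θ := Θ) (P := P) i e) (Yk i U e s) := by
  intro v w hv
  unfold Kn at hv
  unfold Yk
  simp only [Prod.mk.injEq] at hv ⊢
  refine ⟨hv.1, hv.2.1, ?_, ?_⟩
  · funext j
    exact congrFun hv.2.2 ⟨j.1, Finset.ne_of_mem_erase j.2⟩
  · funext j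
    have h : j.1 ≠ i := fun h => j.2 (by rw [h]; exact hi)
    have := congrFun hv.2.2 ⟨j.1, h⟩
    unfold ot at this
    unfold cl
    rw [this]

variable [Fintype Θ] [Nonempty Θ] [Fintype P] [Nonempty P]

/-- the vertices outside `U` are independent of everything else -/
theorem indep_uk (U : Finset (Fin m)) :
    (Pm (k := k) (N := N) (m := m) (Θ := Θ) (P := P)).Indep (uk U) (fun ω => (th ω, ku U ω, nz ω)) := by
  have h := FP.unif_indep (Om := Sp k N m Θ P)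
    (O1 := {j : Fin m // ¬ j ∈ U} → P × V k) (O2 := Θ × ({j : Fin m // j ∈ U} → P × V k) × Fin (2 ^ N))
    { toFun := fun ω => (fun l => ω.2.1 l.1, (ω.1, fun l => ω.2.1 l.1, ω.2.2))
      invFun := fun q => (q.2.1, fun l => if hl : l ∈ U then q.2.2.1 ⟨l, hl⟩ else q.1 ⟨l, hl⟩, q.2.2.2)
      left_inv := by
        intro ω
        obtain ⟨θ, x, w⟩ := ω
        refine Prod.ext rfl (Prod.ext ?_ rfl)
        funext l
        by_cases hl : l ∈ U
        · simp [hl]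
        · simp [hl]
      right_inv := by
        intro q
        obtain ⟨x, θ, y, w⟩ := q
        refine Prod.ext ?_ (Prod.ext rfl (Prod.ext ?_ rfl))
        · funext l
          simp [l.2]
        · funext l
          simp [l.2] }
  refine h.mono ?_ ?_
  · intro v w hvw
    exact hvw
  · intro v w hvw
    simp only [Equiv.coe_fn_mk, Prod.mk.injEq] at hvw
    obtain ⟨h1, h2, h3⟩ := hvw
    exact Prod.ext h1 (Prod.ext h2 (congrArg Fin.val h3))

/-- the mass of a class of cells -/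
theorem m_cl (U : Finset (Fin m)) {s : ℕ} (hs : s ≤ k) (ω : Sp k N m Θ P) :
    Pm.m (cl U s) ω = ∏ j : Fin m, (if j ∈ U then 1 else (2 : ℝ) ^ s / 2 ^ k) := by
  classical
  have hP : (Fintype.card P : ℝ) ≠ 0 := Nat.cast_ne_zero.mpr Fintype.card_ne_zero
  have hT : (Fintype.card Θ : ℝ) ≠ 0 := Nat.cast_ne_zero.mpr Fintype.card_ne_zero
  set g : Fin m → P × V k → ℝ := fun j x => if j ∈ U then 1 else ind (flr s x.2 = flr s (vx j ω).2) with hg
  have h1 : ∀ v : Sp k N m Θ P, ind (cl U s v = cl U s ω) = ∏ j, g j (v.2.1 j) := by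
    intro v
    by_cases hv : cl U s v = cl U s ω
    · rw [ind_of hv]
      symm
      refine Finset.prod_eq_one fun j _ => ?_
      rw [hg]
      by_cases hj : j ∈ U
      · simp [hj]
      · simp only [if_neg hj]
        exact ind_of (congrFun hv ⟨j, hj⟩)
    · rw [ind_not hv]
      have h2 : ∃ j : {j : Fin m // ¬ j ∈ U}, cl U s v j ≠ cl U s ω j := by
        by_contra hcon
        push Not at hcon
        exact hv (funext hcon)
      obtain ⟨j, hj⟩ := h2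
      symm
      refine Finset.prod_eq_zero (Finset.mem_univ j.1) ?_
      rw [hg]
      simp only [if_neg j.2]
      exact ind_not hj
  have h2 : ∀ j, ∑ x : P × V k, g j x = if j ∈ U then (Fintype.card P : ℝ) * 2 ^ k else
      (Fintype.card P : ℝ) * 2 ^ s := by
    intro j
    rw [hg]
    by_cases hj : j ∈ U
    · simp only [if_pos hj, Finset.sum_const, Finset.card_univ, nsmul_eq_mul, mul_one, Fintype.card_prod, ZMod.card]
      push_cast
      ring
    · simp only [if_neg hj]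
      rw [Fintype.sum_prod_type]
      have h3 : ∀ p : P, ∑ x : V k, ind (flr s x = flr s (vx j ω).2) = 2 ^ s := by
        intro p
        have h4 := card_cell hs (vx j ω).2
        have h5 : ∑ x : V k, ind (flr s x = flr s (vx j ω).2) =
            ((univ.filter fun v' : V k => flr s v' = flr s (vx j ω).2).card : ℝ) := by
          rw [Finset.card_filter]
          push_cast
          refine Finset.sum_congr rfl fun x _ => ?_
          by_cases hx : flr s x = flr s (vx j ω).2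
          · rw [ind_of hx, if_pos hx]
          · rw [ind_not hx, if_neg hx]
        rw [h5, h4]
        push_cast
        rfl
      rw [Finset.sum_congr rfl fun p _ => h3 p, Finset.sum_const, Finset.card_univ, nsmul_eq_mul]
  unfold FP.m
  rw [FP.E_congr _ (fun v _ => h1 v), E_eq_aux]
  have h3 : ∀ (θ : Θ), ∑ x : Fin m → P × V k, ∑ w ∈ (range (2 ^ N)).attach,
      ∏ j, g j (((θ, x, ⟨w.1, Finset.mem_range.mp w.2⟩) : Sp k N m Θ P).2.1 j) =
      2 ^ N * ∏ j, ∑ x : P × V k, g j x := by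
    intro θ
    rw [Finset.prod_univ_sum, Fintype.piFinset_univ, Finset.mul_sum]
    refine Finset.sum_congr rfl fun x _ => ?_
    simp only [Finset.sum_const, Finset.card_attach, card_range, nsmul_eq_mul]
    push_cast
    rfl
  rw [Finset.sum_congr rfl fun θ _ => h3 θ, Finset.sum_const, Finset.card_univ, nsmul_eq_mul]
  have h4 : ∏ j, ∑ x : P × V k, g j x =
      ((Fintype.card P : ℝ) * 2 ^ k) ^ m * ∏ j : Fin m, (if j ∈ U then 1 else (2 : ℝ) ^ s / 2 ^ k) := by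
    have h5 : ((Fintype.card P : ℝ) * 2 ^ k) ^ m = ∏ _j : Fin m, ((Fintype.card P : ℝ) * 2 ^ k) := by
      rw [Finset.prod_const, Finset.card_univ, Fintype.card_fin]
    rw [h5, ← Finset.prod_mul_distrib]
    refine Finset.prod_congr rfl fun j _ => ?_
    rw [h2 j]
    by_cases hj : j ∈ U
    · rw [if_pos hj, if_pos hj, mul_one]
    · rw [if_neg hj, if_neg hj]
      field_simp
  rw [h4]
  field_simp

/-- refining the cells -/
theorem m_cl_le (U : Finset (Fin m)) {s s' : ℕ} (hs : s ≤ k) (hs' : s' ≤ s) (ω : Sp k N m Θ P) :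
    Pm.m (cl U s) ω ≤ ((2 : ℝ) ^ (s - s')) ^ (Uᶜ).card * Pm.m (cl U s') ω := by
  classical
  rw [m_cl U hs, m_cl U (hs'.trans hs)]
  have h1 : ((2 : ℝ) ^ (s - s')) ^ (Uᶜ).card = ∏ j : Fin m, (if j ∈ U then 1 else (2 : ℝ) ^ (s - s')) := by
    rw [Finset.prod_ite, Finset.prod_const_one, one_mul, Finset.prod_const]
    congr 1
    congr 1
    ext j
    simp
  rw [h1, ← Finset.prod_mul_distrib]
  refine le_of_eq (Finset.prod_congr rfl fun j _ => ?_)
  by_cases hj : j ∈ U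
  · rw [if_pos hj, if_pos hj, if_pos hj, mul_one]
  · rw [if_neg hj, if_neg hj, if_neg hj, mul_div_assoc', ← pow_add, Nat.sub_add_cancel hs']

/-- a function of the pair and the path: knowledge of the hidden vertex and of all the noise does not matter, finer cells
cost the ratio of the masses -/
theorem ce_Zk_le (i : Fin m) {U : Finset (Fin m)} (hi : i ∈ U) {e s s' : ℕ} (hs : s ≤ k) (hs' : s' ≤ s)
    {f : Sp k N m Θ P → ℝ} (hf0 : ∀ ω, 0 ≤ f ω) (hf : Fac (Kn i e) f) (ω : Sp k N m Θ P) :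
    Pm.ce (Zk U s') f ω ≤ ((2 : ℝ) ^ (s - s')) ^ (Uᶜ).card * Pm.ce (Yk i U e s) f ω := by
  have h := (Pm (k := k) (N := N) (m := m) (Θ := Θ) (P := P)).ce_indep_le (indep_uk U)
    (ζ := cl U s') (ζ0 := cl U s) (ψ := fun ω => (th ω, ku U ω, nz ω))
    (φ := fun ω => (th ω, Zn i e ω, ku (U.erase i) ω)) (f := f) (C := ((2 : ℝ) ^ (s - s')) ^ (Uᶜ).card) (w := ω)
    (by
      intro v w hv
      funext j
      have := congrFun hv j
      unfold uk at this
      unfold cl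
      rw [this])
    (fac_cl hs') (Fac.refl _)
    (by
      intro v w hv
      simp only [Prod.mk.injEq] at hv ⊢
      refine ⟨hv.1, ?_, ?_⟩
      · have := congrFun hv.2.1 ⟨i, hi⟩
        unfold ku at this
        unfold Zn
        rw [this, hv.2.2]
      · funext j
        exact congrFun hv.2.1 ⟨j.1, Finset.mem_of_mem_erase j.2⟩)
    (by
      refine Fac.trans ?_ hf
      intro v w hv
      unfold Kn
      simp only [Prod.mk.injEq] at hv ⊢
      refine ⟨hv.2.1, hv.2.2.1, ?_⟩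
      funext j
      by_cases hj : j.1 ∈ U
      · exact congrFun hv.2.2.2 ⟨j.1, Finset.mem_erase.mpr ⟨j.2, hj⟩⟩
      · exact congrFun hv.1 ⟨j.1, hj⟩)
    hf0 (Pm_ne ω) (m_cl_le U hs hs' ω)
  have e1 : Pm.ce (Zk U s') f ω = Pm.ce (fun v => (cl U s' v, (fun ω => (th ω, ku U ω, nz ω)) v)) f ω := by
    refine FP.ce_congr_map _ ?_ ?_ f ω
    · intro v w hv
      unfold Zk at hv
      simp only [Prod.mk.injEq] at hv ⊢
      exact ⟨hv.2.2.2, hv.1, hv.2.1, hv.2.2.1⟩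
    · intro v w hv
      unfold Zk
      simp only [Prod.mk.injEq] at hv ⊢
      exact ⟨hv.2.1, hv.2.2.1, hv.2.2.2, hv.1⟩
  have e2 : Pm.ce (Yk i U e s) f ω = Pm.ce (fun v => (cl U s v, (fun ω => (th ω, Zn i e ω, ku (U.erase i) ω)) v)) f ω := by
    refine FP.ce_congr_map _ ?_ ?_ f ω
    · intro v w hv
      unfold Yk at hv
      simp only [Prod.mk.injEq] at hv ⊢
      exact ⟨hv.2.2.2, hv.1, hv.2.1, hv.2.2.1⟩
    · intro v w hv
      unfold Yk
      simp only [Prod.mk.injEq] at hv ⊢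
      exact ⟨hv.2.1, hv.2.2.1, hv.2.2.2, hv.1⟩
  rw [e1, e2]
  exact h

/-- small cells of two consecutive times -/
theorem cell_sub_le (N h t : ℕ) : (ex N t - (h + 3)) - (ex N (t + 1) - (h + 3)) ≤ 1 := by unfold ex; omega

theorem cell_le (N h t : ℕ) : ex N (t + 1) - (h + 3) ≤ ex N t - (h + 3) := by unfold ex; omega

/-- PROPOSITION 1 IN THE MODEL, `m` vertices, rarity as a hypothesis.  `𝒰` = the sets of known vertices of the losses -/
theorem prop1_mod (i : Fin m) (h : ℕ) (hN : N ≤ k) {ι : ℕ → Type*} {A : ∀ t, Sp k N m Θ P → ι t}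
    {X g D : ℕ → Sp k N m Θ P → ℝ} {e Dd : ℕ → Sp k N m Θ P → Prop} {s B : ℝ}
    (H : Pm.ViewHyp A X g D e (Pm.Al A Dd (1 / 2)) s B)
    (hKA : ∀ t, Fac (A t) (Kn i (ex N t)))
    (hDd : ∀ t w, Dd t w → Dd (t + 1) w) {S : ℕ → Sp k N m Θ P → Prop}
    (hXS : ∀ t w, s < |X t w| → ¬ Dd t w → S t w) (n : ℕ) {θ : ℝ} (hθn : Pm.Pr (S n) ≤ θ)
    (𝒰 : Finset (Finset (Fin m))) (hU : ∀ U ∈ 𝒰, i ∈ U)
    (hθ : ∀ U ∈ 𝒰, ∀ t < n, ∀ w, Pm.ce (Yk i U (ex N t) (ex N t - (h + 3))) (fun v => ind (S t v)) w ≤ θ)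
    {b c : Finset (Fin m) → ℕ → Sp k N m Θ P → ℝ} {b0 : ℕ → Sp k N m Θ P → ℝ}
    (hb : ∀ U ∈ 𝒰, ∀ t < n, Fac (Zk U (ex N (t + 1) - (h + 3))) (b U t))
    (hc : ∀ U ∈ 𝒰, ∀ t < n, Fac (Zk U (ex N (t + 1) - (h + 3))) (c U t))
    (hb0 : ∀ t < n, Fac (A t) (b0 t))
    (hbn : ∀ U ∈ 𝒰, ∀ t < n, ∀ w, 0 ≤ b U t w) (hcn : ∀ U ∈ 𝒰, ∀ t < n, ∀ w, 0 ≤ c U t w)
    (hb0n : ∀ t < n, ∀ w, 0 ≤ b0 t w)
    (hβ : ∀ t < n, ∀ w, s < |X t w| → Pm.Al A Dd (1 / 2) t w →
      Pm.ce (A t) (D t) w ^ 2 ≤ b0 t w + ∑ U ∈ 𝒰, b U t w)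
    (he : ∀ t < n, ∀ w, s < |X t w| → Pm.Al A Dd (1 / 2) (t + 1) w →
      ind (e (t + 1) w) ≤ ∑ U ∈ 𝒰, c U t w) {ρ : ℝ} (hρ : 0 < ρ) :
    ρ * Pm.Pr (fun w => ∃ t ≤ n,
        2 * ρ ≤ Pm.ce (Kn i (ex N t)) (fun v => ind (Pm.Al A Dd (1 / 2) t v) * Phi s (X t v)) w) ≤
      2 * B * θ + 2 * B * ∑ t ∈ range n, Pm.E (fun w => ind (¬ Dd t w) * b0 t w) +
      2 * 2 ^ m * B ^ 2 * θ / ρ * ∑ U ∈ 𝒰, ∑ t ∈ range n, (Pm.E (b U t) + Pm.E (c U t)) + 2 * B * Pm.Pr (Dd n) := by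
  refine FP.prop1 (Pm (k := k) (N := N) (m := m) (Θ := Θ) (P := P)) H (filt_Kn i) hKA (fun t w _ => hDd t w)
    (fun t w _ => hXS t w) n hθn 𝒰 (fun U t => Yk i U (ex N t) (ex N t - (h + 3)))
    (fun U t => Zk U (ex N (t + 1) - (h + 3))) (fun U hu t _ => Kn_fac_Yk i U (hU U hu) _ _)
    (fun U hu t ht w _ => hθ U hu t ht w) (C := 2 ^ m) (by positivity) ?_ hb hc hb0
    (fun U hu t ht w _ => hbn U hu t ht w) (fun U hu t ht w _ => hcn U hu t ht w) (fun t ht w _ => hb0n t ht w)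
    (fun t ht w _ => hβ t ht w) (fun t ht w _ => he t ht w) hρ
  intro U hu t ht f hf0 hf w _
  have h1 := ce_Zk_le i (hU U hu) (e := ex N t) (s := ex N t - (h + 3)) (s' := ex N (t + 1) - (h + 3))
    (by unfold ex; omega) (cell_le N h t) hf0 hf w
  refine h1.trans (mul_le_mul_of_nonneg_right ?_ (FP.ce_nonneg _ (fun v _ => hf0 v) w))
  rw [← pow_mul]
  refine pow_le_pow_right₀ (by norm_num) ?_
  have h2 := cell_sub_le N h t
  have h3 : (Uᶜ).card ≤ m := by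
    have := Finset.card_le_univ (Uᶜ)
    simpa using this
  calc (ex N t - (h + 3) - (ex N (t + 1) - (h + 3))) * (Uᶜ).card ≤ 1 * m := Nat.mul_le_mul h2 h3
    _ = m := one_mul m

/-! ## three vertices -/

/-- the process in the form of the rarity statements -/
theorem TT3_eq (h : ℕ) (R : Fin 3 → Fam2 k P) (e : ℕ) (j : Fin 3) (ω : Sp k N 3 Θ P) :
    TT3 h R e ω = av e (Yn e ω).1 (fun d => R j e (Gm h e ω) (vx (j + 1) ω) (vx (j + 2) ω) d *
      (fun (g : V k × ℕ) (ω : Sp k N 3 Θ P) (d : V k) => R (j + 2) e g (vx j ω) (vx (j + 1) ω) d) (Gm h e ω) ω d *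
      (fun (g : V k × ℕ) (ω : Sp k N 3 Θ P) (d : V k) => R (j + 1) e g (vx (j + 2) ω) (vx j ω) d) (Gm h e ω) ω d) := by
  unfold TT3
  congr 1
  funext d
  rw [Fin.prod_univ_three]
  unfold fv
  have h0 : ∀ a b c : ℝ, a * b * c = a * c * b := fun a b c => mul_right_comm a b c
  have h1 : ∀ a b c : ℝ, a * b * c = b * a * c := fun a b c => by ring
  have h2 : ∀ a b c : ℝ, a * b * c = c * b * a := fun a b c => by ring
  fin_cases j
  · exact h0 _ _ _
  · exact h1 _ _ _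
  · exact h2 _ _ _

/-- rarity given `Yk i U` for every set `U` with an unknown vertex: product tests of the faces `j ≠ i` -/
theorem rar_Yk (i : Fin 3) {h e : ℕ} (he : e ≤ N) (hN : N ≤ k) {R : Fin 3 → Fam2 k P} {θ r B : ℝ} (hθ : 0 ≤ θ)
    (hPT : ∀ j, j ≠ i → PT h N (R j) θ r B) (hr : 2 * B ^ 3 * ((2 : ℝ) ^ h)⁻¹ ≤ r)
    (hR : ∀ j e g x y d, |R j e g x y d| ≤ B) {U : Finset (Fin 3)} (hi : i ∈ U) (hU : U ≠ univ)
    (ω : Sp k N 3 Θ P) :
    Pm.ce (Yk i U e (e - (h + 3))) (fun ω => ind (2 * r ≤ |TT3 h R e ω|)) ω ≤ 3 * θ := by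
  obtain ⟨l, hl⟩ : ∃ l, l ∉ U := by
    by_contra hcon
    push Not at hcon
    exact hU (Finset.eq_univ_iff_forall.mpr hcon)
  have hli : l ≠ i := fun h => hl (by rw [h]; exact hi)
  obtain ⟨j, hji, hjl⟩ : ∃ j : Fin 3, j ≠ i ∧ j ≠ l :=
    (by decide : ∀ i l : Fin 3, ∃ j : Fin 3, j ≠ i ∧ j ≠ l) i l
  refine ce_le_of_fine (X := fun ω => (th ω, vx j ω, Zn i e ω, sc h e l ω)) ?_ (fun ω' => ?_) ω
  · intro v w hv
    simp only [Prod.mk.injEq] at hv
    obtain ⟨h1, h2, h3, h4⟩ := hv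
    refine Prod.ext h1 (Prod.ext h3 (Prod.ext ?_ ?_))
    · funext a
      have ha : a.1 = j := by
        have h5 := Finset.ne_of_mem_erase a.2
        have h6 := Finset.mem_of_mem_erase a.2
        have h7 : a.1 ≠ l := fun h => hl (by rw [← h]; exact h6)
        rcases fin3_cover3 hji hli hjl.symm a.1 with h8 | h8 | h8
        · exact absurd h8 h5
        · exact h8
        · exact absurd h8 h7
      change vx a.1 v = vx a.1 w
      rw [ha]
      exact h2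
    · funext a
      have ha : a.1 = j ∨ a.1 = l := by
        have h5 : a.1 ≠ i := fun h => a.2 (by rw [h]; exact hi)
        rcases fin3_cover3 hji hli hjl.symm a.1 with h8 | h8 | h8
        · exact absurd h8 h5
        · exact Or.inl h8
        · exact Or.inr h8
      change flr _ (vx a.1 v).2 = flr _ (vx a.1 w).2
      rcases ha with ha | ha
      · rw [ha, h2]
      · rw [ha]
        exact h4
  · have h1 := rar_known hji hli hjl.symm he hN hθ (hPT j hji) hr (hR j)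
      (v := fun g ω d => R (j + 2) e g (vx j ω) (vx (j + 1) ω) d)
      (u := fun g ω d => R (j + 1) e g (vx (j + 2) ω) (vx j ω) d)
      (fun g v w hv => by
        simp only [Prod.mk.injEq] at hv
        funext d
        simp only
        rw [hv.2.1, hv.2.2.1])
      (fun g v w hv => by
        simp only [Prod.mk.injEq] at hv
        funext d
        simp only
        rw [hv.2.1, hv.2.2.1])
      (fun g ω d => hR _ _ _ _ _ _) (fun g ω d => hR _ _ _ _ _ _) ω'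
    have h2 : (fun ω : Sp k N 3 Θ P => ind (2 * r ≤ |TT3 h R e ω|)) =
        (fun ω => ind (2 * r ≤ |av e (Yn e ω).1 (fun d => R j e (Gm h e ω) (vx (j + 1) ω) (vx (j + 2) ω) d *
          (fun (g : V k × ℕ) (ω : Sp k N 3 Θ P) (d : V k) => R (j + 2) e g (vx j ω) (vx (j + 1) ω) d)
            (Gm h e ω) ω d *
          (fun (g : V k × ℕ) (ω : Sp k N 3 Θ P) (d : V k) => R (j + 1) e g (vx (j + 2) ω) (vx j ω) d)
            (Gm h e ω) ω d)|)) := by
      funext ω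
      rw [TT3_eq h R e j ω]
    rw [h2]
    exact h1

/-- the unconditional rarity -/
theorem rar_Pr (i : Fin 3) {h e : ℕ} (he : e ≤ N) (hN : N ≤ k) {R : Fin 3 → Fam2 k P} {θ r B : ℝ} (hθ : 0 ≤ θ)
    (hPT : ∀ j, j ≠ i → PT h N (R j) θ r B) (hr : 2 * B ^ 3 * ((2 : ℝ) ^ h)⁻¹ ≤ r)
    (hR : ∀ j e g x y d, |R j e g x y d| ≤ B) :
    Pm.Pr (fun ω : Sp k N 3 Θ P => 2 * r ≤ |TT3 h R e ω|) ≤ 3 * θ := by
  unfold FP.Pr
  rw [← FP.E_ce _ (Yk i {i} e (e - (h + 3)))]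
  refine FP.E_le_const _ (fun w _ => rar_Yk i he hN hθ hPT hr hR (Finset.mem_singleton_self i) ?_ w)
  intro h
  have := congrArg Finset.card h
  simp at this

/-- PROPOSITION 1 IN THE MODEL, three vertices: hidden vertex `i`, the faces `j ≠ i` product tested at `(θ, r)`, the face
`i` (known pair) arbitrary; `𝒰` = sets of known vertices of the losses (`{i}`, `{i,j}`, `{i,l}`) -/
theorem prop1_three (i : Fin 3) (h : ℕ) (hN : N ≤ k) {R : Fin 3 → Fam2 k P} {θ r B0 : ℝ} (hθ : 0 ≤ θ)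
    (hPT : ∀ j, j ≠ i → PT h N (R j) θ r B0) (hr : 2 * B0 ^ 3 * ((2 : ℝ) ^ h)⁻¹ ≤ r)
    (hR : ∀ j e g x y d, |R j e g x y d| ≤ B0) {ι : ℕ → Type*} {A : ∀ t, Sp k N 3 Θ P → ι t}
    {X g D : ℕ → Sp k N 3 Θ P → ℝ} {e Dd : ℕ → Sp k N 3 Θ P → Prop} {s B : ℝ}
    (H : Pm.ViewHyp A X g D e (Pm.Al A Dd (1 / 2)) s B)
    (hKA : ∀ t, Fac (A t) (Kn i (ex N t)))
    (hDd : ∀ t w, Dd t w → Dd (t + 1) w)
    (hXS : ∀ t w, s < |X t w| → ¬ Dd t w → 2 * r ≤ |TT3 h R (ex N t) w|) (n : ℕ)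
    (𝒰 : Finset (Finset (Fin 3))) (hU : ∀ U ∈ 𝒰, i ∈ U ∧ U ≠ univ)
    {b c : Finset (Fin 3) → ℕ → Sp k N 3 Θ P → ℝ} {b0 : ℕ → Sp k N 3 Θ P → ℝ}
    (hb : ∀ U ∈ 𝒰, ∀ t < n, Fac (Zk U (ex N (t + 1) - (h + 3))) (b U t))
    (hc : ∀ U ∈ 𝒰, ∀ t < n, Fac (Zk U (ex N (t + 1) - (h + 3))) (c U t))
    (hb0 : ∀ t < n, Fac (A t) (b0 t))
    (hbn : ∀ U ∈ 𝒰, ∀ t < n, ∀ w, 0 ≤ b U t w) (hcn : ∀ U ∈ 𝒰, ∀ t < n, ∀ w, 0 ≤ c U t w)
    (hb0n : ∀ t < n, ∀ w, 0 ≤ b0 t w)
    (hβ : ∀ t < n, ∀ w, s < |X t w| → Pm.Al A Dd (1 / 2) t w →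
      Pm.ce (A t) (D t) w ^ 2 ≤ b0 t w + ∑ U ∈ 𝒰, b U t w)
    (he : ∀ t < n, ∀ w, s < |X t w| → Pm.Al A Dd (1 / 2) (t + 1) w →
      ind (e (t + 1) w) ≤ ∑ U ∈ 𝒰, c U t w) {ρ : ℝ} (hρ : 0 < ρ) :
    ρ * Pm.Pr (fun w => ∃ t ≤ n,
        2 * ρ ≤ Pm.ce (Kn i (ex N t)) (fun v => ind (Pm.Al A Dd (1 / 2) t v) * Phi s (X t v)) w) ≤
      6 * B * θ + 2 * B * ∑ t ∈ range n, Pm.E (fun w => ind (¬ Dd t w) * b0 t w) +
      48 * B ^ 2 * θ / ρ * ∑ U ∈ 𝒰, ∑ t ∈ range n, (Pm.E (b U t) + Pm.E (c U t)) + 2 * B * Pm.Pr (Dd n) := by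
  have h1 := prop1_mod i h hN H hKA hDd (S := fun t w => 2 * r ≤ |TT3 h R (ex N t) w|) hXS n (θ := 3 * θ)
    (rar_Pr i (Nat.sub_le _ _) hN hθ hPT hr hR) 𝒰 (fun U hu => (hU U hu).1)
    (fun U hu t _ w => rar_Yk i (Nat.sub_le _ _) hN hθ hPT hr hR (hU U hu).1 (hU U hu).2 w)
    hb hc hb0 hbn hcn hb0n hβ he hρ
  refine h1.trans (le_of_eq ?_)
  ring

end Pool.Agent.M3.Mod
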