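import Pool.Agent.M3.PTFine

/-!
# M3.Prop1N: Proposition 1 for a named view (4.2 of table m3) (helper2)

`NV.cold` = use 1 of the named view: the known pair is never hot.  The known face changes at most one time and is zero
before (`hone`).  `NV.coldU` = the same on the space without randomness, at the rounding of the families.
-/

set_option autoImplicit false
set_option linter.unusedSectionVars false

namespace Pool.Agent.M3.Mod

open Finset Pool.Agent.PWZ Pool.Agent.M3.Bin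

variable {k N : ℕ} {Θ P : Type} [Fintype Θ] [Nonempty Θ] [Fintype P] [Nonempty P]

theorem UU_mem {i : Fin 3} {U : Finset (Fin 3)} (hU : U ∈ UU i) : i ∈ U := by
  unfold UU at hU
  simp only [Finset.mem_insert, Finset.mem_singleton] at hU
  rcases hU with rfl | rfl | rfl <;> simp

theorem UU_ne {i : Fin 3} {U : Finset (Fin 3)} (hU : U ∈ UU i) : U ≠ univ := by
  unfold UU at hU
  simp only [Finset.mem_insert, Finset.mem_singleton] at hU
  rcases hU with rfl | rfl | rfl <;> revert i <;> decide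

theorem singleton_mem_UU (i : Fin 3) : ({i} : Finset (Fin 3)) ∈ UU i := by
  unfold UU
  simp

/-- PROPOSITION 1 for a named view -/
theorem NV.cold {i : Fin 3} {h : ℕ} {R : Fin 3 → Fam2 k P} (W : NV k N Θ P i h R) (hN : N ≤ k) {s s2 : ℝ} (hs : 0 ≤ s)
    (hss : s < s2)
    (hone : ∀ t < N, ∀ w : Sp k N 3 Θ P, chE h i (R i) t w → fz h i (R i) t w = 0) {θ1 : ℝ}
    (hrar : ∀ U ∈ UU i, ∀ t ≤ N, ∀ w : Sp k N 3 Θ P,
      Pm.ce (Yk i U (ex N t) (ex N t - (h + 3))) (fun v => ind (s - W.eta ≤ |TZ h R t v|)) w ≤ θ1)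
    {ρ ρ' : ℝ} (hρ : 0 < ρ) (hρ' : 0 < ρ') :
    (Pm (k := k) (N := N) (m := 3) (Θ := Θ) (P := P)).Pr (fun w => ∃ t ≤ N, 2 * ρ / (s2 - s) ^ 2 + ρ' + W.a6 ≤
        Pm.ce (Kn i (ex N t)) (fun v => ind (s2 + W.eta ≤ |TZ h R t v|)) w) ≤
      (1 / ρ) * (1458 * (θ1 + W.a6) + 1458 * W.e3 +
        8503056 * (θ1 + W.a6) / ρ * ∑ U ∈ UU i, (W.hb U + W.J) + 1458 * W.q) + 3 * W.q / ρ' := by
  have hSr : ∀ U ∈ UU i, ∀ t ≤ N, ∀ w : Sp k N 3 Θ P,
      Pm.ce (Yk i U (ex N t) (ex N t - (h + 3))) (fun v => ind (N < t ∨ (s - W.eta ≤ |TZ h R t v| ∨ ¬ W.utd t v))) w ≤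
        θ1 + W.a6 := by
    intro U hU t ht w
    have h1 := hrar U hU t ht w
    have h2 := W.utdY U hU t ht w
    have h3 : Pm.ce (Yk i U (ex N t) (ex N t - (h + 3)))
        (fun v => ind (N < t ∨ (s - W.eta ≤ |TZ h R t v| ∨ ¬ W.utd t v))) w ≤
        Pm.ce (Yk i U (ex N t) (ex N t - (h + 3)))
          (fun v => ind (s - W.eta ≤ |TZ h R t v|) + ind (¬ W.utd t v)) w := by
      refine FP.ce_mono _ (fun v _ => ?_) w
      refine (ind_mono ?_).trans (ind_or_le _ _)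
      rintro (h | h)
      · exact absurd ht (not_le.mpr h)
      · exact h
    rw [FP.ce_add] at h3
    linarith
  have hPr : Pm.Pr (fun v => N < N ∨ (s - W.eta ≤ |TZ h R N v| ∨ ¬ W.utd N v)) ≤ θ1 + W.a6 := by
    unfold FP.Pr
    rw [← FP.E_ce _ (Yk i {i} (ex N N) (ex N N - (h + 3)))]
    exact FP.E_le_const _ (fun w _ => hSr {i} (singleton_mem_UU i) N le_rfl w)
  have hθ0 : 0 ≤ θ1 + W.a6 := (FP.Pr_nonneg _ _).trans hPr
  have hev : ∀ t < N, ∀ w, s < |W.X t w| → Pm.Al W.A W.D1 (1 / 2) (t + 1) w →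
      ind (W.ev (t + 1) w) ≤ ∑ U ∈ UU i, W.c U t w := by
    intro t ht w hX hA
    have h1 := W.ev1 t ht w hA
    have h2 : ¬ chE h i (R i) t w := by
      intro hc
      have h3 := W.zer t ht.le w (hone t ht w hc)
      rw [h3, abs_zero] at hX
      linarith
    rw [ind_not h2] at h1
    linarith
  have h1 := prop1_mod i h hN (W.view s hs W.D1) W.KA W.D1inc
    (S := fun t v => N < t ∨ (s - W.eta ≤ |TZ h R t v| ∨ ¬ W.utd t v))
    (fun t w hX hD => by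
      rcases Nat.lt_or_ge N t with h | h
      · exact Or.inl h
      · exact Or.inr ((W.XS1 s hs t h w hX hD).symm)) N hPr
    (UU i) (fun U hU => UU_mem hU) (fun U hU t ht w => hSr U hU t ht.le w)
    (fun U hU t ht => W.bZ U hU t ht) (fun U hU t ht => W.cZ U hU t ht)
    W.b0A (fun U _ t _ w => W.bn U t w) (fun U _ t _ w => W.cn U t w) (fun t _ w => W.b0n t w)
    (fun t ht w _ _ => W.bias t ht w) hev hρ
  have h2 := FP.prop1_T (Pm (k := k) (N := N) (m := 3) (Θ := Θ) (P := P)) (W.view s hs W.D1) (filt_Kn i)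
    (fun t w _ => W.D1inc t w)
    (S' := fun t v => t ≤ N ∧ (s2 + W.eta ≤ |TZ h R t v| ∧ W.utd t v)) hss
    (fun t w _ h h' => W.SX1 s2 t h.1 w h.2.1 h' h.2.2) N (ρ := ρ) hρ'
  have h3 : (Pm (k := k) (N := N) (m := 3) (Θ := Θ) (P := P)).Pr (fun w => ∃ t ≤ N, 2 * ρ / (s2 - s) ^ 2 + ρ' + W.a6 ≤
        Pm.ce (Kn i (ex N t)) (fun v => ind (s2 + W.eta ≤ |TZ h R t v|)) w) ≤
      (Pm (k := k) (N := N) (m := 3) (Θ := Θ) (P := P)).Pr (fun w => ∃ t ≤ N, 2 * ρ / (s2 - s) ^ 2 + ρ' ≤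
        Pm.ce (Kn i (ex N t)) (fun v => ind (t ≤ N ∧ (s2 + W.eta ≤ |TZ h R t v| ∧ W.utd t v))) w) := by
    refine FP.Pr_mono _ (fun w _ => ?_)
    rintro ⟨t, ht, hh⟩
    refine ⟨t, ht, ?_⟩
    have h4 : Pm.ce (Kn i (ex N t)) (fun v => ind (s2 + W.eta ≤ |TZ h R t v|)) w ≤
        Pm.ce (Kn i (ex N t)) (fun v => ind (t ≤ N ∧ (s2 + W.eta ≤ |TZ h R t v| ∧ W.utd t v)) +
          ind (¬ W.utd t v)) w := by
      refine FP.ce_mono _ (fun v _ => ?_) w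
      refine (ind_mono ?_).trans (ind_or_le _ _)
      intro hq
      by_cases hn : W.utd t v
      · exact Or.inl ⟨ht, hq, hn⟩
      · exact Or.inr hn
    rw [FP.ce_add] at h4
    have h5 := W.utdK t ht w
    linarith
  set Q := (Pm (k := k) (N := N) (m := 3) (Θ := Θ) (P := P)).Pr (fun w => ∃ t ≤ N,
        2 * ρ ≤ Pm.ce (Kn i (ex N t)) (fun v => ind (Pm.Al W.A W.D1 (1 / 2) t v) * Phi s (W.X t v)) w) with hQ
  have hb0 : ∑ t ∈ range N, Pm.E (fun w => ind (¬ W.D1 t w) * W.b0 t w) ≤ W.e3 := by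
    refine (Finset.sum_le_sum fun t _ => FP.E_mono _ (fun w _ => ?_)).trans W.b0e
    refine mul_le_mul_of_nonneg_right (ind_mono fun hn => ?_) (W.b0n t w)
    exact fun h => hn (W.D01 t w h)
  have hW : ∑ U ∈ UU i, ∑ t ∈ range N, (Pm.E (W.b U t) + Pm.E (W.c U t)) ≤ ∑ U ∈ UU i, (W.hb U + W.J) := by
    refine Finset.sum_le_sum fun U hU => ?_
    rw [Finset.sum_add_distrib]
    exact add_le_add (W.bh U hU) (W.cJ U hU)
  have hW' : 8503056 * (θ1 + W.a6) / ρ * ∑ U ∈ UU i, ∑ t ∈ range N, (Pm.E (W.b U t) + Pm.E (W.c U t)) ≤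
      8503056 * (θ1 + W.a6) / ρ * ∑ U ∈ UU i, (W.hb U + W.J) :=
    mul_le_mul_of_nonneg_left hW (by positivity)
  have h6 : ρ * Q ≤ 1458 * (θ1 + W.a6) + 1458 * W.e3 +
      8503056 * (θ1 + W.a6) / ρ * ∑ U ∈ UU i, (W.hb U + W.J) + 1458 * W.q := by
    have h9 : 2 * 2 ^ 3 * 729 ^ 2 * (θ1 + W.a6) / ρ = 8503056 * (θ1 + W.a6) / ρ := by ring
    rw [h9] at h1
    have h8 := W.D1q
    linarith
  have h10 : Q ≤ (1 / ρ) * (1458 * (θ1 + W.a6) + 1458 * W.e3 +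
      8503056 * (θ1 + W.a6) / ρ * ∑ U ∈ UU i, (W.hb U + W.J) + 1458 * W.q) := by
    rw [one_div, ← div_eq_inv_mul, le_div_iff₀ hρ, mul_comm]
    exact h6
  have h11 : 3 * Pm.Pr (W.D1 N) / ρ' ≤ 3 * W.q / ρ' :=
    div_le_div_of_nonneg_right (mul_le_mul_of_nonneg_left W.D1q (by norm_num)) hρ'.le
  exact h3.trans (h2.trans (add_le_add h10 h11))

/-- PROPOSITION 1 on the space without randomness, families at a coarser rounding `h0` -/
theorem NV.coldU {i : Fin 3} {h0 h : ℕ} {R : Fin 3 → Fam2 k Unit}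
    (W : NV k N Θ P i h (fun j => liftF (fine h0 (R j)))) (hh : h0 ≤ h)
    (hN : N ≤ k) {θ r B0 : ℝ} (hθ : 0 ≤ θ)
    (hPT : ∀ j, j ≠ i → PT h0 N (R j) θ r B0) (hr0 : 0 ≤ r)
    (hR : ∀ j e g x y d, |R j e g x y d| ≤ B0)
    (hone : ∀ t < N, ∀ w : Sp k N 3 Unit Unit, chE h0 i (R i) t w → fz h0 i (R i) t w = 0)
    {s s2 : ℝ} (hs : 0 ≤ s) (hss : s < s2) (hsr : 2 * (r + 2 * B0 ^ 3 * ((2 : ℝ) ^ h0)⁻¹) < s - W.eta)
    {ρ ρ' : ℝ} (hρ : 0 < ρ) (hρ' : 0 < ρ') :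
    (Pm (k := k) (N := N) (m := 3) (Θ := Unit) (P := Unit)).Pr (fun w => ∃ t ≤ N, 1 ≤ t ∧ 2 * ρ / (s2 - s) ^ 2 + ρ' + W.a6 ≤
        Pm.ce (Kn i (ex N t)) (fun v => ind (s2 + W.eta ≤ |TT3 h0 R (ex N t) v|)) w) ≤
      (1 / ρ) * (1458 * (3 * (θ * 4 ^ (h - h0)) + W.a6) + 1458 * W.e3 +
        8503056 * (3 * (θ * 4 ^ (h - h0)) + W.a6) / ρ * ∑ U ∈ UU i, (W.hb U + W.J) + 1458 * W.q) + 3 * W.q / ρ' := by
  have hB0 : 0 ≤ B0 := (abs_nonneg _).trans (hR 0 0 (0, 0) ((), 0) ((), 0) 0)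
  have hfine : ∀ t : ℕ, ∀ w : Sp k N 3 Θ P, TZ h (fun j => liftF (P := P) (fine h0 (R j))) t w = TZ h0 R t (prU w) := by
    intro t w
    rw [TZ_lift, TZ_fine hh]
  have h1 := W.cold hN (θ1 := 3 * (θ * 4 ^ (h - h0))) hs hss (fun t ht w hc => by
    rw [chE_lift, chE_fine hh] at hc
    rw [fz_lift, fz_fine hh]
    exact hone t ht (prU w) hc) ?_ hρ hρ'
  · refine le_trans ?_ h1
    rw [← Pr_prU (Θ := Θ) (P := P)]
    refine FP.Pr_mono _ (fun ω _ => ?_)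
    rintro ⟨t, ht, ht1, hh'⟩
    refine ⟨t, ht, ?_⟩
    have h5 := ce_prU (Θ := Θ) (P := P) i (e := ex N t) (Nat.sub_le _ _)
      (fun v => ind (s2 + W.eta ≤ |TT3 h0 R (ex N t) v|)) ω
    rw [← h5] at hh'
    refine hh'.trans (le_of_eq ?_)
    congr 1
    funext v
    rw [hfine]
    have : TZ h0 R t (prU v) = TT3 h0 R (ex N t) (prU v) := by
      unfold TZ
      rw [if_neg (by omega)]
    rw [this]
  · intro U hU t ht w
    have hpow : 0 < ((2 : ℝ) ^ h0)⁻¹ := by positivity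
    have hpow2 : ((2 : ℝ) ^ h)⁻¹ ≤ ((2 : ℝ) ^ h0)⁻¹ :=
      inv_anti₀ (by positivity) (pow_le_pow_right₀ (by norm_num) hh)
    have hr : 2 * B0 ^ 3 * ((2 : ℝ) ^ h)⁻¹ ≤ r + 2 * (B0 * B0 * B0) * ((2 : ℝ) ^ h0)⁻¹ := by
      have h7 : 2 * B0 ^ 3 * ((2 : ℝ) ^ h)⁻¹ ≤ 2 * B0 ^ 3 * ((2 : ℝ) ^ h0)⁻¹ :=
        mul_le_mul_of_nonneg_left hpow2 (by positivity)
      have h8 : 2 * B0 ^ 3 * ((2 : ℝ) ^ h0)⁻¹ = 2 * (B0 * B0 * B0) * ((2 : ℝ) ^ h0)⁻¹ := by ring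
      linarith
    have h2 := rar_Yk (Θ := Θ) (P := P) i (e := ex N t) (Nat.sub_le _ _) hN
      (R := fun j => liftF (P := P) (fine h0 (R j))) (θ := θ * 4 ^ (h - h0)) (by positivity)
      (fun j hj => PT_lift (PT_fine hh hN (hPT j hj) hθ hB0 (fun e g x y d => hR j e g x y d))) hr
      (fun j e g x y d => hR j e _ _ _ d) (UU_mem hU) (UU_ne hU) w
    refine le_trans (FP.ce_mono _ (fun v _ => ind_mono fun hv => ?_) w) h2
    have h9 : 2 * (r + 2 * (B0 * B0 * B0) * ((2 : ℝ) ^ h0)⁻¹) = 2 * (r + 2 * B0 ^ 3 * ((2 : ℝ) ^ h0)⁻¹) := by ring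
    rw [h9]
    rcases Nat.eq_zero_or_pos t with h0t | h0t
    · exfalso
      unfold TZ at hv
      rw [if_pos h0t, abs_zero] at hv
      have : 0 ≤ 2 * (r + 2 * B0 ^ 3 * ((2 : ℝ) ^ h0)⁻¹) := by positivity
      linarith
    · unfold TZ at hv
      rw [if_neg (by omega)] at hv
      exact hsr.le.trans hv

end Pool.Agent.M3.Mod
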