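import Pool.Agent.M3.Nz
import Pool.Agent.M3.FPMart

/-!
# M3.PubK: published noisy label of one pair (helper7)

`L1` = one pair: extended true label `x t w : Bool → L` (values at the two options), plain label `xp`, number `ix` of the
true option, closings `cl t` (at the level `t+1`), `bb t` young before the rules at the level `t+1`.
* `oc` occasions, `tc` true components (`some` of the extended label at the closings at which it is young), `rp` recorded
  plain label;
* `LF t w` = published label up to `t` (noise `ν w`), `pc t` = its component at the time `t`, `pv t` = published PLAIN value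
  (the last component which is not `none`, read at the true option of that time);
* `bad t` = increasing event (time `> N`, strike, more than `J` occasions, more than `n0` components);
* `pv_eq` : off `bad` the published plain value is the recorded one; `pv_fac`, `LF_fac` measurability; `pv_ne`: it changes
  only at published components, at most `2 n0` (`pc_count`).
-/

set_option autoImplicit false
set_option linter.unusedSectionVars false

namespace Pool.Agent.M3

open Finset Pool.Agent.PWZ Nz

/-- one pair -/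
structure L1 (Om L : Type*) where
  x : ℕ → Om → Bool → L
  xp : ℕ → Om → L
  ix : ℕ → Om → Bool
  cl : ℕ → Om → Prop
  bb : ℕ → Om → Prop

namespace L1

variable {Om L : Type*}

noncomputable section

variable (D : L1 Om L)

/-- occasions -/
def oc : ℕ → Om → Prop
  | 0, _ => True
  | t + 1, w => D.cl t w

open Classical in
/-- true components -/
def tc : ℕ → Om → Option (Bool → L)
  | 0, w => some (D.x 0 w)
  | t + 1, w => if D.cl t w ∧ D.bb t w then some (D.x (t + 1) w) else none

open Classical in
/-- recorded plain label -/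
def rp : ℕ → Om → L
  | 0, w => D.xp 0 w
  | t + 1, w => if D.cl t w then D.xp (t + 1) w else rp t w

variable {N : ℕ} (R J n0 : ℕ) (ν : Om → Fin (N + 1) → Ns R (Bool → L)) (dflt : L)

/-- published label up to the time `t` -/
def LF (t : ℕ) (w : Om) : Fin (N + 1) → Option (Bool → L) :=
  lab R J n0 (fun s => D.oc s w) (fun s => D.tc s w) t (ν w)

/-- the component published at the time `t` -/
def pc (t : ℕ) (w : Om) : Option (Bool → L) := if h : t < N + 1 then D.LF R J n0 ν t w ⟨t, h⟩ else none

/-- published plain value -/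
def pv : ℕ → Om → L
  | 0, w => match D.pc R J n0 ν 0 w with
    | some v => v (D.ix 0 w)
    | none => dflt
  | t + 1, w => match D.pc R J n0 ν (t + 1) w with
    | some v => v (D.ix (t + 1) w)
    | none => pv t w

/-- the noise has struck at one of the first `J` occasions up to `t` -/
def stk (t : ℕ) (w : Om) : Prop :=
  ∃ s : Fin (N + 1), s.val ≤ t ∧ (D.oc s.val w ∧ cn (fun r => D.oc r w) s.val < J) ∧ (ν w s).1 = 0

/-- the published value may be wrong -/
def bad (t : ℕ) (w : Om) : Prop :=
  N < t ∨ D.stk R J ν t w ∨ J < cn (fun r => D.oc r w) (t + 1) ∨ n0 < cn (fun r => D.tc r w ≠ none) (t + 1)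

end

variable {D : L1 Om L} {N : ℕ} {R J n0 : ℕ} {ν : Om → Fin (N + 1) → Ns R (Bool → L)} {dflt : L}

open Classical in
theorem tc_succ (t : ℕ) (w : Om) :
    D.tc (t + 1) w = if D.cl t w ∧ D.bb t w then some (D.x (t + 1) w) else none := rfl

theorem tc_oc {t : ℕ} {w : Om} (h : D.tc t w ≠ none) : D.oc t w := by
  classical
  cases t with
  | zero => trivial
  | succ t =>
    rw [tc_succ] at h
    by_cases h1 : D.cl t w ∧ D.bb t w
    · exact h1.1
    · rw [if_neg h1] at h; exact absurd rfl h

theorem bad_inc {t : ℕ} {w : Om} (h : D.bad R J n0 ν t w) : D.bad R J n0 ν (t + 1) w := by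
  rcases h with h | h | h | h
  · exact Or.inl (by omega)
  · obtain ⟨s, h1, h2⟩ := h
    exact Or.inr (Or.inl ⟨s, by omega, h2⟩)
  · exact Or.inr (Or.inr (Or.inl (lt_of_lt_of_le h (cn_mono _ (by omega)))))
  · exact Or.inr (Or.inr (Or.inr (lt_of_lt_of_le h (cn_mono _ (by omega)))))

theorem pc_pub {t : ℕ} (ht : t ≤ N) (w : Om) :
    D.pc R J n0 ν t w = pub R J n0 (fun s => D.oc s w) (fun s => D.tc s w) (Nz.sq (ν w)) t := by
  unfold pc LF lab
  rw [dif_pos (by omega), if_pos le_rfl]

theorem pc_top {t : ℕ} (ht : N < t) (w : Om) : D.pc R J n0 ν t w = none := by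
  unfold pc
  rw [dif_neg (by omega)]

theorem pc_LF {s t : ℕ} (hs : s ≤ t) (hN : s < N + 1) (w : Om) : D.pc R J n0 ν s w = D.LF R J n0 ν t w ⟨s, hN⟩ := by
  rw [pc_pub (by omega)]
  unfold LF lab
  rw [if_pos hs]

/-- off `bad` the true component is published -/
theorem pc_eq {t : ℕ} {w : Om} (h : ¬ D.bad R J n0 ν t w) : D.pc R J n0 ν t w = D.tc t w := by
  unfold bad at h
  push Not at h
  obtain ⟨h1, h2, h3, h4⟩ := h
  rw [pc_pub h1]
  refine pub_eq (t := t) (fun s _ hs => tc_oc hs) h3 h4 ?_ t le_rfl
  intro s hs h5 h6 h7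
  apply h2
  refine ⟨⟨s, by omega⟩, hs, ⟨h5, h6⟩, ?_⟩
  have h8 : Nz.sq (ν w) s = ν w ⟨s, by omega⟩ := by unfold Nz.sq; rw [dif_pos (by omega)]
  rw [h8] at h7
  exact h7

/-- off `bad` the published plain value is the recorded one -/
theorem pv_eq {t : ℕ} {w : Om} (hx : ∀ s ≤ t, D.xp s w = D.x s w (D.ix s w))
    (hr : ∀ s < t, ¬ D.bb s w → D.rp (s + 1) w = D.rp s w) (h : ¬ D.bad R J n0 ν t w) :
    D.pv R J n0 ν dflt t w = D.rp t w := by
  classical
  induction t with
  | zero =>
    have h1 := pc_eq h
    unfold pv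
    rw [h1]
    show D.x 0 w (D.ix 0 w) = D.xp 0 w
    rw [hx 0 le_rfl]
  | succ t ih =>
    have h1 := pc_eq h
    have ih' := ih (fun s hs => hx s (by omega)) (fun s hs => hr s (by omega)) (fun h' => h (bad_inc h'))
    unfold pv
    rw [h1]
    by_cases h2 : D.cl t w ∧ D.bb t w
    · have h3 : D.tc (t + 1) w = some (D.x (t + 1) w) := by rw [tc_succ, if_pos h2]
      rw [h3]
      show D.x (t + 1) w (D.ix (t + 1) w) = D.rp (t + 1) w
      rw [← hx (t + 1) le_rfl, rp, if_pos h2.1]
    · have h3 : D.tc (t + 1) w = none := by rw [tc_succ, if_neg h2]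
      rw [h3]
      show D.pv R J n0 ν dflt t w = D.rp (t + 1) w
      rw [ih']
      by_cases h4 : D.cl t w
      · exact (hr t (by omega) (fun h5 => h2 ⟨h4, h5⟩)).symm
      · rw [rp, if_neg h4]

/-- the published plain value changes only at published components -/
theorem pv_ne {t : ℕ} {w : Om} (h : D.pv R J n0 ν dflt (t + 1) w ≠ D.pv R J n0 ν dflt t w) :
    D.pc R J n0 ν (t + 1) w ≠ none := by
  intro h1
  apply h
  rw [pv, h1]

/-- measurability of the published plain value -/
theorem pv_fac {ι : ℕ → Type*} {Y : ∀ t, Om → ι t} (hY : Filt Y) (hL : ∀ t, Fac (Y t) (D.LF R J n0 ν t))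
    (hi : ∀ t, Fac (Y t) (D.ix t)) (t : ℕ) : Fac (Y t) (D.pv R J n0 ν dflt t) := by
  have hp : ∀ t, Fac (Y t) (D.pc R J n0 ν t) := by
    intro t v w hv
    unfold pc
    rw [hL t v w hv]
  induction t with
  | zero =>
    intro v w hv
    unfold pv
    rw [hp 0 v w hv, hi 0 v w hv]
  | succ t ih =>
    intro v w hv
    rw [pv, pv, hp (t + 1) v w hv, hi (t + 1) v w hv, ih v w (hY t v w hv)]

/-- measurability of the published label -/
theorem LF_fac [Fintype L] {ι : Type*} {Y : Om → ι} {t : ℕ} (ho : ∀ s ≤ t, ∀ v w, Y v = Y w → (D.oc s v ↔ D.oc s w))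
    (hc : ∀ s ≤ t, Fac Y (D.tc s)) (hν : Fac Y ν) : Fac Y (D.LF R J n0 ν t) := by
  intro v w hv
  unfold LF
  rw [hν v w hv]
  exact lab_congr (fun s hs => ho s hs v w hv) (fun s hs => hc s hs v w hv) _

/-- at most `2 n0` components are published -/
theorem pc_count (n : ℕ) (w : Om) : ∑ t ∈ range n, ind (D.pc R J n0 ν t w ≠ none) ≤ 2 * n0 := by
  classical
  have h1 : ∑ t ∈ range n, ind (D.pc R J n0 ν t w ≠ none) =
      (cn (fun t => D.pc R J n0 ν t w ≠ none) n : ℝ) := by
    induction n with
    | zero => rw [cn_zero]; simp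
    | succ n ih =>
      rw [Finset.sum_range_succ, ih]
      by_cases h : D.pc R J n0 ν n w ≠ none
      · rw [ind_of h, cn_succ_of (p := fun t => D.pc R J n0 ν t w ≠ none) h]; push_cast; rfl
      · rw [ind_not h, cn_succ_not (p := fun t => D.pc R J n0 ν t w ≠ none) h, add_zero]
  rw [h1]
  have h2 : cn (fun t => D.pc R J n0 ν t w ≠ none) n ≤
      cn (fun t => pub R J n0 (fun s => D.oc s w) (fun s => D.tc s w) (Nz.sq (ν w)) t ≠ none) n := by
    refine cn_le_of_imp fun s _ hs => ?_
    rcases Nat.lt_or_ge N s with h | h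
    · exact absurd (pc_top h w) hs
    · rw [← pc_pub h]; exact hs
  rw [← np_eq] at h2
  have h3 := np_le (R := R) (J := J) (n0 := n0) (oc := fun s => D.oc s w) (tc := fun s => D.tc s w) (ν := Nz.sq (ν w)) n
  exact_mod_cast h2.trans h3

end L1

end Pool.Agent.M3
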