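import Pool.Agent.M3.HIota

/-!
# M3.Rarity: one-sided rarity (note 3424 (1)), single-map form

`P : FP Om`, hidden map `a`, letters `X`, `Y` (with their owners) conditionally independent given `a`.  Rule for `Y`:
`kl (P.cnd S) P Y ≤ sig (log (1/P(S)) + 1)` for all events `S` of `a`.

* `rho P X Y w' v` : density of the law of `Y` given `X = X w'` with respect to the law of `Y`, at `Y v`;
* `rpsi del x = (log x - del)^+`, `exp_rpsi_le : exp (rpsi del x) ≤ 1 + 2/del * hphi x`;
* `kl_pt` : `KL(P(Y | X = x) | P(Y)) ≤ sig (log A + 1)`;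
* `rpsi_on_event` : mean of `rpsi(x, Y)` on an event `S`, for a fixed value `x`;
* `rare_one` : the set of the `a` with `E[rpsi(x, Y) | a] ≥ lam` has `P ≤ exp (-L)`;
* `rpsi_pair`, `rpsi_pair_E`, `rare_two` : the same for `rpsi(X, Y)`;
* `typ_owner`, `not_typical` : Markov over the owners of `X`;
* `FP.CI.ce_pair`, `rpsi_owner` : mean of `rpsi(X, Y)` given `(a, owner)` from the bounds for fixed letters.
-/

set_option autoImplicit false
set_option linter.unusedSectionVars false

namespace Pool.Agent.M3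

open Finset Pool.Agent.PWZ

variable {Om : Type*} [Fintype Om]

noncomputable section

/-- density of the law of `Y` given `X = X w'` with respect to the law of `Y` -/
def rho (P : FP Om) {κ ι : Type*} (X : Om → κ) (Y : Om → ι) (w' v : Om) : ℝ :=
  P.ce Y (fun u => ind (X u = X w')) v / P.m X w'

/-- `(log x - del)^+` -/
def rpsi (del x : ℝ) : ℝ := max (Real.log x - del) 0

end

/-! ## the function `rpsi` -/

theorem rpsi_nonneg (del x : ℝ) : 0 ≤ rpsi del x := le_max_right _ _

theorem log_le_rpsi (del x : ℝ) : Real.log x ≤ del + rpsi del x := by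
  have := le_max_left (Real.log x - del) 0
  unfold rpsi
  linarith

theorem rpsi_le_of_log {del x M : ℝ} (hd : 0 ≤ del) (hM : 0 ≤ M) (h : Real.log x ≤ M) : rpsi del x ≤ M :=
  max_le (by linarith) hM

theorem log_ge_pade {x : ℝ} (hx : 1 ≤ x) : 2 * (x - 1) ≤ (x + 1) * Real.log x := by
  have h1 : 0 < x + 1 := by linarith
  set t : ℝ := (x - 1) / (x + 1) with ht
  have ht0 : 0 ≤ t := div_nonneg (by linarith) h1.le
  have ht1 : t < 1 := by rw [ht, div_lt_one h1]; linarith
  have h3 := Real.hasSum_log_sub_log_of_abs_lt_one (x := t) (by rw [abs_of_nonneg ht0]; exact ht1)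
  have h4 := sum_le_hasSum (Finset.range 1) (fun i _ => by positivity) h3
  have h5 : Real.log (1 + t) - Real.log (1 - t) = Real.log x := by
    rw [← Real.log_div (by linarith) (by linarith)]
    congr 1
    rw [ht]
    field_simp
    ring
  rw [h5] at h4
  simp only [Finset.sum_range_succ, Finset.sum_range_zero] at h4
  norm_num at h4
  rw [ht] at h4
  have h6 : (x + 1) * (2 * ((x - 1) / (x + 1))) ≤ (x + 1) * Real.log x :=
    mul_le_mul_of_nonneg_left h4 h1.le
  have h7 : (x + 1) * (2 * ((x - 1) / (x + 1))) = 2 * (x - 1) := by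
    field_simp
  linarith

theorem exp_rpsi_le {del x : ℝ} (hd : 0 < del) (hx : 0 ≤ x) :
    Real.exp (rpsi del x) ≤ 1 + 2 / del * hphi x := by
  have hh := hphi_nonneg hx
  have hdd : 0 < 2 / del := by positivity
  by_cases h : Real.log x ≤ del
  · have : rpsi del x = 0 := max_eq_right (by linarith)
    rw [this, Real.exp_zero]
    have := mul_nonneg hdd.le hh
    linarith
  · have hl := not_le.1 h
    have hx0 : 0 < x := by
      rcases hx.eq_or_lt with h' | h'
      · rw [← h', Real.log_zero] at hl; linarith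
      · exact h'
    have hx1 : 1 ≤ x := by
      by_contra hlt
      have := Real.log_nonpos hx (not_le.1 hlt).le
      linarith
    have h1 : rpsi del x = Real.log x - del := max_eq_left (by linarith)
    have h2 : Real.exp (rpsi del x) ≤ x := by
      rw [h1]
      calc Real.exp (Real.log x - del) ≤ Real.exp (Real.log x) := Real.exp_le_exp.2 (by linarith)
        _ = x := Real.exp_log hx0
    have h3 := log_ge_pade hx1
    have h4 : del * (x - 1) ≤ 2 * hphi x := by
      have h5 : del * (x - 1) ≤ Real.log x * (x - 1) :=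
        mul_le_mul_of_nonneg_right hl.le (by linarith)
      unfold hphi
      linarith
    have h6 : x - 1 ≤ 2 / del * hphi x := by
      rw [div_mul_eq_mul_div, le_div_iff₀ hd]
      linarith
    linarith

/-! ## the density `rho` -/

section rho

variable {P : FP Om} {α κ ι : Type*} {X : Om → κ} {Y : Om → ι}

theorem rho_nonneg (w' v : Om) : 0 ≤ rho P X Y w' v :=
  div_nonneg (P.ce_nonneg (fun _ _ => ind_nonneg _) v) (P.m_nonneg X w')

theorem rho_fac (w' : Om) : Fac Y (rho P X Y w') := fun v w hv => by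
  unfold rho
  rw [P.ce_fac Y _ v w hv]

theorem rho_congr_left {w' w'' : Om} (h : X w' = X w'') (v : Om) : rho P X Y w' v = rho P X Y w'' v := by
  unfold rho
  rw [h, P.Fac_m X w' w'' h]

theorem E_rho_mul {g : Om → ℝ} (hg : Fac Y g) (w' : Om) :
    P.E (fun v => rho P X Y w' v * g v) = P.E (fun v => ind (X v = X w') * g v) / P.m X w' := by
  rw [← P.E_ce_mul hg (fun v => ind (X v = X w')), ← FP.E_div_const]
  refine P.E_congr (fun v _ => ?_)
  unfold rho
  ring

theorem E_rho {w' : Om} (hw' : P.p w' ≠ 0) : P.E (rho P X Y w') = 1 := by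
  have h := E_rho_mul (P := P) (X := X) (Y := Y) (g := fun _ => (1 : ℝ)) (Fac.const Y 1) w'
  simp only [mul_one] at h
  have h2 : P.E (fun v => ind (X v = X w')) = P.m X w' := rfl
  rw [h2, div_self (P.m_pos X hw').ne'] at h
  exact h

theorem rho_eq {w' v : Om} (hv : X v = X w') :
    rho P X Y w' v = P.m (fun w => (X w, Y w)) v / (P.m X v * P.m Y v) := by
  show P.E (fun u => ind (Y u = Y v) * ind (X u = X w')) / P.m Y v / P.m X w' = _
  have e1 : P.m (fun w => (X w, Y w)) v = P.E (fun u => ind (Y u = Y v) * ind (X u = X w')) := by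
    show P.E (fun u => ind ((X u, Y u) = (X v, Y v))) = _
    refine P.E_congr (fun u _ => ?_)
    rw [← hv]
    by_cases h1 : X u = X v
    · by_cases h2 : Y u = Y v
      · rw [ind_of h1, ind_of h2, ind_of (by rw [h1, h2]), one_mul]
      · rw [ind_not h2, zero_mul, ind_not (fun h => h2 (congrArg Prod.snd h))]
    · rw [ind_not h1, mul_zero, ind_not (fun h => h1 (congrArg Prod.fst h))]
  rw [e1, P.Fac_m X v w' hv, div_div, mul_comm (P.m Y v)]

/-- symmetry: `rho` of the exchanged letters -/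
theorem rho_symm {w' v : Om} : rho P X Y w' v = rho P Y X v w' := by
  show P.E (fun u => ind (Y u = Y v) * ind (X u = X w')) / P.m Y v / P.m X w' =
    P.E (fun u => ind (X u = X w') * ind (Y u = Y v)) / P.m X w' / P.m Y v
  rw [div_right_comm]
  congr 2
  exact P.E_congr (fun u _ => mul_comm _ _)

theorem FP.CI.E_left {a : Om → α} (hci : P.CI a X Y) {f g : Om → ℝ} (hf : Fac X f) (hg : Fac Y g) :
    P.E (fun v => f v * g v) = P.E (fun v => P.ce a f v * g v) := by
  rw [hci.E2 hf hg, P.E_mul_ce (P.ce_fac a f) g]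

end rho

/-! ## a fixed value of `X` -/

section fixed

variable {P : FP Om} {α κ ι : Type*} {a : Om → α} {X : Om → κ} {Y : Om → ι} {sig : ℝ}

/-- relative entropy of the law of `Y` given `X = X w'` -/
theorem kl_pt (hci : P.CI a X Y) (hsig : 0 ≤ sig)
    (rule : ∀ (S : Om → Prop) (hS : 0 < P.Pr S), Ev a S →
      kl (P.cnd S hS) P Y ≤ sig * (Real.log (1 / P.Pr S) + 1))
    {A : ℝ} (hA : 0 < A) {w' : Om} (hw' : P.p w' ≠ 0)
    (thick : ∀ w, P.p w ≠ 0 → P.ce a (fun v => ind (X v = X w')) w ≤ A * P.m X w') :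
    P.E (fun v => hphi (rho P X Y w' v)) ≤ sig * (Real.log A + 1) := by
  have hmX := P.m_pos X hw'
  have hE : P.E (rho P X Y w') = 1 := E_rho hw'
  have h1 : P.E (fun v => hphi (rho P X Y w' v)) =
      P.E (fun v => rho P X Y w' v * Real.log (rho P X Y w' v)) := by
    have : P.E (fun v => hphi (rho P X Y w' v)) =
        P.E (fun v => rho P X Y w' v * Real.log (rho P X Y w' v) - (rho P X Y w' v - 1)) :=
      P.E_congr (fun v _ => by unfold hphi; ring)
    rw [this, FP.E_sub, FP.E_sub, FP.E_const]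
    have h2 : P.E (fun v => rho P X Y w' v) = 1 := hE
    rw [h2]; ring
  rw [h1]
  set f : Om → ℝ := fun u => ind (X u = X w') with hf
  have hfF : Fac X f := Fac.ind (fun v w hv => by rw [hv])
  set ψ : Om → ℝ := fun w => P.ce a f w / P.m X w' with hψd
  have hψF : Fac a ψ := (P.ce_fac a f).comp (fun x => x / P.m X w')
  have hψ0 : ∀ w, 0 ≤ ψ w := fun w => div_nonneg (P.ce_nonneg (fun _ _ => ind_nonneg _) w) hmX.le
  have hψM : ∀ w, P.p w ≠ 0 → ψ w ≤ A := fun w hw => by
    show P.ce a f w / P.m X w' ≤ A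
    rw [div_le_iff₀ hmX]
    exact thick w hw
  have hψ1 : P.E ψ = 1 := by
    show P.E (fun w => P.ce a f w / P.m X w') = 1
    rw [FP.E_div_const, FP.E_ce]
    have : P.E f = P.m X w' := rfl
    rw [this, div_self hmX.ne']
  have hchange : ∀ g : Om → ℝ, Fac Y g →
      P.E (fun v => rho P X Y w' v * g v) = P.E (fun v => ψ v * g v) := by
    intro g hg
    rw [E_rho_mul hg w', hci.E_left hfF hg, ← FP.E_div_const]
    exact P.E_congr (fun v _ => by
      show P.ce a f v * g v / P.m X w' = P.ce a f v / P.m X w' * g v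
      ring)
  refine le_of_forall_pos_le_add (fun δ hδ => ?_)
  have hF : Fac Y (fun v => Real.log (rho P X Y w' v + δ)) :=
    (rho_fac w').comp (fun x => Real.log (x + δ))
  have hmain := rule_dens hsig rule (φ := fun v => rho P X Y w' v + δ)
    ((rho_fac w').comp (fun x => x + δ)) (fun w => by have := rho_nonneg (P := P) (X := X) (Y := Y) w' w; linarith)
    (by
      rw [FP.E_add, FP.E_const]
      have : P.E (fun v => rho P X Y w' v) = 1 := hE
      rw [this]; linarith) hψF hψ0 hA hψM hψ1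
  rw [FP.E_add, FP.E_const, ← hchange _ hF] at hmain
  have hE' : P.E (fun v => rho P X Y w' v) = 1 := hE
  rw [hE'] at hmain
  have hle : P.E (fun v => rho P X Y w' v * Real.log (rho P X Y w' v)) ≤
      P.E (fun v => rho P X Y w' v * Real.log (rho P X Y w' v + δ)) := by
    refine P.E_mono (fun v _ => ?_)
    rcases (rho_nonneg (P := P) (X := X) (Y := Y) w' v).eq_or_lt with h | h
    · rw [← h, zero_mul, zero_mul]
    · exact mul_le_mul_of_nonneg_left (Real.log_le_log h (by linarith)) h.le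
  linarith

theorem E_exp_rpsi_le (hci : P.CI a X Y) (hsig : 0 ≤ sig)
    (rule : ∀ (S : Om → Prop) (hS : 0 < P.Pr S), Ev a S →
      kl (P.cnd S hS) P Y ≤ sig * (Real.log (1 / P.Pr S) + 1))
    {A : ℝ} (hA : 0 < A) {w' : Om} (hw' : P.p w' ≠ 0)
    (thick : ∀ w, P.p w ≠ 0 → P.ce a (fun v => ind (X v = X w')) w ≤ A * P.m X w')
    {del : ℝ} (hd : 0 < del) :
    P.E (fun v => Real.exp (rpsi del (rho P X Y w' v))) ≤ 1 + 2 / del * (sig * (Real.log A + 1)) := by
  have h1 : P.E (fun v => Real.exp (rpsi del (rho P X Y w' v))) ≤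
      P.E (fun v => 1 + 2 / del * hphi (rho P X Y w' v)) :=
    P.E_mono (fun v _ => exp_rpsi_le hd (rho_nonneg w' v))
  rw [FP.E_add, FP.E_const, FP.E_smul] at h1
  have h2 := mul_le_mul_of_nonneg_left (kl_pt hci hsig rule hA hw' thick) (by positivity : 0 ≤ 2 / del)
  linarith

theorem one_le_E_exp_rpsi (del : ℝ) (w' : Om) :
    1 ≤ P.E (fun v => Real.exp (rpsi del (rho P X Y w' v))) :=
  P.le_E_const (fun _ _ => Real.one_le_exp (rpsi_nonneg _ _))

theorem exp_rpsi_fac (del : ℝ) (w' : Om) : Fac Y (fun v => Real.exp (rpsi del (rho P X Y w' v))) :=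
  (rho_fac w').comp (fun x => Real.exp (rpsi del x))

/-- mean of `rpsi(x, Y)` on an event of `a`, for a fixed value `x` of `X` -/
theorem rpsi_on_event (hci : P.CI a X Y) (hsig : 0 ≤ sig)
    (rule : ∀ (S : Om → Prop) (hS : 0 < P.Pr S), Ev a S →
      kl (P.cnd S hS) P Y ≤ sig * (Real.log (1 / P.Pr S) + 1))
    {A : ℝ} (hA : 0 < A) {w' : Om} (hw' : P.p w' ≠ 0)
    (thick : ∀ w, P.p w ≠ 0 → P.ce a (fun v => ind (X v = X w')) w ≤ A * P.m X w')
    {del : ℝ} (hd : 0 < del) {S : Om → Prop} (hSa : Ev a S) (hS : 0 < P.Pr S) :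
    (P.cnd S hS).E (fun v => rpsi del (rho P X Y w' v)) ≤
      sig * (Real.log (1 / P.Pr S) + 1) + 2 / del * (sig * (Real.log A + 1)) := by
  have h1 := rule_test hS (rule S hS hSa) (exp_rpsi_fac (P := P) (X := X) (Y := Y) del w')
    (fun w => Real.exp_pos _)
  rw [← Pr_mul_cnd_E P S hS] at h1
  have h2 := le_of_mul_le_mul_left h1 hS
  have h3 := E_exp_rpsi_le hci hsig rule hA hw' thick hd
  have h4 : (P.cnd S hS).E (fun w => Real.log (Real.exp (rpsi del (rho P X Y w' w)))) =
      (P.cnd S hS).E (fun v => rpsi del (rho P X Y w' v)) :=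
    (P.cnd S hS).E_congr (fun w _ => Real.log_exp _)
  rw [h4] at h2
  linarith

/-- **one-sided rarity** for a fixed value of `X` -/
theorem rare_one (hci : P.CI a X Y) (hsig : 0 < sig)
    (rule : ∀ (S : Om → Prop) (hS : 0 < P.Pr S), Ev a S →
      kl (P.cnd S hS) P Y ≤ sig * (Real.log (1 / P.Pr S) + 1))
    {A : ℝ} (hA : 0 < A) {w' : Om} (hw' : P.p w' ≠ 0)
    (thick : ∀ w, P.p w ≠ 0 → P.ce a (fun v => ind (X v = X w')) w ≤ A * P.m X w')
    {del lam L : ℝ} (hd : 0 < del)
    (hlam : sig * (L + 1) + 2 / del * (sig * (Real.log A + 1)) ≤ lam) :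
    P.Pr (fun w => lam ≤ P.ce a (fun v => rpsi del (rho P X Y w' v)) w) ≤ Real.exp (-L) := by
  set S : Om → Prop := fun w => lam ≤ P.ce a (fun v => rpsi del (rho P X Y w' v)) w with hSd
  have hSa : Ev a S := fun v w hv => by
    show lam ≤ P.ce a _ v ↔ lam ≤ P.ce a _ w
    rw [P.ce_fac a _ v w hv]
  by_contra hcon
  have hlt := not_le.1 hcon
  have hS : 0 < P.Pr S := lt_trans (Real.exp_pos _) hlt
  have h1 := rpsi_on_event hci hsig.le rule hA hw' thick hd hSa hS
  have h2 : lam ≤ (P.cnd S hS).E (fun v => rpsi del (rho P X Y w' v)) :=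
    cnd_E_ge hSa hS (fun w _ hw => hw)
  have h3 : Real.log (1 / P.Pr S) < L := by
    rw [one_div, Real.log_inv]
    have := Real.log_lt_log (Real.exp_pos _) hlt
    rw [Real.log_exp] at this
    linarith
  have h4 := mul_lt_mul_of_pos_left (show Real.log (1 / P.Pr S) + 1 < L + 1 by linarith) hsig
  linarith

end fixed

/-! ## the pair -/

section pair

variable {P : FP Om} {α κ ι : Type*} {a : Om → α} {X : Om → κ} {Y : Om → ι} {sig : ℝ}

/-- mean over the law of `Y` given `X = X w'` and `S` -/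
theorem rule_pt {S : Om → Prop} (hSa : Ev a S) (hS : 0 < P.Pr S) (hci : P.CI a X Y) (hsig : 0 ≤ sig)
    (rule : ∀ (S : Om → Prop) (hS : 0 < P.Pr S), Ev a S →
      kl (P.cnd S hS) P Y ≤ sig * (Real.log (1 / P.Pr S) + 1))
    {A : ℝ} (hA : 0 < A) {w' : Om} (hw' : (P.cnd S hS).p w' ≠ 0)
    (thick : ∀ w, P.p w ≠ 0 → S w →
      P.ce a (fun v => ind (X v = X w')) w ≤ A * (P.cnd S hS).m X w')
    {Φ : Om → ℝ} (hΦ : Fac Y Φ) (h0 : ∀ w, 0 < Φ w) (h1 : 1 ≤ P.E Φ) :
    (P.cnd S hS).E (fun v => ind (X v = X w') * Real.log (Φ v)) / (P.cnd S hS).m X w' ≤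
      sig * (Real.log (A / P.Pr S) + 1) + (P.E Φ - 1) := by
  set Q := P.cnd S hS with hQd
  have hQ : Q.AC P := cnd_ac P S hS
  have hpw' := hQ w' hw'
  have hQm := Q.m_pos X hw'
  set f : Om → ℝ := fun u => ind (X u = X w') with hf
  have hfF : Fac X f := Fac.ind (fun v w hv => by rw [hv])
  set ψ : Om → ℝ := fun w => ind (S w) * P.ce a f w / (P.Pr S * Q.m X w') with hψd
  have hψF : Fac a ψ := fun v w hv => by
    show ind (S v) * P.ce a f v / (P.Pr S * Q.m X w') = ind (S w) * P.ce a f w / (P.Pr S * Q.m X w')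
    rw [P.ce_fac a f v w hv]
    have : ind (S v) = ind (S w) := by rw [show S v = S w from propext (hSa v w hv)]
    rw [this]
  have hden : 0 < P.Pr S * Q.m X w' := mul_pos hS hQm
  have hψ0 : ∀ w, 0 ≤ ψ w := fun w =>
    div_nonneg (mul_nonneg (ind_nonneg _) (P.ce_nonneg (fun v _ => ind_nonneg _) w)) hden.le
  have hψM : ∀ w, P.p w ≠ 0 → ψ w ≤ A / P.Pr S := by
    intro w hw
    show ind (S w) * P.ce a f w / (P.Pr S * Q.m X w') ≤ A / P.Pr S
    rw [div_le_div_iff₀ hden hS]
    by_cases h : S w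
    · rw [ind_of h, one_mul]
      have := thick w hw h
      calc P.ce a f w * P.Pr S ≤ A * Q.m X w' * P.Pr S := mul_le_mul_of_nonneg_right this hS.le
        _ = A * (P.Pr S * Q.m X w') := by ring
    · rw [ind_not h, zero_mul, zero_mul]
      positivity
  have hSf : P.E (fun w => ind (S w) * f w) = P.Pr S * Q.m X w' := by
    rw [← Pr_mul_cnd_E P S hS f]; rfl
  have hψ1 : P.E ψ = 1 := by
    show P.E (fun w => ind (S w) * P.ce a f w / (P.Pr S * Q.m X w')) = 1
    rw [FP.E_div_const, P.E_mul_ce (Fac.ind hSa) f, hSf, div_self hden.ne']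
  have hchange : ∀ g : Om → ℝ, Fac Y g →
      Q.E (fun v => ind (X v = X w') * g v) / Q.m X w' = P.E (fun w => ψ w * g w) := by
    intro g hg
    have h1 : P.Pr S * Q.E (fun v => ind (X v = X w') * g v) =
        P.E (fun w => (ind (S w) * P.ce a f w) * g w) := by
      rw [hQd, Pr_mul_cnd_E, hci.E3 (Fac.ind hSa) hfF hg]
      have h2 : Fac a (fun w => ind (S w) * P.ce a f w) := (Fac.ind hSa).mul (P.ce_fac a f)
      rw [← P.E_mul_ce h2 g]
      exact P.E_congr (fun w _ => by ring)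
    have h3 : P.E (fun w => ψ w * g w) =
        P.E (fun w => (ind (S w) * P.ce a f w) * g w) / (P.Pr S * Q.m X w') := by
      rw [← FP.E_div_const]
      exact P.E_congr (fun w _ => by
        show ind (S w) * P.ce a f w / (P.Pr S * Q.m X w') * g w = _
        ring)
    rw [h3, ← h1]
    field_simp
  have hM : 0 < A / P.Pr S := by positivity
  rw [hchange (fun v => Real.log (Φ v)) (hΦ.comp (fun x => Real.log x))]
  exact rule_dens hsig rule hΦ h0 h1 hψF hψ0 hM hψM hψ1

/-- mean of `rpsi(X, Y)` given `X = X w'` and `S` -/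
theorem rpsi_pair {S : Om → Prop} (hSa : Ev a S) (hS : 0 < P.Pr S) (hci : P.CI a X Y) (hsig : 0 ≤ sig)
    (rule : ∀ (S : Om → Prop) (hS : 0 < P.Pr S), Ev a S →
      kl (P.cnd S hS) P Y ≤ sig * (Real.log (1 / P.Pr S) + 1))
    {A A0 : ℝ} (hA : 0 < A) (hA0 : 0 < A0) {w' : Om} (hw' : (P.cnd S hS).p w' ≠ 0)
    (thick : ∀ w, P.p w ≠ 0 → S w →
      P.ce a (fun v => ind (X v = X w')) w ≤ A * (P.cnd S hS).m X w')
    (thick0 : ∀ w, P.p w ≠ 0 → P.ce a (fun v => ind (X v = X w')) w ≤ A0 * P.m X w')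
    {del : ℝ} (hd : 0 < del) :
    (P.cnd S hS).ce X (fun v => rpsi del (rho P X Y v v)) w' ≤
      sig * (Real.log A + Real.log (1 / P.Pr S) + 1) + 2 / del * (sig * (Real.log A0 + 1)) := by
  have hQ : (P.cnd S hS).AC P := cnd_ac P S hS
  have h1 := rule_pt hSa hS hci hsig rule hA hw' thick
    (exp_rpsi_fac (P := P) (X := X) (Y := Y) del w') (fun w => Real.exp_pos _) (one_le_E_exp_rpsi del w')
  have h2 := E_exp_rpsi_le hci hsig rule hA0 (hQ w' hw') thick0 hd
  have h3 : (P.cnd S hS).ce X (fun v => rpsi del (rho P X Y v v)) w' =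
      (P.cnd S hS).E (fun v => ind (X v = X w') * Real.log (Real.exp (rpsi del (rho P X Y w' v)))) /
        (P.cnd S hS).m X w' := by
    unfold FP.ce
    congr 1
    refine (P.cnd S hS).E_congr (fun v _ => ?_)
    by_cases h : X v = X w'
    · rw [Real.log_exp]
      show ind (X v = X w') * rpsi del (rho P X Y v v) = ind (X v = X w') * rpsi del (rho P X Y w' v)
      rw [rho_congr_left h]
    · rw [ind_not h, zero_mul, zero_mul]
  have h4 : Real.log (A / P.Pr S) = Real.log A + Real.log (1 / P.Pr S) := by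
    rw [← Real.log_mul hA.ne' (by positivity)]
    congr 1
    ring
  rw [h4] at h1
  rw [h3]
  linarith

/-- mean of `rpsi(X, Y)` on an event; the bounds `A`, `A0` may depend on the letter -/
theorem rpsi_pair_E {S : Om → Prop} (hSa : Ev a S) (hS : 0 < P.Pr S) (hci : P.CI a X Y) (hsig : 0 ≤ sig)
    (rule : ∀ (S : Om → Prop) (hS : 0 < P.Pr S), Ev a S →
      kl (P.cnd S hS) P Y ≤ sig * (Real.log (1 / P.Pr S) + 1))
    {A A0 : Om → ℝ} (hA : ∀ w', (P.cnd S hS).p w' ≠ 0 → 0 < A w')
    (hA0 : ∀ w', (P.cnd S hS).p w' ≠ 0 → 0 < A0 w')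
    (thick : ∀ w w', P.p w ≠ 0 → S w → (P.cnd S hS).p w' ≠ 0 →
      P.ce a (fun v => ind (X v = X w')) w ≤ A w' * (P.cnd S hS).m X w')
    (thick0 : ∀ w w', P.p w ≠ 0 → (P.cnd S hS).p w' ≠ 0 →
      P.ce a (fun v => ind (X v = X w')) w ≤ A0 w' * P.m X w')
    {del : ℝ} (hd : 0 < del) :
    (P.cnd S hS).E (fun v => rpsi del (rho P X Y v v)) ≤
      sig * ((P.cnd S hS).E (fun w => Real.log (A w)) + Real.log (1 / P.Pr S) + 1) +
        2 / del * (sig * ((P.cnd S hS).E (fun w => Real.log (A0 w)) + 1)) := by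
  rw [← (P.cnd S hS).E_ce X]
  have h1 : (P.cnd S hS).E ((P.cnd S hS).ce X (fun v => rpsi del (rho P X Y v v))) ≤
      (P.cnd S hS).E (fun w' => sig * (Real.log (A w') + (Real.log (1 / P.Pr S) + 1)) +
        2 / del * (sig * (Real.log (A0 w') + 1))) := by
    refine (P.cnd S hS).E_mono (fun w' hw' => ?_)
    have h := rpsi_pair hSa hS hci hsig rule (hA w' hw') (hA0 w' hw') hw'
      (fun w hw hs => thick w w' hw hs hw') (fun w hw => thick0 w w' hw hw') hd
    linarith
  rw [FP.E_add, FP.E_smul, FP.E_smul, FP.E_smul, FP.E_add, FP.E_const, FP.E_add, FP.E_const] at h1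
  linarith

/-- comparable probabilities of the letters for all `a` give the thickness on every event -/
theorem thick_cnd {A : ℝ} {w' : Om}
    (hcmp : ∀ w w'', P.p w ≠ 0 → P.p w'' ≠ 0 →
      P.ce a (fun v => ind (X v = X w')) w ≤ A * P.ce a (fun v => ind (X v = X w')) w'')
    {S : Om → Prop} (hSa : Ev a S) (hS : 0 < P.Pr S) {w : Om} (hw : P.p w ≠ 0) :
    P.ce a (fun v => ind (X v = X w')) w ≤ A * (P.cnd S hS).m X w' := by
  set f : Om → ℝ := fun u => ind (X u = X w') with hf
  have h1 : P.Pr S * (P.cnd S hS).m X w' = P.E (fun v => ind (S v) * P.ce a f v) := by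
    rw [P.E_mul_ce (Fac.ind hSa) f]
    exact Pr_mul_cnd_E P S hS f
  have h2 : P.ce a f w * P.Pr S ≤ A * (P.Pr S * (P.cnd S hS).m X w') := by
    rw [h1, ← FP.E_smul]
    unfold FP.Pr
    rw [← FP.E_smul]
    refine P.E_mono (fun v hv => ?_)
    have := mul_le_mul_of_nonneg_left (hcmp w v hw hv) (ind_nonneg (S v))
    linarith
  have h3 : P.Pr S * P.ce a f w ≤ P.Pr S * (A * (P.cnd S hS).m X w') := by linarith
  exact le_of_mul_le_mul_left h3 hS

/-- **rarity** for the pair, comparable letters -/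
theorem rare_two (hci : P.CI a X Y) (hsig : 0 < sig)
    (rule : ∀ (S : Om → Prop) (hS : 0 < P.Pr S), Ev a S →
      kl (P.cnd S hS) P Y ≤ sig * (Real.log (1 / P.Pr S) + 1))
    {A : ℝ} (hA : 0 < A)
    (hcmp : ∀ w' w w'', P.p w' ≠ 0 → P.p w ≠ 0 → P.p w'' ≠ 0 →
      P.ce a (fun v => ind (X v = X w')) w ≤ A * P.ce a (fun v => ind (X v = X w')) w'')
    {del lam L : ℝ} (hd : 0 < del)
    (hlam : sig * (Real.log A + L + 1) + 2 / del * (sig * (Real.log A + 1)) ≤ lam) :
    P.Pr (fun w => lam ≤ P.ce a (fun v => rpsi del (rho P X Y v v)) w) ≤ Real.exp (-L) := by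
  set S : Om → Prop := fun w => lam ≤ P.ce a (fun v => rpsi del (rho P X Y v v)) w with hSd
  have hSa : Ev a S := fun v w hv => by
    show lam ≤ P.ce a _ v ↔ lam ≤ P.ce a _ w
    rw [P.ce_fac a _ v w hv]
  by_contra hcon
  have hlt := not_le.1 hcon
  have hS : 0 < P.Pr S := lt_trans (Real.exp_pos _) hlt
  have hQ : (P.cnd S hS).AC P := cnd_ac P S hS
  have h1 := rpsi_pair_E hSa hS hci hsig.le rule (A := fun _ => A) (A0 := fun _ => A)
    (fun _ _ => hA) (fun _ _ => hA)
    (fun w w' hw _ hw' => thick_cnd (fun v v' hv hv' => hcmp w' v v' (hQ w' hw') hv hv') hSa hS hw)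
    (fun w w' hw hw' => by
      -- the whole space
      have h2 : P.m X w' = P.E (fun v => P.ce a (fun u => ind (X u = X w')) v) :=
        (P.E_ce a (fun u => ind (X u = X w'))).symm
      show P.ce a (fun v => ind (X v = X w')) w ≤ A * P.m X w'
      rw [h2, ← FP.E_smul]
      exact P.le_E_const (fun v hv => hcmp w' w v (hQ w' hw') hw hv)) hd
  simp only [FP.E_const] at h1
  have h2 : lam ≤ (P.cnd S hS).E (fun v => rpsi del (rho P X Y v v)) :=
    cnd_E_ge hSa hS (fun w _ hw => hw)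
  have h3 : Real.log (1 / P.Pr S) < L := by
    rw [one_div, Real.log_inv]
    have := Real.log_lt_log (Real.exp_pos _) hlt
    rw [Real.log_exp] at this
    linarith
  have h4 := mul_lt_mul_of_pos_left
    (show Real.log A + Real.log (1 / P.Pr S) + 1 < Real.log A + L + 1 by linarith) hsig
  linarith

end pair

/-! ## Markov over the owners -/

section owner

variable {P : FP Om} {α κ β : Type*}

/-- `bad x w` : relation between values of the letter `X` (through a representative `x`) and points; at most `N`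
letters per owner, each bad set has `P ≤ e`: all but `N e / t` of the points have bad owners of mass at most `t` -/
theorem typ_owner {X : Om → κ} {bo : Om → β} {bad : Om → Om → Prop} {N : ℕ} {e : ℝ} (he : 0 ≤ e)
    (hN : ∀ w', P.p w' ≠ 0 → ∃ I : Finset Om, I.card ≤ N ∧
      (∀ y ∈ I, P.p y ≠ 0) ∧ ∀ x, P.p x ≠ 0 → bo x = bo w' → ∃ y ∈ I, X y = X x)
    (hX : ∀ x y w, X x = X y → bad x w → bad y w)
    (hb : ∀ x, P.p x ≠ 0 → P.Pr (bad x) ≤ e) (t : ℝ) :
    t * P.Pr (fun w => t ≤ P.Pr (fun w' => ∃ x, P.p x ≠ 0 ∧ bo x = bo w' ∧ bad x w)) ≤ N * e := by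
  have h1 := P.markov (f := fun w => P.Pr (fun w' => ∃ x, P.p x ≠ 0 ∧ bo x = bo w' ∧ bad x w))
    (fun w _ => P.Pr_nonneg _) t
  refine h1.trans ?_
  unfold FP.Pr
  rw [FP.E_swap]
  refine P.E_le_const (fun w' hw' => ?_)
  obtain ⟨I, hI, hIp, hIx⟩ := hN w' hw'
  have h2 : P.E (fun w => ind (∃ x, P.p x ≠ 0 ∧ bo x = bo w' ∧ bad x w)) ≤
      P.Pr (fun w => ∃ y ∈ I, bad y w) := by
    refine P.Pr_mono (fun w _ h => ?_)
    obtain ⟨x, hx, hbx, hbad⟩ := h
    obtain ⟨y, hy, hyx⟩ := hIx x hx hbx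
    exact ⟨y, hy, hX x y w hyx.symm hbad⟩
  refine h2.trans ?_
  refine (P.Pr_ex_le I (fun y w => bad y w)).trans ?_
  calc ∑ y ∈ I, P.Pr (fun w => bad y w) ≤ ∑ _y ∈ I, e := Finset.sum_le_sum (fun y hy => hb y (hIp y hy))
    _ = I.card * e := by rw [Finset.sum_const, nsmul_eq_mul]
    _ ≤ N * e := mul_le_mul_of_nonneg_right (by exact_mod_cast hI) he

variable {ι : Type*} {a : Om → α} {X : Om → κ} {Y : Om → ι} {bo : Om → β} {sig : ℝ}

/-- **not typical**: all but `N exp (-L/2)` of the `a` have good owners up to mass `exp (-L/2)` -/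
theorem not_typical (hci : P.CI a X Y) (hsig : 0 < sig)
    (rule : ∀ (S : Om → Prop) (hS : 0 < P.Pr S), Ev a S →
      kl (P.cnd S hS) P Y ≤ sig * (Real.log (1 / P.Pr S) + 1))
    {A : ℝ} (hA : 0 < A)
    (thick : ∀ w w', P.p w ≠ 0 → P.p w' ≠ 0 → P.ce a (fun v => ind (X v = X w')) w ≤ A * P.m X w')
    {N : ℕ} (hN : ∀ w', P.p w' ≠ 0 → ∃ I : Finset Om, I.card ≤ N ∧
      (∀ y ∈ I, P.p y ≠ 0) ∧ ∀ x, P.p x ≠ 0 → bo x = bo w' → ∃ y ∈ I, X y = X x)
    {del lam L : ℝ} (hd : 0 < del)
    (hlam : sig * (L + 1) + 2 / del * (sig * (Real.log A + 1)) ≤ lam) :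
    P.Pr (fun w => Real.exp (-(L / 2)) ≤ P.Pr (fun w' => ∃ x, P.p x ≠ 0 ∧ bo x = bo w' ∧
      lam ≤ P.ce a (fun v => rpsi del (rho P X Y x v)) w)) ≤ N * Real.exp (-(L / 2)) := by
  have h := typ_owner (P := P) (X := X) (bo := bo)
    (bad := fun x w => lam ≤ P.ce a (fun v => rpsi del (rho P X Y x v)) w) (Real.exp_pos (-L)).le hN
    (fun x y w hxy hx => by
      have e : (fun v => rpsi del (rho P X Y y v)) = fun v => rpsi del (rho P X Y x v) := by
        funext v; rw [rho_congr_left hxy]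
      show lam ≤ P.ce a (fun v => rpsi del (rho P X Y y v)) w
      rw [e]; exact hx)
    (fun x hx => rare_one hci hsig rule hA hx (fun w hw => thick w x hw hx) hd hlam) (Real.exp (-(L / 2)))
  have e : (N : ℝ) * Real.exp (-L) = Real.exp (-(L / 2)) * (N * Real.exp (-(L / 2))) := by
    have : Real.exp (-L) = Real.exp (-(L / 2)) * Real.exp (-(L / 2)) := by
      rw [← Real.exp_add]; congr 1; ring
    rw [this]; ring
  rw [e] at h
  exact le_of_mul_le_mul_left h (Real.exp_pos _)

/-- conditional independence: `Y` given `(a, X)` -/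
theorem FP.CI.ce_pair (hci : P.CI a X Y) {g : Om → ℝ} (hg : Fac Y g) {w : Om} (hw : P.p w ≠ 0) :
    P.ce (fun v => (a v, X v)) g w = P.ce a g w := by
  set f : Om → ℝ := fun u => ind (X u = X w) with hf
  have hfF : Fac X f := Fac.ind (fun v w hv => by rw [hv])
  have haF : Fac a (fun v => ind (a v = a w)) := Fac.ind (fun v w hv => by rw [hv])
  have e1 : ∀ v, ind ((a v, X v) = (a w, X w)) = ind (a v = a w) * f v := by
    intro v
    show ind ((a v, X v) = (a w, X w)) = ind (a v = a w) * ind (X v = X w)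
    by_cases h1 : a v = a w
    · by_cases h2 : X v = X w
      · rw [ind_of h1, ind_of h2, ind_of (by rw [h1, h2]), one_mul]
      · rw [ind_not h2, mul_zero, ind_not (fun h => h2 (congrArg Prod.snd h))]
    · rw [ind_not h1, zero_mul, ind_not (fun h => h1 (congrArg Prod.fst h))]
  have key : ∀ c : Om → ℝ, Fac a c → P.E (fun v => ind (a v = a w) * c v) = P.m a w * c w := by
    intro c hc
    have : P.E (fun v => ind (a v = a w) * c v) = P.E (fun v => ind (a v = a w) * c w) := by
      refine P.E_congr (fun v _ => ?_)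
      by_cases h : a v = a w
      · rw [hc v w h]
      · rw [ind_not h, zero_mul, zero_mul]
    rw [this, FP.E_mul_const]
    rfl
  have hnum : P.E (fun v => ind ((a v, X v) = (a w, X w)) * g v) = P.m a w * (P.ce a f w * P.ce a g w) := by
    have : P.E (fun v => ind ((a v, X v) = (a w, X w)) * g v) =
        P.E (fun v => ind (a v = a w) * (f v * g v)) :=
      P.E_congr (fun v _ => by rw [e1 v]; ring)
    rw [this, hci.E3 haF hfF hg]
    exact key _ ((P.ce_fac a f).mul (P.ce_fac a g))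
  have hden : P.m (fun v => (a v, X v)) w = P.m a w * P.ce a f w := by
    show P.E (fun v => ind ((a v, X v) = (a w, X w))) = _
    have : P.E (fun v => ind ((a v, X v) = (a w, X w))) = P.E (fun v => ind (a v = a w) * f v) :=
      P.E_congr (fun v _ => e1 v)
    rw [this, ← P.E_mul_ce haF f]
    exact key _ (P.ce_fac a f)
  have hpos : 0 < P.m (fun v => (a v, X v)) w := P.m_pos _ hw
  show P.E (fun v => ind ((a v, X v) = (a w, X w)) * g v) / P.m (fun v => (a v, X v)) w = _
  rw [hnum, div_eq_iff hpos.ne', hden]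
  ring

theorem ce_le_of_class {f : Om → ℝ} {c : ℝ} {Z : Om → κ} {w : Om} (hw : P.p w ≠ 0)
    (h : ∀ v, P.p v ≠ 0 → Z v = Z w → f v ≤ c) : P.ce Z f w ≤ c := by
  unfold FP.ce
  rw [div_le_iff₀ (P.m_pos Z hw)]
  unfold FP.m
  rw [← FP.E_smul]
  refine P.E_mono (fun v hv => ?_)
  by_cases hz : Z v = Z w
  · rw [ind_of hz, one_mul, mul_one]; exact h v hv hz
  · rw [ind_not hz, zero_mul, mul_zero]

/-- if all letters of the owner of `w` are good for `a w` then the mean of `rpsi(X, Y)` given `(a, owner)` is small -/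
theorem rpsi_owner (hci : P.CI a X Y) (hbo : Fac X bo) {del lam : ℝ} {w : Om} (hw : P.p w ≠ 0)
    (h : ∀ x, P.p x ≠ 0 → bo x = bo w → P.ce a (fun v => rpsi del (rho P X Y x v)) w ≤ lam) :
    P.ce (fun v => (a v, bo v)) (fun v => rpsi del (rho P X Y v v)) w ≤ lam := by
  have hF : Fac (fun v => (a v, X v)) (fun v => (a v, bo v)) := fun v w hv => by
    have h1 : a v = a w := congrArg Prod.fst hv
    have h2 : X v = X w := congrArg Prod.snd hv
    show (a v, bo v) = (a w, bo w)
    rw [h1, hbo v w h2]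
  rw [← P.ce_tower hF]
  refine ce_le_of_class hw (fun v hv hz => ?_)
  have h1 : a v = a w := congrArg Prod.fst hz
  have h2 : bo v = bo w := congrArg Prod.snd hz
  have h3 : P.ce (fun v => (a v, X v)) (fun v => rpsi del (rho P X Y v v)) v =
      P.ce (fun v => (a v, X v)) (fun u => rpsi del (rho P X Y v u)) v := by
    unfold FP.ce
    congr 1
    refine P.E_congr (fun u _ => ?_)
    by_cases hu : (a u, X u) = (a v, X v)
    · have : X u = X v := congrArg Prod.snd hu
      show _ * rpsi del (rho P X Y u u) = _ * rpsi del (rho P X Y v u)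
      rw [rho_congr_left this]
    · rw [ind_not hu, zero_mul, zero_mul]
  rw [h3, hci.ce_pair ((rho_fac v).comp (fun x => rpsi del x)) hv, P.ce_fac a _ v w h1]
  exact h v hv h2

end owner

end Pool.Agent.M3
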