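import Pool.Agent.M3.NVTr
import Pool.Agent.M3.S2.InpL

/-!
# M3.RawM : the process of section 2B for the families of `NVThm` (helper52)

**`rawM`** : for large `n` there is `z` with the facts of `inpL` such that for all families as in `NVThm` (hidden vertex `i`,
structured face `s`, residual face `r`) and all thresholds `al`, `be`, and all large `M'` there is a process `S` (labels of
any type) with `RawR i r s (h2 z) (fine R) S ix dK M' ..`.
-/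

set_option autoImplicit false
set_option linter.unusedSectionVars false

namespace Pool.Agent.M3.Mod

open Finset Pool.Agent.PWZ Pool.Agent.M3.Bin Pool.Agent.M3.S2

noncomputable section

theorem rawM (L : Lay) (C0 Cp : ℕ) : ∃ C n0 : ℕ, ∀ n ≥ n0, ∃ z : ℕ,
    2 * n ^ C0 + 3 ≤ z ∧ (n : ℝ) ^ Cp ≤ 2 ^ z ∧ L.lh (n + 1) ≤ z ∧ n ≤ z ∧ z ≤ n ^ C ∧
    ∀ (k N : ℕ), N ≤ k → ∀ (F : Fin 3 → Unit × V k → Unit × V k → V k → ℝ), (∀ i b c d, |F i b c d| ≤ 1) →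
    ∀ (i s r : Fin 3), s ≠ i → r ≠ i → r ≠ s → ∀ R : Fin 3 → Fam2 k Unit, R s = Dl N L F n s →
      (R r = fine (L.lh n) (Rl N L F n r) ∨ R r = Rl N L F (n + 1) r) →
      (∀ e g x y d, |R i e g x y d| ≤ 2) →
      (∀ ω : Sp k N 3 Unit Unit, ∑ t ∈ range N, ind (chE (L.lh (n + 1)) i (R i) t ω) ≤ (n : ℝ) ^ Cp) →
    ∀ (al be : ℝ) (M' : ℕ), 0 < al → 0 < be → al ≤ be ^ 2 → be ≤ 1 → 2 * 2 ^ (2 ^ (931 * z + 931)) ≤ M' →
    ∃ (Ξ : Type) (_ : Fintype Ξ) (_ : Nonempty Ξ) (E F' G' : Type) (S : RTa k N Unit Ξ i E F' G')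
      (ix : ℕ → Sp k N 3 Unit Ξ → Bool) (dK : E × F' × G' × Unit → ℕ → Sp k N 3 Unit Ξ → ℝ),
      RawR i r s (Num.h2 z) (fun a => fine (L.lh (n + 1)) (R a)) S ix dK M' ((n : ℝ) ^ Cp)
        (4 * 2 ^ (931 * z + 931) + 1) ((1 / 2) ^ z + (1 / 2) ^ (2 * n ^ C0 + 3)) (2 * (1 / 2) ^ z) ∧
      S.al = al ∧ S.be = be ∧ S.Lam = 4 * 2 ^ (931 * z + 931) ∧ S.eta = 4 * (1 / 2) ^ z := by
  obtain ⟨C, n0, hC⟩ := inpL L C0 Cp
  refine ⟨C, n0 + 1, fun n hn => ?_⟩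
  obtain ⟨z, h1, h2, h3, h4, h5, h6⟩ := hC n (by omega)
  refine ⟨z, h1, h2, h3, h4, h5, ?_⟩
  intro k N hN F hF i s r hsi hri hrs R hRs hRr hRi hp al be M' al0 be0 ab be1 hM'
  obtain ⟨S, iS, dS, hS⟩ := h6 k N hN F hF i r s hri hsi hrs.symm R hRs hRr hRi hp
  obtain ⟨I, hI, hG, hb⟩ := hS (Fintype.card S + 1)
  obtain ⟨O⟩ := out_tri (k := k) (N := N) (Θ := Unit) (Q := Unit) hri hsi hrs.symm hN z I hI (Nat.succ_pos _)
    (Nat.le_succ _)
  have hn1 : 1 ≤ n ^ C0 := Nat.one_le_pow _ _ (by omega)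
  have hz4 : 4 ≤ z := by omega
  have hz : (2 : ℝ) ^ 4 ≤ 2 ^ z := pow_le_pow_right₀ (by norm_num) hz4
  have heps : (0 : ℝ) ≤ (1 / 2) ^ z := by positivity
  have heta : (4 : ℝ) * (1 / 2) ^ z < 1 / 2 := by
    have h7 : (1 / 2 : ℝ) ^ z ≤ (1 / 2) ^ 4 := pow_le_pow_of_le_one (by norm_num) (by norm_num) hz4
    have h8 : (1 / 2 : ℝ) ^ 4 = 1 / 16 := by norm_num
    linarith
  have h12 : Num.h1 z ≤ Num.h2 z := h1_le_h2 z
  have h02 : L.lh (n + 1) ≤ Num.h2 z := by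
    have : z ≤ Num.h1 z := by unfold Num.h1; omega
    exact h3.trans (this.trans h12)
  have hR : ∀ a e g x y d, |R a e g x y d| ≤ 2 := by
    intro a e g x y d
    rcases fin3_cover3 hri hsi hrs.symm a with ha | ha | ha
    · rw [ha]
      exact hRi e g x y d
    · rw [ha]
      rcases hRr with h7 | h7
      · rw [h7]
        have h8 := abs_Rl (N := N) L hF n r e (coar (L.lh n) e g) x y d
        show |Rl N L F n r e (coar (L.lh n) e g) x y d| ≤ 2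
        linarith
      · rw [h7]
        have h8 := abs_Rl (N := N) L hF (n + 1) r e g x y d
        linarith
    · rw [ha, hRs]
      exact abs_Dl (N := N) L n s e g x y d
  have hM2 : (n : ℝ) ^ Cp + 1 ≤ M' := by
    have h7 : z ≤ 2 ^ (931 * z + 931) := (Nat.lt_two_pow_self).le.trans (Nat.pow_le_pow_right (by norm_num) (by omega))
    have h8 : (2 : ℝ) ^ z ≤ 2 ^ (2 ^ (931 * z + 931)) := pow_le_pow_right₀ (by norm_num) h7
    have h9 : (2 : ℝ) * 2 ^ (2 ^ (931 * z + 931)) ≤ M' := by exact_mod_cast hM'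
    have h10 : (1 : ℝ) ≤ 2 ^ (2 ^ (931 * z + 931)) := one_le_pow₀ (by norm_num)
    linarith
  refine ⟨(S → Fin (Fintype.card S + 1)) × Unit, inferInstance, inferInstance, _, _, _, _, _, _,
    rawR_fine h02 h12 I O hG hb heps heta al0 be0 ab be1 hR hp hM' hM2, rfl, rfl, rfl, rfl⟩

end

end Pool.Agent.M3.Mod
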