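import Pool.Agent.M3.FPMart

/-!
# M3.Rd: recorded labels (section 2B of table m3, helper7), definitions

One view, abstract: `Q t` public node (filtration), `A` hidden vertex, `B`, `C` known vertices; true labels `f t` (of the
pair `(A,B)`), `g t` (of `(A,C)`), `u t` (of `A`). INDEX `t` of `bf, bg, bu, pp, pf, pg` = level `t+1`.
* `yf t w` young: `f` has changed since it was last recorded (end of level `t`);
* rule (P) `pp t`: public closing at level `t+1` (one of the three young masses given `Q (t+1)` is `>= al`): everything is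
  recorded; rule (p) `pf t`: private closing of `b` (young mass given `(B, Q (t+1))` is `>= be`), `pg t` the same for `c`;
* `rf, rg, ru` recorded labels, `utd t` = nothing of the triple is young, `Vw t` = the view (records up to `t`).
-/

set_option autoImplicit false
set_option linter.unusedSectionVars false

namespace Pool.Agent.M3

open Finset Pool.Agent.PWZ

/-- data of one view -/
structure RD (Om : Type*) [Fintype Om] (κ : ℕ → Type*) (α β γ F G U : Type*) where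
  P : FP Om
  Q : ∀ t, Om → κ t
  A : Om → α
  B : Om → β
  C : Om → γ
  f : ℕ → Om → F
  g : ℕ → Om → G
  u : ℕ → Om → U
  al : ℝ
  be : ℝ

variable {Om : Type*} [Fintype Om] {κ : ℕ → Type*} {α β γ F G U : Type*}

/-- young before the rules, from young and the change -/
def bb {L : Type*} (x : ℕ → Om → L) (y : Om → Prop) (t : ℕ) (w : Om) : Prop := y w ∨ x (t + 1) w ≠ x t w

namespace RD

noncomputable section

variable (R : RD Om κ α β γ F G U)

/-- the node with both known vertices -/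
def Z (t : ℕ) (w : Om) : β × γ × κ t := (R.B w, R.C w, R.Q t w)

/-- the node with `b` -/
def ZB (t : ℕ) (w : Om) : β × κ t := (R.B w, R.Q t w)

/-- the node with `c` -/
def ZC (t : ℕ) (w : Om) : γ × κ t := (R.C w, R.Q t w)

/-- public closing, from the three events young before the rules -/
def ppo (t : ℕ) (x y z : Om → Prop) (w : Om) : Prop :=
  R.al ≤ R.P.ce (R.Q t) (fun v => ind (x v)) w ∨ R.al ≤ R.P.ce (R.Q t) (fun v => ind (y v)) w ∨
    R.al ≤ R.P.ce (R.Q t) (fun v => ind (z v)) w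

/-- young `(f, g, u)` at the end of level `t` -/
def y : ℕ → (Om → Prop) × (Om → Prop) × (Om → Prop)
  | 0 => (fun _ => False, fun _ => False, fun _ => False)
  | t + 1 =>
    (fun w => bb R.f (y t).1 t w ∧
        ¬ R.ppo (t + 1) (bb R.f (y t).1 t) (bb R.g (y t).2.1 t) (bb R.u (y t).2.2 t) w ∧
        ¬ R.be ≤ R.P.ce (R.ZB (t + 1)) (fun v => ind (bb R.f (y t).1 t v)) w,
      fun w => bb R.g (y t).2.1 t w ∧
        ¬ R.ppo (t + 1) (bb R.f (y t).1 t) (bb R.g (y t).2.1 t) (bb R.u (y t).2.2 t) w ∧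
        ¬ R.be ≤ R.P.ce (R.ZC (t + 1)) (fun v => ind (bb R.g (y t).2.1 t v)) w,
      fun w => bb R.u (y t).2.2 t w ∧
        ¬ R.ppo (t + 1) (bb R.f (y t).1 t) (bb R.g (y t).2.1 t) (bb R.u (y t).2.2 t) w)

def yf (t : ℕ) (w : Om) : Prop := (R.y t).1 w
def yg (t : ℕ) (w : Om) : Prop := (R.y t).2.1 w
def yu (t : ℕ) (w : Om) : Prop := (R.y t).2.2 w

/-- young at level `t+1` before the rules -/
def bf (t : ℕ) (w : Om) : Prop := R.yf t w ∨ R.f (t + 1) w ≠ R.f t w
def bg (t : ℕ) (w : Om) : Prop := R.yg t w ∨ R.g (t + 1) w ≠ R.g t w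
def bu (t : ℕ) (w : Om) : Prop := R.yu t w ∨ R.u (t + 1) w ≠ R.u t w

/-- public closing at level `t+1` -/
def pp (t : ℕ) (w : Om) : Prop := R.ppo (t + 1) (R.bf t) (R.bg t) (R.bu t) w
/-- private closing of `b` at level `t+1` -/
def pf (t : ℕ) (w : Om) : Prop := R.be ≤ R.P.ce (R.ZB (t + 1)) (fun v => ind (R.bf t v)) w
/-- private closing of `c` at level `t+1` -/
def pg (t : ℕ) (w : Om) : Prop := R.be ≤ R.P.ce (R.ZC (t + 1)) (fun v => ind (R.bg t v)) w

theorem yf_succ (t : ℕ) (w : Om) : R.yf (t + 1) w ↔ R.bf t w ∧ ¬ R.pp t w ∧ ¬ R.pf t w := Iff.rfl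
theorem yg_succ (t : ℕ) (w : Om) : R.yg (t + 1) w ↔ R.bg t w ∧ ¬ R.pp t w ∧ ¬ R.pg t w := Iff.rfl
theorem yu_succ (t : ℕ) (w : Om) : R.yu (t + 1) w ↔ R.bu t w ∧ ¬ R.pp t w := Iff.rfl
theorem yf_zero (w : Om) : ¬ R.yf 0 w := fun h => h
theorem yg_zero (w : Om) : ¬ R.yg 0 w := fun h => h
theorem yu_zero (w : Om) : ¬ R.yu 0 w := fun h => h

/-- up to date -/
def utd (t : ℕ) (w : Om) : Prop := ¬ R.yf t w ∧ ¬ R.yg t w ∧ ¬ R.yu t w

theorem utd_zero (w : Om) : R.utd 0 w := ⟨R.yf_zero w, R.yg_zero w, R.yu_zero w⟩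

open Classical in
/-- recorded label of the pair `(a,b)` -/
def rf : ℕ → Om → F
  | 0, w => R.f 0 w
  | t + 1, w => if R.pp t w ∨ R.pf t w then R.f (t + 1) w else rf t w

open Classical in
/-- recorded label of the pair `(a,c)` -/
def rg : ℕ → Om → G
  | 0, w => R.g 0 w
  | t + 1, w => if R.pp t w ∨ R.pg t w then R.g (t + 1) w else rg t w

open Classical in
/-- recorded label of `a` -/
def ru : ℕ → Om → U
  | 0, w => R.u 0 w
  | t + 1, w => if R.pp t w then R.u (t + 1) w else ru t w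

/-- the records up to `t` -/
def Nf (t : ℕ) (w : Om) : Fin (t + 1) → F := fun s => R.rf s.val w
def Ng (t : ℕ) (w : Om) : Fin (t + 1) → G := fun s => R.rg s.val w
def Nu (t : ℕ) (w : Om) : Fin (t + 1) → U := fun s => R.ru s.val w

/-- the view: known vertices, public node, records -/
def Vw (t : ℕ) (w : Om) : (β × γ × κ t) × (Fin (t + 1) → F) × (Fin (t + 1) → G) × (Fin (t + 1) → U) :=
  (R.Z t w, R.Nf t w, R.Ng t w, R.Nu t w)

/-- hypotheses on the view -/
structure Hyp : Prop where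
  filt : Filt R.Q
  ff : ∀ t, Fac (fun w => (R.A w, R.B w, R.Q t w)) (R.f t)
  fg : ∀ t, Fac (fun w => (R.A w, R.C w, R.Q t w)) (R.g t)
  fu : ∀ t, Fac (fun w => (R.A w, R.Q t w)) (R.u t)
  iB : ∀ t (h : Om → ℝ), Fac (fun w => (R.A w, R.C w, R.Q t w)) h → ∀ w, R.P.p w ≠ 0 →
    R.P.ce (R.ZB t) h w = R.P.ce (R.Q t) h w
  iC : ∀ t (h : Om → ℝ), Fac (fun w => (R.A w, R.B w, R.Q t w)) h → ∀ w, R.P.p w ≠ 0 →
    R.P.ce (R.ZC t) h w = R.P.ce (R.Q t) h w
  iBC : ∀ t (h : Om → ℝ), Fac (fun w => (R.A w, R.B w, R.Q t w)) h → ∀ w, R.P.p w ≠ 0 →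
    R.P.ce (R.Z t) h w = R.P.ce (R.ZB t) h w
  iCB : ∀ t (h : Om → ℝ), Fac (fun w => (R.A w, R.C w, R.Q t w)) h → ∀ w, R.P.p w ≠ 0 →
    R.P.ce (R.Z t) h w = R.P.ce (R.ZC t) h w
  dbl : ∀ t (h : Om → ℝ), (∀ w, 0 ≤ h w) → ∀ w, R.P.p w ≠ 0 →
    R.P.ce (R.Z (t + 1)) h w ≤ 2 * R.P.ce (R.Z t) h w
  al0 : 0 < R.al
  be0 : 0 < R.be
  ab : R.al ≤ R.be ^ 2
  be1 : R.be ≤ 1

/-! ## measurability -/

variable {R}

theorem Z_filt (h : R.Hyp) : Filt R.Z := by
  intro t v w hv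
  unfold Z at hv ⊢
  simp only [Prod.mk.injEq] at hv ⊢
  exact ⟨hv.1, hv.2.1, h.filt t v w hv.2.2⟩

theorem Z_fac_ZB (t : ℕ) : Fac (R.Z t) (R.ZB t) := by
  intro v w hv
  unfold Z at hv
  unfold ZB
  simp only [Prod.mk.injEq] at hv ⊢
  exact ⟨hv.1, hv.2.2⟩

theorem Z_fac_ZC (t : ℕ) : Fac (R.Z t) (R.ZC t) := by
  intro v w hv
  unfold Z at hv
  unfold ZC
  simp only [Prod.mk.injEq] at hv ⊢
  exact ⟨hv.2.1, hv.2.2⟩

theorem ZB_fac_Q (t : ℕ) : Fac (R.ZB t) (R.Q t) := by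
  intro v w hv
  unfold ZB at hv
  simp only [Prod.mk.injEq] at hv
  exact hv.2

theorem ZC_fac_Q (t : ℕ) : Fac (R.ZC t) (R.Q t) := by
  intro v w hv
  unfold ZC at hv
  simp only [Prod.mk.injEq] at hv
  exact hv.2

theorem Z_fac_Q (t : ℕ) : Fac (R.Z t) (R.Q t) := (Z_fac_ZB t).trans (ZB_fac_Q t)

theorem pp_iff {t : ℕ} {v w : Om} (h : R.Q (t + 1) v = R.Q (t + 1) w) : R.pp t v ↔ R.pp t w := by
  unfold pp ppo
  rw [R.P.ce_fac (R.Q (t + 1)) _ v w h, R.P.ce_fac (R.Q (t + 1)) _ v w h, R.P.ce_fac (R.Q (t + 1)) _ v w h]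

theorem pf_iff {t : ℕ} {v w : Om} (h : R.ZB (t + 1) v = R.ZB (t + 1) w) : R.pf t v ↔ R.pf t w := by
  unfold pf
  rw [R.P.ce_fac (R.ZB (t + 1)) _ v w h]

theorem pg_iff {t : ℕ} {v w : Om} (h : R.ZC (t + 1) v = R.ZC (t + 1) w) : R.pg t v ↔ R.pg t w := by
  unfold pg
  rw [R.P.ce_fac (R.ZC (t + 1)) _ v w h]

theorem yf_iff (h : R.Hyp) (t : ℕ) : ∀ {v w : Om}, R.A v = R.A w → R.B v = R.B w → R.Q t v = R.Q t w →
    (R.yf t v ↔ R.yf t w) := by
  induction t with
  | zero => intro v w _ _ _; exact Iff.rfl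
  | succ t ih =>
    intro v w hA hB hQ
    have hQ' := h.filt t v w hQ
    rw [yf_succ, yf_succ, pp_iff hQ, pf_iff (R := R) (t := t) (v := v) (w := w) (by unfold ZB; rw [hB, hQ])]
    unfold bf
    rw [ih hA hB hQ', h.ff (t + 1) v w (by simp only [hA, hB, hQ]), h.ff t v w (by simp only [hA, hB, hQ'])]

theorem yg_iff (h : R.Hyp) (t : ℕ) : ∀ {v w : Om}, R.A v = R.A w → R.C v = R.C w → R.Q t v = R.Q t w →
    (R.yg t v ↔ R.yg t w) := by
  induction t with
  | zero => intro v w _ _ _; exact Iff.rfl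
  | succ t ih =>
    intro v w hA hC hQ
    have hQ' := h.filt t v w hQ
    rw [yg_succ, yg_succ, pp_iff hQ, pg_iff (R := R) (t := t) (v := v) (w := w) (by unfold ZC; rw [hC, hQ])]
    unfold bg
    rw [ih hA hC hQ', h.fg (t + 1) v w (by simp only [hA, hC, hQ]), h.fg t v w (by simp only [hA, hC, hQ'])]

theorem yu_iff (h : R.Hyp) (t : ℕ) : ∀ {v w : Om}, R.A v = R.A w → R.Q t v = R.Q t w →
    (R.yu t v ↔ R.yu t w) := by
  induction t with
  | zero => intro v w _ _; exact Iff.rfl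
  | succ t ih =>
    intro v w hA hQ
    have hQ' := h.filt t v w hQ
    rw [yu_succ, yu_succ, pp_iff hQ]
    unfold bu
    rw [ih hA hQ', h.fu (t + 1) v w (by simp only [hA, hQ]), h.fu t v w (by simp only [hA, hQ'])]

theorem bf_iff (h : R.Hyp) {t : ℕ} {v w : Om} (hA : R.A v = R.A w) (hB : R.B v = R.B w)
    (hQ : R.Q (t + 1) v = R.Q (t + 1) w) : R.bf t v ↔ R.bf t w := by
  have hQ' := h.filt t v w hQ
  unfold bf
  rw [yf_iff h t hA hB hQ', h.ff (t + 1) v w (by simp only [hA, hB, hQ]),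
    h.ff t v w (by simp only [hA, hB, hQ'])]

theorem bg_iff (h : R.Hyp) {t : ℕ} {v w : Om} (hA : R.A v = R.A w) (hC : R.C v = R.C w)
    (hQ : R.Q (t + 1) v = R.Q (t + 1) w) : R.bg t v ↔ R.bg t w := by
  have hQ' := h.filt t v w hQ
  unfold bg
  rw [yg_iff h t hA hC hQ', h.fg (t + 1) v w (by simp only [hA, hC, hQ]),
    h.fg t v w (by simp only [hA, hC, hQ'])]

theorem bu_iff (h : R.Hyp) {t : ℕ} {v w : Om} (hA : R.A v = R.A w)
    (hQ : R.Q (t + 1) v = R.Q (t + 1) w) : R.bu t v ↔ R.bu t w := by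
  have hQ' := h.filt t v w hQ
  unfold bu
  rw [yu_iff h t hA hQ', h.fu (t + 1) v w (by simp only [hA, hQ]), h.fu t v w (by simp only [hA, hQ'])]

/-! ## recorded labels -/

theorem rf_utd {t : ℕ} {w : Om} (h : ¬ R.yf t w) : R.rf t w = R.f t w := by
  induction t with
  | zero => rfl
  | succ t ih =>
    rw [yf_succ] at h
    unfold rf
    by_cases hc : R.pp t w ∨ R.pf t w
    · rw [if_pos hc]
    · rw [if_neg hc]
      push Not at hc
      have hb : ¬ R.bf t w := fun hb => h ⟨hb, hc.1, hc.2⟩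
      unfold bf at hb
      push Not at hb
      rw [ih hb.1, hb.2]

theorem rg_utd {t : ℕ} {w : Om} (h : ¬ R.yg t w) : R.rg t w = R.g t w := by
  induction t with
  | zero => rfl
  | succ t ih =>
    rw [yg_succ] at h
    unfold rg
    by_cases hc : R.pp t w ∨ R.pg t w
    · rw [if_pos hc]
    · rw [if_neg hc]
      push Not at hc
      have hb : ¬ R.bg t w := fun hb => h ⟨hb, hc.1, hc.2⟩
      unfold bg at hb
      push Not at hb
      rw [ih hb.1, hb.2]

theorem ru_utd {t : ℕ} {w : Om} (h : ¬ R.yu t w) : R.ru t w = R.u t w := by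
  induction t with
  | zero => rfl
  | succ t ih =>
    rw [yu_succ] at h
    unfold ru
    by_cases hc : R.pp t w
    · rw [if_pos hc]
    · rw [if_neg hc]
      have hb : ¬ R.bu t w := fun hb => h ⟨hb, hc⟩
      unfold bu at hb
      push Not at hb
      rw [ih hb.1, hb.2]

theorem rf_succ_of_not {t : ℕ} {w : Om} (h : ¬ R.pp t w) (h' : ¬ R.pf t w) : R.rf (t + 1) w = R.rf t w := by
  rw [rf, if_neg (by push Not; exact ⟨h, h'⟩)]

theorem rg_succ_of_not {t : ℕ} {w : Om} (h : ¬ R.pp t w) (h' : ¬ R.pg t w) : R.rg (t + 1) w = R.rg t w := by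
  rw [rg, if_neg (by push Not; exact ⟨h, h'⟩)]

theorem ru_succ_of_not {t : ℕ} {w : Om} (h : ¬ R.pp t w) : R.ru (t + 1) w = R.ru t w := by
  rw [ru, if_neg h]

/-- a recorded label changes only at a closing at which it is young -/
theorem rf_ne {t : ℕ} {w : Om} (h : R.rf (t + 1) w ≠ R.rf t w) : (R.pp t w ∨ R.pf t w) ∧ R.bf t w := by
  by_cases hc : R.pp t w ∨ R.pf t w
  · refine ⟨hc, ?_⟩
    by_contra hb
    unfold bf at hb
    push Not at hb
    apply h
    rw [rf, if_pos hc, rf_utd hb.1, hb.2]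
  · push Not at hc
    exact absurd (rf_succ_of_not hc.1 hc.2) h

theorem rg_ne {t : ℕ} {w : Om} (h : R.rg (t + 1) w ≠ R.rg t w) : (R.pp t w ∨ R.pg t w) ∧ R.bg t w := by
  by_cases hc : R.pp t w ∨ R.pg t w
  · refine ⟨hc, ?_⟩
    by_contra hb
    unfold bg at hb
    push Not at hb
    apply h
    rw [rg, if_pos hc, rg_utd hb.1, hb.2]
  · push Not at hc
    exact absurd (rg_succ_of_not hc.1 hc.2) h

theorem ru_ne {t : ℕ} {w : Om} (h : R.ru (t + 1) w ≠ R.ru t w) : R.pp t w ∧ R.bu t w := by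
  by_cases hc : R.pp t w
  · refine ⟨hc, ?_⟩
    by_contra hb
    unfold bu at hb
    push Not at hb
    apply h
    rw [ru, if_pos hc, ru_utd hb.1, hb.2]
  · exact absurd (ru_succ_of_not hc) h

theorem rf_fac (h : R.Hyp) (t : ℕ) : Fac (fun w => (R.A w, R.B w, R.Q t w)) (R.rf t) := by
  induction t with
  | zero => exact h.ff 0
  | succ t ih =>
    intro v w hv
    have hv' := hv
    simp only [Prod.mk.injEq] at hv'
    obtain ⟨hA, hB, hQ⟩ := hv'
    have hQ' := h.filt t v w hQ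
    have h1 : R.pf t v ↔ R.pf t w := pf_iff (by unfold ZB; rw [hB, hQ])
    unfold rf
    by_cases hc : R.pp t w ∨ R.pf t w
    · rw [if_pos hc, if_pos (by rw [pp_iff hQ, h1]; exact hc)]
      exact h.ff (t + 1) v w hv
    · rw [if_neg hc, if_neg (by rw [pp_iff hQ, h1]; exact hc)]
      exact ih v w (by simp only [hA, hB, hQ'])

theorem rg_fac (h : R.Hyp) (t : ℕ) : Fac (fun w => (R.A w, R.C w, R.Q t w)) (R.rg t) := by
  induction t with
  | zero => exact h.fg 0
  | succ t ih =>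
    intro v w hv
    have hv' := hv
    simp only [Prod.mk.injEq] at hv'
    obtain ⟨hA, hC, hQ⟩ := hv'
    have hQ' := h.filt t v w hQ
    have h1 : R.pg t v ↔ R.pg t w := pg_iff (by unfold ZC; rw [hC, hQ])
    unfold rg
    by_cases hc : R.pp t w ∨ R.pg t w
    · rw [if_pos hc, if_pos (by rw [pp_iff hQ, h1]; exact hc)]
      exact h.fg (t + 1) v w hv
    · rw [if_neg hc, if_neg (by rw [pp_iff hQ, h1]; exact hc)]
      exact ih v w (by simp only [hA, hC, hQ'])

theorem ru_fac (h : R.Hyp) (t : ℕ) : Fac (fun w => (R.A w, R.Q t w)) (R.ru t) := by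
  induction t with
  | zero => exact h.fu 0
  | succ t ih =>
    intro v w hv
    have hv' := hv
    simp only [Prod.mk.injEq] at hv'
    obtain ⟨hA, hQ⟩ := hv'
    have hQ' := h.filt t v w hQ
    unfold ru
    by_cases hc : R.pp t w
    · rw [if_pos hc, if_pos (by rw [pp_iff hQ]; exact hc)]
      exact h.fu (t + 1) v w hv
    · rw [if_neg hc, if_neg (by rw [pp_iff hQ]; exact hc)]
      exact ih v w (by simp only [hA, hQ'])

/-! ## the view -/

theorem Vw_filt (h : R.Hyp) : Filt R.Vw := by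
  intro t v w hv
  unfold Vw at hv ⊢
  simp only [Prod.mk.injEq] at hv ⊢
  obtain ⟨h1, h2, h3, h4⟩ := hv
  refine ⟨Z_filt h t v w h1, ?_, ?_, ?_⟩
  · funext s; exact congrFun h2 ⟨s.val, by omega⟩
  · funext s; exact congrFun h3 ⟨s.val, by omega⟩
  · funext s; exact congrFun h4 ⟨s.val, by omega⟩

theorem Vw_fac_Z (t : ℕ) : Fac (R.Vw t) (R.Z t) := by
  intro v w hv
  unfold Vw at hv
  exact (Prod.mk.injEq _ _ _ _ ▸ hv : _ ∧ _).1

theorem Vw_fac_rf (t : ℕ) : Fac (R.Vw t) (R.rf t) := by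
  intro v w hv
  unfold Vw at hv
  simp only [Prod.mk.injEq] at hv
  exact congrFun hv.2.1 ⟨t, by omega⟩

theorem Vw_fac_rg (t : ℕ) : Fac (R.Vw t) (R.rg t) := by
  intro v w hv
  unfold Vw at hv
  simp only [Prod.mk.injEq] at hv
  exact congrFun hv.2.2.1 ⟨t, by omega⟩

theorem Vw_fac_ru (t : ℕ) : Fac (R.Vw t) (R.ru t) := by
  intro v w hv
  unfold Vw at hv
  simp only [Prod.mk.injEq] at hv
  exact congrFun hv.2.2.2 ⟨t, by omega⟩

end

end RD

end Pool.Agent.M3
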