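import Pool.Agent.M3.FPMart

/-!
# M3.RdN: stable numbering of the values of a label along a public path (helper7)

`Y t` public map (filtration), `x t` label of any type. `rvals Y x t w` = values of `x t` at the points of the class of `w`;
`rlst Y x t w` = list of all values up to the time `t` along the path of `w`, in a stable order (new values are
appended): a function of `Y t`; `num` = number of the value in the list, capped at `M`; `ovf` = the list is too long.
* `num_fac`, `rlst_fac`, `rlst_pre` (prefix), `dec_num` (decoding off `ovf`), `num_stay` (no new changes).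
-/

set_option autoImplicit false
set_option linter.unusedSectionVars false

namespace Pool.Agent.M3

open Finset Pool.Agent.PWZ

variable {Om : Type*} [Fintype Om] {ι : ℕ → Type*} {L : Type*}

noncomputable section

open Classical in
/-- the values in the class -/
def rvals (Y : ∀ t, Om → ι t) (x : ℕ → Om → L) (t : ℕ) (w : Om) : Finset L :=
  ((univ : Finset Om).filter fun w' => Y t w' = Y t w).image (x t)

open Classical in
/-- all values up to the time `t`, stable order -/
def rlst (Y : ∀ t, Om → ι t) (x : ℕ → Om → L) : ℕ → Om → List L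
  | 0, w => (rvals Y x 0 w).toList
  | t + 1, w => rlst Y x t w ++ (rvals Y x (t + 1) w \ (rlst Y x t w).toFinset).toList

open Classical in
/-- the number of the value, capped -/
def num (Y : ∀ t, Om → ι t) (x : ℕ → Om → L) (M : ℕ) (t : ℕ) (w : Om) : Fin (M + 1) :=
  ⟨min ((rlst Y x t w).idxOf (x t w)) M, Nat.lt_succ_of_le (min_le_right _ _)⟩

/-- the list is too long -/
def ovf (Y : ∀ t, Om → ι t) (x : ℕ → Om → L) (M : ℕ) (t : ℕ) (w : Om) : Prop := M < (rlst Y x t w).length

/-- the number `i` has a meaning -/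
def mng (Y : ∀ t, Om → ι t) (x : ℕ → Om → L) {M : ℕ} (i : Fin (M + 1)) (t : ℕ) (w : Om) : Prop :=
  (i : ℕ) < (rlst Y x t w).length

/-- decoding -/
def dec (Y : ∀ t, Om → ι t) (x : ℕ → Om → L) {M : ℕ} (i : Fin (M + 1)) (t : ℕ) (w : Om) : L :=
  (rlst Y x t w).getD i (x t w)

end

section

variable {Y : ∀ t, Om → ι t} {x : ℕ → Om → L}

theorem mem_vals {t : ℕ} {w : Om} {l : L} : l ∈ rvals Y x t w ↔ ∃ w', Y t w' = Y t w ∧ x t w' = l := by
  classical
  unfold rvals
  rw [Finset.mem_image]
  constructor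
  · rintro ⟨w', h1, h2⟩
    exact ⟨w', (Finset.mem_filter.1 h1).2, h2⟩
  · rintro ⟨w', h1, h2⟩
    exact ⟨w', Finset.mem_filter.2 ⟨Finset.mem_univ _, h1⟩, h2⟩

theorem rvals_fac (t : ℕ) {v w : Om} (h : Y t v = Y t w) : rvals Y x t v = rvals Y x t w := by
  ext l
  rw [mem_vals, mem_vals, h]

theorem rlst_fac (hY : Filt Y) (t : ℕ) : ∀ {v w : Om}, Y t v = Y t w → rlst Y x t v = rlst Y x t w := by
  induction t with
  | zero => intro v w h; unfold rlst; rw [rvals_fac 0 h]
  | succ t ih => intro v w h; unfold rlst; rw [ih (hY t v w h), rvals_fac (t + 1) h]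

theorem rlst_pre (t : ℕ) (w : Om) : rlst Y x t w <+: rlst Y x (t + 1) w := by
  conv_rhs => unfold rlst
  exact List.prefix_append _ _

theorem rlst_pre_le {s t : ℕ} (h : s ≤ t) (w : Om) : rlst Y x s w <+: rlst Y x t w := by
  induction t, h using Nat.le_induction with
  | base => exact List.prefix_refl _
  | succ t _ ih => exact ih.trans (rlst_pre t w)

theorem rlst_nodup (t : ℕ) (w : Om) : (rlst Y x t w).Nodup := by
  classical
  induction t with
  | zero => unfold rlst; exact Finset.nodup_toList _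
  | succ t ih =>
    unfold rlst
    refine List.Nodup.append ih (Finset.nodup_toList _) ?_
    intro l h1 h2
    rw [Finset.mem_toList, Finset.mem_sdiff, List.mem_toFinset] at h2
    exact h2.2 h1

/-- the members of the list -/
theorem mem_rlst {t : ℕ} {w : Om} {l : L} : l ∈ rlst Y x t w ↔ ∃ s ≤ t, l ∈ rvals Y x s w := by
  classical
  induction t with
  | zero =>
    unfold rlst
    rw [Finset.mem_toList]
    constructor
    · intro h; exact ⟨0, le_rfl, h⟩
    · rintro ⟨s, hs, h⟩
      have : s = 0 := by omega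
      rwa [this] at h
  | succ t ih =>
    unfold rlst
    rw [List.mem_append, ih, Finset.mem_toList, Finset.mem_sdiff, List.mem_toFinset, ih]
    constructor
    · rintro (⟨s, hs, h⟩ | ⟨h, _⟩)
      · exact ⟨s, by omega, h⟩
      · exact ⟨t + 1, le_rfl, h⟩
    · rintro ⟨s, hs, h⟩
      rcases Nat.lt_or_ge t s with h1 | h1
      · have : s = t + 1 := by omega
        rw [this] at h
        by_cases h2 : ∃ s ≤ t, l ∈ rvals Y x s w
        · exact Or.inl h2
        · exact Or.inr ⟨h, h2⟩
      · exact Or.inl ⟨s, h1, h⟩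

theorem mem_rlst_self (t : ℕ) (w : Om) : x t w ∈ rlst Y x t w :=
  mem_rlst.2 ⟨t, le_rfl, mem_vals.2 ⟨w, rfl, rfl⟩⟩

/-- number of values: any finite set which contains all values of the path -/
theorem rlst_length_le {t : ℕ} {w : Om} {s : Finset L} (h : ∀ u ≤ t, ∀ w', Y u w' = Y u w → x u w' ∈ s) :
    (rlst Y x t w).length ≤ s.card := by
  classical
  rw [← List.toFinset_card_of_nodup (rlst_nodup t w)]
  refine Finset.card_le_card fun l hl => ?_
  rw [List.mem_toFinset, mem_rlst] at hl
  obtain ⟨u, hu, hl⟩ := hl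
  obtain ⟨w', h1, h2⟩ := mem_vals.1 hl
  rw [← h2]
  exact h u hu w' h1

theorem rlst_length_mono {s t : ℕ} (h : s ≤ t) (w : Om) : (rlst Y x s w).length ≤ (rlst Y x t w).length :=
  (rlst_pre_le h w).length_le

theorem ovf_inc (M : ℕ) (t : ℕ) (w : Om) (h : ovf Y x M t w) : ovf Y x M (t + 1) w :=
  lt_of_lt_of_le h (rlst_length_mono (Nat.le_succ t) w)

theorem ovf_iff (hY : Filt Y) (M : ℕ) (t : ℕ) {v w : Om} (h : Y t v = Y t w) :
    ovf Y x M t v ↔ ovf Y x M t w := by
  unfold ovf
  rw [rlst_fac hY t h]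

theorem mng_iff (hY : Filt Y) {M : ℕ} (i : Fin (M + 1)) (t : ℕ) {v w : Om} (h : Y t v = Y t w) :
    mng Y x i t v ↔ mng Y x i t w := by
  unfold mng
  rw [rlst_fac hY t h]

theorem mng_inc {M : ℕ} {i : Fin (M + 1)} {t : ℕ} {w : Om} (h : mng Y x i t w) : mng Y x i (t + 1) w :=
  lt_of_lt_of_le h (rlst_length_mono (Nat.le_succ t) w)

theorem getD_pre {l l' : List L} (h : l <+: l') {i : ℕ} (hi : i < l.length) (d d' : L) :
    l'.getD i d = l.getD i d' := by
  obtain ⟨m, rfl⟩ := h
  rw [List.getD_append _ _ _ _ hi, List.getD_eq_getElem _ _ hi, List.getD_eq_getElem _ _ hi]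

theorem dec_fac (hY : Filt Y) {M : ℕ} {i : Fin (M + 1)} {t : ℕ} {v w : Om} (h : Y t v = Y t w)
    (hi : mng Y x i t w) : dec Y x i t v = dec Y x i t w := by
  unfold dec
  unfold mng at hi
  rw [rlst_fac hY t h, List.getD_eq_getElem _ _ hi, List.getD_eq_getElem _ _ hi]

theorem dec_stay {M : ℕ} {i : Fin (M + 1)} {t : ℕ} {w : Om} (hi : mng Y x i t w) :
    dec Y x i (t + 1) w = dec Y x i t w := by
  unfold dec
  exact getD_pre (rlst_pre t w) hi _ _

/-- the decoded value has occurred -/
theorem dec_mem {M : ℕ} {i : Fin (M + 1)} {t : ℕ} {w : Om} (hi : mng Y x i t w) :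
    ∃ s ≤ t, ∃ w', Y s w' = Y s w ∧ x s w' = dec Y x i t w := by
  unfold mng at hi
  have h1 : dec Y x i t w ∈ rlst Y x t w := by
    unfold dec
    rw [List.getD_eq_getElem _ _ hi]
    exact List.getElem_mem hi
  obtain ⟨s, hs, h2⟩ := mem_rlst.1 h1
  obtain ⟨w', h3, h4⟩ := mem_vals.1 h2
  exact ⟨s, hs, w', h3, h4⟩

theorem num_val {M t : ℕ} {w : Om} (h : ¬ ovf Y x M t w) [DecidableEq L] :
    (num Y x M t w : ℕ) = (rlst Y x t w).idxOf (x t w) := by
  classical
  have h1 : (rlst Y x t w).idxOf (x t w) < (rlst Y x t w).length := List.idxOf_lt_length_iff.2 (mem_rlst_self t w)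
  unfold ovf at h
  unfold num
  simp only
  have h2 : (rlst Y x t w).idxOf (x t w) ≤ M := by omega
  have h3 : ∀ d1 d2 : DecidableEq L, @List.idxOf L (@instBEqOfDecidableEq L d1) (x t w) (rlst Y x t w) =
      @List.idxOf L (@instBEqOfDecidableEq L d2) (x t w) (rlst Y x t w) := fun d1 d2 => by
    rw [Subsingleton.elim d1 d2]
  rw [min_eq_left]
  · exact h3 _ _
  · exact le_of_eq_of_le (h3 _ _) h2

theorem num_mng {M t : ℕ} {w : Om} (h : ¬ ovf Y x M t w) : mng Y x (num Y x M t w) t w := by
  classical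
  unfold mng
  rw [num_val h]
  exact List.idxOf_lt_length_iff.2 (mem_rlst_self t w)

/-- decoding off `ovf` -/
theorem dec_num {M t : ℕ} {w : Om} (h : ¬ ovf Y x M t w) : dec Y x (num Y x M t w) t w = x t w := by
  classical
  have h1 := num_mng h
  unfold mng at h1
  unfold dec
  rw [List.getD_eq_getElem _ _ h1]
  have h2 : (rlst Y x t w)[(rlst Y x t w).idxOf (x t w)]'(List.idxOf_lt_length_iff.2 (mem_rlst_self t w)) = x t w :=
    List.getElem_idxOf _
  conv_rhs => rw [← h2]
  congr 1
  exact num_val h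

/-- the number does not change if the value does not change -/
theorem num_stay {M t : ℕ} {w : Om} (h : x (t + 1) w = x t w) : num Y x M (t + 1) w = num Y x M t w := by
  classical
  unfold num
  refine Fin.ext ?_
  simp only
  congr 1
  rw [h]
  have h1 := mem_rlst_self (Y := Y) (x := x) t w
  obtain ⟨m, hm⟩ := rlst_pre (Y := Y) (x := x) t w
  rw [← hm, List.idxOf_append_of_mem h1]

/-- the number is a function of the value and the public map -/
theorem num_fac (hY : Filt Y) {κ : Type*} {Z : Om → κ} {t : ℕ} (hZ : Fac Z (Y t)) (hx : Fac Z (x t)) (M : ℕ) :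
    Fac Z (num Y x M t) := by
  intro v w hv
  refine Fin.ext ?_
  unfold num
  simp only
  rw [rlst_fac hY t (hZ v w hv), hx v w hv]

end

end Pool.Agent.M3
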