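import Pool.Agent.M3.S2.Out
import Pool.Agent.M3.S2.PubM
import Pool.Agent.M3.RdNum
import Pool.Agent.M3.RdO
import Pool.Agent.M3.RdHyp

/-!
# M3.RdOut : from the output of section 2 (`S2.Out`) to the hypotheses of section 2B (`RT.HypR`) (helper52)

* `S2.xl`, `S2.pl`, `S2.xo` : extended label (value at the option, flip bit), plain label, number of the true option, of a
  label in natural form `x t g K`; `xl_fac`, `pl_eq`, `pl_stay`, `xo_fac`, `xl_count_ab`, `xl_count_ac`, `xl_len`.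
* `Mod.outRT O c Tp al be` : THE RT INSTANCE in the model (process `Tp`, factor `c`), `outRT_hyp : HypR`;
* `outRT_D0`, `outRT_chf`, `outRT_chg`, `outRT_ovf_e`, **`outRT_ovf`** : errors, changes, overflow of the lists.
-/

set_option autoImplicit false
set_option linter.unusedSectionVars false

namespace Pool.Agent.M3.S2

open Finset Pool.Agent.PWZ Pool.Agent.M3.TS

noncomputable section

variable {Om Ξ A B C V Γ κ : Type} [Fintype Om] [Fintype Ξ] [Fintype A] [Fintype B]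
    [Fintype C] [Fintype V] {υ : ℕ → Type}

/-- value at the option `i` (stable order), flip bit -/
def xl (T : Tri Om Ξ A B C V Γ κ) (Q : ∀ t, Om → υ t) (dg : Γ) {𝒦 L : Type} (K : Om → 𝒦) (x : ℕ → Γ → 𝒦 → L)
    (t : ℕ) (w : Om) (i : Bool) : L × Bool :=
  (cpt i (ext T.par (opA Q T.gm dg) (opB Q T.gm dg) x K t w), fb T.par (opA Q T.gm dg) (opB Q T.gm dg) x K t w)

/-- the label at the true node, flip bit -/
def pl (T : Tri Om Ξ A B C V Γ κ) (Q : ∀ t, Om → υ t) (dg : Γ) {𝒦 L : Type} (K : Om → 𝒦) (x : ℕ → Γ → 𝒦 → L)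
    (t : ℕ) (w : Om) : L × Bool :=
  (x t (T.gm t w) (K w), fb T.par (opA Q T.gm dg) (opB Q T.gm dg) x K t w)

/-- number of the true option -/
def xo (T : Tri Om Ξ A B C V Γ κ) (Q : ∀ t, Om → υ t) (dg : Γ) (t : ℕ) (w : Om) : Bool :=
  ix T.par T.gm (opA Q T.gm dg) (opB Q T.gm dg) t w

variable {T : Tri Om Ξ A B C V Γ κ} {Q : ∀ t, Om → υ t} {dg : Γ} {𝒦 L : Type} {K : Om → 𝒦} {x : ℕ → Γ → 𝒦 → L}

theorem OPT_eq' (t : ℕ) (w : Om) : M3.OPT Q T.gm t w = T.OPT Q t w := by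
  ext g
  rw [M3.mem_OPT, Tri.mem_OPT]

section H

variable (hP : Pubn T Q)
include hP

theorem Pubn.opt2 : Opts Q T.par T.gm (opA Q T.gm dg) (opB Q T.gm dg) :=
  opts_of_card hP.filt T.par_gm (fun t w => by rw [OPT_eq']; exact hP.two t w) dg

theorem xl_fac (t : ℕ) : Fac (fun w => (K w, Q t w)) (xl T Q dg K x t) := by
  intro v w hv
  have h1 := ext_fac (hP.opt2 (dg := dg)) (x := x) (K := K) t v w hv
  funext i
  unfold xl
  rw [h1]
  exact Prod.ext rfl (congrArg (fun v => v.2.2) h1)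

theorem xo_fac {ι : Type*} {Y : Om → ι} {t : ℕ} (h1 : Fac Y (Q t)) (h2 : Fac Y (T.gm t)) :
    Fac Y (xo T Q dg t) := ix_fac (hP.opt2 (dg := dg)) h1 h2

/-- the plain label is the component of the true option -/
theorem pl_eq (t : ℕ) (w : Om) : pl T Q dg K x t w = xl T Q dg K x t w (xo T Q dg t w) :=
  Prod.ext (plain_eq (hP.opt2 (dg := dg)) (x := x) (K := K) t w) rfl

theorem xl_ext {t : ℕ} {w : Om} (h : xl T Q dg K x (t + 1) w = xl T Q dg K x t w) :
    ext T.par (opA Q T.gm dg) (opB Q T.gm dg) x K (t + 1) w =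
      ext T.par (opA Q T.gm dg) (opB Q T.gm dg) x K t w := by
  have h1 := congrFun h true
  have h2 := congrFun h false
  unfold xl at h1 h2
  rw [Prod.ext_iff] at h1 h2
  obtain ⟨a1, a2⟩ := h1
  obtain ⟨b1, -⟩ := h2
  exact Prod.ext a1 (Prod.ext b1 a2)

/-- the plain label changes only if the extended label changes -/
theorem pl_stay {t : ℕ} {w : Om} (h : xl T Q dg K x (t + 1) w = xl T Q dg K x t w) :
    pl T Q dg K x (t + 1) w = pl T Q dg K x t w := by
  have h1 := xl_ext hP h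
  have h2 := cmp (hP.opt2 (dg := dg)) h1
  unfold pln at h2
  exact Prod.ext h2 (congrArg (fun v => v.2.2) h1)

/-- number of changes, from the option count -/
theorem xl_count (n : ℕ)
    (hcount : ∀ t < n, T.P.E (fun w => ∑ g ∈ T.OPT Q (t + 1) w, ind (x (t + 1) g (K w) ≠ x t (T.par t g) (K w))) ≤
      2 * T.P.E (fun w => ind (x (t + 1) (T.gm (t + 1) w) (K w) ≠ x t (T.par t (T.gm (t + 1) w)) (K w)))) :
    ∑ t ∈ range n, T.P.Pr (fun w => xl T Q dg K x (t + 1) w ≠ xl T Q dg K x t w) ≤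
      4 * ∑ t ∈ range n, T.P.Pr (fun w => x (t + 1) (T.gm (t + 1) w) (K w) ≠ x t (T.gm t w) (K w)) + 1 := by
  have h1 := E_ext_count (x := x) (K := K) T.P hP.filt T.par_gm
    (fun t w => by rw [OPT_eq']; exact hP.two t w) dg n (fun t ht => by
      have h2 := hcount t ht
      simp only [OPT_eq']
      exact h2)
  refine le_trans (Finset.sum_le_sum fun t _ => T.P.Pr_mono fun w _ h => ?_) h1
  intro h2
  refine h (funext fun i => ?_)
  unfold xl
  rw [h2]
  exact Prod.ext rfl (congrArg (fun v => v.2.2) h2)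

/-- the component is the value at a realised option -/
theorem xl_opt (t : ℕ) (w : Om) (i : Bool) : ∃ g ∈ T.OPT Q t w, (xl T Q dg K x t w i).1 = x t g (K w) := by
  have hs : ∀ g, g ∈ M3.OPT Q T.gm t w ↔ g = opA Q T.gm dg t w ∨ g = opB Q T.gm dg t w := fun g =>
    en_spec ⟨_, gm_OPT t w⟩ (by rw [OPT_eq']; exact hP.two t w) dg g
  have hA : opA Q T.gm dg t w ∈ T.OPT Q t w := by rw [← OPT_eq']; exact (hs _).2 (Or.inl rfl)
  have hB : opB Q T.gm dg t w ∈ T.OPT Q t w := by rw [← OPT_eq']; exact (hs _).2 (Or.inr rfl)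
  have hst : (st T.par (opA Q T.gm dg) (opB Q T.gm dg) t w).1 ∈ T.OPT Q t w ∧
      (st T.par (opA Q T.gm dg) (opB Q T.gm dg) t w).2 ∈ T.OPT Q t w := by
    rcases st_or (par := T.par) (o0 := opA Q T.gm dg) (o1 := opB Q T.gm dg) t w with h | h <;> rw [h]
    · exact ⟨hA, hB⟩
    · exact ⟨hB, hA⟩
  cases i with
  | true => exact ⟨_, hst.1, rfl⟩
  | false => exact ⟨_, hst.2, rfl⟩

/-- **number of values of the extended label** along a public path -/
theorem xl_len {ι : ℕ → Type*} {Y : ∀ t, Om → ι t} (hY : ∀ t v w, Y t v = Y t w → Q t v = Q t w) {n : ℕ} {w0 : Om}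
    {f : Finset L} (hf : ∀ t ≤ n, ∀ o ∈ T.OPT Q t w0, ∀ w, Y t w = Y t w0 → x t o (K w) ∈ f) :
    (rlst (tw Y) (cp (xl T Q dg K x)) n (w0, false)).length ≤ 2 * f.card := by
  classical
  have h1 : (f ×ˢ (univ : Finset Bool)).card = 2 * f.card := by
    rw [Finset.card_product, Finset.card_univ, Fintype.card_bool, mul_comm]
  rw [← h1]
  refine rlst_length_le fun t ht p hp => ?_
  obtain ⟨w', i⟩ := p
  refine Finset.mem_product.2 ⟨?_, Finset.mem_univ _⟩
  obtain ⟨g, hg, hv⟩ := xl_opt (dg := dg) (K := K) (x := x) hP t w' i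
  show (xl T Q dg K x t w' i).1 ∈ f
  rw [hv]
  rw [Pubn.opt_fac (hY t w' w0 hp)] at hg
  exact hf t ht g hg w' hp

end H

theorem xl_count_ab (hP : Pubn T Q) {x : ℕ → Γ → Ξ × A × B → L} (n : ℕ) :
    ∑ t ∈ range n, T.P.Pr (fun w => xl T Q dg (fun w => (T.xi w, T.a w, T.b w)) x (t + 1) w ≠
        xl T Q dg (fun w => (T.xi w, T.a w, T.b w)) x t w) ≤
      4 * ∑ t ∈ range n, T.P.Pr (fun w => x (t + 1) (T.gm (t + 1) w) (T.xi w, T.a w, T.b w) ≠
        x t (T.gm t w) (T.xi w, T.a w, T.b w)) + 1 := by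
  refine xl_count hP n fun t _ => ?_
  exact hP.E_opt_ab (t + 1) (fun y a b g => ind (x (t + 1) g (y, a, b) ≠ x t (T.par t g) (y, a, b)))
    (fun _ _ _ _ => ind_nonneg _)

theorem xl_count_ac (hP : Pubn T Q) {x : ℕ → Γ → Ξ × A × C → L} (n : ℕ) :
    ∑ t ∈ range n, T.P.Pr (fun w => xl T Q dg (fun w => (T.xi w, T.a w, T.c w)) x (t + 1) w ≠
        xl T Q dg (fun w => (T.xi w, T.a w, T.c w)) x t w) ≤
      4 * ∑ t ∈ range n, T.P.Pr (fun w => x (t + 1) (T.gm (t + 1) w) (T.xi w, T.a w, T.c w) ≠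
        x t (T.gm t w) (T.xi w, T.a w, T.c w)) + 1 := by
  refine xl_count hP n fun t _ => ?_
  exact hP.E_opt_ac (t + 1) (fun y a b g => ind (x (t + 1) g (y, a, b) ≠ x t (T.par t g) (y, a, b)))
    (fun _ _ _ _ => ind_nonneg _)

end

end Pool.Agent.M3.S2

/-! ### the list of values of a label which is known -/

namespace Pool.Agent.M3

open Finset Pool.Agent.PWZ

section lst

variable {Om : Type*} [Fintype Om] {ι : ℕ → Type*} {L : Type*} {Y : ∀ t, Om → ι t} {x : ℕ → Om → L}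

/-- a label which is a function of the class: at most `1 +` (number of changes) values -/
theorem rlst_len_fac (hx : ∀ t, Fac (Y t) (x t)) (n : ℕ) (w : Om) :
    ((rlst Y x n w).length : ℝ) ≤ 1 + ∑ t ∈ range n, ind (x (t + 1) w ≠ x t w) := by
  classical
  have hv : ∀ t, rvals Y x t w = {x t w} := by
    intro t
    ext y
    rw [mem_vals, Finset.mem_singleton]
    constructor
    · rintro ⟨w', h1, rfl⟩
      exact hx t w' w h1
    · rintro rfl
      exact ⟨w, rfl, rfl⟩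
  induction n with
  | zero =>
    unfold rlst
    rw [hv 0, Finset.toList_singleton]
    simp
  | succ n ih =>
    rw [Finset.sum_range_succ]
    unfold rlst
    rw [List.length_append, Finset.length_toList, hv (n + 1)]
    by_cases h : x (n + 1) w = x n w
    · have h1 : ({x (n + 1) w} : Finset L) \ (rlst Y x n w).toFinset = ∅ := by
        rw [Finset.sdiff_eq_empty_iff_subset, h]
        intro y hy
        rw [Finset.mem_singleton] at hy
        rw [hy, List.mem_toFinset]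
        exact mem_rlst_self n w
      rw [h1, Finset.card_empty, add_zero, ind_not (fun h2 => h2 h), add_zero]
      exact ih
    · have h1 : (({x (n + 1) w} : Finset L) \ (rlst Y x n w).toFinset).card ≤ 1 :=
        (Finset.card_le_card Finset.sdiff_subset).trans (by simp)
      rw [ind_of h]
      push_cast
      have h2 : ((({x (n + 1) w} : Finset L) \ (rlst Y x n w).toFinset).card : ℝ) ≤ 1 := by exact_mod_cast h1
      linarith

end lst

namespace Mod

open Pool.Agent.M3.Bin Pool.Agent.M3.TS Pool.Agent.M3.S2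

noncomputable section

variable {k N : ℕ} {Θ Ξ Q' : Type} [Fintype Θ] [Nonempty Θ] [Fintype Ξ] [Nonempty Ξ] [Fintype Q'] [Nonempty Q']
  {i j l : Fin 3} {hij : j ≠ i} {hli : l ≠ i} {hlj : l ≠ j} {hN : N ≤ k} {h : ℕ}
  {TT : ℕ → Sp k N 3 Θ (Ξ × Q') → ℝ} {E : ℕ → Θ × (V k × ℕ) → Q' × V k → Q' × V k → V k → ℝ} {eps q Lam J : ℝ} {M : ℕ}

/-- the coordinates of the pair `(i, j)` -/
def kp (i j : Fin 3) (w : Sp k N 3 Θ (Ξ × Q')) : Ξ × (Q' × V k) × (Q' × V k) := (xq i w, vq i w, vq j w)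

/-- a node -/
def dg0 (k : ℕ) (Θ : Type) [Nonempty Θ] : Θ × (V k × ℕ) := (Classical.arbitrary Θ, (0, 0))

/-- **the data of section 2B from the output of section 2** : process `TZ`, factor `c` -/
def outRT (O : S2.Out (tri Θ Ξ Q' hij hli hlj hN h) (fun t => Qn i h (ex N t)) TT E eps q Lam J M) (c : ℝ)
    (Tp : ℕ → Sp k N 3 Θ (Ξ × Q') → ℝ) (al be : ℝ) :
    RT (Sp k N 3 Θ (Ξ × Q')) (fun _ => Θ × (V k × ℕ) × ({a : Fin 3 // a ≠ i} → V k)) ((Ξ × Q') × V k)
      ((Ξ × Q') × V k) ((Ξ × Q') × V k) (Bool → O.F' × Bool) (Bool → O.G' × Bool) (Bool → Unit)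
      ((Q' × V k) × (V k → ℝ)) (O.F' × Bool) (O.G' × Bool) Unit where
  toRD := mdl i j l h
    (xl (tri Θ Ξ Q' hij hli hlj hN h) (fun t => Qn i h (ex N t)) (dg0 k Θ) (kp i j) (fun t => O.f (min t N)))
    (xl (tri Θ Ξ Q' hij hli hlj hN h) (fun t => Qn i h (ex N t)) (dg0 k Θ) (kp i l) (fun t => O.g (min t N)))
    (fun _ _ _ => ()) al be
  e := fun t w => (vq j w, E (min t N) (gq h (ex N t) w) (vq j w) (vq l w))
  fp := pl (tri Θ Ξ Q' hij hli hlj hN h) (fun t => Qn i h (ex N t)) (dg0 k Θ) (kp i j) (fun t => O.f (min t N))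
  gp := pl (tri Θ Ξ Q' hij hli hlj hN h) (fun t => Qn i h (ex N t)) (dg0 k Θ) (kp i l) (fun t => O.g (min t N))
  up := fun _ _ => ()
  K := fun v t w => c * iw (Wd (ex N t) (Yn (ex N t) w).1) (fun _ => 1) (O.Phi v.1.1 v.1.2 v.2.1.1 v.2.2.1.1)
  T := Tp
  D0 := fun t w => N < t ∨ ∃ s ≤ t, c * eps < |Tp s w - c * iw (Wd (ex N s) (Yn (ex N s) w).1) (fun _ => 1)
    (O.Phi (vq j w) (E s (gq h (ex N s) w) (vq j w) (vq l w)) (O.f s (gq h (ex N s) w) (kp i j w))
      (O.g s (gq h (ex N s) w) (kp i l w)))|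
  Lam := c * Lam
  eta := c * eps

/-- the number of the true option -/
def oix (i j l : Fin 3) (hij : j ≠ i) (hli : l ≠ i) (hlj : l ≠ j) (hN : N ≤ k) (h : ℕ) :
    ℕ → Sp k N 3 Θ (Ξ × Q') → Bool :=
  xo (tri Θ Ξ Q' hij hli hlj hN h) (fun t => Qn i h (ex N t)) (dg0 k Θ)

variable (O : S2.Out (tri Θ Ξ Q' hij hli hlj hN h) (fun t => Qn i h (ex N t)) TT E eps q Lam J M) {al be c : ℝ}
  {Tp : ℕ → Sp k N 3 Θ (Ξ × Q') → ℝ}

theorem ex_min (t : ℕ) : ex N (min t N) = ex N t := by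
  unfold ex
  omega

/-- the class of the known vertices determines the node of the faces -/
theorem Kn_gq (i : Fin 3) (h e : ℕ) : Fac (Kn (k := k) (N := N) (Θ := Θ) (P := Ξ × Q') i e) (gq h e) := by
  intro v w hv
  have h1 : Yn e v = Yn e w := by
    refine fac_Yn i e v w ?_
    unfold Kn at hv
    exact (Prod.mk.inj hv).2
  have h2 := fac_Yn_Gm h e v w h1
  unfold gq
  rw [h2]
  unfold Kn at hv
  rw [(Prod.mk.inj hv).1]

theorem Kn_Yn (i : Fin 3) (e : ℕ) : Fac (Kn (k := k) (N := N) (Θ := Θ) (P := Ξ × Q') i e) (Yn e) := by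
  intro v w hv
  refine fac_Yn i e v w ?_
  unfold Kn at hv
  exact (Prod.mk.inj hv).2

theorem iw_av (e : ℕ) (y : V k) (f : V k → ℝ) : iw (Wd e y) (fun _ => 1) f = av e y f := by
  rw [iw_comm, iw_Wd, av_eq_ip]

/-- the exact windows are a martingale, given the known vertices and the public node -/
theorem ce_iw (hij : j ≠ i) (hli : l ≠ i) (hlj : l ≠ j) (h : ℕ) (t : ℕ) (Φ : V k → ℝ)
    (w : Sp k N 3 Θ (Ξ × Q')) :
    Pm.ce (fun ω => (vx j ω, vx l ω, Qn i h (ex N t) ω))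
      (fun z => iw (Wd (ex N (t + 1)) (Yn (ex N (t + 1)) z).1) (fun _ => 1) Φ) w =
      iw (Wd (ex N t) (Yn (ex N t) w).1) (fun _ => 1) Φ := by
  have hZY : ∀ e, Fac (fun ω : Sp k N 3 Θ (Ξ × Q') => (vx j ω, vx l ω, Qn i h e ω))
      (fun z => iw (Wd e (Yn e z).1) (fun _ => 1) Φ) := fun e v w hv => by
    show iw (Wd e (Yn e v).1) (fun _ => 1) Φ = iw (Wd e (Yn e w).1) (fun _ => 1) Φ
    rw [Kn_Yn i e v w (Z_Kn hij hli hlj h e v w hv)]
  rcases Nat.lt_or_ge t N with ht | ht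
  · have he : ex N t = ex N (t + 1) + 1 := by unfold ex; omega
    have hlt : ex N (t + 1) < N := by unfold ex; omega
    have h1 := ce_mn' (k := k) (N := N) (Θ := Θ) (P := Ξ × Q') i hlt (f := fun _ => Φ) (Fac.const _ _)
      (X := fun ω => (vx j ω, vx l ω, Qn i h (ex N (t + 1) + 1) ω)) ?_ ?_ w
    · unfold mn at h1
      rw [he]
      simp only [iw_av]
      exact h1
    · intro v w hv
      simp only [Prod.mk.injEq] at hv
      refine Kn_Z hij hli h _ v w ?_
      have h2 : Zn i (ex N (t + 1) + 1) v = Zn i (ex N (t + 1) + 1) w := by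
        have h3 := Yn_eq i (ex N (t + 1) + 1) v
        have h4 := Yn_eq i (ex N (t + 1) + 1) w
        rw [hv.2.2.1] at h3
        rw [h3] at h4
        have h5 := co_fac i v w hv.2.2.2
        rw [h5] at h4
        simp only [Prod.mk.injEq] at h4
        exact Prod.ext (add_right_cancel h4.1) h4.2
      unfold Kn
      rw [hv.1, h2, hv.2.2.2]
    · intro v w hv
      have h2 := hZY (ex N (t + 1) + 1) v w hv
      unfold mn
      simp only [iw_av] at h2
      exact h2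
  · have he : ex N (t + 1) = ex N t := by unfold ex; omega
    rw [he]
    exact FP.ce_of_fac _ (hZY (ex N t)) (Pm_ne w)

theorem abs_iw_le (e : ℕ) (y : V k) {f : V k → ℝ} {B : ℝ} (hB : ∀ d, |f d| ≤ B) :
    |iw (Wd e y) (fun _ => 1) f| ≤ B := by
  rw [iw_av, abs_le]
  constructor
  · have h1 := av_mono e y (f := fun _ => -B) (g := f) fun d => (abs_le.1 (hB d)).1
    rw [av_const] at h1
    exact h1
  · have h1 := av_mono e y (f := f) (g := fun _ => B) fun d => (abs_le.1 (hB d)).2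
    rw [av_const] at h1
    exact h1

theorem gq_min (t : ℕ) (w : Sp k N 3 Θ (Ξ × Q')) : gq h (ex N (min t N)) w = gq h (ex N t) w := by
  rw [ex_min]

/-- **the hypotheses of section 2B** -/
theorem outRT_hyp (hc : 0 ≤ c) (hE : ∀ t g b c d, |E t g b c d| ≤ 1) (heps : 0 ≤ eps) (al0 : 0 < al) (be0 : 0 < be)
    (ab : al ≤ be ^ 2) (be1 : be ≤ 1) : (outRT O c Tp al be).HypR (oix i j l hij hli hlj hN h) := by
  have hP := pubM (k := k) (N := N) (Θ := Θ) (Ξ := Ξ) (Q := Q') hij hli hlj hN h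
  have hZ : ∀ t, Fac ((outRT O c Tp al be).toRD.Z t) (Kn i (ex N t)) := fun t => Z_Kn hij hli hlj h (ex N t)
  have hyp : (outRT O c Tp al be).toRD.Hyp := by
    refine mdl_hyp hij hli hlj ?_ ?_ ?_ al0 be0 ab be1
    · intro t v w hv
      simp only [Prod.mk.injEq] at hv
      refine xl_fac hP (K := kp i j) (x := fun t => O.f (min t N)) (dg := dg0 k Θ) t v w ?_
      show (kp i j v, Qn i h (ex N t) v) = (kp i j w, Qn i h (ex N t) w)
      unfold kp xq vq
      rw [hv.1, hv.2.1, hv.2.2]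
    · intro t v w hv
      simp only [Prod.mk.injEq] at hv
      refine xl_fac hP (K := kp i l) (x := fun t => O.g (min t N)) (dg := dg0 k Θ) t v w ?_
      show (kp i l v, Qn i h (ex N t) v) = (kp i l w, Qn i h (ex N t) w)
      unfold kp xq vq
      rw [hv.1, hv.2.1, hv.2.2]
    · intro t v w _
      rfl
  have hLam : 0 ≤ Lam := by
    obtain ⟨w0⟩ : Nonempty (Sp k N 3 Θ (Ξ × Q')) := inferInstance
    have h1 := O.bd (vq j w0) (E 0 (gq h (ex N 0) w0) (vq j w0) (vq l w0)) 0 0 (gq h (ex N 0) w0) (kp i j w0)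
      (gq h (ex N 0) w0) (kp i l w0) 0 (fun d => hE _ _ _ _ d) (Nat.zero_le _) (Nat.zero_le _)
    exact (abs_nonneg _).trans h1
  refine ⟨hyp, ?_, ?_, ?_, ?_, ?_, ?_, ?_, ?_, ?_, ?_, ?_, ?_, ?_, mul_nonneg hc hLam, mul_nonneg hc heps⟩
  · -- fe
    intro t v w hv
    have h1 := hZ t v w hv
    have h2 := Kn_gq i h (ex N t) v w h1
    have h3 : vx j v = vx j w := (Prod.mk.inj hv).1
    have h4 : vx l v = vx l w := (Prod.mk.inj (Prod.mk.inj hv).2).1
    show (vq j v, E (min t N) (gq h (ex N t) v) (vq j v) (vq l v)) =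
      (vq j w, E (min t N) (gq h (ex N t) w) (vq j w) (vq l w))
    unfold vq
    rw [h2, h3, h4]
  · -- ixf
    intro t
    refine xo_fac hP (dg := dg0 k Θ) ?_ ?_
    · exact RD.Z_fac_Q t
    · exact (hZ t).trans (Kn_gq i h (ex N t))
  · exact fun t w => pl_eq hP (dg := dg0 k Θ) (K := kp i j) (x := fun t => O.f (min t N)) t w
  · exact fun t w => pl_eq hP (dg := dg0 k Θ) (K := kp i l) (x := fun t => O.g (min t N)) t w
  · exact fun t w => rfl
  · exact fun t w _ _ hf => pl_stay hP hf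
  · exact fun t w _ _ hf => pl_stay hP hf
  · exact fun t w _ _ _ => rfl
  · -- Kf
    intro v t w w' hw
    have h1 := Kn_Yn i (ex N t) w w' (hZ t w w' hw)
    show c * iw (Wd (ex N t) (Yn (ex N t) w).1) _ _ = c * iw (Wd (ex N t) (Yn (ex N t) w').1) _ _
    rw [h1]
  · -- Ks
    intro v t w _ _
    have h1 := ce_iw (k := k) (N := N) (Θ := Θ) (Ξ := Ξ) (Q' := Q') hij hli hlj h t
      (O.Phi v.1.1 v.1.2 v.2.1.1 v.2.2.1.1) w
    show |c * iw (Wd (ex N t) (Yn (ex N t) w).1) (fun _ => 1) (O.Phi v.1.1 v.1.2 v.2.1.1 v.2.2.1.1)| ≤ _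
    rw [← h1, ← FP.ce_smul]
    exact FP.abs_ce_le _ _ _ _
  · -- Kb
    intro v t w _ hocc
    obtain ⟨h1, h2, h3, -⟩ := hocc
    obtain ⟨s1, _, h1⟩ := mem_rlst.1 h1
    obtain ⟨w1, _, h1⟩ := mem_vals.1 h1
    obtain ⟨s2, _, h2⟩ := mem_rlst.1 h2
    obtain ⟨⟨w2, i2⟩, _, h2⟩ := mem_vals.1 h2
    obtain ⟨s3, _, h3⟩ := mem_rlst.1 h3
    obtain ⟨⟨w3, i3⟩, _, h3⟩ := mem_vals.1 h3
    obtain ⟨g2, _, h4⟩ := xl_opt (dg := dg0 k Θ) (K := kp i j) (x := fun t => O.f (min t N)) hP s2 w2 i2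
    obtain ⟨g3, _, h5⟩ := xl_opt (dg := dg0 k Θ) (K := kp i l) (x := fun t => O.g (min t N)) hP s3 w3 i3
    have e1 : v.1.2 = E (min s1 N) (gq h (ex N s1) w1) (vq j w1) (vq l w1) := by rw [← h1]; rfl
    have e2 : v.2.1.1 = O.f (min s2 N) g2 (kp i j w2) := by rw [← h4, ← h2]; rfl
    have e3 : v.2.2.1.1 = O.g (min s3 N) g3 (kp i l w3) := by rw [← h5, ← h3]; rfl
    show |c * iw (Wd (ex N t) (Yn (ex N t) w).1) (fun _ => 1) (O.Phi v.1.1 v.1.2 v.2.1.1 v.2.2.1.1)| ≤ c * Lam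
    rw [abs_mul, abs_of_nonneg hc]
    refine mul_le_mul_of_nonneg_left (abs_iw_le _ _ fun d => ?_) hc
    rw [e1, e2, e3]
    exact O.bd _ _ _ _ _ _ _ _ d (fun d => hE _ _ _ _ d) (min_le_right _ _) (min_le_right _ _)
  · -- D0i
    rintro t w _ (h0 | ⟨s, hs, h1⟩)
    · exact Or.inl (h0.trans (Nat.lt_succ_self t))
    · exact Or.inr ⟨s, hs.trans (Nat.le_succ t), h1⟩
  · -- TX
    intro t w _ hd
    have h0 : t ≤ N := not_lt.1 fun h0 => hd (Or.inl h0)
    have h1 : ¬ c * eps < |Tp t w - c * iw (Wd (ex N t) (Yn (ex N t) w).1) (fun _ => 1)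
        (O.Phi (vq j w) (E t (gq h (ex N t) w) (vq j w) (vq l w)) (O.f t (gq h (ex N t) w) (kp i j w))
          (O.g t (gq h (ex N t) w) (kp i l w)))| := fun h1 => hd (Or.inr ⟨t, le_rfl, h1⟩)
    show |Tp t w - c * iw (Wd (ex N t) (Yn (ex N t) w).1) (fun _ => 1)
        (O.Phi (vq j w) (E (min t N) (gq h (ex N t) w) (vq j w) (vq l w))
          (O.f (min t N) (gq h (ex N t) w) (kp i j w)) (O.g (min t N) (gq h (ex N t) w) (kp i l w)))| ≤ c * eps
    rw [min_eq_left h0]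
    exact not_lt.1 h1

/-! ### sizes -/

theorem outRT_D0 (hc : 0 < c) {qb : ℝ} (hb : Pm.Pr (fun w => ∃ t ≤ N, Tp t w ≠ c * TT t w) ≤ qb) :
    Pm.Pr ((outRT O c Tp al be).D0 N) ≤ q + qb := by
  have h1 := O.err
  refine le_trans (FP.Pr_mono _ ?_) ((FP.Pr_or_le _ _ _).trans (add_le_add h1 hb))
  rintro w _ (h0 | ⟨s, hs, h2⟩)
  · exact absurd h0 (lt_irrefl _)
  · by_cases h3 : Tp s w = c * TT s w
    · refine Or.inl ⟨s, hs, ?_⟩
      rw [h3, ← mul_sub, abs_mul, abs_of_pos hc] at h2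
      exact lt_of_mul_lt_mul_left h2 hc.le
    · exact Or.inr ⟨s, hs, h3⟩

/-- number of changes of the label of `(i, j)` -/
theorem outRT_chf : ∑ t ∈ range N, Pm.Pr (fun w => (outRT O c Tp al be).f (t + 1) w ≠ (outRT O c Tp al be).f t w) ≤
    4 * J + 1 := by
  have hP := pubM (k := k) (N := N) (Θ := Θ) (Ξ := Ξ) (Q := Q') hij hli hlj hN h
  have h1 := xl_count_ab (dg := dg0 k Θ) hP (x := fun t => O.f (min t N)) N
  have h2 : ∑ t ∈ range N, (tri Θ Ξ Q' hij hli hlj hN h).P.Pr (fun w =>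
      O.f (min (t + 1) N) ((tri Θ Ξ Q' hij hli hlj hN h).gm (t + 1) w) (kp i j w) ≠
        O.f (min t N) ((tri Θ Ξ Q' hij hli hlj hN h).gm t w) (kp i j w)) =
      ∑ t ∈ range N, (tri Θ Ξ Q' hij hli hlj hN h).P.Pr (fun w =>
      O.f (t + 1) ((tri Θ Ξ Q' hij hli hlj hN h).gm (t + 1) w) (kp i j w) ≠
        O.f t ((tri Θ Ξ Q' hij hli hlj hN h).gm t w) (kp i j w)) := by
    refine Finset.sum_congr rfl fun t ht => ?_
    have h3 := Finset.mem_range.1 ht
    rw [min_eq_left (show t + 1 ≤ N by omega), min_eq_left (show t ≤ N by omega)]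
  have h3 := O.chf
  refine h1.trans ?_
  have h4 : ∑ t ∈ range N, (tri Θ Ξ Q' hij hli hlj hN h).P.Pr (fun w =>
      O.f (min (t + 1) N) ((tri Θ Ξ Q' hij hli hlj hN h).gm (t + 1) w) (kp i j w) ≠
        O.f (min t N) ((tri Θ Ξ Q' hij hli hlj hN h).gm t w) (kp i j w)) ≤ J := h2.le.trans h3
  have h5 := mul_le_mul_of_nonneg_left h4 (show (0 : ℝ) ≤ 4 by norm_num)
  exact add_le_add h5 le_rfl

/-- number of changes of the label of `(i, l)` -/
theorem outRT_chg : ∑ t ∈ range N, Pm.Pr (fun w => (outRT O c Tp al be).g (t + 1) w ≠ (outRT O c Tp al be).g t w) ≤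
    4 * J + 1 := by
  have hP := pubM (k := k) (N := N) (Θ := Θ) (Ξ := Ξ) (Q := Q') hij hli hlj hN h
  have h1 := xl_count_ac (dg := dg0 k Θ) hP (x := fun t => O.g (min t N)) N
  have h2 : ∑ t ∈ range N, (tri Θ Ξ Q' hij hli hlj hN h).P.Pr (fun w =>
      O.g (min (t + 1) N) ((tri Θ Ξ Q' hij hli hlj hN h).gm (t + 1) w) (kp i l w) ≠
        O.g (min t N) ((tri Θ Ξ Q' hij hli hlj hN h).gm t w) (kp i l w)) =
      ∑ t ∈ range N, (tri Θ Ξ Q' hij hli hlj hN h).P.Pr (fun w =>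
      O.g (t + 1) ((tri Θ Ξ Q' hij hli hlj hN h).gm (t + 1) w) (kp i l w) ≠
        O.g t ((tri Θ Ξ Q' hij hli hlj hN h).gm t w) (kp i l w)) := by
    refine Finset.sum_congr rfl fun t ht => ?_
    have h3 := Finset.mem_range.1 ht
    rw [min_eq_left (show t + 1 ≤ N by omega), min_eq_left (show t ≤ N by omega)]
  have h3 := O.chg
  refine h1.trans ?_
  have h4 : ∑ t ∈ range N, (tri Θ Ξ Q' hij hli hlj hN h).P.Pr (fun w =>
      O.g (min (t + 1) N) ((tri Θ Ξ Q' hij hli hlj hN h).gm (t + 1) w) (kp i l w) ≠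
        O.g (min t N) ((tri Θ Ξ Q' hij hli hlj hN h).gm t w) (kp i l w)) ≤ J := h2.le.trans h3
  have h5 := mul_le_mul_of_nonneg_left h4 (show (0 : ℝ) ≤ 4 by norm_num)
  exact add_le_add h5 le_rfl

/-- the list of the known label never overflows -/
theorem outRT_ovf_e (w : Sp k N 3 Θ (Ξ × Q')) {p0 : ℝ} {M' : ℕ}
    (hp : ∑ t ∈ range N, ind (E (t + 1) (gq h (ex N (t + 1)) w) (vq j w) (vq l w) ≠
      E t (gq h (ex N t) w) (vq j w) (vq l w)) ≤ p0) (hM : 1 + p0 ≤ M') (t : ℕ) :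
    ¬ ovf (outRT O c Tp al be).toRD.Z (outRT O c Tp al be).e M' t w := by
  have hZ : ∀ t, Fac ((outRT O c Tp al be).toRD.Z t) (Kn i (ex N t)) := fun t => Z_Kn hij hli hlj h (ex N t)
  have hfe : ∀ t, Fac ((outRT O c Tp al be).toRD.Z t) ((outRT O c Tp al be).e t) := by
    intro t v w hv
    have h1 := hZ t v w hv
    have h2 := Kn_gq i h (ex N t) v w h1
    have h3 : vx j v = vx j w := (Prod.mk.inj hv).1
    have h4 : vx l v = vx l w := (Prod.mk.inj (Prod.mk.inj hv).2).1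
    show (vq j v, E (min t N) (gq h (ex N t) v) (vq j v) (vq l v)) =
      (vq j w, E (min t N) (gq h (ex N t) w) (vq j w) (vq l w))
    unfold vq
    rw [h2, h3, h4]
  have h1 := rlst_len_fac hfe t w
  have h2 : ∑ s ∈ range t, ind ((outRT O c Tp al be).e (s + 1) w ≠ (outRT O c Tp al be).e s w) ≤
      ∑ s ∈ range N, ind (E (s + 1) (gq h (ex N (s + 1)) w) (vq j w) (vq l w) ≠
        E s (gq h (ex N s) w) (vq j w) (vq l w)) := by
    have h3 : ∀ s, ind ((outRT O c Tp al be).e (s + 1) w ≠ (outRT O c Tp al be).e s w) ≤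
        if s < N then ind (E (s + 1) (gq h (ex N (s + 1)) w) (vq j w) (vq l w) ≠
        E s (gq h (ex N s) w) (vq j w) (vq l w)) else 0 := by
      intro s
      by_cases hs : s < N
      · rw [if_pos hs]
        refine ind_mono fun h4 h5 => h4 ?_
        show (vq j w, E (min (s + 1) N) (gq h (ex N (s + 1)) w) (vq j w) (vq l w)) =
          (vq j w, E (min s N) (gq h (ex N s) w) (vq j w) (vq l w))
        rw [min_eq_left (show s + 1 ≤ N by omega), min_eq_left hs.le, h5]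
      · rw [if_neg hs]
        have h5 : ex N (s + 1) = ex N s := by unfold ex; omega
        refine le_of_eq (ind_not fun h4 => h4 ?_)
        show (vq j w, E (min (s + 1) N) (gq h (ex N (s + 1)) w) (vq j w) (vq l w)) =
          (vq j w, E (min s N) (gq h (ex N s) w) (vq j w) (vq l w))
        rw [min_eq_right (show N ≤ s + 1 by omega), min_eq_right (show N ≤ s by omega), h5]
    refine (Finset.sum_le_sum fun s _ => h3 s).trans ?_
    rw [← Finset.sum_filter]
    refine Finset.sum_le_sum_of_subset_of_nonneg (fun s hs => ?_) fun _ _ _ => ind_nonneg _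
    exact Finset.mem_range.2 (Finset.mem_filter.1 hs).2
  unfold ovf
  rw [not_lt]
  have h3 : ((rlst (outRT O c Tp al be).toRD.Z (outRT O c Tp al be).e t w).length : ℝ) ≤ (M' : ℝ) := by linarith
  exact_mod_cast h3

/-- **overflow of the lists** -/
theorem outRT_ovf {p0 : ℝ} {M' : ℕ}
    (hp : ∀ w : Sp k N 3 Θ (Ξ × Q'), ∑ t ∈ range N, ind (E (t + 1) (gq h (ex N (t + 1)) w) (vq j w) (vq l w) ≠
      E t (gq h (ex N t) w) (vq j w) (vq l w)) ≤ p0) (hM1 : 2 * M ≤ M') (hM2 : 1 + p0 ≤ M') (hM3 : 1 ≤ M') :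
    Pm.Pr (fun w => (outRT O c Tp al be).ovf4 M' N w) ≤ 2 * q := by
  have hP := pubM (k := k) (N := N) (Θ := Θ) (Ξ := Ξ) (Q := Q') hij hli hlj hN h
  have h1 := O.vf
  have h2 := O.vg
  rw [two_mul]
  refine le_trans (FP.Pr_mono _ ?_) ((FP.Pr_or_le _ _ _).trans (add_le_add h1 h2))
  intro w0 _ hov
  rcases hov with h3 | h3 | h3 | h3
  · exact absurd h3 (outRT_ovf_e O w0 (hp w0) hM2 N)
  · left
    rintro ⟨s, hs, h4⟩
    have h5 := xl_len (dg := dg0 k Θ) (K := kp i j) (x := fun t => O.f (min t N)) hP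
      (Y := (outRT O c Tp al be).toRD.ZB) (n := N) (w0 := w0) (f := s) (fun t v w hv => (Prod.mk.inj hv).2)
      (fun t ht o ho w hw => by
        have hw1 : vx j w = vx j w0 := (Prod.mk.inj hw).1
        have h6 := h4 t ht o ho w (Prod.mk.inj hw).2
        show O.f (min t N) o (kp i j w) ∈ s
        rw [min_eq_left ht]
        have h7 : kp i j w = (xq i w, vq i w, vq j w0) := by
          unfold kp vq
          rw [hw1]
        rw [h7]
        exact h6)
    exact absurd (lt_of_lt_of_le h3 h5) (not_lt.2 ((Nat.mul_le_mul_left 2 hs).trans hM1))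
  · right
    rintro ⟨s, hs, h4⟩
    have h5 := xl_len (dg := dg0 k Θ) (K := kp i l) (x := fun t => O.g (min t N)) hP
      (Y := (outRT O c Tp al be).toRD.ZC) (n := N) (w0 := w0) (f := s) (fun t v w hv => (Prod.mk.inj hv).2)
      (fun t ht o ho w hw => by
        have hw1 : vx l w = vx l w0 := (Prod.mk.inj hw).1
        have h6 := h4 t ht o ho w (Prod.mk.inj hw).2
        show O.g (min t N) o (kp i l w) ∈ s
        rw [min_eq_left ht]
        have h7 : kp i l w = (xq i w, vq i w, vq l w0) := by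
          unfold kp vq
          rw [hw1]
        rw [h7]
        exact h6)
    exact absurd (lt_of_lt_of_le h3 h5) (not_lt.2 ((Nat.mul_le_mul_left 2 hs).trans hM1))
  · have h5 : (rlst (tw (outRT O c Tp al be).Q) (cp (outRT O c Tp al be).u) N (w0, false)).length ≤
        (univ : Finset Unit).card := rlst_length_le fun _ _ _ _ => Finset.mem_univ _
    have h6 : M' < 1 := lt_of_lt_of_le h3 h5
    omega

end

end Mod

end Pool.Agent.M3
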