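import Mathlib

/-!
# M3 Ridge: ridge regression for a positive semidefinite form (helper39)

`W` a real vector space, `B` a symmetric positive semidefinite form, `R 0, .., R (n-1)` a list of
vectors. `phi B n R lam f` is the minimiser of `|f - sum phi_i R_i|^2 + lam |phi|^2`, extended by `0`.
-/

namespace Pool.Agent.M3

open Finset

noncomputable section

variable {W : Type*} [AddCommGroup W] [Module ℝ W]

/-- symmetric positive semidefinite forms -/
structure PF (W : Type*) [AddCommGroup W] [Module ℝ W] where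
  B : W → W → ℝ
  add' : ∀ f g h, B (f + g) h = B f h + B g h
  smul' : ∀ (c : ℝ) f g, B (c • f) g = c * B f g
  symm : ∀ f g, B f g = B g f
  nn : ∀ f, 0 ≤ B f f

namespace PF

variable (B : PF W)

theorem add_l (f g h : W) : B.B (f + g) h = B.B f h + B.B g h := B.add' f g h

theorem add_r (f g h : W) : B.B f (g + h) = B.B f g + B.B f h := by
  rw [B.symm, B.add', B.symm g, B.symm h]

theorem smul_l (c : ℝ) (f g : W) : B.B (c • f) g = c * B.B f g := B.smul' c f g

theorem smul_r (c : ℝ) (f g : W) : B.B f (c • g) = c * B.B f g := by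
  rw [B.symm, B.smul', B.symm g]

theorem zero_l (f : W) : B.B 0 f = 0 := by
  have := B.smul_l 0 0 f
  rw [zero_smul, zero_mul] at this
  exact this

theorem zero_r (f : W) : B.B f 0 = 0 := by rw [B.symm, B.zero_l]

theorem neg_l (f g : W) : B.B (-f) g = - B.B f g := by
  have := B.smul_l (-1) f g
  rw [neg_one_smul, neg_one_mul] at this
  exact this

theorem neg_r (f g : W) : B.B f (-g) = - B.B f g := by rw [B.symm, B.neg_l, B.symm g]

theorem sub_l (f g h : W) : B.B (f - g) h = B.B f h - B.B g h := by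
  rw [sub_eq_add_neg, B.add_l, B.neg_l, sub_eq_add_neg]

theorem sub_r (f g h : W) : B.B f (g - h) = B.B f g - B.B f h := by
  rw [sub_eq_add_neg, B.add_r, B.neg_r, sub_eq_add_neg]

theorem sum_l {ι : Type*} (s : Finset ι) (F : ι → W) (g : W) :
    B.B (∑ i ∈ s, F i) g = ∑ i ∈ s, B.B (F i) g := by
  classical
  induction s using Finset.induction_on with
  | empty => rw [Finset.sum_empty, Finset.sum_empty, B.zero_l]
  | insert i s hi ih => rw [Finset.sum_insert hi, Finset.sum_insert hi, B.add_l, ih]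

theorem sum_r {ι : Type*} (s : Finset ι) (f : W) (G : ι → W) :
    B.B f (∑ i ∈ s, G i) = ∑ i ∈ s, B.B f (G i) := by
  rw [B.symm, B.sum_l]
  exact Finset.sum_congr rfl (fun i _ => B.symm _ _)

/-- the square of the norm -/
def q (f : W) : ℝ := B.B f f

theorem q_nonneg (f : W) : 0 ≤ B.q f := B.nn f

theorem q_add (f g : W) : B.q (f + g) = B.q f + 2 * B.B f g + B.q g := by
  unfold q
  rw [B.add_l, B.add_r, B.add_r, B.symm g f]
  ring

theorem q_sub (f g : W) : B.q (f - g) = B.q f - 2 * B.B f g + B.q g := by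
  unfold q
  rw [B.sub_l, B.sub_r, B.sub_r, B.symm g f]
  ring

theorem q_smul (c : ℝ) (f : W) : B.q (c • f) = c ^ 2 * B.q f := by
  unfold q
  rw [B.smul_l, B.smul_r]
  ring

/-- Cauchy-Schwarz -/
theorem cs (f g : W) : B.B f g ^ 2 ≤ B.q f * B.q g := by
  have h1 := B.nn (B.B g g • f - B.B f g • g)
  have e : B.B (B.B g g • f - B.B f g • g) (B.B g g • f - B.B f g • g) =
      B.B g g * (B.B g g * B.B f f - B.B f g ^ 2) := by
    simp only [B.sub_l, B.sub_r, B.smul_l, B.smul_r, B.symm g f]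
    ring
  rw [e] at h1
  rcases (B.nn g).lt_or_eq with hg | hg
  · have h2 : 0 ≤ B.B g g * B.B f f - B.B f g ^ 2 := by
      by_contra hn
      push Not at hn
      exact absurd h1 (not_le.2 (mul_neg_of_pos_of_neg hg hn))
    show B.B f g ^ 2 ≤ B.B f f * B.B g g
    linarith
  · -- `|g| = 0`
    have h0 : B.B f g = 0 := by
      by_contra hne
      have h3 := B.nn (f - (((B.B f f + 1) / (2 * B.B f g)) • g))
      simp only [B.sub_l, B.sub_r, B.smul_l, B.smul_r, B.symm g f, ← hg] at h3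
      have h4 : (B.B f f + 1) / (2 * B.B f g) * B.B f g = (B.B f f + 1) / 2 := by
        field_simp
      rw [h4] at h3
      linarith
    show B.B f g ^ 2 ≤ B.B f f * B.B g g
    rw [h0, ← hg]
    norm_num

/-- the norm -/
def nm (f : W) : ℝ := Real.sqrt (B.q f)

theorem nm_nonneg (f : W) : 0 ≤ B.nm f := Real.sqrt_nonneg _

theorem nm_sq (f : W) : B.nm f ^ 2 = B.q f := Real.sq_sqrt (B.q_nonneg f)

theorem abs_le (f g : W) : |B.B f g| ≤ B.nm f * B.nm g := by
  refine abs_le_of_sq_le_sq ?_ (mul_nonneg (B.nm_nonneg f) (B.nm_nonneg g))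
  rw [mul_pow, B.nm_sq, B.nm_sq]
  exact B.cs f g

theorem nm_add_le (f g : W) : B.nm (f + g) ≤ B.nm f + B.nm g := by
  refine Real.sqrt_le_iff.2 ⟨add_nonneg (B.nm_nonneg f) (B.nm_nonneg g), ?_⟩
  rw [B.q_add]
  have h1 := (le_abs_self _).trans (B.abs_le f g)
  have h2 := B.nm_sq f
  have h3 := B.nm_sq g
  nlinarith

theorem nm_neg (f : W) : B.nm (-f) = B.nm f := by
  unfold nm q
  rw [B.neg_l, B.neg_r, neg_neg]

theorem nm_sub_le (f g : W) : B.nm (f - g) ≤ B.nm f + B.nm g := by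
  have := B.nm_add_le f (-g)
  rwa [B.nm_neg, ← sub_eq_add_neg] at this

end PF

/-! ## linear combinations -/

/-- `sum_(i < n) chi_i R_i` -/
def lin (n : ℕ) (R : ℕ → W) (χ : ℕ → ℝ) : W := ∑ i ∈ range n, χ i • R i

/-- `sum_(i < n) a_i b_i` -/
def dt (n : ℕ) (a b : ℕ → ℝ) : ℝ := ∑ i ∈ range n, a i * b i

theorem dt_comm (n : ℕ) (a b : ℕ → ℝ) : dt n a b = dt n b a :=
  Finset.sum_congr rfl (fun _ _ => mul_comm _ _)

theorem dt_self_nonneg (n : ℕ) (a : ℕ → ℝ) : 0 ≤ dt n a a :=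
  Finset.sum_nonneg (fun _ _ => mul_self_nonneg _)

theorem dt_add_l (n : ℕ) (a b c : ℕ → ℝ) : dt n (a + b) c = dt n a c + dt n b c := by
  unfold dt
  rw [← Finset.sum_add_distrib]
  exact Finset.sum_congr rfl (fun i _ => by rw [Pi.add_apply]; ring)

theorem dt_sub_l (n : ℕ) (a b c : ℕ → ℝ) : dt n (a - b) c = dt n a c - dt n b c := by
  unfold dt
  rw [← Finset.sum_sub_distrib]
  exact Finset.sum_congr rfl (fun i _ => by rw [Pi.sub_apply]; ring)

theorem dt_sub_r (n : ℕ) (a b c : ℕ → ℝ) : dt n a (b - c) = dt n a b - dt n a c := by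
  rw [dt_comm, dt_sub_l, dt_comm n b, dt_comm n c]

theorem dt_smul_l (n : ℕ) (c : ℝ) (a b : ℕ → ℝ) : dt n (c • a) b = c * dt n a b := by
  unfold dt
  rw [Finset.mul_sum]
  exact Finset.sum_congr rfl (fun i _ => by rw [Pi.smul_apply, smul_eq_mul]; ring)

theorem dt_cs (n : ℕ) (a b : ℕ → ℝ) : dt n a b ^ 2 ≤ dt n a a * dt n b b := by
  have h := Finset.sum_mul_sq_le_sq_mul_sq (range n) a b
  unfold dt
  simpa only [pow_two] using h

theorem lin_sub (n : ℕ) (R : ℕ → W) (χ φ : ℕ → ℝ) : lin n R (χ - φ) = lin n R χ - lin n R φ := by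
  unfold lin
  rw [← Finset.sum_sub_distrib]
  exact Finset.sum_congr rfl (fun i _ => by rw [Pi.sub_apply, sub_smul])

theorem lin_zero (n : ℕ) (R : ℕ → W) : lin n R 0 = 0 := by
  unfold lin
  exact Finset.sum_eq_zero (fun i _ => by rw [Pi.zero_apply, zero_smul])

theorem lin_ext {n n' : ℕ} (hn : n ≤ n') {R R' : ℕ → W} (hR : ∀ i < n, R' i = R i) {χ : ℕ → ℝ}
    (hχ : ∀ i, n ≤ i → χ i = 0) : lin n' R' χ = lin n R χ := by
  unfold lin
  rw [← Finset.sum_subset (Finset.range_subset_range.2 hn)]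
  · exact Finset.sum_congr rfl (fun i hi => by rw [hR i (Finset.mem_range.1 hi)])
  · intro i _ hi
    rw [hχ i (not_lt.1 (fun h => hi (Finset.mem_range.2 h))), zero_smul]

theorem dt_ext {n n' : ℕ} (hn : n ≤ n') {a b : ℕ → ℝ} (ha : ∀ i, n ≤ i → a i = 0) :
    dt n' a b = dt n a b := by
  unfold dt
  rw [← Finset.sum_subset (Finset.range_subset_range.2 hn)]
  intro i _ hi
  rw [ha i (not_lt.1 (fun h => hi (Finset.mem_range.2 h))), zero_mul]

theorem dt_ext' {n n' : ℕ} (hn : n ≤ n') {a b : ℕ → ℝ} (hb : ∀ i, n ≤ i → b i = 0) :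
    dt n' a b = dt n a b := by
  rw [dt_comm, dt_ext hn hb, dt_comm]

section

variable (B : PF W) (n : ℕ) (R : ℕ → W)

/-- the vector of the inner products with the list -/
def bv (f : W) (i : ℕ) : ℝ := B.B (R i) f

/-- the sum of the squares of the norms -/
def tr : ℝ := ∑ i ∈ range n, B.q (R i)

theorem tr_nonneg : 0 ≤ tr B n R := Finset.sum_nonneg (fun _ _ => B.q_nonneg _)

theorem B_lin_l (χ : ℕ → ℝ) (f : W) : B.B (lin n R χ) f = dt n χ (bv B R f) := by
  unfold lin dt bv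
  rw [B.sum_l]
  exact Finset.sum_congr rfl (fun i _ => B.smul_l _ _ _)

theorem B_lin_r (χ : ℕ → ℝ) (f : W) : B.B f (lin n R χ) = dt n χ (bv B R f) := by
  rw [B.symm, B_lin_l]

theorem bv_sq_le (f : W) : dt n (bv B R f) (bv B R f) ≤ B.q f * tr B n R := by
  unfold dt tr bv
  rw [Finset.mul_sum]
  refine Finset.sum_le_sum (fun i _ => ?_)
  have := B.cs (R i) f
  nlinarith

/-- the normal equations -/
structure NE (lam : ℝ) (f : W) (φ : ℕ → ℝ) : Prop where
  supp : ∀ i, n ≤ i → φ i = 0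
  eq : ∀ i < n, B.B (R i) (lin n R φ) + lam * φ i = B.B (R i) f

theorem NE_exists {lam : ℝ} (hl : 0 < lam) (f : W) : ∃ φ, NE B n R lam f φ := by
  classical
  -- the linear map on `Fin n → ℝ`
  let ext : (Fin n → ℝ) → ℕ → ℝ := fun x i => if h : i < n then x ⟨i, h⟩ else 0
  have ext_apply : ∀ (x : Fin n → ℝ) (i : Fin n), ext x i = x i := fun x i => by
    simp only [ext, i.2, dif_pos]
  have ext_ge : ∀ (x : Fin n → ℝ) (i : ℕ), n ≤ i → ext x i = 0 := fun x i hi => by
    simp only [ext, dif_neg (not_lt.2 hi)]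
  have ext_add : ∀ x y : Fin n → ℝ, lin n R (ext (x + y)) = lin n R (ext x) + lin n R (ext y) := by
    intro x y
    unfold lin
    rw [← Finset.sum_add_distrib]
    refine Finset.sum_congr rfl (fun i hi => ?_)
    have hi' := Finset.mem_range.1 hi
    simp only [ext, hi', dif_pos, Pi.add_apply, add_smul]
  have ext_smul : ∀ (c : ℝ) (x : Fin n → ℝ), lin n R (ext (c • x)) = c • lin n R (ext x) := by
    intro c x
    unfold lin
    rw [Finset.smul_sum]
    refine Finset.sum_congr rfl (fun i hi => ?_)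
    have hi' := Finset.mem_range.1 hi
    simp only [ext, hi', dif_pos, Pi.smul_apply, smul_eq_mul, mul_smul]
  let L : (Fin n → ℝ) →ₗ[ℝ] (Fin n → ℝ) :=
    { toFun := fun x i => B.B (R i) (lin n R (ext x)) + lam * x i
      map_add' := fun x y => by
        funext i
        simp only [Pi.add_apply]
        rw [ext_add, B.add_r]
        ring
      map_smul' := fun c x => by
        funext i
        simp only [Pi.smul_apply, smul_eq_mul, RingHom.id_apply]
        rw [ext_smul, B.smul_r]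
        ring }
  have hL : ∀ x i, L x i = B.B (R i) (lin n R (ext x)) + lam * x i := fun _ _ => rfl
  have hinj : Function.Injective L := by
    refine (injective_iff_map_eq_zero L).2 (fun x hx => ?_)
    have h1 : ∑ i : Fin n, x i * L x i = 0 := by
      rw [hx]
      simp
    have h2 : ∑ i : Fin n, x i * L x i = B.q (lin n R (ext x)) + lam * ∑ i : Fin n, x i * x i := by
      have h3 : B.q (lin n R (ext x)) = ∑ i : Fin n, x i * B.B (R i) (lin n R (ext x)) := by
        unfold PF.q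
        rw [B_lin_l]
        unfold dt bv
        rw [Finset.sum_range]
        exact Finset.sum_congr rfl (fun i _ => by rw [ext_apply])
      rw [h3, Finset.mul_sum, ← Finset.sum_add_distrib]
      exact Finset.sum_congr rfl (fun i _ => by rw [hL]; ring)
    have h4 : 0 ≤ ∑ i : Fin n, x i * x i := Finset.sum_nonneg (fun _ _ => mul_self_nonneg _)
    have h5 := B.q_nonneg (lin n R (ext x))
    have h6 : ∑ i : Fin n, x i * x i = 0 := by
      have : lam * ∑ i : Fin n, x i * x i = 0 := by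
        have h7 : 0 ≤ lam * ∑ i : Fin n, x i * x i := mul_nonneg hl.le h4
        linarith
      exact (mul_eq_zero.1 this).resolve_left hl.ne'
    funext i
    have h8 := (Finset.sum_eq_zero_iff_of_nonneg (fun i _ => mul_self_nonneg (x i))).1 h6 i
      (Finset.mem_univ i)
    exact mul_self_eq_zero.1 h8
  obtain ⟨x, hx⟩ := (LinearMap.injective_iff_surjective.1 hinj) (fun i => B.B (R i) f)
  refine ⟨ext x, ⟨ext_ge x, fun i hi => ?_⟩⟩
  have h := congrFun hx ⟨i, hi⟩
  rw [hL] at h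
  rw [ext_apply x ⟨i, hi⟩]
  exact h

open Classical in
/-- the coefficients of the ridge regression -/
def phi (lam : ℝ) (f : W) : ℕ → ℝ :=
  if h : 0 < lam then (NE_exists B n R h f).choose else 0

theorem phi_NE {lam : ℝ} (hl : 0 < lam) (f : W) : NE B n R lam f (phi B n R lam f) := by
  unfold phi
  rw [dif_pos hl]
  exact (NE_exists B n R hl f).choose_spec

end

section

variable {B : PF W} {n : ℕ} {R : ℕ → W} {lam mu : ℝ} {f g : W} {φ ψ : ℕ → ℝ}

/-- the normal equations in weak form -/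
theorem NE.weak (h : NE B n R lam f φ) (χ : ℕ → ℝ) :
    dt n χ (bv B R f) = B.B (lin n R χ) (lin n R φ) + lam * dt n χ φ := by
  rw [B_lin_l]
  unfold dt bv
  rw [Finset.mul_sum, ← Finset.sum_add_distrib]
  refine Finset.sum_congr rfl (fun i hi => ?_)
  rw [← h.eq i (Finset.mem_range.1 hi)]
  ring

theorem NE.res (h : NE B n R lam f φ) (χ : ℕ → ℝ) :
    B.B (f - lin n R φ) (lin n R χ) = lam * dt n χ φ := by
  have h1 := h.weak χ
  rw [B.sub_l, B_lin_r, h1, B.symm (lin n R φ)]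
  ring

theorem NE.cross (hf : NE B n R lam f φ) (hg : NE B n R mu g ψ) :
    dt n ψ (bv B R f) = dt n φ (bv B R g) + (lam - mu) * dt n φ ψ := by
  rw [hf.weak ψ, hg.weak φ, B.symm (lin n R ψ), dt_comm n ψ φ]
  ring

/-- the energy of the regression -/
def rg (B : PF W) (n : ℕ) (R : ℕ → W) (lam : ℝ) (f : W) (χ : ℕ → ℝ) : ℝ :=
  B.q (f - lin n R χ) + lam * dt n χ χ

/-- the norm on the coefficients -/
def cn (B : PF W) (n : ℕ) (R : ℕ → W) (lam : ℝ) (χ : ℕ → ℝ) : ℝ :=
  B.q (lin n R χ) + lam * dt n χ χ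

theorem cn_nonneg (hl : 0 ≤ lam) (χ : ℕ → ℝ) : 0 ≤ cn B n R lam χ :=
  add_nonneg (B.q_nonneg _) (mul_nonneg hl (dt_self_nonneg n χ))

theorem rg_nonneg (hl : 0 ≤ lam) (χ : ℕ → ℝ) : 0 ≤ rg B n R lam f χ :=
  add_nonneg (B.q_nonneg _) (mul_nonneg hl (dt_self_nonneg n χ))

/-- `|f - sum chi R|^2 + lam |chi|^2 = r[f] + |chi - phi|^2` -/
theorem NE.rg_eq (h : NE B n R lam f φ) (χ : ℕ → ℝ) :
    rg B n R lam f χ = rg B n R lam f φ + cn B n R lam (χ - φ) := by
  have h1 := h.res (χ - φ)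
  unfold rg cn
  have e1 : f - lin n R χ = (f - lin n R φ) - lin n R (χ - φ) := by
    rw [lin_sub]
    abel
  have e2 : dt n χ χ = dt n φ φ + 2 * dt n (χ - φ) φ + dt n (χ - φ) (χ - φ) := by
    rw [dt_sub_l, dt_sub_l, dt_sub_r, dt_sub_r, dt_comm n φ χ]
    ring
  rw [e1, B.q_sub, h1, e2]
  ring

theorem NE.rg_le (h : NE B n R lam f φ) (hl : 0 ≤ lam) (χ : ℕ → ℝ) :
    rg B n R lam f φ ≤ rg B n R lam f χ := by
  rw [h.rg_eq χ]
  linarith [cn_nonneg (B := B) (n := n) (R := R) hl (χ - φ)]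

theorem rg_zero : rg B n R lam f 0 = B.q f := by
  unfold rg
  rw [lin_zero, sub_zero]
  have : dt n 0 0 = 0 := by
    unfold dt
    exact Finset.sum_eq_zero (fun i _ => by simp)
  rw [this]
  ring

theorem NE.rg_le_q (h : NE B n R lam f φ) (hl : 0 ≤ lam) : rg B n R lam f φ ≤ B.q f := by
  rw [← rg_zero (B := B) (n := n) (R := R) (lam := lam) (f := f)]
  exact h.rg_le hl 0

theorem NE.dt_le (h : NE B n R lam f φ) (hl : 0 ≤ lam) : lam * dt n φ φ ≤ B.q f := by
  refine le_trans ?_ (h.rg_le_q hl)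
  unfold rg
  linarith [B.q_nonneg (f - lin n R φ)]

theorem NE.q_res_le (h : NE B n R lam f φ) (hl : 0 ≤ lam) : B.q (f - lin n R φ) ≤ B.q f := by
  refine le_trans ?_ (h.rg_le_q hl)
  unfold rg
  linarith [mul_nonneg hl (dt_self_nonneg n φ)]

theorem NE.nm_res_le (h : NE B n R lam f φ) (hl : 0 ≤ lam) : B.nm (f - lin n R φ) ≤ B.nm f :=
  Real.sqrt_le_sqrt (h.q_res_le hl)

/-- the inner product of the residuals, `lam = 1` -/
theorem NE.res_res (hf : NE B n R 1 f φ) (hg : NE B n R 1 g ψ) :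
    B.B f g = B.B (f - lin n R φ) (g - lin n R ψ) + dt n φ ψ + dt n φ (bv B R g) := by
  have h1 := hf.res ψ
  have h2 := hf.weak ψ
  rw [B.sub_r, h1, B.sub_l, B_lin_l, dt_comm n ψ φ]
  ring

theorem NE.dt_bv_le (hg : NE B n R mu g ψ) (hm : 0 < mu) (f : W) :
    |dt n ψ (bv B R f)| ≤ mu⁻¹ * (B.nm f * B.nm g * tr B n R) := by
  -- `mu |psi| <= |b_g|`
  have h1 := hg.weak ψ
  have h2 := B.q_nonneg (lin n R ψ)
  have h3 := dt_cs n ψ (bv B R g)
  have h4 := dt_self_nonneg n ψ
  have h5 := dt_self_nonneg n (bv B R g)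
  have h6 : mu * dt n ψ ψ ≤ dt n ψ (bv B R g) := by
    rw [h1]
    unfold PF.q at h2
    linarith
  have h7 : mu ^ 2 * dt n ψ ψ ≤ dt n (bv B R g) (bv B R g) := by
    rcases h4.lt_or_eq with h | h
    · have h8 : (mu * dt n ψ ψ) ^ 2 ≤ dt n ψ ψ * dt n (bv B R g) (bv B R g) :=
        (pow_le_pow_left₀ (mul_nonneg hm.le h4) h6 2).trans h3
      have h9 : dt n ψ ψ * (mu ^ 2 * dt n ψ ψ) ≤ dt n ψ ψ * dt n (bv B R g) (bv B R g) := by
        calc dt n ψ ψ * (mu ^ 2 * dt n ψ ψ) = (mu * dt n ψ ψ) ^ 2 := by ring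
          _ ≤ _ := h8
      exact le_of_mul_le_mul_left h9 h
    · rw [← h, mul_zero]
      exact h5
  have h8 := bv_sq_le B n R f
  have h9 := bv_sq_le B n R g
  have h10 := dt_cs n ψ (bv B R f)
  have h11 : 0 ≤ mu⁻¹ * (B.nm f * B.nm g * tr B n R) :=
    mul_nonneg (inv_nonneg.2 hm.le)
      (mul_nonneg (mul_nonneg (B.nm_nonneg f) (B.nm_nonneg g)) (tr_nonneg B n R))
  refine abs_le_of_sq_le_sq ?_ h11
  have h12 : dt n ψ ψ ≤ mu⁻¹ ^ 2 * (B.q g * tr B n R) := by
    have : mu⁻¹ ^ 2 * (mu ^ 2 * dt n ψ ψ) ≤ mu⁻¹ ^ 2 * (B.q g * tr B n R) :=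
      mul_le_mul_of_nonneg_left (h7.trans h9) (by positivity)
    have e : mu⁻¹ ^ 2 * (mu ^ 2 * dt n ψ ψ) = dt n ψ ψ := by
      field_simp
    rwa [e] at this
  calc dt n ψ (bv B R f) ^ 2 ≤ dt n ψ ψ * dt n (bv B R f) (bv B R f) := h10
    _ ≤ (mu⁻¹ ^ 2 * (B.q g * tr B n R)) * (B.q f * tr B n R) :=
        mul_le_mul h12 h8 (dt_self_nonneg _ _)
          (mul_nonneg (by positivity) (mul_nonneg (B.q_nonneg g) (tr_nonneg B n R)))
    _ = (mu⁻¹ * (B.nm f * B.nm g * tr B n R)) ^ 2 := by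
        rw [← B.nm_sq f, ← B.nm_sq g]
        ring

end

/-! ## the decomposition -/

section

variable (B : PF W) (n : ℕ) (R : ℕ → W)

/-- the residual -/
def hh (f : W) : W := f - lin n R (phi B n R 1 f)

/-- the structured part of the inner product -/
def SS (N : ℕ) (f g : W) : ℝ :=
  dt n (phi B n R 1 f) (phi B n R 1 g) +
    ∑ k ∈ range N, (2 : ℝ) ^ k * dt n (phi B n R (2 ^ k) f) (phi B n R (2 ^ (k + 1)) g)

theorem nm_hh_le (f : W) : B.nm (hh B n R f) ≤ B.nm f :=
  (phi_NE B n R one_pos f).nm_res_le zero_le_one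

theorem q_hh_le (f : W) : B.q (hh B n R f) ≤ B.q f :=
  (phi_NE B n R one_pos f).q_res_le zero_le_one

theorem SS_tel (N : ℕ) (f g : W) :
    dt n (phi B n R 1 f) (bv B R g) =
      (∑ k ∈ range N, (2 : ℝ) ^ k * dt n (phi B n R (2 ^ k) f) (phi B n R (2 ^ (k + 1)) g)) +
        dt n (phi B n R (2 ^ N) f) (bv B R g) := by
  induction N with
  | zero => simp
  | succ N ih =>
    rw [ih, Finset.sum_range_succ, add_assoc]
    congr 1
    have hf0 := phi_NE B n R (lam := 2 ^ N) (by positivity) f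
    have hf1 := phi_NE B n R (lam := 2 ^ (N + 1)) (by positivity) f
    have hg1 := phi_NE B n R (lam := 2 ^ (N + 1)) (by positivity) g
    -- `b_f . phi^(N+1)[g] = phi^N[f] . b_g + (2^N - 2^(N+1)) phi^N[f] . phi^(N+1)[g]`
    have h1 := hf0.cross hg1
    have h2 := hf1.cross hg1
    have e : (2 : ℝ) ^ (N + 1) = 2 * 2 ^ N := by ring
    rw [e] at h1 h2 ⊢
    linarith

/-- the decomposition of the inner product -/
theorem B_eq (N : ℕ) (f g : W) :
    B.B f g = B.B (hh B n R f) (hh B n R g) + SS B n R N f g +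
      dt n (phi B n R (2 ^ N) f) (bv B R g) := by
  have h1 := (phi_NE B n R one_pos f).res_res (phi_NE B n R one_pos g)
  rw [h1, SS_tel B n R N f g]
  unfold hh SS
  ring

theorem abs_B_sub_le (N : ℕ) (f g : W) :
    |B.B f g - B.B (hh B n R f) (hh B n R g) - SS B n R N f g| ≤
      (2 : ℝ)⁻¹ ^ N * (B.nm f * B.nm g * tr B n R) := by
  have h := B_eq B n R N f g
  have h1 := (phi_NE B n R (lam := 2 ^ N) (by positivity) f).dt_bv_le (by positivity) g
  have e : B.B f g - B.B (hh B n R f) (hh B n R g) - SS B n R N f g =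
      dt n (phi B n R (2 ^ N) f) (bv B R g) := by linarith
  rw [e, inv_pow]
  calc _ ≤ _ := h1
    _ = _ := by ring

end

/-! ## changing the list and the form -/

section

variable (B : PF W)

/-- adding a vector `u` with `|u| ≤ 1` to the list lowers the energy by `<h,u>^2 / 2` -/
theorem rg_add (n : ℕ) (R : ℕ → W) (u f : W) (hu : B.q u ≤ 1) (R' : ℕ → W)
    (hR : ∀ i < n, R' i = R i) (hRu : R' n = u) :
    rg B (n + 1) R' 1 f (phi B (n + 1) R' 1 f) + B.B (hh B n R f) u ^ 2 / 2 ≤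
      rg B n R 1 f (phi B n R 1 f) := by
  set φ := phi B n R 1 f with hφ
  have hne := phi_NE B n R one_pos f
  set s := B.B (hh B n R f) u / 2 with hs
  set χ : ℕ → ℝ := fun i => if i = n then s else φ i with hχ
  have h1 := (phi_NE B (n + 1) R' one_pos f).rg_le zero_le_one χ
  have e1 : lin (n + 1) R' χ = lin n R φ + s • u := by
    unfold lin
    rw [Finset.sum_range_succ, hRu]
    congr 1
    · refine Finset.sum_congr rfl (fun i hi => ?_)
      have hi' := Finset.mem_range.1 hi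
      rw [hR i hi']
      simp only [hχ, if_neg hi'.ne]
    · simp only [hχ, if_pos]
  have e2 : dt (n + 1) χ χ = dt n φ φ + s ^ 2 := by
    unfold dt
    rw [Finset.sum_range_succ]
    congr 1
    · refine Finset.sum_congr rfl (fun i hi => ?_)
      have hi' := Finset.mem_range.1 hi
      simp only [hχ, if_neg hi'.ne]
    · simp only [hχ, if_pos]
      ring
  have e3 : f - lin (n + 1) R' χ = hh B n R f - s • u := by
    rw [e1]
    unfold hh
    abel
  have e4 : rg B (n + 1) R' 1 f χ = rg B n R 1 f φ - 2 * s * B.B (hh B n R f) u + s ^ 2 * (B.q u + 1) := by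
    unfold rg
    rw [e3, B.q_sub, e2, B.smul_r, B.q_smul]
    unfold hh
    ring
  rw [e4] at h1
  have h2 : s ^ 2 * (B.q u + 1) ≤ s ^ 2 * 2 :=
    mul_le_mul_of_nonneg_left (by linarith) (sq_nonneg _)
  have h3 : B.B (hh B n R f) u = 2 * s := by rw [hs]; ring
  rw [h3] at h1 ⊢
  nlinarith

theorem rg_ext {n n' : ℕ} (hn : n ≤ n') {R R' : ℕ → W} (hR : ∀ i < n, R' i = R i) {lam : ℝ} {f : W}
    {χ : ℕ → ℝ} (hχ : ∀ i, n ≤ i → χ i = 0) : rg B n' R' lam f χ = rg B n R lam f χ := by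
  unfold rg
  rw [lin_ext hn hR hχ, dt_ext hn hχ]

/-- a longer list has a smaller energy -/
theorem rg_mono {n n' : ℕ} (hn : n ≤ n') {R R' : ℕ → W} (hR : ∀ i < n, R' i = R i) {lam : ℝ}
    (hl : 0 < lam) (f : W) :
    rg B n' R' lam f (phi B n' R' lam f) ≤ rg B n R lam f (phi B n R lam f) := by
  have h1 := (phi_NE B n' R' hl f).rg_le hl.le (phi B n R lam f)
  rwa [rg_ext B hn hR (phi_NE B n R hl f).supp] at h1

end

end

end Pool.Agent.M3
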