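import Pool.Agent.M3.FP

/-!
# M3.Round: random rounding of product tests (section 1, (P1)) and the clip

* `signFP v` = independent signs `f x` with means `v x`;
* `rounding`: if no SIGN test `v, w = +1, -1` has many pairs with mean `>= e`, then every bounded test has few bad pairs;
* `clip`, `clip_sq_le`, `energy_drop`.
-/

set_option autoImplicit false
set_option linter.unusedSectionVars false

namespace Pool.Agent.M3

open Finset Pool.Agent.PWZ

noncomputable section

/-- the sign of a bit -/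
def sg (b : Bool) : ℝ := if b then 1 else -1

/-- weight of a bit with mean `v` -/
def sgw (v : ℝ) (b : Bool) : ℝ := if b then (1 + v) / 2 else (1 - v) / 2

theorem sgw_nonneg {v : ℝ} (h : |v| ≤ 1) (b : Bool) : 0 ≤ sgw v b := by
  have := abs_le.mp h
  unfold sgw
  split <;> linarith [this.1, this.2]

theorem sum_sgw (v : ℝ) : ∑ b : Bool, sgw v b = 1 := by
  rw [Fintype.sum_bool]; unfold sgw; simp; ring

theorem sum_sgw_sg (v : ℝ) : ∑ b : Bool, sgw v b * sg b = v := by
  rw [Fintype.sum_bool]; unfold sgw sg; simp; ring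

theorem sg_or (b : Bool) : sg b = 1 ∨ sg b = -1 := by
  unfold sg; cases b <;> simp

theorem abs_sg (b : Bool) : |sg b| = 1 := by
  rcases sg_or b with h | h <;> rw [h] <;> simp

variable {ι : Type*} [Fintype ι] [DecidableEq ι]

/-- independent signs with given means -/
def signFP (v : ι → ℝ) (hv : ∀ x, |v x| ≤ 1) : FP (ι → Bool) where
  p f := ∏ x, sgw (v x) (f x)
  nn f := Finset.prod_nonneg (fun x _ => sgw_nonneg (hv x) _)
  tot := by
    have h := (Finset.prod_univ_sum (fun _ : ι => (Finset.univ : Finset Bool)) (fun x b => sgw (v x) b)).symm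
    rw [Fintype.piFinset_univ] at h
    rw [h]
    exact Finset.prod_eq_one (fun x _ => sum_sgw (v x))

/-- the mean of one sign -/
theorem signFP_mean (v : ι → ℝ) (hv : ∀ x, |v x| ≤ 1) (y : ι) :
    (signFP v hv).E (fun f => sg (f y)) = v y := by
  have h := (Finset.prod_univ_sum (fun _ : ι => (Finset.univ : Finset Bool))
    (fun x b => sgw (v x) b * (if x = y then sg b else 1))).symm
  rw [Fintype.piFinset_univ] at h
  have h1 : (signFP v hv).E (fun f => sg (f y)) =
      ∑ f : ι → Bool, ∏ x, (sgw (v x) (f x) * (if x = y then sg (f x) else 1)) := by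
    unfold FP.E
    refine Finset.sum_congr rfl (fun f _ => ?_)
    rw [Finset.prod_mul_distrib]
    congr 1
    rw [Finset.prod_ite_eq' Finset.univ y (fun x => sg (f x)), if_pos (Finset.mem_univ y)]
  rw [h1, h]
  have h2 : ∀ x, ∑ b : Bool, sgw (v x) b * (if x = y then sg b else 1) = if x = y then v x else 1 := by
    intro x
    by_cases hx : x = y
    · simp only [if_pos hx]; exact sum_sgw_sg (v x)
    · simp only [if_neg hx, mul_one]; exact sum_sgw (v x)
  rw [Finset.prod_congr rfl (fun x _ => h2 x), Finset.prod_ite_eq' Finset.univ y v,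
    if_pos (Finset.mem_univ y)]

end

/-! ## rounding -/

section round

variable {β γ δ : Type*} [Fintype β] [Fintype γ] [Fintype δ]

/-- a bounded random variable with mean `>= 4 e` is `>= e` with probability `>= e` -/
theorem FP.Pr_ge_of_mean {Om : Type*} [Fintype Om] (P : FP Om) {Z : Om → ℝ} {e : ℝ} (he : 0 ≤ e)
    (hZ : ∀ w, Z w ≤ 2) (hm : 4 * e ≤ P.E Z) : e ≤ P.Pr (fun w => e ≤ Z w) := by
  have h1 : P.E Z ≤ P.E (fun w => e + 2 * ind (e ≤ Z w)) := by
    refine P.E_mono (fun w _ => ?_)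
    by_cases h : e ≤ Z w
    · rw [ind_of h]; linarith [hZ w]
    · rw [ind_not h]; linarith [not_le.mp h]
  rw [P.E_add, P.E_const, P.E_smul] at h1
  unfold FP.Pr
  linarith

/-- one-sided rounding -/
theorem rounding_one (S : Finset (β × γ)) (J : Finset δ) (R : β → γ → δ → ℝ) (hR : ∀ b c d, |R b c d| ≤ 2)
    {e K : ℝ} (he : 0 < e)
    (hno : ∀ (v : β → δ → ℝ) (w : γ → δ → ℝ), (∀ b d, v b d = 1 ∨ v b d = -1) →
      (∀ c d, w c d = 1 ∨ w c d = -1) →
      ∑ p ∈ S, ind (e ≤ (∑ d ∈ J, R p.1 p.2 d * v p.1 d * w p.2 d) / J.card) ≤ K)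
    (v : β → δ → ℝ) (w : γ → δ → ℝ) (hv : ∀ b d, |v b d| ≤ 1) (hw : ∀ c d, |w c d| ≤ 1) :
    e * ∑ p ∈ S, ind (4 * e ≤ (∑ d ∈ J, R p.1 p.2 d * v p.1 d * w p.2 d) / J.card) ≤ K := by
  classical
  set P := signFP (fun x : β × δ => v x.1 x.2) (fun x => hv x.1 x.2) with hP
  set Q := signFP (fun x : γ × δ => w x.1 x.2) (fun x => hw x.1 x.2) with hQ
  set Z : β × γ → (β × δ → Bool) → (γ × δ → Bool) → ℝ := fun p f g =>
    (∑ d ∈ J, R p.1 p.2 d * sg (f (p.1, d)) * sg (g (p.2, d))) / J.card with hZ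
  -- mean
  have hmean : ∀ p, P.E (fun f => Q.E (fun g => Z p f g)) =
      (∑ d ∈ J, R p.1 p.2 d * v p.1 d * w p.2 d) / J.card := by
    intro p
    have h1 : ∀ f, Q.E (fun g => Z p f g) =
        (∑ d ∈ J, R p.1 p.2 d * sg (f (p.1, d)) * w p.2 d) / J.card := by
      intro f
      simp only [hZ]
      rw [Q.E_div_const, Q.E_sum]
      congr 1
      refine Finset.sum_congr rfl (fun d _ => ?_)
      rw [Q.E_smul, hQ, signFP_mean]
    rw [P.E_congr (fun f _ => h1 f), P.E_div_const, P.E_sum]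
    congr 1
    refine Finset.sum_congr rfl (fun d _ => ?_)
    rw [P.E_mul_const, P.E_smul, hP, signFP_mean]
  -- bound
  have hbd : ∀ p f g, Z p f g ≤ 2 := by
    intro p f g
    simp only [hZ]
    rcases Nat.eq_zero_or_pos J.card with h0 | h0
    · rw [h0]; simp
    · have h1 : ∑ d ∈ J, R p.1 p.2 d * sg (f (p.1, d)) * sg (g (p.2, d)) ≤ ∑ _d ∈ J, (2 : ℝ) := by
        refine Finset.sum_le_sum (fun d _ => ?_)
        refine (le_abs_self _).trans ?_
        rw [abs_mul, abs_mul, abs_sg, abs_sg, mul_one, mul_one]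
        exact hR _ _ _
      rw [Finset.sum_const, nsmul_eq_mul] at h1
      rw [div_le_iff₀ (by exact_mod_cast h0)]
      linarith
  -- probability for a good pair
  have hpr : ∀ p, e * ind (4 * e ≤ (∑ d ∈ J, R p.1 p.2 d * v p.1 d * w p.2 d) / J.card) ≤
      P.E (fun f => Q.E (fun g => ind (e ≤ Z p f g))) := by
    intro p
    by_cases hp : 4 * e ≤ (∑ d ∈ J, R p.1 p.2 d * v p.1 d * w p.2 d) / J.card
    · rw [ind_of hp, mul_one]
      have h1 : P.E (fun f => Q.E (fun g => Z p f g)) ≤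
          P.E (fun f => Q.E (fun g => e + 2 * ind (e ≤ Z p f g))) := by
        refine P.E_mono (fun f _ => Q.E_mono (fun g _ => ?_))
        by_cases h : e ≤ Z p f g
        · rw [ind_of h]; linarith [hbd p f g]
        · rw [ind_not h]; linarith [not_le.mp h]
      have h2 : P.E (fun f => Q.E (fun g => e + 2 * ind (e ≤ Z p f g))) =
          e + 2 * P.E (fun f => Q.E (fun g => ind (e ≤ Z p f g))) := by
        rw [P.E_congr (fun f _ => by rw [Q.E_add, Q.E_const, Q.E_smul] :
          ∀ f, P.p f ≠ 0 → Q.E (fun g => e + 2 * ind (e ≤ Z p f g)) =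
            e + 2 * Q.E (fun g => ind (e ≤ Z p f g))), P.E_add, P.E_const, P.E_smul]
      rw [hmean p, h2] at h1
      linarith
    · rw [ind_not hp, mul_zero]
      exact P.E_nonneg (fun f _ => Q.E_nonneg (fun g _ => ind_nonneg _))
  rw [Finset.mul_sum]
  refine (Finset.sum_le_sum (fun p _ => hpr p)).trans ?_
  rw [← P.E_sum]
  refine P.E_le_const (fun f _ => ?_)
  rw [← Q.E_sum]
  refine Q.E_le_const (fun g _ => ?_)
  exact hno (fun b d => sg (f (b, d))) (fun c d => sg (g (c, d))) (fun _ _ => sg_or _) (fun _ _ => sg_or _)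

/-- RANDOM ROUNDING.  `S` a set of pairs (`b° × c°`), `J` the window, `|R| <= 2`.  If every sign test has at most `K`
pairs with mean `>= e`, then every bounded test has at most `2 K / e` pairs with `|mean| >= 4 e`. -/
theorem rounding (S : Finset (β × γ)) (J : Finset δ) (R : β → γ → δ → ℝ) (hR : ∀ b c d, |R b c d| ≤ 2)
    {e K : ℝ} (he : 0 < e)
    (hno : ∀ (v : β → δ → ℝ) (w : γ → δ → ℝ), (∀ b d, v b d = 1 ∨ v b d = -1) →
      (∀ c d, w c d = 1 ∨ w c d = -1) →
      ∑ p ∈ S, ind (e ≤ (∑ d ∈ J, R p.1 p.2 d * v p.1 d * w p.2 d) / J.card) ≤ K)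
    (v : β → δ → ℝ) (w : γ → δ → ℝ) (hv : ∀ b d, |v b d| ≤ 1) (hw : ∀ c d, |w c d| ≤ 1) :
    ∑ p ∈ S, ind (4 * e ≤ |(∑ d ∈ J, R p.1 p.2 d * v p.1 d * w p.2 d) / J.card|) ≤ 2 * K / e := by
  have h1 := rounding_one S J R hR he hno v w hv hw
  have h2 := rounding_one S J R hR he hno (fun b d => - v b d) w (fun b d => by rw [abs_neg]; exact hv b d) hw
  have h3 : ∀ p : β × γ, (∑ d ∈ J, R p.1 p.2 d * (fun b d => - v b d) p.1 d * w p.2 d) / J.card =
      - ((∑ d ∈ J, R p.1 p.2 d * v p.1 d * w p.2 d) / J.card) := by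
    intro p
    rw [← neg_div, ← Finset.sum_neg_distrib]
    congr 1
    exact Finset.sum_congr rfl (fun d _ => by ring)
  rw [Finset.sum_congr rfl (fun p _ => by rw [h3 p])] at h2
  rw [le_div_iff₀ he]
  have h4 : ∑ p ∈ S, ind (4 * e ≤ |(∑ d ∈ J, R p.1 p.2 d * v p.1 d * w p.2 d) / J.card|) ≤
      ∑ p ∈ S, ind (4 * e ≤ (∑ d ∈ J, R p.1 p.2 d * v p.1 d * w p.2 d) / J.card) +
      ∑ p ∈ S, ind (4 * e ≤ - ((∑ d ∈ J, R p.1 p.2 d * v p.1 d * w p.2 d) / J.card)) := by
    rw [← Finset.sum_add_distrib]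
    refine Finset.sum_le_sum (fun p _ => ?_)
    by_cases h : 4 * e ≤ |(∑ d ∈ J, R p.1 p.2 d * v p.1 d * w p.2 d) / J.card|
    · rw [ind_of h]
      rcases le_abs.mp h with h' | h'
      · rw [ind_of h']; linarith [ind_nonneg (4 * e ≤ - ((∑ d ∈ J, R p.1 p.2 d * v p.1 d * w p.2 d) / J.card))]
      · rw [ind_of h']; linarith [ind_nonneg (4 * e ≤ ((∑ d ∈ J, R p.1 p.2 d * v p.1 d * w p.2 d) / J.card))]
    · rw [ind_not h]
      exact add_nonneg (ind_nonneg _) (ind_nonneg _)
  have h5 := mul_le_mul_of_nonneg_left h4 he.le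
  linarith

end round

/-! ## clip -/

noncomputable section

/-- the clip to `[-1,1]` -/
def clip (x : ℝ) : ℝ := max (-1) (min 1 x)

end

theorem abs_clip_le (x : ℝ) : |clip x| ≤ 1 :=
  abs_le.mpr ⟨le_max_left _ _, max_le (by norm_num) (min_le_left _ _)⟩

theorem clip_eq {x : ℝ} (h : |x| ≤ 1) : clip x = x := by
  have := abs_le.mp h
  unfold clip
  rw [min_eq_right this.2, max_eq_right this.1]

/-- the clip does not increase the distance to `[-1,1]` -/
theorem clip_sq_le {F x : ℝ} (hF : |F| ≤ 1) : (F - clip x) ^ 2 ≤ (F - x) ^ 2 := by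
  have hF' := abs_le.mp hF
  unfold clip
  rcases le_total x (-1) with h | h
  · rw [min_eq_right (by linarith), max_eq_left h]
    nlinarith
  · rcases le_total x 1 with h' | h'
    · rw [min_eq_right h', max_eq_right h]
    · rw [min_eq_left h', max_eq_right (by norm_num)]
      nlinarith

/-- ENERGY DROP at a birth: `R = F - S`, new `S' = clip (S + (e/2) s)` with a sign `s`, mean of `R s` at least `e` -/
theorem energy_drop {δ : Type*} (J : Finset δ) (F S s : δ → ℝ) (hF : ∀ d, |F d| ≤ 1)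
    (hs : ∀ d, s d = 1 ∨ s d = -1) {e : ℝ} (he : 0 ≤ e)
    (hm : e ≤ (∑ d ∈ J, (F d - S d) * s d) / J.card) :
    (∑ d ∈ J, (F d - clip (S d + e / 2 * s d)) ^ 2) / J.card ≤
      (∑ d ∈ J, (F d - S d) ^ 2) / J.card - 3 / 4 * e ^ 2 := by
  rcases Nat.eq_zero_or_pos J.card with h0 | h0
  · have h1 : e ≤ 0 := by rw [h0] at hm; simpa using hm
    have h2 : e = 0 := le_antisymm h1 he
    rw [h0, h2]; simp
  · have hc : (0 : ℝ) < J.card := by exact_mod_cast h0
    have h1 : ∀ d ∈ J, (F d - clip (S d + e / 2 * s d)) ^ 2 ≤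
        (F d - S d) ^ 2 - e * ((F d - S d) * s d) + e ^ 2 / 4 := by
      intro d _
      refine (clip_sq_le (hF d)).trans (le_of_eq ?_)
      rcases hs d with h | h <;> rw [h] <;> ring
    have h2 := Finset.sum_le_sum h1
    rw [Finset.sum_add_distrib, Finset.sum_sub_distrib, ← Finset.mul_sum, Finset.sum_const,
      nsmul_eq_mul] at h2
    rw [le_div_iff₀ hc] at hm
    have h3 := mul_le_mul_of_nonneg_left hm he
    rw [div_le_iff₀ hc, sub_mul, div_mul_cancel₀ _ hc.ne']
    nlinarith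

end Pool.Agent.M3
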