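import Pool.Agent.M3.FPInfo
import Pool.Agent.M3.FPMart

/-!
# M3.Run: the runs of section 2.4 (MP_4d8f14, m = 3), abstract form

The state of an individual is its history `H : List (S × (V → ℝ))` (newest first; an entry `(s, h)` is an update by
`η h v_s`, the sign is inside the function).  `Er H = u - η ∑ h v_s` if `H.length ≤ n2`, and `0` otherwise (cap).
`hit (s, h)`: `η ≤ m (h (Er H) v_s)`.  Node process `proc`: letters (`r1`: first letter of the list with recorded index
which is a hit, repeated to the fixed point), then every public test, followed by `r1`.  `hist` = state along the path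
for an arbitrary record sequence `ν`.

No reset and no energy argument is needed for termination: the length of `H` never exceeds `n2 + 1`.
-/

set_option autoImplicit false
set_option linter.unusedSectionVars false

namespace Pool.Agent.M3

open Finset Pool.Agent.PWZ

/-- a normalised positive linear functional on functions (mean over a window) -/
structure IsMean {V : Type*} (m : (V → ℝ) → ℝ) : Prop where
  add : ∀ f g : V → ℝ, m (fun d => f d + g d) = m f + m g
  smul : ∀ (c : ℝ) (f : V → ℝ), m (fun d => c * f d) = c * m f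
  mono : ∀ f g : V → ℝ, (∀ d, f d ≤ g d) → m f ≤ m g
  one : m (fun _ => 1) = 1

namespace IsMean

variable {V : Type*} {m : (V → ℝ) → ℝ}

theorem const (hm : IsMean m) (c : ℝ) : m (fun _ => c) = c := by
  have h := hm.smul c (fun _ => 1)
  rw [hm.one, mul_one] at h
  simpa using h

theorem zero (hm : IsMean m) : m (fun _ => 0) = 0 := hm.const 0

theorem neg (hm : IsMean m) (f : V → ℝ) : m (fun d => - f d) = - m f := by
  have h := hm.smul (-1) f
  simpa using h

theorem sub (hm : IsMean m) (f g : V → ℝ) : m (fun d => f d - g d) = m f - m g := by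
  have h := hm.add f (fun d => - g d)
  rw [hm.neg] at h
  simpa [sub_eq_add_neg] using h

theorem nonneg (hm : IsMean m) {f : V → ℝ} (h : ∀ d, 0 ≤ f d) : 0 ≤ m f := by
  have := hm.mono (fun _ => 0) f h
  rwa [hm.zero] at this

theorem le_const (hm : IsMean m) {f : V → ℝ} {c : ℝ} (h : ∀ d, f d ≤ c) : m f ≤ c := by
  have := hm.mono f (fun _ => c) h
  rwa [hm.const] at this

theorem abs_le (hm : IsMean m) {f : V → ℝ} {c : ℝ} (h : ∀ d, |f d| ≤ c) : |m f| ≤ c := by
  rw [_root_.abs_le]
  refine ⟨?_, hm.le_const fun d => (_root_.abs_le.1 (h d)).2⟩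
  have := hm.mono (fun _ => -c) f fun d => (_root_.abs_le.1 (h d)).1
  rwa [hm.const] at this

end IsMean

noncomputable section

variable {S V : Type*}

/-- the error of an individual with history `H` -/
def Er (η : ℝ) (n2 : ℕ) (u : V → ℝ) (v : S → V → ℝ) (H : List (S × (V → ℝ))) : V → ℝ := fun d =>
  if H.length ≤ n2 then u d - η * (H.map fun p => p.2 d * v p.1 d).sum else 0

/-- the data of an individual at a node: the mean, the letters, the target, the multipliers, restart -/
structure Loc (S V : Type*) where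
  m : (V → ℝ) → ℝ
  ls : List (S × (V → ℝ))
  u : V → ℝ
  v : S → V → ℝ
  rs : Prop

/-- a hit -/
def Hit (η : ℝ) (n2 : ℕ) (x : Loc S V) (H : List (S × (V → ℝ))) (p : S × (V → ℝ)) : Prop :=
  η ≤ x.m (fun d => p.2 d * Er η n2 x.u x.v H d * x.v p.1 d)

open Classical in
/-- a public test -/
def app (η : ℝ) (n2 : ℕ) (x : Loc S V) (ν : S → Prop) (p : S × (V → ℝ)) (H : List (S × (V → ℝ))) :
    List (S × (V → ℝ)) := if ν p.1 ∧ Hit η n2 x H p then p :: H else H

open Classical in
/-- one letter -/
def step1 (η : ℝ) (n2 : ℕ) (x : Loc S V) (ν : S → Prop) (H : List (S × (V → ℝ))) : List (S × (V → ℝ)) :=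
  match x.ls.find? (fun p => decide (ν p.1 ∧ Hit η n2 x H p)) with
  | some p => p :: H
  | none => H

/-- letters until nothing happens -/
def r1 (η : ℝ) (n2 : ℕ) (x : Loc S V) (ν : S → Prop) (H : List (S × (V → ℝ))) : List (S × (V → ℝ)) :=
  (step1 η n2 x ν)^[n2 + 2] H

/-- the process of a node with the public tests `ts` -/
def proc (η : ℝ) (n2 : ℕ) (x : Loc S V) (ν : S → Prop) : List (S × (V → ℝ)) → List (S × (V → ℝ)) →
    List (S × (V → ℝ))
  | [], H => r1 η n2 x ν H
  | p :: ts, H => proc η n2 x ν ts (app η n2 x ν p (r1 η n2 x ν H))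

open Classical in
/-- the history along the path -/
def hist (η : ℝ) (n2 : ℕ) (x : ℕ → Loc S V) (ts : ℕ → List (S × (V → ℝ))) (ν : ℕ → S → Prop) :
    ℕ → List (S × (V → ℝ))
  | 0 => proc η n2 (x 0) (ν 0) (ts 0) []
  | t + 1 => proc η n2 (x (t + 1)) (ν (t + 1)) (ts (t + 1)) (if (x (t + 1)).rs then [] else hist η n2 x ts ν t)

open Classical in
/-- the history before the node `t` (after a restart: empty) -/
def hpre (η : ℝ) (n2 : ℕ) (x : ℕ → Loc S V) (ts : ℕ → List (S × (V → ℝ))) (ν : ℕ → S → Prop) :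
    ℕ → List (S × (V → ℝ))
  | 0 => []
  | t + 1 => if (x (t + 1)).rs then [] else hist η n2 x ts ν t

end

section

variable {S V : Type*} {η : ℝ} {n2 : ℕ} {x : Loc S V} {ν ν' : S → Prop}

theorem Er_cap {u : V → ℝ} {v : S → V → ℝ} {H : List (S × (V → ℝ))} (h : n2 < H.length) : Er η n2 u v H = fun _ => 0 := by
  funext d
  unfold Er
  rw [if_neg (by omega)]

theorem not_hit_cap (hη : 0 < η) (hm : IsMean x.m) {H : List (S × (V → ℝ))} (h : n2 < H.length)
    (p : S × (V → ℝ)) : ¬ Hit η n2 x H p := by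
  unfold Hit
  rw [Er_cap h]
  simp only [mul_zero, zero_mul]
  rw [hm.zero]
  exact not_le.2 hη

theorem abs_Er_le (hη : 0 < η) {u : V → ℝ} {v : S → V → ℝ} {H : List (S × (V → ℝ))} (hu : ∀ d, |u d| ≤ 1)
    (hv : ∀ s d, |v s d| ≤ 1) (hH : ∀ p ∈ H, ∀ d, |p.2 d| ≤ 1) (d : V) : |Er η n2 u v H d| ≤ 1 + n2 * η := by
  have h1 : |(H.map fun p => p.2 d * v p.1 d).sum| ≤ H.length := by
    induction H with
    | nil => simp
    | cons p H ih =>
      rw [List.map_cons, List.sum_cons, List.length_cons]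
      have h2 := ih fun q hq => hH q (List.mem_cons_of_mem _ hq)
      have h3 : |p.2 d * v p.1 d| ≤ 1 := by
        rw [abs_mul]
        exact mul_le_one₀ (hH p List.mem_cons_self d) (abs_nonneg _) (hv _ _)
      push_cast
      calc _ ≤ |p.2 d * v p.1 d| + |(H.map fun p => p.2 d * v p.1 d).sum| := abs_add_le _ _
        _ ≤ _ := by linarith
  unfold Er
  split_ifs with h
  · have h2 : (H.length : ℝ) ≤ n2 := by exact_mod_cast h
    calc |u d - η * (H.map fun p => p.2 d * v p.1 d).sum| ≤ |u d| + |η * (H.map fun p => p.2 d * v p.1 d).sum| :=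
          abs_sub _ _
      _ ≤ 1 + n2 * η := by
          rw [abs_mul, abs_of_pos hη]
          have := hu d
          nlinarith
  · rw [abs_zero]
    positivity

/-! ### the steps -/

theorem app_or (p : S × (V → ℝ)) (H : List (S × (V → ℝ))) :
    (app η n2 x ν p H = H ∧ ¬ (ν p.1 ∧ Hit η n2 x H p)) ∨ (app η n2 x ν p H = p :: H ∧ ν p.1 ∧ Hit η n2 x H p) := by
  unfold app
  split_ifs with h
  · exact Or.inr ⟨rfl, h⟩
  · exact Or.inl ⟨rfl, h⟩

theorem step1_or (H : List (S × (V → ℝ))) :
    (step1 η n2 x ν H = H ∧ ∀ p ∈ x.ls, ¬ (ν p.1 ∧ Hit η n2 x H p)) ∨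
      ∃ p ∈ x.ls, step1 η n2 x ν H = p :: H ∧ ν p.1 ∧ Hit η n2 x H p := by
  classical
  unfold step1
  cases h : x.ls.find? (fun p => decide (ν p.1 ∧ Hit η n2 x H p)) with
  | none =>
    left
    refine ⟨rfl, fun p hp => ?_⟩
    have := List.find?_eq_none.1 h p hp
    simpa using this
  | some p =>
    right
    have h1 := List.find?_some h
    exact ⟨p, List.mem_of_find?_eq_some h, rfl, by simpa using h1⟩

theorem app_suffix (p : S × (V → ℝ)) (H : List (S × (V → ℝ))) : H <:+ app η n2 x ν p H := by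
  rcases app_or (η := η) (n2 := n2) (x := x) (ν := ν) p H with h | h
  · rw [h.1]
  · rw [h.1]; exact List.suffix_cons _ _

theorem step1_suffix (H : List (S × (V → ℝ))) : H <:+ step1 η n2 x ν H := by
  rcases step1_or (η := η) (n2 := n2) (x := x) (ν := ν) H with h | ⟨p, -, h, -⟩
  · rw [h.1]
  · rw [h]; exact List.suffix_cons _ _

theorem iter_suffix (k : ℕ) (H : List (S × (V → ℝ))) : H <:+ (step1 η n2 x ν)^[k] H := by
  induction k generalizing H with
  | zero => exact List.suffix_refl _
  | succ k ih =>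
    rw [Function.iterate_succ_apply]
    exact (step1_suffix H).trans (ih _)

theorem r1_suffix (H : List (S × (V → ℝ))) : H <:+ r1 η n2 x ν H := iter_suffix _ H

theorem proc_suffix (ts : List (S × (V → ℝ))) (H : List (S × (V → ℝ))) : H <:+ proc η n2 x ν ts H := by
  induction ts generalizing H with
  | nil => exact r1_suffix H
  | cons p ts ih => exact ((r1_suffix H).trans (app_suffix p _)).trans (ih _)

/-- the length is bounded -/
theorem app_len (hη : 0 < η) (hm : IsMean x.m) (p : S × (V → ℝ)) {H : List (S × (V → ℝ))} (h : H.length ≤ n2 + 1) :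
    (app η n2 x ν p H).length ≤ n2 + 1 := by
  rcases app_or (η := η) (n2 := n2) (x := x) (ν := ν) p H with h1 | h1
  · rw [h1.1]; exact h
  · rw [h1.1, List.length_cons]
    by_contra h2
    exact not_hit_cap hη hm (by omega) p h1.2.2

theorem step1_len (hη : 0 < η) (hm : IsMean x.m) {H : List (S × (V → ℝ))} (h : H.length ≤ n2 + 1) :
    (step1 η n2 x ν H).length ≤ n2 + 1 := by
  rcases step1_or (η := η) (n2 := n2) (x := x) (ν := ν) H with h1 | ⟨p, -, h1, -, h2⟩
  · rw [h1.1]; exact h
  · rw [h1, List.length_cons]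
    by_contra h3
    exact not_hit_cap hη hm (by omega) p h2

theorem iter_len (hη : 0 < η) (hm : IsMean x.m) (k : ℕ) {H : List (S × (V → ℝ))} (h : H.length ≤ n2 + 1) :
    ((step1 η n2 x ν)^[k] H).length ≤ n2 + 1 := by
  induction k generalizing H with
  | zero => exact h
  | succ k ih =>
    rw [Function.iterate_succ_apply]
    exact ih (step1_len hη hm h)

theorem r1_len (hη : 0 < η) (hm : IsMean x.m) {H : List (S × (V → ℝ))} (h : H.length ≤ n2 + 1) :
    (r1 η n2 x ν H).length ≤ n2 + 1 := iter_len hη hm _ h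

theorem proc_len (hη : 0 < η) (hm : IsMean x.m) (ts : List (S × (V → ℝ))) {H : List (S × (V → ℝ))}
    (h : H.length ≤ n2 + 1) : (proc η n2 x ν ts H).length ≤ n2 + 1 := by
  induction ts generalizing H with
  | nil => exact r1_len hη hm h
  | cons p ts ih => exact ih (app_len hη hm p (r1_len hη hm h))

/-- an iterate which is not yet at the fixed point has grown -/
theorem iter_grow (k : ℕ) (H : List (S × (V → ℝ))) :
    (step1 η n2 x ν ((step1 η n2 x ν)^[k] H) = (step1 η n2 x ν)^[k] H) ∨
      H.length + k + 1 ≤ (step1 η n2 x ν ((step1 η n2 x ν)^[k] H)).length := by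
  induction k with
  | zero =>
    rcases step1_or (η := η) (n2 := n2) (x := x) (ν := ν) H with h1 | ⟨p, -, h1, -⟩
    · exact Or.inl h1.1
    · right
      show H.length + 0 + 1 ≤ (step1 η n2 x ν H).length
      rw [h1, List.length_cons, Nat.add_zero]
  | succ k ih =>
    rw [Function.iterate_succ_apply']
    rcases ih with h | h
    · left; rw [h, h]
    · rcases step1_or (η := η) (n2 := n2) (x := x) (ν := ν) (step1 η n2 x ν ((step1 η n2 x ν)^[k] H)) with
        h1 | ⟨p, -, h1, -⟩
      · exact Or.inl h1.1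
      · right
        rw [h1, List.length_cons]
        omega

/-- (P1) for the letters: after `r1` no letter is a hit -/
theorem r1_fix (hη : 0 < η) (hm : IsMean x.m) {H : List (S × (V → ℝ))} (h : H.length ≤ n2 + 1) {p : S × (V → ℝ)}
    (hp : p ∈ x.ls) (hν : ν p.1) : ¬ Hit η n2 x (r1 η n2 x ν H) p := by
  have h1 : step1 η n2 x ν (r1 η n2 x ν H) = r1 η n2 x ν H := by
    rcases iter_grow (η := η) (n2 := n2) (x := x) (ν := ν) (n2 + 2) H with h2 | h2
    · exact h2
    · have h3 := step1_len (ν := ν) hη hm (r1_len (ν := ν) hη hm h)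
      unfold r1 at h3
      omega
  rcases step1_or (η := η) (n2 := n2) (x := x) (ν := ν) (r1 η n2 x ν H) with h2 | ⟨q, -, h2, -⟩
  · exact fun h3 => h2.2 p hp ⟨hν, h3⟩
  · rw [h1] at h2
    have := congrArg List.length h2
    rw [List.length_cons] at this
    omega

/-- (P1) -/
theorem proc_fix (hη : 0 < η) (hm : IsMean x.m) (ts : List (S × (V → ℝ))) {H : List (S × (V → ℝ))}
    (h : H.length ≤ n2 + 1) {p : S × (V → ℝ)} (hp : p ∈ x.ls) (hν : ν p.1) :
    ¬ Hit η n2 x (proc η n2 x ν ts H) p := by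
  induction ts generalizing H with
  | nil => exact r1_fix hη hm h hp hν
  | cons q ts ih => exact ih (app_len hη hm q (r1_len hη hm h))

/-- a list of tests extended by one test -/
theorem proc_append (ts : List (S × (V → ℝ))) (p : S × (V → ℝ)) (H : List (S × (V → ℝ))) :
    proc η n2 x ν (ts ++ [p]) H = r1 η n2 x ν (app η n2 x ν p (proc η n2 x ν ts H)) := by
  induction ts generalizing H with
  | nil => rfl
  | cons q ts ih => exact ih _

/-- the entries of the history come from the letters and the tests, with recorded indices -/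
theorem app_mem {T : S × (V → ℝ) → Prop} {p : S × (V → ℝ)} {H : List (S × (V → ℝ))} (hH : ∀ q ∈ H, T q)
    (hp : ν p.1 → T p) : ∀ q ∈ app η n2 x ν p H, T q := by
  rcases app_or (η := η) (n2 := n2) (x := x) (ν := ν) p H with h1 | h1
  · rw [h1.1]; exact hH
  · rw [h1.1]
    intro q hq
    rcases List.mem_cons.1 hq with rfl | hq
    · exact hp h1.2.1
    · exact hH q hq

theorem step1_mem {T : S × (V → ℝ) → Prop} {H : List (S × (V → ℝ))} (hH : ∀ q ∈ H, T q)
    (hl : ∀ p ∈ x.ls, ν p.1 → T p) : ∀ q ∈ step1 η n2 x ν H, T q := by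
  rcases step1_or (η := η) (n2 := n2) (x := x) (ν := ν) H with h1 | ⟨p, hp, h1, h2, -⟩
  · rw [h1.1]; exact hH
  · rw [h1]
    intro q hq
    rcases List.mem_cons.1 hq with rfl | hq
    · exact hl q hp h2
    · exact hH q hq

theorem r1_mem {T : S × (V → ℝ) → Prop} {H : List (S × (V → ℝ))} (hH : ∀ q ∈ H, T q)
    (hl : ∀ p ∈ x.ls, ν p.1 → T p) : ∀ q ∈ r1 η n2 x ν H, T q := by
  have : ∀ k, ∀ q ∈ (step1 η n2 x ν)^[k] H, T q := by
    intro k
    induction k with
    | zero => exact hH
    | succ k ih =>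
      rw [Function.iterate_succ_apply']
      exact step1_mem ih hl
  exact this _

theorem proc_mem {T : S × (V → ℝ) → Prop} {H : List (S × (V → ℝ))} {ts : List (S × (V → ℝ))} (hH : ∀ q ∈ H, T q)
    (hl : ∀ p ∈ x.ls, ν p.1 → T p) (ht : ∀ p ∈ ts, ν p.1 → T p) : ∀ q ∈ proc η n2 x ν ts H, T q := by
  induction ts generalizing H with
  | nil => exact r1_mem hH hl
  | cons p ts ih =>
    exact ih (app_mem (r1_mem hH hl) (ht p List.mem_cons_self)) fun q hq => ht q (List.mem_cons_of_mem _ hq)

/-! ### consistency: a smaller record which contains all used indices gives the same run -/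

theorem app_cons {p : S × (V → ℝ)} {H : List (S × (V → ℝ))} (hs : ∀ s, ν' s → ν s)
    (hu : ν p.1 → Hit η n2 x H p → ν' p.1) : app η n2 x ν' p H = app η n2 x ν p H := by
  unfold app
  by_cases h : ν p.1 ∧ Hit η n2 x H p
  · rw [if_pos h, if_pos ⟨hu h.1 h.2, h.2⟩]
  · rw [if_neg h, if_neg fun h' => h ⟨hs _ h'.1, h'.2⟩]

theorem find_cons {α : Type*} (l : List α) (a b : α → Bool) (hab : ∀ z ∈ l, a z = true → b z = true)
    (hf : ∀ z, l.find? b = some z → a z = true) : l.find? a = l.find? b := by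
  induction l with
  | nil => rfl
  | cons z l ih =>
    rw [List.find?_cons, List.find?_cons]
    cases hb : b z with
    | true =>
      have h1 : a z = true := hf z (by rw [List.find?_cons, hb])
      rw [h1]
    | false =>
      have h1 : a z = false := by
        cases ha : a z with
        | false => rfl
        | true => rw [hab z List.mem_cons_self ha] at hb; exact absurd hb (by simp)
      rw [h1]
      exact ih (fun y hy => hab y (List.mem_cons_of_mem _ hy)) fun y hy => hf y (by rw [List.find?_cons, hb]; exact hy)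

theorem step1_cons {H : List (S × (V → ℝ))} (hs : ∀ s, ν' s → ν s)
    (hu : ∀ p, step1 η n2 x ν H = p :: H → ν' p.1) : step1 η n2 x ν' H = step1 η n2 x ν H := by
  classical
  have h1 : x.ls.find? (fun p => decide (ν' p.1 ∧ Hit η n2 x H p)) =
      x.ls.find? (fun p => decide (ν p.1 ∧ Hit η n2 x H p)) := by
    refine find_cons _ _ _ (fun z _ hz => ?_) fun z hz => ?_
    · simp only [decide_eq_true_eq] at hz ⊢
      exact ⟨hs _ hz.1, hz.2⟩
    · have h2 := List.find?_some hz
      simp only [decide_eq_true_eq] at h2 ⊢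
      refine ⟨hu z ?_, h2.2⟩
      unfold step1
      rw [hz]
  unfold step1
  rw [h1]

/-- all entries of `H'` which are not in the suffix `H` have indices in `ν'` -/
def New (ν' : S → Prop) (H H' : List (S × (V → ℝ))) : Prop := ∃ L, H' = L ++ H ∧ ∀ p ∈ L, ν' p.1

theorem New.left {H H' H'' : List (S × (V → ℝ))} (h : New ν' H H'') (h1 : H <:+ H') (h2 : H' <:+ H'') : New ν' H H' := by
  obtain ⟨L, rfl, hL⟩ := h
  obtain ⟨L1, rfl⟩ := h1
  obtain ⟨L2, h3⟩ := h2
  refine ⟨L1, rfl, fun p hp => hL p ?_⟩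
  rw [← List.append_assoc] at h3
  rw [← List.append_cancel_right h3]
  exact List.mem_append_right _ hp

theorem New.right {H H' H'' : List (S × (V → ℝ))} (h : New ν' H H'') (h1 : H <:+ H') (h2 : H' <:+ H'') : New ν' H' H'' := by
  obtain ⟨L, rfl, hL⟩ := h
  obtain ⟨L1, rfl⟩ := h1
  obtain ⟨L2, h3⟩ := h2
  refine ⟨L2, h3.symm, fun p hp => hL p ?_⟩
  rw [← List.append_assoc] at h3
  rw [← List.append_cancel_right h3]
  exact List.mem_append_left _ hp

theorem New.one {H : List (S × (V → ℝ))} {p : S × (V → ℝ)} (h : New ν' H (p :: H)) : ν' p.1 := by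
  obtain ⟨L, h1, hL⟩ := h
  have h2 : L = [p] := (List.append_cancel_right (show [p] ++ H = L ++ H from h1)).symm
  exact hL p (by rw [h2]; exact List.mem_singleton_self p)

theorem iter_cons (k : ℕ) {H : List (S × (V → ℝ))} (hs : ∀ s, ν' s → ν s)
    (hu : New ν' H ((step1 η n2 x ν)^[k] H)) : (step1 η n2 x ν')^[k] H = (step1 η n2 x ν)^[k] H := by
  induction k generalizing H with
  | zero => rfl
  | succ k ih =>
    rw [Function.iterate_succ_apply] at hu
    rw [Function.iterate_succ_apply, Function.iterate_succ_apply]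
    have h1 : step1 η n2 x ν' H = step1 η n2 x ν H := by
      refine step1_cons hs fun p hp => ?_
      have h2 := hu.left (step1_suffix H) (iter_suffix k _)
      rw [hp] at h2
      exact h2.one
    rw [h1]
    exact ih (hu.right (step1_suffix H) (iter_suffix k _))

theorem r1_cons {H : List (S × (V → ℝ))} (hs : ∀ s, ν' s → ν s) (hu : New ν' H (r1 η n2 x ν H)) :
    r1 η n2 x ν' H = r1 η n2 x ν H := iter_cons _ hs hu

theorem proc_cons {ts : List (S × (V → ℝ))} {H : List (S × (V → ℝ))} (hs : ∀ s, ν' s → ν s)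
    (hu : New ν' H (proc η n2 x ν ts H)) : proc η n2 x ν' ts H = proc η n2 x ν ts H := by
  induction ts generalizing H with
  | nil => exact r1_cons hs hu
  | cons p ts ih =>
    have a1 := r1_suffix (η := η) (n2 := n2) (x := x) (ν := ν) H
    have a2 := app_suffix (η := η) (n2 := n2) (x := x) (ν := ν) p (r1 η n2 x ν H)
    have a3 := proc_suffix (η := η) (n2 := n2) (x := x) (ν := ν) ts (app η n2 x ν p (r1 η n2 x ν H))
    have hu' : New ν' H (proc η n2 x ν ts (app η n2 x ν p (r1 η n2 x ν H))) := hu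
    have h1 : r1 η n2 x ν' H = r1 η n2 x ν H := r1_cons hs (hu'.left a1 (a2.trans a3))
    have h2 : app η n2 x ν' p (r1 η n2 x ν H) = app η n2 x ν p (r1 η n2 x ν H) := by
      refine app_cons hs fun h3 h4 => ?_
      have h5 := (hu'.right a1 (a2.trans a3)).left a2 a3
      have h6 : app η n2 x ν p (r1 η n2 x ν H) = p :: r1 η n2 x ν H := by
        unfold app
        rw [if_pos ⟨h3, h4⟩]
      rw [h6] at h5
      exact h5.one
    show proc η n2 x ν' ts (app η n2 x ν' p (r1 η n2 x ν' H)) = proc η n2 x ν ts (app η n2 x ν p (r1 η n2 x ν H))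
    rw [h1, h2]
    exact ih (hu'.right (a1.trans a2) a3)

end

/-! ### the history along the path -/

section

variable {S V : Type*} {η : ℝ} {n2 : ℕ} {x : ℕ → Loc S V} {ts : ℕ → List (S × (V → ℝ))} {ν ν' : ℕ → S → Prop}

theorem hist_eq (t : ℕ) : hist η n2 x ts ν t = proc η n2 (x t) (ν t) (ts t) (hpre η n2 x ts ν t) := by
  cases t <;> rfl

theorem hpre_suffix (t : ℕ) : hpre η n2 x ts ν t <:+ hist η n2 x ts ν t := by
  rw [hist_eq]
  exact proc_suffix _ _

open Classical in
theorem hpre_succ_eq (t : ℕ) : hpre η n2 x ts ν (t + 1) = if (x (t + 1)).rs then [] else hist η n2 x ts ν t := rfl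

theorem hpre_succ_rs {t : ℕ} (h : (x (t + 1)).rs) : hpre η n2 x ts ν (t + 1) = [] := by
  rw [hpre_succ_eq, if_pos h]

theorem hpre_succ {t : ℕ} (h : ¬ (x (t + 1)).rs) : hpre η n2 x ts ν (t + 1) = hist η n2 x ts ν t := by
  rw [hpre_succ_eq, if_neg h]

theorem hist_len (hη : 0 < η) (hm : ∀ t, IsMean (x t).m) (t : ℕ) : (hist η n2 x ts ν t).length ≤ n2 + 1 := by
  induction t with
  | zero => exact proc_len hη (hm 0) _ (by simp)
  | succ t ih =>
    rw [hist_eq]
    refine proc_len hη (hm _) _ ?_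
    by_cases h : (x (t + 1)).rs
    · rw [hpre_succ_rs h]; simp
    · rw [hpre_succ h]; exact ih

theorem hpre_len (hη : 0 < η) (hm : ∀ t, IsMean (x t).m) (t : ℕ) : (hpre η n2 x ts ν t).length ≤ n2 + 1 := by
  cases t with
  | zero => simp [hpre]
  | succ t =>
    by_cases h : (x (t + 1)).rs
    · rw [hpre_succ_rs h]; simp
    · rw [hpre_succ h]; exact hist_len hη hm t

/-- **(P1)**: no recorded letter is a hit -/
theorem hist_P1 (hη : 0 < η) (hm : ∀ t, IsMean (x t).m) (t : ℕ) {p : S × (V → ℝ)} (hp : p ∈ (x t).ls)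
    (hν : ν t p.1) : ¬ Hit η n2 (x t) (hist η n2 x ts ν t) p := by
  rw [hist_eq]
  exact proc_fix hη (hm t) _ (hpre_len hη hm t) hp hν

/-- the entries of the history -/
theorem hist_mem {T : S × (V → ℝ) → Prop} (n : ℕ) (hl : ∀ t ≤ n, ∀ p ∈ (x t).ls, ν t p.1 → T p)
    (ht : ∀ t ≤ n, ∀ p ∈ ts t, ν t p.1 → T p) : ∀ q ∈ hist η n2 x ts ν n, T q := by
  induction n with
  | zero => exact proc_mem (by simp) (hl 0 le_rfl) (ht 0 le_rfl)
  | succ n ih =>
    rw [hist_eq]
    refine proc_mem ?_ (hl _ le_rfl) (ht _ le_rfl)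
    by_cases h : (x (n + 1)).rs
    · rw [hpre_succ_rs h]; simp
    · rw [hpre_succ h]
      exact ih (fun t h => hl t (by omega)) fun t h => ht t (by omega)

/-- **consistency**: a smaller record which contains all used indices gives the same run -/
theorem hist_cons (n : ℕ) (hs : ∀ t ≤ n, ∀ s, ν' t s → ν t s)
    (hu : ∀ t ≤ n, New (ν' t) (hpre η n2 x ts ν t) (hist η n2 x ts ν t)) :
    hist η n2 x ts ν' n = hist η n2 x ts ν n := by
  induction n with
  | zero => exact proc_cons (hs 0 le_rfl) (hu 0 le_rfl)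
  | succ n ih =>
    have h1 := ih (fun t h => hs t (by omega)) fun t h => hu t (by omega)
    have h2 : hpre η n2 x ts ν' (n + 1) = hpre η n2 x ts ν (n + 1) := by
      rw [hpre_succ_eq, hpre_succ_eq, h1]
    rw [hist_eq, h2, hist_eq]
    have h3 := hu (n + 1) le_rfl
    rw [hist_eq] at h3
    exact proc_cons (hs _ le_rfl) h3

/-- `s` is used at `t` -/
def UsedAt (η : ℝ) (n2 : ℕ) (x : ℕ → Loc S V) (ts : ℕ → List (S × (V → ℝ))) (ν : ℕ → S → Prop) (t : ℕ) (s : S) : Prop :=
  ∃ L, hist η n2 x ts ν t = L ++ hpre η n2 x ts ν t ∧ ∃ p ∈ L, p.1 = s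

theorem new_of_used {t : ℕ} {α : S → Prop} (h : ∀ s, UsedAt η n2 x ts ν t s → α s) :
    New α (hpre η n2 x ts ν t) (hist η n2 x ts ν t) := by
  obtain ⟨L, hL⟩ := hpre_suffix (η := η) (n2 := n2) (x := x) (ts := ts) (ν := ν) t
  exact ⟨L, hL.symm, fun p hp => h p.1 ⟨L, hL.symm, p, hp, rfl⟩⟩

theorem hist_cons' (n : ℕ) (hs : ∀ t ≤ n, ∀ s, ν' t s → ν t s)
    (hu : ∀ t ≤ n, ∀ s, UsedAt η n2 x ts ν t s → ν' t s) :
    hist η n2 x ts ν' n = hist η n2 x ts ν n :=
  hist_cons n hs fun t ht => new_of_used (hu t ht)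

/-- a used index is recorded -/
theorem UsedAt.rec {t : ℕ} {s : S} (h : UsedAt η n2 x ts ν t s) : ν t s := by
  obtain ⟨L, hL, p, hp, rfl⟩ := h
  -- all new entries are recorded
  have key : ∀ (ts' H : List (S × (V → ℝ))), New (ν t) H (proc η n2 (x t) (ν t) ts' H) := by
    intro ts'
    have ha : ∀ (q : S × (V → ℝ)) H, New (ν t) H (app η n2 (x t) (ν t) q H) := by
      intro q H
      rcases app_or (η := η) (n2 := n2) (x := x t) (ν := ν t) q H with h1 | h1
      · exact ⟨[], by rw [h1.1]; rfl, by simp⟩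
      · exact ⟨[q], by rw [h1.1]; rfl, by simpa using h1.2.1⟩
    have tr : ∀ {H1 H2 H3 : List (S × (V → ℝ))}, New (ν t) H1 H2 → New (ν t) H2 H3 → New (ν t) H1 H3 := by
      rintro H1 H2 H3 ⟨L1, rfl, h1⟩ ⟨L2, rfl, h2⟩
      refine ⟨L2 ++ L1, by rw [List.append_assoc], fun q hq => ?_⟩
      rcases List.mem_append.1 hq with h | h
      · exact h2 q h
      · exact h1 q h
    have hr : ∀ H, New (ν t) H (r1 η n2 (x t) (ν t) H) := by
      intro H
      unfold r1
      have : ∀ k H, New (ν t) H ((step1 η n2 (x t) (ν t))^[k] H) := by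
        intro k
        induction k with
        | zero => exact fun H => ⟨[], rfl, by simp⟩
        | succ k ih =>
          intro H
          rw [Function.iterate_succ_apply]
          refine tr ?_ (ih _)
          rcases step1_or (η := η) (n2 := n2) (x := x t) (ν := ν t) H with h1 | ⟨q, -, h1, h2, -⟩
          · exact ⟨[], by rw [h1.1]; rfl, by simp⟩
          · exact ⟨[q], by rw [h1]; rfl, by simpa using h2⟩
      exact this _ H
    induction ts' with
    | nil => exact hr
    | cons q ts' ih => exact fun H => tr (tr (hr H) (ha q _)) (ih _)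
  have h1 := key (ts t) (hpre η n2 x ts ν t)
  rw [← hist_eq] at h1
  obtain ⟨L', hL', h2⟩ := h1
  have h3 : L = L' := List.append_cancel_right (hL.symm.trans hL')
  exact h2 p (h3 ▸ hp)

theorem hpre_congr {t : ℕ} {x' : ℕ → Loc S V} {ts' : ℕ → List (S × (V → ℝ))} (hx : x t = x' t)
    (h : ∀ s < t, hist η n2 x ts ν s = hist η n2 x' ts' ν' s) : hpre η n2 x ts ν t = hpre η n2 x' ts' ν' t := by
  cases t with
  | zero => rfl
  | succ t => rw [hpre_succ_eq, hpre_succ_eq, hx, h t (by omega)]

/-- the run uses only the data, the tests and the records up to now -/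
theorem hist_congr {x' : ℕ → Loc S V} {ts' : ℕ → List (S × (V → ℝ))} (n : ℕ) (hx : ∀ t ≤ n, x t = x' t)
    (hts : ∀ t ≤ n, ts t = ts' t) (hν : ∀ t ≤ n, ν t = ν' t) :
    hist η n2 x ts ν n = hist η n2 x' ts' ν' n := by
  induction n using Nat.strong_induction_on with
  | _ n ih =>
    rw [hist_eq, hist_eq, hx n le_rfl, hts n le_rfl, hν n le_rfl,
      hpre_congr (hx n le_rfl) fun s hs => ih s hs (fun t ht => hx t (by omega)) (fun t ht => hts t (by omega))
        fun t ht => hν t (by omega)]

theorem hpre_congr' {x' : ℕ → Loc S V} {ts' : ℕ → List (S × (V → ℝ))} (n : ℕ) (hx : ∀ t ≤ n, x t = x' t)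
    (hts : ∀ t < n, ts t = ts' t) (hν : ∀ t < n, ν t = ν' t) :
    hpre η n2 x ts ν n = hpre η n2 x' ts' ν' n :=
  hpre_congr (hx n le_rfl) fun s hs => hist_congr s (fun t ht => hx t (by omega)) (fun t ht => hts t (by omega))
    fun t ht => hν t (by omega)

theorem usedAt_congr {t : ℕ} (h1 : hpre η n2 x ts ν t = hpre η n2 x ts ν' t)
    (h2 : hist η n2 x ts ν t = hist η n2 x ts ν' t) (s : S) :
    UsedAt η n2 x ts ν t s ↔ UsedAt η n2 x ts ν' t s := by
  unfold UsedAt
  rw [h1, h2]

/-- number of updates at the node `t` -/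
noncomputable def upd (η : ℝ) (n2 : ℕ) (x : ℕ → Loc S V) (ts : ℕ → List (S × (V → ℝ))) (ν : ℕ → S → Prop) (t : ℕ) : ℝ :=
  ((hist η n2 x ts ν t).length : ℝ) - ((hpre η n2 x ts ν t).length : ℝ)

theorem upd_nonneg (t : ℕ) : 0 ≤ upd η n2 x ts ν t := by
  have := (hpre_suffix (η := η) (n2 := n2) (x := x) (ts := ts) (ν := ν) t).length_le
  unfold upd
  have h : ((hpre η n2 x ts ν t).length : ℝ) ≤ ((hist η n2 x ts ν t).length : ℝ) := by exact_mod_cast this
  linarith

/-- the number of updates is bounded by the number of restarts -/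
theorem sum_upd_le (hη : 0 < η) (hm : ∀ t, IsMean (x t).m) (n : ℕ) :
    ∑ t ∈ range (n + 1), upd η n2 x ts ν t ≤ (n2 + 1) * (1 + ∑ t ∈ range n, ind (x (t + 1)).rs) := by
  have key : ∑ t ∈ range (n + 1), upd η n2 x ts ν t ≤
      ((hist η n2 x ts ν n).length : ℝ) + (n2 + 1) * ∑ t ∈ range n, ind (x (t + 1)).rs := by
    induction n with
    | zero =>
      rw [Finset.sum_range_one, Finset.sum_range_zero, mul_zero, add_zero]
      unfold upd
      have : (0 : ℝ) ≤ ((hpre η n2 x ts ν 0).length : ℝ) := by positivity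
      linarith
    | succ n ih =>
      rw [Finset.sum_range_succ, Finset.sum_range_succ (fun t => ind (x (t + 1)).rs), mul_add]
      have h1 : ((hist η n2 x ts ν n).length : ℝ) ≤
          ((hpre η n2 x ts ν (n + 1)).length : ℝ) + (n2 + 1) * ind (x (n + 1)).rs := by
        by_cases h : (x (n + 1)).rs
        · rw [hpre_succ_rs h, ind_of h]
          have h2 : ((hist η n2 x ts ν n).length : ℝ) ≤ ((n2 + 1 : ℕ) : ℝ) := by
            exact_mod_cast hist_len hη hm n
          push_cast at h2
          simpa using h2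
        · rw [hpre_succ h, ind_not h]
          simp
      have e : upd η n2 x ts ν (n + 1) = ((hist η n2 x ts ν (n + 1)).length : ℝ) -
        ((hpre η n2 x ts ν (n + 1)).length : ℝ) := rfl
      rw [e]
      linarith
  have h2 : ((hist η n2 x ts ν n).length : ℝ) ≤ ((n2 + 1 : ℕ) : ℝ) := by
    exact_mod_cast hist_len hη hm n
  push_cast at h2
  linarith

end

end Pool.Agent.M3
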