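import Pool.Agent.M3.Run
import Pool.Agent.M3.Key

/-!
# M3.RunE: energy of the runs of section 2.4, measurability, consistency (abstract form)

One update lowers the energy `M (Er ^ 2)` by at least `η² / 2` (`M` = exact mean, `m` = mean of the rounded node,
`|M f - m f| ≤ δ sup |f|`).  Hence the number of updates of an individual is at most
`(2 / η²) (initial energy + number of restarts)` in mean, also with weights known at the start.
-/

set_option autoImplicit false
set_option linter.unusedSectionVars false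

namespace Pool.Agent.M3

open Finset Pool.Agent.PWZ

section det

variable {S V : Type*} {η : ℝ} {n2 : ℕ} {x : Loc S V} {ν : S → Prop}

/-- entries bounded by one -/
def Bd (H : List (S × (V → ℝ))) : Prop := ∀ p ∈ H, ∀ d, |p.2 d| ≤ 1

/-- the exact mean `M` is close to the mean `m` -/
def Near (m M : (V → ℝ) → ℝ) (δ : ℝ) : Prop := ∀ (f : V → ℝ) (c : ℝ), 0 ≤ c → (∀ d, |f d| ≤ c) → |M f - m f| ≤ δ * c

theorem energy_upd {M : (V → ℝ) → ℝ} {δ : ℝ} (hη : 0 < η) (hm : IsMean x.m) (hM : IsMean M)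
    (hn : Near x.m M δ) (hδX : δ * (2 * (1 + n2 * η) + η) ≤ η / 2) (hu : ∀ d, |x.u d| ≤ 1)
    (hv : ∀ s d, |x.v s d| ≤ 1) {H : List (S × (V → ℝ))} (hH : Bd H) {p : S × (V → ℝ)} (hp : ∀ d, |p.2 d| ≤ 1)
    (hit : Hit η n2 x H p) :
    M (fun d => Er η n2 x.u x.v (p :: H) d ^ 2) + η ^ 2 / 2 ≤ M (fun d => Er η n2 x.u x.v H d ^ 2) := by
  set E := Er η n2 x.u x.v H with hE
  have hX : ∀ d, |E d| ≤ 1 + n2 * η := abs_Er_le hη hu hv hH
  have hX0 : 0 ≤ 1 + (n2 : ℝ) * η := by positivity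
  set f : V → ℝ := fun d => 2 * η * (p.2 d * E d * x.v p.1 d) - η ^ 2 * (p.2 d * x.v p.1 d) ^ 2 with hf
  have hpv : ∀ d, |p.2 d * x.v p.1 d| ≤ 1 := fun d => by
    rw [abs_mul]
    exact mul_le_one₀ (hp d) (abs_nonneg _) (hv _ _)
  have hfb : ∀ d, |f d| ≤ η * (2 * (1 + n2 * η) + η) := by
    intro d
    have h1 : |p.2 d * E d * x.v p.1 d| ≤ 1 + n2 * η := by
      have e : p.2 d * E d * x.v p.1 d = (p.2 d * x.v p.1 d) * E d := by ring
      rw [e, abs_mul]
      calc _ ≤ 1 * (1 + n2 * η) := mul_le_mul (hpv d) (hX d) (abs_nonneg _) (by norm_num)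
        _ = _ := one_mul _
    have h2 : |(p.2 d * x.v p.1 d) ^ 2| ≤ 1 := by
      rw [abs_pow]
      exact pow_le_one₀ (abs_nonneg _) (hpv d)
    simp only [hf]
    calc _ ≤ |2 * η * (p.2 d * E d * x.v p.1 d)| + |η ^ 2 * (p.2 d * x.v p.1 d) ^ 2| := abs_sub _ _
      _ = 2 * η * |p.2 d * E d * x.v p.1 d| + η ^ 2 * |(p.2 d * x.v p.1 d) ^ 2| := by
        rw [abs_mul, abs_mul, abs_mul (η ^ 2), abs_of_pos hη, abs_of_pos (by norm_num : (0:ℝ) < 2),
          abs_of_nonneg (sq_nonneg η)]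
      _ ≤ 2 * η * (1 + n2 * η) + η ^ 2 * 1 := by gcongr
      _ = _ := by ring
  have hmf : η ^ 2 ≤ x.m f := by
    have e : x.m f = 2 * η * x.m (fun d => p.2 d * E d * x.v p.1 d) - η ^ 2 * x.m (fun d => (p.2 d * x.v p.1 d) ^ 2) := by
      rw [hf, hm.sub, hm.smul, hm.smul]
    have h1 : x.m (fun d => (p.2 d * x.v p.1 d) ^ 2) ≤ 1 := hm.le_const fun d => by
      rw [← sq_abs]
      exact pow_le_one₀ (abs_nonneg _) (hpv d)
    have h2 : η ≤ x.m (fun d => p.2 d * E d * x.v p.1 d) := hit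
    rw [e]
    nlinarith [sq_nonneg η]
  have hMf : η ^ 2 / 2 ≤ M f := by
    have h1 := hn f _ (by positivity) hfb
    have h2 := (abs_le.1 h1).1
    have h3 : δ * (η * (2 * (1 + n2 * η) + η)) = η * (δ * (2 * (1 + n2 * η) + η)) := by ring
    have h4 : η * (δ * (2 * (1 + n2 * η) + η)) ≤ η * (η / 2) := mul_le_mul_of_nonneg_left hδX hη.le
    rw [h3] at h2
    nlinarith
  by_cases hc : H.length + 1 ≤ n2
  · have e : ∀ d, Er η n2 x.u x.v (p :: H) d ^ 2 = E d ^ 2 - f d := by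
      intro d
      have h1 : Er η n2 x.u x.v (p :: H) d = E d - η * (p.2 d * x.v p.1 d) := by
        rw [hE]
        unfold Er
        rw [if_pos (by rw [List.length_cons]; exact hc), if_pos (by omega), List.map_cons, List.sum_cons]
        ring
      rw [h1]
      simp only [hf]
      ring
    have h2 : M (fun d => Er η n2 x.u x.v (p :: H) d ^ 2) = M (fun d => E d ^ 2) - M f := by
      rw [← hM.sub]
      congr 1
      funext d
      exact e d
    rw [h2]
    linarith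
  · have h1 : Er η n2 x.u x.v (p :: H) = fun _ => 0 := Er_cap (by rw [List.length_cons]; omega)
    rw [h1]
    have h2 : M (fun _ => (0 : ℝ) ^ 2) = 0 := by
      have : (fun _ : V => (0 : ℝ) ^ 2) = fun _ => 0 := by funext; norm_num
      rw [this]
      exact hM.zero
    rw [h2, zero_add]
    refine hMf.trans (hM.mono _ _ fun d => ?_)
    simp only [hf]
    nlinarith [sq_nonneg (E d - η * (p.2 d * x.v p.1 d))]

section

variable {M : (V → ℝ) → ℝ} {δ : ℝ}

theorem energy_app (hη : 0 < η) (hm : IsMean x.m) (hM : IsMean M)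
    (hn : Near x.m M δ) (hδX : δ * (2 * (1 + n2 * η) + η) ≤ η / 2) (hu : ∀ d, |x.u d| ≤ 1)
    (hv : ∀ s d, |x.v s d| ≤ 1) {H : List (S × (V → ℝ))} (hH : Bd H) {p : S × (V → ℝ)} (hp : ∀ d, |p.2 d| ≤ 1) :
    M (fun d => Er η n2 x.u x.v (app η n2 x ν p H) d ^ 2) + η ^ 2 / 2 * ((app η n2 x ν p H).length - H.length) ≤
      M (fun d => Er η n2 x.u x.v H d ^ 2) ∧ Bd (app η n2 x ν p H) := by
  refine ⟨?_, app_mem hH fun _ => hp⟩
  rcases app_or (η := η) (n2 := n2) (x := x) (ν := ν) p H with h | ⟨h, -, h1⟩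
  · rw [h.1, sub_self, mul_zero, add_zero]
  · rw [h, List.length_cons]
    have := energy_upd hη hm hM hn hδX hu hv hH hp h1
    push_cast
    linarith

theorem energy_step1 (hη : 0 < η) (hm : IsMean x.m) (hM : IsMean M)
    (hn : Near x.m M δ) (hδX : δ * (2 * (1 + n2 * η) + η) ≤ η / 2) (hu : ∀ d, |x.u d| ≤ 1)
    (hv : ∀ s d, |x.v s d| ≤ 1) (hls : Bd x.ls) {H : List (S × (V → ℝ))} (hH : Bd H) :
    M (fun d => Er η n2 x.u x.v (step1 η n2 x ν H) d ^ 2) + η ^ 2 / 2 * ((step1 η n2 x ν H).length - H.length) ≤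
      M (fun d => Er η n2 x.u x.v H d ^ 2) ∧ Bd (step1 η n2 x ν H) := by
  refine ⟨?_, step1_mem hH fun p hp _ => hls p hp⟩
  rcases step1_or (η := η) (n2 := n2) (x := x) (ν := ν) H with h | ⟨p, hp, h, -, h1⟩
  · rw [h.1, sub_self, mul_zero, add_zero]
  · rw [h, List.length_cons]
    have := energy_upd hη hm hM hn hδX hu hv hH (hls p hp) h1
    push_cast
    linarith

theorem energy_r1 (hη : 0 < η) (hm : IsMean x.m) (hM : IsMean M)
    (hn : Near x.m M δ) (hδX : δ * (2 * (1 + n2 * η) + η) ≤ η / 2) (hu : ∀ d, |x.u d| ≤ 1)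
    (hv : ∀ s d, |x.v s d| ≤ 1) (hls : Bd x.ls) {H : List (S × (V → ℝ))} (hH : Bd H) :
    M (fun d => Er η n2 x.u x.v (r1 η n2 x ν H) d ^ 2) + η ^ 2 / 2 * ((r1 η n2 x ν H).length - H.length) ≤
      M (fun d => Er η n2 x.u x.v H d ^ 2) ∧ Bd (r1 η n2 x ν H) := by
  unfold r1
  have key : ∀ k, M (fun d => Er η n2 x.u x.v ((step1 η n2 x ν)^[k] H) d ^ 2) +
      η ^ 2 / 2 * (((step1 η n2 x ν)^[k] H).length - H.length) ≤ M (fun d => Er η n2 x.u x.v H d ^ 2) ∧
        Bd ((step1 η n2 x ν)^[k] H) := by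
    intro k
    induction k with
    | zero => exact ⟨by simp, hH⟩
    | succ k ih =>
      rw [Function.iterate_succ_apply']
      have h1 := energy_step1 (ν := ν) hη hm hM hn hδX hu hv hls ih.2
      exact ⟨by linarith [h1.1, ih.1], h1.2⟩
  exact key _

theorem energy_proc (hη : 0 < η) (hm : IsMean x.m) (hM : IsMean M)
    (hn : Near x.m M δ) (hδX : δ * (2 * (1 + n2 * η) + η) ≤ η / 2) (hu : ∀ d, |x.u d| ≤ 1)
    (hv : ∀ s d, |x.v s d| ≤ 1) (hls : Bd x.ls) {ts : List (S × (V → ℝ))} (hts : Bd ts)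
    {H : List (S × (V → ℝ))} (hH : Bd H) :
    M (fun d => Er η n2 x.u x.v (proc η n2 x ν ts H) d ^ 2) + η ^ 2 / 2 * ((proc η n2 x ν ts H).length - H.length) ≤
      M (fun d => Er η n2 x.u x.v H d ^ 2) ∧ Bd (proc η n2 x ν ts H) := by
  induction ts generalizing H with
  | nil => exact energy_r1 hη hm hM hn hδX hu hv hls hH
  | cons p ts ih =>
    have h1 := energy_r1 (ν := ν) hη hm hM hn hδX hu hv hls hH
    have h2 := energy_app (ν := ν) hη hm hM hn hδX hu hv h1.2 (hts p List.mem_cons_self)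
    have h3 := ih (fun q hq => hts q (List.mem_cons_of_mem _ hq)) h2.2
    have e : proc η n2 x ν (p :: ts) H = proc η n2 x ν ts (app η n2 x ν p (r1 η n2 x ν H)) := rfl
    rw [e]
    exact ⟨by linarith [h1.1, h2.1, h3.1], h3.2⟩

end

end det

/-! ### consistency for Lemma K -/

theorem run_cons {S V : Type*} (η : ℝ) (n2 : ℕ) (x : ℕ → Loc S V) (ts : ℕ → List (S × (V → ℝ))) :
    Cons (fun ν t => hist η n2 x ts ν t) (fun ν t s => UsedAt η n2 x ts ν t s) where
  sub := fun _ _ _ h => h.rec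
  k0 := by
    intro nu nu' T hs hu t ht
    have h : ∀ t ≤ T, hist η n2 x ts nu' t = hist η n2 x ts nu t := fun t ht =>
      hist_cons' t (fun s hs' => hs s (by omega)) fun s hs' => hu s (by omega)
    refine ⟨h t ht, fun s => usedAt_congr ?_ (h t ht) s⟩
    exact hpre_congr rfl fun r hr => h r (by omega)

/-! ### the runs on a probability space -/

section prob

variable {Om : Type*} [Fintype Om] {S V : Type*} (P : FP Om) {κ : ℕ → Type*} {K : ∀ t, Om → κ t}
  {η : ℝ} {n2 : ℕ} {x : ℕ → Om → Loc S V} {ts : ℕ → Om → List (S × (V → ℝ))} {ν : ℕ → Om → S → Prop}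

/-- the history as a random variable -/
noncomputable def Hi (η : ℝ) (n2 : ℕ) (x : ℕ → Om → Loc S V) (ts : ℕ → Om → List (S × (V → ℝ)))
    (ν : ℕ → Om → S → Prop) (t : ℕ) (w : Om) : List (S × (V → ℝ)) :=
  hist η n2 (fun t => x t w) (fun t => ts t w) (fun t => ν t w) t

noncomputable def Hp (η : ℝ) (n2 : ℕ) (x : ℕ → Om → Loc S V) (ts : ℕ → Om → List (S × (V → ℝ)))
    (ν : ℕ → Om → S → Prop) (t : ℕ) (w : Om) : List (S × (V → ℝ)) :=
  hpre η n2 (fun t => x t w) (fun t => ts t w) (fun t => ν t w) t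

/-- number of updates at `t` -/
noncomputable def Up (η : ℝ) (n2 : ℕ) (x : ℕ → Om → Loc S V) (ts : ℕ → Om → List (S × (V → ℝ)))
    (ν : ℕ → Om → S → Prop) (t : ℕ) (w : Om) : ℝ :=
  upd η n2 (fun t => x t w) (fun t => ts t w) (fun t => ν t w) t

theorem Hi_fac (hK : Filt K) (hx : ∀ t, Fac (K t) (x t)) (hts : ∀ t, Fac (K t) (ts t)) (hν : ∀ t, Fac (K t) (ν t))
    (t : ℕ) : Fac (K t) (Hi η n2 x ts ν t) := by
  intro v w h
  have h1 : ∀ s ≤ t, K s v = K s w := fun s hs => (hK.le hs) v w h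
  exact hist_congr t (fun s hs => hx s v w (h1 s hs)) (fun s hs => hts s v w (h1 s hs)) fun s hs => hν s v w (h1 s hs)

theorem Hp_fac (hK : Filt K) (hx : ∀ t, Fac (K t) (x t)) (hts : ∀ t, Fac (K t) (ts t)) (hν : ∀ t, Fac (K t) (ν t))
    (t : ℕ) : Fac (K t) (Hp η n2 x ts ν t) := by
  intro v w h
  have h1 : ∀ s ≤ t, K s v = K s w := fun s hs => (hK.le hs) v w h
  exact hpre_congr' t (fun s hs => hx s v w (h1 s hs)) (fun s hs => hts s v w (h1 s (by omega)))
    fun s hs => hν s v w (h1 s (by omega))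

theorem Up_fac (hK : Filt K) (hx : ∀ t, Fac (K t) (x t)) (hts : ∀ t, Fac (K t) (ts t)) (hν : ∀ t, Fac (K t) (ν t))
    (t : ℕ) : Fac (K t) (Up η n2 x ts ν t) :=
  (Hi_fac (η := η) (n2 := n2) hK hx hts hν t).comp₂ (Hp_fac hK hx hts hν t) fun a b => (a.length : ℝ) - (b.length : ℝ)

/-- hypotheses for the energy of the runs -/
structure RunHyp (P : FP Om) (K : ∀ t, Om → κ t) (M : ℕ → Om → (V → ℝ) → ℝ) (δ η : ℝ) (n2 : ℕ)
    (x : ℕ → Om → Loc S V) (ts : ℕ → Om → List (S × (V → ℝ))) (ν : ℕ → Om → S → Prop) : Prop where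
  eta : 0 < η
  small : δ * (2 * (1 + n2 * η) + η) ≤ η / 2
  filt : Filt K
  xK : ∀ t, Fac (K t) (x t)
  tsK : ∀ t, Fac (K t) (ts t)
  nuK : ∀ t, Fac (K t) (ν t)
  mean : ∀ t w, IsMean (x t w).m
  Mean : ∀ t w, IsMean (M t w)
  near : ∀ t w, Near (x t w).m (M t w) δ
  u1 : ∀ t w d, |(x t w).u d| ≤ 1
  v1 : ∀ t w s d, |(x t w).v s d| ≤ 1
  ls1 : ∀ t w, Bd (x t w).ls
  ts1 : ∀ t w, Bd (ts t w)
  ust : ∀ t w, ¬ (x (t + 1) w).rs → (x (t + 1) w).u = (x t w).u ∧ (x (t + 1) w).v = (x t w).v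
  /-- the exact mean is a martingale given the information of the individual -/
  mart : ∀ t, ∀ f : Om → V → ℝ, Fac (K t) f → P.E (fun w => M (t + 1) w (f w)) = P.E (fun w => M t w (f w))

namespace RunHyp

variable {P} {M : ℕ → Om → (V → ℝ) → ℝ} {δ : ℝ}

/-- energy after the node, before the node -/
noncomputable def en (η : ℝ) (n2 : ℕ) (M : ℕ → Om → (V → ℝ) → ℝ) (x : ℕ → Om → Loc S V)
    (H : ℕ → Om → List (S × (V → ℝ))) (t : ℕ) (w : Om) : ℝ :=
  M t w (fun d => Er η n2 (x t w).u (x t w).v (H t w) d ^ 2)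

theorem Hi_bd (h : RunHyp P K M δ η n2 x ts ν) (t : ℕ) (w : Om) : Bd (Hi η n2 x ts ν t w) :=
  hist_mem t (fun s _ p hp _ => h.ls1 s w p hp) fun s _ p hp _ => h.ts1 s w p hp

theorem Hp_bd (h : RunHyp P K M δ η n2 x ts ν) (t : ℕ) (w : Om) : Bd (Hp η n2 x ts ν t w) := by
  have h1 := hpre_suffix (η := η) (n2 := n2) (x := fun t => x t w) (ts := fun t => ts t w) (ν := fun t => ν t w) t
  exact fun p hp => h.Hi_bd t w p (h1.subset hp)

/-- the energy at a node -/
theorem node (h : RunHyp P K M δ η n2 x ts ν) (t : ℕ) (w : Om) :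
    en η n2 M x (Hi η n2 x ts ν) t w + η ^ 2 / 2 * Up η n2 x ts ν t w ≤ en η n2 M x (Hp η n2 x ts ν) t w := by
  have h1 := (energy_proc (ν := ν t w) h.eta (h.mean t w) (h.Mean t w) (h.near t w) h.small (h.u1 t w)
    (h.v1 t w) (h.ls1 t w) (h.ts1 t w) (h.Hp_bd t w)).1
  have e : Hi η n2 x ts ν t w = proc η n2 (x t w) (ν t w) (ts t w) (Hp η n2 x ts ν t w) := hist_eq t
  have e2 : Up η n2 x ts ν t w = ((Hi η n2 x ts ν t w).length : ℝ) - ((Hp η n2 x ts ν t w).length : ℝ) := rfl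
  unfold en
  rw [e2, e]
  exact h1

theorem en_nonneg (h : RunHyp P K M δ η n2 x ts ν) (H : ℕ → Om → List (S × (V → ℝ))) (t : ℕ) (w : Om) :
    0 ≤ en η n2 M x H t w := (h.Mean t w).nonneg fun _ => sq_nonneg _

/-- the energy of an individual without history -/
theorem en_nil (h : RunHyp P K M δ η n2 x ts ν) {H : ℕ → Om → List (S × (V → ℝ))} {t : ℕ} {w : Om}
    (hH : H t w = []) : en η n2 M x H t w ≤ 1 := by
  unfold en
  refine (h.Mean t w).le_const fun d => ?_
  rw [hH]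
  unfold Er
  simp only [List.length_nil, Nat.zero_le, if_true, List.map_nil, List.sum_nil, mul_zero, sub_zero]
  rw [← sq_abs]
  exact pow_le_one₀ (abs_nonneg _) (h.u1 t w d)

/-- the energy is bounded -/
theorem en_le (h : RunHyp P K M δ η n2 x ts ν) (t : ℕ) (w : Om) :
    en η n2 M x (Hp η n2 x ts ν) t w ≤ (1 + n2 * η) ^ 2 := by
  unfold en
  refine (h.Mean t w).le_const fun d => ?_
  rw [← sq_abs]
  exact pow_le_pow_left₀ (abs_nonneg _) (abs_Er_le h.eta (h.u1 t w) (h.v1 t w) (h.Hp_bd t w) d) 2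

/-- from a node to the next one -/
theorem trans (h : RunHyp P K M δ η n2 x ts ν) {t : ℕ} {φ : Om → ℝ} (hφ0 : ∀ w, 0 ≤ φ w) (hφ : Fac (K t) φ) :
    P.E (fun w => φ w * en η n2 M x (Hp η n2 x ts ν) (t + 1) w) ≤
      P.E (fun w => φ w * en η n2 M x (Hi η n2 x ts ν) t w) + P.E (fun w => φ w * ind (x (t + 1) w).rs) := by
  set f : Om → V → ℝ := fun w d => φ w * Er η n2 (x t w).u (x t w).v (Hi η n2 x ts ν t w) d ^ 2 with hf
  have hfK : Fac (K t) f := by
    have h1 := Hi_fac (η := η) (n2 := n2) h.filt h.xK h.tsK h.nuK t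
    intro v w hvw
    simp only [hf]
    rw [hφ v w hvw, h.xK t v w hvw, h1 v w hvw]
  have h1 := h.mart t f hfK
  have e1 : P.E (fun w => M t w (f w)) = P.E (fun w => φ w * en η n2 M x (Hi η n2 x ts ν) t w) :=
    P.E_congr fun w _ => (h.Mean t w).smul _ _
  rw [← e1, ← h1, ← P.E_add]
  refine P.E_mono fun w _ => ?_
  have e2 : M (t + 1) w (f w) = φ w * M (t + 1) w (fun d => Er η n2 (x t w).u (x t w).v (Hi η n2 x ts ν t w) d ^ 2) :=
    (h.Mean (t + 1) w).smul _ _
  rw [e2, ← mul_add]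
  refine mul_le_mul_of_nonneg_left ?_ (hφ0 w)
  by_cases hr : (x (t + 1) w).rs
  · rw [ind_of hr]
    have e3 : Hp η n2 x ts ν (t + 1) w = [] := hpre_succ_rs (x := fun t => x t w) hr
    have h2 := h.en_nil (H := Hp η n2 x ts ν) e3
    have h3 : 0 ≤ M (t + 1) w (fun d => Er η n2 (x t w).u (x t w).v (Hi η n2 x ts ν t w) d ^ 2) :=
      (h.Mean (t + 1) w).nonneg fun _ => sq_nonneg _
    linarith
  · rw [ind_not hr, add_zero]
    have e3 : Hp η n2 x ts ν (t + 1) w = Hi η n2 x ts ν t w := hpre_succ (x := fun t => x t w) hr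
    unfold en
    rw [e3, (h.ust t w hr).1, (h.ust t w hr).2]

/-- **number of updates**, with weights known at the start -/
theorem updates (h : RunHyp P K M δ η n2 x ts ν) {s : ℕ} {φ : Om → ℝ} (hφ0 : ∀ w, 0 ≤ φ w) (hφ : Fac (K s) φ)
    (k : ℕ) :
    η ^ 2 / 2 * ∑ j ∈ range (k + 1), P.E (fun w => φ w * Up η n2 x ts ν (s + j) w) +
        P.E (fun w => φ w * en η n2 M x (Hi η n2 x ts ν) (s + k) w) ≤
      P.E (fun w => φ w * en η n2 M x (Hp η n2 x ts ν) s w) +
        ∑ j ∈ range k, P.E (fun w => φ w * ind (x (s + j + 1) w).rs) := by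
  have hnode : ∀ t, η ^ 2 / 2 * P.E (fun w => φ w * Up η n2 x ts ν t w) +
      P.E (fun w => φ w * en η n2 M x (Hi η n2 x ts ν) t w) ≤ P.E (fun w => φ w * en η n2 M x (Hp η n2 x ts ν) t w) := by
    intro t
    rw [← P.E_smul, ← P.E_add]
    refine P.E_mono fun w _ => ?_
    have h1 := mul_le_mul_of_nonneg_left (h.node t w) (hφ0 w)
    linarith
  induction k with
  | zero =>
    rw [Finset.sum_range_one, Finset.sum_range_zero, add_zero, add_zero]
    exact hnode s
  | succ k ih =>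
    rw [Finset.sum_range_succ, Finset.sum_range_succ (fun j => P.E fun w => φ w * ind (x (s + j + 1) w).rs)]
    have h1 := hnode (s + (k + 1))
    have h2 : Fac (K (s + k)) φ := (h.filt.le (Nat.le_add_right s k)).trans hφ
    have h3 := h.trans (t := s + k) hφ0 h2
    have e : s + (k + 1) = s + k + 1 := by ring
    rw [e] at h1 ⊢
    rw [mul_add]
    linarith

/-- number of updates from the start -/
theorem updates0 (h : RunHyp P K M δ η n2 x ts ν) (n : ℕ) :
    ∑ t ∈ range (n + 1), P.E (Up η n2 x ts ν t) ≤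
      2 / η ^ 2 * (1 + ∑ t ∈ range n, P.Pr (fun w => (x (t + 1) w).rs)) := by
  have h1 := h.updates (s := 0) (φ := fun _ => 1) (fun _ => by norm_num) (Fac.const _ _) n
  simp only [one_mul, zero_add] at h1
  have h2 : P.E (en η n2 M x (Hp η n2 x ts ν) 0) ≤ 1 := P.E_le_const fun w _ => h.en_nil rfl
  have h3 : 0 ≤ P.E (en η n2 M x (Hi η n2 x ts ν) n) := P.E_nonneg fun w _ => h.en_nonneg _ _ _
  have hη := h.eta
  have h4 : η ^ 2 / 2 * ∑ t ∈ range (n + 1), P.E (Up η n2 x ts ν t) ≤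
      1 + ∑ t ∈ range n, P.Pr (fun w => (x (t + 1) w).rs) := by
    have e1 : P.E (fun w => en η n2 M x (Hi η n2 x ts ν) n w) = P.E (en η n2 M x (Hi η n2 x ts ν) n) := rfl
    have e2 : P.E (fun w => en η n2 M x (Hp η n2 x ts ν) 0 w) = P.E (en η n2 M x (Hp η n2 x ts ν) 0) := rfl
    rw [e1, e2] at h1
    have e3 : ∑ t ∈ range n, P.E (fun w => ind (x (t + 1) w).rs) = ∑ t ∈ range n, P.Pr (fun w => (x (t + 1) w).rs) := rfl
    rw [e3] at h1
    have e4 : ∑ t ∈ range (n + 1), P.E (fun w => Up η n2 x ts ν t w) = ∑ t ∈ range (n + 1), P.E (Up η n2 x ts ν t) := rfl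
    rw [e4] at h1
    linarith
  have h5 : 0 < 2 / η ^ 2 := by positivity
  have h6 := mul_le_mul_of_nonneg_left h4 h5.le
  have h7 : 2 / η ^ 2 * (η ^ 2 / 2 * ∑ t ∈ range (n + 1), P.E (Up η n2 x ts ν t)) =
      ∑ t ∈ range (n + 1), P.E (Up η n2 x ts ν t) := by field_simp
  rw [h7] at h6
  exact h6

/-- number of updates when nothing happens before the birth `β` -/
theorem updates_born (h : RunHyp P K M δ η n2 x ts ν) {β : ℕ → Om → Prop}
    (hβK : ∀ t v w, K t v = K t w → (β t v ↔ β t w)) (hβm : ∀ t w, β t w → β (t + 1) w)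
    (hls : ∀ t w, ¬ β t w → (x t w).ls = []) (hts : ∀ t w, ¬ β t w → ts t w = []) (n : ℕ) :
    ∑ t ∈ range (n + 1), P.E (Up η n2 x ts ν t) ≤
      2 / η ^ 2 * (P.Pr (β n) + ∑ t ∈ range n, P.Pr (fun w => β t w ∧ (x (t + 1) w).rs)) := by
  classical
  have hη := h.eta
  -- no history before the birth
  have hnil : ∀ t w, (∀ s ≤ t, ¬ β s w) → Hi η n2 x ts ν t w = [] := by
    intro t w hb
    by_contra hne
    obtain ⟨p, hp⟩ := List.exists_mem_of_ne_nil _ hne
    have : ∀ q ∈ Hi η n2 x ts ν t w, False :=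
      hist_mem t (fun s hs q hq _ => by rw [hls s w (hb s hs)] at hq; simp at hq)
        fun s hs q hq _ => by rw [hts s w (hb s hs)] at hq; simp at hq
    exact this p hp
  have hmono : ∀ s t w, s ≤ t → β s w → β t w := by
    intro s t w hst
    induction hst with
    | refl => exact id
    | step _ ih => exact fun hb => hβm _ w (ih hb)
  have hnb : ∀ t w, ¬ β t w → ∀ s ≤ t, ¬ β s w := fun t w hb s hs hb' => hb (hmono s t w hs hb')
  have hup0 : ∀ t w, ¬ β t w → Up η n2 x ts ν t w = 0 := by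
    intro t w hb
    have h1 := hnil t w (hnb t w hb)
    have h2 := upd_nonneg (η := η) (n2 := n2) (x := fun t => x t w) (ts := fun t => ts t w) (ν := fun t => ν t w) t
    have e2 : Up η n2 x ts ν t w = ((Hi η n2 x ts ν t w).length : ℝ) - ((Hp η n2 x ts ν t w).length : ℝ) := rfl
    have h3 : (0 : ℝ) ≤ ((Hp η n2 x ts ν t w).length : ℝ) := by positivity
    have h4 : 0 ≤ Up η n2 x ts ν t w := h2
    rw [e2, h1] at h4 ⊢
    simp only [List.length_nil, Nat.cast_zero] at h4 ⊢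
    linarith
  have key : ∀ n, η ^ 2 / 2 * ∑ t ∈ range (n + 1), P.E (Up η n2 x ts ν t) +
      P.E (fun w => ind (β n w) * en η n2 M x (Hi η n2 x ts ν) n w) ≤
        P.Pr (β n) + ∑ t ∈ range n, P.Pr (fun w => β t w ∧ (x (t + 1) w).rs) := by
    intro n
    induction n with
    | zero =>
      rw [Finset.sum_range_one, Finset.sum_range_zero, add_zero]
      unfold FP.Pr
      rw [← P.E_smul, ← P.E_add]
      refine P.E_mono fun w _ => ?_
      by_cases hb : β 0 w
      · rw [ind_of hb, one_mul]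
        have h1 := h.node 0 w
        have h2 := h.en_nil (H := Hp η n2 x ts ν) (t := 0) (w := w) rfl
        linarith
      · rw [ind_not hb, zero_mul, hup0 0 w hb]
        norm_num
    | succ n ih =>
      rw [Finset.sum_range_succ, Finset.sum_range_succ (fun t => P.Pr (fun w => β t w ∧ (x (t + 1) w).rs))]
      -- the node n + 1
      have h1 : η ^ 2 / 2 * P.E (Up η n2 x ts ν (n + 1)) +
          P.E (fun w => ind (β (n + 1) w) * en η n2 M x (Hi η n2 x ts ν) (n + 1) w) ≤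
          P.E (fun w => ind (β n w) * en η n2 M x (Hp η n2 x ts ν) (n + 1) w) + (P.Pr (β (n + 1)) - P.Pr (β n)) := by
        unfold FP.Pr
        rw [← P.E_smul, ← P.E_add, ← P.E_sub, ← P.E_add]
        refine P.E_mono fun w _ => ?_
        by_cases hb : β (n + 1) w
        · have h2 := h.node (n + 1) w
          by_cases hb' : β n w
          · rw [ind_of hb, ind_of hb']
            linarith
          · rw [ind_of hb, ind_not hb']
            have h3 : Hp η n2 x ts ν (n + 1) w = [] := by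
              by_cases hr : (x (n + 1) w).rs
              · exact hpre_succ_rs (x := fun t => x t w) hr
              · have e3 : Hp η n2 x ts ν (n + 1) w = Hi η n2 x ts ν n w := hpre_succ (x := fun t => x t w) hr
                rw [e3]
                exact hnil n w (hnb n w hb')
            have h4 := h.en_nil (H := Hp η n2 x ts ν) h3
            linarith
        · have hb' : ¬ β n w := fun h5 => hb (hβm n w h5)
          rw [ind_not hb, ind_not hb', hup0 (n + 1) w hb]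
          norm_num
      have h2 := h.trans (t := n) (φ := fun w => ind (β n w)) (fun w => ind_nonneg _) (Fac.ind (hβK n))
      have h3 : P.E (fun w => ind (β n w) * ind (x (n + 1) w).rs) = P.Pr (fun w => β n w ∧ (x (n + 1) w).rs) := by
        unfold FP.Pr
        refine P.E_congr fun w _ => ?_
        by_cases hb : β n w
        · by_cases hr : (x (n + 1) w).rs
          · rw [ind_of hb, ind_of hr, ind_of (show β n w ∧ (x (n + 1) w).rs from ⟨hb, hr⟩), one_mul]
          · rw [ind_not hr, ind_not (show ¬ (β n w ∧ (x (n + 1) w).rs) from fun h5 => hr h5.2), mul_zero]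
        · rw [ind_not hb, ind_not (show ¬ (β n w ∧ (x (n + 1) w).rs) from fun h5 => hb h5.1), zero_mul]
      rw [h3] at h2
      rw [mul_add]
      linarith
  have h1 := key n
  have h2 : 0 ≤ P.E (fun w => ind (β n w) * en η n2 M x (Hi η n2 x ts ν) n w) :=
    P.E_nonneg fun w _ => mul_nonneg (ind_nonneg _) (h.en_nonneg _ _ _)
  have h3 : η ^ 2 / 2 * ∑ t ∈ range (n + 1), P.E (Up η n2 x ts ν t) ≤
      P.Pr (β n) + ∑ t ∈ range n, P.Pr (fun w => β t w ∧ (x (t + 1) w).rs) := by linarith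
  have h5 : 0 < 2 / η ^ 2 := by positivity
  have h6 := mul_le_mul_of_nonneg_left h3 h5.le
  have h7 : 2 / η ^ 2 * (η ^ 2 / 2 * ∑ t ∈ range (n + 1), P.E (Up η n2 x ts ν t)) =
      ∑ t ∈ range (n + 1), P.E (Up η n2 x ts ν t) := by field_simp
  rw [h7] at h6
  exact h6

end RunHyp

end prob

end Pool.Agent.M3
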