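import Pool.Agent.M3.FP
import Pool.Agent.M3.Bin.Flr

/-!
# M3.S1Win: the window `y - [0, 2^e)` as a finite probability (helper27)
-/

set_option autoImplicit false

namespace Pool.Agent.M3.Bin

open Finset Pool.Agent.PWZ

noncomputable section

variable {k : ℕ}

/-- the uniform law on the window `y - [0, 2^e)` (with multiplicity when `e > k`) -/
def win (e : ℕ) (y : V k) : FP (V k) where
  p := fun d => ((2 : ℝ) ^ e)⁻¹ * ∑ n ∈ range (2 ^ e), ind (y - (n : V k) = d)
  nn := fun _ => mul_nonneg (by positivity) (Finset.sum_nonneg (fun _ _ => ind_nonneg _))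
  tot := by
    rw [← Finset.mul_sum, Finset.sum_comm]
    have h1 : ∀ n ∈ range (2 ^ e), ∑ d : V k, ind (y - (n : V k) = d) = 1 := by
      intro n _
      rw [Finset.sum_eq_single (y - (n : V k))]
      · exact ind_of rfl
      · intro d _ hd
        exact ind_not (fun h => hd h.symm)
      · intro h
        exact absurd (Finset.mem_univ _) h
    rw [Finset.sum_congr rfl h1, Finset.sum_const, card_range, nsmul_eq_mul, mul_one]
    push_cast
    field_simp

theorem win_E (e : ℕ) (y : V k) (f : V k → ℝ) :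
    (win e y).E f = ((2 : ℝ) ^ e)⁻¹ * ∑ n ∈ range (2 ^ e), f (y - (n : V k)) := by
  unfold FP.E win
  simp only
  have h1 : ∀ d : V k, ((2 : ℝ) ^ e)⁻¹ * (∑ n ∈ range (2 ^ e), ind (y - (n : V k) = d)) * f d =
      ((2 : ℝ) ^ e)⁻¹ * ∑ n ∈ range (2 ^ e), ind (y - (n : V k) = d) * f d := by
    intro d
    rw [mul_assoc, Finset.sum_mul]
  rw [Finset.sum_congr rfl (fun d _ => h1 d), ← Finset.mul_sum, Finset.sum_comm]
  congr 1
  refine Finset.sum_congr rfl (fun n _ => ?_)
  rw [Finset.sum_eq_single (y - (n : V k))]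
  · rw [ind_of rfl, one_mul]
  · intro d _ hd
    rw [ind_not (fun h => hd h.symm), zero_mul]
  · intro h
    exact absurd (Finset.mem_univ _) h

theorem win_E_mul (e : ℕ) (y : V k) (f g : V k → ℝ) :
    (win e y).E (fun d => f d * g d) = ip e y f g := by
  rw [win_E]
  rfl

theorem win_E_one (e : ℕ) (y : V k) (f : V k → ℝ) : (win e y).E f = ip e y f (fun _ => 1) := by
  rw [win_E]
  unfold ip
  simp only [mul_one]

/-- a window is the union of its two halves -/
theorem win_succ (e : ℕ) (y : V k) (f : V k → ℝ) :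
    (win (e + 1) y).E f = ((win e y).E f + (win e (y - ((2 ^ e : ℕ) : V k))).E f) / 2 := by
  rw [win_E_one, win_E_one, win_E_one]
  exact ip_succ e y f _

/-- exact window against rounded window -/
theorem win_round (h e : ℕ) (y : V k) (f : V k → ℝ) (B : ℝ) (hB : ∀ d, |f d| ≤ B) :
    |(win e y).E f - (win e (flr (e - h) y)).E f| ≤ 2 * ((2 : ℝ) ^ h)⁻¹ * B := by
  rw [win_E_one, win_E_one]
  have := ip_round h e y f (fun _ => 1) B (fun d => by rw [mul_one]; exact hB d)
  linarith

end

end Pool.Agent.M3.Bin
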