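import Pool.Agent.M3.S1Run
import Pool.Agent.M3.S1Win
import Pool.Agent.M3.Bin.Law

/-!
# M3.S1Bin (section 1 in the binary model), any type `X` of points of a face (helper27)

`Cells X` = the small cells of the face (scale `j`); `faceNodes C h N` = the face nodes: time `n` = exponent
`e = N - n`, cell of scale `e - (h+3)`, rounded window `g.1 - [0, 2^e)`.  `FreeMap` = maps `x, z, w` of a probability
space with the free law (`x`, centre `z`, noise `w` uniform and independent); `FreeMap.free` = the free law in the form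
of `S1Run`; `FreeMap.unif` = uniformity of the point in its node.
-/

set_option autoImplicit false
set_option linter.unusedSectionVars false

namespace Pool.Agent.M3.Bin

open Finset Pool.Agent.PWZ

noncomputable section

variable {k : ℕ} {X : Type} [Fintype X]

/-- small cells of the points of a face -/
structure Cells (X : Type) where
  cell : ℕ → X → Finset X
  self : ∀ j x, x ∈ cell j x
  coh : ∀ j x y, y ∈ cell j x → cell j y = cell j x

theorem Cells.symm (C : Cells X) {j : ℕ} {x y : X} (h : y ∈ C.cell j x) : x ∈ C.cell j y := by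
  rw [C.coh j x y h]
  exact C.self j x

theorem Cells.card_pos (C : Cells X) (j : ℕ) (x : X) : (0 : ℝ) < (C.cell j x).card := by
  exact_mod_cast Finset.card_pos.2 ⟨x, C.self j x⟩

/-- averaging over the cells -/
theorem Cells.sum_avg (C : Cells X) (j : ℕ) (φ : X → ℝ) :
    ∑ x, (∑ q ∈ C.cell j x, φ q) / (C.cell j x).card = ∑ x, φ x := by
  classical
  have h1 : ∀ x, (∑ q ∈ C.cell j x, φ q) / (C.cell j x).card =
      ∑ q, ind (q ∈ C.cell j x) * (φ q / (C.cell j q).card) := by
    intro x
    rw [Finset.sum_div]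
    have h2 : ∀ q ∈ C.cell j x, φ q / (C.cell j x).card = ind (q ∈ C.cell j x) * (φ q / (C.cell j q).card) := by
      intro q hq
      rw [ind_of hq, one_mul, C.coh j x q hq]
    rw [Finset.sum_congr rfl h2]
    refine Finset.sum_subset (Finset.subset_univ _) (fun q _ hq => ?_)
    rw [ind_not hq, zero_mul]
  rw [Finset.sum_congr rfl (fun x _ => h1 x), Finset.sum_comm]
  refine Finset.sum_congr rfl (fun q _ => ?_)
  rw [← Finset.sum_mul]
  have h3 : ∑ x, ind (q ∈ C.cell j x) = (C.cell j q).card := by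
    have h4 : ∀ x, ind (q ∈ C.cell j x) = if x ∈ C.cell j q then 1 else 0 := by
      intro x
      by_cases hx : x ∈ C.cell j q
      · rw [if_pos hx, ind_of (C.symm hx)]
      · rw [if_neg hx, ind_not (fun h => hx (C.symm h))]
    rw [Finset.sum_congr rfl (fun x _ => h4 x), Finset.sum_ite_mem, Finset.univ_inter, Finset.sum_const,
      nsmul_eq_mul, mul_one]
  rw [h3]
  field_simp [(C.card_pos j q).ne']

/-- the nodes of a face: time `n`, exponent `N - n` -/
def faceNodes (C : Cells X) (k h N : ℕ) : Nodes X (V k) (fun _ => V k × ℕ) where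
  prev n g := if n < N then par h (N - (n + 1)) g else g
  cell n x := C.cell (N - n - (h + 3)) x
  self _ x := C.self _ x
  coh _ x y hy := C.coh _ x y hy
  J n g := win (N - n) g.1

/-- three maps with the free law -/
structure FreeMap {Om : Type*} [Fintype Om] (Pm : FP Om) (X : Type) [Fintype X] (k N : ℕ) where
  x : Om → X
  z : Om → V k
  w : Om → ℕ
  law : ∀ f : X → V k → ℕ → ℝ, Pm.E (fun ω => f (x ω) (z ω) (w ω)) = E1 N X (fun q z w => f q.1 z w)

section

variable {Om : Type*} [Fintype Om] {Pm : FP Om} {N : ℕ}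

/-- the information at the time `n` -/
def FreeMap.info (M : FreeMap Pm X k N) (n : ℕ) (ω : Om) : X × V k × ℕ :=
  (M.x ω, pos (N - n) (M.z ω) (M.w ω), M.w ω / 2 ^ (N - n))

theorem FreeMap.filt (M : FreeMap Pm X k N) : Filt M.info := by
  intro n v u hvu
  unfold FreeMap.info at hvu ⊢
  obtain ⟨h1, h2, h3⟩ : M.x v = M.x u ∧ pos (N - (n + 1)) (M.z v) (M.w v) = pos (N - (n + 1)) (M.z u) (M.w u) ∧
      M.w v / 2 ^ (N - (n + 1)) = M.w u / 2 ^ (N - (n + 1)) := by
    simpa [Prod.ext_iff] using hvu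
  rcases Nat.lt_or_ge n N with hn | hn
  · have he : N - n = (N - (n + 1)) + 1 := by omega
    have hb : bit (N - (n + 1)) (M.w v) = bit (N - (n + 1)) (M.w u) := by
      unfold bit
      rw [h3]
    have h4 : M.w v / 2 ^ (N - n) = M.w u / 2 ^ (N - n) := by
      rw [he, pow_succ, ← Nat.div_div_eq_div_mul, ← Nat.div_div_eq_div_mul, h3]
    have h5 : pos (N - n) (M.z v) (M.w v) = pos (N - n) (M.z u) (M.w u) := by
      rw [he, pos_succ, pos_succ, h2, hb]
    rw [h1, h4, h5]
  · have he : N - n = N - (n + 1) := by omega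
    rw [he, h1, h2, h3]

/-- the free law as a structure of `S1Run` -/
def FreeMap.free (M : FreeMap Pm X k N) (C : Cells X) (h : ℕ) :
    Free (faceNodes C k h N) Pm M.info (2 * ((2 : ℝ) ^ h)⁻¹) N where
  pr := M.x
  g n ω := G h (N - n) (M.z ω) (M.w ω)
  W n ω := win (N - n) (pos (N - n) (M.z ω) (M.w ω))
  filt := M.filt
  prX n v u hvu := congrArg Prod.fst hvu
  gX n v u hvu := by
    have h1 := congrArg (fun q => q.2.1) hvu
    have h2 := congrArg (fun q => q.2.2) hvu
    simp only [FreeMap.info] at h1 h2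
    show gam h (N - n) (pos (N - n) (M.z v) (M.w v)) (M.w v) = gam h (N - n) (pos (N - n) (M.z u) (M.w u)) (M.w u)
    unfold gam
    rw [h1, h2]
  gprev n ω := by
    show (if n < N then par h (N - (n + 1)) (G h (N - (n + 1)) (M.z ω) (M.w ω)) else
      G h (N - (n + 1)) (M.z ω) (M.w ω)) = G h (N - n) (M.z ω) (M.w ω)
    rcases Nat.lt_or_ge n N with hn | hn
    · have he : N - n = (N - (n + 1)) + 1 := by omega
      rw [if_pos hn, par_G, ← he]
    · have he : N - (n + 1) = N - n := by omega
      rw [if_neg (not_lt.2 hn), he]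
  close n ω f K hf := by
    show |(win (N - n) (pos (N - n) (M.z ω) (M.w ω))).E f -
      (win (N - n) (flr (N - n - h) (pos (N - n) (M.z ω) (M.w ω)))).E f| ≤ _
    exact win_round h (N - n) _ f K hf
  mart n hn f hf ω hω := by
    have hm : 0 < Pm.m (M.info n) ω := Pm.m_pos _ hω
    unfold FP.ce
    rw [div_eq_iff hm.ne']
    obtain ⟨e, he1, he2⟩ : ∃ e, N - n = e + 1 ∧ N - (n + 1) = e := ⟨N - (n + 1), by omega, rfl⟩
    have heN : e < N := by omega
    set H : V k → ℝ := f ω with hH
    set I : X → V k → ℕ → ℝ := fun x y q =>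
      ind (x = M.x ω ∧ y = pos (e + 1) (M.z ω) (M.w ω) ∧ q = M.w ω / 2 ^ (e + 1)) with hI
    have hX : ∀ v, ind (M.info n v = M.info n ω) = I (M.x v) (pos (e + 1) (M.z v) (M.w v)) (M.w v / 2 ^ (e + 1)) := by
      intro v
      rw [hI]
      unfold FreeMap.info
      rw [he1]
      have : ((M.x v, pos (e + 1) (M.z v) (M.w v), M.w v / 2 ^ (e + 1)) =
          (M.x ω, pos (e + 1) (M.z ω) (M.w ω), M.w ω / 2 ^ (e + 1))) =
          (M.x v = M.x ω ∧ pos (e + 1) (M.z v) (M.w v) = pos (e + 1) (M.z ω) (M.w ω) ∧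
            M.w v / 2 ^ (e + 1) = M.w ω / 2 ^ (e + 1)) := by
        simp [Prod.ext_iff]
      rw [this]
    have h1 : Pm.E (fun v => ind (M.info n v = M.info n ω) * (win (N - (n + 1))
        (pos (N - (n + 1)) (M.z v) (M.w v))).E (f v)) =
        Pm.E (fun v => ip e (pos e (M.z v) (M.w v))
          (fun d => I (M.x v) (pos (e + 1) (M.z v) (M.w v)) (M.w v / 2 ^ (e + 1)) * H d) (fun _ => 1)) := by
      refine Pm.E_congr (fun v _ => ?_)
      rw [he2, ip_smul_left, ← win_E_one, hX v]
      by_cases hc : M.info n v = M.info n ω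
      · rw [hf v ω hc]
      · have h0 : I (M.x v) (pos (e + 1) (M.z v) (M.w v)) (M.w v / 2 ^ (e + 1)) = 0 := by
          rw [← hX v]
          exact ind_not hc
        rw [h0, zero_mul, zero_mul]
    have h2 : Pm.E (fun v => ip e (pos e (M.z v) (M.w v))
          (fun d => I (M.x v) (pos (e + 1) (M.z v) (M.w v)) (M.w v / 2 ^ (e + 1)) * H d) (fun _ => 1)) =
        Pm.E (fun v => ip (e + 1) (pos (e + 1) (M.z v) (M.w v))
          (fun d => I (M.x v) (pos (e + 1) (M.z v) (M.w v)) (M.w v / 2 ^ (e + 1)) * H d) (fun _ => 1)) := by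
      rw [M.law (fun x z w => ip e (pos e z w)
          (fun d => I x (pos (e + 1) z w) (w / 2 ^ (e + 1)) * H d) (fun _ => 1)),
        M.law (fun x z w => ip (e + 1) (pos (e + 1) z w)
          (fun d => I x (pos (e + 1) z w) (w / 2 ^ (e + 1)) * H d) (fun _ => 1))]
      exact E1_mart e heN (fun x y q d => I x.1 y q * H d) (fun _ _ _ _ => 1)
    rw [h1, h2]
    unfold FP.m
    rw [he1, mul_comm, ← FP.E_mul_const]
    refine Pm.E_congr (fun v _ => ?_)
    rw [ip_smul_left, ← win_E_one, hX v]
    by_cases hc : M.info n v = M.info n ω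
    · have h3 : pos (e + 1) (M.z v) (M.w v) = pos (e + 1) (M.z ω) (M.w ω) := by
        have := congrArg (fun q => q.2.1) hc
        simp only [FreeMap.info, he1] at this
        exact this
      rw [h3]
    · have h0 : I (M.x v) (pos (e + 1) (M.z v) (M.w v)) (M.w v / 2 ^ (e + 1)) = 0 := by
        rw [← hX v]
        exact ind_not hc
      rw [h0, zero_mul, zero_mul]
  WX n _ v u hvu f := by
    have h1 := congrArg (fun q => q.2.1) hvu
    simp only [FreeMap.info] at h1
    rw [h1]

/-- the point is uniform in its node -/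
theorem FreeMap.unif (M : FreeMap Pm X k N) (C : Cells X) (h n : ℕ) (φ : X → V k × ℕ → ℝ) :
    Pm.E (fun ω => φ (M.x ω) (G h (N - n) (M.z ω) (M.w ω))) =
      Pm.E (fun ω => (∑ q ∈ C.cell (N - n - (h + 3)) (M.x ω), φ q (G h (N - n) (M.z ω) (M.w ω))) /
        (C.cell (N - n - (h + 3)) (M.x ω)).card) := by
  rw [M.law (fun x z w => φ x (G h (N - n) z w)),
    M.law (fun x z w => (∑ q ∈ C.cell (N - n - (h + 3)) x, φ q (G h (N - n) z w)) /
        (C.cell (N - n - (h + 3)) x).card)]
  unfold E1
  congr 1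
  have key : ∀ f : X → V k → ℕ → ℝ, ∑ x : X × V k, ∑ z : V k, ∑ w ∈ range (2 ^ N), f x.1 z w =
      ∑ _a : V k, ∑ z : V k, ∑ w ∈ range (2 ^ N), ∑ x : X, f x z w := by
    intro f
    rw [Fintype.sum_prod_type_right]
    refine Finset.sum_congr rfl (fun a _ => ?_)
    rw [Finset.sum_comm]
    refine Finset.sum_congr rfl (fun z _ => ?_)
    rw [Finset.sum_comm]
  rw [key (fun x z w => φ x (G h (N - n) z w)),
    key (fun x z w => (∑ q ∈ C.cell (N - n - (h + 3)) x, φ q (G h (N - n) z w)) /
        (C.cell (N - n - (h + 3)) x).card)]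
  refine Finset.sum_congr rfl (fun a _ => Finset.sum_congr rfl (fun z _ => Finset.sum_congr rfl (fun w _ => ?_)))
  exact (C.sum_avg _ (fun q => φ q (G h (N - n) z w))).symm

end

end

end Pool.Agent.M3.Bin
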