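import Pool.Agent.M3.FPInfo

/-!
# M3.S3Cell: relative entropy, Donsker-Varadhan, and the cell inequality (section 3)

`Q.AC P`: the law `Q` is absolutely continuous with respect to `P` (both on `Om`).
`dn Q P X w` = density of the law of `X` under `Q` w.r.t. its law under `P`, at `X w`; `kl Q P X` = relative entropy
of these laws.  `P.cnd V h` = conditional law on an event `V` of positive probability.

* `dv` : `Q.E log phi <= kl Q P X + P.E phi - 1` for `phi >= 0` a function of `X`, positive on the support of `Q`;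
* `dv_exp` : `Q.E h <= kl Q P X + log P.E exp h`;
* `cell_ineq` : `KL(X) + KL(Y) - KL(X,Y) <= P.E[(r-1)(s-1); not both > L] + Q.E[log min(r,s); both > L]`;
* `cell_ineq_weak` : the same with no truncation: `<= P.E[(r-1)(s-1)]`;
* `E_iota` : `Q.E log P(X,Y)/P(X)P(Y) = I_Q(X;Y) + KL(X) + KL(Y) - KL(X,Y)` (Lemma 2);
* `cnd_split`, `I_split` : decomposition along an event.
-/

set_option autoImplicit false
set_option linter.unusedSectionVars false

namespace Pool.Agent.M3

open Finset Pool.Agent.PWZ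

variable {Om : Type*} [Fintype Om]

/-- absolute continuity of `Q` with respect to `P` -/
def FP.AC (Q P : FP Om) : Prop := ∀ w, Q.p w ≠ 0 → P.p w ≠ 0

noncomputable section

/-- density of the law of `X` under `Q` with respect to its law under `P` -/
def dn (Q P : FP Om) {κ : Type*} (X : Om → κ) (w : Om) : ℝ := Q.m X w / P.m X w

/-- relative entropy of the laws of `X` -/
def kl (Q P : FP Om) {κ : Type*} (X : Om → κ) : ℝ := Q.E (fun w => Real.log (dn Q P X w))

/-- conditional law on an event -/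
def FP.cnd (P : FP Om) (V : Om → Prop) (h : 0 < P.Pr V) : FP Om where
  p w := P.p w * ind (V w) / P.Pr V
  nn w := div_nonneg (mul_nonneg (P.nn w) (ind_nonneg _)) h.le
  tot := by
    rw [← Finset.sum_div]
    exact div_self h.ne'

end

section

variable {P Q : FP Om} {κ ι : Type*}

theorem FP.AC.refl (P : FP Om) : P.AC P := fun _ h => h

theorem dn_fac (Q P : FP Om) (X : Om → κ) : Fac X (dn Q P X) := fun v w h => by
  unfold dn; rw [Q.Fac_m X v w h, P.Fac_m X v w h]

theorem dn_nonneg (Q P : FP Om) (X : Om → κ) (w : Om) : 0 ≤ dn Q P X w :=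
  div_nonneg (Q.m_nonneg X w) (P.m_nonneg X w)

theorem dn_pos (hQ : Q.AC P) (X : Om → κ) {w : Om} (hw : Q.p w ≠ 0) : 0 < dn Q P X w :=
  div_pos (Q.m_pos X hw) (P.m_pos X (hQ w hw))

/-- change of measure for functions of `X` -/
theorem E_dn (hQ : Q.AC P) {X : Om → κ} {F : Om → ℝ} (hF : Fac X F) :
    P.E (fun w => F w * dn Q P X w) = Q.E F := by
  have h1 : P.E (fun w => F w * dn Q P X w) =
      P.E (fun w => Q.E (fun v => ind (X v = X w) * (F w / P.m X w))) := by
    refine P.E_congr (fun w _ => ?_)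
    rw [FP.E_mul_const]
    show F w * (Q.m X w / P.m X w) = Q.m X w * (F w / P.m X w)
    ring
  rw [h1, FP.E_swap]
  refine Q.E_congr (fun v hv => ?_)
  have h2 : P.E (fun w => ind (X v = X w) * (F w / P.m X w)) =
      P.E (fun w => ind (X w = X v) * (F v / P.m X v)) := by
    refine P.E_congr (fun w _ => ?_)
    by_cases hx : X w = X v
    · rw [ind_of hx, ind_of hx.symm, hF w v hx, P.Fac_m X w v hx]
    · rw [ind_not hx, ind_not (fun h => hx h.symm)]; ring
  rw [h2, FP.E_mul_const]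
  show P.m X v * (F v / P.m X v) = F v
  field_simp [(P.m_pos X (hQ v hv)).ne']

theorem E_dn_one (hQ : Q.AC P) (X : Om → κ) : P.E (fun w => dn Q P X w) = 1 := by
  have := E_dn hQ (X := X) (F := fun _ => (1 : ℝ)) (Fac.const X 1)
  simp only [one_mul] at this
  rw [this, FP.E_const]

theorem E_dn_sub_one (hQ : Q.AC P) (X : Om → κ) : P.E (fun w => dn Q P X w - 1) = 0 := by
  rw [FP.E_sub, E_dn_one hQ, FP.E_const, sub_self]

/-- `Q.E (phi / dn) <= P.E phi` -/
theorem E_div_dn_le (hQ : Q.AC P) {X : Om → κ} {φ : Om → ℝ} (hφ : Fac X φ) (h0 : ∀ w, P.p w ≠ 0 → 0 ≤ φ w) :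
    Q.E (fun w => φ w / dn Q P X w) ≤ P.E φ := by
  have hF : Fac X (fun w => φ w / dn Q P X w) := hφ.comp₂ (dn_fac Q P X) (fun a b => a / b)
  rw [← E_dn hQ hF]
  refine P.E_mono (fun w hw => ?_)
  by_cases h : dn Q P X w = 0
  · rw [h]; simpa using h0 w hw
  · rw [div_mul_cancel₀ _ h]

/-- Donsker-Varadhan in multiplicative form -/
theorem dv (hQ : Q.AC P) {X : Om → κ} {φ : Om → ℝ} (hφ : Fac X φ) (h0 : ∀ w, P.p w ≠ 0 → 0 ≤ φ w)
    (h1 : ∀ w, Q.p w ≠ 0 → 0 < φ w) :
    Q.E (fun w => Real.log (φ w)) ≤ kl Q P X + P.E φ - 1 := by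
  have h2 : Q.E (fun w => Real.log (φ w) - Real.log (dn Q P X w)) ≤ Q.E (fun w => φ w / dn Q P X w - 1) := by
    refine Q.E_mono (fun w hw => ?_)
    rw [← Real.log_div (h1 w hw).ne' (dn_pos hQ X hw).ne']
    exact Real.log_le_sub_one_of_pos (div_pos (h1 w hw) (dn_pos hQ X hw))
  rw [FP.E_sub, FP.E_sub, FP.E_const] at h2
  have h3 := E_div_dn_le hQ hφ h0
  unfold kl
  linarith

/-- Donsker-Varadhan -/
theorem dv_exp (hQ : Q.AC P) {X : Om → κ} {h : Om → ℝ} (hh : Fac X h) :
    Q.E h ≤ kl Q P X + Real.log (P.E (fun w => Real.exp (h w))) := by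
  set Z := P.E (fun w => Real.exp (h w)) with hZ
  have hZ0 : 0 < Z := by
    obtain ⟨w, hw⟩ := P.exists_p_ne
    have h1 : P.p w * Real.exp (h w) ≤ Z := by
      rw [hZ]; unfold FP.E
      exact Finset.single_le_sum (f := fun v => P.p v * Real.exp (h v))
        (fun v _ => mul_nonneg (P.nn v) (Real.exp_pos _).le) (Finset.mem_univ w)
    exact lt_of_lt_of_le (mul_pos (lt_of_le_of_ne (P.nn w) (Ne.symm hw)) (Real.exp_pos _)) h1
  have h1 := dv hQ (X := X) (φ := fun w => Real.exp (h w) / Z) (hh.comp (fun x => Real.exp x / Z))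
    (fun w _ => (div_pos (Real.exp_pos _) hZ0).le) (fun w _ => div_pos (Real.exp_pos _) hZ0)
  rw [FP.E_div_const, ← hZ, div_self hZ0.ne'] at h1
  have h2 : Q.E (fun w => Real.log (Real.exp (h w) / Z)) = Q.E h - Real.log Z := by
    have : Q.E (fun w => Real.log (Real.exp (h w) / Z)) = Q.E (fun w => h w - Real.log Z) :=
      Q.E_congr (fun w _ => by rw [Real.log_div (Real.exp_pos _).ne' hZ0.ne', Real.log_exp])
    rw [this, FP.E_sub, FP.E_const]
  linarith

theorem kl_nonneg (hQ : Q.AC P) (X : Om → κ) : 0 ≤ kl Q P X := by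
  have h := dv hQ (X := X) (φ := fun _ => (1 : ℝ)) (Fac.const X 1) (fun _ _ => zero_le_one)
    (fun _ _ => zero_lt_one)
  simp only [Real.log_one, FP.E_const] at h
  linarith

/-- data processing -/
theorem kl_mono (hQ : Q.AC P) {X : Om → κ} {Y : Om → ι} (h : Fac X Y) : kl Q P Y ≤ kl Q P X := by
  have h1 := dv hQ (X := X) (φ := dn Q P Y) (fun v w hv => dn_fac Q P Y v w (h v w hv))
    (fun w _ => dn_nonneg Q P Y w) (fun w hw => dn_pos hQ Y hw)
  rw [show P.E (dn Q P Y) = 1 from E_dn_one hQ Y] at h1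
  unfold kl at h1 ⊢
  linarith

/-- the expectation of `log dn` weighted: lower bound used for truncations: `dn log dn >= dn - 1` -/
theorem dn_kl_ge (hQ : Q.AC P) {X : Om → κ} {s : Om → Prop} (hs : ∀ v w, X v = X w → (s v ↔ s w)) :
    Q.E (fun w => ind (s w)) * 1 - P.E (fun w => ind (s w)) ≤
      Q.E (fun w => ind (s w) * Real.log (dn Q P X w)) := by
  have h1 : Q.E (fun w => ind (s w) * (1 - 1 / dn Q P X w)) ≤
      Q.E (fun w => ind (s w) * Real.log (dn Q P X w)) := by
    refine Q.E_mono (fun w hw => mul_le_mul_of_nonneg_left ?_ (ind_nonneg _))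
    have h2 := Real.log_le_sub_one_of_pos (x := 1 / dn Q P X w) (by have := dn_pos hQ X hw; positivity)
    rw [one_div, Real.log_inv] at h2
    rw [one_div]
    linarith
  have h3 : Q.E (fun w => ind (s w) * (1 - 1 / dn Q P X w)) =
      Q.E (fun w => ind (s w)) - Q.E (fun w => ind (s w) / dn Q P X w) := by
    rw [← FP.E_sub]
    exact Q.E_congr (fun w _ => by ring)
  have h4 := E_div_dn_le hQ (X := X) (φ := fun w => ind (s w)) (Fac.ind hs) (fun _ _ => ind_nonneg _)
  linarith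

/-! ## the cell inequality -/

/-- `KL(X) + KL(Y) - KL(X,Y) <= P.E (psi - 1) + Q.E log (r s / psi)` for every `psi` -/
theorem cell_psi (hQ : Q.AC P) {X : Om → κ} {Y : Om → ι} {ψ : Om → ℝ} (hψ : Fac (fun w => (X w, Y w)) ψ)
    (h0 : ∀ w, P.p w ≠ 0 → 0 ≤ ψ w) (h1 : ∀ w, Q.p w ≠ 0 → 0 < ψ w) :
    kl Q P X + kl Q P Y - kl Q P (fun w => (X w, Y w)) ≤
      (P.E ψ - 1) + Q.E (fun w => Real.log (dn Q P X w * dn Q P Y w / ψ w)) := by
  have h2 := dv hQ hψ h0 h1
  have h3 : Q.E (fun w => Real.log (dn Q P X w * dn Q P Y w / ψ w)) =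
      kl Q P X + kl Q P Y - Q.E (fun w => Real.log (ψ w)) := by
    unfold kl
    rw [← FP.E_add, ← FP.E_sub]
    refine Q.E_congr (fun w hw => ?_)
    rw [Real.log_div (mul_pos (dn_pos hQ X hw) (dn_pos hQ Y hw)).ne' (h1 w hw).ne',
      Real.log_mul (dn_pos hQ X hw).ne' (dn_pos hQ Y hw).ne']
  linarith

theorem cell_ineq_weak (hQ : Q.AC P) (X : Om → κ) (Y : Om → ι) :
    kl Q P X + kl Q P Y - kl Q P (fun w => (X w, Y w)) ≤
      P.E (fun w => (dn Q P X w - 1) * (dn Q P Y w - 1)) := by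
  have hψ : Fac (fun w => (X w, Y w)) (fun w => dn Q P X w * dn Q P Y w) := by
    intro v w hv
    have h1 : X v = X w := congrArg Prod.fst hv
    have h2 : Y v = Y w := congrArg Prod.snd hv
    show dn Q P X v * dn Q P Y v = dn Q P X w * dn Q P Y w
    rw [dn_fac Q P X v w h1, dn_fac Q P Y v w h2]
  have h := cell_psi hQ hψ (fun w _ => mul_nonneg (dn_nonneg Q P X w) (dn_nonneg Q P Y w))
    (fun w hw => mul_pos (dn_pos hQ X hw) (dn_pos hQ Y hw))
  have h2 : Q.E (fun w => Real.log (dn Q P X w * dn Q P Y w / (dn Q P X w * dn Q P Y w))) = 0 := by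
    have : Q.E (fun w => Real.log (dn Q P X w * dn Q P Y w / (dn Q P X w * dn Q P Y w))) =
        Q.E (fun _ => (0 : ℝ)) :=
      Q.E_congr (fun w hw => by
        rw [div_self (mul_pos (dn_pos hQ X hw) (dn_pos hQ Y hw)).ne', Real.log_one])
    rw [this, FP.E_const]
  have h3 : P.E (fun w => (dn Q P X w - 1) * (dn Q P Y w - 1)) =
      P.E (fun w => dn Q P X w * dn Q P Y w) - 1 := by
    have h4 : P.E (fun w => (dn Q P X w - 1) * (dn Q P Y w - 1)) =
        P.E (fun w => dn Q P X w * dn Q P Y w - dn Q P X w - (dn Q P Y w - 1)) :=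
      P.E_congr (fun w _ => by ring)
    rw [h4, FP.E_sub, FP.E_sub, E_dn_one hQ X, E_dn_sub_one hQ Y]
    ring
  rw [h2] at h
  linarith

/-- **the cell inequality**: only the both-strong part is not bilinear -/
theorem cell_ineq (hQ : Q.AC P) (X : Om → κ) (Y : Om → ι) {L : ℝ} (hL : 1 ≤ L) :
    kl Q P X + kl Q P Y - kl Q P (fun w => (X w, Y w)) ≤
      P.E (fun w => (dn Q P X w - 1) * (dn Q P Y w - 1) * ind (¬ (L < dn Q P X w ∧ L < dn Q P Y w))) +
      Q.E (fun w => ind (L < dn Q P X w ∧ L < dn Q P Y w) * Real.log (min (dn Q P X w) (dn Q P Y w))) := by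
  set r := dn Q P X with hr
  set s := dn Q P Y with hs
  set bs : Om → Prop := fun w => L < r w ∧ L < s w with hbs
  set ψ : Om → ℝ := fun w => ind (¬ bs w) * (r w * s w) + ind (bs w) * max (r w) (s w) with hψd
  have hψ : Fac (fun w => (X w, Y w)) ψ := by
    intro v w hv
    have h1 : r v = r w := dn_fac Q P X v w (congrArg Prod.fst hv)
    have h2 : s v = s w := dn_fac Q P Y v w (congrArg Prod.snd hv)
    show ind (¬ (L < r v ∧ L < s v)) * (r v * s v) + ind (L < r v ∧ L < s v) * max (r v) (s v) =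
      ind (¬ (L < r w ∧ L < s w)) * (r w * s w) + ind (L < r w ∧ L < s w) * max (r w) (s w)
    rw [h1, h2]
  have hr0 : ∀ w, 0 ≤ r w := dn_nonneg Q P X
  have hs0 : ∀ w, 0 ≤ s w := dn_nonneg Q P Y
  have hrp : ∀ w, Q.p w ≠ 0 → 0 < r w := fun w hw => dn_pos hQ X hw
  have hsp : ∀ w, Q.p w ≠ 0 → 0 < s w := fun w hw => dn_pos hQ Y hw
  have hψ0 : ∀ w, P.p w ≠ 0 → 0 ≤ ψ w := fun w _ =>
    add_nonneg (mul_nonneg (ind_nonneg _) (mul_nonneg (hr0 w) (hs0 w)))
      (mul_nonneg (ind_nonneg _) (le_max_of_le_left (hr0 w)))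
  have hψe : ∀ w, bs w → ψ w = max (r w) (s w) := fun w h => by
    show ind (¬ bs w) * (r w * s w) + ind (bs w) * max (r w) (s w) = _
    rw [ind_of h, ind_not (fun h' => h' h)]; ring
  have hψe' : ∀ w, ¬ bs w → ψ w = r w * s w := fun w h => by
    show ind (¬ bs w) * (r w * s w) + ind (bs w) * max (r w) (s w) = _
    rw [ind_not h, ind_of h]; ring
  have hψ1 : ∀ w, Q.p w ≠ 0 → 0 < ψ w := fun w hw => by
    by_cases h : bs w
    · rw [hψe w h]; exact lt_max_of_lt_left (hrp w hw)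
    · rw [hψe' w h]; exact mul_pos (hrp w hw) (hsp w hw)
  have hmain := cell_psi hQ hψ hψ0 hψ1
  have h3 : Q.E (fun w => Real.log (r w * s w / ψ w)) =
      Q.E (fun w => ind (bs w) * Real.log (min (r w) (s w))) := by
    refine Q.E_congr (fun w hw => ?_)
    by_cases h : bs w
    · rw [hψe w h, ind_of h, one_mul]
      congr 1
      rw [div_eq_iff (lt_max_of_lt_left (hrp w hw)).ne']
      exact (min_mul_max (r w) (s w)).symm
    · rw [hψe' w h, ind_not h, zero_mul, div_self (mul_pos (hrp w hw) (hsp w hw)).ne', Real.log_one]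
  have h4 : P.E ψ - 1 ≤ P.E (fun w => (r w - 1) * (s w - 1) * ind (¬ bs w)) := by
    have h5 : P.E (fun w => ψ w - r w - (s w - 1)) ≤ P.E (fun w => (r w - 1) * (s w - 1) * ind (¬ bs w)) := by
      refine P.E_mono (fun w _ => ?_)
      by_cases h : bs w
      · rw [hψe w h, ind_not (fun h' => h' h), mul_zero]
        obtain ⟨h6, h7⟩ := h
        rcases le_total (r w) (s w) with h8 | h8
        · rw [max_eq_right h8]; linarith
        · rw [max_eq_left h8]; linarith
      · rw [hψe' w h, ind_of h, mul_one]; apply le_of_eq; ring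
    have h6 : P.E (fun w => ψ w - r w - (s w - 1)) = P.E ψ - 1 := by
      rw [FP.E_sub, FP.E_sub, show P.E r = 1 from E_dn_one hQ X, show P.E (fun w => s w - 1) = 0 from
        E_dn_sub_one hQ Y]
      ring
    linarith
  linarith

/-! ## Lemma 2: the identity for iota -/

theorem I_const (X : Om → κ) (Y : Om → ι) :
    P.I X Y (fun _ => ()) = P.E (fun w => Real.log (P.m (fun w => (X w, Y w)) w / (P.m X w * P.m Y w))) := by
  have e1 : P.H (fun w => (X w, ())) = P.H X :=
    P.H_congr (fun v w h => congrArg Prod.fst h) (fun v w h => by show (X v, ()) = (X w, ()); rw [h])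
  have e2 : P.H (fun w => (Y w, ())) = P.H Y :=
    P.H_congr (fun v w h => congrArg Prod.fst h) (fun v w h => by show (Y v, ()) = (Y w, ()); rw [h])
  have e3 : P.H (fun w => (X w, Y w, ())) = P.H (fun w => (X w, Y w)) :=
    P.H_congr
      (fun v w h => by
        have h' : (X v, Y v, ()) = (X w, Y w, ()) := h
        have h1 : X v = X w := congrArg Prod.fst h'
        have h2 : Y v = Y w := congrArg (fun z => z.2.1) h'
        show (X v, Y v) = (X w, Y w)
        rw [h1, h2])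
      (fun v w h => by
        have h' : (X v, Y v) = (X w, Y w) := h
        have h1 : X v = X w := congrArg Prod.fst h'
        have h2 : Y v = Y w := congrArg Prod.snd h'
        show (X v, Y v, ()) = (X w, Y w, ())
        rw [h1, h2])
  unfold FP.I
  rw [e1, e2, e3, FP.H_const, sub_zero]
  unfold FP.H
  rw [← FP.E_add, ← FP.E_sub]
  refine P.E_congr (fun w hw => ?_)
  rw [Real.log_div (P.m_pos _ hw).ne' (mul_pos (P.m_pos X hw) (P.m_pos Y hw)).ne',
    Real.log_mul (P.m_pos X hw).ne' (P.m_pos Y hw).ne']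
  ring

/-- **Lemma 2, identity**: mean of `iota` under another law -/
theorem E_iota (hQ : Q.AC P) (X : Om → κ) (Y : Om → ι) :
    Q.E (fun w => Real.log (P.m (fun w => (X w, Y w)) w / (P.m X w * P.m Y w))) =
      Q.I X Y (fun _ => ()) + kl Q P X + kl Q P Y - kl Q P (fun w => (X w, Y w)) := by
  rw [I_const]
  unfold kl
  rw [← FP.E_add, ← FP.E_add, ← FP.E_sub]
  refine Q.E_congr (fun w hw => ?_)
  have hp := hQ w hw
  unfold dn
  rw [Real.log_div (P.m_pos _ hp).ne' (mul_pos (P.m_pos X hp) (P.m_pos Y hp)).ne',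
    Real.log_mul (P.m_pos X hp).ne' (P.m_pos Y hp).ne',
    Real.log_div (Q.m_pos _ hw).ne' (mul_pos (Q.m_pos X hw) (Q.m_pos Y hw)).ne',
    Real.log_mul (Q.m_pos X hw).ne' (Q.m_pos Y hw).ne',
    Real.log_div (Q.m_pos X hw).ne' (P.m_pos X hp).ne', Real.log_div (Q.m_pos Y hw).ne' (P.m_pos Y hp).ne',
    Real.log_div (Q.m_pos _ hw).ne' (P.m_pos _ hp).ne']
  ring

/-! ## conditional laws -/

theorem cnd_ac (P : FP Om) (V : Om → Prop) (h : 0 < P.Pr V) : (P.cnd V h).AC P := fun w hw hp => by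
  apply hw
  show P.p w * ind (V w) / P.Pr V = 0
  rw [hp]; ring

theorem cnd_supp (P : FP Om) {V : Om → Prop} {h : 0 < P.Pr V} {w : Om} (hw : (P.cnd V h).p w ≠ 0) : V w := by
  by_contra hV
  apply hw
  show P.p w * ind (V w) / P.Pr V = 0
  rw [ind_not hV]; ring

theorem cnd_E (P : FP Om) (V : Om → Prop) (h : 0 < P.Pr V) (F : Om → ℝ) :
    (P.cnd V h).E F = P.E (fun w => ind (V w) * F w) / P.Pr V := by
  unfold FP.E
  rw [Finset.sum_div]
  refine Finset.sum_congr rfl (fun w _ => ?_)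
  show P.p w * ind (V w) / P.Pr V * F w = P.p w * (ind (V w) * F w) / P.Pr V
  ring

theorem Pr_mul_cnd_E (P : FP Om) (V : Om → Prop) (h : 0 < P.Pr V) (F : Om → ℝ) :
    P.Pr V * (P.cnd V h).E F = P.E (fun w => ind (V w) * F w) := by
  rw [cnd_E]; field_simp [h.ne']

theorem cnd_split (P : FP Om) (V : Om → Prop) (h : 0 < P.Pr V) (h' : 0 < P.Pr (fun w => ¬ V w)) (F : Om → ℝ) :
    P.Pr V * (P.cnd V h).E F + P.Pr (fun w => ¬ V w) * (P.cnd _ h').E F = P.E F := by
  rw [Pr_mul_cnd_E, Pr_mul_cnd_E, ← FP.E_add]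
  refine P.E_congr (fun w _ => ?_)
  by_cases hV : V w
  · rw [ind_of hV, ind_not (fun h' => h' hV)]; ring
  · rw [ind_not hV, ind_of hV]; ring

/-- the density of a conditional law is at most `1 / P(V)` -/
theorem dn_cnd_le (P : FP Om) (V : Om → Prop) (h : 0 < P.Pr V) (X : Om → κ) {w : Om} (hw : P.p w ≠ 0) :
    dn (P.cnd V h) P X w ≤ 1 / P.Pr V := by
  unfold dn
  have h1 : (P.cnd V h).m X w ≤ P.m X w / P.Pr V := by
    show (P.cnd V h).E _ ≤ _
    rw [cnd_E]
    refine div_le_div_of_nonneg_right ?_ h.le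
    refine P.E_mono (fun v _ => ?_)
    have := ind_le_one (V v)
    nlinarith [ind_nonneg (X v = X w), ind_nonneg (V v)]
  have h2 := P.m_pos X hw
  rw [div_le_div_iff₀ h2 h, one_mul]
  rw [le_div_iff₀ h] at h1
  exact h1

theorem kl_cnd_le (P : FP Om) (V : Om → Prop) (h : 0 < P.Pr V) (X : Om → κ) :
    kl (P.cnd V h) P X ≤ Real.log (1 / P.Pr V) := by
  unfold kl
  refine FP.E_le_const _ (fun w hw => ?_)
  exact Real.log_le_log (dn_pos (cnd_ac P V h) X hw) (dn_cnd_le P V h X (cnd_ac P V h w hw))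

end

end Pool.Agent.M3
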