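import Pool.Agent.M3.S3Cell
import Pool.Agent.M3.OpK

/-!
# M3.S3Stat: the static proposition of section 3

`P` = law of one saturated class, `a` the hidden map, `X` = (label, owner) of the first family, `Y` of the second one.
* `TRule a X c0 dl`: for events `S` of `a` of mass at least `c0` and tests `0 ≤ ψ ≤ 1` of `X`:
  `E[ψ | S] ≤ E ψ + dl`;  `trule_of_kl`: follows from the entropy rule with `dl = 2 κ^{1/2}`;
* `Thick a X K`: `P(S | X) ≤ K P(S)`;  * `CInd a X Y`: conditional independence given `a`.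
* `cell_stat` (ONE CELL): for an event `V` of `a`, `P(V) ≥ c0`, `r`, `s` the densities of `X`, `Y` given `V`:
  `E[(r-1)(s-1); not both > 8] + E_V[log min(r,s); both > 8] ≤ 400 (1 + log K)(dl + K c0 / P(V)) (KL_V(X) + KL_V(Y))`.
* `cell_red`: `KL_V(X) + KL_V(Y) - KL_V(X,Y) ≤` the same.
-/

set_option autoImplicit false
set_option linter.unusedSectionVars false

namespace Pool.Agent.M3

open Finset Pool.Agent.PWZ

variable {Om : Type*} [Fintype Om] {α κ ι : Type*}

/-- rule for tests of `X` on the events of `a` of mass at least `c0` -/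
def TRule (P : FP Om) (a : Om → α) (X : Om → κ) (c0 dl : ℝ) : Prop :=
  ∀ S, Ev a S → c0 ≤ P.Pr S → ∀ ψ : Om → ℝ, Fac X ψ → (∀ w, 0 ≤ ψ w) → (∀ w, ψ w ≤ 1) →
    P.E (fun w => ind (S w) * ψ w) ≤ P.Pr S * (P.E ψ + dl)

/-- thick letters -/
def Thick (P : FP Om) (a : Om → α) (X : Om → κ) (K : ℝ) : Prop :=
  ∀ S, Ev a S → ∀ w, P.p w ≠ 0 → P.ce X (fun v => ind (S v)) w ≤ K * P.Pr S

/-- conditional independence of `X` and `Y` given `a` -/
def CInd (P : FP Om) (a : Om → α) (X : Om → κ) (Y : Om → ι) : Prop :=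
  ∀ g : Om → ℝ, Fac Y g → ∀ w, P.p w ≠ 0 → P.ce (fun v => (a v, X v)) g w = P.ce a g w

/-! ## one variable -/

theorem psi_ge_sqrt {t : ℝ} (ht : 0 ≤ t) : (Real.sqrt t - 1) ^ 2 ≤ t * Real.log t - t + 1 := by
  rcases ht.eq_or_lt with h | h
  · rw [← h]; simp
  · have hs : 0 < Real.sqrt t := Real.sqrt_pos.2 h
    have hss : Real.sqrt t * Real.sqrt t = t := Real.mul_self_sqrt ht
    have h1 : 1 - 1 / Real.sqrt t ≤ Real.log (Real.sqrt t) := by
      have h2 := Real.log_le_sub_one_of_pos (x := 1 / Real.sqrt t) (by positivity)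
      rw [one_div, Real.log_inv] at h2
      rw [one_div]
      linarith
    have h3 : Real.log t = 2 * Real.log (Real.sqrt t) := by
      conv_lhs => rw [← hss]
      rw [Real.log_mul hs.ne' hs.ne']; ring
    have h4 : t * (1 - 1 / Real.sqrt t) = t - Real.sqrt t := by
      have : t / Real.sqrt t = Real.sqrt t := by
        rw [div_eq_iff hs.ne']; exact hss.symm
      rw [mul_sub, mul_one, mul_one_div, this]
    have h5 := mul_le_mul_of_nonneg_left h1 ht
    rw [h4] at h5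
    rw [h3]
    nlinarith

theorem psi_nonneg {t : ℝ} (ht : 0 ≤ t) : 0 ≤ t * Real.log t - t + 1 :=
  le_trans (sq_nonneg _) (psi_ge_sqrt ht)

theorem psi_weak {t : ℝ} (ht : 0 ≤ t) (h8 : t ≤ 8) : (t - 1) ^ 2 ≤ 18 * (t * Real.log t - t + 1) := by
  have h1 := psi_ge_sqrt ht
  have hss : Real.sqrt t * Real.sqrt t = t := Real.mul_self_sqrt ht
  have hs0 := Real.sqrt_nonneg t
  have h2 : (t - 1) ^ 2 = (Real.sqrt t - 1) ^ 2 * (Real.sqrt t + 1) ^ 2 := by
    conv_lhs => rw [← hss]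
    ring
  have h3 : (Real.sqrt t + 1) ^ 2 ≤ 18 := by nlinarith [sq_nonneg (Real.sqrt t - 1)]
  rw [h2]
  calc (Real.sqrt t - 1) ^ 2 * (Real.sqrt t + 1) ^ 2 ≤ (Real.sqrt t - 1) ^ 2 * 18 :=
        mul_le_mul_of_nonneg_left h3 (sq_nonneg _)
    _ ≤ _ := by linarith

theorem psi_strong {t : ℝ} (h8 : 8 < t) : t ≤ 3 * (t * Real.log t - t + 1) := by
  have ht : 0 ≤ t := by linarith
  have h1 := psi_ge_sqrt ht
  have hss : Real.sqrt t * Real.sqrt t = t := Real.mul_self_sqrt ht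
  have hs : (5 : ℝ) / 2 ≤ Real.sqrt t := by
    rw [show (5 : ℝ) / 2 = Real.sqrt ((5 / 2) ^ 2) by rw [Real.sqrt_sq (by norm_num)]]
    exact Real.sqrt_le_sqrt (by norm_num; linarith)
  nlinarith

/-! ## general -/

section
variable {P Q : FP Om} {a : Om → α} {X : Om → κ} {Y : Om → ι}

theorem E_psi_dn (hQ : Q.AC P) (X : Om → κ) :
    P.E (fun w => dn Q P X w * Real.log (dn Q P X w) - dn Q P X w + 1) = kl Q P X := by
  rw [FP.E_add, FP.E_sub, FP.E_const, E_dn_one hQ X]
  have h := E_dn hQ (X := X) (F := fun w => Real.log (dn Q P X w))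
    ((dn_fac Q P X).comp (fun x => Real.log x))
  have h2 : P.E (fun w => dn Q P X w * Real.log (dn Q P X w)) =
      P.E (fun w => Real.log (dn Q P X w) * dn Q P X w) := P.E_congr (fun w _ => mul_comm _ _)
  rw [h2, h]
  unfold kl
  ring

/-- entropy rule => rule for tests -/
theorem trule_of_kl {c0 κ' : ℝ} (hc : 0 < c0)
    (hk : ∀ S, Ev a S → ∀ h : 0 < P.Pr S, c0 ≤ P.Pr S → kl (P.cnd S h) P X ≤ κ') :
    TRule P a X c0 (2 * Real.sqrt κ') := by
  intro S hS hbig ψ hψ h0 h1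
  have hpos : 0 < P.Pr S := lt_of_lt_of_le hc hbig
  have h2 := hk S hS hpos hbig
  have h3 : (P.cnd S hpos).kl P X ≤ κ' := h2
  have h4 := FP.test_of_kl (P := P) (Q := P.cnd S hpos) (cnd_ac P S hpos) hψ h0 h1 h3
  rw [cnd_E, div_le_iff₀ hpos] at h4
  rw [mul_comm]
  exact h4

theorem ev_true (a : Om → α) : Ev a (fun _ => True) := fun _ _ _ => Iff.rfl

theorem E_ci (hci : CInd P a X Y) {h φ g : Om → ℝ} (hh : Fac a h) (hφ : Fac X φ) (hg : Fac Y g) :
    P.E (fun w => h w * φ w * g w) = P.E (fun w => h w * P.ce a φ w * g w) := by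
  have e1 : P.E (fun w => h w * φ w * g w) = P.E (fun w => h w * φ w * P.ce a g w) := by
    have e2 := P.E_mul_ce (X := fun v => (a v, X v)) (h := fun w => h w * φ w)
      (Fac.mul ((Fac.fst a X).trans hh) ((Fac.snd a X).trans hφ)) g
    rw [← e2]
    exact P.E_congr (fun w hw => by rw [hci g hg w hw])
  have e3 : P.E (fun w => h w * P.ce a φ w * g w) = P.E (fun w => h w * P.ce a φ w * P.ce a g w) :=
    (P.E_mul_ce (Fac.mul hh (P.ce_fac a φ)) g).symm
  have e4 : P.E (fun w => h w * P.ce a φ w * P.ce a g w) = P.E (fun w => h w * φ w * P.ce a g w) := by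
    have e5 := P.E_mul_ce (X := a) (h := fun w => h w * P.ce a g w) (Fac.mul hh (P.ce_fac a g)) φ
    have e6 : P.E (fun w => h w * P.ce a φ w * P.ce a g w) =
        P.E (fun w => h w * P.ce a g w * P.ce a φ w) := P.E_congr (fun w _ => by ring)
    rw [e6, e5]
    exact P.E_congr (fun w _ => by ring)
  rw [e1, e3, e4]

theorem thick_E {K : ℝ} (hth : Thick P a X K) {S : Om → Prop} (hS : Ev a S) {ψ : Om → ℝ} (hψ : Fac X ψ)
    (h0 : ∀ w, 0 ≤ ψ w) : P.E (fun w => ind (S w) * ψ w) ≤ K * P.Pr S * P.E ψ :=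
  P.E_thick (hth S hS) hψ h0

/-- events on which the conditional mean of a function is at least `c` -/
theorem mul_Pr_le {S : Om → Prop} (hS : Ev a S) {f : Om → ℝ} {c : ℝ} (hc : ∀ w, S w → c ≤ P.ce a f w) :
    c * P.Pr S ≤ P.E (fun w => ind (S w) * f w) := by
  rw [← P.E_ind_ce hS f]
  unfold FP.Pr
  rw [← FP.E_smul]
  refine P.E_mono (fun w _ => ?_)
  by_cases h : S w
  · rw [ind_of h, mul_one, one_mul]; exact hc w h
  · rw [ind_not h]; simp

/-- operator bound from the rule for tests -/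
theorem op_trule {c0 dl K : ℝ} (hc0 : 0 < c0) (hdl : 0 ≤ dl) (hK : 0 ≤ K) (hX : TRule P a X c0 dl)
    (tX : Thick P a X K) {y : Om → ℝ} (hy : Fac X y) (hy0 : P.E y = 0) :
    P.E (fun w => P.ce a y w ^ 2) ≤ (38 * dl + 3 * (K * c0)) * P.E (fun w => y w ^ 2) := by
  refine P.opK (a := a) (Y := X) (Big := fun S => c0 ≤ P.Pr S) hdl (fun S hS => lt_of_lt_of_le hc0 hS)
    (fun S hS hb ψ hψ h0 h1 => hX S hS hb ψ hψ h0 h1) (fun S hS hno ψ hψ h0 => ?_) hy hy0
  have h1 : P.Pr S ≤ c0 := (not_le.1 (hno S hS (fun _ h => h))).le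
  refine (thick_E tX hS hψ h0).trans ?_
  exact mul_le_mul_of_nonneg_right (mul_le_mul_of_nonneg_left h1 hK) (P.E_nonneg (fun w _ => h0 w))

/-- weak-weak -/
theorem ww_bound {c0 dl K : ℝ} (hc0 : 0 < c0) (hdl : 0 ≤ dl) (hK : 0 ≤ K)
    (hX : TRule P a X c0 dl) (hY : TRule P a Y c0 dl) (tX : Thick P a X K) (tY : Thick P a Y K)
    (hci : CInd P a X Y) {φ ψ : Om → ℝ} (hφ : Fac X φ) (hψ : Fac Y ψ) (hφ0 : P.E φ = 0) (hψ0 : P.E ψ = 0) :
    P.E (fun w => φ w * ψ w) ≤
      (38 * dl + 3 * (K * c0)) / 2 * (P.E (fun w => φ w ^ 2) + P.E (fun w => ψ w ^ 2)) := by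
  have h1 := op_trule hc0 hdl hK hX tX hφ hφ0
  have h2 := op_trule hc0 hdl hK hY tY hψ hψ0
  have h3 := P.opK_bil (a := a) (Y := X) hφ (z := ψ) (fun w hw => hci ψ hψ w hw)
  set A := P.E (fun w => P.ce a φ w ^ 2)
  set B := P.E (fun w => P.ce a ψ w ^ 2)
  have hA : 0 ≤ A := P.E_nonneg (fun w _ => sq_nonneg _)
  have hB : 0 ≤ B := P.E_nonneg (fun w _ => sq_nonneg _)
  have h4 : Real.sqrt A * Real.sqrt B ≤ (A + B) / 2 := by
    nlinarith [sq_nonneg (Real.sqrt A - Real.sqrt B), Real.sq_sqrt hA, Real.sq_sqrt hB]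
  have h5 := le_trans (le_abs_self _) (h3.trans h4)
  linarith

/-- weak-strong -/
theorem ws_bound {c0 dl K : ℝ} (hc0 : 0 < c0) (hdl : 0 < dl) (hK : 0 ≤ K)
    (hX : TRule P a X c0 dl) (tY : Thick P a Y K) {φ g : Om → ℝ} (hφ : Fac X φ) (hg : Fac Y g)
    (hg0 : ∀ w, 0 ≤ g w) (hφ1 : ∀ w, -1 ≤ φ w) (hφ7 : ∀ w, φ w ≤ 7) (hφE : P.E φ ≤ 0) :
    P.E (fun w => P.ce a φ w * g w) ≤ (10 * dl + 7 * (K * c0)) * P.E g := by
  set U : Om → Prop := fun w => 10 * dl ≤ P.ce a φ w with hU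
  have hUe : Ev a U := fun v w h => by rw [hU]; simp only [P.ce_fac a _ v w h]
  have hUs : P.Pr U ≤ c0 := by
    by_contra hcon
    push Not at hcon
    have hp : 0 < P.Pr U := hc0.trans hcon
    have h1 := hX U hUe hcon.le (fun w => (φ w + 1) / 8) (hφ.comp (fun x => (x + 1) / 8))
      (fun w => by have := hφ1 w; linarith) (fun w => by have := hφ7 w; linarith)
    have h2 : P.E (fun w => (φ w + 1) / 8) = (P.E φ + 1) / 8 := by
      rw [FP.E_div_const, FP.E_add, FP.E_const]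
    have h3 : P.E (fun w => ind (U w) * ((φ w + 1) / 8)) =
        (P.E (fun w => ind (U w) * φ w) + P.Pr U) / 8 := by
      unfold FP.Pr
      rw [← FP.E_add, ← FP.E_div_const]
      exact P.E_congr (fun w _ => by ring)
    rw [h2, h3] at h1
    have h4 := mul_Pr_le (P := P) hUe (f := φ) (c := 10 * dl) (fun w hw => hw)
    nlinarith
  have h1 : P.E (fun w => P.ce a φ w * g w) ≤ P.E (fun w => 10 * dl * g w + 7 * (ind (U w) * g w)) := by
    refine P.E_mono (fun w hw => ?_)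
    have h7 : P.ce a φ w ≤ 7 := P.ce_le_const (fun v _ => hφ7 v) hw
    by_cases h : U w
    · rw [ind_of h, one_mul]
      have := mul_le_mul_of_nonneg_right h7 (hg0 w)
      have := mul_nonneg hdl.le (hg0 w)
      linarith
    · rw [ind_not h, zero_mul, mul_zero, add_zero]
      exact mul_le_mul_of_nonneg_right (not_le.1 h).le (hg0 w)
  rw [FP.E_add, FP.E_smul, FP.E_smul] at h1
  have h2 := thick_E tY hUe hg hg0
  have hEg : 0 ≤ P.E g := P.E_nonneg (fun w _ => hg0 w)
  have h3 : K * P.Pr U * P.E g ≤ K * c0 * P.E g :=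
    mul_le_mul_of_nonneg_right (mul_le_mul_of_nonneg_left hUs hK) hEg
  linarith

/-- strong-strong -/
theorem ss_bound {c0 dl K : ℝ} (hc0 : 0 < c0) (hdl : 0 < dl) (hK : 0 ≤ K)
    (hX : TRule P a X c0 dl) (tY : Thick P a Y K) {V : Om → Prop} (hV : Ev a V) {χ g : Om → ℝ} (hχ : Fac X χ)
    (hg : Fac Y g) (hg0 : ∀ w, 0 ≤ g w) (hχ0 : ∀ w, 0 ≤ χ w) (hχ1 : ∀ w, χ w ≤ 1) (hχE : P.E χ ≤ dl) :
    P.E (fun w => ind (V w) * P.ce a χ w * g w) ≤
      3 * dl * P.E (fun w => ind (V w) * g w) + K * c0 * P.E g := by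
  set U : Om → Prop := fun w => V w ∧ 3 * dl ≤ P.ce a χ w with hU
  have hUe : Ev a U := fun v w h => by rw [hU]; simp only [P.ce_fac a _ v w h, hV v w h]
  have hUs : P.Pr U ≤ c0 := by
    by_contra hcon
    push Not at hcon
    have hp : 0 < P.Pr U := hc0.trans hcon
    have h1 := hX U hUe hcon.le χ hχ hχ0 hχ1
    have h4 := mul_Pr_le (P := P) hUe (f := χ) (c := 3 * dl) (fun w hw => hw.2)
    nlinarith
  have h1 : P.E (fun w => ind (V w) * P.ce a χ w * g w) ≤
      P.E (fun w => 3 * dl * (ind (V w) * g w) + ind (U w) * g w) := by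
    refine P.E_mono (fun w hw => ?_)
    have hc1 : P.ce a χ w ≤ 1 := P.ce_le_const (fun v _ => hχ1 v) hw
    by_cases h : V w
    · rw [ind_of h, one_mul, one_mul]
      by_cases hu : U w
      · rw [ind_of hu, one_mul]
        have := mul_le_mul_of_nonneg_right hc1 (hg0 w)
        have := mul_nonneg hdl.le (hg0 w)
        linarith
      · rw [ind_not hu, zero_mul, add_zero]
        have h2 : P.ce a χ w < 3 * dl := by
          by_contra hc
          exact hu ⟨h, not_lt.1 hc⟩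
        exact mul_le_mul_of_nonneg_right h2.le (hg0 w)
    · rw [ind_not h, zero_mul, zero_mul, mul_zero, zero_add]
      exact mul_nonneg (ind_nonneg _) (hg0 w)
  rw [FP.E_add, FP.E_smul] at h1
  have h2 := thick_E tY hUe hg hg0
  have hEg : 0 ≤ P.E g := P.E_nonneg (fun w _ => hg0 w)
  have h3 : K * P.Pr U * P.E g ≤ K * c0 * P.E g :=
    mul_le_mul_of_nonneg_right (mul_le_mul_of_nonneg_left hUs hK) hEg
  linarith

/-! ## one cell -/

/-- weak part of a density, minus one -/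
noncomputable def wk (Q P : FP Om) {κ : Type*} (X : Om → κ) (w : Om) : ℝ := (dn Q P X w - 1) * ind (dn Q P X w ≤ 8)

/-- strong part of a density, minus one -/
noncomputable def s3sg (Q P : FP Om) {κ : Type*} (X : Om → κ) (w : Om) : ℝ := (dn Q P X w - 1) * ind (8 < dn Q P X w)

theorem wk_fac (Q P : FP Om) (X : Om → κ) : Fac X (wk Q P X) := fun v w h => by
  unfold wk; rw [dn_fac Q P X v w h]

theorem s3sg_fac (Q P : FP Om) (X : Om → κ) : Fac X (s3sg Q P X) := fun v w h => by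
  unfold s3sg; rw [dn_fac Q P X v w h]

theorem wk_ge (Q P : FP Om) (X : Om → κ) (w : Om) : -1 ≤ wk Q P X w := by
  unfold wk
  by_cases h : dn Q P X w ≤ 8
  · rw [ind_of h, mul_one]; linarith [dn_nonneg Q P X w]
  · rw [ind_not h, mul_zero]; norm_num

theorem wk_le (Q P : FP Om) (X : Om → κ) (w : Om) : wk Q P X w ≤ 7 := by
  unfold wk
  by_cases h : dn Q P X w ≤ 8
  · rw [ind_of h, mul_one]; linarith
  · rw [ind_not h, mul_zero]; norm_num

theorem s3sg_nonneg (Q P : FP Om) (X : Om → κ) (w : Om) : 0 ≤ s3sg Q P X w := by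
  unfold s3sg
  by_cases h : 8 < dn Q P X w
  · rw [ind_of h, mul_one]; linarith
  · rw [ind_not h, mul_zero]

theorem wk_add_s3sg (Q P : FP Om) (X : Om → κ) (w : Om) : wk Q P X w + s3sg Q P X w = dn Q P X w - 1 := by
  unfold wk s3sg
  by_cases h : dn Q P X w ≤ 8
  · rw [ind_of h, ind_not (not_lt.2 h)]; ring
  · rw [ind_not h, ind_of (not_le.1 h)]; ring

theorem st_ev (Q P : FP Om) (X : Om → κ) : Fac X (fun w => ind (8 < dn Q P X w)) :=
  Fac.ind (fun v w h => by rw [dn_fac Q P X v w h])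

theorem E_wk_sq (hQ : Q.AC P) (X : Om → κ) : P.E (fun w => wk Q P X w ^ 2) ≤ 18 * kl Q P X := by
  rw [← E_psi_dn hQ X, ← FP.E_smul]
  refine P.E_mono (fun w _ => ?_)
  have h0 := dn_nonneg Q P X w
  unfold wk
  by_cases h : dn Q P X w ≤ 8
  · rw [ind_of h, mul_one]; exact psi_weak h0 h
  · rw [ind_not h, mul_zero]
    have := psi_nonneg h0
    simp only [ne_eq, OfNat.ofNat_ne_zero, not_false_eq_true, zero_pow]
    linarith

theorem Q_strong (hQ : Q.AC P) (X : Om → κ) :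
    Q.E (fun w => ind (8 < dn Q P X w)) = P.E (fun w => ind (8 < dn Q P X w) * dn Q P X w) :=
  (E_dn hQ (st_ev Q P X)).symm

theorem Q_strong_le (hQ : Q.AC P) (X : Om → κ) : Q.E (fun w => ind (8 < dn Q P X w)) ≤ 3 * kl Q P X := by
  rw [Q_strong hQ, ← E_psi_dn hQ X, ← FP.E_smul]
  refine P.E_mono (fun w _ => ?_)
  have h0 := dn_nonneg Q P X w
  by_cases h : 8 < dn Q P X w
  · rw [ind_of h, one_mul]; exact psi_strong h
  · rw [ind_not h, zero_mul]
    have := psi_nonneg h0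
    linarith

theorem P_strong_le (hQ : Q.AC P) (X : Om → κ) :
    8 * P.E (fun w => ind (8 < dn Q P X w)) ≤ Q.E (fun w => ind (8 < dn Q P X w)) := by
  rw [Q_strong hQ, ← FP.E_smul]
  refine P.E_mono (fun w _ => ?_)
  by_cases h : 8 < dn Q P X w
  · rw [ind_of h, one_mul, mul_one]; exact h.le
  · rw [ind_not h]; simp

theorem E_s3sg (hQ : Q.AC P) (X : Om → κ) : P.E (s3sg Q P X) ≤ Q.E (fun w => ind (8 < dn Q P X w)) := by
  rw [Q_strong hQ]
  refine P.E_mono (fun w _ => ?_)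
  unfold s3sg
  by_cases h : 8 < dn Q P X w
  · rw [ind_of h]; linarith
  · rw [ind_not h]; simp

theorem E_wk (hQ : Q.AC P) (X : Om → κ) : P.E (wk Q P X) = - P.E (s3sg Q P X) := by
  have h : P.E (fun w => wk Q P X w + s3sg Q P X w) = P.E (fun w => dn Q P X w - 1) :=
    P.E_congr (fun w _ => wk_add_s3sg Q P X w)
  rw [FP.E_add, E_dn_sub_one hQ X] at h
  linarith

/-- the density of a conditional law of an event of `a` is at most `K` -/
theorem dn_thick {K : ℝ} (hth : Thick P a X K) {V : Om → Prop} (hV : Ev a V) (hp : 0 < P.Pr V) {w : Om}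
    (hw : P.p w ≠ 0) : dn (P.cnd V hp) P X w ≤ K := by
  have h1 := hth V hV w hw
  have hm := P.m_pos X hw
  unfold dn
  rw [div_le_iff₀ hm]
  have h2 : (P.cnd V hp).m X w = P.E (fun v => ind (V v) * ind (X v = X w)) / P.Pr V := cnd_E P V hp _
  rw [h2, div_le_iff₀ hp]
  unfold FP.ce at h1
  rw [div_le_iff₀ hm] at h1
  have h3 : P.E (fun v => ind (V v) * ind (X v = X w)) = P.E (fun v => ind (X v = X w) * ind (V v)) :=
    P.E_congr (fun v _ => mul_comm _ _)
  rw [h3]
  calc P.E (fun v => ind (X v = X w) * ind (V v)) ≤ K * P.Pr V * P.m X w := h1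
    _ = _ := by ring

/-- THE STATIC PROPOSITION, ONE CELL -/
theorem cell_stat {c0 dl K : ℝ} (hc0 : 0 < c0) (hdl : 0 < dl) (hK : 1 ≤ K)
    (hX : TRule P a X c0 dl) (hY : TRule P a Y c0 dl) (tX : Thick P a X K) (tY : Thick P a Y K)
    (hci : CInd P a X Y) {V : Om → Prop} (hV : Ev a V) (hp : 0 < P.Pr V) (hbig : c0 ≤ P.Pr V) :
    P.E (fun w => (dn (P.cnd V hp) P X w - 1) * (dn (P.cnd V hp) P Y w - 1) *
        ind (¬ (8 < dn (P.cnd V hp) P X w ∧ 8 < dn (P.cnd V hp) P Y w))) +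
      (P.cnd V hp).E (fun w => ind (8 < dn (P.cnd V hp) P X w ∧ 8 < dn (P.cnd V hp) P Y w) *
        Real.log (min (dn (P.cnd V hp) P X w) (dn (P.cnd V hp) P Y w))) ≤
    400 * (1 + Real.log K) * (dl + K * c0 / P.Pr V) * (kl (P.cnd V hp) P X + kl (P.cnd V hp) P Y) := by
  set Q := P.cnd V hp with hQdef
  have hQ : Q.AC P := cnd_ac P V hp
  have hK0 : 0 ≤ K := by linarith
  have hlK : 0 ≤ Real.log K := Real.log_nonneg hK
  have hp1 : P.Pr V ≤ 1 := P.Pr_le_one V
  set kX := kl Q P X with hkX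
  set kY := kl Q P Y with hkY
  have hkX0 : 0 ≤ kX := kl_nonneg hQ X
  have hkY0 : 0 ≤ kY := kl_nonneg hQ Y
  set sX := Q.E (fun w => ind (8 < dn Q P X w)) with hsX
  set sY := Q.E (fun w => ind (8 < dn Q P Y w)) with hsY
  have hsX0 : 0 ≤ sX := Q.E_nonneg (fun w _ => ind_nonneg _)
  have hsY0 : 0 ≤ sY := Q.E_nonneg (fun w _ => ind_nonneg _)
  have hsXk : sX ≤ 3 * kX := Q_strong_le hQ X
  have hsYk : sY ≤ 3 * kY := Q_strong_le hQ Y
  have hPX := P_strong_le hQ X
  have hPY := P_strong_le hQ Y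
  rw [← hsX] at hPX
  rw [← hsY] at hPY
  -- the rule for `V` itself
  have hsXd : sX ≤ 8 / 7 * dl := by
    have h1 := hX V hV hbig _ (st_ev Q P X) (fun w => ind_nonneg _) (fun w => ind_le_one _)
    have h2 : sX = P.E (fun w => ind (V w) * ind (8 < dn Q P X w)) / P.Pr V := cnd_E P V hp _
    have h3 : sX ≤ P.E (fun w => ind (8 < dn Q P X w)) + dl := by
      rw [h2, div_le_iff₀ hp]
      linarith
    linarith
  have hPXd : P.E (fun w => ind (8 < dn Q P X w)) ≤ dl := by linarith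
  -- the bilinear part
  have hA : P.E (fun w => (dn Q P X w - 1) * (dn Q P Y w - 1) *
        ind (¬ (8 < dn Q P X w ∧ 8 < dn Q P Y w))) =
      P.E (fun w => wk Q P X w * wk Q P Y w) + P.E (fun w => wk Q P X w * s3sg Q P Y w) +
        P.E (fun w => s3sg Q P X w * wk Q P Y w) := by
    rw [← FP.E_add, ← FP.E_add]
    refine P.E_congr (fun w _ => ?_)
    unfold wk s3sg
    by_cases h : 8 < dn Q P X w
    · by_cases h' : 8 < dn Q P Y w
      · rw [ind_of h, ind_of h', ind_not (not_le.2 h), ind_not (not_le.2 h'), ind_not (fun hn => hn ⟨h, h'⟩)]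
        ring
      · rw [ind_of h, ind_not h', ind_not (not_le.2 h), ind_of (not_lt.1 h'), ind_of (fun hn => h' hn.2)]
        ring
    · by_cases h' : 8 < dn Q P Y w
      · rw [ind_not h, ind_of h', ind_of (not_lt.1 h), ind_not (not_le.2 h'), ind_of (fun hn => h hn.1)]
        ring
      · rw [ind_not h, ind_not h', ind_of (not_lt.1 h), ind_of (not_lt.1 h'), ind_of (fun hn => h hn.1)]
        ring
  have hsgX := E_s3sg hQ X
  have hsgY := E_s3sg hQ Y
  rw [← hsX] at hsgX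
  rw [← hsY] at hsgY
  have hsgX0 : 0 ≤ P.E (s3sg Q P X) := P.E_nonneg (fun w _ => s3sg_nonneg Q P X w)
  have hsgY0 : 0 ≤ P.E (s3sg Q P Y) := P.E_nonneg (fun w _ => s3sg_nonneg Q P Y w)
  have hmX := E_wk hQ X
  have hmY := E_wk hQ Y
  have hww : P.E (fun w => wk Q P X w * wk Q P Y w) ≤
      (38 * dl + 3 * (K * c0)) / 2 * (18 * kX + 18 * kY) + 24 / 7 * dl * kY := by
    set m := P.E (wk Q P X) with hm
    set m' := P.E (wk Q P Y) with hm'
    have hv : ∀ (f : Om → ℝ), P.E (fun w => (f w - P.E f) ^ 2) ≤ P.E (fun w => f w ^ 2) := by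
      intro f
      have h1 : P.E (fun w => (f w - P.E f) ^ 2) = P.E (fun w => f w ^ 2) - P.E f ^ 2 := by
        have h2 : P.E (fun w => (f w - P.E f) ^ 2) =
            P.E (fun w => f w ^ 2 - 2 * P.E f * f w + P.E f ^ 2) := P.E_congr (fun w _ => by ring)
        rw [h2, FP.E_add, FP.E_sub, FP.E_smul, FP.E_const]
        ring
      rw [h1]
      have := sq_nonneg (P.E f)
      linarith
    have h1 := ww_bound hc0 hdl.le hK0 hX hY tX tY hci
      (φ := fun w => wk Q P X w - m) (ψ := fun w => wk Q P Y w - m')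
      ((wk_fac Q P X).comp (fun x => x - m)) ((wk_fac Q P Y).comp (fun x => x - m'))
      (by rw [FP.E_sub, FP.E_const]; exact sub_self _) (by rw [FP.E_sub, FP.E_const]; exact sub_self _)
    have h2 : P.E (fun w => (wk Q P X w - m) * (wk Q P Y w - m')) =
        P.E (fun w => wk Q P X w * wk Q P Y w) - m * m' := by
      have h3 : P.E (fun w => (wk Q P X w - m) * (wk Q P Y w - m')) =
          P.E (fun w => wk Q P X w * wk Q P Y w - m' * wk Q P X w - m * wk Q P Y w + m * m') :=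
        P.E_congr (fun w _ => by ring)
      rw [h3, FP.E_add, FP.E_sub, FP.E_sub, FP.E_smul, FP.E_smul, FP.E_const, ← hm, ← hm']
      ring
    rw [h2] at h1
    have h4 := (hv (wk Q P X)).trans (E_wk_sq hQ X)
    have h5 := (hv (wk Q P Y)).trans (E_wk_sq hQ Y)
    have h6 : (38 * dl + 3 * (K * c0)) / 2 * (P.E (fun w => (wk Q P X w - m) ^ 2) +
        P.E (fun w => (wk Q P Y w - m') ^ 2)) ≤ (38 * dl + 3 * (K * c0)) / 2 * (18 * kX + 18 * kY) :=
      mul_le_mul_of_nonneg_left (add_le_add h4 h5) (by positivity)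
    have h7 : m * m' ≤ 24 / 7 * dl * kY := by
      rw [hmX, hmY]
      have h8 : -P.E (s3sg Q P X) * -P.E (s3sg Q P Y) = P.E (s3sg Q P X) * P.E (s3sg Q P Y) := by ring
      rw [h8]
      calc P.E (s3sg Q P X) * P.E (s3sg Q P Y) ≤ (8 / 7 * dl) * (3 * kY) :=
            mul_le_mul (hsgX.trans hsXd) (hsgY.trans hsYk) hsgY0 (by positivity)
        _ = _ := by ring
    linarith
  have hws : P.E (fun w => wk Q P X w * s3sg Q P Y w) ≤ (10 * dl + 7 * (K * c0)) * sY := by
    have h1 := E_ci hci (h := fun _ => (1 : ℝ)) (Fac.const a 1) (wk_fac Q P X) (s3sg_fac Q P Y)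
    simp only [one_mul] at h1
    rw [h1]
    have h2 := ws_bound hc0 hdl hK0 hX tY (wk_fac Q P X) (s3sg_fac Q P Y) (s3sg_nonneg Q P Y) (wk_ge Q P X)
      (wk_le Q P X) (by rw [hmX]; linarith)
    exact h2.trans (mul_le_mul_of_nonneg_left hsgY (by positivity))
  have hsw : P.E (fun w => s3sg Q P X w * wk Q P Y w) ≤ (10 * dl + 7 * (K * c0)) * sX := by
    have h1 : P.E (fun w => s3sg Q P X w * wk Q P Y w) = P.E (fun w => P.ce a (wk Q P Y) w * s3sg Q P X w) := by
      have h2 := P.E_mul_ce (X := fun v => (a v, X v)) (h := s3sg Q P X) ((Fac.snd a X).trans (s3sg_fac Q P X))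
        (wk Q P Y)
      rw [← h2]
      exact P.E_congr (fun w hw => by rw [hci _ (wk_fac Q P Y) w hw]; ring)
    rw [h1]
    have h2 := ws_bound hc0 hdl hK0 hY tX (wk_fac Q P Y) (s3sg_fac Q P X) (s3sg_nonneg Q P X) (wk_ge Q P Y)
      (wk_le Q P Y) (by rw [hmY]; linarith)
    exact h2.trans (mul_le_mul_of_nonneg_left hsgX (by positivity))
  -- the both strong part
  have hB : Q.E (fun w => ind (8 < dn Q P X w ∧ 8 < dn Q P Y w) *
        Real.log (min (dn Q P X w) (dn Q P Y w))) ≤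
      Real.log K * ((3 * dl + K * c0 / P.Pr V / 8) * sY) := by
    have h1 : Q.E (fun w => ind (8 < dn Q P X w ∧ 8 < dn Q P Y w) *
        Real.log (min (dn Q P X w) (dn Q P Y w))) ≤
        Real.log K * Q.E (fun w => ind (8 < dn Q P X w) * ind (8 < dn Q P Y w)) := by
      rw [← FP.E_smul]
      refine Q.E_mono (fun w hw => ?_)
      rw [ind_and]
      by_cases h : 8 < dn Q P X w
      · by_cases h' : 8 < dn Q P Y w
        · rw [ind_of h, ind_of h', mul_one, one_mul, mul_one]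
          have h2 : 0 < min (dn Q P X w) (dn Q P Y w) := lt_min (by linarith) (by linarith)
          exact Real.log_le_log h2 ((min_le_left _ _).trans (dn_thick tX hV hp (hQ w hw)))
        · rw [ind_not h']; simp
      · rw [ind_not h]; simp
    refine h1.trans (mul_le_mul_of_nonneg_left ?_ hlK)
    have h2 : Q.E (fun w => ind (8 < dn Q P X w) * ind (8 < dn Q P Y w)) =
        P.E (fun w => ind (V w) * ind (8 < dn Q P X w) * ind (8 < dn Q P Y w)) / P.Pr V := by
      rw [hQdef, cnd_E, ← hQdef]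
      congr 1
      exact P.E_congr (fun w _ => by ring)
    rw [h2, E_ci hci (Fac.ind hV) (st_ev Q P X) (st_ev Q P Y), div_le_iff₀ hp]
    have h3 := ss_bound hc0 hdl hK0 hX tY hV (st_ev Q P X) (st_ev Q P Y) (fun w => ind_nonneg _)
      (fun w => ind_nonneg _) (fun w => ind_le_one _) hPXd
    have h4 : P.E (fun w => ind (V w) * ind (8 < dn Q P Y w)) = sY * P.Pr V := by
      have h5 : sY = P.E (fun w => ind (V w) * ind (8 < dn Q P Y w)) / P.Pr V := cnd_E P V hp _
      rw [h5]; field_simp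
    rw [h4] at h3
    refine h3.trans ?_
    have h5 : K * c0 * P.E (fun w => ind (8 < dn Q P Y w)) ≤ K * c0 * (sY / 8) :=
      mul_le_mul_of_nonneg_left (by linarith) (by positivity)
    have h6 : (3 * dl + K * c0 / P.Pr V / 8) * sY * P.Pr V = 3 * dl * (sY * P.Pr V) + K * c0 * (sY / 8) := by
      field_simp
    rw [h6]
    linarith
  -- sum
  set E := K * c0 / P.Pr V with hE
  have hE0 : 0 ≤ E := by positivity
  have he : K * c0 ≤ E := by
    rw [hE, le_div_iff₀ hp]
    have : 0 ≤ K * c0 := by positivity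
    nlinarith
  have he0 : 0 ≤ K * c0 := by positivity
  rw [hA]
  have t1 : (38 * dl + 3 * (K * c0)) / 2 * (18 * kX + 18 * kY) ≤ (342 * dl + 27 * E) * (kX + kY) := by
    have : (38 * dl + 3 * (K * c0)) / 2 * (18 * kX + 18 * kY) = (342 * dl + 27 * (K * c0)) * (kX + kY) := by ring
    rw [this]
    exact mul_le_mul_of_nonneg_right (by linarith) (by linarith)
  have t2 : 24 / 7 * dl * kY ≤ 4 * dl * (kX + kY) := by
    have := mul_nonneg hdl.le hkX0
    have := mul_nonneg hdl.le hkY0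
    nlinarith
  have t3 : (10 * dl + 7 * (K * c0)) * sY + (10 * dl + 7 * (K * c0)) * sX ≤ (30 * dl + 21 * E) * (kX + kY) := by
    calc (10 * dl + 7 * (K * c0)) * sY + (10 * dl + 7 * (K * c0)) * sX
        = (10 * dl + 7 * (K * c0)) * (sX + sY) := by ring
      _ ≤ (10 * dl + 7 * E) * (3 * kX + 3 * kY) :=
          mul_le_mul (by linarith) (by linarith) (by linarith) (by positivity)
      _ = _ := by ring
  have t4 : Real.log K * ((3 * dl + E / 8) * sY) ≤ Real.log K * ((9 * dl + E) * (kX + kY)) := by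
    refine mul_le_mul_of_nonneg_left ?_ hlK
    calc (3 * dl + E / 8) * sY ≤ (3 * dl + E / 8) * (3 * (kX + kY)) :=
          mul_le_mul_of_nonneg_left (by linarith) (by positivity)
      _ = (9 * dl + 3 / 8 * E) * (kX + kY) := by ring
      _ ≤ _ := mul_le_mul_of_nonneg_right (by linarith) (by linarith)
  have t5 : 400 * (1 + Real.log K) * (dl + E) * (kX + kY) =
      400 * (dl + E) * (kX + kY) + Real.log K * ((400 * dl + 400 * E) * (kX + kY)) := by ring
  rw [t5]
  have t6 : Real.log K * ((9 * dl + E) * (kX + kY)) ≤ Real.log K * ((400 * dl + 400 * E) * (kX + kY)) :=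
    mul_le_mul_of_nonneg_left (mul_le_mul_of_nonneg_right (by linarith) (by linarith)) hlK
  have t7 : (342 * dl + 27 * E) * (kX + kY) + 4 * dl * (kX + kY) + (30 * dl + 21 * E) * (kX + kY) ≤
      400 * (dl + E) * (kX + kY) := by
    have : (342 * dl + 27 * E) * (kX + kY) + 4 * dl * (kX + kY) + (30 * dl + 21 * E) * (kX + kY) =
      (376 * dl + 48 * E) * (kX + kY) := by ring
    rw [this]
    exact mul_le_mul_of_nonneg_right (by linarith) (by linarith)
  linarith

/-- the loss at one cell -/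
theorem cell_red {c0 dl K : ℝ} (hc0 : 0 < c0) (hdl : 0 < dl) (hK : 1 ≤ K)
    (hX : TRule P a X c0 dl) (hY : TRule P a Y c0 dl) (tX : Thick P a X K) (tY : Thick P a Y K)
    (hci : CInd P a X Y) {V : Om → Prop} (hV : Ev a V) (hp : 0 < P.Pr V) (hbig : c0 ≤ P.Pr V) :
    kl (P.cnd V hp) P X + kl (P.cnd V hp) P Y - kl (P.cnd V hp) P (fun w => (X w, Y w)) ≤
    400 * (1 + Real.log K) * (dl + K * c0 / P.Pr V) * (kl (P.cnd V hp) P X + kl (P.cnd V hp) P Y) :=
  (cell_ineq (cnd_ac P V hp) X Y (by norm_num : (1 : ℝ) ≤ 8)).trans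
    (cell_stat hc0 hdl hK hX hY tX tY hci hV hp hbig)

end

end Pool.Agent.M3
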