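import Pool.Agent.M3.S3Stat

/-!
# M3.S3StatW: the static proposition with live letters and the Hellinger distance

As `S3Stat`, but thick only on the live letters `o1` (an event of `X`), `o2` (an event of `Y`), where
`P(not o1), P(not o2) ≤ dl^2`, and the right side is `hl X + hl Y`, `hl = E (√r - 1)² ≤ KL`.
* `cell_statW`: for an event `V` of `a`, `P(V) ≥ c0`:
  `E[o1 o2 (r-1)(s-1); not both > 8] + E_V[o1 o2 log min(r,s); both > 8]
     ≤ 500 (1 + log K)(dl + K c0 / P(V)) (hl X + hl Y)`.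
-/

set_option autoImplicit false
set_option linter.unusedSectionVars false

namespace Pool.Agent.M3

open Finset Pool.Agent.PWZ

variable {Om : Type*} [Fintype Om] {α κ ι : Type*}

/-- thick live letters -/
def ThickL (P : FP Om) (a : Om → α) (X : Om → κ) (K : ℝ) (o : Om → Prop) : Prop :=
  ∀ S, Ev a S → ∀ w, P.p w ≠ 0 → o w → P.ce X (fun v => ind (S v)) w ≤ K * P.Pr S

/-- squared Hellinger distance of the laws of `X` -/
noncomputable def hl (Q P : FP Om) (X : Om → κ) : ℝ := P.E (fun w => (Real.sqrt (dn Q P X w) - 1) ^ 2)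

section
variable {P Q : FP Om} {a : Om → α} {X : Om → κ} {Y : Om → ι} {o1 o2 : Om → Prop}

theorem hl_nonneg (Q P : FP Om) (X : Om → κ) : 0 ≤ hl Q P X := P.E_nonneg (fun _ _ => sq_nonneg _)

theorem hl_le_kl (hQ : Q.AC P) (X : Om → κ) : hl Q P X ≤ kl Q P X := by
  rw [← E_psi_dn hQ X]
  exact P.E_mono (fun w _ => psi_ge_sqrt (dn_nonneg Q P X w))

theorem sqrt_weak {t : ℝ} (ht : 0 ≤ t) (h8 : t ≤ 8) : (t - 1) ^ 2 ≤ 15 * (Real.sqrt t - 1) ^ 2 := by
  have hss : Real.sqrt t * Real.sqrt t = t := Real.mul_self_sqrt ht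
  have hs0 := Real.sqrt_nonneg t
  have hs3 : Real.sqrt t ≤ 3 := by
    rw [show (3 : ℝ) = Real.sqrt (3 ^ 2) by rw [Real.sqrt_sq (by norm_num)]]
    exact Real.sqrt_le_sqrt (by norm_num; linarith)
  have h2 : (t - 1) ^ 2 = (Real.sqrt t + 1) ^ 2 * (Real.sqrt t - 1) ^ 2 := by
    conv_lhs => rw [← hss]
    ring
  rw [h2]
  exact mul_le_mul_of_nonneg_right (by nlinarith) (sq_nonneg _)

theorem sqrt_strong {t : ℝ} (h8 : 8 < t) : t ≤ 3 * (Real.sqrt t - 1) ^ 2 := by
  have ht : 0 ≤ t := by linarith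
  have hss : Real.sqrt t * Real.sqrt t = t := Real.mul_self_sqrt ht
  have hs : (5 : ℝ) / 2 ≤ Real.sqrt t := by
    rw [show (5 : ℝ) / 2 = Real.sqrt ((5 / 2) ^ 2) by rw [Real.sqrt_sq (by norm_num)]]
    exact Real.sqrt_le_sqrt (by norm_num; linarith)
  nlinarith

theorem E_wk_sq_hl (Q P : FP Om) (X : Om → κ) : P.E (fun w => wk Q P X w ^ 2) ≤ 15 * hl Q P X := by
  unfold hl
  rw [← FP.E_smul]
  refine P.E_mono (fun w _ => ?_)
  have h0 := dn_nonneg Q P X w
  unfold wk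
  by_cases h : dn Q P X w ≤ 8
  · rw [ind_of h, mul_one]; exact sqrt_weak h0 h
  · rw [ind_not h, mul_zero]
    have := sq_nonneg (Real.sqrt (dn Q P X w) - 1)
    simp only [ne_eq, OfNat.ofNat_ne_zero, not_false_eq_true, zero_pow]
    linarith

theorem Q_strong_le_hl (hQ : Q.AC P) (X : Om → κ) : Q.E (fun w => ind (8 < dn Q P X w)) ≤ 3 * hl Q P X := by
  unfold hl
  rw [Q_strong hQ, ← FP.E_smul]
  refine P.E_mono (fun w _ => ?_)
  by_cases h : 8 < dn Q P X w
  · rw [ind_of h, one_mul]; exact sqrt_strong h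
  · rw [ind_not h, zero_mul]
    have := sq_nonneg (Real.sqrt (dn Q P X w) - 1)
    linarith

/-- a function of `X` which vanishes off the live letters -/
theorem thickL_E {K : ℝ} {o : Om → Prop} (hth : ThickL P a X K o) {S : Om → Prop} (hS : Ev a S) {ψ : Om → ℝ}
    (hψ : Fac X ψ) (h0 : ∀ w, 0 ≤ ψ w) (ho : ∀ w, ψ w ≠ 0 → o w) :
    P.E (fun w => ind (S w) * ψ w) ≤ K * P.Pr S * P.E ψ := by
  rw [← FP.E_smul]
  have h1 : P.E (fun w => ind (S w) * ψ w) = P.E (fun w => ψ w * P.ce X (fun v => ind (S v)) w) := by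
    rw [P.E_mul_ce hψ]
    exact P.E_congr (fun w _ => mul_comm _ _)
  rw [h1]
  refine P.E_mono (fun w hw => ?_)
  by_cases h : ψ w = 0
  · rw [h]; simp
  · rw [mul_comm (K * _)]
    exact mul_le_mul_of_nonneg_left (hth S hS w hw (ho w h)) (h0 w)

theorem op_truleW {c0 dl K : ℝ} (hc0 : 0 < c0) (hdl : 0 ≤ dl) (hK : 0 ≤ K) (hX : TRule P a X c0 dl)
    {o : Om → Prop} (tX : ThickL P a X K o) {y : Om → ℝ} (hy : Fac X y) (hy0 : P.E y = 0)
    (ho : ∀ w, y w ≠ 0 → o w) :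
    P.E (fun w => P.ce a y w ^ 2) ≤ (38 * dl + 3 * (K * c0)) * P.E (fun w => y w ^ 2) := by
  refine P.opK_y (a := a) (Y := X) (Big := fun S => c0 ≤ P.Pr S) hdl (fun S hS => lt_of_lt_of_le hc0 hS)
    (fun S hS hb ψ hψ h0 h1 => hX S hS hb ψ hψ h0 h1) hy hy0 (fun S hS hno => ?_)
  have h1 : P.Pr S ≤ c0 := (not_le.1 (hno S hS (fun _ h => h))).le
  refine (thickL_E tX hS (hy.comp (fun x => x ^ 2)) (fun w => sq_nonneg _) (fun w hw => ?_)).trans ?_
  · exact ho w (fun h => hw (by rw [h]; ring))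
  · exact mul_le_mul_of_nonneg_right (mul_le_mul_of_nonneg_left h1 hK) (P.E_nonneg (fun w _ => sq_nonneg _))

/-- weak-strong -/
theorem ws_boundW {c0 dl K : ℝ} (hc0 : 0 < c0) (hdl : 0 < dl) (hK : 0 ≤ K)
    (hX : TRule P a X c0 dl) (tY : ThickL P a Y K o2) {φ g : Om → ℝ} (hφ : Fac X φ) (hg : Fac Y g)
    (hg0 : ∀ w, 0 ≤ g w) (hgo : ∀ w, g w ≠ 0 → o2 w) (hφ1 : ∀ w, -1 ≤ φ w) (hφ7 : ∀ w, φ w ≤ 7)
    (hφE : P.E φ ≤ dl) :
    P.E (fun w => P.ce a φ w * g w) ≤ (10 * dl + 7 * (K * c0)) * P.E g := by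
  set U : Om → Prop := fun w => 10 * dl ≤ P.ce a φ w with hU
  have hUe : Ev a U := fun v w h => by rw [hU]; simp only [P.ce_fac a _ v w h]
  have hUs : P.Pr U ≤ c0 := by
    by_contra hcon
    push Not at hcon
    have hp : 0 < P.Pr U := hc0.trans hcon
    have h1 := hX U hUe hcon.le (fun w => (φ w + 1) / 8) (hφ.comp (fun x => (x + 1) / 8))
      (fun w => by have := hφ1 w; linarith) (fun w => by have := hφ7 w; linarith)
    have h2 : P.E (fun w => (φ w + 1) / 8) = (P.E φ + 1) / 8 := by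
      rw [FP.E_div_const, FP.E_add, FP.E_const]
    have h3 : P.E (fun w => ind (U w) * ((φ w + 1) / 8)) =
        (P.E (fun w => ind (U w) * φ w) + P.Pr U) / 8 := by
      unfold FP.Pr
      rw [← FP.E_add, ← FP.E_div_const]
      exact P.E_congr (fun w _ => by ring)
    rw [h2, h3] at h1
    have h4 := mul_Pr_le (P := P) hUe (f := φ) (c := 10 * dl) (fun w hw => hw)
    nlinarith
  have h1 : P.E (fun w => P.ce a φ w * g w) ≤ P.E (fun w => 10 * dl * g w + 7 * (ind (U w) * g w)) := by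
    refine P.E_mono (fun w hw => ?_)
    have h7 : P.ce a φ w ≤ 7 := P.ce_le_const (fun v _ => hφ7 v) hw
    by_cases h : U w
    · rw [ind_of h, one_mul]
      have := mul_le_mul_of_nonneg_right h7 (hg0 w)
      have := mul_nonneg hdl.le (hg0 w)
      linarith
    · rw [ind_not h, zero_mul, mul_zero, add_zero]
      exact mul_le_mul_of_nonneg_right (not_le.1 h).le (hg0 w)
  rw [FP.E_add, FP.E_smul, FP.E_smul] at h1
  have h2 := thickL_E tY hUe hg hg0 hgo
  have hEg : 0 ≤ P.E g := P.E_nonneg (fun w _ => hg0 w)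
  have h3 : K * P.Pr U * P.E g ≤ K * c0 * P.E g :=
    mul_le_mul_of_nonneg_right (mul_le_mul_of_nonneg_left hUs hK) hEg
  linarith

/-- strong-strong -/
theorem ss_boundW {c0 dl K : ℝ} (hc0 : 0 < c0) (hdl : 0 < dl) (hK : 0 ≤ K)
    (hX : TRule P a X c0 dl) (tY : ThickL P a Y K o2) {V : Om → Prop} (hV : Ev a V) {χ g : Om → ℝ}
    (hχ : Fac X χ) (hg : Fac Y g) (hg0 : ∀ w, 0 ≤ g w) (hgo : ∀ w, g w ≠ 0 → o2 w) (hχ0 : ∀ w, 0 ≤ χ w)
    (hχ1 : ∀ w, χ w ≤ 1) (hχE : P.E χ ≤ dl) :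
    P.E (fun w => ind (V w) * P.ce a χ w * g w) ≤
      3 * dl * P.E (fun w => ind (V w) * g w) + K * c0 * P.E g := by
  set U : Om → Prop := fun w => V w ∧ 3 * dl ≤ P.ce a χ w with hU
  have hUe : Ev a U := fun v w h => by rw [hU]; simp only [P.ce_fac a _ v w h, hV v w h]
  have hUs : P.Pr U ≤ c0 := by
    by_contra hcon
    push Not at hcon
    have hp : 0 < P.Pr U := hc0.trans hcon
    have h1 := hX U hUe hcon.le χ hχ hχ0 hχ1
    have h4 := mul_Pr_le (P := P) hUe (f := χ) (c := 3 * dl) (fun w hw => hw.2)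
    nlinarith
  have h1 : P.E (fun w => ind (V w) * P.ce a χ w * g w) ≤
      P.E (fun w => 3 * dl * (ind (V w) * g w) + ind (U w) * g w) := by
    refine P.E_mono (fun w hw => ?_)
    have hc1 : P.ce a χ w ≤ 1 := P.ce_le_const (fun v _ => hχ1 v) hw
    by_cases h : V w
    · rw [ind_of h, one_mul, one_mul]
      by_cases hu : U w
      · rw [ind_of hu, one_mul]
        have := mul_le_mul_of_nonneg_right hc1 (hg0 w)
        have := mul_nonneg hdl.le (hg0 w)
        linarith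
      · rw [ind_not hu, zero_mul, add_zero]
        have h2 : P.ce a χ w < 3 * dl := by
          by_contra hc
          exact hu ⟨h, not_lt.1 hc⟩
        exact mul_le_mul_of_nonneg_right h2.le (hg0 w)
    · rw [ind_not h, zero_mul, zero_mul, mul_zero, zero_add]
      exact mul_nonneg (ind_nonneg _) (hg0 w)
  rw [FP.E_add, FP.E_smul] at h1
  have h2 := thickL_E tY hUe hg hg0 hgo
  have hEg : 0 ≤ P.E g := P.E_nonneg (fun w _ => hg0 w)
  have h3 : K * P.Pr U * P.E g ≤ K * c0 * P.E g :=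
    mul_le_mul_of_nonneg_right (mul_le_mul_of_nonneg_left hUs hK) hEg
  linarith

/-- densities of live letters -/
theorem dn_thickL {K : ℝ} (hth : ThickL P a X K o1) {V : Om → Prop} (hV : Ev a V) (hp : 0 < P.Pr V) {w : Om}
    (hw : P.p w ≠ 0) (ho : o1 w) : dn (P.cnd V hp) P X w ≤ K := by
  have h1 := hth V hV w hw ho
  have hm := P.m_pos X hw
  unfold dn
  rw [div_le_iff₀ hm]
  have h2 : (P.cnd V hp).m X w = P.E (fun v => ind (V v) * ind (X v = X w)) / P.Pr V := cnd_E P V hp _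
  rw [h2, div_le_iff₀ hp]
  unfold FP.ce at h1
  rw [div_le_iff₀ hm] at h1
  have h3 : P.E (fun v => ind (V v) * ind (X v = X w)) = P.E (fun v => ind (X v = X w) * ind (V v)) :=
    P.E_congr (fun v _ => mul_comm _ _)
  rw [h3]
  calc P.E (fun v => ind (X v = X w) * ind (V v)) ≤ K * P.Pr V * P.m X w := h1
    _ = _ := by ring

/-- the mean of a test under `Q` and `P`: Cauchy-Schwarz with the Hellinger distance -/
theorem E_test_sq (hQ : Q.AC P) {o : Om → Prop} (ho : Ev X o) :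
    (P.E (fun w => ind (o w) * (dn Q P X w - 1))) ^ 2 ≤
      hl Q P X * (2 * (Q.Pr o + P.Pr o)) := by
  have h1 := P.E_mul_sq_le (fun w => Real.sqrt (dn Q P X w) - 1)
    (fun w => ind (o w) * (Real.sqrt (dn Q P X w) + 1))
  have h2 : P.E (fun w => (Real.sqrt (dn Q P X w) - 1) * (ind (o w) * (Real.sqrt (dn Q P X w) + 1))) =
      P.E (fun w => ind (o w) * (dn Q P X w - 1)) := by
    refine P.E_congr (fun w _ => ?_)
    have := Real.mul_self_sqrt (dn_nonneg Q P X w)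
    calc (Real.sqrt (dn Q P X w) - 1) * (ind (o w) * (Real.sqrt (dn Q P X w) + 1))
        = ind (o w) * (Real.sqrt (dn Q P X w) * Real.sqrt (dn Q P X w) - 1) := by ring
      _ = _ := by rw [this]
  rw [h2] at h1
  refine h1.trans ?_
  unfold hl
  refine mul_le_mul_of_nonneg_left ?_ (P.E_nonneg (fun w _ => sq_nonneg _))
  have h3 : Q.Pr o = P.E (fun w => ind (o w) * dn Q P X w) := (E_dn hQ (Fac.ind ho)).symm
  rw [h3]
  unfold FP.Pr
  rw [← FP.E_add, ← FP.E_smul]
  refine P.E_mono (fun w _ => ?_)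
  have h4 := Real.mul_self_sqrt (dn_nonneg Q P X w)
  by_cases h : o w
  · rw [ind_of h]
    nlinarith [sq_nonneg (Real.sqrt (dn Q P X w) - 1)]
  · rw [ind_not h]; simp

theorem split_pt (Q P : FP Om) (X : Om → κ) (Y : Om → ι) (w : Om) :
    (dn Q P X w - 1) * (dn Q P Y w - 1) * ind (¬ (8 < dn Q P X w ∧ 8 < dn Q P Y w)) =
      wk Q P X w * wk Q P Y w + wk Q P X w * s3sg Q P Y w + s3sg Q P X w * wk Q P Y w := by
  unfold wk s3sg
  by_cases h : 8 < dn Q P X w
  · by_cases h' : 8 < dn Q P Y w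
    · rw [ind_of h, ind_of h', ind_not (not_le.2 h), ind_not (not_le.2 h'), ind_not (fun hn => hn ⟨h, h'⟩)]
      ring
    · rw [ind_of h, ind_not h', ind_not (not_le.2 h), ind_of (not_lt.1 h'), ind_of (fun hn => h' hn.2)]
      ring
  · by_cases h' : 8 < dn Q P Y w
    · rw [ind_not h, ind_of h', ind_of (not_lt.1 h), ind_not (not_le.2 h'), ind_of (fun hn => h hn.1)]
      ring
    · rw [ind_not h, ind_not h', ind_of (not_lt.1 h), ind_of (not_lt.1 h'), ind_of (fun hn => h hn.1)]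
      ring

/-- the mean of the live weak part -/
theorem E_live_wk (hQ : Q.AC P) (ho : Ev X o1) {dl : ℝ} (hdl : 0 < dl) (hdl2 : dl ≤ 1 / 2)
    (hd : P.Pr (fun w => ¬ o1 w) ≤ dl ^ 2) (hQo : Q.Pr (fun w => ¬ o1 w) ≤ P.Pr (fun w => ¬ o1 w) + dl)
    (hs : Q.E (fun w => ind (8 < dn Q P X w)) ≤ 8 / 7 * dl) :
    (P.E (fun w => ind (o1 w) * wk Q P X w)) ^ 2 ≤ 15 * dl * hl Q P X := by
  have hl0 := hl_nonneg Q P X
  have h1 : P.E (fun w => ind (o1 w) * wk Q P X w) =
      - P.E (fun w => ind (¬ o1 w) * (dn Q P X w - 1)) - P.E (fun w => ind (o1 w) * s3sg Q P X w) := by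
    have h2 : P.E (fun w => ind (o1 w) * wk Q P X w) + P.E (fun w => ind (o1 w) * s3sg Q P X w) +
        P.E (fun w => ind (¬ o1 w) * (dn Q P X w - 1)) = P.E (fun w => dn Q P X w - 1) := by
      rw [← FP.E_add, ← FP.E_add]
      refine P.E_congr (fun w _ => ?_)
      rw [FP.ind_not_eq, ← wk_add_s3sg Q P X w]
      ring
    rw [E_dn_sub_one hQ X] at h2
    linarith
  have hno : Ev X (fun w => ¬ o1 w) := fun v w h => not_congr (ho v w h)
  have h3 := E_test_sq hQ hno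
  have h4 : hl Q P X * (2 * (Q.Pr (fun w => ¬ o1 w) + P.Pr (fun w => ¬ o1 w))) ≤ 4 * dl * hl Q P X := by
    rw [mul_comm]
    exact mul_le_mul_of_nonneg_right (by nlinarith) hl0
  set A := P.E (fun w => ind (¬ o1 w) * (dn Q P X w - 1))
  set B := P.E (fun w => ind (o1 w) * s3sg Q P X w) with hB
  have hB0 : 0 ≤ B := P.E_nonneg (fun w _ => mul_nonneg (ind_nonneg _) (s3sg_nonneg Q P X w))
  have hB1 : B ≤ Q.E (fun w => ind (8 < dn Q P X w)) := by
    refine le_trans ?_ (E_s3sg hQ X)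
    refine P.E_mono (fun w _ => ?_)
    have := mul_le_mul_of_nonneg_right (ind_le_one (o1 w)) (s3sg_nonneg Q P X w)
    linarith
  have hs2 := Q_strong_le_hl hQ X
  set sX := Q.E (fun w => ind (8 < dn Q P X w))
  have hB2 : B ^ 2 ≤ 24 / 7 * dl * hl Q P X := by
    have h5 : B * B ≤ (8 / 7 * dl) * (3 * hl Q P X) :=
      mul_le_mul (hB1.trans hs) (hB1.trans hs2) hB0 (by positivity)
    calc B ^ 2 = B * B := by ring
      _ ≤ _ := h5
      _ = _ := by ring
  rw [h1]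
  have h6 : (-A - B) ^ 2 ≤ 2 * A ^ 2 + 2 * B ^ 2 := by nlinarith [sq_nonneg (A - B)]
  have h7 : 0 ≤ dl * hl Q P X := mul_nonneg hdl.le hl0
  nlinarith

/-- weak-weak with live letters -/
theorem ww_boundW {c0 dl K : ℝ} (hc0 : 0 < c0) (hdl : 0 < dl) (hdl2 : dl ≤ 1 / 2) (hK : 0 ≤ K)
    (hX : TRule P a X c0 dl) (hY : TRule P a Y c0 dl) (tX : ThickL P a X K o1) (tY : ThickL P a Y K o2)
    (hci : CInd P a X Y) (ho1 : Ev X o1) (ho2 : Ev Y o2)
    (hd1 : P.Pr (fun w => ¬ o1 w) ≤ dl ^ 2) (hd2 : P.Pr (fun w => ¬ o2 w) ≤ dl ^ 2)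
    {φ ψ : Om → ℝ} (hφ : Fac X φ) (hψ : Fac Y ψ) (hφo : ∀ w, φ w ≠ 0 → o1 w) (hψo : ∀ w, ψ w ≠ 0 → o2 w)
    {hA hB : ℝ} (hφ2 : P.E (fun w => φ w ^ 2) ≤ 15 * hA) (hψ2 : P.E (fun w => ψ w ^ 2) ≤ 15 * hB)
    (hφ1 : (P.E φ) ^ 2 ≤ 15 * dl * hA) (hψ1 : (P.E ψ) ^ 2 ≤ 15 * dl * hB) :
    P.E (fun w => φ w * ψ w) ≤ (384 * dl + 29 * (K * c0)) * (hA + hB) := by
  have hA0 : 0 ≤ hA := by
    have := le_trans (P.E_nonneg (fun w _ => sq_nonneg (φ w))) hφ2
    linarith
  have hB0 : 0 ≤ hB := by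
    have := le_trans (P.E_nonneg (fun w _ => sq_nonneg (ψ w))) hψ2
    linarith
  set p1 := P.Pr o1 with hp1
  set p2 := P.Pr o2 with hp2
  have hq : dl ^ 2 ≤ 1 / 4 := by nlinarith
  have hp1' : 3 / 4 ≤ p1 := by
    have := P.Pr_not o1
    linarith
  have hp2' : 3 / 4 ≤ p2 := by
    have := P.Pr_not o2
    linarith
  set c := P.E φ / p1 with hc
  set c' := P.E ψ / p2 with hc'
  have hcp : c * p1 = P.E φ := by rw [hc]; field_simp
  have hcp' : c' * p2 = P.E ψ := by rw [hc']; field_simp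
  have hcsq : c ^ 2 ≤ 27 * dl * hA := by
    have h1 : c ^ 2 * (9 / 16) ≤ c ^ 2 * p1 ^ 2 := mul_le_mul_of_nonneg_left (by nlinarith) (sq_nonneg _)
    have h2 : c ^ 2 * p1 ^ 2 = (P.E φ) ^ 2 := by rw [← hcp]; ring
    have h3 : 0 ≤ dl * hA := mul_nonneg hdl.le hA0
    nlinarith
  have hcsq' : c' ^ 2 ≤ 27 * dl * hB := by
    have h1 : c' ^ 2 * (9 / 16) ≤ c' ^ 2 * p2 ^ 2 := mul_le_mul_of_nonneg_left (by nlinarith) (sq_nonneg _)
    have h2 : c' ^ 2 * p2 ^ 2 = (P.E ψ) ^ 2 := by rw [← hcp']; ring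
    have h3 : 0 ≤ dl * hB := mul_nonneg hdl.le hB0
    nlinarith
  set y1 : Om → ℝ := fun w => φ w - c * ind (o1 w) with hy1
  set y2 : Om → ℝ := fun w => ψ w - c' * ind (o2 w) with hy2
  have hy1f : Fac X y1 := Fac.sub hφ ((Fac.ind ho1).comp (fun x => c * x))
  have hy2f : Fac Y y2 := Fac.sub hψ ((Fac.ind ho2).comp (fun x => c' * x))
  have hE1 : P.E y1 = 0 := by
    rw [hy1, FP.E_sub, FP.E_smul]
    change P.E φ - c * P.Pr o1 = 0
    rw [← hp1, hcp, sub_self]
  have hE2 : P.E y2 = 0 := by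
    rw [hy2, FP.E_sub, FP.E_smul]
    change P.E ψ - c' * P.Pr o2 = 0
    rw [← hp2, hcp', sub_self]
  have hy1o : ∀ w, y1 w ≠ 0 → o1 w := by
    intro w hw
    by_contra h
    apply hw
    have h1 : φ w = 0 := by
      by_contra h2
      exact h (hφo w h2)
    rw [hy1]
    simp only [h1, ind_not h, mul_zero, sub_zero]
  have hy2o : ∀ w, y2 w ≠ 0 → o2 w := by
    intro w hw
    by_contra h
    apply hw
    have h1 : ψ w = 0 := by
      by_contra h2
      exact h (hψo w h2)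
    rw [hy2]
    simp only [h1, ind_not h, mul_zero, sub_zero]
  have hv : ∀ (f : Om → ℝ) (o : Om → Prop) (d : ℝ), (∀ w, f w ≠ 0 → o w) → d * P.Pr o = P.E f →
      P.E (fun w => (f w - d * ind (o w)) ^ 2) ≤ P.E (fun w => f w ^ 2) := by
    intro f o d hfo hd
    have h1 : P.E (fun w => (f w - d * ind (o w)) ^ 2) =
        P.E (fun w => f w ^ 2) - 2 * d * P.E f + d ^ 2 * P.Pr o := by
      unfold FP.Pr
      rw [← FP.E_smul, ← FP.E_smul, ← FP.E_sub, ← FP.E_add]
      refine P.E_congr (fun w _ => ?_)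
      by_cases h : o w
      · rw [ind_of h]; ring
      · have h2 : f w = 0 := by
          by_contra h3
          exact h (hfo w h3)
        rw [ind_not h, h2]; ring
    rw [h1]
    have h2 : d ^ 2 * P.Pr o = d * P.E f := by rw [← hd]; ring
    have h3 : 0 ≤ d ^ 2 * P.Pr o := mul_nonneg (sq_nonneg _) (P.Pr_nonneg o)
    linarith
  have hy1s : P.E (fun w => y1 w ^ 2) ≤ 15 * hA := (hv φ o1 c hφo hcp).trans hφ2
  have hy2s : P.E (fun w => y2 w ^ 2) ≤ 15 * hB := (hv ψ o2 c' hψo hcp').trans hψ2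
  set e0 := 38 * dl + 3 * (K * c0) with he0
  have he0' : 0 ≤ e0 := by positivity
  have hop1 := op_truleW hc0 hdl.le hK hX tX hy1f hE1 hy1o
  have hop2 := op_truleW hc0 hdl.le hK hY tY hy2f hE2 hy2o
  rw [← he0] at hop1 hop2
  have hop1' : P.E (fun w => P.ce a y1 w ^ 2) ≤ e0 * (15 * hA) :=
    hop1.trans (mul_le_mul_of_nonneg_left hy1s he0')
  have hop2' : P.E (fun w => P.ce a y2 w ^ 2) ≤ e0 * (15 * hB) :=
    hop2.trans (mul_le_mul_of_nonneg_left hy2s he0')
  -- main term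
  have hm : P.E (fun w => y1 w * y2 w) ≤ e0 / 2 * (15 * hA + 15 * hB) := by
    have h3 := P.opK_bil (a := a) (Y := X) hy1f (z := y2) (fun w hw => hci y2 hy2f w hw)
    set A := P.E (fun w => P.ce a y1 w ^ 2)
    set B := P.E (fun w => P.ce a y2 w ^ 2)
    have hA : 0 ≤ A := P.E_nonneg (fun w _ => sq_nonneg _)
    have hB : 0 ≤ B := P.E_nonneg (fun w _ => sq_nonneg _)
    have h4 : Real.sqrt A * Real.sqrt B ≤ (A + B) / 2 := by
      nlinarith [sq_nonneg (Real.sqrt A - Real.sqrt B), Real.sq_sqrt hA, Real.sq_sqrt hB]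
    have h5 := le_trans (le_abs_self _) (h3.trans h4)
    linarith
  -- cross terms
  have hx1 : (P.E (fun w => y1 w * ind (¬ o2 w))) ^ 2 ≤ e0 * (15 * hA) * dl ^ 2 := by
    have h1 := E_ci hci (h := fun _ => (1 : ℝ)) (Fac.const a 1) hy1f
      (g := fun w => ind (¬ o2 w)) (Fac.ind (fun v w h => not_congr (ho2 v w h)))
    simp only [one_mul] at h1
    rw [h1]
    refine (P.E_mul_sq_le _ _).trans ?_
    refine mul_le_mul hop1' ?_ (P.E_nonneg (fun w _ => sq_nonneg _)) (by positivity)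
    refine le_trans (le_of_eq ?_) hd2
    unfold FP.Pr
    refine P.E_congr (fun w _ => ?_)
    by_cases h : o2 w
    · rw [ind_not (fun hn => hn h)]; ring
    · rw [ind_of h]; ring
  have hx2 : (P.E (fun w => ind (¬ o1 w) * y2 w)) ^ 2 ≤ e0 * (15 * hB) * dl ^ 2 := by
    have h1 : P.E (fun w => ind (¬ o1 w) * y2 w) = P.E (fun w => P.ce a y2 w * ind (¬ o1 w)) := by
      have h2 := P.E_mul_ce (X := fun v => (a v, X v)) (h := fun w => ind (¬ o1 w))
        ((Fac.snd a X).trans (Fac.ind (fun v w h => not_congr (ho1 v w h)))) y2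
      rw [← h2]
      exact P.E_congr (fun w hw => by rw [hci _ hy2f w hw]; ring)
    rw [h1]
    refine (P.E_mul_sq_le _ _).trans ?_
    refine mul_le_mul hop2' ?_ (P.E_nonneg (fun w _ => sq_nonneg _)) (by positivity)
    refine le_trans (le_of_eq ?_) hd1
    unfold FP.Pr
    refine P.E_congr (fun w _ => ?_)
    by_cases h : o1 w
    · rw [ind_not (fun hn => hn h)]; ring
    · rw [ind_of h]; ring
  have hdec : P.E (fun w => φ w * ψ w) = P.E (fun w => y1 w * y2 w) -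
      c' * P.E (fun w => y1 w * ind (¬ o2 w)) - c * P.E (fun w => ind (¬ o1 w) * y2 w) +
      c * c' * P.E (fun w => ind (o1 w) * ind (o2 w)) := by
    have h1 : P.E (fun w => φ w * ψ w) = P.E (fun w => y1 w * y2 w) +
        c' * P.E (fun w => y1 w * ind (o2 w)) + c * P.E (fun w => ind (o1 w) * y2 w) +
        c * c' * P.E (fun w => ind (o1 w) * ind (o2 w)) := by
      rw [← FP.E_smul, ← FP.E_smul, ← FP.E_smul, ← FP.E_add, ← FP.E_add, ← FP.E_add]
      refine P.E_congr (fun w _ => ?_)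
      rw [hy1, hy2]
      ring
    have h2 : P.E (fun w => y1 w * ind (o2 w)) = - P.E (fun w => y1 w * ind (¬ o2 w)) := by
      have h3 : P.E (fun w => y1 w * ind (o2 w)) + P.E (fun w => y1 w * ind (¬ o2 w)) = P.E y1 := by
        rw [← FP.E_add]
        refine P.E_congr (fun w _ => ?_)
        rw [FP.ind_not_eq]; ring
      rw [hE1] at h3
      linarith
    have h4 : P.E (fun w => ind (o1 w) * y2 w) = - P.E (fun w => ind (¬ o1 w) * y2 w) := by
      have h3 : P.E (fun w => ind (o1 w) * y2 w) + P.E (fun w => ind (¬ o1 w) * y2 w) = P.E y2 := by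
        rw [← FP.E_add]
        refine P.E_congr (fun w _ => ?_)
        rw [FP.ind_not_eq]; ring
      rw [hE2] at h3
      linarith
    rw [h1, h2, h4]
    ring
  have ho12 : P.E (fun w => ind (o1 w) * ind (o2 w)) ≤ 1 :=
    P.E_le_const (fun w _ => mul_le_one₀ (ind_le_one _) (ind_nonneg _) (ind_le_one _))
  have ho12' : 0 ≤ P.E (fun w => ind (o1 w) * ind (o2 w)) :=
    P.E_nonneg (fun w _ => mul_nonneg (ind_nonneg _) (ind_nonneg _))
  set W1 := P.E (fun w => y1 w * ind (¬ o2 w))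
  set W2 := P.E (fun w => ind (¬ o1 w) * y2 w)
  set W3 := P.E (fun w => ind (o1 w) * ind (o2 w))
  have b1 : - (c' * W1) ≤ (27 * dl * hB + e0 * (15 * hA) * dl ^ 2) / 2 := by
    nlinarith [sq_nonneg (c' + W1)]
  have b2 : - (c * W2) ≤ (27 * dl * hA + e0 * (15 * hB) * dl ^ 2) / 2 := by
    nlinarith [sq_nonneg (c + W2)]
  have b3 : c * c' * W3 ≤ (27 * dl * hA + 27 * dl * hB) / 2 := by
    have h1 : c * c' ≤ (c ^ 2 + c' ^ 2) / 2 := by nlinarith [sq_nonneg (c - c')]
    have h2 : c * c' * W3 ≤ (c ^ 2 + c' ^ 2) / 2 * W3 := mul_le_mul_of_nonneg_right h1 ho12'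
    have h3 : (c ^ 2 + c' ^ 2) / 2 * W3 ≤ (c ^ 2 + c' ^ 2) / 2 * 1 :=
      mul_le_mul_of_nonneg_left ho12 (by positivity)
    linarith
  have b4 : e0 * (15 * hA) * dl ^ 2 ≤ e0 * (15 * hA) * (1 / 4) :=
    mul_le_mul_of_nonneg_left hq (by positivity)
  have b5 : e0 * (15 * hB) * dl ^ 2 ≤ e0 * (15 * hB) * (1 / 4) :=
    mul_le_mul_of_nonneg_left hq (by positivity)
  have b6 : P.E (fun w => φ w * ψ w) ≤ (75 / 8 * e0 + 27 * dl) * (hA + hB) := by
    rw [hdec]
    have : (75 / 8 * e0 + 27 * dl) * (hA + hB) = e0 / 2 * (15 * hA + 15 * hB) +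
      (27 * dl * hB + e0 * (15 * hA) * (1 / 4)) / 2 + (27 * dl * hA + e0 * (15 * hB) * (1 / 4)) / 2 +
      (27 * dl * hA + 27 * dl * hB) / 2 := by ring
    rw [this]
    linarith
  refine b6.trans (mul_le_mul_of_nonneg_right ?_ (by linarith))
  rw [he0]
  have : 0 ≤ K * c0 := by positivity
  linarith

/-- THE STATIC PROPOSITION, ONE CELL, LIVE LETTERS -/
theorem cell_statW {c0 dl K : ℝ} (hc0 : 0 < c0) (hdl : 0 < dl) (hdl2 : dl ≤ 1 / 2) (hK : 1 ≤ K)
    (hX : TRule P a X c0 dl) (hY : TRule P a Y c0 dl) (tX : ThickL P a X K o1) (tY : ThickL P a Y K o2)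
    (hci : CInd P a X Y) (ho1 : Ev X o1) (ho2 : Ev Y o2)
    (hd1 : P.Pr (fun w => ¬ o1 w) ≤ dl ^ 2) (hd2 : P.Pr (fun w => ¬ o2 w) ≤ dl ^ 2)
    {V : Om → Prop} (hV : Ev a V) (hp : 0 < P.Pr V) (hbig : c0 ≤ P.Pr V) :
    P.E (fun w => ind (o1 w) * ind (o2 w) *
        ((dn (P.cnd V hp) P X w - 1) * (dn (P.cnd V hp) P Y w - 1) *
          ind (¬ (8 < dn (P.cnd V hp) P X w ∧ 8 < dn (P.cnd V hp) P Y w)))) +
      (P.cnd V hp).E (fun w => ind (o1 w) * ind (o2 w) *
        (ind (8 < dn (P.cnd V hp) P X w ∧ 8 < dn (P.cnd V hp) P Y w) *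
          Real.log (min (dn (P.cnd V hp) P X w) (dn (P.cnd V hp) P Y w)))) ≤
    500 * (1 + Real.log K) * (dl + K * c0 / P.Pr V) * (hl (P.cnd V hp) P X + hl (P.cnd V hp) P Y) := by
  set Q := P.cnd V hp with hQdef
  have hQ : Q.AC P := cnd_ac P V hp
  have hK0 : 0 ≤ K := by linarith
  have hlK : 0 ≤ Real.log K := Real.log_nonneg hK
  have hp1 : P.Pr V ≤ 1 := P.Pr_le_one V
  set kX := hl Q P X with hkX
  set kY := hl Q P Y with hkY
  have hkX0 : 0 ≤ kX := hl_nonneg Q P X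
  have hkY0 : 0 ≤ kY := hl_nonneg Q P Y
  set sX := Q.E (fun w => ind (8 < dn Q P X w)) with hsX
  set sY := Q.E (fun w => ind (8 < dn Q P Y w)) with hsY
  have hsX0 : 0 ≤ sX := Q.E_nonneg (fun w _ => ind_nonneg _)
  have hsY0 : 0 ≤ sY := Q.E_nonneg (fun w _ => ind_nonneg _)
  have hsXk : sX ≤ 3 * kX := Q_strong_le_hl hQ X
  have hsYk : sY ≤ 3 * kY := Q_strong_le_hl hQ Y
  have hPX := P_strong_le hQ X
  have hPY := P_strong_le hQ Y
  rw [← hsX] at hPX
  rw [← hsY] at hPY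
  -- the rule for `V` itself
  have hsXd : sX ≤ 8 / 7 * dl := by
    have h1 := hX V hV hbig _ (st_ev Q P X) (fun w => ind_nonneg _) (fun w => ind_le_one _)
    have h2 : sX = P.E (fun w => ind (V w) * ind (8 < dn Q P X w)) / P.Pr V := cnd_E P V hp _
    have h3 : sX ≤ P.E (fun w => ind (8 < dn Q P X w)) + dl := by
      rw [h2, div_le_iff₀ hp]
      linarith
    linarith
  have hsYd : sY ≤ 8 / 7 * dl := by
    have h1 := hY V hV hbig _ (st_ev Q P Y) (fun w => ind_nonneg _) (fun w => ind_le_one _)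
    have h2 : sY = P.E (fun w => ind (V w) * ind (8 < dn Q P Y w)) / P.Pr V := cnd_E P V hp _
    have h3 : sY ≤ P.E (fun w => ind (8 < dn Q P Y w)) + dl := by
      rw [h2, div_le_iff₀ hp]
      linarith
    linarith
  have hPXd : P.E (fun w => ind (8 < dn Q P X w)) ≤ dl := by linarith
  have hQo1 : ∀ o : Om → Prop, Ev X o → Q.Pr o ≤ P.Pr o + dl := by
    intro o ho
    have h1 := hX V hV hbig _ (Fac.ind ho) (fun w => ind_nonneg _) (fun w => ind_le_one _)
    have h2 : Q.Pr o = P.E (fun w => ind (V w) * ind (o w)) / P.Pr V := cnd_E P V hp _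
    rw [h2, div_le_iff₀ hp]
    unfold FP.Pr at h1 ⊢
    linarith
  have hQo2 : ∀ o : Om → Prop, Ev Y o → Q.Pr o ≤ P.Pr o + dl := by
    intro o ho
    have h1 := hY V hV hbig _ (Fac.ind ho) (fun w => ind_nonneg _) (fun w => ind_le_one _)
    have h2 : Q.Pr o = P.E (fun w => ind (V w) * ind (o w)) / P.Pr V := cnd_E P V hp _
    rw [h2, div_le_iff₀ hp]
    unfold FP.Pr at h1 ⊢
    linarith
  -- the bilinear part
  have hA : P.E (fun w => ind (o1 w) * ind (o2 w) * ((dn Q P X w - 1) * (dn Q P Y w - 1) *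
        ind (¬ (8 < dn Q P X w ∧ 8 < dn Q P Y w)))) =
      P.E (fun w => (ind (o1 w) * wk Q P X w) * (ind (o2 w) * wk Q P Y w)) +
      P.E (fun w => (ind (o1 w) * wk Q P X w) * (ind (o2 w) * s3sg Q P Y w)) +
        P.E (fun w => (ind (o1 w) * s3sg Q P X w) * (ind (o2 w) * wk Q P Y w)) := by
    rw [← FP.E_add, ← FP.E_add]
    refine P.E_congr (fun w _ => ?_)
    rw [split_pt Q P X Y w]
    ring
  have hoX : ∀ f : Om → ℝ, ∀ w, ind (o1 w) * f w ≠ 0 → o1 w := by
    intro f w hw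
    by_contra h
    exact hw (by rw [ind_not h, zero_mul])
  have hoY : ∀ f : Om → ℝ, ∀ w, ind (o2 w) * f w ≠ 0 → o2 w := by
    intro f w hw
    by_contra h
    exact hw (by rw [ind_not h, zero_mul])
  have hsq : ∀ (o : Om → Prop) (f : Om → ℝ),
      P.E (fun w => (ind (o w) * f w) ^ 2) ≤ P.E (fun w => f w ^ 2) := by
    intro o f
    refine P.E_mono (fun w _ => ?_)
    by_cases h : o w
    · rw [ind_of h, one_mul]
    · rw [ind_not h, zero_mul]
      have := sq_nonneg (f w)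
      simpa using this
  have hww : P.E (fun w => (ind (o1 w) * wk Q P X w) * (ind (o2 w) * wk Q P Y w)) ≤
      (384 * dl + 29 * (K * c0)) * (kX + kY) := by
    refine ww_boundW hc0 hdl hdl2 hK0 hX hY tX tY hci ho1 ho2 hd1 hd2
      (Fac.mul (Fac.ind ho1) (wk_fac Q P X)) (Fac.mul (Fac.ind ho2) (wk_fac Q P Y))
      (hoX _) (hoY _) ((hsq o1 _).trans (E_wk_sq_hl Q P X)) ((hsq o2 _).trans (E_wk_sq_hl Q P Y)) ?_ ?_
    · exact E_live_wk hQ ho1 hdl hdl2 hd1 (hQo1 _ (fun v w h => not_congr (ho1 v w h))) hsXd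
    · exact E_live_wk hQ ho2 hdl hdl2 hd2 (hQo2 _ (fun v w h => not_congr (ho2 v w h))) hsYd
  -- bounds for the live weak parts
  have hbd : ∀ (o : Om → Prop) (f : Om → ℝ), (∀ w, -1 ≤ f w) → (∀ w, f w ≤ 7) →
      (∀ w, -1 ≤ ind (o w) * f w) ∧ (∀ w, ind (o w) * f w ≤ 7) := by
    intro o f h1 h2
    constructor
    · intro w
      by_cases h : o w
      · rw [ind_of h, one_mul]; exact h1 w
      · rw [ind_not h, zero_mul]; norm_num
    · intro w
      by_cases h : o w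
      · rw [ind_of h, one_mul]; exact h2 w
      · rw [ind_not h, zero_mul]; norm_num
  have hmX : P.E (fun w => ind (o1 w) * wk Q P X w) ≤ dl := by
    have h1 : P.E (fun w => ind (o1 w) * wk Q P X w) ≤ P.E (fun w => ind (o1 w) * dn Q P X w - ind (o1 w)) := by
      refine P.E_mono (fun w _ => ?_)
      have h2 := mul_nonneg (ind_nonneg (o1 w)) (s3sg_nonneg Q P X w)
      have h3 := wk_add_s3sg Q P X w
      have h4 : ind (o1 w) * dn Q P X w - ind (o1 w) = ind (o1 w) * (wk Q P X w + s3sg Q P X w) := by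
        rw [h3]; ring
      rw [h4]
      linarith [mul_add (ind (o1 w)) (wk Q P X w) (s3sg Q P X w)]
    rw [FP.E_sub, E_dn hQ (Fac.ind ho1)] at h1
    have h5 := hQo1 o1 ho1
    unfold FP.Pr at h5
    linarith
  have hmY : P.E (fun w => ind (o2 w) * wk Q P Y w) ≤ dl := by
    have h1 : P.E (fun w => ind (o2 w) * wk Q P Y w) ≤ P.E (fun w => ind (o2 w) * dn Q P Y w - ind (o2 w)) := by
      refine P.E_mono (fun w _ => ?_)
      have h2 := mul_nonneg (ind_nonneg (o2 w)) (s3sg_nonneg Q P Y w)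
      have h3 := wk_add_s3sg Q P Y w
      have h4 : ind (o2 w) * dn Q P Y w - ind (o2 w) = ind (o2 w) * (wk Q P Y w + s3sg Q P Y w) := by
        rw [h3]; ring
      rw [h4]
      linarith [mul_add (ind (o2 w)) (wk Q P Y w) (s3sg Q P Y w)]
    rw [FP.E_sub, E_dn hQ (Fac.ind ho2)] at h1
    have h5 := hQo2 o2 ho2
    unfold FP.Pr at h5
    linarith
  have hgX : P.E (fun w => ind (o1 w) * s3sg Q P X w) ≤ sX := by
    refine le_trans ?_ (E_s3sg hQ X)
    refine P.E_mono (fun w _ => ?_)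
    have := mul_le_mul_of_nonneg_right (ind_le_one (o1 w)) (s3sg_nonneg Q P X w)
    linarith
  have hgY : P.E (fun w => ind (o2 w) * s3sg Q P Y w) ≤ sY := by
    refine le_trans ?_ (E_s3sg hQ Y)
    refine P.E_mono (fun w _ => ?_)
    have := mul_le_mul_of_nonneg_right (ind_le_one (o2 w)) (s3sg_nonneg Q P Y w)
    linarith
  have hws : P.E (fun w => (ind (o1 w) * wk Q P X w) * (ind (o2 w) * s3sg Q P Y w)) ≤
      (10 * dl + 7 * (K * c0)) * sY := by
    have h1 := E_ci hci (h := fun _ => (1 : ℝ)) (Fac.const a 1)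
      (Fac.mul (Fac.ind ho1) (wk_fac Q P X)) (Fac.mul (Fac.ind ho2) (s3sg_fac Q P Y))
    simp only [one_mul] at h1
    rw [h1]
    obtain ⟨g1, g2⟩ := hbd o1 _ (wk_ge Q P X) (wk_le Q P X)
    have h2 := ws_boundW hc0 hdl hK0 hX tY (Fac.mul (Fac.ind ho1) (wk_fac Q P X))
      (Fac.mul (Fac.ind ho2) (s3sg_fac Q P Y)) (fun w => mul_nonneg (ind_nonneg _) (s3sg_nonneg Q P Y w))
      (hoY _) g1 g2 hmX
    exact h2.trans (mul_le_mul_of_nonneg_left hgY (by positivity))
  have hsw : P.E (fun w => (ind (o1 w) * s3sg Q P X w) * (ind (o2 w) * wk Q P Y w)) ≤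
      (10 * dl + 7 * (K * c0)) * sX := by
    have h1 : P.E (fun w => (ind (o1 w) * s3sg Q P X w) * (ind (o2 w) * wk Q P Y w)) =
        P.E (fun w => P.ce a (fun v => ind (o2 v) * wk Q P Y v) w * (ind (o1 w) * s3sg Q P X w)) := by
      have h2 := P.E_mul_ce (X := fun v => (a v, X v)) (h := fun w => ind (o1 w) * s3sg Q P X w)
        ((Fac.snd a X).trans (Fac.mul (Fac.ind ho1) (s3sg_fac Q P X))) (fun v => ind (o2 v) * wk Q P Y v)
      rw [← h2]
      exact P.E_congr (fun w hw => by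
        rw [hci _ (Fac.mul (Fac.ind ho2) (wk_fac Q P Y)) w hw]; ring)
    rw [h1]
    obtain ⟨g1, g2⟩ := hbd o2 _ (wk_ge Q P Y) (wk_le Q P Y)
    have h2 := ws_boundW hc0 hdl hK0 hY tX (Fac.mul (Fac.ind ho2) (wk_fac Q P Y))
      (Fac.mul (Fac.ind ho1) (s3sg_fac Q P X)) (fun w => mul_nonneg (ind_nonneg _) (s3sg_nonneg Q P X w))
      (hoX _) g1 g2 hmY
    exact h2.trans (mul_le_mul_of_nonneg_left hgX (by positivity))
  -- the both strong part
  have hB : Q.E (fun w => ind (o1 w) * ind (o2 w) * (ind (8 < dn Q P X w ∧ 8 < dn Q P Y w) *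
        Real.log (min (dn Q P X w) (dn Q P Y w)))) ≤
      Real.log K * ((3 * dl + K * c0 / P.Pr V / 8) * sY) := by
    have h1 : Q.E (fun w => ind (o1 w) * ind (o2 w) * (ind (8 < dn Q P X w ∧ 8 < dn Q P Y w) *
        Real.log (min (dn Q P X w) (dn Q P Y w)))) ≤
        Real.log K * Q.E (fun w => (ind (o1 w) * ind (8 < dn Q P X w)) * (ind (o2 w) * ind (8 < dn Q P Y w))) := by
      rw [← FP.E_smul]
      refine Q.E_mono (fun w hw => ?_)
      rw [ind_and]
      by_cases ho : o1 w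
      · by_cases ho' : o2 w
        · by_cases h : 8 < dn Q P X w
          · by_cases h' : 8 < dn Q P Y w
            · rw [ind_of h, ind_of h', ind_of ho, ind_of ho', mul_one, one_mul, mul_one, one_mul]
              have h2 : 0 < min (dn Q P X w) (dn Q P Y w) := lt_min (by linarith) (by linarith)
              have h3 := Real.log_le_log h2 ((min_le_left _ _).trans (dn_thickL tX hV hp (hQ w hw) ho))
              linarith
            · rw [ind_not h']; simp
          · rw [ind_not h]; simp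
        · rw [ind_not ho']; simp
      · rw [ind_not ho]; simp
    refine h1.trans (mul_le_mul_of_nonneg_left ?_ hlK)
    have hχf : Fac X (fun w => ind (o1 w) * ind (8 < dn Q P X w)) := Fac.mul (Fac.ind ho1) (st_ev Q P X)
    have hgf : Fac Y (fun w => ind (o2 w) * ind (8 < dn Q P Y w)) := Fac.mul (Fac.ind ho2) (st_ev Q P Y)
    have h2 : Q.E (fun w => (ind (o1 w) * ind (8 < dn Q P X w)) * (ind (o2 w) * ind (8 < dn Q P Y w))) =
        P.E (fun w => ind (V w) * (ind (o1 w) * ind (8 < dn Q P X w)) *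
          (ind (o2 w) * ind (8 < dn Q P Y w))) / P.Pr V := by
      rw [hQdef, cnd_E, ← hQdef]
      congr 1
      exact P.E_congr (fun w _ => by ring)
    rw [h2, E_ci hci (Fac.ind hV) hχf hgf, div_le_iff₀ hp]
    have hχE : P.E (fun w => ind (o1 w) * ind (8 < dn Q P X w)) ≤ dl := by
      refine le_trans (P.E_mono (fun w _ => ?_)) hPXd
      have := mul_le_mul_of_nonneg_right (ind_le_one (o1 w)) (ind_nonneg (8 < dn Q P X w))
      linarith
    have h3 := ss_boundW hc0 hdl hK0 hX tY hV hχf hgf (fun w => mul_nonneg (ind_nonneg _) (ind_nonneg _))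
      (hoY _) (fun w => mul_nonneg (ind_nonneg _) (ind_nonneg _))
      (fun w => mul_le_one₀ (ind_le_one _) (ind_nonneg _) (ind_le_one _)) hχE
    have h4 : P.E (fun w => ind (V w) * (ind (o2 w) * ind (8 < dn Q P Y w))) ≤ sY * P.Pr V := by
      have h5 : sY = P.E (fun w => ind (V w) * ind (8 < dn Q P Y w)) / P.Pr V := cnd_E P V hp _
      have h6 : sY * P.Pr V = P.E (fun w => ind (V w) * ind (8 < dn Q P Y w)) := by
        rw [h5]; field_simp
      rw [h6]
      refine P.E_mono (fun w _ => mul_le_mul_of_nonneg_left ?_ (ind_nonneg _))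
      have := mul_le_mul_of_nonneg_right (ind_le_one (o2 w)) (ind_nonneg (8 < dn Q P Y w))
      linarith
    have h7 : P.E (fun w => ind (o2 w) * ind (8 < dn Q P Y w)) ≤ sY / 8 := by
      have h8 : P.E (fun w => ind (o2 w) * ind (8 < dn Q P Y w)) ≤ P.E (fun w => ind (8 < dn Q P Y w)) := by
        refine P.E_mono (fun w _ => ?_)
        have := mul_le_mul_of_nonneg_right (ind_le_one (o2 w)) (ind_nonneg (8 < dn Q P Y w))
        linarith
      linarith
    refine h3.trans ?_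
    have h5 : K * c0 * P.E (fun w => ind (o2 w) * ind (8 < dn Q P Y w)) ≤ K * c0 * (sY / 8) :=
      mul_le_mul_of_nonneg_left h7 (by positivity)
    have h5' : 3 * dl * P.E (fun w => ind (V w) * (ind (o2 w) * ind (8 < dn Q P Y w))) ≤
        3 * dl * (sY * P.Pr V) := mul_le_mul_of_nonneg_left h4 (by positivity)
    have h6 : (3 * dl + K * c0 / P.Pr V / 8) * sY * P.Pr V = 3 * dl * (sY * P.Pr V) + K * c0 * (sY / 8) := by
      field_simp
    rw [h6]
    linarith
  -- sum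
  set E := K * c0 / P.Pr V with hE
  have hE0 : 0 ≤ E := by positivity
  have he : K * c0 ≤ E := by
    rw [hE, le_div_iff₀ hp]
    have : 0 ≤ K * c0 := by positivity
    nlinarith
  have he0 : 0 ≤ K * c0 := by positivity
  rw [hA]
  have t1 : (384 * dl + 29 * (K * c0)) * (kX + kY) ≤ (384 * dl + 29 * E) * (kX + kY) :=
    mul_le_mul_of_nonneg_right (by linarith) (by linarith)
  have t3 : (10 * dl + 7 * (K * c0)) * sY + (10 * dl + 7 * (K * c0)) * sX ≤ (30 * dl + 21 * E) * (kX + kY) := by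
    calc (10 * dl + 7 * (K * c0)) * sY + (10 * dl + 7 * (K * c0)) * sX
        = (10 * dl + 7 * (K * c0)) * (sX + sY) := by ring
      _ ≤ (10 * dl + 7 * E) * (3 * kX + 3 * kY) :=
          mul_le_mul (by linarith) (by linarith) (by linarith) (by positivity)
      _ = _ := by ring
  have t4 : Real.log K * ((3 * dl + E / 8) * sY) ≤ Real.log K * ((9 * dl + E) * (kX + kY)) := by
    refine mul_le_mul_of_nonneg_left ?_ hlK
    calc (3 * dl + E / 8) * sY ≤ (3 * dl + E / 8) * (3 * (kX + kY)) :=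
          mul_le_mul_of_nonneg_left (by linarith) (by positivity)
      _ = (9 * dl + 3 / 8 * E) * (kX + kY) := by ring
      _ ≤ _ := mul_le_mul_of_nonneg_right (by linarith) (by linarith)
  have t5 : 500 * (1 + Real.log K) * (dl + E) * (kX + kY) =
      500 * (dl + E) * (kX + kY) + Real.log K * ((500 * dl + 500 * E) * (kX + kY)) := by ring
  rw [t5]
  have t6 : Real.log K * ((9 * dl + E) * (kX + kY)) ≤ Real.log K * ((500 * dl + 500 * E) * (kX + kY)) :=
    mul_le_mul_of_nonneg_left (mul_le_mul_of_nonneg_right (by linarith) (by linarith)) hlK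
  have t7 : (384 * dl + 29 * E) * (kX + kY) + (30 * dl + 21 * E) * (kX + kY) ≤
      500 * (dl + E) * (kX + kY) := by
    have : (384 * dl + 29 * E) * (kX + kY) + (30 * dl + 21 * E) * (kX + kY) =
      (414 * dl + 50 * E) * (kX + kY) := by ring
    rw [this]
    exact mul_le_mul_of_nonneg_right (by linarith) (by linarith)
  linarith

end

end Pool.Agent.M3
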