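import Pool.Agent.M3.S3Rob
import Pool.Agent.M3.FPMart

/-!
# M3.S3Thin: the total gain of thin letters (section 3)

`B` = owner, `N t` = public class (node and public label) at time `t`, `F t : Om → Lam` = cumulative label (line).
`mu t` = conditional mass of the own line given `(B, N t)`, `mu' t` = mass of the same line given `(B, N (t+1))`.
(once): if for the owner `b` the line `φ` has a member at a public class of time `s`, nobody of this public class enters
`φ` later.  Then
* `ever_thin`: `P(exists t <= T, mu t < lam) <= card Lam * lam`;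
* `thin_total`: `sum_(t<T) E 1(mu t < lam) (log mu' t - log mu t) <= card Lam * lam (1 + log 1/lam)`.
No number of levels, no number of births.
-/

set_option autoImplicit false
set_option linter.unusedSectionVars false

namespace Pool.Agent.M3

open Finset Pool.Agent.PWZ

variable {Om : Type*} [Fintype Om]

noncomputable section

/-- conditional mass of the line `φ` of `F t` given `(B, N s)` -/
def FP.lu (P : FP Om) {β ν Lam : Type*} (B : Om → β) (N : Om → ν) (F : Om → Lam) (φ : Lam) (w : Om) : ℝ :=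
  P.ce (fun v => (B v, N v)) (fun v => ind (F v = φ)) w

/-- conditional mass of the own line given `(B, N)` -/
def FP.mu (P : FP Om) {β ν Lam : Type*} (B : Om → β) (N : Om → ν) (F : Om → Lam) (w : Om) : ℝ :=
  P.lu B N F (F w) w

end

/-- (once): no late entries into a line -/
def Once {β ν Lam : Type*} (P : FP Om) (B : Om → β) (N : ℕ → Om → ν) (F : ℕ → Om → Lam) : Prop :=
  ∀ (φ : Lam) (s t : ℕ) (w w' : Om), s ≤ t → P.p w ≠ 0 → P.p w' ≠ 0 → B w = B w' → N s w = N s w' →
    F s w' = φ → F (t + 1) w = φ → F t w = φ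

namespace FP

variable (P : FP Om) {β ν Lam : Type*}

theorem neg_mul_log_le {lam x : ℝ} (hlam : lam ≤ Real.exp (-1)) (hx : 0 ≤ x) (hxl : x ≤ lam) :
    - (x * Real.log x) ≤ lam * Real.log (1 / lam) := by
  rcases eq_or_lt_of_le hx with h0 | h0
  · rw [← h0]
    simp only [zero_mul, neg_zero]
    have hl : 0 ≤ lam := hx.trans hxl
    rcases eq_or_lt_of_le hl with h1 | h1
    · rw [← h1]; simp
    · refine mul_nonneg hl ?_
      rw [one_div, Real.log_inv]
      have h2 := Real.log_le_log h1 hlam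
      rw [Real.log_exp] at h2
      linarith
  · have h1 : 0 < lam := lt_of_lt_of_le h0 hxl
    -- concavity free proof: log (lam/x) <= lam/x - 1 and log (1/lam) >= 1
    have h2 : Real.log (lam / x) ≤ lam / x - 1 := Real.log_le_sub_one_of_pos (div_pos h1 h0)
    rw [Real.log_div h1.ne' h0.ne'] at h2
    have h3 : 1 ≤ Real.log (1 / lam) := by
      rw [one_div, Real.log_inv]
      have h4 := Real.log_le_log h1 hlam
      rw [Real.log_exp] at h4
      linarith
    have h5 : Real.log (1 / lam) = - Real.log lam := by rw [one_div, Real.log_inv]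
    have h6 : - (x * Real.log x) ≤ x * (- Real.log lam) + (lam - x) := by
      have h7 := mul_le_mul_of_nonneg_left h2 h0.le
      have h8 : x * (lam / x - 1) = lam - x := by field_simp
      rw [h8] at h7
      linarith
    rw [h5] at h3 ⊢
    nlinarith

section Line

variable {P} {B : Om → β} {N : ℕ → Om → ν} {F : ℕ → Om → Lam}

theorem lu_nonneg (N : Om → ν) (F : Om → Lam) (φ : Lam) (w : Om) : 0 ≤ P.lu B N F φ w :=
  P.ce_nonneg (fun _ _ => ind_nonneg _) w

theorem lu_le_one (N : Om → ν) (F : Om → Lam) (φ : Lam) {w : Om} (hw : P.p w ≠ 0) : P.lu B N F φ w ≤ 1 :=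
  P.ce_le_const (fun _ _ => ind_le_one _) hw

theorem lu_fac (N : Om → ν) (F : Om → Lam) (φ : Lam) : Fac (fun v => (B v, N v)) (P.lu B N F φ) := P.ce_fac _ _

/-- members have positive mass -/
theorem lu_pos_of (N : Om → ν) (F : Om → Lam) {φ : Lam} {w w' : Om} (hw' : P.p w' ≠ 0)
    (hB : B w' = B w) (hN : N w' = N w) (hF : F w' = φ) : 0 < P.lu B N F φ w := by
  have h1 := P.pv_self_pos (fun v => (B v, N v)) F hw'
  have h2 : P.pv (fun v => (B v, N v)) F w' φ = P.pv (fun v => (B v, N v)) F w φ :=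
    P.pv_fac (fun v => (B v, N v)) F φ w' w (by simp only [Prod.mk.injEq]; exact ⟨hB, hN⟩)
  rw [hF, h2] at h1
  exact h1

/-- positive mass means there is a member -/
theorem exists_of_lu_pos (N : Om → ν) (F : Om → Lam) {φ : Lam} {w : Om} (h : 0 < P.lu B N F φ w) :
    ∃ w', P.p w' ≠ 0 ∧ B w' = B w ∧ N w' = N w ∧ F w' = φ := by
  by_contra hcon
  push Not at hcon
  have h1 : P.lu B N F φ w = 0 := by
    unfold lu ce
    have h2 : P.E (fun v => ind ((fun v => (B v, N v)) v = (fun v => (B v, N v)) w) * ind (F v = φ)) = 0 := by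
      rw [← P.E_const 0]
      refine P.E_congr (fun v hv => ?_)
      by_cases hb : (B v, N v) = (B w, N w)
      · simp only [Prod.mk.injEq] at hb
        rw [ind_not (hcon v hv hb.1 hb.2), mul_zero]
      · show ind ((B v, N v) = (B w, N w)) * ind (F v = φ) = 0
        rw [ind_not hb, zero_mul]
    rw [h2, zero_div]
  exact h.ne' h1

/-- the line has been thin at some time `≤ t` -/
def Rt (P : FP Om) (B : Om → β) (N : ℕ → Om → ν) (F : ℕ → Om → Lam) (φ : Lam) (lam : ℝ) (t : ℕ) (w : Om) : Prop :=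
  ∃ s ≤ t, 0 < P.lu B (N s) (F s) φ w ∧ P.lu B (N s) (F s) φ w < lam

theorem fac_BN (hN : ∀ t, Fac (N (t + 1)) (N t)) {s t : ℕ} (h : s ≤ t) :
    Fac (fun v => (B v, N t v)) (fun v => (B v, N s v)) := by
  intro v w hv
  simp only [Prod.mk.injEq] at hv ⊢
  refine ⟨hv.1, ?_⟩
  have h1 : ∀ k, Fac (N (s + k)) (N s) := by
    intro k
    induction k with
    | zero => exact Fac.refl _
    | succ k ih => exact (hN (s + k)).trans ih
  obtain ⟨k, rfl⟩ := Nat.exists_eq_add_of_le h
  exact h1 k v w hv.2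

theorem Rt_iff (hN : ∀ t, Fac (N (t + 1)) (N t)) (φ : Lam) (lam : ℝ) (t : ℕ) :
    ∀ v w, (fun v => (B v, N t v)) v = (fun v => (B v, N t v)) w →
      (Rt P B N F φ lam t v ↔ Rt P B N F φ lam t w) := by
  intro v w h
  unfold Rt
  refine exists_congr (fun s => and_congr_right (fun hs => ?_))
  rw [lu_fac (B := B) (N s) (F s) φ v w (fac_BN (B := B) hN hs v w h)]

theorem Rt_mono (φ : Lam) (lam : ℝ) {s t : ℕ} (h : s ≤ t) {w : Om} (hR : Rt P B N F φ lam s w) :
    Rt P B N F φ lam t w := by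
  obtain ⟨r, hr, h1⟩ := hR
  exact ⟨r, hr.trans h, h1⟩

/-- after the first thin time nobody enters -/
theorem no_entry (hO : Once P B N F) {φ : Lam} {lam : ℝ} {t : ℕ} {w : Om} (hw : P.p w ≠ 0)
    (hR : Rt P B N F φ lam t w) (h : F (t + 1) w = φ) : F t w = φ := by
  obtain ⟨s, hs, h1, _⟩ := hR
  obtain ⟨w', hw', hb, hn, hf⟩ := exists_of_lu_pos (N s) (F s) h1
  exact hO φ s t w w' hs hw hw' hb.symm hn.symm hf h

/-- newly thin: the mass is below `lam` -/
theorem newly_thin (φ : Lam) (lam : ℝ) {t : ℕ} {w : Om} (h1 : Rt P B N F φ lam (t + 1) w)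
    (h0 : ¬ Rt P B N F φ lam t w) :
    0 < P.lu B (N (t + 1)) (F (t + 1)) φ w ∧ P.lu B (N (t + 1)) (F (t + 1)) φ w < lam := by
  obtain ⟨s, hs, h2⟩ := h1
  rcases Nat.lt_or_ge s (t + 1) with h3 | h3
  · exact absurd ⟨s, Nat.lt_succ_iff.mp h3, h2⟩ h0
  · have : s = t + 1 := le_antisymm hs h3
    rw [this] at h2
    exact h2

/-- real inequality: exits cost at most their mass -/
theorem mul_log_exit {x y : ℝ} (hy : 0 ≤ y) (hyx : y ≤ x) (hx : x ≤ 1) :
    x * Real.log x ≤ y * Real.log y + (x - y) := by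
  rcases eq_or_lt_of_le hy with h0 | h0
  · rw [← h0]
    have hx0 : 0 ≤ x := hy.trans hyx
    have := mul_nonneg hx0 (neg_nonneg.mpr (Real.log_nonpos hx0 hx))
    linarith
  · have hx0 : 0 < x := lt_of_lt_of_le h0 hyx
    have h1 : Real.log (x / y) ≤ x / y - 1 := Real.log_le_sub_one_of_pos (div_pos hx0 h0)
    rw [Real.log_div hx0.ne' h0.ne'] at h1
    have h2 := mul_le_mul_of_nonneg_left h1 h0.le
    have h3 : y * (x / y - 1) = x - y := by field_simp
    rw [h3] at h2
    have h4 : (x - y) * Real.log x ≤ 0 :=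
      mul_nonpos_of_nonneg_of_nonpos (by linarith) (Real.log_nonpos hx0.le hx)
    linarith

/-- Abel summation along an increasing event -/
theorem abel_le {R : ℕ → Prop} {k : ℕ → ℝ} {c : ℝ} (hc : 0 ≤ c) (hR : ∀ t, R t → R (t + 1))
    (hk : ∀ t, R (t + 1) → ¬ R t → - k (t + 1) ≤ c) (hk0 : R 0 → - k 0 ≤ c) (hk1 : ∀ t, k t ≤ 0) (T : ℕ) :
    ∑ t ∈ range T, ind (R t) * (k (t + 1) - k t) ≤ c := by
  have hmono : ∀ s t, s ≤ t → R s → R t := by
    intro s t hst h
    induction hst with
    | refl => exact h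
    | step _ ih => exact hR _ ih
  -- stronger: the sum is at most `c` minus (the present value) on R, zero off R
  have key : ∀ T, (R T → ∑ t ∈ range T, ind (R t) * (k (t + 1) - k t) ≤ c + k T) ∧
      (¬ R T → ∑ t ∈ range T, ind (R t) * (k (t + 1) - k t) ≤ 0) := by
    intro T
    induction T with
    | zero =>
      simp only [Finset.range_zero, Finset.sum_empty]
      exact ⟨fun h => by have := hk0 h; linarith, fun _ => le_rfl⟩
    | succ T ih =>
      rw [Finset.sum_range_succ]
      by_cases h : R T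
      · rw [ind_of h, one_mul]
        refine ⟨fun _ => ?_, fun h' => absurd (hR T h) h'⟩
        have := ih.1 h
        linarith
      · rw [ind_not h, zero_mul, add_zero]
        refine ⟨fun h' => ?_, fun _ => ih.2 h⟩
        have h1 := ih.2 h
        have h2 := hk T h' h
        linarith
  by_cases h : R T
  · have h1 := (key T).1 h
    have h2 := hk1 T
    linarith
  · exact ((key T).2 h).trans hc

/-- entropy form of the gain on an event of the public class -/
theorem gain_eq (hN : ∀ t, Fac (N (t + 1)) (N t)) (φ : Lam) (t : ℕ) {S : Om → Prop}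
    (hS : ∀ v w, (fun v => (B v, N t v)) v = (fun v => (B v, N t v)) w → (S v ↔ S w)) :
    P.E (fun w => ind (S w) * (ind (F t w = φ) * (Real.log (P.lu B (N (t + 1)) (F t) φ w) -
      Real.log (P.lu B (N t) (F t) φ w)))) =
    P.E (fun w => ind (S w) * (P.lu B (N (t + 1)) (F t) φ w * Real.log (P.lu B (N (t + 1)) (F t) φ w))) -
      P.E (fun w => ind (S w) * (P.lu B (N t) (F t) φ w * Real.log (P.lu B (N t) (F t) φ w))) := by
  have f1 : Fac (fun v => (B v, N (t + 1) v)) (fun w => ind (S w) * Real.log (P.lu B (N (t + 1)) (F t) φ w)) :=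
    ((fac_BN (B := B) hN (Nat.le_succ t)).trans (Fac.ind hS)).comp₂
      (lu_fac (B := B) (N (t + 1)) (F t) φ) (fun a b => a * Real.log b)
  have f2 : Fac (fun v => (B v, N t v)) (fun w => ind (S w) * Real.log (P.lu B (N t) (F t) φ w)) :=
    (Fac.ind hS).comp₂ (lu_fac (B := B) (N t) (F t) φ) (fun a b => a * Real.log b)
  have e1 := P.E_mul_ce f1 (fun v => ind (F t v = φ))
  have e2 := P.E_mul_ce f2 (fun v => ind (F t v = φ))
  have e3 : P.E (fun w => ind (S w) * (ind (F t w = φ) * (Real.log (P.lu B (N (t + 1)) (F t) φ w) -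
      Real.log (P.lu B (N t) (F t) φ w)))) =
      P.E (fun w => ind (S w) * Real.log (P.lu B (N (t + 1)) (F t) φ w) * ind (F t w = φ)) -
      P.E (fun w => ind (S w) * Real.log (P.lu B (N t) (F t) φ w) * ind (F t w = φ)) := by
    rw [← E_sub]
    exact P.E_congr (fun w _ => by ring)
  rw [e3, ← e1, ← e2]
  congr 1
  · exact P.E_congr (fun w _ => by unfold lu; ring)
  · exact P.E_congr (fun w _ => by unfold lu; ring)

/-- the gain on a public event is nonnegative -/
theorem gain_nonneg (hN : ∀ t, Fac (N (t + 1)) (N t)) (φ : Lam) (t : ℕ) {S : Om → Prop}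
    (hS : ∀ v w, (fun v => (B v, N t v)) v = (fun v => (B v, N t v)) w → (S v ↔ S w)) :
    0 ≤ P.E (fun w => ind (S w) * (ind (F t w = φ) * (Real.log (P.lu B (N (t + 1)) (F t) φ w) -
      Real.log (P.lu B (N t) (F t) φ w)))) := by
  rw [gain_eq hN φ t hS, sub_nonneg]
  have h1 : P.E (fun w => ind (S w) * (P.lu B (N (t + 1)) (F t) φ w * Real.log (P.lu B (N (t + 1)) (F t) φ w))) =
      P.E (fun w => ind (S w) * P.ce (fun v => (B v, N t v)) (fun w => P.lu B (N (t + 1)) (F t) φ w *
        Real.log (P.lu B (N (t + 1)) (F t) φ w)) w) := (P.E_mul_ce (Fac.ind hS) _).symm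
  rw [h1]
  refine P.E_mono (fun w hw => mul_le_mul_of_nonneg_left ?_ (ind_nonneg _))
  have h2 : P.lu B (N t) (F t) φ w = P.ce (fun v => (B v, N t v)) (P.lu B (N (t + 1)) (F t) φ) w :=
    (P.ce_tower (fac_BN (B := B) hN (Nat.le_succ t)) _ w).symm
  rw [h2]
  exact P.jensen Real.convexOn_mul_log (fun v _ => lu_nonneg _ _ _ _) hw

/-- total gain of a thin line -/
theorem thin_line (hN : ∀ t, Fac (N (t + 1)) (N t)) (hO : Once P B N F) (φ : Lam) {lam : ℝ} (hl0 : 0 < lam)
    (hl : lam ≤ Real.exp (-1)) (T : ℕ) :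
    ∑ t ∈ range T, P.E (fun w => ind (F t w = φ) * ind (P.lu B (N t) (F t) φ w < lam) *
      (Real.log (P.lu B (N (t + 1)) (F t) φ w) - Real.log (P.lu B (N t) (F t) φ w))) ≤
      lam * (1 + Real.log (1 / lam)) := by
  set u : ℕ → Om → ℝ := fun t => P.lu B (N t) (F t) φ with hu
  set u' : ℕ → Om → ℝ := fun t => P.lu B (N (t + 1)) (F t) φ with hu'
  set R : ℕ → Om → Prop := fun t => Rt P B N F φ lam t with hR
  set k : ℝ → ℝ := fun x => x * Real.log x - x with hk
  have hlog1 : 0 ≤ Real.log (1 / lam) := by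
    rw [one_div, Real.log_inv]
    have h4 := Real.log_le_log hl0 hl
    rw [Real.log_exp] at h4
    linarith
  -- step (a)
  have ha : ∀ t, P.E (fun w => ind (F t w = φ) * ind (u t w < lam) * (Real.log (u' t w) - Real.log (u t w))) ≤
      P.E (fun w => ind (R t w) * (ind (F t w = φ) * (Real.log (u' t w) - Real.log (u t w)))) := by
    intro t
    have hS : ∀ v w, (fun v => (B v, N t v)) v = (fun v => (B v, N t v)) w →
        ((R t v ∧ lam ≤ u t v) ↔ (R t w ∧ lam ≤ u t w)) := by
      intro v w h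
      rw [hR]
      simp only
      rw [Rt_iff hN φ lam t v w h, show u t v = u t w from lu_fac (B := B) (N t) (F t) φ v w h]
    have h1 := gain_nonneg hN (F := F) (P := P) φ t (S := fun w => R t w ∧ lam ≤ u t w) hS
    have h2 : P.E (fun w => ind (R t w) * (ind (F t w = φ) * (Real.log (u' t w) - Real.log (u t w)))) =
        P.E (fun w => ind (F t w = φ) * ind (u t w < lam) * (Real.log (u' t w) - Real.log (u t w))) +
        P.E (fun w => ind (R t w ∧ lam ≤ u t w) * (ind (F t w = φ) * (Real.log (u' t w) - Real.log (u t w)))) := by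
      rw [← E_add]
      refine P.E_congr (fun w hw => ?_)
      by_cases hF : F t w = φ
      · have hpos : 0 < u t w := lu_pos_of (N t) (F t) hw rfl rfl hF
        by_cases hlt : u t w < lam
        · have hRt : R t w := ⟨t, le_rfl, hpos, hlt⟩
          rw [ind_of hF, ind_of hlt, ind_of hRt, ind_not (fun h => not_le.mpr hlt h.2)]
          ring
        · rw [ind_of hF, ind_not hlt]
          by_cases hRt : R t w
          · rw [ind_of hRt, ind_of ⟨hRt, not_lt.mp hlt⟩]; ring
          · rw [ind_not hRt, ind_not (fun h => hRt h.1)]; ring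
      · rw [ind_not hF]; ring
    rw [h2]
    linarith
  -- step (b): one step
  have hb : ∀ t, P.E (fun w => ind (R t w) * (ind (F t w = φ) * (Real.log (u' t w) - Real.log (u t w)))) ≤
      P.E (fun w => ind (R t w) * (k (u (t + 1) w) - k (u t w))) := by
    intro t
    have hS := Rt_iff (P := P) (F := F) (B := B) hN φ lam t
    have e := gain_eq hN (F := F) (P := P) φ t (S := fun w => R t w) hS
    -- E 1_R u' = E 1_R u
    have e2 : P.E (fun w => ind (R t w) * u' t w) = P.E (fun w => ind (R t w) * u t w) := by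
      have a1 : P.E (fun w => ind (R t w) * u' t w) = P.E (fun w => ind (R t w) * ind (F t w = φ)) :=
        P.E_mul_ce (((fac_BN (B := B) hN (Nat.le_succ t))).trans (Fac.ind hS)) _
      have a2 : P.E (fun w => ind (R t w) * u t w) = P.E (fun w => ind (R t w) * ind (F t w = φ)) :=
        P.E_mul_ce (Fac.ind hS) _
      rw [a1, a2]
    have h1 : P.E (fun w => ind (R t w) * (u' t w * Real.log (u' t w))) ≤
        P.E (fun w => ind (R t w) * (u (t + 1) w * Real.log (u (t + 1) w) + (u' t w - u (t + 1) w))) := by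
      refine P.E_mono (fun w hw => ?_)
      by_cases hRt : R t w
      · refine mul_le_mul_of_nonneg_left (mul_log_exit (lu_nonneg _ _ _ _) ?_ (lu_le_one _ _ _ hw)) (ind_nonneg _)
        -- no entries on the public class of w
        have hle : P.E (fun v => ind ((fun v => (B v, N (t + 1) v)) v = (fun v => (B v, N (t + 1) v)) w) * ind (F (t + 1) v = φ)) ≤
            P.E (fun v => ind ((fun v => (B v, N (t + 1) v)) v = (fun v => (B v, N (t + 1) v)) w) * ind (F t v = φ)) := by
          refine P.E_mono (fun v hv => ?_)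
          by_cases hc : (B v, N (t + 1) v) = (B w, N (t + 1) w)
          · refine mul_le_mul_of_nonneg_left (ind_mono (fun hF => ?_)) (ind_nonneg _)
            have hRv : R t v := (hS v w (fac_BN (B := B) hN (Nat.le_succ t) v w hc)).mpr hRt
            exact no_entry hO hv hRv hF
          · show ind ((B v, N (t + 1) v) = (B w, N (t + 1) w)) * _ ≤ ind ((B v, N (t + 1) v) = (B w, N (t + 1) w)) * _
            rw [ind_not hc, zero_mul, zero_mul]
        exact div_le_div_of_nonneg_right hle (P.m_nonneg _ w)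
      · rw [ind_not hRt, zero_mul, zero_mul]
    have h2 : P.E (fun w => ind (R t w) * (u (t + 1) w * Real.log (u (t + 1) w) + (u' t w - u (t + 1) w))) =
        P.E (fun w => ind (R t w) * k (u (t + 1) w)) + P.E (fun w => ind (R t w) * u' t w) := by
      rw [← E_add]
      exact P.E_congr (fun w _ => by rw [hk]; ring)
    have h3 : P.E (fun w => ind (R t w) * (k (u (t + 1) w) - k (u t w))) =
        P.E (fun w => ind (R t w) * k (u (t + 1) w)) - P.E (fun w => ind (R t w) * (u t w * Real.log (u t w))) +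
          P.E (fun w => ind (R t w) * u t w) := by
      rw [← E_sub, ← E_add]
      exact P.E_congr (fun w _ => by rw [hk]; ring)
    have e' : P.E (fun w => ind (R t w) * (ind (F t w = φ) * (Real.log (u' t w) - Real.log (u t w)))) =
        P.E (fun w => ind (R t w) * (u' t w * Real.log (u' t w))) -
          P.E (fun w => ind (R t w) * (u t w * Real.log (u t w))) := e
    rw [e', h3]
    rw [h2, e2] at h1
    linarith
  refine (Finset.sum_le_sum (fun t _ => (ha t).trans (hb t))).trans ?_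
  rw [← E_sum]
  refine P.E_le_const (fun w hw => ?_)
  refine abel_le (R := fun t => R t w) (k := fun t => k (u t w)) (c := lam * (1 + Real.log (1 / lam)))
    (mul_nonneg hl0.le (by linarith)) (fun t h => Rt_mono φ lam (Nat.le_succ t) h) ?_ ?_ ?_ T
  · intro t h1 h0
    obtain ⟨a1, a2⟩ := newly_thin φ lam h1 h0
    have a3 := neg_mul_log_le hl a1.le a2.le
    simp only [hk]
    have a4 : u (t + 1) w < lam := a2
    have a5 : -(u (t + 1) w * Real.log (u (t + 1) w)) ≤ lam * Real.log (1 / lam) := a3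
    linarith
  · rintro ⟨s, hs, a1, a2⟩
    have hs0 : s = 0 := Nat.le_zero.mp hs
    rw [hs0] at a1 a2
    have a3 := neg_mul_log_le hl a1.le a2.le
    simp only [hk]
    have a4 : u 0 w < lam := a2
    have a5 : -(u 0 w * Real.log (u 0 w)) ≤ lam * Real.log (1 / lam) := a3
    linarith
  · intro t
    have a1 : 0 ≤ u t w := lu_nonneg _ _ _ _
    have a2 : u t w ≤ 1 := lu_le_one _ _ _ hw
    have a3 := mul_nonneg a1 (neg_nonneg.mpr (Real.log_nonpos a1 a2))
    simp only [hk]
    linarith

/-- members of a line when it is first thin -/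
theorem ever_line (hN : ∀ t, Fac (N (t + 1)) (N t)) (hO : Once P B N F) (φ : Lam) {lam : ℝ} (hl0 : 0 < lam) (T : ℕ) :
    P.Pr (fun w => ∃ t ≤ T, F t w = φ ∧ P.lu B (N t) (F t) φ w < lam) ≤ lam := by
  set u : ℕ → Om → ℝ := fun t => P.lu B (N t) (F t) φ with hu
  set R : ℕ → Om → Prop := fun t => Rt P B N F φ lam t with hR
  -- first time in R
  have hfac : ∀ t, Fac (fun v => (B v, N t v)) (fun w => ind (R t w)) := fun t =>
    Fac.ind (Rt_iff (P := P) (F := F) (B := B) hN φ lam t)
  have hnew : ∀ t v w, (fun v => (B v, N (t + 1) v)) v = (fun v => (B v, N (t + 1) v)) w →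
      ((R (t + 1) v ∧ ¬ R t v) ↔ (R (t + 1) w ∧ ¬ R t w)) := by
    intro t v w h
    rw [show R (t + 1) v ↔ R (t + 1) w from Rt_iff (P := P) (F := F) (B := B) hN φ lam (t + 1) v w h,
      show R t v ↔ R t w from Rt_iff (P := P) (F := F) (B := B) hN φ lam t v w
        (fac_BN (B := B) hN (Nat.le_succ t) v w h)]
  have hsub : ∀ w, P.p w ≠ 0 → (∃ t ≤ T, F t w = φ ∧ u t w < lam) →
      (R 0 w ∧ F 0 w = φ) ∨ ∃ t ∈ range T, (R (t + 1) w ∧ ¬ R t w) ∧ F (t + 1) w = φ := by
    rintro w hw ⟨t, ht, hF, hlt⟩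
    have hRt : R t w := ⟨t, le_rfl, lu_pos_of (N t) (F t) hw rfl rfl hF, hlt⟩
    -- go down to the first time
    have hdown : ∀ s, R s w → F s w = φ → (R 0 w ∧ F 0 w = φ) ∨
        ∃ r, r < s ∧ (R (r + 1) w ∧ ¬ R r w) ∧ F (r + 1) w = φ := by
      intro s
      induction s with
      | zero => intro h1 h2; exact Or.inl ⟨h1, h2⟩
      | succ s ih =>
        intro h1 h2
        by_cases h3 : R s w
        · rcases ih h3 (no_entry hO hw h3 h2) with h4 | ⟨r, hr, h4⟩
          · exact Or.inl h4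
          · exact Or.inr ⟨r, hr.trans (Nat.lt_succ_self s), h4⟩
        · exact Or.inr ⟨s, Nat.lt_succ_self s, ⟨h1, h3⟩, h2⟩
    rcases hdown t hRt hF with h | ⟨r, hr, h⟩
    · exact Or.inl h
    · exact Or.inr ⟨r, Finset.mem_range.mpr (lt_of_lt_of_le hr ht), h⟩
  refine (P.Pr_mono hsub).trans ?_
  refine (P.Pr_or_le _ _).trans ?_
  have h0 : P.Pr (fun w => R 0 w ∧ F 0 w = φ) ≤ lam * P.Pr (R 0) := by
    unfold Pr
    rw [← E_smul]
    have e1 : P.E (fun w => ind (R 0 w ∧ F 0 w = φ)) = P.E (fun w => ind (R 0 w) * u 0 w) := by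
      rw [show P.E (fun w => ind (R 0 w) * u 0 w) = P.E (fun w => ind (R 0 w) * ind (F 0 w = φ)) from
        P.E_mul_ce (hfac 0) _]
      exact P.E_congr (fun w _ => ind_and _ _)
    rw [e1]
    refine P.E_mono (fun w _ => ?_)
    by_cases h : R 0 w
    · obtain ⟨s, hs, a1, a2⟩ := h
      have hs0 : s = 0 := Nat.le_zero.mp hs
      rw [hs0] at a2
      rw [mul_comm lam]
      exact mul_le_mul_of_nonneg_left a2.le (ind_nonneg _)
    · rw [ind_not h]; simp
  have h1 : ∀ t ∈ range T, P.Pr (fun w => (R (t + 1) w ∧ ¬ R t w) ∧ F (t + 1) w = φ) ≤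
      lam * (P.Pr (R (t + 1)) - P.Pr (R t)) := by
    intro t _
    unfold Pr
    rw [← E_sub, ← E_smul]
    have e1 : P.E (fun w => ind ((R (t + 1) w ∧ ¬ R t w) ∧ F (t + 1) w = φ)) =
        P.E (fun w => ind (R (t + 1) w ∧ ¬ R t w) * u (t + 1) w) := by
      rw [show P.E (fun w => ind (R (t + 1) w ∧ ¬ R t w) * u (t + 1) w) =
        P.E (fun w => ind (R (t + 1) w ∧ ¬ R t w) * ind (F (t + 1) w = φ)) from
        P.E_mul_ce (Fac.ind (hnew t)) _]
      exact P.E_congr (fun w _ => ind_and _ _)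
    rw [e1]
    refine P.E_mono (fun w _ => ?_)
    by_cases h : R t w
    · have h' : R (t + 1) w := Rt_mono φ lam (Nat.le_succ t) h
      rw [ind_not (fun hh => hh.2 h), ind_of h, ind_of h']; simp
    · by_cases h' : R (t + 1) w
      · obtain ⟨a1, a2⟩ := newly_thin φ lam h' h
        rw [ind_of ⟨h', h⟩, ind_of h', ind_not h]
        have : u (t + 1) w < lam := a2
        linarith
      · rw [ind_not (fun hh => h' hh.1), ind_not h, ind_not h']; simp
  refine (add_le_add h0 ((P.Pr_ex_le (range T) _).trans (Finset.sum_le_sum h1))).trans ?_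
  rw [← Finset.mul_sum, Finset.sum_range_sub (fun t => P.Pr (R t)), ← mul_add]
  have h2 : P.Pr (R 0) + (P.Pr (R T) - P.Pr (R 0)) ≤ 1 := by
    have := P.Pr_le_one (R T)
    linarith
  have := mul_le_mul_of_nonneg_left h2 hl0.le
  linarith

/-- TOTAL GAIN OF THIN LETTERS -/
theorem thin_total [Fintype Lam] (hN : ∀ t, Fac (N (t + 1)) (N t)) (hO : Once P B N F) {lam : ℝ} (hl0 : 0 < lam)
    (hl : lam ≤ Real.exp (-1)) (T : ℕ) :
    ∑ t ∈ range T, P.E (fun w => ind (P.mu B (N t) (F t) w < lam) *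
      (Real.log (P.mu B (N (t + 1)) (F t) w) - Real.log (P.mu B (N t) (F t) w))) ≤
      Fintype.card Lam * (lam * (1 + Real.log (1 / lam))) := by
  have e : ∀ t, P.E (fun w => ind (P.mu B (N t) (F t) w < lam) *
      (Real.log (P.mu B (N (t + 1)) (F t) w) - Real.log (P.mu B (N t) (F t) w))) =
      ∑ φ : Lam, P.E (fun w => ind (F t w = φ) * ind (P.lu B (N t) (F t) φ w < lam) *
      (Real.log (P.lu B (N (t + 1)) (F t) φ w) - Real.log (P.lu B (N t) (F t) φ w))) := by
    intro t
    rw [← E_sum]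
    refine P.E_congr (fun w _ => ?_)
    rw [Finset.sum_eq_single (F t w)]
    · rw [ind_of rfl, one_mul]; rfl
    · intro φ _ hφ
      rw [ind_not (fun h => hφ h.symm)]; ring
    · intro h; exact absurd (Finset.mem_univ _) h
  rw [Finset.sum_congr rfl (fun t _ => e t), Finset.sum_comm]
  refine (Finset.sum_le_sum (fun φ _ => thin_line hN hO φ hl0 hl T)).trans (le_of_eq ?_)
  rw [Finset.sum_const, Finset.card_univ, nsmul_eq_mul]

/-- A THIN OWN LETTER HAS SMALL PROBABILITY, ALL TIMES TOGETHER -/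
theorem ever_thin [Fintype Lam] (hN : ∀ t, Fac (N (t + 1)) (N t)) (hO : Once P B N F) {lam : ℝ} (hl0 : 0 < lam)
    (T : ℕ) : P.Pr (fun w => ∃ t ≤ T, P.mu B (N t) (F t) w < lam) ≤ Fintype.card Lam * lam := by
  have h1 : P.Pr (fun w => ∃ t ≤ T, P.mu B (N t) (F t) w < lam) ≤
      P.Pr (fun w => ∃ φ ∈ (Finset.univ : Finset Lam), ∃ t ≤ T, F t w = φ ∧ P.lu B (N t) (F t) φ w < lam) :=
    P.Pr_mono (fun w _ ⟨t, ht, h⟩ => ⟨F t w, Finset.mem_univ _, t, ht, rfl, h⟩)
  refine h1.trans ((P.Pr_ex_le _ _).trans ?_)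
  refine (Finset.sum_le_sum (fun φ _ => ever_line hN hO φ hl0 T)).trans (le_of_eq ?_)
  rw [Finset.sum_const, Finset.card_univ, nsmul_eq_mul]

end Line

end FP

end Pool.Agent.M3
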