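import Pool.Agent.M3.Maj

/-!
# M3.Step: the potential `Phi r x = ((|x| - r)_+)^2`

* `phi_step`: `(1+b)/2 Phi (x+g) + (1-b)/2 Phi (x-g) >= (1 - 16 b^2) Phi x` for all `|b| <= 1`, ANY `g`;
* `ce_phi_step`: the same for a digit `D = +1, -1` with conditional mean `b` given a map `Y`, `x`, `g` functions of `Y`;
* `stop_tel`: telescoping from the first hitting time to the end;
* `one_view`: `r^2 Pr (hit 2r while alive) <= E end + 16 sum E b^2 Phi (X_t) alive + B^2 (births seen at old value > r) +
  B^2 Pr (killed)`.  All losses carry the factor `r < |X_t|`, `alive t` of the OLD node; steps need not be small.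
-/

set_option autoImplicit false
set_option linter.unusedSectionVars false

namespace Pool.Agent.M3

open Finset Pool.Agent.PWZ

noncomputable section

/-- the potential -/
def Phi (r x : ℝ) : ℝ := (max (|x| - r) 0) ^ 2

end

theorem Phi_nonneg (r x : ℝ) : 0 ≤ Phi r x := sq_nonneg _

theorem Phi_neg (r x : ℝ) : Phi r (-x) = Phi r x := by unfold Phi; rw [abs_neg]

theorem Phi_eq_zero {r x : ℝ} (h : |x| ≤ r) : Phi r x = 0 := by
  unfold Phi; rw [max_eq_right (by linarith)]; ring

theorem Phi_eq {r x : ℝ} (h : r ≤ |x|) : Phi r x = (|x| - r) ^ 2 := by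
  unfold Phi; rw [max_eq_left (by linarith)]

theorem Phi_pos_iff {r x : ℝ} : 0 < Phi r x ↔ r < |x| := by
  constructor
  · intro h
    by_contra hn
    rw [Phi_eq_zero (not_lt.mp hn)] at h
    exact lt_irrefl _ h
  · intro h
    rw [Phi_eq h.le]
    exact pow_pos (sub_pos.mpr h) 2

theorem Phi_le {r x B : ℝ} (hr : 0 ≤ r) (h : |x| ≤ B) : Phi r x ≤ B ^ 2 := by
  unfold Phi
  refine pow_le_pow_left₀ (le_max_right _ _) (max_le (by linarith) ((abs_nonneg x).trans h)) 2

theorem le_Phi {r x : ℝ} (hr : 0 ≤ r) (h : 2 * r ≤ |x|) : r ^ 2 ≤ Phi r x := by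
  rw [Phi_eq (by linarith)]
  exact pow_le_pow_left₀ hr (by linarith) 2

theorem sq_le_Phi {r x y : ℝ} (hy : 0 ≤ y) (h : y + r ≤ |x|) : y ^ 2 ≤ Phi r x := by
  rw [Phi_eq (by linarith)]
  exact pow_le_pow_left₀ hy (by linarith) 2

/-- ONE STEP, any increment `g`, any bias `b` -/
theorem phi_step {r x g b : ℝ} (hb : |b| ≤ 1) :
    (1 - 16 * b ^ 2) * Phi r x ≤ (1 + b) / 2 * Phi r (x + g) + (1 - b) / 2 * Phi r (x - g) := by
  have hb' := abs_le.mp hb
  have key : ∀ x g b : ℝ, |b| ≤ 1 → 0 ≤ x →
      (1 - 16 * b ^ 2) * Phi r x ≤ (1 + b) / 2 * Phi r (x + g) + (1 - b) / 2 * Phi r (x - g) := by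
    intro x g b hb hx
    have hb' := abs_le.mp hb
    have h1 : 0 ≤ (1 + b) / 2 := by linarith [hb'.1]
    have h2 : 0 ≤ (1 - b) / 2 := by linarith [hb'.2]
    have hp := mul_nonneg h1 (Phi_nonneg r (x + g))
    have hm := mul_nonneg h2 (Phi_nonneg r (x - g))
    by_cases hxr : x ≤ r
    · rw [Phi_eq_zero (x := x) (by rw [abs_of_nonneg hx]; exact hxr)]
      linarith
    · have hxr' : r < x := not_le.mp hxr
      by_cases hb16 : 1 ≤ 16 * b ^ 2
      · have h3 : (1 - 16 * b ^ 2) * Phi r x ≤ 0 :=
          mul_nonpos_of_nonpos_of_nonneg (by linarith) (Phi_nonneg r x)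
        linarith
      · have hb4 : |b| < 1 / 4 := by
          by_contra hn
          have h4 : (1 / 4 : ℝ) ≤ |b| := not_lt.mp hn
          have h5 : (1 / 4 : ℝ) ^ 2 ≤ |b| ^ 2 := pow_le_pow_left₀ (by norm_num) h4 2
          rw [sq_abs] at h5
          exact hb16 (by linarith)
        have hb4' := abs_lt.mp hb4
        have hy : 0 < x - r := by linarith
        have hPx : Phi r x = (x - r) ^ 2 := by
          rw [Phi_eq (by rw [abs_of_nonneg hx]; exact hxr'.le), abs_of_nonneg hx]
        rcases lt_trichotomy (x - r) |g| with hg | hg | hg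
        · -- large step
          have hsmall : (1 - 16 * b ^ 2) * Phi r x ≤ (x - r) ^ 2 := by
            rw [hPx]
            have := mul_nonneg (mul_nonneg (by norm_num : (0:ℝ) ≤ 16) (sq_nonneg b)) (sq_nonneg (x - r))
            nlinarith
          rcases le_or_gt 0 g with hg0 | hg0
          · rw [abs_of_nonneg hg0] at hg
            have h6 : (2 * (x - r)) ^ 2 ≤ Phi r (x + g) := by
              refine sq_le_Phi (by linarith) ?_
              have := le_abs_self (x + g)
              linarith
            have h7 : (3 / 8 : ℝ) * (2 * (x - r)) ^ 2 ≤ (1 + b) / 2 * Phi r (x + g) :=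
              mul_le_mul (by linarith) h6 (sq_nonneg _) h1
            nlinarith [sq_nonneg (x - r)]
          · rw [abs_of_neg hg0] at hg
            have h6 : (2 * (x - r)) ^ 2 ≤ Phi r (x - g) := by
              refine sq_le_Phi (by linarith) ?_
              have := le_abs_self (x - g)
              linarith
            have h7 : (3 / 8 : ℝ) * (2 * (x - r)) ^ 2 ≤ (1 - b) / 2 * Phi r (x - g) :=
              mul_le_mul (by linarith) h6 (sq_nonneg _) h2
            nlinarith [sq_nonneg (x - r)]
        all_goals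
          have hg' : |g| ≤ x - r := by linarith
          have hg'' := abs_le.mp hg'
          have h6 : (x - r + g) ^ 2 ≤ Phi r (x + g) := by
            refine sq_le_Phi (by linarith) ?_
            have := le_abs_self (x + g)
            linarith
          have h7 : (x - r - g) ^ 2 ≤ Phi r (x - g) := by
            refine sq_le_Phi (by linarith) ?_
            have := le_abs_self (x - g)
            linarith
          have h8 := mul_le_mul_of_nonneg_left h6 h1
          have h9 := mul_le_mul_of_nonneg_left h7 h2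
          rw [hPx]
          nlinarith [sq_nonneg (g + b * (x - r)), sq_nonneg (b * (x - r))]
  rcases le_total 0 x with hx | hx
  · exact key x g b hb hx
  · have h := key (-x) (-g) b hb (by linarith)
    rw [Phi_neg, show -x + -g = -(x + g) by ring, show -x - -g = -(x - g) by ring, Phi_neg, Phi_neg] at h
    exact h

variable {Om : Type*} [Fintype Om]

namespace FP

variable (P : FP Om)

/-- the conditional mean of a digit is at most one in absolute value -/
theorem abs_ce_digit {κ : Type*} (Y : Om → κ) {D : Om → ℝ} (hD : ∀ w, P.p w ≠ 0 → D w = 1 ∨ D w = -1) {w : Om}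
    (hw : P.p w ≠ 0) : |P.ce Y D w| ≤ 1 := by
  refine (P.abs_ce_le Y D w).trans (P.ce_le_const (fun v hv => ?_) hw)
  rcases hD v hv with h | h <;> rw [h] <;> simp

/-- one step for a digit `D` with conditional mean `ce Y D` -/
theorem ce_phi_step {κ : Type*} {Y : Om → κ} {x g D : Om → ℝ} (hx : Fac Y x) (hg : Fac Y g)
    (hD : ∀ w, P.p w ≠ 0 → D w = 1 ∨ D w = -1) (r : ℝ) {w : Om} (hw : P.p w ≠ 0) :
    (1 - 16 * P.ce Y D w ^ 2) * Phi r (x w) ≤ P.ce Y (fun v => Phi r (x v + D v * g v)) w := by
  refine (phi_step (g := g w) (P.abs_ce_digit Y hD hw)).trans (le_of_eq ?_)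
  have h1 : P.ce Y (fun v => Phi r (x v + D v * g v)) w =
      P.ce Y (fun v => (Phi r (x v + g v) / 2 * (1 + D v) + Phi r (x v - g v) / 2 * (1 - D v))) w := by
    refine P.ce_congr (fun v hv => ?_) w
    rcases hD v hv with h | h
    · rw [h]; simp only [one_mul]; ring
    · rw [h, show x v + -1 * g v = x v - g v by ring]; ring
  have hf1 : Fac Y (fun v => Phi r (x v + g v) / 2) := hx.comp₂ hg (fun a b => Phi r (a + b) / 2)
  have hf2 : Fac Y (fun v => Phi r (x v - g v) / 2) := hx.comp₂ hg (fun a b => Phi r (a - b) / 2)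
  rw [h1, P.ce_add, P.ce_mul hf1, P.ce_mul hf2, P.ce_add, P.ce_sub, P.ce_const _ _ hw]
  ring

/-- telescoping from the first hitting time to the end: `s t` = hit before or at `t` -/
theorem stop_tel {n : ℕ} {V : ℕ → ℝ} {T : ℕ → Prop} {c : ℝ} (hV : ∀ t ≤ n, T t → c ≤ V t) :
    c * ind (∃ t ≤ n, T t) + ∑ t ∈ range n, ind (∃ u ≤ t, T u) * (V (t + 1) - V t) ≤
      ind (∃ t ≤ n, T t) * V n := by
  induction n with
  | zero =>
    rw [Finset.sum_range_zero, add_zero]
    by_cases h : ∃ t ≤ 0, T t
    · rw [ind_of h, mul_one, one_mul]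
      obtain ⟨t, ht, hT⟩ := h
      have : t = 0 := by omega
      subst this
      exact hV 0 le_rfl hT
    · rw [ind_not h]; simp
  | succ n ih =>
    have ih' := ih (fun t ht => hV t (by omega))
    rw [Finset.sum_range_succ]
    by_cases h : ∃ t ≤ n, T t
    · have h' : ∃ t ≤ n + 1, T t := by
        obtain ⟨t, ht, hT⟩ := h; exact ⟨t, by omega, hT⟩
      rw [ind_of h] at ih' ⊢
      rw [ind_of h']
      linarith
    · rw [ind_not h] at ih' ⊢
      by_cases h' : ∃ t ≤ n + 1, T t
      · rw [ind_of h']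
        obtain ⟨t, ht, hT⟩ := h'
        have ht' : t = n + 1 := by
          by_contra hne
          exact h ⟨t, by omega, hT⟩
        subst ht'
        have := hV (n + 1) le_rfl hT
        linarith
      · rw [ind_not h']
        linarith

/-- THE SINGLE VIEW INEQUALITY (before the losses are estimated).
`A` filtration, `X t` value at the node `t` (function of `A t`), `D t` the digit, `g t` the increment, `b (t+1)` the
births at the node `t+1` (outside them `X (t+1) = X t + D t * g t`), `a t` alive (decreasing event of the filtration). -/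
theorem one_view {κ : ℕ → Type*} {A : ∀ t, Om → κ t} (hA : Filt A) {X g D : ℕ → Om → ℝ} {b a : ℕ → Om → Prop}
    (hX : ∀ t, Fac (A t) (X t)) (hg : ∀ t, Fac (A t) (g t))
    (ha : ∀ t v w, A t v = A t w → (a t v ↔ a t w)) (haa : ∀ t w, P.p w ≠ 0 → a (t + 1) w → a t w)
    (hD : ∀ t w, P.p w ≠ 0 → D t w = 1 ∨ D t w = -1)
    (hstep : ∀ t w, P.p w ≠ 0 → ¬ b (t + 1) w → X (t + 1) w = X t w + D t w * g t w)
    {r B : ℝ} (hr : 0 ≤ r) (hB : ∀ t w, P.p w ≠ 0 → |X t w + D t w * g t w| ≤ B) (n : ℕ) :
    r ^ 2 * P.Pr (fun w => ∃ t ≤ n, a t w ∧ 2 * r ≤ |X t w|) ≤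
      P.E (fun w => ind (a n w) * Phi r (X n w)) +
      ∑ t ∈ range n, (16 * P.E (fun w => ind (a t w) * (P.ce (A t) (D t) w ^ 2 * Phi r (X t w))) +
        B ^ 2 * P.Pr (fun w => a (t + 1) w ∧ r < |X t w| ∧ b (t + 1) w)) +
      B ^ 2 * P.Pr (fun w => ¬ a n w) := by
  have hB0 : 0 ≤ B ^ 2 := sq_nonneg B
  set V : ℕ → Om → ℝ := fun t w => ind (a t w) * Phi r (X t w) with hVdef
  set T : ℕ → Om → Prop := fun t w => a t w ∧ 2 * r ≤ |X t w| with hTdef
  have hVT : ∀ w, ∀ t ≤ n, T t w → r ^ 2 ≤ V t w := by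
    intro w t _ h
    simp only [hTdef] at h
    simp only [hVdef]
    rw [ind_of h.1, one_mul]
    exact le_Phi hr h.2
  have hs : ∀ t, Fac (A t) (fun w => ind (∃ u ≤ t, T u w)) := by
    intro t
    refine Fac.ind (fun v w h => exists_congr (fun u => and_congr_right (fun hu => ?_)))
    simp only [hTdef]
    rw [ha u v w (hA.le hu v w h), hX u v w (hA.le hu v w h)]
  have hVF : ∀ t, Fac (A t) (V t) := fun t =>
    Fac.mul (Fac.ind (fun v w h => ha t v w h)) ((hX t).comp (Phi r))
  -- pathwise telescoping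
  have h1 : r ^ 2 * P.Pr (fun w => ∃ t ≤ n, T t w) +
      P.E (fun w => ∑ t ∈ range n, ind (∃ u ≤ t, T u w) * (V (t + 1) w - V t w)) ≤ P.E (V n) := by
    unfold Pr
    rw [← E_smul, ← E_add]
    refine P.E_mono (fun w hw => ?_)
    refine (stop_tel (hVT w)).trans ?_
    have h0 : 0 ≤ V n w := mul_nonneg (ind_nonneg _) (Phi_nonneg _ _)
    have := mul_le_mul_of_nonneg_right (ind_le_one (∃ t ≤ n, T t w)) h0
    linarith
  -- one step
  have h2 : ∀ t ∈ range n, - (16 * P.E (fun w => ind (a t w) * (P.ce (A t) (D t) w ^ 2 * Phi r (X t w))) +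
        B ^ 2 * P.Pr (fun w => a (t + 1) w ∧ r < |X t w| ∧ b (t + 1) w) +
        B ^ 2 * P.E (fun w => ind (a t w) - ind (a (t + 1) w))) ≤
      P.E (fun w => ind (∃ u ≤ t, T u w) * (V (t + 1) w - V t w)) := by
    intro t _
    -- indicator of a live old value above r
    set s : Om → ℝ := fun w => ind (∃ u ≤ t, T u w) with hsdef
    have hs1 : ∀ w, s w ≤ 1 := fun w => ind_le_one _
    have hs0 : ∀ w, 0 ≤ s w := fun w => ind_nonneg _
    set q : Om → ℝ := fun w => ind (a t w ∧ r < |X t w|) with hqdef
    have hq : Fac (A t) q := Fac.ind (fun v w h => by rw [ha t v w h, hX t v w h])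
    -- lower bound of the new value
    have h3 : P.E (fun w => (s w * q w) * Phi r (X t w + D t w * g t w)) -
        B ^ 2 * P.Pr (fun w => a (t + 1) w ∧ r < |X t w| ∧ b (t + 1) w) -
        B ^ 2 * P.E (fun w => ind (a t w) - ind (a (t + 1) w)) ≤ P.E (fun w => s w * V (t + 1) w) := by
      unfold Pr
      rw [← E_smul, ← E_smul, ← E_sub, ← E_sub]
      refine P.E_mono (fun w hw => ?_)
      have hPhi' := Phi_le (r := r) hr (hB t w hw)
      have hPhi0 := Phi_nonneg r (X t w + D t w * g t w)
      have hV0 : 0 ≤ s w * V (t + 1) w :=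
        mul_nonneg (hs0 w) (mul_nonneg (ind_nonneg _) (Phi_nonneg _ _))
      by_cases hat : a t w
      · by_cases hsemi : r < |X t w|
        · have hq1 : q w = 1 := ind_of ⟨hat, hsemi⟩
          by_cases hat' : a (t + 1) w
          · by_cases hbt : b (t + 1) w
            · rw [hq1, ind_of hat, ind_of hat', ind_of ⟨hat', hsemi, hbt⟩]
              have := mul_le_mul (hs1 w) hPhi' hPhi0 zero_le_one
              linarith
            · rw [hq1, ind_of hat, ind_of hat', ind_not (fun h => hbt h.2.2)]
              simp only [hVdef]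
              rw [ind_of hat', hstep t w hw hbt]
              linarith
          · rw [hq1, ind_of hat, ind_not hat', ind_not (fun h => hat' h.1)]
            have := mul_le_mul (hs1 w) hPhi' hPhi0 zero_le_one
            linarith
        · have hq0 : q w = 0 := ind_not (fun h => hsemi h.2)
          rw [hq0, ind_not (fun h : a (t + 1) w ∧ r < |X t w| ∧ b (t + 1) w => hsemi h.2.1), ind_of hat]
          have h4 := mul_nonneg hB0 (sub_nonneg.mpr (ind_le_one (a (t + 1) w)))
          linarith
      · have hq0 : q w = 0 := ind_not (fun h => hat h.1)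
        have hat' : ¬ a (t + 1) w := fun h => hat (haa t w hw h)
        rw [hq0, ind_not (fun h : a (t + 1) w ∧ r < |X t w| ∧ b (t + 1) w => hat' h.1), ind_not hat,
          ind_not hat']
        linarith
    -- the digit
    have h5 : P.E (fun w => s w * V t w) -
        16 * P.E (fun w => ind (a t w) * (P.ce (A t) (D t) w ^ 2 * Phi r (X t w))) ≤
        P.E (fun w => (s w * q w) * Phi r (X t w + D t w * g t w)) := by
      have hfac : Fac (A t) (fun w => s w * q w) := Fac.mul (hs t) hq
      rw [← P.E_mul_ce hfac, ← E_smul, ← E_sub]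
      refine P.E_mono (fun w hw => ?_)
      have h6 := P.ce_phi_step (hX t) (hg t) (hD t) r hw
      by_cases hat : a t w
      · by_cases hsemi : r < |X t w|
        · have hq1 : q w = 1 := ind_of ⟨hat, hsemi⟩
          rw [hq1, ind_of hat, mul_one, one_mul]
          simp only [hVdef]
          rw [ind_of hat, one_mul]
          have h7 := mul_le_mul_of_nonneg_left h6 (hs0 w)
          have h8 : 0 ≤ (1 - s w) * (16 * (P.ce (A t) (D t) w ^ 2 * Phi r (X t w))) :=
            mul_nonneg (sub_nonneg.mpr (hs1 w))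
              (mul_nonneg (by norm_num) (mul_nonneg (sq_nonneg _) (Phi_nonneg _ _)))
          linarith
        · have hPhi : Phi r (X t w) = 0 := Phi_eq_zero (not_lt.mp hsemi)
          have hq0 : q w = 0 := ind_not (fun h => hsemi h.2)
          simp only [hVdef]
          rw [hq0, hPhi]
          simp
      · have hq0 : q w = 0 := ind_not (fun h => hat h.1)
        simp only [hVdef]
        rw [hq0, ind_not hat]
        simp
    have h9 : P.E (fun w => s w * (V (t + 1) w - V t w)) =
        P.E (fun w => s w * V (t + 1) w) - P.E (fun w => s w * V t w) := by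
      rw [← E_sub]; exact P.E_congr (fun w _ => by ring)
    rw [h9]
    linarith
  have h10 := Finset.sum_le_sum h2
  rw [← E_sum] at h10
  rw [Finset.sum_neg_distrib, Finset.sum_add_distrib] at h10
  have h11 : ∑ t ∈ range n, B ^ 2 * P.E (fun w => ind (a t w) - ind (a (t + 1) w)) ≤
      B ^ 2 * P.Pr (fun w => ¬ a n w) := by
    rw [← Finset.mul_sum, ← E_sum]
    refine mul_le_mul_of_nonneg_left ?_ hB0
    unfold Pr
    refine P.E_mono (fun w _ => ?_)
    rw [Finset.sum_range_sub', ind_not_eq]
    have := ind_le_one (a 0 w)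
    linarith
  linarith

end FP

end Pool.Agent.M3
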