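import Pool.Agent.M3.TSEnt
import Pool.Agent.M3.TSStep
import Pool.Agent.PWZ.Osc

/-!
# M3 TSCore: the core lemma of row 2M (2), abstract (helper39)

`u` moving, `v` determined by labels which change only at births; both uniform. Then `<u_Y, v_X>` stays small.
From `osc_marks` (PWZ/Osc.lean) with `W = Unit` (a list only counts the time), information
`(Y, Q t, record t)`, `κ = bias²`.
-/

set_option autoImplicit false

namespace Pool.Agent.M3.TS

open Finset Pool.Agent.PWZ

variable {Om 𝒳 𝒴 V Γx Γy κx κy K : Type*} [Fintype Om] [Fintype 𝒳] [Fintype 𝒴] [Fintype V]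
  {P : FP Om} {X : Om → 𝒳} {Y : Om → 𝒴} {n : ℕ} {nx : ℕ → Om → Γx} {ny : ℕ → Om → Γy}
  {cx : ℕ → 𝒳 → κx} {cy : ℕ → 𝒴 → κy} {ρx : ℕ → Γx → V → ℝ} {ρy : ℕ → Γy → V → ℝ}
  {J : ℕ → Om → V → ℝ} {near : ℝ} {κQ κR : Type*} {Q : ℕ → Om → κQ} {R : ℕ → Om → κR} {D : ℕ → Om → ℝ}
  {dl : ℕ → Om → V → ℝ} {ox : ℕ → Bool → Om → Γx} {oy : ℕ → Bool → Om → Γy} {ck : ℕ → K → Om → κx}
  {kx : ℕ → Om → K}

/-- all the hypotheses of the core lemma -/
structure CoreHyp {Om 𝒳 𝒴 V Γx Γy κx κy β : Type*} [Fintype Om] [Fintype 𝒳] [Fintype 𝒴] [Fintype V]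
    (n : ℕ) (nx : ℕ → Om → Γx) (ny : ℕ → Om → Γy)
    (cx : ℕ → 𝒳 → κx) (cy : ℕ → 𝒴 → κy) (ρx : ℕ → Γx → V → ℝ) (ρy : ℕ → Γy → V → ℝ) (near : ℝ)
    (u : ℕ → Γy → 𝒴 → V → ℝ) (v : ℕ → Γx → 𝒳 → V → ℝ) (B : ℕ → Γx → κx → List (Finset 𝒳))
    (lam : ℕ → Γx → 𝒳 → β) (ψ : β → V → ℝ) (r' r ε : ℝ) : Prop where
  hr0 : 0 < r
  hr1 : r ≤ 1
  hr : r' + near ≤ r
  hε : 0 ≤ ε
  hu2 : ∀ t g y c, |u t g y c| ≤ 2
  hv2 : ∀ t g x c, |v t g x c| ≤ 2
  hu : HF n ny cy ρy u r' ε
  hv : HF n nx cx ρx v r' ε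
  hu0 : ∀ w y c, u 0 (ny 0 w) y c = 0
  hlam : LMeas n nx cx B lam
  hψ : ∀ t ≤ n, ∀ w x, v t (nx t w) x = ψ (lam t (nx t w) x)

/-- the time of a list -/
def tm (n : ℕ) (l : List Unit) : ℕ := min (l.length - 1) n

theorem tm_le (n : ℕ) (l : List Unit) : tm n l ≤ n := min_le_right _ _

theorem tm_tail_le (n : ℕ) (l : List Unit) : tm n l.tail ≤ tm n l := by
  unfold tm
  rw [List.length_tail]
  omega

theorem tm_rep {n t : ℕ} (ht : t ≤ n) : tm n (List.replicate (t + 1) ()) = t := by
  unfold tm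
  rw [List.length_replicate]
  omega

theorem rep_tail (t : ℕ) : (List.replicate (t + 1) ()).tail = List.replicate t () := by
  rw [List.replicate_succ, List.tail_cons]

/-- the expectation as a functional on lists -/
noncomputable def EU (P : FP Om) (t : ℕ) (f : Om → List Unit → ℝ) : ℝ := P.E (fun w => f w (List.replicate (t + 1) ()))

theorem EU_isEx (P : FP Om) : IsEx (EU P) where
  add := fun t f g => P.E_add _ _
  smul := fun t c f => P.E_smul c _
  mono := fun t f g h => P.E_mono fun w _ => h w _ (by rw [List.length_replicate])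
  tail := fun t f => by
    unfold EU
    simp only [rep_tail]

theorem core_bound (hV : View P X Y n nx ny cx cy ρx ρy J near Q R D dl ox oy ck kx) [Fintype K]
    {β : Type*} {u : ℕ → Γy → 𝒴 → V → ℝ} {v : ℕ → Γx → 𝒳 → V → ℝ} {B : ℕ → Γx → κx → List (Finset 𝒳)}
    {lam : ℕ → Γx → 𝒳 → β} {ψ : β → V → ℝ} {r' r ε : ℝ}
    (hd : CoreHyp n nx ny cx cy ρx ρy near u v B lam ψ r' r ε) {q : ℝ} (hq : 0 < q) (hq1 : q ≤ 1) :
    P.Pr (fun w => ∃ t ≤ n, 24 * r < |TT X Y nx ny J u v t w|) ≤
      500 * ε / r ^ 2 * (16 * (1 + Real.log (1 / q)) * births P X n nx cx B +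
        16 * q * (Fintype.card K : ℝ) * births' P X n nx cx B + 40 * births P X n nx cx B +
        9 * moves P Y n ny u) := by
  classical
  -- abbreviations
  set rec' : ℕ → Om → ℕ → K × Bool × ℕ → Prop := fun t w => record X ox ck kx B t w with hrec
  set bs : ℕ → Om → ℝ := fun t w => bias P X Q D ox ck kx B t w with hbs
  have hvψ : ∀ t ≤ n, ∀ w, v t (nx t w) (X w) = ψ (lam t (nx t w) (X w)) := fun t ht w => hd.hψ t ht w (X w)
  -- filtrations
  have hQf : ∀ {s t : ℕ}, s ≤ t → Fac (Q t) (Q s) := fun {s t} h => Filt.le (X := Q) (fun t => hV.QQ t) h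
  have hRf : ∀ {s t : ℕ}, s ≤ t → Fac (rec' t) (rec' s) := fun {s t} h =>
    Filt.le (X := rec') (fun t => record_filt B t) h
  let I : Om → List Unit → List Unit × 𝒴 × κQ × (ℕ → K × Bool × ℕ → Prop) := fun w l =>
    (l, Y w, Q (tm n l) w, rec' (tm n l) w)
  have hI0 : ∀ w l w' l', I w l = I w' l' →
      l = l' ∧ Y w = Y w' ∧ Q (tm n l) w = Q (tm n l) w' ∧ rec' (tm n l) w = rec' (tm n l) w' := by
    intro w l w' l' h
    have h1 : l = l' := congrArg Prod.fst h
    subst h1
    exact ⟨rfl, congrArg (fun p => p.2.1) h, congrArg (fun p => p.2.2.1) h, congrArg (fun p => p.2.2.2) h⟩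
  have hIl : ∀ w l w' l', I w l = I w' l' → l = l' := fun w l w' l' h => (hI0 w l w' l' h).1
  have hI : ∀ w l w' l', I w l = I w' l' → I w l.tail = I w' l'.tail := by
    intro w l w' l' h
    obtain ⟨h1, h2, h3, h4⟩ := hI0 w l w' l' h
    subst h1
    show (l.tail, Y w, Q (tm n l.tail) w, rec' (tm n l.tail) w) =
      (l.tail, Y w', Q (tm n l.tail) w', rec' (tm n l.tail) w')
    rw [h2, hQf (tm_tail_le n l) w w' h3, hRf (tm_tail_le n l) w w' h4]
  -- facts on the information at time `t`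
  have hlab : ∀ {t : ℕ}, t ≤ n → ∀ w w', Y w = Y w' → Q t w = Q t w' → rec' t w = rec' t w' →
      lam t (nx t w) (X w) = lam t (nx t w') (X w') := by
    intro t ht w w' h2 h3 h4
    exact record_label hV B lam hd.hlam ht w w' (Prod.ext h2 (Prod.ext h3 h4))
  have hny : ∀ (t : ℕ) w w', Y w = Y w' → Q t w = Q t w' → ny t w = ny t w' := fun t w w' h2 h3 =>
    hV.nyQ t w w' (Prod.ext h2 h3)
  have hJ : ∀ (t : ℕ) w w', Y w = Y w' → Q t w = Q t w' → J t w = J t w' := fun t w w' h2 h3 =>
    hV.JQ t w w' (Prod.ext h2 h3)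
  let T : Om → List Unit → ℝ := fun w l => TT X Y nx ny J u v (tm n l) w
  let T' : Om → List Unit → ℝ := fun w l => iw (J (tm n l) w) (u (tm n l.tail) (ny (tm n l.tail) w) (Y w))
    (v (tm n l.tail) (nx (tm n l.tail) w) (X w))
  let α : Om → List Unit → Prop := fun w l =>
    lam (tm n l) (nx (tm n l) w) (X w) ≠ lam (tm n l.tail) (nx (tm n l.tail) w) (X w)
  let β' : Om → List Unit → Prop := fun w l =>
    u (tm n l) (ny (tm n l) w) (Y w) ≠ u (tm n l.tail) (ny (tm n l.tail) w) (Y w)
  let κ : Om → List Unit → ℝ := fun w l => bs (tm n l) w ^ 2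
  have hT : Kn I T := by
    intro w l w' l' h
    obtain ⟨h1, h2, h3, h4⟩ := hI0 w l w' l' h
    subst h1
    have ht := tm_le n l
    show TT X Y nx ny J u v (tm n l) w = TT X Y nx ny J u v (tm n l) w'
    unfold TT
    rw [hvψ _ ht, hvψ _ ht, hlab ht w w' h2 h3 h4, hny _ w w' h2 h3, hJ _ w w' h2 h3, h2]
  have hT' : Kn I T' := by
    intro w l w' l' h
    obtain ⟨h1, h2, h3, h4⟩ := hI0 w l w' l' h
    subst h1
    have ht := tm_le n l.tail
    have h3' := hQf (tm_tail_le n l) w w' h3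
    have h4' := hRf (tm_tail_le n l) w w' h4
    show iw (J (tm n l) w) (u (tm n l.tail) (ny (tm n l.tail) w) (Y w))
      (v (tm n l.tail) (nx (tm n l.tail) w) (X w)) = iw (J (tm n l) w') (u (tm n l.tail) (ny (tm n l.tail) w') (Y w'))
      (v (tm n l.tail) (nx (tm n l.tail) w') (X w'))
    rw [hvψ _ ht, hvψ _ ht, hlab ht w w' h2 h3' h4', hny _ w w' h2 h3', hJ _ w w' h2 h3, h2]
  have hα : Kn I α := by
    intro w l w' l' h
    obtain ⟨h1, h2, h3, h4⟩ := hI0 w l w' l' h
    subst h1
    have h3' := hQf (tm_tail_le n l) w w' h3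
    have h4' := hRf (tm_tail_le n l) w w' h4
    show (lam (tm n l) (nx (tm n l) w) (X w) ≠ lam (tm n l.tail) (nx (tm n l.tail) w) (X w)) =
      (lam (tm n l) (nx (tm n l) w') (X w') ≠ lam (tm n l.tail) (nx (tm n l.tail) w') (X w'))
    rw [hlab (tm_le n l) w w' h2 h3 h4, hlab (tm_le n l.tail) w w' h2 h3' h4']
  have hβ : Kn I β' := by
    intro w l w' l' h
    obtain ⟨h1, h2, h3, h4⟩ := hI0 w l w' l' h
    subst h1
    have h3' := hQf (tm_tail_le n l) w w' h3
    show (u (tm n l) (ny (tm n l) w) (Y w) ≠ u (tm n l.tail) (ny (tm n l.tail) w) (Y w)) =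
      (u (tm n l) (ny (tm n l) w') (Y w') ≠ u (tm n l.tail) (ny (tm n l.tail) w') (Y w'))
    rw [hny _ w w' h2 h3, hny _ w w' h2 h3', h2]
  have hT4 : ∀ w l, |T w l| ≤ 4 := fun w l => by
    have := abs_iw_le (hV.Jwt (tm n l) w) (u (tm n l) (ny (tm n l) w) (Y w)) (v (tm n l) (nx (tm n l) w) (X w))
      (by norm_num : (0 : ℝ) ≤ 2) (by norm_num : (0 : ℝ) ≤ 2) (hd.hu2 _ _ _) (hd.hv2 _ _ _)
    show |iw (J (tm n l) w) (u (tm n l) (ny (tm n l) w) (Y w)) (v (tm n l) (nx (tm n l) w) (X w))| ≤ 4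
    linarith
  have hT4' : ∀ w l, |T' w l| ≤ 4 := fun w l => by
    have := abs_iw_le (hV.Jwt (tm n l) w) (u (tm n l.tail) (ny (tm n l.tail) w) (Y w))
      (v (tm n l.tail) (nx (tm n l.tail) w) (X w))
      (by norm_num : (0 : ℝ) ≤ 2) (by norm_num : (0 : ℝ) ≤ 2) (hd.hu2 _ _ _) (hd.hv2 _ _ _)
    show |iw (J (tm n l) w) (u (tm n l.tail) (ny (tm n l.tail) w) (Y w))
      (v (tm n l.tail) (nx (tm n l.tail) w) (X w))| ≤ 4
    linarith
  have hκ : ∀ w l, 0 ≤ κ w l := fun w l => sq_nonneg _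
  have hstep : ∀ w l, ¬ α w l → ¬ β' w l → T w l = T' w l := by
    intro w l h1 h2
    have h1' : lam (tm n l) (nx (tm n l) w) (X w) = lam (tm n l.tail) (nx (tm n l.tail) w) (X w) := not_not.1 h1
    have h2' : u (tm n l) (ny (tm n l) w) (Y w) = u (tm n l.tail) (ny (tm n l.tail) w) (Y w) := not_not.1 h2
    show iw (J (tm n l) w) (u (tm n l) (ny (tm n l) w) (Y w)) (v (tm n l) (nx (tm n l) w) (X w)) =
      iw (J (tm n l) w) (u (tm n l.tail) (ny (tm n l.tail) w) (Y w)) (v (tm n l.tail) (nx (tm n l.tail) w) (X w))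
    rw [h2', hvψ _ (tm_le n l), hvψ _ (tm_le n l.tail), h1']
  -- drift
  have hdrift : ∀ t < n, ∀ g : Om → List Unit → ℝ, Kn I g →
      |EU P (t + 1) (fun w l => g w l.tail * (T' w l - T w l.tail))| ≤
      1 / 20 * EU P (t + 1) (fun w l => |g w l.tail| * (T' w l - T w l.tail) ^ 2) +
        46 * EU P t (fun w l => |g w l| * κ w l) := by
    intro t ht g hg
    set δ : Om → ℝ := fun w => iw (dl t w) (u t (ny t w) (Y w)) (v t (nx t w) (X w)) with hδ
    set G : Om → ℝ := fun w => g w (List.replicate (t + 1) ()) with hG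
    have hdiff : ∀ w, T' w (List.replicate (t + 1 + 1) ()) - T w (List.replicate (t + 1 + 1) ()).tail =
        D t w * δ w := by
      intro w
      show iw (J (tm n (List.replicate (t + 1 + 1) ())) w)
        (u (tm n (List.replicate (t + 1 + 1) ()).tail) (ny (tm n (List.replicate (t + 1 + 1) ()).tail) w) (Y w))
        (v (tm n (List.replicate (t + 1 + 1) ()).tail) (nx (tm n (List.replicate (t + 1 + 1) ()).tail) w) (X w)) -
        TT X Y nx ny J u v (tm n (List.replicate (t + 1 + 1) ()).tail) w = _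
      rw [rep_tail, tm_rep (by omega : t + 1 ≤ n), tm_rep ht.le]
      unfold TT
      rw [hδ]
      simp only
      unfold iw
      rw [← Finset.sum_sub_distrib, Finset.mul_sum]
      refine Finset.sum_congr rfl fun c _ => ?_
      rw [hV.Jstep t ht w c]
      ring
    have hfac : Fac (fun w => (Y w, Q t w, record X ox ck kx B t w)) (fun w => G w * δ w) := by
      intro w w' h
      have h2 : Y w = Y w' := congrArg Prod.fst h
      have h3 : Q t w = Q t w' := congrArg (fun p => p.2.1) h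
      have h4 : rec' t w = rec' t w' := congrArg (fun p => p.2.2) h
      have e1 : G w = G w' := by
        refine hg w _ w' _ ?_
        show (List.replicate (t + 1) (), Y w, Q (tm n (List.replicate (t + 1) ())) w,
          rec' (tm n (List.replicate (t + 1) ())) w) = (List.replicate (t + 1) (), Y w',
          Q (tm n (List.replicate (t + 1) ())) w', rec' (tm n (List.replicate (t + 1) ())) w')
        rw [tm_rep ht.le, h2, h3, h4]
      have e2 : dl t w = dl t w' := hV.dlQ t w w' (Prod.ext h2 h3)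
      have e3 : δ w = δ w' := by
        show iw (dl t w) (u t (ny t w) (Y w)) (v t (nx t w) (X w)) =
          iw (dl t w') (u t (ny t w') (Y w')) (v t (nx t w') (X w'))
        rw [hvψ t ht.le, hvψ t ht.le, hlab ht.le w w' h2 h3 h4, hny t w w' h2 h3, e2, h2]
      show G w * δ w = G w' * δ w'
      rw [e1, e3]
    have e1 : EU P (t + 1) (fun w l => g w l.tail * (T' w l - T w l.tail)) =
        P.E (fun w => (G w * δ w) * D t w) := by
      unfold EU
      refine P.E_congr fun w _ => ?_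
      show g w (List.replicate (t + 1 + 1) ()).tail * (T' w (List.replicate (t + 1 + 1) ()) -
        T w (List.replicate (t + 1 + 1) ()).tail) = _
      rw [hdiff w, rep_tail, hG]
      ring
    have e2 : EU P (t + 1) (fun w l => |g w l.tail| * (T' w l - T w l.tail) ^ 2) =
        P.E (fun w => |G w| * δ w ^ 2) := by
      unfold EU
      refine P.E_congr fun w _ => ?_
      show |g w (List.replicate (t + 1 + 1) ()).tail| * (T' w (List.replicate (t + 1 + 1) ()) -
        T w (List.replicate (t + 1 + 1) ()).tail) ^ 2 = _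
      rw [hdiff w, rep_tail, hG, mul_pow]
      have : D t w ^ 2 = 1 := by rcases hV.Dpm t w with h | h <;> rw [h] <;> norm_num
      rw [this, one_mul]
    have e3 : EU P t (fun w l => |g w l| * κ w l) = P.E (fun w => |G w| * bs t w ^ 2) := by
      unfold EU
      refine P.E_congr fun w _ => ?_
      show |g w (List.replicate (t + 1) ())| * bs (tm n (List.replicate (t + 1) ())) w ^ 2 = _
      rw [tm_rep ht.le]
    rw [e1, e2, e3, drift hV B ht hfac]
    refine (P.abs_E_le _).trans ?_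
    rw [← P.E_smul, ← P.E_smul, ← P.E_add]
    refine P.E_mono fun w _ => ?_
    show |G w * δ w * bs t w| ≤ _
    rw [abs_mul, abs_mul]
    have h0 := abs_nonneg (G w)
    have h1 : |δ w| * |bs t w| ≤ 1 / 20 * δ w ^ 2 + 46 * bs t w ^ 2 := by
      have h2 := sq_nonneg (|δ w| - 10 * |bs t w|)
      have h3 := sq_abs (δ w)
      have h4 := sq_abs (bs t w)
      nlinarith [sq_nonneg (bs t w)]
    have h5 := mul_le_mul_of_nonneg_left h1 h0
    linarith
  have key := osc_marks (E := EU P) (I := I) (T := T) (T' := T') (α := α) (β := β') (κ := κ) (EU_isEx P) hIl hI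
    hd.hr0 hd.hr1 hT hT' hα hβ hT4 hT4' hκ hstep n hdrift
  -- payments
  set cn : ℕ → ℝ := fun t => P.E (fun w => cnt (B (t + 1) (nx (t + 1) w) (cx (t + 1) (X w))) (X w)) with hcn
  set mv : ℕ → ℝ := fun t => P.Pr (fun w => u (t + 1) (ny (t + 1) w) (Y w) ≠ u t (ny t w) (Y w)) with hmv
  have hε := hd.hε
  let ob : ℕ → Om → Prop := fun t w => ∃ i, ∃ S ∈ B (t + 1) (ox (t + 1) i w) (cx (t + 1) (X w)), X w ∈ S
  have hobfac : ∀ t, Fac (fun w => (X w, Q (t + 1) w)) (fun w => ind (ob t w)) := by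
    intro t w w' h
    have h2 : X w = X w' := congrArg Prod.fst h
    have h3 : Q (t + 1) w = Q (t + 1) w' := congrArg Prod.snd h
    have h4 := hV.QR (t + 1) w w' h3
    have h5 : ∀ i, ox (t + 1) i w = ox (t + 1) i w' := fun i => hV.oxR (t + 1) i w w' h4
    have h6 : ob t w = ob t w' := by
      show (∃ i, ∃ S ∈ B (t + 1) (ox (t + 1) i w) (cx (t + 1) (X w)), X w ∈ S) =
        (∃ i, ∃ S ∈ B (t + 1) (ox (t + 1) i w') (cx (t + 1) (X w')), X w' ∈ S)
      simp only [h2, h5]
    show ind (ob t w) = ind (ob t w')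
    rw [h6]
  have hαob : ∀ t < n, ∀ w, α w (List.replicate (t + 1 + 1) ()) → ob t w := by
    intro t ht w h
    have h' : lam (tm n (List.replicate (t + 1 + 1) ())) (nx (tm n (List.replicate (t + 1 + 1) ())) w) (X w) ≠
      lam (tm n (List.replicate (t + 1 + 1) ()).tail) (nx (tm n (List.replicate (t + 1 + 1) ()).tail) w) (X w) := h
    rw [rep_tail, tm_rep (by omega : t + 1 ≤ n), tm_rep ht.le] at h'
    obtain ⟨i, hi, -⟩ := hV.opt (t + 1) w
    by_contra hno
    refine h' (hd.hlam.stay t ht w (X w) fun S hS hx => hno ⟨i, S, ?_, hx⟩)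
    rw [← hi]
    exact hS
  have hobpr : ∀ t, P.Pr (ob t) ≤ 4 * cn t := fun t => opt_births_pr hV B (t + 1)
  have hcn0 : ∀ t, 0 ≤ cn t := fun t => P.E_nonneg fun w _ => cnt_nonneg _ _
  have hmv0 : ∀ t, 0 ≤ mv t := fun t => P.Pr_nonneg _
  have p0 : ∀ t < n, EU P t (fun w l => ind (r < |T w l|) * κ w l) ≤ 2 * ε * P.E (fun w => bs t w ^ 2) := by
    intro t ht
    have h1 := rare_y hV hε hd.hr hd.hu2 hd.hv2 hd.hu ht.le (h := fun w => bs t w ^ 2) (fun w => sq_nonneg _)
      (fun w w' h => by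
        have h2 : X w = X w' := congrArg Prod.fst h
        have h3 : Q t w = Q t w' := congrArg Prod.snd h
        have h4 := record_fac hV B t w w' h
        show bs t w ^ 2 = bs t w' ^ 2
        have h5 : bs t w = bs t w' := P.ce_fac (fun w => (record X ox ck kx B t w, Q t w)) (D t) w w'
          (Prod.ext h4 h3)
        rw [h5])
    refine le_trans (le_of_eq ?_) h1
    unfold EU
    refine P.E_congr fun w _ => ?_
    show ind (r < |TT X Y nx ny J u v (tm n (List.replicate (t + 1) ())) w|) *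
      bs (tm n (List.replicate (t + 1) ())) w ^ 2 = _
    rw [tm_rep ht.le, mul_comm]
  have p1 : ∀ t < n, EU P (t + 1) (fun w l => ind (α w l ∧ r < |T w l.tail|)) ≤ 8 * ε * (4 * cn t) := by
    intro t ht
    have h1 := rare_y_child hV hε hd.hr hd.hu2 hd.hv2 hd.hu ht (h := fun w => ind (ob t w))
      (fun w => ind_nonneg _) (hobfac t)
    refine le_trans ?_ (h1.trans (mul_le_mul_of_nonneg_left (hobpr t) (by positivity)))
    unfold EU
    refine P.E_mono fun w _ => ?_
    rw [← ind_and]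
    refine ind_mono ?_
    rintro ⟨h2, h3⟩
    refine ⟨hαob t ht w h2, ?_⟩
    have h3' : r < |TT X Y nx ny J u v (tm n (List.replicate (t + 1 + 1) ()).tail) w| := h3
    rw [rep_tail, tm_rep ht.le] at h3'
    exact h3'
  have p2 : ∀ t < n, EU P (t + 1) (fun w l => ind (α w l ∧ r < |T w l|)) ≤ 2 * ε * (4 * cn t) := by
    intro t ht
    have h1 := rare_y hV hε hd.hr hd.hu2 hd.hv2 hd.hu (by omega : t + 1 ≤ n) (h := fun w => ind (ob t w))
      (fun w => ind_nonneg _) (hobfac t)
    refine le_trans ?_ (h1.trans (mul_le_mul_of_nonneg_left (hobpr t) (by positivity)))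
    unfold EU
    refine P.E_mono fun w _ => ?_
    rw [← ind_and]
    refine ind_mono ?_
    rintro ⟨h2, h3⟩
    refine ⟨hαob t ht w h2, ?_⟩
    have h3' : r < |TT X Y nx ny J u v (tm n (List.replicate (t + 1 + 1) ())) w| := h3
    rw [tm_rep (by omega : t + 1 ≤ n)] at h3'
    exact h3'
  have hyn : ∀ t, Fac (fun w => (Y w, ny (t + 1) w)) (fun w => (Y w, ny t w)) := fun t w w' h => by
    have h2 : Y w = Y w' := congrArg Prod.fst h
    have h3 : ny (t + 1) w = ny (t + 1) w' := congrArg Prod.snd h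
    exact Prod.ext h2 (hV.nyy t w w' h3)
  have hβfac : ∀ t, ∀ w w', (Y w, ny (t + 1) w) = (Y w', ny (t + 1) w') →
      ((u (t + 1) (ny (t + 1) w) (Y w) ≠ u t (ny t w) (Y w)) ↔
        (u (t + 1) (ny (t + 1) w') (Y w') ≠ u t (ny t w') (Y w'))) := by
    intro t w w' h
    have h2 : Y w = Y w' := congrArg Prod.fst h
    have h3 : ny (t + 1) w = ny (t + 1) w' := congrArg Prod.snd h
    have h4 := hV.nyy t w w' h3
    rw [h2, h3, h4]
  have p3 : ∀ t < n, EU P (t + 1) (fun w l => ind (β' w l ∧ ¬ α w l ∧ r < |T' w l|)) ≤ 3 * ε * mv t := by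
    intro t ht
    have h1 := rare_x hV hε hd.hr hd.hv2 hd.hv (by omega : t + 1 ≤ n) (hβfac t)
      (f := fun w => u t (ny t w) (Y w)) (fun w w' h => by
        have h2 := hyn t w w' h
        have h3 : Y w = Y w' := congrArg Prod.fst h2
        have h4 : ny t w = ny t w' := congrArg Prod.snd h2
        show u t (ny t w) (Y w) = u t (ny t w') (Y w')
        rw [h3, h4]) (fun w => hd.hu2 _ _ _)
    refine le_trans ?_ h1
    unfold EU FP.Pr
    refine P.E_mono fun w _ => ind_mono ?_
    rintro ⟨h2, h3, h4⟩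
    have h2' : u (tm n (List.replicate (t + 1 + 1) ())) (ny (tm n (List.replicate (t + 1 + 1) ())) w) (Y w) ≠
      u (tm n (List.replicate (t + 1 + 1) ()).tail) (ny (tm n (List.replicate (t + 1 + 1) ()).tail) w) (Y w) := h2
    have h3' : lam (tm n (List.replicate (t + 1 + 1) ())) (nx (tm n (List.replicate (t + 1 + 1) ())) w) (X w) =
      lam (tm n (List.replicate (t + 1 + 1) ()).tail) (nx (tm n (List.replicate (t + 1 + 1) ()).tail) w) (X w) :=
      not_not.1 h3
    have h4' : r < |iw (J (tm n (List.replicate (t + 1 + 1) ())) w)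
      (u (tm n (List.replicate (t + 1 + 1) ()).tail) (ny (tm n (List.replicate (t + 1 + 1) ()).tail) w) (Y w))
      (v (tm n (List.replicate (t + 1 + 1) ()).tail) (nx (tm n (List.replicate (t + 1 + 1) ()).tail) w) (X w))| := h4
    rw [rep_tail, tm_rep (by omega : t + 1 ≤ n), tm_rep ht.le] at h2' h3' h4'
    refine ⟨h2', ?_⟩
    rw [hvψ (t + 1) (by omega), h3', ← hvψ t ht.le]
    exact h4'
  have p4 : ∀ t < n, EU P (t + 1) (fun w l => ind (β' w l ∧ r < |T w l|)) ≤ 3 * ε * mv t := by
    intro t ht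
    have h1 := rare_x hV hε hd.hr hd.hv2 hd.hv (by omega : t + 1 ≤ n) (hβfac t)
      (f := fun w => u (t + 1) (ny (t + 1) w) (Y w)) (fun w w' h => by
        have h3 : Y w = Y w' := congrArg Prod.fst h
        have h4 : ny (t + 1) w = ny (t + 1) w' := congrArg Prod.snd h
        show u (t + 1) (ny (t + 1) w) (Y w) = u (t + 1) (ny (t + 1) w') (Y w')
        rw [h3, h4]) (fun w => hd.hu2 _ _ _)
    refine le_trans ?_ h1
    unfold EU FP.Pr
    refine P.E_mono fun w _ => ind_mono ?_
    rintro ⟨h2, h4⟩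
    have h2' : u (tm n (List.replicate (t + 1 + 1) ())) (ny (tm n (List.replicate (t + 1 + 1) ())) w) (Y w) ≠
      u (tm n (List.replicate (t + 1 + 1) ()).tail) (ny (tm n (List.replicate (t + 1 + 1) ()).tail) w) (Y w) := h2
    have h4' : r < |TT X Y nx ny J u v (tm n (List.replicate (t + 1 + 1) ())) w| := h4
    rw [rep_tail, tm_rep (by omega : t + 1 ≤ n), tm_rep ht.le] at h2'
    rw [tm_rep (by omega : t + 1 ≤ n)] at h4'
    exact ⟨h2', h4'⟩
  have hYm : P.Pr (fun w => u n (ny n w) (Y w) ≠ 0) ≤ ∑ t ∈ range n, mv t := by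
    have h1 : ∀ N, P.Pr (fun w => u N (ny N w) (Y w) ≠ 0) ≤ ∑ t ∈ range N, mv t := by
      intro N
      induction N with
      | zero =>
        rw [Finset.range_zero, Finset.sum_empty]
        have : P.Pr (fun w => u 0 (ny 0 w) (Y w) ≠ 0) = P.E (fun _ => 0) := by
          unfold FP.Pr
          refine P.E_congr fun w _ => ind_not ?_
          rw [not_not]
          funext c
          exact hd.hu0 w (Y w) c
        rw [this, P.E_const]
      | succ N ih =>
        rw [Finset.sum_range_succ]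
        refine le_trans ?_ (add_le_add ih le_rfl)
        refine le_trans (P.Pr_mono ?_) (P.Pr_or_le _ _)
        intro w _ h
        by_cases h0 : u N (ny N w) (Y w) = 0
        · right
          rw [h0]
          exact h
        · exact Or.inl h0
    exact h1 n
  have p5 : EU P n (fun w l => ind (r < |T w l|)) ≤ 3 * ε * ∑ t ∈ range n, mv t := by
    have h1 := rare_x hV hε hd.hr hd.hv2 hd.hv (le_refl n) (β := fun w => u n (ny n w) (Y w) ≠ 0)
      (fun w w' h => by
        have h3 : Y w = Y w' := congrArg Prod.fst h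
        have h4 : ny n w = ny n w' := congrArg Prod.snd h
        rw [h3, h4])
      (f := fun w => u n (ny n w) (Y w)) (fun w w' h => by
        have h3 : Y w = Y w' := congrArg Prod.fst h
        have h4 : ny n w = ny n w' := congrArg Prod.snd h
        show u n (ny n w) (Y w) = u n (ny n w') (Y w')
        rw [h3, h4]) (fun w => hd.hu2 _ _ _)
    refine le_trans ?_ (h1.trans (mul_le_mul_of_nonneg_left hYm (by positivity)))
    unfold EU FP.Pr
    refine P.E_mono fun w _ => ind_mono ?_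
    intro h2
    have h2' : r < |TT X Y nx ny J u v (tm n (List.replicate (n + 1) ())) w| := h2
    rw [tm_rep (le_refl n)] at h2'
    refine ⟨?_, h2'⟩
    intro h0
    have h3 : TT X Y nx ny J u v n w = 0 := by
      unfold TT
      rw [h0]
      unfold iw
      refine Finset.sum_eq_zero fun c _ => ?_
      simp
    rw [h3, abs_zero] at h2'
    exact absurd h2' (not_lt.2 hd.hr0.le)
  -- the event
  have hev : P.Pr (fun w => ∃ t ≤ n, 24 * r < |TT X Y nx ny J u v t w|) ≤
      ∑ t ∈ range n, EU P (t + 1) (fun w l => ind (Mk r T T' α β' w l)) := by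
    have h1 := P.Pr_ex_le (range n) (fun s w => Mk r T T' α β' w (List.replicate (s + 1 + 1) ()))
    refine le_trans (P.Pr_mono ?_) h1
    rintro w _ ⟨t, ht, h24⟩
    by_contra hno
    push Not at hno
    have h2 := stretch (T := T) (T' := T') (α := α) (β := β') (x := w) hd.hr0 hstep (l := [()]) (by simp)
      (List.replicate t ()) (by
        intro j hj
        rw [List.length_replicate] at hj
        have h3 : (List.replicate t () ++ [()]).drop j = List.replicate (t - j - 1 + 1 + 1) () := by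
          have h4 : List.replicate t () ++ [()] = List.replicate (t + 1) () := by
            rw [List.replicate_succ']
          rw [h4, List.drop_replicate]
          congr 1
          omega
        rw [h3]
        exact hno (t - j - 1) (Finset.mem_range.2 (by omega)))
    have h5 : List.replicate t () ++ [()] = List.replicate (t + 1) () := by rw [List.replicate_succ']
    rw [h5] at h2
    have h6 : T w (List.replicate (t + 1) ()) = TT X Y nx ny J u v t w := by
      show TT X Y nx ny J u v (tm n (List.replicate (t + 1) ())) w = _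
      rw [tm_rep ht]
    have h7 : T w [()] = 0 := by
      show TT X Y nx ny J u v (tm n [()]) w = 0
      have h8 : tm n [()] = 0 := by
        unfold tm
        simp
      rw [h8]
      unfold TT iw
      refine Finset.sum_eq_zero fun c _ => ?_
      rw [hd.hu0]
      ring
    rw [h6, h7, sub_zero] at h2
    linarith
  refine hev.trans (key.trans ?_)
  have hr2 : 0 < r ^ 2 := pow_pos hd.hr0 2
  have hinfo := info hV B hq hq1
  have hsum : (∑ t ∈ range n, (EU P t (fun w l => ind (r < |T w l|) * κ w l) +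
        EU P (t + 1) (fun w l => ind (α w l ∧ r < |T w l.tail|)) +
        EU P (t + 1) (fun w l => ind (α w l ∧ r < |T w l|)) +
        EU P (t + 1) (fun w l => ind (β' w l ∧ ¬ α w l ∧ r < |T' w l|)) +
        EU P (t + 1) (fun w l => ind (β' w l ∧ r < |T w l|))) + EU P n (fun w l => ind (r < |T w l|))) ≤
      ε * (16 * (1 + Real.log (1 / q)) * births P X n nx cx B +
        16 * q * (Fintype.card K : ℝ) * births' P X n nx cx B + 40 * births P X n nx cx B +
        9 * moves P Y n ny u) := by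
    have e0 : ∑ t ∈ range n, (EU P t (fun w l => ind (r < |T w l|) * κ w l) +
        EU P (t + 1) (fun w l => ind (α w l ∧ r < |T w l.tail|)) +
        EU P (t + 1) (fun w l => ind (α w l ∧ r < |T w l|)) +
        EU P (t + 1) (fun w l => ind (β' w l ∧ ¬ α w l ∧ r < |T' w l|)) +
        EU P (t + 1) (fun w l => ind (β' w l ∧ r < |T w l|))) ≤
        ∑ t ∈ range n, (2 * ε * P.E (fun w => bs t w ^ 2) + 8 * ε * (4 * cn t) + 2 * ε * (4 * cn t) +
          3 * ε * mv t + 3 * ε * mv t) := by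
      refine Finset.sum_le_sum fun t ht => ?_
      have ht' := Finset.mem_range.1 ht
      exact add_le_add (add_le_add (add_le_add (add_le_add (p0 t ht') (p1 t ht')) (p2 t ht')) (p3 t ht')) (p4 t ht')
    have e1 : ∑ t ∈ range n, (2 * ε * P.E (fun w => bs t w ^ 2) + 8 * ε * (4 * cn t) + 2 * ε * (4 * cn t) +
          3 * ε * mv t + 3 * ε * mv t) =
        2 * ε * ∑ t ∈ range n, P.E (fun w => bs t w ^ 2) + 40 * ε * ∑ t ∈ range n, cn t +
          6 * ε * ∑ t ∈ range n, mv t := by
      rw [Finset.mul_sum, Finset.mul_sum, Finset.mul_sum, ← Finset.sum_add_distrib, ← Finset.sum_add_distrib]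
      refine Finset.sum_congr rfl fun t _ => ?_
      ring
    have e2 : births P X n nx cx B = ∑ t ∈ range n, cn t := rfl
    have e3 : moves P Y n ny u = ∑ t ∈ range n, mv t := rfl
    rw [← e2, ← e3] at e1
    rw [← e3] at p5
    have e4 := mul_le_mul_of_nonneg_left hinfo (by positivity : (0 : ℝ) ≤ 2 * ε)
    have e5 : ∑ t ∈ range n, P.E (fun w => bs t w ^ 2) =
      ∑ t ∈ range n, P.E (fun w => bias P X Q D ox ck kx B t w ^ 2) := rfl
    rw [e5] at e1
    rw [e1] at e0
    refine (add_le_add e0 p5).trans ?_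
    linarith
  calc 500 / r ^ 2 * _ ≤ 500 / r ^ 2 * (ε * (16 * (1 + Real.log (1 / q)) * births P X n nx cx B +
        16 * q * (Fintype.card K : ℝ) * births' P X n nx cx B + 40 * births P X n nx cx B +
        9 * moves P Y n ny u)) := mul_le_mul_of_nonneg_left hsum (by positivity)
    _ = _ := by
      rw [mul_div_assoc, mul_comm (500 : ℝ) (ε / r ^ 2), div_mul_eq_mul_div]
      ring

end Pool.Agent.M3.TS
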