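import Pool.Agent.M3.TSPay
import Pool.Agent.M3.Rec

/-!
# M3 TSEnt: the record and its information (row 2M (2a)), abstract (helper93)

From `FP.rec_bias`, `FP.Hc_fam_le`, `FP.Hc_event_le` (Rec.lean): for every `q > 0`
`Hc 1_s Q ≤ P(s) (1 + log (1/q)) + q P(C)`.
-/

set_option autoImplicit false

namespace Pool.Agent.M3.TS

open Finset Pool.Agent.PWZ

set_option linter.unusedSectionVars false

variable {Om 𝒳 𝒴 V Γx Γy κx κy K : Type*} [Fintype Om] [Fintype 𝒳] [Fintype 𝒴] [Fintype V]
  {P : FP Om} {X : Om → 𝒳} {Y : Om → 𝒴} {n : ℕ} {nx : ℕ → Om → Γx} {ny : ℕ → Om → Γy}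
  {cx : ℕ → 𝒳 → κx} {cy : ℕ → 𝒴 → κy} {ρx : ℕ → Γx → V → ℝ} {ρy : ℕ → Γy → V → ℝ}
  {J : ℕ → Om → V → ℝ} {near : ℝ} {κQ κR : Type*} {Q : ℕ → Om → κQ} {R : ℕ → Om → κR} {D : ℕ → Om → ℝ}
  {dl : ℕ → Om → V → ℝ} {ox : ℕ → Bool → Om → Γx} {oy : ℕ → Bool → Om → Γy} {ck : ℕ → K → Om → κx}
  {kx : ℕ → Om → K}

theorem record_filt (B : ℕ → Γx → κx → List (Finset 𝒳)) (t : ℕ) :
    Fac (record X ox ck kx B (t + 1)) (record X ox ck kx B t) := by
  intro v w h
  funext s idx
  have h1 : (s < t + 1 ∧ rbit X ox ck kx B (s + 1) idx v) = (s < t + 1 ∧ rbit X ox ck kx B (s + 1) idx w) :=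
    congrFun (congrFun h s) idx
  show (s < t ∧ rbit X ox ck kx B (s + 1) idx v) = (s < t ∧ rbit X ox ck kx B (s + 1) idx w)
  by_cases hs : s < t
  · have h2 : s < t + 1 := by omega
    simp only [h2, true_and] at h1
    rw [h1]
  · simp only [hs, false_and]

/-- one bit of the record is a function of `(X, R t)` -/
theorem rbit_iff (hV : View P X Y n nx ny cx cy ρx ρy J near Q R D dl ox oy ck kx)
    (B : ℕ → Γx → κx → List (Finset 𝒳)) {t : ℕ} {v w : Om} (hX : X v = X w) (hR : R t v = R t w)
    (idx : K × Bool × ℕ) : rbit X ox ck kx B t idx v ↔ rbit X ox ck kx B t idx w := by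
  unfold rbit
  rw [hV.kxX t v w (show (X v, R t v) = (X w, R t w) by rw [hX, hR]), hV.oxR t idx.2.1 v w hR,
    hV.ckR t idx.1 v w hR, hX]

theorem Rfac (hV : View P X Y n nx ny cx cy ρx ρy J near Q R D dl ox oy ck kx) {s t : ℕ} (h : s ≤ t) :
    Fac (Q t) (R s) := by
  have h1 : Filt Q := hV.QQ
  exact (h1.le h).trans (hV.QR s)

/-- the record is a function of `(X, Q t)` -/
theorem record_fac (hV : View P X Y n nx ny cx cy ρx ρy J near Q R D dl ox oy ck kx)
    (B : ℕ → Γx → κx → List (Finset 𝒳)) (t : ℕ) :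
    Fac (fun w => (X w, Q t w)) (record X ox ck kx B t) := by
  intro v w h
  rw [Prod.mk.injEq] at h
  funext s idx
  show (s < t ∧ rbit X ox ck kx B (s + 1) idx v) = (s < t ∧ rbit X ox ck kx B (s + 1) idx w)
  by_cases hs : s < t
  · simp only [hs, true_and]
    exact propext (rbit_iff hV B h.1 (Rfac hV (by omega : s + 1 ≤ t) v w h.2) idx)
  · simp only [hs, false_and]

/-- the labels are functions of `(Y, Q t, record)` -/
theorem record_label (hV : View P X Y n nx ny cx cy ρx ρy J near Q R D dl ox oy ck kx)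
    (B : ℕ → Γx → κx → List (Finset 𝒳)) {β : Type*} (lam : ℕ → Γx → 𝒳 → β) (hlam : LMeas n nx cx B lam)
    {t : ℕ} (ht : t ≤ n) :
    Fac (fun w => (Y w, Q t w, record X ox ck kx B t w)) (fun w => lam t (nx t w) (X w)) := by
  induction t with
  | zero => exact fun v w _ => hlam.zero v w (X v) (X w)
  | succ t ih =>
    intro v w h
    simp only [Prod.mk.injEq] at h
    obtain ⟨hY, hQ, hN⟩ := h
    have hQ' : Q t v = Q t w := hV.QQ t v w hQ
    have hN' : record X ox ck kx B t v = record X ox ck kx B t w := record_filt B t v w hN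
    have ih' : lam t (nx t v) (X v) = lam t (nx t w) (X w) :=
      ih (by omega) v w (by simp only [Prod.mk.injEq]; exact ⟨hY, hQ', hN'⟩)
    have hg : nx (t + 1) v = nx (t + 1) w := hV.nxQ (t + 1) v w (by simp only [Prod.mk.injEq]; exact ⟨hY, hQ⟩)
    have hg' : nx t v = nx t w := hV.nxQ t v w (by simp only [Prod.mk.injEq]; exact ⟨hY, hQ'⟩)
    have hR : R (t + 1) v = R (t + 1) w := hV.QR (t + 1) v w hQ
    have hbit : ∀ idx, rbit X ox ck kx B (t + 1) idx v ↔ rbit X ox ck kx B (t + 1) idx w := by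
      intro idx
      have h1 : (t < t + 1 ∧ rbit X ox ck kx B (t + 1) idx v) = (t < t + 1 ∧ rbit X ox ck kx B (t + 1) idx w) :=
        congrFun (congrFun hN t) idx
      have h2 : t < t + 1 := by omega
      simp only [h2, true_and] at h1
      rw [h1]
    -- a birth of one of the two points
    have key : ∀ v w : Om, Y v = Y w → R (t + 1) v = R (t + 1) w → nx (t + 1) v = nx (t + 1) w →
        (∀ idx, rbit X ox ck kx B (t + 1) idx v ↔ rbit X ox ck kx B (t + 1) idx w) →
        (∃ S ∈ B (t + 1) (nx (t + 1) w) (cx (t + 1) (X w)), X w ∈ S) →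
        cx (t + 1) (X v) = cx (t + 1) (X w) ∧
          Same (B (t + 1) (nx (t + 1) w) (cx (t + 1) (X w))) (X w) (X v) := by
      intro v w hY hR hg hbit hS
      obtain ⟨i, hi, -⟩ := hV.opt (t + 1) w
      have hi' : nx (t + 1) v = ox (t + 1) i v := by
        rw [hg, hi, hV.oxR (t + 1) i v w hR]
      -- the bits of the true cell
      have b1 : ∀ (j : ℕ) (S : Finset 𝒳), (B (t + 1) (nx (t + 1) w) (cx (t + 1) (X w)))[j]? = some S →
          (X w ∈ S ↔ rbit X ox ck kx B (t + 1) (kx (t + 1) w, i, j) w) := by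
        intro j S hj
        unfold rbit
        simp only [true_and]
        rw [← hi, hV.ckx]
        constructor
        · exact fun h => ⟨S, hj, h⟩
        · rintro ⟨S', h1, h2⟩
          rw [hj] at h1
          rwa [Option.some.inj h1]
      obtain ⟨S, hS, hXS⟩ := hS
      obtain ⟨j, hj, hjS⟩ := List.mem_iff_getElem.1 hS
      have hj? : (B (t + 1) (nx (t + 1) w) (cx (t + 1) (X w)))[j]? = some S := by
        rw [List.getElem?_eq_getElem hj, hjS]
      have b2 := (b1 j S hj?).1 hXS
      have b3 := (hbit _).2 b2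
      have hk : kx (t + 1) v = kx (t + 1) w := b3.1
      have hc : cx (t + 1) (X v) = cx (t + 1) (X w) := by
        rw [← hV.ckx (t + 1) v, ← hV.ckx (t + 1) w, hk]
        exact hV.ckR (t + 1) _ v w hR
      refine ⟨hc, fun S' hS' => ?_⟩
      obtain ⟨j', hj', hjS'⟩ := List.mem_iff_getElem.1 hS'
      have hj? : (B (t + 1) (nx (t + 1) w) (cx (t + 1) (X w)))[j']? = some S' := by
        rw [List.getElem?_eq_getElem hj', hjS']
      rw [b1 j' S' hj?, ← hbit]
      unfold rbit
      rw [hk]
      simp only [true_and]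
      rw [hV.ckR (t + 1) (kx (t + 1) w) v w hR, hV.ckx, ← hi', hg]
      constructor
      · rintro ⟨S'', h1, h2⟩
        rw [hj?] at h1
        rwa [Option.some.inj h1]
      · exact fun h => ⟨S', hj?, h⟩
    show lam (t + 1) (nx (t + 1) v) (X v) = lam (t + 1) (nx (t + 1) w) (X w)
    by_cases hw : ∃ S ∈ B (t + 1) (nx (t + 1) w) (cx (t + 1) (X w)), X w ∈ S
    · obtain ⟨hc, hs⟩ := key v w hY hR hg hbit hw
      rw [hg]
      exact (hlam.same t (by omega) w (X w) (X v) hc.symm (by rw [← hg', ih', hg']) hs).symm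
    · by_cases hv : ∃ S ∈ B (t + 1) (nx (t + 1) v) (cx (t + 1) (X v)), X v ∈ S
      · exfalso
        obtain ⟨hc, hs⟩ := key w v hY.symm hR.symm hg.symm (fun idx => (hbit idx).symm) hv
        obtain ⟨S, hS, hXS⟩ := hv
        refine hw ⟨S, ?_, (hs S hS).1 hXS⟩
        rw [← hg, hc]
        exact hS
      · rw [hlam.stay t (by omega) w (X w) fun S hS h1 => hw ⟨S, hS, h1⟩,
          hlam.stay t (by omega) v (X v) fun S hS h1 => hv ⟨S, hS, h1⟩]
        exact ih'

/-- the bias of the digit given the public information and the record -/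
noncomputable def bias (P : FP Om) (X : Om → 𝒳) (Q : ℕ → Om → κQ) (D : ℕ → Om → ℝ) (ox : ℕ → Bool → Om → Γx)
    (ck : ℕ → K → Om → κx) (kx : ℕ → Om → K) (B : ℕ → Γx → κx → List (Finset 𝒳)) (t : ℕ) (w : Om) : ℝ :=
  P.ce (fun w => (record X ox ck kx B t w, Q t w)) (D t) w

theorem sum_getElem (L : List (Finset 𝒳)) (x : 𝒳) {M : ℕ} (hM : L.length ≤ M) :
    ∑ j ∈ range M, ind (∃ S, L[j]? = some S ∧ x ∈ S) = cnt L x := by
  unfold cnt
  induction L generalizing M with
  | nil =>
    simp only [List.getElem?_nil, List.map_nil, List.sum_nil]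
    exact Finset.sum_eq_zero fun j _ => ind_not (by simp)
  | cons S L ih =>
    obtain ⟨M, rfl⟩ : ∃ M', M = M' + 1 := ⟨M - 1, by rw [List.length_cons] at hM; omega⟩
    rw [Finset.sum_range_succ']
    simp only [List.getElem?_cons_succ, List.getElem?_cons_zero, List.map_cons, List.sum_cons]
    rw [ih (by rw [List.length_cons] at hM; omega), add_comm]
    congr 1
    by_cases h : x ∈ S
    · rw [ind_of h, ind_of ⟨S, rfl, h⟩]
    · rw [ind_not h, ind_not]
      rintro ⟨S', h1, h2⟩
      rw [Option.some.inj h1] at h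
      exact h h2

theorem sum_lt (l M : ℕ) (h : l ≤ M) : ∑ j ∈ range M, ind (j < l) = (l : ℝ) := by
  induction M generalizing l with
  | zero => simp [Nat.le_zero.1 h]
  | succ M ih =>
    rw [Finset.sum_range_succ]
    rcases Nat.lt_or_ge M l with h1 | h1
    · have h2 : l = M + 1 := by omega
      subst h2
      rw [ind_of h1]
      have h3 : ∑ j ∈ range M, ind (j < M + 1) = ∑ j ∈ range M, ind (j < M) :=
        Finset.sum_congr rfl fun j hj => by
          rw [Finset.mem_range] at hj
          rw [ind_of hj, ind_of (by omega)]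
      rw [h3, ih M le_rfl]
      push_cast
      ring
    · rw [ind_not (by omega), add_zero]
      exact ih l h1

/-- the information in the record -/
theorem info (hV : View P X Y n nx ny cx cy ρx ρy J near Q R D dl ox oy ck kx) [Fintype K]
    (B : ℕ → Γx → κx → List (Finset 𝒳)) {q : ℝ} (hq : 0 < q) (hq1 : q ≤ 1) :
    ∑ t ∈ range n, P.E (fun w => bias P X Q D ox ck kx B t w ^ 2) ≤
      8 * (1 + Real.log (1 / q)) * births P X n nx cx B +
        8 * q * (Fintype.card K : ℝ) * births' P X n nx cx B := by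
  classical
  have hl : 0 ≤ Real.log (1 / q) := Real.log_nonneg (by rw [le_div_iff₀ hq]; linarith)
  have h1 := P.rec_bias Q (record X ox ck kx B) D hV.QQ hV.DQ (fun t w _ => hV.Dpm t w) n
  have h2 : ∑ t ∈ range n, P.E (fun w => (P.ce (fun v => (record X ox ck kx B t v, Q t v)) (D t) w -
      P.ce (Q t) (D t) w) ^ 2) = ∑ t ∈ range n, P.E (fun w => bias P X Q D ox ck kx B t w ^ 2) := by
    refine Finset.sum_congr rfl fun t ht => P.E_congr fun w _ => ?_
    rw [hV.Dfair t (Finset.mem_range.1 ht) w, sub_zero]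
    rfl
  rw [h2] at h1
  -- no record at the start
  have h3 : P.Hc (record X ox ck kx B 0) (Q 0) = 0 := by
    have e : record X ox ck kx B 0 = fun _ => (fun (_ : ℕ) (_ : K × Bool × ℕ) => False) := by
      funext w s idx
      show (s < 0 ∧ rbit X ox ck kx B (s + 1) idx w) = False
      simp
    rw [e]
    unfold FP.Hc
    rw [P.H_congr (Y := Q 0) (Fac.snd _ _) ((Fac.const (Q 0) _).prod (Fac.refl _)), sub_self]
  rw [h3, zero_add] at h1
  -- one step
  have h4 : ∀ t, P.Hc (record X ox ck kx B (t + 1)) (fun w => (record X ox ck kx B t w, Q (t + 1) w)) ≤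
      4 * (1 + Real.log (1 / q)) * P.E (fun w => cnt (B (t + 1) (nx (t + 1) w) (cx (t + 1) (X w))) (X w)) +
        4 * q * (Fintype.card K : ℝ) * P.E (fun w => ((B (t + 1) (nx (t + 1) w) (cx (t + 1) (X w))).length : ℝ)) := by
    intro t
    obtain ⟨M, hM⟩ : ∃ M : ℕ, ∀ (w : Om) (i : Bool) (k : K), (B (t + 1) (ox (t + 1) i w) (ck (t + 1) k w)).length ≤ M := by
      refine ⟨univ.sup fun z : Om × Bool × K => (B (t + 1) (ox (t + 1) z.2.1 z.1) (ck (t + 1) z.2.2 z.1)).length,
        fun w i k => ?_⟩
      exact Finset.le_sup (f := fun z : Om × Bool × K => (B (t + 1) (ox (t + 1) z.2.1 z.1) (ck (t + 1) z.2.2 z.1)).length)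
        (Finset.mem_univ (w, i, k))
    set I : Finset (K × Bool × ℕ) := univ ×ˢ (univ ×ˢ range M) with hI
    set s : K × Bool × ℕ → Om → Prop := fun idx w => rbit X ox ck kx B (t + 1) idx w with hs
    set C : K × Bool × ℕ → Om → Prop := fun idx w =>
      idx.2.2 < (B (t + 1) (ox (t + 1) idx.2.1 w) (ck (t + 1) idx.1 w)).length with hC
    have hCQ : ∀ idx, ∀ v w, Q (t + 1) v = Q (t + 1) w → (C idx v ↔ C idx w) := by
      intro idx v w h
      have hR := hV.QR (t + 1) v w h
      simp only [hC]
      rw [hV.oxR (t + 1) _ v w hR, hV.ckR (t + 1) _ v w hR]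
    have hsC : ∀ idx w, s idx w → C idx w := by
      rintro ⟨k, i, j⟩ w ⟨-, S, h5, -⟩
      exact (List.getElem?_eq_some_iff.1 h5).1
    have hN : Fac (fun w => ((fun idx : I => s idx w), (record X ox ck kx B t w, Q (t + 1) w)))
        (record X ox ck kx B (t + 1)) := by
      intro v w h
      simp only [Prod.mk.injEq] at h
      obtain ⟨h5, h6, -⟩ := h
      funext r idx
      show (r < t + 1 ∧ rbit X ox ck kx B (r + 1) idx v) = (r < t + 1 ∧ rbit X ox ck kx B (r + 1) idx w)
      rcases Nat.lt_trichotomy r t with h7 | h7 | h7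
      · have h8 : (r < t ∧ rbit X ox ck kx B (r + 1) idx v) = (r < t ∧ rbit X ox ck kx B (r + 1) idx w) :=
          congrFun (congrFun h6 r) idx
        simp only [h7, true_and] at h8
        have h9 : r < t + 1 := by omega
        simp only [h9, true_and]
        exact h8
      · subst h7
        by_cases h10 : idx ∈ I
        · have h8 : s idx v = s idx w := congrFun h5 ⟨idx, h10⟩
          have h9 : r < r + 1 := by omega
          simp only [h9, true_and]
          exact h8
        · have h11 : ∀ u, ¬ rbit X ox ck kx B (r + 1) idx u := by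
            intro u hu
            have h12 := hsC idx u hu
            refine h10 ?_
            rw [hI]
            simp only [Finset.mem_product, Finset.mem_univ, true_and, Finset.mem_range]
            exact lt_of_lt_of_le h12 (hM u _ _)
          simp only [h11, and_false]
      · have h9 : ¬ r < t + 1 := by omega
        simp only [h9, false_and]
    have h5 : P.Hc (record X ox ck kx B (t + 1)) (fun w => (record X ox ck kx B t w, Q (t + 1) w)) ≤
        ∑ idx ∈ I, (P.Pr (s idx) * (1 + Real.log (1 / q)) + q * P.Pr (C idx)) := by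
      refine (P.Hc_mono _ hN).trans ?_
      refine (P.Hc_anti _ (Z := Q (t + 1)) (Fac.snd _ _)).trans ?_
      refine (P.Hc_fam_le I (X := fun i w => s i w) (Q (t + 1))).trans ?_
      exact Finset.sum_le_sum fun idx _ => P.Hc_event_q (hCQ idx) (fun w _ => hsC idx w) hq
    rw [Finset.sum_add_distrib, ← Finset.sum_mul, ← Finset.mul_sum] at h5
    -- the births of X at the options
    have h6 : ∑ idx ∈ I, P.Pr (s idx) ≤
        4 * P.E (fun w => cnt (B (t + 1) (nx (t + 1) w) (cx (t + 1) (X w))) (X w)) := by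
      unfold FP.Pr
      rw [← P.E_sum]
      have e : ∀ w, ∑ idx ∈ I, ind (s idx w) = ∑ i : Bool, cnt (B (t + 1) (ox (t + 1) i w) (cx (t + 1) (X w))) (X w) := by
        intro w
        rw [hI, Finset.sum_product, Finset.sum_eq_single (kx (t + 1) w)]
        · rw [Finset.sum_product]
          refine Finset.sum_congr rfl fun i _ => ?_
          rw [← sum_getElem _ (X w) (M := M) (by rw [← hV.ckx]; exact hM w i _)]
          refine Finset.sum_congr rfl fun j _ => ?_
          congr 1
          simp only [hs, rbit, true_and]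
          rw [hV.ckx]
        · intro k _ hk
          exact Finset.sum_eq_zero fun z _ => ind_not fun h => hk h.1.symm
        · exact fun h => absurd (Finset.mem_univ _) h
      simp only [e]
      rw [P.E_sum]
      have h7 := opt_births hV B (t + 1) true
      have h8 := opt_births hV B (t + 1) false
      rw [Fintype.sum_bool]
      linarith
    have h7 : ∑ idx ∈ I, P.Pr (C idx) ≤ 4 * (Fintype.card K : ℝ) *
        P.E (fun w => ((B (t + 1) (nx (t + 1) w) (cx (t + 1) (X w))).length : ℝ)) := by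
      have e : ∀ (k : K) (i : Bool), ∑ j ∈ range M, P.Pr (C (k, i, j)) =
          P.E (fun w => ((B (t + 1) (ox (t + 1) i w) (ck (t + 1) k w)).length : ℝ)) := by
        intro k i
        unfold FP.Pr
        rw [← P.E_sum]
        refine P.E_congr fun w _ => ?_
        exact sum_lt _ _ (hM w i k)
      rw [hI, Finset.sum_product]
      have e2 : ∀ k : K, ∑ z ∈ (univ : Finset Bool) ×ˢ range M, P.Pr (C (k, z)) ≤
          4 * P.E (fun w => ((B (t + 1) (nx (t + 1) w) (cx (t + 1) (X w))).length : ℝ)) := by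
        intro k
        rw [Finset.sum_product, Fintype.sum_bool]
        have e3 := e k true
        have e4 := e k false
        have h8 := cell_births hV B (t + 1) true k
        have h9 := cell_births hV B (t + 1) false k
        linarith
      refine (Finset.sum_le_sum fun k _ => e2 k).trans ?_
      rw [Finset.sum_const, nsmul_eq_mul, Finset.card_univ]
      apply le_of_eq
      ring
    have h8 := mul_le_mul_of_nonneg_right h6 (show 0 ≤ 1 + Real.log (1 / q) by linarith)
    have h9 := mul_le_mul_of_nonneg_left h7 hq.le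
    linarith
  have h5 := Finset.sum_le_sum fun t (_ : t ∈ range n) => h4 t
  rw [Finset.sum_add_distrib, ← Finset.mul_sum, ← Finset.mul_sum] at h5
  unfold births births'
  linarith

/-- the digit is unbiased given `Y` as well: `E h D = E h bias` -/
theorem drift (hV : View P X Y n nx ny cx cy ρx ρy J near Q R D dl ox oy ck kx)
    (B : ℕ → Γx → κx → List (Finset 𝒳)) {t : ℕ} (ht : t < n) {h : Om → ℝ}
    (hh : Fac (fun w => (Y w, Q t w, record X ox ck kx B t w)) h) :
    P.E (fun w => h w * D t w) = P.E (fun w => h w * bias P X Q D ox ck kx B t w) := by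
  classical
  set N := record X ox ck kx B t with hN
  have hNf : Fac (fun w => (X w, Q t w)) N := record_fac hV B t
  -- h as a function
  obtain ⟨G, hG⟩ : ∃ G : 𝒴 → κQ → (ℕ → K × Bool × ℕ → Prop) → ℝ, ∀ w, h w = G (Y w) (Q t w) (N w) := by
    refine ⟨fun y c r => if hex : ∃ w, Y w = y ∧ Q t w = c ∧ N w = r then h hex.choose else 0, fun w => ?_⟩
    have hex : ∃ w', Y w' = Y w ∧ Q t w' = Q t w ∧ N w' = N w := ⟨w, rfl, rfl, rfl⟩
    simp only [dif_pos hex]
    refine (hh _ _ ?_).symm
    simp only [Prod.mk.injEq]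
    exact hex.choose_spec
  set hb : Om → ℝ := fun w => (∑ y ∈ cel (cy t) (cy t (Y w)), G y (Q t w) (N w)) /
    ((cel (cy t) (cy t (Y w))).card : ℝ) with hhb
  have hbf : Fac (fun w => (N w, Q t w)) hb := by
    intro v w h1
    simp only [Prod.mk.injEq] at h1
    have hcy : cy t (Y v) = cy t (Y w) := hV.Qcy t v w h1.2
    simp only [hhb]
    rw [hcy, h1.1, h1.2]
  have hce : ∀ w, P.ce (fun w => (X w, Q t w)) h w = hb w := by
    intro w
    have e : P.ce (fun w => (X w, Q t w)) h w = P.ce (fun w => (X w, Q t w)) (fun v => G (Y v) (Q t w) (N w)) w := by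
      unfold FP.ce
      congr 1
      refine P.E_congr fun v _ => ?_
      by_cases h1 : (X v, Q t v) = (X w, Q t w)
      · have h2 := hNf v w h1
        rw [Prod.mk.injEq] at h1
        rw [hG v, h1.2, h2]
      · rw [ind_not h1, zero_mul, zero_mul]
    rw [e]
    exact hV.Yunif t ht.le w fun y => G y (Q t w) (N w)
  have hswap : ∀ g : Om → ℝ, Fac (fun w => (X w, Q t w)) g → P.E (fun w => h w * g w) = P.E (fun w => hb w * g w) := by
    intro g hg
    have h1 := P.E_mul_ce hg h
    have e1 : P.E (fun w => g w * P.ce (fun w => (X w, Q t w)) h w) = P.E (fun w => hb w * g w) :=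
      P.E_congr fun w _ => by rw [hce w]; ring
    have e2 : P.E (fun w => g w * h w) = P.E (fun w => h w * g w) := P.E_congr fun w _ => by ring
    rw [← e1, ← e2, h1]
  rw [hswap (D t) (hV.DX t)]
  have hbias : Fac (fun w => (X w, Q t w)) (fun w => bias P X Q D ox ck kx B t w) := by
    have h1 : Fac (fun w => (N w, Q t w)) (fun w => bias P X Q D ox ck kx B t w) :=
      P.ce_fac (fun w => (record X ox ck kx B t w, Q t w)) (D t)
    exact (hNf.prod (Fac.snd _ _)).trans h1
  rw [hswap _ hbias]
  exact (P.E_mul_ce hbf (D t)).symm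

end Pool.Agent.M3.TS
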