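import Pool.Agent.M3.TSCore
import Pool.Agent.M3.TSNames

/-!
# M3 TSLayA: preparations for the layers (row 2M (3)) (helper39)

`HasView`; transfer of uniformity to the next rounding, sums, number of moves, `prod_bound` = one product of a layer.
-/

set_option autoImplicit false
set_option linter.unusedSectionVars false

namespace Pool.Agent.M3.TS

open Finset Pool.Agent.PWZ

/-- there is a view (with at most `Kc` compatible cells) -/
def HasView {Om 𝒳 𝒴 V Γx Γy κx κy : Type} [Fintype Om] [Fintype 𝒳] [Fintype 𝒴] [Fintype V]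
    (P : FP Om) (X : Om → 𝒳) (Y : Om → 𝒴) (n : ℕ) (nx : ℕ → Om → Γx) (ny : ℕ → Om → Γy)
    (cx : ℕ → 𝒳 → κx) (cy : ℕ → 𝒴 → κy) (ρx : ℕ → Γx → V → ℝ) (ρy : ℕ → Γy → V → ℝ)
    (J : ℕ → Om → V → ℝ) (near Kc : ℝ) : Prop :=
  ∃ (κQ κR K : Type) (_ : Fintype K) (Q : ℕ → Om → κQ) (R : ℕ → Om → κR) (D : ℕ → Om → ℝ) (dl : ℕ → Om → V → ℝ)
    (ox : ℕ → Bool → Om → Γx) (oy : ℕ → Bool → Om → Γy) (ck : ℕ → K → Om → κx) (kx : ℕ → Om → K),
    View P X Y n nx ny cx cy ρx ρy J near Q R D dl ox oy ck kx ∧ (Fintype.card K : ℝ) ≤ Kc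

section HF

variable {Om 𝒳 V Γ Γ' κ κ' : Type*} [Fintype 𝒳] [Fintype V] {n : ℕ} {nd : ℕ → Om → Γ} {cl : ℕ → 𝒳 → κ}
  {ρ : ℕ → Γ → V → ℝ} {nd' : ℕ → Om → Γ'} {cl' : ℕ → 𝒳 → κ'} {ρ' : ℕ → Γ' → V → ℝ}

theorem HF.mono {u : ℕ → Γ → 𝒳 → V → ℝ} {r r' ε ε' : ℝ} (h : HF n nd cl ρ u r ε) (hr : r ≤ r') (hε : ε ≤ ε') :
    HF n nd cl ρ u r' ε' := by
  intro t ht w k f hf
  refine le_trans (Finset.sum_le_sum fun x _ => ind_mono fun h1 => lt_of_le_of_lt hr h1) ?_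
  exact (h t ht w k f hf).trans (mul_le_mul_of_nonneg_right hε (Nat.cast_nonneg _))

theorem HF.congr {u u' : ℕ → Γ → 𝒳 → V → ℝ} {r ε : ℝ} (h : HF n nd cl ρ u r ε)
    (huu : ∀ t ≤ n, ∀ w x, u t (nd t w) x = u' t (nd t w) x) : HF n nd cl ρ u' r ε := by
  intro t ht w k f hf
  have := h t ht w k f hf
  simp only [huu t ht w] at this
  exact this

theorem HF.sub {u u' : ℕ → Γ → 𝒳 → V → ℝ} {r r' ε ε' : ℝ} (h : HF n nd cl ρ u r ε) (h' : HF n nd cl ρ u' r' ε') :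
    HF n nd cl ρ (fun t g x c => u t g x c - u' t g x c) (r + r') (ε + ε') := by
  intro t ht w k f hf
  rw [add_mul]
  refine le_trans ?_ (add_le_add (h t ht w k f hf) (h' t ht w k f hf))
  rw [← Finset.sum_add_distrib]
  refine Finset.sum_le_sum fun x _ => le_trans (ind_mono ?_) (ind_or_le _ _)
  intro h1
  by_contra hno
  push Not at hno
  have h2 : iw (ρ t (nd t w)) (fun c => u t (nd t w) x c - u' t (nd t w) x c) f =
      iw (ρ t (nd t w)) (u t (nd t w) x) f - iw (ρ t (nd t w)) (u' t (nd t w) x) f := iw_sub_l _ _ _ _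
  rw [h2] at h1
  have h3 := abs_sub (iw (ρ t (nd t w)) (u t (nd t w) x) f) (iw (ρ t (nd t w)) (u' t (nd t w) x) f)
  linarith [hno.1, hno.2]

/-- transfer to a finer rounding -/
theorem HF.finer {u : ℕ → Γ → 𝒳 → V → ℝ} {r ε ν : ℝ} (h : HF n nd cl ρ u r ε) (hε : 0 ≤ ε)
    (hu2 : ∀ t g x c, |u t g x c| ≤ 2) (cr : ℕ → Γ' → Γ) (hcr : ∀ t w, cr t (nd' t w) = nd t w)
    (cc : ℕ → κ' → κ) (hcc : ∀ t x, cc t (cl' t x) = cl t x)
    (h16 : ∀ t x, ((cel (cl t) (cl t x)).card : ℝ) ≤ 16 * ((cel (cl' t) (cl' t x)).card : ℝ))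
    (hν : ∀ t ≤ n, ∀ w, ∀ f h : V → ℝ, (∀ c, |f c| ≤ 2) → (∀ c, |h c| ≤ 2) →
      |iw (ρ' t (nd' t w)) f h - iw (ρ t (nd t w)) f h| ≤ ν) :
    HF n nd' cl' ρ' (fun t g x => u t (cr t g) x) (r + ν) (16 * ε) := by
  intro t ht w k f hf
  rcases (cel (cl' t) k).eq_empty_or_nonempty with he | ⟨x0, hx0⟩
  · rw [he]
    simp
  have hk : cl' t x0 = k := mem_cel.1 hx0
  have h1 := h t ht w (cl t x0) f hf
  have h2 : ∑ x ∈ cel (cl' t) k, ind (r + ν < |iw (ρ' t (nd' t w)) (u t (cr t (nd' t w)) x) f|) ≤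
      ∑ x ∈ cel (cl t) (cl t x0), ind (r < |iw (ρ t (nd t w)) (u t (nd t w) x) f|) := by
    have hsub : cel (cl' t) k ⊆ cel (cl t) (cl t x0) := by
      intro x hx
      rw [mem_cel] at hx ⊢
      rw [← hcc t x, ← hcc t x0, hx, hk]
    refine le_trans (Finset.sum_le_sum fun x _ => ?_) (Finset.sum_le_sum_of_subset_of_nonneg hsub
      (f := fun x => ind (r < |iw (ρ t (nd t w)) (u t (nd t w) x) f|)) fun x _ _ => ind_nonneg _)
    refine ind_mono fun h3 => ?_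
    rw [hcr] at h3
    have h4 := hν t ht w (u t (nd t w) x) f (hu2 _ _ _) hf
    have h5 := abs_sub_abs_le_abs_sub (iw (ρ' t (nd' t w)) (u t (nd t w) x) f)
      (iw (ρ t (nd t w)) (u t (nd t w) x) f)
    linarith
  have h3 := h16 t x0
  rw [hk] at h3
  have h4 : ε * ((cel (cl t) (cl t x0)).card : ℝ) ≤ 16 * ε * ((cel (cl' t) k).card : ℝ) := by
    have := mul_le_mul_of_nonneg_left h3 hε
    linarith
  exact h2.trans (h1.trans h4)

end HF

section moves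

variable {Om 𝒳 V Γ Γ' κ : Type*} [Fintype Om] {P : FP Om} {X : Om → 𝒳} {n : ℕ} {nd : ℕ → Om → Γ} {cl : ℕ → 𝒳 → κ}
  {nd' : ℕ → Om → Γ'}

theorem moves_nonneg (P : FP Om) (X : Om → 𝒳) (n : ℕ) (nd : ℕ → Om → Γ) (u : ℕ → Γ → 𝒳 → V → ℝ) :
    0 ≤ moves P X n nd u := Finset.sum_nonneg fun _ _ => P.Pr_nonneg _

theorem births_nonneg (P : FP Om) (X : Om → 𝒳) (n : ℕ) (nd : ℕ → Om → Γ) (cl : ℕ → 𝒳 → κ)
    (B : ℕ → Γ → κ → List (Finset 𝒳)) : 0 ≤ births P X n nd cl B :=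
  Finset.sum_nonneg fun _ _ => P.E_nonneg fun _ _ => cnt_nonneg _ _

/-- the same family seen in another rounding -/
theorem moves_cr (u : ℕ → Γ → 𝒳 → V → ℝ) (cr : ℕ → Γ' → Γ) (hcr : ∀ t w, cr t (nd' t w) = nd t w) :
    moves P X n nd' (fun t g x => u t (cr t g) x) = moves P X n nd u := by
  unfold moves
  simp only [hcr]

theorem moves_sub_le (u u' : ℕ → Γ → 𝒳 → V → ℝ) :
    moves P X n nd (fun t g x c => u t g x c - u' t g x c) ≤ moves P X n nd u + moves P X n nd u' := by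
  unfold moves
  rw [← Finset.sum_add_distrib]
  refine Finset.sum_le_sum fun t _ => le_trans (P.Pr_mono ?_) (P.Pr_or_le _ _)
  intro w _ h
  by_contra hno
  push Not at hno
  refine h ?_
  funext c
  show u (t + 1) (nd (t + 1) w) (X w) c - u' (t + 1) (nd (t + 1) w) (X w) c =
    u t (nd t w) (X w) c - u' t (nd t w) (X w) c
  rw [hno.1, hno.2]

/-- labels move only at births -/
theorem moves_le_births {F : ℕ → Γ → 𝒳 → V → ℝ} {B : ℕ → Γ → κ → List (Finset 𝒳)} (h : LMeas n nd cl B F) :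
    moves P X n nd F ≤ births P X n nd cl B := by
  unfold moves births
  refine Finset.sum_le_sum fun t ht => ?_
  unfold FP.Pr
  refine P.E_mono fun w _ => ?_
  by_cases hm : F (t + 1) (nd (t + 1) w) (X w) ≠ F t (nd t w) (X w)
  · rw [ind_of hm]
    have h1 : ¬ ∀ S ∈ B (t + 1) (nd (t + 1) w) (cl (t + 1) (X w)), X w ∉ S := fun h2 =>
      hm (h.stay t (Finset.mem_range.1 ht) w (X w) h2)
    push Not at h1
    obtain ⟨S, hS, hx⟩ := h1
    have h2 : (1 : ℝ) ∈ (B (t + 1) (nd (t + 1) w) (cl (t + 1) (X w))).map (fun S => ind (X w ∈ S)) :=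
      List.mem_map.2 ⟨S, hS, ind_of hx⟩
    refine List.single_le_sum ?_ 1 h2
    intro y hy
    obtain ⟨S', _, rfl⟩ := List.mem_map.1 hy
    exact ind_nonneg _
  · rw [ind_not hm]
    exact cnt_nonneg _ _

end moves

/-! ### one product -/

section prod

variable {Om 𝒳 𝒴 V Γx Γy Γx' κx κx' κy : Type} [Fintype Om] [Fintype 𝒳] [Fintype 𝒴] [Fintype V]
  {P : FP Om} {X : Om → 𝒳} {Y : Om → 𝒴} {n : ℕ}
  {nx : ℕ → Om → Γx} {cx : ℕ → 𝒳 → κx} {ρx : ℕ → Γx → V → ℝ} {parx : ℕ → Γx → Γx}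
  {nx' : ℕ → Om → Γx'} {cx' : ℕ → 𝒳 → κx'} {ρx' : ℕ → Γx' → V → ℝ} {parx' : ℕ → Γx' → Γx'}
  {ny : ℕ → Om → Γy} {cy : ℕ → 𝒴 → κy} {ρy : ℕ → Γy → V → ℝ} {J : ℕ → Om → V → ℝ} {near Kc : ℝ}
  {cr : ℕ → Γx' → Γx} {cc : ℕ → κx' → κx}

/-- coarse and fine births together -/
def bcat (B : ℕ → Γx → κx → List (Finset 𝒳)) (B' : ℕ → Γx' → κx' → List (Finset 𝒳)) (cr : ℕ → Γx' → Γx)
    (cc : ℕ → κx' → κx) : ℕ → Γx' → κx' → List (Finset 𝒳) :=
  fun t g k => B t (cr t g) (cc t k) ++ B' t g k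

theorem births_bcat (hcr : ∀ t w, cr t (nx' t w) = nx t w) (hcc : ∀ t x, cc t (cx' t x) = cx t x)
    (B : ℕ → Γx → κx → List (Finset 𝒳)) (B' : ℕ → Γx' → κx' → List (Finset 𝒳)) :
    births P X n nx' cx' (bcat B B' cr cc) = births P X n nx cx B + births P X n nx' cx' B' := by
  unfold births bcat
  rw [← Finset.sum_add_distrib]
  refine Finset.sum_congr rfl fun t _ => ?_
  rw [← P.E_add]
  refine P.E_congr fun w _ => ?_
  rw [cnt_append, hcr, hcc]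

theorem births'_bcat (hcr : ∀ t w, cr t (nx' t w) = nx t w) (hcc : ∀ t x, cc t (cx' t x) = cx t x)
    (B : ℕ → Γx → κx → List (Finset 𝒳)) (B' : ℕ → Γx' → κx' → List (Finset 𝒳)) :
    births' P X n nx' cx' (bcat B B' cr cc) = births' P X n nx cx B + births' P X n nx' cx' B' := by
  unfold births' bcat
  rw [← Finset.sum_add_distrib]
  refine Finset.sum_congr rfl fun t _ => ?_
  rw [← P.E_add]
  refine P.E_congr fun w _ => ?_
  rw [List.length_append, hcr, hcc]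
  push_cast
  ring

theorem lmeas_bcat (hcr : ∀ t w, cr t (nx' t w) = nx t w) (hcc : ∀ t x, cc t (cx' t x) = cx t x)
    {B : ℕ → Γx → κx → List (Finset 𝒳)} {B' : ℕ → Γx' → κx' → List (Finset 𝒳)}
    {g : ℕ → Γx → 𝒳 → V → ℝ} {g' : ℕ → Γx' → 𝒳 → V → ℝ} (h : LMeas n nx cx B g) (h' : LMeas n nx' cx' B' g') :
    LMeas n nx' cx' (bcat B B' cr cc) (fun t γ x => (g t (cr t γ) x, g' t γ x)) where
  zero := by
    intro w w' x x'
    simp only [hcr]
    rw [h.zero w w' x x', h'.zero w w' x x']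
  stay := by
    intro t ht w x hS
    simp only [hcr]
    rw [h'.stay t ht w x fun S hS' => hS S (List.mem_append_right _ hS')]
    rw [h.stay t ht w x fun S hS' => hS S (List.mem_append_left _ (by rw [hcr, hcc]; exact hS'))]
  same := by
    intro t ht w x x' hc hl hS
    simp only [hcr] at hl ⊢
    have h1 : g t (nx t w) x = g t (nx t w) x' := congrArg Prod.fst hl
    have h2 : g' t (nx' t w) x = g' t (nx' t w) x' := congrArg Prod.snd hl
    rw [h'.same t ht w x x' hc h2 fun S hS' => hS S (List.mem_append_right _ hS')]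
    rw [h.same t ht w x x' (by rw [← hcc, ← hcc, hc]) h1
      fun S hS' => hS S (List.mem_append_left _ (by rw [hcr, hcc]; exact hS'))]

/-- **one product of a layer**: `A` moving, `g' - g` determined by births in two roundings -/
theorem prod_bound (hV : HasView P X Y n nx' ny cx' cy ρx' ρy J near Kc)
    (hS : Side P X n nx cx ρx parx) (hS' : Side P X n nx' cx' ρx' parx')
    (hcr : ∀ t w, cr t (nx' t w) = nx t w) (hcc : ∀ t x, cc t (cx' t x) = cx t x)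
    {B : ℕ → Γx → κx → List (Finset 𝒳)} {B' : ℕ → Γx' → κx' → List (Finset 𝒳)}
    {g : ℕ → Γx → 𝒳 → V → ℝ} {g' : ℕ → Γx' → 𝒳 → V → ℝ} (hg : LMeas n nx cx B g) (hg' : LMeas n nx' cx' B' g')
    {ε0 ε1 : ℝ} (hε1 : 0 < ε1) (hε01 : ε1 ≤ ε0) (hε11 : ε1 ≤ 1) (hKc : 1 ≤ Kc)
    (hB : ∀ t γ k, ∀ S ∈ B t γ k, S ⊆ cel (cx t) k ∧ ε0 * ((cel (cx t) k).card : ℝ) ≤ (S.card : ℝ))
    (hB' : ∀ t γ k, ∀ S ∈ B' t γ k, S ⊆ cel (cx' t) k ∧ ε1 * ((cel (cx' t) k).card : ℝ) ≤ (S.card : ℝ))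
    (hg1 : ∀ t γ x c, |g t γ x c| ≤ 1) (hg1' : ∀ t γ x c, |g' t γ x c| ≤ 1)
    {A : ℕ → Γy → 𝒴 → V → ℝ} (hA2 : ∀ t γ y c, |A t γ y c| ≤ 2) (hA0 : ∀ w y c, A 0 (ny 0 w) y c = 0)
    {r' r ε b m : ℝ} (hr0 : 0 < r) (hr1 : r ≤ 1) (hr : r' + near ≤ r) (hε : 0 ≤ ε)
    (hA : HF n ny cy ρy A r' ε)
    (hv : HF n nx' cx' ρx' (fun t γ x c => g' t γ x c - g t (cr t γ) x c) r' ε)
    (hb : births P X n nx cx B + births P X n nx' cx' B' ≤ b) (hm : moves P Y n ny A ≤ m) :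
    P.Pr (fun w => ∃ t ≤ n, 24 * r < |TT X Y nx' ny J A
      (fun t γ x c => g' t γ x c - g t (cr t γ) x c) t w|) ≤
      500 * ε / r ^ 2 * ((16 * Real.log (Kc / ε1) + 72) * b + 9 * m) := by
  obtain ⟨κQ, κR, K, hK, Q, R, D, dl, ox, oy, ck, kx, hV, hKK⟩ := hV
  have hq : 0 < ε1 / Kc := by positivity
  have hq1 : ε1 / Kc ≤ 1 := by
    rw [div_le_one (by linarith)]
    linarith
  have hd : CoreHyp n nx' ny cx' cy ρx' ρy near A (fun t γ x c => g' t γ x c - g t (cr t γ) x c)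
      (bcat B B' cr cc) (fun t γ x => (g t (cr t γ) x, g' t γ x)) (fun p c => p.2 c - p.1 c) r' r ε :=
    { hr0 := hr0
      hr1 := hr1
      hr := hr
      hε := hε
      hu2 := hA2
      hv2 := fun t γ x c => by
        have h1 := hg1 t (cr t γ) x c
        have h2 := hg1' t γ x c
        rw [abs_le] at h1 h2 ⊢
        constructor <;> linarith [h1.1, h1.2, h2.1, h2.2]
      hu := hA
      hv := hv
      hu0 := hA0
      hlam := lmeas_bcat hcr hcc hg hg'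
      hψ := fun t _ w x => rfl }
  have h1 := core_bound hV hd hq hq1
  refine h1.trans (mul_le_mul_of_nonneg_left ?_ (by positivity))
  rw [births_bcat hcr hcc, births'_bcat hcr hcc]
  set b0 := births P X n nx cx B with hb0
  set b1 := births P X n nx' cx' B' with hb1
  have hb00 : 0 ≤ b0 := births_nonneg _ _ _ _ _ _
  have hb10 : 0 ≤ b1 := births_nonneg _ _ _ _ _ _
  have e1 : births' P X n nx cx B ≤ b0 / ε1 := by
    have h2 := births'_le hS B (lt_of_lt_of_le hε1 hε01) hB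
    refine h2.trans ?_
    exact div_le_div_of_nonneg_left hb00 hε1 hε01
  have e2 : births' P X n nx' cx' B' ≤ b1 / ε1 := births'_le hS' B' hε1 hB'
  have e3 : 16 * (ε1 / Kc) * (Fintype.card K : ℝ) * (births' P X n nx cx B + births' P X n nx' cx' B') ≤
      16 * (b0 + b1) := by
    have h3 : (ε1 / Kc) * (Fintype.card K : ℝ) ≤ ε1 := by
      calc (ε1 / Kc) * (Fintype.card K : ℝ) ≤ (ε1 / Kc) * Kc := mul_le_mul_of_nonneg_left hKK hq.le
        _ = ε1 := by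
          have : Kc ≠ 0 := by linarith
          field_simp
    have h4 : births' P X n nx cx B + births' P X n nx' cx' B' ≤ (b0 + b1) / ε1 := by
      rw [add_div]
      exact add_le_add e1 e2
    have h5 : 0 ≤ (b0 + b1) / ε1 := by positivity
    calc 16 * (ε1 / Kc) * (Fintype.card K : ℝ) * (births' P X n nx cx B + births' P X n nx' cx' B')
        ≤ 16 * (ε1 / Kc) * (Fintype.card K : ℝ) * ((b0 + b1) / ε1) :=
          mul_le_mul_of_nonneg_left h4 (by positivity)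
      _ = 16 * ((ε1 / Kc) * (Fintype.card K : ℝ)) * ((b0 + b1) / ε1) := by ring
      _ ≤ 16 * ε1 * ((b0 + b1) / ε1) := by
          refine mul_le_mul_of_nonneg_right ?_ h5
          linarith
      _ = 16 * (b0 + b1) := by
          field_simp
  have hlog : 0 ≤ Real.log (Kc / ε1) := Real.log_nonneg (by
    rw [le_div_iff₀ hε1]
    linarith)
  rw [one_div_div]
  have e4 : 16 * (1 + Real.log (Kc / ε1)) * (b0 + b1) ≤ 16 * (1 + Real.log (Kc / ε1)) * b :=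
    mul_le_mul_of_nonneg_left hb (by positivity)
  nlinarith [e3, e4, hb, hm]

end prod

end Pool.Agent.M3.TS
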