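import Pool.Agent.M3.TSDefs

/-!
# M3 TSPay: the payments of row 2M (2b), abstract (reserved for helper89)

`avgY` : averages over `Y` in its small cell; `rare_y` : given `(X, Q t)`; `rare_y_child` : given `(X, Q (t+1))`;
`rare_x` : given `(Y, node)`; `opt_births` : births at the options.
-/

set_option autoImplicit false
set_option linter.unusedSectionVars false

namespace Pool.Agent.M3.TS

open Finset Pool.Agent.PWZ

variable {Om 𝒳 𝒴 V Γx Γy κx κy K : Type*} [Fintype Om] [Fintype 𝒳] [Fintype 𝒴] [Fintype V]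
  {P : FP Om} {X : Om → 𝒳} {Y : Om → 𝒴} {n : ℕ} {nx : ℕ → Om → Γx} {ny : ℕ → Om → Γy}
  {cx : ℕ → 𝒳 → κx} {cy : ℕ → 𝒴 → κy} {ρx : ℕ → Γx → V → ℝ} {ρy : ℕ → Γy → V → ℝ}
  {J : ℕ → Om → V → ℝ} {near : ℝ} {κQ κR : Type*} {Q : ℕ → Om → κQ} {R : ℕ → Om → κR} {D : ℕ → Om → ℝ}
  {dl : ℕ → Om → V → ℝ} {ox : ℕ → Bool → Om → Γx} {oy : ℕ → Bool → Om → Γy} {ck : ℕ → K → Om → κx}
  {kx : ℕ → Om → K}

/-! ### helpers -/

theorem pay_iw_comm (ρ f h : V → ℝ) : iw ρ f h = iw ρ h f := by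
  unfold iw
  exact Finset.sum_congr rfl (fun c _ => by ring)

/-- expectation of a function of `Z` as a sum over the values of `Z` -/
theorem pay_E_law (P : FP Om) {α : Type*} (Z : Om → α) (S : Finset α) (hS : ∀ w, Z w ∈ S) (φ : α → ℝ) :
    P.E (fun w => φ (Z w)) = ∑ a ∈ S, φ a * P.Pr (fun w => Z w = a) := by
  have h1 : ∀ w, φ (Z w) = ∑ a ∈ S, φ a * ind (Z w = a) := by
    intro w
    rw [Finset.sum_eq_single (Z w)]
    · rw [ind_of rfl, mul_one]
    · intro b _ hb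
      rw [ind_not (fun h => hb h.symm), mul_zero]
    · intro h
      exact absurd (hS w) h
  rw [P.E_congr (fun w _ => h1 w), P.E_sum]
  refine Finset.sum_congr rfl (fun a _ => ?_)
  rw [P.E_smul]
  rfl

/-- comparison of laws gives comparison of expectations -/
theorem pay_law_le (P : FP Om) {α : Type*} (Z1 Z2 : Om → α) {c : ℝ}
    (h : ∀ a, P.Pr (fun w => Z1 w = a) ≤ c * P.Pr (fun w => Z2 w = a)) {φ : α → ℝ} (hφ : ∀ a, 0 ≤ φ a) :
    P.E (fun w => φ (Z1 w)) ≤ c * P.E (fun w => φ (Z2 w)) := by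
  classical
  set S : Finset α := univ.image Z1 ∪ univ.image Z2 with hS
  rw [pay_E_law P Z1 S (fun w => Finset.mem_union_left _ (Finset.mem_image_of_mem _ (Finset.mem_univ w))) φ,
    pay_E_law P Z2 S (fun w => Finset.mem_union_right _ (Finset.mem_image_of_mem _ (Finset.mem_univ w))) φ,
    Finset.mul_sum]
  refine Finset.sum_le_sum (fun a _ => ?_)
  have h1 := mul_le_mul_of_nonneg_left (h a) (hφ a)
  linarith [h1]

theorem pay_cnt_nonneg (L : List (Finset 𝒳)) (x : 𝒳) : 0 ≤ cnt L x := by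
  unfold cnt
  induction L with
  | nil => simp
  | cons S L ih =>
    rw [List.map_cons, List.sum_cons]
    exact add_nonneg (ind_nonneg _) ih

theorem pay_ind_ex_le_cnt (L : List (Finset 𝒳)) (x : 𝒳) : ind (∃ S ∈ L, x ∈ S) ≤ cnt L x := by
  induction L with
  | nil =>
    unfold cnt
    rw [ind_not (by simp)]
    simp
  | cons S L ih =>
    have h0 : cnt (S :: L) x = ind (x ∈ S) + cnt L x := by
      unfold cnt
      rw [List.map_cons, List.sum_cons]
    rw [h0]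
    by_cases h : x ∈ S
    · rw [ind_of (p := x ∈ S) h]
      linarith [ind_le_one (∃ T ∈ S :: L, x ∈ T), pay_cnt_nonneg L x]
    · rw [ind_not (p := x ∈ S) h, zero_add]
      refine le_trans (ind_mono ?_) ih
      rintro ⟨T, hT, hx⟩
      rcases List.mem_cons.mp hT with h1 | h1
      · rw [h1] at hx
        exact absurd hx h
      · exact ⟨T, h1, hx⟩

/-- a mean over a cell -/
theorem pay_mean_le {s : Finset 𝒴} {f : 𝒴 → ℝ} {ε : ℝ} (hε : 0 ≤ ε) (h : ∑ y ∈ s, f y ≤ ε * (s.card : ℝ)) :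
    (∑ y ∈ s, f y) / (s.card : ℝ) ≤ ε := by
  rcases Nat.eq_zero_or_pos s.card with h0 | h0
  · rw [h0]
    simpa using hε
  · rw [div_le_iff₀ (by exact_mod_cast h0)]
    exact h

/-! ### the statements -/

/-- given `(X, Q t)`, `Y` may be averaged over its small cell -/
theorem avgY (hV : View P X Y n nx ny cx cy ρx ρy J near Q R D dl ox oy ck kx) {t : ℕ} (ht : t ≤ n) {κ : Type*}
    {S : Om → κ} (hS : Fac (fun w => (X w, Q t w)) S) {h : Om → ℝ} (hh : Fac (fun w => (X w, Q t w)) h)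
    (Φ : 𝒴 → κ → ℝ) :
    P.E (fun w => h w * Φ (Y w) (S w)) =
      P.E (fun w => h w * ((∑ y ∈ cel (cy t) (cy t (Y w)), Φ y (S w)) /
        ((cel (cy t) (cy t (Y w))).card : ℝ))) := by
  rw [← P.E_mul_ce hh (fun w => Φ (Y w) (S w))]
  refine P.E_congr (fun w _ => ?_)
  congr 1
  rw [← hV.Yunif t ht w (fun y => Φ y (S w))]
  unfold FP.ce
  congr 1
  refine P.E_congr (fun v _ => ?_)
  show ind ((X v, Q t v) = (X w, Q t w)) * Φ (Y v) (S v) = ind ((X v, Q t v) = (X w, Q t w)) * Φ (Y v) (S w)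
  by_cases hv : (X v, Q t v) = (X w, Q t w)
  · rw [hS v w hv]
  · rw [ind_not hv]
    ring

/-- the pointwise bound by the two options -/
theorem pay_split (hV : View P X Y n nx ny cx cy ρx ρy J near Q R D dl ox oy ck kx)
    {u : ℕ → Γy → 𝒴 → V → ℝ} {v : ℕ → Γx → 𝒳 → V → ℝ} {r' r : ℝ} (hr : r' + near ≤ r)
    (hu2 : ∀ t g y c, |u t g y c| ≤ 2) (hv2 : ∀ t g x c, |v t g x c| ≤ 2)
    {t : ℕ} (ht : t ≤ n) (w : Om) :
    ind (r < |TT X Y nx ny J u v t w|) ≤
      ∑ i : Bool, ind (r' < |iw (ρy t (oy t i w)) (u t (oy t i w) (Y w)) (v t (ox t i w) (X w))|) := by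
  by_cases h : r < |TT X Y nx ny J u v t w|
  · rw [ind_of h]
    obtain ⟨i, hi1, hi2⟩ := hV.opt t w
    have h1 := hV.Jnear t ht w (u t (ny t w) (Y w)) (v t (nx t w) (X w)) (hu2 t _ _) (hv2 t _ _)
    have h2 : r' < |iw (ρy t (ny t w)) (u t (ny t w) (Y w)) (v t (nx t w) (X w))| := by
      have h3 : |TT X Y nx ny J u v t w| ≤
          |iw (J t w) (u t (ny t w) (Y w)) (v t (nx t w) (X w)) -
            iw (ρy t (ny t w)) (u t (ny t w) (Y w)) (v t (nx t w) (X w))| +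
          |iw (ρy t (ny t w)) (u t (ny t w) (Y w)) (v t (nx t w) (X w))| := by
        have h4 := abs_add_le (iw (J t w) (u t (ny t w) (Y w)) (v t (nx t w) (X w)) -
            iw (ρy t (ny t w)) (u t (ny t w) (Y w)) (v t (nx t w) (X w)))
            (iw (ρy t (ny t w)) (u t (ny t w) (Y w)) (v t (nx t w) (X w)))
        rw [sub_add_cancel] at h4
        exact h4
      linarith
    rw [hi1, hi2] at h2
    rw [← ind_of h2]
    exact Finset.single_le_sum
      (f := fun i => ind (r' < |iw (ρy t (oy t i w)) (u t (oy t i w) (Y w)) (v t (ox t i w) (X w))|))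
      (fun j _ => ind_nonneg _) (Finset.mem_univ i)
  · rw [ind_not h]
    exact Finset.sum_nonneg (fun i _ => ind_nonneg _)

/-- the test of one option in one cell -/
theorem pay_cell (hV : View P X Y n nx ny cx cy ρx ρy J near Q R D dl ox oy ck kx)
    {u : ℕ → Γy → 𝒴 → V → ℝ} {v : ℕ → Γx → 𝒳 → V → ℝ} {r' ε : ℝ}
    (hv2 : ∀ t g x c, |v t g x c| ≤ 2) (hu : HF n ny cy ρy u r' ε) {t : ℕ} (ht : t ≤ n) (i : Bool) (w : Om)
    (k : κy) :
    ∑ y ∈ cel (cy t) k, ind (r' < |iw (ρy t (oy t i w)) (u t (oy t i w) y) (v t (ox t i w) (X w))|) ≤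
      ε * ((cel (cy t) k).card : ℝ) := by
  obtain ⟨w', _, h2⟩ := hV.oact t ht i w
  have h3 := hu t ht w' k (v t (ox t i w) (X w)) (hv2 t _ _)
  rw [h2] at h3
  exact h3

/-- `{|T_t| > r}` is rare given `(X, Q t)` -/
theorem rare_y (hV : View P X Y n nx ny cx cy ρx ρy J near Q R D dl ox oy ck kx)
    {u : ℕ → Γy → 𝒴 → V → ℝ} {v : ℕ → Γx → 𝒳 → V → ℝ} {r' r ε : ℝ} (hε : 0 ≤ ε) (hr : r' + near ≤ r)
    (hu2 : ∀ t g y c, |u t g y c| ≤ 2) (hv2 : ∀ t g x c, |v t g x c| ≤ 2) (hu : HF n ny cy ρy u r' ε)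
    {t : ℕ} (ht : t ≤ n) {h : Om → ℝ} (hh0 : ∀ w, 0 ≤ h w) (hh : Fac (fun w => (X w, Q t w)) h) :
    P.E (fun w => h w * ind (r < |TT X Y nx ny J u v t w|)) ≤ 2 * ε * P.E h := by
  have h1 : P.E (fun w => h w * ind (r < |TT X Y nx ny J u v t w|)) ≤
      P.E (fun w => ∑ i : Bool, h w *
        ind (r' < |iw (ρy t (oy t i w)) (u t (oy t i w) (Y w)) (v t (ox t i w) (X w))|)) := by
    refine P.E_mono (fun w _ => ?_)
    rw [← Finset.mul_sum]
    exact mul_le_mul_of_nonneg_left (pay_split hV hr hu2 hv2 ht w) (hh0 w)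
  refine h1.trans ?_
  rw [P.E_sum]
  have h2 : ∀ i : Bool, P.E (fun w => h w *
        ind (r' < |iw (ρy t (oy t i w)) (u t (oy t i w) (Y w)) (v t (ox t i w) (X w))|)) ≤ ε * P.E h := by
    intro i
    have hS : Fac (fun w => (X w, Q t w)) (fun w => (oy t i w, v t (ox t i w) (X w))) := by
      intro a b hab
      have hX : X a = X b := (Prod.mk.injEq _ _ _ _ ▸ hab : _ ∧ _).1
      have hQ : Q t a = Q t b := (Prod.mk.injEq _ _ _ _ ▸ hab : _ ∧ _).2
      have hR := hV.QR t a b hQ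
      show (oy t i a, v t (ox t i a) (X a)) = (oy t i b, v t (ox t i b) (X b))
      rw [hV.oyR t i a b hR, hV.oxR t i a b hR, hX]
    have h3 := avgY hV ht hS hh (fun y s => ind (r' < |iw (ρy t s.1) (u t s.1 y) s.2|))
    refine (le_of_eq h3).trans ?_
    rw [← P.E_smul]
    refine P.E_mono (fun w _ => ?_)
    rw [mul_comm ε]
    exact mul_le_mul_of_nonneg_left (pay_mean_le hε (pay_cell hV hv2 hu ht i w _)) (hh0 w)
  have h4 := Finset.sum_le_sum (fun i (_ : i ∈ (univ : Finset Bool)) => h2 i)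
  refine h4.trans (le_of_eq ?_)
  rw [Finset.sum_const, Finset.card_univ, Fintype.card_bool, nsmul_eq_mul]
  push_cast
  ring

/-- `{|T_t| > r}` is rare given `(X, Q (t+1))` -/
theorem rare_y_child (hV : View P X Y n nx ny cx cy ρx ρy J near Q R D dl ox oy ck kx)
    {u : ℕ → Γy → 𝒴 → V → ℝ} {v : ℕ → Γx → 𝒳 → V → ℝ} {r' r ε : ℝ} (hε : 0 ≤ ε) (hr : r' + near ≤ r)
    (hu2 : ∀ t g y c, |u t g y c| ≤ 2) (hv2 : ∀ t g x c, |v t g x c| ≤ 2) (hu : HF n ny cy ρy u r' ε)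
    {t : ℕ} (ht : t < n) {h : Om → ℝ} (hh0 : ∀ w, 0 ≤ h w) (hh : Fac (fun w => (X w, Q (t + 1) w)) h) :
    P.E (fun w => h w * ind (r < |TT X Y nx ny J u v t w|)) ≤ 8 * ε * P.E h := by
  have h1 : P.E (fun w => h w * ind (r < |TT X Y nx ny J u v t w|)) ≤
      P.E (fun w => ∑ i : Bool, h w *
        ind (r' < |iw (ρy t (oy t i w)) (u t (oy t i w) (Y w)) (v t (ox t i w) (X w))|)) := by
    refine P.E_mono (fun w _ => ?_)
    rw [← Finset.mul_sum]
    exact mul_le_mul_of_nonneg_left (pay_split hV hr hu2 hv2 ht.le w) (hh0 w)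
  refine h1.trans ?_
  rw [P.E_sum]
  have h2 : ∀ i : Bool, P.E (fun w => h w *
        ind (r' < |iw (ρy t (oy t i w)) (u t (oy t i w) (Y w)) (v t (ox t i w) (X w))|)) ≤
      4 * ε * P.E h := by
    intro i
    have hS : Fac (fun w => (X w, Q (t + 1) w)) (fun w => (oy t i w, v t (ox t i w) (X w))) := by
      intro a b hab
      have hX : X a = X b := (Prod.mk.injEq _ _ _ _ ▸ hab : _ ∧ _).1
      have hQ : Q (t + 1) a = Q (t + 1) b := (Prod.mk.injEq _ _ _ _ ▸ hab : _ ∧ _).2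
      have hR := hV.QR t a b (hV.QQ t a b hQ)
      show (oy t i a, v t (ox t i a) (X a)) = (oy t i b, v t (ox t i b) (X b))
      rw [hV.oyR t i a b hR, hV.oxR t i a b hR, hX]
    have h3 := avgY hV (Nat.succ_le_of_lt ht) hS hh (fun y s => ind (r' < |iw (ρy t s.1) (u t s.1 y) s.2|))
    refine (le_of_eq h3).trans ?_
    rw [← P.E_smul]
    refine P.E_mono (fun w _ => ?_)
    rw [mul_comm (4 * ε)]
    refine mul_le_mul_of_nonneg_left (pay_mean_le (by linarith) ?_) (hh0 w)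
    have hsub : cel (cy (t + 1)) (cy (t + 1) (Y w)) ⊆ cel (cy t) (cy t (Y w)) := by
      intro y hy
      rw [mem_cel] at hy ⊢
      exact hV.cyn t y (Y w) hy
    refine (Finset.sum_le_sum_of_subset_of_nonneg hsub (fun y _ _ => ind_nonneg _)).trans ?_
    refine (pay_cell hV hv2 hu ht.le i w _).trans ?_
    have h4 := mul_le_mul_of_nonneg_left (hV.cy4 t ht (Y w)) hε
    linarith
  have h4 := Finset.sum_le_sum (fun i (_ : i ∈ (univ : Finset Bool)) => h2 i)
  refine h4.trans (le_of_eq ?_)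
  rw [Finset.sum_const, Finset.card_univ, Fintype.card_bool, nsmul_eq_mul]
  push_cast
  ring

/-- any test known from `(Y, node)` is rare -/
theorem rare_x (hV : View P X Y n nx ny cx cy ρx ρy J near Q R D dl ox oy ck kx)
    {v : ℕ → Γx → 𝒳 → V → ℝ} {r' r ε : ℝ} (hε : 0 ≤ ε) (hr : r' + near ≤ r)
    (hv2 : ∀ t g x c, |v t g x c| ≤ 2) (hv : HF n nx cx ρx v r' ε)
    {t : ℕ} (ht : t ≤ n) {β : Om → Prop} (hβ : ∀ w w', (Y w, ny t w) = (Y w', ny t w') → (β w ↔ β w'))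
    {f : Om → V → ℝ} (hf : Fac (fun w => (Y w, ny t w)) f) (hf2 : ∀ w c, |f w c| ≤ 2) :
    P.Pr (fun w => β w ∧ r < |iw (J t w) (f w) (v t (nx t w) (X w))|) ≤ 3 * ε * P.Pr β := by
  have hind : ∀ a b : Prop, ind (a ∧ b) = ind a * ind b := by
    intro a b
    by_cases ha : a
    · by_cases hb : b
      · rw [ind_of ⟨ha, hb⟩, ind_of ha, ind_of hb, mul_one]
      · rw [ind_not (fun h => hb h.2), ind_not hb, mul_zero]
    · rw [ind_not (fun h => ha h.1), ind_not ha, zero_mul]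
  have h1 : P.Pr (fun w => β w ∧ r < |iw (J t w) (f w) (v t (nx t w) (X w))|) ≤
      P.E (fun w => ind (β w) * ind (r' < |iw (ρx t (nx t w)) (v t (nx t w) (X w)) (f w)|)) := by
    unfold FP.Pr
    refine P.E_mono (fun w _ => ?_)
    rw [← hind]
    refine ind_mono (fun hw => ⟨hw.1, ?_⟩)
    have h2 := hV.Jnear t ht w (f w) (v t (nx t w) (X w)) (hf2 w) (hv2 t _ _)
    rw [← hV.ρxy t w] at h2
    have h4 := abs_add_le (iw (J t w) (f w) (v t (nx t w) (X w)) -
        iw (ρx t (nx t w)) (f w) (v t (nx t w) (X w)))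
        (iw (ρx t (nx t w)) (f w) (v t (nx t w) (X w)))
    rw [sub_add_cancel] at h4
    rw [pay_iw_comm]
    linarith [hw.2]
  refine h1.trans ?_
  have hβ' : Fac (fun w => (Y w, ny t w)) (fun w => ind (β w)) := Fac.ind (fun a b hab => hβ a b hab)
  rw [← P.E_mul_ce hβ']
  unfold FP.Pr
  rw [← P.E_smul]
  refine P.E_mono (fun w hw => ?_)
  rw [mul_comm (3 * ε)]
  refine mul_le_mul_of_nonneg_left ?_ (ind_nonneg _)
  unfold FP.ce
  rw [div_le_iff₀ (P.m_pos _ hw)]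
  have h5 := hV.fresh t ht (Y w) (ny t w)
    (fun x => r' < |iw (ρx t (nx t w)) (v t (nx t w) x) (f w)|) ε hε
    (fun k => hv t ht w k (f w) (hf2 w))
  refine le_trans (P.E_mono (fun a _ => ?_)) (h5.trans (le_of_eq ?_))
  · show ind ((Y a, ny t a) = (Y w, ny t w)) * ind (r' < |iw (ρx t (nx t a)) (v t (nx t a) (X a)) (f a)|) ≤
      ind (Y a = Y w ∧ ny t a = ny t w ∧ r' < |iw (ρx t (nx t w)) (v t (nx t w) (X a)) (f w)|)
    rw [← hind]
    refine ind_mono (fun ha => ?_)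
    have hnx : nx t a = nx t w := hV.nxy t a w ha.1
    have hfa : f a = f w := hf a w ha.1
    have h6 := ha.2
    rw [hnx, hfa] at h6
    exact ⟨(Prod.mk.injEq _ _ _ _ ▸ ha.1 : _ ∧ _).1, (Prod.mk.injEq _ _ _ _ ▸ ha.1 : _ ∧ _).2, h6⟩
  · congr 1
    unfold FP.Pr FP.m
    refine P.E_congr (fun a _ => ?_)
    congr 1
    exact propext ⟨fun h => Prod.ext h.1 h.2, fun h =>
      ⟨(Prod.mk.injEq _ _ _ _ ▸ h : _ ∧ _).1, (Prod.mk.injEq _ _ _ _ ▸ h : _ ∧ _).2⟩⟩

/-- births at the options cost a factor -/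
theorem opt_births (hV : View P X Y n nx ny cx cy ρx ρy J near Q R D dl ox oy ck kx)
    (B : ℕ → Γx → κx → List (Finset 𝒳)) (t : ℕ) (i : Bool) :
    P.E (fun w => cnt (B t (ox t i w) (cx t (X w))) (X w)) ≤
      2 * P.E (fun w => cnt (B t (nx t w) (cx t (X w))) (X w)) := by
  refine pay_law_le P (fun w => (X w, ox t i w)) (fun w => (X w, nx t w)) (c := 2) (fun a => ?_)
    (φ := fun a => cnt (B t a.2 (cx t a.1)) a.1) (fun a => pay_cnt_nonneg _ _)
  have h := hV.ocnt t i a.1 a.2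
  refine le_trans (le_of_eq (P.Pr_congr (fun w _ => ?_)))
    (h.trans (le_of_eq (congrArg (fun z => 2 * z) (P.Pr_congr (fun w _ => ?_)))))
  · exact Prod.ext_iff
  · exact (Prod.ext_iff (x := (_, _)) (y := a)).symm

/-- `X` is in a birth at one of the options -/
theorem opt_births_pr (hV : View P X Y n nx ny cx cy ρx ρy J near Q R D dl ox oy ck kx)
    (B : ℕ → Γx → κx → List (Finset 𝒳)) (t : ℕ) :
    P.Pr (fun w => ∃ i, ∃ S ∈ B t (ox t i w) (cx t (X w)), X w ∈ S) ≤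
      4 * P.E (fun w => cnt (B t (nx t w) (cx t (X w))) (X w)) := by
  have h1 : P.Pr (fun w => ∃ i, ∃ S ∈ B t (ox t i w) (cx t (X w)), X w ∈ S) ≤
      ∑ i : Bool, P.Pr (fun w => ∃ S ∈ B t (ox t i w) (cx t (X w)), X w ∈ S) := by
    refine le_trans (P.Pr_mono (fun w _ hw => ?_)) (P.Pr_ex_le (univ : Finset Bool)
      (fun i w => ∃ S ∈ B t (ox t i w) (cx t (X w)), X w ∈ S))
    obtain ⟨i, hi⟩ := hw
    exact ⟨i, Finset.mem_univ i, hi⟩
  refine h1.trans ?_
  have h2 : ∀ i ∈ (univ : Finset Bool), P.Pr (fun w => ∃ S ∈ B t (ox t i w) (cx t (X w)), X w ∈ S) ≤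
      2 * P.E (fun w => cnt (B t (nx t w) (cx t (X w))) (X w)) := by
    intro i _
    refine le_trans ?_ (opt_births hV B t i)
    exact P.E_mono (fun w _ => pay_ind_ex_le_cnt _ _)
  refine (Finset.sum_le_sum h2).trans (le_of_eq ?_)
  rw [Finset.sum_const, Finset.card_univ, Fintype.card_bool, nsmul_eq_mul]
  push_cast
  ring

/-- births in the compatible cells at the options -/
theorem cell_births (hV : View P X Y n nx ny cx cy ρx ρy J near Q R D dl ox oy ck kx)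
    (B : ℕ → Γx → κx → List (Finset 𝒳)) (t : ℕ) (i : Bool) (k : K) :
    P.E (fun w => ((B t (ox t i w) (ck t k w)).length : ℝ)) ≤
      2 * P.E (fun w => ((B t (nx t w) (cx t (X w))).length : ℝ)) := by
  refine pay_law_le P (fun w => (ck t k w, ox t i w)) (fun w => (cx t (X w), nx t w)) (c := 2) (fun a => ?_)
    (φ := fun a => ((B t a.2 a.1).length : ℝ)) (fun a => Nat.cast_nonneg _)
  have h := hV.ccnt t i k a.1 a.2
  refine le_trans (le_of_eq (P.Pr_congr (fun w _ => ?_)))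
    (h.trans (le_of_eq (congrArg (fun z => 2 * z) (P.Pr_congr (fun w _ => ?_)))))
  · exact Prod.ext_iff
  · exact (Prod.ext_iff (x := (_, _)) (y := a)).symm

end Pool.Agent.M3.TS
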