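import Pool.Agent.M3.FPMart

/-!
# M3.Thin: thin sets are harmless (note 3356 (A))

`arm r1 r2 Z t` = the process has been `≤ r1` and since then `< r2`; `cr r1 r2 Z t` = an upcrossing `r1 → r2` is completed
at time `t + 1`.  For an adapted submartingale `Z` the mean number of upcrossings is at most `E (Z n - r1)⁺/(r2 - r1)`
(`cross_count`).  If a set `W (t + 1)` is thin given the past at time `t + 1` (conditional probability `≤ α`; it need not
be an event of the filtration) then the mean number of the upcrossings completed inside `W` is at most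
`α E (Z n - r1)⁺/(r2 - r1)` (`thin_cross`).  `thin_comp`, `thin_int`, `thin_T`: processes `K i`, labels `lab t` with values
in a finite set `I`, and `T t = K (lab t) t` up to `η`.
-/

set_option autoImplicit false
set_option linter.unusedSectionVars false

namespace Pool.Agent.M3

open Finset Pool.Agent.PWZ

variable {Om : Type*} [Fintype Om]

/-- armed: the process has been `≤ r1` and has been `< r2` since then -/
def arm (r1 r2 : ℝ) (Z : ℕ → Om → ℝ) : ℕ → Om → Prop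
  | 0, w => Z 0 w ≤ r1
  | t + 1, w => Z (t + 1) w ≤ r1 ∨ (arm r1 r2 Z t w ∧ Z (t + 1) w < r2)

/-- an upcrossing `r1 → r2` is completed at time `t + 1` -/
def cr (r1 r2 : ℝ) (Z : ℕ → Om → ℝ) (t : ℕ) (w : Om) : Prop := arm r1 r2 Z t w ∧ r2 ≤ Z (t + 1) w

theorem arm_of_low {r1 r2 : ℝ} {Z : ℕ → Om → ℝ} {s t : ℕ} {w : Om} (hst : s ≤ t) (hs : Z s w ≤ r1)
    (hu : ∀ u, s < u → u ≤ t → Z u w < r2) : arm r1 r2 Z t w := by
  induction t, hst using Nat.le_induction with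
  | base =>
    cases s with
    | zero => exact hs
    | succ s => exact Or.inl hs
  | succ t hst ih => exact Or.inr ⟨ih (fun u h1 h2 => hu u h1 (by omega)), hu (t + 1) (by omega) le_rfl⟩

namespace FP

variable (P : FP Om) {κ : ℕ → Type*} {X : ∀ t, Om → κ t}

theorem arm_fac (hX : Filt X) {r1 r2 : ℝ} {Z : ℕ → Om → ℝ} (hZ : ∀ t, Fac (X t) (Z t)) (t : ℕ) :
    ∀ v w, X t v = X t w → (arm r1 r2 Z t v ↔ arm r1 r2 Z t w) := by
  induction t with
  | zero => intro v w h; simp only [arm]; rw [hZ 0 v w h]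
  | succ t ih =>
    intro v w h
    simp only [arm]
    rw [hZ (t + 1) v w h, ih v w (hX t v w h)]

theorem cr_fac (hX : Filt X) {r1 r2 : ℝ} {Z : ℕ → Om → ℝ} (hZ : ∀ t, Fac (X t) (Z t)) (t : ℕ) :
    Fac (X (t + 1)) (fun w => ind (cr r1 r2 Z t w)) := by
  refine Fac.ind (fun v w h => ?_)
  unfold cr
  rw [hZ (t + 1) v w h, arm_fac hX hZ t v w (hX t v w h)]

/-- the gain of `(Z - r1)⁺` while the process is armed -/
theorem cross_tel {r1 r2 : ℝ} (h12 : r1 ≤ r2) (Z : ℕ → Om → ℝ) (n : ℕ) (w : Om) :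
    (r2 - r1) * ∑ t ∈ range n, ind (cr r1 r2 Z t w) + ind (arm r1 r2 Z n w) * max (Z n w - r1) 0 ≤
      ∑ t ∈ range n, ind (arm r1 r2 Z t w) * (max (Z (t + 1) w - r1) 0 - max (Z t w - r1) 0) := by
  induction n with
  | zero =>
    simp only [Finset.range_zero, Finset.sum_empty, mul_zero, zero_add]
    by_cases h : arm r1 r2 Z 0 w
    · rw [ind_of h, one_mul]
      simp only [arm] at h
      rw [max_eq_right (by linarith)]
    · rw [ind_not h, zero_mul]
  | succ n ih =>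
    rw [Finset.sum_range_succ, Finset.sum_range_succ]
    have hy : 0 ≤ max (Z (n + 1) w - r1) 0 := le_max_right _ _
    have hy' : Z (n + 1) w - r1 ≤ max (Z (n + 1) w - r1) 0 := le_max_left _ _
    have hlow : ¬ arm r1 r2 Z n w → ind (arm r1 r2 Z (n + 1) w) * max (Z (n + 1) w - r1) 0 = 0 := by
      intro h
      by_cases h1 : arm r1 r2 Z (n + 1) w
      · have h2 : Z (n + 1) w ≤ r1 := by
          simp only [arm] at h1
          rcases h1 with h1 | h1
          · exact h1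
          · exact absurd h1.1 h
        rw [max_eq_right (by linarith), mul_zero]
      · rw [ind_not h1, zero_mul]
    by_cases ha : arm r1 r2 Z n w
    · by_cases hc : r2 ≤ Z (n + 1) w
      · have h1 : cr r1 r2 Z n w := ⟨ha, hc⟩
        rw [ind_of h1]
        rw [ind_of ha, one_mul] at ih ⊢
        by_cases hb : arm r1 r2 Z (n + 1) w
        · have h2 : Z (n + 1) w ≤ r1 := by
            simp only [arm] at hb
            rcases hb with hb | hb
            · exact hb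
            · linarith [hb.2]
          have h3 : max (Z (n + 1) w - r1) 0 = 0 := max_eq_right (by linarith)
          have h4 : r2 - r1 = 0 := by linarith
          rw [h3, mul_zero]
          rw [h4] at ih ⊢
          linarith
        · rw [ind_not hb, zero_mul]
          linarith
      · have h1 : ¬ cr r1 r2 Z n w := fun h => hc h.2
        rw [ind_not h1]
        rw [ind_of ha, one_mul] at ih ⊢
        have hb := mul_le_mul_of_nonneg_right (ind_le_one (arm r1 r2 Z (n + 1) w)) hy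
        linarith
    · have h1 : ¬ cr r1 r2 Z n w := fun h => ha h.1
      rw [ind_not h1, hlow ha]
      rw [ind_not ha, zero_mul] at ih ⊢
      linarith

/-- Doob's upcrossing inequality -/
theorem cross_count (hX : Filt X) {Z : ℕ → Om → ℝ} (hZ : ∀ t, Fac (X t) (Z t))
    (hs : ∀ t w, P.p w ≠ 0 → Z t w ≤ P.ce (X t) (Z (t + 1)) w) {r1 r2 : ℝ} (h12 : r1 ≤ r2) (n : ℕ) :
    (r2 - r1) * P.E (fun w => ∑ t ∈ range n, ind (cr r1 r2 Z t w)) ≤ P.E (fun w => max (Z n w - r1) 0) := by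
  have hfac : ∀ t, Fac (X t) (fun w => ind (¬ arm r1 r2 Z t w)) := fun t =>
    Fac.ind (fun v w h => not_congr (arm_fac hX hZ t v w h))
  have h1 : 0 ≤ P.E (fun w => ∑ t ∈ range n, ind (¬ arm r1 r2 Z t w) *
      (max (Z (t + 1) w - r1) 0 - max (Z t w - r1) 0)) := by
    rw [P.transform_eq (Z := fun t w => max (Z t w - r1) 0) hfac]
    refine P.E_nonneg (fun w hw => Finset.sum_nonneg (fun t _ => mul_nonneg (ind_nonneg _) ?_))
    have e1 : P.ce (X t) (fun v => Z (t + 1) v - r1) w ≤ P.ce (X t) (fun v => max (Z (t + 1) v - r1) 0) w :=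
      P.ce_mono (fun v _ => le_max_left _ _) w
    have e2 : 0 ≤ P.ce (X t) (fun v => max (Z (t + 1) v - r1) 0) w :=
      P.ce_nonneg (fun v _ => le_max_right _ _) w
    rw [ce_sub, P.ce_const _ _ hw] at e1
    have e3 := hs t w hw
    have e4 : max (Z t w - r1) 0 ≤ P.ce (X t) (fun v => max (Z (t + 1) v - r1) 0) w :=
      max_le (by linarith) e2
    linarith
  have h2 : P.E (fun w => ∑ t ∈ range n, ind (arm r1 r2 Z t w) *
      (max (Z (t + 1) w - r1) 0 - max (Z t w - r1) 0)) +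
      P.E (fun w => ∑ t ∈ range n, ind (¬ arm r1 r2 Z t w) *
      (max (Z (t + 1) w - r1) 0 - max (Z t w - r1) 0)) =
      P.E (fun w => max (Z n w - r1) 0 - max (Z 0 w - r1) 0) := by
    rw [← E_add]
    refine P.E_congr (fun w _ => ?_)
    rw [← Finset.sum_add_distrib, ← Finset.sum_range_sub (fun t => max (Z t w - r1) 0) n]
    refine Finset.sum_congr rfl (fun t _ => ?_)
    rw [ind_not_eq]; ring
  have h3 : P.E (fun w => max (Z n w - r1) 0 - max (Z 0 w - r1) 0) ≤ P.E (fun w => max (Z n w - r1) 0) :=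
    P.E_mono (fun w _ => by linarith [le_max_right (Z 0 w - r1) 0])
  have h4 : (r2 - r1) * P.E (fun w => ∑ t ∈ range n, ind (cr r1 r2 Z t w)) ≤
      P.E (fun w => ∑ t ∈ range n, ind (arm r1 r2 Z t w) *
      (max (Z (t + 1) w - r1) 0 - max (Z t w - r1) 0)) := by
    rw [← E_smul]
    refine P.E_mono (fun w _ => ?_)
    have h5 := cross_tel h12 Z n w
    have h6 := mul_nonneg (ind_nonneg (arm r1 r2 Z n w)) (le_max_right (Z n w - r1) 0)
    linarith
  linarith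

/-- the upcrossings completed inside a thin set (its density given the past at the completion time is `≤ α`) -/
theorem thin_cross (hX : Filt X) {Z : ℕ → Om → ℝ} (hZ : ∀ t, Fac (X t) (Z t))
    (hs : ∀ t w, P.p w ≠ 0 → Z t w ≤ P.ce (X t) (Z (t + 1)) w) {r1 r2 : ℝ} (h12 : r1 ≤ r2) {n : ℕ} {α : ℝ}
    (hα : 0 ≤ α) {W : ℕ → Om → Prop}
    (hW : ∀ t < n, ∀ w, P.p w ≠ 0 → P.ce (X (t + 1)) (fun v => ind (W (t + 1) v)) w ≤ α) :
    (r2 - r1) * P.E (fun w => ∑ t ∈ range n, ind (cr r1 r2 Z t w) * ind (W (t + 1) w)) ≤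
      α * P.E (fun w => max (Z n w - r1) 0) := by
  have h1 : P.E (fun w => ∑ t ∈ range n, ind (cr r1 r2 Z t w) * ind (W (t + 1) w)) ≤
      α * P.E (fun w => ∑ t ∈ range n, ind (cr r1 r2 Z t w)) := by
    rw [E_sum, E_sum, Finset.mul_sum]
    refine Finset.sum_le_sum (fun t ht => ?_)
    rw [← P.E_mul_ce (cr_fac hX hZ t), ← E_smul]
    refine P.E_mono (fun w hw => ?_)
    have := mul_le_mul_of_nonneg_left (hW t (Finset.mem_range.mp ht) w hw) (ind_nonneg (cr r1 r2 Z t w))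
    linarith
  have h2 := P.cross_count hX hZ hs h12 n
  have h3 := mul_le_mul_of_nonneg_left h1 (sub_nonneg.mpr h12)
  have h4 := mul_le_mul_of_nonneg_left h2 hα
  calc _ ≤ (r2 - r1) * (α * P.E (fun w => ∑ t ∈ range n, ind (cr r1 r2 Z t w))) := h3
    _ = α * ((r2 - r1) * P.E (fun w => ∑ t ∈ range n, ind (cr r1 r2 Z t w))) := by ring
    _ ≤ _ := h4

/-- the absolute value of a martingale -/
theorem abs_sub {Z : ℕ → Om → ℝ} (hm : ∀ t w, P.p w ≠ 0 → P.ce (X t) (Z (t + 1)) w = Z t w) :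
    ∀ t w, P.p w ≠ 0 → |Z t w| ≤ P.ce (X t) (fun v => |Z (t + 1) v|) w := by
  intro t w hw
  rw [← hm t w hw]
  exact P.abs_ce_le _ _ w

/-- processes `K i`, labels: an upcrossing of `|K i|`, `i` = the label, constant since the start of the upcrossing, is
completed inside a set which is thin in every label -/
theorem thin_comp (hX : Filt X) {ι : Type*} (I : Finset ι) {K : ι → ℕ → Om → ℝ}
    (hK : ∀ i ∈ I, ∀ t, Fac (X t) (K i t))
    (hs : ∀ i ∈ I, ∀ t w, P.p w ≠ 0 → |K i t w| ≤ P.ce (X t) (fun v => |K i (t + 1) v|) w)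
    {r1 r2 : ℝ} (h12 : r1 ≤ r2) (hr1 : 0 ≤ r1) {n : ℕ} {α B : ℝ} (hα : 0 ≤ α)
    (hB : ∀ i ∈ I, ∀ w, P.p w ≠ 0 → |K i n w| ≤ B)
    {lab : ℕ → Om → ι} {W : ℕ → Om → Prop}
    (hW : ∀ i ∈ I, ∀ t < n, ∀ w, P.p w ≠ 0 →
      P.ce (X (t + 1)) (fun v => ind (W (t + 1) v ∧ lab (t + 1) v = i)) w ≤ α) :
    (r2 - r1) * P.Pr (fun w => ∃ s t, s < t ∧ t ≤ n ∧ lab t w ∈ I ∧ W t w ∧
      (∀ u, s ≤ u → u ≤ t → lab u w = lab t w) ∧ |K (lab t w) s w| ≤ r1 ∧
      (∀ u, s < u → u < t → |K (lab t w) u w| < r2) ∧ r2 ≤ |K (lab t w) t w|) ≤ I.card * (α * B) := by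
  have h1 : P.Pr (fun w => ∃ s t, s < t ∧ t ≤ n ∧ lab t w ∈ I ∧ W t w ∧
      (∀ u, s ≤ u → u ≤ t → lab u w = lab t w) ∧ |K (lab t w) s w| ≤ r1 ∧
      (∀ u, s < u → u < t → |K (lab t w) u w| < r2) ∧ r2 ≤ |K (lab t w) t w|) ≤
      ∑ i ∈ I, P.E (fun w => ∑ t ∈ range n, ind (cr r1 r2 (fun t w => |K i t w|) t w) *
        ind (W (t + 1) w ∧ lab (t + 1) w = i)) := by
    rw [← E_sum]
    unfold Pr
    refine P.E_mono (fun w _ => ?_)
    by_cases h : ∃ s t, s < t ∧ t ≤ n ∧ lab t w ∈ I ∧ W t w ∧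
      (∀ u, s ≤ u → u ≤ t → lab u w = lab t w) ∧ |K (lab t w) s w| ≤ r1 ∧
      (∀ u, s < u → u < t → |K (lab t w) u w| < r2) ∧ r2 ≤ |K (lab t w) t w|
    · rw [ind_of h]
      obtain ⟨s, t, hst, htn, hI, hWt, _, hlow, hmid, hhigh⟩ := h
      obtain ⟨t', rfl⟩ : ∃ t', t = t' + 1 := ⟨t - 1, by omega⟩
      have hcr : cr r1 r2 (fun t w => |K (lab (t' + 1) w) t w|) t' w := by
        refine ⟨arm_of_low (s := s) (by omega) ?_ ?_, hhigh⟩
        · exact hlow
        · exact fun u h1 h2 => hmid u h1 (by omega)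
      have hnn : ∀ i ∈ I, 0 ≤ ∑ t ∈ range n, ind (cr r1 r2 (fun t w => |K i t w|) t w) *
          ind (W (t + 1) w ∧ lab (t + 1) w = i) := fun i _ =>
        Finset.sum_nonneg (fun t _ => mul_nonneg (ind_nonneg _) (ind_nonneg _))
      refine le_trans ?_ (Finset.single_le_sum hnn hI)
      have hcr' : cr r1 r2 (fun t v => |K (lab (t' + 1) w) t v|) t' w := by
        refine ⟨arm_of_low (s := s) (by omega) ?_ ?_, hhigh⟩
        · exact hlow
        · exact fun u h1 h2 => hmid u h1 (by omega)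
      have hone : (1 : ℝ) = ind (cr r1 r2 (fun t v => |K (lab (t' + 1) w) t v|) t' w) *
          ind (W (t' + 1) w ∧ lab (t' + 1) w = lab (t' + 1) w) := by
        rw [ind_of hcr', ind_of ⟨hWt, rfl⟩, one_mul]
      rw [hone]
      exact Finset.single_le_sum (f := fun t => ind (cr r1 r2 (fun t v => |K (lab (t' + 1) w) t v|) t w) *
        ind (W (t + 1) w ∧ lab (t + 1) w = lab (t' + 1) w))
        (fun t _ => mul_nonneg (ind_nonneg _) (ind_nonneg _)) (Finset.mem_range.mpr (by omega))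
    · rw [ind_not h]
      exact Finset.sum_nonneg (fun i _ =>
        Finset.sum_nonneg (fun t _ => mul_nonneg (ind_nonneg _) (ind_nonneg _)))
  have h2 : ∀ i ∈ I, (r2 - r1) * P.E (fun w => ∑ t ∈ range n, ind (cr r1 r2 (fun t w => |K i t w|) t w) *
        ind (W (t + 1) w ∧ lab (t + 1) w = i)) ≤ α * B := by
    intro i hi
    have hfac : ∀ t, Fac (X t) (fun w => |K i t w|) := fun t => (hK i hi t).comp abs
    have h3 := P.thin_cross (W := fun t w => W t w ∧ lab t w = i) hX hfac (hs i hi) h12 hα (hW i hi)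
    refine h3.trans (mul_le_mul_of_nonneg_left (P.E_le_const (fun w hw => ?_)) hα)
    have h4 := hB i hi w hw
    have h5 : 0 ≤ B := le_trans (abs_nonneg _) h4
    exact max_le (by linarith) h5
  calc _ ≤ (r2 - r1) * ∑ i ∈ I, P.E (fun w => ∑ t ∈ range n, ind (cr r1 r2 (fun t w => |K i t w|) t w) *
        ind (W (t + 1) w ∧ lab (t + 1) w = i)) := mul_le_mul_of_nonneg_left h1 (sub_nonneg.mpr h12)
    _ ≤ ∑ _i ∈ I, α * B := by rw [Finset.mul_sum]; exact Finset.sum_le_sum h2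
    _ = _ := by rw [Finset.sum_const, nsmul_eq_mul]

/-- the same when the whole rise happens inside the thin set -/
theorem thin_int (hX : Filt X) {ι : Type*} (I : Finset ι) {K : ι → ℕ → Om → ℝ}
    (hK : ∀ i ∈ I, ∀ t, Fac (X t) (K i t))
    (hs : ∀ i ∈ I, ∀ t w, P.p w ≠ 0 → |K i t w| ≤ P.ce (X t) (fun v => |K i (t + 1) v|) w)
    {r1 r2 : ℝ} (h12 : r1 ≤ r2) (hr1 : 0 ≤ r1) {n : ℕ} {α B : ℝ} (hα : 0 ≤ α)
    (hB : ∀ i ∈ I, ∀ w, P.p w ≠ 0 → |K i n w| ≤ B)
    {lab : ℕ → Om → ι} {W : ℕ → Om → Prop}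
    (hW : ∀ i ∈ I, ∀ t < n, ∀ w, P.p w ≠ 0 →
      P.ce (X (t + 1)) (fun v => ind (W (t + 1) v ∧ lab (t + 1) v = i)) w ≤ α) :
    (r2 - r1) * P.Pr (fun w => ∃ s t, s < t ∧ t ≤ n ∧ lab t w ∈ I ∧
      (∀ u, s < u → u ≤ t → W u w) ∧ (∀ u, s ≤ u → u ≤ t → lab u w = lab t w) ∧
      |K (lab t w) s w| ≤ r1 ∧ r2 ≤ |K (lab t w) t w|) ≤ I.card * (α * B) := by
  refine le_trans (mul_le_mul_of_nonneg_left (P.Pr_mono (fun w _ h => ?_)) (sub_nonneg.mpr h12))
    (P.thin_comp hX I hK hs h12 hr1 hα hB hW)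
  obtain ⟨s, t, hst, htn, hI, hWu, hlab, hlow, hhigh⟩ := h
  classical
  have hex : ∃ u, s < u ∧ r2 ≤ |K (lab t w) u w| := ⟨t, hst, hhigh⟩
  set u := Nat.find hex with hu
  obtain ⟨hsu, hru⟩ := Nat.find_spec hex
  have hut : u ≤ t := Nat.find_min' hex ⟨hst, hhigh⟩
  have hlu : lab u w = lab t w := hlab u hsu.le hut
  refine ⟨s, u, hsu, hut.trans htn, by rw [hlu]; exact hI, hWu u hsu hut, ?_, by rw [hlu]; exact hlow, ?_,
    by rw [hlu]; exact hru⟩
  · intro v h1 h2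
    rw [hlu]
    exact hlab v h1 (h2.trans hut)
  · intro v h1 h2
    rw [hlu]
    by_contra h3
    exact Nat.find_min hex h2 ⟨h1, not_lt.mp h3⟩

/-- the same for a process `T` with `|T t - K (lab t) t| ≤ η`, at thresholds `r1 + 2 η ≤ r2` -/
theorem thin_T (hX : Filt X) {ι : Type*} (I : Finset ι) {K : ι → ℕ → Om → ℝ}
    (hK : ∀ i ∈ I, ∀ t, Fac (X t) (K i t))
    (hs : ∀ i ∈ I, ∀ t w, P.p w ≠ 0 → |K i t w| ≤ P.ce (X t) (fun v => |K i (t + 1) v|) w)
    {r1 r2 η : ℝ} (h12 : r1 + 2 * η ≤ r2) (hr1 : 0 ≤ r1) (hη : 0 ≤ η) {n : ℕ} {α B : ℝ} (hα : 0 ≤ α)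
    (hB : ∀ i ∈ I, ∀ w, P.p w ≠ 0 → |K i n w| ≤ B)
    {lab : ℕ → Om → ι} {W : ℕ → Om → Prop} {T : ℕ → Om → ℝ}
    (hW : ∀ i ∈ I, ∀ t < n, ∀ w, P.p w ≠ 0 →
      P.ce (X (t + 1)) (fun v => ind (W (t + 1) v ∧ lab (t + 1) v = i)) w ≤ α) :
    (r2 - r1 - 2 * η) * P.Pr (fun w => ∃ s t, s < t ∧ t ≤ n ∧ lab t w ∈ I ∧
      (∀ u, s < u → u ≤ t → W u w) ∧ (∀ u, s ≤ u → u ≤ t → lab u w = lab t w) ∧
      |T s w - K (lab s w) s w| ≤ η ∧ |T t w - K (lab t w) t w| ≤ η ∧ |T s w| ≤ r1 ∧ r2 ≤ |T t w|) ≤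
      I.card * (α * B) := by
  have h := P.thin_int (r1 := r1 + η) (r2 := r2 - η) hX I hK hs (by linarith) (by linarith) hα hB hW
  have e : r2 - η - (r1 + η) = r2 - r1 - 2 * η := by ring
  rw [e] at h
  refine le_trans (mul_le_mul_of_nonneg_left (P.Pr_mono (fun w _ h => ?_)) (by linarith)) h
  obtain ⟨s, t, hst, htn, hI, hWu, hlab, h1, h2, h3, h4⟩ := h
  refine ⟨s, t, hst, htn, hI, hWu, hlab, ?_, ?_⟩
  · rw [hlab s le_rfl hst.le] at h1
    have h5 := abs_sub_abs_le_abs_sub (K (lab t w) s w) (T s w)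
    rw [abs_sub_comm] at h5
    linarith
  · have h5 := abs_sub_abs_le_abs_sub (T t w) (K (lab t w) t w)
    linarith

end FP

end Pool.Agent.M3
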