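import Pool.Agent.M3.OneView
import Pool.Agent.M3.PTFine
import Pool.Agent.M3.RdHyp
import Pool.Agent.M3.Prop1N

/-!
# M3/Thm5 : section 5 (row 5 of table m3), one view of one piece (helper11)

* `FP.one_view_free` : the one view theorem without events at the semi points;
* `NV.one_view` : use 2 of the named view: `Pr (∃ t ≤ N, 4 r + eta ≤ |TZ h R t|)` for coldness at the semi points given as
  a hypothesis.
-/

set_option autoImplicit false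
set_option linter.unusedSectionVars false

namespace Pool.Agent.M3

open Finset Pool.Agent.PWZ

namespace FP

variable {Om : Type*} [Fintype Om] (P : FP Om) {ι : ℕ → Type*} {A : ∀ t, Om → ι t}
  {X g D : ℕ → Om → ℝ} {e Dd : ℕ → Om → Prop} {s N : ℝ}

/-- THE ONE VIEW THEOREM, no events at the semi points -/
theorem one_view_free (H : P.ViewHyp A X g D e (P.Al A Dd (1 / 2)) s N)
    (hDd : ∀ t w, P.p w ≠ 0 → Dd t w → Dd (t + 1) w) {S : ℕ → Om → Prop}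
    (hXS : ∀ t w, P.p w ≠ 0 → s < |X t w| → ¬ Dd t w → S t w) (n : ℕ) {θ : ℝ} (hθn : P.Pr (S n) ≤ θ)
    {α : Type*} (I : Finset α) {ζ : α → ℕ → Type*} (Z : ∀ i t, Om → ζ i t) {ρ : α → ℝ}
    {b : α → ℕ → Om → ℝ} {b0 : ℕ → Om → ℝ}
    (hbA : ∀ i ∈ I, ∀ t < n, Fac (A t) (b i t)) (hbZ : ∀ i ∈ I, ∀ t < n, Fac (Z i t) (b i t))
    (hbn : ∀ i ∈ I, ∀ t < n, ∀ w, P.p w ≠ 0 → 0 ≤ b i t w)
    (hb0 : ∀ t < n, Fac (A t) (b0 t)) (hb0n : ∀ t < n, ∀ w, P.p w ≠ 0 → 0 ≤ b0 t w)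
    (hβ : ∀ t < n, ∀ w, P.p w ≠ 0 → s < |X t w| → P.ce (A t) (D t) w ^ 2 ≤ b0 t w + ∑ i ∈ I, b i t w)
    (he : ∀ t < n, ∀ w, P.p w ≠ 0 → s < |X t w| → P.Al A Dd (1 / 2) (t + 1) w → ¬ e (t + 1) w)
    (hρ : ∀ i ∈ I, ∀ t < n, ∀ w, P.p w ≠ 0 → b i t w ≠ 0 →
      P.ce (Z i t) (fun v => ind (S t v ∧ ¬ Dd t v)) w ≤ ρ i) {s2 : ℝ} (hs : s ≤ s2) :
    (s2 - s) ^ 2 * P.Pr (fun w => ∃ t ≤ n, P.Al A Dd (1 / 2) t w ∧ s2 ≤ |X t w|) ≤
      2 * N * (θ + ∑ t ∈ range n, P.E (fun w => ind (¬ Dd t w) * b0 t w) +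
        ∑ i ∈ I, ρ i * ∑ t ∈ range n, P.E (b i t) + P.Pr (Dd n)) := by
  have hN0 : 0 ≤ N := by
    obtain ⟨w, hw⟩ := P.exists_p_ne
    exact (Phi_nonneg _ _).trans (H.bd 0 w hw)
  have h0 := P.energy H hs n
  have hend : P.E (fun w => ind (P.Al A Dd (1 / 2) n w) * Phi s (X n w)) ≤ 2 * N * θ := P.semi_E H hXS hθn
  have hkill : P.Pr (fun w => ¬ P.Al A Dd (1 / 2) n w) ≤ 2 * P.Pr (Dd n) := by
    have := P.al_death H.filt hDd n (1 / 2)
    linarith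
  have hlev : ∀ t ∈ range n,
      P.E (fun w => ind (P.Al A Dd (1 / 2) t w ∧ s < |X t w|) * P.ce (A t) (D t) w ^ 2) +
        P.Pr (fun w => s < |X t w| ∧ e (t + 1) w ∧ P.Al A Dd (1 / 2) (t + 1) w) ≤
      2 * P.E (fun w => ind (¬ Dd t w) * b0 t w) + ∑ i ∈ I, 2 * ρ i * P.E (b i t) := by
    intro t htr
    have ht : t < n := Finset.mem_range.mp htr
    have h1 : P.E (fun w => ind (P.Al A Dd (1 / 2) t w ∧ s < |X t w|) * P.ce (A t) (D t) w ^ 2) ≤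
        P.E (fun w => ind (P.Al A Dd (1 / 2) t w) * b0 t w +
          ∑ i ∈ I, ind (P.Al A Dd (1 / 2) t w ∧ s < |X t w|) * b i t w) := by
      refine P.E_mono (fun w hw => ?_)
      rw [← Finset.mul_sum]
      have h4 := hb0n t ht w hw
      by_cases ha : P.Al A Dd (1 / 2) t w
      · by_cases hx : s < |X t w|
        · rw [ind_of ⟨ha, hx⟩, ind_of ha, one_mul, one_mul, one_mul]
          exact hβ t ht w hw hx
        · rw [ind_not (fun h : P.Al A Dd (1 / 2) t w ∧ s < |X t w| => hx h.2), ind_of ha, zero_mul, zero_mul,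
            one_mul, add_zero]
          exact h4
      · rw [ind_not (fun h : P.Al A Dd (1 / 2) t w ∧ s < |X t w| => ha h.1), ind_not ha]
        simp
    have h2 : P.Pr (fun w => s < |X t w| ∧ e (t + 1) w ∧ P.Al A Dd (1 / 2) (t + 1) w) ≤ 0 := by
      have h5 : P.Pr (fun w => s < |X t w| ∧ e (t + 1) w ∧ P.Al A Dd (1 / 2) (t + 1) w) ≤ P.E (fun _ => 0) := by
        unfold Pr
        refine P.E_mono (fun w hw => ?_)
        rw [ind_not]
        rintro ⟨hx, h6, h7⟩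
        exact he t ht w hw hx h7 h6
      rwa [P.E_const] at h5
    rw [P.E_add, P.E_sum] at h1
    have h3 := P.alive_E (Dd := Dd) H.filt (hb0 t ht) (hb0n t ht)
    have h4 : ∑ i ∈ I, P.E (fun w => ind (P.Al A Dd (1 / 2) t w ∧ s < |X t w|) * b i t w) ≤
        ∑ i ∈ I, 2 * ρ i * P.E (b i t) :=
      Finset.sum_le_sum (fun i hi => P.loss_bias H.filt H.X_fac hXS (hbA i hi t ht) (hbn i hi t ht)
        (hbZ i hi t ht) (hρ i hi t ht))
    linarith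
  have hsum := Finset.sum_le_sum hlev
  have h7 := mul_le_mul_of_nonneg_left hsum hN0
  have h8 := mul_le_mul_of_nonneg_left hkill hN0
  have h9 : N * ∑ t ∈ range n, (2 * P.E (fun w => ind (¬ Dd t w) * b0 t w) +
        ∑ i ∈ I, 2 * ρ i * P.E (b i t)) =
      2 * N * (∑ t ∈ range n, P.E (fun w => ind (¬ Dd t w) * b0 t w) +
        ∑ i ∈ I, ρ i * ∑ t ∈ range n, P.E (b i t)) := by
    have e1 : ∑ t ∈ range n, ∑ i ∈ I, 2 * ρ i * P.E (b i t) =
        2 * ∑ i ∈ I, ρ i * ∑ t ∈ range n, P.E (b i t) := by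
      rw [Finset.sum_comm, Finset.mul_sum]
      refine Finset.sum_congr rfl (fun i _ => ?_)
      rw [← Finset.mul_sum]; ring
    rw [Finset.sum_add_distrib, e1, ← Finset.mul_sum]
    ring
  rw [h9] at h7
  linarith

end FP

namespace Mod

open Pool.Agent.M3.Bin

variable {k N : ℕ} {Θ P : Type} [Fintype Θ] [Nonempty Θ] [Fintype P] [Nonempty P]

/-- the function of a face is a function of the known class of the view -/
theorem fz_Kn (h : ℕ) (i : Fin 3) (R : Fam2 k P) (t : ℕ) :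
    Fac (Kn (k := k) (N := N) (Θ := Θ) (P := P) i (ex N t)) (fz h i R t) := by
  intro v w hv
  unfold Kn at hv
  simp only [Prod.mk.injEq] at hv
  obtain ⟨-, h2, h3⟩ := hv
  have hY : Yn (ex N t) v = Yn (ex N t) w := by
    rw [Yn_eq i, Yn_eq i, h2, co_fac i v w h3]
  have hg := fac_Yn_Gm h (ex N t) v w hY
  have h4 : vx (i + 1) v = vx (i + 1) w := congrFun h3 ⟨i + 1, fin3_ne1 i⟩
  have h5 : vx (i + 2) v = vx (i + 2) w := congrFun h3 ⟨i + 2, fin3_ne2 i⟩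
  unfold fz fv
  rw [hg, h4, h5]

theorem chE_Kn (h : ℕ) (i : Fin 3) (R : Fam2 k P) (t : ℕ) {v w : Sp k N 3 Θ P}
    (hv : Kn i (ex N (t + 1)) v = Kn i (ex N (t + 1)) w) : chE h i R t v ↔ chE h i R t w := by
  unfold chE
  rw [fz_Kn h i R (t + 1) v w hv, fz_Kn h i R t v w (filt_Kn i t v w hv)]

/-- an event which is a function of the class `Y` and an event of small conditional probability -/
theorem Pr_and_le {κ : Type*} (Q : FP (Sp k N 3 Θ P)) {Y : Sp k N 3 Θ P → κ} {c B : Sp k N 3 Θ P → Prop} {σ : ℝ}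
    (hc : Fac Y (fun w => ind (c w))) (hB : ∀ w, Q.p w ≠ 0 → Q.ce Y (fun v => ind (B v)) w ≤ σ) :
    Q.Pr (fun w => c w ∧ B w) ≤ σ * Q.Pr c := by
  have h1 : Q.Pr (fun w => c w ∧ B w) = Q.E (fun w => ind (c w) * Q.ce Y (fun v => ind (B v)) w) := by
    rw [Q.E_mul_ce hc]
    unfold FP.Pr
    refine Q.E_congr (fun w _ => ?_)
    by_cases h : c w
    · by_cases h' : B w
      · rw [ind_of h, ind_of h', ind_of (⟨h, h'⟩ : c w ∧ B w), one_mul]
      · rw [ind_of h, ind_not h', ind_not (fun hh : c w ∧ B w => h' hh.2), mul_zero]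
    · rw [ind_not h, ind_not (fun hh : c w ∧ B w => h hh.1), zero_mul]
  rw [h1]
  unfold FP.Pr
  rw [← Q.E_smul]
  refine Q.E_mono (fun w hw => ?_)
  rw [mul_comm]
  exact mul_le_mul_of_nonneg_right (hB w hw) (ind_nonneg _)

/-- USE 2 OF THE NAMED VIEW (5.5, 5.6).  `D0'` = errors and hot flags; `σ U` bounds the conditional probability of the semi
points at the times `t` and `t+1` (outside `D0'`) given the class of the losses of `U`, `σe` the same for the known class. -/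
theorem NV.one_view {i : Fin 3} {h : ℕ} {R : Fin 3 → Fam2 k P} (W : NV k N Θ P i h R) {r : ℝ} (hr : 0 < r)
    (hrm : W.rmin ≤ r) (her : W.eta ≤ r) {D0' : ℕ → Sp k N 3 Θ P → Prop} (hinc : ∀ t w, D0' t w → D0' (t + 1) w)
    (h0 : ∀ t w, W.D0 t w → D0' t w) {σ : Finset (Fin 3) → ℝ} {σe θ : ℝ} (hσ0 : ∀ U ∈ UU i, 0 ≤ σ U)
    (hσe0 : 0 ≤ σe)
    (hσ : ∀ U ∈ UU i, ∀ t < N, ∀ w : Sp k N 3 Θ P,
      Pm.ce (Zk U (ex N (t + 1) - (h + 3))) (fun v => ind (r ≤ |TZ h R t v| ∧ ¬ D0' t v)) w ≤ σ U)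
    (hσ' : ∀ U ∈ UU i, ∀ t < N, ∀ w : Sp k N 3 Θ P,
      Pm.ce (Zk U (ex N (t + 1) - (h + 3))) (fun v => ind (r ≤ |TZ h R (t + 1) v| ∧ ¬ D0' (t + 1) v)) w ≤ σ U)
    (hσe : ∀ t < N, ∀ w : Sp k N 3 Θ P,
      Pm.ce (Kn i (ex N (t + 1))) (fun v => ind (r ≤ |TZ h R t v| ∧ ¬ D0' t v)) w ≤ σe)
    (hσe' : ∀ t < N, ∀ w : Sp k N 3 Θ P,
      Pm.ce (Kn i (ex N (t + 1))) (fun v => ind (r ≤ |TZ h R (t + 1) v| ∧ ¬ D0' (t + 1) v)) w ≤ σe)
    (hθ : Pm.Pr (fun v : Sp k N 3 Θ P => r ≤ |TZ h R N v|) ≤ θ) :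
    (Pm (k := k) (N := N) (m := 3) (Θ := Θ) (P := P)).Pr (fun w => ∃ t ≤ N, 4 * r + W.eta ≤ |TZ h R t w|) ≤
      1458 / (4 * r ^ 2) * (θ + W.e3 + ∑ U ∈ UU i, σ U * W.hb U +
        (Pm.Pr (D0' N) + W.q + 2 * W.J * (σe + ∑ U ∈ UU i, σ U))) +
      3 * (Pm.Pr (D0' N) + W.q + 2 * W.J * (σe + ∑ U ∈ UU i, σ U)) := by
  obtain ⟨D2, hD2inc, hD2, hD2q, hXS, hSX, hev⟩ := W.thm r hrm D0' hinc h0
  have heta := W.eta0
  have hJ0 : ∀ U ∈ UU i, 0 ≤ ∑ t ∈ range N, Pm.Pr (W.ch U t) := fun U _ =>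
    Finset.sum_nonneg (fun t _ => FP.Pr_nonneg _ _)
  -- the label changes at semi points
  have hm1 : ∑ t ∈ range N, Pm.Pr (fun w => (chE h i (R i) t w ∨ ∃ U ∈ UU i, W.ch U t w) ∧
      (r ≤ |TZ h R t w| ∨ r ≤ |TZ h R (t + 1) w|) ∧ ¬ D0' (t + 1) w) ≤
      2 * W.J * (σe + ∑ U ∈ UU i, σ U) := by
    have hlev : ∀ t ∈ range N, Pm.Pr (fun w => (chE h i (R i) t w ∨ ∃ U ∈ UU i, W.ch U t w) ∧
        (r ≤ |TZ h R t w| ∨ r ≤ |TZ h R (t + 1) w|) ∧ ¬ D0' (t + 1) w) ≤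
        2 * σe * Pm.Pr (fun w : Sp k N 3 Θ P => chE h i (R i) t w) + ∑ U ∈ UU i, 2 * σ U * Pm.Pr (W.ch U t) := by
      intro t htr
      have ht : t < N := Finset.mem_range.mp htr
      have g1 : Pm.Pr (fun w => chE h i (R i) t w ∧ (r ≤ |TZ h R t w| ∧ ¬ D0' t w)) ≤
          σe * Pm.Pr (fun w : Sp k N 3 Θ P => chE h i (R i) t w) :=
        Pr_and_le Pm (Fac.ind (fun v w hv => by rw [chE_Kn h i (R i) t hv])) (fun w _ => hσe t ht w)
      have g2 : Pm.Pr (fun w => chE h i (R i) t w ∧ (r ≤ |TZ h R (t + 1) w| ∧ ¬ D0' (t + 1) w)) ≤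
          σe * Pm.Pr (fun w : Sp k N 3 Θ P => chE h i (R i) t w) :=
        Pr_and_le Pm (Fac.ind (fun v w hv => by rw [chE_Kn h i (R i) t hv])) (fun w _ => hσe' t ht w)
      have g3 : ∀ U ∈ UU i, Pm.Pr (fun w => W.ch U t w ∧ (r ≤ |TZ h R t w| ∧ ¬ D0' t w)) ≤
          σ U * Pm.Pr (W.ch U t) := fun U hU => Pr_and_le Pm (W.chZ U hU t ht) (fun w _ => hσ U hU t ht w)
      have g4 : ∀ U ∈ UU i, Pm.Pr (fun w => W.ch U t w ∧ (r ≤ |TZ h R (t + 1) w| ∧ ¬ D0' (t + 1) w)) ≤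
          σ U * Pm.Pr (W.ch U t) := fun U hU => Pr_and_le Pm (W.chZ U hU t ht) (fun w _ => hσ' U hU t ht w)
      have g5 : Pm.Pr (fun w => (chE h i (R i) t w ∨ ∃ U ∈ UU i, W.ch U t w) ∧
          (r ≤ |TZ h R t w| ∨ r ≤ |TZ h R (t + 1) w|) ∧ ¬ D0' (t + 1) w) ≤
          Pm.E (fun w => (ind (chE h i (R i) t w ∧ (r ≤ |TZ h R t w| ∧ ¬ D0' t w)) +
            ind (chE h i (R i) t w ∧ (r ≤ |TZ h R (t + 1) w| ∧ ¬ D0' (t + 1) w))) +
            ∑ U ∈ UU i, (ind (W.ch U t w ∧ (r ≤ |TZ h R t w| ∧ ¬ D0' t w)) +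
              ind (W.ch U t w ∧ (r ≤ |TZ h R (t + 1) w| ∧ ¬ D0' (t + 1) w)))) := by
        unfold FP.Pr
        refine FP.E_mono _ (fun w _ => ?_)
        by_cases hq : (chE h i (R i) t w ∨ ∃ U ∈ UU i, W.ch U t w) ∧
          (r ≤ |TZ h R t w| ∨ r ≤ |TZ h R (t + 1) w|) ∧ ¬ D0' (t + 1) w
        swap
        · rw [ind_not hq]
          exact add_nonneg (add_nonneg (ind_nonneg _) (ind_nonneg _))
            (Finset.sum_nonneg fun U _ => add_nonneg (ind_nonneg _) (ind_nonneg _))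
        rw [ind_of hq]
        obtain ⟨hc, hs, hd⟩ := hq
        have hd' : ¬ D0' t w := fun hh => hd (hinc t w hh)
        have hdis : (r ≤ |TZ h R t w| ∧ ¬ D0' t w) ∨ (r ≤ |TZ h R (t + 1) w| ∧ ¬ D0' (t + 1) w) := by
          rcases hs with hs | hs
          · exact Or.inl ⟨hs, hd'⟩
          · exact Or.inr ⟨hs, hd⟩
        have hge : ∀ c : Prop, c → (1 : ℝ) ≤ ind (c ∧ (r ≤ |TZ h R t w| ∧ ¬ D0' t w)) +
            ind (c ∧ (r ≤ |TZ h R (t + 1) w| ∧ ¬ D0' (t + 1) w)) := by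
          intro c hc'
          rcases hdis with h1 | h1
          · rw [ind_of (⟨hc', h1⟩ : c ∧ _)]
            linarith [ind_nonneg (c ∧ (r ≤ |TZ h R (t + 1) w| ∧ ¬ D0' (t + 1) w))]
          · rw [ind_of (⟨hc', h1⟩ : c ∧ (r ≤ |TZ h R (t + 1) w| ∧ ¬ D0' (t + 1) w))]
            linarith [ind_nonneg (c ∧ (r ≤ |TZ h R t w| ∧ ¬ D0' t w))]
        rcases hc with hc | ⟨U, hU, hc⟩
        · have h1 := hge _ hc
          have h2 : 0 ≤ ∑ U ∈ UU i, (ind (W.ch U t w ∧ (r ≤ |TZ h R t w| ∧ ¬ D0' t w)) +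
              ind (W.ch U t w ∧ (r ≤ |TZ h R (t + 1) w| ∧ ¬ D0' (t + 1) w))) :=
            Finset.sum_nonneg fun U _ => add_nonneg (ind_nonneg _) (ind_nonneg _)
          linarith
        · have h1 := hge _ hc
          have h2 : (ind (W.ch U t w ∧ (r ≤ |TZ h R t w| ∧ ¬ D0' t w)) +
              ind (W.ch U t w ∧ (r ≤ |TZ h R (t + 1) w| ∧ ¬ D0' (t + 1) w))) ≤
              ∑ U ∈ UU i, (ind (W.ch U t w ∧ (r ≤ |TZ h R t w| ∧ ¬ D0' t w)) +
              ind (W.ch U t w ∧ (r ≤ |TZ h R (t + 1) w| ∧ ¬ D0' (t + 1) w))) :=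
            Finset.single_le_sum (f := fun U => ind (W.ch U t w ∧ (r ≤ |TZ h R t w| ∧ ¬ D0' t w)) +
              ind (W.ch U t w ∧ (r ≤ |TZ h R (t + 1) w| ∧ ¬ D0' (t + 1) w)))
              (fun U _ => add_nonneg (ind_nonneg _) (ind_nonneg _)) hU
          have h3 := ind_nonneg (chE h i (R i) t w ∧ (r ≤ |TZ h R t w| ∧ ¬ D0' t w))
          have h4 := ind_nonneg (chE h i (R i) t w ∧ (r ≤ |TZ h R (t + 1) w| ∧ ¬ D0' (t + 1) w))
          linarith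
      refine g5.trans ?_
      rw [FP.E_add, FP.E_add, FP.E_sum]
      have g6 : ∑ U ∈ UU i, Pm.E (fun w => ind (W.ch U t w ∧ (r ≤ |TZ h R t w| ∧ ¬ D0' t w)) +
              ind (W.ch U t w ∧ (r ≤ |TZ h R (t + 1) w| ∧ ¬ D0' (t + 1) w))) ≤
          ∑ U ∈ UU i, 2 * σ U * Pm.Pr (W.ch U t) := by
        refine Finset.sum_le_sum fun U hU => ?_
        rw [FP.E_add]
        have h1 := g3 U hU
        have h2 := g4 U hU
        unfold FP.Pr at h1 h2 ⊢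
        linarith
      unfold FP.Pr at g1 g2 g6 ⊢
      linarith
    refine (Finset.sum_le_sum hlev).trans ?_
    rw [Finset.sum_add_distrib, ← Finset.mul_sum, Finset.sum_comm]
    have h1 : 2 * σe * ∑ t ∈ range N, Pm.Pr (fun w : Sp k N 3 Θ P => chE h i (R i) t w) ≤ 2 * σe * W.J :=
      mul_le_mul_of_nonneg_left W.eJ (by positivity)
    have h2 : ∑ U ∈ UU i, ∑ t ∈ range N, 2 * σ U * Pm.Pr (W.ch U t) ≤ ∑ U ∈ UU i, 2 * σ U * W.J := by
      refine Finset.sum_le_sum fun U hU => ?_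
      rw [← Finset.mul_sum]
      exact mul_le_mul_of_nonneg_left (W.chJ U hU) (by have := hσ0 U hU; positivity)
    have h3 : 2 * W.J * (σe + ∑ U ∈ UU i, σ U) = 2 * σe * W.J + ∑ U ∈ UU i, 2 * σ U * W.J := by
      rw [mul_add, Finset.mul_sum]
      congr 1
      · ring
      · exact Finset.sum_congr rfl fun U _ => by ring
    linarith
  set q2 := Pm.Pr (D0' N) + W.q + 2 * W.J * (σe + ∑ U ∈ UU i, σ U) with hq2
  have hD2q' : Pm.Pr (D2 N) ≤ q2 := by linarith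
  -- the one view theorem
  have h1 := FP.one_view_free (Pm (k := k) (N := N) (m := 3) (Θ := Θ) (P := P)) (W.view (2 * r) (by positivity) D2)
    (fun t w _ => hD2inc t w) (S := fun t v => N < t ∨ r ≤ |TZ h R t v|)
    (fun t w _ hX hD => by
      rcases Nat.lt_or_ge N t with hh | hh
      · exact Or.inl hh
      · have := hXS t hh w hX hD
        exact Or.inr (by linarith)) N (θ := θ)
    (by
      refine le_trans (FP.Pr_mono _ (fun w _ => ?_)) hθ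
      rintro (hh | hh)
      · exact absurd hh (lt_irrefl N)
      · exact hh)
    (UU i) (fun U t => Zk U (ex N (t + 1) - (h + 3))) (ρ := σ) (b := W.b) (b0 := W.b0)
    (fun U hU t ht => W.bA U hU t ht) (fun U hU t ht => W.bZ U hU t ht) (fun U hU t ht w _ => W.bn U t w)
    (fun t ht => W.b0A t ht) (fun t ht w _ => W.b0n t w)
    (fun t ht w _ _ => W.bias t ht w)
    (fun t ht w _ hX hA => hev t ht w hX hA)
    (fun U hU t ht w _ _ => by
      refine le_trans (FP.ce_mono _ (fun v _ => ind_mono ?_) w) (hσ U hU t ht w)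
      rintro ⟨hh, hd⟩
      rcases hh with hh | hh
      · exact absurd (hh.trans ht) (lt_irrefl N)
      · exact ⟨hh, fun h' => hd (hD2 t v h')⟩)
    (s2 := 4 * r) (by linarith)
  have h2 := FP.one_view_T (Pm (k := k) (N := N) (m := 3) (Θ := Θ) (P := P)) (W.view (2 * r) (by positivity) D2)
    (fun t w _ => hD2inc t w) (S' := fun t v => t ≤ N ∧ 4 * r + W.eta ≤ |TZ h R t v|) (s2 := 4 * r)
    (fun t w _ hS hD => hSX (4 * r) t hS.1 w (by linarith) hS.2 hD) N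
  have h3 : (4 * r - 2 * r) ^ 2 = 4 * r ^ 2 := by ring
  rw [h3] at h1
  have h4 : ∑ t ∈ range N, Pm.E (fun w => ind (¬ D2 t w) * W.b0 t w) ≤ W.e3 := by
    refine (Finset.sum_le_sum fun t _ => FP.E_mono _ (fun w _ => ?_)).trans W.b0e
    refine mul_le_mul_of_nonneg_right (ind_mono fun hn => ?_) (W.b0n t w)
    exact fun h => hn (hD2 t w (h0 t w h))
  have h5 : ∑ U ∈ UU i, σ U * ∑ t ∈ range N, Pm.E (W.b U t) ≤ ∑ U ∈ UU i, σ U * W.hb U :=
    Finset.sum_le_sum fun U hU => mul_le_mul_of_nonneg_left (W.bh U hU) (hσ0 U hU)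
  set A1 := (Pm (k := k) (N := N) (m := 3) (Θ := Θ) (P := P)).Pr
    (fun w => ∃ t ≤ N, Pm.Al W.A D2 (1 / 2) t w ∧ 4 * r ≤ |W.X t w|) with hA1
  have h6 : 4 * r ^ 2 * A1 ≤ 1458 * (θ + W.e3 + ∑ U ∈ UU i, σ U * W.hb U + q2) := by
    have : (2 : ℝ) * 729 = 1458 := by norm_num
    rw [this] at h1
    linarith
  have h7 : A1 ≤ 1458 / (4 * r ^ 2) * (θ + W.e3 + ∑ U ∈ UU i, σ U * W.hb U + q2) := by
    rw [div_mul_eq_mul_div, le_div_iff₀ (by positivity), mul_comm]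
    exact h6
  have h8 : (Pm (k := k) (N := N) (m := 3) (Θ := Θ) (P := P)).Pr (fun w => ∃ t ≤ N, 4 * r + W.eta ≤ |TZ h R t w|) ≤
      (Pm (k := k) (N := N) (m := 3) (Θ := Θ) (P := P)).Pr
        (fun w => ∃ t ≤ N, t ≤ N ∧ 4 * r + W.eta ≤ |TZ h R t w|) := by
    refine FP.Pr_mono _ (fun w _ => ?_)
    rintro ⟨t, ht, hh⟩
    exact ⟨t, ht, ht, hh⟩
  linarith

end Mod

end Pool.Agent.M3
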